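import Pool.Agent.Lib.stark.Defs2
import Pool.Agent.Lib.MP_6bf7a3_nt.Subfield

open NumberField Ideal
open scoped Pointwise

namespace Pool.Agent.Lib.Stark

namespace G0a

set_option linter.unusedSectionVars false

section Two

variable {K Ω : Type} [Field K] [NumberField K] [Field Ω] [NumberField Ω] [Algebra K Ω]

omit [Algebra K Ω] [NumberField Ω] in
theorem card_eq (p : Ideal (𝓞 K)) : Nat.card (𝓞 K ⧸ p) = absNorm p := by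
  rw [absNorm_apply, Submodule.cardQuot_apply]

theorem fin_quot {p : Ideal (𝓞 K)} (hp : p.IsMaximal) {P : Ideal (𝓞 Ω)}
    (hP : P ∈ p.primesOver (𝓞 Ω)) : P.IsMaximal ∧ Finite (𝓞 Ω ⧸ P) := by
  obtain ⟨hP, hPp⟩ := hP
  have hPm : P.IsMaximal := Ideal.IsMaximal.of_liesOver_isMaximal P p
  have hP0 : P ≠ ⊥ := Ring.ne_bot_of_isMaximal_of_not_isField hPm (RingOfIntegers.not_isField Ω)
  exact ⟨hPm, Ring.HasFiniteQuotients.finiteQuotient hP0⟩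

theorem frob_iff [IsGalois K Ω] {p : Ideal (𝓞 K)} {P : Ideal (𝓞 Ω)} (hP : P ∈ p.primesOver (𝓞 Ω))
    (σ : Ω ≃ₐ[K] Ω) : Frob p P σ ↔ IsArithFrobAt (𝓞 K) σ P := by
  have e : absNorm p = Nat.card (𝓞 K ⧸ P.under (𝓞 K)) := by
    rw [← hP.2.over, card_eq]
  constructor
  · intro h x
    rw [← e]
    exact h.2 x
  · intro h
    refine ⟨hP, fun x => ?_⟩
    rw [e]
    exact h x

theorem exists_frob [IsGalois K Ω] {p : Ideal (𝓞 K)} (hp : p.IsMaximal) {P : Ideal (𝓞 Ω)}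
    (hP : P ∈ p.primesOver (𝓞 Ω)) : ∃ σ : Ω ≃ₐ[K] Ω, Frob p P σ := by
  have := (fin_quot hp hP).2
  have := hP.1
  obtain ⟨σ, hσ⟩ := IsArithFrobAt.exists_of_isInvariant (𝓞 K) (Ω ≃ₐ[K] Ω) P
  exact ⟨σ, (frob_iff hP σ).2 hσ⟩

theorem frob_smul_eq [IsGalois K Ω] {p : Ideal (𝓞 K)} {P : Ideal (𝓞 Ω)} {σ : Ω ≃ₐ[K] Ω} (h : Frob p P σ) :
    σ • P = P := by
  have := h.1.1
  exact ((frob_iff h.1 σ).1 h).mem_stabilizer

theorem frob_root [IsGalois K Ω] {p : Ideal (𝓞 K)} {P : Ideal (𝓞 Ω)} {σ : Ω ≃ₐ[K] Ω}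
    (h : Frob p P σ) (ζ : Ω) (l : ℕ) (hζ : ζ ^ l = 1) (hl : l.Coprime (absNorm p)) : σ ζ = ζ ^ absNorm p := by
  have hP := h.1.1
  have hq : ((absNorm p : ℕ) : 𝓞 Ω) ∈ P := by
    have h1 : ((absNorm p : ℕ) : 𝓞 K) ∈ P.under (𝓞 K) := by
      rw [← h.1.2.over]
      exact Ideal.absNorm_mem p
    simpa using (Ideal.mem_comap.1 h1)
  have hlP : ((l : ℕ) : 𝓞 Ω) ∉ P := by
    intro hm
    obtain ⟨a, b, hab⟩ := (Nat.isCoprime_iff_coprime.2 hl).map (Int.castRingHom (𝓞 Ω))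
    refine hP.ne_top ((Ideal.eq_top_iff_one P).2 ?_)
    rw [← hab]
    exact P.add_mem (P.mul_mem_left _ (by simpa using hm)) (P.mul_mem_left _ (by simpa using hq))
  have hl0 : l ≠ 0 := by
    rintro rfl
    exact hlP (by simp)
  have hint : IsIntegral ℤ ζ := IsIntegral.of_pow (Nat.pos_of_ne_zero hl0) (hζ ▸ isIntegral_one)
  obtain ⟨z, rfl⟩ : ∃ z : 𝓞 Ω, (z : Ω) = ζ := ⟨⟨ζ, hint⟩, rfl⟩
  have h2 : z ^ l = 1 := by
    apply RingOfIntegers.ext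
    simpa using hζ
  have h3 := ((frob_iff h.1 σ).1 h).apply_of_pow_eq_one h2 hlP
  rw [← h.1.2.over, card_eq] at h3
  have h4 := congrArg (algebraMap (𝓞 Ω) Ω) h3
  rw [map_pow] at h4
  exact h4

theorem absNorm_eq_of_pow {p : Ideal (𝓞 K)} (hp : p.IsMaximal) {P : Ideal (𝓞 Ω)}
    (hP : P ∈ p.primesOver (𝓞 Ω)) (h : ∀ x : 𝓞 Ω, x - x ^ absNorm p ∈ P) :
    absNorm P = absNorm p := by
  obtain ⟨hPm, hfin⟩ := fin_quot hp hP
  obtain ⟨hP, hPp⟩ := hP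
  have hp0 : p ≠ ⊥ := Ring.ne_bot_of_isMaximal_of_not_isField hp (RingOfIntegers.not_isField K)
  have hq : 1 < absNorm p := by
    have h0 : absNorm p ≠ 0 := fun h0 => hp0 (absNorm_eq_zero_iff.1 h0)
    have h1 : absNorm p ≠ 1 := fun h1 => hp.ne_top (absNorm_eq_one_iff.1 h1)
    omega
  let : Field (𝓞 Ω ⧸ P) := Ideal.Quotient.field P
  have h3 := Ideal.absNorm_pow_inertiaDeg p P
  have h4 : absNorm P ≤ absNorm p := by
    refine MP_6bf7a3_nt.card_le_of_pow (F := 𝓞 Ω ⧸ P) hq fun x => ?_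
    obtain ⟨x, rfl⟩ := Ideal.Quotient.mk_surjective x
    have := h x
    rw [← Ideal.Quotient.eq, map_pow] at this
    exact this.symm
  refine le_antisymm h4 ?_
  rw [← h3]
  exact Nat.le_self_pow (Ideal.inertiaDeg_pos (R := 𝓞 K) P).ne' _

end Two

section Three

variable {K Ω Ω' : Type} [Field K] [NumberField K] [Field Ω] [NumberField Ω] [Field Ω']
  [NumberField Ω'] [Algebra K Ω] [Algebra K Ω'] [Algebra Ω Ω'] [IsScalarTower K Ω Ω']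

theorem under_mem {p : Ideal (𝓞 K)} {P' : Ideal (𝓞 Ω')} (h : P' ∈ p.primesOver (𝓞 Ω')) :
    P'.under (𝓞 Ω) ∈ p.primesOver (𝓞 Ω) := by
  have := h.1
  refine ⟨inferInstance, ⟨?_⟩⟩
  rw [Ideal.under_under, ← h.2.over]

theorem res_smul [Normal K Ω] (σ' : Ω' ≃ₐ[K] Ω') (x : 𝓞 Ω) :
    algebraMap (𝓞 Ω) (𝓞 Ω') ((σ'.restrictNormal Ω) • x) = σ' • algebraMap (𝓞 Ω) (𝓞 Ω') x := by
  apply RingOfIntegers.ext
  exact AlgEquiv.restrictNormal_commutes σ' Ω (x : Ω)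

theorem frob_res [Normal K Ω] {p : Ideal (𝓞 K)} {P' : Ideal (𝓞 Ω')} {σ' : Ω' ≃ₐ[K] Ω'}
    (h : Frob p P' σ') : Frob p (P'.under (𝓞 Ω)) (σ'.restrictNormal Ω) := by
  refine ⟨under_mem h.1, fun x => ?_⟩
  rw [Ideal.under, Ideal.mem_comap, map_sub, map_pow, res_smul]
  exact h.2 _

theorem res_mul [Normal K Ω] (g : Ω' ≃ₐ[Ω] Ω') (σ' : Ω' ≃ₐ[K] Ω') :
    ((g.restrictScalars K) * σ').restrictNormal Ω = σ'.restrictNormal Ω := by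
  ext x
  apply (algebraMap Ω Ω').injective
  rw [AlgEquiv.restrictNormal_commutes, AlgEquiv.restrictNormal_commutes, AlgEquiv.mul_apply,
    ← AlgEquiv.restrictNormal_commutes]
  exact g.commutes _

theorem frob_lift [IsGalois K Ω] [IsGalois K Ω'] {p : Ideal (𝓞 K)} (hp : p.IsMaximal)
    {P : Ideal (𝓞 Ω)} {σ : Ω ≃ₐ[K] Ω} (h : Frob p P σ) :
    ∃ (P' : Ideal (𝓞 Ω')) (σ' : Ω' ≃ₐ[K] Ω'),
      P'.under (𝓞 Ω) = P ∧ Frob p P' σ' ∧ σ'.restrictNormal Ω = σ := by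
  have hPm := (fin_quot hp h.1).1
  have : IsGalois Ω Ω' := IsGalois.tower_top_of_isGalois K Ω Ω'
  obtain ⟨P', hP'm, hP'⟩ := exists_maximal_ideal_liesOver_of_isIntegral (S := 𝓞 Ω') P
  have hP'p : P' ∈ p.primesOver (𝓞 Ω') := by
    refine ⟨hP'm.isPrime, ⟨?_⟩⟩
    rw [← Ideal.under_under (B := 𝓞 Ω), ← hP'.over, ← h.1.2.over]
  obtain ⟨σ1, hσ1⟩ := AlgEquiv.restrictNormalHom_surjective (F := K) (K₁ := Ω) Ω' σ
  replace hσ1 : σ1.restrictNormal Ω = σ := hσ1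
  have hst := frob_smul_eq h
  have hu : (σ1 • P').under (𝓞 Ω) = P'.under (𝓞 Ω) := by
    rw [← hP'.over]
    ext x
    rw [Ideal.under, Ideal.mem_comap, Ideal.mem_pointwise_smul_iff_inv_smul_mem]
    have e : σ1⁻¹ • algebraMap (𝓞 Ω) (𝓞 Ω') x = algebraMap (𝓞 Ω) (𝓞 Ω') (σ⁻¹ • x) := by
      rw [inv_smul_eq_iff, ← res_smul, hσ1, smul_inv_smul]
    rw [e, ← Ideal.mem_comap, ← Ideal.under, ← hP'.over,
      ← Ideal.mem_pointwise_smul_iff_inv_smul_mem, hst]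
  obtain ⟨g, hg⟩ := Algebra.IsInvariant.exists_smul_of_under_eq (𝓞 Ω) (𝓞 Ω') (Ω' ≃ₐ[Ω] Ω')
    (σ1 • P') P' hu
  set σ2 : Ω' ≃ₐ[K] Ω' := (g.restrictScalars K) * σ1 with hσ2
  have hσ2r : σ2.restrictNormal Ω = σ := by rw [hσ2, res_mul, hσ1]
  have hσ2s : σ2 • P' = P' := by
    rw [hσ2, mul_smul]
    exact hg.symm
  obtain ⟨τ, hτ⟩ := exists_frob hp hP'p
  have hψ : τ * σ2⁻¹ ∈ MulAction.stabilizer (Ω' ≃ₐ[K] Ω') P' :=
    Subgroup.mul_mem _ (frob_smul_eq hτ) (Subgroup.inv_mem _ hσ2s)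
  have := hP'p.2
  let f0 := Ideal.Quotient.stabilizerHom P' p (Ω' ≃ₐ[K] Ω') ⟨_, hψ⟩
  have hf0 : ∀ y : 𝓞 Ω', f0 (Ideal.Quotient.mk P' y) =
      Ideal.Quotient.mk P' ((τ * σ2⁻¹) • y) := fun _ => rfl
  let f : (𝓞 Ω' ⧸ P') ≃ₐ[𝓞 Ω ⧸ P] (𝓞 Ω' ⧸ P') := AlgEquiv.ofRingEquiv (f := f0.toRingEquiv) (by
    intro x
    obtain ⟨x, rfl⟩ := Ideal.Quotient.mk_surjective x
    change f0 (Ideal.Quotient.mk P' (algebraMap (𝓞 Ω) (𝓞 Ω') x)) =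
      Ideal.Quotient.mk P' (algebraMap (𝓞 Ω) (𝓞 Ω') x)
    have e : σ2⁻¹ • algebraMap (𝓞 Ω) (𝓞 Ω') x = algebraMap (𝓞 Ω) (𝓞 Ω') (σ⁻¹ • x) := by
      rw [inv_smul_eq_iff, ← res_smul, hσ2r, smul_inv_smul]
    rw [hf0, mul_smul, e, Ideal.Quotient.eq]
    have h1 := hτ.2 (algebraMap (𝓞 Ω) (𝓞 Ω') (σ⁻¹ • x))
    have h2 := h.2 (σ⁻¹ • x)
    rw [smul_inv_smul, hP'.over, Ideal.under, Ideal.mem_comap, map_sub, map_pow] at h2
    simpa using P'.sub_mem h1 h2)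
  obtain ⟨k, hk⟩ := Ideal.Quotient.stabilizerHom_surjective (Ω' ≃ₐ[Ω] Ω') P P' f
  refine ⟨P', (k.1.restrictScalars K) * σ2, hP'.over.symm, ⟨hP'p, fun y => ?_⟩,
    by rw [res_mul, hσ2r]⟩
  have h1 : Ideal.Quotient.mk P' (k.1 • σ2 • y) = Ideal.Quotient.mk P' (τ • y) := by
    have h2 := congrArg (fun φ => φ (Ideal.Quotient.mk P' (σ2 • y))) hk
    have h3 : f (Ideal.Quotient.mk P' (σ2 • y)) = Ideal.Quotient.mk P' (τ • y) := by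
      change f0 _ = _
      rw [hf0, mul_smul, inv_smul_smul]
    exact h2.trans h3
  rw [Ideal.Quotient.eq] at h1
  have h4 := P'.add_mem h1 (hτ.2 y)
  rw [sub_add_sub_cancel] at h4
  rw [mul_smul]
  exact h4

end Three

theorem fix_iff {K Ω : Type} [Field K] [NumberField K] [Field Ω] [NumberField Ω] [Algebra K Ω]
    [IsGalois K Ω] {p : Ideal (𝓞 K)} (hp : p.IsMaximal) (E : IntermediateField K Ω)
    {P : Ideal (𝓞 Ω)} (hP : P ∈ p.primesOver (𝓞 Ω)) :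
    (∃ σ ∈ E.fixingSubgroup, Frob p P σ) ↔ absNorm (P.under (𝓞 E)) = absNorm p := by
  have hE := under_mem (Ω := E) hP
  constructor
  · rintro ⟨σ, hσ, h⟩
    refine absNorm_eq_of_pow hp hE fun x => ?_
    have e : σ • algebraMap (𝓞 E) (𝓞 Ω) x = algebraMap (𝓞 E) (𝓞 Ω) x := by
      apply RingOfIntegers.ext
      exact (IntermediateField.mem_fixingSubgroup_iff E σ).1 hσ _ (x : E).2
    rw [Ideal.under, Ideal.mem_comap, map_sub, map_pow]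
    have h1 := h.2 (algebraMap (𝓞 E) (𝓞 Ω) x)
    rwa [e] at h1
  · intro h
    obtain ⟨τ, hτ⟩ := exists_frob (K := E) (fin_quot hp hE).1 (P := P) ⟨hP.1, ⟨rfl⟩⟩
    refine ⟨τ.restrictScalars K, (IntermediateField.mem_fixingSubgroup_iff E _).2
      fun x hx => τ.commutes ⟨x, hx⟩, hP, fun x => ?_⟩
    rw [← h]
    exact hτ.2 x

end G0a

theorem blockG0a : StmtLift := by
  refine ⟨fun K Ω Ω' _ _ _ _ _ _ _ _ _ _ _ _ p hp => ⟨fun P σ h => ?_, fun P' σ' h => ?_⟩,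
    fun K Ω _ _ _ _ _ _ p hp => ⟨fun P hP => G0a.exists_frob hp hP,
      fun P σ h ζ l h1 h2 => G0a.frob_root h ζ l h1 h2, fun E P hP => G0a.fix_iff hp E hP⟩⟩
  · obtain ⟨P', σ', -, h1, h2⟩ := G0a.frob_lift (Ω' := Ω') hp h
    exact ⟨P', σ', h1, h2⟩
  · exact G0a.frob_res h

end Pool.Agent.Lib.Stark
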