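import Pool.Agent.Lib.stark.Defs2

open NumberField Filter Topology Ideal

namespace Pool.Agent.Lib.Stark

namespace G4

section Sums

variable {K : Type} [Field K] [NumberField K]

theorem pTerm_nonneg (s : ℝ) (P : Ideal (𝓞 K)) : 0 ≤ pTerm s P :=
  mul_nonneg (Real.log_natCast_nonneg _) (Real.rpow_nonneg (Nat.cast_nonneg _) _)

theorem le_PS {s : ℝ} (hs : Summable fun P : {P : Ideal (𝓞 K) // P.IsMaximal} => pTerm s P.1)
    (T : Ideal (𝓞 K) → Prop) (u : Finset (Ideal (𝓞 K))) (hu : ∀ P ∈ u, P.IsMaximal ∧ T P) :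
    ∑ P ∈ u, pTerm s P ≤ PS T s := by
  classical
  have h1 : Summable fun P : {P : Ideal (𝓞 K) // P.IsMaximal ∧ T P} => pTerm s P.1 :=
    hs.comp_injective (i := Subtype.map id fun _ h => h.1)
      (Subtype.map_injective _ Function.injective_id)
  have h2 := h1.sum_le_tsum (u.subtype fun P => P.IsMaximal ∧ T P) fun P _ => pTerm_nonneg s P.1
  rwa [Finset.sum_subtype_of_mem (pTerm s) hu] at h2

theorem PS_le {s c : ℝ} (T : Ideal (𝓞 K) → Prop)
    (h : ∀ u : Finset (Ideal (𝓞 K)), (∀ P ∈ u, P.IsMaximal ∧ T P) → ∑ P ∈ u, pTerm s P ≤ c) :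
    PS T s ≤ c := by
  refine Real.tsum_le_of_sum_le (fun P => pTerm_nonneg s P.1) fun u => ?_
  have := h (u.map (Function.Embedding.subtype _)) fun P hP => by
    obtain ⟨Q, -, rfl⟩ := Finset.mem_map.1 hP
    exact Q.2
  rwa [Finset.sum_map] at this

theorem PS_add {s : ℝ} (hs : Summable fun P : {P : Ideal (𝓞 K) // P.IsMaximal} => pTerm s P.1)
    {A B T T' : Ideal (𝓞 K) → Prop} (hA : ∀ P, P.IsMaximal → A P → T P ∨ T' P)
    (hB : ∀ P, P.IsMaximal → B P → T P ∧ T' P) : PS A s + PS B s ≤ PS T s + PS T' s := by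
  classical
  rw [← le_sub_iff_add_le]
  refine PS_le A fun u hu => ?_
  rw [le_sub_comm]
  refine PS_le B fun v hv => ?_
  have hm : ∀ P ∈ u ∪ v, P.IsMaximal := fun P hP =>
    (Finset.mem_union.1 hP).elim (fun h => (hu P h).1) fun h => (hv P h).1
  have h1 := le_PS hs T ((u ∪ v).filter T) fun P hP =>
    ⟨hm P (Finset.mem_filter.1 hP).1, (Finset.mem_filter.1 hP).2⟩
  have h2 := le_PS hs T' ((u ∪ v).filter T') fun P hP =>
    ⟨hm P (Finset.mem_filter.1 hP).1, (Finset.mem_filter.1 hP).2⟩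
  have h3 := Finset.sum_union_inter (s₁ := (u ∪ v).filter T) (s₂ := (u ∪ v).filter T')
    (f := pTerm s)
  have h4 : ∑ P ∈ u, pTerm s P ≤ ∑ P ∈ (u ∪ v).filter T ∪ (u ∪ v).filter T', pTerm s P :=
    Finset.sum_le_sum_of_subset_of_nonneg (fun P hP => by
      have := hA P (hu P hP).1 (hu P hP).2
      simp only [Finset.mem_union, Finset.mem_filter]
      tauto) fun P _ _ => pTerm_nonneg s P
  have h5 : ∑ P ∈ v, pTerm s P ≤ ∑ P ∈ (u ∪ v).filter T ∩ (u ∪ v).filter T', pTerm s P :=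
    Finset.sum_le_sum_of_subset_of_nonneg (fun P hP => by
      have := hB P (hv P hP).1 (hv P hP).2
      simp only [Finset.mem_union, Finset.mem_filter, Finset.mem_inter]
      tauto) fun P _ _ => pTerm_nonneg s P
  linarith

theorem pTerm_congr {E : Type} [Field E] [NumberField E] (s : ℝ) {P : Ideal (𝓞 K)}
    {Q : Ideal (𝓞 E)} (h : absNorm Q = absNorm P) : pTerm s Q = pTerm s P := by
  rw [pTerm, pTerm, h]

/-- Comparison along a map with bounded fibres. -/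
theorem PS_le_mul {E : Type} [Field E] [NumberField E] {s : ℝ}
    (hs : Summable fun P : {P : Ideal (𝓞 K) // P.IsMaximal} => pTerm s P.1)
    {T : Ideal (𝓞 K) → Prop} {T' : Ideal (𝓞 E) → Prop} (f : Ideal (𝓞 E) → Ideal (𝓞 K)) (n : ℕ)
    (hf : ∀ Q, Q.IsMaximal → T' Q → (f Q).IsMaximal ∧ T (f Q) ∧ absNorm Q = absNorm (f Q))
    (hn : ∀ (P : Ideal (𝓞 K)) (u : Finset (Ideal (𝓞 E))), P.IsMaximal →
      (∀ Q ∈ u, Q.IsMaximal ∧ f Q = P) → u.card ≤ n) : PS T' s ≤ n * PS T s := by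
  classical
  refine PS_le T' fun u hu => ?_
  have h0 : ∀ P ∈ u.image f, P.IsMaximal ∧ T P := fun P hP => by
    obtain ⟨Q, hQ, rfl⟩ := Finset.mem_image.1 hP
    exact ⟨(hf Q (hu Q hQ).1 (hu Q hQ).2).1, (hf Q (hu Q hQ).1 (hu Q hQ).2).2.1⟩
  have h1 := le_PS hs T (u.image f) h0
  refine le_trans ?_ (mul_le_mul_of_nonneg_left h1 (Nat.cast_nonneg n))
  rw [← Finset.sum_fiberwise_of_maps_to (g := f) (t := u.image f)
    (fun Q hQ => Finset.mem_image_of_mem f hQ), Finset.mul_sum]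
  refine Finset.sum_le_sum fun P hP => ?_
  rw [Finset.sum_congr rfl (g := fun _ => pTerm s P) fun Q hQ => by
    obtain ⟨h2, rfl⟩ := Finset.mem_filter.1 hQ
    exact pTerm_congr s (hf Q (hu Q h2).1 (hu Q h2).2).2.2, Finset.sum_const, nsmul_eq_mul]
  refine mul_le_mul_of_nonneg_right (Nat.cast_le.2 (hn P _ (h0 P hP).1 fun Q hQ => ?_))
    (pTerm_nonneg s P)
  exact ⟨(hu Q (Finset.mem_filter.1 hQ).1).1, (Finset.mem_filter.1 hQ).2⟩

/-- Two primes of degree one above each prime. -/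
theorem two_mul_PS_le {E : Type} [Field E] [NumberField E] {s : ℝ}
    (hs : Summable fun P : {P : Ideal (𝓞 E) // P.IsMaximal} => pTerm s P.1)
    {T : Ideal (𝓞 K) → Prop} (f : Ideal (𝓞 E) → Ideal (𝓞 K))
    (h : ∀ P : Ideal (𝓞 K), P.IsMaximal → T P → ∃ Q Q' : Ideal (𝓞 E), Q ≠ Q' ∧
      (Q.IsMaximal ∧ f Q = P ∧ absNorm Q = absNorm P) ∧
      Q'.IsMaximal ∧ f Q' = P ∧ absNorm Q' = absNorm P) :
    2 * PS T s ≤ PS (fun _ : Ideal (𝓞 E) => True) s := by
  classical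
  choose! g g' h1 h2 h3 using h
  rw [← le_div_iff₀' two_pos]
  refine PS_le T fun u hu => ?_
  have e : ∀ g : Ideal (𝓞 K) → Ideal (𝓞 E), (∀ P : Ideal (𝓞 K), P.IsMaximal → T P →
      (g P).IsMaximal ∧ f (g P) = P ∧ absNorm (g P) = absNorm P) →
      ∑ Q ∈ u.image g, pTerm s Q = ∑ P ∈ u, pTerm s P := fun g hg => by
    rw [Finset.sum_image fun P hP P' hP' hPP => by
      rw [← (hg P (hu P hP).1 (hu P hP).2).2.1, hPP, (hg P' (hu P' hP').1 (hu P' hP').2).2.1]]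
    exact Finset.sum_congr rfl fun P hP => pTerm_congr s (hg P (hu P hP).1 (hu P hP).2).2.2
  have h4 := le_PS hs (fun _ => True) (u.image g ∪ u.image g') fun Q hQ => by
    rcases Finset.mem_union.1 hQ with hQ | hQ <;> obtain ⟨P, hP, rfl⟩ := Finset.mem_image.1 hQ
    · exact ⟨(h2 P (hu P hP).1 (hu P hP).2).1, trivial⟩
    · exact ⟨(h3 P (hu P hP).1 (hu P hP).2).1, trivial⟩
  rw [Finset.sum_union, e g h2, e g' h3] at h4
  · linarith
  · refine Finset.disjoint_left.2 fun Q hQ hQ' => ?_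
    obtain ⟨P, hP, rfl⟩ := Finset.mem_image.1 hQ
    obtain ⟨P', hP', hPP⟩ := Finset.mem_image.1 hQ'
    have : P' = P := by
      rw [← (h3 P' (hu P' hP').1 (hu P' hP').2).2.1, hPP, (h2 P (hu P hP).1 (hu P hP).2).2.1]
    subst this
    exact h1 P' (hu P' hP').1 (hu P' hP').2 hPP.symm

end Sums

section Primes

variable {K E : Type} [Field K] [Field E] [NumberField K] [NumberField E] [Algebra K E]

variable (K E) in
theorem finite_ram : {p : Ideal (𝓞 K) | ¬ Algebra.IsUnramifiedIn (𝓞 E) p}.Finite := by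
  have h0 : differentIdeal (𝓞 K) (𝓞 E) ≠ ⊥ := differentIdeal_ne_bot
  obtain ⟨x, hx, hx0⟩ := Submodule.exists_mem_ne_zero_of_ne_bot h0
  refine ((Ring.HasFiniteQuotients.finite_setOfPred_mem x hx0).image
    (fun P : Ideal (𝓞 E) => P.under (𝓞 K))).subset fun p hp => ?_
  by_contra h
  refine hp fun P hP hPp => ?_
  rw [← not_dvd_differentIdeal_iff]
  exact fun hd => h ⟨P, Ideal.le_of_dvd hd hx, hPp.over.symm⟩

theorem finrank_eq : Module.finrank (𝓞 K) (𝓞 E) = Module.finrank K E :=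
  (IsFractionRing.finrank_eq (𝓞 K) K (𝓞 E) E).symm

theorem card_le (P : Ideal (𝓞 K)) (u : Finset (Ideal (𝓞 E))) (hP : P.IsMaximal)
    (hu : ∀ Q ∈ u, Q.IsMaximal ∧ Q.under (𝓞 K) = P) : u.card ≤ Module.finrank K E := by
  have : Fintype (P.primesOver (𝓞 E)) := Fintype.ofFinite _
  rw [← finrank_eq, ← sum_ramification_inertia_eq_finrank P (𝓞 E), ← Fintype.card_coe]
  refine (Fintype.card_le_of_injective (β := P.primesOver (𝓞 E))
    (fun Q => ⟨Q.1, (hu Q.1 Q.2).1.isPrime, ⟨(hu Q.1 Q.2).2.symm⟩⟩)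
    fun Q Q' h => Subtype.ext (by simpa using h)).trans ?_
  rw [← Finset.card_univ, Finset.card_eq_sum_ones]
  refine Finset.sum_le_sum fun Q _ => ?_
  have := Q.2.1
  exact Nat.mul_pos (ramificationIdx_pos Q.1 (𝓞 K)) (inertiaDeg_pos Q.1 (𝓞 K))

theorem norm_eq_of_prime {p : Ideal (𝓞 K)} {P : Ideal (𝓞 E)} (hP : P ∈ p.primesOver (𝓞 E))
    (h : (absNorm P).Prime) : absNorm p = absNorm P := by
  obtain ⟨hP, hPp⟩ := hP
  have h3 := Ideal.absNorm_pow_inertiaDeg p P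
  rw [← h3] at h ⊢
  rw [h.eq_one_of_pow, pow_one]

theorem exists_two {p : Ideal (𝓞 K)} (hp : p.IsMaximal) (hu : Algebra.IsUnramifiedIn (𝓞 E) p)
    (hn : Module.finrank K E ≠ 1) (h : ∀ Q ∈ p.primesOver (𝓞 E), absNorm Q = absNorm p) :
    ∃ Q Q' : Ideal (𝓞 E), Q ≠ Q' ∧
      (Q.IsMaximal ∧ Q.under (𝓞 K) = p ∧ absNorm Q = absNorm p) ∧
      Q'.IsMaximal ∧ Q'.under (𝓞 K) = p ∧ absNorm Q' = absNorm p := by
  have hp0 : p ≠ ⊥ := Ring.ne_bot_of_isMaximal_of_not_isField hp (RingOfIntegers.not_isField K)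
  have hq : 1 < absNorm p := by
    have h0 : absNorm p ≠ 0 := by rwa [Ne, absNorm_eq_zero_iff]
    have h1 : absNorm p ≠ 1 := by rw [Ne, absNorm_eq_one_iff]; exact hp.ne_top
    omega
  have : Fintype (p.primesOver (𝓞 E)) := Fintype.ofFinite _
  have h1 := sum_ramification_inertia_eq_finrank p (𝓞 E)
  rw [Finset.sum_congr rfl (g := fun _ => 1) fun Q _ => by
    obtain ⟨Q, hQ, hQp⟩ := Q
    have h3 := Ideal.absNorm_pow_inertiaDeg p Q
    rw [h Q ⟨hQ, hQp⟩] at h3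
    rw [hu.ramificationIdx_eq_one hQp, one_mul]
    exact Nat.pow_right_injective hq (h3.trans (pow_one _).symm), finrank_eq] at h1
  have h2 : 1 < Fintype.card (p.primesOver (𝓞 E)) := by
    have := Module.finrank_pos (R := K) (M := E)
    simp only [Finset.sum_const, Finset.card_univ, smul_eq_mul, mul_one] at h1
    omega
  obtain ⟨⟨Q, hQ, hQp⟩, ⟨Q', hQ', hQp'⟩, hQQ⟩ := Fintype.exists_pair_of_one_lt_card h2
  exact ⟨Q, Q', fun e => hQQ (Subtype.ext e),
    ⟨IsMaximal.of_liesOver_isMaximal Q p, hQp.over.symm, h Q ⟨hQ, hQp⟩⟩,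
    IsMaximal.of_liesOver_isMaximal Q' p, hQp'.over.symm, h Q' ⟨hQ', hQp'⟩⟩

theorem norm_eq_of_galois {W : Type} [Field W] [NumberField W] [IsGalois ℚ W] {l : ℕ}
    (hl : l.Prime) {R R' : Ideal (𝓞 W)} [R.IsPrime] [R'.IsPrime] (h : (l : 𝓞 W) ∈ R)
    (h' : (l : 𝓞 W) ∈ R') : absNorm R = absNorm R' := by
  have hm : (span {(l : ℤ)}).IsMaximal :=
    ((Ideal.span_singleton_prime (by exact_mod_cast hl.ne_zero)).2
      (Nat.prime_iff_prime_int.1 hl)).isMaximal (by simpa using hl.ne_zero)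
  have e : ∀ (R : Ideal (𝓞 W)) [R.IsPrime], (l : 𝓞 W) ∈ R → R.LiesOver (span {(l : ℤ)}) :=
    fun R _ h => ⟨hm.eq_of_le (Ideal.IsPrime.ne_top inferInstance)
      ((Ideal.span_singleton_le_iff_mem _).2 (by simpa [Ideal.mem_comap] using h))⟩
  have := e R h
  have := e R' h'
  rw [← Ideal.absNorm_pow_inertiaDeg (span {(l : ℤ)}) R,
    ← Ideal.absNorm_pow_inertiaDeg (span {(l : ℤ)}) R',
    inertiaDeg_eq_of_isGaloisGroup (span {(l : ℤ)}) R R' (W ≃ₐ[ℚ] W)]

theorem split_of_galois {W : Type} [Field W] [NumberField W] [IsGalois ℚ W] [Algebra E W]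
    {R : Ideal (𝓞 W)} [R.IsPrime] (hR : (absNorm R).Prime) {p : Ideal (𝓞 K)}
    (h : absNorm p = absNorm R) (Q : Ideal (𝓞 E)) (hQ : Q ∈ p.primesOver (𝓞 E)) :
    absNorm Q = absNorm p := by
  obtain ⟨hQ, hQp⟩ := hQ
  obtain ⟨⟨R', hR', hRQ⟩⟩ := Q.nonempty_primesOver (S := 𝓞 W)
  have h1 : ((absNorm R : ℕ) : 𝓞 W) ∈ R' := by
    have h2 := absNorm_mem p
    rw [h, hQp.over, Ideal.mem_comap, map_natCast, hRQ.over, Ideal.mem_comap, map_natCast] at h2
    exact h2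
  have h2 := norm_eq_of_galois hR (absNorm_mem R) h1
  rw [norm_eq_of_prime ⟨hR', hRQ⟩ (h2 ▸ hR), h, h2]

end Primes

theorem exists_closure (E : Type) [Field E] [NumberField E] :
    ∃ (W : Type) (_ : Field W) (_ : NumberField W) (_ : Algebra E W), IsGalois ℚ W := by
  let W := IntermediateField.normalClosure ℚ E (AlgebraicClosure E)
  have : IsAlgClosure ℚ (AlgebraicClosure E) := IsAlgClosure.ofAlgebraic ℚ E _
  have : Normal ℚ W := normalClosure.normal ℚ E _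
  have : FiniteDimensional ℚ W := inferInstance
  have : NumberField W := NumberField.of_module_finite ℚ W
  exact ⟨W, inferInstance, this, inferInstance, IsGalois.mk⟩

end G4

open G4 in
theorem blockG4 (h1 : StmtDens) (h3 : StmtLift) (hR : StmtR1) : StmtBauer := by
  intro K _ _ σ₁ σ₂ c hK Ω _ _ _ _ Δ N hΔ
  by_contra hne
  let E := IntermediateField.fixedField Δ
  have hE : E.fixingSubgroup = Δ := IntermediateField.fixingSubgroup_fixedField Δ
  have hn : Module.finrank K E ≠ 1 := fun h => hne (by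
    rw [← hE, IntermediateField.finrank_eq_one_iff.1 h, IntermediateField.fixingSubgroup_bot])
  obtain ⟨N₁, hN₁⟩ := (hR.2.1 K σ₁ σ₂ c hK).split
  have hcc := fun I => ((hR.2.1 K σ₁ σ₂ c hK).cI_cI I).1
  obtain ⟨N₂, hN₂⟩ := ((finite_ram K E).image absNorm).bddAbove
  obtain ⟨W, _, _, _, hW⟩ := exists_closure E
  let : Algebra K W := ((algebraMap E W).comp (algebraMap K E)).toAlgebra
  set M := max N (max N₁ N₂) with hM
  have big : ∀ {p : Ideal (𝓞 K)} {n : ℕ}, n ≤ M → Big M p → Big n p := fun h hp =>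
    ⟨hp.1, hp.2.1, h.trans_lt hp.2.2⟩
  have bigc : ∀ p : Ideal (𝓞 K), Big M p → Big M (cI c p) ∧ absNorm (cI c p) = absNorm p :=
    fun p hp => by
      obtain ⟨-, h2, h4, -⟩ := hN₁ p (big (by omega) hp)
      exact ⟨⟨h2.1, h2.2.1, h4 ▸ hp.2.2⟩, h4⟩
  let Spl : Ideal (𝓞 K) → Prop := fun p => ∀ Q ∈ p.primesOver (𝓞 E), absNorm Q = absNorm p
  have spl : ∀ p : Ideal (𝓞 K), p.IsMaximal → (∀ P σ, Frob p P σ → σ ∈ Δ) → Spl p := by
    rintro p hp h Q ⟨hQ, hQp⟩
    obtain ⟨⟨P, hP, hPQ⟩⟩ := Q.nonempty_primesOver (S := 𝓞 Ω)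
    have hPp : P ∈ p.primesOver (𝓞 Ω) := ⟨hP, LiesOver.trans P Q p⟩
    obtain ⟨h4, -, h5⟩ := h3.2 K Ω p hp
    obtain ⟨σ, hσ⟩ := h4 P hPp
    rw [hPQ.over]
    exact (h5 E P hPp).1 ⟨σ, hE ▸ h P σ hσ, hσ⟩
  have key : ∀ s : ℝ, 1 < s → (Module.finrank K W : ℝ) *
      ((s - 1) * PS (fun _ : Ideal (𝓞 K) => True) s -
        (s - 1) * PS (fun P : Ideal (𝓞 K) => ¬Big M P) s) +
      ((s - 1) * PS (fun _ : Ideal (𝓞 W) => True) s -
        (s - 1) * PS (fun P : Ideal (𝓞 W) => ¬Big M P) s) ≤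
      (Module.finrank K W : ℝ) * ((s - 1) * PS (fun _ : Ideal (𝓞 E) => True) s) := by
    intro s hs
    have sK := (h1.1 K).summ s hs
    have sE := (h1.1 E).summ s hs
    have sW := (h1.1 W).summ s hs
    have a1 := PS_add sK (A := fun _ => True) (B := fun _ => False) (T := Big M)
      (T' := fun P => ¬Big M P) (fun P _ _ => em _) fun P _ h => h.elim
    have a2 := PS_add sW (A := fun _ => True) (B := fun _ => False) (T := Big M)
      (T' := fun P => ¬Big M P) (fun P _ _ => em _) fun P _ h => h.elim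
    have b1 := le_PS sK (fun _ => False) ∅ (by simp)
    have b2 := le_PS sW (fun _ => False) ∅ (by simp)
    have a3 := PS_add sK (A := Big M) (B := fun p => Big M p ∧ Spl p ∧ Spl (cI c p))
      (T := fun p => Big M p ∧ Spl p) (T' := fun p => Big M p ∧ Spl (cI c p))
      (fun p hp hb => (hΔ p (big (by omega) hb)).imp (fun h => ⟨hb, spl p hp h⟩)
        fun h => ⟨hb, spl _ (bigc p hb).1.1 h⟩) fun p _ h => ⟨⟨h.1, h.2.1⟩, h.1, h.2.2⟩
    have a4 : PS (fun p => Big M p ∧ Spl (cI c p)) s ≤ PS (fun p => Big M p ∧ Spl p) s := by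
      have := PS_le_mul sK (T := fun p => Big M p ∧ Spl p)
        (T' := fun p => Big M p ∧ Spl (cI c p)) (cI c) 1
        (fun p _ h => ⟨(bigc p h.1).1.1, ⟨(bigc p h.1).1, h.2⟩, (bigc p h.1).2.symm⟩)
        fun P u _ hu => Finset.card_le_one.2 fun Q hQ Q' hQ' => by
          rw [← hcc Q, (hu Q hQ).2, ← (hu Q' hQ').2, hcc]
      simpa using this
    have a5 := two_mul_PS_le sE (T := fun p => Big M p ∧ Spl p) (fun Q => Q.under (𝓞 K))
      fun p hp h => exists_two hp (by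
        by_contra hu
        have := hN₂ ⟨p, hu, rfl⟩
        have := h.1.2.2
        omega) hn h.2
    have a6 := PS_le_mul sK (T := fun p => Big M p ∧ Spl p ∧ Spl (cI c p))
      (T' := fun R : Ideal (𝓞 W) => Big M R) (fun R => R.under (𝓞 K)) (Module.finrank K W)
      (fun R hR hb => by
        have e := norm_eq_of_prime (p := R.under (𝓞 K)) ⟨hR.isPrime, inferInstance⟩ hb.2.1
        have hm : (R.under (𝓞 K)).IsMaximal := inferInstance
        have hb' : Big M (R.under (𝓞 K)) := ⟨hm, e ▸ hb.2.1, e ▸ hb.2.2⟩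
        exact ⟨hm, ⟨hb', split_of_galois hb.2.1 e,
          split_of_galois hb.2.1 ((bigc _ hb').2.trans e)⟩, e.symm⟩)
      fun P u hP hu => card_le P u hP hu
    simp only [Finset.sum_empty] at b1 b2
    have hn0 : (0 : ℝ) ≤ Module.finrank K W := Nat.cast_nonneg _
    have a7 := mul_le_mul_of_nonneg_left (show PS (fun _ : Ideal (𝓞 K) => True) s -
      PS (fun P : Ideal (𝓞 K) => ¬Big M P) s + PS (fun p => Big M p ∧ Spl p ∧ Spl (cI c p)) s ≤
      PS (fun _ : Ideal (𝓞 E) => True) s by linarith) hn0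
    have a8 := mul_le_mul_of_nonneg_left (show (Module.finrank K W : ℝ) *
      (PS (fun _ : Ideal (𝓞 K) => True) s - PS (fun P : Ideal (𝓞 K) => ¬Big M P) s) +
      (PS (fun _ : Ideal (𝓞 W) => True) s - PS (fun P : Ideal (𝓞 W) => ¬Big M P) s) ≤
      (Module.finrank K W : ℝ) * PS (fun _ : Ideal (𝓞 E) => True) s by linarith)
      (sub_pos.2 hs).le
    linarith
  have t1 := (((h1.1 K).all.sub ((h1.1 K).small M)).const_mul (Module.finrank K W : ℝ)).add
    ((h1.1 W).all.sub ((h1.1 W).small M))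
  have t2 := (h1.1 E).all.const_mul (Module.finrank K W : ℝ)
  have := le_of_tendsto_of_tendsto t1 t2 (eventually_mem_nhdsWithin.mono key)
  linarith

end Pool.Agent.Lib.Stark
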