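import Pool.Agent.Lib.stark.Defs1
import Pool.Agent.Lib.MP_6bf7a3_nt.H5Defs2

open Complex NumberField Filter Topology Ideal
open scoped Real nonZeroDivisors ComplexConjugate

namespace Pool.Agent.Lib.Stark

/-! Part 2: lattices, ray classes, densities, Galois theory. -/

section Lattice

variable {K : Type} [Field K] [NumberField K]

/-- Full lattices. -/
def IsLat (Λ : Submodule ℤ K) : Prop := Λ.FG ∧ ∀ x : K, ∃ m : ℕ, 0 < m ∧ (m : K) * x ∈ Λ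

/-- Lattices stable under `ε`. -/
def SL (ε : K) (Λ : Submodule ℤ K) : Prop := IsLat Λ ∧ ∀ y ∈ Λ, ε * y ∈ Λ

/-- Cosets fixed by `ε`. -/
def Tor (ε : K) (Λ : Submodule ℤ K) (x : K) : Prop := (ε - 1) * x ∈ Λ

/-- Half open cone. -/
def cone (v w : K) : Set K := {p | ∃ i j : ℚ, 0 < i ∧ 0 ≤ j ∧ p = i * v + j * w}

/-- Coset of a lattice. -/
def cset (Λ : Submodule ℤ K) (x : K) : Set K := {p | p - x ∈ Λ}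

/-- Linear independence over the rationals. -/
def Ind (v w : K) : Prop := ∀ i j : ℚ, i * v + j * w = 0 → i = 0 ∧ j = 0

/-- The set has a continued generating function. -/
def Good (lam : K → ℝ) (S : Set K) : Prop := ∃ w, HasLog (fun p : S => lam p) w

open scoped Classical in
/-- The line integral attached to a set. -/
noncomputable def ell (lam : K → ℝ) (S : Set K) : ℂ := if h : Good lam S then h.choose else 0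

/-- The invariant of a coset. -/
noncomputable def Psi (σ₁ : K →+* ℝ) (ε : K) (Λ : Submodule ℤ K) (x : K) : ℂ :=
  cexp (-ell σ₁ (cset Λ x ∩ cone 1 ε))

/-- Representatives of `Λ' / Λ`. -/
def Reps (Λ Λ' : Submodule ℤ K) (R : Finset K) : Prop :=
  (∀ t ∈ R, t ∈ Λ') ∧ ∀ y ∈ Λ', ∃! t, t ∈ R ∧ y - t ∈ Λ

/-- Real quadratic field with its two embeddings and its conjugation. -/
structure RQ (σ₁ σ₂ : K →+* ℝ) (c : K ≃+* K) : Prop where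
  rank : Module.finrank ℚ K = 2
  ne : σ₂ ≠ σ₁
  cnj₁ : ∀ x, σ₁ (c x) = σ₂ x
  cnj₂ : ∀ x, σ₂ (c x) = σ₁ x

/-- A totally positive unit larger than one, of trace `n + 2`. -/
structure Lev (σ₁ σ₂ : K →+* ℝ) (ε : K) (n : ℕ) : Prop where
  norm : σ₁ ε * σ₂ ε = 1
  one_lt : 1 < σ₁ ε
  quad : (ε - 1) ^ 2 = n * ε

/-- The finite pentagon relation on `(ε - 1)⁻¹ Λ / Λ`. -/
def PentAt (ε : K) (e : ℂ) (Λ : Submodule ℤ K) (F : K → ℂ) : Prop :=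
  ∃ (G : Type) (_ : AddCommGroup G) (_ : Fintype G) (_ : DecidableEq G) (q : K → G) (f : G → ℂ)
    (b : G → G → ℂ), (∀ x y, Tor ε Λ x → Tor ε Λ y → q (x + y) = q x + q y) ∧
    (∀ x, Tor ε Λ x → (q x = 0 ↔ x ∈ Λ)) ∧ (∀ g, ∃ x, Tor ε Λ x ∧ q x = g) ∧
    (∀ x, Tor ε Λ x → f (q x) = F x) ∧ IsPent f b e

/-- All algebraic properties of the invariants at one level. -/
structure Sys (σ₁ σ₂ : K →+* ℝ) (ε : K) (F : Submodule ℤ K → K → ℂ) : Prop where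
  ne : ∀ Λ x, F Λ x ≠ 0
  per : ∀ Λ x y, y ∈ Λ → F Λ (x + y) = F Λ x
  dist : ∀ Λ Λ' R x, IsLat Λ → IsLat Λ' → Λ ≤ Λ' → Reps Λ Λ' R → F Λ' x = ∏ t ∈ R, F Λ (x + t)
  scale : ∀ Λ Λ' α x, SL ε Λ → Tor ε Λ x → 0 < σ₁ α → 0 < σ₂ α → (∀ y, α * y ∈ Λ' ↔ y ∈ Λ) →
    F Λ' (α * x) = F Λ x
  pent : ∀ Λ, SL ε Λ → PentAt ε (σ₁ ε) Λ (F Λ)
  cnj : ∀ Λ x, SL ε Λ → Tor ε Λ x → x ∉ Λ → F Λ (-x) * conj (F Λ x) = 1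
  root : ∀ Λ, SL ε Λ → ∃ k : ℕ, 0 < k ∧ F Λ 0 ^ (2 * k) = (σ₁ ε : ℂ) ^ k ∧
    ∀ (x : K) (N : ℕ), Tor ε Λ x → x ∉ Λ → (N : K) * x ∈ Λ →
      (F Λ x * F Λ (-x)) ^ (2 * N * k) = 1
  fin : {z | ∃ Λ x, SL ε Λ ∧ Tor ε Λ x ∧ z = F Λ x}.Finite

/-- `(ε - 1) Λ ⊆ p ^ a Λ`. -/
def HH (p a : ℕ) (ε : K) (Λ : Submodule ℤ K) : Prop :=
  ∀ y ∈ Λ, ∃ z ∈ Λ, (ε - 1) * y = (p : K) ^ a * z

/-- Fundamental domain for the action of the powers of `ε`. -/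
def FD (ε : K) (Y D : Set K) : Prop := D ⊆ Y ∧ ∀ p ∈ Y, ∃! k : ℤ, ε ^ k * p ∈ D

/-- Term of a signed zeta function. -/
noncomputable def zTerm (σ₁ σ₂ τ : K →+* ℝ) (s : ℂ) (p : K) : ℂ :=
  (SignType.sign (τ p) : ℝ) * ((|σ₁ p * σ₂ p| : ℝ) : ℂ) ^ (-s)

/-- `W` is the derivative at zero of the signed zeta function of `D`. -/
def ZW (σ₁ σ₂ : K →+* ℝ) (D : Set K) (W : ℂ) : Prop :=
  ∃ Ψ : ℂ → ℂ, DifferentiableOn ℂ Ψ {s | -1 / 2 < s.re} ∧ Ψ 0 = W ∧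
    ∀ s : ℂ, 1 < s.re → Ψ s = s * cos (π * s) * Gamma s ^ 2 * ∑' p : D, zTerm σ₁ σ₂ σ₂ s p

/-- The lattice of a fractional ideal. -/
def lat (a : FractionalIdeal (𝓞 K)⁰ K) : Submodule ℤ K :=
  (a : Submodule (𝓞 K) K).restrictScalars ℤ

/-- The invariant of a coset of a fractional ideal. -/
noncomputable def FF (σ₁ : K →+* ℝ) (ε : 𝓞 K) (a : FractionalIdeal (𝓞 K)⁰ K) (x : K) : ℂ :=
  Psi σ₁ (ε : K) (lat a) x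

/-- `a b⁻¹`. -/
noncomputable def dv (a : FractionalIdeal (𝓞 K)⁰ K) (b : Ideal (𝓞 K)) :
    FractionalIdeal (𝓞 K)⁰ K := a * (b : FractionalIdeal (𝓞 K)⁰ K)⁻¹

/-- Conjugate ideal. -/
noncomputable def cI (c : K ≃+* K) (I : Ideal (𝓞 K)) : Ideal (𝓞 K) :=
  I.map (RingOfIntegers.mapRingEquiv c : 𝓞 K →+* 𝓞 K)

/-- Units congruent to one modulo `ε - 1` are powers of `ε`. -/
def NR (ε : 𝓞 K) : Prop :=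
  ∀ u : (𝓞 K)ˣ, (u : 𝓞 K) - 1 ∈ span {ε - 1} → ∃ k : ℤ, ((u : 𝓞 K) : K) = (ε : K) ^ k

/-- Nonzero and coprime to the modulus. -/
def Cop (m I : Ideal (𝓞 K)) : Prop := I ⊔ m = ⊤ ∧ I ≠ ⊥

/-- A map on ideals that factors through the narrow ray class group. -/
structure RayHom (m : Ideal (𝓞 K)) {B : Type} [CommGroup B] (κ : Ideal (𝓞 K) → B) : Prop where
  mul : ∀ I J, Cop m I → Cop m J → κ (I * J) = κ I * κ J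
  triv : ∀ α : 𝓞 K, α ≠ 0 → α - 1 ∈ m → (∀ τ : K →+* ℝ, 0 < τ α) → κ (span {α}) = 1

/-- The class map onto the ray class group modulo `m` and the real places in `T`. -/
structure Univ (T : Set (K →+* ℝ)) (m : Ideal (𝓞 K)) {B : Type} [CommGroup B]
    (κ : Ideal (𝓞 K) → B) : Prop where
  hom : RayHom m κ
  surj : ∀ b, ∃ I, Cop m I ∧ κ I = b
  ker : ∀ I J, Cop m I → Cop m J → (κ I = κ J ↔ ∃ α β : 𝓞 K, α ≠ 0 ∧ β ≠ 0 ∧ α - 1 ∈ m ∧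
    β - 1 ∈ m ∧ (∀ τ ∈ T, 0 < τ α ∧ 0 < τ β) ∧ span {α} * I = span {β} * J)

/-- Dirichlet series over the ideals coprime to `m`. -/
noncomputable def LS (m : Ideal (𝓞 K)) (φ : Ideal (𝓞 K) → ℂ) (s : ℂ) : ℂ :=
  ∑' I : {I // Cop m I}, φ I * (absNorm I.1 : ℂ) ^ (-s)

/-- The series does not tend to zero at `1`. -/
def NV (m : Ideal (𝓞 K)) (φ : Ideal (𝓞 K) → ℂ) : Prop :=
  ¬Tendsto (fun s : ℝ => LS m φ s) (𝓝[>] 1) (𝓝 0)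

/-- Term of a prime sum. -/
noncomputable def pTerm (s : ℝ) (P : Ideal (𝓞 K)) : ℝ :=
  Real.log (absNorm P) * (absNorm P : ℝ) ^ (-s)

/-- Prime sum. -/
noncomputable def PS (T : Ideal (𝓞 K) → Prop) (s : ℝ) : ℝ :=
  ∑' P : {P : Ideal (𝓞 K) // P.IsMaximal ∧ T P}, pTerm s P.1

/-- Density of a set of primes. -/
def Dens (T : Ideal (𝓞 K) → Prop) (δ : ℝ) : Prop :=
  Tendsto (fun s => (s - 1) * PS T s) (𝓝[>] 1) (𝓝 δ)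

/-- Primes of degree one and norm larger than `N`. -/
def Big (N : ℕ) (P : Ideal (𝓞 K)) : Prop := P.IsMaximal ∧ (absNorm P).Prime ∧ N < absNorm P

variable {Ω : Type} [Field Ω] [Algebra K Ω]

/-- `σ` is a Frobenius element at the prime `P` above `p`. -/
def Frob (p : Ideal (𝓞 K)) (P : Ideal (𝓞 Ω)) (σ : Ω ≃ₐ[K] Ω) : Prop :=
  P ∈ p.primesOver (𝓞 Ω) ∧ ∀ x : 𝓞 Ω, σ • x - x ^ absNorm p ∈ P

/-- Reciprocity law. -/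
def Recip (m : Ideal (𝓞 K)) {B : Type} [CommGroup B] (κ : Ideal (𝓞 K) → B)
    (a : (Ω ≃ₐ[K] Ω) →* B) : Prop :=
  ∀ (p : Ideal (𝓞 K)) (P : Ideal (𝓞 Ω)) (σ : Ω ≃ₐ[K] Ω), p.IsMaximal → p ⊔ m = ⊤ → Frob p P σ →
    a σ = κ p

end Lattice

/-- Block L1: calculus of `ell`. -/
structure StmtEll (K : Type) [Field K] [NumberField K] : Prop where
  link : ∀ (lam : K → ℝ) (S : Set K) (w : ℂ), HasLog (fun p : S => lam p) w → ell lam S = w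
  par : ∀ (lam : K →+ ℝ) (Λ : Submodule ℤ K) (x v w : K), IsLat Λ → v ∈ Λ → w ∈ Λ → Ind v w →
    0 < lam v → 0 < lam w → ∃ P : Finset K,
      (∀ z, z ∈ P ↔ z - x ∈ Λ ∧ ∃ i j : ℚ, 0 < i ∧ i ≤ 1 ∧ 0 ≤ j ∧ j < 1 ∧ z = i * v + j * w) ∧
      Set.BijOn (fun y : K × ℕ × ℕ => y.1 + y.2.1 * v + y.2.2 * w) {y | y.1 ∈ P}
        (cset Λ x ∩ cone v w) ∧
      ell lam (cset Λ x ∩ cone v w) = ∑ z ∈ P, J2 (lam z) (lam v) (lam w)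
  good : ∀ (lam : K →+ ℝ) (Λ : Submodule ℤ K) (x v w : K), IsLat Λ → Ind v w →
    0 < lam v → 0 < lam w → Good lam (cset Λ x ∩ cone v w)
  add : ∀ (lam : K → ℝ) (S S' : Set K), Disjoint S S' → Good lam S → Good lam S' →
    Good lam (S ∪ S') ∧ ell lam (S ∪ S') = ell lam S + ell lam S'
  sum : ∀ (lam : K → ℝ) (R : Finset K) (S : K → Set K), (∀ t ∈ R, Good lam (S t)) →
    (R : Set K).PairwiseDisjoint S → ell lam (⋃ t ∈ R, S t) = ∑ t ∈ R, ell lam (S t)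
  scale : ∀ (lam lam' : K → ℝ) (α : K) (r : ℝ) (S S' : Set K), α ≠ 0 → 0 < r →
    (∀ p, lam (α * p) = r * lam' p) → (∀ p, α * p ∈ S ↔ p ∈ S') → Good lam' S' →
    ell lam S = ell lam' S'
  cocycle : ∀ (lam : K →+ ℝ) (Λ : Submodule ℤ K) (x v u w : K) (i j : ℚ), IsLat Λ → Ind v w →
    0 < lam v → 0 < lam w → 0 < i → 0 < j → u = i * v + j * w →
    ell lam (cset Λ x ∩ cone v w) = ell lam (cset Λ x ∩ cone v u) + ell lam (cset Λ x ∩ cone u w)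

/-- Block R1: elementary facts on real quadratic fields. -/
structure StmtBasic (K : Type) [Field K] [NumberField K] (σ₁ σ₂ : K →+* ℝ) (c : K ≃+* K) :
    Prop where
  lev : ∀ ε : 𝓞 K, σ₁ ε * σ₂ ε = 1 → 1 < σ₁ ε → ∃ n, Lev σ₁ σ₂ (ε : K) n
  pow : ∀ (ε : K) (n J : ℕ), Lev σ₁ σ₂ ε n → 0 < J → ∃ n', Lev σ₁ σ₂ (ε ^ J) n'
  norm : ∀ (ε : 𝓞 K) (n : ℕ), Lev σ₁ σ₂ (ε : K) n → absNorm (span {ε - 1}) = n ∧ 0 < n ∧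
    IsUnit ε ∧ cI c (span {ε - 1}) = span {ε - 1}
  irr : ∀ (ε : K) (n : ℕ), Lev σ₁ σ₂ ε n → Irrational (σ₁ ε) ∧ Ind 1 ε ∧ IsIntegral ℤ ε
  nr : ∀ (ε : 𝓞 K) (n : ℕ), Lev σ₁ σ₂ (ε : K) n → 8 ≤ σ₁ ε → NR ε
  cong : ∀ (ε : 𝓞 K) (m : Ideal (𝓞 K)), IsUnit ε → m ≠ ⊥ → ∃ J : ℕ, 0 < J ∧ ε ^ J - 1 ∈ m
  basis : ∀ Λ : Submodule ℤ K, IsLat Λ → ∃ b₁ b₂ : K, Ind b₁ b₂ ∧ Λ = Submodule.span ℤ {b₁, b₂}
  span2 : ∀ v w x : K, Ind v w → ∃ i j : ℚ, x = i * v + j * w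
  reps : ∀ Λ Λ' : Submodule ℤ K, IsLat Λ → IsLat Λ' → ∃ R, Reps Λ Λ' R
  sl : ∀ (ε : 𝓞 K) (a : FractionalIdeal (𝓞 K)⁰ K), a ≠ 0 → SL (ε : K) (lat a)
  signs : ∀ (Λ : Submodule ℤ K) (x : K) (s₁ s₂ : ℝ), IsLat Λ → s₁ ≠ 0 → s₂ ≠ 0 →
    ∃ y, y - x ∈ Λ ∧ 0 < s₁ * σ₁ y ∧ 0 < s₂ * σ₂ y
  emb : ∀ τ : K →+* ℝ, τ = σ₁ ∨ τ = σ₂
  split : ∃ N, ∀ p : Ideal (𝓞 K), Big N p → cI c p ≠ p ∧ Big N (cI c p) ∧
    absNorm (cI c p) = absNorm p ∧ p * cI c p = span {(absNorm p : 𝓞 K)}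
  cI_cI : ∀ I : Ideal (𝓞 K), cI c (cI c I) = I ∧ I * cI c I = span {(absNorm I : 𝓞 K)}
  narrow : ∀ m : Ideal (𝓞 K), m ≠ ⊥ → ∃ S : Finset (Ideal (𝓞 K)), (∀ b ∈ S, Cop m b) ∧
    ∀ a : FractionalIdeal (𝓞 K)⁰ K, a ≠ 0 → ∃ b ∈ S, ∃ α : K, 0 < σ₁ α ∧ 0 < σ₂ α ∧
      ∀ y, α * y ∈ a ↔ y ∈ dv 1 b
  fd : ∀ (ε : K) (n : ℕ) (Y : Set K), Lev σ₁ σ₂ ε n → 0 ∉ Y → (∀ p, ε * p ∈ Y ↔ p ∈ Y) →
    ∃ D, FD ε Y D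

/-- Block R1. -/
def StmtR1 : Prop :=
  (∀ (K : Type) [Field K] [NumberField K] (σ₁ σ₂ : K →+* ℝ), Module.finrank ℚ K = 2 → σ₂ ≠ σ₁ →
    ∃ c, RQ σ₁ σ₂ c) ∧
  (∀ (K : Type) [Field K] [NumberField K] (σ₁ σ₂ : K →+* ℝ) (c : K ≃+* K), RQ σ₁ σ₂ c →
    StmtBasic K σ₁ σ₂ c) ∧
  ∀ (K : Type) [Field K] [NumberField K] [Algebra K ℝ] (Z : Set ℂ), Z.Finite →
    (∀ z ∈ Z, IsAlgebraic ℚ z) → ∃ Ω : IntermediateField K ℂ, FiniteDimensional K Ω ∧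
      IsGalois K Ω ∧ (∀ z ∈ Z, z ∈ Ω) ∧ ∃ τ : Ω ≃ₐ[K] Ω, ∀ z : Ω, (τ z : ℂ) = conj (z : ℂ)

/-- Block L1. -/
def StmtL1 : Prop :=
  ∀ (K : Type) [Field K] [NumberField K], Module.finrank ℚ K = 2 → StmtEll K

/-- Block L2: formal properties of `Psi`. -/
def StmtPsi : Prop :=
  ∀ (K : Type) [Field K] [NumberField K] (σ₁ σ₂ : K →+* ℝ) (c : K ≃+* K), RQ σ₁ σ₂ c →
    ∀ (ε : K) (n : ℕ), Lev σ₁ σ₂ ε n →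
    (∀ Λ x y, y ∈ Λ → Psi σ₁ ε Λ (x + y) = Psi σ₁ ε Λ x) ∧
    (∀ Λ Λ' R x, IsLat Λ → IsLat Λ' → Λ ≤ Λ' → Reps Λ Λ' R →
      Psi σ₁ ε Λ' x = ∏ t ∈ R, Psi σ₁ ε Λ (x + t)) ∧
    (∀ Λ Λ' α x, SL ε Λ → Tor ε Λ x → 0 < σ₁ α → 0 < σ₂ α → (∀ y, α * y ∈ Λ' ↔ y ∈ Λ) →
      Psi σ₁ ε Λ' (α * x) = Psi σ₁ ε Λ x) ∧
    (∀ Λ x v, SL ε Λ → Tor ε Λ x → 0 < σ₁ v → 0 < σ₂ v →
      Psi σ₁ ε Λ x = cexp (-ell σ₁ (cset Λ x ∩ cone v (ε * v)))) ∧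
    ∀ Λ x (J : ℕ), SL ε Λ → 0 < J →
      Psi σ₁ (ε ^ J) Λ x = ∏ i ∈ Finset.range J, Psi σ₁ ε Λ (ε⁻¹ ^ i * x)

/-- Block T: the pentagon relation for lattices. -/
def StmtPent : Prop :=
  ∀ (K : Type) [Field K] [NumberField K] (σ₁ σ₂ : K →+* ℝ) (c : K ≃+* K), RQ σ₁ σ₂ c →
    ∀ (ε : K) (n : ℕ), Lev σ₁ σ₂ ε n → ∀ Λ, SL ε Λ → PentAt ε (σ₁ ε) Λ (Psi σ₁ ε Λ) ∧
      ∀ x, Tor ε Λ x → x ∉ Λ → Psi σ₁ ε Λ (-x) * conj (Psi σ₁ ε Λ x) = 1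

/-- Block R0. -/
def StmtSys : Prop :=
  ∀ (K : Type) [Field K] [NumberField K] (σ₁ σ₂ : K →+* ℝ) (c : K ≃+* K), RQ σ₁ σ₂ c →
    ∀ (ε : K) (n : ℕ), Lev σ₁ σ₂ ε n → Sys σ₁ σ₂ ε (Psi σ₁ ε)

/-- Block A2: unit property when `p` divides `n`. -/
def StmtA2 : Prop :=
  ∀ (K : Type) [Field K] [NumberField K] (σ₁ σ₂ : K →+* ℝ) (c : K ≃+* K), RQ σ₁ σ₂ c →
    ∀ (ε : K) (n : ℕ), Lev σ₁ σ₂ ε n → ∀ F, Sys σ₁ σ₂ ε F →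
    ∀ (Γ : Type) [LinearOrderedCommGroupWithZero Γ] (v : Valuation ℂ Γ) (p : ℕ), p.Prime →
      11 ≤ p → v p < 1 → p ∣ n → ∀ Λ x, SL ε Λ → Tor ε Λ x → v (F Λ x) = 1

/-- Block AU: unit property at large primes and algebraicity. -/
def StmtAU : Prop :=
  ∀ (K : Type) [Field K] [NumberField K] (σ₁ σ₂ : K →+* ℝ) (c : K ≃+* K), RQ σ₁ σ₂ c →
    ∀ (ε : K) (n : ℕ), Lev σ₁ σ₂ ε n → ∀ Λ x, SL ε Λ → Tor ε Λ x →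
      IsAlgebraic ℚ (Psi σ₁ ε Λ x) ∧
      ∀ (Γ : Type) [LinearOrderedCommGroupWithZero Γ] (v : Valuation ℂ Γ) (p : ℕ), p.Prime →
        11 ≤ p → v p < 1 → v (Psi σ₁ ε Λ x) = 1

/-- Block B2a: product structure at the top of the tree. -/
def StmtB2a : Prop :=
  ∀ (K : Type) [Field K] [NumberField K] (σ₁ σ₂ : K →+* ℝ) (c : K ≃+* K), RQ σ₁ σ₂ c →
    ∀ (ε : K) (n : ℕ), Lev σ₁ σ₂ ε n → ∀ F, Sys σ₁ σ₂ ε F →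
    ∀ (Γ : Type) [LinearOrderedCommGroupWithZero Γ] (v : Valuation ℂ Γ) (p : ℕ), p.Prime →
      p ≠ 2 → v p < 1 → (∀ Λ x, SL ε Λ → Tor ε Λ x → v (F Λ x) = 1) →
      ∀ (Λ : Submodule ℤ K) (a : ℕ) (t₁ t₂ : K), SL ε Λ → HH p (a + 1) ε Λ → ¬HH p (a + 2) ε Λ →
        (p : K) * t₁ ∈ Λ → (p : K) * t₂ ∈ Λ →
        (∀ y : K, (p : K) * y ∈ Λ → ∃ i j : ℤ, y - i * t₁ - j * t₂ ∈ Λ) →
        HH p (a + 1) ε (Λ ⊔ Submodule.span ℤ {t₁}) → HH p (a + 1) ε (Λ ⊔ Submodule.span ℤ {t₂}) →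
        ∀ (x : K) (i j : ℕ), Tor ε Λ x →
          v (F Λ (x + i * t₁ + j * t₂) * F Λ x - F Λ (x + i * t₁) * F Λ (x + j * t₂)) < 1

/-- Block B2b: Frobenius congruence for one ideal. -/
def StmtCong : Prop :=
  ∀ (K : Type) [Field K] [NumberField K] (σ₁ σ₂ : K →+* ℝ) (c : K ≃+* K), RQ σ₁ σ₂ c →
    ∀ (ε : 𝓞 K) (n : ℕ), Lev σ₁ σ₂ (ε : K) n → ∃ N : ℕ, ∀ p : Ideal (𝓞 K), Big N p →
    ∀ (Γ : Type) [LinearOrderedCommGroupWithZero Γ] (v : Valuation ℂ Γ), v (absNorm p) < 1 →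
      ∀ a : FractionalIdeal (𝓞 K)⁰ K, a ≠ 0 →
        (∀ x, Tor (ε : K) (lat a) x →
          v (FF σ₁ ε (dv a p) x - FF σ₁ ε a x ^ absNorm p) < 1) ∨
        ∀ x, Tor (ε : K) (lat a) x →
          v (FF σ₁ ε (dv a (cI c p)) x - FF σ₁ ε a x ^ absNorm p) < 1

/-- Block BU: uniform Frobenius congruence for a power. -/
def StmtUni : Prop :=
  ∀ (K : Type) [Field K] [NumberField K] (σ₁ σ₂ : K →+* ℝ) (c : K ≃+* K), RQ σ₁ σ₂ c →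
    ∀ (ε : 𝓞 K) (n : ℕ), Lev σ₁ σ₂ (ε : K) n → ∃ r N : ℕ, 0 < r ∧ ∀ p : Ideal (𝓞 K), Big N p →
    ∀ (Γ : Type) [LinearOrderedCommGroupWithZero Γ] (v : Valuation ℂ Γ), v (absNorm p) < 1 →
      (∀ (a : FractionalIdeal (𝓞 K)⁰ K) x, a ≠ 0 → Tor (ε : K) (lat a) x →
        v (FF σ₁ ε (dv a p) x ^ r - (FF σ₁ ε a x ^ r) ^ absNorm p) < 1) ∨
      ∀ (a : FractionalIdeal (𝓞 K)⁰ K) x, a ≠ 0 → Tor (ε : K) (lat a) x →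
        v (FF σ₁ ε (dv a (cI c p)) x ^ r - (FF σ₁ ε a x ^ r) ^ absNorm p) < 1

/-- Block SH2: Shintani formula for a coset. -/
def StmtSH2 : Prop :=
  ∀ (K : Type) [Field K] [NumberField K] (σ₁ σ₂ : K →+* ℝ) (c : K ≃+* K), RQ σ₁ σ₂ c →
    ∀ (ε : K) (n : ℕ), Lev σ₁ σ₂ ε n → ∀ Λ x D, SL ε Λ → Tor ε Λ x → FD ε (cset Λ x \ {0}) D →
      (∀ s : ℝ, 1 < s → Summable fun p : D => |σ₁ p * σ₂ p| ^ (-s)) ∧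
      ZW σ₁ σ₂ D (Real.log ‖Psi σ₁ ε Λ (-x)‖ - Real.log ‖Psi σ₁ ε Λ x‖ : ℝ)

/-- Block FE1: functional equation between `0` and `1`. -/
def StmtFE1 : Prop :=
  ∃ κ₀ : ℂ, ∀ (K : Type) [Field K] [NumberField K] (σ₁ σ₂ : K →+* ℝ) (c : K ≃+* K), RQ σ₁ σ₂ c →
    ∀ (ε : K) (n : ℕ), Lev σ₁ σ₂ ε n → ∀ (Λ : Submodule ℤ K) (b₁ b₂ x : K) (δ : ℝ) (D D' : Set K)
      (W : ℂ), SL ε Λ → Ind b₁ b₂ → Λ = Submodule.span ℤ {b₁, b₂} →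
      δ = σ₁ b₁ * σ₂ b₂ - σ₂ b₁ * σ₁ b₂ → Tor ε Λ x → FD ε (cset Λ x \ {0}) D →
      FD ε (cset Λ 0 \ {0}) D' →
      (∀ s : ℝ, 1 < s → Summable fun p : D => |σ₁ p * σ₂ p| ^ (-s)) →
      (∀ s : ℝ, 1 < s → Summable fun p : D' => |σ₁ p * σ₂ p| ^ (-s)) → ZW σ₁ σ₂ D W →
      Tendsto (fun s : ℝ => ∑' p : D',
        ee ((σ₁ x * σ₂ p - σ₂ x * σ₁ p) / δ : ℝ) * zTerm σ₁ σ₂ σ₁ s p) (𝓝[>] 1)
        (𝓝 (κ₀ * W / δ))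

/-- Block RG: ray class groups. -/
def StmtRay : Prop :=
  ∀ (K : Type) [Field K] [NumberField K] (T : Set (K →+* ℝ)) (m : Ideal (𝓞 K)), m ≠ ⊥ →
    ∃ (B : Type) (_ : CommGroup B) (_ : Finite B) (κ : Ideal (𝓞 K) → B), Univ T m κ

/-- Block TK1: continuation of ray class L-series a little to the left of `1`. -/
def StmtCont : Prop :=
  ∀ (E : Type) [Field E] [NumberField E] (m : Ideal (𝓞 E)), m ≠ ⊥ →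
    ∀ (B : Type) [CommGroup B] [Finite B] (κ : Ideal (𝓞 E) → B), RayHom m κ → ∀ χ : B →* ℂˣ,
      ∃ θ : ℝ, θ < 1 ∧ ∃ H : ℂ → ℂ, DifferentiableOn ℂ H {s | θ < s.re} ∧
        (∀ s : ℂ, 1 < s.re → H s = (s - 1) * LS m (fun I => χ (κ I)) s) ∧
        (H 1 = 0 ↔ ∃ I, Cop m I ∧ χ (κ I) ≠ 1)

/-- Block TK2a: logarithmic derivative. -/
def StmtLogDer : Prop :=
  ∀ (E : Type) [Field E] [NumberField E] (m : Ideal (𝓞 E)) (φ : Ideal (𝓞 E) → ℂ),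
    (∀ I J, Cop m I → Cop m J → φ (I * J) = φ I * φ J) → φ ⊤ = 1 → (∀ I, Cop m I → ‖φ I‖ ≤ 1) →
    (∀ s : ℝ, 1 < s → Summable fun I : {I // Cop m I} => (absNorm I.1 : ℝ) ^ (-s)) ∧
    (∀ s : ℝ, 1 < s → Summable fun x : {P : Ideal (𝓞 E) // P.IsMaximal ∧ Cop m P} × ℕ =>
      Real.log (absNorm x.1.1) * (absNorm x.1.1 : ℝ) ^ (-((x.2 + 1) * s))) ∧
    Tendsto (fun s : ℝ => LS m φ s) atTop (𝓝 1) ∧
    ∀ s : ℂ, 1 < s.re → HasDerivAt (LS m φ)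
      (-(∑' x : {P : Ideal (𝓞 E) // P.IsMaximal ∧ Cop m P} × ℕ, φ x.1 ^ (x.2 + 1) *
        (Real.log (absNorm x.1.1) * (absNorm x.1.1 : ℂ) ^ (-((x.2 + 1) * s)))) * LS m φ s) s

/-- Density calculus. -/
structure DensProp (E : Type) [Field E] [NumberField E] : Prop where
  summ : ∀ s : ℝ, 1 < s → Summable fun P : {P : Ideal (𝓞 E) // P.IsMaximal} => pTerm s P.1
  all : Dens (fun _ : Ideal (𝓞 E) => True) 1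
  small : ∀ N, Dens (fun P : Ideal (𝓞 E) => ¬Big N P) 0
  mono : ∀ T T' : Ideal (𝓞 E) → Prop, (∀ P, P.IsMaximal → T P → T' P) → Dens T' 0 → Dens T 0
  union : ∀ T T' : Ideal (𝓞 E) → Prop, Dens T 0 → Dens T' 0 → Dens (fun P => T P ∨ T' P) 0
  dich : ∀ (m : Ideal (𝓞 E)), m ≠ ⊥ → ∀ (B : Type) [CommGroup B] [Finite B]
    (κ : Ideal (𝓞 E) → B), RayHom m κ → ¬Dens (fun P => Cop m P ∧ κ P = 1) 0 →
    ∀ I, Cop m I → ¬Dens (fun P => Cop m P ∧ κ P = κ I) 0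
  quad : ∀ (m : Ideal (𝓞 E)), m ≠ ⊥ → ∀ (B : Type) [CommGroup B] [Finite B]
    (κ : Ideal (𝓞 E) → B), RayHom m κ →
    (∀ χ : B →* ℂˣ, (∀ I, Cop m I → χ (κ I) ^ 2 = 1) → (∃ I, Cop m I ∧ χ (κ I) ≠ 1) →
      NV m fun I => χ (κ I)) →
    (∀ χ : B →* ℂˣ, NV m fun I => χ (κ I)) ∧ ¬Dens (fun P => Cop m P ∧ κ P = 1) 0

/-- Block TK2b. -/
def StmtDens : Prop :=
  (∀ (E : Type) [Field E] [NumberField E], DensProp E) ∧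
  ∀ (K E : Type) [Field K] [NumberField K] [Field E] [NumberField E] [Algebra K E]
    (T : Ideal (𝓞 K) → Prop) (T' : Ideal (𝓞 E) → Prop),
    (∀ P : Ideal (𝓞 K), P.IsMaximal → T P →
      ∃ Q ∈ P.primesOver (𝓞 E), T' Q ∧ absNorm Q = absNorm P) → Dens T' 0 → Dens T 0

/-- Block TK3a: entire continuation for a real quadratic field. -/
def StmtEnt : Prop :=
  ∀ (K : Type) [Field K] [NumberField K] (σ₁ σ₂ : K →+* ℝ) (c : K ≃+* K), RQ σ₁ σ₂ c →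
    ∀ m : Ideal (𝓞 K), m ≠ ⊥ → ∀ (B : Type) [CommGroup B] [Finite B] (κ : Ideal (𝓞 K) → B),
      RayHom m κ → ∀ φ : B → ℂ, ∃ f : ℂ → ℂ, DifferentiableOn ℂ f {1}ᶜ ∧
        ∀ s : ℂ, 1 < s.re → f s = LS m (fun I => φ (κ I)) s

/-- Block TK3b: nonvanishing at `1` and primes in every class. -/
def StmtNV : Prop :=
  ∀ (K : Type) [Field K] [NumberField K] (σ₁ σ₂ : K →+* ℝ) (c : K ≃+* K), RQ σ₁ σ₂ c →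
    ∀ m : Ideal (𝓞 K), m ≠ ⊥ → ∀ (B : Type) [CommGroup B] [Finite B] (κ : Ideal (𝓞 K) → B),
      RayHom m κ → (∀ χ : B →* ℂˣ, NV m fun I => χ (κ I)) ∧
        ∀ I, Cop m I → ¬Dens (fun P => Cop m P ∧ κ P = κ I) 0

/-- Block FE2: faithfulness. -/
def StmtFaith : Prop :=
  ∀ (K : Type) [Field K] [NumberField K] (σ₁ σ₂ : K →+* ℝ) (c : K ≃+* K), RQ σ₁ σ₂ c →
    ∀ (ε : 𝓞 K) (n : ℕ), Lev σ₁ σ₂ (ε : K) n → NR ε →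
    ∀ (B : Type) [CommGroup B] [Finite B] (κ : Ideal (𝓞 K) → B), Univ Set.univ (span {ε - 1}) κ →
    ∀ b, Cop (span {ε - 1}) b →
      (∀ (a : FractionalIdeal (𝓞 K)⁰ K) x, a ≠ 0 → Tor (ε : K) (lat a) x →
        ‖FF σ₁ ε (dv a b) x‖ = ‖FF σ₁ ε a x‖) →
      κ b = 1 ∨ ∀ α : 𝓞 K, α - 1 ∈ span {ε - 1} → σ₁ α < 0 → 0 < σ₂ α → κ b = κ (span {α})

/-- Block G0a: lifting and restricting Frobenius elements, action on roots of unity. -/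
def StmtLift : Prop :=
  (∀ (K Ω Ω' : Type) [Field K] [NumberField K] [Field Ω] [NumberField Ω] [Field Ω']
    [NumberField Ω'] [Algebra K Ω] [Algebra K Ω'] [Algebra Ω Ω'] [IsScalarTower K Ω Ω']
    [IsGalois K Ω] [IsGalois K Ω'] (p : Ideal (𝓞 K)), p.IsMaximal →
    (∀ (P : Ideal (𝓞 Ω)) (σ : Ω ≃ₐ[K] Ω), Frob p P σ → ∃ (P' : Ideal (𝓞 Ω')) (σ' : Ω' ≃ₐ[K] Ω'),
      Frob p P' σ' ∧ σ'.restrictNormal Ω = σ) ∧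
    ∀ (P' : Ideal (𝓞 Ω')) (σ' : Ω' ≃ₐ[K] Ω'), Frob p P' σ' →
      Frob p (P'.under (𝓞 Ω)) (σ'.restrictNormal Ω)) ∧
  (∀ (K Ω : Type) [Field K] [NumberField K] [Field Ω] [NumberField Ω] [Algebra K Ω]
    [IsGalois K Ω] (p : Ideal (𝓞 K)), p.IsMaximal →
    (∀ P ∈ p.primesOver (𝓞 Ω), ∃ σ : Ω ≃ₐ[K] Ω, Frob p P σ) ∧
    (∀ (P : Ideal (𝓞 Ω)) (σ : Ω ≃ₐ[K] Ω), Frob p P σ → ∀ (ζ : Ω) (l : ℕ), ζ ^ l = 1 →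
      l.Coprime (absNorm p) → σ ζ = ζ ^ absNorm p) ∧
    ∀ (E : IntermediateField K Ω) (P : Ideal (𝓞 Ω)), P ∈ p.primesOver (𝓞 Ω) →
      ((∃ σ ∈ E.fixingSubgroup, Frob p P σ) ↔ absNorm (P.under (𝓞 E)) = absNorm p))

/-- Block G0b: norms of ideals. -/
def StmtNorm : Prop :=
  ∀ (K E : Type) [Field K] [NumberField K] [Field E] [NumberField E] [Algebra K E]
    (m : Ideal (𝓞 K)), m ≠ ⊥ →
    (∀ I, Cop (m.map (algebraMap (𝓞 K) (𝓞 E))) I → Cop m (relNorm (𝓞 K) I)) ∧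
    (∀ β : 𝓞 E, β - 1 ∈ m.map (algebraMap (𝓞 K) (𝓞 E)) →
      Algebra.intNorm (𝓞 K) (𝓞 E) β - 1 ∈ m) ∧
    (∀ (B : Type) [CommGroup B] (κ : Ideal (𝓞 K) → B), RayHom m κ →
      RayHom (m.map (algebraMap (𝓞 K) (𝓞 E))) fun I => κ (relNorm (𝓞 K) I)) ∧
    ∀ (P : Ideal (𝓞 K)) (Q : Ideal (𝓞 E)), P.IsMaximal → Q ∈ P.primesOver (𝓞 E) →
      ∃ f : ℕ, relNorm (𝓞 K) Q = P ^ f ∧ absNorm Q = absNorm P ^ f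

/-- Block V: valuations of the complex numbers and primes of number fields. -/
def StmtVal : Prop :=
  ∀ (K : Type) [Field K] [NumberField K] [Algebra K ℝ] (Ω : IntermediateField K ℂ)
    [FiniteDimensional K Ω],
    (∀ P : Ideal (𝓞 Ω), P.IsMaximal → ∃ V : ValuationSubring ℂ,
      ∀ x : 𝓞 Ω, V.valuation ((x : Ω) : ℂ) < 1 ↔ x ∈ P) ∧
    (∀ Z : Set Ω, Z.Finite → ∃ N : ℕ, ∀ (Γ : Type) [LinearOrderedCommGroupWithZero Γ]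
      (v : Valuation ℂ Γ) (p : ℕ), p.Prime → N < p → v p < 1 →
      ∀ z ∈ Z, ∀ z' ∈ Z, v ((z : ℂ) - z') < 1 → z = z') ∧
    ∀ (Γ : Type) [LinearOrderedCommGroupWithZero Γ] (v : Valuation ℂ Γ) (p : ℕ), p.Prime →
      v p < 1 → (∃ P : Ideal (𝓞 Ω), P.IsMaximal ∧ ∀ x : 𝓞 Ω, v ((x : Ω) : ℂ) < 1 ↔ x ∈ P) ∧
      ∀ P : Ideal (𝓞 Ω), (∀ x : 𝓞 Ω, v ((x : Ω) : ℂ) < 1 ↔ x ∈ P) → ∀ σ : Ω ≃ₐ[K] Ω,
        ((∀ x ∈ P, σ • x ∈ P) → ∀ z : Ω, v (σ z : Ω) = v (z : ℂ)) ∧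
        ∀ q : ℕ, 0 < q → (∀ x : 𝓞 Ω, σ • x - x ^ q ∈ P) → ∀ z : Ω, v (z : ℂ) ≤ 1 →
          v (((σ z : Ω) : ℂ) - (z : ℂ) ^ q) < 1

/-- Block G1b: norms are surjective modulo auxiliary integers. -/
def StmtFull : Prop :=
  ∀ (K : Type) [Field K] [NumberField K] (σ₁ σ₂ : K →+* ℝ) (c : K ≃+* K), RQ σ₁ σ₂ c →
    ∀ m : Ideal (𝓞 K), m ≠ ⊥ → ∃ M : ℕ, ∀ l : ℕ, Squarefree l →
      (∀ p : ℕ, p.Prime → p ∣ l → M < p) → ∀ g : (ZMod l)ˣ, ∃ α : 𝓞 K, α ≠ 0 ∧ α - 1 ∈ m ∧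
        0 < σ₁ α ∧ 0 < σ₂ α ∧ (absNorm (span {α}) : ZMod l) = g

/-- Block G2: norms from a fixed field lie in one of two subgroups. -/
def StmtU : Prop :=
  ∀ (K : Type) [Field K] [NumberField K] (σ₁ σ₂ : K →+* ℝ) (c : K ≃+* K), RQ σ₁ σ₂ c →
    ∀ (Ω : Type) [Field Ω] [NumberField Ω] [Algebra K Ω] [IsGalois K Ω] (m : Ideal (𝓞 K)),
      m ≠ ⊥ → ∀ (B : Type) [CommGroup B] [Finite B] (κ₁ κ₂ : Ideal (𝓞 K) → B), RayHom m κ₁ →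
      RayHom m κ₂ → ∀ (a : (Ω ≃ₐ[K] Ω) →* B) (N : ℕ),
      (∀ p P σ, Big N p → Frob p P σ → a σ = κ₁ p ∨ a σ = κ₂ p) → ∀ H : Subgroup B,
      (∀ p P σ, p.IsMaximal → p ⊔ m = ⊤ → Frob p P σ → a σ ∈ H → κ₁ p ∈ H) ∨
      ∀ p P σ, p.IsMaximal → p ⊔ m = ⊤ → Frob p P σ → a σ ∈ H → κ₂ p ∈ H

/-- Block G3: reciprocity from a dichotomy at large primes of degree one. -/
def StmtG : Prop :=
  ∀ (K : Type) [Field K] [NumberField K] (σ₁ σ₂ : K →+* ℝ) (c : K ≃+* K), RQ σ₁ σ₂ c →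
    ∀ (Ω : Type) [Field Ω] [NumberField Ω] [Algebra K Ω] [IsGalois K Ω] (m : Ideal (𝓞 K)),
      m ≠ ⊥ → ∀ (B : Type) [CommGroup B] [Finite B] (κ₁ κ₂ : Ideal (𝓞 K) → B), RayHom m κ₁ →
      RayHom m κ₂ → ∀ (a : (Ω ≃ₐ[K] Ω) →* B) (N : ℕ),
      (∀ p P σ, Big N p → Frob p P σ → a σ = κ₁ p ∨ a σ = κ₂ p) → Recip m κ₁ a ∨ Recip m κ₂ a

/-- Block G4: Frobenius elements of one prime from each conjugate pair generate. -/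
def StmtBauer : Prop :=
  ∀ (K : Type) [Field K] [NumberField K] (σ₁ σ₂ : K →+* ℝ) (c : K ≃+* K), RQ σ₁ σ₂ c →
    ∀ (Ω : Type) [Field Ω] [NumberField Ω] [Algebra K Ω] [IsGalois K Ω]
      (Δ : Subgroup (Ω ≃ₐ[K] Ω)) (N : ℕ),
      (∀ p : Ideal (𝓞 K), Big N p →
        (∀ P σ, Frob p P σ → σ ∈ Δ) ∨ ∀ P σ, Frob (cI c p) P σ → σ ∈ Δ) → Δ = ⊤

/-- Block G5: complex conjugation and decomposition groups. -/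
def StmtConj : Prop :=
  ∀ (K : Type) [Field K] [NumberField K] [Algebra K ℝ] (σ₂ : K →+* ℝ) (c : K ≃+* K),
    RQ (algebraMap K ℝ) σ₂ c → ∀ (Ω : IntermediateField K ℂ) [FiniteDimensional K Ω]
      [IsGalois K Ω] (m : Ideal (𝓞 K)), m ≠ ⊥ → ∀ (B : Type) [CommGroup B]
      (κ : Ideal (𝓞 K) → B), RayHom m κ → ∀ a : (Ω ≃ₐ[K] Ω) →* B, Recip m κ a →
      (∀ τ : Ω ≃ₐ[K] Ω, (∀ z : Ω, (τ z : ℂ) = conj (z : ℂ)) → ∀ α : 𝓞 K, α - 1 ∈ m →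
        algebraMap K ℝ α < 0 → 0 < σ₂ α → κ (span {α}) = 1 ∨ κ (span {α}) = a τ) ∧
      ∀ (p m₀ b : Ideal (𝓞 K)) (k j : ℕ) (α : 𝓞 K) (P : Ideal (𝓞 Ω)), p.IsMaximal →
        m = p ^ k * m₀ → p ⊔ m₀ = ⊤ → α - 1 ∈ m₀ → 0 < algebraMap K ℝ α → 0 < σ₂ α →
        span {α} = p ^ j * b → p ⊔ b = ⊤ → P ∈ p.primesOver (𝓞 Ω) →
        ∃ δ : Ω ≃ₐ[K] Ω, (∀ x ∈ P, δ • x ∈ P) ∧ a δ = κ b

section Act

variable {K : Type} [Field K] [NumberField K] [Algebra K ℝ]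

/-- The field contains the invariants of level `ε` and the `n`-th roots of unity. -/
def Has (Ω : IntermediateField K ℂ) (ε : 𝓞 K) (n : ℕ) : Prop :=
  (∀ (a : FractionalIdeal (𝓞 K)⁰ K) x, a ≠ 0 → Tor (ε : K) (lat a) x →
    FF (algebraMap K ℝ) ε a x ∈ Ω) ∧ ∀ ζ : ℂ, ζ ^ n = 1 → ζ ∈ Ω

/-- `σ` acts on the invariants as the ideal `b`. -/
def Acts {Ω : IntermediateField K ℂ} (ε : 𝓞 K) (σ : Ω ≃ₐ[K] Ω) (b : Ideal (𝓞 K)) : Prop :=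
  ∀ (a : FractionalIdeal (𝓞 K)⁰ K) (x : K) (z : Ω), a ≠ 0 → Tor (ε : K) (lat a) x →
    (z : ℂ) = FF (algebraMap K ℝ) ε a x → (σ z : ℂ) = FF (algebraMap K ℝ) ε (dv a b) x

/-- Consequences of the reciprocity law. -/
structure H2Prop (σ₂ : K →+* ℝ) (ε : 𝓞 K) (Ω : IntermediateField K ℂ) : Prop where
  orbit : ∀ σ : Ω ≃ₐ[K] Ω, ∃ b, Cop (span {ε - 1}) b ∧ Acts ε σ b
  act : ∀ (f r : Ideal (𝓞 K)) (P : Ideal (𝓞 Ω)) (τ : Ω ≃ₐ[K] Ω), r.IsMaximal → r ⊔ f = ⊤ →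
    Frob r P τ → ∀ (a : FractionalIdeal (𝓞 K)⁰ K) (x : K) (z : Ω), a ≠ 0 →
      Tor (ε : K) (lat a) x → (∀ y ∈ f, (y : K) * x ∈ a) → (z : ℂ) = FF (algebraMap K ℝ) ε a x →
      (τ z : ℂ) = FF (algebraMap K ℝ) ε (dv a r) x
  cnj : ∀ u : 𝓞 K, IsUnit u → algebraMap K ℝ u < 0 → 0 < σ₂ u →
    ∀ (a : FractionalIdeal (𝓞 K)⁰ K) (x : K), a ≠ 0 → Tor (ε : K) (lat a) x →
      FF (algebraMap K ℝ) ε a (u * x) = conj (FF (algebraMap K ℝ) ε a x)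
  dec : ∀ (p m₀ b : Ideal (𝓞 K)) (k j : ℕ) (α : 𝓞 K) (P : Ideal (𝓞 Ω)), p.IsMaximal →
    span {ε - 1} = p ^ k * m₀ → p ⊔ m₀ = ⊤ → α - 1 ∈ m₀ → 0 < algebraMap K ℝ α → 0 < σ₂ α →
    span {α} = p ^ j * b → p ⊔ b = ⊤ → P ∈ p.primesOver (𝓞 Ω) →
    ∃ δ : Ω ≃ₐ[K] Ω, (∀ x ∈ P, δ • x ∈ P) ∧ Acts ε δ b
  rcf : ∀ (m : Ideal (𝓞 K)), ε - 1 ∈ m → ∀ (B : Type) [CommGroup B] [Finite B]
    (κ : Ideal (𝓞 K) → B), Univ {σ₂} m κ → ∃ a₁ : (Ω ≃ₐ[K] Ω) →* B, Recip m κ a₁ ∧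
      (∀ τ : Ω ≃ₐ[K] Ω, (∀ z : Ω, (τ z : ℂ) = conj (z : ℂ)) → a₁ τ = 1) ∧
      ∀ (σ : Ω ≃ₐ[K] Ω) b, Cop m b → a₁ σ = κ b → ∀ (a : FractionalIdeal (𝓞 K)⁰ K) (x : K)
        (z : Ω), a ≠ 0 → (∀ y ∈ m, (y : K) * x ∈ a) → (z : ℂ) = FF (algebraMap K ℝ) ε a x →
        (σ z : ℂ) = FF (algebraMap K ℝ) ε (dv a b) x ∨
        (σ z : ℂ) = conj (FF (algebraMap K ℝ) ε (dv a b) x)

/-- Square root of the absolute value of the invariant of level `u ^ 2`. -/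
noncomputable def lamb (u : 𝓞 K) (a : FractionalIdeal (𝓞 K)⁰ K) (x : K) : ℂ :=
  (Real.sqrt ‖FF (algebraMap K ℝ) (u ^ 2) a x‖ : ℝ)

/-- Nonzero cosets fixed by `u`. -/
def Fam (u : 𝓞 K) (a : FractionalIdeal (𝓞 K)⁰ K) (x : K) : Prop :=
  a ≠ 0 ∧ ((u : K) - 1) * x ∈ a ∧ x ∉ a

end Act

/-- Block H: the reciprocity law for the invariants. -/
def StmtH : Prop :=
  ∀ (K : Type) [Field K] [NumberField K] [Algebra K ℝ] (σ₂ : K →+* ℝ) (c : K ≃+* K),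
    RQ (algebraMap K ℝ) σ₂ c → ∀ (ε : 𝓞 K) (n : ℕ), Lev (algebraMap K ℝ) σ₂ (ε : K) n → NR ε →
    ∀ (B : Type) [CommGroup B] [Finite B] (κ : Ideal (𝓞 K) → B), Univ Set.univ (span {ε - 1}) κ →
    ∀ (Ω : IntermediateField K ℂ) [FiniteDimensional K Ω] [IsGalois K Ω], Has Ω ε n →
      ∃ a : (Ω ≃ₐ[K] Ω) →* B, Recip (span {ε - 1}) κ a ∧
        (∀ σ b, Cop (span {ε - 1}) b → a σ = κ b → Acts ε σ b) ∧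
        ∀ τ : Ω ≃ₐ[K] Ω, (∀ z : Ω, (τ z : ℂ) = conj (z : ℂ)) → ∀ α : 𝓞 K, α - 1 ∈ span {ε - 1} →
          algebraMap K ℝ α < 0 → 0 < σ₂ α → a τ = κ (span {α})

/-- Block H2. -/
def StmtH2 : Prop :=
  ∀ (K : Type) [Field K] [NumberField K] [Algebra K ℝ] (σ₂ : K →+* ℝ) (c : K ≃+* K),
    RQ (algebraMap K ℝ) σ₂ c → ∀ (ε : 𝓞 K) (n : ℕ), Lev (algebraMap K ℝ) σ₂ (ε : K) n → NR ε →
    ∀ (Ω : IntermediateField K ℂ) [FiniteDimensional K Ω] [IsGalois K Ω], Has Ω ε n →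
      H2Prop σ₂ ε Ω

/-- Block S2: the invariants are units. -/
def StmtUnit : Prop :=
  ∀ (K : Type) [Field K] [NumberField K] [Algebra K ℝ] (σ₂ : K →+* ℝ) (c : K ≃+* K),
    RQ (algebraMap K ℝ) σ₂ c → ∀ (ε : 𝓞 K) (n : ℕ), Lev (algebraMap K ℝ) σ₂ (ε : K) n →
    ∀ (a : FractionalIdeal (𝓞 K)⁰ K) (x : K), a ≠ 0 → Tor (ε : K) (lat a) x →
      IsIntegral ℤ (FF (algebraMap K ℝ) ε a x) ∧ IsIntegral ℤ (FF (algebraMap K ℝ) ε a x)⁻¹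

/-- Block C1: two good Frobenius elements commute on the square roots. -/
def StmtC1 : Prop :=
  ∀ (K : Type) [Field K] [NumberField K] [Algebra K ℝ] (σ₂ : K →+* ℝ) (c : K ≃+* K),
    RQ (algebraMap K ℝ) σ₂ c → ∀ u : 𝓞 K, algebraMap K ℝ u * σ₂ u = -1 → algebraMap K ℝ u < -3 →
    ∀ (a : FractionalIdeal (𝓞 K)⁰ K) (x : K), Fam u a x → ∃ N : ℕ,
      ∀ (Ω : IntermediateField K ℂ) [FiniteDimensional K Ω] [IsGalois K Ω]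
        (q : Ideal (𝓞 K)) (Q : Ideal (𝓞 Ω)) (σ : Ω ≃ₐ[K] Ω) (z : Ω), Big N q →
        (∀ j : ℕ, Odd j → u ^ j - 1 ∉ q) → Frob q Q σ → (z : ℂ) = lamb u a x →
        (Fam u (dv a q) x ∧
          ((σ z : ℂ) = lamb u (dv a q) x ∨ (σ z : ℂ) = -lamb u (dv a q) x)) ∧
        ∀ (r : Ideal (𝓞 K)) (R : Ideal (𝓞 Ω)) (τ : Ω ≃ₐ[K] Ω), Big N r →
          (∀ j : ℕ, Odd j → u ^ j - 1 ∉ r) → Frob r R τ → absNorm q ≠ absNorm r →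
          σ (τ z) = τ (σ z)

/-- Block C2: the square roots generate an abelian extension. -/
def StmtComm : Prop :=
  ∀ (K : Type) [Field K] [NumberField K] [Algebra K ℝ] (σ₂ : K →+* ℝ) (c : K ≃+* K),
    RQ (algebraMap K ℝ) σ₂ c → ∀ u : 𝓞 K, algebraMap K ℝ u * σ₂ u = -1 → algebraMap K ℝ u < -3 →
    ∀ (Ω : IntermediateField K ℂ) [FiniteDimensional K Ω] [IsGalois K Ω],
      (∀ a x, Fam u a x → lamb u a x ∈ Ω) → ∀ (σ τ : Ω ≃ₐ[K] Ω) (z : Ω) a x, Fam u a x →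
        (z : ℂ) = lamb u a x → σ (τ z) = τ (σ z)

open Pool.Agent.Lib.MP_6bf7a3_nt in
/-- Block RCF: the ray class field, and the abelian criterion. -/
def StmtRCF : Prop :=
  ∀ (K : Type) [Field K] [NumberField K] [Algebra K ℝ] (σ₂ : K →+* ℝ)
    (Ω : IntermediateField K ℂ) [FiniteDimensional K Ω] [IsGalois K Ω] (m : Ideal (𝓞 K)),
    m ≠ ⊥ → m ≠ ⊤ → ∀ (B : Type) [CommGroup B] [Finite B] (κ : Ideal (𝓞 K) → B),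
    Univ {σ₂} m κ → ∀ a : (Ω ≃ₐ[K] Ω) →* B, Recip m κ a →
    (∃ τ : Ω ≃ₐ[K] Ω, (∀ z : Ω, (τ z : ℂ) = conj (z : ℂ)) ∧ a τ = 1) →
    ∃ (H : IntermediateField K ℝ) (Art : (FractionalIdeal (𝓞 K)⁰ K)ˣ → (H ≃ₐ[K] H)),
      IsRCF σ₂ m H Art ∧ Function.Surjective a ∧
      (∀ z : Ω, (∀ σ, a σ = 1 → σ z = z) → ∃ h : H, ((h : ℝ) : ℂ) = z) ∧
      (∀ (σ : Ω ≃ₐ[K] Ω) (I : Ideal (𝓞 K)) (A : (FractionalIdeal (𝓞 K)⁰ K)ˣ), Cop m I →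
        (A : FractionalIdeal (𝓞 K)⁰ K) = I → a σ = κ I → ∀ (h : H) (z : Ω),
          ((h : ℝ) : ℂ) = z → ((Art A h : ℝ) : ℂ) = σ z) ∧
      ∀ (h : H) (w : Ω), (w : ℂ) ^ 2 = ((h : ℝ) : ℂ) → (∀ σ τ : Ω ≃ₐ[K] Ω, σ (τ w) = τ (σ w)) →
        IsAbelianGalois K (Polynomial.X ^ 2 - Polynomial.C h).SplittingField

open Pool.Agent.Lib.MP_6bf7a3_nt in
/-- Block Z: the invariants and the ray class zeta functions. -/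
def StmtZeta : Prop :=
  ∀ (K : Type) [Field K] [NumberField K] (σ₁ σ₂ : K →+* ℝ) (c : K ≃+* K), RQ σ₁ σ₂ c →
    ∀ (m : Ideal (𝓞 K)), m ≠ ⊥ → m ≠ ⊤ → ∀ η : Kˣ, toPrincipalIdeal (𝓞 K) K η = 1 →
      (η : K) - 1 ∈ loc K m m → 1 < σ₂ η →
      (∀ u : Kˣ, toPrincipalIdeal (𝓞 K) K u = 1 → (u : K) - 1 ∈ loc K m m → 0 < σ₂ u →
        ∃ k : ℤ, u = η ^ k) →
      ∀ (ε : 𝓞 K) (n w : ℕ), Lev σ₁ σ₂ (ε : K) n → (ε : K) * η ^ w = 1 →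
      ∀ (I : Ideal (𝓞 K)) (A : (FractionalIdeal (𝓞 K)⁰ K)ˣ), Cop m I →
        (A : FractionalIdeal (𝓞 K)⁰ K) = I →
        ∃ x : ℝ, IsZetaDeriv σ₂ m A x ∧ Real.log ‖FF σ₁ ε (dv m I) 1‖ = -w * x

open Pool.Agent.Lib.MP_6bf7a3_nt in
/-- The goal. -/
def StmtFinal : Prop :=
  ∀ (K : Type) [Field K] [NumberField K] [Algebra K ℝ] (σ₂ : K →+* ℝ),
    Module.finrank ℚ K = 2 → σ₂ ≠ algebraMap K ℝ →
    ∀ m : Ideal (𝓞 K), m ≠ ⊥ → m ≠ ⊤ → TateStark σ₂ m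

end Pool.Agent.Lib.Stark
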