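import Pool.Agent.Lib.stark.TK1b
import Pool.Agent.Lib.stark.Defs2
import Pool.Agent.Lib.MP_6bf7a3_nt.Zeta

namespace Pool.Agent.Lib.Stark

namespace TK1

open Pool.Agent.Lib.helper22.PIT
open Module NumberField NumberField.mixedEmbedding NumberField.Units Filter Topology
open scoped nonZeroDivisors

variable {K : Type} [Field K] [NumberField K] {m : Ideal (𝓞 K)} {B : Type} [CommGroup B]
  {κ : Ideal (𝓞 K) → B}

omit [NumberField K] in
lemma cop_mul {I J : Ideal (𝓞 K)} : Cop m (I * J) ↔ Cop m I ∧ Cop m J := by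
  simp only [Cop, ← Ideal.isCoprime_iff_sup_eq, IsCoprime.mul_left_iff, ← Ideal.zero_eq_bot,
    mul_ne_zero_iff]
  tauto

lemma cop_span {a : 𝓞 K} : Cop m (Ideal.span {a}) ↔ a ≠ 0 ∧ ∃ c, c ≠ 0 ∧ a * c - 1 ∈ m := by
  rw [Cop, Ne, Ideal.span_singleton_eq_bot, Ideal.eq_top_iff_one, Ideal.mem_span_singleton_sup]
  constructor
  · rintro ⟨⟨c, b, hb, e⟩, ha⟩
    refine ⟨ha, ?_⟩
    by_cases hc : c = 0
    · rw [hc, zero_mul, zero_add] at e
      exact ⟨1, one_ne_zero, mul_one (a * 1 - 1) ▸ m.mul_mem_left (a * 1 - 1) (e ▸ hb)⟩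
    · exact ⟨c, hc, by rw [← e]; simpa [mul_comm] using hb⟩
  · rintro ⟨ha, c, -, h⟩
    exact ⟨⟨c, _, m.neg_mem h, by ring⟩, ha⟩

lemma kappa_span (hκ : RayHom m κ) {a b : 𝓞 K} (ha : Cop m (Ideal.span {a})) (hb : b ≠ 0)
    (hab : a - b ∈ m) (hs : sgn (em a) = sgn (em b)) :
    Cop m (Ideal.span {b}) ∧ κ (Ideal.span {b}) = κ (Ideal.span {a}) := by
  obtain ⟨a0, c, c0, hc⟩ := cop_span.1 ha
  have hc' : b * c - 1 ∈ m := by
    have := m.sub_mem hc (m.mul_mem_right c hab)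
    convert this using 1; ring
  have hb' : Cop m (Ideal.span {b}) := cop_span.2 ⟨hb, c, c0, hc'⟩
  have hcc : Cop m (Ideal.span {c}) := cop_span.2 ⟨c0, a, a0, by rwa [mul_comm]⟩
  have key : ∀ x : 𝓞 K, Cop m (Ideal.span {x}) → x * c - 1 ∈ m → sgn (em a) = sgn (em x) →
      κ (Ideal.span {a}) * κ (Ideal.span {c}) * (κ (Ideal.span {x}) * κ (Ideal.span {c})) = 1 := by
    intro x hx h1 h2
    have x0 := (cop_span.1 hx).1
    rw [← hκ.mul _ _ ha hcc, ← hκ.mul _ _ hx hcc,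
      ← hκ.mul _ _ (cop_mul.2 ⟨ha, hcc⟩) (cop_mul.2 ⟨hx, hcc⟩)]
    simp only [Ideal.span_singleton_mul_span_singleton]
    refine hκ.triv _ (by simp [a0, c0, x0]) ?_ fun τ => ?_
    · have := m.add_mem (m.mul_mem_right (x * c) hc) h1
      convert this using 1; ring
    · have h3 := mul_pos_of_sgn a0 x0 h2 τ
      have h4 : τ c ≠ 0 := by simpa using c0
      have h5 : τ ((a * c * (x * c) : 𝓞 K) : K) = τ a * τ x * (τ c * τ c) := by
        simp only [map_mul]; ring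
      rw [h5]
      exact mul_pos h3 (mul_self_pos.2 h4)
  exact ⟨hb', mul_right_cancel (mul_left_cancel ((key b hb' hc' hs).trans (key a ha hc rfl).symm))⟩

lemma exists_rep (hm : m ≠ ⊥) (D : ClassGroup (𝓞 K)) :
    ∃ J : (Ideal (𝓞 K))⁰, Cop m J ∧ ClassGroup.mk0 J = D := by
  obtain ⟨I, hI⟩ := ClassGroup.mk0_surjective D⁻¹
  have I0 : (I : Ideal (𝓞 K)) ≠ 0 := nonZeroDivisors.coe_ne_zero I
  by_cases hm1 : m = ⊤
  · obtain ⟨J, hJ⟩ := ClassGroup.mk0_surjective D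
    exact ⟨J, ⟨by simp [hm1], nonZeroDivisors.coe_ne_zero J⟩, hJ⟩
  obtain ⟨a, ha⟩ := IsDedekindDomain.exists_sup_span_eq (I := (I : Ideal (𝓞 K)) * m)
    (J := (I : Ideal (𝓞 K))) Ideal.mul_le_left (mul_ne_zero I0 hm)
  obtain ⟨J, hJ⟩ : (I : Ideal (𝓞 K)) ∣ Ideal.span {a} := Ideal.dvd_iff_le.2 (ha ▸ le_sup_right)
  have h1 : m ⊔ J = ⊤ := mul_left_cancel₀ I0 (by rw [Ideal.mul_sup, ← hJ, ha, Ideal.mul_top])
  have J0 : J ≠ 0 := by
    rintro rfl
    exact hm1 (by simpa using h1)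
  refine ⟨⟨J, mem_nonZeroDivisors_of_ne_zero J0⟩, ⟨by rwa [sup_comm], J0⟩, ?_⟩
  have h2 := (ClassGroup.mk0_eq_one_iff (I := (I : Ideal (𝓞 K)) * J)
    (mul_mem I.2 (mem_nonZeroDivisors_of_ne_zero J0))).2 ⟨⟨a, hJ.symm⟩⟩
  have h3 : (⟨(I : Ideal (𝓞 K)) * J, mul_mem I.2 (mem_nonZeroDivisors_of_ne_zero J0)⟩ :
      (Ideal (𝓞 K))⁰) = I * ⟨J, mem_nonZeroDivisors_of_ne_zero J0⟩ := rfl
  rw [h3, map_mul, hI, inv_mul_eq_one] at h2
  exact h2.symm

/-- Number of ideals of given norm in a class. -/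
noncomputable def cnt (m : Ideal (𝓞 K)) (κ : Ideal (𝓞 K) → B) (b : B) (n : ℕ) : ℕ :=
  ((fun I : {I // Cop m I ∧ κ I = b} => Ideal.absNorm I.1) ⁻¹' {n}).ncard

lemma wt_mul {X : ℝ} {a : ℕ} (ha : a ≠ 0) (n : ℕ) : wt (X * a) (a * n) = wt X n := by
  have : (a : ℝ) ≠ 0 := Nat.cast_ne_zero.2 ha
  simp only [wt, mul_eq_zero, ha, false_or, Nat.cast_mul]
  rw [mul_comm X, mul_div_mul_left _ _ this]

open scoped Classical in
lemma count_class (hm : m ≠ ⊥) (hκ : RayHom m κ) : ∃ (G : B → ℝ) (θ : ℝ), θ < 1 ∧ (∀ b, 0 ≤ G b) ∧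
    0 < G 1 ∧ ∀ J : ClassGroup (𝓞 K) → (Ideal (𝓞 K))⁰, (∀ D, Cop m (J D)) →
      (Function.Bijective fun D => ClassGroup.mk0 (J D)) → ∀ b, ∃ C : ℝ, ∀ X : ℝ, 1 ≤ X →
        |∑' n : ℕ, (cnt m κ b n : ℝ) * wt X n - (∑ D, G (κ (J D) * b)) / torsionOrder K * X| ≤
          C * X ^ θ := by
  obtain ⟨h, L, R, hL, hR0, hR, hpos, h0, hh⟩ := exists_weight' K
  have h1 : h 1 ≠ 0 := by rw [hh 1 (by simp)]; simp [tent]
  choose G hG0 hG1 hG using fun b : B => count_elements hL hR0 hR hpos h1 h0 hm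
    (fun β => Cop m (Ideal.span {β}) ∧ κ (Ideal.span {β}) = b) fun a c ha hc hac hs =>
      ⟨(kappa_span hκ ha.1 hc hac hs).1, (kappa_span hκ ha.1 hc hac hs).2.trans ha.2⟩
  set n := finrank ℚ K with hn
  have hn0 : 0 < n := finrank_pos
  have hnR : (0 : ℝ) < n := Nat.cast_pos.mpr hn0
  have hw : (0 : ℝ) < torsionOrder K := Nat.cast_pos.mpr (torsionOrder_pos K)
  refine ⟨G, 1 - (n : ℝ)⁻¹, by linarith [inv_pos.mpr hnR], hG0, hG1 1
    ⟨cop_span.2 ⟨one_ne_zero, 1, one_ne_zero, by simp⟩,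
      hκ.triv 1 one_ne_zero (by simp) fun τ => by simp⟩, fun J hJ hbij b => ?_⟩
  choose C hC using fun D => hG (κ (J D) * b) (J D) (hJ D).2 (hJ D).1
  set N : ClassGroup (𝓞 K) → ℝ := fun D => Ideal.absNorm (J D : Ideal (𝓞 K)) with hN
  have hN0 : ∀ D, Ideal.absNorm (J D : Ideal (𝓞 K)) ≠ 0 := fun D =>
    (Ideal.absNorm_pos_of_nonZeroDivisors (J D)).ne'
  have hN1 : ∀ D, 1 ≤ N D := fun D => Nat.one_le_cast.mpr (Nat.pos_of_ne_zero (hN0 D))
  refine ⟨(∑ D, C D * N D ^ (1 - (n : ℝ)⁻¹)) / torsionOrder K, fun X hX => ?_⟩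
  have hX0 : 0 < X := by linarith
  set t : ClassGroup (𝓞 K) → ℝ := fun D => (X * N D) ^ (n : ℝ)⁻¹ with htdef
  have hXN : ∀ D, 1 ≤ X * N D := fun D => one_le_mul_of_one_le_of_one_le hX (hN1 D)
  have ht1 : ∀ D, 1 ≤ t D := fun D => Real.one_le_rpow (hXN D) (inv_pos.mpr hnR).le
  have htn : ∀ D, t D ^ n = X * N D := fun D =>
    Real.rpow_inv_natCast_pow (by linarith [hXN D]) hn0.ne'
  set S : ClassGroup (𝓞 K) → ℝ := fun D => ∑' β : 𝓞 K, (if β ∈ (J D : Ideal (𝓞 K)) ∧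
    Cop m (Ideal.span {β}) ∧ κ (Ideal.span {β}) = κ (J D) * b then 1 else 0) *
      h ((t D)⁻¹ • em β) with hS
  have hD : ∀ D, HasSum (fun I : Ideal (𝓞 K) => if ((J D : Ideal (𝓞 K)) * I).IsPrincipal then
      (if Cop m I ∧ κ I = b then 1 else 0) * ((torsionOrder K : ℝ) * wt X (Ideal.absNorm I))
      else 0) (S D) := fun D => by
    have h2 := hasSum_principal hR (h0 0 (by simp)) hh (fun A => if (J D : Ideal (𝓞 K)) ∣ A ∧
      Cop m A ∧ κ A = κ (J D) * b then 1 else 0) (t := t D) (by linarith [ht1 D])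
    simp only [Ideal.dvd_span_singleton] at h2
    have hinj : Function.Injective fun I => (J D : Ideal (𝓞 K)) * I :=
      mul_right_injective₀ (hJ D).2
    rw [← hinj.hasSum_iff fun A hA => by
      have h3 : ¬(J D : Ideal (𝓞 K)) ∣ A := fun h3 => hA (h3.imp fun _ => Eq.symm)
      simp [h3]] at h2
    refine h2.congr_fun fun I => ?_
    simp only [Function.comp, dvd_mul_right, true_and, map_mul, ← hn, htn, hN, wt_mul (hN0 D)]
    congr 3
    rw [cop_mul, and_iff_right (hJ D)]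
    exact propext (and_congr_right fun hI => by rw [hκ.mul _ _ (hJ D) hI, mul_right_inj])
  have hs := hasSum_sum (s := Finset.univ) fun D _ => hD D
  have hs1 : HasSum (fun I : {I // Cop m I ∧ κ I = b} =>
      (torsionOrder K : ℝ) * wt X (Ideal.absNorm I.1)) (∑ D, S D) := by
    refine (hasSum_subtype_iff_indicator (s := {I | Cop m I ∧ κ I = b})
      (f := fun I => (torsionOrder K : ℝ) * wt X (Ideal.absNorm I))).2 (hs.congr_fun fun I => ?_)
    by_cases hI : Cop m I ∧ κ I = b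
    · have hI' : I ∈ (Ideal (𝓞 K))⁰ := mem_nonZeroDivisors_of_ne_zero hI.1.2
      obtain ⟨D₀, hD₀⟩ := hbij.2 (ClassGroup.mk0 ⟨I, hI'⟩)⁻¹
      have : ∀ D, ((J D : Ideal (𝓞 K)) * I).IsPrincipal ↔ D = D₀ := by
        intro D
        rw [← ClassGroup.mk0_eq_one_iff (I := (J D : Ideal (𝓞 K)) * I) (mul_mem (J D).2 hI')]
        have h2 : (⟨(J D : Ideal (𝓞 K)) * I, mul_mem (J D).2 hI'⟩ : (Ideal (𝓞 K))⁰)
          = J D * ⟨I, hI'⟩ := rfl
        rw [h2, map_mul, mul_eq_one_iff_eq_inv, ← hD₀]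
        exact hbij.1.eq_iff
      rw [Set.indicator_of_mem (show I ∈ {I | Cop m I ∧ κ I = b} from hI)]
      simp [this, hI]
    · rw [Set.indicator_of_notMem (show I ∉ {I | Cop m I ∧ κ I = b} from hI)]
      simp [hI]
  have e3 := (hasSum_fiber _ (fun k => (torsionOrder K : ℝ) * wt X k) hs1).tsum_eq
  simp only [mul_left_comm _ (torsionOrder K : ℝ)] at e3
  rw [tsum_mul_left] at e3
  have e4 : ∑' k : ℕ, (cnt m κ b k : ℝ) * wt X k - (∑ D, G (κ (J D) * b)) / torsionOrder K * X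
      = (∑ D, (S D - G (κ (J D) * b) / N D * t D ^ n)) / torsionOrder K := by
    rw [Finset.sum_sub_distrib, ← e3]
    have : ∑ D, G (κ (J D) * b) / N D * t D ^ n = (∑ D, G (κ (J D) * b)) * X := by
      rw [Finset.sum_mul]
      refine Finset.sum_congr rfl fun D _ => ?_
      have := hN1 D
      rw [htn]; field_simp
    rw [this]
    simp only [cnt]
    field_simp
  rw [e4, abs_div, abs_of_pos hw, div_mul_eq_mul_div]
  refine div_le_div_of_nonneg_right ?_ hw.le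
  refine (Finset.abs_sum_le_sum_abs _ _).trans ?_
  rw [Finset.sum_mul]
  refine Finset.sum_le_sum fun D _ => ?_
  refine (le_of_eq (by simp only [hS, hN]; congr!)).trans ((hC D (t D) (ht1 D)).trans (le_of_eq ?_))
  rw [htn, mul_assoc, mul_div_assoc]
  congr 1
  simp only [htdef]
  rw [← Real.mul_rpow (by linarith [hN1 D]) hX0.le, mul_comm (N D) X,
    Real.rpow_sub (by linarith [hXN D]), Real.rpow_one]

lemma main_term (hm : m ≠ ⊥) (hκ : RayHom m κ) : ∃ (c : B → ℝ) (θ : ℝ), θ < 1 ∧ (∀ b, 0 ≤ c b) ∧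
    (∃ b, 0 < c b) ∧ (∀ I, Cop m I → ∀ b, c (κ I * b) = c b) ∧ ∀ b, ∃ C : ℝ, ∀ X : ℝ, 1 ≤ X →
      |∑' n : ℕ, (cnt m κ b n : ℝ) * wt X n - c b * X| ≤ C * X ^ θ := by
  obtain ⟨G, θ, hθ, hG0, hG1, hG⟩ := count_class hm hκ
  choose J hJ hJ' using exists_rep hm
  have hw : (0 : ℝ) < torsionOrder K := Nat.cast_pos.mpr (torsionOrder_pos K)
  have hb : Function.Bijective fun D => ClassGroup.mk0 (J D) := by
    simp only [hJ']; exact Function.bijective_id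
  refine ⟨_, θ, hθ, fun b => div_nonneg (Finset.sum_nonneg fun D _ => hG0 _) hw.le,
    ⟨(κ (J 1))⁻¹, div_pos (Finset.sum_pos' (fun D _ => hG0 _)
      ⟨1, Finset.mem_univ _, by simpa using hG1⟩) hw⟩, fun I hI b => ?_, hG J hJ hb⟩
  obtain ⟨C, hC⟩ := hG J hJ hb b
  obtain ⟨C', hC'⟩ := hG (fun D => J D * ⟨I, mem_nonZeroDivisors_of_ne_zero hI.2⟩)
    (fun D => cop_mul.2 ⟨hJ D, hI⟩) (by
      simp only [map_mul, hJ']; exact Group.mulRight_bijective _) b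
  rw [coef_unique hθ hC hC']
  congr 1
  refine Finset.sum_congr rfl fun D _ => ?_
  rw [← mul_assoc, ← hκ.mul _ _ (hJ D) hI]
  rfl

omit [CommGroup B] in
lemma hasSum_cnt (b : B) {s : ℂ} (hs : 1 < s.re) :
    LSeriesHasSum (fun n => ((cnt m κ b n : ℝ) : ℂ)) s
      (∑' I : {I // Cop m I ∧ κ I = b}, (Ideal.absNorm I.1 : ℂ) ^ (-s)) := by
  have h1 := ((MP_6bf7a3_nt.summable_dedekind K hs).subtype {I | Cop m I ∧ κ I = b}).hasSum
  refine (hasSum_fiber (fun I : {I // Cop m I ∧ κ I = b} => Ideal.absNorm I.1)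
    (fun n => (n : ℂ) ^ (-s)) h1).congr_fun fun n => ?_
  have hs0 : -s ≠ 0 := by
    rw [neg_ne_zero]; rintro rfl; simp at hs; linarith
  rw [LSeries.term_def]
  split_ifs with h
  · simp [h, Complex.zero_cpow hs0]
  · rw [Complex.cpow_neg, div_eq_mul_inv, cnt, Complex.ofReal_natCast]

omit [CommGroup B] in
lemma LS_eq [Fintype B] (φ : B → ℂ) {s : ℂ} (hs : 1 < s.re) :
    LS m (fun I => φ (κ I)) s = ∑ b, φ b * LSeries (fun n => ((cnt m κ b n : ℝ) : ℂ)) s := by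
  classical
  have h1 : ∀ b, HasSum (fun I : Ideal (𝓞 K) => φ b * {I | Cop m I ∧ κ I = b}.indicator
      (fun I => (Ideal.absNorm I : ℂ) ^ (-s)) I)
      (φ b * LSeries (fun n => ((cnt m κ b n : ℝ) : ℂ)) s) := fun b => by
    rw [(hasSum_cnt b hs).LSeries_eq]
    exact (hasSum_subtype_iff_indicator.1
      ((MP_6bf7a3_nt.summable_dedekind K hs).subtype {I | Cop m I ∧ κ I = b}).hasSum).mul_left _
  have h2 := hasSum_sum (s := Finset.univ) fun b _ => h1 b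
  refine HasSum.tsum_eq ((hasSum_subtype_iff_indicator (s := {I | Cop m I})
    (f := fun I => φ (κ I) * (Ideal.absNorm I : ℂ) ^ (-s))).2 (h2.congr_fun fun I => ?_))
  by_cases hI : Cop m I
  · simp [Set.indicator, hI]
  · simp [Set.indicator, hI]

end TK1

open TK1 in
theorem blockTK1 : StmtCont := by
  intro E _ _ m hm B _ _ κ hκ χ
  let _ : Fintype B := Fintype.ofFinite B
  obtain ⟨c, θ, hθ, hc0, hc1, hc, hC⟩ := main_term hm hκ
  choose C hC using hC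
  choose H hH1 hH2 hH3 using fun b => ext_value (fun n => (cnt m κ b n : ℝ))
    (fun _ => Nat.cast_nonneg _) (fun s hs => (hasSum_cnt b hs).LSeriesSummable) _ _ θ hθ (hC b)
  have he := Pool.Agent.Lib.helper22.PIT.exp_add_exp_ne (s := 1) (by simp)
  have key : ∀ φ : B → ℂ, ∃ F : ℂ → ℂ, DifferentiableOn ℂ F {s | max θ 0 < s.re} ∧
      (∀ s : ℂ, 1 < s.re → F s = (s - 1) * LS m (fun I => φ (κ I)) s) ∧
      (F 1 = 0 ↔ ∑ b, φ b * c b = 0) := fun φ => by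
    refine ⟨fun s => ∑ b, φ b * H b s, DifferentiableOn.fun_sum fun b _ => (hH1 b).const_mul _,
      fun s hs => ?_, ?_⟩
    · rw [LS_eq φ hs, Finset.mul_sum]
      exact Finset.sum_congr rfl fun b _ => by rw [hH2 b s hs]; ring
    · simp only [hH3, ← mul_div_assoc, ← Finset.sum_div, div_eq_zero_iff, he, or_false]
  refine ⟨max θ 0, max_lt hθ one_pos, ?_⟩
  by_cases h : ∃ I, Cop m I ∧ χ (κ I) ≠ 1
  · obtain ⟨F, h1, h2, h3⟩ := key fun b => χ b
    refine ⟨F, h1, h2, iff_of_true (h3.2 ?_) h⟩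
    obtain ⟨I, hI, hne⟩ := h
    have e : ∑ b, (χ b : ℂ) * c b = χ (κ I) * ∑ b, (χ b : ℂ) * c b := by
      rw [Finset.mul_sum]
      refine (Equiv.sum_comp (Equiv.mulLeft (κ I)) _).symm.trans (Finset.sum_congr rfl fun b _ => ?_)
      simp only [Equiv.coe_mulLeft, hc I hI, map_mul, Units.val_mul, mul_assoc]
    have h4 : (1 - (χ (κ I) : ℂ)) * ∑ b, (χ b : ℂ) * c b = 0 := by linear_combination e
    exact (mul_eq_zero.1 h4).resolve_left fun h5 =>
      hne (Units.val_eq_one.1 (sub_eq_zero.1 h5).symm)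
  · obtain ⟨F, h1, h2, h3⟩ := key fun _ => 1
    refine ⟨F, h1, fun s hs => ?_, iff_of_false (fun h4 => ?_) h⟩
    · rw [h2 s hs, LS, LS]
      congr 1
      refine tsum_congr fun I => ?_
      have : χ (κ I) = 1 := by
        by_contra h4
        exact h ⟨I, I.2, h4⟩
      simp [this]
    · obtain ⟨b, hb⟩ := hc1
      have h5 := h3.1 h4
      simp only [one_mul, ← Complex.ofReal_sum, Complex.ofReal_eq_zero] at h5
      exact (Finset.sum_pos' (fun b _ => hc0 b) ⟨b, Finset.mem_univ _, hb⟩).ne' h5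

end Pool.Agent.Lib.Stark
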