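import Pool.Agent.Lib.stark.Defs2
import Pool.Agent.Lib.helper22.PIT

open Complex NumberField Filter Topology Ideal

namespace Pool.Agent.Lib.Stark

namespace TK2a

open Pool.Agent.Lib.helper22

variable {E : Type} [Field E] [NumberField E] {m I J : Ideal (𝓞 E)}

omit [NumberField E] in
theorem cop_top : Cop m (⊤ : Ideal (𝓞 E)) := ⟨top_sup_eq m, top_ne_bot⟩

omit [NumberField E] in
theorem cop_mul (hI : Cop m I) (hJ : Cop m J) : Cop m (I * J) :=
  ⟨isCoprime_iff_sup_eq.1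
    ((isCoprime_iff_sup_eq.2 hI.1).mul_left (isCoprime_iff_sup_eq.2 hJ.1)), mul_ne_zero hI.2 hJ.2⟩

omit [NumberField E] in
theorem cop_pow (hI : Cop m I) (k : ℕ) : Cop m (I ^ k) := by
  induction k with
  | zero => rw [pow_zero, one_eq_top]; exact cop_top
  | succ k ih => rw [pow_succ]; exact cop_mul ih hI

omit [NumberField E] in
theorem cop_of_dvd (hI : Cop m I) (h : J ∣ I) : Cop m J :=
  ⟨top_le_iff.1 (hI.1 ▸ sup_le_sup_right (le_of_dvd h) m),
    fun e => hI.2 (zero_dvd_iff.1 (by rw [zero_eq_bot, ← e]; exact h))⟩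

theorem norm_pos (hI : Cop m I) : 0 < absNorm I :=
  Nat.pos_of_ne_zero fun h => hI.2 (absNorm_eq_zero_iff.1 h)

theorem summable_all {s : ℝ} (hs : 1 < s) :
    Summable fun I : Ideal (𝓞 E) => (absNorm I : ℝ) ^ (-s) := by
  rw [← (Equiv.sigmaFiberEquiv (absNorm : Ideal (𝓞 E) → ℕ)).summable_iff,
    summable_sigma_of_nonneg fun _ => by simp only [Function.comp]; positivity]
  have hf : ∀ n, Finite {I : Ideal (𝓞 E) // absNorm I = n} := fun n =>
    (finite_setOfPred_absNorm_eq n).to_subtype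
  refine ⟨fun n => Summable.of_finite, ?_⟩
  refine (PIT.summable_aK E s (by simpa using hs)).norm.congr fun n => ?_
  have : ∀ I : {I : Ideal (𝓞 E) // absNorm I = n},
      ((fun I : Ideal (𝓞 E) => (absNorm I : ℝ) ^ (-s)) ∘ Equiv.sigmaFiberEquiv absNorm) ⟨n, I⟩
        = (n : ℝ) ^ (-s) := fun I => by simp [I.2]
  rw [tsum_congr this, tsum_const, LSeries.norm_term_eq]
  split_ifs with h
  · simp [h, Real.zero_rpow (show -s ≠ 0 by linarith)]
  · simp [PIT.aK, Real.rpow_neg, div_eq_mul_inv]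

theorem summable_cop {s : ℝ} (hs : 1 < s) :
    Summable fun I : {I // Cop m I} => (absNorm I.1 : ℝ) ^ (-s) :=
  (summable_all hs).subtype _

theorem summable_log {s : ℝ} (hs : 1 < s) :
    Summable fun I : {I // Cop m I} => Real.log (absNorm I.1) * (absNorm I.1 : ℝ) ^ (-s) := by
  have hε : 0 < (s - 1) / 2 := by linarith
  refine ((summable_cop (m := m) (s := (s + 1) / 2) (by linarith)).div_const
    ((s - 1) / 2)).of_nonneg_of_le
    (fun I => mul_nonneg (Real.log_natCast_nonneg _) (by positivity)) fun I => ?_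
  have h0 : (0 : ℝ) < absNorm I.1 := Nat.cast_pos.2 (norm_pos I.2)
  refine (mul_le_mul_of_nonneg_right (Real.log_le_rpow_div h0.le hε) (by positivity)).trans_eq ?_
  rw [div_mul_eq_mul_div, ← Real.rpow_add h0]
  congr 2
  ring

theorem summable_pp {s : ℝ} (hs : 1 < s) :
    Summable fun x : {P : Ideal (𝓞 E) // P.IsMaximal ∧ Cop m P} × ℕ =>
      Real.log (absNorm x.1.1) * (absNorm x.1.1 : ℝ) ^ (-((x.2 + 1) * s)) := by
  let g : {P : Ideal (𝓞 E) // P.IsMaximal ∧ Cop m P} × ℕ → {I // Cop m I} :=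
    fun x => ⟨x.1.1 ^ (x.2 + 1), cop_pow x.1.2.2 _⟩
  have hg : Function.Injective g := by
    rintro ⟨⟨P, hP, hP'⟩, k⟩ ⟨⟨Q, hQ, hQ'⟩, l⟩ h
    have h1 : P ^ (k + 1) = Q ^ (l + 1) := congrArg Subtype.val h
    have h0 : P ^ (k + 1) ≤ Q := by rw [h1]; exact pow_le_self (Nat.succ_ne_zero l)
    have h3 : P = Q := hP.eq_of_le hQ.ne_top (hQ.isPrime.le_of_pow_le h0)
    subst h3
    have h2 := congrArg absNorm h1
    rw [map_pow, map_pow] at h2
    have := Nat.pow_right_injective (PIT.two_le_absNorm hP.isPrime hP'.2) h2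
    obtain rfl : k = l := by omega
    rfl
  refine ((summable_log hs).comp_injective hg).of_nonneg_of_le
    (fun x => mul_nonneg (Real.log_natCast_nonneg _) (by positivity)) fun x => ?_
  simp only [Function.comp, g, map_pow, Nat.cast_pow, Real.log_pow]
  rw [← Real.rpow_natCast, ← Real.rpow_mul (Nat.cast_nonneg _)]
  push_cast
  rw [mul_neg]
  refine mul_le_mul_of_nonneg_right (le_mul_of_one_le_left (Real.log_natCast_nonneg _) ?_)
    (by positivity)
  linarith [Nat.cast_nonneg (α := ℝ) x.2]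

/-- The product of a prime power and an ideal. -/
noncomputable def pr (m : Ideal (𝓞 E))
    (z : ({P : Ideal (𝓞 E) // P.IsMaximal ∧ Cop m P} × ℕ) × {I // Cop m I}) : {I // Cop m I} :=
  ⟨z.1.1.1 ^ (z.1.2 + 1) * z.2.1, cop_mul (cop_pow z.1.1.2.2 _) z.2.2⟩

theorem hasSum_fiber (I : {I // Cop m I}) :
    HasSum (fun z : {z // pr m z = I} => Real.log (absNorm z.1.1.1.1)) (Real.log (absNorm I.1)) := by
  classical
  have hn := norm_pos I.2
  rw [PIT.log_absNorm_eq E hn.ne' rfl]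
  set F := (PIT.prLe E (absNorm I.1) ×ˢ Finset.Icc 1 (absNorm I.1)).filter
    fun x => x.1 ^ x.2 ∣ I.1 with hF
  have hm : ∀ z : {z // pr m z = I}, (z.1.1.1.1, z.1.1.2 + 1) ∈ F := by
    rintro ⟨⟨⟨⟨P, hP, hP'⟩, k⟩, J⟩, rfl⟩
    have h1 : P ^ (k + 1) ∣ (pr m ((⟨P, hP, hP'⟩, k), J)).1 := dvd_mul_right _ _
    have h2 := Nat.le_of_dvd hn (map_dvd absNorm h1)
    have h3 := PIT.two_le_absNorm hP.isPrime hP'.2
    rw [map_pow] at h2
    simp only [hF, Finset.mem_filter, Finset.mem_product, PIT.mem_prLe, Finset.mem_Icc]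
    exact ⟨⟨⟨(Nat.le_self_pow (by omega) _).trans h2, hP.isPrime, hP'.2⟩, by omega,
      (Nat.lt_pow_self (by omega)).le.trans h2⟩, h1⟩
  have hb : Function.Bijective fun z : {z // pr m z = I} => (⟨_, hm z⟩ : F) := by
    constructor
    · rintro ⟨⟨⟨⟨P, hP⟩, k⟩, J, hJ⟩, h1⟩ ⟨⟨⟨⟨Q, hQ⟩, l⟩, J', hJ'⟩, h2⟩ h
      simp only [Subtype.mk.injEq, Prod.mk.injEq, Nat.add_right_cancel_iff] at h
      obtain ⟨rfl, rfl⟩ := h
      have h3 : P ^ (k + 1) * J = P ^ (k + 1) * J' := congrArg Subtype.val (h1.trans h2.symm)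
      have h4 : J = J' := mul_left_cancel₀ (cop_pow hP.2 (k + 1)).2 h3
      subst h4
      rfl
    · rintro ⟨⟨P, k⟩, h⟩
      have h' := h
      simp only [hF, Finset.mem_filter, Finset.mem_product, PIT.mem_prLe, Finset.mem_Icc] at h'
      obtain ⟨⟨⟨-, h1, h2⟩, h3, -⟩, J, hJ⟩ := h'
      obtain ⟨k, rfl⟩ : ∃ l, k = l + 1 := ⟨k - 1, by omega⟩
      exact ⟨⟨((⟨P, h1.isMaximal h2, cop_of_dvd I.2
        (hJ ▸ (dvd_pow_self P k.succ_ne_zero).mul_right J)⟩, k),
        ⟨J, cop_of_dvd I.2 (hJ ▸ dvd_mul_left _ _)⟩), Subtype.ext hJ.symm⟩, rfl⟩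
  exact (Equiv.ofBijective _ hb).hasSum_iff.2 (F.hasSum fun x => Real.log (absNorm x.1))

theorem hasSum_of_fiber {α β : Type} (g : α → β) {f : α → ℂ} {a : ℂ} (h : HasSum f a) {F : β → ℂ}
    (hF : ∀ b, HasSum (fun z : {z // g z = b} => f z.1) (F b)) : HasSum F a :=
  ((Equiv.sigmaFiberEquiv g).hasSum_iff.2 h).sigma hF

end TK2a

open TK2a in
theorem blockTK2a : StmtLogDer := by
  intro E _ _ m φ hmul h1 hle
  have hn : ∀ (I : {I // Cop m I}) (s : ℂ),
      ‖φ I * (absNorm I.1 : ℂ) ^ (-s)‖ ≤ (absNorm I.1 : ℝ) ^ (-s.re) := fun I s => by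
    rw [norm_mul, norm_natCast_cpow_of_pos (norm_pos I.2), neg_re]
    exact mul_le_of_le_one_left (by positivity) (hle I I.2)
  have hmono : ∀ (I : {I // Cop m I}) {a b : ℝ}, a ≤ b →
      (absNorm I.1 : ℝ) ^ (-b) ≤ (absNorm I.1 : ℝ) ^ (-a) := fun I a b h =>
    Real.rpow_le_rpow_of_exponent_le (by exact_mod_cast norm_pos I.2) (by linarith)
  refine ⟨fun s => summable_cop, fun s => summable_pp, ?_, fun s hs => ?_⟩
  · classical
    have := tendsto_tsum_of_dominated_convergence (𝓕 := atTop)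
      (f := fun (s : ℝ) (I : {I // Cop m I}) => φ I * (absNorm I.1 : ℂ) ^ (-(s : ℂ)))
      (g := fun I => if I = ⟨⊤, cop_top⟩ then 1 else 0) (summable_cop one_lt_two) (fun I => ?_)
      ((eventually_ge_atTop 2).mono fun s hs I => (hn I s).trans (hmono I hs))
    · rwa [tsum_ite_eq] at this
    split_ifs with h
    · simp [h, h1]
    · refine squeeze_zero_norm (fun s => hn I s) ?_
      have h2 : (1 : ℝ) < absNorm I.1 := by
        have := norm_pos I.2
        have : absNorm I.1 ≠ 1 := fun e => h (Subtype.ext (absNorm_eq_one_iff.1 e))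
        exact_mod_cast (by omega : 1 < absNorm I.1)
      exact (tendsto_rpow_atBot_of_base_gt_one _ h2).comp tendsto_neg_atTop_atBot
  have hs' : 1 < (s.re + 1) / 2 := by linarith
  have hd := hasDerivAt_tsum_of_isPreconnected (summable_log (m := m) hs')
    (g := fun (I : {I // Cop m I}) (z : ℂ) => φ I * (absNorm I.1 : ℂ) ^ (-z))
    (g' := fun (I : {I // Cop m I}) (z : ℂ) => -(Real.log (absNorm I.1) * (φ I * (absNorm I.1 : ℂ) ^ (-z))))
    (t := {z : ℂ | (s.re + 1) / 2 < z.re}) (isOpen_lt continuous_const continuous_re) (convex_halfSpace_re_gt _).isPreconnected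
    (fun I z _ => by
      refine (((hasDerivAt_neg z).const_cpow (c := (absNorm I.1 : ℂ))
        (Or.inl (Nat.cast_ne_zero.2 (norm_pos I.2).ne'))).const_mul (φ I)).congr_deriv ?_
      rw [← natCast_log]
      ring)
    (fun I z hz => by
      rw [norm_neg, norm_mul, norm_real, Real.norm_of_nonneg (Real.log_natCast_nonneg _)]
      exact mul_le_mul_of_nonneg_left ((hn I z).trans (hmono I (le_of_lt hz)))
        (Real.log_natCast_nonneg _))
    (y₀ := s) (show (s.re + 1) / 2 < s.re by linarith)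
    (Summable.of_norm_bounded (summable_cop hs) fun I => hn I s)
    (y := s) (show (s.re + 1) / 2 < s.re by linarith)
  refine hd.congr_deriv ?_
  have hpow : ∀ P, Cop m P → ∀ k, φ (P ^ k) = φ P ^ k := fun P hP k => by
    induction k with
    | zero => rw [pow_zero, pow_zero, one_eq_top, h1]
    | succ k ih => rw [pow_succ, pow_succ, hmul _ _ (cop_pow hP k) hP, ih]
  have s1 : Summable fun x : {P : Ideal (𝓞 E) // P.IsMaximal ∧ Cop m P} × ℕ =>
      ‖φ x.1 ^ (x.2 + 1) *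
        (Real.log (absNorm x.1.1) * (absNorm x.1.1 : ℂ) ^ (-((x.2 + 1) * s)))‖ := by
    refine (summable_pp hs).of_nonneg_of_le (fun _ => norm_nonneg _) fun x => ?_
    rw [norm_mul, norm_mul, norm_pow, norm_real, Real.norm_of_nonneg (Real.log_natCast_nonneg _),
      norm_natCast_cpow_of_pos (norm_pos x.1.2.2)]
    refine (mul_le_of_le_one_left (mul_nonneg (Real.log_natCast_nonneg _) (by positivity))
      (pow_le_one₀ (norm_nonneg _) (hle _ x.1.2.2))).trans_eq ?_
    simp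
  have s2 : Summable fun I : {I // Cop m I} => ‖φ I * (absNorm I.1 : ℂ) ^ (-s)‖ :=
    (summable_cop hs).of_nonneg_of_le (fun _ => norm_nonneg _) fun I => hn I s
  rw [tsum_neg, neg_mul, LS, tsum_mul_tsum_of_summable_norm s1 s2, neg_inj]
  refine (hasSum_of_fiber (pr m) (summable_mul_of_summable_norm s1 s2).hasSum fun I => ?_).tsum_eq
  have H := (hasSum_ofReal.2 (hasSum_fiber I)).mul_right (φ I * (absNorm I.1 : ℂ) ^ (-s))
  refine (congrArg (fun f => HasSum f _) (funext fun z => Eq.symm ?_)).mp H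
  have e : I.1 = z.1.1.1.1 ^ (z.1.1.2 + 1) * z.1.2.1 := (congrArg Subtype.val z.2).symm
  simp only [e]
  rw [hmul _ _ (cop_pow z.1.1.1.2.2 _) z.1.2.2, hpow _ z.1.1.1.2.2, map_mul, map_pow, Nat.cast_mul,
    natCast_mul_natCast_cpow, Nat.cast_pow, ← natCast_cpow_natCast_mul]
  push_cast
  rw [mul_neg]
  ring

end Pool.Agent.Lib.Stark
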