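import Pool.Agent.Lib.stark.Defs2
import Pool.Agent.Lib.helper22.PIT

open Complex NumberField Filter Topology Ideal

namespace Pool.Agent.Lib.Stark

namespace TK2b

open Pool.Agent.Lib.helper22.PIT

variable {E : Type} [Field E] [NumberField E]

/-- maximal ideals -/
abbrev MP (E : Type) [Field E] : Type := {P : Ideal (𝓞 E) // P.IsMaximal}

theorem ne_bot {P : Ideal (𝓞 E)} (hP : P.IsMaximal) : P ≠ ⊥ :=
  Ring.ne_bot_of_isMaximal_of_not_isField hP (RingOfIntegers.not_isField E)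

theorem two_le {P : Ideal (𝓞 E)} (hP : P.IsMaximal) : (2 : ℝ) ≤ absNorm P := by
  exact_mod_cast two_le_absNorm hP.isPrime (ne_bot hP)

theorem pTerm_nonneg (s : ℝ) (P : Ideal (𝓞 E)) : 0 ≤ pTerm s P :=
  mul_nonneg (Real.log_natCast_nonneg _) (Real.rpow_nonneg (Nat.cast_nonneg _) _)

theorem pTerm_anti {s t : ℝ} (h : s ≤ t) {P : Ideal (𝓞 E)} (hP : P.IsMaximal) :
    pTerm t P ≤ pTerm s P :=
  mul_le_mul_of_nonneg_left
    (Real.rpow_le_rpow_of_exponent_le (by linarith [two_le hP]) (neg_le_neg h))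
    (Real.log_natCast_nonneg _)

theorem cop_top {P : Ideal (𝓞 E)} (hP : P.IsMaximal) : Cop ⊤ P := ⟨sup_top_eq _, ne_bot hP⟩

theorem summ (h2 : StmtLogDer) (s : ℝ) (hs : 1 < s) : Summable fun P : MP E => pTerm s P.1 := by
  have h := (h2 E ⊤ (fun _ => 1) (by simp) rfl (by simp)).2.1 s hs
  have hi : Function.Injective (fun P : MP E =>
      ((⟨P.1, P.2, cop_top P.2⟩, 0) : {P : Ideal (𝓞 E) // P.IsMaximal ∧ Cop ⊤ P} × ℕ)) :=
    fun P Q h => Subtype.ext (congrArg (fun x => x.1.1) h)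
  refine (h.comp_injective hi).congr fun P => ?_
  simp [pTerm]

open scoped Classical in
/-- restricted term -/
noncomputable def w (T : Ideal (𝓞 E) → Prop) (s : ℝ) (P : MP E) : ℝ :=
  if T P.1 then pTerm s P.1 else 0

theorem w_nonneg (T : Ideal (𝓞 E) → Prop) (s : ℝ) (P : MP E) : 0 ≤ w T s P := by
  unfold w
  split_ifs
  exacts [pTerm_nonneg _ _, le_rfl]

theorem w_le (T : Ideal (𝓞 E) → Prop) (s : ℝ) (P : MP E) : w T s P ≤ pTerm s P.1 := by
  unfold w
  split_ifs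
  exacts [le_rfl, pTerm_nonneg _ _]

theorem w_pos {T : Ideal (𝓞 E) → Prop} (s : ℝ) {P : MP E} (h : T P.1) : w T s P = pTerm s P.1 :=
  if_pos h

theorem w_neg {T : Ideal (𝓞 E) → Prop} (s : ℝ) {P : MP E} (h : ¬T P.1) : w T s P = 0 :=
  if_neg h

theorem w_summ (h2 : StmtLogDer) (T : Ideal (𝓞 E) → Prop) {s : ℝ} (hs : 1 < s) :
    Summable (w T s) :=
  Summable.of_nonneg_of_le (w_nonneg T s) (w_le T s) (summ h2 s hs)

omit [NumberField E] in
theorem inc_inj (T : Ideal (𝓞 E) → Prop) : Function.Injective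
    (fun P : {P : Ideal (𝓞 E) // P.IsMaximal ∧ T P} => (⟨P.1, P.2.1⟩ : MP E)) :=
  fun _ _ h => Subtype.ext (congrArg (fun x : MP E => x.1) h)

theorem summ' (h2 : StmtLogDer) (T : Ideal (𝓞 E) → Prop) {s : ℝ} (hs : 1 < s) :
    Summable fun P : {P : Ideal (𝓞 E) // P.IsMaximal ∧ T P} => pTerm s P.1 :=
  ((summ h2 s hs).comp_injective (inc_inj T)).congr fun _ => rfl

theorem PS_eq (T : Ideal (𝓞 E) → Prop) (s : ℝ) : PS T s = ∑' P : MP E, w T s P := by
  rw [PS, ← (inc_inj T).tsum_eq]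
  · exact tsum_congr fun P => (w_pos s (P := ⟨P.1, P.2.1⟩) P.2.2).symm
  · intro P hP
    by_cases h : T P.1
    · exact ⟨⟨P.1, P.2, h⟩, rfl⟩
    · exact absurd (w_neg s h) hP

theorem PS_nonneg (T : Ideal (𝓞 E) → Prop) (s : ℝ) : 0 ≤ PS T s :=
  tsum_nonneg fun _ => pTerm_nonneg _ _

theorem dens_of_le {T : Ideal (𝓞 E) → Prop} {g : ℝ → ℝ}
    (hg : Tendsto (fun s => (s - 1) * g s) (𝓝[>] 1) (𝓝 0)) (h : ∀ s, 1 < s → PS T s ≤ g s) :
    Dens T 0 := by
  refine squeeze_zero' ?_ ?_ hg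
  · filter_upwards [self_mem_nhdsWithin] with s hs
    exact mul_nonneg (sub_pos.2 hs).le (PS_nonneg T s)
  · filter_upwards [self_mem_nhdsWithin] with s hs
    exact mul_le_mul_of_nonneg_left (h s hs) (sub_pos.2 hs).le

theorem tendsto_const_mul (C : ℝ) : Tendsto (fun s : ℝ => (s - 1) * C) (𝓝[>] 1) (𝓝 0) := by
  have : Continuous fun s : ℝ => (s - 1) * C := by fun_prop
  simpa using (this.tendsto 1).mono_left nhdsWithin_le_nhds

theorem mono (h2 : StmtLogDer) (T T' : Ideal (𝓞 E) → Prop) (h : ∀ P, P.IsMaximal → T P → T' P)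
    (h' : Dens T' 0) : Dens T 0 := by
  refine dens_of_le h' fun s hs => ?_
  rw [PS_eq, PS_eq]
  refine (w_summ h2 T hs).tsum_le_tsum (fun P => ?_) (w_summ h2 T' hs)
  by_cases hP : T P.1
  · rw [w_pos s hP, w_pos s (h _ P.2 hP)]
  · rw [w_neg s hP]
    exact w_nonneg _ _ _

theorem union (h2 : StmtLogDer) (T T' : Ideal (𝓞 E) → Prop) (h : Dens T 0) (h' : Dens T' 0) :
    Dens (fun P => T P ∨ T' P) 0 := by
  refine dens_of_le (g := fun s => PS T s + PS T' s) ?_ fun s hs => ?_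
  · simpa [mul_add] using Tendsto.add h h'
  rw [PS_eq, PS_eq, PS_eq, ← (w_summ h2 T hs).tsum_add (w_summ h2 T' hs)]
  refine (w_summ h2 _ hs).tsum_le_tsum (fun P => ?_) ((w_summ h2 T hs).add (w_summ h2 T' hs))
  by_cases hP : T P.1
  · rw [w_pos s hP]
    linarith [w_le (fun P => T P ∨ T' P) s P, w_nonneg T' s P]
  by_cases hP' : T' P.1
  · rw [w_pos s hP']
    linarith [w_le (fun P => T P ∨ T' P) s P, w_nonneg T s P]
  · rw [w_neg s (T := fun P => T P ∨ T' P) (not_or.2 ⟨hP, hP'⟩)]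
    exact add_nonneg (w_nonneg _ _ _) (w_nonneg _ _ _)

theorem dens_of_summable (h2 : StmtLogDer) {T : Ideal (𝓞 E) → Prop} (h : Summable (w T 1)) :
    Dens T 0 := by
  refine dens_of_le (tendsto_const_mul (∑' P, w T 1 P)) fun s hs => ?_
  rw [PS_eq]
  refine (w_summ h2 T hs).tsum_le_tsum (fun P => ?_) h
  by_cases hP : T P.1
  · rw [w_pos s hP, w_pos 1 hP]
    exact pTerm_anti hs.le P.2
  · rw [w_neg s hP, w_neg 1 hP]

open ArithmeticFunction in
theorem summable_nonprime : Summable (w (fun P : Ideal (𝓞 E) => ¬(absNorm P).Prime) 1) := by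
  classical
  have h0 : Summable fun n : ℕ => (if n.Prime then 0 else vonMangoldt n) / (n : ℝ) := by
    refine (vonMangoldt.summable_residueClass_non_primes_div (0 : ZMod 1)).congr fun n => ?_
    rw [vonMangoldt.residueClass, Set.indicator_of_mem]
    exact Subsingleton.elim (α := ZMod 1) _ _
  have h1 := h0.mul_left (Module.finrank ℤ (𝓞 E) : ℝ)
  refine summable_of_sum_le (w_nonneg _ _) (c := ∑' n : ℕ, (Module.finrank ℤ (𝓞 E) : ℝ) *
    ((if n.Prime then 0 else vonMangoldt n) / (n : ℝ))) fun S => ?_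
  rw [← Finset.sum_fiberwise_of_maps_to (g := fun P : MP E => absNorm P.1)
    (t := S.image fun P => absNorm P.1) fun P hP => Finset.mem_image_of_mem _ hP]
  refine le_trans (Finset.sum_le_sum fun d _ => ?_) (h1.sum_le_tsum _ fun n _ => ?_)
  · by_cases hd : d.Prime
    · rw [Finset.sum_eq_zero, if_pos hd]
      · simp
      · intro P hP
        refine w_neg _ (not_not.2 ?_)
        rwa [(Finset.mem_filter.1 hP).2]
    rw [if_neg hd, ← mul_div_assoc]
    refine le_trans ?_ (div_le_div_of_nonneg_right (LamK_le E d) (Nat.cast_nonneg d))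
    have hi : Set.InjOn (fun P : MP E => (P.1, 1)) (S.filter fun P => absNorm P.1 = d) :=
      fun P _ Q _ h => Subtype.ext (congrArg Prod.fst h)
    calc _ ≤ ∑ P ∈ S.filter fun P : MP E => absNorm P.1 = d, Real.log (absNorm P.1) / d := by
          refine Finset.sum_le_sum fun P hP => (w_le _ _ _).trans_eq ?_
          rw [pTerm, Real.rpow_neg_one, (Finset.mem_filter.1 hP).2, div_eq_mul_inv]
      _ = (∑ x ∈ (S.filter fun P : MP E => absNorm P.1 = d).image (fun P : MP E => (P.1, 1)),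
            Real.log (absNorm x.1)) / d := by
          rw [Finset.sum_image hi, Finset.sum_div]
      _ ≤ _ := by
          refine div_le_div_of_nonneg_right (Finset.sum_le_sum_of_subset_of_nonneg ?_
            fun _ _ _ => Real.log_natCast_nonneg _) (Nat.cast_nonneg d)
          intro x hx
          obtain ⟨P, hP, rfl⟩ := Finset.mem_image.1 hx
          exact (mem_ppN E).2 ⟨P.2.isPrime, ne_bot P.2, le_rfl, by
            simpa using (Finset.mem_filter.1 hP).2⟩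
  · refine mul_nonneg (Nat.cast_nonneg _) (div_nonneg ?_ (Nat.cast_nonneg _))
    split_ifs
    exacts [le_rfl, vonMangoldt_nonneg]

theorem small (h2 : StmtLogDer) (N : ℕ) : Dens (fun P : Ideal (𝓞 E) => ¬Big N P) 0 := by
  have ha : Dens (fun P : Ideal (𝓞 E) => absNorm P ≤ N) 0 := by
    refine dens_of_summable h2 (summable_of_hasFiniteSupport ?_)
    refine ((finite_setOfPred_absNorm_le N).preimage Subtype.val_injective.injOn).subset ?_
    intro P hP
    by_contra h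
    exact hP (w_neg _ h)
  refine mono h2 _ _ (fun P hP h => ?_) (union h2 _ _ ha (dens_of_summable h2 summable_nonprime))
  by_contra hc
  push Not at hc
  exact h ⟨hP, hc.2, hc.1⟩

theorem rel (h2 : StmtLogDer) (K E : Type) [Field K] [NumberField K] [Field E] [NumberField E]
    [Algebra K E] (T : Ideal (𝓞 K) → Prop) (T' : Ideal (𝓞 E) → Prop)
    (h : ∀ P : Ideal (𝓞 K), P.IsMaximal → T P →
      ∃ Q ∈ P.primesOver (𝓞 E), T' Q ∧ absNorm Q = absNorm P) (h' : Dens T' 0) : Dens T 0 := by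
  refine dens_of_le h' fun s hs => ?_
  choose Q hQ hT hN using fun P : {P : Ideal (𝓞 K) // P.IsMaximal ∧ T P} => h P.1 P.2.1 P.2.2
  have hmax : ∀ P, (Q P).IsMaximal := fun P => by
    have := (hQ P).1
    refine this.isMaximal fun h0 => ?_
    have h3 := hN P
    rw [h0, absNorm_bot, eq_comm, absNorm_eq_zero_iff] at h3
    exact ne_bot P.2.1 h3
  rw [PS_eq T']
  refine Summable.tsum_le_tsum_of_inj (fun P => (⟨Q P, hmax P⟩ : MP E)) (fun P P' hP => ?_)
    (fun _ _ => w_nonneg _ _ _) (fun P => ?_) (summ' h2 T hs) (w_summ h2 T' hs)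
  · have h3 : Q P = Q P' := congrArg (fun x : MP E => x.1) hP
    exact Subtype.ext ((hQ P).2.over.trans (h3 ▸ (hQ P').2.over.symm))
  · rw [w_pos s (P := ⟨Q P, hmax P⟩) (hT P), pTerm, pTerm, hN P]

theorem logderiv {f : ℂ → ℂ} (hf : AnalyticAt ℂ f 1) (h : ¬∀ᶠ z in 𝓝 1, f z = 0) :
    ∃ k : ℕ, (k = 0 ↔ f 1 ≠ 0) ∧ (∀ᶠ z in 𝓝[≠] 1, f z ≠ 0) ∧
      Tendsto (fun z => (z - 1) * (deriv f z / f z)) (𝓝[≠] 1) (𝓝 k) ∧
      (Tendsto (fun s : ℝ => f s / (s - 1)) (𝓝[>] 1) (𝓝 0) ↔ 2 ≤ k) := by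
  obtain ⟨k, h1, h2, h3, h4⟩ := logderiv_tendsto hf h
  refine ⟨k, ⟨h1, h2⟩, h3, h4, ?_⟩
  obtain ⟨k', g, hg, hg0, hfg⟩ := hf.exists_eventuallyEq_pow_smul_nonzero_iff.mpr h
  obtain ⟨j, j1, j2, -, j4⟩ := logderiv_tendsto hg fun h => hg0 h.self_of_nhds
  have hj : j = 0 := j2 hg0
  have hkk : k = k' := by
    have h5 : Tendsto (fun z => (k' : ℂ) + (z - 1) * (deriv g z / g z)) (𝓝[≠] 1) (𝓝 k') := by
      simpa [hj] using j4.const_add (k' : ℂ)
    have h6 : Tendsto (fun z => (z - 1) * (deriv f z / f z)) (𝓝[≠] 1) (𝓝 k') := by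
      refine h5.congr' ?_
      filter_upwards [nhdsWithin_le_nhds hfg.eventually_nhds,
        nhdsWithin_le_nhds (hg.continuousAt.eventually_ne hg0),
        nhdsWithin_le_nhds hg.eventually_analyticAt, self_mem_nhdsWithin] with z h1 h2 h3 h4
      have hz : z - 1 ≠ 0 := sub_ne_zero.mpr h4
      have h5 : HasDerivAt (fun z => (z - 1) ^ k' • g z)
          ((k' : ℂ) * (z - 1) ^ (k' - 1) * g z + (z - 1) ^ k' * deriv g z) z := by
        have := (((hasDerivAt_id z).sub_const 1).pow k').mul h3.differentiableAt.hasDerivAt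
        refine (this.congr_deriv ?_ :)
        simp
      have h6 : deriv f z = (k' : ℂ) * (z - 1) ^ (k' - 1) * g z + (z - 1) ^ k' * deriv g z := by
        rw [← h5.deriv]
        exact Filter.EventuallyEq.deriv_eq h1
      rw [h6, h1.self_of_nhds, smul_eq_mul]
      rcases k' with _ | k'
      · simp
      · simp only [Nat.add_sub_cancel, pow_succ]
        field_simp
    exact_mod_cast tendsto_nhds_unique h4 h6
  subst hkk
  have ht : Tendsto (fun s : ℝ => (s : ℂ)) (𝓝[>] 1) (𝓝 1) :=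
    (Complex.continuous_ofReal.tendsto 1).mono_left nhdsWithin_le_nhds
  have ht1 : Tendsto (fun s : ℝ => (s : ℂ) - 1) (𝓝[>] 1) (𝓝 0) := by simpa using ht.sub_const 1
  have hgt : Tendsto (fun s : ℝ => g s) (𝓝[>] 1) (𝓝 (g 1)) := hg.continuousAt.tendsto.comp ht
  have hne : ∀ᶠ s : ℝ in 𝓝[>] 1, (s : ℂ) - 1 ≠ 0 := by
    filter_upwards [self_mem_nhdsWithin] with s hs
    rw [sub_ne_zero]
    exact_mod_cast (ne_of_gt hs)
  rcases k with _ | k
  · refine ⟨fun h => ?_, fun h => by omega⟩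
    have h7 : Tendsto (fun s : ℝ => g s) (𝓝[>] 1) (𝓝 (0 * 0)) := by
      refine (ht1.mul h).congr' ?_
      filter_upwards [ht.eventually hfg, hne] with s h1 h2
      rw [h1]
      simp only [pow_zero, one_smul]
      field_simp
    exact absurd (by simpa using tendsto_nhds_unique hgt h7) hg0
  have h7 : Tendsto (fun s : ℝ => f s / (s - 1)) (𝓝[>] 1) (𝓝 (0 ^ k * g 1)) := by
    refine ((ht1.pow k).mul hgt).congr' ?_
    filter_upwards [ht.eventually hfg, hne] with s h1 h2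
    rw [h1, smul_eq_mul, pow_succ]
    field_simp
  rcases k with _ | k
  · refine ⟨fun h => ?_, fun h => by omega⟩
    exact absurd (by simpa using tendsto_nhds_unique h7 h) hg0
  · exact ⟨fun _ => by omega, fun _ => by simpa using h7⟩

/-- twisted prime sum -/
noncomputable def DS (m : Ideal (𝓞 E)) (φ : Ideal (𝓞 E) → ℂ) (s : ℝ) : ℂ :=
  ∑' P : {P : Ideal (𝓞 E) // P.IsMaximal ∧ Cop m P}, φ P * pTerm s P.1

theorem term_eq (P : Ideal (𝓞 E)) (k : ℕ) (s : ℝ) :
    (Real.log (absNorm P) * (absNorm P : ℂ) ^ (-((k + 1) * (s : ℂ))) : ℂ) =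
      ((Real.log (absNorm P) * (absNorm P : ℝ) ^ (-((k + 1) * s)) : ℝ) : ℂ) := by
  rw [ofReal_mul, ofReal_cpow (Nat.cast_nonneg _)]
  push_cast
  rfl

theorem tail (h2 : StmtLogDer) (m : Ideal (𝓞 E)) (φ : Ideal (𝓞 E) → ℂ)
    (hφ : ∀ I, Cop m I → ‖φ I‖ ≤ 1) : ∃ C : ℝ, ∀ s : ℝ, 1 < s →
      ‖(∑' x : {P : Ideal (𝓞 E) // P.IsMaximal ∧ Cop m P} × ℕ, φ x.1 ^ (x.2 + 1) *
        (Real.log (absNorm x.1.1) * (absNorm x.1.1 : ℂ) ^ (-((x.2 + 1) * (s : ℂ))))) -
        DS m φ s‖ ≤ C := by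
  obtain ⟨C, hb⟩ := (summ' h2 (Cop m) (s := 2) one_lt_two).mul_of_nonneg
    (summable_geometric_two.mul_left 2) (fun _ => pTerm_nonneg _ _) fun _ => by positivity
  refine ⟨C, fun s hs => ?_⟩
  let F : {P : Ideal (𝓞 E) // P.IsMaximal ∧ Cop m P} × ℕ → ℂ := fun x => φ x.1 ^ (x.2 + 1) *
    (Real.log (absNorm x.1.1) * (absNorm x.1.1 : ℂ) ^ (-((x.2 + 1) * (s : ℂ))))
  have hF : ∀ x, ‖F x‖ ≤ Real.log (absNorm x.1.1) * (absNorm x.1.1 : ℝ) ^ (-((x.2 + 1) * s)) := by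
    intro x
    have h0 : 0 ≤ Real.log (absNorm x.1.1) * (absNorm x.1.1 : ℝ) ^ (-((x.2 + 1) * s)) :=
      pTerm_nonneg _ _
    simp only [F]
    rw [term_eq, norm_mul, norm_pow, norm_real, Real.norm_of_nonneg h0]
    exact mul_le_of_le_one_left h0 (pow_le_one₀ (norm_nonneg _) (hφ _ x.1.2.2))
  have hs1 := (h2 E m (fun _ => 1) (by simp) rfl (by simp)).2.1 s hs
  have hFs : Summable F := Summable.of_norm_bounded hs1 hF
  have hF0 : Summable fun x => if x.2 = 0 then F x else 0 := by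
    refine Summable.of_norm_bounded hs1 fun x => ?_
    split_ifs
    exacts [hF x, by simpa using (norm_nonneg _).trans (hF x)]
  have hi : Function.Injective
      fun P : {P : Ideal (𝓞 E) // P.IsMaximal ∧ Cop m P} => (P, (0 : ℕ)) :=
    fun _ _ h => congrArg Prod.fst h
  have e0 : DS m φ s = ∑' x, if x.2 = 0 then F x else 0 := by
    rw [DS, ← hi.tsum_eq]
    · refine tsum_congr fun P => ?_
      simp only [F, if_true]
      rw [term_eq]
      simp [pTerm]
    · rintro ⟨P, k⟩ hx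
      by_cases h : k = 0
      · exact ⟨P, by rw [h]⟩
      · exact absurd (if_neg h) hx
  change ‖∑' x, F x - DS m φ s‖ ≤ _
  rw [e0, ← hFs.tsum_sub hF0]
  refine tsum_of_norm_bounded hb ?_
  rintro ⟨P, _ | k⟩
  · simp only [if_true, sub_self, norm_zero]
    exact mul_nonneg (pTerm_nonneg _ _) (by positivity)
  simp only [Nat.add_eq_zero_iff, one_ne_zero, and_false, if_false, sub_zero]
  refine (hF _).trans ?_
  have h4 := two_le P.2.1
  rw [pTerm, mul_assoc]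
  refine mul_le_mul_of_nonneg_left ?_ (Real.log_natCast_nonneg _)
  calc _ ≤ (absNorm P.1 : ℝ) ^ (-(2 : ℝ) + -(k : ℝ)) := by
        refine Real.rpow_le_rpow_of_exponent_le (by linarith) ?_
        have : (0 : ℝ) ≤ k := Nat.cast_nonneg k
        push_cast
        nlinarith
    _ ≤ _ := by
        rw [Real.rpow_add (by linarith)]
        refine mul_le_mul_of_nonneg_left ?_ (Real.rpow_nonneg (Nat.cast_nonneg _) _)
        rw [Real.rpow_neg (Nat.cast_nonneg _), Real.rpow_natCast, ← inv_pow, pow_succ,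
          mul_comm ((1 / 2 : ℝ) ^ k), ← mul_assoc]
        norm_num only
        rw [one_mul]
        refine pow_le_pow_left₀ (by positivity) ?_ k
        rw [one_div]
        exact inv_anti₀ two_pos h4

theorem norm_char {B : Type} [CommGroup B] [Finite B] (χ : B →* ℂˣ) (b : B) :
    ‖(χ b : ℂ)‖ = 1 := by
  have h : (χ b : ℂ) ^ Nat.card B = 1 := by
    rw [← Units.val_pow_eq_pow_val, ← map_pow, pow_card_eq_one', map_one, Units.val_one]
  exact norm_eq_one_of_pow_eq_one h Nat.card_pos.ne'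

theorem cop_one (m : Ideal (𝓞 E)) : Cop m ⊤ :=
  ⟨top_sup_eq _, fun h => by simpa using congrArg absNorm h⟩

theorem kappa_top {m : Ideal (𝓞 E)} {B : Type} [CommGroup B] {κ : Ideal (𝓞 E) → B}
    (hκ : RayHom m κ) : κ ⊤ = 1 := by
  have h := hκ.mul ⊤ ⊤ (cop_one m) (cop_one m)
  rw [Ideal.top_mul] at h
  exact mul_eq_left.1 h.symm

theorem key (h1 : StmtCont) (h2 : StmtLogDer) {m : Ideal (𝓞 E)} (hm : m ≠ ⊥) {B : Type}
    [CommGroup B] [Finite B] {κ : Ideal (𝓞 E) → B} (hκ : RayHom m κ) (χ : B →* ℂˣ) :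
    ∃ k : ℕ, (k = 0 ↔ ∀ I, Cop m I → χ (κ I) = 1) ∧ ((NV m fun I => χ (κ I)) ↔ k ≤ 1) ∧
      Tendsto (fun s : ℝ => (s - 1 : ℂ) * DS m (fun I => χ (κ I)) s) (𝓝[>] 1) (𝓝 (1 - k)) := by
  obtain ⟨θ, hθ, H, hH, hHe, hH1⟩ := h1 E m hm B κ hκ χ
  have hn : ∀ I, Cop m I → ‖(χ (κ I) : ℂ)‖ ≤ 1 := fun I _ => (norm_char χ _).le
  obtain ⟨-, -, hL1, hLd⟩ := h2 E m (fun I => χ (κ I))
    (fun I J hI hJ => by simp [hκ.mul I J hI hJ]) (by simp [kappa_top hκ]) hn
  obtain ⟨C, hC⟩ := tail h2 m (fun I => χ (κ I)) hn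
  generalize hL : LS m (fun I => (χ (κ I) : ℂ)) = L at hHe hL1 hLd
  have hopen : IsOpen {s : ℂ | θ < s.re} := isOpen_lt continuous_const continuous_re
  have hopen1 : IsOpen {s : ℂ | 1 < s.re} := isOpen_lt continuous_const continuous_re
  have hHa : AnalyticOnNhd ℂ H {s | θ < s.re} := hH.analyticOnNhd hopen
  have h1θ : (1 : ℂ) ∈ {s : ℂ | θ < s.re} := by simpa using hθ
  have hne : ∀ s : ℝ, 1 < s → (s : ℂ) - 1 ≠ 0 := fun s hs => by
    rw [sub_ne_zero]
    exact_mod_cast (ne_of_gt hs)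
  have hnz : ¬∀ᶠ z in 𝓝 1, H z = 0 := by
    intro h
    have h0 := hHa.eqOn_zero_of_preconnected_of_eventuallyEq_zero
      (convex_halfSpace_re_gt θ).isPreconnected h1θ h
    obtain ⟨s, hs1, hs2⟩ := ((hL1.eventually_ne one_ne_zero).and (eventually_gt_atTop 1)).exists
    have h3 := h0 (x := (s : ℂ)) (show θ < (s : ℂ).re by simpa using hθ.trans hs2)
    rw [hHe s (by simpa using hs2)] at h3
    exact mul_ne_zero (hne s hs2) hs1 h3
  obtain ⟨k, k1, k2, k3, k4⟩ := logderiv (hHa 1 h1θ) hnz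
  refine ⟨k, ?_, ?_, ?_⟩
  · rw [k1, Ne, hH1]
    push Not
    rfl
  · rw [NV, hL, ← not_lt, Nat.lt_iff_add_one_le, ← k4]
    refine not_congr (tendsto_congr' ?_)
    filter_upwards [self_mem_nhdsWithin] with s hs
    rw [hHe s (by simpa using hs), mul_div_cancel_left₀ _ (hne s hs)]
  have ht : Tendsto (fun s : ℝ => (s : ℂ)) (𝓝[>] 1) (𝓝[≠] 1) := by
    refine tendsto_nhdsWithin_of_tendsto_nhds_of_eventually_within _
      ((Complex.continuous_ofReal.tendsto 1).mono_left nhdsWithin_le_nhds) ?_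
    filter_upwards [self_mem_nhdsWithin] with s hs using sub_ne_zero.1 (hne s hs)
  generalize hD : (fun s : ℂ => ∑' x : {P : Ideal (𝓞 E) // P.IsMaximal ∧ Cop m P} × ℕ,
    (χ (κ x.1) : ℂ) ^ (x.2 + 1) *
      (Real.log (absNorm x.1.1) * (absNorm x.1.1 : ℂ) ^ (-((x.2 + 1) * s)))) = D
  have hC' : ∀ s : ℝ, 1 < s → ‖D s - DS m (fun I => χ (κ I)) s‖ ≤ C := by
    rw [← hD]
    exact hC
  have hLd' : ∀ s : ℂ, 1 < s.re → HasDerivAt L (-D s * L s) s := by
    rw [← hD]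
    exact hLd
  have ha : Tendsto (fun s : ℝ => (s - 1 : ℂ) * D s) (𝓝[>] 1) (𝓝 (1 - k)) := by
    refine ((k3.comp ht).const_sub 1).congr' ?_
    filter_upwards [self_mem_nhdsWithin, ht.eventually k2] with s hs h0
    have hs' : 1 < (s : ℂ).re := by simpa using hs
    have e1 : H =ᶠ[𝓝 (s : ℂ)] fun z => (z - 1) * L z := by
      filter_upwards [hopen1.mem_nhds hs'] with z hz using hHe z hz
    have e2 := ((hasDerivAt_id (s : ℂ)).sub_const 1).mul (hLd' s hs')
    have e3 : deriv H s = 1 * L s + (s - 1) * (-D s * L s) := by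
      rw [e1.deriv_eq]
      exact e2.deriv
    rw [hHe s hs'] at h0
    have e4 := hne s hs
    have e5 : L s ≠ 0 := right_ne_zero_of_mul h0
    simp only [Function.comp]
    rw [e3, hHe s hs']
    field_simp
    ring
  have hb : Tendsto (fun s : ℝ => (s - 1 : ℂ) * (D s - DS m (fun I => χ (κ I)) s)) (𝓝[>] 1)
      (𝓝 0) := by
    refine squeeze_zero_norm' ?_ (tendsto_const_mul C)
    filter_upwards [self_mem_nhdsWithin] with s hs
    have : ‖(s - 1 : ℂ)‖ = s - 1 := by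
      rw [← ofReal_one, ← ofReal_sub, norm_real, Real.norm_of_nonneg (sub_pos.2 hs).le]
    rw [norm_mul, this]
    exact mul_le_mul_of_nonneg_left (hC' s hs) (sub_pos.2 hs).le
  have hc := ha.sub hb
  rw [sub_zero] at hc
  exact hc.congr fun s => by ring

theorem finite_char (B : Type) [CommGroup B] [Finite B] : Finite (B →* ℂˣ) := by
  obtain ⟨e⟩ := CommGroup.monoidHom_mulEquiv_of_hasEnoughRootsOfUnity B ℂ
  exact Finite.of_equiv _ e.symm.toEquiv

theorem orth {B : Type} [CommGroup B] [Finite B] [Fintype (B →* ℂˣ)] {a : B} (ha : a ≠ 1) :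
    ∑ χ : B →* ℂˣ, (χ a : ℂ) = 0 := by
  obtain ⟨ψ, hψ⟩ := CommGroup.exists_apply_ne_one_of_hasEnoughRootsOfUnity B ℂ ha
  have h : ∑ χ : B →* ℂˣ, ((ψ * χ) a : ℂ) = ∑ χ : B →* ℂˣ, (χ a : ℂ) :=
    Fintype.sum_bijective _ (Group.mulLeft_bijective ψ) _ _ fun _ => rfl
  simp only [MonoidHom.mul_apply, Units.val_mul, ← Finset.mul_sum] at h
  by_contra h0
  exact hψ (Units.val_eq_one.1 (mul_eq_right₀ h0 |>.1 h))

theorem class_sum (h2 : StmtLogDer) (m : Ideal (𝓞 E)) {B : Type} [CommGroup B] [Finite B]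
    [Fintype (B →* ℂˣ)] (κ : Ideal (𝓞 E) → B) (b : B) {s : ℝ} (hs : 1 < s) :
    (Fintype.card (B →* ℂˣ) : ℂ) * PS (fun P => Cop m P ∧ κ P = b) s =
      ∑ χ : B →* ℂˣ, χ b⁻¹ * DS m (fun I => χ (κ I)) s := by
  classical
  have hS : ∀ χ : B →* ℂˣ, Summable fun P : {P : Ideal (𝓞 E) // P.IsMaximal ∧ Cop m P} =>
      (χ b⁻¹ : ℂ) * (χ (κ P) * pTerm s P.1) := fun χ => by
    refine Summable.of_norm_bounded (summ' h2 (Cop m) hs) fun P => ?_
    rw [norm_mul, norm_mul, norm_char, norm_char, one_mul, one_mul, norm_real,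
      Real.norm_of_nonneg (pTerm_nonneg _ _)]
  simp only [DS, ← tsum_mul_left]
  rw [← Summable.tsum_finsetSum fun χ _ => hS χ, PS_eq, ← (inc_inj (Cop m)).tsum_eq,
    ofReal_tsum, ← tsum_mul_left]
  · refine tsum_congr fun P => ?_
    simp only [← mul_assoc, ← Units.val_mul, ← map_mul, ← Finset.sum_mul]
    by_cases h : κ P = b
    · rw [w_pos s (P := ⟨P.1, P.2.1⟩) ⟨P.2.2, h⟩, h]
      simp
    · rw [w_neg s (P := ⟨P.1, P.2.1⟩) fun h' => h h'.2, orth]
      · simp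
      · rwa [Ne, inv_mul_eq_one, eq_comm]
  · intro P hP
    by_cases h : Cop m P.1
    · exact ⟨⟨P.1, P.2, h⟩, rfl⟩
    · exact absurd (w_neg s fun h' => h h'.1) hP

theorem class_lim (h2 : StmtLogDer) (m : Ideal (𝓞 E)) {B : Type} [CommGroup B] [Finite B]
    [Fintype (B →* ℂˣ)] (κ : Ideal (𝓞 E) → B) (b : B) (e : (B →* ℂˣ) → ℂ)
    (he : ∀ χ : B →* ℂˣ, Tendsto (fun s : ℝ => (s - 1 : ℂ) * DS m (fun I => χ (κ I)) s)
      (𝓝[>] 1) (𝓝 (e χ))) :
    Dens (fun P => Cop m P ∧ κ P = b)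
      ((∑ χ : B →* ℂˣ, χ b⁻¹ * e χ).re / Fintype.card (B →* ℂˣ)) := by
  have h3 := tendsto_finsetSum Finset.univ fun (χ : B →* ℂˣ) _ => (he χ).const_mul (χ b⁻¹ : ℂ)
  have h4 := ((continuous_re.tendsto _).comp h3).div_const (Fintype.card (B →* ℂˣ) : ℝ)
  refine h4.congr' ?_
  filter_upwards [self_mem_nhdsWithin] with s hs
  have h5 : ∑ χ : B →* ℂˣ, (χ b⁻¹ : ℂ) * ((s - 1 : ℂ) * DS m (fun I => χ (κ I)) s) =
      ((Fintype.card (B →* ℂˣ) * ((s - 1) * PS (fun P => Cop m P ∧ κ P = b) s) : ℝ) : ℂ) := by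
    push_cast
    rw [mul_left_comm, class_sum h2 m κ b hs, Finset.mul_sum]
    exact Finset.sum_congr rfl fun _ _ => by ring
  simp only [Function.comp]
  rw [h5, ofReal_re, mul_div_cancel_left₀]
  exact_mod_cast Fintype.card_ne_zero

theorem dens_nonneg {T : Ideal (𝓞 E) → Prop} {δ : ℝ} (h : Dens T δ) : 0 ≤ δ := by
  refine ge_of_tendsto h ?_
  filter_upwards [self_mem_nhdsWithin] with s hs
  exact mul_nonneg (sub_pos.2 hs).le (PS_nonneg T s)

theorem nv_congr {m : Ideal (𝓞 E)} {φ ψ : Ideal (𝓞 E) → ℂ} (h : ∀ I, Cop m I → φ I = ψ I) :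
    NV m φ ↔ NV m ψ := by
  have : LS m φ = LS m ψ := funext fun s => tsum_congr fun I => by rw [h I.1 I.2]
  rw [NV, NV, this]

theorem nv_conj {m : Ideal (𝓞 E)} {φ : Ideal (𝓞 E) → ℂ}
    (h : NV m fun I => starRingEnd ℂ (φ I)) : NV m φ := by
  intro h0
  apply h
  have h3 := (continuous_conj.tendsto _).comp h0
  rw [map_zero] at h3
  refine h3.congr fun s => ?_
  simp only [Function.comp, LS]
  rw [conj_tsum]
  refine tsum_congr fun I => ?_
  rw [map_mul, ← ofReal_neg, ← ofReal_natCast, ← ofReal_cpow (Nat.cast_nonneg _), conj_ofReal]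

theorem main (h1 : StmtCont) (h2 : StmtLogDer) {m : Ideal (𝓞 E)} (hm : m ≠ ⊥) {B : Type}
    [CommGroup B] [Finite B] {κ : Ideal (𝓞 E) → B} (hκ : RayHom m κ) :
    ((∀ χ : B →* ℂˣ, NV m fun I => χ (κ I)) → ∀ I, Cop m I →
      ¬Dens (fun P => Cop m P ∧ κ P = κ I) 0) ∧
    ∀ χ : B →* ℂˣ, (¬NV m fun I => χ (κ I)) → Dens (fun P => Cop m P ∧ κ P = 1) 0 ∧
      (∀ I, Cop m I → χ (κ I) ^ 2 = 1) ∧ ∃ I, Cop m I ∧ χ (κ I) ≠ 1 := by
  classical
  have := finite_char B
  have := Fintype.ofFinite (B →* ℂˣ)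
  choose k k1 k2 k3 using key h1 h2 hm hκ
  have hc : (0 : ℝ) < Fintype.card (B →* ℂˣ) := by exact_mod_cast Fintype.card_pos
  let A : Finset (B →* ℂˣ) := Finset.univ.filter fun χ => k χ = 0
  have hA : ∀ χ, χ ∈ A ↔ ∀ I, Cop m I → χ (κ I) = 1 := fun χ => by simp [A, k1]
  have hA0 : 0 < A.card := Finset.card_pos.2 ⟨1, (hA 1).2 fun _ _ => rfl⟩
  constructor
  · intro hNV I hI h0
    have h3 := tendsto_nhds_unique (class_lim h2 m κ (κ I) _ k3) h0
    have h4 : ∑ χ : B →* ℂˣ, (χ (κ I)⁻¹ : ℂ) * (1 - k χ) = A.card := by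
      rw [Finset.card_eq_sum_ones, Nat.cast_sum, Finset.sum_filter]
      refine Finset.sum_congr rfl fun χ _ => ?_
      split_ifs with h
      · simp [h, (k1 χ).1 h I hI]
      · have : k χ = 1 := by
          have := (k2 χ).1 (hNV χ)
          omega
        simp [this]
    rw [h4, natCast_re, div_eq_zero_iff] at h3
    rcases h3 with h3 | h3
    · exact hA0.ne' (by exact_mod_cast h3)
    · exact hc.ne' h3
  intro χ0 h0
  have h3 := class_lim h2 m κ 1 _ k3
  let Z : Finset (B →* ℂˣ) := Finset.univ.filter fun χ => 2 ≤ k χ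
  have hZ : ∀ χ, χ ∈ Z ↔ ¬NV m fun I => χ (κ I) := fun χ => by
    simp only [Z, k2, Finset.mem_filter, Finset.mem_univ, true_and]
    omega
  have h4 : (∑ χ : B →* ℂˣ, (χ 1⁻¹ : ℂ) * (1 - k χ)).re ≤ (A.card : ℝ) - Z.card := by
    rw [Finset.card_eq_sum_ones, Finset.card_eq_sum_ones, Nat.cast_sum, Nat.cast_sum,
      Finset.sum_filter, Finset.sum_filter, re_sum, ← Finset.sum_sub_distrib]
    refine Finset.sum_le_sum fun χ _ => ?_
    simp only [inv_one, map_one, Units.val_one, one_mul, sub_re, one_re, natCast_re, Nat.cast_one]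
    rcases k χ with _ | _ | j
    · simp
    · simp
    · have : (0 : ℝ) ≤ j := Nat.cast_nonneg j
      rw [if_neg (by omega), if_pos (by omega)]
      push_cast
      linarith
  have h5 := dens_nonneg h3
  rw [le_div_iff₀ hc, zero_mul] at h5
  have hsub : ∀ χ : B →* ℂˣ, (¬NV m fun I => χ (κ I)) → A.image (χ * ·) ⊆ Z := by
    intro χ hχ ψ hψ
    obtain ⟨η, hη, rfl⟩ := Finset.mem_image.1 hψ
    rw [hZ, nv_congr (ψ := fun I => χ (κ I))]
    · exact hχ
    · intro I hI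
      simp [(hA η).1 hη I hI]
  have hcard : ∀ χ : B →* ℂˣ, (A.image (χ * ·)).card = A.card := fun χ =>
    Finset.card_image_of_injective _ (mul_right_injective χ)
  refine ⟨?_, ?_, ?_⟩
  · have h6 : (A.card : ℝ) ≤ Z.card := by
      exact_mod_cast (hcard χ0).ge.trans (Finset.card_le_card (hsub χ0 h0))
    rwa [le_antisymm (h4.trans (sub_nonpos.2 h6)) h5, zero_div] at h3
  · by_contra hq
    have h0' : ¬NV m fun I => χ0⁻¹ (κ I) := by
      intro h
      refine h0 (nv_conj ((nv_congr fun I _ => ?_).1 h))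
      rw [MonoidHom.inv_apply, Units.val_inv_eq_inv_val, inv_eq_conj (norm_char χ0 _)]
    have hd : Disjoint (A.image (χ0 * ·)) (A.image (χ0⁻¹ * ·)) := by
      rw [Finset.disjoint_left]
      intro ψ hψ hψ'
      obtain ⟨η, hη, rfl⟩ := Finset.mem_image.1 hψ
      obtain ⟨η', hη', e⟩ := Finset.mem_image.1 hψ'
      refine hq fun I hI => ?_
      have := DFunLike.congr_fun e (κ I)
      simp only [MonoidHom.mul_apply, MonoidHom.inv_apply, (hA η).1 hη I hI, (hA η').1 hη' I hI,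
        mul_one] at this
      rw [sq, ← eq_inv_iff_mul_eq_one, this]
    have h6 := Finset.card_le_card (Finset.union_subset (hsub χ0 h0) (hsub _ h0'))
    rw [Finset.card_union_of_disjoint hd, hcard, hcard] at h6
    have h7 : (A.card : ℝ) + A.card ≤ Z.card := by exact_mod_cast h6
    have h8 : (0 : ℝ) < A.card := by exact_mod_cast hA0
    linarith
  · by_contra hq
    push Not at hq
    exact h0 ((k2 χ0).2 (by rw [(k1 χ0).2 hq]; exact zero_le_one))

theorem all (h1 : StmtCont) (h2 : StmtLogDer) : Dens (fun _ : Ideal (𝓞 E) => True) 1 := by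
  obtain ⟨k, k1, -, k3⟩ := key (E := E) h1 h2 (m := ⊤) top_ne_bot (B := Unit) (κ := fun _ => 1)
    ⟨fun _ _ _ _ => rfl, fun _ _ _ _ => rfl⟩ 1
  rw [k1.2 fun _ _ => rfl] at k3
  have h4 := (continuous_re.tendsto _).comp k3
  simp only [Nat.cast_zero, sub_zero, one_re] at h4
  refine h4.congr fun s => ?_
  have h5 : DS (E := E) ⊤ (fun _ => ((1 : Unit →* ℂˣ) 1 : ℂˣ)) s =
      PS (fun _ : Ideal (𝓞 E) => True) s := by
    have h7 : PS (fun _ : Ideal (𝓞 E) => True) s = PS (Cop (⊤ : Ideal (𝓞 E))) s := by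
      rw [PS_eq, PS_eq]
      exact tsum_congr fun P => by rw [w_pos s trivial, w_pos s (cop_top P.2)]
    rw [h7, DS, PS, ofReal_tsum]
    exact tsum_congr fun P => by simp
  simp only [Function.comp]
  rw [h5, ← ofReal_one, ← ofReal_sub, ← ofReal_mul, ofReal_re]

end TK2b

theorem blockTK2b (h1 : StmtCont) (h2 : StmtLogDer) : StmtDens := by
  refine ⟨fun E _ _ => ⟨TK2b.summ h2, TK2b.all h1 h2, TK2b.small h2, TK2b.mono h2, TK2b.union h2,
    ?_, ?_⟩, TK2b.rel h2⟩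
  · intro m hm B _ _ κ hκ h
    refine (TK2b.main h1 h2 hm hκ).1 fun χ => ?_
    by_contra hc
    exact h ((TK2b.main h1 h2 hm hκ).2 χ hc).1
  · intro m hm B _ _ κ hκ h
    have h3 : ∀ χ : B →* ℂˣ, NV m fun I => χ (κ I) := fun χ => by
      by_contra hc
      obtain ⟨-, h4, h5⟩ := (TK2b.main h1 h2 hm hκ).2 χ hc
      exact hc (h χ h4 h5)
    have h4 := (TK2b.main h1 h2 hm hκ).1 h3 ⊤ (TK2b.cop_one m)
    rw [TK2b.kappa_top hκ] at h4
    exact ⟨h3, h4⟩

end Pool.Agent.Lib.Stark
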