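import Pool.Agent.Lib.stark.Defs2

/-! Block RG: existence and finiteness of ray class groups. -/

open NumberField Ideal
open scoped nonZeroDivisors

namespace Pool.Agent.Lib.Stark

namespace RG

variable {K : Type} [Field K] [NumberField K] (T : Set (K →+* ℝ)) (m : Ideal (𝓞 K))

omit [NumberField K] in
theorem one_mul_mem {m : Ideal (𝓞 K)} {s t : 𝓞 K} (hs : s - 1 ∈ m) (ht : t - 1 ∈ m) :
    s * t - 1 ∈ m := by
  have := m.add_mem (m.mul_mem_right t hs) ht
  rwa [show (s - 1) * t + (t - 1) = s * t - 1 by ring] at this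

omit [NumberField K] in
theorem cop_of_mem {m I : Ideal (𝓞 K)} {t : 𝓞 K} (h0 : t ≠ 0) (h : t ∈ I) (ht : t - 1 ∈ m) :
    Cop m I := by
  refine ⟨(Ideal.eq_top_iff_one _).2 ?_, fun e => h0 (by simpa [e] using h)⟩
  have := sub_mem (Ideal.mem_sup_left (T := m) h) (Ideal.mem_sup_right (S := I) ht)
  simpa using this

omit [NumberField K] in
theorem exists_one {m I : Ideal (𝓞 K)} (h : Cop m I) : ∃ t ∈ I, t ≠ 0 ∧ t - 1 ∈ m := by
  obtain ⟨t, ht, u, hu, e⟩ := Submodule.mem_sup.1 ((Ideal.eq_top_iff_one _).1 h.1)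
  by_cases h0 : t = 0
  · obtain ⟨s, hs, hs0⟩ := Submodule.exists_mem_ne_zero_of_ne_bot h.2
    have : u = 1 := by simpa [h0] using e
    exact ⟨s, hs, hs0, mul_one (s - 1) ▸ m.mul_mem_left (s - 1) (this ▸ hu)⟩
  · exact ⟨t, ht, h0, by rw [← e]; simpa using hu⟩

/-- The ideals coprime to the modulus. -/
def M : Submonoid (Ideal (𝓞 K)) where
  carrier := {I | Cop m I}
  one_mem' := ⟨by simp, by simp⟩
  mul_mem' := fun {I J} hI hJ => by
    obtain ⟨s, hs, s0, s1⟩ := exists_one hI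
    obtain ⟨t, ht, t0, t1⟩ := exists_one hJ
    exact cop_of_mem (mul_ne_zero s0 t0) (Ideal.mul_mem_mul hs ht) (one_mul_mem s1 t1)

/-- The ray relation. -/
def rel (I J : Ideal (𝓞 K)) : Prop := ∃ α β : 𝓞 K, α ≠ 0 ∧ β ≠ 0 ∧ α - 1 ∈ m ∧
  β - 1 ∈ m ∧ (∀ τ ∈ T, 0 < τ α ∧ 0 < τ β) ∧ span {α} * I = span {β} * J

theorem rel_refl (I : Ideal (𝓞 K)) : rel T m I I :=
  ⟨1, 1, one_ne_zero, one_ne_zero, by simp, by simp, by simp, rfl⟩

/-- The ray congruence. -/
def con : Con (M m) where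
  r I J := rel T m I J
  iseqv := by
    refine ⟨fun I => rel_refl T m I, ?_, ?_⟩
    · rintro I J ⟨α, β, a, b, c, d, e, f⟩
      exact ⟨β, α, b, a, d, c, fun τ h => (e τ h).symm, f.symm⟩
    · rintro I J L ⟨α, β, a, b, c, d, e, f⟩ ⟨α', β', a', b', c', d', e', f'⟩
      refine ⟨α' * α, β * β', mul_ne_zero a' a, mul_ne_zero b b', one_mul_mem c' c,
        one_mul_mem d d', fun τ h => ?_, ?_⟩
      · simp only [RingOfIntegers.coe_eq_algebraMap, map_mul] at e e' ⊢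
        exact ⟨mul_pos (e' τ h).1 (e τ h).1, mul_pos (e τ h).2 (e' τ h).2⟩
      · rw [← span_singleton_mul_span_singleton, ← span_singleton_mul_span_singleton, mul_assoc, f,
          mul_left_comm, f', mul_assoc]
  mul' := by
    rintro I J I' J' ⟨α, β, a, b, c, d, e, f⟩ ⟨α', β', a', b', c', d', e', f'⟩
    refine ⟨α * α', β * β', mul_ne_zero a a', mul_ne_zero b b', one_mul_mem c c',
      one_mul_mem d d', fun τ h => ?_, ?_⟩
    · simp only [RingOfIntegers.coe_eq_algebraMap, map_mul] at e e' ⊢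
      exact ⟨mul_pos (e τ h).1 (e' τ h).1, mul_pos (e τ h).2 (e' τ h).2⟩
    · rw [← span_singleton_mul_span_singleton, ← span_singleton_mul_span_singleton,
        Submonoid.coe_mul, Submonoid.coe_mul, mul_mul_mul_comm, f, f', mul_mul_mul_comm]

omit [NumberField K] in
theorem emb_ne (τ : K →+* ℝ) {t : 𝓞 K} (h : t ≠ 0) : τ t ≠ 0 :=
  (map_ne_zero τ).2 (RingOfIntegers.coe_ne_zero_iff.2 h)

theorem rel_one {α : 𝓞 K} (h0 : α ≠ 0) (h1 : α - 1 ∈ m) (h : ∀ τ ∈ T, 0 < τ α) :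
    rel T m (span {α}) 1 :=
  ⟨1, α, one_ne_zero, h0, by simp, h1, fun τ hτ => ⟨by simp, h τ hτ⟩, by simp⟩

theorem exists_inv (I : M m) : ∃ (J : M m) (t : 𝓞 K), (I * J : M m) = span {t} ∧
    (con T m).mk' I * (con T m).mk' J = 1 := by
  obtain ⟨t, ht, t0, t1⟩ := exists_one I.2
  obtain ⟨J, hJ⟩ : (I : Ideal (𝓞 K)) ∣ span {t * t} :=
    Ideal.dvd_iff_le.2 ((span_singleton_le_iff_mem _).2 (Ideal.mul_mem_left _ t ht))
  have hJ' : t * t ∈ J := by
    have := mem_span_singleton_self (t * t)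
    rw [hJ] at this
    exact Ideal.le_of_dvd (dvd_mul_left J I.1) this
  refine ⟨⟨J, cop_of_mem (mul_ne_zero t0 t0) hJ' (one_mul_mem t1 t1)⟩, t * t, hJ.symm, ?_⟩
  rw [← map_mul, ← map_one (con T m).mk']
  refine (Con.eq _).2 ?_
  change rel T m (I * J) 1
  rw [← hJ]
  refine rel_one T m (mul_ne_zero t0 t0) (one_mul_mem t1 t1) fun τ _ => ?_
  simp only [map_mul]
  exact mul_self_pos.2 (emb_ne τ t0)

omit [NumberField K] in
theorem rel_span {γ δ : 𝓞 K} (hγ : Cop m (span {γ})) (hδ : δ ≠ 0) (h : δ - γ ∈ m)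
    (hs : ∀ τ : K →+* ℝ, SignType.sign (τ γ) = SignType.sign (τ δ)) :
    rel T m (span {γ}) (span {δ}) := by
  obtain ⟨t, ht, t0, t1⟩ := exists_one hγ
  obtain ⟨u, rfl⟩ := mem_span_singleton'.1 ht
  have u0 : u ≠ 0 := left_ne_zero_of_mul t0
  have γ0 : γ ≠ 0 := right_ne_zero_of_mul t0
  have h2 : u * δ - 1 ∈ m := by
    have := m.add_mem (m.mul_mem_left u h) t1
    rwa [show u * (δ - γ) + (u * γ - 1) = u * δ - 1 by ring] at this
  refine ⟨(u * γ) * (u * δ), (u * γ) * (u * γ), mul_ne_zero t0 (mul_ne_zero u0 hδ),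
    mul_ne_zero t0 t0, one_mul_mem t1 h2, one_mul_mem t1 t1, fun τ _ => ?_, ?_⟩
  · have a := emb_ne τ u0
    have b := emb_ne τ γ0
    have c := hs τ
    simp only [RingOfIntegers.coe_eq_algebraMap, map_mul] at a b c ⊢
    refine ⟨?_, mul_self_pos.2 (mul_ne_zero a b)⟩
    rw [mul_mul_mul_comm]
    refine mul_pos (mul_self_pos.2 a) (sign_eq_one_iff.1 ?_)
    rw [sign_mul, ← c]
    rcases b.lt_or_gt with b | b
    · simp [sign_neg b]
    · simp [sign_pos b]
  · rw [span_singleton_mul_span_singleton, span_singleton_mul_span_singleton]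
    congr 2
    ring

theorem finite (hm : m ≠ ⊥) : Finite (con T m).Quotient := by
  have : Finite (𝓞 K ⧸ m) := Ideal.finiteQuotientOfFreeOfNeBot m hm
  let P := {γ : 𝓞 K // Cop m (span {γ})}
  have : Nonempty P := ⟨⟨1, by simp [Cop]⟩⟩
  let f : P → (𝓞 K ⧸ m) × ((K →+* ℝ) → SignType) :=
    fun γ => (Ideal.Quotient.mk m γ.1, fun τ => SignType.sign (τ γ.1))
  let g : P → (con T m).Quotient := fun γ => (con T m).mk' ⟨span {γ.1}, γ.2⟩
  have hfg : ∀ γ δ, f γ = f δ → g γ = g δ := fun γ δ e =>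
    (Con.eq _).2 (rel_span T m γ.2 (fun h => δ.2.2 (by simp [h]))
      (Ideal.Quotient.eq.1 (congrArg Prod.fst e).symm) fun τ => congrFun (congrArg Prod.snd e) τ)
  let cl : M m →* ClassGroup (𝓞 K) := ClassGroup.mk0.comp
    (Submonoid.inclusion fun I hI => mem_nonZeroDivisors_of_ne_zero hI.2)
  refine Finite.of_surjective (fun p : ClassGroup (𝓞 K) × (𝓞 K ⧸ m) × ((K →+* ℝ) → SignType) =>
    (con T m).mk' (Function.invFun cl p.1) * g (Function.invFun f p.2)) fun b => ?_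
  obtain ⟨J, rfl⟩ := (con T m).mk'_surjective b
  have e : cl (Function.invFun cl (cl J)) = cl J := Function.invFun_eq ⟨J, rfl⟩
  set I := Function.invFun cl (cl J)
  obtain ⟨I', t, ht, hI⟩ := exists_inv T m I
  have h1 : cl (J * I') = 1 := by
    rw [map_mul, ← e, ← map_mul]
    exact (ClassGroup.mk0_eq_one_iff _).2 ⟨t, ht⟩
  obtain ⟨γ, hγ⟩ := (ClassGroup.mk0_eq_one_iff _).1 h1
  have hγ' : ((J * I' : M m) : Ideal (𝓞 K)) = span {γ} := hγ
  refine ⟨(cl J, f ⟨γ, hγ' ▸ (J * I').2⟩), ?_⟩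
  change (con T m).mk' I * g _ = _
  rw [hfg _ _ (Function.invFun_eq ⟨_, rfl⟩)]
  have : g ⟨γ, hγ' ▸ (J * I').2⟩ = (con T m).mk' (J * I') :=
    congrArg (con T m).mk' (Subtype.ext hγ'.symm)
  rw [this, map_mul, mul_left_comm, hI, mul_one]

end RG

open RG in
theorem blockRG : StmtRay := by
  classical
  intro K _ _ T m hm
  have hu : ∀ b : (con T m).Quotient, IsUnit b := fun b => by
    obtain ⟨I, rfl⟩ := (con T m).mk'_surjective b
    obtain ⟨J, -, -, h⟩ := exists_inv T m I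
    exact IsUnit.of_mul_eq_one _ h
  have := RG.finite T m hm
  let κ : Ideal (𝓞 K) → (con T m).Quotientˣ :=
    fun I => if h : Cop m I then (hu ((con T m).mk' ⟨I, h⟩)).unit else 1
  have hκ : ∀ I (h : Cop m I), (κ I : (con T m).Quotient) = (con T m).mk' ⟨I, h⟩ := fun I h => by
    simp only [κ, dif_pos h, IsUnit.unit_spec]
  refine ⟨(con T m).Quotientˣ, inferInstance, inferInstance, κ, ⟨fun I J hI hJ => ?_,
    fun α h0 h1 h => ?_⟩, fun b => ?_, fun I J hI hJ => ?_⟩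
  · have : Cop m (I * J) := (M m).mul_mem hI hJ
    apply Units.ext
    rw [Units.val_mul, hκ _ hI, hκ _ hJ, hκ _ this, ← map_mul]
    rfl
  · have : Cop m (span {α}) := cop_of_mem h0 (mem_span_singleton_self α) h1
    apply Units.ext
    rw [hκ _ this, Units.val_one, ← map_one (con T m).mk']
    exact (Con.eq _).2 (rel_one T m h0 h1 fun τ _ => h τ)
  · obtain ⟨I, hI⟩ := (con T m).mk'_surjective b
    exact ⟨I, I.2, Units.ext ((hκ _ I.2).trans hI)⟩
  · rw [← Units.val_inj, hκ _ hI, hκ _ hJ]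
    exact Con.eq _

end Pool.Agent.Lib.Stark
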