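import Pool.Agent.Lib.stark.Defs2

open Complex NumberField Ideal
open scoped ComplexConjugate

namespace Pool.Agent.Lib.Stark

namespace G0b

variable {K E : Type} [Field K] [NumberField K] [Field E] [NumberField E] [Algebra K E]

lemma norm_sub_one {m : Ideal (𝓞 K)} {β : 𝓞 E} (h : β - 1 ∈ m.map (algebraMap (𝓞 K) (𝓞 E))) :
    Algebra.intNorm (𝓞 K) (𝓞 E) β - 1 ∈ m := by
  let Ω := AlgebraicClosure K
  rw [← Ideal.comap_map_eq_self_of_faithfullyFlat (B := 𝓞 Ω) m, Ideal.mem_comap, map_sub, map_one]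
  have h1 : algebraMap (𝓞 K) (𝓞 Ω) (Algebra.intNorm (𝓞 K) (𝓞 E) β) =
      ∏ σ : E →ₐ[K] Ω, RingOfIntegers.mapRingHom (σ : E →+* Ω) β := by
    apply RingOfIntegers.coe_injective
    rw [map_prod, ← IsScalarTower.algebraMap_apply, IsScalarTower.algebraMap_apply (𝓞 K) K Ω,
      Algebra.algebraMap_intNorm (L := E), Algebra.norm_eq_prod_embeddings]
    rfl
  rw [h1, ← Ideal.Quotient.eq, map_prod, map_one]
  refine Finset.prod_eq_one fun σ _ => ?_
  rw [← map_one (Ideal.Quotient.mk _), Ideal.Quotient.eq]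
  have h2 := Ideal.mem_map_of_mem (RingOfIntegers.mapRingHom (σ : E →+* Ω)) h
  rw [Ideal.map_map, map_sub, map_one] at h2
  convert h2 using 2
  ext x
  exact (σ.commutes x).symm

lemma cop_norm {m : Ideal (𝓞 K)} {I : Ideal (𝓞 E)}
    (h : Cop (m.map (algebraMap (𝓞 K) (𝓞 E))) I) : Cop m (relNorm (𝓞 K) I) := by
  refine ⟨?_, fun h0 => h.2 (relNorm_eq_bot_iff.1 h0)⟩
  obtain ⟨β, hβ, μ, hμ, h1⟩ := Submodule.mem_sup.1 ((Ideal.eq_top_iff_one _).1 h.1)
  have h2 := norm_sub_one (m := m) (β := β) (by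
    rw [show β - 1 = -μ by rw [← h1]; ring]; exact neg_mem hμ)
  rw [Ideal.eq_top_iff_one, ← sub_sub_cancel (Algebra.intNorm (𝓞 K) (𝓞 E) β) 1]
  exact sub_mem (Ideal.mem_sup_left (intNorm_mem_spanNorm (𝓞 K) hβ)) (Ideal.mem_sup_right h2)

omit [NumberField K] [NumberField E] in
lemma norm_pos {α : E} [Algebra.IsSeparable K E] [FiniteDimensional K E] (h0 : α ≠ 0)
    (h : ∀ τ : E →+* ℝ, 0 < τ α) (τ : K →+* ℝ) : 0 < τ (Algebra.norm K α) := by
  let _ : Algebra K ℂ := (ofRealHom.comp τ).toAlgebra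
  have h1 : (τ (Algebra.norm K α) : ℂ) = ∏ σ : E →ₐ[K] ℂ, σ α :=
    Algebra.norm_eq_prod_embeddings K ℂ α
  let g : (E →ₐ[K] ℂ) → (E →ₐ[K] ℂ) := fun σ =>
    { (starRingEnd ℂ).comp (σ : E →+* ℂ) with
      commutes' := fun x => by
        simp only [RingHom.toMonoidHom_eq_coe, OneHom.toFun_eq_coe, MonoidHom.toOneHom_coe,
          MonoidHom.coe_coe, RingHom.comp_apply, RingHom.coe_coe, AlgHom.commutes]
        exact conj_ofReal _ }
  have hg : ∀ σ x, g σ x = conj (σ x) := fun _ _ => rfl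
  have hn : ∀ σ : E →ₐ[K] ℂ, (‖σ α‖ : ℂ) ≠ 0 := fun σ => by simpa using h0
  have h2 : ∏ σ : E →ₐ[K] ℂ, σ α / ‖σ α‖ = 1 := by
    refine Finset.prod_involution (fun σ _ => g σ) (fun σ _ => ?_) (fun σ _ h3 h4 => h3 ?_)
      (fun _ _ => Finset.mem_univ _) fun σ _ => AlgHom.ext fun x => by rw [hg, hg, conj_conj]
    · rw [hg, norm_conj, div_mul_div_comm, mul_conj', sq, div_self (mul_ne_zero (hn σ) (hn σ))]
    · have h5 : ComplexEmbedding.IsReal (σ : E →+* ℂ) :=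
        RingHom.ext fun x => by exact (hg σ x).symm.trans (by rw [h4]; rfl)
      have h6 : (h5.embedding α : ℂ) = σ α := h5.coe_embedding_apply α
      rw [div_eq_one_iff_eq (hn σ), ← h6, norm_real, Real.norm_of_nonneg (h _).le]
  rw [Finset.prod_div_distrib, div_eq_one_iff_eq (Finset.prod_ne_zero_iff.2 fun σ _ => hn σ),
    ← h1, ← ofReal_prod, ofReal_inj] at h2
  rw [h2]
  exact Finset.prod_pos fun σ _ => by simpa using h0

end G0b

theorem blockG0b : StmtNorm := by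
  intro K E _ _ _ _ _ m _
  refine ⟨fun I => G0b.cop_norm, fun β => G0b.norm_sub_one, fun B _ κ hκ => ⟨fun I J hI hJ => ?_,
    fun α h0 h1 h2 => ?_⟩, fun P Q hP hQ => ?_⟩
  · rw [map_mul, hκ.mul _ _ (G0b.cop_norm hI) (G0b.cop_norm hJ)]
  · rw [relNorm_singleton]
    refine hκ.triv _ (Algebra.intNorm_ne_zero.2 h0) (G0b.norm_sub_one h1) fun τ => ?_
    have h3 : ((Algebra.intNorm (𝓞 K) (𝓞 E) α : 𝓞 K) : K) = Algebra.norm K (α : E) :=
      Algebra.algebraMap_intNorm (L := E) α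
    rw [h3]
    exact G0b.norm_pos (by simpa using h0) h2 τ
  · have := hQ.1
    have := hQ.2
    obtain ⟨f, hf⟩ := exists_relNorm_eq_pow_of_isPrime Q P
    exact ⟨f, hf, by rw [← absNorm_relNorm (𝓞 K) (𝓞 E) Q, hf, map_pow]⟩

end Pool.Agent.Lib.Stark
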