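import Pool.Agent.Lib.stark.Defs2

open Complex NumberField Filter Topology Ideal
open scoped Real nonZeroDivisors ComplexConjugate

namespace Pool.Agent.Lib.Stark

namespace G2

section Basic

variable {K : Type} [Field K] [NumberField K]

lemma ne_bot_of_max {p : Ideal (𝓞 K)} (hp : p.IsMaximal) : p ≠ ⊥ :=
  Ring.ne_bot_of_isMaximal_of_not_isField hp (RingOfIntegers.not_isField K)

lemma two_le_norm {p : Ideal (𝓞 K)} (hp : p.IsMaximal) : 2 ≤ absNorm p := by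
  have h0 : absNorm p ≠ 0 := by
    rw [Ne, absNorm_eq_zero_iff]; exact ne_bot_of_max hp
  have h1 : absNorm p ≠ 1 := by
    rw [Ne, absNorm_eq_one_iff]; exact hp.ne_top
  omega

omit [NumberField K] in
lemma cop_top (m : Ideal (𝓞 K)) : Cop m ⊤ := ⟨top_sup_eq m, by simp⟩

omit [NumberField K] in
lemma cop_mul {m I J : Ideal (𝓞 K)} (hI : Cop m I) (hJ : Cop m J) : Cop m (I * J) := by
  refine ⟨?_, mul_ne_zero hI.2 hJ.2⟩
  rw [← Ideal.isCoprime_iff_sup_eq]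
  exact (Ideal.isCoprime_iff_sup_eq.2 hI.1).mul_left (Ideal.isCoprime_iff_sup_eq.2 hJ.1)

omit [NumberField K] in
lemma ray_top {m : Ideal (𝓞 K)} {B : Type} [CommGroup B] {κ : Ideal (𝓞 K) → B}
    (h : RayHom m κ) : κ ⊤ = 1 := by
  have := h.mul ⊤ ⊤ (cop_top m) (cop_top m)
  rw [Ideal.top_mul] at this
  exact left_eq_mul.1 this

omit [NumberField K] in
lemma ray_prod {m : Ideal (𝓞 K)} {B : Type} [CommGroup B] {κ₁ κ₂ : Ideal (𝓞 K) → B}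
    (h₁ : RayHom m κ₁) (h₂ : RayHom m κ₂) : RayHom m (fun I => (κ₁ I, κ₂ I)) where
  mul I J hI hJ := by
    rw [h₁.mul I J hI hJ, h₂.mul I J hI hJ]; rfl
  triv α h0 h1 hp := by
    rw [h₁.triv α h0 h1 hp, h₂.triv α h0 h1 hp]; rfl

variable {E : Type} [Field E] [NumberField E] [Algebra K E]

lemma cop_over {m p : Ideal (𝓞 K)} (hp : p.IsMaximal) (hm : p ⊔ m = ⊤) {Q : Ideal (𝓞 E)}
    (hQ : Q ∈ p.primesOver (𝓞 E)) : Cop (m.map (algebraMap (𝓞 K) (𝓞 E))) Q := by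
  refine ⟨?_, ne_bot_of_mem_primesOver (ne_bot_of_max hp) hQ⟩
  have h1 : p.map (algebraMap (𝓞 K) (𝓞 E)) ≤ Q := by
    rw [Ideal.map_le_iff_le_comap]
    exact hQ.2.over.le
  apply top_le_iff.1
  calc (⊤ : Ideal (𝓞 E)) = (p ⊔ m).map (algebraMap (𝓞 K) (𝓞 E)) := by rw [hm, Ideal.map_top]
    _ = p.map (algebraMap (𝓞 K) (𝓞 E)) ⊔ m.map (algebraMap (𝓞 K) (𝓞 E)) := Ideal.map_sup _ _ _
    _ ≤ _ := sup_le_sup_right h1 _

lemma relNorm_eq (h4 : StmtNorm) {p : Ideal (𝓞 K)} (hp : p.IsMaximal) {Q : Ideal (𝓞 E)}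
    (hQ : Q ∈ p.primesOver (𝓞 E)) (hn : absNorm Q = absNorm p) : relNorm (𝓞 K) Q = p := by
  obtain ⟨f, h1, h2⟩ := (h4 K E ⊤ (by simp)).2.2.2 p Q hp hQ
  have h3 := two_le_norm hp
  have hf : f = 1 := by
    rw [hn] at h2
    apply Nat.pow_right_injective h3
    simpa using h2.symm
  rw [h1, hf, pow_one]

lemma norm_eq_of_prime (h4 : StmtNorm) {p : Ideal (𝓞 K)} (hp : p.IsMaximal) {Q : Ideal (𝓞 E)}
    (hQ : Q ∈ p.primesOver (𝓞 E)) (hn : (absNorm Q).Prime) : absNorm Q = absNorm p := by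
  obtain ⟨f, -, h2⟩ := (h4 K E ⊤ (by simp)).2.2.2 p Q hp hQ
  rw [h2] at hn
  rw [h2, hn.eq_one_of_pow, pow_one]

end Basic

section Tower

variable {K Ω : Type} [Field K] [NumberField K] [Field Ω] [NumberField Ω] [Algebra K Ω]

lemma under_mem (E : IntermediateField K Ω) {p : Ideal (𝓞 K)} {P : Ideal (𝓞 Ω)}
    (hP : P ∈ p.primesOver (𝓞 Ω)) : P.under (𝓞 E) ∈ p.primesOver (𝓞 E) := by
  have := hP.1
  refine ⟨inferInstance, ⟨?_⟩⟩
  rw [under_under]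
  exact hP.2.over

lemma exists_over (E : IntermediateField K Ω) {Q : Ideal (𝓞 E)} (hQ : Q.IsMaximal) :
    ∃ P ∈ (Q.under (𝓞 K)).primesOver (𝓞 Ω), P.under (𝓞 E) = Q := by
  obtain ⟨⟨P, hP⟩⟩ := Ideal.nonempty_primesOver (S := 𝓞 Ω) Q
  refine ⟨P, ⟨hP.1, ⟨?_⟩⟩, hP.2.over.symm⟩
  rw [hP.2.over, under_under]

end Tower

end G2

open G2 in
theorem blockG2 (h1 : StmtDens) (h2 : StmtNV) (h3 : StmtLift) (h4 : StmtNorm) : StmtU := by
  intro K _ _ σ₁ σ₂ c hRQ Ω _ _ _ _ m hm B _ _ κ₁ κ₂ hκ₁ hκ₂ a N hyp H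
  set E : IntermediateField K Ω := IntermediateField.fixedField (H.comap a) with hE
  have hfix : E.fixingSubgroup = H.comap a := IntermediateField.fixingSubgroup_fixedField _
  set mE : Ideal (𝓞 E) := m.map (algebraMap (𝓞 K) (𝓞 E)) with hmE
  have hmE0 : mE ≠ ⊥ := by
    rw [hmE, Ne, Ideal.map_eq_bot_iff_of_injective (FaithfulSMul.algebraMap_injective _ _)]
    exact hm
  have hκ := ray_prod hκ₁ hκ₂
  have hκE : RayHom mE
      (fun I => (κ₁ (relNorm (𝓞 K) I), κ₂ (relNorm (𝓞 K) I))) :=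
    (h4 K E m hm).2.2.1 (B × B) _ hκ
  -- a Frobenius in the fixing group gives a prime of degree one
  have deg : ∀ (p : Ideal (𝓞 K)) (P : Ideal (𝓞 Ω)) (σ : Ω ≃ₐ[K] Ω), p.IsMaximal →
      Frob p P σ → a σ ∈ H → absNorm (P.under (𝓞 E)) = absNorm p := by
    intro p P σ hp hF hH
    apply ((h3.2 K Ω p hp).2.2 E P hF.1).1
    exact ⟨σ, by rw [hfix]; exact hH, hF⟩
  -- step 1
  have step1 : ¬Dens (fun Q : Ideal (𝓞 E) => Cop mE Q ∧
      (κ₁ (relNorm (𝓞 K) Q), κ₂ (relNorm (𝓞 K) Q)) = 1) 0 := by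
    intro hD
    have hT : Dens (fun P : Ideal (𝓞 K) => Big N P ∧ Cop m P ∧ (κ₁ P, κ₂ P) = 1) 0 := by
      refine h1.2 K E _ _ ?_ hD
      rintro p hp ⟨hB, hC, hk⟩
      obtain ⟨⟨P, hP⟩⟩ := Ideal.nonempty_primesOver (S := 𝓞 Ω) p
      obtain ⟨σ, hσ⟩ := (h3.2 K Ω p hp).1 P hP
      have hk1 : κ₁ p = 1 := congrArg Prod.fst hk
      have hk2 : κ₂ p = 1 := congrArg Prod.snd hk
      have ha : a σ ∈ H := by
        rcases hyp p P σ hB hσ with h | h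
        · rw [h, hk1]; exact H.one_mem
        · rw [h, hk2]; exact H.one_mem
      have hn := deg p P σ hp hσ ha
      have hQ := under_mem E hP
      refine ⟨P.under (𝓞 E), hQ, ⟨cop_over hp hC.1 hQ, ?_⟩, hn⟩
      rw [relNorm_eq h4 hp hQ hn]
      exact hk
    have hU := (h1.1 K).union _ _ hT ((h1.1 K).small N)
    refine (h2 K σ₁ σ₂ c hRQ m hm (B × B) _ hκ).2 ⊤ (cop_top m) ((h1.1 K).mono _ _ ?_ hU)
    rintro P - ⟨hC, hk⟩
    by_cases hB : Big N P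
    · left
      refine ⟨hB, hC, ?_⟩
      rw [hk]
      exact ray_top hκ
    · exact Or.inr hB
  -- step 2
  have step2 : ∀ I, Cop mE I → κ₁ (relNorm (𝓞 K) I) ∈ H ∨ κ₂ (relNorm (𝓞 K) I) ∈ H := by
    intro I hI
    have hD := (h1.1 E).dich mE hmE0 (B × B) _ hκE step1 I hI
    have hex : ∃ Q : Ideal (𝓞 E), Big N Q ∧
        (κ₁ (relNorm (𝓞 K) Q), κ₂ (relNorm (𝓞 K) Q)) =
          (κ₁ (relNorm (𝓞 K) I), κ₂ (relNorm (𝓞 K) I)) := by
      by_contra hno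
      apply hD
      refine (h1.1 E).mono _ _ ?_ ((h1.1 E).small N)
      rintro Q - ⟨-, hk⟩ hB
      exact hno ⟨Q, hB, hk⟩
    obtain ⟨Q, hB, hk⟩ := hex
    have hQm := hB.1
    have hp : (Q.under (𝓞 K)).IsMaximal := inferInstance
    have hQ : Q ∈ (Q.under (𝓞 K)).primesOver (𝓞 E) := ⟨hQm.isPrime, inferInstance⟩
    have hn := norm_eq_of_prime h4 hp hQ hB.2.1
    have hr := relNorm_eq h4 hp hQ hn
    obtain ⟨P, hP, hPQ⟩ := exists_over E hQm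
    obtain ⟨σ, hσ, hF⟩ := ((h3.2 K Ω _ hp).2.2 E P hP).2 (by rw [hPQ, hn])
    rw [hfix] at hσ
    have ha : a σ ∈ H := hσ
    have hBp : Big N (Q.under (𝓞 K)) := ⟨hp, hn ▸ hB.2.1, hn ▸ hB.2.2⟩
    have hk1 : κ₁ (relNorm (𝓞 K) Q) = κ₁ (relNorm (𝓞 K) I) := congrArg Prod.fst hk
    have hk2 : κ₂ (relNorm (𝓞 K) Q) = κ₂ (relNorm (𝓞 K) I) := congrArg Prod.snd hk
    rcases hyp _ P σ hBp hF with h | h
    · left; rw [← hk1, hr, ← h]; exact ha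
    · right; rw [← hk2, hr, ← h]; exact ha
  -- step 3
  have step3 : (∀ I, Cop mE I → κ₁ (relNorm (𝓞 K) I) ∈ H) ∨
      ∀ I, Cop mE I → κ₂ (relNorm (𝓞 K) I) ∈ H := by
    by_contra hno
    push Not at hno
    obtain ⟨⟨I, hI, hI1⟩, J, hJ, hJ2⟩ := hno
    have hI2 := (step2 I hI).resolve_left hI1
    have hJ1 := (step2 J hJ).resolve_right hJ2
    have hm' := hκE.mul I J hI hJ
    have e1 : κ₁ (relNorm (𝓞 K) (I * J)) = κ₁ (relNorm (𝓞 K) I) * κ₁ (relNorm (𝓞 K) J) :=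
      congrArg Prod.fst hm'
    have e2 : κ₂ (relNorm (𝓞 K) (I * J)) = κ₂ (relNorm (𝓞 K) I) * κ₂ (relNorm (𝓞 K) J) :=
      congrArg Prod.snd hm'
    rcases step2 _ (cop_mul hI hJ) with h | h
    · rw [e1] at h
      exact hI1 ((H.mul_mem_cancel_right hJ1).1 h)
    · rw [e2] at h
      exact hJ2 ((H.mul_mem_cancel_left hI2).1 h)
  -- step 4
  have step4 : ∀ (p : Ideal (𝓞 K)) (P : Ideal (𝓞 Ω)) (σ : Ω ≃ₐ[K] Ω), p.IsMaximal →
      p ⊔ m = ⊤ → Frob p P σ → a σ ∈ H → ∃ I, Cop mE I ∧ relNorm (𝓞 K) I = p := by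
    intro p P σ hp hpm hF hH
    have hQ := under_mem E hF.1
    exact ⟨_, cop_over hp hpm hQ, relNorm_eq h4 hp hQ (deg p P σ hp hF hH)⟩
  rcases step3 with h | h
  · left
    intro p P σ hp hpm hF hH
    obtain ⟨I, hI, rfl⟩ := step4 p P σ hp hpm hF hH
    exact h I hI
  · right
    intro p P σ hp hpm hF hH
    obtain ⟨I, hI, rfl⟩ := step4 p P σ hp hpm hF hH
    exact h I hI

end Pool.Agent.Lib.Stark
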