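import Pool.Agent.Lib.stark.Defs2

/-! Block A2: the unit property when `p` divides `n`. -/

namespace Pool.Agent.Lib.Stark

set_option linter.unusedSectionVars false

namespace A2

variable {K : Type} [Field K] [NumberField K] {σ₁ σ₂ : K →+* ℝ} {ε : K} {n p : ℕ}
  {F : Submodule ℤ K → K → ℂ} {Λ Λ' : Submodule ℤ K}

theorem nmul {y : K} (hy : y ∈ Λ) (k : ℕ) : (k : K) * y ∈ Λ := by
  simpa using Λ.smul_mem (k : ℤ) hy

theorem zmul {y : K} (hy : y ∈ Λ) (k : ℤ) : (k : K) * y ∈ Λ := by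
  simpa using Λ.smul_mem k hy

theorem mem_line {t y : K} :
    y ∈ Λ ⊔ Submodule.span ℤ {t} ↔ ∃ k : ℤ, y - k * t ∈ Λ := by
  rw [Submodule.mem_sup]
  constructor
  · rintro ⟨a, ha, b, hb, rfl⟩
    obtain ⟨k, rfl⟩ := Submodule.mem_span_singleton.1 hb
    exact ⟨k, by simpa using ha⟩
  · rintro ⟨k, hk⟩
    exact ⟨_, hk, k * t, Submodule.mem_span_singleton.2 ⟨k, by simp⟩, by simp⟩

theorem lat_line (h : IsLat Λ) (t : K) : IsLat (Λ ⊔ Submodule.span ℤ {t}) :=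
  ⟨h.1.sup (Submodule.fg_span_singleton t), fun x =>
    (h.2 x).imp fun _ hm => ⟨hm.1, Submodule.mem_sup_left hm.2⟩⟩

theorem sl_line (h : SL ε Λ) {t : K} (ht : Tor ε Λ t) : SL ε (Λ ⊔ Submodule.span ℤ {t}) := by
  refine ⟨lat_line h.1 t, fun y hy => ?_⟩
  obtain ⟨k, hk⟩ := mem_line.1 hy
  refine mem_line.2 ⟨k, ?_⟩
  rw [show ε * y - k * t = ε * (y - k * t) + k * ((ε - 1) * t) by ring]
  exact add_mem (h.2 _ hk) (zmul ht k)

theorem tor_line {t x : K} (hx : Tor ε Λ x) : Tor ε (Λ ⊔ Submodule.span ℤ {t}) x :=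
  Submodule.mem_sup_left hx

theorem p_line {t : K} (ht : (p : K) * t ∈ Λ) :
    ∀ y ∈ Λ ⊔ Submodule.span ℤ {t}, (p : K) * y ∈ Λ := fun y hy => by
  obtain ⟨k, hk⟩ := mem_line.1 hy
  rw [show (p : K) * y = p * (y - k * t) + k * (p * t) by ring]
  exact add_mem (nmul hk p) (zmul ht k)

theorem dist_line (hF : Sys σ₁ σ₂ ε F) (hp : p.Prime) (h : IsLat Λ) {t : K} (ht : t ∉ Λ)
    (hpt : (p : K) * t ∈ Λ) (x : K) :
    F (Λ ⊔ Submodule.span ℤ {t}) x = ∏ j ∈ Finset.range p, F Λ (x + j * t) := by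
  classical
  have inj : ∀ i < p, ∀ j < p, (i : K) * t - j * t ∈ Λ → i = j := fun i hi j hj hij => by
    by_contra hne
    have hc : IsCoprime ((i : ℤ) - j) (p : ℤ) := by
      refine ((Nat.prime_iff_prime_int.1 hp).irreducible.coprime_iff_not_dvd.2 fun hd => ?_).symm
      have := Int.eq_zero_of_abs_lt_dvd hd (by rw [abs_lt]; constructor <;> omega)
      omega
    obtain ⟨u, w, e⟩ := hc
    have e' : (u : K) * (i - j) + w * p = 1 := by exact_mod_cast congrArg (Int.cast : ℤ → K) e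
    refine ht ?_
    rw [show t = u * ((i : K) * t - j * t) + w * (p * t) by linear_combination (-t) * e']
    exact add_mem (zmul hij u) (zmul hpt w)
  rw [hF.dist Λ _ ((Finset.range p).image fun j : ℕ => (j : K) * t) x h (lat_line h t)
    le_sup_left ⟨fun s hs => ?_, fun y hy => ?_⟩, Finset.prod_image]
  · intro i hi j hj e
    exact inj i (by simpa using hi) j (by simpa using hj) (by simp only at e; rw [e]; simp)
  · obtain ⟨j, -, rfl⟩ := Finset.mem_image.1 hs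
    exact mem_line.2 ⟨j, by simp⟩
  · obtain ⟨k, hk⟩ := mem_line.1 hy
    have hp0 : (0 : ℤ) < p := by exact_mod_cast hp.pos
    obtain ⟨j, hj⟩ := Int.eq_ofNat_of_zero_le (Int.emod_nonneg k hp0.ne')
    have hj' : j < p := by have := Int.emod_lt_of_pos k hp0; omega
    have e : (k : K) = p * (k / p : ℤ) + j := by
      have := Int.mul_ediv_add_emod k p
      rw [hj] at this
      exact_mod_cast congrArg (Int.cast : ℤ → K) this.symm
    have hy' : y - j * t ∈ Λ := by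
      rw [show y - j * t = y - k * t + (k / p : ℤ) * (p * t) by rw [e]; ring]
      exact add_mem hk (zmul hpt _)
    refine ⟨j * t, ⟨Finset.mem_image.2 ⟨j, by simpa using hj', rfl⟩, hy'⟩, ?_⟩
    rintro s ⟨hs, hs'⟩
    obtain ⟨i, hi, rfl⟩ := Finset.mem_image.1 hs
    rw [inj i (by simpa using hi) j hj' (by convert sub_mem hy' hs' using 1; ring)]

theorem radon [Fact p.Prime] (g : ZMod p → ZMod p → ℂ) :
    (∏ l, ∏ j, g j (j * l)) * ∏ j, g 0 j = g 0 0 ^ p * ∏ j, ∏ i, g i j := by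
  rw [Finset.prod_comm, Finset.prod_comm (f := fun j i => g i j),
    ← Finset.mul_prod_erase _ _ (Finset.mem_univ 0),
    ← Finset.mul_prod_erase _ (fun i => ∏ j, g i j) (Finset.mem_univ 0)]
  simp only [zero_mul, Finset.prod_const, Finset.card_univ, ZMod.card]
  rw [Finset.prod_congr rfl fun j hj => show ∏ l, g j (j * l) = ∏ l, g j l from
    Equiv.prod_comp (Equiv.mulLeft₀ j (Finset.ne_of_mem_erase hj)) (g j)]
  ring

theorem prod_range [Fact p.Prime] (φ : ZMod p → ℂ) :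
    ∏ j ∈ Finset.range p, φ j = ∏ j, φ j := by
  refine Finset.prod_bij (fun j _ => (j : ZMod p)) (fun _ _ => Finset.mem_univ _)
    (fun i hi j hj e => ?_) (fun b _ => ⟨b.val, by simpa using b.val_lt, by simp⟩) fun _ _ => rfl
  have := congrArg ZMod.val e
  rwa [ZMod.val_cast_of_lt (by simpa using hi), ZMod.val_cast_of_lt (by simpa using hj)] at this

theorem HH.down {a : ℕ} (h : HH p (a + 1) ε Λ') (h₁ : Λ ≤ Λ') (h₂ : ∀ y ∈ Λ', (p : K) * y ∈ Λ) :
    HH p a ε Λ := fun y hy => by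
  obtain ⟨z, hz, e⟩ := h y (h₁ hy)
  exact ⟨_, h₂ z hz, by rw [e]; ring⟩

theorem HH.up {a : ℕ} (hp : p ≠ 0) (h : HH p (a + 1) ε Λ) (h₁ : Λ ≤ Λ')
    (h₂ : ∀ y ∈ Λ', (p : K) * y ∈ Λ) : HH p a ε Λ' := fun y hy => by
  obtain ⟨z, hz, e⟩ := h _ (h₂ y hy)
  refine ⟨z, h₁ hz, mul_left_cancel₀ (Nat.cast_ne_zero.2 hp : (p : K) ≠ 0) ?_⟩
  linear_combination e

theorem HH.mono {a b : ℕ} (h : HH p b ε Λ) (hab : a ≤ b) : HH p a ε Λ := by
  induction b, hab using Nat.le_induction with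
  | base => exact h
  | succ b _ ih => exact ih (HH.down h le_rfl fun y hy => nmul hy p)

theorem ind_int {b₁ b₂ : K} (h : Ind b₁ b₂) {i j : ℤ} (e : i * b₁ + j * b₂ = 0) :
    i = 0 ∧ j = 0 := by
  have := h i j (by simpa using e)
  exact ⟨by exact_mod_cast this.1, by exact_mod_cast this.2⟩

theorem mem_pair {b₁ b₂ y : K} :
    y ∈ Submodule.span ℤ {b₁, b₂} ↔ ∃ i j : ℤ, y = i * b₁ + j * b₂ := by
  simp [Submodule.mem_span_pair, eq_comm]

theorem n_ne (hL : Lev σ₁ σ₂ ε n) : n ≠ 0 := by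
  rintro rfl
  have := hL.quad
  have h1 : ε = 1 := by simpa [sub_eq_zero] using this
  have := hL.one_lt
  simp [h1] at this

theorem mat (hL : Lev σ₁ σ₂ ε n) (hi : Ind 1 ε) (hp : p ≠ 0) {b₁ b₂ : K} (hb : Ind b₁ b₂) {a : ℕ}
    (h : HH p a ε (Submodule.span ℤ {b₁, b₂})) : ∃ α β γ δ : ℤ,
      (ε - 1) * b₁ = (p : K) ^ a * (α * b₁ + β * b₂) ∧
      (ε - 1) * b₂ = (p : K) ^ a * (γ * b₁ + δ * b₂) ∧ (p : ℤ) ^ a * (α + δ) = n ∧
      α + δ = p ^ a * (β * γ - α * δ) := by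
  obtain ⟨_, h1, e1⟩ := h b₁ (Submodule.subset_span (by simp))
  obtain ⟨_, h2, e2⟩ := h b₂ (Submodule.subset_span (by simp))
  obtain ⟨α, β, rfl⟩ := mem_pair.1 h1
  obtain ⟨γ, δ, rfl⟩ := mem_pair.1 h2
  have hb1 : b₁ ≠ 0 := fun e => by simpa using (ind_int hb (i := 1) (j := 0) (by simp [e])).1
  have hβ : β ≠ 0 := by
    rintro rfl
    have : ε - 1 = (p : K) ^ a * α := mul_right_cancel₀ hb1 (by rw [e1]; simp [mul_assoc])
    have := (ind_int hi (i := -1 - p ^ a * α) (j := 1) (by push_cast; linear_combination this)).2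
    simp at this
  have hP : (p : ℤ) ^ a ≠ 0 := pow_ne_zero _ (by exact_mod_cast hp)
  obtain ⟨k1, k2⟩ := ind_int hb
    (i := p ^ a * p ^ a * (α * α + β * γ) - n * p ^ a * α - n)
    (j := p ^ a * β * (p ^ a * (α + δ) - n)) (by
      push_cast
      linear_combination b₁ * hL.quad - (ε - 1 + p ^ a * α - n) * e1 - p ^ a * β * e2)
  have k3 : (p : ℤ) ^ a * (α + δ) = n := by
    simpa [hP, hβ, sub_eq_zero] using k2
  refine ⟨α, β, γ, δ, e1, e2, k3, mul_left_cancel₀ hP ?_⟩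
  linear_combination -k1 + (1 + p ^ a * α) * k3

variable {Γ : Type} [LinearOrderedCommGroupWithZero Γ] {v : Valuation ℂ Γ}

theorem v_nat (v : Valuation ℂ Γ) (k : ℕ) : v k ≤ 1 := by
  induction k with
  | zero => simp
  | succ k ih => rw [Nat.cast_succ]; exact v.map_add_le ih (by simp)

theorem v_e (hL : Lev σ₁ σ₂ ε n) : v (σ₁ ε : ℂ) = 1 := by
  have h0 : (σ₁ ε - 1) ^ 2 = n * σ₁ ε := by simpa using congrArg σ₁ hL.quad
  have h : ((σ₁ ε : ℂ) - 1) ^ 2 = n * σ₁ ε := by exact_mod_cast h0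
  have h2 := v_nat v (n + 2)
  rcases lt_trichotomy (v (σ₁ ε : ℂ)) 1 with c | c | c
  · have e : (1 : ℂ) = σ₁ ε * (((n + 2 : ℕ) : ℂ) - σ₁ ε) := by push_cast; linear_combination h
    have := congrArg v e
    rw [map_one, map_mul] at this
    exact absurd this (mul_lt_one_of_lt_of_le c (v.map_sub_le h2 c.le)).ne'
  · exact c
  · have e : (σ₁ ε : ℂ) * σ₁ ε = ((n + 2 : ℕ) : ℂ) * σ₁ ε - 1 := by
      push_cast; linear_combination h
    have h3 : v ((σ₁ ε : ℂ) * σ₁ ε) ≤ v (σ₁ ε : ℂ) := by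
      rw [e]
      exact v.map_sub_le (by rw [map_mul]; exact mul_le_of_le_one_left' h2) (by simpa using c.le)
    rw [map_mul] at h3
    exact absurd h3 (not_le.2 (lt_mul_of_one_lt_left (zero_lt_one.trans c) c))

theorem v_zero (hL : Lev σ₁ σ₂ ε n) (hF : Sys σ₁ σ₂ ε F) (h : SL ε Λ) : v (F Λ 0) = 1 := by
  obtain ⟨k, hk, e, -⟩ := hF.root Λ h
  have := congrArg v e
  rw [map_pow, map_pow, v_e hL, one_pow] at this
  exact (pow_eq_one_iff_of_nonneg zero_le (by omega)).1 this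

theorem v_odd (hL : Lev σ₁ σ₂ ε n) (hF : Sys σ₁ σ₂ ε F) (h : SL ε Λ) {x : K} (hx : Tor ε Λ x) :
    v (F Λ x) * v (F Λ (-x)) = 1 := by
  by_cases c : x ∈ Λ
  · have e1 := hF.per Λ 0 x c
    have e2 := hF.per Λ 0 (-x) (neg_mem c)
    rw [zero_add] at e1 e2
    rw [e1, e2, v_zero hL hF h, one_mul]
  · obtain ⟨k, hk, -, e⟩ := hF.root Λ h
    obtain ⟨N, hN, hx'⟩ := h.1.2 x
    have := congrArg v (e x N hx c hx')
    rw [map_pow, map_one, map_mul] at this
    exact (pow_eq_one_iff_of_nonneg zero_le (by positivity)).1 this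

theorem leaf (h1 : StmtP1) (hL : Lev σ₁ σ₂ ε n) (hF : Sys σ₁ σ₂ ε F) (hp : p.Prime) (h5 : 5 ≤ p)
    (hv : v p < 1) (hn : p ∣ n) (h : SL ε Λ) (h0 : ¬HH p 1 ε Λ) {M : Γ}
    (hM : ∀ x, Tor ε Λ x → v (F Λ x) ≤ M) (hM' : ∃ x, Tor ε Λ x ∧ v (F Λ x) = M) (hM1 : 1 < M) :
    ∃ t x, Tor ε Λ t ∧ (p : K) * t ∈ Λ ∧ Tor ε Λ x ∧
      M ^ 3 ≤ v (F (Λ ⊔ Submodule.span ℤ {t}) x) := by
  obtain ⟨G, _, _, _, q, f, b, q1, q2, q3, q4, hP⟩ := hF.pent Λ h
  have hn0 := n_ne hL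
  have hc : Fintype.card G = n := by
    have e0 : (σ₁ ε - 1) ^ 2 = n * σ₁ ε := by simpa using congrArg σ₁ hL.quad
    have e : ((σ₁ ε : ℂ) - 1) ^ 2 = n * σ₁ ε := by exact_mod_cast e0
    exact_mod_cast mul_right_cancel₀ hP.e_ne (hP.card.symm.trans e)
  obtain ⟨m', n', hn', e⟩ := Nat.exists_eq_pow_mul_and_not_dvd hn0 p hp.ne_one
  obtain ⟨m, rfl⟩ : ∃ m, m' = m + 1 := by
    cases m' with
    | zero => exact absurd (by simpa [e] using hn) hn'
    | succ m => exact ⟨m, rfl⟩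
  have t0 : Tor ε Λ 0 := by simp [Tor]
  have tn : ∀ {x}, Tor ε Λ x → ∀ k : ℕ, Tor ε Λ (k * x) := fun {x} hx k => by
    rw [Tor, mul_left_comm]; exact nmul hx k
  have z0 : q 0 = 0 := (q2 0 t0).2 (zero_mem _)
  have qn : ∀ {x}, Tor ε Λ x → ∀ k : ℕ, q (k * x) = k • q x := fun {x} hx k => by
    induction k with
    | zero => simpa using z0
    | succ k ih => rw [Nat.cast_succ, add_mul, one_mul, q1 _ _ (tn hx k) hx, ih, succ_nsmul]
  obtain ⟨y, hy, hy'⟩ : ∃ y ∈ Λ, ∀ z ∈ Λ, (ε - 1) * y ≠ p * z := by simpa [HH] using h0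
  have hnK : (n : K) ≠ 0 := Nat.cast_ne_zero.2 hn0
  have eK : (n : K) = p ^ (m + 1) * n' := by exact_mod_cast e
  obtain ⟨x, x1, x2⟩ : ∃ x : K, (ε - 1) * x = y ∧ n * x = ε * y - y - n * y :=
    ⟨(ε - 1 - n) * y / n, by field_simp; linear_combination y * hL.quad, by field_simp⟩
  have hx : Tor ε Λ x := by rw [Tor, x1]; exact hy
  have hs := tn hx n'
  have ht := tn hs (p ^ m)
  have a1 : ((p ^ (m + 1) : ℕ) : K) * (n' * x) ∈ Λ := by
    rw [Nat.cast_pow, ← mul_assoc, ← eK, x2]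
    exact sub_mem (sub_mem (h.2 y hy) hy) (nmul hy n)
  have a2 : ((p ^ m : ℕ) : K) * (n' * x) ∉ Λ := fun c =>
    hy' _ (add_mem c (nmul hy (p ^ m * n'))) (by
      push_cast
      linear_combination -x2 + (x + y) * eK)
  have a3 : (p : K) * (((p ^ m : ℕ) : K) * (n' * x)) ∈ Λ := by
    convert a1 using 1; push_cast; ring
  have ho : addOrderOf (q (n' * x)) = p ^ (m + 1) := by
    have := Fact.mk hp
    refine addOrderOf_eq_prime_pow (fun c => a2 ?_) ?_
    · exact (q2 _ ht).1 (by rw [qn hs, c])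
    · rw [← qn hs]; exact (q2 _ (tn hs _)).2 a1
  obtain ⟨g, hg⟩ := h1 G f b _ hP Γ v p m n' hp h5 hv (hc.trans e) hn' _ ho (v_e hL)
    (by rw [← z0, q4 0 t0, v_zero hL hF h]) (fun g => by
      obtain ⟨w, hw, rfl⟩ := q3 g
      have hw' : Tor ε Λ (-w) := by rw [Tor, mul_neg]; exact neg_mem hw
      have : -q w = q (-w) := neg_eq_of_add_eq_zero_right (by rw [← q1 _ _ hw hw', add_neg_cancel, z0])
      rw [this, q4 _ hw, q4 _ hw', v_odd hL hF h hw]) M
    (fun g => by obtain ⟨w, hw, rfl⟩ := q3 g; rw [q4 _ hw]; exact hM w hw)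
    (by obtain ⟨w, hw, e⟩ := hM'; exact ⟨q w, by rw [q4 _ hw, e]⟩) hM1
  obtain ⟨w, hw, rfl⟩ := q3 g
  refine ⟨_, w, ht, a3, hw, ?_⟩
  rw [dist_line hF hp h.1 a2 a3]
  convert hg using 3 with j
  rw [← qn hs, ← qn ht, ← q1 _ _ hw (tn ht j), q4]
  rw [Tor, mul_add]
  exact add_mem hw (tn ht j)

theorem tor_div (hp : p ≠ 0) {a : ℕ} (h : HH p (a + 1) ε Λ) {y : K} (hy : y ∈ Λ) :
    Tor ε Λ (y / p) ∧ (p : K) * (y / p) ∈ Λ := by
  have hpK : (p : K) ≠ 0 := Nat.cast_ne_zero.2 hp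
  obtain ⟨z, hz, e⟩ := h y hy
  refine ⟨?_, by rwa [mul_div_cancel₀ _ hpK]⟩
  have := nmul hz (p ^ a)
  rw [Tor]
  convert this using 1
  push_cast
  field_simp
  linear_combination e

theorem radon' [hp : Fact p.Prime] (hF : Sys σ₁ σ₂ ε F) {b₁ b₂ : K} (hb : Ind b₁ b₂)
    (hΛ : Λ = Submodule.span ℤ {b₁, b₂}) (h : SL ε Λ) {a : ℕ} (ha : HH p (a + 1) ε Λ) {x : K}
    (hx : Tor ε Λ x) :
    (∏ l : ZMod p, F (Λ ⊔ Submodule.span ℤ {(b₁ + l.val * b₂) / p}) x) *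
      F (Λ ⊔ Submodule.span ℤ {b₂ / p}) x = F Λ x ^ p * F Λ (p * x) := by
  have hp0 := hp.out.ne_zero
  have hpK : (p : K) ≠ 0 := Nat.cast_ne_zero.2 hp0
  have m1 : b₁ ∈ Λ := hΛ ▸ Submodule.subset_span (by simp)
  have m2 : b₂ ∈ Λ := hΛ ▸ Submodule.subset_span (by simp)
  have np : ∀ i : ℤ, 1 - p * i ≠ 0 := fun i e =>
    hp.out.one_lt.ne' (by exact_mod_cast Int.eq_one_of_mul_eq_one_right (by positivity) (by
      linear_combination -e : (p : ℤ) * i = 1))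
  have n1 : ∀ l : ℕ, (b₁ + l * b₂) / p ∉ Λ := fun l c => by
    obtain ⟨i, j, e⟩ := mem_pair.1 (hΛ ▸ c)
    refine np i (ind_int hb (j := l - p * j) ?_).1
    field_simp at e
    push_cast
    linear_combination e
  have n2 : b₂ / p ∉ Λ ⊔ Submodule.span ℤ {b₁ / p} := fun c => by
    obtain ⟨k, hk⟩ := mem_line.1 c
    obtain ⟨i, j, e⟩ := mem_pair.1 (hΛ ▸ hk)
    refine np j (ind_int hb (i := -k - p * i) ?_).2
    field_simp at e
    push_cast
    linear_combination e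
  let g : ZMod p → ZMod p → ℂ := fun i j => F Λ (x + (i.val * b₁ + j.val * b₂) / p)
  have hg : ∀ (i j : ℕ) (y : K), y = x + (i * b₁ + j * b₂) / p → F Λ y = g i j := by
    rintro i j _ rfl
    have e : ∀ i : ℕ, (i : K) = ((i : ZMod p).val : K) + p * (i / p : ℕ) := fun i => by
      rw [ZMod.val_natCast]; exact_mod_cast (Nat.mod_add_div i p).symm
    refine Eq.trans ?_ (hF.per Λ _ _ (add_mem (nmul m1 (i / p)) (nmul m2 (j / p))))
    congr 1
    field_simp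
    linear_combination b₁ * e i + b₂ * e j
  have l1 : ∀ l : ZMod p, F (Λ ⊔ Submodule.span ℤ {(b₁ + l.val * b₂) / p}) x =
      ∏ j, g j (j * l) := fun l => by
    rw [dist_line hF hp.out h.1 (n1 _) (tor_div hp0 ha (add_mem m1 (nmul m2 _))).2,
      ← prod_range]
    refine Finset.prod_congr rfl fun j _ => ?_
    rw [hg j (j * l.val) _ (by push_cast; ring)]
    simp
  have l2 : F (Λ ⊔ Submodule.span ℤ {b₂ / p}) x = ∏ j, g 0 j := by
    rw [dist_line hF hp.out h.1 (fun c => n2 (Submodule.mem_sup_left c)) (tor_div hp0 ha m2).2,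
      ← prod_range]
    refine Finset.prod_congr rfl fun j _ => ?_
    rw [hg 0 j _ (by push_cast; ring)]
    simp
  have l3 : F Λ (p * x) = ∏ j, ∏ i, g i j := by
    rw [hF.scale (Λ ⊔ Submodule.span ℤ {b₁ / p} ⊔ Submodule.span ℤ {b₂ / p}) Λ p x
      (sl_line (sl_line h (tor_div hp0 ha m1).1) (tor_line (tor_div hp0 ha m2).1))
      (tor_line (tor_line hx)) (by simpa using hp.out.pos) (by simpa using hp.out.pos) fun y => ?_,
      dist_line hF hp.out (lat_line h.1 _) n2 (Submodule.mem_sup_left (tor_div hp0 ha m2).2),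
      ← prod_range]
    · refine Finset.prod_congr rfl fun j _ => ?_
      rw [dist_line hF hp.out h.1 (by simpa using n1 0) (tor_div hp0 ha m1).2,
        ← prod_range fun i => g i j]
      exact Finset.prod_congr rfl fun i _ => hg i j _ (by ring)
    · simp only [mem_line]
      constructor
      · intro hy
        obtain ⟨i, j, e⟩ := mem_pair.1 (hΛ ▸ hy)
        refine ⟨j, i, ?_⟩
        convert zero_mem Λ
        field_simp
        linear_combination e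
      · rintro ⟨j, i, e⟩
        convert add_mem (nmul e p) (add_mem (zmul m1 i) (zmul m2 j)) using 1
        field_simp
        ring
  rw [Finset.prod_congr rfl fun l _ => l1 l, l2, l3, radon, hg 0 0 x (by simp)]
  simp

open Polynomial in
theorem quad_zero {k : Type} [Field k] {a b c : k} (h : C a * X ^ 2 + C b * X + C c = 0) :
    a = 0 ∧ b = 0 ∧ c = 0 :=
  ⟨by simpa using congrArg (coeff · 2) h, by simpa using congrArg (coeff · 1) h,
    by simpa using congrArg (coeff · 0) h⟩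

open Polynomial Classical in
theorem eig [hp : Fact p.Prime] (hL : Lev σ₁ σ₂ ε n) (hi : Ind 1 ε) (h2 : p ≠ 2) {b₁ b₂ : K}
    (hb : Ind b₁ b₂) (hΛ : Λ = Submodule.span ℤ {b₁, b₂}) {a : ℕ} (ha : HH p (a + 1) ε Λ)
    (ha' : ¬HH p (a + 2) ε Λ) :
    (Finset.univ.filter fun l : ZMod p =>
      HH p (a + 1) ε (Λ ⊔ Submodule.span ℤ {(b₁ + l.val * b₂) / p})).card ≤
      if HH p (a + 1) ε (Λ ⊔ Submodule.span ℤ {b₂ / p}) then 1 else 2 := by
  subst hΛ
  have hp0 := hp.out.ne_zero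
  have hpK : (p : K) ≠ 0 := Nat.cast_ne_zero.2 hp0
  obtain ⟨α, β, γ, δ, e1, e2, -, e3⟩ := mat hL hi hp0 hb ha
  set Q : (ZMod p)[X] := C (γ : ZMod p) * X ^ 2 + C ((α : ZMod p) - δ) * X + C (-(β : ZMod p))
    with hQ
  have hQ0 : Q ≠ 0 := fun c => ha' fun y hy => by
    obtain ⟨c2, c1, c0⟩ := quad_zero c
    rw [neg_eq_zero] at c0
    have c3 : (α : ZMod p) + δ = 0 := by simpa using congrArg (Int.cast : ℤ → ZMod p) e3
    have two : (2 : ZMod p) ≠ 0 := fun e => h2 ((Nat.prime_dvd_prime_iff_eq hp.out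
      Nat.prime_two).1 ((ZMod.natCast_eq_zero_iff 2 p).1 (by exact_mod_cast e)))
    have c4 : (α : ZMod p) = 0 := mul_left_cancel₀ two (by linear_combination c1 + c3)
    have c5 : (δ : ZMod p) = 0 := by linear_combination c3 - c4
    obtain ⟨α', rfl⟩ := (ZMod.intCast_zmod_eq_zero_iff_dvd _ _).1 c4
    obtain ⟨β', rfl⟩ := (ZMod.intCast_zmod_eq_zero_iff_dvd _ _).1 c0
    obtain ⟨γ', rfl⟩ := (ZMod.intCast_zmod_eq_zero_iff_dvd _ _).1 c2
    obtain ⟨δ', rfl⟩ := (ZMod.intCast_zmod_eq_zero_iff_dvd _ _).1 c5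
    obtain ⟨i, j, rfl⟩ := mem_pair.1 hy
    refine ⟨_, mem_pair.2 ⟨i * α' + j * γ', i * β' + j * δ', rfl⟩, ?_⟩
    push_cast at e1 e2 ⊢
    linear_combination i * e1 + j * e2
  have hP : (p : K) ^ (a + 1) ≠ 0 := pow_ne_zero _ hpK
  refine (card_le_degree_of_subset_roots (p := Q) fun l hl => ?_).trans ?_
  · obtain ⟨z, hz, e⟩ := (Finset.mem_filter.1 hl).2 _
      (Submodule.mem_sup_right (Submodule.mem_span_singleton_self _))
    obtain ⟨k, hk⟩ := mem_line.1 hz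
    obtain ⟨i, j, e'⟩ := mem_pair.1 hk
    obtain ⟨k1, k2⟩ := ind_int hb (i := α + l.val * γ - p * i - k)
      (j := β + l.val * δ - p * j - k * l.val) (mul_left_cancel₀ hP (by
        field_simp at e e'
        push_cast
        linear_combination e - e1 - l.val * e2 + p ^ (a + 1) * e'))
    have k1' := congrArg (Int.cast : ℤ → ZMod p) k1
    have k2' := congrArg (Int.cast : ℤ → ZMod p) k2
    simp only [Int.cast_sub, Int.cast_add, Int.cast_mul, Int.cast_natCast,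
      ZMod.natCast_zmod_val, ZMod.natCast_self, zero_mul, sub_zero, Int.cast_zero] at k1' k2'
    rw [mem_roots hQ0, IsRoot, hQ]
    simp only [eval_add, eval_mul, eval_C, eval_pow, eval_X]
    linear_combination l * k1' - k2'
  · split_ifs with c
    · obtain ⟨z, hz, e⟩ := c _ (Submodule.mem_sup_right (Submodule.mem_span_singleton_self _))
      obtain ⟨k, hk⟩ := mem_line.1 hz
      obtain ⟨i, j, e'⟩ := mem_pair.1 hk
      obtain ⟨k1, -⟩ := ind_int hb (i := γ - p * i) (j := δ - p * j - k) (mul_left_cancel₀ hP (by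
        field_simp at e e'
        push_cast
        linear_combination e - e2 + p ^ (a + 1) * e'))
      have : (γ : ZMod p) = 0 := by simpa using congrArg (Int.cast : ℤ → ZMod p) k1
      rw [hQ, this, map_zero, zero_mul, zero_add]
      exact natDegree_linear_le
    · exact natDegree_quadratic_le

theorem bound (hL : Lev σ₁ σ₂ ε n) (hi : Ind 1 ε) (hp : p.Prime) {b₁ b₂ : K} (hb : Ind b₁ b₂)
    {a : ℕ} (h : HH p a ε (Submodule.span ℤ {b₁, b₂})) : a < n := by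
  obtain ⟨α, β, γ, δ, -, -, e, -⟩ := mat hL hi hp.ne_zero hb h
  have : p ^ a ∣ n := Int.natCast_dvd_natCast.1 ⟨α + δ, by push_cast; exact e.symm⟩
  exact (Nat.lt_pow_self hp.one_lt).trans_le (Nat.le_of_dvd (Nat.pos_of_ne_zero (n_ne hL)) this)

end A2

open A2 in
theorem blockA2 (h1 : StmtP1) (hR : StmtR1) : StmtA2 := by
  classical
  intro K _ _ σ₁ σ₂ c hRQ ε n hL F hF Γ _ v p hp h11 hv hn
  have hb := hR.2.1 K σ₁ σ₂ c hRQ
  have hi := (hb.irr ε n hL).2.1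
  have := Fact.mk hp
  have bd : ∀ Λ a, SL ε Λ → HH p a ε Λ → a < n := fun Λ a h ha => by
    obtain ⟨b₁, b₂, e, rfl⟩ := hb.basis Λ h.1
    exact bound hL hi hp e ha
  have ex : ∀ Λ, SL ε Λ → ∃ a, HH p a ε Λ ∧ ¬HH p (a + 1) ε Λ := fun Λ h => by
    by_contra! e
    have : ∀ a, HH p a ε Λ := fun a => by
      induction a with
      | zero => exact fun y hy => ⟨ε * y - y, sub_mem (h.2 y hy) hy, by ring⟩
      | succ a ih => exact e a ih
    exact lt_irrefl n (bd Λ n h (this n))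
  suffices key : ∀ Λ x, SL ε Λ → Tor ε Λ x → v (F Λ x) ≤ 1 by
    intro Λ x h hx
    refine le_antisymm (key Λ x h hx) ?_
    rw [← v_odd (v := v) hL hF h hx]
    exact mul_le_of_le_one_right' (key Λ _ h (by rw [Tor, mul_neg]; exact neg_mem hx))
  intro Λ₀ x₀ h₀ hx₀
  obtain ⟨a₀, ha₀⟩ := ex Λ₀ h₀
  obtain ⟨_, ⟨a, Λ, x, h, hx, ha, ha', rfl⟩, hmax⟩ := Set.exists_max_image
    {z : ℕ × ℂ | ∃ a Λ x, SL ε Λ ∧ Tor ε Λ x ∧ HH p a ε Λ ∧ ¬HH p (a + 1) ε Λ ∧ z = (a, F Λ x)}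
    (fun z => v z.2 ^ 2 ^ (n - z.1)) (((Set.finite_Iio n).prod hF.fin).subset (by
      rintro _ ⟨a, Λ, x, h, hx, ha, -, rfl⟩
      exact ⟨bd Λ a h ha, Λ, x, h, hx, rfl⟩)) ⟨_, a₀, Λ₀, x₀, h₀, hx₀, ha₀.1, ha₀.2, rfl⟩
  set M := v (F Λ x) with hM
  have mx : ∀ b Λ' x', SL ε Λ' → Tor ε Λ' x' → HH p b ε Λ' → ¬HH p (b + 1) ε Λ' →
      v (F Λ' x') ^ 2 ^ (n - b) ≤ M ^ 2 ^ (n - a) := fun b Λ' x' s1 s2 s3 s4 =>
    hmax _ ⟨b, Λ', x', s1, s2, s3, s4, rfl⟩
  have cancel : ∀ {u w : Γ} (k : ℕ), u ^ 2 ^ k ≤ w ^ 2 ^ k → u ≤ w := fun k e =>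
    le_of_pow_le_pow_left₀ (by positivity) zero_le e
  by_contra! c₀
  have hM1 : 1 < M := by
    by_contra! e
    exact absurd (cancel _ ((mx a₀ Λ₀ x₀ h₀ hx₀ ha₀.1 ha₀.2).trans
      ((pow_le_one₀ zero_le e).trans (one_pow _).ge))) c₀.not_ge
  have same : ∀ y, Tor ε Λ y → v (F Λ y) ≤ M := fun y hy => cancel _ (mx a Λ y h hy ha ha')
  have han := bd Λ a h ha
  have nb : ∀ t y, Tor ε Λ t → (p : K) * t ∈ Λ → Tor ε Λ y →
      v (F (Λ ⊔ Submodule.span ℤ {t}) y) ^ 2 ≤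
        M ^ if HH p a ε (Λ ⊔ Submodule.span ℤ {t}) then 4 else 1 := fun t y t1 t2 hy => by
    have s1 := sl_line h t1
    obtain ⟨b, b1, b2⟩ := ex _ s1
    have e := mx b _ y s1 (tor_line hy) b1 b2
    have hbn := bd _ b s1 b1
    split_ifs with c
    · have l1 : a ≤ b := by
        by_contra! l
        exact b2 (HH.mono c l)
      have l2 : b ≤ a + 1 := by
        by_contra! l
        exact ha' (HH.down (HH.mono b1 l) le_sup_left (p_line t2))
      rw [show 4 = 2 * 2 from rfl, pow_mul]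
      refine pow_le_pow_left₀ zero_le ?_ 2
      rcases l1.eq_or_lt with rfl | l
      · exact (cancel _ e).trans (le_self_pow₀ hM1.le two_ne_zero)
      · refine cancel (n - b) ?_
        rwa [← pow_mul, ← pow_succ', show n - b + 1 = n - a by omega]
    · have l1 : b < a := by
        by_contra! l
        exact c (HH.mono b1 l)
      have l2 : a ≤ b + 1 := by
        by_contra! l
        exact b2 (HH.up hp.ne_zero (HH.mono ha l) le_sup_left (p_line t2))
      refine cancel (n - a) ?_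
      rwa [← pow_mul, ← pow_succ', show n - a + 1 = n - b by omega, pow_one]
  cases a with
  | zero =>
    obtain ⟨t, y, t1, t2, hy, e⟩ := leaf h1 hL hF hp (by omega) hv hn h ha' same ⟨x, hx, rfl⟩ hM1
    have := (pow_le_pow_left₀ zero_le e 2).trans ((nb t y t1 t2 hy).trans
      (pow_le_pow_right₀ hM1.le (show _ ≤ 4 by split_ifs <;> omega)))
    rw [← pow_mul, pow_le_pow_iff_right₀ hM1] at this
    omega
  | succ a =>
    obtain ⟨b₁, b₂, e, hΛ⟩ := hb.basis Λ h.1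
    have m1 : b₁ ∈ Λ := hΛ ▸ Submodule.subset_span (by simp)
    have m2 : b₂ ∈ Λ := hΛ ▸ Submodule.subset_span (by simp)
    have r := congrArg v (radon' hF e hΛ h ha hx)
    have cnt := eig hL hi (by omega) e hΛ ha ha'
    have u := fun y hy => nb _ x (tor_div hp.ne_zero ha (y := y) hy).1
      (tor_div hp.ne_zero ha hy).2 hx
    have tp : Tor ε Λ (p * x) := by rw [Tor, mul_left_comm]; exact nmul hx p
    have r2 : M ^ (p * 2) ≤ (v (F Λ x ^ p * F Λ (p * x))) ^ 2 * M ^ 2 := by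
      rw [pow_mul, ← mul_pow, map_mul, map_pow, mul_assoc]
      refine pow_le_pow_left₀ zero_le (le_mul_of_one_le_right' ?_) 2
      rw [← v_odd (v := v) hL hF h tp]
      exact mul_le_mul_right (same _ (by rw [Tor, mul_neg]; exact neg_mem tp)) _
    rw [← r, map_mul, map_prod, mul_pow,
      ← Finset.prod_pow] at r2
    have r3 := r2.trans (mul_le_mul_left (mul_le_mul' (Finset.prod_le_prod' fun l _ =>
      u _ (add_mem m1 (nmul m2 l.val))) (u _ m2)) _)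
    rw [Finset.prod_pow_eq_pow_sum, ← pow_add, ← pow_add, pow_le_pow_iff_right₀ hM1,
      Finset.sum_ite, Finset.sum_const, Finset.sum_const] at r3
    have tot := Finset.card_filter_add_card_filter_not (s := (Finset.univ : Finset (ZMod p)))
      fun l => HH p (a + 1) ε (Λ ⊔ Submodule.span ℤ {(b₁ + l.val * b₂) / p})
    rw [Finset.card_univ, ZMod.card] at tot
    simp only [smul_eq_mul] at r3
    split_ifs at r3 cnt <;> omega

end Pool.Agent.Lib.Stark
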