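import Pool.Agent.Lib.stark.Defs1

open Complex MeasureTheory Filter Topology Set
open scoped Real

namespace Pool.Agent.Lib.Stark

namespace AN

/-! ### Residue theorem for rectangles -/

lemma horiz (F f : ℂ → ℂ) (x₁ x₂ y : ℝ) (hf : Continuous fun x : ℝ => f (x + y * I))
    (h : ∀ x : ℝ, HasDerivAt F (f (x + y * I)) (x + y * I)) :
    ∫ x in x₁..x₂, f (x + y * I) = F (x₂ + y * I) - F (x₁ + y * I) := by
  apply intervalIntegral.integral_eq_sub_of_hasDerivAt (f := fun x : ℝ => F (x + y * I))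
  · intro x _
    have h1 : HasDerivAt (fun x : ℂ => F (x + y * I)) (f (x + y * I)) (x : ℂ) := by
      have := (h x).comp (x : ℂ) ((hasDerivAt_id (x : ℂ)).add_const (y * I))
      rw [mul_one] at this
      exact this
    exact h1.comp_ofReal
  · exact hf.intervalIntegrable _ _

lemma vert (F f : ℂ → ℂ) (y₁ y₂ x : ℝ) (hf : Continuous fun y : ℝ => f (x + y * I))
    (h : ∀ y : ℝ, HasDerivAt F (f (x + y * I)) (x + y * I)) :
    I * ∫ y in y₁..y₂, f (x + y * I) = F (x + y₂ * I) - F (x + y₁ * I) := by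
  rw [← intervalIntegral.integral_const_mul]
  apply intervalIntegral.integral_eq_sub_of_hasDerivAt (f := fun y : ℝ => F (x + y * I))
  · intro y _
    have h1 : HasDerivAt (fun y : ℂ => F (x + y * I)) (I * f (x + y * I)) (y : ℂ) := by
      have := (h y).comp (y : ℂ) (((hasDerivAt_id (y : ℂ)).mul_const I).const_add (x : ℂ))
      rw [one_mul, mul_comm] at this
      exact this
    exact h1.comp_ofReal
  · exact (continuous_const.mul hf).intervalIntegrable _ _

lemma ne_of_im {p : ℂ} {y : ℝ} (hy : y ≠ p.im) (x : ℝ) : (x : ℂ) + y * I - p ≠ 0 := by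
  intro h
  have := congrArg Complex.im h
  simp at this
  exact hy (by linarith)

lemma ne_of_re {p : ℂ} {x : ℝ} (hx : x ≠ p.re) (y : ℝ) : (x : ℂ) + y * I - p ≠ 0 := by
  intro h
  have := congrArg Complex.re h
  simp at this
  exact hx (by linarith)

lemma cont_h {p : ℂ} {y : ℝ} (hy : y ≠ p.im) :
    Continuous fun x : ℝ => ((x : ℂ) + y * I - p)⁻¹ :=
  Continuous.inv₀ (by fun_prop) (ne_of_im hy)

lemma cont_v {p : ℂ} {x : ℝ} (hx : x ≠ p.re) :
    Continuous fun y : ℝ => ((x : ℂ) + y * I - p)⁻¹ :=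
  Continuous.inv₀ (by fun_prop) (ne_of_re hx)

lemma dlog (p z : ℂ) (hz : z - p ∈ slitPlane) :
    HasDerivAt (fun z => log (z - p)) (z - p)⁻¹ z := by
  simpa using ((hasDerivAt_id z).sub_const p).clog hz

lemma dlog' (p z : ℂ) (hz : -(z - p) ∈ slitPlane) :
    HasDerivAt (fun z => log (-(z - p))) (z - p)⁻¹ z := by
  have := ((hasDerivAt_id z).sub_const p).neg.clog hz
  have e : (z - p)⁻¹ = -1 / (-fun x => id x - p) z := by
    simp only [id, Pi.neg_apply]
    rw [neg_div_neg_eq, one_div]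
  rw [e]
  exact this

lemma pole (p : ℂ) (x₁ x₂ y₁ y₂ : ℝ) (h1 : x₁ < p.re) (h2 : p.re < x₂) (h3 : y₁ < p.im)
    (h4 : p.im < y₂) :
    (∫ x in x₁..x₂, ((x : ℂ) + y₁ * I - p)⁻¹) - (∫ x in x₁..x₂, ((x : ℂ) + y₂ * I - p)⁻¹) +
      I * (∫ y in y₁..y₂, ((x₂ : ℂ) + y * I - p)⁻¹) -
      I * (∫ y in y₁..y₂, ((x₁ : ℂ) + y * I - p)⁻¹) = 2 * π * I := by
  rw [horiz (fun z => log (z - p)) (fun z => (z - p)⁻¹) x₁ x₂ y₁ (cont_h h3.ne)
      (fun x => dlog p _ (Or.inr (by simp; linarith))),
    horiz (fun z => log (z - p)) (fun z => (z - p)⁻¹) x₁ x₂ y₂ (cont_h h4.ne')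
      (fun x => dlog p _ (Or.inr (by simp; linarith))),
    vert (fun z => log (z - p)) (fun z => (z - p)⁻¹) y₁ y₂ x₂ (cont_v h2.ne')
      (fun x => dlog p _ (Or.inl (by simp; linarith))),
    vert (fun z => log (-(z - p))) (fun z => (z - p)⁻¹) y₁ y₂ x₁ (cont_v h1.ne)
      (fun x => dlog' p _ (Or.inl (by simp; linarith)))]
  have e1 : log (-((x₁ : ℂ) + y₂ * I - p)) = log ((x₁ : ℂ) + y₂ * I - p) - π * I := by
    unfold Complex.log
    rw [arg_neg_eq_arg_sub_pi_of_im_pos (by simp; linarith), norm_neg]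
    push_cast; ring
  have e2 : log (-((x₁ : ℂ) + y₁ * I - p)) = log ((x₁ : ℂ) + y₁ * I - p) + π * I := by
    unfold Complex.log
    rw [arg_neg_eq_arg_add_pi_of_im_neg (by simp; linarith), norm_neg]
    push_cast; ring
  simp only [e1, e2]
  ring

theorem rect : StmtRect := by
  classical
  intro f P r x₁ x₂ y₁ y₂ hx hy hP hd hr
  set g : ℂ → ℂ := fun z => f z - ∑ p ∈ P, r p * (z - p)⁻¹ with hg
  set G : ℂ → ℂ := fun z => if z ∈ P then limUnder (𝓝[≠] z) g else g z with hG
  have hgd : ∀ z : ℂ, x₁ ≤ z.re → z.re ≤ x₂ → y₁ ≤ z.im → z.im ≤ y₂ → z ∉ P →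
      DifferentiableAt ℂ g z := by
    intro z a b c d e
    refine (hd z a b c d e).sub (DifferentiableAt.fun_sum fun p hp => ?_)
    refine DifferentiableAt.const_mul (DifferentiableAt.inv (by fun_prop) ?_) _
    exact sub_ne_zero.2 fun h => e (h ▸ hp)
  have hGg : ∀ z : ℂ, z ∉ P → G =ᶠ[𝓝 z] g := by
    intro z hz
    have : ((P : Set ℂ))ᶜ ∈ 𝓝 z := P.finite_toSet.isClosed.isOpen_compl.mem_nhds hz
    filter_upwards [this] with w hw
    have : w ∉ P := hw
    simp [hG, this]
  have hpunct : ∀ p : ℂ, ∀ᶠ z in 𝓝[≠] p, z ∉ P := by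
    intro p
    have : ((P.erase p : Finset ℂ) : Set ℂ)ᶜ ∈ 𝓝 p :=
      (P.erase p).finite_toSet.isClosed.isOpen_compl.mem_nhds (by simp)
    filter_upwards [mem_nhdsWithin_of_mem_nhds this, self_mem_nhdsWithin] with z hz hz'
    intro h
    exact hz (Finset.mem_coe.2 (Finset.mem_erase.2 ⟨hz', h⟩))
  have hGc : ∀ p ∈ P, ContinuousAt G p := by
    intro p hp
    obtain ⟨a, b, c, d⟩ := hP p hp
    have hbox : ∀ᶠ z in 𝓝 p, x₁ < z.re ∧ z.re < x₂ ∧ y₁ < z.im ∧ z.im < y₂ := by
      refine (continuous_re.continuousAt.eventually (lt_mem_nhds a)).and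
        ((continuous_re.continuousAt.eventually (gt_mem_nhds b)).and
        ((continuous_im.continuousAt.eventually (lt_mem_nhds c)).and
        (continuous_im.continuousAt.eventually (gt_mem_nhds d))))
    have h1 : ∀ᶠ z in 𝓝[≠] p, DifferentiableAt ℂ g z := by
      filter_upwards [mem_nhdsWithin_of_mem_nhds hbox, hpunct p] with z hz hz'
      exact hgd z hz.1.le hz.2.1.le hz.2.2.1.le hz.2.2.2.le hz'
    have h2 : Tendsto (fun z => (z - p) * g z) (𝓝[≠] p) (𝓝 0) := by
      have h3 : Tendsto (fun z => (z - p) * ∑ q ∈ P.erase p, r q * (z - q)⁻¹) (𝓝[≠] p)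
          (𝓝 ((p - p) * ∑ q ∈ P.erase p, r q * (p - q)⁻¹)) := by
        refine tendsto_nhdsWithin_of_tendsto_nhds (ContinuousAt.tendsto ?_)
        refine ContinuousAt.mul (by fun_prop) (DifferentiableAt.continuousAt (𝕜 := ℂ)
          (DifferentiableAt.fun_sum fun q hq => ?_))
        refine DifferentiableAt.const_mul (DifferentiableAt.inv (by fun_prop) ?_) _
        exact sub_ne_zero.2 (Finset.ne_of_mem_erase hq).symm
      have h4 := ((hr p hp).sub_const (r p)).sub h3
      simp only [sub_self, zero_mul] at h4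
      refine h4.congr' ?_
      filter_upwards [self_mem_nhdsWithin] with z hz
      have hz' : z - p ≠ 0 := sub_ne_zero.2 hz
      simp only [hg]
      rw [← Finset.add_sum_erase P _ hp]
      field_simp
      ring
    have h3 : (fun z => g z - g p) =o[𝓝[≠] p] fun z => (z - p)⁻¹ := by
      refine Asymptotics.isLittleO_of_tendsto' ?_ ?_
      · filter_upwards [self_mem_nhdsWithin] with z hz h
        exact absurd (inv_eq_zero.1 h) (sub_ne_zero.2 hz)
      · have h5 : Tendsto (fun z => (z - p) * g p) (𝓝[≠] p) (𝓝 ((p - p) * g p)) :=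
          tendsto_nhdsWithin_of_tendsto_nhds (ContinuousAt.tendsto (by fun_prop))
        have h6 := h2.sub h5
        simp only [sub_self, zero_mul] at h6
        refine h6.congr fun z => ?_
        rw [div_inv_eq_mul]; ring
    have h4 := tendsto_limUnder_of_differentiable_on_punctured_nhds_of_isLittleO h1 h3
    rw [← continuousWithinAt_compl_self]
    have hGp : G p = limUnder (𝓝[≠] p) g := by simp [hG, hp]
    unfold ContinuousWithinAt
    rw [hGp]
    refine h4.congr' ?_
    filter_upwards [hpunct p] with z hz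
    simp [hG, hz]
  have hmain := integral_boundary_rect_eq_zero_of_differentiable_on_off_countable G
    ⟨x₁, y₁⟩ ⟨x₂, y₂⟩ P P.countable_toSet (by
      intro z hz
      apply ContinuousAt.continuousWithinAt
      by_cases hzP : z ∈ P
      · exact hGc z hzP
      · simp only [uIcc_of_le hx.le, uIcc_of_le hy.le, mem_reProdIm, mem_Icc] at hz
        exact ((hgd z hz.1.1 hz.1.2 hz.2.1 hz.2.2 hzP).congr_of_eventuallyEq
          (hGg z hzP)).continuousAt) (by
      intro z hz
      simp only [min_eq_left hx.le, max_eq_right hx.le, min_eq_left hy.le, max_eq_right hy.le,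
        Set.mem_sdiff, mem_reProdIm, mem_Ioo] at hz
      exact (hgd z hz.1.1.1.le hz.1.1.2.le hz.1.2.1.le hz.1.2.2.le hz.2).congr_of_eventuallyEq
        (hGg z hz.2))
  simp only [smul_eq_mul] at hmain
  have hH : ∀ y : ℝ, (y = y₁ ∨ y = y₂) → ∫ x in x₁..x₂, G (x + y * I) =
      (∫ x in x₁..x₂, f (x + y * I)) -
        ∑ p ∈ P, r p * ∫ x in x₁..x₂, ((x : ℂ) + y * I - p)⁻¹ := by
    intro y hy'
    have hne : ∀ p ∈ P, y ≠ p.im := by
      intro p hp
      rcases hy' with rfl | rfl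
      · exact (hP p hp).2.2.1.ne
      · exact (hP p hp).2.2.2.ne'
    have hnot : ∀ x : ℝ, (x : ℂ) + y * I ∉ P := fun x h => hne _ h (by simp)
    have hfi : IntervalIntegrable (fun x : ℝ => f (x + y * I)) volume x₁ x₂ := by
      apply ContinuousOn.intervalIntegrable
      intro x hx'
      rw [uIcc_of_le hx.le] at hx'
      apply ContinuousAt.continuousWithinAt
      have : ContinuousAt f ((x : ℂ) + y * I) :=
        (hd _ (by simpa using hx'.1) (by simpa using hx'.2)
          (by rcases hy' with rfl | rfl <;> simp [hy.le])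
          (by rcases hy' with rfl | rfl <;> simp [hy.le]) (hnot x)).continuousAt
      exact ContinuousAt.comp (f := fun x : ℝ => (x : ℂ) + y * I) this (by fun_prop)
    simp_rw [← intervalIntegral.integral_const_mul]
    rw [← intervalIntegral.integral_finsetSum, ← intervalIntegral.integral_sub hfi]
    · refine intervalIntegral.integral_congr fun x _ => ?_
      simp [hG, hg, hnot x]
    · exact (continuous_finsetSum _ fun p hp =>
        continuous_const.mul (cont_h (hne p hp))).intervalIntegrable _ _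
    · exact fun p hp => (continuous_const.mul (cont_h (hne p hp))).intervalIntegrable _ _
  have hV : ∀ x : ℝ, (x = x₁ ∨ x = x₂) → ∫ y in y₁..y₂, G (x + y * I) =
      (∫ y in y₁..y₂, f (x + y * I)) -
        ∑ p ∈ P, r p * ∫ y in y₁..y₂, ((x : ℂ) + y * I - p)⁻¹ := by
    intro x hx'
    have hne : ∀ p ∈ P, x ≠ p.re := by
      intro p hp
      rcases hx' with rfl | rfl
      · exact (hP p hp).1.ne
      · exact (hP p hp).2.1.ne'
    have hnot : ∀ y : ℝ, (x : ℂ) + y * I ∉ P := fun y h => hne _ h (by simp)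
    have hfi : IntervalIntegrable (fun y : ℝ => f (x + y * I)) volume y₁ y₂ := by
      apply ContinuousOn.intervalIntegrable
      intro y hy'
      rw [uIcc_of_le hy.le] at hy'
      apply ContinuousAt.continuousWithinAt
      have : ContinuousAt f ((x : ℂ) + y * I) :=
        (hd _ (by rcases hx' with rfl | rfl <;> simp [hx.le])
          (by rcases hx' with rfl | rfl <;> simp [hx.le])
          (by simpa using hy'.1) (by simpa using hy'.2) (hnot y)).continuousAt
      exact ContinuousAt.comp (f := fun y : ℝ => (x : ℂ) + y * I) this (by fun_prop)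
    simp_rw [← intervalIntegral.integral_const_mul]
    rw [← intervalIntegral.integral_finsetSum, ← intervalIntegral.integral_sub hfi]
    · refine intervalIntegral.integral_congr fun y _ => ?_
      simp [hG, hg, hnot y]
    · exact (continuous_finsetSum _ fun p hp =>
        continuous_const.mul (cont_v (hne p hp))).intervalIntegrable _ _
    · exact fun p hp => (continuous_const.mul (cont_v (hne p hp))).intervalIntegrable _ _
  rw [hH y₁ (Or.inl rfl), hH y₂ (Or.inr rfl), hV x₂ (Or.inr rfl), hV x₁ (Or.inl rfl)] at hmain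
  have hsum : 2 * π * I * ∑ p ∈ P, r p = ∑ p ∈ P, r p *
      ((∫ x in x₁..x₂, ((x : ℂ) + y₁ * I - p)⁻¹) - (∫ x in x₁..x₂, ((x : ℂ) + y₂ * I - p)⁻¹) +
      I * (∫ y in y₁..y₂, ((x₂ : ℂ) + y * I - p)⁻¹) -
      I * (∫ y in y₁..y₂, ((x₁ : ℂ) + y * I - p)⁻¹)) := by
    rw [Finset.mul_sum]
    refine Finset.sum_congr rfl fun p hp => ?_
    obtain ⟨a, b, c, d⟩ := hP p hp
    rw [pole p x₁ x₂ y₁ y₂ a b c d, mul_comm]
  rw [hsum]
  simp only [mul_add, mul_sub, Finset.sum_add_distrib, Finset.sum_sub_distrib,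
    mul_left_comm _ I, ← Finset.mul_sum] at hmain ⊢
  linear_combination hmain

/-! ### Line integrals -/

lemma integrable_exp_abs {δ : ℝ} (hδ : 0 < δ) : Integrable fun x : ℝ => Real.exp (-δ * |x|) := by
  rw [← integrableOn_univ, ← Iic_union_Ioi (a := (0 : ℝ))]
  refine IntegrableOn.union ?_ ?_
  · refine (integrableOn_exp_mul_Iic hδ 0).congr_fun (fun x hx => ?_) measurableSet_Iic
    simp only [mem_Iic] at hx
    simp [abs_of_nonpos hx]
  · refine (integrableOn_exp_mul_Ioi (a := -δ) (by linarith) 0).congr_fun (fun x hx => ?_)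
      measurableSet_Ioi
    simp only [mem_Ioi] at hx
    simp [abs_of_pos hx]

lemma strip_open (η₀ : ℝ) : IsOpen {s : ℂ | -η₀ < s.im ∧ s.im < 0} :=
  (isOpen_lt continuous_const continuous_im).inter (isOpen_lt continuous_im continuous_const)

lemma quot_diff {η₀ : ℝ} {g : ℂ → ℂ} (h : Adm η₀ g) {s : ℂ} (h1 : -η₀ < s.im) (h2 : s.im < 0) :
    DifferentiableAt ℂ (fun s => g s / s) s := by
  refine (h.diff.differentiableAt ((strip_open η₀).mem_nhds ⟨h1, h2⟩)).div differentiableAt_id ?_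
  intro h0
  rw [show s = 0 from h0] at h2
  simp at h2

lemma quot_bound {η₀ : ℝ} {g : ℂ → ℂ} (h : Adm η₀ g) {a b : ℝ} (ha : 0 < a) (hb : b < η₀) :
    ∃ C δ : ℝ, 0 < δ ∧ ∀ s : ℂ, -b ≤ s.im → s.im ≤ -a →
      ‖g s / s‖ ≤ C * Real.exp (-δ * |s.re|) := by
  obtain ⟨C, δ, hδ, hC⟩ := h.decay a b ha hb
  refine ⟨C / a, δ, hδ, fun s h1 h2 => ?_⟩
  have h3 : a ≤ ‖s‖ := by
    have := abs_im_le_norm s
    rw [abs_of_neg (by linarith)] at this
    linarith
  rw [norm_div, div_mul_eq_mul_div]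
  exact div_le_div₀ ((norm_nonneg _).trans (hC s h1 h2)) (hC s h1 h2) ha h3

lemma line_int {η₀ : ℝ} {g : ℂ → ℂ} (h : Adm η₀ g) {η : ℝ} (h1 : 0 < η) (h2 : η < η₀) :
    Integrable (fun x : ℝ => g (x - η * I) / (x - η * I)) := by
  obtain ⟨C, δ, hδ, hC⟩ := quot_bound h h1 h2
  refine Integrable.mono' ((integrable_exp_abs hδ).const_mul C) ?_ (ae_of_all _ fun x => ?_)
  · refine Continuous.aestronglyMeasurable (continuous_iff_continuousAt.2 fun x => ?_)
    have : ContinuousAt (fun s => g s / s) ((x : ℂ) - η * I) :=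
      (quot_diff h (by simpa using h2) (by simpa using h1)).continuousAt
    exact ContinuousAt.comp (f := fun x : ℝ => (x : ℂ) - η * I) this (by fun_prop)
  · simpa using hC ((x : ℂ) - η * I) (by simp) (by simp)

lemma line_eq {η₀ : ℝ} {g : ℂ → ℂ} (h : Adm η₀ g) {η η' : ℝ} (h1 : 0 < η) (h2 : η < η')
    (h3 : η' < η₀) : lineInt g η = lineInt g η' := by
  obtain ⟨C, δ, hδ, hC⟩ := quot_bound h h1 h3
  set q : ℂ → ℂ := fun s => g s / s with hq
  have hrect : ∀ R : ℝ, 0 < R →
      (∫ x in -R..R, q (x - η' * I)) - (∫ x in -R..R, q (x - η * I)) =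
        I * (∫ y in -η'..-η, q ((-R : ℝ) + y * I)) - I * (∫ y in -η'..-η, q (R + y * I)) := by
    intro R hR
    have := rect q ∅ (fun _ => 0) (-R) R (-η') (-η) (by linarith) (by linarith) (by simp)
      (fun z _ _ a b _ => quot_diff h (by linarith) (by linarith)) (by simp)
    simp only [Finset.sum_empty, mul_zero, ofReal_neg, neg_mul, ← sub_eq_add_neg] at this ⊢
    linear_combination this
  have hv : ∀ x : ℝ, ‖∫ y in -η'..-η, q (x + y * I)‖ ≤
      C * Real.exp (-δ * |x|) * |-η - -η'| := by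
    intro x
    refine intervalIntegral.norm_integral_le_of_norm_le_const fun y hy => ?_
    rw [uIoc_of_le (by linarith)] at hy
    have := hC ((x : ℂ) + y * I) (by simpa using hy.1.le) (by simpa using hy.2)
    rwa [show ((x : ℂ) + y * I).re = x by simp] at this
  have hz : Tendsto (fun R : ℝ => C * Real.exp (-δ * R) * |-η - -η'|) atTop (𝓝 0) := by
    have : Tendsto (fun R : ℝ => Real.exp (-δ * R)) atTop (𝓝 0) :=
      Real.tendsto_exp_atBot.comp (tendsto_id.const_mul_atTop_of_neg (by linarith))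
    simpa using (this.const_mul C).mul_const |-η - -η'|
  have hv1 : Tendsto (fun R : ℝ => ∫ y in -η'..-η, q (R + y * I)) atTop (𝓝 0) := by
    refine squeeze_zero_norm' ?_ hz
    filter_upwards [eventually_gt_atTop 0] with R hR
    simpa [abs_of_pos hR] using hv R
  have hv2 : Tendsto (fun R : ℝ => ∫ y in -η'..-η, q ((-R : ℝ) + y * I)) atTop (𝓝 0) := by
    refine squeeze_zero_norm' ?_ hz
    filter_upwards [eventually_gt_atTop 0] with R hR
    have := hv (-R)
    rwa [abs_neg, abs_of_pos hR] at this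
  have hl := (intervalIntegral_tendsto_integral (line_int h (h1.trans h2) h3)
    tendsto_neg_atTop_atBot tendsto_id).sub (intervalIntegral_tendsto_integral
      (line_int h h1 (h2.trans h3)) tendsto_neg_atTop_atBot tendsto_id)
  have hr := (hv2.const_mul I).sub (hv1.const_mul I)
  have := tendsto_nhds_unique_of_eventuallyEq hl hr (by
    filter_upwards [eventually_gt_atTop 0] with R hR
    exact hrect R hR)
  unfold lineInt
  simp only [mul_zero, sub_self] at this
  exact (sub_eq_zero.1 this).symm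

theorem line : StmtLine := by
  intro η₀ g h η h1 h2
  refine ⟨line_int h h1 h2, fun η' h3 h4 => ?_⟩
  rcases lt_trichotomy η η' with hlt | rfl | hlt
  · exact line_eq h h1 hlt h4
  · rfl
  · exact (line_eq h h3 hlt h2).symm

/-! ### Parametric integrals -/

theorem holInt : StmtHolInt := by
  intro μ F U bound hU hb hm hd hle z₀ hz₀
  obtain ⟨R, hR, hball⟩ := Metric.isOpen_iff.1 hU z₀ hz₀
  set r := R / 3 with hr
  have hr0 : 0 < r := by positivity
  have hsub : ∀ z ∈ Metric.ball z₀ r, Metric.closedBall z r ⊆ U := by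
    intro z hz w hw
    apply hball
    rw [Metric.mem_ball] at hz ⊢
    rw [Metric.mem_closedBall] at hw
    linarith [dist_triangle w z z₀]
  have hmemU : ∀ z ∈ Metric.ball z₀ r, z ∈ U := fun z hz =>
    hsub z hz (Metric.mem_closedBall_self hr0.le)
  have hseq : Tendsto (fun n : ℕ => z₀ + ((r / 2 * (1 / ((n : ℝ) + 1)) : ℝ) : ℂ)) atTop
      (𝓝[≠] z₀) := by
    refine tendsto_nhdsWithin_iff.2 ⟨?_, Eventually.of_forall fun n => ?_⟩
    · have h1 := (tendsto_one_div_add_atTop_nhds_zero_nat (𝕜 := ℝ)).const_mul (r / 2)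
      have h2 := (continuous_ofReal.tendsto _).comp h1
      simpa using h2.const_add z₀
    · have : (r / 2 * (1 / ((n : ℝ) + 1)) : ℝ) ≠ 0 := by positivity
      simp only [mem_compl_iff, mem_singleton_iff, add_eq_left, ofReal_eq_zero]
      exact this
  have hseqU : ∀ n : ℕ, z₀ + ((r / 2 * (1 / ((n : ℝ) + 1)) : ℝ) : ℂ) ∈ U := by
    intro n
    apply hmemU
    rw [Metric.mem_ball, dist_eq_norm, add_sub_cancel_left, norm_real, Real.norm_eq_abs,
      abs_of_pos (by positivity)]
    have : 1 / ((n : ℝ) + 1) ≤ 1 := by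
      rw [div_le_one (by positivity)]
      linarith [Nat.cast_nonneg (α := ℝ) n]
    nlinarith
  have key := hasDerivAt_integral_of_dominated_loc_of_deriv_le (μ := μ) (F := F) (x₀ := z₀)
    (F' := fun z t => deriv (fun w => F w t) z) (bound := fun t => bound t / r)
    (Metric.ball_mem_nhds z₀ hr0)
    (by filter_upwards [hU.mem_nhds hz₀] with z hz using hm z hz)
    (Integrable.mono' hb (hm z₀ hz₀) (hle.mono fun t ht => ht z₀ hz₀))
    (by
      refine aestronglyMeasurable_of_tendsto_ae atTop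
        (f := fun (n : ℕ) t => slope (fun w => F w t) z₀
          (z₀ + ((r / 2 * (1 / ((n : ℝ) + 1)) : ℝ) : ℂ))) (fun n => ?_) ?_
      · simp only [slope, vsub_eq_sub]
        exact ((hm _ (hseqU n)).sub (hm z₀ hz₀)).const_mul _
      · filter_upwards [hd] with t ht
        have h1 := (ht.differentiableAt (hU.mem_nhds hz₀)).hasDerivAt
        exact (hasDerivAt_iff_tendsto_slope.1 h1).comp hseq)
    (by
      filter_upwards [hd, hle] with t ht ht' z hz
      refine Complex.norm_deriv_le_of_forall_mem_sphere_norm_le hr0 ?_ fun w hw => ?_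
      · refine DifferentiableOn.diffContOnCl ?_
        rw [closure_ball z hr0.ne']
        exact ht.mono (hsub z hz)
      · exact ht' w (hsub z hz (Metric.sphere_subset_closedBall hw)))
    (hb.div_const r)
    (by
      filter_upwards [hd] with t ht z hz
      exact (ht.differentiableAt (hU.mem_nhds (hmemU z hz))).hasDerivAt)
  exact key.2.differentiableAt.differentiableWithinAt

/-! ### Extension through a difference equation -/

lemma vstrip_open (α β : ℝ) : IsOpen {ξ : ℂ | α < ξ.re ∧ ξ.re < β} :=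
  (isOpen_lt continuous_const continuous_re).inter (isOpen_lt continuous_re continuous_const)

theorem ext : StmtExt := by
  intro c f u α β hαβ hf hu heq
  set P : ℕ → ℂ → ZMod c → ℂ := fun m ξ ρ =>
    (∏ i ∈ Finset.range m, u (ξ + i) (ρ + i)) * f (ξ + m) (ρ + m) with hP
  have step : ∀ (m : ℕ) (ξ : ℂ) (ρ : ZMod c), α < ξ.re + m → ξ.re + m + 1 < β →
      P m ξ ρ = P (m + 1) ξ ρ := by
    intro m ξ ρ h1 h2
    simp only [hP]
    rw [heq (ξ + m) (ρ + m) (by simpa using h1) (by simpa using h2), Finset.prod_range_succ]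
    push_cast
    rw [add_assoc ξ, add_assoc ρ, mul_assoc]
  have steps : ∀ (m k : ℕ) (ξ : ℂ) (ρ : ZMod c), α < ξ.re + m → ξ.re + (m + k : ℕ) < β →
      P m ξ ρ = P (m + k) ξ ρ := by
    intro m k ξ ρ h1
    induction k with
    | zero => intro _; rfl
    | succ k ih =>
      intro h2
      push_cast at h2 ih
      have hk : (0 : ℝ) ≤ k := Nat.cast_nonneg k
      rw [ih (by linarith), ← add_assoc]
      exact step (m + k) ξ ρ (by push_cast; linarith) (by push_cast; linarith)
  have indep : ∀ (m m' : ℕ) (ξ : ℂ) (ρ : ZMod c), α < ξ.re + m → ξ.re + m < β →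
      α < ξ.re + m' → ξ.re + m' < β → P m ξ ρ = P m' ξ ρ := by
    intro m m' ξ ρ h1 h2 h3 h4
    rcases le_total m m' with h | h
    · obtain ⟨k, rfl⟩ := Nat.exists_eq_add_of_le h
      exact steps m k ξ ρ h1 h4
    · obtain ⟨k, rfl⟩ := Nat.exists_eq_add_of_le h
      exact (steps m' k ξ ρ h3 h2).symm
  set M : ℂ → ℕ := fun ξ => ⌊α - ξ.re + 1⌋₊ with hM
  have hM1 : ∀ ξ : ℂ, α < ξ.re + M ξ := by
    intro ξ
    have := Nat.lt_floor_add_one (α - ξ.re + 1)
    simp only [hM]
    linarith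
  have hM2 : ∀ ξ : ℂ, ξ.re < β → ξ.re + M ξ < β := by
    intro ξ h
    simp only [hM]
    rcases le_total 0 (α - ξ.re + 1) with h0 | h0
    · have := Nat.floor_le h0
      linarith
    · rw [Nat.floor_of_nonpos h0]
      simpa using h
  have hE : ∀ (m : ℕ) (ξ : ℂ) (ρ : ZMod c), α < ξ.re + m → ξ.re + m < β →
      P (M ξ) ξ ρ = P m ξ ρ := by
    intro m ξ ρ h1 h2
    have hm : (0 : ℝ) ≤ m := Nat.cast_nonneg m
    exact indep _ _ ξ ρ (hM1 ξ) (hM2 ξ (by linarith)) h1 h2
  refine ⟨fun ξ ρ => P (M ξ) ξ ρ, fun ρ ξ₀ h₀ => ?_, fun ξ ρ h1 h2 => ?_, fun ξ ρ h => ?_⟩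
  · apply DifferentiableAt.differentiableWithinAt
    have hmem : ξ₀ + (M ξ₀ : ℂ) ∈ {ξ : ℂ | α < ξ.re ∧ ξ.re < β} :=
      ⟨by simpa using hM1 ξ₀, by simpa using hM2 ξ₀ h₀⟩
    have hnh : ∀ᶠ ξ in 𝓝 ξ₀, ξ + (M ξ₀ : ℂ) ∈ {ξ : ℂ | α < ξ.re ∧ ξ.re < β} :=
      (continuous_add_const (M ξ₀ : ℂ)).continuousAt.eventually ((vstrip_open α β).mem_nhds hmem)
    have hd : DifferentiableAt ℂ (fun ξ => P (M ξ₀) ξ ρ) ξ₀ := by
      simp only [hP]
      refine DifferentiableAt.mul (DifferentiableAt.fun_finsetProd fun i _ => ?_) ?_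
      · exact ((hu (ρ + i)) (ξ₀ + i)).comp ξ₀ (differentiableAt_id.add_const (i : ℂ))
      · exact ((hf (ρ + M ξ₀)).differentiableAt ((vstrip_open α β).mem_nhds hmem)).comp ξ₀
          (differentiableAt_id.add_const (M ξ₀ : ℂ))
    refine hd.congr_of_eventuallyEq ?_
    filter_upwards [hnh] with ξ hξ
    exact hE _ ξ ρ (by simpa using hξ.1) (by simpa using hξ.2)
  · beta_reduce
    rw [hE 0 ξ ρ (by simpa using h1) (by simpa using h2)]
    simp [hP]
  · have h1 := hM1 (ξ + 1)
    have h2 := hM2 (ξ + 1) (by simpa using h)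
    simp only [add_re, one_re] at h1 h2
    beta_reduce
    rw [hE (M (ξ + 1) + 1) ξ ρ (by push_cast; linarith) (by push_cast; linarith)]
    simp only [hP]
    rw [Finset.prod_range_succ']
    push_cast
    simp only [add_zero, add_assoc, add_comm (1 : ℂ), add_comm (1 : ZMod c)]
    ring

/-! ### Two incommensurable periods -/

lemma half_open (β : ℝ) : IsOpen {ξ : ℂ | ξ.re < β} := isOpen_lt continuous_re continuous_const

lemma half_conn (β : ℝ) : IsPreconnected {ξ : ℂ | ξ.re < β} :=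
  (convex_halfSpace_re_lt β).isPreconnected

theorem per : StmtPer := by
  intro c _ d ε f α β hε hirr hαβ hf h1 h2
  obtain ⟨E, hEd, hEf, hE1⟩ := ext c f (fun _ _ => 1) α β (by linarith) hf
    (fun _ => differentiable_const _) (fun ξ ρ a b => by rw [one_mul]; exact h1 ξ ρ a b)
  simp only [one_mul] at hE1
  have hEa : ∀ ρ, AnalyticOnNhd ℂ (fun ξ => E ξ ρ) {ξ | ξ.re < β} := fun ρ =>
    (hEd ρ).analyticOnNhd (half_open β)
  have hE2 : ∀ ξ ρ, ξ.re + ε < β → E ξ ρ = E (ξ + ε) (ρ + d) := by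
    intro ξ ρ hξ
    have ha : AnalyticOnNhd ℂ (fun ξ => E ξ ρ) {ξ | ξ.re < β - ε} :=
      (hEa ρ).mono fun z hz => by simp only [mem_ofPred_eq] at hz ⊢; linarith
    have hb : AnalyticOnNhd ℂ (fun ξ => E (ξ + ε) (ρ + d)) {ξ | ξ.re < β - ε} := by
      refine DifferentiableOn.analyticOnNhd ?_ (half_open _)
      refine (hEd (ρ + d)).comp (differentiableOn_id.add_const (ε : ℂ)) fun z hz => ?_
      simp only [mem_ofPred_eq, add_re, ofReal_re] at hz ⊢
      linarith
    have hz₀ : (((α + (β - ε)) / 2 : ℝ) : ℂ) ∈ {ξ : ℂ | α < ξ.re ∧ ξ.re < β - ε} := by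
      simp only [mem_ofPred_eq, ofReal_re]
      constructor <;> linarith
    refine ha.eqOn_of_preconnected_of_eventuallyEq hb (half_conn _) hz₀.2 ?_
      (show ξ.re < β - ε by linarith)
    filter_upwards [(vstrip_open α (β - ε)).mem_nhds hz₀] with z hz
    obtain ⟨a, b⟩ := hz
    rw [hEf z ρ a (by linarith), hEf (z + ε) (ρ + d) (by simp; linarith) (by simp; linarith)]
    exact h2 z ρ a (by linarith)
  have it1 : ∀ (k : ℕ) ξ ρ, ξ.re < β → E (ξ - k) (ρ - k) = E ξ ρ := by
    intro k ξ ρ hξ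
    induction k with
    | zero => simp
    | succ k ih =>
      have hk : (0 : ℝ) ≤ k := Nat.cast_nonneg k
      rw [hE1 _ _ (by simp; linarith), ← ih]
      push_cast
      congr 1 <;> ring
  have it2 : ∀ (k : ℕ) ξ ρ, ξ.re < β → E (ξ - k * ε) (ρ - k * d) = E ξ ρ := by
    intro k ξ ρ hξ
    induction k with
    | zero => simp
    | succ k ih =>
      have hk : (0 : ℝ) ≤ k * ε := mul_nonneg (Nat.cast_nonneg k) (by linarith)
      rw [hE2 _ _ (by simp; linarith), ← ih]
      push_cast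
      congr 1 <;> ring
  have hc : (0 : ℝ) < c := Nat.cast_pos.2 (Nat.pos_of_ne_zero (NeZero.ne c))
  have const : ∀ ρ ξ ξ', ξ.re < β → ξ'.re < β → E ξ' ρ = E ξ ρ := by
    intro ρ ξ ξ' hξ hξ'
    refine (hEa ρ).eqOn_of_preconnected_of_frequently_eq (g := fun _ => E ξ ρ)
      analyticOnNhd_const (half_conn β) hξ ?_ hξ'
    rw [frequently_iff]
    intro V hV
    obtain ⟨δ, hδ, hball⟩ := Metric.mem_nhdsWithin_iff.1
      (inter_mem hV (mem_nhdsWithin_of_mem_nhds ((half_open β).mem_nhds hξ)))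
    obtain ⟨n, hn⟩ := exists_nat_gt (c / δ)
    have hn0 : 0 < n := Nat.cast_pos.1 ((div_pos hc hδ).trans hn)
    obtain ⟨j, hj, -, hjr⟩ := Real.exists_nat_abs_mul_sub_round_le ε hn0
    have hr0 : 0 ≤ round ((j : ℝ) * ε) := by
      rw [round_eq]
      exact Int.floor_nonneg.2 (by positivity)
    obtain ⟨k, hk⟩ := Int.eq_ofNat_of_zero_le hr0
    rw [hk] at hjr
    push_cast at hjr
    have hne : (j : ℝ) * ε - k ≠ 0 := by
      intro h
      exact (hirr.natCast_mul hj.ne').ne_nat k (by linarith)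
    have hmem : ξ + ((c * (j * ε - k) : ℝ) : ℂ) ∈ V ∩ {ξ : ℂ | ξ.re < β} := by
      apply hball
      refine ⟨?_, ?_⟩
      · rw [Metric.mem_ball, dist_eq_norm, add_sub_cancel_left, norm_real, Real.norm_eq_abs,
          abs_mul, abs_of_pos hc]
        have h3 : (c : ℝ) * (1 / (n + 1)) < δ := by
          rw [mul_one_div, div_lt_iff₀ (by positivity)]
          rw [div_lt_iff₀ hδ] at hn
          nlinarith
        exact (mul_le_mul_of_nonneg_left hjr hc.le).trans_lt h3
      · simp only [mem_compl_iff, mem_singleton_iff, add_eq_left, ofReal_eq_zero]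
        exact mul_ne_zero hc.ne' hne
    refine ⟨_, hmem.1, ?_⟩
    have e1 := it2 (c * j) _ ρ hmem.2
    have e2 := it1 (c * k) ξ ρ hξ
    simp only [Nat.cast_mul, ZMod.natCast_self, zero_mul, sub_zero] at e1 e2
    rw [← e1, ← e2]
    congr 1
    push_cast
    ring
  intro ξ ρ ξ' ρ' a b a' b'
  rw [← hEf ξ ρ a b, ← hEf ξ' ρ' a' b', ← it1 (ρ - ρ').val ξ ρ b]
  have hk : (0 : ℝ) ≤ ((ρ - ρ').val : ℕ) := Nat.cast_nonneg _
  rw [ZMod.natCast_zmod_val, sub_sub_cancel]
  exact const ρ' ξ' _ b' (by simp only [sub_re, natCast_re]; linarith)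

end AN

theorem blockAN : StmtAN := ⟨AN.rect, AN.line, AN.holInt, AN.ext, AN.per⟩

end Pool.Agent.Lib.Stark
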