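import Pool.Agent.Lib.stark.Defs2

set_option autoImplicit false

open NumberField Ideal

namespace Pool.Agent.Lib.Stark

namespace AU

variable {K : Type} [Field K] [NumberField K] {ε : K} {Λ : Submodule ℤ K}

omit [NumberField K] in
lemma pow_mem (h : SL ε Λ) (i : ℕ) {y : K} (hy : y ∈ Λ) : ε ^ i * y ∈ Λ := by
  induction i with
  | zero => simpa using hy
  | succ i ih => rw [pow_succ', mul_assoc]; exact h.2 _ ih

omit [NumberField K] in
lemma sl_pow (h : SL ε Λ) (J : ℕ) : SL (ε ^ J) Λ := ⟨h.1, fun _ hy => pow_mem h J hy⟩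

omit [NumberField K] in
lemma tor_pow (h : SL ε Λ) {x : K} (hx : Tor ε Λ x) (J : ℕ) : Tor (ε ^ J) Λ x := by
  unfold Tor at hx ⊢
  rw [← geom_sum_mul, Finset.sum_mul, Finset.sum_mul]
  exact Λ.sum_mem fun i _ => by rw [mul_assoc]; exact pow_mem h i hx

omit [NumberField K] in
lemma inv_pow_sub {n : ℕ} (hq : (ε - 1) ^ 2 = n * ε) (h : SL ε Λ) {x : K} (hx : Tor ε Λ x)
    (i : ℕ) : ε⁻¹ ^ i * x - x ∈ Λ := by
  have h1 : ε * (n + 2 - ε) = 1 := by linear_combination -hq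
  have h2 : ε⁻¹ = n + 2 - ε := (eq_inv_of_mul_eq_one_right h1).symm
  have h3 : ∀ y ∈ Λ, ε⁻¹ * y ∈ Λ := fun y hy => by
    have e : ε⁻¹ * y = ((n + 2 : ℕ) : ℤ) • y - ε * y := by
      rw [h2, zsmul_eq_mul]; push_cast; ring
    rw [e]
    exact Λ.sub_mem (Λ.smul_mem _ hy) (h.2 y hy)
  induction i with
  | zero => simp
  | succ i ih =>
    have e : ε⁻¹ ^ (i + 1) * x - x = ε⁻¹ * (ε⁻¹ ^ i * x - x) - ε⁻¹ * ((ε - 1) * x) := by
      rw [h2]; linear_combination x * h1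
    rw [e]
    exact Λ.sub_mem (h3 _ ih) (h3 _ hx)

lemma eq_one_of_pow {Γ : Type} [LinearOrderedCommGroupWithZero Γ] {a : Γ} {J : ℕ} (hJ : 0 < J)
    (h : a ^ J = 1) : a = 1 := by
  rcases lt_trichotomy a 1 with h1 | h1 | h1
  · exact absurd h (pow_lt_one₀ zero_le h1 hJ.ne').ne
  · exact h1
  · exact absurd h (one_lt_pow₀ h1 hJ.ne').ne'

lemma exists_val {z : ℂ} (hz : Transcendental ℤ z) :
    ∃ V : ValuationSubring ℂ, V.valuation (11 : ℕ) < 1 ∧ V.valuation z < 1 := by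
  let e := Polynomial.algEquivOfTranscendental ℤ z hz
  let φ : Algebra.adjoin ℤ {z} →+* ZMod 11 :=
    (Polynomial.eval₂RingHom (Int.castRingHom (ZMod 11)) 0).comp e.symm.toRingEquiv.toRingHom
  have : Fact (1 < 11) := ⟨by norm_num⟩
  obtain ⟨V, -, hV⟩ := Ideal.image_subset_nonunits_valuationSubring
    (A := (Algebra.adjoin ℤ {z}).toSubring) (RingHom.ker φ) (RingHom.ker_ne_top φ)
  refine ⟨V, V.mem_nonunits_iff.1 (hV ⟨((11 : ℕ) : Algebra.adjoin ℤ {z}), ?_, rfl⟩),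
    V.mem_nonunits_iff.1 (hV ⟨e Polynomial.X, ?_, by simp [e]; rfl⟩)⟩
  · change φ _ = 0
    rw [map_natCast]; rfl
  · change φ _ = 0
    simp [φ]

end AU

theorem blockAU (hA : StmtA2) (hS : StmtSys) (hPsi : StmtPsi) (hR : StmtR1) : StmtAU := by
  intro K _ _ σ₁ σ₂ c hRQ ε n hL Λ x hΛ hx
  have hb := hR.2.1 K σ₁ σ₂ c hRQ
  have key : ∀ (Γ : Type) [LinearOrderedCommGroupWithZero Γ] (v : Valuation ℂ Γ) (p : ℕ), p.Prime →
      11 ≤ p → v p < 1 → v (Psi σ₁ ε Λ x) = 1 := by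
    intro Γ _ v p hp h11 hv
    let e : 𝓞 K := ⟨ε, (hb.irr ε n hL).2.2⟩
    obtain ⟨J, hJ, h1⟩ := hb.cong e (span {(p : 𝓞 K)}) (hb.norm e n hL).2.2.1 (by
      rw [Ne, span_singleton_eq_bot]; exact_mod_cast hp.ne_zero)
    obtain ⟨n', hL'⟩ := hb.pow ε n J hL hJ
    have h2 := absNorm_dvd_absNorm_of_le ((span_singleton_le_iff_mem _).2 h1)
    rw [(hb.norm (e ^ J) n' hL').1, absNorm_span_natCast, RingOfIntegers.rank, hRQ.rank] at h2
    have h3 := hA K σ₁ σ₂ c hRQ _ n' hL' _ (hS K σ₁ σ₂ c hRQ _ n' hL') Γ v p hp h11 hv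
      ((dvd_pow_self p two_ne_zero).trans h2) Λ x (AU.sl_pow hΛ J) (AU.tor_pow hΛ hx J)
    obtain ⟨hper, -, -, -, hlev⟩ := hPsi K σ₁ σ₂ c hRQ ε n hL
    have h4 : ∀ i ∈ Finset.range J, Psi σ₁ ε Λ (ε⁻¹ ^ i * x) = Psi σ₁ ε Λ x := fun i _ => by
      rw [← hper Λ x _ (AU.inv_pow_sub hL.quad hΛ hx i), add_sub_cancel]
    rw [hlev Λ x J hΛ hJ, Finset.prod_congr rfl h4, Finset.prod_const, Finset.card_range,
      map_pow] at h3
    exact AU.eq_one_of_pow hJ h3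
  refine ⟨?_, key⟩
  by_contra h
  obtain ⟨V, h1, h2⟩ := AU.exists_val fun h' => h ((IsFractionRing.isAlgebraic_iff ℤ ℚ ℂ).1 h')
  exact h2.ne (key _ V.valuation 11 (by norm_num) le_rfl h1)

end Pool.Agent.Lib.Stark
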