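import Pool.Agent.Lib.stark.B2a1

/-! Block B2a: product structure at the top of the tree. -/

namespace Pool.Agent.Lib.Stark

namespace B2a

theorem radon_aux {A : Type} [CommGroup A] {p : ℕ} [Fact p.Prime] (g : ZMod p → ZMod p → A)
    (a b : ZMod p) : g a b ^ p * ∏ i, ∏ j, g i j =
      (∏ k, g a (b + k)) * ∏ l, ∏ k, g (a + k) (b + k * l) := by
  have h1 : ∏ i, ∏ j, g i j = ∏ k, ∏ j, g (a + k) (b + j) :=
    (Fintype.prod_equiv (Equiv.addLeft a) _ _ fun k =>
      Fintype.prod_equiv (Equiv.addLeft b) _ _ fun _ => rfl).symm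
  rw [h1, Finset.prod_comm (f := fun l k => g (a + k) (b + k * l)),
    ← Finset.mul_prod_erase _ _ (Finset.mem_univ (0 : ZMod p)),
    ← Finset.mul_prod_erase _ (fun k => ∏ l, g (a + k) (b + k * l)) (Finset.mem_univ (0 : ZMod p)),
    Finset.prod_congr rfl (s₂ := Finset.univ.erase 0) (f := fun k => ∏ l, g (a + k) (b + k * l))
      (g := fun k => ∏ j, g (a + k) (b + j)) fun k hk =>
        Fintype.prod_equiv (Equiv.mulLeft₀ k (Finset.ne_of_mem_erase hk)) _ _ fun _ => rfl]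
  simp only [add_zero, zero_mul, Finset.prod_const, Finset.card_univ, ZMod.card]
  exact mul_left_comm _ _ _

theorem exists_cyc {G : Type} [AddCommGroup G] [Fintype G] {p : ℕ} (hp : p.Prime) {g : G}
    (h0 : g ≠ 0) (h1 : p • g = 0) (h2 : ∀ y : G, p • y = 0 → ∃ i : ℤ, y = i • g) :
    ∃ (m n' : ℕ) (s : G), Fintype.card G = p ^ (m + 1) * n' ∧ ¬p ∣ n' ∧
      addOrderOf s = p ^ (m + 1) ∧ ∃ i : ℕ, g = i • p ^ m • s := by
  classical
  have := Fact.mk hp
  have hg : addOrderOf g = p := addOrderOf_eq_prime h1 h0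
  have hfin : BddAbove {j | ∃ s : G, addOrderOf s = p ^ (j + 1)} := ⟨Fintype.card G, by
    rintro j ⟨s, hs⟩
    have a1 := addOrderOf_le_card_univ (x := s)
    have a2 := Nat.lt_pow_self (n := j + 1) hp.one_lt
    omega⟩
  obtain ⟨s, hs⟩ := Nat.sSup_mem (s := {j | ∃ s : G, addOrderOf s = p ^ (j + 1)})
    ⟨0, g, by simpa using hg⟩ hfin
  have hmax : ∀ j (y : G), addOrderOf y = p ^ (j + 1) → j ≤ _ := fun j y hy =>
    le_csSup hfin ⟨y, hy⟩
  generalize sSup {j | ∃ s : G, addOrderOf s = p ^ (j + 1)} = m at hs hmax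
  have a1 : p • p ^ m • s = 0 := by rw [← mul_nsmul, ← pow_succ, ← hs, addOrderOf_nsmul_eq_zero]
  have a2 : p ^ m • s ≠ 0 := nsmul_ne_zero_of_lt_addOrderOf (pow_pos hp.pos m).ne'
    (by rw [hs]; exact Nat.pow_lt_pow_right hp.one_lt (by omega))
  have a3 : ∃ i : ℕ, g = i • p ^ m • s := by
    obtain ⟨i, hi⟩ := h2 _ a1
    have b1 : AddSubgroup.zmultiples (p ^ m • s) = AddSubgroup.zmultiples g :=
      AddSubgroup.eq_of_le_of_card_ge (AddSubgroup.zmultiples_le_of_mem ⟨i, hi.symm⟩)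
        (by rw [Nat.card_zmultiples, Nat.card_zmultiples, hg, addOrderOf_eq_prime a1 a2])
    obtain ⟨k, hk⟩ := mem_multiples_iff_mem_zmultiples.2 (b1.ge (AddSubgroup.mem_zmultiples g))
    exact ⟨k, hk.symm⟩
  refine ⟨m, (AddSubgroup.zmultiples s).index, s, ?_, fun hd => ?_, hs, a3⟩
  · rw [← hs, ← Nat.card_zmultiples, AddSubgroup.card_mul_index, Nat.card_eq_fintype_card]
  obtain ⟨y, hy⟩ := exists_prime_addOrderOf_dvd_card' (G := G ⧸ AddSubgroup.zmultiples s) p hd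
  obtain ⟨y, rfl⟩ := QuotientAddGroup.mk_surjective y
  obtain ⟨b1, b2⟩ := addOrderOf_eq_prime_iff.1 hy
  obtain ⟨j, hj⟩ := (QuotientAddGroup.eq_zero_iff (p • y)).1 b1
  have b3 : p ^ (m + 2) • y = 0 := by
    rw [pow_succ', mul_nsmul, ← hj, smul_comm, ← hs, addOrderOf_nsmul_eq_zero, smul_zero]
  obtain ⟨i, hi, b4⟩ := (Nat.dvd_prime_pow hp).1 (addOrderOf_dvd_of_nsmul_eq_zero b3)
  have b5 : p ^ (m + 1) • y = 0 := by
    refine addOrderOf_dvd_iff_nsmul_eq_zero.1 (b4 ▸ pow_dvd_pow p ?_)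
    rcases i with _ | i
    · omega
    · exact Nat.succ_le_succ (hmax i y b4)
  have b6 : j • p ^ m • s = 0 := by rw [smul_comm, show j • s = p • y from hj, ← mul_nsmul,
    ← pow_succ', b5]
  obtain ⟨k, rfl⟩ : (p : ℤ) ∣ j := by
    rw [← addOrderOf_eq_prime a1 a2]
    exact addOrderOf_dvd_iff_zsmul_eq_zero.2 b6
  obtain ⟨l, hl⟩ := h2 (y - k • s) (by
    rw [smul_sub, ← show ((p : ℤ) * k) • s = p • y from hj, mul_zsmul, natCast_zsmul, sub_self])
  obtain ⟨i', hi'⟩ := a3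
  refine b2 ((QuotientAddGroup.eq_zero_iff y).2 ?_)
  rw [sub_eq_iff_eq_add.1 hl, hi']
  have b7 := AddSubgroup.mem_zmultiples s
  exact add_mem (zsmul_mem (nsmul_mem (nsmul_mem b7 _) _) _) (zsmul_mem b7 _)

variable {K : Type} [Field K] [NumberField K] {M : Submodule ℤ K} {p : ℕ} {t t₁ t₂ θ ε : K}
  {A : Type} [CommGroup A] {lam : Submodule ℤ K → K → A}

/-- Distribution with values in a group without `p`-torsion. -/
structure Dis (p : ℕ) (lam : Submodule ℤ K → K → A) : Prop where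
  inj : ∀ a b : A, a ^ p = b ^ p → a = b
  per : ∀ Λ x y, y ∈ Λ → lam Λ (x + y) = lam Λ x
  dist : ∀ Λ Λ' R x, IsLat Λ → IsLat Λ' → Λ ≤ Λ' → Reps Λ Λ' R →
    lam Λ' x = ∏ t ∈ R, lam Λ (x + t)

omit [NumberField K] in
theorem Dis.cong (h : Dis p lam) {x y : K} (e : x - y ∈ M) : lam M x = lam M y := by
  rw [← h.per M y _ e, add_sub_cancel]

omit [NumberField K] in
theorem Dis.line [Fact p.Prime] (h : Dis p lam) (hM : IsLat M) (h1 : (p : K) * t ∈ M) (h2 : t ∉ M)
    (w : K) : lam (M ⊔ Submodule.span ℤ {t}) w = ∏ k : ZMod p, lam M (w + k.val * t) := by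
  classical
  have key : ∀ k k' : ZMod p, (k.val : K) * t - k'.val * t ∈ M → k = k' := fun k k' e => by
    have := dvd_of_mem (i := k.val - k'.val) Fact.out h1 h2 (meq e (by push_cast; ring))
    rw [← ZMod.intCast_zmod_eq_zero_iff_dvd] at this
    simpa [sub_eq_zero] using this
  rw [h.dist M _ (Finset.univ.image fun k : ZMod p => (k.val : K) * t) w hM (isLat_ext hM t)
    le_sup_left ⟨fun s hs => ?_, fun y hy => ?_⟩,
    Finset.prod_image fun k _ k' _ e => key k k' (by rw [sub_eq_zero.2 e]; exact zero_mem _)]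
  · obtain ⟨k, -, rfl⟩ := Finset.mem_image.1 hs
    exact mem_ext.2 ⟨k.val, by simp⟩
  · obtain ⟨i, hi⟩ := mem_ext.1 hy
    have e : y - ((i : ZMod p).val : K) * t ∈ M :=
      meq (add_mem hi (mem_of_dvd (i := i - (i : ZMod p).val) h1
        ((ZMod.intCast_zmod_eq_zero_iff_dvd _ _).1 (by simp)))) (by push_cast; ring)
    refine ⟨_, ⟨Finset.mem_image_of_mem _ (Finset.mem_univ (i : ZMod p)), e⟩, ?_⟩
    rintro s ⟨hs, e'⟩
    obtain ⟨k, -, rfl⟩ := Finset.mem_image.1 hs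
    rw [key k i (meq (sub_mem e e') (by ring))]

omit [NumberField K] in
theorem Dis.radon [Fact p.Prime] (h : Dis p lam) (hM : IsLat M) (hB : Bas p M t₁ t₂) (x : K) :
    ∃ N : A, ∀ i j : ℤ, lam M (x + i * t₁ + j * t₂) ^ p * N =
      lam (M ⊔ Submodule.span ℤ {t₂}) (x + i * t₁ + j * t₂) * ∏ l : ZMod p,
        lam (M ⊔ Submodule.span ℤ {t₁ + ((l.val : ℤ) : K) * t₂}) (x + i * t₁ + j * t₂) := by
  have hp : p.Prime := Fact.out
  have key : ∀ (i j : ℤ) (a b : ZMod p), (i : ZMod p) = a → (j : ZMod p) = b →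
      lam M (x + i * t₁ + j * t₂) = lam M (x + a.val * t₁ + b.val * t₂) := by
    rintro i j _ _ rfl rfl
    exact h.cong (meq (add_mem (mem_of_dvd (i := i - (i : ZMod p).val) hB.m1
      ((ZMod.intCast_zmod_eq_zero_iff_dvd _ _).1 (by simp)))
      (mem_of_dvd (i := j - (j : ZMod p).val) hB.m2
        ((ZMod.intCast_zmod_eq_zero_iff_dvd _ _).1 (by simp)))) (by push_cast; ring))
  refine ⟨∏ a : ZMod p, ∏ b : ZMod p, lam M (x + a.val * t₁ + b.val * t₂), fun i j => ?_⟩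
  rw [key i j _ _ rfl rfl, radon_aux (fun a b : ZMod p => lam M (x + a.val * t₁ + b.val * t₂)),
    h.line hM hB.m2 (hB.not_mem hp).2.1]
  congr 1
  · refine Finset.prod_congr rfl fun k _ => ?_
    rw [← key i (j + k.val) _ _ rfl (by simp)]
    congr 1
    push_cast
    ring
  · refine Finset.prod_congr rfl fun l _ => ?_
    rw [h.line hM (hB.shear l.val).m1 ((hB.shear l.val).not_mem hp).1]
    refine Finset.prod_congr rfl fun k _ => ?_
    rw [← key (i + k.val) (j + k.val * l.val) _ _ (by simp) (by simp)]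
    congr 1
    push_cast
    ring

/-- Invariance under a line towards a better lattice. -/
def Inv (p b : ℕ) (ε : K) (lam : Submodule ℤ K → K → A) : Prop :=
  ∀ M t, SL ε M → St (eta p b ε) M → ¬St (eta p (b + 1) ε) M → (p : K) * t ∈ M → t ∉ M →
    St (eta p (b + 1) ε) (M ⊔ Submodule.span ℤ {t}) → ∀ x, Tor ε M x → lam M (x + t) = lam M x

theorem tor_of_st (hp : p ≠ 0) {b : ℕ} (h : St (eta p (b + 1) ε) M) (h1 : (p : K) * t ∈ M) :
    eta p b ε * t ∈ M ∧ Tor ε M t := by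
  have h2 : eta p b ε * t ∈ M := meq (h _ h1) (by rw [eta_succ hp]; ring)
  exact ⟨h2, meq (zm ((p ^ b : ℕ) : ℤ) h2) (by rw [eta_mul hp b]; ring)⟩

omit [NumberField K] in
theorem tor_add {x : K} (hx : Tor ε M x) (ht : Tor ε M t) (i : ℤ) : Tor ε M (x + i * t) :=
  meq (add_mem hx (zm i ht)) (by ring)

theorem Inv.down (hp : p.Prime) {b : ℕ} (hI : Inv p b ε lam) (h : Dis p lam) (hM : SL ε M)
    (hB : Bas p M t₁ t₂) (h0 : St (eta p (b + 1) ε) M) (l : ℤ)
    (h1 : ¬St (eta p (b + 1) ε) (M ⊔ Submodule.span ℤ {t₁ + l * t₂})) {x : K} (hx : Tor ε M x)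
    (i j : ℤ) : lam (M ⊔ Submodule.span ℤ {t₁ + l * t₂}) (x + i * t₁ + j * t₂) =
      lam (M ⊔ Submodule.span ℤ {t₁ + l * t₂}) x := by
  have hB' := hB.shear l
  obtain ⟨a1, a2⟩ := tor_of_st hp.ne_zero h0 hB'.m1
  have a3 : Tor ε (M ⊔ Submodule.span ℤ {t₁ + l * t₂}) t₂ :=
    le_ext (tor_of_st hp.ne_zero h0 hB.m2).2
  have a4 := hI (M ⊔ Submodule.span ℤ {t₁ + l * t₂}) t₂
    ⟨isLat_ext hM.1 _, St.ext hM.2 (meq (add_mem (le_ext a2) self_ext) (by ring))⟩
    (St.ext (fun y hy => meq (zm p (h0 y hy)) (by rw [eta_succ hp.ne_zero]; push_cast; ring))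
      (le_ext a1)) h1 (le_ext hB.m2) (hB'.not_mem hp).2.2 (hB'.st_top h0)
  have a5 : ∀ k : ℤ, lam (M ⊔ Submodule.span ℤ {t₁ + l * t₂}) (x + k * t₂) =
      lam (M ⊔ Submodule.span ℤ {t₁ + l * t₂}) x := fun k => by
    induction k using Int.induction_on with
    | zero => simp
    | succ k ih =>
      rw [← ih, ← a4 _ (tor_add (le_ext hx) a3 k)]
      congr 1
      push_cast
      ring
    | pred k ih =>
      rw [← ih, ← a4 _ (tor_add (le_ext hx) a3 (-k - 1))]
      congr 1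
      push_cast
      ring
  rw [← a5 (j - i * l)]
  exact h.cong (meq (zm i self_ext) (by push_cast; ring))

theorem Inv.all (hp : p.Prime) (h : Dis p lam) (h0 : Inv p 0 ε lam)
    (hb : ∀ Λ : Submodule ℤ K, IsLat Λ → ∃ b₁ b₂ : K, Ind b₁ b₂ ∧ Λ = Submodule.span ℤ {b₁, b₂})
    (b : ℕ) : Inv p b ε lam := by
  have := Fact.mk hp
  induction b with
  | zero => exact h0
  | succ b ih =>
    intro M t hM s0 s1 m1 m2 s2 x hx
    obtain ⟨b₁, b₂, hi, e⟩ := hb M hM.1
    obtain ⟨s, hB⟩ := exists_bas hp hi e m1 m2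
    obtain ⟨N, hN⟩ := h.radon hM.1 hB x
    have key : ∀ j : ℤ, lam M (x + j * t) ^ p * N = lam (M ⊔ Submodule.span ℤ {t}) x *
        ∏ l : ZMod p, lam (M ⊔ Submodule.span ℤ {s + ((l.val : ℤ) : K) * t}) x := fun j => by
      have := hN 0 j
      rw [Finset.prod_congr rfl fun l _ => ih.down hp h hM hB s0 _ (by
        rw [eta_succ hp.ne_zero] at s0 ⊢
        exact (hB.shear _).down hp.ne_zero s0 s1 s2) hx 0 j,
        h.cong (y := x) (meq (zm j self_ext) (by push_cast; ring))] at this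
      simpa using this
    refine h.inj _ _ (mul_right_cancel (b := N) ?_)
    simpa using (key 1).trans (key 0).symm

theorem top {b₁ b₂ : K} (hp : p.Prime) (h2 : p ≠ 2) (hb : Ind b₁ b₂)
    (hM : M = Submodule.span ℤ {b₁, b₂}) {n a : ℕ} (hε : Ind 1 ε) (hq : (ε - 1) ^ 2 = n * ε)
    (h : Dis p lam) (hI : Inv p a ε lam) (hS : SL ε M)
    (hB : Bas p M t₁ t₂) (s0 : St (eta p (a + 1) ε) M) (s0' : ¬St (eta p (a + 2) ε) M)
    (s1 : St (eta p (a + 1) ε) (M ⊔ Submodule.span ℤ {t₁}))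
    (s2 : St (eta p (a + 1) ε) (M ⊔ Submodule.span ℤ {t₂})) {x : K} (hx : Tor ε M x) (i j : ℤ) :
    lam M (x + i * t₁ + j * t₂) * lam M x = lam M (x + i * t₁) * lam M (x + j * t₂) := by
  have := Fact.mk hp
  obtain ⟨N, hN⟩ := h.radon hS.1 hB x
  have key : ∀ i j : ℤ, lam M (x + i * t₁ + j * t₂) ^ p =
      lam (M ⊔ Submodule.span ℤ {t₂}) (x + i * t₁) * (lam (M ⊔ Submodule.span ℤ {t₁}) (x + j * t₂) *
        ∏ l ∈ Finset.univ.erase (0 : ZMod p),
          lam (M ⊔ Submodule.span ℤ {t₁ + ((l.val : ℤ) : K) * t₂}) x) / N := fun i j => by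
    rw [eq_div_iff_mul_eq', hN, ← Finset.mul_prod_erase _ _ (Finset.mem_univ (0 : ZMod p)),
      Finset.prod_congr rfl fun l hl => hI.down hp h hS hB s0 _
        (hB.down' hp h2 hb hM hε hq s0 s0' s1 s2 fun e => Finset.ne_of_mem_erase hl (by
          simpa using (ZMod.intCast_zmod_eq_zero_iff_dvd _ _).2 e)) hx i j,
      h.cong (y := x + i * t₁) (meq (zm j self_ext) (by ring))]
    simp only [ZMod.val_zero, Nat.cast_zero, Int.cast_zero, zero_mul, add_zero]
    rw [h.cong (M := M ⊔ Submodule.span ℤ {t₁}) (y := x + j * t₂) (meq (zm i self_ext) (by ring))]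
  have k1 := key i 0
  have k2 := key 0 j
  have k3 := key 0 0
  simp only [Int.cast_zero, zero_mul, add_zero] at k1 k2 k3
  refine h.inj _ _ ?_
  rw [mul_pow, mul_pow, key, k1, k2, k3]
  simp only [div_eq_mul_inv, mul_comm, mul_left_comm]

section Val

variable {Γ : Type} [LinearOrderedCommGroupWithZero Γ] (v : Valuation ℂ Γ)

theorem val_eq_one {z : ℂ} (h : v (z - 1) < 1) : v z = 1 := by
  simpa using v.map_one_add_of_lt h

/-- Principal units. -/
def U1 : Subgroup ℂˣ where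
  carrier := {z | v ((z : ℂ) - 1) < 1}
  one_mem' := by simp
  mul_mem' := fun {z w} hz hw => by
    have e : ((z * w : ℂˣ) : ℂ) - 1 = z * (w - 1) + (z - 1) := by push_cast; ring
    have hw' : v ((w : ℂ) - 1) < 1 := hw
    rw [Set.mem_ofPred_eq, e]
    exact v.map_add_lt (by rwa [map_mul, val_eq_one v hz, one_mul]) hz
  inv_mem' := fun {z} hz => by
    have e : ((z⁻¹ : ℂˣ) : ℂ) - 1 = -((z : ℂ)⁻¹ * (z - 1)) := by
      have := z.ne_zero
      rw [Units.val_inv_eq_inv_val]; field_simp; ring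
    have hz' : v ((z : ℂ) - 1) < 1 := hz
    rw [Set.mem_ofPred_eq, e]
    rwa [v.map_neg, map_mul, map_inv₀, val_eq_one v hz, inv_one, one_mul]

theorem mk_eq_iff {z w : ℂˣ} (hw : v w = 1) :
    (QuotientGroup.mk z : ℂˣ ⧸ U1 v) = QuotientGroup.mk w ↔ v ((z : ℂ) - w) < 1 := by
  have e : ((w⁻¹ * z : ℂˣ) : ℂ) - 1 = (w : ℂ)⁻¹ * (z - w) := by
    have := w.ne_zero
    rw [Units.val_mul, Units.val_inv_eq_inv_val]; field_simp
  rw [eq_comm, QuotientGroup.eq]
  change v (((w⁻¹ * z : ℂˣ) : ℂ) - 1) < 1 ↔ _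
  rw [e, map_mul, map_inv₀, hw, inv_one, one_mul]

theorem pow_inj (hp : p.Prime) (hv : v p < 1) (a b : ℂˣ ⧸ U1 v) (h : a ^ p = b ^ p) : a = b := by
  replace h : (a / b) ^ p = 1 := (div_pow a b p).trans (div_eq_one.2 h)
  rw [← div_eq_one]
  generalize a / b = c at h
  obtain ⟨z, rfl⟩ := QuotientGroup.mk_surjective c
  rw [← QuotientGroup.mk_pow, QuotientGroup.eq_one_iff] at h
  rw [QuotientGroup.eq_one_iff]
  have h1 : v ((z : ℂ) ^ p - 1) < 1 := h
  have h2 : v z ≤ 1 := (pow_le_one_iff_of_nonneg zero_le hp.ne_zero).1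
    ((map_pow v _ _).symm.trans (val_eq_one v h1)).le
  obtain ⟨r, hr⟩ := exists_add_pow_prime_eq hp (⟨z, h2⟩ - 1 : v.integer) 1
  have h3 : ((z : ℂ) - 1) ^ p = (z : ℂ) ^ p - 1 - p * ((z - 1) * r) := by
    have := congrArg Subtype.val hr
    simp at this
    linear_combination -this
  change v ((z : ℂ) - 1) < 1
  refine lt_of_pow_lt_pow_left₀ p zero_le_one ?_
  rw [← map_pow, h3, one_pow]
  refine v.map_sub_lt h1 ?_
  rw [map_mul]
  exact mul_lt_one_of_lt_of_le hv (mul_mem (sub_mem (show (z : ℂ) ∈ v.integer from h2)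
    (one_mem _)) r.2)

theorem val_unit {e : ℂ} {n : ℕ} (h : (e - 1) ^ 2 = n * e) : v e = 1 := by
  have h1 : v ((n : ℂ) + 2) ≤ 1 := by exact_mod_cast natCast_mem v.integer (n + 2)
  refine le_antisymm (not_lt.1 fun h2 => ?_) (not_lt.1 fun h2 => ?_)
  · have h3 : v (e * e) ≤ v e := by
      rw [show e * e = (n + 2) * e - 1 by linear_combination h]
      exact v.map_sub_le (by rw [map_mul]; exact mul_le_of_le_one_left' h1) (by simpa using h2.le)
    rw [map_mul] at h3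
    exact absurd h3 (not_le.2 (lt_mul_of_one_lt_left (zero_lt_one.trans h2) h2))
  · have h3 : v (e * (n + 2 - e)) < 1 := by
      rw [map_mul]
      exact mul_lt_one_of_lt_of_le h2 (v.map_sub_le h1 h2.le)
    rw [show e * (n + 2 - e) = 1 by linear_combination -h] at h3
    simp at h3

end Val

end B2a

open B2a in
theorem blockB2a (h2 : StmtP2) (hR : StmtR1) : StmtB2a := by
  intro K _ _ σ₁ σ₂ c hRQ ε n hL F hS Γ _ v p hp hp2 hv hU Λ a t₁ t₂ hΛ s0 s0' m1 m2 hg s1 s2 x i j hx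
  have hb := hR.2.1 K σ₁ σ₂ c hRQ
  rw [hh_iff hp.ne_zero] at s0 s0' s1 s2
  set lam : Submodule ℤ K → K → ℂˣ ⧸ U1 v :=
    fun M y => QuotientGroup.mk (Units.mk0 (F M y) (hS.ne M y)) with hlam
  have hD : Dis p lam := ⟨pow_inj v hp hv, fun M y z hz => by simp only [hlam, hS.per M y z hz],
    fun M M' R y a1 a2 a3 a4 => by
      simp only [hlam]
      rw [← QuotientGroup.mk_prod]
      congr 1
      exact Units.ext (by simpa using hS.dist M M' R y a1 a2 a3 a4)⟩
  have hI : Inv p 0 ε lam := by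
    intro M t hM _ b1 b2 b3 b4 y hy
    obtain ⟨G, _, _, _, q, f, b, q1, q2, q3, q4, hP⟩ := hS.pent M hM
    have ht : Tor ε M t := by
      obtain ⟨k, hk⟩ := mem_ext.1 (b4 _ self_ext)
      refine meq (add_mem (zm p hk) (zm k b2)) ?_
      rw [eta_mul hp.ne_zero (0 + 1) ε]
      push_cast
      ring
    have q0 : q 0 = 0 := (q2 0 (by simp [Tor])).2 (zero_mem _)
    have qz : ∀ z, Tor ε M z → ∀ k : ℤ, q (k * z) = k • q z := fun z hz k => by
      have c0 : ∀ k : ℤ, Tor ε M (k * z) := fun k => meq (zm k hz) (by ring)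
      induction k using Int.induction_on with
      | zero => simpa using q0
      | succ k ih =>
        rw [add_smul, ← ih, one_smul, ← q1 _ _ (c0 k) hz]
        congr 1
        push_cast
        ring
      | pred k ih =>
        rw [sub_smul, ← ih, one_smul, eq_sub_iff_add_eq, ← q1 _ _ (c0 _) hz]
        congr 1
        push_cast
        ring
    have qp : ∀ z, Tor ε M z → (p • q z = 0 ↔ (p : K) * z ∈ M) := fun z hz => by
      rw [← natCast_zsmul, ← qz z hz, q2 _ (meq (zm p hz) (by ring)), Int.cast_natCast]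
    obtain ⟨m, n', s, c1, c2, c3, k, c4⟩ := exists_cyc hp (g := q t)
      (fun e => b3 ((q2 t ht).1 e)) ((qp t ht).2 b2) fun g hg => by
        obtain ⟨z, hz, rfl⟩ := q3 g
        obtain ⟨b₁, b₂, hi, e⟩ := hb.basis M hM.1
        obtain ⟨s, hB⟩ := exists_bas hp hi e b2 b3
        obtain ⟨k, l, e'⟩ := hB.gen z ((qp z hz).1 hg)
        have d0 := eta_mul hp.ne_zero (0 + 1) ε
        have d1 : St (ε - 1) M := fun w hw => meq (sub_mem (hM.2 w hw) hw) (by ring)
        have d2 : (p : ℤ) ∣ k := by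
          by_contra d3
          obtain ⟨u, w, huw⟩ := (Nat.prime_iff_prime_int.1 hp).irreducible.coprime_iff_not_dvd.2 d3
          have d4 : (u : K) * p + w * k = 1 := by simpa using congrArg (Int.cast (R := K)) huw
          have d5 : (ε - 1) * s ∈ M := meq (add_mem (zm u (d1 _ hB.m1))
            (zm w (sub_mem (sub_mem hz (d1 _ e')) (zm l ht))))
            (by linear_combination (-(ε - 1) * s) * d4)
          simp only [zero_add, pow_one, Int.cast_natCast] at d0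
          exact b1 (hB.st hp.ne_zero (d0 ▸ d1) (d0 ▸ d5) (d0 ▸ ht))
        have d6 : z - l * t ∈ M := meq (add_mem e' (mem_of_dvd hB.m1 d2)) (by ring)
        refine ⟨l, ?_⟩
        rw [← qz t ht, ← add_zero (q (l * t)), ← (q2 _ (d1 _ d6)).2 d6,
          ← q1 _ _ (meq (zm l ht) (by ring)) (d1 _ d6), add_sub_cancel]
    have hf : ∀ g, v (f g) = 1 := fun g => by
      obtain ⟨z, hz, rfl⟩ := q3 g
      rw [q4 z hz]
      exact hU M z hM hz
    have he : v (σ₁ ε : ℂ) = 1 := val_unit v hP.card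
    have d7 := h2 G f b _ hP Γ v p m n' hp hp2 hv c1 c2 s c3 he hf
    have d8 : ∀ (k : ℕ) g, v (f (g + k • p ^ m • s) - f g) < 1 := fun k g => by
      induction k with
      | zero => simp
      | succ k ih =>
        rw [succ_nsmul, ← add_assoc, ← sub_add_sub_cancel _ (f (g + k • p ^ m • s))]
        exact v.map_add_lt (d7 _) ih
    have d9 := d8 k (q y)
    have d10 : Tor ε M (y + t) := by simpa using tor_add hy ht 1
    rw [← c4, ← q1 y t hy ht, q4 _ d10, q4 y hy] at d9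
    exact (mk_eq_iff v (hU M y hM hy)).2 d9
  obtain ⟨b₁, b₂, hi, e⟩ := hb.basis Λ hΛ.1
  have key := top hp hp2 hi e (hb.irr ε n hL).2.1 hL.quad hD (hI.all hp hD hb.basis a) hΛ
    (bas_of_gen hp hi e m1 m2 hg) s0 s0' s1 s2 hx i j
  simp only [hlam, ← QuotientGroup.mk_mul, Int.cast_natCast] at key
  have a1 := hU Λ _ hΛ (tor_add hx (tor_of_st hp.ne_zero s0 m1).2 i)
  have a2 := hU Λ _ hΛ (tor_add hx (tor_of_st hp.ne_zero s0 m2).2 j)
  rw [Int.cast_natCast] at a1 a2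
  exact (mk_eq_iff v (by simp [a1, a2])).1 key

end Pool.Agent.Lib.Stark
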