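import Pool.Agent.Lib.stark.B2ba

open Complex NumberField Filter Topology Ideal
open scoped Real nonZeroDivisors ComplexConjugate

namespace Pool.Agent.Lib.Stark
namespace B2b

variable {K : Type} [Field K] [NumberField K]

omit [NumberField K] in
lemma tor_pow {a : FractionalIdeal (𝓞 K)⁰ K} {ε : 𝓞 K} {x : K} (hx : Tor (ε : K) (lat a) x)
    (J : ℕ) : ε ^ J - 1 ∈ ann a x := by
  have h1 : ε - 1 ∈ ann a x := by
    rw [mem_ann]; push_cast; exact hx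
  obtain ⟨w, hw⟩ := sub_one_dvd_pow_sub_one ε J
  rw [hw]
  exact Ideal.mul_mem_right _ _ h1

omit [NumberField K] in
lemma tor_iff {a : FractionalIdeal (𝓞 K)⁰ K} {ε : 𝓞 K} {x : K} {J : ℕ} :
    Tor ((ε : K) ^ J) (lat a) x ↔ ε ^ J - 1 ∈ ann a x := by
  rw [mem_ann]; push_cast; rfl

omit [NumberField K] in
lemma swap {ε ε' : 𝓞 K} (hε' : ε * ε' = 1) (I : Ideal (𝓞 K)) (i : ℕ) :
    ε' ^ i - 1 ∈ I ↔ ε ^ i - 1 ∈ I := by
  have hpw : ε ^ i * ε' ^ i = 1 := by rw [← mul_pow, hε', one_pow]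
  constructor
  · intro h
    have h3 : ε ^ i - 1 = -ε ^ i * (ε' ^ i - 1) := by linear_combination hpw
    rw [h3]; exact I.mul_mem_left _ h
  · intro h
    have h3 : ε' ^ i - 1 = -ε' ^ i * (ε ^ i - 1) := by linear_combination hpw
    rw [h3]; exact I.mul_mem_left _ h

lemma final (hPsi : StmtPsi) (hAU : StmtAU) {σ₁ σ₂ : K →+* ℝ} {c : K ≃+* K} (hRQ : RQ σ₁ σ₂ c)
    (hb : StmtBasic K σ₁ σ₂ c) {ε : 𝓞 K} {n : ℕ} (hL : Lev σ₁ σ₂ (ε : K) n) {p : Ideal (𝓞 K)}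
    (hm : p.IsMaximal) (hq : (absNorm p).Prime) (h11 : 11 ≤ absNorm p) {Γ : Type}
    [LinearOrderedCommGroupWithZero Γ] (v : Valuation ℂ Γ) (hv : v (absNorm p) < 1)
    {a : FractionalIdeal (𝓞 K)⁰ K} (ha : a ≠ 0) {J : ℕ} (hJ0 : 0 < J)
    (hJ : ∀ i : ℕ, ε ^ i - 1 ∈ p ↔ J ∣ i) {t : K} (ht : p ≤ ann a t) (ht' : t ∉ lat a)
    (hinv : ∀ x, Tor ((ε : K) ^ J) (lat a) x →
      v (Psi σ₁ ((ε : K) ^ J) (lat a) (x + t) - Psi σ₁ ((ε : K) ^ J) (lat a) x) < 1)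
    (x : K) (hx : Tor (ε : K) (lat a) x) :
    v (FF σ₁ ε (dv a p) x - FF σ₁ ε a x ^ absNorm p) < 1 := by
  classical
  have hp : p ≠ ⊥ := by
    rintro rfl
    simp at h11
  obtain ⟨n', hL'⟩ := hb.pow ε n J hL hJ0
  obtain ⟨per, dist, -, -, lev⟩ := hPsi K σ₁ σ₂ c hRQ ε n hL
  obtain ⟨per', -⟩ := hPsi K σ₁ σ₂ c hRQ _ n' hL'
  have hSL := hb.sl ε a ha
  have hSL' : SL ((ε : K) ^ J) (lat a) := by
    have := hb.sl (ε ^ J) a ha
    simpa using this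
  have hU : ∀ y, Tor ((ε : K) ^ J) (lat a) y → v (Psi σ₁ ((ε : K) ^ J) (lat a) y) = 1 :=
    fun y hy => (hAU K σ₁ σ₂ c hRQ _ n' hL' _ y hSL' hy).2 Γ v _ hq h11 hv
  have hU0 : v (Psi σ₁ ε (lat a) x) = 1 :=
    (hAU K σ₁ σ₂ c hRQ _ n hL _ x hSL hx).2 Γ v _ hq h11 hv
  have hann : p = ann a t := by
    refine hm.eq_of_le (fun h => ht' ?_) ht
    have : (1 : 𝓞 K) ∈ ann a t := by rw [h]; trivial
    simpa [mem_ann] using this
  have hc : Nat.card (𝓞 K ⧸ p) = absNorm p := by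
    rw [absNorm_apply, Submodule.cardQuot_apply]
  have : Finite (𝓞 K ⧸ p) := Nat.finite_of_card_ne_zero (hc ▸ hq.ne_zero)
  let : Fintype (𝓞 K ⧸ p) := Fintype.ofFinite _
  let : Field (𝓞 K ⧸ p) := Ideal.Quotient.field p
  choose sec hsec using Ideal.Quotient.mk_surjective (I := p)
  have hsec' : ∀ β, sec (Ideal.Quotient.mk p β) - β ∈ p := fun β => Ideal.Quotient.eq.1 (hsec _)
  let φ : 𝓞 K ⧸ p → ℂ := fun u => Psi σ₁ ε (lat a) (x + (sec u : K) * t)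
  have hφ : ∀ β : 𝓞 K, φ (Ideal.Quotient.mk p β) = Psi σ₁ ε (lat a) (x + (β : K) * t) := by
    intro β
    rw [← per (lat a) (x + (β : K) * t) _ (ht (hsec' β))]
    simp only [φ]
    congr 1
    push_cast; ring
  have hinj : ∀ u u' : 𝓞 K ⧸ p, (sec u : K) * t - (sec u' : K) * t ∈ lat a → u = u' := by
    intro u u' h
    rw [← hsec u, ← hsec u', Ideal.Quotient.eq, hann, mem_ann]
    push_cast
    rwa [sub_mul]
  have hR : Reps (lat a) (lat (dv a p)) (Finset.univ.image fun u => (sec u : K) * t) := by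
    constructor
    · intro r hr
      obtain ⟨u, -, rfl⟩ := Finset.mem_image.1 hr
      refine (mem_dv hp _).2 fun y hy => ?_
      rw [mul_left_comm]
      exact mul_mem _ (ht hy)
    · intro y hy
      obtain ⟨β, hβ⟩ := gen ha hp hm ht ht' (w := y) ((mem_dv hp y).1 hy)
      have h1 : y - (sec (Ideal.Quotient.mk p β) : K) * t ∈ lat a := by
        have h2 := (lat a).sub_mem hβ (ht (hsec' β))
        have h3 : y - (β : K) * t - ((sec (Ideal.Quotient.mk p β) - β : 𝓞 K) : K) * t =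
            y - (sec (Ideal.Quotient.mk p β) : K) * t := by push_cast; ring
        rwa [h3] at h2
      refine ⟨_, ⟨Finset.mem_image.2 ⟨_, Finset.mem_univ _, rfl⟩, h1⟩, ?_⟩
      rintro r ⟨hr, hr'⟩
      obtain ⟨u, -, rfl⟩ := Finset.mem_image.1 hr
      have h2 := (lat a).sub_mem h1 hr'
      rw [sub_sub_sub_cancel_left] at h2
      rw [hinj _ _ h2]
  have hle : lat a ≤ lat (dv a p) := fun y hy => (mem_dv hp y).2 fun z _ => mul_mem z hy
  have h1 : FF σ₁ ε (dv a p) x = ∏ u, φ u := by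
    rw [FF, dist _ _ _ x hSL.1 (hb.sl ε _ (dv_ne ha hp)).1 hle hR, Finset.prod_image]
    intro u _ u' _ h
    refine hinj u u' ?_
    simp only at h
    rw [h, sub_self]
    exact (lat a).zero_mem
  have h2 : ∏ u, φ u = Psi σ₁ ε (lat a) x * ∏ u : (𝓞 K ⧸ p)ˣ, φ u := by
    rw [← Finset.mul_prod_erase Finset.univ φ (Finset.mem_univ 0)]
    congr 1
    · have := hφ 0
      simpa using this
    · symm
      refine Finset.prod_bij (fun u _ => (u : 𝓞 K ⧸ p)) (fun u _ => by simp) ?_ ?_ (fun _ _ => rfl)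
      · intro u _ u' _ h
        exact Units.ext h
      · intro u hu
        exact ⟨Units.mk0 u (Finset.ne_of_mem_erase hu), Finset.mem_univ _, rfl⟩
  obtain ⟨ε', hε'⟩ := (hb.norm ε n hL).2.2.1.exists_right_inv
  have hεK : (ε : K)⁻¹ = ε' := by
    refine inv_eq_of_mul_eq_one_right ?_
    exact_mod_cast congrArg (fun z : 𝓞 K => (z : K)) hε'
  have hsw := swap hε'
  let η : (𝓞 K ⧸ p)ˣ := Units.mkOfMulEqOne (Ideal.Quotient.mk p ε') (Ideal.Quotient.mk p ε)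
    (by rw [← map_mul, mul_comm, hε', map_one])
  have hη : ∀ i : ℕ, η ^ i = 1 ↔ J ∣ i := by
    intro i
    rw [← hJ, ← hsw, ← Ideal.Quotient.eq, Units.ext_iff]
    simp [η]
  have hord : orderOf η = J :=
    Nat.dvd_antisymm (orderOf_dvd_iff_pow_eq_one.2 ((hη J).2 dvd_rfl))
      ((hη _).1 (pow_orderOf_eq_one η))
  have hlev : ∀ β : 𝓞 K, Psi σ₁ ((ε : K) ^ J) (lat a) (x + (β : K) * t) =
      ∏ i ∈ Finset.range J, φ (Ideal.Quotient.mk p (ε' ^ i * β)) := by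
    intro β
    rw [lev _ _ J hSL hJ0]
    refine Finset.prod_congr rfl fun i _ => ?_
    rw [hφ, ← per (lat a) (x + ((ε' ^ i * β : 𝓞 K) : K) * t) _ ((hsw _ i).2 (tor_pow hx i)), hεK]
    congr 1
    push_cast; ring
  have hxJ : Psi σ₁ ((ε : K) ^ J) (lat a) x = Psi σ₁ ε (lat a) x ^ J := by
    have h3 := hlev 0
    have h4 := hφ 0
    simp only [mul_zero, map_zero, zero_mul, add_zero, Finset.prod_const, Finset.card_range]
      at h3 h4
    rw [h3, h4]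
  have htor : ∀ β : 𝓞 K, Tor ((ε : K) ^ J) (lat a) (x + (β : K) * t) := by
    intro β
    have h3 := (lat a).add_mem (tor_pow hx J) (mul_mem β (ht ((hJ J).2 dvd_rfl)))
    rw [tor_iff, mem_ann]
    convert h3 using 1
    ring
  have hnat : ∀ i : ℕ, v (Psi σ₁ ((ε : K) ^ J) (lat a) (x + (i : K) * t) -
      Psi σ₁ ((ε : K) ^ J) (lat a) x) < 1 := by
    intro i
    induction i with
    | zero => simp
    | succ i ih =>
      have h3 := hinv _ (by simpa using htor i)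
      refine cg_trans v ?_ ih
      convert h3 using 4
      push_cast; ring
  have hall : ∀ β : 𝓞 K, v (Psi σ₁ ((ε : K) ^ J) (lat a) (x + (β : K) * t) -
      Psi σ₁ ε (lat a) x ^ J) < 1 := by
    intro β
    obtain ⟨i, hi⟩ := exists_nat hm hq β
    have h3 := per' (lat a) (x + (i : K) * t) _ (ht hi)
    rw [← hxJ]
    convert hnat i using 3
    rw [← h3]
    congr 1
    push_cast; ring
  obtain ⟨ι, _, r, hcard, hprod⟩ := orbit_prod η fun u => φ u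
  rw [hord] at hcard hprod
  have h3 : ∀ Q, ∏ i ∈ Finset.range J, φ ((η ^ i * r Q : (𝓞 K ⧸ p)ˣ) : 𝓞 K ⧸ p) =
      Psi σ₁ ((ε : K) ^ J) (lat a) (x + (sec (r Q) : K) * t) := by
    intro Q
    rw [hlev]
    refine Finset.prod_congr rfl fun i _ => ?_
    congr 1
    simp [η, hsec]
  have h4 : absNorm p = Fintype.card ι * J + 1 := by
    rw [hcard, Fintype.card_units, ← Nat.card_eq_fintype_card, hc]
    omega
  have h5 : FF σ₁ ε a x ^ absNorm p =
      Psi σ₁ ε (lat a) x * ∏ _Q : ι, Psi σ₁ ε (lat a) x ^ J := by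
    rw [h4, FF, Finset.prod_const, Finset.card_univ]; ring
  rw [h1, h2, h5, hprod, Finset.prod_congr rfl fun Q _ => h3 Q]
  refine cg_mul v hU0.le ?_ (cg_refl v _) ?_
  · rw [map_prod]
    exact Finset.prod_le_one' fun Q _ => (hU _ (htor _)).le
  · exact cg_prod v _ _ _ (fun Q _ => (hU _ (htor _)).le) (fun Q _ => by simp [hU0])
      fun Q _ => hall _

lemma line {a : FractionalIdeal (𝓞 K)⁰ K} (ha : a ≠ 0) {p p' : Ideal (𝓞 K)} (hp : p ≠ ⊥)
    (hp' : p ≠ ⊤) (hco : p ⊔ p' = ⊤) {q : ℕ} (hpp : p * p' = span {(q : 𝓞 K)}) (k : ℕ) :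
    ∃ s : K, (q : K) ^ (k + 1) * s ∈ lat a ∧ p ≤ ann a ((q : K) ^ k * s) ∧
      (q : K) ^ k * s ∉ lat a := by
  obtain ⟨s, h1, h2⟩ := exists_s ha hp hp' k
  have hq : (q : 𝓞 K) ∈ p := by
    have : (q : 𝓞 K) ∈ p * p' := hpp ▸ mem_span_singleton_self _
    exact Ideal.mul_le_left (I := p) (J := p') this
  refine ⟨s, ?_, fun y hy => ?_, fun h => h2 ?_⟩
  · have := h1 (Ideal.pow_mem_pow hq (k + 1))
    rw [mem_ann] at this
    exact_mod_cast this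
  · have h3 : (q : 𝓞 K) ^ k * y ∈ p ^ (k + 1) := by
      rw [pow_succ]; exact Ideal.mul_mem_mul (Ideal.pow_mem_pow hq k) hy
    have := h1 h3
    rw [mem_ann] at this ⊢
    convert this using 1
    push_cast; ring
  · have h3 : p ^ k * p' ^ k ≤ ann a s := by
      rw [← mul_pow, hpp, span_singleton_pow, span_singleton_le_iff_mem, mem_ann]
      exact_mod_cast h
    have h4 : p ^ k = p ^ (k + 1) ⊔ p ^ k * p' ^ k := by
      rw [pow_succ, ← Ideal.mul_sup, Ideal.sup_pow_eq_top hco, Ideal.mul_top]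
    rw [h4]
    exact sup_le h1 h3

lemma hh_line {a : FractionalIdeal (𝓞 K)⁰ K} (ha : a ≠ 0) {p : Ideal (𝓞 K)} (hp : p ≠ ⊥)
    (hm : p.IsMaximal) (hq : (absNorm p).Prime) {t : K} (ht : p ≤ ann a t) (ht' : t ∉ lat a)
    {e : K} {q k : ℕ} {c₀ : 𝓞 K} (he : e - 1 = (q : K) ^ k * c₀) :
    HH q k e (lat a ⊔ Submodule.span ℤ {t}) := by
  intro y hy
  refine ⟨c₀ * y, ?_, by rw [he]; ring⟩
  obtain ⟨y₁, h₁, y₂, h₂, rfl⟩ := Submodule.mem_sup.1 hy
  obtain ⟨m, rfl⟩ := Submodule.mem_span_singleton.1 h₂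
  obtain ⟨i, hi⟩ := gen_nat ha hp hm hq ht ht' (w := c₀ * t) fun z hz => by
    rw [mem_ann, mul_left_comm]; exact mul_mem _ (ht hz)
  have h3 : (c₀ : K) * (y₁ + m • t) = (c₀ * y₁ + m • (c₀ * t - i * t)) + (m * i : ℤ) • t := by
    simp only [zsmul_eq_mul]; push_cast; ring
  rw [h3]
  exact Submodule.add_mem_sup ((lat a).add_mem (mul_mem _ h₁) ((lat a).smul_mem _ hi))
    (Submodule.smul_mem _ _ (Submodule.mem_span_singleton_self t))

lemma dich (h : StmtB2a) (h3 : StmtP3) {σ₁ σ₂ : K →+* ℝ} {c : K ≃+* K} (hRQ : RQ σ₁ σ₂ c)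
    {e : 𝓞 K} {n : ℕ} (hL : Lev σ₁ σ₂ (e : K) n) (hn : n ≠ 0) {F : Submodule ℤ K → K → ℂ}
    (hF : Sys σ₁ σ₂ (e : K) F) {p p' : Ideal (𝓞 K)} (hm : p.IsMaximal) (hm' : p'.IsMaximal)
    (hne : p ≠ p') {q : ℕ} (hq : q.Prime) (hq2 : q ≠ 2) (hN : absNorm p = q)
    (hN' : absNorm p' = q) (hpp : p * p' = span {(q : 𝓞 K)}) {Γ : Type}
    [LinearOrderedCommGroupWithZero Γ] (v : Valuation ℂ Γ) (hv : v q < 1)
    (hU : ∀ Λ x, SL (e : K) Λ → Tor (e : K) Λ x → v (F Λ x) = 1)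
    {a : FractionalIdeal (𝓞 K)⁰ K} (ha : a ≠ 0) (hSL : SL (e : K) (lat a)) {k : ℕ} {c₀ : 𝓞 K}
    (he : e - 1 = (q : 𝓞 K) ^ (k + 1) * c₀) (hc : c₀ ∉ p) (hu : IsUnit e) :
    (∃ t, p ≤ ann a t ∧ t ∉ lat a ∧
      ∀ x, Tor (e : K) (lat a) x → v (F (lat a) (x + t) - F (lat a) x) < 1) ∨
    ∃ t, p' ≤ ann a t ∧ t ∉ lat a ∧
      ∀ x, Tor (e : K) (lat a) x → v (F (lat a) (x + t) - F (lat a) x) < 1 := by
  have hp : p ≠ ⊥ := by
    rintro rfl
    exact hq.ne_zero (by simpa using hN.symm)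
  have hp' : p' ≠ ⊥ := by
    rintro rfl
    exact hq.ne_zero (by simpa using hN'.symm)
  have hco : p ⊔ p' = ⊤ := hm.coprime_of_ne hm' hne
  have hqp : (q : 𝓞 K) ∈ p := hN ▸ Ideal.absNorm_mem p
  have hqp' : (q : 𝓞 K) ∈ p' := hN' ▸ Ideal.absNorm_mem p'
  have hq0 : (q : 𝓞 K) ≠ 0 := by exact_mod_cast hq.ne_zero
  have hqK : (q : K) ≠ 0 := by exact_mod_cast hq.ne_zero
  have heK : (e : K) - 1 = (q : K) ^ (k + 1) * c₀ := by
    exact_mod_cast congrArg (fun z : 𝓞 K => (z : K)) he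
  obtain ⟨s₁, hs₁, ht₁, ht₁'⟩ := line ha hp hm.ne_top hco hpp k
  obtain ⟨s₂, hs₂, ht₂, ht₂'⟩ := line ha hp' hm'.ne_top (sup_comm p p' ▸ hco)
    (mul_comm p p' ▸ hpp) k
  set t₁ := (q : K) ^ k * s₁ with hdt₁
  set t₂ := (q : K) ^ k * s₂ with hdt₂
  obtain ⟨w, hw, w', hw', hww⟩ := Submodule.mem_sup.1 ((eq_top_iff_one _).1 hco)
  have hwK : (w : K) + w' = 1 := by exact_mod_cast congrArg (fun z : 𝓞 K => (z : K)) hww
  have hB := h K σ₁ σ₂ c hRQ e n hL F hF Γ v q hq hq2 hv hU (lat a) k t₁ t₂ hSL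
    (fun y hy => ⟨c₀ * y, mul_mem _ hy, by rw [heK]; ring⟩) ?_ (ht₁ hqp) (ht₂ hqp') ?_
    (hh_line ha hp hm (hN ▸ hq) ht₁ ht₁' heK) (hh_line ha hp' hm' (hN' ▸ hq) ht₂ ht₂' heK)
  rotate_left
  · intro hh
    obtain ⟨z, hz, hz'⟩ := hh _ (ht₁ hqp)
    have h1 : (c₀ : K) * t₁ = z := by
      refine mul_left_cancel₀ (pow_ne_zero (k + 2) hqK) ?_
      rw [← hz', heK]; push_cast; ring
    have h2 : p ⊔ span {c₀} ≤ ann a t₁ :=
      sup_le ht₁ (by rw [span_singleton_le_iff_mem, mem_ann, h1]; exact hz)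
    have h4 : p ⊔ span {c₀} = ⊤ := hm.out.2 _ (lt_of_le_of_ne le_sup_left fun h5 =>
      hc (h5 ▸ Ideal.mem_sup_right (mem_span_singleton_self c₀)))
    have h5 : (1 : 𝓞 K) ∈ ann a t₁ := h2 (h4 ▸ Submodule.mem_top)
    exact ht₁' (by simpa [mem_ann] using h5)
  · intro y hy
    have hy' : p * p' ≤ ann a y := by
      rw [hpp, span_singleton_le_iff_mem, mem_ann]; exact_mod_cast hy
    obtain ⟨i, hi⟩ := gen_nat ha hp hm (hN ▸ hq) ht₁ ht₁' (w := w' * y) fun z hz => by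
      have := hy' (Ideal.mul_mem_mul hz hw')
      rw [mem_ann] at this ⊢
      convert this using 1
      push_cast; ring
    obtain ⟨j, hj⟩ := gen_nat ha hp' hm' (hN' ▸ hq) ht₂ ht₂' (w := w * y) fun z hz => by
      have := hy' (Ideal.mul_mem_mul hw hz)
      rw [mem_ann] at this ⊢
      convert this using 1
      push_cast; ring
    refine ⟨i, j, ?_⟩
    convert (lat a).add_mem hi hj using 1
    push_cast
    linear_combination (-y) * hwK
  obtain ⟨G, _, _, _, qq, f, b, hadd, hzero, hsurj, hf, hP⟩ := hF.pent _ hSL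
  have hcard : Fintype.card G = n := by
    have h1 := hP.card
    have h2 : ((σ₁ e : ℂ) - 1) ^ 2 = n * (σ₁ e : ℂ) := by
      have := congrArg σ₁ hL.quad
      simp only [map_pow, map_sub, map_one, map_mul, map_natCast] at this
      exact_mod_cast this
    rw [h2] at h1
    exact_mod_cast (mul_right_cancel₀ hP.e_ne h1).symm
  obtain ⟨j, n', hn', hj⟩ := Nat.exists_eq_pow_mul_and_not_dvd hn q hq.ne_one
  have hquad : (q : 𝓞 K) ^ (2 * (k + 1)) * c₀ ^ 2 = (q : 𝓞 K) ^ j * (n' * e) := by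
    have h1 : (e - 1) ^ 2 = n * e := by
      apply RingOfIntegers.ext
      push_cast
      exact hL.quad
    rw [he, hj] at h1
    push_cast at h1
    linear_combination h1
  have hj2 : j = 2 * (k + 1) := by
    rcases lt_trichotomy j (2 * (k + 1)) with h1 | h1 | h1
    · obtain ⟨d, hd⟩ := Nat.exists_eq_add_of_lt h1
      have h2 : (n' : 𝓞 K) * e = q * (q ^ d * c₀ ^ 2) := by
        refine mul_left_cancel₀ (pow_ne_zero j hq0) ?_
        rw [← hquad, hd]; ring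
      have h4 : (n' : 𝓞 K) * e ∈ p := h2 ▸ p.mul_mem_right _ hqp
      rcases hm.isPrime.mem_or_mem h4 with h5 | h5
      · exact absurd (hN ▸ dvd_of_mem hm (hN ▸ hq) h5) hn'
      · exact absurd (p.eq_top_of_isUnit_mem h5 hu) hm.ne_top
    · exact h1
    · obtain ⟨d, hd⟩ := Nat.exists_eq_add_of_lt h1
      have h2 : c₀ ^ 2 = q * (q ^ d * (n' * e)) := by
        refine mul_left_cancel₀ (pow_ne_zero (2 * (k + 1)) hq0) ?_
        rw [hquad, hd]; ring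
      have h4 : c₀ ^ 2 ∈ p := h2 ▸ p.mul_mem_right _ hqp
      exact absurd (hm.isPrime.mem_of_pow_mem 2 h4) hc
  have tadd : ∀ x y, Tor (e : K) (lat a) x → Tor (e : K) (lat a) y →
      Tor (e : K) (lat a) (x + y) := fun x y hx hy => by
    rw [Tor, mul_add]; exact (lat a).add_mem hx hy
  have tnat : ∀ (m : ℕ) x, Tor (e : K) (lat a) x → Tor (e : K) (lat a) (m * x) := fun m x hx => by
    rw [Tor, mul_left_comm]
    exact_mod_cast mul_mem (m : 𝓞 K) hx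
  have qnat : ∀ (m : ℕ) x, Tor (e : K) (lat a) x → qq (m * x) = m • qq x := by
    intro m x hx
    induction m with
    | zero => simpa using (hzero 0 (by simp [Tor])).2 (lat a).zero_mem
    | succ m ih => rw [Nat.cast_succ, add_mul, one_mul, hadd _ _ (tnat m x hx) hx, ih, succ_nsmul]
  have tors : ∀ s : K, (q : K) ^ (k + 1) * s ∈ lat a → Tor (e : K) (lat a) s := fun s hs => by
    rw [Tor, heK, mul_right_comm, mul_comm]; exact mul_mem _ hs
  have qpow : ∀ (m : ℕ) s, Tor (e : K) (lat a) s → q ^ m • qq s = qq ((q : K) ^ m * s) :=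
    fun m s hs => by rw [← qnat _ _ hs, Nat.cast_pow]
  have tpow : ∀ (m : ℕ) s, Tor (e : K) (lat a) s → Tor (e : K) (lat a) ((q : K) ^ m * s) :=
    fun m s hs => by rw [← Nat.cast_pow]; exact tnat _ _ hs
  have hord : ∀ s : K, (q : K) ^ (k + 1) * s ∈ lat a → (q : K) ^ k * s ∉ lat a →
      addOrderOf (qq s) = q ^ (k + 1) := by
    intro s h1 h2
    have : Fact q.Prime := ⟨hq⟩
    refine addOrderOf_eq_prime_pow ?_ ?_
    · rw [qpow _ _ (tors s h1), hzero _ (tpow _ _ (tors s h1))]; exact h2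
    · rw [qpow _ _ (tors s h1), hzero _ (tpow _ _ (tors s h1))]; exact h1
  have T₁ : Tor (e : K) (lat a) t₁ := tpow _ _ (tors _ hs₁)
  have T₂ : Tor (e : K) (lat a) t₂ := tpow _ _ (tors _ hs₂)
  have hD := h3 G f b _ hP Γ v q k n' hq hv (by rw [hcard, hj, hj2]) hn' (qq s₁) (qq s₂)
    (hord _ hs₁ ht₁') (hord _ hs₂ ht₂') ?_ ?_ ?_ ?_
  · rw [qpow _ _ (tors _ hs₁), qpow _ _ (tors _ hs₂)] at hD
    rcases hD with hD | hD
    · refine Or.inl ⟨t₁, ht₁, ht₁', fun x hx => ?_⟩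
      rw [← hf _ hx, ← hf _ (tadd _ _ hx T₁), hadd _ _ hx T₁]
      exact hD _
    · refine Or.inr ⟨t₂, ht₂, ht₂', fun x hx => ?_⟩
      rw [← hf _ hx, ← hf _ (tadd _ _ hx T₂), hadd _ _ hx T₂]
      exact hD _
  · rw [qpow _ _ (tors _ hs₁), qpow _ _ (tors _ hs₂), ← hadd _ _ T₁ T₂, Ne,
      hzero _ (tadd _ _ T₁ T₂)]
    intro h1
    refine ht₁' ?_
    convert (lat a).add_mem (ht₁ hw) ((lat a).sub_mem (mul_mem w' h1) (ht₂ hw')) using 1
    linear_combination (-t₁) * hwK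
  · obtain ⟨m, hm0, h1, -⟩ := hF.root _ hSL
    have h2 := congrArg v h1
    rw [map_pow, map_pow, hU _ _ hSL (by simp [Tor]), one_pow] at h2
    exact (pow_eq_one_iff_of_nonneg zero_le hm0.ne').1 h2.symm
  · intro g
    obtain ⟨x, hx, rfl⟩ := hsurj g
    rw [hf _ hx]
    exact hU _ _ hSL hx
  · intro g i j
    obtain ⟨x, hx, rfl⟩ := hsurj g
    have A₁ := tnat i _ T₁
    have A₂ := tnat j _ T₂
    rw [qpow _ _ (tors _ hs₁), qpow _ _ (tors _ hs₂), ← qnat _ _ T₁, ← qnat _ _ T₂,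
      ← hadd _ _ hx A₁, ← hadd _ _ hx A₂, ← hadd _ _ (tadd _ _ hx A₁) A₂, hf _ hx,
      hf _ (tadd _ _ hx A₁), hf _ (tadd _ _ hx A₂), hf _ (tadd _ _ (tadd _ _ hx A₁) A₂)]
    exact hB x i j hx

end B2b

open B2b in
theorem blockB2b (h : StmtB2a) (h3 : StmtP3) (hS : StmtSys) (hPsi : StmtPsi) (hAU : StmtAU)
    (hR : StmtR1) : StmtCong := by
  intro K _ _ σ₁ σ₂ c hRQ ε n hL
  have hb := hR.2.1 K σ₁ σ₂ c hRQ
  obtain ⟨N, hN⟩ := hb.split
  refine ⟨max N 11, fun p hp Γ _ v hv a ha => ?_⟩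
  obtain ⟨hm, hq, hlt⟩ := hp
  obtain ⟨hne, ⟨hm', hq', -⟩, hnorm, hpp⟩ := hN p ⟨hm, hq, lt_of_le_of_lt (le_max_left _ _) hlt⟩
  have h11 : 11 ≤ absNorm p := (lt_of_le_of_lt (le_max_right _ _) hlt).le
  have hp : p ≠ ⊥ := by
    rintro rfl
    simp at h11
  let cc : 𝓞 K →+* 𝓞 K := RingOfIntegers.mapRingEquiv c
  have hcc : ∀ y ∈ p, cc y ∈ cI c p := fun y hy => Ideal.mem_map_of_mem _ hy
  have hcc' : ∀ y ∈ cI c p, cc y ∈ p := fun y hy => by
    rw [← (hb.cI_cI p).1]; exact Ideal.mem_map_of_mem _ hy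
  have hε : ε * cc ε = 1 := by
    apply RingOfIntegers.ext
    apply σ₁.injective
    have h1 : ((cc ε : 𝓞 K) : K) = c ε := rfl
    push_cast
    rw [map_mul, map_one, ← hL.norm, ← hRQ.cnj₁]
    rfl
  have hpp' : ∀ i : ℕ, ε ^ i - 1 ∈ cI c p ↔ ε ^ i - 1 ∈ p := by
    intro i
    constructor
    · intro h1
      have := hcc' _ h1
      rw [map_sub, map_pow, map_one] at this
      exact (swap hε _ i).1 this
    · intro h1
      have := hcc _ h1
      rw [map_sub, map_pow, map_one] at this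
      exact (swap hε _ i).1 this
  have hu : IsUnit ε := (hb.norm ε n hL).2.2.1
  obtain ⟨J, hJ0, hJ⟩ : ∃ J : ℕ, 0 < J ∧ ∀ i : ℕ, ε ^ i - 1 ∈ p ↔ J ∣ i := by
    have h1 : ∀ i : ℕ, ε ^ i - 1 ∈ p ↔ orderOf (Ideal.Quotient.mk p ε) ∣ i := fun i => by
      rw [orderOf_dvd_iff_pow_eq_one, ← Ideal.Quotient.eq, map_pow, map_one]
    obtain ⟨J₀, h2, h4⟩ := hb.cong ε p hu hp
    exact ⟨_, Nat.pos_of_dvd_of_pos ((h1 _).1 h4) h2, h1⟩
  obtain ⟨n', hL'⟩ := hb.pow ε n J hL hJ0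
  have hL'' : Lev σ₁ σ₂ ((ε ^ J : 𝓞 K) : K) n' := by simpa using hL'
  have hboth : ∀ y ∈ p, y ∈ cI c p → (absNorm p : 𝓞 K) ∣ y := fun y h1 h2 => by
    rw [← mem_span_singleton, ← hpp, Ideal.mul_eq_inf_of_isCoprime
      (Ideal.isCoprime_iff_sup_eq.2 (hm.coprime_of_ne hm' hne.symm))]
    exact ⟨h1, h2⟩
  have hq0 : (absNorm p : 𝓞 K) ≠ 0 := by exact_mod_cast hq.ne_zero
  have he0 : ε ^ J - 1 ≠ 0 := by
    intro h1
    have h2 := hL''.one_lt
    rw [sub_eq_zero.1 h1] at h2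
    simp at h2
  obtain ⟨k, c₀, hc₀, he⟩ := WfDvdMonoid.max_power_factor' he0 (x := (absNorm p : 𝓞 K))
    fun h1 => hm.ne_top (p.eq_top_of_isUnit_mem (Ideal.absNorm_mem p) h1)
  have hJp := (hJ J).2 dvd_rfl
  obtain ⟨k, rfl⟩ : ∃ k', k = k' + 1 := by
    refine Nat.exists_eq_succ_of_ne_zero ?_
    rintro rfl
    refine hc₀ ?_
    have := hboth _ hJp ((hpp' J).2 hJp)
    rwa [he, pow_zero, one_mul] at this
  have hc : c₀ ∉ p := by
    intro h1
    have h2 : ε ^ J * cc ε ^ J = 1 := by rw [← mul_pow, hε, one_pow]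
    have h4 := congrArg cc he
    rw [map_sub, map_pow, map_one, map_mul, map_pow, map_natCast] at h4
    have h5 : c₀ = -ε ^ J * cc c₀ := by
      refine mul_left_cancel₀ (pow_ne_zero (k + 1) hq0) ?_
      linear_combination -he - ε ^ J * h4 + h2
    exact hc₀ (hboth _ h1 (h5 ▸ Ideal.mul_mem_left _ _ (hcc _ h1)))
  have hD := dich h h3 hRQ hL'' (hb.norm _ _ hL'').2.1.ne' (hS K σ₁ σ₂ c hRQ _ n' hL'') hm hm'
    hne.symm hq (by omega) rfl hnorm hpp v hv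
    (fun Λ x h1 h2 => (hAU K σ₁ σ₂ c hRQ _ n' hL'' Λ x h1 h2).2 Γ v _ hq h11 hv) ha
    (hb.sl _ a ha) he hc (hu.pow J)
  have hcast : ((ε ^ J : 𝓞 K) : K) = (ε : K) ^ J := by simp
  rw [hcast] at hD
  rcases hD with ⟨t, h1, h2, h4⟩ | ⟨t, h1, h2, h4⟩
  · exact Or.inl (final hPsi hAU hRQ hb hL hm hq h11 v hv ha hJ0 hJ h1 h2 h4)
  · refine Or.inr fun x hx => ?_
    have := final hPsi hAU hRQ hb hL hm' hq' (hnorm ▸ h11) v (hnorm ▸ hv) ha hJ0
      (fun i => (hpp' i).trans (hJ i)) h1 h2 h4 x hx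
    rwa [hnorm] at this

end Pool.Agent.Lib.Stark
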