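import Pool.Agent.Lib.stark.Defs2

open Complex NumberField Ideal
open scoped nonZeroDivisors

namespace Pool.Agent.Lib.Stark

namespace BU

variable {K : Type} [Field K] [NumberField K]

omit [NumberField K] in
lemma mem_lat {a : FractionalIdeal (𝓞 K)⁰ K} {y : K} : y ∈ lat a ↔ y ∈ a := Iff.rfl

lemma mem_dv {a : FractionalIdeal (𝓞 K)⁰ K} {b : Ideal (𝓞 K)} (hb : b ≠ ⊥) {y : K} :
    y ∈ dv a b ↔ ∀ β ∈ b, y * ((β : 𝓞 K) : K) ∈ a := by
  unfold dv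
  rw [← div_eq_mul_inv,
    FractionalIdeal.mem_div_iff_of_ne_zero (FractionalIdeal.coeIdeal_ne_zero.2 hb)]
  constructor
  · intro h β hβ
    exact h _ (FractionalIdeal.mem_coeIdeal_of_mem _ hβ)
  · intro h z hz
    obtain ⟨β, hβ, rfl⟩ := (FractionalIdeal.mem_coeIdeal _).1 hz
    exact h β hβ

lemma dv_ne {a : FractionalIdeal (𝓞 K)⁰ K} {b : Ideal (𝓞 K)} (ha : a ≠ 0) (hb : b ≠ ⊥) :
    dv a b ≠ 0 :=
  mul_ne_zero ha (inv_ne_zero (FractionalIdeal.coeIdeal_ne_zero.2 hb))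

omit [NumberField K] in
lemma mul_mem {a : FractionalIdeal (𝓞 K)⁰ K} {y : K} (hy : y ∈ a) (β : 𝓞 K) :
    y * (β : K) ∈ a := by
  have := (a : Submodule (𝓞 K) K).smul_mem β hy
  rw [Algebra.smul_def, mul_comm] at this
  exact this

lemma le_dv {a : FractionalIdeal (𝓞 K)⁰ K} {b : Ideal (𝓞 K)} (hb : b ≠ ⊥) {y : K}
    (hy : y ∈ a) : y ∈ dv a b :=
  (mem_dv hb).2 fun β _ => mul_mem hy β

omit [NumberField K] in
lemma add_mem' {a : FractionalIdeal (𝓞 K)⁰ K} {y z : K} (hy : y ∈ a) (hz : z ∈ a) :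
    y + z ∈ a := (lat a).add_mem hy hz

omit [NumberField K] in
lemma sub_mem' {a : FractionalIdeal (𝓞 K)⁰ K} {y z : K} (hy : y ∈ a) (hz : z ∈ a) :
    y - z ∈ a := (lat a).sub_mem hy hz

lemma prod_cong {Γ : Type} [LinearOrderedCommGroupWithZero Γ] (v : Valuation ℂ Γ) {ι : Type}
    (R : Finset ι) (A B : ι → ℂ) (hA : ∀ t ∈ R, v (A t) ≤ 1) (hB : ∀ t ∈ R, v (B t) ≤ 1)
    (h : ∀ t ∈ R, v (A t - B t) < 1) : v (∏ t ∈ R, A t - ∏ t ∈ R, B t) < 1 := by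
  classical
  induction R using Finset.induction_on with
  | empty => simp
  | insert s R hs ih =>
    rw [Finset.prod_insert hs, Finset.prod_insert hs]
    have e : A s * ∏ t ∈ R, A t - B s * ∏ t ∈ R, B t =
        A s * (∏ t ∈ R, A t - ∏ t ∈ R, B t) + (A s - B s) * ∏ t ∈ R, B t := by ring
    rw [e]
    have h1 := ih (fun t ht => hA t (Finset.mem_insert_of_mem ht))
      (fun t ht => hB t (Finset.mem_insert_of_mem ht))
      (fun t ht => h t (Finset.mem_insert_of_mem ht))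
    have h2 : v (∏ t ∈ R, B t) ≤ 1 := by
      rw [map_prod]
      exact Finset.prod_le_one' fun t ht => hB t (Finset.mem_insert_of_mem ht)
    refine v.map_add_lt ?_ ?_
    · rw [map_mul]
      exact (mul_le_of_le_one_left' (hA s (Finset.mem_insert_self _ _))).trans_lt h1
    · rw [map_mul]
      exact (mul_le_of_le_one_right' h2).trans_lt (h s (Finset.mem_insert_self _ _))

omit [NumberField K] in
lemma inv_pow_sub {ε : 𝓞 K} (hu : IsUnit ε) {a : FractionalIdeal (𝓞 K)⁰ K} {x : K}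
    (hx : Tor (ε : K) (lat a) x) (i : ℕ) : (ε : K)⁻¹ ^ i * x - x ∈ a := by
  obtain ⟨η, hη⟩ := hu.exists_right_inv
  have h1 : (ε : K) * (η : K) = 1 := by
    have := congrArg (fun z : 𝓞 K => (z : K)) hη
    simpa using this
  have h2 : (ε : K)⁻¹ = η := (eq_inv_of_mul_eq_one_right h1).symm
  rw [h2]
  induction i with
  | zero =>
    rw [pow_zero, one_mul, sub_self]
    exact (lat a).zero_mem
  | succ i ih =>
    have e : (η : K) ^ (i + 1) * x - x =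
        ((η : K) ^ i * x - x) * η - (((ε : K) - 1) * x) * η := by
      linear_combination x * h1
    rw [e]
    exact sub_mem' (mul_mem ih η) (mul_mem hx η)

lemma reps_dv {b P : Ideal (𝓞 K)} (hb : b ≠ ⊥) (hP : P ≠ ⊥) {β π : 𝓞 K} (hβ : β ∈ b)
    (hπ : π ∈ P) (h1 : β + π = 1) {R : Finset K} (hR : Reps (lat 1) (lat (dv 1 b)) R) :
    Reps (lat (dv 1 P)) (lat (dv (dv 1 b) P)) R := by
  have h2 : (β : K) + π = 1 := by
    have := congrArg (fun z : 𝓞 K => (z : K)) h1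
    simpa using this
  refine ⟨fun t ht => le_dv hP (hR.1 t ht), fun y hy => ?_⟩
  have hy' := (mem_dv hP).1 hy
  obtain ⟨t, ⟨ht, ht'⟩, -⟩ := hR.2 (y * π) (hy' π hπ)
  have hyβ : y * β ∈ dv 1 P := by
    refine (mem_dv hP).2 fun ρ hρ => ?_
    have := (mem_dv hb).1 (hy' ρ hρ) β hβ
    rwa [mul_right_comm] at this
  have hyt : y - t ∈ dv 1 P := by
    have e : y - t = y * β + (y * π - t) := by linear_combination (-y) * h2
    rw [e]
    exact add_mem' hyβ (le_dv hP ht')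
  refine ⟨t, ⟨ht, hyt⟩, fun s hs => ?_⟩
  have h3 : t - s ∈ dv 1 P := by
    have e : t - s = (y - s) - (y - t) := by ring
    rw [e]
    exact sub_mem' hs.2 hyt
  have h4 : t - s ∈ dv 1 b := sub_mem' (hR.1 t ht) (hR.1 s hs.1)
  have h5 : t - s ∈ (1 : FractionalIdeal (𝓞 K)⁰ K) := by
    have e : t - s = (t - s) * β + (t - s) * π := by linear_combination (s - t) * h2
    rw [e]
    exact add_mem' ((mem_dv hb).1 h4 β hβ) ((mem_dv hP).1 h3 π hπ)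
  exact (hR.2 t (hR.1 t ht)).unique ⟨hs.1, h5⟩ ⟨ht, by simp⟩

end BU

open BU in
theorem blockBU (h : StmtCong) (hS : StmtSys) (hPsi : StmtPsi) (hAU : StmtAU) (hR : StmtR1) :
    StmtUni := by
  intro K _ _ σ₁ σ₂ c hRQ ε n hL
  have hb := hR.2.1 K σ₁ σ₂ c hRQ
  obtain ⟨S, hS1, hS2⟩ := hb.narrow ⊤ (by simp)
  set N₁ : ℕ := ∏ b ∈ S, absNorm b with hN₁
  have hN₁0 : N₁ ≠ 0 :=
    Finset.prod_ne_zero_iff.2 fun b hbS => absNorm_eq_zero_iff.not.2 (hS1 b hbS).2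
  have hN₁b : ∀ b ∈ S, (N₁ : 𝓞 K) ∈ b := by
    intro b hbS
    obtain ⟨k, hk⟩ := Finset.dvd_prod_of_mem (fun b : Ideal (𝓞 K) => absNorm b) hbS
    rw [hN₁, hk, Nat.cast_mul]
    exact b.mul_mem_right _ (absNorm_mem b)
  obtain ⟨hn, hn0, hu, -⟩ := hb.norm ε n hL
  have hε1 : ε - 1 ≠ 0 := by
    intro h0
    rw [h0] at hn
    simp at hn
    omega
  obtain ⟨r, hr, hrm⟩ := hb.cong ε (span {(ε - 1) * N₁}) hu
    (span_singleton_eq_bot.not.2 (mul_ne_zero hε1 (Nat.cast_ne_zero.2 hN₁0)))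
  obtain ⟨w, hw⟩ := mem_span_singleton'.1 hrm
  have hw' : (ε : K) ^ r - 1 = ((ε : K) - 1) * ((N₁ : 𝓞 K) : K) * w := by
    have := congrArg (fun z : 𝓞 K => (z : K)) hw
    simp only [map_mul, map_sub, map_pow, map_one] at this
    rw [← this]
    ring
  obtain ⟨n', hL'⟩ := hb.pow (ε : K) n r hL hr
  have hcoe : ((ε ^ r : 𝓞 K) : K) = (ε : K) ^ r := by simp
  obtain ⟨N₀, hN₀⟩ := h K σ₁ σ₂ c hRQ (ε ^ r) n' (by rw [hcoe]; exact hL')
  obtain ⟨N₂, hN₂⟩ := hb.split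
  have sys := hS K σ₁ σ₂ c hRQ _ n hL
  have sys' := hS K σ₁ σ₂ c hRQ _ n' hL'
  have hsl' : ∀ a : FractionalIdeal (𝓞 K)⁰ K, a ≠ 0 → SL ((ε : K) ^ r) (lat a) := by
    intro a ha
    rw [← hcoe]
    exact hb.sl _ a ha
  have hlev : ∀ (a : FractionalIdeal (𝓞 K)⁰ K) (x : K), a ≠ 0 → Tor (ε : K) (lat a) x →
      FF σ₁ ε a x ^ r = Psi σ₁ ((ε : K) ^ r) (lat a) x := by
    intro a x ha hx
    rw [(hPsi K σ₁ σ₂ c hRQ _ n hL).2.2.2.2 _ x r (hb.sl ε a ha) hr]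
    rw [Finset.prod_congr rfl (g := fun _ => FF σ₁ ε a x), Finset.prod_const, Finset.card_range]
    intro i _
    have := sys.per (lat a) x _ (inv_pow_sub hu hx i)
    rw [add_sub_cancel] at this
    exact this
  refine ⟨r, N₀ + N₁ + N₂ + 11, hr, fun p hp Γ _ v hv => ?_⟩
  have hlt := hp.2.2
  have key : ∀ P : Ideal (𝓞 K), absNorm P = absNorm p →
      (∀ x, Tor ((ε ^ r : 𝓞 K) : K) (lat 1) x →
        v (FF σ₁ (ε ^ r) (dv 1 P) x - FF σ₁ (ε ^ r) 1 x ^ absNorm p) < 1) →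
      ∀ (a : FractionalIdeal (𝓞 K)⁰ K) x, a ≠ 0 → Tor (ε : K) (lat a) x →
        v (FF σ₁ ε (dv a P) x ^ r - (FF σ₁ ε a x ^ r) ^ absNorm p) < 1 := by
    intro P hPn hP a x ha hx
    have hP0 : P ≠ ⊥ := by
      intro h0
      rw [← absNorm_eq_zero_iff, hPn] at h0
      omega
    obtain ⟨b, hbS, α, hα1, hα2, hα⟩ := hS2 a ha
    have hb0 : b ≠ ⊥ := (hS1 b hbS).2
    have hα0 : α ≠ 0 := by
      rintro rfl
      simp at hα1
    obtain ⟨y, rfl⟩ : ∃ y, x = α * y := ⟨α⁻¹ * x, by field_simp⟩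
    have hB0 : dv (1 : FractionalIdeal (𝓞 K)⁰ K) b ≠ 0 := dv_ne one_ne_zero hb0
    have hy : Tor (ε : K) (lat (dv 1 b)) y := by
      refine (hα _).1 ?_
      rw [mul_left_comm]
      exact hx
    have hy' : Tor (ε : K) (lat (dv (dv 1 b) P)) y := le_dv hP0 hy
    have e1 : FF σ₁ ε a (α * y) = FF σ₁ ε (dv 1 b) y :=
      sys.scale _ _ α y (hb.sl ε _ hB0) hy hα1 hα2 hα
    have e2 : FF σ₁ ε (dv a P) (α * y) = FF σ₁ ε (dv (dv 1 b) P) y := by
      refine sys.scale _ _ α y (hb.sl ε _ (dv_ne hB0 hP0)) hy' hα1 hα2 fun z => ?_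
      rw [mem_lat, mem_lat, mem_dv hP0, mem_dv hP0]
      simp only [mul_assoc, hα]
    rw [e1, e2, hlev _ y hB0 hy, hlev _ y (dv_ne hB0 hP0) hy']
    obtain ⟨R, hRe⟩ := hb.reps (lat 1) (lat (dv 1 b)) (hsl' 1 one_ne_zero).1 (hsl' _ hB0).1
    have hcop : IsCoprime (N₁ : ℤ) (absNorm p : ℤ) := by
      rw [Nat.isCoprime_iff_coprime]
      exact ((Nat.Prime.coprime_iff_not_dvd hp.2.1).2
        (Nat.not_dvd_of_pos_of_lt (Nat.pos_of_ne_zero hN₁0) (by omega))).symm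
    obtain ⟨u₁, u₂, hu₁₂⟩ := hcop
    have hRe' := reps_dv hb0 hP0 (β := (u₁ : 𝓞 K) * N₁) (π := (u₂ : 𝓞 K) * absNorm p)
      (b.mul_mem_left _ (hN₁b b hbS)) (P.mul_mem_left _ (hPn ▸ absNorm_mem P))
      (by exact_mod_cast congrArg (fun z : ℤ => (z : 𝓞 K)) hu₁₂) hRe
    have hP1 : dv (1 : FractionalIdeal (𝓞 K)⁰ K) P ≠ 0 := dv_ne one_ne_zero hP0
    rw [sys'.dist _ _ R y (hsl' 1 one_ne_zero).1 (hsl' _ hB0).1 (fun z hz => le_dv hb0 hz) hRe,
      sys'.dist _ _ R y (hsl' _ hP1).1 (hsl' _ (dv_ne hB0 hP0)).1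
        (fun z hz => (mem_dv hP0).2 fun ρ hρ => le_dv hb0 ((mem_dv hP0).1 hz ρ hρ)) hRe',
      ← Finset.prod_pow]
    have htor : ∀ t ∈ R, Tor ((ε : K) ^ r) (lat 1) (y + t) := by
      intro t ht
      have h1 : ((ε : K) - 1) * (y + t) ∈ dv 1 b := by
        have e : ((ε : K) - 1) * (y + t) = ((ε : K) - 1) * y + t * ((ε - 1 : 𝓞 K) : K) := by
          push_cast
          ring
        rw [e]
        exact add_mem' hy (mul_mem (hRe.1 t ht) _)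
      have h2 := mul_mem ((mem_dv hb0).1 h1 _ (hN₁b b hbS)) w
      unfold Tor
      rw [hw', mul_right_comm, mul_right_comm ((ε : K) - 1)]
      exact h2
    have hAU' := hAU K σ₁ σ₂ c hRQ _ n' hL'
    refine prod_cong v R _ _ (fun t ht => ?_) (fun t ht => ?_) fun t ht => ?_
    · exact ((hAU' _ _ (hsl' _ hP1) (le_dv hP0 (htor t ht))).2 Γ v _ hp.2.1 (by omega) hv).le
    · rw [map_pow, (hAU' _ _ (hsl' 1 one_ne_zero) (htor t ht)).2 Γ v _ hp.2.1 (by omega) hv,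
        one_pow]
    · have := hP (y + t) (by rw [hcoe]; exact htor t ht)
      unfold FF at this
      rwa [hcoe] at this
  rcases hN₀ p ⟨hp.1, hp.2.1, by omega⟩ Γ v hv 1 one_ne_zero with h1 | h1
  · exact Or.inl (key p rfl h1)
  · exact Or.inr (key _ (hN₂ p ⟨hp.1, hp.2.1, by omega⟩).2.2.1 h1)

end Pool.Agent.Lib.Stark
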