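import Pool.Agent.Lib.stark.C1d

open Complex NumberField Finset
open scoped nonZeroDivisors ComplexConjugate Classical

namespace Pool.Agent.Lib.Stark
namespace C1

set_option linter.unusedSectionVars false

variable {K : Type} [Field K] [NumberField K] [Algebra K ℝ]
variable {σ₂ : K →+* ℝ} {c : K ≃+* K} {u w : 𝓞 K} {n : ℕ} {a : FractionalIdeal (𝓞 K)⁰ K}

lemma cop {q : Ideal (𝓞 K)} (hq : q.IsMaximal) (hodd : ∀ j : ℕ, Odd j → u ^ j - 1 ∉ q) :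
    q ⊔ Ideal.span {u - 1} = ⊤ := by
  have := hodd 1 odd_one
  rw [pow_one] at this
  obtain ⟨y, i, hi, h⟩ := hq.exists_inv this
  have h2 := Submodule.add_mem_sup hi
    (Ideal.mem_span_singleton'.2 ⟨y, rfl⟩ : y * (u - 1) ∈ Ideal.span {u - 1})
  rwa [add_comm, h, ← Ideal.eq_top_iff_one] at h2

lemma kill {x : K} (hx : Fam u a x) {c : 𝓞 K} (hc : c ∈ Ideal.span {u - 1}) : c • mq a x = 0 := by
  obtain ⟨y, rfl⟩ := Ideal.mem_span_singleton'.1 hc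
  rw [← mq_mul, mq_eq_zero]
  refine mem_of (c := y) hx.2.1 ?_
  push_cast; ring

lemma fam {x : K} (hx : Fam u a x) {q : Ideal (𝓞 K)} (hq : q.IsMaximal)
    (hodd : ∀ j : ℕ, Odd j → u ^ j - 1 ∉ q) : Fam u (dv a q) x := by
  refine ⟨dv_ne hx.1 hq, le_dv hq hx.2.1, fun h => hx.2.2 ?_⟩
  have h1 : (1 : 𝓞 K) ∈ q ⊔ Ideal.span {u - 1} := by rw [cop hq hodd]; trivial
  obtain ⟨i, hi, j, hj, hij⟩ := Submodule.mem_sup.1 h1
  rw [← mq_eq_zero, ← one_smul (𝓞 K) (mq a x), ← hij, add_smul, kill hx hj, add_zero, ← mq_mul,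
    mq_eq_zero]
  exact mul_mem_of_dv hq hi h

lemma step (hPsi : StmtPsi) (hR : StmtR1) (h : St σ₂ c u w n) {k : ℕ} {x : K} (hx : Fam u a x)
    (hc : Ctx w (Pb u a a) k n (mq a x)) {Ω : IntermediateField K ℂ} {J₀ : ℕ} (hJ : 1 ≤ J₀)
    (hΩ : ∀ J, 0 < J → J ≤ J₀ → H2Prop σ₂ ((u ^ 2) ^ J) Ω ∧
      ∀ (a : FractionalIdeal (𝓞 K)⁰ K) x, a ≠ 0 → Tor (((u ^ 2) ^ J : 𝓞 K) : K) (lat a) x →
        FF (algebraMap K ℝ) ((u ^ 2) ^ J) a x ∈ Ω)
    {q : Ideal (𝓞 K)} {Q : Ideal (𝓞 Ω)} {σ : Ω ≃ₐ[K] Ω} (hq : q.IsMaximal)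
    (hodd : ∀ j : ℕ, Odd j → u ^ j - 1 ∉ q) (hσ : Frob q Q σ) {p : ℕ} {L H : Finset (QA a)}
    (hH : Half w n p L H) (hd : ∀ s, Pb u a (dv a q) s = ∏ t ∈ L, Pb u a a (s + t)) {z : Ω}
    (hz : (z : ℂ) = lamb u a x) :
    lamb u (dv a q) x = (‖∏ s ∈ H, Pb u a a (mq a x + s)‖ : ℝ) * lamb u a x ∧
      ∃ e : ℤ, (e = 1 ∨ e = -1) ∧
        (σ z : ℂ) = e * ((‖∏ s ∈ H, Pb u a a (mq a x + s)‖ : ℝ) * lamb u a x) := by
  set Pi := ∏ s ∈ H, Pb u a a (mq a x + s) with hPi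
  have h1 : Pb u a (dv a q) (mq a x) = Pb u a a (mq a x) * ((‖Pi‖ : ℝ) : ℂ) ^ 2 := by
    rw [hd, hH.split fun t => Pb u a a (mq a x + t), add_zero, Finset.prod_mul_distrib,
      ← hc.prod_cnj hH.stab, mul_conj, normSq_eq_norm_sq, ofReal_pow]
  obtain ⟨Z, hZ1, hZ2⟩ := act hPsi hR h hx.1 hc hΩ hq (cop hq hodd) hσ (S := {0}) (by simp)
    (by simpa using hJ) (fun s hs c hc => by
      rw [Finset.mem_singleton.1 hs, add_zero]; exact kill hx hc)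
  rw [Finset.prod_singleton, add_zero] at hZ1 hZ2
  obtain ⟨ρ, hρ⟩ := conj_eq_iff_real.1 hc.real
  have hl : lamb u a x ^ 2 = ((|ρ| : ℝ) : ℂ) := by
    unfold lamb
    rw [← Pb_mq hPsi h le_rfl, hρ, ← ofReal_pow, Real.sq_sqrt (norm_nonneg _), norm_real,
      Real.norm_eq_abs]
  constructor
  · unfold lamb
    rw [← Pb_mq hPsi h (le_dv hq), ← Pb_mq hPsi h le_rfl, h1, norm_mul, norm_pow, norm_real,
      norm_norm, Real.sqrt_mul (norm_nonneg _), Real.sqrt_sq (norm_nonneg _), ofReal_mul, mul_comm]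
  · have h2 : (σ z : ℂ) ^ 2 = (((‖Pi‖ : ℝ) : ℂ) * lamb u a x) ^ 2 := by
      rw [mul_pow, hl]
      rcases abs_choice ρ with h3 | h3
      · have : z ^ 2 = Z := by
          apply Subtype.ext
          rw [IntermediateField.coe_pow, hz, hl, hZ1, hρ, h3]
        rw [← IntermediateField.coe_pow, ← map_pow, this, hZ2, h1, hρ, h3, mul_comm]
      · have : z ^ 2 = -Z := by
          apply Subtype.ext
          rw [IntermediateField.coe_pow, hz, hl, IntermediateField.coe_neg, hZ1, hρ, h3, ofReal_neg]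
        rw [← IntermediateField.coe_pow, ← map_pow, this, map_neg, IntermediateField.coe_neg, hZ2,
          h1, hρ, h3, ofReal_neg]
        ring
    rcases sq_eq_sq_iff_eq_or_eq_neg.1 h2 with h3 | h3
    · exact ⟨1, Or.inl rfl, by rw [h3]; simp⟩
    · exact ⟨-1, Or.inr rfl, by rw [h3]; simp⟩

lemma step2 (hL : StmtLift) (hPsi : StmtPsi) (hR : StmtR1) (h : St σ₂ c u w n) {k : ℕ} {x : K}
    (hx : Fam u a x) (hc : Ctx w (Pb u a a) k n (mq a x)) {Ω : IntermediateField K ℂ}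
    [FiniteDimensional K Ω] [IsGalois K Ω] {J₀ : ℕ}
    (hΩ : ∀ J, 0 < J → J ≤ J₀ → H2Prop σ₂ ((u ^ 2) ^ J) Ω ∧
      ∀ (a : FractionalIdeal (𝓞 K)⁰ K) x, a ≠ 0 → Tor (((u ^ 2) ^ J : 𝓞 K) : K) (lat a) x →
        FF (algebraMap K ℝ) ((u ^ 2) ^ J) a x ∈ Ω)
    {q r : Ideal (𝓞 K)} {R : Ideal (𝓞 Ω)} {τ : Ω ≃ₐ[K] Ω} (hr : r.IsMaximal) (hqr : r ⊔ q = ⊤)
    (hodd : ∀ j : ℕ, Odd j → u ^ j - 1 ∉ r) (hτ : Frob r R τ) {p : ℕ} {L H L' H' : Finset (QA a)}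
    (hH : Half w n p L H) (hk : ∀ s ∈ H, ∀ c ∈ q, c • s = 0) (hp : p ≤ J₀)
    (hH' : Half w n (Ideal.absNorm r) L' H')
    (hd : ∀ s, Pb u a (dv a r) s = ∏ t ∈ L', Pb u a a (s + t))
    (hζ : ∀ ζ : ℂ, ζ ^ (2 * (2 * (n * p) * k)) = 1 → ζ ∈ Ω)
    (hco : (2 * (2 * (n * p) * k)).Coprime (Ideal.absNorm r)) :
    ∃ B : Ω, (B : ℂ) = (‖∏ s ∈ H, Pb u a a (mq a x + s)‖ : ℝ) ∧
      (τ B : ℂ) * ((∏ s ∈ H, Pb u a a (mq a x + s)) / ∏ s ∈ H, Pb u a a (mq a x + w • s)) ^ H'.card =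
        (‖∏ s ∈ H, Pb u a a (mq a x + s)‖ : ℝ) * ((∏ s ∈ H, ∏ t ∈ H', Pb u a a (mq a x + s + t)) *
          ∏ s ∈ H, ∏ t ∈ H', Pb u a a (mq a x + s + w • t)) := by
  have : NumberField Ω := NumberField.of_module_finite K Ω
  have hf : r ⊔ q * Ideal.span {u - 1} = ⊤ := by
    rw [← Ideal.isCoprime_iff_sup_eq] at hqr ⊢
    exact hqr.mul_right (Ideal.isCoprime_iff_sup_eq.2 (cop hr hodd))
  obtain ⟨Z, hZ1, hZ2⟩ := act hPsi hR h hx.1 hc hΩ hr hf hτ hH.stab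
    (by have := hH.card; omega) (fun s hs c hc => by
      rw [smul_add, kill hx (Ideal.mul_le_right hc), hk s hs c (Ideal.mul_le_left hc), add_zero])
  have hg := hc.gam_pow hH
  rw [← hc.prod_cnj hH.stab] at hg ⊢
  have h1 : ∀ s, Pb u a (dv a r) (mq a x + s) = Pb u a a (mq a x + s) *
      ((∏ t ∈ H', Pb u a a (mq a x + s + t)) * ∏ t ∈ H', Pb u a a (mq a x + s + w • t)) := by
    intro s
    rw [hd, hH'.split fun t => Pb u a a (mq a x + s + t), add_zero, Finset.prod_mul_distrib]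
  simp only [h1, Finset.prod_mul_distrib] at hZ2
  have hne : ∏ s ∈ H, Pb u a a (mq a x + s) ≠ 0 := Finset.prod_ne_zero_iff.2 fun _ _ => hc.ne _
  set Pi := ∏ s ∈ H, Pb u a a (mq a x + s) with hPi
  have hcne : conj Pi ≠ 0 := (map_ne_zero _).2 hne
  have h2 : (((‖Pi‖ : ℝ) : ℂ) / Pi) ^ 2 * (Pi / conj Pi) = 1 := by
    rw [div_pow, ← ofReal_pow, ← normSq_eq_norm_sq, ← mul_conj]
    field_simp
  have h3 : (((‖Pi‖ : ℝ) : ℂ) / Pi) ^ (2 * (2 * (n * p) * k)) = 1 := by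
    have := congrArg (· ^ (2 * (n * p) * k)) h2
    simp only [mul_pow, hg, mul_one, one_pow] at this
    rw [pow_mul, this]
  let ζ : Ω := ⟨_, hζ _ h3⟩
  have h4 : τ ζ = ζ ^ Ideal.absNorm r :=
    (hL.2 K Ω r hr).2.1 R τ hτ ζ _ (Subtype.ext (by simpa using h3)) hco
  refine ⟨Z * ζ, ?_, ?_⟩
  · rw [IntermediateField.coe_mul, hZ1]
    exact mul_div_cancel₀ _ hne
  · rw [map_mul, IntermediateField.coe_mul, hZ2, h4, IntermediateField.coe_pow, ← hH'.card,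
      pow_succ, pow_mul]
    have h5 : ((ζ : ℂ) ^ 2) ^ H'.card * (Pi / conj Pi) ^ H'.card = 1 := by
      rw [← mul_pow, h2, one_pow]
    have h6 : Pi * (ζ : ℂ) = (‖Pi‖ : ℝ) := mul_div_cancel₀ _ hne
    rw [← h6]
    linear_combination (Pi * ζ * ((∏ s ∈ H, ∏ t ∈ H', Pb u a a (mq a x + s + t)) *
      ∏ s ∈ H, ∏ t ∈ H', Pb u a a (mq a x + s + w • t))) * h5

end C1

open C1 in
theorem blockC1 (h : StmtH2) (hL : StmtLift) (hS : StmtSys) (hPsi : StmtPsi) (hAU : StmtAU)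
    (hR : StmtR1) : StmtC1 := by
  intro K _ _ _ σ₂ c hRQ u hu1 hu2 a x hx
  have hb := hR.2.1 K _ _ c hRQ
  obtain ⟨n, hn⟩ := hb.lev (u ^ 2)
    (by rw [C1.cpow, map_pow, map_pow, ← mul_pow, hu1]; norm_num)
    (by rw [C1.cpow, map_pow]; nlinarith)
  obtain ⟨-, hn0, hu, -⟩ := hb.norm _ _ hn
  obtain ⟨w, hw⟩ := ((isUnit_pow_iff two_ne_zero).1 hu).exists_right_inv
  have st : St σ₂ c u w n := ⟨hRQ, hu1, hu2, hw, hn⟩
  obtain ⟨k, hk, hc⟩ := ctx h hS hPsi hAU hR st hx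
  have hco : ∀ {q : Ideal (𝓞 K)}, Big (2 + n + k) q → ∀ m, 0 < m → m ≤ 2 + n + k →
      m.Coprime (Ideal.absNorm q) := fun hq m hm hm' =>
    ((Nat.Prime.coprime_iff_not_dvd hq.2.1).2
      (Nat.not_dvd_of_pos_of_lt hm (hm'.trans_lt hq.2.2))).symm
  refine ⟨2 + n + k, fun Ω _ _ q Q σ z hq hqo hσ hz => ?_⟩
  obtain ⟨L, H, hH, hHk, hd⟩ := prime_data hS hPsi hR st hx.1 hq.1 (hco hq n hn0 (by omega)) hqo
  constructor
  · obtain ⟨Ω', _, _, hle, -, hΩ⟩ := big h hS hAU hR hRQ (u ^ 2) st.one st.eight Ω 1 1 one_pos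
    obtain ⟨Q', σ', hσ', hσe⟩ := lift hL hle hq.1 hσ
    obtain ⟨h1, e, he, h2⟩ := step hPsi hR st hx hc le_rfl hΩ hq.1 hqo hσ' hH hd
      (z := IntermediateField.inclusion hle z) hz
    rw [hσe, ← h1] at h2
    refine ⟨fam hx hq.1 hqo, ?_⟩
    rcases he with rfl | rfl
    · left; simpa using h2
    · right; simpa using h2
  intro r R τ hr hro hτ hne
  obtain ⟨L', H', hH', hHk', hd'⟩ :=
    prime_data hS hPsi hR st hx.1 hr.1 (hco hr n hn0 (by omega)) hro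
  have hq0 := hq.2.1.pos
  have hr0 := hr.2.1.pos
  obtain ⟨Ω', _, _, hle, hζ, hΩ⟩ := big h hS hAU hR hRQ (u ^ 2) st.one st.eight Ω
    (Ideal.absNorm q + Ideal.absNorm r)
    (2 * (2 * (n * Ideal.absNorm q) * k) * (2 * (2 * (n * Ideal.absNorm r) * k))) (by positivity)
  obtain ⟨Q', σ', hσ', hσe⟩ := lift hL hle hq.1 hσ
  obtain ⟨R', τ', hτ', hτe⟩ := lift hL hle hr.1 hτ
  have hpp : (Ideal.absNorm q).Coprime (Ideal.absNorm r) :=
    (Nat.coprime_primes hq.2.1 hr.2.1).2 hne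
  have hqr : r ⊔ q = ⊤ := hr.1.coprime_of_ne hq.1 fun h => hne (h ▸ rfl)
  have hco2 : ∀ {q : Ideal (𝓞 K)}, Big (2 + n + k) q → ∀ p : ℕ, p.Coprime (Ideal.absNorm q) →
      (2 * (2 * (n * p) * k)).Coprime (Ideal.absNorm q) := fun hq p hp =>
    (hco hq 2 two_pos (by omega)).mul_left (((hco hq 2 two_pos (by omega)).mul_left
      ((hco hq n hn0 (by omega)).mul_left hp)).mul_left (hco hq k hk (by omega)))
  obtain ⟨-, e, -, h1⟩ := step hPsi hR st hx hc (by omega) hΩ hq.1 hqo hσ' hH hd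
    (z := IntermediateField.inclusion hle z) hz
  obtain ⟨-, e', -, h2⟩ := step hPsi hR st hx hc (by omega) hΩ hr.1 hro hτ' hH' hd'
    (z := IntermediateField.inclusion hle z) hz
  obtain ⟨B, hB1, hB2⟩ := step2 hL hPsi hR st hx hc hΩ hr.1 hqr hro hτ' hH hHk (by omega) hH' hd'
    (fun ζ h => hζ ζ (by rw [pow_mul, h, one_pow])) (hco2 hr _ hpp)
  obtain ⟨B', hB1', hB2'⟩ := step2 hL hPsi hR st hx hc hΩ hq.1 (sup_comm r q ▸ hqr) hqo hσ' hH' hHk'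
    (by omega) hH hd (fun ζ h => hζ ζ (by rw [mul_comm, pow_mul, h, one_pow])) (hco2 hq _ hpp.symm)
  have hx3 := hc.cross hH hH' hpp
  have e1 : σ' (IntermediateField.inclusion hle z) =
      e * (B * IntermediateField.inclusion hle z) := by
    apply Subtype.ext
    rw [h1, ← hB1, ← hz]; simp
  have e2 : τ' (IntermediateField.inclusion hle z) =
      e' * (B' * IntermediateField.inclusion hle z) := by
    apply Subtype.ext
    rw [h2, ← hB1', ← hz]; simp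
  have c1 : ∏ s ∈ H', ∏ t ∈ H, Pb u a a (mq a x + s + t) =
      ∏ s ∈ H, ∏ t ∈ H', Pb u a a (mq a x + s + t) := by
    rw [Finset.prod_comm]; simp only [add_right_comm]
  have c2 : ∏ s ∈ H', ∏ t ∈ H, Pb u a a (mq a x + s + w • t) =
      ∏ s ∈ H, ∏ t ∈ H', Pb u a a (mq a x + w • s + t) := by
    rw [Finset.prod_comm]
    exact Finset.prod_congr rfl fun s _ => Finset.prod_congr rfl fun t _ => by rw [add_right_comm]
  rw [c1, c2, ← hB1'] at hB2'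
  rw [← hB1] at hB2
  have n1 : ∀ S : Finset (QA a), ∀ j : ℕ, ((∏ s ∈ S, Pb u a a (mq a x + s)) /
      ∏ s ∈ S, Pb u a a (mq a x + w • s)) ^ j ≠ 0 := fun S j => pow_ne_zero _ (div_ne_zero
    (Finset.prod_ne_zero_iff.2 fun _ _ => hc.ne _) (Finset.prod_ne_zero_iff.2 fun _ _ => hc.ne _))
  have key : σ' B' * B = τ' B * B' := by
    apply Subtype.ext
    rw [IntermediateField.coe_mul, IntermediateField.coe_mul]
    apply mul_right_cancel₀ (mul_ne_zero (n1 H H'.card) (n1 H' H.card))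
    generalize ((∏ s ∈ H, Pb u a a (mq a x + s)) /
      ∏ s ∈ H, Pb u a a (mq a x + w • s)) ^ H'.card = G at *
    generalize ((∏ s ∈ H', Pb u a a (mq a x + s)) /
      ∏ s ∈ H', Pb u a a (mq a x + w • s)) ^ H.card = G' at *
    generalize ∏ s ∈ H, ∏ t ∈ H', Pb u a a (mq a x + s + t) = X at *
    linear_combination (B * G : ℂ) * hB2' - (B' * G' : ℂ) * hB2 - (B * B' * X : ℂ) * hx3
  apply (IntermediateField.inclusion hle).injective
  change IntermediateField.inclusion hle _ = IntermediateField.inclusion hle _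
  rw [← hσe, ← hτe, ← hτe, ← hσe]
  conv_lhs => rw [e2, map_mul, map_mul, e1, map_intCast]
  conv_rhs => rw [e1, map_mul, map_mul, e2, map_intCast]
  linear_combination (e * e' * IntermediateField.inclusion hle z) * key

end Pool.Agent.Lib.Stark
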