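import Pool.Agent.Lib.stark.Defs2

open Complex NumberField Filter Topology Ideal
open scoped Real nonZeroDivisors ComplexConjugate

namespace Pool.Agent.Lib.Stark

namespace C2

lemma gen {G X : Type} [Group G] [Finite G] [MulAction G X] {S : Set G}
    (hS : Subgroup.closure S = ⊤) {W : Set X} (t : G)
    (h : ∀ s ∈ S, ∀ z ∈ W, s • z ∈ W ∧ s • t • z = t • s • z) (g : G) :
    ∀ z ∈ W, g • z ∈ W ∧ g • t • z = t • g • z := by
  have hg : g ∈ Submonoid.closure S := by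
    rw [← Subgroup.closure_toSubmonoid_of_finite, hS]; trivial
  induction hg using Submonoid.closure_induction with
  | mem s hs => exact h s hs
  | one => intro z hz; simpa using hz
  | mul a b _ _ ha hb =>
    intro z hz
    rw [mul_smul, mul_smul, (hb z hz).2]
    exact ha _ (hb z hz).1

lemma gen2 {G X : Type} [Group G] [Finite G] [MulAction G X] {S : Set G}
    (hS : Subgroup.closure S = ⊤) {W : Set X} (h₁ : ∀ s ∈ S, ∀ z ∈ W, s • z ∈ W)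
    (h₂ : ∀ s ∈ S, ∀ t ∈ S, ∀ z ∈ W, s • t • z = t • s • z) (g t : G) (z : X) (hz : z ∈ W) :
    g • t • z = t • g • z :=
  (gen hS t (fun s hs z hz => ⟨h₁ s hs z hz,
    ((gen hS s (fun r hr z hz => ⟨h₁ r hr z hz, h₂ r hr s hs z hz⟩) t z hz).2).symm⟩) g z hz).2

variable {K : Type} [Field K] [NumberField K]

lemma good_or {σ₁ σ₂ : K →+* ℝ} {c : K ≃+* K} (hq : RQ σ₁ σ₂ c) {u : 𝓞 K}
    (hu : σ₁ u * σ₂ u = -1) {p : Ideal (𝓞 K)} (hp : Big 2 p) (hc : cI c (cI c p) = p) :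
    (∀ j : ℕ, Odd j → u ^ j - 1 ∉ p) ∨ ∀ j : ℕ, Odd j → u ^ j - 1 ∉ cI c p := by
  by_contra hh
  push Not at hh
  obtain ⟨⟨i, hi, ei⟩, j, hj, ej⟩ := hh
  set u' := RingOfIntegers.mapRingEquiv c u with hu'
  have ej' : u' ^ j - 1 ∈ p := by
    have := Ideal.mem_map_of_mem (RingOfIntegers.mapRingEquiv c : 𝓞 K →+* 𝓞 K) ej
    rw [map_sub, map_pow, map_one] at this
    exact hc ▸ this
  have uu : u * u' = -1 := by
    apply RingOfIntegers.coe_injective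
    apply σ₁.injective
    rw [map_mul, map_mul, map_neg, map_neg, map_one, map_one, ← hu, ← hq.cnj₁]
    rfl
  have h2 : (2 : 𝓞 K) ∈ p := by
    rw [← Ideal.Quotient.eq] at ei ej'
    rw [← Ideal.Quotient.eq_zero_iff_mem]
    have : Ideal.Quotient.mk p ((u * u') ^ (i * j)) = 1 := by
      rw [mul_pow, map_mul, pow_mul, map_pow, ei, mul_comm i, pow_mul, map_pow _ (u' ^ j), ej']
      simp
    rw [uu, (hi.mul hj).neg_one_pow, map_neg, map_one] at this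
    rw [show (2 : 𝓞 K) = 1 + 1 by norm_num, map_add, map_one]
    linear_combination -this
  obtain ⟨k, hk⟩ := hp.2.1.odd_of_ne_two hp.2.2.ne'
  refine hp.1.ne_top ((Ideal.eq_top_iff_one _).2 ?_)
  have := p.sub_mem p.absNorm_mem (p.mul_mem_right (k : 𝓞 K) h2)
  rwa [hk, show ((2 * k + 1 : ℕ) : 𝓞 K) - 2 * k = 1 by push_cast; ring] at this

lemma big_mono {N M : ℕ} (h : N ≤ M) {p : Ideal (𝓞 K)} (hp : Big M p) : Big N p :=
  ⟨hp.1, hp.2.1, h.trans_lt hp.2.2⟩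

end C2

open C2 in
theorem blockC2 (h : StmtC1) (hB : StmtBauer) (hS : StmtSys) (hR : StmtR1) : StmtComm := by
  intro K _ _ _ σ₂ c hq u hu hu3 Ω _ _ _ σ τ z a x hx hz
  have hb := hR.2.1 K _ σ₂ c hq
  have e2 : ((u ^ 2 : 𝓞 K) : K) = (u : K) ^ 2 := map_pow (algebraMap (𝓞 K) K) u 2
  obtain ⟨n, hn⟩ := hb.lev (u ^ 2) (by rw [e2, map_pow, map_pow, ← mul_pow, hu]; norm_num)
    (by rw [e2, map_pow]; nlinarith)
  have : NumberField Ω := NumberField.of_module_finite K Ω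
  have fin : {w : ℂ | ∃ a x, Fam u a x ∧ w = lamb u a x}.Finite := by
    refine ((hS K _ σ₂ c hq _ n hn).fin.image fun w => ((Real.sqrt ‖w‖ : ℝ) : ℂ)).subset ?_
    rintro _ ⟨a, x, hx, rfl⟩
    refine ⟨_, ⟨lat a, x, hb.sl _ a hx.1, ?_, rfl⟩, rfl⟩
    have := (a : Submodule (𝓞 K) K).smul_mem (u + 1) hx.2.1
    show _ ∈ (a : Submodule (𝓞 K) K)
    convert this using 1
    rw [Algebra.smul_def]; push_cast
    show _ = ((u : K) + 1) * _
    ring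
  choose! N₀ hN₀ using h K σ₂ c hq u hu hu3
  have rep : ∀ w ∈ {w : ℂ | ∃ a x, Fam u a x ∧ w = lamb u a x}, ∃ y : _ × K,
      Fam u y.1 y.2 ∧ w = lamb u y.1 y.2 := fun w ⟨a, x, h⟩ => ⟨(a, x), h⟩
  choose! y hy using rep
  obtain ⟨N, hN⟩ := (fin.image fun w => N₀ (y w).1 (y w).2).bddAbove
  let W : Set Ω := {z | ∃ a x, Fam u a x ∧ ((z : ℂ) = lamb u a x ∨ ((-z : Ω) : ℂ) = lamb u a x)}
  let Fr : ℕ → (Ω ≃ₐ[K] Ω) → Prop := fun M σ => ∃ q Q, Big M q ∧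
    (∀ j : ℕ, Odd j → u ^ j - 1 ∉ q) ∧ Frob q Q σ
  have key : ∀ (z : Ω) a x, Fam u a x → (z : ℂ) = lamb u a x → ∀ σ q Q, Big N q →
      (∀ j : ℕ, Odd j → u ^ j - 1 ∉ q) → Frob q Q σ → σ z ∈ W ∧ σ (-z) ∈ W ∧ ∀ τ r R, Big N r →
        (∀ j : ℕ, Odd j → u ^ j - 1 ∉ r) → Frob r R τ → absNorm q ≠ absNorm r →
          σ (τ z) = τ (σ z) := fun z a x hx hz σ q Q bq gq fq => by
    have m : (z : ℂ) ∈ {w : ℂ | ∃ a x, Fam u a x ∧ w = lamb u a x} := ⟨a, x, hx, hz⟩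
    have le := hN ⟨_, m, rfl⟩
    obtain ⟨⟨f, e⟩, cm⟩ := hN₀ _ _ (hy _ m).1 Ω q Q σ z (big_mono le bq) gq fq (hy _ m).2
    refine ⟨⟨_, _, f, e.imp_right fun e => ?_⟩, ⟨_, _, f, e.symm.imp (fun e => ?_) fun e => ?_⟩,
      fun τ r R br => cm r R τ (big_mono le br)⟩
    · push_cast; rw [e, neg_neg]
    · rw [map_neg]; push_cast; rw [e, neg_neg]
    · rw [map_neg, neg_neg, e]
  have top : Subgroup.closure {σ | ∀ M, Fr M σ} = ⊤ := by
    have : ∀ σ : Ω ≃ₐ[K] Ω, ∃ M, Fr M σ → ∀ M, Fr M σ := fun σ => by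
      by_cases e : ∀ M, Fr M σ
      · exact ⟨0, fun _ => e⟩
      · obtain ⟨M, e⟩ := not_forall.1 e
        exact ⟨M, fun e' => (e e').elim⟩
    choose M hM using this
    obtain ⟨M₁, hM₁⟩ := (Set.finite_range M).bddAbove
    obtain ⟨M₂, hM₂⟩ := hb.split
    refine hB K _ σ₂ c hq Ω _ (M₁ + M₂ + 2) fun p hp => ?_
    obtain ⟨-, b, e, -⟩ := hM₂ p (big_mono (by omega) hp)
    refine (good_or hq hu (big_mono (by omega) hp) (hb.cI_cI p).1).imp (fun g P σ f => ?_)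
      fun g P σ f => ?_
    · exact Subgroup.subset_closure (hM σ ⟨p, P, big_mono
        ((hM₁ ⟨σ, rfl⟩).trans (by omega)) hp, g, f⟩)
    · exact Subgroup.subset_closure (hM σ ⟨_, P, ⟨b.1, b.2.1, e ▸
        ((hM₁ ⟨σ, rfl⟩).trans (by omega)).trans_lt hp.2.2⟩, g, f⟩)
  refine gen2 (W := W) top (fun s hs z ⟨a, x, hx, hz⟩ => ?_) (fun s hs t ht z ⟨a, x, hx, hz⟩ => ?_)
    σ τ z ⟨a, x, hx, .inl hz⟩
  · obtain ⟨q, Q, bq, gq, fq⟩ := hs N
    rcases hz with hz | hz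
    · exact (key z a x hx hz s q Q bq gq fq).1
    · simpa only [neg_neg, AlgEquiv.smul_def] using (key _ a x hx hz s q Q bq gq fq).2.1
  · obtain ⟨q, Q, bq, gq, fq⟩ := hs N
    obtain ⟨r, R, br, gr, fr⟩ := ht (N + absNorm q)
    have ne : absNorm q ≠ absNorm r := (le_add_self.trans_lt br.2.2).ne
    rcases hz with hz | hz
    · exact (key z a x hx hz s q Q bq gq fq).2.2 t r R (big_mono le_self_add br) gr fr ne
    · simpa only [map_neg, neg_inj, AlgEquiv.smul_def] using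
        (key _ a x hx hz s q Q bq gq fq).2.2 t r R (big_mono le_self_add br) gr fr ne

end Pool.Agent.Lib.Stark
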