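import Pool.Agent.Lib.stark.Defs1

open Complex
open scoped Real

namespace Pool.Agent.Lib.Stark

namespace FE0

theorem sum1 {κ : ℝ} (hκ : 0 < κ) (s : ℝ) :
    Summable fun n : ℤ => Real.exp (-κ * n ^ 2 + s * n) := by
  have h0 : ∀ s : ℝ, Summable fun n : ℕ => Real.exp (-κ * n ^ 2 + s * n) := fun s => by
    refine Summable.of_nonneg_of_le (fun n => (Real.exp_pos _).le) (fun n => ?_)
      (Real.summable_exp_neg_nat.mul_left (Real.exp ((s + 1) ^ 2 / (4 * κ))))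
    rw [← Real.exp_add]
    refine Real.exp_le_exp.2 ?_
    rw [← sub_nonneg]
    have : (s + 1) ^ 2 / (4 * κ) + -(n : ℝ) - (-κ * n ^ 2 + s * n) =
        (2 * κ * n - (s + 1)) ^ 2 / (4 * κ) := by
      field_simp
      ring
    rw [this]
    positivity
  refine Summable.of_nat_of_neg (by simpa using h0 s) ?_
  simpa using h0 (-s)

theorem sum2 {A B C : ℝ} (hC : 0 < C) (h : B ^ 2 < A * C) (γ : ℝ) (s t c : ℂ)
    {F : ℤ × ℤ → ℂ} (hF : ∀ p : ℤ × ℤ, F p = -(A * p.1 ^ 2 + 2 * B * p.1 * p.2 + C * p.2 ^ 2) +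
      I * γ * p.1 * p.2 + s * p.1 + t * p.2 + c) : Summable fun p => cexp (F p) := by
  have hA : 0 < A := by
    by_contra hn
    nlinarith [sq_nonneg B, mul_nonneg (neg_nonneg.2 (not_lt.1 hn)) hC.le]
  obtain ⟨κ, hκ⟩ : ∃ κ : ℝ, κ = (A * C - B ^ 2) / (A + C) := ⟨_, rfl⟩
  have h1 : κ * (A + C) = A * C - B ^ 2 := by
    rw [hκ]
    field_simp
  have h2 : 0 < κ := hκ ▸ div_pos (by linarith) (by linarith)
  have h3 : κ < C := by
    by_contra hn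
    nlinarith [sq_nonneg B, mul_le_mul_of_nonneg_right (not_lt.1 hn) (add_pos hA hC).le,
      mul_pos hC hC]
  refine Summable.of_norm_bounded ((((sum1 h2 s.re).mul_of_nonneg (sum1 h2 t.re)
    (fun _ => (Real.exp_pos _).le) fun _ => (Real.exp_pos _).le)).mul_right (Real.exp c.re))
    fun p => ?_
  rw [norm_exp, ← Real.exp_add, ← Real.exp_add, hF]
  refine Real.exp_le_exp.2 ?_
  have e : (-(A * p.1 ^ 2 + 2 * B * p.1 * p.2 + C * p.2 ^ 2) + I * γ * p.1 * p.2 + s * p.1 +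
      t * p.2 + c : ℂ).re = -(A * p.1 ^ 2 + 2 * B * p.1 * p.2 + C * p.2 ^ 2) + s.re * p.1 +
      t.re * p.2 + c.re := by
    simp [pow_two]
  rw [e]
  have h4 : 0 ≤ (C - κ) * ((A - κ) * p.1 ^ 2 + 2 * B * p.1 * p.2 + (C - κ) * p.2 ^ 2) := by
    have : (C - κ) * ((A - κ) * p.1 ^ 2 + 2 * B * p.1 * p.2 + (C - κ) * p.2 ^ 2) =
        (B * p.1 + (C - κ) * p.2) ^ 2 + κ ^ 2 * p.1 ^ 2 := by
      linear_combination (-(p.1 : ℝ) ^ 2) * h1
    rw [this]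
    positivity
  have h5 := nonneg_of_mul_nonneg_right h4 (sub_pos.2 h3)
  linarith

/-- Transformation formula for a binary quadratic form. -/
theorem trans2 {A B C δ : ℝ} (hC : 0 < C) (hδ : δ ≠ 0) (h : δ ^ 2 = A * C - B ^ 2) (u v : ℂ) :
    ∑' p : ℤ × ℤ, cexp (-π * (A * p.1 ^ 2 + 2 * B * p.1 * p.2 + C * p.2 ^ 2) -
      2 * π * (v * p.1 + u * p.2)) = (|δ|⁻¹ : ℝ) * ∑' p : ℤ × ℤ,
      cexp (-π * C / δ ^ 2 * (p.2 + B * p.1 / C + I * (B * u / C - v)) ^ 2 -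
        π / C * (p.1 + I * u) ^ 2) := by
  have hp := Real.pi_pos
  have hd : 0 < δ ^ 2 := by positivity
  have hC' : (C : ℂ) ≠ 0 := ofReal_ne_zero.2 hC.ne'
  have hδ' : (δ : ℂ) ≠ 0 := ofReal_ne_zero.2 hδ
  have hA : (A : ℂ) = (δ ^ 2 + B ^ 2) / C := by
    rw [eq_div_iff hC']
    exact_mod_cast (by linarith : A * C = δ ^ 2 + B ^ 2)
  have s1 : Summable fun p : ℤ × ℤ => cexp (-π * (A * p.1 ^ 2 + 2 * B * p.1 * p.2 + C * p.2 ^ 2) -
      2 * π * (v * p.1 + u * p.2)) := by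
    refine sum2 (A := π * A) (B := π * B) (C := π * C) (by positivity) ?_ 0 (-2 * π * v)
      (-2 * π * u) 0 fun p => ?_
    · nlinarith [mul_pos (mul_pos hp hp) hd]
    · push_cast
      ring
  have s2 : Summable fun p : ℤ × ℤ => cexp (-π / C * (p.2 + I * -(u + B * p.1)) ^ 2 +
      (-π * A * p.1 ^ 2 - 2 * π * v * p.1)) := by
    refine sum2 (A := π * δ ^ 2 / C) (B := 0) (C := π / C) (by positivity) ?_ (2 * π * B / C)
      (2 * π * B * u / C - 2 * π * v) (2 * π * I * u / C) (π * u ^ 2 / C) fun p => ?_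
    · rw [zero_pow two_ne_zero]
      positivity
    · push_cast
      rw [hA]
      field_simp
      ring_nf
      rw [I_sq]
      ring
  have s3 : Summable fun p : ℤ × ℤ =>
      cexp (-π * C / δ ^ 2 * (p.2 + B * p.1 / C + I * (B * u / C - v)) ^ 2 -
        π / C * (p.1 + I * u) ^ 2) := by
    refine sum2 (A := π * (δ ^ 2 + B ^ 2) / (C * δ ^ 2)) (B := π * B / δ ^ 2)
      (C := π * C / δ ^ 2) (by positivity) ?_ 0
      (-2 * π * I * B / δ ^ 2 * (B * u / C - v) - 2 * π * I * u / C)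
      (-2 * π * I * C / δ ^ 2 * (B * u / C - v))
      (π * C / δ ^ 2 * (B * u / C - v) ^ 2 + π / C * u ^ 2) fun p => ?_
    · have : π * (δ ^ 2 + B ^ 2) / (C * δ ^ 2) * (π * C / δ ^ 2) =
          (π * B / δ ^ 2) ^ 2 + π ^ 2 / δ ^ 2 := by
        field_simp
        ring
      rw [this]
      exact lt_add_of_pos_right _ (by positivity)
    · push_cast
      field_simp
      ring_nf
      rw [I_sq]
      ring
  have e1 : ∀ m : ℤ, ∑' n : ℤ, cexp (-π * (A * m ^ 2 + 2 * B * m * n + C * n ^ 2) -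
      2 * π * (v * m + u * n)) = 1 / (C : ℂ) ^ (1 / 2 : ℂ) * ∑' n : ℤ,
      cexp (-π / C * (n + I * -(u + B * m)) ^ 2 + (-π * A * m ^ 2 - 2 * π * v * m)) := by
    intro m
    simp only [Complex.exp_add]
    rw [tsum_mul_right, ← mul_assoc, ← Complex.tsum_exp_neg_quadratic (by simpa using hC),
      ← tsum_mul_right]
    refine tsum_congr fun n => ?_
    rw [← Complex.exp_add]
    congr 1
    ring
  have e2 : ∀ n : ℤ, ∑' m : ℤ, cexp (-π / C * ((-n : ℤ) + I * -(u + B * m)) ^ 2 +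
      (-π * A * m ^ 2 - 2 * π * v * m)) = 1 / ((δ ^ 2 / C : ℝ) : ℂ) ^ (1 / 2 : ℂ) * ∑' k : ℤ,
      cexp (-π * C / δ ^ 2 * (k + B * n / C + I * (B * u / C - v)) ^ 2 -
        π / C * (n + I * u) ^ 2) := by
    intro n
    have := Complex.tsum_exp_neg_quadratic (a := ((δ ^ 2 / C : ℝ) : ℂ))
      (by rw [ofReal_re]; positivity) (-I * B * n / C + B * u / C - v)
    have e3 : ∀ k : ℤ, cexp (-π * C / δ ^ 2 * (k + B * n / C + I * (B * u / C - v)) ^ 2 -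
        π / C * (n + I * u) ^ 2) = cexp (-π / ((δ ^ 2 / C : ℝ) : ℂ) *
          (k + I * (-I * B * n / C + B * u / C - v)) ^ 2) * cexp (-π / C * (n + I * u) ^ 2) := by
      intro k
      rw [← Complex.exp_add]
      congr 1
      have : (k + I * (-I * B * n / C + B * u / C - v) : ℂ) =
          k + B * n / C + I * (B * u / C - v) := by
        linear_combination (-B * n / C : ℂ) * I_sq
      rw [this]
      push_cast
      field_simp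
      ring
    simp only [e3]
    rw [tsum_mul_right, ← mul_assoc, ← this, ← tsum_mul_right]
    refine tsum_congr fun m => ?_
    rw [← Complex.exp_add]
    congr 1
    push_cast
    rw [hA]
    field_simp
    ring_nf
    rw [I_sq]
    ring
  have e4 : 1 / (C : ℂ) ^ (1 / 2 : ℂ) * (1 / ((δ ^ 2 / C : ℝ) : ℂ) ^ (1 / 2 : ℂ)) =
      (|δ|⁻¹ : ℝ) := by
    rw [one_div_mul_one_div, ← mul_cpow_ofReal_nonneg hC.le (by positivity), ← ofReal_mul,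
      mul_div_cancel₀ _ hC.ne', show (1 / 2 : ℂ) = ((1 / 2 : ℝ) : ℂ) by push_cast; ring,
      ← ofReal_cpow hd.le, ← Real.sqrt_eq_rpow, Real.sqrt_sq_eq_abs]
    push_cast
    ring
  rw [s1.tsum_prod, s3.tsum_prod]
  simp only [e1]
  rw [tsum_mul_left, ← Summable.tsum_comm (f := fun m n : ℤ =>
    cexp (-π / C * (n + I * -(u + B * m)) ^ 2 + (-π * A * m ^ 2 - 2 * π * v * m))) s2,
    ← (Equiv.neg ℤ).tsum_eq]
  simp only [Equiv.neg_apply, e2]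
  rw [tsum_mul_left, ← mul_assoc, e4]

/-- Gaussian on the lattice side. -/
noncomputable def gl (x₁ x₂ : ℂ) (a₁ a₂ b₁ b₂ : ℝ) (p : ℤ × ℤ) : ℂ :=
  cexp (-π * ((x₁ + p.1 * a₁ + p.2 * b₁) ^ 2 + (x₂ + p.1 * a₂ + p.2 * b₂) ^ 2))

/-- Gaussian on the dual side. -/
noncomputable def gr (x₁ x₂ : ℂ) (a₁ a₂ b₁ b₂ δ : ℝ) (p : ℤ × ℤ) : ℂ :=
  cexp (2 * π * I * ((x₁ * (p.1 * a₂ + p.2 * b₂) - x₂ * (p.1 * a₁ + p.2 * b₁)) / δ) -
    π * (((p.1 * a₂ + p.2 * b₂) / δ) ^ 2 + ((p.1 * a₁ + p.2 * b₁) / δ) ^ 2))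

theorem gauss2 (x₁ x₂ : ℂ) {a₁ a₂ b₁ b₂ δ : ℝ} (h : δ = a₁ * b₂ - a₂ * b₁) (hδ : δ ≠ 0) :
    Summable (gl x₁ x₂ a₁ a₂ b₁ b₂) ∧ Summable (gr x₁ x₂ a₁ a₂ b₁ b₂ δ) ∧
      ∑' p, gl x₁ x₂ a₁ a₂ b₁ b₂ p = (|δ|⁻¹ : ℝ) * ∑' p, gr x₁ x₂ a₁ a₂ b₁ b₂ δ p := by
  have hp := Real.pi_pos
  have hd : 0 < δ ^ 2 := by positivity
  have hC : 0 < b₁ ^ 2 + b₂ ^ 2 := by
    by_contra hn
    have h1 : b₁ = 0 := by nlinarith [sq_nonneg b₁, sq_nonneg b₂]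
    have h2 : b₂ = 0 := by nlinarith [sq_nonneg b₁, sq_nonneg b₂]
    exact hδ (by rw [h, h1, h2]; ring)
  have hq : δ ^ 2 = (a₁ ^ 2 + a₂ ^ 2) * (b₁ ^ 2 + b₂ ^ 2) - (a₁ * b₁ + a₂ * b₂) ^ 2 := by
    rw [h]
    ring
  have hδ' : (δ : ℂ) ≠ 0 := ofReal_ne_zero.2 hδ
  have hC' : (b₁ : ℂ) ^ 2 + b₂ ^ 2 ≠ 0 := by exact_mod_cast hC.ne'
  refine ⟨?_, ?_, ?_⟩
  · refine sum2 (A := π * (a₁ ^ 2 + a₂ ^ 2)) (B := π * (a₁ * b₁ + a₂ * b₂))
      (C := π * (b₁ ^ 2 + b₂ ^ 2)) (by positivity) ?_ 0 (-2 * π * (x₁ * a₁ + x₂ * a₂))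
      (-2 * π * (x₁ * b₁ + x₂ * b₂)) (-π * (x₁ ^ 2 + x₂ ^ 2)) fun p => ?_
    · nlinarith [mul_pos (mul_pos hp hp) hd]
    · push_cast
      ring
  · refine sum2 (A := π * (a₁ ^ 2 + a₂ ^ 2) / δ ^ 2) (B := π * (a₁ * b₁ + a₂ * b₂) / δ ^ 2)
      (C := π * (b₁ ^ 2 + b₂ ^ 2) / δ ^ 2) (by positivity) ?_ 0
      (2 * π * I * (x₁ * a₂ - x₂ * a₁) / δ) (2 * π * I * (x₁ * b₂ - x₂ * b₁) / δ) 0 fun p => ?_
    · have : π * (a₁ ^ 2 + a₂ ^ 2) / δ ^ 2 * (π * (b₁ ^ 2 + b₂ ^ 2) / δ ^ 2) =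
          (π * (a₁ * b₁ + a₂ * b₂) / δ ^ 2) ^ 2 + π ^ 2 / δ ^ 2 := by
        field_simp
        linear_combination -hq
      rw [this]
      exact lt_add_of_pos_right _ (by positivity)
    · push_cast
      field_simp
      ring
  · have h1 := congrArg (· * cexp (-π * (x₁ ^ 2 + x₂ ^ 2)))
      (trans2 hC hδ hq (x₁ * b₁ + x₂ * b₂) (x₁ * a₁ + x₂ * a₂))
    simp only [mul_assoc ((|δ|⁻¹ : ℝ) : ℂ), ← tsum_mul_right, ← Complex.exp_add] at h1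
    refine (tsum_congr fun p => ?_).trans (h1.trans (congrArg _ (tsum_congr fun p => ?_)))
    · rw [gl]
      congr 1
      push_cast
      ring
    · rw [gr]
      congr 1
      have h2 : (δ : ℂ) = a₁ * b₂ - a₂ * b₁ := by exact_mod_cast h
      push_cast
      field_simp
      rw [h2]
      ring_nf
      rw [I_sq]
      ring

end FE0

open FE0 in
theorem blockFE0 : StmtTheta := by
  intro x₁ x₂ a₁ a₂ b₁ b₂ δ h hδ
  obtain ⟨s1, s2, s3⟩ := gauss2 x₁ (x₂ - I) h hδ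
  obtain ⟨t1, t2, t3⟩ := gauss2 x₁ (x₂ + I) h hδ
  have hδ' : (δ : ℂ) ≠ 0 := ofReal_ne_zero.2 hδ
  have e1 : ∀ p : ℤ × ℤ, (th1 (x₁ + p.1 * a₁ + p.2 * b₁) (x₂ + p.1 * a₂ + p.2 * b₂) : ℂ) =
      cexp (-π) / (2 * I) * (gl x₁ (x₂ - I) a₁ a₂ b₁ b₂ p - gl x₁ (x₂ + I) a₁ a₂ b₁ b₂ p) := by
    intro p
    have k : ∀ y₁ y₂ : ℂ, cexp (-π * y₁ ^ 2) * (cexp (-π * y₂ ^ 2) * sin (2 * π * y₂)) =
        cexp (-π) / (2 * I) * (cexp (-π * (y₁ ^ 2 + (y₂ - I) ^ 2)) -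
          cexp (-π * (y₁ ^ 2 + (y₂ + I) ^ 2))) := by
      intro y₁ y₂
      have k1 : cexp (-π) * cexp (-π * (y₁ ^ 2 + (y₂ - I) ^ 2)) =
          cexp (-π * y₁ ^ 2) * cexp (-π * y₂ ^ 2) * cexp (2 * π * y₂ * I) := by
        simp only [← Complex.exp_add]
        congr 1
        linear_combination (-π : ℂ) * I_sq
      have k2 : cexp (-π) * cexp (-π * (y₁ ^ 2 + (y₂ + I) ^ 2)) =
          cexp (-π * y₁ ^ 2) * cexp (-π * y₂ ^ 2) * cexp (-(2 * π * y₂) * I) := by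
        simp only [← Complex.exp_add]
        congr 1
        linear_combination (-π : ℂ) * I_sq
      rw [div_mul_eq_mul_div, mul_sub, k1, k2, Complex.sin, eq_div_iff (by simp)]
      linear_combination (cexp (-π * y₁ ^ 2) * cexp (-π * y₂ ^ 2) *
        (cexp (-(2 * π * y₂) * I) - cexp (2 * π * y₂ * I))) * I_sq
    simp only [th1, gl]
    push_cast
    rw [k]
    congr 6 <;> ring
  have e2 : ∀ p : ℤ × ℤ,
      ee ((x₁ * (p.1 * a₂ + p.2 * b₂) - x₂ * (p.1 * a₁ + p.2 * b₁)) / δ : ℝ) *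
        th2 ((p.1 * a₂ + p.2 * b₂) / δ) (-(p.1 * a₁ + p.2 * b₁) / δ) =
      cexp (-π) / (2 * I) * (gr x₁ (x₂ - I) a₁ a₂ b₁ b₂ δ p - gr x₁ (x₂ + I) a₁ a₂ b₁ b₂ δ p) := by
    intro p
    have k : ∀ q₁ q₂ σ : ℂ, σ ^ 2 = 1 → cexp (2 * π * I * ((x₁ * q₁ - x₂ * q₂) / δ)) *
        (cexp (-π * (q₁ / δ) ^ 2) * cexp (-π * (-q₂ / δ - σ) ^ 2)) =
        cexp (-π) * cexp (2 * π * I * ((x₁ * q₁ - (x₂ - σ * I) * q₂) / δ) -
          π * ((q₁ / δ) ^ 2 + (q₂ / δ) ^ 2)) := by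
      intro q₁ q₂ σ hσ
      simp only [← Complex.exp_add]
      congr 1
      linear_combination (-π : ℂ) * hσ - (2 * π * σ * q₂ / δ : ℂ) * I_sq
    have k1 := k (p.1 * a₂ + p.2 * b₂) (p.1 * a₁ + p.2 * b₁) 1 (by ring)
    have k2 := k (p.1 * a₂ + p.2 * b₂) (p.1 * a₁ + p.2 * b₁) (-1) (by ring)
    simp only [one_mul, neg_mul (1 : ℂ), sub_neg_eq_add] at k1 k2
    simp only [th2, gr, ee]
    push_cast
    linear_combination (k1 - k2) / (2 * I)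
  simp only [e1, e2]
  rw [tsum_mul_left, tsum_mul_left, s1.tsum_sub t1, s2.tsum_sub t2, s3, t3]
  ring

end Pool.Agent.Lib.Stark
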