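import Pool.Agent.Lib.stark.FE1a
import Pool.Agent.Lib.stark.Defs2

open Complex MeasureTheory Filter Topology Set Asymptotics
open scoped Real

namespace Pool.Agent.Lib.Stark

namespace FE1

/-- The odd test function. -/
noncomputable def hh (u : ℝ) : ℂ := (Real.exp (-π * u ^ 2) * Real.sin (2 * π * u) : ℝ)

/-- Its Fourier transform. -/
noncomputable def kk (q : ℝ) : ℂ :=
  (Real.exp (-π * (q - 1) ^ 2) - Real.exp (-π * (q + 1) ^ 2)) / (2 * I)

theorem th1_eq (p q : ℝ) : (th1 p q : ℂ) = gg p * hh q := ofReal_mul _ _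

theorem th2_eq (p q : ℝ) : th2 p q = gg p * kk q := rfl

theorem pw_hh : Pw (-1) hh := by
  refine ⟨by unfold hh; fun_prop, fun σ hσ =>
    ⟨Real.exp ((σ + 1) * 0 + (σ + 1) ^ 2) * (2 * π), fun w hw => ?_⟩⟩
  have h1 := gauss_le 0 (σ := σ + 1) (by linarith) hw
  have h2 : |Real.sin (2 * π * w)| ≤ 2 * π * w :=
    Real.abs_sin_le_abs.trans_eq (abs_of_pos (by positivity))
  rw [sub_zero] at h1
  rw [hh, norm_real, Real.norm_eq_abs, abs_mul, abs_of_pos (Real.exp_pos _)]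
  refine (mul_le_mul h1 h2 (abs_nonneg _) (by positivity)).trans_eq ?_
  rw [show -σ = -(σ + 1) + 1 by ring, Real.rpow_add hw, Real.rpow_one]
  ring

theorem nice_hh : Nice hh :=
  ⟨by unfold hh; fun_prop, fun u => by simp [hh],
    pw_hh.cont, fun σ hσ => pw_hh.bd σ (by linarith)⟩

theorem nice_kk : Nice kk := by
  have hc : Continuous kk := by unfold kk; fun_prop
  refine ⟨hc, fun u => ?_, hc.continuousOn, fun σ hσ =>
    ⟨(Real.exp (σ * 1 + σ ^ 2) + Real.exp (σ * (-1) + σ ^ 2)) / 2, fun w hw => ?_⟩⟩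
  · rw [kk, kk, show (-u - 1) ^ 2 = (u + 1) ^ 2 by ring, show (-u + 1) ^ 2 = (u - 1) ^ 2 by ring]
    ring
  · have h1 := gauss_le 1 hσ.le hw
    have h2 := gauss_le (-1) hσ.le hw
    rw [sub_neg_eq_add] at h2
    rw [kk, norm_div, norm_mul, norm_I, mul_one, Complex.norm_ofNat]
    have h3 := norm_sub_le ((Real.exp (-π * (w - 1) ^ 2) : ℝ) : ℂ) (Real.exp (-π * (w + 1) ^ 2) : ℝ)
    rw [norm_real, norm_real, Real.norm_of_nonneg (Real.exp_pos _).le,
      Real.norm_of_nonneg (Real.exp_pos _).le] at h3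
    linarith

theorem mellin_kk_ne : mellin kk 1 ≠ 0 := by
  have h0 : ∀ q : ℝ, 0 < q → 0 < Real.exp (-π * (q - 1) ^ 2) - Real.exp (-π * (q + 1) ^ 2) :=
    fun q hq => sub_pos.2 (Real.exp_lt_exp.2 (by nlinarith [mul_pos Real.pi_pos hq]))
  have h1 : 0 < ∫ q in Ioi (0 : ℝ),
      (Real.exp (-π * (q - 1) ^ 2) - Real.exp (-π * (q + 1) ^ 2)) := by
    rw [setIntegral_pos_iff_support_of_nonneg_ae]
    · refine lt_of_lt_of_le ?_ (measure_mono (s := Ioi (0 : ℝ)) fun q hq => ⟨(h0 q hq).ne', hq⟩)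
      simp
    · exact (ae_restrict_mem measurableSet_Ioi).mono fun q hq => (h0 q hq).le
    · exact (((integrable_exp_neg_mul_sq Real.pi_pos).comp_sub_right 1).sub
        ((integrable_exp_neg_mul_sq Real.pi_pos).comp_add_right 1)).integrableOn
  simp only [mellin, sub_self, cpow_zero, one_smul, kk, integral_div, ← ofReal_sub,
    integral_complex_ofReal]
  exact div_ne_zero (ofReal_ne_zero.2 h1.ne') (by simp)

theorem diff_Gamma {s : ℂ} (hs : 0 < s.re) : DifferentiableAt ℂ Gamma s :=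
  differentiableAt_Gamma s fun m hm => by
    rw [hm] at hs; simp at hs; linarith [(m.cast_nonneg : (0 : ℝ) ≤ m)]

theorem pi_ne : (1 / π : ℂ) ≠ 0 := one_div_ne_zero (ofReal_ne_zero.2 Real.pi_ne_zero)

theorem diff_pi (s : ℂ) : DifferentiableAt ℂ (fun s : ℂ => (1 / π : ℂ) ^ (s / 2)) s :=
  (differentiableAt_id.div_const 2).const_cpow (Or.inl pi_ne)

theorem diff_GA : DifferentiableAt ℂ GA 1 :=
  ((diff_pi 1).mul ((diff_Gamma (by simp)).comp (1 : ℂ)
    (differentiableAt_id.div_const 2))).const_mul _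

theorem GA_ne : GA 1 ≠ 0 :=
  mul_ne_zero (by norm_num) (mul_ne_zero (by rw [Ne, cpow_eq_zero_iff]; simp [Real.pi_ne_zero])
    (Gamma_ne_zero_of_re_pos (by simp)))

/-- The reflection relation. -/
def Rel (δ : ℝ) (f G : ℝ → ℂ) : Prop :=
  ∀ t : ℝ, 0 < t → f t = -((t * δ : ℝ) : ℂ)⁻¹ * G (t * δ ^ 2)⁻¹

theorem Rel.symm {δ : ℝ} {f G : ℝ → ℂ} (h : Rel δ f G) (hδ : δ ≠ 0) : Rel δ G f := by
  intro r hr
  have h1 := ofReal_ne_zero.2 hr.ne'
  have h2 := ofReal_ne_zero.2 hδ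
  rw [h _ (by positivity), show ((r * δ ^ 2)⁻¹ * δ ^ 2)⁻¹ = r by field_simp]
  push_cast
  field_simp

theorem Rel.diff {δ : ℝ} {f G : ℝ → ℂ} (h : Rel δ f G) (hδ : δ ≠ 0) (hf : Pw 1 f) (hG : Pw 1 G)
    (s : ℂ) : DifferentiableAt ℂ (mellin f) s := by
  have h1 := le_abs_self s.re
  have h2 := neg_abs_le s.re
  have h3 := abs_nonneg s.re
  obtain ⟨C, hC⟩ := hG.bd (|s.re| + 2) (by linarith)
  refine mellin_differentiableAt_of_isBigO_rpow (a := |s.re| + 2) (b := 1 - (|s.re| + 2))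
    (hf.cont.locallyIntegrableOn measurableSet_Ioi) (hf.top (by linarith)) (by linarith)
    (bigO_of_le (C := |δ|⁻¹ * (C * (δ ^ 2) ^ (|s.re| + 2))) (fun t ht => ?_) self_mem_nhdsWithin)
    (by linarith)
  have h4 := hC (t * δ ^ 2)⁻¹ (by positivity)
  rw [Real.inv_rpow (by positivity), Real.rpow_neg (by positivity), inv_inv,
    Real.mul_rpow ht.le (by positivity)] at h4
  rw [h t ht, norm_mul, norm_neg, norm_inv, norm_real, Real.norm_eq_abs, abs_mul, abs_of_pos ht,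
    neg_sub, Real.rpow_sub_one ht.ne']
  refine (mul_le_mul_of_nonneg_left h4 (by positivity)).trans_eq ?_
  field_simp

theorem Rel.mellin_zero {δ : ℝ} {f G : ℝ → ℂ} (h : Rel δ f G) (hδ : δ ≠ 0) :
    mellin f 0 = -δ * mellin G 1 := by
  have h2 := ofReal_ne_zero.2 hδ
  have h1 : mellin f 0 = mellin (fun t : ℝ => (-(δ : ℂ)⁻¹) • (t : ℂ) ^ (-1 : ℂ) •
      (fun u : ℝ => G u⁻¹) (t * δ ^ 2)) 0 :=
    setIntegral_congr_fun measurableSet_Ioi fun t ht => by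
      simp only [h t ht, cpow_neg_one, smul_eq_mul]
      push_cast
      ring
  rw [h1, mellin_const_smul, mellin_cpow_smul,
    mellin_comp_mul_right (fun u : ℝ => G u⁻¹) _ (by positivity : 0 < δ ^ 2), mellin_comp_inv]
  simp only [zero_add, neg_neg, cpow_one, smul_eq_mul]
  push_cast
  field_simp

theorem limit {ι κ : Type} [Countable ι] [Countable κ] {c : ι → ℂ} {N : ι → ℝ} {c' : κ → ℂ}
    {N' : κ → ℝ} (hc : ∀ i, ‖c i‖ ≤ 1) (hN : ∀ i, 0 < N i)
    (hsum : ∀ σ : ℝ, 1 < σ → Summable fun i => N i ^ (-σ)) (hc' : ∀ i, ‖c' i‖ ≤ 1)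
    (hN' : ∀ i, 0 < N' i) (hsum' : ∀ σ : ℝ, 1 < σ → Summable fun i => N' i ^ (-σ)) {δ : ℝ}
    (hδ : δ ≠ 0) (h : Rel δ (SS (Cv hh) c N) (SS (Cv kk) c' N')) {Ψ : ℂ → ℂ}
    (hΨ : DifferentiableOn ℂ Ψ {s | -1 / 2 < s.re})
    (hΨ' : ∀ s : ℂ, 1 < s.re →
      Ψ s = s * cos (π * s) * Gamma s ^ 2 * ∑' i, c i * (N i : ℂ) ^ (-s)) :
    Tendsto (fun s : ℝ => ∑' i, c' i * (N' i : ℂ) ^ (-(s : ℂ))) (𝓝[>] 1)
      (𝓝 (-mellin hh 0 / (GA 1 * mellin kk 1) * Ψ 0 / δ)) := by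
  have hf := nice_hh.pw_Cv.pw_SS hc hN hsum
  have hG := nice_kk.pw_Cv.pw_SS hc' hN' hsum'
  have hU : IsOpen {s : ℂ | -1 / 2 < s.re} := isOpen_lt continuous_const continuous_re
  have hA : DifferentiableOn ℂ (fun s => Ψ s * ((1 / π : ℂ) ^ (s / 2) * Gamma (s / 2 + 1)) *
      mellin hh s) {s | -1 / 2 < s.re} := by
    refine (hΨ.mul fun s hs => ?_).mul fun s hs => ?_
    · have hs' : -1 / 2 < s.re := hs
      exact ((diff_pi s).mul ((diff_Gamma (by simp; linarith)).comp s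
        ((differentiableAt_id.div_const 2).add_const 1))).differentiableWithinAt
    · have hs' : -1 / 2 < s.re := hs
      exact (pw_hh.diff (by linarith)).differentiableWithinAt
  have hB : DifferentiableOn ℂ (fun s => cos (π * s) * Gamma (s + 1) ^ 2 *
      mellin (SS (Cv hh) c N) s) {s | -1 / 2 < s.re} := fun s hs => by
    have hs' : -1 / 2 < s.re := hs
    exact (((differentiableAt_id.const_mul _).ccos.mul (((diff_Gamma (by simp; linarith)).comp s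
      (differentiableAt_id.add_const 1)).pow 2)).mul (h.diff hδ hf hG s)).differentiableWithinAt
  have h1 := (hA.analyticOnNhd hU).eqOn_of_preconnected_of_eventuallyEq (hB.analyticOnNhd hU)
    (convex_halfSpace_re_gt _).isPreconnected (z₀ := 2) (by simp; norm_num) (by
      have : {s : ℂ | 1 < s.re} ∈ 𝓝 (2 : ℂ) :=
        (isOpen_lt continuous_const continuous_re).mem_nhds (by simp)
      filter_upwards [this] with s hs
      have h0 : s ≠ 0 := by rintro rfl; simp at hs; linarith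
      rw [hΨ' s hs, nice_hh.pw_Cv.mellin_SS hc hN hsum hs, nice_hh.mellin_Cv (one_pos.trans hs),
        Gamma_add_one _ h0, Gamma_add_one _ (div_ne_zero h0 two_ne_zero), GA]
      ring) (show (0 : ℂ) ∈ {s : ℂ | -1 / 2 < s.re} by simp; norm_num)
  simp only [zero_div, cpow_zero, zero_add, Gamma_one, mul_one, mul_zero, cos_zero, one_pow,
    one_mul, h.mellin_zero hδ] at h1
  have hD : ContinuousAt (fun s => GA s * mellin kk s) 1 :=
    (diff_GA.mul (nice_kk.pw.diff (by simp))).continuousAt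
  have hD0 := mul_ne_zero GA_ne mellin_kk_ne
  have h2 : ContinuousAt (fun s => mellin (SS (Cv kk) c' N') s / (GA s * mellin kk s)) 1 :=
    ((h.symm hδ).diff hδ hG hf 1).continuousAt.div hD hD0
  have h3 : Tendsto (fun s : ℝ => (s : ℂ)) (𝓝[>] 1) (𝓝 1) :=
    (continuous_ofReal.tendsto 1).mono_left nhdsWithin_le_nhds
  have h4 : -mellin hh 0 / (GA 1 * mellin kk 1) * Ψ 0 / δ =
      mellin (SS (Cv kk) c' N') 1 / (GA 1 * mellin kk 1) := by
    have := ofReal_ne_zero.2 hδ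
    rw [div_mul_eq_mul_div, neg_mul, mul_comm (mellin hh 0), h1]
    field_simp
  rw [h4]
  refine (h2.tendsto.comp h3).congr' ?_
  filter_upwards [self_mem_nhdsWithin, h3.eventually (hD.eventually_ne hD0)] with s hs h5
  have hs' : 1 < (s : ℂ).re := hs
  rw [Function.comp_apply, nice_kk.pw_Cv.mellin_SS hc' hN' hsum' hs',
    nice_kk.mellin_Cv (one_pos.trans hs'), mul_div_cancel_right₀ _ h5]

theorem norm_sign (u : ℝ) : ‖((SignType.sign u : ℝ) : ℂ)‖ ≤ 1 := by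
  rcases lt_trichotomy u 0 with h | h | h <;> simp [h, sign_neg, sign_pos]

theorem rel_of {ι κ : Type} [Countable ι] [Countable κ] {u₁ u₂ : ι → ℝ} {w₁ w₂ : κ → ℝ}
    {e : κ → ℂ} (he : ∀ i, ‖e i‖ ≤ 1) (hN : ∀ i, 0 < |u₁ i * u₂ i|)
    (hsum : ∀ σ : ℝ, 1 < σ → Summable fun i => |u₁ i * u₂ i| ^ (-σ))
    (hN' : ∀ i, 0 < |w₁ i * w₂ i|)
    (hsum' : ∀ σ : ℝ, 1 < σ → Summable fun i => |w₁ i * w₂ i| ^ (-σ)) {δ L : ℝ} (hδ : δ ≠ 0)
    (hL : L ≠ 0) (h : ∀ t : ℝ, 0 < t → ∀ v : ℝ,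
      ∑' p : ι × ℤ, (th1 (u₁ p.1 * Real.exp (L * (v + p.2)))
        (t * u₂ p.1 * Real.exp (-(L * (v + p.2)))) : ℂ) =
      (|t * δ|⁻¹ : ℝ) * ∑' p : κ × ℤ, e p.1 * th2 (w₂ p.1 / δ * Real.exp (-L * (v + p.2)))
        (-w₁ p.1 / (t * δ) * Real.exp (-(-L * (v + p.2))))) :
    Rel δ (SS (Cv hh) (fun i => (SignType.sign (u₂ i) : ℝ)) fun i => |u₁ i * u₂ i|)
      (SS (Cv kk) (fun i => e i * (SignType.sign (w₁ i) : ℝ)) fun i => |w₁ i * w₂ i|) := by
  intro t ht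
  have h1 := nice_hh.unfold_SS (c := fun _ => 1) (by simp) hN hsum (α := u₁)
    (β := fun i => t * u₂ i) ht hL fun i => by
      rw [mul_left_comm, abs_mul, abs_of_pos ht]
  have h2 := nice_kk.unfold_SS he hN' hsum' (α := fun i => w₂ i / δ)
    (β := fun i => -w₁ i / (t * δ)) (t := (t * δ ^ 2)⁻¹) (by positivity) (neg_ne_zero.2 hL)
    fun i => by
      rw [show w₂ i / δ * (-w₁ i / (t * δ)) = -((t * δ ^ 2)⁻¹ * (w₁ i * w₂ i)) by field_simp,
        abs_neg, abs_mul, abs_of_pos (by positivity)]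
  simp only [one_mul, ← th1_eq, h t ht, sign_mul, sign_pos ht] at h1
  simp only [← th2_eq] at h2
  rw [integral_const_mul, h2, inv_neg, abs_neg, mul_left_comm] at h1
  rw [← mul_left_cancel₀ (ofReal_ne_zero.2 (abs_ne_zero.2 (inv_ne_zero hL))) h1, SS, SS,
    ← tsum_mul_left, ← tsum_mul_left]
  refine tsum_congr fun i => ?_
  have h3 : |t * δ|⁻¹ * (SignType.sign (-w₁ i / (t * δ)) : ℝ) =
      -(t * δ)⁻¹ * (SignType.sign (w₁ i) : ℝ) := by
    rcases (mul_ne_zero ht.ne' hδ).lt_or_gt with h4 | h4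
    · rw [abs_of_neg h4, ← div_neg_eq_neg_div', div_eq_mul_inv, sign_mul,
        sign_pos (inv_pos.2 (neg_pos.2 h4)), inv_neg, mul_one]
    · rw [abs_of_pos h4, div_eq_mul_inv, sign_mul, sign_pos (inv_pos.2 h4), mul_one, Left.sign_neg]
      simp
  have h4 := congrArg ofReal h3
  push_cast at h4 ⊢
  linear_combination e i * Cv kk ((t * δ ^ 2)⁻¹ * |w₁ i * w₂ i|) * h4

variable {K : Type} [Field K] [NumberField K]

theorem tsum_fd {ε b₁ b₂ x : K} {D : Set K} {Λ : Submodule ℤ K} (hε : ε ≠ 0) (hI : Ind b₁ b₂)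
    (hΛ : Λ = Submodule.span ℤ {b₁, b₂}) (hs : ∀ k : ℤ, ∀ p ∈ cset Λ x, ε ^ k * p ∈ cset Λ x)
    (hD : FD ε (cset Λ x \ {0}) D) (T : K → ℂ) (hT : T 0 = 0) :
    ∑' p : ℤ × ℤ, T (x + p.1 * b₁ + p.2 * b₂) = ∑' p : D × ℤ, T (ε ^ p.2 * p.1) := by
  have hm : ∀ p, p ∈ cset Λ x ↔ ∃ q : ℤ × ℤ, x + q.1 * b₁ + q.2 * b₂ = p := fun p => by
    simp only [cset, hΛ, mem_setOf_eq, Submodule.mem_span_pair, zsmul_eq_mul, Prod.exists,
      eq_sub_iff_add_eq', add_assoc]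
  have h1 : Function.Injective fun q : ℤ × ℤ => x + q.1 * b₁ + q.2 * b₂ := fun p q h => by
    have := hI (p.1 - q.1 : ℤ) (p.2 - q.2 : ℤ) (by push_cast; linear_combination h)
    simp only [Int.cast_eq_zero, sub_eq_zero] at this
    exact Prod.ext this.1 this.2
  have h2 : Function.Injective fun p : D × ℤ => ε ^ p.2 * p.1 := fun p q h => by
    have h3 : ε ^ (p.2 - q.2) * p.1 = q.1 := by
      rw [zpow_sub₀ hε, div_mul_eq_mul_div, div_eq_iff (zpow_ne_zero _ hε)]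
      exact h.trans (mul_comm _ _)
    have h4 : p.2 - q.2 = 0 := (hD.2 _ (hD.1 p.1.2)).unique (h3 ▸ q.1.2) (by simpa using p.1.2)
    rw [h4, zpow_zero, one_mul] at h3
    exact Prod.ext (Subtype.ext h3) (sub_eq_zero.1 h4)
  have h3 := h1.tsum_eq (f := (cset Λ x).indicator T) fun p hp =>
    (hm p).1 (support_indicator_subset hp)
  have h4 := h2.tsum_eq (f := (cset Λ x).indicator T) fun p hp => by
    have h5 : p ∈ cset Λ x := support_indicator_subset hp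
    obtain ⟨k, hk, -⟩ := hD.2 p ⟨h5, by rintro rfl; exact hp (by simp [indicator, hT])⟩
    exact ⟨(⟨_, hk⟩, -k), by simp [← mul_assoc, zpow_ne_zero _ hε]⟩
  rw [← h4] at h3
  refine (tsum_congr fun p => ?_).trans (h3.trans (tsum_congr fun p => ?_))
  · exact (indicator_of_mem ((hm _).2 ⟨p, rfl⟩) T).symm
  · exact indicator_of_mem (hs _ _ (hD.1 p.1.2).1) T

theorem det_int (σ₁ σ₂ : K →+* ℝ) {b₁ b₂ y z : K} (hy : y ∈ Submodule.span ℤ {b₁, b₂})
    (hz : z ∈ Submodule.span ℤ {b₁, b₂}) :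
    ∃ m : ℤ, σ₁ y * σ₂ z - σ₂ y * σ₁ z = m * (σ₁ b₁ * σ₂ b₂ - σ₂ b₁ * σ₁ b₂) := by
  obtain ⟨a, b, rfl⟩ := Submodule.mem_span_pair.1 hy
  obtain ⟨c, d, rfl⟩ := Submodule.mem_span_pair.1 hz
  refine ⟨a * d - b * c, ?_⟩
  simp only [zsmul_eq_mul, map_add, map_mul, map_intCast]
  push_cast
  ring

theorem stab {ε x : K} {n : ℕ} {Λ : Submodule ℤ K} (hε : ε ≠ 0) (hq : (ε - 1) ^ 2 = n * ε)
    (hs : ∀ y ∈ Λ, ε * y ∈ Λ) (hx : Tor ε Λ x) (k : ℤ) : ∀ p ∈ cset Λ x, ε ^ k * p ∈ cset Λ x := by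
  have h0 : ∀ y ∈ Λ, ε⁻¹ * y ∈ Λ := fun y hy => by
    have := Λ.sub_mem (Λ.smul_mem ((n : ℤ) + 2) hy) (hs y hy)
    convert this using 1
    rw [zsmul_eq_mul]
    push_cast
    field_simp
    linear_combination y * hq
  induction k using Int.induction_on with
  | zero => simp
  | succ k ih =>
    intro p hp
    have := Λ.add_mem (hs _ (ih p hp)) hx
    convert this using 1
    simp only [cset, mem_setOf_eq, zpow_add_one₀ hε]
    congr! 1
    ring
  | pred k ih =>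
    intro p hp
    have := h0 _ (Λ.sub_mem (ih p hp) hx)
    convert this using 1
    simp only [cset, mem_setOf_eq, zpow_sub_one₀ hε]
    congr! 1
    field_simp
    ring

end FE1

open FE1 in
theorem blockFE1 (h : StmtTheta) (_hA : StmtAN) : StmtFE1 := by
  refine ⟨-mellin hh 0 / (GA 1 * mellin kk 1), fun K _ _ σ₁ σ₂ c hK ε n hε Λ b₁ b₂ x δ D D' W hΛ hI
    hb hδ hx hD hD' hs hs' ⟨Ψ, hΨ, hW, hΨ'⟩ => ?_⟩
  haveI : Countable K := (Module.finBasis ℚ K).equivFun.toEquiv.countable_iff.2 inferInstance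
  have hdet : ∀ y ∈ Λ, ∀ z ∈ Λ, ∃ m : ℤ, σ₁ y * σ₂ z - σ₂ y * σ₁ z = m * δ := fun y hy z hz =>
    hδ ▸ det_int σ₁ σ₂ (hb ▸ hy) (hb ▸ hz)
  have hδ0 : δ ≠ 0 := fun h0 => hK.ne (RingHom.ext fun z => by
    obtain ⟨m, hm, h1⟩ := hΛ.1.2 1
    obtain ⟨m', hm', h2⟩ := hΛ.1.2 z
    obtain ⟨k, hk⟩ := hdet _ h1 _ h2
    simp only [h0, mul_zero, mul_one, map_mul, map_natCast] at hk
    have h3 : (m * m' : ℝ) ≠ 0 := by positivity
    exact mul_left_cancel₀ h3 (by linear_combination hk))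
  have hε1 : 0 < σ₁ ε := one_pos.trans hε.one_lt
  have hε0 : ε ≠ 0 := by rintro rfl; simp at hε1
  have hL : Real.log (σ₁ ε) ≠ 0 := (Real.log_pos hε.one_lt).ne'
  have e1 : ∀ k : ℤ, σ₁ (ε ^ k) = Real.exp (Real.log (σ₁ ε) * k) := fun k => by
    rw [map_zpow₀, ← Real.rpow_def_of_pos hε1, Real.rpow_intCast]
  have e2 : ∀ k : ℤ, σ₂ (ε ^ k) = (Real.exp (Real.log (σ₁ ε) * k))⁻¹ := fun k => by
    rw [← e1, map_zpow₀, map_zpow₀, ← inv_zpow, eq_inv_of_mul_eq_one_right hε.norm]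
  have hN : ∀ {Y E : Set K}, FD ε (Y \ {0}) E → ∀ p : E, 0 < |σ₁ p * σ₂ p| := fun hE p =>
    abs_pos.2 (mul_ne_zero ((map_ne_zero _).2 (hE.1 p.2).2) ((map_ne_zero _).2 (hE.1 p.2).2))
  have hee : ∀ r : ℝ, ‖ee r‖ ≤ 1 := fun r => by simp [ee, norm_exp]
  have hst := stab hε0 hε.quad hΛ.2 hx
  have hst0 := stab (x := 0) hε0 hε.quad hΛ.2 (by simp [Tor])
  have hrel := rel_of (u₁ := fun p : D => σ₁ p) (u₂ := fun p => σ₂ p) (w₁ := fun p : D' => σ₁ p)
    (w₂ := fun p => σ₂ p) (e := fun p => ee ((σ₁ x * σ₂ p - σ₂ x * σ₁ p) / δ : ℝ))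
    (fun _ => hee _) (hN hD) hs (hN hD') hs' hδ0 hL fun t ht v => by
      set L := Real.log (σ₁ ε)
      set y := Real.exp (L * v) with hy
      have hy0 : y ≠ 0 := Real.exp_ne_zero _
      have h1 := h (y * σ₁ x) (t / y * σ₂ x) (y * σ₁ b₁) (t / y * σ₂ b₁) (y * σ₁ b₂)
        (t / y * σ₂ b₂) (t * δ) (by rw [hδ]; field_simp) (mul_ne_zero ht.ne' hδ0)
      have h2 := tsum_fd hε0 hI hb hst hD (fun p => th1 (y * σ₁ p) (t / y * σ₂ p)) (by simp [th1])
      have h3 := tsum_fd hε0 hI hb hst0 hD' (fun p => ee ((σ₁ x * σ₂ p - σ₂ x * σ₁ p) / δ : ℝ) *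
        th2 (t / y * σ₂ p / (t * δ)) (-(y * σ₁ p) / (t * δ))) (by simp [th2])
      refine (tsum_congr fun p => ?_).trans (h2.symm.trans ((tsum_congr fun p => ?_).trans
        (h1.trans (congrArg _ ((tsum_congr fun p => ?_).trans
          (h3.trans (tsum_congr fun p => ?_)))))))
      · rw [map_mul, map_mul, e1, e2, Real.exp_neg, mul_add, Real.exp_add, ← hy]
        congr 2
        · ring
        · field_simp
      · simp only [map_add, map_mul, map_intCast]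
        congr 2 <;> ring
      · simp only [map_add, map_mul, map_intCast, zero_add]
        congr 2
        · congr 1
          field_simp
        · ring
        · ring
      · obtain ⟨m, hm⟩ := hdet _ (hst (-p.2) x (by simp [cset])) p.1
          (by simpa [cset] using (hD'.1 p.1.2).1)
        have h4 : (σ₁ x * σ₂ (ε ^ p.2 * p.1) - σ₂ x * σ₁ (ε ^ p.2 * p.1)) / δ =
            (σ₁ x * σ₂ p.1 - σ₂ x * σ₁ p.1) / δ + m := by
          simp only [map_sub, map_mul, e1, e2, Int.cast_neg, mul_neg, Real.exp_neg, inv_inv] at hm ⊢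
          rw [div_add' _ _ _ hδ0, ← hm]
          ring
        rw [h4, map_mul, map_mul, e1, e2, neg_mul, neg_neg, Real.exp_neg, mul_add, Real.exp_add,
          ← hy, ee, ee, ofReal_add, mul_add, exp_add, ofReal_intCast, mul_comm _ (m : ℂ),
          exp_int_mul_two_pi_mul_I, mul_one]
        congr 2
        · field_simp
        · ring
  have := limit (fun _ => norm_sign _) (hN hD) hs (fun p => by
    rw [norm_mul]; exact mul_le_one₀ (hee _) (norm_nonneg _) (norm_sign _)) (hN hD') hs' hδ0 hrel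
    hΨ hΨ'
  simpa only [zTerm, mul_assoc, hW] using this

end Pool.Agent.Lib.Stark
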