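import Pool.Agent.Lib.stark.FE2a

open Complex NumberField Filter Topology Ideal
open scoped Real nonZeroDivisors

namespace Pool.Agent.Lib.Stark

set_option linter.unusedSectionVars false

namespace FE2

open FractionalIdeal (spanSingleton)

variable {K : Type} [Field K] [NumberField K] {σ₁ σ₂ : K →+* ℝ} {c : K ≃+* K}

theorem exists_id {a : FractionalIdeal (𝓞 K)⁰ K} (ha : a ≠ 0) {p : K} (hp : p ∈ a) :
    ∃ I : Ideal (𝓞 K), (I : FractionalIdeal (𝓞 K)⁰ K) = spanSingleton (𝓞 K)⁰ p * a⁻¹ := by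
  refine FractionalIdeal.le_one_iff_exists_coeIdeal.1 ?_
  rw [← mul_inv_cancel₀ ha]
  exact mul_le_mul_left (FractionalIdeal.spanSingleton_le_iff_mem.2 hp) _

theorem ne_top {ε : 𝓞 K} {n : ℕ} (hL : Lev σ₁ σ₂ (ε : K) n) (hN : NR ε) :
    (1 : 𝓞 K) ∉ span {ε - 1} := fun h => by
  obtain ⟨k, hk⟩ := hN (-1) (by rw [(eq_top_iff_one _).2 h]; trivial)
  have h1 := zpow_pos (one_pos.trans hL.one_lt) k
  rw [← map_zpow₀, ← hk] at h1
  simp at h1
  linarith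

theorem zpow_mem (h : RQ σ₁ σ₂ c) {ε : 𝓞 K} {n : ℕ} (hL : Lev σ₁ σ₂ (ε : K) n) (k : ℤ) :
    ∃ o o' w : 𝓞 K, (ε : K) ^ k = o ∧ o * o' = 1 ∧ o = 1 + (ε - 1) * w := by
  have he := conj_eps h hL
  let e' : 𝓞 K := RingOfIntegers.mapRingEquiv c ε
  have he' : ε * e' = 1 := RingOfIntegers.ext he
  have h0 : (ε : K) ≠ 0 := left_ne_zero_of_mul_eq_one he
  induction k using Int.induction_on with
  | zero => exact ⟨1, 1, 0, by simp, by simp, by simp⟩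
  | succ k ih =>
    obtain ⟨o, o', w, h1, h2, h3⟩ := ih
    refine ⟨o * ε, o' * e', w * ε + 1, by rw [zpow_add_one₀ h0, h1]; simp, ?_, ?_⟩
    · linear_combination (ε * e') * h2 + he'
    · rw [h3]; ring
  | pred k ih =>
    obtain ⟨o, o', w, h1, h2, h3⟩ := ih
    refine ⟨o * e', o' * ε, (w - 1) * e', ?_, ?_, ?_⟩
    · rw [zpow_sub_one₀ h0, h1, ← eq_inv_of_mul_eq_one_right he]; rfl
    · linear_combination (ε * e') * h2 + he'
    · rw [h3]; linear_combination he'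

theorem forward {ε : 𝓞 K} {n : ℕ} (hL : Lev σ₁ σ₂ (ε : K) n) (hN : NR ε)
    {a : FractionalIdeal (𝓞 K)⁰ K} (ha : a ≠ 0) {μ : K} {J : Ideal (𝓞 K)}
    (hJ : Cop (span {ε - 1}) J)
    (hJe : (J : FractionalIdeal (𝓞 K)⁰ K) = spanSingleton (𝓞 K)⁰ μ * a⁻¹) :
    ∃ (t : 𝓞 K) (w : K), t ≠ 0 ∧ t - 1 ∈ span {ε - 1} ∧ (t : K) = μ * w ∧
      ∀ p z : K, z ∈ a → p - μ = (ε - 1) * z → ∃ α : 𝓞 K, α - 1 ∈ span {ε - 1} ∧ (α : K) = p * w := by
  obtain ⟨t, ht, u, hu, e⟩ := Submodule.mem_sup.1 ((eq_top_iff_one _).1 hJ.1)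
  have ht1 : t - 1 ∈ span {ε - 1} := by
    rw [show t - 1 = -u by rw [← e]; ring]; exact neg_mem hu
  have h1 := FractionalIdeal.mem_coeIdeal_of_mem (𝓞 K)⁰ (P := K) ht
  rw [hJe] at h1
  obtain ⟨w, hw, e2⟩ := FractionalIdeal.mem_singleton_mul.1 h1
  refine ⟨t, w, ?_, ht1, e2, fun p z hz e3 => ?_⟩
  · rintro rfl
    exact ne_top hL hN (by simpa using neg_mem ht1)
  · obtain ⟨o, ho⟩ := (FractionalIdeal.mem_one_iff (𝓞 K)⁰).1
      ((FractionalIdeal.mem_inv_iff ha).1 hw z hz)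
    refine ⟨t + (ε - 1) * o, ?_, ?_⟩
    · have := add_mem ht1 (Ideal.mul_mem_right o _ (mem_span_singleton_self (ε - 1)))
      convert this using 1; ring
    · change algebraMap (𝓞 K) K (t + (ε - 1) * o) = _
      rw [map_add, map_mul, map_sub, map_one, ho, e2]
      change μ * w + ((ε : K) - 1) * (w * z) = _
      linear_combination -w * e3

theorem pow_aux {N : ℕ} {M m q : ℝ} (hM : 0 < M) (hm : 0 < m) (hq : 0 ≤ q) (e : N * m = M * q)
    (s : ℝ) : (N : ℂ) ^ (-(s : ℂ)) = ((m / M) ^ s : ℝ) * (q : ℂ) ^ (-(s : ℂ)) := by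
  have e4 : (N : ℝ) ^ (-s) = (m / M) ^ s * q ^ (-s) := by
    rw [← inv_div, Real.inv_rpow (by positivity), ← Real.rpow_neg (by positivity),
      ← Real.mul_rpow (by positivity) (by positivity)]
    congr 1
    field_simp
    exact e
  rw [← ofReal_neg, ← ofReal_natCast, ← ofReal_cpow (by positivity), ← ofReal_cpow hq, e4]
  push_cast; ring

open Classical in
theorem ideal_sum (h : RQ σ₁ σ₂ c) {ε : 𝓞 K} {n : ℕ} (hL : Lev σ₁ σ₂ (ε : K) n) (hN : NR ε)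
    {B : Type} [CommGroup B] {κ : Ideal (𝓞 K) → B} (hκ : Univ Set.univ (span {ε - 1}) κ)
    {a : FractionalIdeal (𝓞 K)⁰ K} (ha : a ≠ 0) {μ : K} (hμ : μ ∈ a) (hμ1 : 0 < σ₁ μ)
    {J : Ideal (𝓞 K)} (hJ : Cop (span {ε - 1}) J)
    (hJe : (J : FractionalIdeal (𝓞 K)⁰ K) = spanSingleton (𝓞 K)⁰ μ * a⁻¹) {D : Set K}
    (hD : FD (ε : K) (cset (lat a) 0 \ {0}) D) (s : ℝ) :
    LS (span {ε - 1}) (fun I => eta σ₁ (span {ε - 1}) κ ((κ J)⁻¹ * κ I)) s =
      ((|σ₁ μ * σ₂ μ| / absNorm J) ^ s : ℝ) *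
        ∑' p : D, if ∃ z ∈ a, (p : K) - μ = (ε - 1) * z then zTerm σ₁ σ₂ σ₁ s p else 0 := by
  obtain ⟨t, w, t0, t1, tw, hw⟩ := forward hL hN ha hJ hJe
  have hμ0 : μ ≠ 0 := by rintro rfl; simp at hμ1
  have w0 : w ≠ 0 := by rintro rfl; exact t0 (by simpa using tw)
  have hDa : ∀ p : D, (p : K) ∈ a ∧ (p : K) ≠ 0 := fun p =>
    ⟨by simpa [cset, mem_lat] using (hD.1 p.2).1, (hD.1 p.2).2⟩
  choose id hid using fun p : D => exists_id ha (hDa p).1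
  have key : ∀ p : D, (∃ z ∈ a, (p : K) - μ = (ε - 1) * z) → ∃ α : 𝓞 K, α ≠ 0 ∧
      α - 1 ∈ span {ε - 1} ∧ (α : K) = p * w ∧ span {t} * id p = span {α} * J ∧
      Cop (span {ε - 1}) (id p) := by
    rintro p ⟨z, hz, e⟩
    obtain ⟨α, h1, h2⟩ := hw p z hz e
    have h0 : α ≠ 0 := by
      rintro rfl
      exact mul_ne_zero (hDa p).2 w0 (by simpa using h2.symm)
    have h3 : span {t} * id p = span {α} * J := by
      apply FractionalIdeal.coeIdeal_injective (K := K)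
      simp only [FractionalIdeal.coeIdeal_mul, FractionalIdeal.coeIdeal_span_singleton, hid, hJe,
        ← mul_assoc, FractionalIdeal.spanSingleton_mul_spanSingleton]
      congr 2
      change (t : K) * p = (α : K) * μ
      rw [tw, h2]; ring
    have h4 := cop_mul (cop_one h0 h1) hJ
    rw [← h3] at h4
    exact ⟨α, h0, h1, h2, h3, top_le_iff.1 (h4.1.ge.trans (sup_le_sup_right mul_le_right _)),
      right_ne_zero_of_mul h4.2⟩
  rw [← tsum_mul_left, LS]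
  have hsup : ∀ p : Function.support fun p : D => (((|σ₁ μ * σ₂ μ| / absNorm J) ^ s : ℝ) : ℂ) *
      if ∃ z ∈ a, (p : K) - μ = (ε - 1) * z then zTerm σ₁ σ₂ σ₁ s p else 0,
      ∃ z ∈ a, (p.1 : K) - μ = (ε - 1) * z := fun p => by
    by_contra hc
    exact p.2 (by simp only [if_neg hc, mul_zero])
  refine tsum_eq_tsum_of_ne_zero_bij
    (fun p => ⟨id p.1, (key p.1 (hsup p)).choose_spec.2.2.2.2⟩) ?_ ?_ ?_
  · intro p p' e
    have e1 : id p.1 = id p'.1 := congrArg Subtype.val e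
    obtain ⟨α, h0, h1, h2, h3, -⟩ := key p.1 (hsup p)
    obtain ⟨α', h0', h1', h2', h3', -⟩ := key p'.1 (hsup p')
    rw [e1, h3'] at h3
    obtain ⟨u, hu⟩ := span_singleton_eq_span_singleton.1 (mul_right_cancel₀ hJ.2 h3)
    obtain ⟨k, hk⟩ := hN u (by
      have := sub_mem h1 (Ideal.mul_mem_right (u : 𝓞 K) _ h1')
      convert this using 1; rw [← hu]; ring)
    have e2 : (ε : K) ^ k * p'.1 = p.1 := by
      refine mul_right_cancel₀ w0 ?_
      rw [← h2, ← hu, ← hk, mul_assoc, ← h2']; simp [mul_comm]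
    have := (hD.2 _ (hD.1 p'.1.2)).unique (y₁ := k) (y₂ := 0) (by rw [e2]; exact p.1.2)
      (by simp)
    rw [this, zpow_zero, one_mul] at e2
    exact Subtype.ext (Subtype.ext e2.symm)
  · rintro ⟨I, hI⟩ hne
    have h1 : ∃ α : 𝓞 K, α ≠ 0 ∧ α - 1 ∈ span {ε - 1} ∧ κ (span {α}) = (κ J)⁻¹ * κ I := by
      by_contra hc
      exact hne (by simp only [eta, dif_neg hc, zero_mul])
    obtain ⟨γ, g0, g1, g2⟩ := h1
    obtain ⟨α, β, a0, b0, a1, b1, -, e⟩ := (hκ.ker I _ hI (cop_mul (cop_one g0 g1) hJ)).1 (by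
      rw [hκ.hom.mul _ _ (cop_one g0 g1) hJ, g2, inv_mul_cancel_comm])
    have a0' : (α : K) ≠ 0 := by simpa using a0
    let p : K := β * γ * μ / α
    have hp : (I : FractionalIdeal (𝓞 K)⁰ K) = spanSingleton (𝓞 K)⁰ p * a⁻¹ := by
      have e1 := congrArg (fun I : Ideal (𝓞 K) => (I : FractionalIdeal (𝓞 K)⁰ K)) e
      simp only [FractionalIdeal.coeIdeal_mul, FractionalIdeal.coeIdeal_span_singleton, hJe,
        ← mul_assoc, FractionalIdeal.spanSingleton_mul_spanSingleton] at e1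
      refine mul_left_cancel₀ (FractionalIdeal.spanSingleton_ne_zero_iff.2 a0') (e1.trans ?_)
      rw [← mul_assoc, FractionalIdeal.spanSingleton_mul_spanSingleton]
      congr 2
      change (β : K) * γ * μ = α * p
      simp only [p]; field_simp
    have hpa : p ∈ a := by
      rw [← FractionalIdeal.spanSingleton_le_iff_mem, ← one_mul a, ← mul_inv_le_iff₀
        (pos_iff_ne_zero.2 ha), ← hp]
      exact FractionalIdeal.coeIdeal_le_one
    have p0 : p ≠ 0 := div_ne_zero (mul_ne_zero (mul_ne_zero (by simpa using b0)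
      (by simpa using g0)) hμ0) a0'
    obtain ⟨x, hx⟩ := mem_span_singleton'.1 a1
    obtain ⟨y, hy⟩ := mem_span_singleton'.1 (one_mul_mem b1 g1)
    have hx' : (x : K) * (ε - 1) = α - 1 := by exact_mod_cast congrArg (algebraMap (𝓞 K) K) hx
    have hy' : (y : K) * (ε - 1) = β * γ - 1 := by
      exact_mod_cast congrArg (algebraMap (𝓞 K) K) hy
    have hpe : α * p = β * γ * μ := by simp only [p]; field_simp
    obtain ⟨k, hk, -⟩ := hD.2 p ⟨by simpa [cset, mem_lat] using hpa, p0⟩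
    obtain ⟨o, o', v, e1, e2, e3⟩ := zpow_mem h hL k
    have e3' : (o : K) = 1 + (ε - 1) * v := by exact_mod_cast congrArg (algebraMap (𝓞 K) K) e3
    have hz : ∃ z ∈ a, (ε : K) ^ k * p - μ = (ε - 1) * z := by
      refine ⟨y * μ - x * p + v * p, (lat a).add_mem ((lat a).sub_mem (smul_mem _ hμ)
        (smul_mem _ hpa)) (smul_mem _ hpa), ?_⟩
      rw [e1, e3']
      linear_combination hpe - μ * hy' + p * hx'
    refine ⟨⟨⟨_, hk⟩, ?_⟩, Subtype.ext ?_⟩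
    · have hN0 : (0 : ℝ) < absNorm J := by
        exact_mod_cast Nat.pos_of_ne_zero (absNorm_eq_zero_iff.not.2 hJ.2)
      have q0 : (ε : K) ^ k * p ≠ 0 := (hD.1 hk).2
      simp only [Function.mem_support, if_pos hz, zTerm]
      refine mul_ne_zero (ofReal_ne_zero.2 (Real.rpow_pos_of_pos (div_pos (abs_pos.2 (by
        simp [hμ0])) hN0) _).ne') (mul_ne_zero ?_ ?_)
      · rcases ((map_ne_zero σ₁).2 q0).lt_or_gt with h0 | h0
        · rw [sign_neg h0]; simp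
        · rw [sign_pos h0]; simp
      · rw [Ne, cpow_eq_zero_iff, not_and_or]
        left
        exact ofReal_ne_zero.2 (abs_ne_zero.2 (mul_ne_zero ((map_ne_zero σ₁).2 q0)
          ((map_ne_zero σ₂).2 q0)))
    · apply FractionalIdeal.coeIdeal_injective (K := K)
      simp only [hid, hp, e1]
      rw [← FractionalIdeal.spanSingleton_mul_spanSingleton,
        ← FractionalIdeal.coeIdeal_span_singleton,
        span_singleton_eq_top.2 (IsUnit.of_mul_eq_one _ e2), FractionalIdeal.coeIdeal_top, one_mul]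
  · intro p
    obtain ⟨α, h0, h1, h2, h3, h4⟩ := key p.1 (hsup p)
    have e1 : (κ J)⁻¹ * κ (id p.1) = κ (span {α * t}) := by
      have e := congrArg κ h3
      rw [hκ.hom.mul _ _ (cop_one t0 t1) h4, hκ.hom.mul _ _ (cop_one h0 h1) hJ] at e
      rw [kap_mul hκ.hom h0 h1 t0 t1, inv_mul_eq_iff_eq_mul, ← mul_assoc, mul_comm (κ J), ← e,
        mul_right_comm, kap_sq hκ.hom t0 t1, one_mul]
    have e2 : SignType.sign (σ₁ ((α * t : 𝓞 K) : K)) = SignType.sign (σ₁ p.1) := by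
      have : σ₁ ((α * t : 𝓞 K) : K) = σ₁ p.1 * (σ₁ μ * σ₁ w ^ 2) := by
        simp only [map_mul, h2, tw]; ring
      rw [this, sign_mul, sign_pos (mul_pos hμ1 (by
        have : σ₁ w ≠ 0 := by simpa using w0
        positivity)), mul_one]
    have e3 : (absNorm (id p.1) : ℝ) * |σ₁ μ * σ₂ μ| = absNorm J * |σ₁ p.1 * σ₂ p.1| := by
      have e : (id p.1 : FractionalIdeal (𝓞 K)⁰ K) * spanSingleton (𝓞 K)⁰ μ =
          J * spanSingleton (𝓞 K)⁰ (p.1 : K) := by rw [hid, hJe]; ring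
      have e' := congrArg (fun x => ((FractionalIdeal.absNorm x : ℚ) : ℝ)) e
      simpa only [map_mul, FractionalIdeal.coeIdeal_absNorm,
        FractionalIdeal.absNorm_span_singleton, Rat.cast_mul, Rat.cast_abs, Rat.cast_natCast,
        MP_6bf7a3_nt.norm_eq_mul h.rank h.ne] using e'
    have hN0 : (0 : ℝ) < absNorm J := by
      exact_mod_cast Nat.pos_of_ne_zero (absNorm_eq_zero_iff.not.2 hJ.2)
    have hm0 : 0 < |σ₁ μ * σ₂ μ| := abs_pos.2 (by simp [hμ0])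
    simp only [e1, eta_eq hL hN hκ (mul_ne_zero h0 t0) (one_mul_mem h1 t1), e2, if_pos (hsup p),
      zTerm]
    rw [pow_aux hN0 hm0 (abs_nonneg _) e3 s]
    ring

theorem exists_fd (h : RQ σ₁ σ₂ c) (hb : StmtBasic K σ₁ σ₂ c) {ε : 𝓞 K} {n : ℕ}
    (hL : Lev σ₁ σ₂ (ε : K) n) {a : FractionalIdeal (𝓞 K)⁰ K} {t : K}
    (ht : Tor (ε : K) (lat a) t) : ∃ D, FD (ε : K) (cset (lat a) t \ {0}) D := by
  have he := conj_eps h hL
  have h0 : (ε : K) ≠ 0 := left_ne_zero_of_mul_eq_one he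
  refine hb.fd _ n _ hL (by simp) fun p => ?_
  simp only [Set.mem_diff, Set.mem_singleton_iff, mul_eq_zero, h0, false_or, cset,
    Set.mem_setOf_eq]
  refine and_congr_left fun _ => ⟨fun hp => ?_, fun hp => ?_⟩
  · have := conj_mem (c := c) ε ((lat a).sub_mem hp ht)
    rw [mem_lat]
    convert this using 1
    linear_combination (t - p) * he
  · have := (lat a).add_mem (smul_mem ε hp) ht
    convert this using 1
    ring

open Classical in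
theorem limit (h1 : StmtSH2) (h : RQ σ₁ σ₂ c) (hb : StmtBasic K σ₁ σ₂ c) {ε : 𝓞 K} {n : ℕ}
    (hL : Lev σ₁ σ₂ (ε : K) n) (hN : NR ε) {κ₀ : ℂ}
    (h2 : ∀ (Λ : Submodule ℤ K) (b₁ b₂ x : K) (δ : ℝ) (D D' : Set K)
      (W : ℂ), SL (ε : K) Λ → Ind b₁ b₂ → Λ = Submodule.span ℤ {b₁, b₂} →
      δ = σ₁ b₁ * σ₂ b₂ - σ₂ b₁ * σ₁ b₂ → Tor (ε : K) Λ x → FD (ε : K) (cset Λ x \ {0}) D →
      FD (ε : K) (cset Λ 0 \ {0}) D' →
      (∀ s : ℝ, 1 < s → Summable fun p : D => |σ₁ p * σ₂ p| ^ (-s)) →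
      (∀ s : ℝ, 1 < s → Summable fun p : D' => |σ₁ p * σ₂ p| ^ (-s)) → ZW σ₁ σ₂ D W →
      Tendsto (fun s : ℝ => ∑' p : D',
        ee ((σ₁ x * σ₂ p - σ₂ x * σ₁ p) / δ : ℝ) * zTerm σ₁ σ₂ σ₁ s p) (𝓝[>] 1)
        (𝓝 (κ₀ * W / δ)))
    {B : Type} [CommGroup B] {κ : Ideal (𝓞 K) → B} (hκ : Univ Set.univ (span {ε - 1}) κ)
    {a : FractionalIdeal (𝓞 K)⁰ K} (ha : a ≠ 0) {μ : K} (hμ : μ ∈ a) (hμ1 : 0 < σ₁ μ)
    {J : Ideal (𝓞 K)} (hJ : Cop (span {ε - 1}) J)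
    (hJe : (J : FractionalIdeal (𝓞 K)⁰ K) = spanSingleton (𝓞 K)⁰ μ * a⁻¹) {b₁ b₂ : K}
    (hI : Ind b₁ b₂) (hΛ : lat a = Submodule.span ℤ {b₁, b₂}) {R : Finset K}
    (hR₁ : ∀ t ∈ R, Tor (ε : K) (lat a) t)
    (hR₂ : ∀ y, Tor (ε : K) (lat a) y → ∃! t, t ∈ R ∧ y - t ∈ lat a) :
    Tendsto (fun s : ℝ =>
      LS (span {ε - 1}) (fun I => eta σ₁ (span {ε - 1}) κ ((κ J)⁻¹ * κ I)) s) (𝓝[>] 1)
      (𝓝 ((|σ₁ μ * σ₂ μ| / absNorm J : ℝ) * ((R.card : ℂ)⁻¹ * ∑ t ∈ R,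
        ee (dt σ₁ σ₂ t (-μ) / dt σ₁ σ₂ b₁ b₂ : ℝ) * (κ₀ *
          (Real.log ‖FF σ₁ ε a (-t)‖ - Real.log ‖FF σ₁ ε a t‖ : ℝ) / dt σ₁ σ₂ b₁ b₂)))) := by
  have hT0 : Tor (ε : K) (lat a) 0 := by simp [Tor]
  obtain ⟨D', hD'⟩ := exists_fd h hb hL hT0
  have hS := hb.sl ε a ha
  have hs' := (h1 K σ₁ σ₂ c h ε n hL _ _ _ hS hT0 hD').1
  have hc : (R.card : ℂ) ≠ 0 := by
    obtain ⟨t, ht, -⟩ := hR₂ 0 hT0
    exact Nat.cast_ne_zero.2 (Finset.card_ne_zero.2 ⟨t, ht.1⟩)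
  have hμ0 : μ ≠ 0 := by rintro rfl; simp at hμ1
  have hpos : 0 < |σ₁ μ * σ₂ μ| / absNorm J := div_pos (abs_pos.2 (by simp [hμ0]))
    (by exact_mod_cast Nat.pos_of_ne_zero (absNorm_eq_zero_iff.not.2 hJ.2))
  have l1 : Tendsto (fun s : ℝ => (((|σ₁ μ * σ₂ μ| / absNorm J) ^ s : ℝ) : ℂ)) (𝓝[>] 1)
      (𝓝 (|σ₁ μ * σ₂ μ| / absNorm J : ℝ)) := by
    have := (Real.continuousAt_const_rpow (b := 1) hpos.ne').tendsto
    rw [Real.rpow_one] at this
    exact ((continuous_ofReal.tendsto _).comp this).mono_left nhdsWithin_le_nhds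
  have l2 := tendsto_finsetSum R fun t ht => by
    obtain ⟨D, hD⟩ := exists_fd h hb hL (hR₁ t ht)
    obtain ⟨g1, g2⟩ := h1 K σ₁ σ₂ c h ε n hL _ _ _ hS (hR₁ t ht) hD
    exact (h2 _ b₁ b₂ t (dt σ₁ σ₂ b₁ b₂) D D' _ hS hI hΛ rfl (hR₁ t ht) hD hD' g1 hs'
      g2).const_mul (ee (dt σ₁ σ₂ t (-μ) / dt σ₁ σ₂ b₁ b₂ : ℝ))
  refine (l1.mul (l2.const_mul (R.card : ℂ)⁻¹)).congr'
    (eventually_nhdsWithin_of_forall fun s hs => ?_)
  simp only [ideal_sum h hL hN hκ ha hμ hμ1 hJ hJe hD']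
  congr 1
  rw [inv_mul_eq_iff_eq_mul₀ hc]
  simp only [← tsum_mul_left]
  rw [← Summable.tsum_finsetSum fun t _ => ?_]
  · refine tsum_congr fun p => ?_
    have hp : (p : K) - μ ∈ a :=
      (lat a).sub_mem (by simpa [cset] using (hD'.1 p.2).1) hμ
    have := congrArg (· * zTerm σ₁ σ₂ σ₁ s p) (orth h hb hL hI hΛ hR₁ hR₂ hp)
    simp only [Finset.sum_mul, ite_mul, zero_mul] at this
    rw [mul_ite, mul_zero, ← this]
    refine Finset.sum_congr rfl fun t _ => ?_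
    rw [← mul_assoc, ← ee_add]
    congr 2
    simp only [dt, map_neg, map_sub]
    push_cast; ring
  · refine (hs' s hs).of_norm_bounded fun p => ?_
    simp only [norm_mul, norm_ee, one_mul, zTerm]
    rw [← ofReal_neg, ← ofReal_cpow (abs_nonneg _), norm_real, norm_real,
      Real.norm_of_nonneg (Real.rpow_nonneg (abs_nonneg _) _)]
    refine mul_le_of_le_one_left (Real.rpow_nonneg (abs_nonneg _) _) ?_
    generalize SignType.sign (σ₁ p) = x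
    rcases x <;> simp

theorem dt_add (x x' y : K) : dt σ₁ σ₂ (x + x') y = dt σ₁ σ₂ x y + dt σ₁ σ₂ x' y := by
  simp only [dt, map_add]; ring

theorem mem_cI {b : Ideal (𝓞 K)} {β : 𝓞 K} (hβ : β ∈ b) :
    RingOfIntegers.mapRingEquiv c β ∈ cI c b := mem_map_of_mem _ hβ

theorem index (h : RQ σ₁ σ₂ c) (hb : StmtBasic K σ₁ σ₂ c) {a a' : FractionalIdeal (𝓞 K)⁰ K}
    {b : Ideal (𝓞 K)} (ea : a' = a * b) (hb0 : b ≠ ⊥) {u₁ u₂ v₁ v₂ : K} (hu : Ind u₁ u₂)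
    (hv : Ind v₁ v₂) (eu : lat a' = Submodule.span ℤ {u₁, u₂}) (ev : lat a = Submodule.span ℤ {v₁, v₂})
    (pu : 0 < dt σ₁ σ₂ u₁ u₂) (pv : 0 < dt σ₁ σ₂ v₁ v₂) :
    dt σ₁ σ₂ u₁ u₂ = absNorm b * dt σ₁ σ₂ v₁ v₂ := by
  have hN : (0 : ℝ) < absNorm b := by
    exact_mod_cast Nat.pos_of_ne_zero (absNorm_eq_zero_iff.not.2 hb0)
  have hcI := (hb.cI_cI b).2
  have H1 : ∀ y ∈ lat a', ∀ x ∈ lat a',
      ∃ k : ℤ, dt σ₁ σ₂ x y = k * (absNorm b * dt σ₁ σ₂ v₁ v₂) := by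
    intro y hy x hx
    subst ea
    refine FractionalIdeal.mul_induction_on (mem_lat.1 hx) ?_ ?_
    · intro x hx β' hβ'
      obtain ⟨β, hβ, rfl⟩ := (FractionalIdeal.mem_coeIdeal _).1 hβ'
      have h1 := FractionalIdeal.mul_mem_mul (mem_lat.1 hy)
        (FractionalIdeal.mem_coeIdeal_of_mem (𝓞 K)⁰ (P := K) (mem_cI (c := c) hβ))
      rw [mul_assoc, ← FractionalIdeal.coeIdeal_mul, hcI, FractionalIdeal.coeIdeal_span_singleton,
        mul_comm] at h1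
      obtain ⟨z, hz, e⟩ := FractionalIdeal.mem_singleton_mul.1 h1
      obtain ⟨k, hk⟩ := (uni h hb hv ev z).1 hz x hx
      refine ⟨k, ?_⟩
      rw [mul_comm x, dt_mul h.cnj₁ h.cnj₂, mul_comm _ y]
      refine (congrArg _ e).trans ?_
      simp only [dt, map_mul, map_natCast] at hk ⊢
      linear_combination (absNorm b : ℝ) * hk
    · rintro x x' ⟨k, hk⟩ ⟨k', hk'⟩
      exact ⟨k + k', by rw [dt_add, hk, hk']; push_cast; ring⟩
  have H2 : ∀ r ∈ b * cI c b, ∃ k : ℤ, dt σ₁ σ₂ (r * v₁) v₂ = k * dt σ₁ σ₂ u₁ u₂ := by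
    have m1 : v₁ ∈ a := mem_lat.1 (ev ▸ Submodule.subset_span (by simp))
    have m2 : v₂ ∈ a := mem_lat.1 (ev ▸ Submodule.subset_span (by simp))
    intro r hr
    subst ea
    refine Submodule.mul_induction_on hr ?_ ?_
    · intro β hβ γ hγ
      have hγ' := mem_cI (c := c) hγ
      rw [(hb.cI_cI b).1] at hγ'
      obtain ⟨k, hk⟩ := (uni h hb hu eu _).1 (FractionalIdeal.mul_mem_mul m2
        (FractionalIdeal.mem_coeIdeal_of_mem (𝓞 K)⁰ (P := K) hγ')) _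
        (FractionalIdeal.mul_mem_mul m1 (FractionalIdeal.mem_coeIdeal_of_mem (𝓞 K)⁰ (P := K) hβ))
      refine ⟨k, Eq.trans ?_ hk⟩
      rw [show ((β * γ : 𝓞 K) : K) * v₁ = γ * (v₁ * β) by push_cast; ring, dt_mul h.cnj₁ h.cnj₂,
        mul_comm _ v₂]
      rfl
    · rintro x x' ⟨k, hk⟩ ⟨k', hk'⟩
      exact ⟨k + k', by push_cast; rw [add_mul, dt_add, hk, hk']; ring⟩
  obtain ⟨k, hk⟩ := H1 u₂ (eu ▸ Submodule.subset_span (by simp)) u₁
    (eu ▸ Submodule.subset_span (by simp))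
  obtain ⟨k', hk'⟩ := H2 _ (hcI ▸ mem_span_singleton_self _)
  have e1 : absNorm b * dt σ₁ σ₂ v₁ v₂ = k' * dt σ₁ σ₂ u₁ u₂ := by
    rw [← hk']; simp only [dt, map_mul, map_natCast]; ring
  have e2 : (k * k' : ℝ) = 1 := mul_right_cancel₀ pu.ne' (by rw [mul_assoc, ← e1, ← hk, one_mul])
  have e3 : (0 : ℝ) < k := by
    rw [hk] at pu; exact (mul_pos_iff_of_pos_right (mul_pos hN pv)).1 pu
  have e4 : k = 1 := Int.eq_one_of_mul_eq_one_right (by exact_mod_cast e3.le) (by exact_mod_cast e2)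
  rw [hk, e4]; simp

theorem exists_reps (hb : StmtBasic K σ₁ σ₂ c) {ε : 𝓞 K} {n : ℕ} (hL : Lev σ₁ σ₂ (ε : K) n)
    {a : FractionalIdeal (𝓞 K)⁰ K} (ha : a ≠ 0) : ∃ R : Finset K,
      (∀ t ∈ R, Tor (ε : K) (lat a) t) ∧
      ∀ y, Tor (ε : K) (lat a) y → ∃! t, t ∈ R ∧ y - t ∈ lat a := by
  have hε1 : (ε : K) - 1 ≠ 0 := fun h0 => by
    have := hL.one_lt
    rw [sub_eq_zero.1 h0] at this; simp at this
  obtain ⟨R, h1, h2⟩ := hb.reps _ _ (hb.sl ε a ha).1 (hb.sl ε (spanSingleton _ ((ε : K) - 1)⁻¹ * a)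
    (mul_ne_zero (FractionalIdeal.spanSingleton_ne_zero_iff.2 (inv_ne_zero hε1)) ha)).1
  have e : ∀ y, y ∈ lat (spanSingleton _ ((ε : K) - 1)⁻¹ * a) ↔ Tor (ε : K) (lat a) y := fun y => by
    rw [mem_lat, FractionalIdeal.mem_singleton_mul, Tor, mem_lat]
    refine ⟨?_, fun hy => ⟨_, hy, by rw [inv_mul_cancel_left₀ hε1]⟩⟩
    rintro ⟨z, hz, rfl⟩
    rwa [mul_inv_cancel_left₀ hε1]
  exact ⟨R, fun t ht => (e t).1 (h1 t ht), fun y hy => h2 y ((e y).2 hy)⟩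

theorem reps_up {ε : 𝓞 K} {a a' : FractionalIdeal (𝓞 K)⁰ K} {b : Ideal (𝓞 K)} (ea : a' = a * b)
    (hb : Cop (span {ε - 1}) b) {R : Finset K} (h1 : ∀ t ∈ R, Tor (ε : K) (lat a') t)
    (h2 : ∀ y, Tor (ε : K) (lat a') y → ∃! t, t ∈ R ∧ y - t ∈ lat a') :
    (∀ t ∈ R, Tor (ε : K) (lat a) t) ∧
      ∀ y, Tor (ε : K) (lat a) y → ∃! t, t ∈ R ∧ y - t ∈ lat a := by
  have hle : ∀ x, x ∈ lat a' → x ∈ lat a := fun x hx =>
    (ea.le.trans (mul_le_of_le_one_right' FractionalIdeal.coeIdeal_le_one)) hx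
  obtain ⟨u, hu, v, hv, e⟩ := Submodule.mem_sup.1 ((eq_top_iff_one _).1 hb.1)
  obtain ⟨w, rfl⟩ := mem_span_singleton'.1 hv
  have e' : (u : K) + w * (ε - 1) = 1 := by exact_mod_cast congrArg (algebraMap (𝓞 K) K) e
  have hu' : ∀ x ∈ lat a, x * u ∈ lat a' := fun x hx => ea ▸
    FractionalIdeal.mul_mem_mul hx (FractionalIdeal.mem_coeIdeal_of_mem (𝓞 K)⁰ (P := K) hu)
  refine ⟨fun t ht => hle _ (h1 t ht), fun y hy => ?_⟩
  obtain ⟨t, ⟨ht, g⟩, -⟩ := h2 (y * u) (by unfold Tor; rw [← mul_assoc]; exact hu' _ hy)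
  have g2 : y - t ∈ lat a := by
    convert (lat a).add_mem (hle _ g) (smul_mem w hy) using 1
    linear_combination -y * e'
  refine ⟨t, ⟨ht, g2⟩, fun t' ⟨ht', g'⟩ => (h2 t (h1 t ht)).unique ⟨ht', ?_⟩ ⟨ht, by simp⟩⟩
  convert (lat a').add_mem (hu' _ ((lat a).sub_mem g' g2))
    (smul_mem w ((lat a').sub_mem (h1 t ht) (h1 t' ht'))) using 1
  linear_combination (t' - t) * e'

theorem conj_class (h : RQ σ₁ σ₂ c) (hb : StmtBasic K σ₁ σ₂ c) {m : Ideal (𝓞 K)}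
    (hm : cI c m = m) {B : Type} [CommGroup B] {κ : Ideal (𝓞 K) → B} (hκ : Univ Set.univ m κ)
    {I J : Ideal (𝓞 K)} (hI : Cop m I) (hJ : Cop m J) (hI' : Cop m (cI c I))
    (hJ' : Cop m (cI c J)) (e : κ I = κ J) : κ (cI c I) = κ (cI c J) := by
  obtain ⟨α, β, a0, b0, a1, b1, p, e⟩ := (hκ.ker _ _ hI hJ).1 e
  have p₁ := p σ₁ trivial
  have p₂ := p σ₂ trivial
  refine (hκ.ker _ _ hI' hJ').2 ⟨RingOfIntegers.mapRingEquiv c α, RingOfIntegers.mapRingEquiv c β,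
    by simpa using a0, by simpa using b0, by simpa [hm] using mem_cI (c := c) a1,
    by simpa [hm] using mem_cI (c := c) b1, fun τ _ => ?_, ?_⟩
  · change 0 < τ (c α) ∧ 0 < τ (c β)
    rcases hb.emb τ with rfl | rfl
    · rwa [h.cnj₁, h.cnj₁]
    · rwa [h.cnj₂, h.cnj₂]
  · have := congrArg (cI c) e
    simp only [cI, Ideal.map_mul, map_span, Set.image_singleton] at this
    exact this

theorem cop_cI {m I : Ideal (𝓞 K)} (hm : cI c m = m) (hI : Cop m I) : Cop m (cI c I) := by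
  refine ⟨?_, fun h0 => hI.2 ?_⟩
  · rw [← hm, cI, cI, ← Ideal.map_sup, hI.1, Ideal.map_top]
  · rw [← absNorm_eq_zero_iff, ← R1b.absNorm_cI (c := c), h0, absNorm_bot]

end FE2

open FE2 in
theorem blockFE2 (h1 : StmtSH2) (h2 : StmtFE1) (h3 : StmtNV) (hR : StmtR1) : StmtFaith := by
  intro K _ _ σ₁ σ₂ c h ε n hL hN B _ _ κ hκ b hb hF
  have hB := hR.2.1 K σ₁ σ₂ c h
  obtain ⟨κ₀, h2⟩ := h2
  obtain ⟨hn, hn0, -, hm⟩ := hB.norm ε n hL
  have hm0 : span {ε - 1} ≠ ⊥ := fun h0 => by rw [h0, absNorm_bot] at hn; omega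
  have hb' := cop_cI hm hb
  have key := fourier (h3 K σ₁ σ₂ c h _ hm0 B κ hκ.hom).1
    (fun g => FE2.eta σ₁ (span {ε - 1}) κ ((κ (cI c b))⁻¹ * g) - FE2.eta σ₁ (span {ε - 1}) κ g)
    (fun A => ?_) (κ (cI c b))
  · have k1 : κ (span {1}) = 1 := hκ.hom.triv 1 one_ne_zero (by simp) (by simp)
    have e1 := eta_eq hL hN hκ one_ne_zero (by simp)
    rw [k1] at e1
    rw [inv_mul_cancel, e1, sub_eq_zero] at key
    obtain ⟨α, a0, a1, e⟩ : ∃ α : 𝓞 K, α ≠ 0 ∧ α - 1 ∈ span {ε - 1} ∧ κ (span {α}) = κ (cI c b) := by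
      by_contra hc
      rw [FE2.eta, dif_neg hc] at key
      simp at key
    rw [← e, eta_eq hL hN hκ a0 a1] at key
    have p : 0 < σ₁ α := by
      rw [← sign_eq_one_iff]
      revert key
      generalize SignType.sign (σ₁ α) = x
      rcases x <;> simp <;> norm_num
    have e2 := conj_class h hB hm hκ (cop_one a0 a1) hb' (cop_cI hm (cop_one a0 a1))
      (cop_cI hm hb') e
    rw [(hB.cI_cI b).1, cI, map_span, Set.image_singleton] at e2
    have c0 : RingOfIntegers.mapRingEquiv c α ≠ 0 := by simpa using a0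
    have c1 : RingOfIntegers.mapRingEquiv c α - 1 ∈ span {ε - 1} := by
      simpa [hm] using mem_cI (c := c) a1
    have p₂ : 0 < σ₂ (RingOfIntegers.mapRingEquiv c α : 𝓞 K) := by
      change 0 < σ₂ (c α); rwa [h.cnj₂]
    change κ (span {RingOfIntegers.mapRingEquiv c α}) = _ at e2
    generalize RingOfIntegers.mapRingEquiv c α = γ at e2 c0 c1 p₂
    rcases ((map_ne_zero σ₁).2 (show (γ : K) ≠ 0 by simpa using c0)).lt_or_gt with p₁ | p₁
    · refine Or.inr fun β b1 q₁ q₂ => ?_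
      have b0 : β ≠ 0 := by rintro rfl; simp at q₁
      have := hκ.hom.triv _ (mul_ne_zero c0 b0) (one_mul_mem c1 b1) fun τ => by
        rcases hB.emb τ with rfl | rfl
        · simpa using mul_pos_of_neg_of_neg p₁ q₁
        · simpa using mul_pos p₂ q₂
      rw [kap_mul hκ.hom c0 c1 b0 b1, e2, ← kap_sq hκ.hom b0 b1] at this
      exact mul_right_cancel this
    · refine Or.inl (e2.symm.trans (hκ.hom.triv _ c0 c1 fun τ => ?_))
      rcases hB.emb τ with rfl | rfl <;> assumption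
  · obtain ⟨d, hd, rfl⟩ := hκ.surj A
    have d0 : (d : FractionalIdeal (𝓞 K)⁰ K) ≠ 0 := FractionalIdeal.coeIdeal_ne_zero.2 hd.2
    have b0 : (b : FractionalIdeal (𝓞 K)⁰ K) ≠ 0 := FractionalIdeal.coeIdeal_ne_zero.2 hb.2
    have a0 := inv_ne_zero d0
    have a1 := mul_ne_zero a0 b0
    have m1 : (1 : K) ∈ (d : FractionalIdeal (𝓞 K)⁰ K)⁻¹ := by
      rw [FractionalIdeal.mem_inv_iff d0]
      intro y hy
      rw [one_mul]; exact FractionalIdeal.coeIdeal_le_one hy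
    have hN0 : (0 : ℝ) < absNorm b := by
      exact_mod_cast Nat.pos_of_ne_zero (absNorm_eq_zero_iff.not.2 hb.2)
    have m2 : (absNorm b : K) ∈ (d : FractionalIdeal (𝓞 K)⁰ K)⁻¹ * b := by
      simpa using FractionalIdeal.mul_mem_mul m1
        (FractionalIdeal.mem_coeIdeal_of_mem (𝓞 K)⁰ (P := K) (absNorm_mem b))
    obtain ⟨u₁, u₂, hu, eu, pu⟩ := pos_basis h hB (hB.sl ε _ a1).1
    obtain ⟨v₁, v₂, hv, ev, pv⟩ := pos_basis h hB (hB.sl ε _ a0).1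
    obtain ⟨R, r1, r2⟩ := exists_reps hB hL a1
    obtain ⟨r3, r4⟩ := reps_up rfl hb r1 r2
    have l1 := limit h1 h hB hL hN (h2 K σ₁ σ₂ c h ε n hL) hκ a1 m2 (by simpa using hN0)
      (cop_mul hb' hd) (by
        have := congrArg (fun I : Ideal (𝓞 K) => (I : FractionalIdeal (𝓞 K)⁰ K)) (hB.cI_cI b).2
        simp only [FractionalIdeal.coeIdeal_mul, FractionalIdeal.coeIdeal_span_singleton,
          map_natCast] at this ⊢
        rw [← this]; field_simp) hu eu r1 r2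
    have l2 := limit h1 h hB hL hN (h2 K σ₁ σ₂ c h ε n hL) hκ a0 m1 (by simp) hd (by simp)
      hv ev r3 r4
    have hd0 : (absNorm d : ℝ) ≠ 0 := by exact_mod_cast absNorm_eq_zero_iff.not.2 hd.2
    have hF' : ∀ x, Tor (ε : K) (lat ((d : FractionalIdeal (𝓞 K)⁰ K)⁻¹ * b)) x →
        ‖FF σ₁ ε (d : FractionalIdeal (𝓞 K)⁰ K)⁻¹ x‖ =
          ‖FF σ₁ ε ((d : FractionalIdeal (𝓞 K)⁰ K)⁻¹ * b) x‖ := fun x hx => by
      rw [← hF _ x a1 hx, dv, mul_inv_cancel_right₀ b0]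
    convert (l1.sub l2).congr' (eventually_nhdsWithin_of_forall fun s hs => ?_) using 2
    · rw [eq_comm, sub_eq_zero]
      simp only [Finset.mul_sum]
      refine Finset.sum_congr rfl fun t ht => ?_
      rw [hF' t (r1 t ht), hF' (-t) (by unfold Tor; rw [mul_neg]; exact neg_mem (r1 t ht)),
        index h hB rfl hb.2 hu hv eu ev pu pv]
      have e1 : dt σ₁ σ₂ t (-(absNorm b : K)) / (absNorm b * dt σ₁ σ₂ v₁ v₂) =
          dt σ₁ σ₂ t (-1) / dt σ₁ σ₂ v₁ v₂ := by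
        simp only [dt, map_neg, map_natCast, map_one]; field_simp
      have e2 : |σ₁ (absNorm b) * σ₂ (absNorm b)| / absNorm (cI c b * d) =
          absNorm b * (|σ₁ 1 * σ₂ 1| / absNorm d) := by
        simp only [map_natCast, map_one, map_mul, R1b.absNorm_cI, abs_mul_self, Nat.cast_mul,
          mul_one, abs_one]
        field_simp
      have e3 : ((absNorm b : ℝ) : ℂ) ≠ 0 := ofReal_ne_zero.2 hN0.ne'
      rw [e1, e2, ofReal_mul, ofReal_mul]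
      field_simp
    · simp only [LS]
      rw [← Summable.tsum_sub (summ _ κ (fun g => FE2.eta σ₁ _ κ ((κ (cI c b * d))⁻¹ * g)) s hs)
        (summ _ κ (fun g => FE2.eta σ₁ _ κ ((κ d)⁻¹ * g)) s hs)]
      refine tsum_congr fun I => ?_
      rw [hκ.hom.mul _ _ hb' hd, mul_inv, mul_assoc, sub_mul]

end Pool.Agent.Lib.Stark
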