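import Pool.Agent.Lib.stark.H
import Pool.Agent.Lib.MP_6bf7a3_nt.H5Iff

open Complex NumberField Ideal Polynomial
open scoped nonZeroDivisors ComplexConjugate

namespace Pool.Agent.Lib.Stark.FIN

open HB MP_6bf7a3_nt

variable {K : Type} [Field K] [NumberField K] [Algebra K ℝ] {σ₂ : K →+* ℝ} {c : K ≃+* K}

/-- Reduction to integral ideals. -/
theorem tate_of {m : Ideal (𝓞 K)} (hm : m ≠ ⊤) {H : IntermediateField K ℝ}
    {Art : (FractionalIdeal (𝓞 K)⁰ K)ˣ → (H ≃ₐ[K] H)} (hR : IsRCF σ₂ m H Art) (E : (𝓞 H)ˣ)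
    (h : ∀ (I : Ideal (𝓞 K)) (A : (FractionalIdeal (𝓞 K)⁰ K)ˣ), Cop m I →
      (A : FractionalIdeal (𝓞 K)⁰ K) = I → ∃ x : ℝ, IsZetaDeriv σ₂ m A x ∧
        Real.log |((Art A ((E : 𝓞 H) : H) : H) : ℝ)| = -2 * x)
    (hab : IsAbelianGalois K (X ^ 2 - C ((E : 𝓞 H) : H)).SplittingField) : TateStark σ₂ m := by
  refine ⟨H, Art, hR, E, fun A hA => ?_, hab⟩
  have hc := (inJ_iff hm).1 hA
  obtain ⟨s, hs, hs2⟩ := exists_clear hc.1
  have s0 : (s : K) ≠ 0 := by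
    intro h0
    rw [show s = 0 by exact_mod_cast h0, zero_sub, Ideal.neg_mem_iff, ← eq_top_iff_one] at hs
    exact hm hs
  let α : Kˣ := Units.mk0 ((s : K) * s) (mul_ne_zero s0 s0)
  have a1 : (α : K) - 1 ∈ loc K m m := by
    simpa [α] using loc_alg (K := K) (m := m) (one_mul_mem hs hs)
  have a2 : 0 < σ₂ α := by
    simpa [α] using s0
  have hle : ((pr (𝓞 K) α * A : (FractionalIdeal (𝓞 K)⁰ K)ˣ) : FractionalIdeal (𝓞 K)⁰ K) ≤ 1 := by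
    intro x hx
    obtain ⟨y, hy, rfl⟩ := mem_pr_mul.1 hx
    obtain ⟨z, hz⟩ := hs2 y hy
    exact (FractionalIdeal.mem_one_iff _).2 ⟨s * z, by rw [map_mul, ← hz, ← mul_assoc]; rfl⟩
  obtain ⟨I, hI⟩ := FractionalIdeal.le_one_iff_exists_coeIdeal.1 hle
  have hc' := (cp_pr_of_one a1).mul hc
  obtain ⟨t, t1, t2⟩ := exists_one_mem hc'.2
  rw [← hI] at t2
  obtain ⟨t', t3, t4⟩ := (FractionalIdeal.mem_coeIdeal _).1 t2
  rw [IsFractionRing.injective (𝓞 K) K t4] at t3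
  obtain ⟨x, ⟨f, f1, f2, f3⟩, e⟩ := h I _ ⟨sup_of_exists_one t3 t1,
    FractionalIdeal.coeIdeal_ne_zero.1 (hI ▸ Units.ne_zero _)⟩ hI.symm
  have j1 := (inJ_iff hm).2 (cp_pr_of_one a1)
  rw [hR.2.2.2.1 _ _ j1 hA, (hR.2.2.2.2.2 _ j1).2 ⟨α, rfl, a1, a2⟩, one_mul] at e
  refine ⟨x, ⟨f, f1, f2, fun s hs => ?_⟩, e⟩
  rw [f3 s hs]
  congr 1
  ext b
  constructor
  · rintro ⟨β, b1, b2, rfl⟩
    exact ⟨β * α, loc_one_mul b1 a1, pos_mul b2 a2, by rw [map_mul, mul_assoc]⟩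
  · rintro ⟨β, b1, b2, rfl⟩
    exact ⟨β * α⁻¹, loc_one_mul b1 (loc_one_inv a1), pos_mul b2 (pos_inv a2), by
      rw [map_mul, map_inv, mul_assoc, inv_mul_cancel_left]⟩

theorem engine (hRay : StmtRay) (hRCF : StmtRCF) {m : Ideal (𝓞 K)} (hm0 : m ≠ ⊥) (hm : m ≠ ⊤)
    {ε : 𝓞 K} (hε : ε - 1 ∈ m) {Ω : IntermediateField K ℂ} [FiniteDimensional K Ω] [IsGalois K Ω]
    (h2 : H2Prop σ₂ ε Ω) (w : Ω) (i1 : IsIntegral ℤ ((w : ℂ) ^ 2))
    (i2 : IsIntegral ℤ ((w : ℂ) ^ 2)⁻¹) (w0 : w ≠ 0)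
    (hw : ∀ σ τ : Ω ≃ₐ[K] Ω, σ (τ w) = τ (σ w))
    (act : ∀ (σ : Ω ≃ₐ[K] Ω) b, Cop m b →
      (∀ z : Ω, (z : ℂ) = FF (algebraMap K ℝ) ε m 1 →
        (σ z : ℂ) = FF (algebraMap K ℝ) ε (dv m b) 1 ∨
        (σ z : ℂ) = conj (FF (algebraMap K ℝ) ε (dv m b) 1)) →
      (b = ⊤ → σ (w ^ 2) = w ^ 2) ∧ ∀ A : (FractionalIdeal (𝓞 K)⁰ K)ˣ,
        (A : FractionalIdeal (𝓞 K)⁰ K) = b → ∃ x : ℝ, IsZetaDeriv σ₂ m A x ∧
          Real.log ‖(σ (w ^ 2) : ℂ)‖ = -2 * x) : TateStark σ₂ m := by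
  obtain ⟨B, _, _, κ, hU⟩ := hRay K {σ₂} m hm0
  obtain ⟨a, a1, a2, a3⟩ := h2.rcf m hε B κ hU
  obtain ⟨τ, hτ⟩ := H.exists_conj (Ω := Ω)
  obtain ⟨H, Art, hR, r1, r2, r3, r4⟩ := hRCF K σ₂ Ω m hm0 hm B κ hU a a1 ⟨τ, hτ, a2 τ hτ⟩
  have act' := fun σ b hb (e : a σ = κ b) => act σ b hb fun z hz => a3 σ b hb e m 1 z
    (FractionalIdeal.coeIdeal_ne_zero.2 hm0)
    (fun y hy => by rw [mul_one]; exact FractionalIdeal.mem_coeIdeal_of_mem _ hy) hz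
  obtain ⟨h, hh⟩ := r2 (w ^ 2) fun σ hσ =>
    (act' σ ⊤ (cop_top m) (hσ.trans (rayHom_top hU.hom).symm)).1 rfl
  let φ : H →ₐ[ℤ] ℂ := (ofRealHom.comp H.subtype).toIntAlgHom
  have hφ : Function.Injective φ := φ.toRingHom.injective
  have e1 : φ h = (w : ℂ) ^ 2 := hh
  have h0 : h ≠ 0 := by
    rintro rfl
    rw [map_zero] at e1
    exact w0 (by exact_mod_cast pow_eq_zero_iff two_ne_zero |>.1 e1.symm)
  let E : (𝓞 H)ˣ := ⟨⟨h, (isIntegral_algHom_iff φ hφ).1 (e1 ▸ i1)⟩,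
    ⟨h⁻¹, (isIntegral_algHom_iff φ hφ).1 (by rw [map_inv₀, e1]; exact i2)⟩,
    RingOfIntegers.ext (mul_inv_cancel₀ h0), RingOfIntegers.ext (inv_mul_cancel₀ h0)⟩
  refine tate_of hm hR E (fun I A hI hA => ?_) (r4 h w hh.symm hw)
  obtain ⟨σ, hσ⟩ := r1 (κ I)
  obtain ⟨x, x1, x2⟩ := (act' σ I hI hσ).2 A hA
  refine ⟨x, x1, ?_⟩
  rw [← x2, ← r3 σ I A hI hA hσ h _ hh, norm_real, Real.norm_eq_abs]
  rfl

theorem exists_Om (hR1 : StmtR1) (hA : StmtAU) (hR : RQ (algebraMap K ℝ) σ₂ c) {ε : 𝓞 K} {n : ℕ}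
    (hS : Sys (algebraMap K ℝ) σ₂ (ε : K) (Psi (algebraMap K ℝ) ε))
    (hL : Lev (algebraMap K ℝ) σ₂ (ε : K) n) (Z : Set ℂ) (h1 : Z.Finite)
    (h2 : ∀ z ∈ Z, IsAlgebraic ℚ z) : ∃ Ω : IntermediateField K ℂ, FiniteDimensional K Ω ∧
      IsGalois K Ω ∧ Has Ω ε n ∧ ∀ z ∈ Z, z ∈ Ω := by
  have hb := hR1.2.1 K _ σ₂ c hR
  have n0 := (hb.norm ε n hL).2.1
  obtain ⟨Ω, o1, o2, o3, -⟩ := hR1.2.2 K _ ((hS.fin.union
    (nthRoots n (1 : ℂ)).toFinset.finite_toSet).union h1) (by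
      rintro z ((⟨Λ, x, a1, a2, rfl⟩ | hz) | hz)
      · exact (hA K _ σ₂ c hR ε n hL Λ x a1 a2).1
      · rw [Finset.mem_coe, Multiset.mem_toFinset, mem_nthRoots n0] at hz
        exact IsAlgebraic.of_pow n0 (hz ▸ isAlgebraic_one)
      · exact h2 z hz)
  refine ⟨Ω, o1, o2, ⟨fun a x ha hx => o3 _ (Or.inl (Or.inl ⟨_, x, hb.sl ε a ha, hx, rfl⟩)),
    fun ζ hζ => o3 _ (Or.inl (Or.inr ?_))⟩, fun z hz => o3 _ (Or.inr hz)⟩
  rwa [Finset.mem_coe, Multiset.mem_toFinset, mem_nthRoots n0]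

theorem comm_root {Ω : IntermediateField K ℂ} {ζ : Ω} {N : ℕ} (hN : 0 < N) (h : (ζ : ℂ) ^ N = 1)
    (σ τ : Ω ≃ₐ[K] Ω) : σ (τ ζ) = τ (σ ζ) := by
  have h1 : ζ ^ N = 1 := by exact_mod_cast h
  have : NeZero (orderOf ζ) := ⟨(isOfFinOrder_iff_pow_eq_one.2 ⟨N, hN, h1⟩).orderOf_pos.ne'⟩
  have key : ∀ ρ : Ω ≃ₐ[K] Ω, ∃ i, ζ ^ i = ρ ζ := fun ρ => by
    obtain ⟨i, -, hi⟩ := (IsPrimitiveRoot.orderOf ζ).eq_pow_of_pow_eq_one (ξ := ρ ζ)
      (by rw [← map_pow, pow_orderOf_eq_one, map_one])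
    exact ⟨i, hi⟩
  obtain ⟨i, hi⟩ := key σ
  obtain ⟨j, hj⟩ := key τ
  rw [← hi, ← hj, map_pow, map_pow, ← hi, ← hj, ← pow_mul, ← pow_mul, mul_comm]

theorem comm_F {ε : 𝓞 K} {Ω : IntermediateField K ℂ} (h2 : H2Prop σ₂ ε Ω)
    {a : FractionalIdeal (𝓞 K)⁰ K} {x : K} {z : Ω} (ha : a ≠ 0) (hx : Tor (ε : K) (lat a) x)
    (hz : (z : ℂ) = FF (algebraMap K ℝ) ε a x) (σ τ : Ω ≃ₐ[K] Ω) : σ (τ z) = τ (σ z) := by
  obtain ⟨b, b1, b2⟩ := h2.orbit σ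
  obtain ⟨d, d1, d2⟩ := h2.orbit τ
  apply Subtype.ext
  rw [b2 _ x _ (dv_ne ha d1.2) (tor_dv d1.2 hx) (d2 a x z ha hx hz),
    d2 _ x _ (dv_ne ha b1.2) (tor_dv b1.2 hx) (b2 a x z ha hx hz), dv_dv, dv_dv, mul_comm]

theorem unit_pr (v : (𝓞 K)ˣ) : ∃ ρ : Kˣ, (ρ : K) = (v : 𝓞 K) ∧ pr (𝓞 K) ρ = 1 :=
  ⟨_, rfl, pr_unit v⟩

theorem zero_case (hK : Module.finrank ℚ K = 2) (hσ : σ₂ ≠ algebraMap K ℝ) {m : Ideal (𝓞 K)}
    (hm0 : m ≠ ⊥) (hm : m ≠ ⊤) {v : (𝓞 K)ˣ} (v1 : (v : 𝓞 K) - 1 ∈ m) (v2 : σ₂ (v : 𝓞 K) < 0)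
    {A : (FractionalIdeal (𝓞 K)⁰ K)ˣ} (hA : Cp m A) : IsZetaDeriv σ₂ m A 0 := by
  obtain ⟨f, f1, f2⟩ := exists_cont hK hσ hm0 hA
  obtain ⟨ρ, r1, r2⟩ := unit_pr (-v)
  have := deriv_add_eq_zero hK hσ hm0 hm hA (ρ := ρ) (f := fun s => 2 * f s) (by
      have := loc_neg (loc_alg (K := K) (m := m) v1)
      rw [r1]
      convert this using 1
      simp only [Units.val_neg, map_neg, map_sub, map_one]; ring) (by simpa [r1] using v2)
    (f1.const_mul 2) fun s hs => by rw [r2, mul_one, f2 s hs, two_mul]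
  rw [deriv_const_mul_field, mul_eq_zero] at this
  exact ⟨f, f1, by simpa using this, f2⟩

end Pool.Agent.Lib.Stark.FIN

namespace Pool.Agent.Lib.Stark

open FIN HB MP_6bf7a3_nt

theorem blockFIN (hR1 : StmtR1) (hSys : StmtSys) (hA : StmtAU) (hH2 : StmtH2) (hUn : StmtUnit)
    (hCo : StmtComm) (hRCF : StmtRCF) (hZ : StmtZeta) (hRay : StmtRay) : StmtFinal := by
  intro K _ _ _ σ₂ hK hσ m hm0 hm
  obtain ⟨c, hR⟩ := hR1.1 K _ σ₂ hK hσ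
  have hb := hR1.2.1 K _ σ₂ c hR
  obtain ⟨η, g1, g2, g3, g4⟩ := exists_gen hK hσ hm0
  obtain ⟨u, hu⟩ : ∃ u : 𝓞 K, (u : K) = (η⁻¹ : Kˣ) := by
    have := self_mem_pr (O := 𝓞 K) η⁻¹
    rw [map_inv, g1, inv_one] at this
    exact (FractionalIdeal.mem_one_iff _).1 this
  have u1 : u - 1 ∈ m := mem_of_loc (K := K) (by
    rw [map_sub, map_one, show algebraMap (𝓞 K) K u = _ from hu]; exact loc_one_inv g2)
  have cp : ∀ j : ℕ, ((u ^ j : 𝓞 K) : K) = (u : K) ^ j := fun j => map_pow (algebraMap _ K) u j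
  have u0 : (u : K) * η = 1 := by rw [hu, Units.inv_mul]
  have u2 : σ₂ u * σ₂ η = 1 := by rw [← map_mul, u0, map_one]
  have u3 : 0 < σ₂ u := (mul_pos_iff_of_pos_right (by linarith)).1 (u2 ▸ one_pos)
  have u4 : σ₂ u < 1 := by nlinarith
  have u5 : |algebraMap K ℝ u * σ₂ u| = 1 := by
    rw [hu, ← absNorm_pr hK hσ, map_inv, g1]; simp
  have hm' : (m : FractionalIdeal (𝓞 K)⁰ K) ≠ 0 := FractionalIdeal.coeIdeal_ne_zero.2 hm0
  have tor : ∀ ε : 𝓞 K, ε - 1 ∈ m → Tor (ε : K) (lat (m : FractionalIdeal (𝓞 K)⁰ K)) 1 :=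
    fun ε h => by simpa [Tor, mem_lat] using FractionalIdeal.mem_coeIdeal_of_mem (P := K) (𝓞 K)⁰ h
  have one : (1 : K) ∉ (m : FractionalIdeal (𝓞 K)⁰ K) := fun h => by
    obtain ⟨t, t1, t2⟩ := (FractionalIdeal.mem_coeIdeal _).1 h
    rw [show t = 1 from IsFractionRing.injective (𝓞 K) K (by simpa using t2)] at t1
    exact hm ((eq_top_iff_one _).2 t1)
  have upow : ∀ j : ℕ, u ^ j - 1 ∈ m := fun j => by
    obtain ⟨t, ht⟩ := sub_one_dvd_pow_sub_one u j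
    rw [ht]; exact mul_mem_right _ _ u1
  have sq1 : (algebraMap K ℝ u * σ₂ u) ^ 2 = 1 := by rw [← sq_abs, u5, one_pow]
  by_cases ha : ∃ v : (𝓞 K)ˣ, (v : 𝓞 K) - 1 ∈ m ∧ σ₂ (v : 𝓞 K) < 0
  · obtain ⟨v, v1, v2⟩ := ha
    have h1 : 1 < algebraMap K ℝ u ^ 2 := by
      by_contra h
      have : σ₂ u ^ 2 < 1 := by nlinarith
      nlinarith [sq_nonneg (algebraMap K ℝ u), sq_nonneg (σ₂ u)]
    obtain ⟨J, hJ⟩ := pow_unbounded_of_one_lt 8 h1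
    have e1 : algebraMap K ℝ (u ^ (2 * J) : 𝓞 K) = (algebraMap K ℝ u ^ 2) ^ J := by
      rw [cp, map_pow, pow_mul]
    obtain ⟨n, hL⟩ := hb.lev (u ^ (2 * J)) (by
      rw [cp, map_pow, map_pow, ← mul_pow, pow_mul, sq1, one_pow]) (by rw [e1]; linarith)
    obtain ⟨Ω, _, _, hH, -⟩ := exists_Om hR1 hA hR (hSys K _ σ₂ c hR _ n hL) hL ∅ Set.finite_empty
      (by simp)
    refine engine hRay hRCF hm0 hm (upow _)
      (hH2 K σ₂ c hR _ n hL (hb.nr _ n hL (by rw [e1]; linarith)) Ω hH) 1 (by simpa using isIntegral_one)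
      (by simpa using isIntegral_one) one_ne_zero (by simp) fun σ b b1 _ => ⟨by simp, fun A hA =>
        ⟨0, zero_case hK hσ hm0 hm v1 v2 (cp_of_coe hA b1.1), by simp⟩⟩
  have pos : ∀ v : (𝓞 K)ˣ, (v : 𝓞 K) - 1 ∈ m → 0 < σ₂ (v : 𝓞 K) := fun v hv =>
    lt_of_le_of_ne (not_lt.1 fun h => ha ⟨v, hv, h⟩)
      ((map_ne_zero σ₂).2 (by exact_mod_cast v.ne_zero)).symm
  rcases (abs_eq zero_le_one).1 u5 with u6 | u6
  · obtain ⟨n, hL⟩ := hb.lev u u6 (by nlinarith)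
    have hN : NR u := fun v hv => by
      have hv := (span_singleton_le_iff_mem _).2 u1 hv
      obtain ⟨ρ, r1, r2⟩ := unit_pr v
      obtain ⟨k, hk⟩ := g4 ρ r2 (by simpa [r1] using loc_alg (K := K) (m := m) hv)
        (r1 ▸ pos v hv)
      exact ⟨-k, by rw [← r1, hk, hu]; simp⟩
    have hS := hSys K _ σ₂ c hR _ n hL
    have sl := hb.sl u _ hm'
    set F := FF (algebraMap K ℝ) u m 1 with hF
    have F0 : F ≠ 0 := hS.ne _ _
    obtain ⟨k, k0, -, hk⟩ := hS.root _ sl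
    have hk := hk 1 (absNorm m) (tor u u1) one (by
      simpa [mem_lat] using FractionalIdeal.mem_coeIdeal_of_mem (P := K) (𝓞 K)⁰ (absNorm_mem m))
    have hc := hS.cnj _ 1 sl (tor u u1) one
    have N0 : 0 < 2 * (2 * absNorm m * k) := by
      have := Nat.pos_of_ne_zero (absNorm_eq_zero_iff.not.2 hm0)
      positivity
    have hζ : ((‖F‖ : ℂ) / F) ^ (2 * (2 * absNorm m * k)) = 1 := by
      rw [pow_mul, ← inv_eq_one, ← inv_pow, ← hk, eq_inv_of_mul_eq_one_left hc, div_pow,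
        ← mul_conj']
      congr 1
      change _ = F * (conj F)⁻¹
      field_simp
    obtain ⟨Ω, _, _, hH, hZ'⟩ := exists_Om hR1 hA hR hS hL {(‖F‖ : ℂ) / F} (Set.finite_singleton _)
      (by rintro z rfl; exact IsAlgebraic.of_pow N0 (hζ ▸ isAlgebraic_one))
    have h2 := hH2 K σ₂ c hR _ n hL hN Ω hH
    let z : Ω := ⟨F, hH.1 _ 1 hm' (tor u u1)⟩
    let ζ : Ω := ⟨_, hZ' _ rfl⟩
    obtain ⟨τ, hτ⟩ := H.exists_conj (Ω := Ω)
    have e1 : ((z * ζ : Ω) : ℂ) ^ 2 = F * conj F := by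
      rw [mul_conj']; congr 1; exact mul_div_cancel₀ _ F0
    have e2 : (z * ζ) ^ 2 = z * τ z := Subtype.ext (by
      rw [SubmonoidClass.coe_pow, e1, IntermediateField.coe_mul, hτ])
    obtain ⟨i1, i2⟩ := hUn K σ₂ c hR u n hL _ 1 hm' (tor u u1)
    have cF := comm_F h2 (z := z) hm' (tor u u1) rfl
    refine engine hRay hRCF hm0 hm u1 h2 (z * ζ)
      (e1 ▸ i1.mul (i1.map (starRingEnd ℂ).toIntAlgHom))
      (by rw [e1, mul_inv, ← map_inv₀]; exact i2.mul (i2.map (starRingEnd ℂ).toIntAlgHom))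
      (fun h => by
        rw [h] at e1
        exact F0 (by simpa using e1.symm))
      (fun σ ρ => by simp only [map_mul]; rw [cF, comm_root (ζ := ζ) N0 hζ]) fun σ b b1 h => ?_
    have e3 : (σ ((z * ζ) ^ 2) : ℂ) = (‖FF (algebraMap K ℝ) u (dv m b) 1‖ : ℂ) ^ 2 := by
      rw [e2, map_mul, cF, IntermediateField.coe_mul, hτ, mul_conj']
      rcases h z rfl with h | h <;> rw [h]
      rw [norm_conj]
    refine ⟨fun hb => Subtype.ext ?_, fun A hA => ?_⟩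
    · rw [e3, hb, dv_top, SubmonoidClass.coe_pow, e1, mul_conj']
    · obtain ⟨x, x1, x2⟩ := hZ K _ σ₂ c hR m hm0 hm η g1 g2 g3 g4 u n 1 hL (by simpa using u0) b A
        b1 hA
      refine ⟨x, x1, ?_⟩
      rw [e3, norm_pow, Real.log_pow, norm_real, norm_norm, x2]
      push_cast; ring
  · have u7 : algebraMap K ℝ u < -1 := by nlinarith
    have u8 : algebraMap K ℝ u < -3 := by
      have t1 := absNorm_span hR (u - 1)
      have t2 : (absNorm (span {u - 1}) : 𝓞 K) ∈ m :=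
        (span_singleton_le_iff_mem _).2 u1 (absNorm_mem _)
      generalize absNorm (span {u - 1}) = t at t1 t2
      rw [show ((u - 1 : 𝓞 K) : K) = u - 1 by simp, map_sub, map_sub, map_one, map_one,
        abs_of_pos (by nlinarith)] at t1
      have t3 : 3 ≤ t := by
        by_contra h
        obtain rfl | rfl | rfl : t = 0 ∨ t = 1 ∨ t = 2 := by omega
        · push_cast at t1; nlinarith
        · exact hm ((eq_top_iff_one _).2 (by simpa using t2))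
        · have := pos (-1) (by
            convert m.neg_mem t2 using 1
            push_cast; norm_num)
          simp at this
          linarith
      have : (3 : ℝ) ≤ t := by exact_mod_cast t3
      nlinarith
    have e0 : algebraMap K ℝ (u ^ 2 : 𝓞 K) = algebraMap K ℝ u ^ 2 := by rw [cp, map_pow]
    obtain ⟨n, hL⟩ := hb.lev (u ^ 2) (by rw [cp, map_pow, map_pow, ← mul_pow, sq1])
      (by rw [e0]; nlinarith)
    have hN := hb.nr _ n hL (by rw [e0]; nlinarith)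
    have hS := hSys K _ σ₂ c hR _ n hL
    obtain ⟨Ω, _, _, hH, hZ'⟩ := exists_Om hR1 hA hR hS hL _ ((hS.fin.image
      fun z => ((Real.sqrt ‖z‖ : ℝ) : ℂ)).insert I) (by
        rintro z (rfl | ⟨z, ⟨Λ, x, a1, a2, rfl⟩, rfl⟩)
        · exact IsAlgebraic.of_pow four_pos (I_pow_four ▸ isAlgebraic_one)
        · have := (hA K _ σ₂ c hR _ n hL Λ x a1 a2).1
          refine IsAlgebraic.of_pow (n := 2 * 2) (by norm_num) ?_
          rw [pow_mul, ← ofReal_pow, Real.sq_sqrt (norm_nonneg _), ← mul_conj']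
          exact this.mul (this.algHom (starRingEnd ℂ).toRatAlgHom))
    have h2 := hH2 K σ₂ c hR _ n hL hN Ω hH
    have uu : IsUnit u := isUnit_of_dvd_unit (dvd_pow_self u two_ne_zero) (hb.norm _ n hL).2.2.1
    have real : ∀ b, b ≠ ⊥ → conj (FF (algebraMap K ℝ) (u ^ 2) (dv m b) 1) =
        FF (algebraMap K ℝ) (u ^ 2) (dv m b) 1 := fun b hb => by
      rw [← h2.cnj u uu (by linarith) u3 _ 1 (dv_ne hm' hb) (tor_dv hb (tor _ (upow 2))), FF, FF,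
        ← hS.per _ 1 _ (tor_dv hb (tor _ u1))]
      congr 1; ring
    have lam : ∀ a x, Fam u a x → lamb u a x ∈ Ω := fun a x h => hZ' _ (Or.inr ⟨_, ⟨lat a, x,
      hb.sl _ a h.1, by
        have := int_mul_mem (u + 1) h.2.1
        rw [Tor, mem_lat]
        convert this using 1
        push_cast; ring, rfl⟩, rfl⟩)
    have fam : Fam u m 1 := ⟨hm', tor u u1, one⟩
    set F := FF (algebraMap K ℝ) (u ^ 2) m 1 with hF
    have F0 : F ≠ 0 := hS.ne _ _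
    let z : Ω := ⟨F, hH.1 _ 1 hm' (tor _ (upow 2))⟩
    let l : Ω := ⟨_, lam _ _ fam⟩
    let i : Ω := ⟨I, hZ' _ (Or.inl rfl)⟩
    have cl := fun σ τ => hCo K σ₂ c hR u u6 u8 Ω lam σ τ l _ _ fam rfl
    have l2 : (l : ℂ) ^ 2 = ‖F‖ := by
      change ((Real.sqrt ‖F‖ : ℝ) : ℂ) ^ 2 = _
      rw [← ofReal_pow, Real.sq_sqrt (norm_nonneg _)]
    obtain ⟨w, w1, w2⟩ : ∃ w : Ω, (w : ℂ) ^ 2 = F ∧ ∀ σ τ : Ω ≃ₐ[K] Ω, σ (τ w) = τ (σ w) := by
      have := real ⊤ top_ne_bot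
      rw [dv_top, conj_eq_iff_real] at this
      obtain ⟨r, hr⟩ := this
      rw [← hF] at hr
      rw [hr, norm_real, Real.norm_eq_abs] at l2
      rcases le_total 0 r with h | h
      · exact ⟨l, by rw [l2, hr, abs_of_nonneg h], cl⟩
      · refine ⟨i * l, ?_, fun σ τ => by
          simp only [map_mul]; rw [cl, comm_root (ζ := i) four_pos I_pow_four]⟩
        rw [IntermediateField.coe_mul, mul_pow, l2, hr, abs_of_nonpos h]
        simp [i]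
    obtain ⟨i1, i2⟩ := hUn K σ₂ c hR _ n hL _ 1 hm' (tor _ (upow 2))
    have e2 : w ^ 2 = z := Subtype.ext w1
    refine engine hRay hRCF hm0 hm (upow 2) h2 w (w1 ▸ i1) (w1 ▸ i2)
      (fun h => F0 (by simpa [h] using w1.symm)) w2 fun σ b b1 h => ?_
    have e3 : (σ (w ^ 2) : ℂ) = FF (algebraMap K ℝ) (u ^ 2) (dv m b) 1 := by
      rw [e2]
      exact (h z rfl).elim id fun h => h.trans (real b b1.2)
    refine ⟨fun hb => Subtype.ext ?_, fun A hA => ?_⟩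
    · rw [e3, hb, dv_top, e2]
    · obtain ⟨x, x1, x2⟩ := hZ K _ σ₂ c hR m hm0 hm η g1 g2 g3 g4 _ n 2 hL (by
        rw [cp, ← mul_pow, u0, one_pow]) b A b1 hA
      exact ⟨x, x1, by rw [e3, x2]; norm_num⟩

end Pool.Agent.Lib.Stark
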