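import Pool.Agent.Lib.stark.Defs1

namespace Pool.Agent.Lib.Stark

namespace G1a

/-- The geometric sum `1 + a + ... + a ^ (ρ - 1)`. -/
def T (ρ a : ℕ) : ℕ := ∑ i ∈ Finset.range ρ, a ^ i

lemma lt_T {ρ a : ℕ} (hρ : 2 ≤ ρ) (ha : 2 ≤ a) : ρ < T ρ a := by
  have h : ∑ _i ∈ Finset.range ρ, 1 < ∑ i ∈ Finset.range ρ, a ^ i := by
    apply Finset.sum_lt_sum
    · intro i _
      exact Nat.one_le_pow _ _ (by omega)
    · exact ⟨1, Finset.mem_range.2 (by omega), by rw [pow_one]; omega⟩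
  simpa [T] using h

lemma T_cast (ρ a m : ℕ) : ((T ρ a : ℕ) : ZMod m) = ∑ i ∈ Finset.range ρ, (a : ZMod m) ^ i := by
  simp [T]

lemma pow_eq_one_of_dvd {ρ a m : ℕ} (h : m ∣ T ρ a) : (a : ZMod m) ^ ρ = 1 := by
  have h0 : ((T ρ a : ℕ) : ZMod m) = 0 := (ZMod.natCast_eq_zero_iff _ _).2 h
  have h1 := geom_sum_mul (a : ZMod m) ρ
  rw [← T_cast, h0, zero_mul] at h1
  exact (sub_eq_zero.1 h1.symm)

lemma T_eq_of_one {ρ a m : ℕ} (h : (a : ZMod m) = 1) : ((T ρ a : ℕ) : ZMod m) = ρ := by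
  rw [T_cast, h]; simp

lemma sq_dvd_of_only {ρ t : ℕ} (hρ : ρ.Prime) (ht : ρ < t)
    (h : ∀ l : ℕ, l.Prime → l ∣ t → l = ρ) : ρ ^ 2 ∣ t := by
  have h2 := hρ.two_le
  have e := Nat.eq_prime_pow_of_unique_prime_dvd (n := t) (p := ρ) (by omega)
    (fun {d} hd hdt => h d hd hdt)
  generalize t.primeFactorsList.length = s at e
  subst e
  apply pow_dvd_pow
  by_contra hs
  have : s ≤ 1 := by omega
  have := Nat.pow_le_pow_right hρ.pos this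
  rw [pow_one] at this
  omega

lemma exists_other {ρ a : ℕ} (hρ : ρ.Prime) (ha : 2 ≤ a) :
    (∃ l : ℕ, l.Prime ∧ l ≠ ρ ∧ l ∣ T ρ a) ∨ ∃ l : ℕ, l.Prime ∧ l ≠ ρ ∧ l ∣ T ρ (a ^ ρ) := by
  by_contra hcon
  push Not at hcon
  obtain ⟨h1, h2⟩ := hcon
  have ha' : 2 ≤ a ^ ρ := le_trans ha (Nat.le_self_pow hρ.ne_zero a)
  have k1 := sq_dvd_of_only hρ (lt_T hρ.two_le ha)
    (fun l hl hd => by by_contra hne; exact h1 l hl hne hd)
  have k2 := sq_dvd_of_only hρ (lt_T hρ.two_le ha')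
    (fun l hl hd => by by_contra hne; exact h2 l hl hne hd)
  have e1 : ((a ^ ρ : ℕ) : ZMod (ρ ^ 2)) = 1 := by
    rw [Nat.cast_pow]; exact pow_eq_one_of_dvd k1
  have e2 := T_eq_of_one (ρ := ρ) e1
  rw [(ZMod.natCast_eq_zero_iff _ _).2 k2] at e2
  have e3 : ρ ^ 2 ∣ ρ := (ZMod.natCast_eq_zero_iff _ _).1 e2.symm
  have := Nat.le_of_dvd hρ.pos e3
  have h2' := hρ.two_le
  nlinarith

lemma order_of_dvd {ρ q j l : ℕ} (hρ : ρ.Prime) (hl : l.Prime) (hne : l ≠ ρ)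
    (hd : l ∣ T ρ (q ^ ρ ^ j)) : orderOf (q : ZMod l) = ρ ^ (j + 1) := by
  have := Fact.mk hρ
  apply orderOf_eq_prime_pow
  · intro h
    have e1 : ((q ^ ρ ^ j : ℕ) : ZMod l) = 1 := by rw [Nat.cast_pow]; exact h
    have e2 := T_eq_of_one (ρ := ρ) e1
    rw [(ZMod.natCast_eq_zero_iff _ _).2 hd] at e2
    have e3 : l ∣ ρ := (ZMod.natCast_eq_zero_iff _ _).1 e2.symm
    exact hne ((Nat.prime_dvd_prime_iff_eq hl hρ).1 e3)
  · have := pow_eq_one_of_dvd hd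
    rw [Nat.cast_pow, ← pow_mul, ← pow_succ] at this
    exact this

lemma exists_prime {q : ℕ} (hq : 2 ≤ q) (ρ e M : ℕ) (hρ : ρ.Prime) :
    ∃ l : ℕ, l.Prime ∧ M < l ∧ ∀ k : ℕ, q ^ k ≡ 1 [MOD l] → ρ ^ e ∣ k := by
  have key : ∃ l j : ℕ, l.Prime ∧ e + M ≤ j ∧ orderOf (q : ZMod l) = ρ ^ (j + 1) := by
    have ha : 2 ≤ q ^ ρ ^ (e + M) :=
      le_trans hq (Nat.le_self_pow (pow_ne_zero _ hρ.ne_zero) q)
    rcases exists_other hρ ha with ⟨l, hl, hne, hd⟩ | ⟨l, hl, hne, hd⟩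
    · exact ⟨l, e + M, hl, le_rfl, order_of_dvd hρ hl hne hd⟩
    · rw [← pow_mul, ← pow_succ] at hd
      exact ⟨l, e + M + 1, hl, by omega, order_of_dvd hρ hl hne hd⟩
  obtain ⟨l, j, hl, hj, ho⟩ := key
  have := Fact.mk hl
  refine ⟨l, hl, ?_, fun k hk => ?_⟩
  · have h1 : orderOf (q : ZMod l) ≤ Fintype.card (ZMod l) := orderOf_le_card_univ
    rw [ZMod.card, ho] at h1
    have h2 : j + 1 < ρ ^ (j + 1) := Nat.lt_pow_self hρ.one_lt
    omega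
  · have h1 : (q : ZMod l) ^ k = 1 := by
      have := (ZMod.natCast_eq_natCast_iff _ _ _).2 hk
      simpa using this
    have h2 := orderOf_dvd_of_pow_eq_one h1
    rw [ho] at h2
    exact (pow_dvd_pow ρ (by omega)).trans h2

end G1a

theorem blockArtin : StmtArtin := by
  intro q r M hq hr
  classical
  have h : ∀ ρ : ℕ, ∃ l : ℕ, ρ.Prime →
      l.Prime ∧ M < l ∧ ∀ k : ℕ, q ^ k ≡ 1 [MOD l] → ρ ^ r.factorization ρ ∣ k := by
    intro ρ
    by_cases hρ : ρ.Prime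
    · obtain ⟨l, hl⟩ := G1a.exists_prime hq ρ (r.factorization ρ) M hρ
      exact ⟨l, fun _ => hl⟩
    · exact ⟨0, fun h => absurd h hρ⟩
  choose f hf using h
  have hS : ∀ l ∈ r.primeFactors.image f, l.Prime ∧ M < l := by
    intro l hl
    obtain ⟨ρ, hρ, rfl⟩ := Finset.mem_image.1 hl
    have := hf ρ (Nat.prime_of_mem_primeFactors hρ)
    exact ⟨this.1, this.2.1⟩
  refine ⟨∏ l ∈ r.primeFactors.image f, l, ?_, ?_, ?_⟩
  · apply Finset.squarefree_prod_of_pairwise_isCoprime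
    · intro x hx y hy hxy
      exact Nat.coprime_iff_isRelPrime.1
        ((Nat.coprime_primes (hS x hx).1 (hS y hy).1).2 hxy)
    · intro x hx
      exact (hS x hx).1.prime.squarefree
  · intro p hp hd
    obtain ⟨l, hl, hpl⟩ := (Prime.dvd_finsetProd_iff hp.prime _).1 hd
    rw [(Nat.prime_dvd_prime_iff_eq hp (hS l hl).1).1 hpl]
    exact (hS l hl).2
  · intro k hk
    rw [Nat.dvd_iff_prime_pow_dvd_dvd]
    intro p i hp hpi
    rcases Nat.eq_zero_or_pos i with rfl | hi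
    · simp
    have hpr : p ∈ r.primeFactors :=
      Nat.mem_primeFactors.2 ⟨hp, (dvd_pow_self p hi.ne').trans hpi, hr.ne'⟩
    have h1 := (hf p hp).2.2 k
      (hk.of_dvd (Finset.dvd_prod_of_mem (fun l => l) (Finset.mem_image_of_mem f hpr)))
    exact (pow_dvd_pow p ((hp.pow_dvd_iff_le_factorization hr.ne').1 hpi)).trans h1

end Pool.Agent.Lib.Stark
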