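import Pool.Agent.Lib.stark.Defs2

open NumberField Ideal Polynomial

namespace Pool.Agent.Lib.Stark

namespace G1b

lemma crt {m n : ℤ} (h : IsCoprime m n) (a b : ℤ) : ∃ x, m ∣ x - a ∧ n ∣ x - b := by
  obtain ⟨u, v, huv⟩ := h
  exact ⟨a * (v * n) + b * (u * m), ⟨(b - a) * u, by linear_combination a * huv⟩,
    ⟨(a - b) * v, by linear_combination b * huv⟩⟩

lemma cong {m x y x₁ y₁ D G : ℤ} (hx : m ∣ x - x₁) (hy : m ∣ y - y₁)
    (h : m ∣ x₁ ^ 2 - D * y₁ ^ 2 - G) : m ∣ x ^ 2 - D * y ^ 2 - G := by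
  have e : x ^ 2 - D * y ^ 2 - G =
      (x - x₁) * (x + x₁) - (y - y₁) * (D * (y + y₁)) + (x₁ ^ 2 - D * y₁ ^ 2 - G) := by ring
  rw [e]
  exact ((hx.mul_right _).sub (hy.mul_right _)).add h

lemma prime_case {p : ℕ} (hp : p.Prime) (h2 : 2 < p) {D : ℤ} (hD : ¬ (p : ℤ) ∣ D) (G : ℤ) :
    ∃ x y : ℤ, (p : ℤ) ∣ x ^ 2 - D * y ^ 2 - G := by
  have := Fact.mk hp
  have h0 : (-D : ZMod p) ≠ 0 := by
    rwa [neg_ne_zero, Ne, ZMod.intCast_zmod_eq_zero_iff_dvd]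
  obtain ⟨a, b, hab⟩ := FiniteField.exists_root_sum_quadratic (R := ZMod p)
    (f := X ^ 2 - C (G : ZMod p)) (g := C (-D : ZMod p) * X ^ 2)
    (degree_X_pow_sub_C (by norm_num) _) (degree_C_mul_X_pow 2 h0)
    (by rw [ZMod.card]; exact hp.eq_two_or_odd.resolve_left (by omega))
  obtain ⟨x, rfl⟩ := ZMod.intCast_surjective a
  obtain ⟨y, rfl⟩ := ZMod.intCast_surjective b
  refine ⟨x, y, (ZMod.intCast_zmod_eq_zero_iff_dvd _ _).1 ?_⟩
  simp only [eval_sub, eval_pow, eval_X, eval_C, eval_mul] at hab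
  push_cast
  linear_combination hab

lemma sqfree_case {D : ℤ} (G : ℤ) (l : ℕ) : Squarefree l →
    (∀ p : ℕ, p.Prime → p ∣ l → 2 < p ∧ ¬ (p : ℤ) ∣ D) →
    ∃ x y : ℤ, (l : ℤ) ∣ x ^ 2 - D * y ^ 2 - G := by
  induction l using induction_on_primes with
  | zero => intro h; exact absurd h not_squarefree_zero
  | one => intro _ _; exact ⟨0, 0, by simp⟩
  | prime_mul p a hp ih =>
    intro h1 h2
    obtain ⟨h3, -, h4⟩ := Nat.squarefree_mul_iff.1 h1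
    obtain ⟨x₁, y₁, e₁⟩ := prime_case hp (h2 p hp (dvd_mul_right _ _)).1
      (h2 p hp (dvd_mul_right _ _)).2 G
    obtain ⟨x₂, y₂, e₂⟩ := ih h4 fun q hq hq' => h2 q hq (hq'.mul_left _)
    have h5 : IsCoprime (p : ℤ) (a : ℤ) := Nat.isCoprime_iff_coprime.2 h3
    obtain ⟨x, hx, hx'⟩ := crt h5 x₁ x₂
    obtain ⟨y, hy, hy'⟩ := crt h5 y₁ y₂
    refine ⟨x, y, ?_⟩
    push_cast
    exact h5.mul_dvd (cong hx hy e₁) (cong hx' hy' e₂)

variable {K : Type} [Field K] [NumberField K] {σ₁ σ₂ : K →+* ℝ}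

lemma norm_eq (h : Module.finrank ℚ K = 2) (hne : σ₂ ≠ σ₁) (α : 𝓞 K) :
    ((Algebra.norm ℤ α : ℤ) : ℝ) = σ₁ α * σ₂ α := by
  classical
  let a₁ : K →ₐ[ℚ] ℂ := (Complex.ofRealHom.comp σ₁).toRatAlgHom
  let a₂ : K →ₐ[ℚ] ℂ := (Complex.ofRealHom.comp σ₂).toRatAlgHom
  have h1 : a₁ ≠ a₂ := fun e => hne (RingHom.ext fun x => by
    have := DFunLike.congr_fun e x
    simpa [a₁, a₂] using this.symm)
  have h2 : ({a₁, a₂} : Finset (K →ₐ[ℚ] ℂ)) = Finset.univ :=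
    Finset.eq_univ_of_card _ (by rw [Finset.card_pair h1, AlgHom.card, h])
  have h3 := Algebra.norm_eq_prod_embeddings ℚ ℂ (α : K)
  rw [← h2, Finset.prod_pair h1, ← Algebra.coe_norm_int] at h3
  apply Complex.ofReal_injective
  simpa [a₁, a₂] using h3

lemma exists_ne (hne : σ₂ ≠ σ₁) : ∃ ω : 𝓞 K, σ₁ ω ≠ σ₂ ω := by
  by_contra h
  push Not at h
  refine hne (RingHom.ext fun x => ?_)
  obtain ⟨a, b, -, rfl⟩ := IsFractionRing.div_surjective (A := 𝓞 K) x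
  have ha : σ₂ (algebraMap _ K a) = σ₁ (algebraMap _ K a) := (h a).symm
  have hb : σ₂ (algebraMap _ K b) = σ₁ (algebraMap _ K b) := (h b).symm
  rw [map_div₀, map_div₀, ha, hb]

end G1b

open G1b in
theorem blockG1b (_hR : StmtR1) : StmtFull := by
  intro K _ _ σ₁ σ₂ c hc m hm
  obtain ⟨ω, hω⟩ := exists_ne hc.ne
  let θ : 𝓞 K := ω - RingOfIntegers.mapRingEquiv c ω
  have e₁ : σ₁ θ = σ₁ ω - σ₂ ω := by
    rw [← hc.cnj₁, ← map_sub]; rfl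
  have e₂ : σ₂ θ = -σ₁ θ := by
    rw [e₁, neg_sub, ← hc.cnj₂, ← map_sub]; rfl
  have hr : σ₁ θ ≠ 0 := by rw [e₁]; exact sub_ne_zero.2 hω
  obtain ⟨D, hD⟩ : ∃ D : ℤ, (D : ℝ) = σ₁ θ ^ 2 :=
    ⟨-Algebra.norm ℤ θ, by rw [Int.cast_neg, norm_eq hc.rank hc.ne, e₂]; ring⟩
  have hD0 : D ≠ 0 := by
    rintro rfl
    exact pow_ne_zero 2 hr (by simpa using hD.symm)
  have hN : absNorm m ≠ 0 := by rwa [Ne, absNorm_eq_zero_iff]
  refine ⟨2 + D.natAbs + absNorm m, fun l hl hp g => ?_⟩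
  obtain ⟨G, hG⟩ := ZMod.intCast_surjective (g : ZMod l)
  obtain ⟨x₀, y₀, h0⟩ := sqfree_case (D := D) G l hl fun p h1 h2 => by
    have h3 := hp p h1 h2
    refine ⟨by omega, fun h4 => ?_⟩
    have := Nat.le_of_dvd (Int.natAbs_pos.2 hD0) (Int.natCast_dvd.1 h4)
    omega
  have hco : IsCoprime (l : ℤ) (absNorm m : ℤ) :=
    Nat.isCoprime_iff_coprime.2 (Nat.coprime_of_dvd fun p h1 h2 h4 => by
      have h3 := hp p h1 h2
      have := Nat.le_of_dvd (Nat.pos_of_ne_zero hN) h4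
      omega)
  obtain ⟨x, hx, u, hu⟩ := crt hco x₀ 1
  obtain ⟨y, hy, v, hv⟩ := crt hco y₀ 0
  obtain ⟨k, hk⟩ := exists_nat_gt (|y * σ₁ θ| - x)
  have hl1 : (1 : ℝ) ≤ (l : ℝ) * absNorm m := by
    exact_mod_cast Nat.pos_of_ne_zero (mul_ne_zero hl.ne_zero hN)
  obtain ⟨a, ha⟩ : ∃ a : ℤ, a = x + k * (l * absNorm m) := ⟨_, rfl⟩
  have ha1 : |y * σ₁ θ| < a := by
    rw [ha]; push_cast
    nlinarith [(Nat.cast_nonneg k : (0 : ℝ) ≤ k)]
  have s₁ : σ₁ ((a + y * θ : 𝓞 K) : K) = a + y * σ₁ θ := by simp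
  have s₂ : σ₂ ((a + y * θ : 𝓞 K) : K) = a - y * σ₁ θ := by
    rw [sub_eq_add_neg, ← mul_neg, ← e₂]; simp
  have p₁ : 0 < σ₁ ((a + y * θ : 𝓞 K) : K) := by rw [s₁]; linarith [(abs_lt.1 ha1).1]
  have p₂ : 0 < σ₂ ((a + y * θ : 𝓞 K) : K) := by rw [s₂]; linarith [(abs_lt.1 ha1).2]
  have hn := norm_eq hc.rank hc.ne (a + y * θ)
  refine ⟨a + y * θ, fun h => by simp [h] at p₁, ?_, p₁, p₂, ?_⟩
  · have e : (a + y * θ - 1 : 𝓞 K) = (absNorm m : 𝓞 K) * (u + k * l + v * θ) := by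
      have h1 : a = 1 + absNorm m * (u + k * l) := by linear_combination ha + hu
      have h2 : y = absNorm m * v := by linear_combination hv
      rw [h1, h2]; push_cast; ring
    rw [e]
    exact m.mul_mem_right _ (absNorm_mem m)
  · have h1 : 0 < Algebra.norm ℤ (a + y * θ : 𝓞 K) := by
      have := mul_pos p₁ p₂
      rw [← hn] at this
      exact_mod_cast this
    have h2 : Algebra.norm ℤ (a + y * θ : 𝓞 K) = a ^ 2 - D * y ^ 2 := by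
      rw [s₁, s₂] at hn
      have : ((Algebra.norm ℤ (a + y * θ : 𝓞 K) : ℤ) : ℝ) = ((a ^ 2 - D * y ^ 2 : ℤ) : ℝ) := by
        rw [hn]; push_cast; rw [hD]; ring
      exact_mod_cast this
    rw [absNorm_span_singleton, ← hG, ← Int.cast_natCast, Int.natAbs_of_nonneg h1.le, h2, eq_comm,
      ZMod.intCast_eq_intCast_iff_dvd_sub]
    refine cong (x₁ := x₀) ?_ hy h0
    have : a - x₀ = x - x₀ + l * (k * absNorm m) := by rw [ha]; ring
    rw [this]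
    exact hx.add (dvd_mul_right _ _)

end Pool.Agent.Lib.Stark
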