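import Pool.Agent.Lib.stark.Defs2
import Pool.Agent.Lib.MP_6bf7a3_nt.H5Quad

open NumberField Ideal Polynomial

namespace Pool.Agent.Lib.Stark
namespace G3

variable {K : Type} [Field K] [NumberField K]

/-- The norm modulo `l`. -/
noncomputable def nm (l : ℕ) (I : Ideal (𝓞 K)) : (ZMod l)ˣ :=
  if h : (absNorm I).Coprime l then ZMod.unitOfCoprime _ h else 1

theorem coe_nm {l : ℕ} {I : Ideal (𝓞 K)} (h : (absNorm I).Coprime l) :
    (nm l I : ZMod l) = absNorm I := by rw [nm, dif_pos h, ZMod.coe_unitOfCoprime]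

theorem sup_iff {l : ℕ} {I : Ideal (𝓞 K)} :
    I ⊔ span {(l : 𝓞 K)} = ⊤ ↔ (absNorm I).Coprime l := by
  constructor
  · intro h
    by_contra hc
    obtain ⟨p, hp, h1, h2⟩ := Nat.Prime.not_coprime_iff_dvd.1 hc
    obtain ⟨P, hP, h3, h4⟩ := exists_isMaximal_dvd_of_dvd_absNorm (Nat.prime_iff_prime_int.1 hp) I
      (Int.natCast_dvd_natCast.2 h1)
    refine hP.ne_top (top_le_iff.1 (h ▸ sup_le (le_of_dvd h4) ?_))
    have : (l : ℤ) ∈ P.under ℤ := h3 ▸ mem_span_singleton.2 (Int.natCast_dvd_natCast.2 h2)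
    rw [span_singleton_le_iff_mem]
    simpa using this
  · intro h
    obtain ⟨a, b, e⟩ := Nat.isCoprime_iff_coprime.2 h
    have e' := congrArg (Int.cast : ℤ → 𝓞 K) e
    push_cast at e'
    rw [eq_top_iff_one, ← e']
    exact Submodule.add_mem_sup (I.mul_mem_left _ (absNorm_mem I))
      (mul_mem_left _ _ (mem_span_singleton_self _))

theorem cop_iff {l : ℕ} {m I : Ideal (𝓞 K)} :
    I ⊔ m * span {(l : 𝓞 K)} = ⊤ ↔ I ⊔ m = ⊤ ∧ (absNorm I).Coprime l := by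
  rw [← sup_iff, ← isCoprime_iff_sup_eq, ← isCoprime_iff_sup_eq, ← isCoprime_iff_sup_eq,
    IsCoprime.mul_right_iff]

theorem norm_mod {l : ℕ} {α : 𝓞 K} (h : α - 1 ∈ span {(l : 𝓞 K)}) :
    ((Algebra.norm ℤ α : ℤ) : ZMod l) = 1 := by
  classical
  obtain ⟨β, hβ⟩ := mem_span_singleton.1 h
  let b := RingOfIntegers.basis K
  rw [Algebra.norm_eq_matrix_det b, eq_add_of_sub_eq hβ]
  change Int.castRingHom (ZMod l) _ = 1
  rw [RingHom.map_det, ← nsmul_eq_mul, map_add, map_add, map_one, map_one, map_nsmul, map_nsmul,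
    ← Nat.cast_smul_eq_nsmul (ZMod l), ZMod.natCast_self, zero_smul, zero_add, Matrix.det_one]

theorem absNorm_mod {σ₁ σ₂ : K →+* ℝ} {c : K ≃+* K} (hK : RQ σ₁ σ₂ c) {l : ℕ} {α : 𝓞 K}
    (h : α - 1 ∈ span {(l : 𝓞 K)}) (h1 : 0 < σ₁ α) (h2 : 0 < σ₂ α) :
    (absNorm (span {α}) : ZMod l) = 1 := by
  have : (0 : ℝ) < Algebra.norm ℤ α := by
    have := MP_6bf7a3_nt.norm_eq_mul hK.rank hK.ne (α : K)
    rw [← Algebra.coe_norm_int, Rat.cast_intCast] at this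
    rw [this]
    exact mul_pos h1 h2
  rw [absNorm_span_singleton, ← norm_mod h, ← Int.cast_natCast,
    Int.natAbs_of_nonneg (by exact_mod_cast this.le)]

theorem rayHom_prod {σ₁ σ₂ : K →+* ℝ} {c : K ≃+* K} (hK : RQ σ₁ σ₂ c) {m : Ideal (𝓞 K)}
    {B : Type} [CommGroup B] {κ : Ideal (𝓞 K) → B} (h : RayHom m κ) (l : ℕ) :
    RayHom (m * span {(l : 𝓞 K)}) fun I => (κ I, nm l I) := by
  constructor
  · intro I J hI hJ
    obtain ⟨a1, a2⟩ := cop_iff.1 hI.1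
    obtain ⟨b1, b2⟩ := cop_iff.1 hJ.1
    refine Prod.ext (h.mul I J ⟨a1, hI.2⟩ ⟨b1, hJ.2⟩) (Units.ext ?_)
    simp only [Prod.snd_mul, Units.val_mul]
    rw [coe_nm a2, coe_nm b2, coe_nm (by rw [map_mul]; exact Nat.Coprime.mul_left a2 b2), map_mul,
      Nat.cast_mul]
  · intro α h0 h1 h2
    have h3 : α - 1 ∈ m := Ideal.mul_le_left h1
    have h4 : α - 1 ∈ span {(l : 𝓞 K)} := Ideal.mul_le_right h1
    refine Prod.ext (h.triv α h0 h3 h2) (Units.ext ?_)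
    have := absNorm_mod hK h4 (h2 σ₁) (h2 σ₂)
    rw [coe_nm ((ZMod.isUnit_iff_coprime _ _).1 (this ▸ isUnit_one)), this]
    rfl

theorem cross (h6 : StmtLift) (Ω : Type) [Field Ω] [NumberField Ω] [Algebra K Ω] [IsGalois K Ω]
    (l : ℕ) [NeZero l] : ∃ (Ω' : Type) (_ : Field Ω') (_ : NumberField Ω') (_ : Algebra K Ω')
      (_ : IsGalois K Ω') (res : (Ω' ≃ₐ[K] Ω') →* Ω ≃ₐ[K] Ω) (χ : (Ω' ≃ₐ[K] Ω') →* (ZMod l)ˣ),
      ∀ p : Ideal (𝓞 K), p.IsMaximal →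
        (∀ P σ, Frob p P σ → ∃ P' σ', Frob p P' σ' ∧ res σ' = σ) ∧
        ∀ P' σ', Frob p P' σ' → (∃ P, Frob p P (res σ')) ∧
          ((absNorm p).Coprime l → χ σ' = nm l p) := by
  let Ω' := CyclotomicField l Ω
  have : NumberField Ω' := IsCyclotomicExtension.numberField {l} Ω Ω'
  obtain ⟨f, hf, _⟩ := IsGalois.is_separable_splitting_field K Ω
  have : IsSplittingField Ω Ω' ((cyclotomic l K).map (algebraMap K Ω)) := by
    rw [map_cyclotomic]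
    exact IsCyclotomicExtension.splitting_field_cyclotomic l Ω Ω'
  have := IsSplittingField.mul (K := Ω) Ω' f (cyclotomic l K) hf.ne_zero (cyclotomic_ne_zero _ _)
  have : Normal K Ω' := Normal.of_isSplittingField (f * cyclotomic l K)
  have : IsGalois K Ω' := {}
  have hζ := IsCyclotomicExtension.zeta_spec l Ω Ω'
  refine ⟨Ω', inferInstance, inferInstance, inferInstance, inferInstance,
    AlgEquiv.restrictNormalHom Ω, hζ.autToPow K, fun p hp =>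
      ⟨(h6.1 K Ω Ω' p hp).1, fun P' σ' h => ⟨⟨_, (h6.1 K Ω Ω' p hp).2 P' σ' h⟩, fun hc => ?_⟩⟩⟩
  have := (h6.2 K Ω' p hp).2.1 P' σ' h _ l hζ.pow_eq_one hc.symm
  rw [← hζ.autToPow_spec K σ', (hζ.isOfFinOrder (NeZero.ne l)).pow_eq_pow_iff_modEq,
    ← hζ.eq_orderOf] at this
  refine Units.ext ?_
  rw [coe_nm hc, ← (ZMod.natCast_eq_natCast_iff _ _ _).2 this, ZMod.natCast_zmod_val]

theorem closure_pair {B G : Type} [CommGroup B] [Finite B] [CommGroup G] {u g : G}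
    (h : ∀ i j : ℤ, u ^ i * g ^ j = 1 → (Nat.card B : ℤ) ∣ i ∧ (Nat.card B : ℤ) ∣ j)
    {x y b : B} {v : G} (hb : (b, v) ∈ Subgroup.closure {(x, u), (y, g)}) :
    (v = u → b = x) ∧ (v = g → b = y) := by
  obtain ⟨i, j, e⟩ := Subgroup.mem_closure_pair.1 hb
  have e1 : x ^ i * y ^ j = b := congrArg Prod.fst e
  have e2 : u ^ i * g ^ j = v := congrArg Prod.snd e
  have k : ∀ (z : B) (n : ℤ), (Nat.card B : ℤ) ∣ n → z ^ n = 1 := by
    rintro z _ ⟨n, rfl⟩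
    rw [zpow_mul, zpow_natCast, pow_card_eq_one', one_zpow]
  constructor
  · rintro rfl
    obtain ⟨a1, a2⟩ := h (i - 1) j (by rw [zpow_sub_one, mul_right_comm, e2, mul_inv_cancel])
    rw [← e1, k y j a2, mul_one, ← sub_add_cancel i 1, zpow_add_one, k x _ a1, one_mul]
  · rintro rfl
    obtain ⟨a1, a2⟩ := h i (j - 1) (by rw [zpow_sub_one, ← mul_assoc, e2, mul_inv_cancel])
    rw [← e1, k x i a1, one_mul, ← sub_add_cancel j 1, zpow_add_one, k y _ a2, one_mul]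

theorem exists_aux (h2 : StmtArtin) {q₁ q₃ r : ℕ} (M : ℕ) (h₁ : 2 ≤ q₁) (h₃ : 2 ≤ q₃) (hr : 0 < r) :
    ∃ l : ℕ, Squarefree l ∧ (∀ p : ℕ, p.Prime → p ∣ l → M < p) ∧ ∃ g : (ZMod l)ˣ,
      ∀ u : (ZMod l)ˣ, (u : ZMod l) = q₁ ∨ (u : ZMod l) = q₃ → ∀ i j : ℤ, u ^ i * g ^ j = 1 →
        (r : ℤ) ∣ i ∧ (r : ℤ) ∣ j := by
  obtain ⟨l₁, a1, a2, a3⟩ := h2 q₁ r M h₁ hr
  obtain ⟨l₃, b1, b2, b3⟩ := h2 q₃ r (max M l₁) h₃ hr
  obtain ⟨l₂, c1, c2, c3⟩ := Nat.exists_prime_gt_modEq_one (max M (l₁ * l₃)) hr.ne'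
  have := Fact.mk c1
  have c13 : l₁.Coprime l₃ := by
    by_contra h
    obtain ⟨p, hp, d1, d2⟩ := Nat.Prime.not_coprime_iff_dvd.1 h
    have := Nat.le_of_dvd (Nat.pos_of_ne_zero a1.ne_zero) d1
    have := b2 p hp d2
    omega
  have c2' : (l₁ * l₃).Coprime l₂ := (Nat.coprime_of_lt_prime (mul_ne_zero a1.ne_zero b1.ne_zero)
    (by omega) c1).symm
  obtain ⟨γ, hγ⟩ := IsCyclic.exists_generator (α := (ZMod l₂)ˣ)
  have ho : orderOf γ = l₂ - 1 := by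
    rw [orderOf_eq_card_of_forall_mem_zpowers hγ, Nat.card_eq_fintype_card, ZMod.card_units]
  obtain ⟨G, g1, g2⟩ := Nat.chineseRemainder c2' 1 (γ : ZMod l₂).val
  have gc : G.Coprime (l₁ * l₃ * l₂) := Nat.Coprime.mul_right
    (by rw [Nat.Coprime, g1.gcd_eq, Nat.gcd_one_left])
    (by rw [Nat.Coprime, g2.gcd_eq]; exact ZMod.val_coe_unit_coprime γ)
  refine ⟨l₁ * l₃ * l₂, (Nat.squarefree_mul c2').2 ⟨(Nat.squarefree_mul c13).2 ⟨a1, b1⟩,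
    c1.squarefree⟩, fun p hp hd => ?_, ZMod.unitOfCoprime G gc, fun u hu i j e => ?_⟩
  · rcases (Nat.Prime.dvd_mul hp).1 hd with hd | hd
    · rcases (Nat.Prime.dvd_mul hp).1 hd with hd | hd
      · exact a2 p hp hd
      · exact (le_max_left _ _).trans_lt (b2 p hp hd)
    · rw [(Nat.prime_dvd_prime_iff_eq hp c1).1 hd]; omega
  have key : ∀ {q l : ℕ}, l ∣ l₁ * l₃ → (∀ k, q ^ k ≡ 1 [MOD l] → r ∣ k) →
      (u : ZMod (l₁ * l₃ * l₂)) = q → (r : ℤ) ∣ i := by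
    intro q l hl h hq
    have hd := hl.mul_right l₂
    have e' := congrArg (ZMod.unitsMap hd) e
    have hg : ZMod.unitsMap hd (ZMod.unitOfCoprime G gc) = 1 := by
      refine Units.ext ?_
      rw [ZMod.unitsMap_val, ZMod.coe_unitOfCoprime, ZMod.cast_natCast hd,
        (ZMod.natCast_eq_natCast_iff _ _ _).2 (g1.of_dvd hl), Nat.cast_one, Units.val_one]
    rw [map_mul, map_zpow, map_zpow, hg, one_zpow, mul_one, map_one,
      ← orderOf_dvd_iff_zpow_eq_one] at e'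
    refine (Int.natCast_dvd_natCast.2 (h _ ?_)).trans e'
    have := congrArg Units.val (pow_orderOf_eq_one (ZMod.unitsMap hd u))
    rw [Units.val_pow_eq_pow_val, ZMod.unitsMap_val, hq, ZMod.cast_natCast hd] at this
    exact (ZMod.natCast_eq_natCast_iff _ _ _).1 (by exact_mod_cast this)
  have hi : (r : ℤ) ∣ i := hu.elim (key (dvd_mul_right _ _) a3) (key (dvd_mul_left _ _) b3)
  refine ⟨hi, ?_⟩
  obtain ⟨i, rfl⟩ := hi
  have hd : l₂ ∣ l₁ * l₃ * l₂ := dvd_mul_left _ _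
  have e' := congrArg (ZMod.unitsMap hd) e
  have hg : ZMod.unitsMap hd (ZMod.unitOfCoprime G gc) = γ := by
    refine Units.ext ?_
    rw [ZMod.unitsMap_val, ZMod.coe_unitOfCoprime, ZMod.cast_natCast hd,
      (ZMod.natCast_eq_natCast_iff _ _ _).2 g2, ZMod.natCast_zmod_val]
  obtain ⟨k, hk⟩ := hγ (ZMod.unitsMap hd u)
  rw [map_mul, map_zpow, map_zpow, hg, map_one, ← hk, ← zpow_mul, ← zpow_add,
    ← orderOf_dvd_iff_zpow_eq_one, ho] at e'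
  have := (Int.natCast_dvd_natCast.2 ((Nat.modEq_iff_dvd' c1.one_le).1 c3.symm)).trans e'
  exact (dvd_add_right (Dvd.intro (k * i) (by ring))).1 this

theorem two_le {p : Ideal (𝓞 K)} (hp : p.IsMaximal) : 2 ≤ absNorm p := by
  have h0 : absNorm p ≠ 0 := by
    rw [Ne, absNorm_eq_zero_iff]
    exact Ring.ne_bot_of_isMaximal_of_not_isField hp (RingOfIntegers.not_isField K)
  have h1 : absNorm p ≠ 1 := by rw [Ne, absNorm_eq_one_iff]; exact hp.ne_top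
  omega

end G3

open G3 in
theorem blockG3 (h1 : StmtU) (h2 : StmtArtin) (h3 : StmtFull) (h4 : StmtNV) (h5 : StmtDens)
    (h6 : StmtLift) : StmtG := by
  intro K _ _ σ₁ σ₂ c hK Ω _ _ _ _ m hm B _ _ κ₁ κ₂ k₁ k₂ a N hN
  by_contra hc
  simp only [Recip, not_or, not_forall] at hc
  obtain ⟨⟨p₃, P₃, s₃, m₃, c₃, f₃, n₃⟩, p₁, P₁, s₁, m₁, c₁, f₁, n₁⟩ := hc
  obtain ⟨M, hM⟩ := h3 K σ₁ σ₂ c hK m hm
  obtain ⟨l, hl, hl', g, hg⟩ := exists_aux h2 (max M (max (absNorm p₁) (absNorm p₃)))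
    (two_le m₁) (two_le m₃) (Nat.card_pos (α := B))
  have := NeZero.mk hl.ne_zero
  have cop : ∀ q : ℕ, 2 ≤ q → q ≤ max (absNorm p₁) (absNorm p₃) → q.Coprime l := fun q a1 a2 => by
    by_contra h
    obtain ⟨p, hp, d1, d2⟩ := Nat.Prime.not_coprime_iff_dvd.1 h
    have := Nat.le_of_dvd (by omega) d1
    have := hl' p hp d2
    omega
  have q₁ := cop _ (two_le m₁) (le_max_left _ _)
  have q₃ := cop _ (two_le m₃) (le_max_right _ _)
  have g₁ := hg (nm l p₁) (Or.inl (coe_nm q₁))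
  have g₃ := hg (nm l p₃) (Or.inr (coe_nm q₃))
  obtain ⟨Ω', _, _, _, _, res, χ, hX⟩ := cross (K := K) h6 Ω l
  have hm' : m * span {(l : 𝓞 K)} ≠ ⊥ := mul_ne_zero hm (by simpa using hl.ne_zero)
  have hU := h1 K σ₁ σ₂ c hK Ω' _ hm' _ _ _ (rayHom_prod hK k₁ l) (rayHom_prod hK k₂ l)
    ((a.comp res).prod χ) (max N l) fun p P σ hp hf => by
      obtain ⟨⟨P', hP'⟩, e⟩ := (hX p hp.1).2 P σ hf
      have hp' := hp.2.2
      have e' := e (Nat.coprime_of_lt_prime hl.ne_zero (by omega) hp.2.1)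
      exact (hN p P' _ ⟨hp.1, hp.2.1, by omega⟩ hP').imp (fun h => Prod.ext h e')
        fun h => Prod.ext h e'
  obtain ⟨Q₁, t₁, F₁, rfl⟩ := (hX p₁ m₁).1 P₁ s₁ f₁
  obtain ⟨Q₃, t₃, F₃, rfl⟩ := (hX p₃ m₃).1 P₃ s₃ f₃
  have x₁ := ((hX p₁ m₁).2 Q₁ t₁ F₁).2 q₁
  have x₃ := ((hX p₃ m₃).2 Q₃ t₃ F₃).2 q₃
  have d₁ := cop_iff.2 ⟨c₁, q₁⟩
  have d₃ := cop_iff.2 ⟨c₃, q₃⟩
  have mem₁ : ∀ y, ((a.comp res).prod χ) t₁ ∈ Subgroup.closure {(a (res t₁), nm l p₁), y} :=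
    fun y => Subgroup.subset_closure (Or.inl (Prod.ext rfl x₁))
  have mem₃ : ∀ y, ((a.comp res).prod χ) t₃ ∈ Subgroup.closure {(a (res t₃), nm l p₃), y} :=
    fun y => Subgroup.subset_closure (Or.inl (Prod.ext rfl x₃))
  have hne : κ₁ p₁ ≠ κ₂ p₁ := fun e => by
    rcases hU (Subgroup.closure {(a (res t₁), nm l p₁), (1, g)}) with h | h
    · exact n₁ (e ▸ ((closure_pair g₁ (h p₁ Q₁ t₁ m₁ d₁ F₁ (mem₁ _))).1 rfl).symm)
    · exact n₁ ((closure_pair g₁ (h p₁ Q₁ t₁ m₁ d₁ F₁ (mem₁ _))).1 rfl).symm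
  obtain ⟨α, a0, a1, a2, a3, a4⟩ := hM l hl (fun p hp hd => (le_max_left _ _).trans_lt (hl' p hp hd))
    (g * (nm l p₁)⁻¹)
  have apos : ∀ τ : K →+* ℝ, 0 < τ α := fun τ => by
    rcases MP_6bf7a3_nt.emb_cases hK.rank hK.ne (Complex.ofRealHom.comp τ) with h | h
    · have := RingHom.congr_fun h α
      simp only [RingHom.comp_apply, Complex.ofRealHom_eq_coe, Complex.ofReal_inj] at this
      rwa [this]
    · have := RingHom.congr_fun h α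
      simp only [RingHom.comp_apply, Complex.ofRealHom_eq_coe, Complex.ofReal_inj] at this
      rwa [this]
  have aq : (absNorm (span {α})).Coprime l :=
    (ZMod.isUnit_iff_coprime _ _).1 (a4 ▸ Units.isUnit _)
  have ac : Cop (m * span {(l : 𝓞 K)}) (span {α}) := by
    refine ⟨cop_iff.2 ⟨?_, aq⟩, by simpa using a0⟩
    rw [eq_top_iff_one, ← sub_sub_cancel α 1]
    exact sub_mem (mem_sup_left (mem_span_singleton_self _)) (mem_sup_right a1)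
  have pc : Cop (m * span {(l : 𝓞 K)}) p₁ :=
    ⟨d₁, Ring.ne_bot_of_isMaximal_of_not_isField m₁ (RingOfIntegers.not_isField K)⟩
  have k₁₂ : RayHom m fun I => (κ₁ I, κ₂ I) :=
    ⟨fun I J hI hJ => Prod.ext (k₁.mul I J hI hJ) (k₂.mul I J hI hJ),
      fun α b1 b2 b3 => Prod.ext (k₁.triv α b1 b2 b3) (k₂.triv α b1 b2 b3)⟩
  have k' := rayHom_prod hK k₁₂ l
  obtain ⟨p₂, b₂, c₂, e₂⟩ : ∃ p, Big (max N l) p ∧ Cop (m * span {(l : 𝓞 K)}) p ∧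
      ((κ₁ p, κ₂ p), nm l p) = ((κ₁ p₁, κ₂ p₁), g) := by
    by_contra h
    refine (h4 K σ₁ σ₂ c hK _ hm' _ _ k').2 (span {α} * p₁) ⟨?_, mul_ne_zero ac.2 pc.2⟩
      ((h5.1 K).mono _ _ (fun P _ hP hB => h ⟨P, hB, hP.1, hP.2.trans ?_⟩) ((h5.1 K).small _))
    · rw [← isCoprime_iff_sup_eq]
      exact (isCoprime_iff_sup_eq.2 ac.1).mul_left (isCoprime_iff_sup_eq.2 pc.1)
    · rw [k'.mul _ _ ac pc, k₁₂.triv α a0 a1 apos,
        show nm l (span {α}) = g * (nm l p₁)⁻¹ from Units.ext ((coe_nm aq).trans a4)]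
      simp
  have := b₂.1
  obtain ⟨⟨Q₂, hQ₂⟩⟩ := nonempty_primesOver (S := 𝓞 Ω') p₂
  obtain ⟨t₂, F₂⟩ := (h6.2 K Ω' p₂ b₂.1).1 Q₂ hQ₂
  obtain ⟨⟨e₁, e₂⟩, e₃⟩ : (κ₁ p₂ = κ₁ p₁ ∧ κ₂ p₂ = κ₂ p₁) ∧ nm l p₂ = g := by simpa using e₂
  have x₂ := (((hX p₂ b₂.1).2 Q₂ t₂ F₂).2 (cop_iff.1 c₂.1).2).trans e₃
  have mem₂ : ∀ y, ((a.comp res).prod χ) t₂ ∈ Subgroup.closure {y, (a (res t₂), g)} :=
    fun y => Subgroup.subset_closure (Or.inr (Prod.ext rfl x₂))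
  refine hne (e₁ ▸ e₂ ▸ Eq.trans (b := a (res t₂)) ?_ (Eq.symm ?_))
  · rcases hU (Subgroup.closure {(a (res t₁), nm l p₁), (a (res t₂), g)}) with h | h
    · exact (closure_pair g₁ (h p₂ Q₂ t₂ b₂.1 c₂.1 F₂ (mem₂ _))).2 e₃
    · exact absurd ((closure_pair g₁ (h p₁ Q₁ t₁ m₁ d₁ F₁ (mem₁ _))).1 rfl).symm n₁
  · rcases hU (Subgroup.closure {(a (res t₃), nm l p₃), (a (res t₂), g)}) with h | h
    · exact absurd ((closure_pair g₃ (h p₃ Q₃ t₃ m₃ d₃ F₃ (mem₃ _))).1 rfl).symm n₃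
    · exact (closure_pair g₃ (h p₂ Q₂ t₂ b₂.1 c₂.1 F₂ (mem₂ _))).2 e₃

end Pool.Agent.Lib.Stark
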