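import Pool.Agent.Lib.stark.G5a

open NumberField Filter Topology Ideal Polynomial
open scoped ComplexConjugate

namespace Pool.Agent.Lib.Stark

namespace G5

set_option linter.unusedSectionVars false

variable {K Ω : Type} [Field K] [NumberField K] [Field Ω] [NumberField Ω] [Algebra K Ω]
  [IsGalois K Ω]

theorem coe_smul (σ : Ω ≃ₐ[K] Ω) (x : 𝓞 Ω) : ((σ • x : 𝓞 Ω) : Ω) = σ x := rfl

theorem smul_alg (σ : Ω ≃ₐ[K] Ω) (x : 𝓞 K) :
    σ • algebraMap (𝓞 K) (𝓞 Ω) x = algebraMap (𝓞 K) (𝓞 Ω) x := by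
  apply RingOfIntegers.ext
  rw [coe_smul]
  exact σ.commutes (x : K)

theorem pow_sub_mem {R : Type} [CommRing R] {P : Ideal R} {x y : R} (h : x - y ∈ P) (q : ℕ) :
    x ^ q - y ^ q ∈ P := P.mem_of_dvd (sub_dvd_pow_sub_pow x y q) h

theorem frob_pow {P : Ideal (𝓞 Ω)} {σ : Ω ≃ₐ[K] Ω} {q : ℕ} (h : ∀ x : 𝓞 Ω, σ • x - x ^ q ∈ P)
    (f : ℕ) (x : 𝓞 Ω) : σ ^ f • x - x ^ q ^ f ∈ P := by
  induction f with
  | zero => simp
  | succ f ih =>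
    have := P.add_mem (h (σ ^ f • x)) (pow_sub_mem ih q)
    rw [pow_succ', mul_smul, pow_succ q, pow_mul]
    simpa using this

variable {m : Ideal (𝓞 K)} {B : Type} [CommGroup B] {κ : Ideal (𝓞 K) → B}
  {a : (Ω ≃ₐ[K] Ω) →* B}

theorem prime_norm_mem (h3 : StmtLift) (h4 : StmtNorm) (hm : m ≠ ⊥) (hκ : RayHom m κ)
    (ha : Recip m κ a) (E : IntermediateField K Ω) (Q : Ideal (𝓞 E)) (hQ : Q.IsMaximal)
    (hc : Q ⊔ m.map (algebraMap (𝓞 K) (𝓞 E)) = ⊤) :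
    κ (relNorm (𝓞 K) Q) ∈ E.fixingSubgroup.map a := by
  obtain ⟨p, hp⟩ : ∃ p, p = Q.under (𝓞 K) := ⟨_, rfl⟩
  have hpm : p.IsMaximal := hp ▸ Ideal.IsMaximal.under (𝓞 K) Q
  have hQp : Q.LiesOver p := ⟨hp⟩
  have hpc : p ⊔ m = ⊤ := by
    by_contra h
    have h1 : m ≤ p := (hpm.eq_of_le h le_sup_left) ▸ le_sup_right
    apply hQ.ne_top
    rw [← hc, sup_eq_left.2]
    rw [Ideal.map_le_iff_le_comap]
    exact h1.trans hp.le
  obtain ⟨f, hf1, hf2⟩ := (h4 K E m hm).2.2.2 p Q hpm ⟨hQ.isPrime, hQp⟩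
  obtain ⟨P, hP, hPQ⟩ := Ideal.exists_maximal_ideal_liesOver_of_isIntegral (S := 𝓞 Ω) Q
  have hPp : P.LiesOver p := Ideal.LiesOver.trans P Q p
  obtain ⟨σ, hσ⟩ := (h3.2 K Ω p hpm).1 P ⟨hP.isPrime, hPp⟩
  obtain ⟨φ, hφ⟩ := (h3.2 E Ω Q hQ).1 P ⟨hP.isPrime, hPQ⟩
  obtain ⟨ψ, hψ⟩ : ∃ ψ : Ω ≃ₐ[K] Ω, ψ = φ.restrictScalars K := ⟨_, rfl⟩
  have hψE : ψ ∈ E.fixingSubgroup := by
    rw [IntermediateField.mem_fixingSubgroup_iff]
    intro x hx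
    rw [hψ]
    exact φ.commutes ⟨x, hx⟩
  have hψP : ∀ x : 𝓞 Ω, ψ • x - x ^ absNorm p ^ f ∈ P := by
    intro x
    have := hφ.2 x
    rw [hf2] at this
    rw [hψ]
    exact this
  have hι : ∀ y : 𝓞 Ω, (σ ^ f * ψ⁻¹) • y - y ∈ P := by
    intro y
    have := P.sub_mem (frob_pow hσ.2 f (ψ⁻¹ • y)) (hψP (ψ⁻¹ • y))
    rw [mul_smul]
    simpa using this
  have hσι : Frob p P (σ * (σ ^ f * ψ⁻¹)) := by
    refine ⟨hσ.1, fun y => ?_⟩
    have := P.add_mem (hσ.2 ((σ ^ f * ψ⁻¹) • y)) (pow_sub_mem (hι y) (absNorm p))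
    rw [mul_smul]
    simpa using this
  have e1 := ha p P σ hpm hpc hσ
  have e2 := ha p P _ hpm hpc hσι
  rw [map_mul, e1, mul_eq_left, map_mul, map_inv, mul_inv_eq_one, map_pow, e1] at e2
  have hp0 : p ≠ ⊥ := Ring.ne_bot_of_isMaximal_of_not_isField hpm (RingOfIntegers.not_isField K)
  rw [hf1, (ray_pow hκ ⟨hpc, hp0⟩ f).2, e2]
  exact Subgroup.mem_map_of_mem a hψE

theorem norm_mem (h3 : StmtLift) (h4 : StmtNorm) (hm : m ≠ ⊥) (hκ : RayHom m κ)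
    (ha : Recip m κ a) (E : IntermediateField K Ω) (I : Ideal (𝓞 E))
    (hI : Cop (m.map (algebraMap (𝓞 K) (𝓞 E))) I) :
    κ (relNorm (𝓞 K) I) ∈ E.fixingSubgroup.map a := by
  induction I using UniqueFactorizationMonoid.induction_on_prime with
  | h₁ => exact absurd rfl hI.2
  | h₂ I hu =>
    obtain rfl : I = 1 := by simpa using hu
    rw [map_one, Ideal.one_eq_top, ray_top hκ]
    exact one_mem _
  | h₃ I Q hI0 hQ ih =>
    obtain ⟨c1, c2⟩ := cop_of_mul hI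
    have hQm : Q.IsMaximal := (Ideal.isPrime_of_prime hQ).isMaximal hQ.ne_zero
    rw [((h4 K E m hm).2.2.1 B κ hκ).mul _ _ c1 c2]
    exact mul_mem (prime_norm_mem h3 h4 hm hκ ha E Q hQm c1.1) (ih c2)

/-- the norm from a fixed field, modulo an ideal -/
theorem norm_cong (D : Subgroup (Ω ≃ₐ[K] Ω)) (β : 𝓞 (IntermediateField.fixedField D))
    (J : Ideal (𝓞 Ω))
    (h : ∀ σ : Ω ≃ₐ[K] Ω, σ ∉ D → σ • algebraMap _ (𝓞 Ω) β - 1 ∈ J) :
    algebraMap (𝓞 K) (𝓞 Ω) (Algebra.intNorm (𝓞 K) _ β) - algebraMap _ (𝓞 Ω) β ∈ J := by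
  classical
  let L := AlgebraicClosure Ω
  let E := IntermediateField.fixedField D
  have hs : ∀ φ : E →ₐ[K] L, ∃ σ : Ω ≃ₐ[K] Ω, ∀ x : E, algebraMap Ω L (σ x) = φ x := by
    intro φ
    obtain ⟨ψ, hψ⟩ := IsAlgClosed.surjective_domRestrict_of_isAlgebraic (E := Ω) φ
    refine ⟨ψ.restrictNormal' Ω, fun x => ?_⟩
    rw [← hψ]
    exact ψ.restrictNormal_commutes Ω x
  choose s hs using hs
  let φ₀ : E →ₐ[K] L := IsScalarTower.toAlgHom K E L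
  have hD : ∀ φ, φ ≠ φ₀ → s φ ∉ D := by
    intro φ hφ hmem
    apply hφ
    ext x
    rw [← hs, (IntermediateField.mem_fixedField_iff D _).1 x.2 _ hmem]
    rfl
  have e : algebraMap (𝓞 K) (𝓞 Ω) (Algebra.intNorm (𝓞 K) _ β) = algebraMap _ (𝓞 Ω) β *
      ∏ φ ∈ Finset.univ.erase φ₀, s φ • algebraMap _ (𝓞 Ω) β := by
    apply RingOfIntegers.ext
    apply (algebraMap Ω L).injective
    have h1 : algebraMap Ω L ((algebraMap (𝓞 K) (𝓞 Ω) (Algebra.intNorm (𝓞 K) _ β) : 𝓞 Ω) : Ω)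
        = algebraMap K L (Algebra.norm K (β : E)) := by
      rw [← coe_intNorm, IsScalarTower.algebraMap_apply K Ω L]; rfl
    rw [h1, Algebra.norm_eq_prod_embeddings K L,
      ← Finset.mul_prod_erase _ _ (Finset.mem_univ φ₀)]
    simp only [map_mul, map_prod]
    congr 1
    exact Finset.prod_congr rfl fun φ _ => (hs φ β).symm
  rw [e, ← mul_sub_one]
  apply J.mul_mem_left
  rw [← Ideal.Quotient.eq, map_prod, map_one]
  exact Finset.prod_eq_one fun φ hφ => by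
    rw [← map_one (Ideal.Quotient.mk J), Ideal.Quotient.eq]
    exact h _ (hD φ (Finset.ne_of_mem_erase hφ))

open scoped Pointwise in
/-- an element of the decomposition field that separates `P` from its conjugates -/
theorem exists_sep {p : Ideal (𝓞 K)} (hp : p.IsMaximal) {P : Ideal (𝓞 Ω)}
    (hP : P ∈ p.primesOver (𝓞 Ω)) (M : ℕ) :
    ∃ c : 𝓞 (IntermediateField.fixedField (MulAction.stabilizer (Ω ≃ₐ[K] Ω) P)),
      algebraMap _ (𝓞 Ω) c - 1 ∈ P ^ M ∧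
      ∀ P' ∈ p.primesOver (𝓞 Ω), P' ≠ P → algebraMap _ (𝓞 Ω) c ∈ P' ^ M := by
  classical
  have hp0 : p ≠ ⊥ := Ring.ne_bot_of_isMaximal_of_not_isField hp (RingOfIntegers.not_isField K)
  have hfin : (p.primesOver (𝓞 Ω)).Finite := IsDedekindDomain.primesOver_finite p (𝓞 Ω)
  obtain ⟨γ, hγ⟩ := IsDedekindDomain.exists_forall_sub_mem_ideal (s := hfin.toFinset) id
    (fun _ => M) (fun Q hQ => by
      have hQ' := hfin.mem_toFinset.1 hQ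
      have := hQ'.2
      exact Ideal.prime_of_isPrime (Ideal.ne_bot_of_liesOver_of_ne_bot hp0 Q) hQ'.1)
    (fun _ _ _ _ h => h) (fun Q => if Q.1 = P then 1 else 0)
  let D := MulAction.stabilizer (Ω ≃ₐ[K] Ω) P
  have hfix : ∀ τ ∈ D, τ • (∏ δ : D, (δ : Ω ≃ₐ[K] Ω) • γ) = ∏ δ : D, (δ : Ω ≃ₐ[K] Ω) • γ := by
    intro τ hτ
    rw [Finset.smul_prod']
    exact Fintype.prod_equiv (Equiv.mulLeft (⟨τ, hτ⟩ : D)) _ _ fun δ => by simp [mul_smul]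
  obtain ⟨c₀, hc₀⟩ : ∃ c₀, c₀ = ∏ δ : D, (δ : Ω ≃ₐ[K] Ω) • γ := ⟨_, rfl⟩
  rw [← hc₀] at hfix
  have hmem : (c₀ : Ω) ∈ IntermediateField.fixedField D := by
    rw [IntermediateField.mem_fixedField_iff]
    intro τ hτ
    rw [← coe_smul, hfix τ hτ]
  have hint : IsIntegral ℤ (⟨c₀, hmem⟩ : IntermediateField.fixedField D) :=
    (isIntegral_algHom_iff (IntermediateField.fixedField D).val.toRingHom.toIntAlgHom
      Subtype.val_injective).1 c₀.isIntegral_coe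
  have hc : algebraMap (𝓞 (IntermediateField.fixedField D)) (𝓞 Ω) ⟨_, hint⟩ = c₀ := rfl
  refine ⟨⟨_, hint⟩, ?_, fun P' hP' hne => ?_⟩
  · rw [hc, hc₀, ← Ideal.Quotient.eq, map_prod, map_one]
    refine Finset.prod_eq_one fun δ _ => ?_
    rw [← map_one (Ideal.Quotient.mk _), Ideal.Quotient.eq]
    have h1 : γ - 1 ∈ P ^ M := by simpa using hγ P (hfin.mem_toFinset.2 hP)
    have h2 := Ideal.smul_mem_pointwise_smul (δ : Ω ≃ₐ[K] Ω) _ _ h1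
    rwa [smul_pow', δ.2, smul_sub, smul_one] at h2
  · rw [hc, hc₀, ← Finset.mul_prod_erase _ _ (Finset.mem_univ (1 : D))]
    apply Ideal.mul_mem_right
    simpa [hne] using hγ P' (hfin.mem_toFinset.2 hP')

open scoped Pointwise in
theorem part2 (h3 : StmtLift) (h4 : StmtNorm) (hm : m ≠ ⊥) (hκ : RayHom m κ)
    (ha : Recip m κ a) {σ₁ σ₂ : K →+* ℝ} (hemb : ∀ τ : K →+* ℝ, τ = σ₁ ∨ τ = σ₂)
    (p m₀ b : Ideal (𝓞 K)) (k j : ℕ) (α : 𝓞 K) (P : Ideal (𝓞 Ω)) (hp : p.IsMaximal)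
    (hmm : m = p ^ k * m₀) (hpm : p ⊔ m₀ = ⊤) (hα : α - 1 ∈ m₀) (a₁ : 0 < σ₁ α) (a₂ : 0 < σ₂ α)
    (hαb : span {α} = p ^ j * b) (hpb : p ⊔ b = ⊤) (hP : P ∈ p.primesOver (𝓞 Ω)) :
    ∃ δ : Ω ≃ₐ[K] Ω, (∀ x ∈ P, δ • x ∈ P) ∧ a δ = κ b := by
  have hp0 : p ≠ ⊥ := Ring.ne_bot_of_isMaximal_of_not_isField hp (RingOfIntegers.not_isField K)
  have hm₀ : m₀ ≠ ⊥ := by rintro rfl; simp [hmm] at hm
  have hPp := hP.1
  have hPl := hP.2
  have hPm : P.IsMaximal := hPp.isMaximal (Ideal.ne_bot_of_liesOver_of_ne_bot hp0 P)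
  obtain ⟨M, hM0, hM⟩ := exists_pow_comap (RingOfIntegers.algebraMap.injective K Ω) hp hp0 hPm
    hPl.over (j + k + 1)
  let D := MulAction.stabilizer (Ω ≃ₐ[K] Ω) P
  let E := IntermediateField.fixedField D
  obtain ⟨c, hc1, hc2⟩ := exists_sep hp hP M
  have hN : 0 < absNorm (p ^ M * m₀) := Nat.pos_of_ne_zero (by
    rw [Ne, absNorm_eq_zero_iff]; exact mul_ne_zero (pow_ne_zero _ hp0) hm₀)
  obtain ⟨t, n₁, n₂⟩ := exists_norm_pos σ₁ σ₂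
    ((1 + c * algebraMap (𝓞 K) (𝓞 E) (α - 1) : 𝓞 E) : E) hN
  have hNt : ((absNorm (p ^ M * m₀) * t : ℕ) : 𝓞 K) ∈ p ^ M * m₀ := by
    rw [Nat.cast_mul]; exact Ideal.mul_mem_right _ _ (absNorm_mem _)
  generalize absNorm (p ^ M * m₀) * t = N at n₁ n₂ hNt
  have hNP : ∀ P' ∈ p.primesOver (𝓞 Ω), (N : 𝓞 Ω) ∈ P' ^ M := by
    intro P' hP'
    have h1 := Ideal.mem_map_of_mem (algebraMap (𝓞 K) (𝓞 Ω)) (Ideal.mul_le_left hNt)
    rw [map_natCast, Ideal.map_pow] at h1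
    refine Ideal.pow_right_mono ?_ M h1
    rw [Ideal.map_le_iff_le_comap]
    exact hP'.2.over.le
  obtain ⟨β, hβ⟩ : ∃ β : 𝓞 E, β = 1 + c * algebraMap (𝓞 K) (𝓞 E) (α - 1) + N := ⟨_, rfl⟩
  have hβE : (β : E) = ((1 + c * algebraMap (𝓞 K) (𝓞 E) (α - 1) : 𝓞 E) : E) + N := by
    rw [hβ]; simp
  rw [← hβE, ← coe_intNorm] at n₁ n₂
  have hβΩ : algebraMap (𝓞 E) (𝓞 Ω) β =
      1 + algebraMap (𝓞 E) (𝓞 Ω) c * (algebraMap (𝓞 K) (𝓞 Ω) α - 1) + N := by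
    rw [hβ, map_add, map_add, map_mul, map_one, map_natCast, ← IsScalarTower.algebraMap_apply,
      map_sub, map_one]
  have hβ1 : ∀ P' ∈ p.primesOver (𝓞 Ω), P' ≠ P → algebraMap (𝓞 E) (𝓞 Ω) β - 1 ∈ P' ^ M := by
    intro P' hP' hne
    rw [hβΩ, add_assoc, add_sub_cancel_left]
    exact Ideal.add_mem _ (Ideal.mul_mem_right _ _ (hc2 P' hP' hne)) (hNP P' hP')
  have hβα : algebraMap (𝓞 E) (𝓞 Ω) β - algebraMap (𝓞 K) (𝓞 Ω) α ∈ P ^ M := by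
    have : algebraMap (𝓞 E) (𝓞 Ω) β - algebraMap (𝓞 K) (𝓞 Ω) α =
        (algebraMap (𝓞 E) (𝓞 Ω) c - 1) * (algebraMap (𝓞 K) (𝓞 Ω) α - 1) + N := by
      rw [hβΩ]; ring
    rw [this]
    exact Ideal.add_mem _ (Ideal.mul_mem_right _ _ hc1) (hNP P hP)
  have hβm : β - 1 ∈ m₀.map (algebraMap (𝓞 K) (𝓞 E)) := by
    rw [hβ, add_assoc, add_sub_cancel_left]
    refine Ideal.add_mem _ (Ideal.mul_mem_left _ _ (Ideal.mem_map_of_mem _ hα)) ?_
    simpa using Ideal.mem_map_of_mem (algebraMap (𝓞 K) (𝓞 E)) (Ideal.mul_le_right hNt)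
  have hν := norm_cong D β (P ^ M) fun σ hσ => by
    have h1 : σ⁻¹ • P ∈ p.primesOver (𝓞 Ω) := ⟨inferInstance, inferInstance⟩
    have h2 : σ⁻¹ • P ≠ P := fun h => hσ (inv_mem_iff.1 (MulAction.mem_stabilizer_iff.2 h))
    have h5 := Ideal.smul_mem_pointwise_smul σ _ _ (hβ1 _ h1 h2)
    rwa [smul_pow', smul_inv_smul, smul_sub, smul_one] at h5
  obtain ⟨ν, hνd⟩ : ∃ ν, ν = Algebra.intNorm (𝓞 K) (𝓞 E) β := ⟨_, rfl⟩
  have hν1 : ν - 1 ∈ m₀ := hνd ▸ (h4 K E m₀ hm₀).2.1 β hβm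
  rw [← hνd] at n₁ n₂ hν
  have hνα : ν - α ∈ p ^ j * (p * m) := by
    have h1 : ν - α ∈ p ^ (j + k + 1) := hM _ (by
      rw [map_sub]
      have h0 := Ideal.add_mem _ hν hβα
      convert h0 using 1
      exact (sub_add_sub_cancel _ _ _).symm)
    have h2 : ν - α ∈ m₀ := by simpa using m₀.sub_mem hν1 hα
    have h5 : p ^ j * (p * m) = p ^ (j + k + 1) * m₀ := by rw [hmm]; ring
    rw [h5, Ideal.mul_eq_inf_of_isCoprime (Ideal.isCoprime_iff_sup_eq.2 hpm).pow_left]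
    exact ⟨h1, h2⟩
  have hβ0 : β ≠ 0 := by
    rintro rfl
    rw [hνd] at n₁
    simp at n₁
  obtain ⟨Q, hQ⟩ : ∃ Q, Q = P.under (𝓞 E) := ⟨_, rfl⟩
  have hQm : Q.IsMaximal := hQ ▸ Ideal.IsMaximal.under (𝓞 E) P
  have hQl : Q.LiesOver p := hQ ▸ inferInstance
  obtain ⟨I, hQI, hβI⟩ := Ideal.eq_prime_pow_mul_coprime (I := span {β}) (by simpa using hβ0) Q
  generalize Multiset.count Q _ = i at hβI
  have hβmem : β ∈ I := Ideal.mul_le_right (hβI ▸ mem_span_singleton_self β)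
  have hI : Cop ((p * m).map (algebraMap (𝓞 K) (𝓞 E))) I := by
    refine ⟨?_, fun h => hβ0 (by simpa [h] using hβmem)⟩
    by_contra hne
    obtain ⟨R, hR, hle⟩ := Ideal.exists_le_maximal _ hne
    have hβR : β ∈ R := hle (Ideal.mem_sup_left hβmem)
    have hRp := hR.isPrime
    have h1 : p * m ≤ R.under (𝓞 K) := Ideal.map_le_iff_le_comap.1 (le_sup_right.trans hle)
    have h2 : p ≤ R.under (𝓞 K) ∨ m₀ ≤ R.under (𝓞 K) := by
      rw [hmm, ← mul_assoc, ← pow_succ'] at h1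
      exact (Ideal.IsPrime.mul_le inferInstance).1 h1 |>.imp_left
        fun h => Ideal.IsPrime.le_of_pow_le h
    rcases h2 with h2 | h2
    · have hRl : R.LiesOver p := ⟨hp.eq_of_le (Ideal.IsPrime.ne_top inferInstance) h2⟩
      obtain ⟨P', hP', hP'R⟩ := Ideal.exists_maximal_ideal_liesOver_of_isIntegral (S := 𝓞 Ω) R
      have hne' : P' ≠ P := by
        rintro rfl
        apply hR.ne_top
        rw [eq_top_iff, ← hQI, hQ, ← hP'R.over]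
        exact sup_le le_rfl (le_sup_left.trans hle)
      have h5 := Ideal.pow_le_self hM0.ne'
        (hβ1 P' ⟨hP'.isPrime, Ideal.LiesOver.trans P' R p⟩ hne')
      have h6 : algebraMap (𝓞 E) (𝓞 Ω) β ∈ P' := by
        rw [hP'R.over] at hβR; exact hβR
      apply hP'.ne_top
      rw [Ideal.eq_top_iff_one]
      simpa using P'.sub_mem h6 h5
    · have h5 : β - 1 ∈ R := Ideal.map_le_iff_le_comap.2 h2 hβm
      apply hR.ne_top
      rw [Ideal.eq_top_iff_one]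
      simpa using R.sub_mem hβR h5
  obtain ⟨f, hf, -⟩ := (h4 K E m hm).2.2.2 p Q hp ⟨hQm.isPrime, hQl⟩
  have hνI : span {ν} = p ^ (f * i) * relNorm (𝓞 K) I := by
    rw [hνd, ← relNorm_singleton, hβI, map_mul, map_pow, hf, ← pow_mul]
  have hα0 : α ≠ 0 := by rintro rfl; simp at a₁
  have hb : Cop (p * m) b := by
    have c1 : IsCoprime b p := (Ideal.isCoprime_iff_sup_eq.2 hpb).symm
    have c2 := (cop_of_mul (hαb ▸ cop_span hα0 hα)).2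
    refine ⟨Ideal.isCoprime_iff_sup_eq.1 ?_, c2.2⟩
    rw [hmm]
    exact c1.mul_right (c1.pow_right.mul_right (Ideal.isCoprime_iff_sup_eq.2 c2.1))
  have hb' := (h4 K E (p * m) (mul_ne_zero hp0 hm)).1 I hI
  have e := ray_cofactor hκ hm hemb hp hp0 hαb hνI hb hb' hνα a₁ a₂ n₁ n₂
  have hmem := norm_mem h3 h4 hm hκ ha E I
    (cop_mono (Ideal.map_mono Ideal.mul_le_right) hI)
  rw [e, IntermediateField.fixingSubgroup_fixedField] at hmem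
  obtain ⟨δ, hδ, hδb⟩ := hmem
  refine ⟨δ, fun x hx => ?_, hδb⟩
  have := Ideal.smul_mem_pointwise_smul δ _ _ hx
  rwa [MulAction.mem_stabilizer_iff.1 hδ] at this

theorem part1 (h3 : StmtLift) (h4 : StmtNorm) (hm : m ≠ ⊥) (hκ : RayHom m κ)
    (ha : Recip m κ a) {σ₁ σ₂ : K →+* ℝ} (hne : σ₂ ≠ σ₁) (hemb : ∀ τ : K →+* ℝ, τ = σ₁ ∨ τ = σ₂)
    (τ : Ω ≃ₐ[K] Ω) (hτ : τ ^ 2 = 1)
    (hr : ∀ z : Ω, τ z = z → ∃ t : ℝ, ((minpoly K z).map σ₁).eval t = 0)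
    (α : 𝓞 K) (hα : α - 1 ∈ m) (a₁ : σ₁ α < 0) (a₂ : 0 < σ₂ α) :
    κ (span {α}) = 1 ∨ κ (span {α}) = a τ := by
  let E := IntermediateField.fixedField (Subgroup.zpowers τ)
  have hN : 0 < absNorm m := Nat.pos_of_ne_zero (by rwa [Ne, absNorm_eq_zero_iff])
  obtain ⟨w, n₁, n₂⟩ := exists_norm_neg (E := E) hne (fun θ => by
    rw [← minpoly.algebraMap_eq (algebraMap E Ω).injective θ]
    exact hr _ ((IntermediateField.mem_fixedField_iff _ _).1 θ.2 τ (Subgroup.mem_zpowers τ))) hN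
  obtain ⟨β, hβ⟩ : ∃ β : 𝓞 E, β = 1 + absNorm m * w := ⟨_, rfl⟩
  have hβE : (β : E) = 1 + absNorm m * (w : E) := by rw [hβ]; simp
  rw [← hβE, ← coe_intNorm] at n₁ n₂
  have hβm : β - 1 ∈ m.map (algebraMap (𝓞 K) (𝓞 E)) := by
    rw [hβ, add_sub_cancel_left]
    apply Ideal.mul_mem_right
    simpa using Ideal.mem_map_of_mem (algebraMap (𝓞 K) (𝓞 E)) (absNorm_mem m)
  have hβ0 : β ≠ 0 := by
    rintro h
    rw [h] at n₁
    simp at n₁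
  have hmem := norm_mem h3 h4 hm hκ ha E _ (cop_span hβ0 hβm)
  rw [relNorm_singleton, ← ray_sign hκ hemb hα ((h4 K E m hm).2.1 β hβm) a₁ a₂ n₁ n₂,
    IntermediateField.fixingSubgroup_fixedField] at hmem
  obtain ⟨δ, ⟨k, rfl⟩, hδ⟩ := hmem
  have h2 : τ ^ (2 : ℤ) = 1 := by exact_mod_cast hτ
  rcases Int.even_or_odd' k with ⟨l, rfl | rfl⟩
  · left; rw [← hδ]; simp only [zpow_mul, h2, one_zpow, map_one]
  · right; rw [← hδ]; simp only [zpow_add, zpow_mul, h2, one_zpow, one_mul, zpow_one]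

end G5

theorem blockG5 (h3 : StmtLift) (h4 : StmtNorm) (hR : StmtR1) : StmtConj := by
  intro K _ _ _ σ₂ c hRQ Ω _ _ m hm B _ κ hκ a ha
  have : NumberField Ω := NumberField.of_module_finite K Ω
  have hemb := (hR.2.1 K _ σ₂ c hRQ).emb
  refine ⟨fun τ hτ α => G5.part1 h3 h4 hm hκ ha hRQ.ne hemb τ ?_ ?_ α,
    G5.part2 h3 h4 hm hκ ha hemb⟩
  · ext z
    rw [pow_two, AlgEquiv.mul_apply, hτ, hτ, Complex.conj_conj, AlgEquiv.one_apply]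
  · intro z hz
    have h1 : ((z : ℂ).re : ℂ) = z := Complex.conj_eq_iff_re.1 (by rw [← hτ, hz])
    refine ⟨(z : ℂ).re, ?_⟩
    rw [eval_map_algebraMap]
    apply (algebraMap ℝ ℂ).injective
    rw [← aeval_algebraMap_apply, map_zero, Complex.coe_algebraMap, h1]
    have := congrArg (algebraMap Ω ℂ) (minpoly.aeval K z)
    rwa [← aeval_algebraMap_apply, map_zero] at this

end Pool.Agent.Lib.Stark
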