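import Pool.Agent.Lib.stark.HB

open Complex NumberField Ideal
open scoped nonZeroDivisors ComplexConjugate

namespace Pool.Agent.Lib.Stark.H

open HB

variable {K : Type} [Field K] [NumberField K]

section Norm

variable {σ₁ σ₂ : K →+* ℝ} {c : K ≃+* K} {ε : 𝓞 K} {n : ℕ}

theorem exists_m (hb : StmtBasic K σ₁ σ₂ c) (hL : Lev σ₁ σ₂ (ε : K) n) (hN : NR ε) :
    ∃ m : ℕ, 2 < m ∧ m ∣ n ∧ ∀ t : ℤ, (t : 𝓞 K) ∈ span {ε - 1} → (m : ℤ) ∣ t := by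
  obtain ⟨g, hg⟩ := (IsPrincipalIdealRing.principal
    ((span {ε - 1} : Ideal (𝓞 K)).comap (Int.castRingHom (𝓞 K)))).principal
  have h : ∀ t : ℤ, (t : 𝓞 K) ∈ span {ε - 1} ↔ (g.natAbs : ℤ) ∣ t := fun t => by
    rw [Int.natAbs_dvd, ← mem_span_singleton]
    exact Iff.of_eq (congrArg (t ∈ ·) hg)
  obtain ⟨n1, n2, -⟩ := hb.norm ε n hL
  have hn : g.natAbs ∣ n := by
    rw [← Int.natCast_dvd_natCast, ← h, ← n1]
    rw [Int.cast_natCast]; exact absNorm_mem _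
  refine ⟨g.natAbs, ?_, hn, fun t => (h t).1⟩
  by_contra hlt
  have h2 : (g.natAbs : ℤ) ∣ -2 := by
    have : g.natAbs ≠ 0 := fun h0 => by rw [h0, zero_dvd_iff] at hn; omega
    have h3 : g.natAbs = 1 ∨ g.natAbs = 2 := by omega
    rcases h3 with h3 | h3 <;> rw [h3] <;> norm_num
  obtain ⟨k, hk⟩ := hN (-1) (by
    have := (h _).2 h2
    convert this using 1
    push_cast; norm_num)
  have := congrArg σ₁ hk
  have p1 : 0 < σ₁ ε ^ k := zpow_pos (lt_trans one_pos hL.one_lt) k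
  rw [map_zpow₀] at this
  simp at this
  linarith

theorem norm_mod (hR : RQ σ₁ σ₂ c) (hc : cI c (span {ε - 1}) = span {ε - 1}) {m : ℕ}
    (hm : ∀ t : ℤ, (t : 𝓞 K) ∈ span {ε - 1} → (m : ℤ) ∣ t) {α : 𝓞 K}
    (h1 : α - 1 ∈ span {ε - 1}) :
    (0 < σ₁ α * σ₂ α → (absNorm (span {α}) : ZMod m) = 1) ∧
    (σ₁ α * σ₂ α < 0 → (absNorm (span {α}) : ZMod m) = -1) := by
  have h2 := MP_6bf7a3_nt.one_mul_mem h1 (cO_one hc h1)
  constructor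
  · intro h
    have := hm (absNorm (span {α}) - 1) (by push_cast; rwa [norm_pos hR h])
    rw [← ZMod.intCast_zmod_eq_zero_iff_dvd] at this
    push_cast at this
    exact sub_eq_zero.1 this
  · intro h
    have := hm (-absNorm (span {α}) - 1) (by push_cast; rwa [norm_neg hR h, neg_neg])
    rw [← ZMod.intCast_zmod_eq_zero_iff_dvd] at this
    push_cast at this
    linear_combination -this

variable {B : Type} [CommGroup B] {κ : Ideal (𝓞 K) → B}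

theorem norm_cls (hR : RQ σ₁ σ₂ c) (hc : cI c (span {ε - 1}) = span {ε - 1}) {m : ℕ}
    (hm : ∀ t : ℤ, (t : 𝓞 K) ∈ span {ε - 1} → (m : ℤ) ∣ t)
    (hU : Univ Set.univ (span {ε - 1}) κ) {b b' : Ideal (𝓞 K)} (h1 : Cop (span {ε - 1}) b)
    (h2 : Cop (span {ε - 1}) b') (h : κ b = κ b') : (absNorm b : ZMod m) = absNorm b' := by
  obtain ⟨α, β, -, -, a1, b1, hp, e⟩ := (hU.ker b b' h1 h2).1 h
  have := congrArg (fun I => (absNorm I : ZMod m)) e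
  simp only [map_mul, Nat.cast_mul] at this
  rwa [(norm_mod hR hc hm a1).1 (mul_pos (hp _ trivial).1 (hp _ trivial).1),
    (norm_mod hR hc hm b1).1 (mul_pos (hp _ trivial).2 (hp _ trivial).2), one_mul, one_mul] at this

theorem exists_sign (hb : StmtBasic K σ₁ σ₂ c) {m : Ideal (𝓞 K)} (hm : m ≠ ⊥) {s₁ s₂ : ℝ}
    (h1 : s₁ ≠ 0) (h2 : s₂ ≠ 0) : ∃ α : 𝓞 K, α - 1 ∈ m ∧ 0 < s₁ * σ₁ α ∧ 0 < s₂ * σ₂ α := by
  obtain ⟨y, hy, y1, y2⟩ := hb.signs (lat (m : FractionalIdeal (𝓞 K)⁰ K)) 1 s₁ s₂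
    (hb.sl 1 _ (FractionalIdeal.coeIdeal_ne_zero.2 hm)).1 h1 h2
  obtain ⟨z, hz, e⟩ := (FractionalIdeal.mem_coeIdeal _).1 (mem_lat.1 hy)
  have : ((z + 1 : 𝓞 K) : K) = y := by
    push_cast; rw [eq_sub_iff_add_eq] at e; exact e
  exact ⟨z + 1, by simpa using hz, this ▸ y1, this ▸ y2⟩

theorem uniq [Finite B] (hF : StmtFaith) (hR : RQ σ₁ σ₂ c) (hb : StmtBasic K σ₁ σ₂ c)
    (hS : Sys σ₁ σ₂ (ε : K) (Psi σ₁ ε)) (hL : Lev σ₁ σ₂ (ε : K) n) (hN : NR ε) {m : ℕ}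
    (hm2 : 2 < m) (hm : ∀ t : ℤ, (t : 𝓞 K) ∈ span {ε - 1} → (m : ℤ) ∣ t)
    (hU : Univ Set.univ (span {ε - 1}) κ) {b b' : Ideal (𝓞 K)} (h1 : Cop (span {ε - 1}) b)
    (h2 : Cop (span {ε - 1}) b')
    (h : ∀ (a : FractionalIdeal (𝓞 K)⁰ K) x, a ≠ 0 → Tor (ε : K) (lat a) x →
      ‖FF σ₁ ε (dv a b) x‖ = ‖FF σ₁ ε (dv a b') x‖)
    (hn : (absNorm b : ZMod m) = absNorm b') : κ b = κ b' := by
  obtain ⟨n1, n2, -, hc⟩ := hb.norm ε n hL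
  have h0 : span {ε - 1} ≠ ⊥ := fun h0 => by rw [h0, absNorm_bot] at n1; omega
  obtain ⟨d, hd, e⟩ := hU.surj (κ b)⁻¹
  have e1 : κ (d * b) = κ ⊤ := by rw [hU.hom.mul _ _ hd h1, e, rayHom_top hU.hom, inv_mul_cancel]
  rcases hF K σ₁ σ₂ c hR ε n hL hN B κ hU (d * b') (cop_mul hd h2) (fun a x ha hx => by
    rw [← dv_dv, ← h _ _ (dv_ne ha hd.2) (tor_dv hd.2 hx), dv_dv,
      cls hb hS hU (cop_mul hd h1) (cop_top _) e1 ha hx, dv_top]) with h3 | h3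
  · rw [hU.hom.mul _ _ hd h2, e] at h3
    exact (inv_mul_eq_one.1 h3)
  · exfalso
    obtain ⟨α, a1, a2, a3⟩ := exists_sign hb h0 (s₁ := -1) (s₂ := 1) (by norm_num) one_ne_zero
    rw [neg_one_mul, neg_pos] at a2
    rw [one_mul] at a3
    have a0 : α ≠ 0 := by rintro rfl; simp at a3
    have f1 := norm_cls hR hc hm hU (cop_mul hd h2) (cop_span a0 a1) (h3 α a1 a2 a3)
    have f2 := norm_cls hR hc hm hU (cop_mul hd h1) (cop_top _) e1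
    rw [(norm_mod hR hc hm a1).2 (mul_neg_of_neg_of_pos a2 a3)] at f1
    rw [map_mul, Nat.cast_mul] at f1 f2
    rw [hn, f1, absNorm_top, Nat.cast_one] at f2
    have : ((2 : ℕ) : ZMod m) = 0 := by push_cast; linear_combination -f2
    rw [ZMod.natCast_eq_zero_iff] at this
    exact absurd (Nat.le_of_dvd two_pos this) (by omega)

theorem cop_big {m p : Ideal (𝓞 K)} {N : ℕ} (hm : m ≠ ⊥) (hN : absNorm m ≤ N) (hp : Big N p) :
    Cop m p := by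
  refine ⟨?_, fun h => ?_⟩
  · by_contra h
    have h1 : m ≤ p := by
      have := hp.1.eq_of_le h le_sup_left
      rw [this]; exact le_sup_right
    have := Nat.le_of_dvd (Nat.pos_of_ne_zero (absNorm_eq_zero_iff.not.2 hm))
      (absNorm_dvd_absNorm_of_le h1)
    exact absurd hp.2.2 (by omega)
  · have := hp.2.1
    rw [h, absNorm_bot] at this
    exact Nat.not_prime_zero this

theorem big_mono {p : Ideal (𝓞 K)} {N N' : ℕ} (h : N ≤ N') (hp : Big N' p) : Big N p :=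
  ⟨hp.1, hp.2.1, lt_of_le_of_lt h hp.2.2⟩

/-- Reduction of an arbitrary coset to the translates of a fixed ideal. -/
theorem reduce (hb : StmtBasic K σ₁ σ₂ c) (hS : Sys σ₁ σ₂ (ε : K) (Psi σ₁ ε))
    (h0 : span {ε - 1} ≠ ⊥) {a₀ a : FractionalIdeal (𝓞 K)⁰ K} (ha₀ : a₀ ≠ 0) (ha : a ≠ 0) {x : K}
    (hx : Tor (ε : K) (lat a) x) : ∃ d x₀, Cop (span {ε - 1}) d ∧ Tor (ε : K) (lat a₀) x₀ ∧
      ∀ q, q ≠ ⊥ → FF σ₁ ε (dv a q) x = FF σ₁ ε (dv (dv a₀ q) d) x₀ := by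
  obtain ⟨S, hS1, hS2⟩ := hb.narrow _ h0
  obtain ⟨d, hd, α, a1, a2, e⟩ := hS2 (a * a₀⁻¹) (mul_ne_zero ha (inv_ne_zero ha₀))
  have hd := hS1 d hd
  have a0 : α ≠ 0 := by rintro rfl; simp at a1
  have e1 : a * a₀⁻¹ = FractionalIdeal.spanSingleton _ α * dv 1 d := by
    ext y
    rw [FractionalIdeal.mem_singleton_mul]
    refine ⟨fun hy => ⟨α⁻¹ * y, (e _).1 (by rwa [mul_inv_cancel_left₀ a0]), by field_simp⟩, ?_⟩
    rintro ⟨z, hz, rfl⟩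
    exact (e z).2 hz
  have e2 : ∀ q : Ideal (𝓞 K), ∀ y, α * y ∈ dv a q ↔ y ∈ dv (dv a₀ q) d := fun q y => by
    have : dv a q = FractionalIdeal.spanSingleton _ α * dv (dv a₀ q) d := by
      rw [mul_inv_eq_iff_eq_mul₀ ha₀] at e1
      rw [e1, dv, dv, dv, dv]; ring
    rw [this, FractionalIdeal.mem_singleton_mul]
    refine ⟨?_, fun hy => ⟨y, hy, rfl⟩⟩
    rintro ⟨z, hz, h⟩
    rwa [mul_left_cancel₀ a0 h]
  obtain ⟨y, hy, z, hz, h1⟩ := Submodule.mem_sup.1 ((eq_top_iff_one _).1 hd.1)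
  have t1 : ∀ q, q ≠ ⊥ → Tor (ε : K) (lat (dv (dv a₀ q) d)) (α⁻¹ * x) := fun q hq => by
    rw [Tor, mem_lat, ← e2, mul_left_comm, mul_inv_cancel_left₀ a0]
    exact tor_dv hq hx
  refine ⟨d, y * (α⁻¹ * x), hd, ?_, fun q hq => ?_⟩
  · have := (mem_dv hd.2).1 (t1 ⊤ top_ne_bot) y hy
    rw [dv_top] at this
    rw [Tor, mul_left_comm]; exact this
  · have := hS.scale _ (lat (dv a q)) α _ (hb.sl ε _ (dv_ne (dv_ne ha₀ hq) hd.2)) (t1 q hq) a1 a2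
      (e2 q)
    rw [mul_inv_cancel_left₀ a0] at this
    rw [FF, FF, this, ← hS.per _ (y * (α⁻¹ * x)) _ (tor_mul hz (t1 q hq)), ← add_mul,
      show (y : K) + z = 1 by exact_mod_cast congrArg (algebraMap (𝓞 K) K) h1, one_mul]

end Norm

variable [Algebra K ℝ] {σ₂ : K →+* ℝ} {c : K ≃+* K} {ε : 𝓞 K} {n : ℕ} {Ω : IntermediateField K ℂ}

/-- Action on powers of the invariants. -/
def ActP (ε : 𝓞 K) (k : ℕ) (σ : Ω ≃ₐ[K] Ω) (b : Ideal (𝓞 K)) : Prop :=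
  ∀ (a : FractionalIdeal (𝓞 K)⁰ K) (x : K) (z : Ω), a ≠ 0 → Tor (ε : K) (lat a) x →
    (z : ℂ) = FF (algebraMap K ℝ) ε a x ^ k → (σ z : ℂ) = FF (algebraMap K ℝ) ε (dv a b) x ^ k

theorem actP_one (k : ℕ) : ActP ε k (1 : Ω ≃ₐ[K] Ω) ⊤ := fun a x z _ _ h => by
  rw [dv_top]; exact h

theorem actP_mul {k : ℕ} {σ τ : Ω ≃ₐ[K] Ω} {b b' : Ideal (𝓞 K)} (hb : b ≠ ⊥)
    (h1 : ActP ε k τ b) (h2 : ActP ε k σ b') : ActP ε k (σ * τ) (b * b') := fun a x z ha hx h => by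
  rw [← dv_dv]
  exact h2 _ x (τ z) (dv_ne ha hb) (tor_dv hb hx) (h1 a x z ha hx h)

theorem submonoid_inv {G : Type} [Group G] [Finite G] (S : Submonoid G) {g : G} (h : g ∈ S) :
    g⁻¹ ∈ S := by
  have : g⁻¹ ∈ Submonoid.powers g :=
    mem_powers_iff_mem_zpowers.2 (Subgroup.inv_mem _ (Subgroup.mem_zpowers g))
  exact (Submonoid.powers_le.2 h) this

theorem frob_val [FiniteDimensional K Ω] (hV : StmtVal) (hA : StmtAU)
    (hR : RQ (algebraMap K ℝ) σ₂ c) (hb : StmtBasic K (algebraMap K ℝ) σ₂ c)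
    (hS : Sys (algebraMap K ℝ) σ₂ (ε : K) (Psi (algebraMap K ℝ) ε))
    (hL : Lev (algebraMap K ℝ) σ₂ (ε : K) n) (hH : Has Ω ε n) (k : ℕ) :
    ∃ N, ∀ p P (σ : Ω ≃ₐ[K] Ω), Big N p → Frob p P σ → ∃ V : ValuationSubring ℂ,
      V.valuation (absNorm p) < 1 ∧ ∀ (a a' : FractionalIdeal (𝓞 K)⁰ K) (x : K) (z : Ω), a ≠ 0 →
        a' ≠ 0 → Tor (ε : K) (lat a) x → Tor (ε : K) (lat a') x →
        (z : ℂ) = FF (algebraMap K ℝ) ε a x ^ k →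
        V.valuation (FF (algebraMap K ℝ) ε a' x ^ k - (FF (algebraMap K ℝ) ε a x ^ k) ^ absNorm p)
          < 1 → (σ z : ℂ) = FF (algebraMap K ℝ) ε a' x ^ k := by
  obtain ⟨V1, V2, V3⟩ := hV K Ω
  let Z₀ : Set Ω := (fun z : Ω => (z : ℂ)) ⁻¹' ((fun w => w ^ k) ''
    {z | ∃ Λ x, SL (ε : K) Λ ∧ Tor (ε : K) Λ x ∧ z = Psi (algebraMap K ℝ) ε Λ x})
  have hZ₀ : Z₀.Finite := (hS.fin.image _).preimage Subtype.val_injective.injOn
  obtain ⟨N, hN⟩ := V2 (Set.image2 (fun (σ : Ω ≃ₐ[K] Ω) z => σ z) Set.univ Z₀)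
    (Set.finite_univ.image2 _ hZ₀)
  refine ⟨max N 11, fun p P σ hp hF => ?_⟩
  have := hp.1
  have := hF.1.1
  have := hF.1.2
  have : NumberField Ω := NumberField.of_module_finite K Ω
  obtain ⟨V, hV⟩ := V1 P (Ideal.IsMaximal.of_liesOver_isMaximal P p)
  have hv : V.valuation (absNorm p) < 1 := by
    have h1 : algebraMap (𝓞 K) (𝓞 Ω) (absNorm p) ∈ P := by
      rw [← mem_under, ← over_def P p]; exact absNorm_mem p
    have := (hV _).2 h1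
    simpa using this
  refine ⟨V, hv, fun a a' x z ha ha' hx hx' hz h => ?_⟩
  have hz1 : V.valuation (z : ℂ) ≤ 1 := by
    rw [hz, map_pow, FF, (hA K _ σ₂ c hR ε n hL _ x (hb.sl ε a ha) hx).2 _ V.valuation _ hp.2.1
      (le_trans (le_max_right _ _) hp.2.2.le) hv, one_pow]
  have h1 := ((V3 _ V.valuation _ hp.2.1 hv).2 P hV σ).2 _ hp.2.1.pos hF.2 z hz1
  let z' : Ω := ⟨_, pow_mem (hH.1 a' x ha' hx') k⟩
  have := hN _ V.valuation _ hp.2.1 (lt_of_le_of_lt (le_max_left _ _) hp.2.2) hv (σ z)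
    ⟨σ, trivial, z, ⟨_, ⟨_, x, hb.sl ε a ha, hx, rfl⟩, hz.symm⟩, rfl⟩ z'
    ⟨1, trivial, z', ⟨_, ⟨_, x, hb.sl ε a' ha', hx', rfl⟩, rfl⟩, rfl⟩ (by
      have := V.valuation.map_sub_lt h1 h
      rwa [hz, sub_sub_sub_cancel_right] at this)
  exact congrArg Subtype.val this

theorem exists_conj [IsGalois K Ω] : ∃ τ : Ω ≃ₐ[K] Ω, ∀ z : Ω, (τ z : ℂ) = conj (z : ℂ) :=
  ⟨((conjAe.restrictScalars K : ℂ ≃ₐ[K] ℂ) : ℂ →ₐ[K] ℂ).restrictNormal' Ω, fun z =>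
    AlgHom.restrictNormal_commutes ((conjAe.restrictScalars K : ℂ ≃ₐ[K] ℂ) : ℂ →ₐ[K] ℂ) Ω z⟩

theorem surj [FiniteDimensional K Ω] [IsGalois K Ω] (hLi : StmtLift) {m : Ideal (𝓞 K)}
    {B : Type} [CommGroup B] {κ : Ideal (𝓞 K) → B} (hκ : RayHom m κ) {a : (Ω ≃ₐ[K] Ω) →* B}
    (ha : Recip m κ a) {b : Ideal (𝓞 K)} (hb : Cop m b) : ∃ σ, a σ = κ b := by
  have : NumberField Ω := NumberField.of_module_finite K Ω
  induction b using UniqueFactorizationMonoid.induction_on_prime with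
  | h₁ => exact absurd rfl hb.2
  | h₂ b h => exact ⟨1, by rw [isUnit_iff.1 h, rayHom_top hκ, map_one]⟩
  | h₃ b p h0 hp ih =>
    have c1 : Cop m b := ⟨eq_top_iff.2 (hb.1 ▸ sup_le_sup_right Ideal.mul_le_right _), h0⟩
    have c2 : Cop m p := ⟨eq_top_iff.2 (hb.1 ▸ sup_le_sup_right Ideal.mul_le_left _), hp.ne_zero⟩
    obtain ⟨σ, hσ⟩ := ih c1
    have hm : p.IsMaximal := (isPrime_of_prime hp).isMaximal hp.ne_zero
    obtain ⟨⟨P, hP⟩⟩ := p.nonempty_primesOver (S := 𝓞 Ω)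
    obtain ⟨τ, hτ⟩ := (hLi.2 K Ω p hm).1 P hP
    exact ⟨τ * σ, by rw [map_mul, hσ, ha p P τ hm c2.1 hτ, hκ.mul _ _ c2 c1]⟩

end Pool.Agent.Lib.Stark.H

namespace Pool.Agent.Lib.Stark

open H HB

theorem blockH (hSys : StmtSys) (hA : StmtAU) (hCong : StmtCong) (hUni : StmtUni)
    (hF : StmtFaith) (hG : StmtG) (hBa : StmtBauer) (hCj : StmtConj) (hV : StmtVal)
    (hLi : StmtLift) (hR1 : StmtR1) : StmtH := by
  intro K _ _ _ σ₂ c hR ε n hL hN B _ _ κ hU Ω _ _ hH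
  have : NumberField Ω := NumberField.of_module_finite K Ω
  have hb := hR1.2.1 K _ σ₂ c hR
  have hS := hSys K _ σ₂ c hR ε n hL
  obtain ⟨n1, n2, -, hc⟩ := hb.norm ε n hL
  have h0 : span {ε - 1} ≠ ⊥ := fun h0 => by rw [h0, absNorm_bot] at n1; omega
  obtain ⟨m, m2, mn, hm⟩ := exists_m hb hL hN
  have hζ := Complex.isPrimitiveRoot_exp m (by omega)
  let ζ : Ω := ⟨_, hH.2 _ ((hζ.pow_eq_one_iff_dvd n).2 mn)⟩
  have hζ' : IsPrimitiveRoot ζ m := IsPrimitiveRoot.coe_submonoidClass_iff.1 hζ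
  have z1 : ∀ i j : ℕ, ζ ^ i = ζ ^ j ↔ (i : ZMod m) = j := fun i j => by
    rw [ZMod.natCast_eq_natCast_iff, hζ'.eq_orderOf]
    exact (hζ'.isOfFinOrder (by omega)).pow_eq_pow_iff_modEq
  obtain ⟨r, N₁, r0, hU1⟩ := hUni K _ σ₂ c hR ε n hL
  obtain ⟨N₂, hN₂⟩ := frob_val hV hA hR hb hS hL hH r
  obtain ⟨N₃, hN₃⟩ := hb.split
  let Rel : (Ω ≃ₐ[K] Ω) → Ideal (𝓞 K) → Prop := fun σ b =>
    Cop (span {ε - 1}) b ∧ ActP ε r σ b ∧ σ ζ = ζ ^ absNorm b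
  have rmul : ∀ σ τ b b', Rel τ b → Rel σ b' → Rel (σ * τ) (b * b') := fun σ τ b b' h1 h2 =>
    ⟨cop_mul h1.1 h2.1, actP_mul h1.1.2 h1.2.1 h2.2.1, by
      rw [AlgEquiv.mul_apply, h1.2.2, map_pow, h2.2.2, ← pow_mul, map_mul, mul_comm]⟩
  have rone : Rel 1 ⊤ := ⟨cop_top _, actP_one r, by simp⟩
  have nrm : ∀ {w w' : ℂ}, w ^ r = w' ^ r → ‖w‖ = ‖w'‖ := fun {w w'} h => by
    have := congrArg norm h
    rwa [norm_pow, norm_pow, pow_left_inj₀ (norm_nonneg _) (norm_nonneg _) r0.ne'] at this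
  have runiq : ∀ σ b b', Rel σ b → Rel σ b' → κ b = κ b' := fun σ b b' h1 h2 =>
    uniq hF hR hb hS hL hN m2 hm hU h1.1 h2.1 (fun a x ha hx => nrm (by
      let z : Ω := ⟨_, pow_mem (hH.1 a x ha hx) r⟩
      rw [← h1.2.1 a x z ha hx rfl, h2.2.1 a x z ha hx rfl])) ((z1 _ _).1 (h1.2.2 ▸ h2.2.2))
  have rcls : ∀ σ b b', Rel σ b → Cop (span {ε - 1}) b' → κ b = κ b' → Rel σ b' :=
    fun σ b b' h1 h2 h => ⟨h2, fun a x z ha hx hz => by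
      rw [h1.2.1 a x z ha hx hz, cls hb hS hU h1.1 h2 h ha hx], by
      rw [h1.2.2, z1]; exact norm_cls hR hc hm hU h1.1 h2 h⟩
  set N := max (max N₁ N₂) (max N₃ n) with hNdef
  have cp : ∀ p, Big N p → Cop (span {ε - 1}) p ∧ Cop (span {ε - 1}) (cI c p) := fun p hp =>
    ⟨cop_big h0 (by omega) hp, cop_cI hb hc (cop_big h0 (by omega) hp)⟩
  have rfrob : ∀ p P σ, Big N p → Frob p P σ → Rel σ p ∨ Rel σ (cI c p) := fun p P σ hp hσ => by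
    obtain ⟨V, v1, v2⟩ := hN₂ p P σ (big_mono (by omega) hp) hσ
    have hz := (hLi.2 K Ω p hp.1).2.1 P σ hσ ζ m hζ'.pow_eq_one
      ((Nat.coprime_of_lt_prime (by omega) (lt_of_le_of_lt (le_trans (Nat.le_of_dvd n2 mn)
        (by omega)) hp.2.2) hp.2.1).symm)
    refine (hU1 p (big_mono (by omega) hp) _ V.valuation v1).imp (fun h => ⟨(cp p hp).1, ?_, hz⟩)
      fun h => ⟨(cp p hp).2, ?_, ?_⟩
    · exact fun a x z ha hx hz => v2 a _ x z ha (dv_ne ha (cp p hp).1.2) hx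
        (tor_dv (cp p hp).1.2 hx) hz (h a x ha hx)
    · exact fun a x z ha hx hz => v2 a _ x z ha (dv_ne ha (cp p hp).2.2) hx
        (tor_dv (cp p hp).2.2 hx) hz (h a x ha hx)
    · rwa [(hN₃ p (big_mono (by omega) hp)).2.2.1]
  let M : Submonoid (Ω ≃ₐ[K] Ω) :=
    { carrier := {σ | ∃ b, Rel σ b}
      mul_mem' := fun ⟨b', h2⟩ ⟨b, h1⟩ => ⟨_, rmul _ _ _ _ h1 h2⟩
      one_mem' := ⟨_, rone⟩ }
  have hM := hBa K _ σ₂ c hR Ω ⟨M, submonoid_inv M⟩ N fun p hp => Or.inl fun P σ hσ =>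
    (rfrob p P σ hp hσ).elim (fun h => ⟨_, h⟩) fun h => ⟨_, h⟩
  choose β hβ using fun σ => (show ∃ b, Rel σ b from (hM ▸ Subgroup.mem_top σ : σ ∈ (⟨M, _⟩ :
    Subgroup _)))
  let a : (Ω ≃ₐ[K] Ω) →* B := MonoidHom.mk' (fun σ => κ (β σ)) fun σ τ => by
    rw [runiq _ _ _ (hβ (σ * τ)) (rmul _ _ _ _ (hβ τ) (hβ σ)), hU.hom.mul _ _ (hβ τ).1 (hβ σ).1,
      mul_comm]
  have ra : ∀ σ b, Cop (span {ε - 1}) b → a σ = κ b → Rel σ b := fun σ b h1 h2 =>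
    rcls σ _ b (hβ σ) h1 h2
  have ne1 : ∀ α : 𝓞 K, α - 1 ∈ span {ε - 1} → algebraMap K ℝ α * σ₂ α < 0 →
      κ (span {α}) ≠ 1 := fun α a1 a2 h => by
    have a0 : α ≠ 0 := by rintro rfl; simp at a2
    have := sign_eq hL hN hU a0 one_ne_zero a1 (by simp)
      (by rw [h, span_singleton_one, rayHom_top hU.hom])
    simp only [map_one, mul_one] at this
    exact absurd (mul_pos this.1 this.2) a2.not_gt
  have hrec : Recip (span {ε - 1}) κ a := by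
    refine (hG K _ σ₂ c hR Ω _ h0 B κ _ hU.hom (rayHom_cI hR hb hc hU.hom) a N
      fun p P σ hp hσ => (rfrob p P σ hp hσ).imp (runiq σ _ _ (hβ σ))
        (runiq σ _ _ (hβ σ))).resolve_right fun h => ?_
    obtain ⟨τ, hτ⟩ := exists_conj (Ω := Ω)
    obtain ⟨α, a1, a2, a3⟩ := exists_sign hb h0 (s₁ := -1) (s₂ := 1) (by norm_num) one_ne_zero
    rw [neg_one_mul, neg_pos] at a2
    rw [one_mul] at a3
    have a0 : α ≠ 0 := by rintro rfl; simp at a3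
    have b0 : cO c α ≠ 0 := (map_ne_zero_iff _ (RingOfIntegers.mapRingEquiv c).injective).2 a0
    have b1 := cO_one hc a1
    have b2 : κ (span {cO c α}) ≠ 1 := ne1 _ b1 (by
      rw [cO_coe, hR.cnj₁, hR.cnj₂]; exact mul_neg_of_pos_of_neg a3 a2)
    have h1 := (hCj K σ₂ c hR Ω _ h0 B _ (rayHom_cI hR hb hc hU.hom) a h).1 τ hτ α a1 a2 a3
    simp only [cI_span] at h1
    have h2 := ra τ _ (cop_span b0 b1) (h1.resolve_left b2).symm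
    rcases hF K _ σ₂ c hR ε n hL hN B κ hU _ (cop_span b0 b1) (fun a x ha hx => by
      let z : Ω := ⟨_, pow_mem (hH.1 a x ha hx) r⟩
      have := h2.2.1 a x z ha hx rfl
      rw [hτ, show (z : ℂ) = _ from rfl, map_pow] at this
      rw [← nrm this, norm_conj]) with h3 | h3
    · exact b2 h3
    · have := (sign_eq hL hN hU b0 a0 b1 a1 (h3 α a1 a2 a3)).1
      rw [cO_coe, hR.cnj₁] at this
      exact absurd this (mul_neg_of_pos_of_neg a3 a2).not_gt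
  refine ⟨a, hrec, ?_, fun τ hτ α a1 a2 a3 => (((hCj K σ₂ c hR Ω _ h0 B _ hU.hom a hrec).1 τ hτ α
    a1 a2 a3).resolve_left (ne1 α a1 (mul_neg_of_neg_of_pos a2 a3))).symm⟩
  obtain ⟨N₄, hN₄⟩ := hCong K _ σ₂ c hR ε n hL
  obtain ⟨N₅, hN₅⟩ := frob_val hV hA hR hb hS hL hH 1
  have acls : ∀ σ b b', ActP ε 1 σ b → Cop (span {ε - 1}) b → Cop (span {ε - 1}) b' →
      κ b = κ b' → ActP (Ω := Ω) ε 1 σ b' := fun σ b b' h h1 h2 e a x z ha hx hz => by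
    rw [h a x z ha hx hz, cls hb hS hU h1 h2 e ha hx]
  let M' : Submonoid (Ω ≃ₐ[K] Ω) :=
    { carrier := {σ | ActP ε 1 σ (β σ)}
      mul_mem' := fun {σ τ} h2 h1 => acls _ _ _ (actP_mul (hβ τ).1.2 h1 h2)
        (cop_mul (hβ τ).1 (hβ σ).1) (hβ _).1 (runiq _ _ _ (rmul _ _ _ _ (hβ τ) (hβ σ)) (hβ _))
      one_mem' := acls _ _ _ (actP_one 1) (cop_top _) (hβ _).1 (runiq _ _ _ rone (hβ _)) }
  have hM' := hBa K _ σ₂ c hR Ω ⟨M', submonoid_inv M'⟩ (max N (max N₄ N₅)) fun p hp =>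
    Or.inl fun P σ hσ => by
      have hp' : Big N p := big_mono (by omega) hp
      obtain ⟨c1, c2⟩ := cp p hp'
      have e := hrec p P σ hp.1 c1.1 hσ
      refine acls _ p _ (fun a₀ x z ha₀ hx hz => ?_) c1 (hβ _).1 e.symm
      obtain ⟨V, v1, v2⟩ := hN₅ p P σ (big_mono (by omega) hp) hσ
      rcases hN₄ p (big_mono (by omega) hp) _ V.valuation v1 a₀ ha₀ with h | h
      · exact v2 a₀ _ x z ha₀ (dv_ne ha₀ c1.2) hx (tor_dv c1.2 hx) hz (by simpa using h x hx)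
      have k1 : ∀ x (z : Ω), Tor (ε : K) (lat a₀) x → (z : ℂ) = FF (algebraMap K ℝ) ε a₀ x →
          (σ z : ℂ) = FF (algebraMap K ℝ) ε (dv a₀ (cI c p)) x := fun x z hx hz => by
        simpa using v2 a₀ _ x z ha₀ (dv_ne ha₀ c2.2) hx (tor_dv c2.2 hx) (by simpa using hz)
          (by simpa using h x hx)
      have k2 : κ p = κ (cI c p) := by
        refine uniq hF hR hb hS hL hN m2 hm hU c1 c2 (fun a x ha hx => ?_)
          (by rw [(hN₃ p (big_mono (by omega) hp)).2.2.1])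
        obtain ⟨d, x₀, hd, hx₀, e1⟩ := reduce hb hS h0 ha₀ ha hx
        obtain ⟨ρ, hρ⟩ := surj hLi hU.hom hrec hd
        let z₀ : Ω := ⟨_, hH.1 a₀ x₀ ha₀ hx₀⟩
        have f1 := (ra σ p c1 e).2.1 a₀ x₀ (z₀ ^ r) ha₀ hx₀ rfl
        have f2 : (σ (z₀ ^ r) : ℂ) = FF (algebraMap K ℝ) ε (dv a₀ (cI c p)) x₀ ^ r := by
          rw [map_pow, ← k1 x₀ z₀ hx₀ rfl]; rfl
        have g := (ra ρ d hd hρ).2.1
        rw [e1 _ c1.2, e1 _ c2.2]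
        exact nrm ((g _ x₀ _ (dv_ne ha₀ c1.2) (tor_dv c1.2 hx₀) f1).symm.trans
          (g _ x₀ _ (dv_ne ha₀ c2.2) (tor_dv c2.2 hx₀) f2))
      rw [k1 x z hx (by simpa using hz), cls hb hS hU c1 c2 k2 ha₀ hx, pow_one]
  intro σ b h1 h2 a₀ x z ha₀ hx hz
  have : ActP ε 1 σ (β σ) := (hM' ▸ Subgroup.mem_top σ : σ ∈ (⟨M', _⟩ : Subgroup _))
  simpa using acls σ _ b this (hβ σ).1 h1 h2 a₀ x z ha₀ hx (by simpa using hz)

end Pool.Agent.Lib.Stark
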