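import Pool.Agent.Lib.stark.Defs1

open Complex MeasureTheory Filter Topology
open scoped Real ComplexConjugate

namespace Pool.Agent.Lib.Stark

namespace L0

theorem adm_mono {η₀ η₁ : ℝ} {g : ℂ → ℂ} (h : Adm η₀ g) (h1 : 0 < η₁) (h2 : η₁ ≤ η₀) :
    Adm η₁ g where
  pos := h1
  diff := h.diff.mono fun s hs => ⟨by linarith [hs.1], hs.2⟩
  decay := fun a b ha hb => h.decay a b ha (by linarith)

theorem adm_zero {η : ℝ} (h : 0 < η) : Adm η (fun _ => 0) where
  pos := h
  diff := differentiableOn_const 0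
  decay := fun _ _ _ _ => ⟨0, 1, one_pos, fun s _ _ => by simp⟩

theorem adm_add {η : ℝ} {g g' : ℂ → ℂ} (h : Adm η g) (h' : Adm η g') :
    Adm η (fun s => g s + g' s) where
  pos := h.pos
  diff := h.diff.add h'.diff
  decay := by
    intro a b ha hb
    obtain ⟨C, δ, hδ, hC⟩ := h.decay a b ha hb
    obtain ⟨C', δ', hδ', hC'⟩ := h'.decay a b ha hb
    refine ⟨|C| + |C'|, min δ δ', lt_min hδ hδ', fun s h1 h2 => ?_⟩
    have e1 : Real.exp (-δ * |s.re|) ≤ Real.exp (-min δ δ' * |s.re|) := by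
      apply Real.exp_le_exp.2
      have := mul_le_mul_of_nonneg_right (min_le_left δ δ') (abs_nonneg s.re)
      linarith
    have e2 : Real.exp (-δ' * |s.re|) ≤ Real.exp (-min δ δ' * |s.re|) := by
      apply Real.exp_le_exp.2
      have := mul_le_mul_of_nonneg_right (min_le_right δ δ') (abs_nonneg s.re)
      linarith
    have f1 : ‖g s‖ ≤ |C| * Real.exp (-min δ δ' * |s.re|) :=
      (hC s h1 h2).trans (mul_le_mul (le_abs_self C) e1 (Real.exp_pos _).le (abs_nonneg C))
    have f2 : ‖g' s‖ ≤ |C'| * Real.exp (-min δ δ' * |s.re|) :=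
      (hC' s h1 h2).trans (mul_le_mul (le_abs_self C') e2 (Real.exp_pos _).le (abs_nonneg C'))
    calc ‖g s + g' s‖ ≤ ‖g s‖ + ‖g' s‖ := norm_add_le _ _
      _ ≤ _ := by rw [add_mul]; exact add_le_add f1 f2

theorem adm_sum {ι : Type} {η : ℝ} (hη : 0 < η) (g : ι → ℂ → ℂ) (h : ∀ i, Adm η (g i))
    (S : Finset ι) : Adm η (fun s => ∑ i ∈ S, g i s) := by
  classical
  induction S using Finset.induction_on with
  | empty => simpa using adm_zero hη
  | insert i S hi ih =>
    simp only [Finset.sum_insert hi]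
    exact adm_add (h i) ih

theorem strip_open (η : ℝ) : IsOpen {s : ℂ | -η < s.im ∧ s.im < 0} :=
  (isOpen_lt continuous_const continuous_im).inter (isOpen_lt continuous_im continuous_const)

theorem strip_convex (η : ℝ) : Convex ℝ {s : ℂ | -η < s.im ∧ s.im < 0} :=
  (convex_halfSpace_im_gt (-η)).inter (convex_halfSpace_im_lt 0)

theorem eq_on_strip {η : ℝ} {g g' : ℂ → ℂ} (h : Adm η g) (h' : Adm η g')
    (he : ∀ s : ℂ, -η < s.im → s.im < 0 → 0 < s.re → g s = g' s) :
    ∀ s : ℂ, -η < s.im → s.im < 0 → g s = g' s := by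
  have ha := h.diff.analyticOnNhd (strip_open η)
  have ha' := h'.diff.analyticOnNhd (strip_open η)
  have hp := h.pos
  have hz : (⟨1, -η / 2⟩ : ℂ) ∈ {s : ℂ | -η < s.im ∧ s.im < 0} := by
    constructor <;> simp <;> linarith
  have hev : g =ᶠ[𝓝 (⟨1, -η / 2⟩ : ℂ)] g' := by
    have ho : IsOpen ({s : ℂ | -η < s.im ∧ s.im < 0} ∩ {s : ℂ | 0 < s.re}) :=
      (strip_open η).inter (isOpen_lt continuous_const continuous_re)
    filter_upwards [ho.mem_nhds ⟨hz, by simp⟩] with s hs
    exact he s hs.1.1 hs.1.2 hs.2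
  intro s h1 h2
  exact ha.eqOn_of_preconnected_of_eventuallyEq ha' (strip_convex η).isPreconnected hz hev ⟨h1, h2⟩

theorem uniq {ι : Type} (lam : ι → ℝ) (w w' : ℂ) (h : HasLog lam w) (h' : HasLog lam w') :
    w = w' := by
  obtain ⟨η, g, hg, hs, hl⟩ := h
  obtain ⟨η', g', hg', hs', hl'⟩ := h'
  have hm : 0 < min η η' := lt_min hg.pos hg'.pos
  have m1 := min_le_left η η'
  have m2 := min_le_right η η'
  have key := eq_on_strip (adm_mono hg hm m1) (adm_mono hg' hm m2) fun s h1 h2 h3 =>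
    (hs s (by linarith) h2 h3).unique (hs' s (by linarith) h2 h3)
  rw [← hl (min η η' / 2) (by linarith) (by linarith),
    ← hl' (min η η' / 2) (by linarith) (by linarith)]
  unfold lineInt
  refine integral_congr_ae (Eventually.of_forall fun x => ?_)
  have him : ((x : ℂ) - ((min η η' / 2 : ℝ) : ℂ) * I).im = -(min η η' / 2) := by
    simp only [sub_im, ofReal_im, mul_im, ofReal_re, I_im, I_re]; ring
  simp only
  rw [key _ (by rw [him]; linarith) (by rw [him]; linarith)]

theorem equiv {ι κ : Type} (e : ι ≃ κ) (lam : κ → ℝ) (w : ℂ) :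
    HasLog (lam ∘ e) w ↔ HasLog lam w := by
  constructor
  · rintro ⟨η, g, hg, hs, hl⟩
    exact ⟨η, g, hg, fun s h1 h2 h3 =>
      (e.hasSum_iff (f := fun i => cexp (-(lam i) * s))).1 (hs s h1 h2 h3), hl⟩
  · rintro ⟨η, g, hg, hs, hl⟩
    exact ⟨η, g, hg, fun s h1 h2 h3 =>
      (e.hasSum_iff (f := fun i => cexp (-(lam i) * s))).2 (hs s h1 h2 h3), hl⟩

theorem sum (hL : StmtLine) {ι κ : Type} (lam : ι → ℝ) (lam' : κ → ℝ) (w w' : ℂ)
    (h : HasLog lam w) (h' : HasLog lam' w') : HasLog (Sum.elim lam lam') (w + w') := by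
  obtain ⟨η, g, hg, hs, hl⟩ := h
  obtain ⟨η', g', hg', hs', hl'⟩ := h'
  have hm : 0 < min η η' := lt_min hg.pos hg'.pos
  have m1 := min_le_left η η'
  have m2 := min_le_right η η'
  refine ⟨min η η', fun s => g s + g' s, adm_add (adm_mono hg hm m1) (adm_mono hg' hm m2),
    fun s h1 h2 h3 => ?_, fun t h1 h2 => ?_⟩
  · exact HasSum.sum (f := fun i => cexp (-((Sum.elim lam lam' i : ℝ) : ℂ) * s))
      (hs s (by linarith) h2 h3) (hs' s (by linarith) h2 h3)
  · rw [← hl t h1 (by linarith), ← hl' t h1 (by linarith)]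
    unfold lineInt
    rw [← integral_add (hL η g hg t h1 (by linarith)).1 (hL η' g' hg' t h1 (by linarith)).1]
    simp only [add_div]

theorem fin (hL : StmtLine) {ι κ : Type} [Fintype ι] (lam : ι → κ → ℝ) (w : ι → ℂ)
    (h : ∀ i, HasLog (lam i) (w i)) : HasLog (fun p : ι × κ => lam p.1 p.2) (∑ i, w i) := by
  classical
  choose η g hg hs hl using h
  obtain ⟨m, hm, hle⟩ : ∃ m : ℝ, 0 < m ∧ ∀ i, m ≤ η i := by
    rcases isEmpty_or_nonempty ι with hι | hι
    · exact ⟨1, one_pos, fun i => hι.elim i⟩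
    · obtain ⟨i, hi⟩ := Finite.exists_min η
      exact ⟨η i, (hg i).pos, hi⟩
  refine ⟨m, fun s => ∑ i, g i s, adm_sum hm g (fun i => adm_mono (hg i) hm (hle i)) _,
    fun s h1 h2 h3 => ?_, fun t h1 h2 => ?_⟩
  · have key : ∀ i, HasSum (fun p : ι × κ =>
        if p.1 = i then cexp (-(lam p.1 p.2) * s) else 0) (g i s) := by
      intro i
      have hinj : Function.Injective (fun k : κ => (i, k)) := fun a b hab => (Prod.mk.inj hab).2
      refine (hinj.hasSum_iff ?_).1 ?_
      · intro p hp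
        rw [if_neg]
        intro hpi
        exact hp ⟨p.2, Prod.ext hpi.symm rfl⟩
      · have := hs i s (by linarith [hle i]) h2 h3
        simpa [Function.comp_def] using this
    have := hasSum_sum (s := Finset.univ) fun i _ => key i
    simpa using this
  · unfold lineInt
    simp only [Finset.sum_div]
    rw [integral_finsetSum _ fun i _ => (hL _ _ (hg i) t h1 (by linarith [hle i])).1]
    exact Finset.sum_congr rfl fun i _ => hl i t h1 (by linarith [hle i])

theorem scale {ι : Type} (lam : ι → ℝ) (w : ℂ) (c : ℝ) (hc : 0 < c) (h : HasLog lam w) :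
    HasLog (fun i => c * lam i) w := by
  obtain ⟨η, g, hg, hs, hl⟩ := h
  have him : ∀ s : ℂ, ((c : ℂ) * s).im = c * s.im := fun s => by simp
  have hre : ∀ s : ℂ, ((c : ℂ) * s).re = c * s.re := fun s => by simp
  have hmem : ∀ s : ℂ, -(η / c) < s.im → -η < ((c : ℂ) * s).im := by
    intro s h1
    rw [him]
    have : -(η / c) * c < s.im * c := mul_lt_mul_of_pos_right h1 hc
    rw [neg_mul, div_mul_cancel₀ _ hc.ne'] at this
    linarith
  refine ⟨η / c, fun s => g (c * s), ⟨div_pos hg.pos hc, ?_, ?_⟩, fun s h1 h2 h3 => ?_,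
    fun t h1 h2 => ?_⟩
  · refine hg.diff.comp (f := fun s : ℂ => (c : ℂ) * s) (by fun_prop) fun s hs => ⟨hmem s hs.1, ?_⟩
    rw [him]
    exact mul_neg_of_pos_of_neg hc hs.2
  · intro a b ha hb
    obtain ⟨C, δ, hδ, hC⟩ := hg.decay (c * a) (c * b) (mul_pos hc ha)
      (by rw [lt_div_iff₀ hc] at hb; linarith)
    refine ⟨C, δ * c, mul_pos hδ hc, fun s h1 h2 => ?_⟩
    have := hC (c * s) (by rw [him]; nlinarith) (by rw [him]; nlinarith)
    rw [hre, abs_mul, abs_of_pos hc] at this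
    convert this using 3
    ring
  · have := hs (c * s) (hmem s h1) (by rw [him]; exact mul_neg_of_pos_of_neg hc h2)
      (by rw [hre]; exact mul_pos hc h3)
    convert this using 3
    push_cast
    ring
  · rw [← hl (c * t) (mul_pos hc h1) (by rw [lt_div_iff₀ hc] at h2; linarith)]
    unfold lineInt
    have hc' : (c : ℂ) ≠ 0 := ofReal_ne_zero.2 hc.ne'
    have key := Measure.integral_comp_mul_left
      (fun y : ℝ => g (y - ((c * t : ℝ) : ℂ) * I) / (y - ((c * t : ℝ) : ℂ) * I)) c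
    have e : ∀ x : ℝ, g (c * (x - t * I)) / (x - t * I) =
        (c : ℂ) * (g (((c * x : ℝ) : ℂ) - ((c * t : ℝ) : ℂ) * I) /
          (((c * x : ℝ) : ℂ) - ((c * t : ℝ) : ℂ) * I)) := by
      intro x
      have e1 : ((c * x : ℝ) : ℂ) - ((c * t : ℝ) : ℂ) * I = c * (x - t * I) := by
        push_cast; ring
      rw [e1, ← mul_div_assoc, mul_div_mul_left _ _ hc']
    simp only [e]
    rw [integral_const_mul, key, abs_of_pos (inv_pos.2 hc), real_smul, ← mul_assoc, ofReal_inv,
      mul_inv_cancel₀ hc', one_mul]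

theorem cos_bound {a b : ℝ} (ha : 0 < a) (hb : b < 2 * π) :
    ∃ k : ℝ, 0 ≤ k ∧ k < 1 ∧ ∀ θ, a ≤ θ → θ ≤ b → Real.cos θ ≤ k := by
  rcases le_or_gt a b with hab | hab
  · obtain ⟨x, hx, hmax⟩ := (isCompact_Icc (a := a) (b := b)).exists_isMaxOn
      (Set.nonempty_Icc.2 hab) Real.continuous_cos.continuousOn
    have hne : Real.cos x ≠ 1 := by
      intro h1
      have := (Real.cos_eq_one_iff_of_lt_of_lt (by linarith [hx.1, Real.pi_pos])
        (by linarith [hx.2])).1 h1
      linarith [hx.1]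
    refine ⟨max 0 (Real.cos x), le_max_left _ _,
      max_lt one_pos (lt_of_le_of_ne (Real.cos_le_one x) hne), fun θ h1 h2 => ?_⟩
    exact (hmax ⟨h1, h2⟩).trans (le_max_right _ _)
  · exact ⟨0, le_rfl, one_pos, fun θ h1 h2 => by linarith⟩

theorem le_of_sq_le_sq_of_nonneg {x y : ℝ} (hy : 0 ≤ y) (h : x ^ 2 ≤ y ^ 2) : x ≤ y :=
  (abs_le_of_sq_le_sq' h hy).2

theorem denom_bound {a b : ℝ} (ha : 0 < a) (hb : b < 2 * π) :
    ∃ m : ℝ, 0 < m ∧ ∀ y : ℂ, a ≤ y.im → y.im ≤ b →
      m ≤ ‖1 - cexp y‖ ∧ m * Real.exp y.re ≤ ‖1 - cexp y‖ := by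
  obtain ⟨k, k0, k1, hk⟩ := cos_bound ha hb
  have hk2 : 0 < 1 - k ^ 2 := by nlinarith
  refine ⟨Real.sqrt (1 - k ^ 2), Real.sqrt_pos.2 hk2, fun y h1 h2 => ?_⟩
  have hc := hk y.im h1 h2
  have hR := Real.exp_pos y.re
  have hn : ‖1 - cexp y‖ ^ 2 =
      1 - 2 * Real.exp y.re * Real.cos y.im + Real.exp y.re ^ 2 := by
    rw [Complex.sq_norm, Complex.normSq_apply]
    simp only [sub_re, one_re, exp_re, sub_im, one_im, exp_im]
    have := Real.sin_sq_add_cos_sq y.im
    linear_combination (Real.exp y.re ^ 2) * this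
  have hmul : Real.exp y.re * Real.cos y.im ≤ Real.exp y.re * k :=
    mul_le_mul_of_nonneg_left hc hR.le
  have hsq := Real.sq_sqrt hk2.le
  constructor
  · apply le_of_sq_le_sq_of_nonneg (norm_nonneg _)
    rw [hn, hsq]
    nlinarith [sq_nonneg (Real.exp y.re - k)]
  · apply le_of_sq_le_sq_of_nonneg (norm_nonneg _)
    rw [hn, mul_pow, hsq]
    nlinarith [sq_nonneg (1 - Real.exp y.re * k)]

theorem denom_ne {y : ℂ} (h1 : 0 < y.im) (h2 : y.im < 2 * π) : 1 - cexp y ≠ 0 := by
  obtain ⟨m, hm, h⟩ := denom_bound h1 h2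
  have := (h y le_rfl le_rfl).1
  intro h0
  rw [h0, norm_zero] at this
  linarith

theorem adm_ker2 {z v w : ℝ} (hv : 0 < v) (hw : 0 < w) (hz : 0 < z) (hzv : z < v + w) :
    Adm (2 * π / (v + w)) (ker2 z v w) := by
  have hvw : 0 < v + w := by linarith
  have hpi := Real.pi_pos
  have him : ∀ (u : ℝ) (s : ℂ), (-(u : ℂ) * s).im = -u * s.im := fun u s => by simp
  have hre : ∀ (u : ℝ) (s : ℂ), (-(u : ℂ) * s).re = -u * s.re := fun u s => by simp
  have hlt : ∀ u b : ℝ, 0 < u → u < v + w → b ≤ 2 * π / (v + w) → u * b < 2 * π := by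
    intro u b hu huv hb
    have h1 : u * b ≤ u * (2 * π / (v + w)) := mul_le_mul_of_nonneg_left hb hu.le
    have h2 : u * (2 * π / (v + w)) < (v + w) * (2 * π / (v + w)) :=
      mul_lt_mul_of_pos_right huv (by positivity)
    rw [mul_div_cancel₀ _ hvw.ne'] at h2
    linarith
  refine ⟨by positivity, ?_, ?_⟩
  · intro s hs
    have d1 : 1 - cexp (-(v : ℂ) * s) ≠ 0 := by
      apply denom_ne
      · rw [him]; nlinarith [hs.2]
      · rw [him]
        have := hlt v (-s.im) hv (by linarith) (by linarith [hs.1])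
        linarith
    have d2 : 1 - cexp (-(w : ℂ) * s) ≠ 0 := by
      apply denom_ne
      · rw [him]; nlinarith [hs.2]
      · rw [him]
        have := hlt w (-s.im) hw (by linarith) (by linarith [hs.1])
        linarith
    apply DifferentiableAt.differentiableWithinAt
    unfold ker2
    exact DifferentiableAt.div (by fun_prop) (by fun_prop) (mul_ne_zero d1 d2)
  · intro a b ha hb
    obtain ⟨m₁, hm₁, b1⟩ := denom_bound (mul_pos hv ha) (hlt v b hv (by linarith) hb.le)
    obtain ⟨m₂, hm₂, b2⟩ := denom_bound (mul_pos hw ha) (hlt w b hw (by linarith) hb.le)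
    refine ⟨(m₁ * m₂)⁻¹, min z (v + w - z), lt_min hz (by linarith), fun s h1 h2 => ?_⟩
    obtain ⟨c1, c1'⟩ := b1 (-(v : ℂ) * s) (by rw [him]; nlinarith) (by rw [him]; nlinarith)
    obtain ⟨c2, c2'⟩ := b2 (-(w : ℂ) * s) (by rw [him]; nlinarith) (by rw [him]; nlinarith)
    rw [hre] at c1' c2'
    have m1 := min_le_left z (v + w - z)
    have m2 := min_le_right z (v + w - z)
    unfold ker2
    rw [norm_div, norm_mul, Complex.norm_exp, hre]
    rcases le_total 0 s.re with h0 | h0
    · rw [abs_of_nonneg h0]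
      calc Real.exp (-z * s.re) / (‖1 - cexp (-(v : ℂ) * s)‖ * ‖1 - cexp (-(w : ℂ) * s)‖)
          ≤ Real.exp (-min z (v + w - z) * s.re) / (m₁ * m₂) := by
            apply div_le_div₀ (Real.exp_pos _).le _ (mul_pos hm₁ hm₂)
              (mul_le_mul c1 c2 hm₂.le (norm_nonneg _))
            apply Real.exp_le_exp.2
            nlinarith
        _ = _ := by rw [div_eq_inv_mul]
    · rw [abs_of_nonpos h0]
      calc Real.exp (-z * s.re) / (‖1 - cexp (-(v : ℂ) * s)‖ * ‖1 - cexp (-(w : ℂ) * s)‖)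
          ≤ Real.exp (-z * s.re) /
            ((m₁ * Real.exp (-v * s.re)) * (m₂ * Real.exp (-w * s.re))) := by
            apply div_le_div₀ (Real.exp_pos _).le le_rfl (by positivity)
              (mul_le_mul c1' c2' (by positivity) (norm_nonneg _))
        _ = (m₁ * m₂)⁻¹ * Real.exp ((v + w - z) * s.re) := by
            have e : Real.exp (-z * s.re) = Real.exp ((v + w - z) * s.re) *
                (Real.exp (-v * s.re) * Real.exp (-w * s.re)) := by
              rw [← Real.exp_add, ← Real.exp_add]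
              congr 1
              ring
            rw [e]
            field_simp
        _ ≤ _ := by
            apply mul_le_mul_of_nonneg_left _ (by positivity)
            apply Real.exp_le_exp.2
            nlinarith

theorem base (hL : StmtLine) (z v w : ℝ) (hv : 0 < v) (hw : 0 < w) (hz : 0 < z)
    (hzv : z < v + w) : HasLog (fun p : ℕ × ℕ => z + p.1 * v + p.2 * w) (J2 z v w) := by
  have hvw : 0 < v + w := by linarith
  have hpi := Real.pi_pos
  have hA := adm_ker2 hv hw hz hzv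
  refine ⟨_, _, hA, fun s _ _ h3 => ?_, fun t h1 h2 => ?_⟩
  · have hn : ∀ u : ℝ, 0 < u → ‖cexp (-(u : ℂ) * s)‖ < 1 := by
      intro u hu
      rw [Complex.norm_exp, Real.exp_lt_one_iff]
      have : (-(u : ℂ) * s).re = -u * s.re := by simp
      rw [this]
      nlinarith
    have s1 := hasSum_geometric_of_norm_lt_one (hn v hv)
    have s2 := hasSum_geometric_of_norm_lt_one (hn w hw)
    have sm := summable_mul_of_summable_norm (summable_norm_geometric_of_norm_lt_one (hn v hv))
      (summable_norm_geometric_of_norm_lt_one (hn w hw))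
    have := (s1.mul s2 sm).mul_left (cexp (-(z : ℂ) * s))
    have e1 : ker2 z v w s = cexp (-(z : ℂ) * s) *
        ((1 - cexp (-(v : ℂ) * s))⁻¹ * (1 - cexp (-(w : ℂ) * s))⁻¹) := by
      unfold ker2
      rw [div_eq_mul_inv, mul_inv]
    rw [e1]
    refine this.congr_fun ?_
    intro p
    rw [← Complex.exp_nat_mul, ← Complex.exp_nat_mul, ← Complex.exp_add, ← Complex.exp_add]
    congr 1
    push_cast
    ring
  · unfold J2
    refine (hL _ _ hA t h1 h2).2 _ (by positivity) ?_
    apply div_lt_div_of_pos_right _ hvw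
    linarith

end L0

theorem blockL0 (h : StmtAN) : StmtLog where
  uniq := L0.uniq
  equiv := L0.equiv
  sum := L0.sum h.2.1
  fin := L0.fin h.2.1
  scale := L0.scale
  base := L0.base h.2.1

end Pool.Agent.Lib.Stark
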