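import Pool.Agent.Lib.stark.Defs2

open Complex

namespace Pool.Agent.Lib.Stark

namespace L1

variable {K : Type} [Field K] [NumberField K]

theorem transfer (h : StmtLog) {ι κ : Type} (e : ι ≃ κ) (f : ι → ℝ) (g : κ → ℝ) (w : ℂ)
    (he : ∀ i, f i = g (e i)) : HasLog f w ↔ HasLog g w := by
  have : f = g ∘ e := funext he
  rw [this]
  exact h.equiv e g w

omit [Field K] [NumberField K] in
theorem link (h : StmtLog) (lam : K → ℝ) (S : Set K) (w : ℂ)
    (hw : HasLog (fun p : S => lam p) w) : ell lam S = w := by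
  have hg : Good lam S := ⟨w, hw⟩
  unfold ell
  rw [dif_pos hg]
  exact h.uniq _ _ _ hg.choose_spec hw

omit [Field K] [NumberField K] in
theorem spec (h : StmtLog) (lam : K → ℝ) (S : Set K) (hg : Good lam S) :
    HasLog (fun p : S => lam p) (ell lam S) := by
  obtain ⟨w, hw⟩ := hg
  rw [link h lam S w hw]
  exact hw

omit [Field K] [NumberField K] in
theorem empty (h : StmtLog) (lam : K → ℝ) : HasLog (fun p : (∅ : Set K) => lam p) 0 := by
  have h1 := h.fin (ι := Empty) (κ := Empty) (fun _ _ => 0) (fun _ => 0) (fun i => i.elim)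
  rw [Finset.univ_eq_empty, Finset.sum_empty] at h1
  exact (transfer h (Equiv.equivOfIsEmpty _ _) _ _ 0 (fun i => i.1.elim)).1 h1

omit [Field K] [NumberField K] in
theorem add (h : StmtLog) (lam : K → ℝ) (S S' : Set K) (hd : Disjoint S S') (hS : Good lam S)
    (hS' : Good lam S') : Good lam (S ∪ S') ∧ ell lam (S ∪ S') = ell lam S + ell lam S' := by
  classical
  have h1 := h.sum _ _ _ _ (spec h lam S hS) (spec h lam S' hS')
  have h2 : HasLog (fun p : (S ∪ S' : Set K) => lam p) (ell lam S + ell lam S') := by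
    refine (transfer h (Equiv.Set.union hd).symm _ _ _ ?_).1 h1
    rintro (a | a)
    · simp
    · simp
  exact ⟨⟨_, h2⟩, link h lam _ _ h2⟩

omit [Field K] [NumberField K] in
theorem sum (h : StmtLog) (lam : K → ℝ) (R : Finset K) (S : K → Set K)
    (hg : ∀ t ∈ R, Good lam (S t)) (hd : (R : Set K).PairwiseDisjoint S) :
    Good lam (⋃ t ∈ R, S t) ∧ ell lam (⋃ t ∈ R, S t) = ∑ t ∈ R, ell lam (S t) := by
  classical
  induction R using Finset.induction_on with
  | empty =>
    have e : (⋃ t ∈ (∅ : Finset K), S t) = ∅ := by simp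
    rw [e, Finset.sum_empty]
    exact ⟨⟨0, empty h lam⟩, link h lam _ _ (empty h lam)⟩
  | insert a R ha ih =>
    have e : (⋃ t ∈ insert a R, S t) = S a ∪ ⋃ t ∈ R, S t := by
      simp
    have ih' := ih (fun t ht => hg t (Finset.mem_insert_of_mem ht))
      (hd.subset (by intro t ht; simp only [Finset.coe_insert]; exact Or.inr ht))
    have hdis : Disjoint (S a) (⋃ t ∈ R, S t) := by
      simp only [Set.disjoint_iUnion_right]
      intro t ht
      refine hd (by simp) (by simp [ht]) ?_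
      rintro rfl
      exact ha ht
    have h2 := add h lam _ _ hdis (hg a (Finset.mem_insert_self _ _)) ih'.1
    rw [e, Finset.sum_insert ha, ← ih'.2]
    exact h2

omit [NumberField K] in
theorem scale (h : StmtLog) (lam lam' : K → ℝ) (α : K) (r : ℝ) (S S' : Set K) (hα : α ≠ 0)
    (hr : 0 < r) (hl : ∀ p, lam (α * p) = r * lam' p) (hS : ∀ p, α * p ∈ S ↔ p ∈ S')
    (hg : Good lam' S') : ell lam S = ell lam' S' := by
  have h1 := h.scale _ _ r hr (spec h lam' S' hg)
  let e : S' ≃ S :=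
    { toFun := fun p => ⟨α * p, (hS p).2 p.2⟩
      invFun := fun q => ⟨α⁻¹ * q, (hS _).1 (by rw [mul_inv_cancel_left₀ hα]; exact q.2)⟩
      left_inv := fun p => Subtype.ext (inv_mul_cancel_left₀ hα _)
      right_inv := fun q => Subtype.ext (mul_inv_cancel_left₀ hα _) }
  exact link h lam S _ ((transfer h e _ _ _ (fun p => (hl p).symm)).1 h1)

theorem lam_rat (lam : K →+ ℝ) (i : ℚ) (v : K) : lam (i * v) = i * lam v := by
  have := map_ratCast_smul lam K ℝ i v
  simpa [smul_eq_mul] using this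

theorem lam_nat (lam : K →+ ℝ) (i : ℕ) (v : K) : lam (i * v) = i * lam v := by
  have := lam_rat lam i v
  simpa using this

theorem ind_eq {v w : K} (hI : Ind v w) {i j i' j' : ℚ}
    (e : (i : K) * v + j * w = i' * v + j' * w) : i = i' ∧ j = j' := by
  have := hI (i - i') (j - j') (by push_cast; linear_combination e)
  exact ⟨sub_eq_zero.1 this.1, sub_eq_zero.1 this.2⟩

theorem span2 (hK : Module.finrank ℚ K = 2) {v w : K} (hI : Ind v w) (x : K) :
    ∃ i j : ℚ, x = i * v + j * w := by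
  have hli : LinearIndependent ℚ ![v, w] := by
    rw [LinearIndependent.pair_iff]
    intro s t hst
    exact hI s t (by simpa [Rat.smul_def] using hst)
  have htop := hli.span_eq_top_of_card_eq_finrank (by simp [hK])
  have hx : x ∈ Submodule.span ℚ (Set.range ![v, w]) := by rw [htop]; trivial
  rw [Matrix.range_cons, Matrix.range_cons, Matrix.range_empty, Set.union_empty,
    Set.singleton_union, Submodule.mem_span_pair] at hx
  obtain ⟨a, b, hab⟩ := hx
  exact ⟨a, b, by rw [← hab]; simp [Rat.smul_def]⟩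

theorem denom (hK : Module.finrank ℚ K = 2) {v w : K} (hI : Ind v w) (s : Finset K) :
    ∃ N : ℕ, 0 < N ∧ ∀ z ∈ Submodule.span ℤ (s : Set K), ∃ a b : ℤ,
      (N : K) * z = a * v + b * w := by
  classical
  have key : ∃ N : ℕ, 0 < N ∧ ∀ z ∈ s, ∃ a b : ℤ, (N : K) * z = a * v + b * w := by
    induction s using Finset.induction_on with
    | empty => exact ⟨1, one_pos, by simp⟩
    | insert g s _ ih =>
      obtain ⟨N, hN, hs⟩ := ih
      obtain ⟨i, j, hg⟩ := span2 hK hI g
      refine ⟨N * (i.den * j.den), Nat.mul_pos hN (Nat.mul_pos i.den_pos j.den_pos), ?_⟩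
      intro z hz
      rcases Finset.mem_insert.1 hz with rfl | hz
      · refine ⟨N * (i.num * j.den), N * (j.num * i.den), ?_⟩
        have hi : (i : K) * i.den = i.num := by exact_mod_cast Rat.mul_den_eq_num i
        have hj : (j : K) * j.den = j.num := by exact_mod_cast Rat.mul_den_eq_num j
        push_cast
        rw [hg, ← hi, ← hj]
        ring
      · obtain ⟨a, b, hab⟩ := hs z hz
        refine ⟨a * (i.den * j.den), b * (i.den * j.den), ?_⟩
        push_cast
        linear_combination ((i.den : K) * j.den) * hab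
  obtain ⟨N, hN, hs⟩ := key
  refine ⟨N, hN, fun z hz => ?_⟩
  induction hz using Submodule.span_induction with
  | mem z hz => exact hs z hz
  | zero => exact ⟨0, 0, by simp⟩
  | add y z _ _ hy hz =>
    obtain ⟨a, b, hab⟩ := hy
    obtain ⟨a', b', hab'⟩ := hz
    exact ⟨a + a', b + b', by push_cast; linear_combination hab + hab'⟩
  | smul c z _ hz =>
    obtain ⟨a, b, hab⟩ := hz
    exact ⟨c * a, c * b, by rw [zsmul_eq_mul]; push_cast; linear_combination (c : K) * hab⟩

theorem finite (hK : Module.finrank ℚ K = 2) (Λ : Submodule ℤ K) (x v w : K) (hΛ : Λ.FG)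
    (hI : Ind v w) : {z | z - x ∈ Λ ∧
      ∃ i j : ℚ, 0 < i ∧ i ≤ 1 ∧ 0 ≤ j ∧ j < 1 ∧ z = i * v + j * w}.Finite := by
  classical
  obtain ⟨s, rfl⟩ := hΛ
  obtain ⟨N, hN, hs⟩ := denom hK hI (insert x s)
  have hfin : ((fun p : ℤ × ℤ => ((p.1 : K) * v + p.2 * w) / N) ''
      (Set.Icc (0 : ℤ) N ×ˢ Set.Icc (0 : ℤ) N)).Finite :=
    ((Set.finite_Icc _ _).prod (Set.finite_Icc _ _)).image _
  refine hfin.subset ?_
  rintro z ⟨hz, i, j, hi0, hi1, hj0, hj1, rfl⟩
  have hmem : (i : K) * v + j * w ∈ Submodule.span ℤ ((insert x s : Finset K) : Set K) := by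
    have h1 : x ∈ Submodule.span ℤ ((insert x s : Finset K) : Set K) :=
      Submodule.subset_span (by simp)
    have h2 := Submodule.span_mono (R := ℤ)
      (show (s : Set K) ⊆ ((insert x s : Finset K) : Set K) by
        intro t ht; simp only [Finset.coe_insert]; exact Or.inr ht) hz
    simpa using Submodule.add_mem _ h2 h1
  obtain ⟨a, b, hab⟩ := hs _ hmem
  have hNK : (N : K) ≠ 0 := by exact_mod_cast hN.ne'
  have hNQ : (0 : ℚ) < N := by exact_mod_cast hN
  have hab' := ind_eq hI (i := N * i) (j := N * j) (i' := a) (j' := b)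
    (by push_cast; linear_combination hab)
  refine ⟨(a, b), ⟨⟨?_, ?_⟩, ⟨?_, ?_⟩⟩, ?_⟩
  · have : (0 : ℚ) ≤ a := by rw [← hab'.1]; positivity
    exact_mod_cast this
  · have : (a : ℚ) ≤ N := by rw [← hab'.1]; nlinarith
    exact_mod_cast this
  · have : (0 : ℚ) ≤ b := by rw [← hab'.2]; positivity
    exact_mod_cast this
  · have : (b : ℚ) ≤ N := by rw [← hab'.2]; nlinarith
    exact_mod_cast this
  · simp only
    rw [← hab]
    field_simp

theorem bij (Λ : Submodule ℤ K) (x v w : K) (hv : v ∈ Λ) (hw : w ∈ Λ) (hI : Ind v w)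
    (P : Finset K) (hP : ∀ z, z ∈ P ↔ z - x ∈ Λ ∧
      ∃ i j : ℚ, 0 < i ∧ i ≤ 1 ∧ 0 ≤ j ∧ j < 1 ∧ z = i * v + j * w) :
    Set.BijOn (fun y : K × ℕ × ℕ => y.1 + y.2.1 * v + y.2.2 * w) {y | y.1 ∈ P}
      (cset Λ x ∩ cone v w) := by
  have hmem : ∀ a b : ℕ, (a : K) * v + b * w ∈ Λ := fun a b =>
    Λ.add_mem (by simpa using Λ.smul_mem (a : ℤ) hv) (by simpa using Λ.smul_mem (b : ℤ) hw)
  refine ⟨?_, ?_, ?_⟩
  · rintro ⟨z, a, b⟩ hz
    obtain ⟨h1, i, j, hi0, -, hj0, -, rfl⟩ := (hP z).1 hz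
    refine ⟨?_, i + a, j + b, by positivity, by positivity, by push_cast; ring⟩
    have := Λ.add_mem h1 (hmem a b)
    show _ - x ∈ Λ
    convert this using 1
    ring
  · rintro ⟨z, a, b⟩ hz ⟨z', a', b'⟩ hz' e
    obtain ⟨-, i, j, hi0, hi1, hj0, hj1, rfl⟩ := (hP z).1 hz
    obtain ⟨-, i', j', hi0', hi1', hj0', hj1', rfl⟩ := (hP z').1 hz'
    have e' := ind_eq hI (i := i + a) (j := j + b) (i' := i' + a') (j' := j' + b')
      (by push_cast; simp only at e; linear_combination e)
    have ha : a = a' := by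
      have h1 : (a : ℚ) < a' + 1 := by linarith [e'.1]
      have h2 : (a' : ℚ) < a + 1 := by linarith [e'.1]
      have h1' : a < a' + 1 := by exact_mod_cast h1
      have h2' : a' < a + 1 := by exact_mod_cast h2
      omega
    have hb : b = b' := by
      have h1 : (b : ℚ) < b' + 1 := by linarith [e'.2]
      have h2 : (b' : ℚ) < b + 1 := by linarith [e'.2]
      have h1' : b < b' + 1 := by exact_mod_cast h1
      have h2' : b' < b + 1 := by exact_mod_cast h2
      omega
    subst ha hb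
    have hi : i = i' := by linarith [e'.1]
    have hj : j = j' := by linarith [e'.2]
    subst hi hj
    rfl
  · rintro p ⟨hp, i, j, hi, hj, rfl⟩
    have h1 : 1 ≤ ⌈i⌉₊ := Nat.one_le_ceil_iff.2 hi
    obtain ⟨a, ha⟩ : ∃ a : ℕ, ⌈i⌉₊ = a + 1 := ⟨⌈i⌉₊ - 1, by omega⟩
    have h2 := Nat.le_ceil i
    have h3 := Nat.ceil_lt_add_one hi.le
    rw [ha] at h2 h3
    push_cast at h2 h3
    have h4 := Nat.floor_le hj
    have h5 := Nat.lt_floor_add_one j
    refine ⟨(((i - a : ℚ) : K) * v + ((j - ⌊j⌋₊ : ℚ) : K) * w, a, ⌊j⌋₊), ?_, by push_cast; ring⟩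
    refine (hP _).2 ⟨?_, i - a, j - ⌊j⌋₊, by linarith, by linarith, by linarith, by linarith, rfl⟩
    have := Λ.sub_mem hp (hmem a ⌊j⌋₊)
    convert this using 1
    push_cast
    ring

theorem par (h : StmtLog) (hK : Module.finrank ℚ K = 2) (lam : K →+ ℝ) (Λ : Submodule ℤ K)
    (x v w : K) (hΛ : IsLat Λ) (hv : v ∈ Λ) (hw : w ∈ Λ) (hI : Ind v w) (lv : 0 < lam v)
    (lw : 0 < lam w) : ∃ P : Finset K,
      (∀ z, z ∈ P ↔ z - x ∈ Λ ∧ ∃ i j : ℚ, 0 < i ∧ i ≤ 1 ∧ 0 ≤ j ∧ j < 1 ∧ z = i * v + j * w) ∧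
      Set.BijOn (fun y : K × ℕ × ℕ => y.1 + y.2.1 * v + y.2.2 * w) {y | y.1 ∈ P}
        (cset Λ x ∩ cone v w) ∧
      HasLog (fun p : (cset Λ x ∩ cone v w : Set K) => lam p)
        (∑ z ∈ P, J2 (lam z) (lam v) (lam w)) := by
  have hfin := finite hK Λ x v w hΛ.1 hI
  have hP : ∀ z, z ∈ hfin.toFinset ↔ z - x ∈ Λ ∧
      ∃ i j : ℚ, 0 < i ∧ i ≤ 1 ∧ 0 ≤ j ∧ j < 1 ∧ z = i * v + j * w := fun z => hfin.mem_toFinset
  generalize hfin.toFinset = P at hP
  have hb := bij Λ x v w hv hw hI P hP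
  refine ⟨P, hP, hb, ?_⟩
  have h1 := h.fin (ι := P) (κ := ℕ × ℕ) (fun z p => lam z + p.1 * lam v + p.2 * lam w)
    (fun z => J2 (lam z) (lam v) (lam w)) (fun z => by
      obtain ⟨-, i, j, hi0, hi1, hj0, hj1, e⟩ := (hP z).1 z.2
      have e' : lam z = i * lam v + j * lam w := by rw [e, map_add, lam_rat, lam_rat]
      have hi0' : (0 : ℝ) < i := by exact_mod_cast hi0
      have hi1' : (i : ℝ) ≤ 1 := by exact_mod_cast hi1
      have hj0' : (0 : ℝ) ≤ j := by exact_mod_cast hj0
      have hj1' : (j : ℝ) < 1 := by exact_mod_cast hj1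
      refine h.base _ _ _ lv lw ?_ ?_
      · rw [e']; positivity
      · rw [e']; nlinarith)
  rw [Finset.sum_coe_sort P (fun z => J2 (lam z) (lam v) (lam w))] at h1
  let e₀ : P × (ℕ × ℕ) ≃ {y : K × ℕ × ℕ | y.1 ∈ P} :=
    { toFun := fun p => ⟨(p.1.1, p.2), p.1.2⟩
      invFun := fun y => (⟨y.1.1, y.2⟩, y.1.2)
      left_inv := fun _ => rfl
      right_inv := fun _ => rfl }
  refine (transfer h (e₀.trans (hb.equiv _)) _ _ _ ?_).1 h1
  intro p
  show _ = lam (p.1.1 + p.2.1 * v + p.2.2 * w)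
  rw [map_add, map_add, lam_nat, lam_nat]

theorem cone_scale (v w : K) (m n : ℕ) (hm : 0 < m) (hn : 0 < n) :
    cone ((m : K) * v) ((n : K) * w) = cone v w := by
  have hm' : (0 : ℚ) < m := by exact_mod_cast hm
  have hn' : (0 : ℚ) < n := by exact_mod_cast hn
  have hmK : (m : K) ≠ 0 := by exact_mod_cast hm.ne'
  have hnK : (n : K) ≠ 0 := by exact_mod_cast hn.ne'
  ext p
  constructor
  · rintro ⟨i, j, hi, hj, rfl⟩
    exact ⟨i * m, j * n, by positivity, by positivity, by push_cast; ring⟩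
  · rintro ⟨i, j, hi, hj, rfl⟩
    exact ⟨i / m, j / n, by positivity, by positivity, by push_cast; field_simp⟩

theorem good (h : StmtLog) (hK : Module.finrank ℚ K = 2) (lam : K →+ ℝ) (Λ : Submodule ℤ K)
    (x v w : K) (hΛ : IsLat Λ) (hI : Ind v w) (lv : 0 < lam v) (lw : 0 < lam w) :
    Good lam (cset Λ x ∩ cone v w) := by
  obtain ⟨m, hm, hv⟩ := hΛ.2 v
  obtain ⟨n, hn, hw⟩ := hΛ.2 w
  have hm' : (0 : ℚ) < m := by exact_mod_cast hm
  have hn' : (0 : ℚ) < n := by exact_mod_cast hn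
  have hI' : Ind ((m : K) * v) ((n : K) * w) := by
    intro i j e
    have := hI (i * m) (j * n) (by push_cast; linear_combination e)
    exact ⟨(mul_eq_zero.1 this.1).resolve_right hm'.ne', (mul_eq_zero.1 this.2).resolve_right hn'.ne'⟩
  obtain ⟨P, -, -, hP⟩ := par h hK lam Λ x _ _ hΛ hv hw hI'
    (by rw [lam_nat]; positivity) (by rw [lam_nat]; positivity)
  rw [cone_scale v w m n hm hn] at hP
  exact ⟨_, hP⟩

theorem cocycle (h : StmtLog) (hK : Module.finrank ℚ K = 2) (lam : K →+ ℝ) (Λ : Submodule ℤ K)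
    (x v u w : K) (i j : ℚ) (hΛ : IsLat Λ) (hI : Ind v w) (lv : 0 < lam v) (lw : 0 < lam w)
    (hi : 0 < i) (hj : 0 < j) (hu : u = i * v + j * w) :
    ell lam (cset Λ x ∩ cone v w) =
      ell lam (cset Λ x ∩ cone v u) + ell lam (cset Λ x ∩ cone u w) := by
  have hiK : (i : K) ≠ 0 := by exact_mod_cast hi.ne'
  have hjK : (j : K) ≠ 0 := by exact_mod_cast hj.ne'
  have lu : 0 < lam u := by
    have hi' : (0 : ℝ) < i := by exact_mod_cast hi
    have hj' : (0 : ℝ) < j := by exact_mod_cast hj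
    rw [hu, map_add, lam_rat, lam_rat]
    positivity
  have hI1 : Ind v u := by
    intro a b e
    have := hI (a + b * i) (b * j) (by push_cast; rw [hu] at e; linear_combination e)
    have hb : b = 0 := (mul_eq_zero.1 this.2).resolve_right hj.ne'
    refine ⟨?_, hb⟩
    simpa [hb] using this.1
  have hI2 : Ind u w := by
    intro a b e
    have := hI (a * i) (a * j + b) (by push_cast; rw [hu] at e; linear_combination e)
    have ha : a = 0 := (mul_eq_zero.1 this.1).resolve_right hi.ne'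
    refine ⟨ha, ?_⟩
    simpa [ha] using this.2
  have hun : cone v w = cone v u ∪ cone u w := by
    ext p
    constructor
    · rintro ⟨a, b, ha, hb, rfl⟩
      by_cases hc : b * i < a * j
      · refine Or.inl ⟨a - b * i / j, b / j, ?_, by positivity, ?_⟩
        · rw [sub_pos, div_lt_iff₀ hj]
          exact hc
        · rw [hu]
          push_cast
          field_simp
          ring
      · refine Or.inr ⟨a / i, b - a * j / i, by positivity, ?_, ?_⟩
        · rw [sub_nonneg, div_le_iff₀ hi]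
          exact not_lt.1 hc
        · rw [hu]
          push_cast
          field_simp
          ring
    · rintro (⟨a, b, ha, hb, rfl⟩ | ⟨a, b, ha, hb, rfl⟩)
      · exact ⟨a + b * i, b * j, by positivity, by positivity, by rw [hu]; push_cast; ring⟩
      · exact ⟨a * i, a * j + b, by positivity, by positivity, by rw [hu]; push_cast; ring⟩
  have hdis : Disjoint (cset Λ x ∩ cone v u) (cset Λ x ∩ cone u w) := by
    rw [Set.disjoint_left]
    rintro p ⟨-, a, b, ha, hb, e⟩ ⟨-, a', b', ha', hb', e'⟩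
    have := ind_eq hI (i := a + b * i) (j := b * j) (i' := a' * i) (j' := a' * j + b')
      (by push_cast; rw [hu] at e e'; linear_combination e' - e)
    have h1 : a * j + b' * i = 0 := by linear_combination j * this.1 - i * this.2
    have h2 : 0 < a * j + b' * i := by positivity
    exact h2.ne' h1
  rw [hun, Set.inter_union_distrib_left]
  exact (add h lam _ _ hdis (good h hK lam Λ x v u hΛ hI1 lv lu)
    (good h hK lam Λ x u w hΛ hI2 lu lw)).2

end L1

theorem blockL1 (h : StmtLog) : StmtL1 := by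
  intro K _ _ hK
  refine ⟨L1.link h, ?_, L1.good h hK, L1.add h, fun lam R S hg hd => (L1.sum h lam R S hg hd).2,
    L1.scale h, L1.cocycle h hK⟩
  intro lam Λ x v w hΛ hv hw hI lv lw
  obtain ⟨P, h1, h2, h3⟩ := L1.par h hK lam Λ x v w hΛ hv hw hI lv lw
  exact ⟨P, h1, h2, L1.link h lam _ _ h3⟩

end Pool.Agent.Lib.Stark
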