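import Pool.Agent.Lib.stark.Defs2

open Complex NumberField Filter Topology
open scoped Real

namespace Pool.Agent.Lib.Stark

namespace L2

set_option linter.unusedSectionVars false

variable {K : Type} [Field K] [NumberField K]

/-- Determinant of two vectors in the two real embeddings. -/
def det (σ₁ σ₂ : K →+* ℝ) (v w : K) : ℝ := σ₂ v * σ₁ w - σ₁ v * σ₂ w

theorem ind_of_det {σ₁ σ₂ : K →+* ℝ} {v w : K} (h : det σ₁ σ₂ v w ≠ 0) : Ind v w := by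
  intro i j hij
  have h1 := congrArg σ₁ hij
  have h2 := congrArg σ₂ hij
  simp only [map_add, map_mul, map_ratCast, map_zero] at h1 h2
  have e1 : (i : ℝ) * det σ₁ σ₂ v w = 0 := by
    unfold det; linear_combination σ₁ w * h2 - σ₂ w * h1
  have e2 : (j : ℝ) * det σ₁ σ₂ v w = 0 := by
    unfold det; linear_combination σ₂ v * h1 - σ₁ v * h2
  exact ⟨by exact_mod_cast (mul_eq_zero.1 e1).resolve_right h,
    by exact_mod_cast (mul_eq_zero.1 e2).resolve_right h⟩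

theorem mem_cone_mul {α v w p : K} (hα : α ≠ 0) :
    α * p ∈ cone (α * v) (α * w) ↔ p ∈ cone v w := by
  constructor
  · rintro ⟨i, j, hi, hj, h⟩
    exact ⟨i, j, hi, hj, mul_left_cancel₀ hα (by rw [h]; ring)⟩
  · rintro ⟨i, j, hi, hj, h⟩
    exact ⟨i, j, hi, hj, by rw [h]; ring⟩

theorem cocyc {σ₁ σ₂ : K →+* ℝ} {c : K ≃+* K} (hE : StmtEll K) (hb : StmtBasic K σ₁ σ₂ c)
    {Λ : Submodule ℤ K} (hΛ : IsLat Λ) (x : K) {v u w : K} (hv : 0 < σ₁ v) (hw : 0 < σ₁ w)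
    (h1 : 0 < det σ₁ σ₂ v u) (h2 : 0 < det σ₁ σ₂ u w) (h3 : 0 < det σ₁ σ₂ v w) :
    ell σ₁ (cset Λ x ∩ cone v w) =
      ell σ₁ (cset Λ x ∩ cone v u) + ell σ₁ (cset Λ x ∩ cone u w) := by
  have hI := ind_of_det h3.ne'
  obtain ⟨i, j, hu⟩ := hb.span2 v w u hI
  have e1 : det σ₁ σ₂ v u = j * det σ₁ σ₂ v w := by
    rw [hu]; unfold det; simp only [map_add, map_mul, map_ratCast]; ring
  have e2 : det σ₁ σ₂ u w = i * det σ₁ σ₂ v w := by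
    rw [hu]; unfold det; simp only [map_add, map_mul, map_ratCast]; ring
  have hj : (0 : ℝ) < j := (mul_pos_iff_of_pos_right h3).1 (e1 ▸ h1)
  have hi : (0 : ℝ) < i := (mul_pos_iff_of_pos_right h3).1 (e2 ▸ h2)
  exact hE.cocycle (σ₁ : K →+ ℝ) Λ x v u w i j hΛ hI hv hw (by exact_mod_cast hi)
    (by exact_mod_cast hj) hu

theorem scale_cone {σ₁ : K →+* ℝ} (hE : StmtEll K) {Λ Λ' : Submodule ℤ K} (hΛ : IsLat Λ)
    {x x' α v w : K} (hα : 0 < σ₁ α) (hI : Ind v w) (hv : 0 < σ₁ v) (hw : 0 < σ₁ w)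
    (h : ∀ p, α * p - x' ∈ Λ' ↔ p - x ∈ Λ) :
    ell σ₁ (cset Λ' x' ∩ cone (α * v) (α * w)) = ell σ₁ (cset Λ x ∩ cone v w) := by
  have hα0 : α ≠ 0 := by rintro rfl; simp at hα
  refine hE.scale σ₁ σ₁ α (σ₁ α) _ _ hα0 hα (fun p => map_mul σ₁ α p) (fun p => ?_)
    (hE.good (σ₁ : K →+ ℝ) Λ x v w hΛ hI hv hw)
  exact and_congr (h p) (mem_cone_mul hα0)

variable {σ₁ σ₂ : K →+* ℝ} {ε : K} {n : ℕ}

theorem lev_pos (hL : Lev σ₁ σ₂ ε n) : 0 < σ₁ ε ∧ 0 < σ₂ ε ∧ σ₂ ε < 1 := by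
  have h1 := hL.one_lt
  have h2 := hL.norm
  have h3 : 0 < σ₂ ε := by
    by_contra h
    have : σ₁ ε * σ₂ ε ≤ 0 := mul_nonpos_of_nonneg_of_nonpos (by linarith) (not_lt.1 h)
    linarith
  refine ⟨by linarith, h3, ?_⟩
  nlinarith

theorem lev_ne (hL : Lev σ₁ σ₂ ε n) : ε ≠ 0 := by
  rintro rfl
  have := (lev_pos hL).1
  simp at this

theorem mul_mem_iff (hL : Lev σ₁ σ₂ ε n) {Λ : Submodule ℤ K} (hΛ : SL ε Λ) (y : K) :
    ε * y ∈ Λ ↔ y ∈ Λ := by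
  refine ⟨fun h => ?_, hΛ.2 y⟩
  have e : y = ((n : ℤ) + 2) • (ε * y) - ε * (ε * y) := by
    have := hL.quad
    simp only [zsmul_eq_mul]
    push_cast
    linear_combination y * this
  rw [e]
  exact Λ.sub_mem (Λ.smul_mem _ h) (hΛ.2 _ h)

theorem pow_mul_mem_iff (hL : Lev σ₁ σ₂ ε n) {Λ : Submodule ℤ K} (hΛ : SL ε Λ) (i : ℕ) (y : K) :
    ε ^ i * y ∈ Λ ↔ y ∈ Λ := by
  induction i with
  | zero => simp
  | succ i ih => rw [pow_succ', mul_assoc, mul_mem_iff hL hΛ, ih]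

theorem det_mul (hL : Lev σ₁ σ₂ ε n) (v w : K) :
    det σ₁ σ₂ (ε * v) (ε * w) = det σ₁ σ₂ v w := by
  unfold det
  simp only [map_mul]
  linear_combination (σ₂ v * σ₁ w - σ₁ v * σ₂ w) * hL.norm

theorem det_eps (hL : Lev σ₁ σ₂ ε n) {v w : K} (hv : 0 < σ₁ v) (hw : 0 < σ₂ w)
    (h : 0 ≤ det σ₁ σ₂ v w) : 0 < det σ₁ σ₂ v (ε * w) := by
  obtain ⟨_, h2, h3⟩ := lev_pos hL
  have h1 := hL.one_lt
  unfold det at h ⊢
  simp only [map_mul]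
  have hp := mul_pos hv hw
  have a1 : σ₁ v * σ₂ w * σ₂ ε < σ₁ v * σ₂ w := mul_lt_of_lt_one_right hp h3
  have a2 : σ₂ v * σ₁ w ≤ σ₂ v * σ₁ w * σ₁ ε := le_mul_of_one_le_right (by linarith) h1.le
  linarith

theorem det_self (v : K) : det σ₁ σ₂ v v = 0 := by unfold det; ring

theorem indep_pos {c : K ≃+* K} (hE : StmtEll K) (hb : StmtBasic K σ₁ σ₂ c)
    (hL : Lev σ₁ σ₂ ε n) {Λ : Submodule ℤ K} (hΛ : SL ε Λ) {x : K} (hx : Tor ε Λ x) {v w : K}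
    (hv : 0 < σ₁ v) (hv' : 0 < σ₂ v) (hw : 0 < σ₁ w) (hw' : 0 < σ₂ w)
    (h : 0 < det σ₁ σ₂ v w) :
    ell σ₁ (cset Λ x ∩ cone v (ε * v)) = ell σ₁ (cset Λ x ∩ cone w (ε * w)) := by
  obtain ⟨h1, _, _⟩ := lev_pos hL
  have hew : 0 < σ₁ (ε * w) := by rw [map_mul]; exact mul_pos h1 hw
  have d3 := det_eps hL hv hw' h.le
  have c1 := cocyc hE hb hΛ.1 x hv hew (det_eps hL hv hv' (det_self v).ge)
    (by rw [det_mul hL]; exact h) d3
  have c2 := cocyc hE hb hΛ.1 x hv hew h (det_eps hL hw hw' (det_self w).ge) d3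
  have c3 : ell σ₁ (cset Λ x ∩ cone (ε * v) (ε * w)) = ell σ₁ (cset Λ x ∩ cone v w) := by
    refine scale_cone hE hΛ.1 h1 (ind_of_det h.ne') hv hw fun p => ?_
    rw [← mul_mem_iff hL hΛ (p - x)]
    have e : ε * p - x = ε * (p - x) + (ε - 1) * x := by ring
    rw [e]
    exact Λ.add_mem_iff_left hx
  linear_combination c2 - c1 - c3

theorem indep {c : K ≃+* K} (hE : StmtEll K) (hb : StmtBasic K σ₁ σ₂ c)
    (hL : Lev σ₁ σ₂ ε n) {Λ : Submodule ℤ K} (hΛ : SL ε Λ) {x : K} (hx : Tor ε Λ x) {v w : K}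
    (hv : 0 < σ₁ v) (hv' : 0 < σ₂ v) (hw : 0 < σ₁ w) (hw' : 0 < σ₂ w) :
    ell σ₁ (cset Λ x ∩ cone v (ε * v)) = ell σ₁ (cset Λ x ∩ cone w (ε * w)) := by
  obtain ⟨h1, h2, _⟩ := lev_pos hL
  rcases lt_trichotomy 0 (det σ₁ σ₂ v w) with h | h | h
  · exact indep_pos hE hb hL hΛ hx hv hv' hw hw' h
  · have hew : 0 < σ₁ (ε * w) := by rw [map_mul]; exact mul_pos h1 hw
    have hew' : 0 < σ₂ (ε * w) := by rw [map_mul]; exact mul_pos h2 hw'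
    rw [indep_pos hE hb hL hΛ hx hv hv' hew hew' (det_eps hL hv hw' h.le),
      indep_pos hE hb hL hΛ hx hw hw' hew hew' (det_eps hL hw hw' (det_self w).ge)]
  · refine (indep_pos hE hb hL hΛ hx hw hw' hv hv' ?_).symm
    unfold det at h ⊢
    linarith

theorem psi_cone {c : K ≃+* K} (hE : StmtEll K) (hb : StmtBasic K σ₁ σ₂ c)
    (hL : Lev σ₁ σ₂ ε n) {Λ : Submodule ℤ K} (hΛ : SL ε Λ) {x : K} (hx : Tor ε Λ x) {v : K}
    (hv : 0 < σ₁ v) (hv' : 0 < σ₂ v) :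
    Psi σ₁ ε Λ x = cexp (-ell σ₁ (cset Λ x ∩ cone v (ε * v))) := by
  unfold Psi
  rw [indep hE hb hL hΛ hx hv hv' (w := 1) (by simp) (by simp), mul_one]

theorem ind_one (hL : Lev σ₁ σ₂ ε n) : Ind 1 ε := by
  have := det_eps hL (v := 1) (w := 1) (by simp) (by simp) (det_self 1).ge
  rw [mul_one] at this
  exact ind_of_det this.ne'

theorem psi_per (σ₁ : K →+* ℝ) (ε : K) (Λ : Submodule ℤ K) (x y : K) (hy : y ∈ Λ) :
    Psi σ₁ ε Λ (x + y) = Psi σ₁ ε Λ x := by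
  have : cset Λ (x + y) = cset Λ x := by
    ext p
    simp only [cset, Set.mem_ofPred_eq]
    rw [← sub_sub]
    exact Λ.sub_mem_iff_left hy
  unfold Psi
  rw [this]

theorem psi_dist (hE : StmtEll K) (hL : Lev σ₁ σ₂ ε n) (Λ Λ' : Submodule ℤ K) (R : Finset K)
    (x : K) (hΛ : IsLat Λ) (hle : Λ ≤ Λ') (hR : Reps Λ Λ' R) :
    Psi σ₁ ε Λ' x = ∏ t ∈ R, Psi σ₁ ε Λ (x + t) := by
  have hU : cset Λ' x ∩ cone 1 ε = ⋃ t ∈ R, cset Λ (x + t) ∩ cone 1 ε := by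
    ext p
    simp only [cset, Set.mem_inter_iff, Set.mem_ofPred_eq, Set.mem_iUnion, exists_prop]
    constructor
    · rintro ⟨h1, h2⟩
      obtain ⟨t, ⟨ht, ht'⟩, -⟩ := hR.2 _ h1
      exact ⟨t, ht, by rwa [← sub_sub], h2⟩
    · rintro ⟨t, ht, h1, h2⟩
      refine ⟨?_, h2⟩
      have := Λ'.add_mem (hle h1) (hR.1 t ht)
      convert this using 1
      ring
  have hD : (R : Set K).PairwiseDisjoint fun t => cset Λ (x + t) ∩ cone 1 ε := by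
    intro t ht t' ht' hne
    refine Set.disjoint_left.2 fun p hp hp' => hne ?_
    have h1 : p - x - t ∈ Λ := by rw [sub_sub]; exact hp.1
    have h2 : p - x - t' ∈ Λ := by rw [sub_sub]; exact hp'.1
    have h3 : p - x ∈ Λ' := by
      have := Λ'.add_mem (hle h1) (hR.1 t ht)
      rwa [sub_add_cancel] at this
    exact (hR.2 _ h3).unique ⟨ht, h1⟩ ⟨ht', h2⟩
  unfold Psi
  rw [hU, hE.sum σ₁ R _ (fun t _ => hE.good (σ₁ : K →+ ℝ) Λ (x + t) 1 ε hΛ (ind_one hL)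
    (by simp) (lev_pos hL).1) hD, ← Finset.sum_neg_distrib, Complex.exp_sum]

theorem sl_scale {Λ Λ' : Submodule ℤ K} {α : K} (hα : α ≠ 0) (hΛ : SL ε Λ)
    (h : ∀ y, α * y ∈ Λ' ↔ y ∈ Λ) : SL ε Λ' := by
  have h' : ∀ y, y ∈ Λ' ↔ α⁻¹ * y ∈ Λ := fun y => by
    rw [← h, mul_inv_cancel_left₀ hα]
  refine ⟨⟨?_, fun x => ?_⟩, fun y hy => ?_⟩
  · have : Λ' = Λ.map (LinearMap.mulLeft ℤ α) := by
      ext y
      simp only [Submodule.mem_map, LinearMap.mulLeft_apply]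
      constructor
      · intro hy
        exact ⟨α⁻¹ * y, (h' y).1 hy, mul_inv_cancel_left₀ hα y⟩
      · rintro ⟨z, hz, rfl⟩
        exact (h z).2 hz
    rw [this]
    exact hΛ.1.1.map _
  · obtain ⟨m, hm, hx⟩ := hΛ.1.2 (α⁻¹ * x)
    exact ⟨m, hm, (h' _).2 (by rwa [mul_left_comm])⟩
  · rw [h'] at hy ⊢
    rw [mul_left_comm]
    exact hΛ.2 _ hy

theorem psi_scale {c : K ≃+* K} (hE : StmtEll K) (hb : StmtBasic K σ₁ σ₂ c)
    (hL : Lev σ₁ σ₂ ε n) (Λ Λ' : Submodule ℤ K) (α x : K) (hΛ : SL ε Λ) (hx : Tor ε Λ x)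
    (h1 : 0 < σ₁ α) (h2 : 0 < σ₂ α) (h : ∀ y, α * y ∈ Λ' ↔ y ∈ Λ) :
    Psi σ₁ ε Λ' (α * x) = Psi σ₁ ε Λ x := by
  have hα0 : α ≠ 0 := by rintro rfl; simp at h1
  have hx' : Tor ε Λ' (α * x) := by
    unfold Tor
    rw [mul_left_comm]
    exact (h _).2 hx
  rw [psi_cone hE hb hL (sl_scale hα0 hΛ h) hx' h1 h2]
  have := scale_cone hE (Λ' := Λ') (x := x) (x' := α * x) hΛ.1 h1 (ind_one hL) (by simp)
    (lev_pos hL).1 fun p => by rw [← mul_sub, h]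
  rw [mul_one, mul_comm α ε] at this
  rw [this]
  rfl

theorem det_pow (hL : Lev σ₁ σ₂ ε n) (J : ℕ) : 0 < det σ₁ σ₂ 1 (ε ^ (J + 1)) := by
  obtain ⟨_, h2, _⟩ := lev_pos hL
  induction J with
  | zero =>
    have := det_eps hL (v := 1) (w := 1) (by simp) (by simp) (det_self 1).ge
    simpa using this
  | succ J ih =>
    rw [pow_succ']
    exact det_eps hL (by simp) (by rw [map_pow]; exact pow_pos h2 _) ih.le

theorem psi_level {c : K ≃+* K} (hE : StmtEll K) (hb : StmtBasic K σ₁ σ₂ c)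
    (hL : Lev σ₁ σ₂ ε n) (Λ : Submodule ℤ K) (x : K) (J : ℕ) (hΛ : SL ε Λ) (hJ : 0 < J) :
    Psi σ₁ (ε ^ J) Λ x = ∏ i ∈ Finset.range J, Psi σ₁ ε Λ (ε⁻¹ ^ i * x) := by
  obtain ⟨h1, h2, _⟩ := lev_pos hL
  have step : ∀ i : ℕ, ell σ₁ (cset Λ x ∩ cone (ε ^ i) (ε ^ (i + 1))) =
      ell σ₁ (cset Λ (ε⁻¹ ^ i * x) ∩ cone 1 ε) := by
    intro i
    have := scale_cone hE (Λ' := Λ) (x := ε⁻¹ ^ i * x) (x' := x) (α := ε ^ i) hΛ.1
      (by rw [map_pow]; exact pow_pos h1 _) (ind_one hL) (by simp) h1 fun p => by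
        rw [← pow_mul_mem_iff hL hΛ i (p - ε⁻¹ ^ i * x), mul_sub, inv_pow,
          mul_inv_cancel_left₀ (pow_ne_zero i (lev_ne hL))]
    rwa [mul_one, ← pow_succ] at this
  obtain ⟨J, rfl⟩ : ∃ J', J = J' + 1 := ⟨J - 1, by omega⟩
  clear hJ
  induction J with
  | zero => simp
  | succ J ih =>
    rw [Finset.prod_range_succ, ← ih]
    unfold Psi
    have d2 : 0 < det σ₁ σ₂ (ε ^ (J + 1)) (ε ^ (J + 1 + 1)) := by
      rw [pow_succ' ε (J + 1)]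
      exact det_eps hL (by rw [map_pow]; exact pow_pos h1 _) (by rw [map_pow]; exact pow_pos h2 _)
        (det_self _).ge
    rw [cocyc hE hb hΛ.1 x (by simp) (by rw [map_pow]; exact pow_pos h1 _) (det_pow hL J) d2
      (det_pow hL (J + 1)), step, neg_add, Complex.exp_add]

end L2

theorem blockL2 (h : StmtL1) (hR : StmtR1) : StmtPsi := by
  intro K _ _ σ₁ σ₂ c hRQ ε n hL
  have hE := h K hRQ.rank
  have hb := hR.2.1 K σ₁ σ₂ c hRQ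
  exact ⟨L2.psi_per σ₁ ε, fun Λ Λ' R x h1 _ h3 h4 => L2.psi_dist hE hL Λ Λ' R x h1 h3 h4,
    L2.psi_scale hE hb hL, fun Λ x v h1 h2 h3 h4 => L2.psi_cone hE hb hL h1 h2 h3 h4,
    L2.psi_level hE hb hL⟩

end Pool.Agent.Lib.Stark
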