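import Pool.Agent.Lib.stark.M1a

open Complex MeasureTheory Filter Topology
open scoped Real ComplexConjugate

namespace Pool.Agent.Lib.Stark
namespace M1

variable {ε : ℝ} {c : ℕ} [NeZero c] {a d : ZMod c}

theorem cpos (c : ℕ) [NeZero c] : (0 : ℝ) < c := Nat.cast_pos.2 (NeZero.pos c)

theorem psi_eq (h : ZMod c) : ZMod.stdAddChar h = ee ((h.val : ℂ) / c) := by
  rw [ZMod.stdAddChar_apply, ZMod.toCircle_apply, ee, mul_div_assoc]

theorem psi_exp (h : ZMod c) (t : ℂ) :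
    ZMod.stdAddChar h * cexp (-t) = cexp (-(t - ((2 * π * (h.val / c) : ℝ) : ℂ) * I)) := by
  rw [psi_eq, ee, ← Complex.exp_add]
  congr 1; push_cast; ring

theorem val_le (h : ZMod c) : 2 * π * ((h.val : ℝ) / c) ≤ 2 * π - 2 * π / c := by
  have h1 : (h.val : ℝ) + 1 ≤ c := by exact_mod_cast ZMod.val_lt h
  have h2 := cpos c
  have h3 : (h.val : ℝ) / c ≤ 1 - 1 / c := by
    rw [div_le_iff₀ h2, sub_mul, one_div, inv_mul_cancel₀ h2.ne']; linarith
  have := mul_le_mul_of_nonneg_left h3 (by positivity : 0 ≤ 2 * π)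
  rwa [mul_sub, mul_one, mul_one_div] at this

theorem ne_zero_psi (h : ZMod c) {t : ℂ} (h1 : -(2 * π / c) < t.im) (h2 : t.im < 0) :
    1 - ZMod.stdAddChar h * cexp (-t) ≠ 0 := by
  have h3 := val_le h
  have h4 : 0 ≤ 2 * π * ((h.val : ℝ) / c) := by positivity
  rw [psi_exp]
  refine ne_zero_strip ?_ ?_ <;>
    simp only [sub_im, mul_im, ofReal_re, I_im, mul_one, ofReal_im, I_re, mul_zero, add_zero] <;>
    linarith

theorem inv_bound_psi {α β : ℝ} (ha : 0 < α) (hb : β < 2 * π / c) : ∃ K : ℝ, 0 < K ∧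
    ∀ (h : ZMod c) (t : ℂ), -β ≤ t.im → t.im ≤ -α →
      ‖(1 - ZMod.stdAddChar h * cexp (-t))⁻¹‖ ≤ K ∧
      ‖(1 - ZMod.stdAddChar h * cexp (-t))⁻¹‖ ≤ K * Real.exp t.re := by
  obtain ⟨K, hK, hb⟩ := inv_bound (b := β + (2 * π - 2 * π / c)) ha (by linarith)
  refine ⟨K, hK, fun h t h1 h2 => ?_⟩
  have h3 := val_le h
  have h4 : 0 ≤ 2 * π * ((h.val : ℝ) / c) := by positivity
  rw [psi_exp]
  have := hb (t - ((2 * π * (h.val / c) : ℝ) : ℂ) * I)
    (by simp only [sub_im, mul_im, ofReal_re, I_im, mul_one, ofReal_im, I_re, mul_zero, add_zero]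
        linarith)
    (by simp only [sub_im, mul_im, ofReal_re, I_im, mul_one, ofReal_im, I_re, mul_zero, add_zero]
        linarith)
  simpa only [sub_re, mul_re, ofReal_re, I_im, mul_one, ofReal_im, I_re, mul_zero, sub_zero]
    using this

theorem eta_lt (hε : 1 < ε) : 2 * π / (c * ε) < 2 * π / c := by
  have := cpos c
  exact div_lt_div_of_pos_left (by positivity) this (by nlinarith)

theorem mul_eta (hε : 1 < ε) {β : ℝ} (h : β < 2 * π / (c * ε)) : ε * β < 2 * π / c := by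
  have := cpos c
  rw [lt_div_iff₀ (by positivity)] at h ⊢
  linarith

theorem norm_avg {f : ZMod c → ℂ} {B : ℝ} (h : ∀ x, ‖f x‖ ≤ B) : ‖(c : ℂ)⁻¹ * ∑ x, f x‖ ≤ B := by
  have h1 : ‖∑ x, f x‖ ≤ c * B := by
    refine (norm_sum_le _ _).trans ((Finset.sum_le_card_nsmul _ _ B fun x _ => h x).trans ?_)
    simp [ZMod.card]
  rw [norm_mul, norm_inv, Complex.norm_natCast, inv_mul_le_iff₀ (cpos c)]
  exact h1

theorem gen_bound (hε : 1 < ε) {α β : ℝ} (ha : 0 < α) (hb : β < 2 * π / (c * ε)) :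
    ∃ K : ℝ, 0 < K ∧ ∀ (ξ : ℂ) (ρ : ZMod c) (s : ℂ) (δ : ℝ), -β ≤ s.im → s.im ≤ -α → δ ≤ ξ.re →
      ξ.re + δ ≤ 1 + ε →
      ‖Gen ε c d ξ ρ s‖ ≤ K * Real.exp (ξ.im * s.im) * Real.exp (-δ * |s.re|) := by
  obtain ⟨K1, hK1, h1⟩ := inv_bound_psi ha (hb.trans (eta_lt (c := c) hε))
  obtain ⟨K2, hK2, h2⟩ := inv_bound_psi (c := c) (α := ε * α) (by positivity) (mul_eta hε hb)
  refine ⟨K1 * K2, by positivity, fun ξ ρ s δ b1 b2 b3 b4 => ?_⟩
  have k2 := fun h => h2 h (ε * s) (by simp; nlinarith) (by simp; nlinarith)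
  have k1 := fun h => h1 h s b1 b2
  unfold Gen
  rw [mul_assoc]
  refine decay (norm_avg fun h => ?_) (norm_avg fun h => ?_) b3 b4
  · rw [div_eq_mul_inv, norm_mul, AddChar.norm_apply, one_mul, mul_inv, norm_mul, neg_mul]
    exact mul_le_mul (k1 _).1 (k2 _).1 (norm_nonneg _) hK1.le
  · rw [div_eq_mul_inv, norm_mul, AddChar.norm_apply, one_mul, mul_inv, norm_mul, neg_mul]
    refine (mul_le_mul (k1 _).2 (k2 _).2 (norm_nonneg _) (by positivity)).trans (le_of_eq ?_)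
    rw [add_mul, one_mul, Real.exp_add]
    simp only [mul_re, ofReal_re, ofReal_im, zero_mul, sub_zero]
    ring

theorem ne1 (hε : 1 < ε) (h : ZMod c) {s : ℂ} (h1 : -(2 * π / (c * ε)) < s.im) (h2 : s.im < 0) :
    1 - ZMod.stdAddChar h * cexp (-s) ≠ 0 :=
  ne_zero_psi h (by linarith [eta_lt (c := c) hε]) h2

theorem ne2 (hε : 1 < ε) (h : ZMod c) {s : ℂ} (h1 : -(2 * π / (c * ε)) < s.im) (h2 : s.im < 0) :
    1 - ZMod.stdAddChar h * cexp (-ε * s) ≠ 0 := by
  rw [neg_mul]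
  have := mul_eta (c := c) hε (β := -s.im) (by linarith)
  exact ne_zero_psi h (by simp; linarith) (by simp; nlinarith)

theorem gen_diff (hε : 1 < ε) (ξ : ℂ) (ρ : ZMod c) : DifferentiableOn ℂ (Gen ε c d ξ ρ)
    {s | -(2 * π / (c * ε)) < s.im ∧ s.im < 0} := by
  intro s hs
  refine DifferentiableAt.differentiableWithinAt ?_
  unfold Gen
  refine DifferentiableAt.mul (by fun_prop) (DifferentiableAt.fun_sum fun h _ => ?_)
  exact DifferentiableAt.div (by fun_prop) (by fun_prop)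
    (mul_ne_zero (ne1 hε _ hs.1 hs.2) (ne2 hε _ hs.1 hs.2))

theorem gen_adm (hε : 1 < ε) {ξ : ℂ} (ρ : ZMod c) (h0 : 0 < ξ.re) (h1 : ξ.re < 1 + ε) :
    Adm (2 * π / (c * ε)) (Gen ε c d ξ ρ) := by
  have := cpos c
  refine ⟨by positivity, gen_diff hε ξ ρ, fun α β ha hb => ?_⟩
  obtain ⟨K, hK, h⟩ := gen_bound (d := d) hε ha hb
  refine ⟨K * Real.exp (|ξ.im| * β), min ξ.re (1 + ε - ξ.re), lt_min h0 (by linarith),
    fun s b1 b2 => (h ξ ρ s _ b1 b2 (min_le_left _ _)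
      (by linarith [min_le_right ξ.re (1 + ε - ξ.re)])).trans (mul_le_mul_of_nonneg_right
        (mul_le_mul_of_nonneg_left (Real.exp_le_exp.2 ?_) hK.le) (Real.exp_pos _).le)⟩
  refine (le_abs_self _).trans ?_
  rw [abs_mul]
  exact mul_le_mul_of_nonneg_left (abs_le.2 ⟨b1, by linarith⟩) (abs_nonneg _)

theorem eta_pos (hε : 1 < ε) : 0 < π / (c * ε) := by
  have := cpos c
  positivity

theorem eta_half (hε : 1 < ε) : π / (c * ε) < 2 * π / (c * ε) := by
  have := eta_pos (c := c) hε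
  rw [mul_div_assoc]; linarith

theorem gen_cont (hε : 1 < ε) (ξ : ℂ) (ρ : ZMod c) :
    Continuous fun x : ℝ => Gen ε c d ξ ρ (x - (π / (c * ε) : ℝ) * I) :=
  (gen_diff hε ξ ρ).continuousOn.comp_continuous (by fun_prop) fun x => by
    have h1 := eta_pos (c := c) hε
    have h2 := eta_half (c := c) hε
    constructor <;>
    simp only [sub_im, mul_im, ofReal_re, I_im, mul_one, ofReal_im, I_re, mul_zero, add_zero] <;>
    linarith

theorem gen_line (hε : 1 < ε) : ∃ K : ℝ, 0 < K ∧ ∀ (ξ : ℂ) (ρ : ZMod c) (δ x : ℝ), δ ≤ ξ.re →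
    ξ.re + δ ≤ 1 + ε → ‖Gen ε c d ξ ρ (x - (π / (c * ε) : ℝ) * I)‖ ≤
      K * Real.exp (-(π / (c * ε)) * ξ.im) * Real.exp (-δ * |x|) := by
  obtain ⟨K, hK, h⟩ := gen_bound (d := d) hε (eta_pos (c := c) hε) (eta_half hε)
  refine ⟨K, hK, fun ξ ρ δ x b1 b2 => ?_⟩
  have e : ((x : ℂ) - (π / (c * ε) : ℝ) * I).im = -(π / (c * ε)) := by
    simp only [sub_im, mul_im, ofReal_re, I_im, mul_one, ofReal_im, I_re, mul_zero, add_zero,
      zero_sub]
  have e' : ((x : ℂ) - (π / (c * ε) : ℝ) * I).re = x := by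
    simp only [sub_re, mul_re, ofReal_re, I_im, mul_one, ofReal_im, I_re, mul_zero, sub_zero]
  have := h ξ ρ (x - (π / (c * ε) : ℝ) * I) δ e.ge e.le b1 b2
  rwa [e, e', mul_comm ξ.im] at this

theorem phi_diff (hI : StmtHolInt) (hε : 1 < ε) (ρ : ZMod c) :
    DifferentiableOn ℂ (fun ξ => Phi ε c d ξ ρ) {ξ | 0 < ξ.re ∧ ξ.re < 1 + ε} := by
  intro z hz
  obtain ⟨K, hK, h⟩ := gen_line (c := c) (d := d) hε
  have h0 := eta_pos (c := c) hε
  set δ := min z.re (1 + ε - z.re) / 2 with hδ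
  have m1 := min_le_left z.re (1 + ε - z.re)
  have m2 := min_le_right z.re (1 + ε - z.re)
  have hδ0 : 0 < δ := half_pos (lt_min hz.1 (sub_pos.2 hz.2))
  have := hI volume
    (fun w x => Gen ε c d w ρ (x - (π / (c * ε) : ℝ) * I) / (x - (π / (c * ε) : ℝ) * I))
    (Metric.ball z δ)
    (fun x => (π / (c * ε))⁻¹ * (K * Real.exp (π / (c * ε) * (|z.im| + δ)) * Real.exp (-δ * |x|)))
    Metric.isOpen_ball (((integrable_exp hδ0).const_mul _).const_mul _)
    (fun w _ => ((gen_cont hε w ρ).div (by fun_prop) (line_ne h0)).aestronglyMeasurable)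
    (Eventually.of_forall fun x => Differentiable.differentiableOn (by unfold Gen; fun_prop))
    (Eventually.of_forall fun x w hw => by
      rw [mem_ball_iff_norm] at hw
      have r1 := abs_lt.1 ((Complex.abs_re_le_norm (w - z)).trans_lt hw)
      have r2 := abs_lt.1 ((Complex.abs_im_le_norm (w - z)).trans_lt hw)
      rw [sub_re] at r1
      rw [sub_im] at r2
      refine norm_div_line h0 x ((h w ρ δ x (by linarith) (by linarith)).trans
        (mul_le_mul_of_nonneg_right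
        (mul_le_mul_of_nonneg_left (Real.exp_le_exp.2 ?_) hK.le) (Real.exp_pos _).le))
      nlinarith [neg_abs_le z.im])
  exact (this.differentiableAt (Metric.ball_mem_nhds z hδ0)).neg.cexp.differentiableWithinAt

theorem norm_exp_sub_one {w : ℂ} {r C : ℝ} (h : ‖w‖ ≤ r) (h' : r ≤ C) :
    ‖cexp w - 1‖ ≤ Real.exp C * r := by
  have := Complex.norm_exp_sub_sum_le_norm_mul_exp w 1
  simp only [Finset.range_one, Finset.sum_singleton, pow_zero, Nat.factorial_zero, Nat.cast_one,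
    div_one, pow_one] at this
  rw [mul_comm]
  exact this.trans (mul_le_mul h (Real.exp_le_exp.2 (h.trans h')) (Real.exp_pos _).le
    ((norm_nonneg w).trans h))

theorem phi_top (hε : 1 < ε) (α β : ℝ) (ha : 0 < α) (hb : β < 1 + ε) : ∃ C δ : ℝ, 0 < δ ∧
    ∀ ξ ρ, α ≤ ξ.re → ξ.re ≤ β → 0 ≤ ξ.im → ‖Phi ε c d ξ ρ - 1‖ ≤ C * Real.exp (-δ * ξ.im) ∧
      ‖(Phi ε c d ξ ρ)⁻¹ - 1‖ ≤ C * Real.exp (-δ * ξ.im) := by
  obtain ⟨K, hK, h⟩ := gen_line (c := c) (d := d) hε
  have h0 := eta_pos (c := c) hε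
  have hδ0 : 0 < min α (1 + ε - β) := lt_min ha (by linarith)
  set A := (π / (c * ε))⁻¹ * ∫ x : ℝ, Real.exp (-min α (1 + ε - β) * |x|) with hA
  have hA0 : 0 ≤ A := mul_nonneg (inv_pos.2 h0).le (integral_nonneg fun x => (Real.exp_pos _).le)
  refine ⟨Real.exp (A * K) * (A * K), π / (c * ε), h0, fun ξ ρ b1 b2 b3 => ?_⟩
  have k := norm_lineInt h0 hδ0 fun x => h ξ ρ _ x ((min_le_left _ _).trans b1)
    (by linarith [min_le_right α (1 + ε - β)])
  rw [← hA, ← mul_assoc] at k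
  have k' : A * K * Real.exp (-(π / (c * ε)) * ξ.im) ≤ A * K :=
    mul_le_of_le_one_right (by positivity) (Real.exp_le_one_iff.2 (by nlinarith))
  unfold Phi
  rw [← Complex.exp_neg, neg_neg, mul_assoc]
  exact ⟨norm_exp_sub_one (by rwa [norm_neg]) k', norm_exp_sub_one k k'⟩

theorem psi_pow (x : ZMod c) (k : ℕ) :
    ZMod.stdAddChar x ^ k = ZMod.stdAddChar (x * (k : ZMod c)) := by
  rw [← AddChar.map_nsmul_eq_pow, nsmul_eq_mul, mul_comm]

theorem psi_sum (b : ZMod c) :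
    (c : ℂ)⁻¹ * ∑ h : ZMod c, ZMod.stdAddChar (h * b) = if b = 0 then 1 else 0 := by
  rw [AddChar.sum_mulShift b (ZMod.isPrimitive_stdAddChar c), ZMod.card]
  split_ifs
  · exact inv_mul_cancel₀ (Nat.cast_ne_zero.2 (NeZero.ne c))
  · simp

theorem geo (had : a * d = 1) (ρ : ZMod c) {x : ℂ} (hx : 1 - x ^ c ≠ 0) :
    (c : ℂ)⁻¹ * ∑ h : ZMod c, ZMod.stdAddChar (h * ρ) / (1 - ZMod.stdAddChar (h * d) * x) =
      x ^ (-(a * ρ)).val * (1 - x ^ c)⁻¹ := by
  have e1 : ∀ h : ZMod c, ZMod.stdAddChar (h * ρ) / (1 - ZMod.stdAddChar (h * d) * x) =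
      ∑ k ∈ Finset.range c,
        ZMod.stdAddChar (h * (ρ + d * (k : ZMod c))) * (x ^ k * (1 - x ^ c)⁻¹) := by
    intro h
    have e := mul_neg_geom_sum (ZMod.stdAddChar (h * d) * x) c
    rw [mul_pow, psi_pow, ZMod.natCast_self, mul_zero, AddChar.map_zero_eq_one, one_mul] at e
    have hne : 1 - ZMod.stdAddChar (h * d) * x ≠ 0 := fun h0 => hx (by rw [← e, h0, zero_mul])
    rw [div_eq_iff hne]
    calc ZMod.stdAddChar (h * ρ) = ZMod.stdAddChar (h * ρ) * ((1 - x ^ c) * (1 - x ^ c)⁻¹) := by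
          rw [mul_inv_cancel₀ hx, mul_one]
      _ = _ := by
          nth_rewrite 1 [← e]
          rw [mul_comm (1 - ZMod.stdAddChar (h * d) * x), mul_right_comm, ← mul_assoc,
            Finset.sum_mul, Finset.mul_sum]
          congr 1
          refine Finset.sum_congr rfl fun k _ => ?_
          rw [mul_add, AddChar.map_add_eq_mul, mul_pow, psi_pow, mul_assoc h d]
          ring
  simp only [e1]
  rw [Finset.sum_comm, Finset.mul_sum]
  simp only [← Finset.sum_mul, ← mul_assoc, psi_sum]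
  rw [Finset.sum_eq_single (-(a * ρ)).val]
  · rw [if_pos, one_mul]
    rw [ZMod.natCast_zmod_val]
    linear_combination (-ρ) * had
  · intro k hk hne
    rw [if_neg, zero_mul]
    intro h0
    apply hne
    have : (k : ZMod c) = -(a * ρ) := by linear_combination a * h0 - (k : ZMod c) * had
    rw [← this, ZMod.val_cast_of_lt (Finset.mem_range.1 hk)]
  · intro h
    exact absurd (Finset.mem_range.2 (ZMod.val_lt _)) h

theorem sub1 (hε : 1 < ε) (had : a * d = 1) (ξ : ℂ) (ρ : ZMod c) {s : ℂ}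
    (h1 : -(2 * π / (c * ε)) < s.im) (h2 : s.im < 0) :
    Gen ε c d ξ ρ s = cexp (-(ξ + (-(a * ρ)).val * ε) * s) * (1 - cexp (-((c * ε : ℝ) * s)))⁻¹ +
      Gen ε c d (ξ + 1) (ρ + 1) s := by
  have hc := cpos c
  have e : cexp (-ε * s) ^ c = cexp (-((c * ε : ℝ) * s)) := by
    rw [← Complex.exp_nat_mul]; congr 1; push_cast; ring
  have hne : 1 - cexp (-ε * s) ^ c ≠ 0 := by
    rw [e]
    rw [neg_lt, lt_div_iff₀ (by positivity)] at h1
    refine ne_zero_strip ?_ ?_ <;> rw [im_ofReal_mul]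
    · linarith
    · exact mul_neg_of_pos_of_neg (by positivity) h2
  have e2 : cexp (-(ξ + (-(a * ρ)).val * ε) * s) =
      cexp (-ξ * s) * cexp (-ε * s) ^ (-(a * ρ)).val := by
    rw [← Complex.exp_nat_mul, ← Complex.exp_add]; congr 1; ring
  have e3 : cexp (-(ξ + 1) * s) = cexp (-ξ * s) * cexp (-s) := by
    rw [← Complex.exp_add]; congr 1; ring
  rw [← e, e2, mul_assoc, ← geo had ρ hne]
  unfold Gen
  rw [e3]
  simp only [Finset.mul_sum, ← Finset.sum_add_distrib]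
  refine Finset.sum_congr rfl fun h _ => ?_
  have n1 := ne1 hε h h1 h2
  have n2 := ne2 hε (h * d) h1 h2
  rw [mul_add, mul_one, AddChar.map_add_eq_mul]
  generalize cexp (-ε * s) = y at *
  field_simp
  ring

theorem sub2 (hε : 1 < ε) (ξ : ℂ) (ρ : ZMod c) {s : ℂ}
    (h1 : -(2 * π / (c * ε)) < s.im) (h2 : s.im < 0) :
    Gen ε c d ξ ρ s = cexp (-(ξ + (-ρ).val) * s) * (1 - cexp (-((c : ℝ) * s)))⁻¹ +
      Gen ε c d (ξ + ε) (ρ + d) s := by
  have hc := cpos c
  have e : cexp (-s) ^ c = cexp (-((c : ℝ) * s)) := by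
    rw [← Complex.exp_nat_mul]; congr 1; push_cast; ring
  have hne : 1 - cexp (-s) ^ c ≠ 0 := by
    rw [e]
    have h3 := (neg_lt.1 h1).trans (eta_lt (c := c) hε)
    rw [lt_div_iff₀ hc] at h3
    refine ne_zero_strip ?_ ?_ <;> rw [im_ofReal_mul]
    · linarith
    · exact mul_neg_of_pos_of_neg hc h2
  have e2 : cexp (-(ξ + (-ρ).val) * s) = cexp (-ξ * s) * cexp (-s) ^ (-ρ).val := by
    rw [← Complex.exp_nat_mul, ← Complex.exp_add]; congr 1; ring
  have e3 : cexp (-(ξ + ε) * s) = cexp (-ξ * s) * cexp (-ε * s) := by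
    rw [← Complex.exp_add]; congr 1; ring
  have g := geo (a := 1) (d := 1) (one_mul 1) ρ hne
  simp only [one_mul, mul_one] at g
  rw [← e, e2, mul_assoc, ← g]
  unfold Gen
  rw [e3]
  simp only [Finset.mul_sum, ← Finset.sum_add_distrib]
  refine Finset.sum_congr rfl fun h _ => ?_
  have n1 := ne1 hε h h1 h2
  have n2 := ne2 hε (h * d) h1 h2
  rw [mul_add, AddChar.map_add_eq_mul]
  generalize cexp (-ε * s) = y at *
  field_simp
  ring

theorem exp_step {g g' k : ℂ → ℂ} {η : ℝ}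
    (h : Integrable fun x : ℝ => g (x - η * I) / (x - η * I))
    (h' : Integrable fun x : ℝ => g' (x - η * I) / (x - η * I))
    (e : ∀ x : ℝ, g (x - η * I) = k (x - η * I) + g' (x - η * I)) :
    cexp (-lineInt g η) = cexp (-lineInt k η) * cexp (-lineInt g' η) := by
  have : lineInt k η = lineInt g η - lineInt g' η := by
    unfold lineInt
    rw [← integral_sub h h']
    refine integral_congr_ae (Eventually.of_forall fun x => ?_)
    simp only [e]; ring
  rw [this, ← Complex.exp_add]; congr 1; ring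

theorem line_im (η x : ℝ) : ((x : ℂ) - η * I).im = -η := by simp

theorem ee_add (z w : ℂ) : ee (z + w) = ee z * ee w := by
  rw [ee, mul_add, Complex.exp_add]; rfl

theorem val_le' (h : ZMod c) : (h.val : ℝ) + 1 ≤ c := by exact_mod_cast ZMod.val_lt h

theorem phi_eq1 (hA : StmtAN) (hε : 1 < ε) (had : a * d = 1) (ξ : ℂ) (ρ : ZMod c)
    (h0 : 0 < ξ.re) (h1 : ξ.re < ε) :
    Phi ε c d ξ ρ = (1 - BB ε c a ξ ρ 1 1) * Phi ε c d (ξ + 1) (ρ + 1) := by
  have p1 := eta_pos (c := c) hε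
  have p2 := eta_half (c := c) hε
  have hc := cpos c
  have hv := val_le' (-(a * ρ))
  have hv0 : (0 : ℝ) ≤ (-(a * ρ)).val := Nat.cast_nonneg _
  unfold Phi
  rw [exp_step (k := fun s => cexp (-(ξ + (-(a * ρ)).val * ε) * s) *
      (1 - cexp (-((c * ε : ℝ) * s)))⁻¹)
    (hA.2.1 _ _ (gen_adm hε ρ h0 (by linarith)) _ p1 p2).1
    (hA.2.1 _ _ (gen_adm hε (ξ := ξ + 1) (ρ + 1) (by simp; linarith) (by simp; linarith))
      _ p1 p2).1
    (fun x => sub1 hε had ξ ρ (by rw [line_im]; linarith) (by rw [line_im]; linarith)),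
    basic hA.1 (by positivity) p1 (by
      rw [mul_div_cancel₀ _ (by positivity)]; linarith [Real.pi_pos])
      (by simp only [add_re, mul_re, natCast_re, ofReal_re, natCast_im, zero_mul, sub_zero]
          positivity)
      (by simp only [add_re, mul_re, natCast_re, ofReal_re, natCast_im, zero_mul, sub_zero]
          nlinarith)]
  congr 2
  have hε' : (ε : ℂ) ≠ 0 := by exact_mod_cast (by linarith : ε ≠ 0)
  rw [BB, mul_one, mul_one, psi_eq, ← ee_add]
  congr 1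
  push_cast
  rw [add_div, mul_div_mul_right _ _ hε']

theorem phi_eq2 (hA : StmtAN) (hε : 1 < ε) (had : a * d = 1) (ξ : ℂ) (ρ : ZMod c)
    (h0 : 0 < ξ.re) (h1 : ξ.re < 1) :
    Phi ε c d ξ ρ = (1 - BB ε c a ξ ρ ε d) * Phi ε c d (ξ + ε) (ρ + d) := by
  have p1 := eta_pos (c := c) hε
  have p2 := eta_half (c := c) hε
  have hc := cpos c
  have hv := val_le' (-ρ)
  have hv0 : (0 : ℝ) ≤ (-ρ).val := Nat.cast_nonneg _
  unfold Phi
  rw [exp_step (k := fun s => cexp (-(ξ + (-ρ).val) * s) * (1 - cexp (-((c : ℝ) * s)))⁻¹)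
    (hA.2.1 _ _ (gen_adm hε ρ h0 (by linarith)) _ p1 p2).1
    (hA.2.1 _ _ (gen_adm hε (ξ := ξ + ε) (ρ + d) (by simp; linarith) (by simp; linarith))
      _ p1 p2).1
    (fun x => sub2 hε ξ ρ (by rw [line_im]; linarith) (by rw [line_im]; linarith)),
    basic hA.1 hc p1 (by
      have := p2.trans (eta_lt (c := c) hε)
      rw [lt_div_iff₀ hc] at this; linarith)
      (by simp only [add_re, natCast_re]; positivity)
      (by simp only [add_re, natCast_re]; linarith)]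
  congr 2
  have hε' : (ε : ℂ) ≠ 0 := by exact_mod_cast (by linarith : ε ≠ 0)
  rw [BB, mul_right_comm a, had, one_mul, psi_eq, ← ee_add]
  congr 1
  push_cast
  rw [add_div, mul_div_mul_right _ _ hε']

theorem gen_conj (ξ : ℝ) (ρ : ZMod c) (s : ℂ) :
    conj (Gen ε c d ξ ρ s) = Gen ε c d ξ ρ (conj s) := by
  unfold Gen
  simp only [map_mul, map_sum, map_div₀, map_sub, map_one, map_inv₀, ← Complex.exp_conj, map_neg,
    conj_ofReal, map_natCast, ← AddChar.map_neg_eq_conj]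
  congr 1
  refine Fintype.sum_equiv (Equiv.neg _) _ _ fun h => ?_
  simp only [Equiv.neg_apply, neg_mul]

theorem flip_inv {w : ℂ} (hw : w ≠ 0) : (1 - w⁻¹)⁻¹ = -(w * (1 - w)⁻¹) := by
  rw [show 1 - w⁻¹ = -(w⁻¹ * (1 - w)) by field_simp; ring, inv_neg, mul_inv, inv_inv]

theorem gen_refl (ξ : ℂ) (ρ : ZMod c) (s : ℂ) :
    Gen ε c d (1 + ε - ξ) (1 + d - ρ) s = Gen ε c d ξ ρ (-s) := by
  have e3 : cexp (-(1 + ε - ξ) * s) = cexp (-ξ * -s) * (cexp (-s) * cexp (-ε * s)) := by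
    rw [← Complex.exp_add, ← Complex.exp_add]; congr 1; ring
  have hp : ∀ x : ZMod c, ZMod.stdAddChar x ≠ 0 := fun x => by
    rw [psi_eq]; exact Complex.exp_ne_zero _
  unfold Gen
  rw [e3]
  simp only [Finset.mul_sum]
  refine Fintype.sum_equiv (Equiv.neg _) _ _ fun h => ?_
  have a1 : ZMod.stdAddChar (-h) * cexp (- -s) = (ZMod.stdAddChar h * cexp (-s))⁻¹ := by
    rw [mul_inv, AddChar.map_neg_eq_inv, Complex.exp_neg (-s)]
  have a2 : ZMod.stdAddChar (-h * d) * cexp (-ε * -s) =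
      (ZMod.stdAddChar (h * d) * cexp (-ε * s))⁻¹ := by
    rw [mul_inv, neg_mul h, AddChar.map_neg_eq_inv, mul_neg, Complex.exp_neg (-ε * s)]
  rw [Equiv.neg_apply, a1, a2, div_eq_mul_inv, div_eq_mul_inv, mul_inv, mul_inv,
    flip_inv (mul_ne_zero (hp _) (Complex.exp_ne_zero _)),
    flip_inv (mul_ne_zero (hp _) (Complex.exp_ne_zero _)),
    show h * (1 + d - ρ) = -h * ρ + h + h * d by ring, AddChar.map_add_eq_mul,
    AddChar.map_add_eq_mul]
  ring

theorem phi_cnj (ξ : ℝ) (ρ : ZMod c) :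
    Phi ε c d (1 + ε - ξ) (1 + d - ρ) * conj (Phi ε c d ξ ρ) = 1 := by
  have : lineInt (Gen ε c d (1 + ε - ξ) (1 + d - ρ)) (π / (c * ε)) =
      -conj (lineInt (Gen ε c d ξ ρ) (π / (c * ε))) := by
    unfold lineInt
    rw [← integral_conj, ← integral_neg, ← integral_neg_eq_self]
    refine integral_congr_ae (Eventually.of_forall fun x => ?_)
    have e : (((-x : ℝ) : ℂ) - (π / (c * ε) : ℝ) * I) = -conj ((x : ℂ) - (π / (c * ε) : ℝ) * I) := by
      simp only [map_sub, map_mul, conj_ofReal, conj_I, ofReal_neg]; ring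
    simp only [gen_refl, map_div₀, gen_conj, e, neg_neg, div_neg]
  unfold Phi
  rw [this, ← Complex.exp_conj, ← Complex.exp_add, map_neg, neg_neg, add_neg_cancel,
    Complex.exp_zero]

theorem gen_hasSum (hε : 1 < ε) (ξ : ℝ) (ρ : ZMod c) {s : ℂ} (hs : 0 < s.re) :
    HasSum (fun p : {p : ℕ × ℕ // ρ + p.1 + d * p.2 = 0} =>
      cexp (-((ξ + p.1.1 + p.1.2 * ε : ℝ) : ℂ) * s)) (Gen ε c d ξ ρ s) := by
  have n1 : ∀ h : ZMod c, ‖ZMod.stdAddChar h * cexp (-s)‖ < 1 := fun h => by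
    rw [norm_mul, AddChar.norm_apply, one_mul, Complex.norm_exp, Real.exp_lt_one_iff]
    simpa using hs
  have n2 : ∀ h : ZMod c, ‖ZMod.stdAddChar h * cexp (-ε * s)‖ < 1 := fun h => by
    rw [norm_mul, AddChar.norm_apply, one_mul, Complex.norm_exp, Real.exp_lt_one_iff]
    simp; nlinarith
  have h1 := (hasSum_sum (s := Finset.univ) fun (h : ZMod c) _ =>
    ((hasSum_geometric_of_norm_lt_one (n1 h)).mul (hasSum_geometric_of_norm_lt_one (n2 (h * d)))
      (summable_mul_of_summable_norm (summable_norm_geometric_of_norm_lt_one (n1 h))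
        (summable_norm_geometric_of_norm_lt_one (n2 (h * d))))).mul_left
          (ZMod.stdAddChar (h * ρ))).mul_left (cexp (-ξ * s) * (c : ℂ)⁻¹)
  refine (hasSum_subtype_iff_indicator (s := {p : ℕ × ℕ | ρ + p.1 + d * p.2 = 0})
    (f := fun p : ℕ × ℕ => cexp (-((ξ + p.1 + p.2 * ε : ℝ) : ℂ) * s))).2 ?_
  have conv : ∀ {f g : ℕ × ℕ → ℂ} {x y : ℂ}, HasSum f x → g = f → y = x → HasSum g y :=
    fun h e e' => e ▸ e' ▸ h
  refine conv h1 ?_ ?_
  · funext p
    have e : ∀ h : ZMod c, ZMod.stdAddChar (h * ρ) * ((ZMod.stdAddChar h * cexp (-s)) ^ p.1 *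
        (ZMod.stdAddChar (h * d) * cexp (-ε * s)) ^ p.2) =
        ZMod.stdAddChar (h * (ρ + (p.1 : ZMod c) + d * (p.2 : ZMod c))) *
          (cexp (-s) ^ p.1 * cexp (-ε * s) ^ p.2) := by
      intro h
      rw [mul_pow, mul_pow, psi_pow, psi_pow, mul_add, mul_add, AddChar.map_add_eq_mul,
        AddChar.map_add_eq_mul, mul_assoc h d]
      ring
    simp only [e]
    rw [← Finset.sum_mul, mul_assoc, ← mul_assoc (c : ℂ)⁻¹, psi_sum, Set.indicator_apply]
    simp only [Set.mem_ofPred_eq]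
    split_ifs
    · rw [one_mul, ← Complex.exp_nat_mul, ← Complex.exp_nat_mul, ← Complex.exp_add,
        ← Complex.exp_add]
      congr 1; push_cast; ring
    · simp
  · unfold Gen
    simp only [div_eq_mul_inv, mul_inv]

theorem phi_ratio (hA : StmtAN) (hε : 1 < ε) (had : a * d = 1) :
    Phi ε c d 1 1 = ε * Phi ε c d ε d := by
  have hS : IsOpen {ξ : ℂ | 0 < ξ.re ∧ ξ.re < 1 + ε} := (isOpen_lt continuous_const
    continuous_re).inter (isOpen_lt continuous_re continuous_const)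
  have key : ∀ (u : ℝ) (r : ZMod c), 0 < u → u < 1 + ε → HasDerivAt
      (fun t : ℝ => (1 - BB ε c a t 0 u r) * Phi ε c d (t + u) (0 + r))
      (-(2 * π * I * (u / (c * ε))) * Phi ε c d u r) 0 := by
    intro u r h0 h1
    have d1 : HasDerivAt (fun ξ : ℂ => Phi ε c d (ξ + u) (0 + r))
        (deriv (fun ξ => Phi ε c d ξ (0 + r)) (0 + u)) 0 :=
      HasDerivAt.comp_add_const 0 (u : ℂ) (((phi_diff hA.2.2.1 hε (0 + r)).differentiableAt
        (hS.mem_nhds (by simpa using ⟨h0, h1⟩))).hasDerivAt)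
    have d2 : HasDerivAt (fun ξ : ℂ => 1 - BB ε c a ξ 0 u r) (-(2 * π * I * (u / (c * ε)))) 0 := by
      have := (((ee_deriv _).comp (0 : ℂ) (((hasDerivAt_id (0 : ℂ)).mul_const (u : ℂ)).div_const
        (c * ε : ℂ))).mul_const (ZMod.stdAddChar (-(a * 0 * r)))).const_sub 1
      refine HasDerivAt.congr_deriv this ?_
      simp [ee]
    have := (d2.mul d1).comp_ofReal (z := 0)
    refine HasDerivAt.congr_deriv this ?_
    simp [BB, ee]
  have k1 := (key 1 1 one_pos (by linarith)).hasDerivWithinAt (s := Set.Ici 0)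
  have k2 := (key ε d (by linarith) (by linarith)).hasDerivWithinAt (s := Set.Ici 0)
  have k3 := k2.congr_of_eventuallyEq
    (f₁ := fun t : ℝ => (1 - BB ε c a t 0 (1 : ℝ) 1) * Phi ε c d (t + (1 : ℝ)) (0 + 1)) (by
      filter_upwards [Ico_mem_nhdsGE (zero_lt_one (α := ℝ))] with t ht
      rcases ht.1.eq_or_lt with rfl | h
      · simp [BB, ee]
      · rw [← phi_eq2 hA hε had t 0 (by simpa using h) (by simpa using ht.2), ofReal_one,
          ← phi_eq1 hA hε had t 0 (by simpa using h) (by simpa using ht.2.trans hε)])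
    (by simp [BB, ee])
  have := UniqueDiffWithinAt.eq_deriv _ (uniqueDiffWithinAt_Ici 0) k1 k3
  have hc : (c : ℂ) ≠ 0 := Nat.cast_ne_zero.2 (NeZero.ne c)
  have hε' : (ε : ℂ) ≠ 0 := by exact_mod_cast (by linarith : ε ≠ 0)
  have hp : (π : ℂ) ≠ 0 := by exact_mod_cast Real.pi_ne_zero
  rw [ofReal_one] at this
  field_simp at this
  linear_combination -this

end M1

theorem blockM1 (h : StmtAN) : StmtPhi := by
  intro ε n c _ a d H
  have hε := H.one_lt
  refine ⟨M1.phi_diff h.2.2.1 hε, M1.phi_eq1 h hε H.ad, M1.phi_eq2 h hε H.ad, M1.phi_top hε,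
    fun ξ ρ _ _ => M1.phi_cnj ξ ρ, fun ξ ρ h0 h1 => ?_, M1.phi_ratio h hε H.ad⟩
  have hA := M1.gen_adm (d := d) hε (ξ := ξ) ρ (by simpa using h0) (by simpa using h1)
  exact ⟨_, _, hA, fun s _ _ hs => M1.gen_hasSum hε ξ ρ hs, fun η a b =>
    (h.2.1 _ _ hA η a b).2 _ (M1.eta_pos hε) (M1.eta_half hε)⟩

end Pool.Agent.Lib.Stark
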