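import Pool.Agent.Lib.stark.Defs1

open Complex MeasureTheory Filter Topology
open scoped Real ComplexConjugate

namespace Pool.Agent.Lib.Stark

namespace M2

section basic

variable (ε : ℝ) (c : ℕ) [NeZero c] (a : ZMod c)

lemma BB_add (ξ₁ ξ₂ ξ' : ℂ) (ρ₁ ρ₂ ρ' : ZMod c) :
    BB ε c a (ξ₁ + ξ₂) (ρ₁ + ρ₂) ξ' ρ' = BB ε c a ξ₁ ρ₁ ξ' ρ' * BB ε c a ξ₂ ρ₂ ξ' ρ' := by
  unfold BB ee
  have h1 : -(a * (ρ₁ + ρ₂) * ρ') = -(a * ρ₁ * ρ') + -(a * ρ₂ * ρ') := by ring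
  have h2 : 2 * (π : ℂ) * I * ((ξ₁ + ξ₂) * ξ' / (c * ε)) =
      2 * π * I * (ξ₁ * ξ' / (c * ε)) + 2 * π * I * (ξ₂ * ξ' / (c * ε)) := by ring
  rw [h1, h2, Complex.exp_add, AddChar.map_add_eq_mul]
  ring

lemma BB_symm (ξ ξ' : ℂ) (ρ ρ' : ZMod c) : BB ε c a ξ ρ ξ' ρ' = BB ε c a ξ' ρ' ξ ρ := by
  unfold BB
  rw [mul_comm ξ ξ', mul_right_comm a ρ ρ']

lemma BB_zero (ξ' : ℂ) (ρ' : ZMod c) : BB ε c a 0 0 ξ' ρ' = 1 := by
  simp [BB, ee]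

lemma BB_neg_mul (ξ ξ' : ℂ) (ρ ρ' : ZMod c) :
    BB ε c a (-ξ) (-ρ) ξ' ρ' * BB ε c a ξ ρ ξ' ρ' = 1 := by
  rw [← BB_add]; simp [BB_zero]

lemma BB_ne (ξ ξ' : ℂ) (ρ ρ' : ZMod c) : BB ε c a ξ ρ ξ' ρ' ≠ 0 := by
  intro h
  have := BB_neg_mul ε c a ξ ξ' ρ ρ'
  rw [h, mul_zero] at this
  exact zero_ne_one this

lemma BB_diff (ξ' : ℂ) (ρ ρ' : ZMod c) : Differentiable ℂ fun ξ => BB ε c a ξ ρ ξ' ρ' := by
  unfold BB ee
  fun_prop

lemma BB_U (d : ZMod c) (hε : 0 < ε) (had : a * d = 1) : BB ε c a ε d 1 1 = 1 := by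
  unfold BB ee
  have hc : (c : ℂ) ≠ 0 := by exact_mod_cast NeZero.ne c
  have he : (ε : ℂ) ≠ 0 := by exact_mod_cast hε.ne'
  have h1 : -(a * d * 1) = ((-1 : ℤ) : ZMod c) := by rw [had]; simp
  rw [h1, ZMod.stdAddChar_coe, ← Complex.exp_add]
  have : 2 * (π : ℂ) * I * (ε * 1 / (c * ε)) + 2 * π * I * ((-1 : ℤ) : ℂ) / c = 0 := by
    push_cast
    field_simp
    ring
  rw [this, Complex.exp_zero]

end basic

/-- Two entire functions that agree on a vertical strip agree. -/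
lemma strip_ext (f g : ℂ → ℂ) (hf : Differentiable ℂ f) (hg : Differentiable ℂ g) (β : ℝ)
    (hβ : 0 < β) (h : ∀ ξ : ℂ, 0 < ξ.re → ξ.re < β → f ξ = g ξ) (ξ : ℂ) : f ξ = g ξ := by
  have hfa : AnalyticOnNhd ℂ f Set.univ := hf.differentiableOn.analyticOnNhd isOpen_univ
  have hga : AnalyticOnNhd ℂ g Set.univ := hg.differentiableOn.analyticOnNhd isOpen_univ
  have ho : IsOpen {ξ : ℂ | 0 < ξ.re ∧ ξ.re < β} :=
    (isOpen_lt continuous_const Complex.continuous_re).inter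
      (isOpen_lt Complex.continuous_re continuous_const)
  have hm : ((β / 2 : ℝ) : ℂ) ∈ {ξ : ℂ | 0 < ξ.re ∧ ξ.re < β} := by
    simp only [Set.mem_ofPred_eq, Complex.ofReal_re]
    constructor <;> linarith
  have hev : f =ᶠ[𝓝 ((β / 2 : ℝ) : ℂ)] g := by
    filter_upwards [ho.mem_nhds hm] with z hz using h z hz.1 hz.2
  exact congrFun (hfa.eq_of_eventuallyEq hga hev) ξ

section main

variable {ε : ℝ} {n c : ℕ} [NeZero c] {a d : ZMod c}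

/-- The product on the strip. -/
noncomputable def G0 (ε : ℝ) (c : ℕ) [NeZero c] (d : ZMod c) (ξ : ℂ) (ρ : ZMod c) : ℂ :=
  Phi ε c d ξ ρ * Phi ε c d (1 + ε - ξ) (1 + d - ρ)

lemma G0_symm (ξ : ℂ) (ρ : ZMod c) : G0 ε c d (1 + ε - ξ) (1 + d - ρ) = G0 ε c d ξ ρ := by
  unfold G0
  rw [sub_sub_cancel, sub_sub_cancel, mul_comm]

lemma G0_ne (ξ : ℂ) (ρ : ZMod c) : G0 ε c d ξ ρ ≠ 0 :=
  mul_ne_zero (Complex.exp_ne_zero _) (Complex.exp_ne_zero _)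

lemma G0_diff (P : PhiProp ε c a d) (ρ : ZMod c) :
    DifferentiableOn ℂ (fun ξ => G0 ε c d ξ ρ) {ξ | 0 < ξ.re ∧ ξ.re < 1 + ε} := by
  unfold G0
  refine (P.diff ρ).mul ?_
  refine (P.diff (1 + d - ρ)).comp (f := fun ξ : ℂ => 1 + ε - ξ) (by fun_prop) ?_
  intro ξ hξ
  simp only [Set.mem_ofPred_eq, Complex.sub_re, Complex.add_re, Complex.one_re,
    Complex.ofReal_re] at hξ ⊢
  constructor <;> linarith [hξ.1, hξ.2]

lemma G0_eq1 (H : Hyp ε n c a d) (P : PhiProp ε c a d) (ξ : ℂ) (ρ : ZMod c) (h0 : 0 < ξ.re)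
    (h1 : ξ.re < ε) : G0 ε c d ξ ρ = -BB ε c a ξ ρ 1 1 * G0 ε c d (ξ + 1) (ρ + 1) := by
  have hε : 0 < ε := lt_trans one_pos H.one_lt
  have e1 := P.eq1 ξ ρ h0 h1
  have e2 := P.eq1 (ε - ξ) (d - ρ) (by simp; linarith) (by simp; linarith)
  have e3 : BB ε c a (ε - ξ) (d - ρ) 1 1 * BB ε c a ξ ρ 1 1 = 1 := by
    rw [← BB_add, sub_add_cancel, sub_add_cancel, BB_U ε c a d hε H.ad]
  unfold G0
  have a1 : (1 : ℂ) + ε - (ξ + 1) = ε - ξ := by ring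
  have a2 : (1 : ZMod c) + d - (ρ + 1) = d - ρ := by ring
  have a3 : (ε : ℂ) - ξ + 1 = 1 + ε - ξ := by ring
  have a4 : d - ρ + 1 = 1 + d - ρ := by ring
  rw [a1, a2, e2, a3, a4, e1]
  linear_combination (-(Phi ε c d (ξ + 1) (ρ + 1) * Phi ε c d (1 + ε - ξ) (1 + d - ρ))) * e3

lemma G0_eq2 (H : Hyp ε n c a d) (P : PhiProp ε c a d) (ξ : ℂ) (ρ : ZMod c) (h0 : 0 < ξ.re)
    (h1 : ξ.re < 1) : G0 ε c d ξ ρ = -BB ε c a ξ ρ ε d * G0 ε c d (ξ + ε) (ρ + d) := by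
  have hε : 0 < ε := lt_trans one_pos H.one_lt
  have e1 := P.eq2 ξ ρ h0 h1
  have e2 := P.eq2 (1 - ξ) (1 - ρ) (by simp; linarith) (by simp; linarith)
  have e3 : BB ε c a (1 - ξ) (1 - ρ) ε d * BB ε c a ξ ρ ε d = 1 := by
    rw [← BB_add, sub_add_cancel, sub_add_cancel, BB_symm, BB_U ε c a d hε H.ad]
  unfold G0
  have a1 : (1 : ℂ) + ε - (ξ + ε) = 1 - ξ := by ring
  have a2 : (1 : ZMod c) + d - (ρ + d) = 1 - ρ := by ring
  have a3 : (1 : ℂ) - ξ + ε = 1 + ε - ξ := by ring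
  have a4 : 1 - ρ + d = 1 + d - ρ := by ring
  rw [a1, a2, e2, a3, a4, e1]
  linear_combination (-(Phi ε c d (ξ + ε) (ρ + d) * Phi ε c d (1 + ε - ξ) (1 + d - ρ))) * e3

lemma exists_entire (hE : StmtExt) (H : Hyp ε n c a d) (P : PhiProp ε c a d) :
    ∃ Γ : ℂ → ZMod c → ℂ, (∀ ρ, Differentiable ℂ fun ξ => Γ ξ ρ) ∧
      ∀ ξ ρ, 0 < ξ.re → ξ.re < 1 + ε → Γ ξ ρ = G0 ε c d ξ ρ := by
  have hε : 0 < ε := lt_trans one_pos H.one_lt
  obtain ⟨E, hd, he, -⟩ := hE c (G0 ε c d) (fun ξ ρ => -BB ε c a ξ ρ 1 1) 0 (1 + ε)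
    (by linarith) (G0_diff P) (fun ρ => (BB_diff ε c a 1 ρ 1).neg)
    (fun ξ ρ h0 h1 => G0_eq1 H P ξ ρ h0 (by linarith))
  refine ⟨fun ξ ρ => if ξ.re < 1 + ε then E ξ ρ else E (1 + ε - ξ) (1 + d - ρ), ?_, ?_⟩
  · intro ρ ξ
    by_cases hξ : ξ.re < 1 + ε
    · have ho : IsOpen {ξ : ℂ | ξ.re < 1 + ε} := isOpen_lt Complex.continuous_re continuous_const
      have h1 : DifferentiableAt ℂ (fun ξ => E ξ ρ) ξ :=
        (hd ρ).differentiableAt (ho.mem_nhds hξ)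
      refine h1.congr_of_eventuallyEq ?_
      filter_upwards [ho.mem_nhds hξ] with z hz
      exact if_pos hz
    · have ho : IsOpen {ξ : ℂ | 0 < ξ.re} := isOpen_lt continuous_const Complex.continuous_re
      have ho' : IsOpen {ξ : ℂ | ξ.re < 1 + ε} := isOpen_lt Complex.continuous_re continuous_const
      have hξ0 : 0 < ξ.re := by linarith [not_lt.mp hξ]
      have h0 : DifferentiableAt ℂ (fun ξ => E ξ (1 + d - ρ)) (1 + ε - ξ) :=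
        (hd _).differentiableAt (ho'.mem_nhds (by simp; linarith))
      have h1 : DifferentiableAt ℂ (fun ξ : ℂ => E (1 + ε - ξ) (1 + d - ρ)) ξ :=
        h0.comp ξ (f := fun ξ : ℂ => 1 + ε - ξ) (by fun_prop)
      refine h1.congr_of_eventuallyEq ?_
      filter_upwards [ho.mem_nhds hξ0] with z hz
      split_ifs with hz'
      · have hz0 : 0 < z.re := hz
        rw [he z ρ hz0 hz', he _ _ (by simp; linarith) (by simp; linarith), G0_symm]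
      · rfl
  · intro ξ ρ h0 h1
    simp only [if_pos h1]
    exact he ξ ρ h0 h1

theorem gam (hE : StmtExt) (hP : StmtPer) (H : Hyp ε n c a d) (P : PhiProp ε c a d) :
    GamProp ε c a d := by
  have hε : 0 < ε := lt_trans one_pos H.one_lt
  obtain ⟨Γ, hd, he⟩ := exists_entire hE H P
  have sh : ∀ (w : ℂ) (ρ : ZMod c), Differentiable ℂ fun ξ => Γ (ξ + w) ρ := fun w ρ =>
    (hd ρ).comp (f := fun ξ : ℂ => ξ + w) (by fun_prop)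
  have f1 : ∀ ξ ρ, Γ ξ ρ = -BB ε c a ξ ρ 1 1 * Γ (ξ + 1) (ρ + 1) := by
    intro ξ ρ
    refine strip_ext (fun ξ => Γ ξ ρ) (fun ξ => -BB ε c a ξ ρ 1 1 * Γ (ξ + 1) (ρ + 1)) (hd ρ)
      ((BB_diff ε c a 1 ρ 1).neg.mul (sh 1 _)) ε hε ?_ ξ
    intro z h0 h1
    rw [he z ρ h0 (by linarith), he (z + 1) _ (by simp; linarith) (by simp; linarith)]
    exact G0_eq1 H P z ρ h0 h1
  have f2 : ∀ ξ ρ, Γ ξ ρ = -BB ε c a ξ ρ ε d * Γ (ξ + ε) (ρ + d) := by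
    intro ξ ρ
    refine strip_ext (fun ξ => Γ ξ ρ) (fun ξ => -BB ε c a ξ ρ ε d * Γ (ξ + ε) (ρ + d)) (hd ρ)
      ((BB_diff ε c a ε ρ d).neg.mul (sh ε _)) 1 one_pos ?_ ξ
    intro z h0 h1
    rw [he z ρ h0 (by linarith), he (z + ε) _ (by simp; linarith) (by simp; linarith)]
    exact G0_eq2 H P z ρ h0 h1
  have hne : ∀ ξ ρ, Γ ξ ρ ≠ 0 := by
    have key : ∀ k : ℤ, ∀ ξ : ℂ, ∀ ρ, 0 < ξ.re + k → ξ.re + k < 1 + ε → Γ ξ ρ ≠ 0 := by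
      intro k
      induction k using Int.induction_on with
      | zero =>
        intro ξ ρ h0 h1
        rw [he ξ ρ (by simpa using h0) (by simpa using h1)]
        exact G0_ne ξ ρ
      | succ k ih =>
        intro ξ ρ h0 h1
        rw [f1]
        refine mul_ne_zero (neg_ne_zero.mpr (BB_ne ε c a _ _ _ _)) (ih _ _ ?_ ?_)
        · push_cast at h0 ⊢; simp; linarith
        · push_cast at h1 ⊢; simp; linarith
      | pred k ih =>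
        intro ξ ρ h0 h1 hz
        have h := f1 (ξ - 1) (ρ - 1)
        rw [sub_add_cancel, sub_add_cancel, hz, mul_zero] at h
        refine ih (ξ - 1) (ρ - 1) ?_ ?_ h
        · push_cast at h0 ⊢; simp; linarith
        · push_cast at h1 ⊢; simp; linarith
    intro ξ ρ
    refine key (1 - ⌈ξ.re⌉) ξ ρ ?_ ?_
    · push_cast; linarith [Int.ceil_lt_add_one ξ.re]
    · push_cast; linarith [Int.le_ceil ξ.re]
  refine ⟨Γ, hd, hne, he, f1, f2, ?_⟩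
  intro ξ' ρ'
  set f : ℂ → ZMod c → ℂ := fun ξ ρ => Γ (ξ + ξ') (ρ + ρ') * BB ε c a ξ ρ ξ' ρ' / Γ ξ ρ with hf
  have inv : ∀ (w : ℂ) (σ : ZMod c), (∀ ξ ρ, Γ ξ ρ = -BB ε c a ξ ρ w σ * Γ (ξ + w) (ρ + σ)) →
      ∀ ξ ρ, f ξ ρ = f (ξ + w) (ρ + σ) := by
    intro w σ hw ξ ρ
    simp only [hf]
    have n1 := hne (ξ + w) (ρ + σ)
    have n2 := BB_ne ε c a ξ w ρ σ
    rw [hw ξ ρ, hw (ξ + ξ') (ρ + ρ'), BB_add, BB_add, BB_symm ε c a w ξ' σ ρ',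
      add_right_comm ξ w ξ', add_right_comm ρ σ ρ']
    field_simp
  refine ⟨f 0 0, fun ξ ρ => ?_⟩
  have hper := hP c d ε f (-|ξ.re| - 1) (|ξ.re| + ε) H.one_lt H.irr
    (by linarith [abs_nonneg ξ.re])
    (fun ρ => (((sh ξ' _).mul (BB_diff ε c a ξ' ρ ρ')).div (hd ρ)
      (fun ξ => hne ξ ρ)).differentiableOn)
    (fun ξ ρ _ _ => inv 1 1 f1 ξ ρ) (fun ξ ρ _ _ => inv ε d f2 ξ ρ) ξ ρ 0 0
    (by linarith [neg_abs_le ξ.re]) (by linarith [le_abs_self ξ.re])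
    (by simp; linarith [abs_nonneg ξ.re]) (by simp; linarith [abs_nonneg ξ.re])
  rw [← hper]
  simp only [hf]
  have := hne ξ ρ
  field_simp

end main

end M2

theorem blockM2 (h : StmtAN) (h1 : StmtPhi) : StmtGam :=
  fun ε n c _ a d H => M2.gam h.2.2.2.1 h.2.2.2.2 H (h1 ε n c a d H)

end Pool.Agent.Lib.Stark
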