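import Pool.Agent.Lib.stark.Defs1

open Complex MeasureTheory Filter Topology
open scoped Real

namespace Pool.Agent.Lib.Stark

namespace M3

lemma integrable_exp_abs {m : ℝ} (hm : 0 < m) : Integrable fun t : ℝ => Real.exp (-m * |t|) := by
  rw [← integrableOn_univ, ← Set.Iic_union_Ioi (a := (0 : ℝ))]
  refine IntegrableOn.union ?_ ?_
  · refine (integrableOn_exp_mul_Iic hm 0).congr_fun (fun t ht => ?_) measurableSet_Iic
    simp only [abs_of_nonpos (Set.mem_Iic.1 ht)]; ring_nf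
  · refine (exp_neg_integrableOn_Ioi 0 hm).congr_fun (fun t ht => ?_) measurableSet_Ioi
    simp only [abs_of_pos (Set.mem_Ioi.1 ht)]

lemma continuous_line {f : ℂ → ℂ} {x₁ x₂ x : ℝ} (h1 : x₁ ≤ x) (h2 : x ≤ x₂)
    (hd : DifferentiableOn ℂ f {z | x₁ ≤ z.re ∧ z.re ≤ x₂}) :
    Continuous fun t : ℝ => f (x + t * I) :=
  hd.continuousOn.comp_continuous (by fun_prop) fun t => by simp [h1, h2]

/-- Contour shift between two vertical lines, with a limit `L` at the top. -/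
lemma vert_shift {f : ℂ → ℂ} {x₁ x₂ K m : ℝ} {L : ℂ} (hx : x₁ ≤ x₂) (hm : 0 < m)
    (hd : DifferentiableOn ℂ f {z | x₁ ≤ z.re ∧ z.re ≤ x₂})
    (hb : ∀ z : ℂ, x₁ ≤ z.re → z.re ≤ x₂ →
      ‖f z - if 0 ≤ z.im then L else 0‖ ≤ K * Real.exp (-m * |z.im|)) :
    I * ∫ t : ℝ, (f (x₂ + t * I) - f (x₁ + t * I)) = L * (x₂ - x₁) := by
  have c1 := continuous_line le_rfl hx hd
  have c2 := continuous_line hx le_rfl hd
  have hi : Integrable fun t : ℝ => f (x₂ + t * I) - f (x₁ + t * I) := by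
    refine ((integrable_exp_abs hm).const_mul (2 * K)).mono' (c2.sub c1).aestronglyMeasurable
      (Eventually.of_forall fun t => ?_)
    have h1 := hb (x₁ + t * I) (by simp) (by simpa using hx)
    have h2 := hb (x₂ + t * I) (by simpa using hx) (by simp)
    simp only [add_im, ofReal_im, mul_im, ofReal_re, I_im, mul_one, I_re, mul_zero, add_zero,
      zero_add] at h1 h2
    rw [← sub_sub_sub_cancel_right _ _ (if 0 ≤ t then L else 0)]
    refine (norm_sub_le _ _).trans ?_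
    linarith
  have t1 := (intervalIntegral_tendsto_integral hi tendsto_neg_atTop_atBot tendsto_id).const_mul I
  have hc : ∀ s : ℝ, IntervalIntegrable (fun x : ℝ => f (x + s * I)) volume x₁ x₂ := fun s => by
    refine ContinuousOn.intervalIntegrable (hd.continuousOn.comp (by fun_prop) fun x hx' => ?_)
    rw [Set.uIcc_of_le hx] at hx'
    simpa using hx'
  have t0 : Tendsto (fun R : ℝ => K * Real.exp (-m * R) * |x₂ - x₁|) atTop (𝓝 0) := by
    have := ((Real.tendsto_exp_atBot.comp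
      (tendsto_id.const_mul_atTop_of_neg (neg_neg_of_pos hm))).const_mul K).mul_const |x₂ - x₁|
    simpa using this
  have t2 : Tendsto (fun R : ℝ => ∫ x in x₁..x₂, f (x + R * I)) atTop (𝓝 (L * (x₂ - x₁))) := by
    rw [tendsto_iff_norm_sub_tendsto_zero]
    refine squeeze_zero' (Eventually.of_forall fun _ => norm_nonneg _) ?_ t0
    filter_upwards [eventually_ge_atTop 0] with R hR
    have : (∫ x in x₁..x₂, f (x + R * I)) - L * (x₂ - x₁) = ∫ x in x₁..x₂, (f (x + R * I) - L) := by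
      rw [intervalIntegral.integral_sub (hc R) intervalIntegrable_const]
      simp [mul_comm]
    rw [this]
    refine intervalIntegral.norm_integral_le_of_norm_le_const fun x hx' => ?_
    rw [Set.uIoc_of_le hx] at hx'
    simpa [hR, abs_of_nonneg hR] using hb (x + R * I) (by simpa using hx'.1.le) (by simpa using hx'.2)
  have t3 : Tendsto (fun R : ℝ => ∫ x in x₁..x₂, f (x + (-R : ℝ) * I)) atTop (𝓝 0) := by
    rw [tendsto_zero_iff_norm_tendsto_zero]
    refine squeeze_zero' (Eventually.of_forall fun _ => norm_nonneg _) ?_ t0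
    filter_upwards [eventually_gt_atTop 0] with R hR
    refine intervalIntegral.norm_integral_le_of_norm_le_const fun x hx' => ?_
    rw [Set.uIoc_of_le hx] at hx'
    simpa [hR.not_ge, abs_of_pos hR] using hb (x + (-R : ℝ) * I) (by simpa using hx'.1.le)
      (by simpa using hx'.2)
  have t4 := t2.sub t3
  rw [sub_zero] at t4
  refine tendsto_nhds_unique t1 (t4.congr fun R => ?_)
  have h := integral_boundary_rect_eq_zero_of_differentiableOn f (x₁ + (-R : ℝ) * I) (x₂ + R * I)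
    (hd.mono fun z hz => by
      have := hz.1
      simp only [add_re, ofReal_re, mul_re, I_re, mul_zero, ofReal_im, I_im, mul_one, sub_self,
        add_zero, Set.uIcc_of_le hx] at this
      exact this)
  simp only [add_re, ofReal_re, mul_re, I_re, mul_zero, ofReal_im, I_im, mul_one, sub_self,
    add_zero, add_im, mul_im, zero_add, smul_eq_mul] at h
  rw [id, intervalIntegral.integral_sub (c2.intervalIntegrable _ _) (c1.intervalIntegrable _ _)]
  linear_combination -h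

variable {ε : ℝ} {c : ℕ} [NeZero c] {a d : ZMod c}

lemma BB_comm (ξ ξ' : ℂ) (ρ ρ' : ZMod c) : BB ε c a ξ ρ ξ' ρ' = BB ε c a ξ' ρ' ξ ρ := by
  simp only [BB, mul_comm ξ, mul_right_comm a]

lemma BB_add_left (ξ η ξ' : ℂ) (ρ σ ρ' : ZMod c) :
    BB ε c a (ξ + η) (ρ + σ) ξ' ρ' = BB ε c a ξ ρ ξ' ρ' * BB ε c a η σ ξ' ρ' := by
  simp only [BB, ee]
  rw [mul_mul_mul_comm, ← Complex.exp_add, ← AddChar.map_add_eq_mul]
  congr 2 <;> ring

lemma BB_add_right (ξ η ξ' : ℂ) (ρ σ ρ' : ZMod c) :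
    BB ε c a ξ' ρ' (ξ + η) (ρ + σ) = BB ε c a ξ' ρ' ξ ρ * BB ε c a ξ' ρ' η σ := by
  rw [BB_comm, BB_add_left, BB_comm ξ, BB_comm η]

lemma BB_zero_left (ξ' : ℂ) (ρ' : ZMod c) : BB ε c a 0 0 ξ' ρ' = 1 := by simp [BB, ee]

lemma BB_sub_left (ξ η ξ' : ℂ) (ρ σ ρ' : ZMod c) :
    BB ε c a (ξ - η) (ρ - σ) ξ' ρ' * BB ε c a η σ ξ' ρ' = BB ε c a ξ ρ ξ' ρ' := by
  rw [← BB_add_left, sub_add_cancel, sub_add_cancel]

lemma norm_BB (ξ ξ' : ℂ) (ρ ρ' : ZMod c) :
    ‖BB ε c a ξ ρ ξ' ρ'‖ = Real.exp (-(2 * π / (c * ε)) * (ξ.re * ξ'.im + ξ.im * ξ'.re)) := by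
  rw [BB, ee, norm_mul, AddChar.norm_apply, mul_one, Complex.norm_exp]
  congr 1
  have : 2 * π * I * (ξ * ξ' / (c * ε)) = ((2 * π / (c * ε) : ℝ) : ℂ) * (I * (ξ * ξ')) := by
    push_cast; ring
  rw [this, re_ofReal_mul]
  simp only [mul_re, I_re, zero_mul, I_im, mul_im, one_mul, zero_sub]; ring

lemma BB_ne_zero (ξ ξ' : ℂ) (ρ ρ' : ZMod c) : BB ε c a ξ ρ ξ' ρ' ≠ 0 := by
  rw [← norm_pos_iff, norm_BB]; exact Real.exp_pos _

lemma BB_one (hε : 1 < ε) (had : a * d = 1) : BB ε c a 1 1 ε d = 1 := by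
  have h1 : (ε : ℂ) ≠ 0 := ofReal_ne_zero.2 (by linarith)
  have h2 : (c : ℂ) ≠ 0 := Nat.cast_ne_zero.2 (NeZero.ne c)
  have h3 : -(a * 1 * d) = ((-1 : ℤ) : ZMod c) := by rw [mul_one, had]; simp
  rw [BB, ee, h3, ZMod.stdAddChar_coe, ← Complex.exp_add]
  convert Complex.exp_zero using 2
  push_cast; field_simp; ring

lemma diff_BB (ξ' : ℂ) (ρ ρ' : ZMod c) : Differentiable ℂ fun ξ => BB ε c a ξ ρ ξ' ρ' := by
  simp only [BB, ee]; fun_prop

lemma diff_BB' (ξ : ℂ) (ρ ρ' : ZMod c) : Differentiable ℂ fun ξ' => BB ε c a ξ ρ ξ' ρ' := by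
  simp only [BB, ee]; fun_prop

lemma Phi_ne (ξ : ℂ) (ρ : ZMod c) : Phi ε c d ξ ρ ≠ 0 := Complex.exp_ne_zero _

lemma lam_pos (hε : 1 < ε) : 0 < 2 * π / (c * ε) := by
  have : (0 : ℝ) < c := Nat.cast_pos.2 (NeZero.pos c)
  have := Real.pi_pos
  positivity

lemma bound_top (hP : PhiProp ε c a d) {α β y : ℝ} (hα : 0 < α) (hy : 0 ≤ y)
    (hβ : β + y < 1 + ε) : ∃ K δ : ℝ, 0 < δ ∧ ∀ (ξ : ℂ) (ρ ρy : ZMod c), α ≤ ξ.re → ξ.re ≤ β →
      0 ≤ ξ.im → ‖Phi ε c d (ξ + y) (ρ + ρy) / Phi ε c d ξ ρ - 1‖ ≤ K * Real.exp (-δ * ξ.im) ∧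
        ‖Phi ε c d (ξ + y) (ρ + ρy) / Phi ε c d ξ ρ‖ ≤ K := by
  obtain ⟨C, δ, hδ, h⟩ := hP.top α (β + y) hα hβ
  refine ⟨C ^ 2 + 2 * C + 1, δ, hδ, fun ξ ρ ρy h1 h2 h3 => ?_⟩
  have h4 := (h (ξ + y) (ρ + ρy) (by simp; linarith) (by simpa using h2) (by simpa using h3)).1
  have h5 := (h ξ ρ h1 (by linarith) h3).2
  simp only [add_im, ofReal_im, add_zero] at h4
  have e0 := Real.exp_pos (-δ * ξ.im)
  have e1 : Real.exp (-δ * ξ.im) ≤ 1 := Real.exp_le_one_iff.2 (by nlinarith)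
  set e := Real.exp (-δ * ξ.im)
  have hC : 0 ≤ C := nonneg_of_mul_nonneg_left ((norm_nonneg _).trans h4) e0
  set p := Phi ε c d (ξ + y) (ρ + ρy)
  set q := (Phi ε c d ξ ρ)⁻¹
  have h6 : ‖p * q - 1‖ ≤ (C ^ 2 + 2 * C) * e := by
    rw [show p * q - 1 = (p - 1) * (q - 1) + (p - 1) + (q - 1) by ring]
    refine (norm_add₃_le).trans ?_
    rw [norm_mul]
    have h7 := mul_le_mul h4 h5 (norm_nonneg _) (by positivity)
    have h8 : C * e * (C * e) ≤ C ^ 2 * e := by
      rw [show C * e * (C * e) = C ^ 2 * e * e by ring]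
      exact mul_le_of_le_one_right (by positivity) e1
    linarith
  rw [div_eq_mul_inv]
  refine ⟨h6.trans (by nlinarith), ?_⟩
  have h7 : (C ^ 2 + 2 * C) * e ≤ C ^ 2 + 2 * C := mul_le_of_le_one_right (by positivity) e1
  have h8 := norm_add_le (p * q - 1) 1
  rw [sub_add_cancel, norm_one] at h8
  linarith

lemma bound_bot (hP : PhiProp ε c a d) (hG : GamProp ε c a d) {α β y : ℝ} (hα : 0 < α)
    (hy : 0 ≤ y) (hβ : β + y < 1 + ε) (ρy : ZMod c) : ∃ K : ℝ, ∀ (ξ : ℂ) (ρ : ZMod c), α ≤ ξ.re →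
      ξ.re ≤ β → ξ.im ≤ 0 → ‖Phi ε c d (ξ + y) (ρ + ρy) / Phi ε c d ξ ρ‖ ≤
        K * Real.exp (2 * π / (c * ε) * (ξ.im * y)) := by
  obtain ⟨Γ, -, -, h1, -, -, h2⟩ := hG
  obtain ⟨κ, hκ⟩ := h2 y ρy
  obtain ⟨K, δ, -, h⟩ := bound_top hP (α := 1 + ε - β - y) (β := 1 + ε - α - y) (by linarith) hy
    (by linarith)
  refine ⟨‖κ‖ * K, fun ξ ρ h3 h4 h5 => ?_⟩
  have h6 := (h (1 + ε - (ξ + y)) (1 + d - (ρ + ρy)) ρy (by simp; linarith) (by simp; linarith)
    (by simpa using h5)).2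
  have h7 := hκ ξ ρ
  rw [h1 ξ ρ (by linarith) (by linarith), h1 (ξ + y) _ (by simp; linarith) (by simp; linarith)] at h7
  rw [show (1 : ℂ) + ε - (ξ + y) + y = 1 + ε - ξ by ring,
    show 1 + d - (ρ + ρy) + ρy = 1 + d - ρ by ring] at h6
  have h8 : Phi ε c d (ξ + y) (ρ + ρy) / Phi ε c d ξ ρ = κ * (Phi ε c d (1 + ε - ξ) (1 + d - ρ) /
      Phi ε c d (1 + ε - (ξ + y)) (1 + d - (ρ + ρy))) * (BB ε c a ξ ρ y ρy)⁻¹ := by
    have := Phi_ne (ε := ε) (d := d) ξ ρ
    have := Phi_ne (ε := ε) (d := d) (1 + ε - (ξ + y)) (1 + d - (ρ + ρy))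
    have := BB_ne_zero (ε := ε) (a := a) ξ y ρ ρy
    field_simp
    linear_combination h7
  rw [h8, norm_mul, norm_mul, norm_inv, norm_BB, ← Real.exp_neg]
  simp only [ofReal_im, mul_zero, zero_add, ofReal_re, neg_mul, neg_neg]
  gcongr

variable (ε c a d) in
/-- The integrand. -/
noncomputable def ig (y : ℝ) (ρy : ZMod c) (u : ℂ) (ρu ρ : ZMod c) (ξ : ℂ) : ℂ :=
  Phi ε c d (ξ + y) (ρ + ρy) / Phi ε c d ξ ρ * BB ε c a ξ ρ u ρu

variable (ε c a d) in
/-- The Fourier transform. -/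
noncomputable def HH (x y : ℝ) (ρy : ZMod c) (u : ℂ) (ρu : ZMod c) : ℂ :=
  I * ∑ ρ, ∫ t : ℝ, ig ε c a d y ρy u ρu ρ (x + t * I)

lemma diff_ig (hP : PhiProp ε c a d) {α β y : ℝ} (hα : 0 < α) (hy : 0 ≤ y) (hβ : β + y < 1 + ε)
    (ρy : ZMod c) (u : ℂ) (ρu ρ : ZMod c) :
    DifferentiableOn ℂ (ig ε c a d y ρy u ρu ρ) {z | α ≤ z.re ∧ z.re ≤ β} := by
  refine DifferentiableOn.mul (DifferentiableOn.div ?_ ?_ fun _ _ => Phi_ne _ _)
    (diff_BB _ _ _).differentiableOn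
  · refine (hP.diff (ρ + ρy)).comp (f := fun ξ : ℂ => ξ + y) (by fun_prop) fun z hz => ?_
    simp only [Set.mem_ofPred_eq, add_re, ofReal_re] at hz ⊢
    constructor <;> linarith [hz.1, hz.2]
  · exact (hP.diff ρ).mono fun z hz => ⟨by linarith [hz.1], by linarith [hz.2]⟩

lemma bound_ig (hε : 1 < ε) (hP : PhiProp ε c a d) (hG : GamProp ε c a d) {α β y : ℝ}
    (hα : 0 < α) (hy : 0 ≤ y) (hβ : β + y < 1 + ε) (ρy : ZMod c) (R : ℝ) :
    ∃ K : ℝ, ∀ (m : ℝ) (u : ℂ) (ρu ρ : ZMod c) (ξ : ℂ), m ≤ u.re → u.re + m ≤ y → |u.im| ≤ R →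
      α ≤ ξ.re → ξ.re ≤ β →
      ‖ig ε c a d y ρy u ρu ρ ξ‖ ≤ K * Real.exp (-(2 * π / (c * ε) * m) * |ξ.im|) := by
  obtain ⟨K₁, δ, -, h1⟩ := bound_top hP hα hy hβ
  obtain ⟨K₂, h2⟩ := bound_bot hP hG hα hy hβ ρy
  have hl := lam_pos (c := c) hε
  set l := 2 * π / (c * ε) with hl'
  refine ⟨max (max K₁ K₂) 0 * Real.exp (l * (β * R)), fun m u ρu ρ ξ h3 h4 h5 h6 h7 => ?_⟩
  have h8 : -(ξ.re * u.im) ≤ β * R := by
    have h9 := neg_abs_le u.im
    have h10 := abs_nonneg u.im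
    nlinarith
  rw [ig, norm_mul, norm_BB, ← hl', mul_assoc, ← Real.exp_add]
  rcases le_total 0 ξ.im with h | h
  · refine mul_le_mul ((h1 ξ ρ ρy h6 h7 h).2.trans (le_max_of_le_left (le_max_left _ _)))
      (Real.exp_le_exp.2 ?_) (Real.exp_pos _).le (le_max_right _ _)
    rw [abs_of_nonneg h]
    have h9 := mul_le_mul_of_nonneg_left h3 h
    nlinarith
  · refine (mul_le_mul_of_nonneg_right (h2 ξ ρ h6 h7 h) (Real.exp_pos _).le).trans ?_
    rw [mul_assoc, ← Real.exp_add]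
    refine mul_le_mul (le_max_of_le_left (le_max_right _ _))
      (Real.exp_le_exp.2 ?_) (Real.exp_pos _).le (le_max_right _ _)
    rw [abs_of_nonpos h]
    have h9 := mul_le_mul_of_nonneg_left h4 (neg_nonneg.2 h)
    nlinarith

section main
variable (hε : 1 < ε) (hP : PhiProp ε c a d) (hG : GamProp ε c a d)
include hε hP hG

lemma int_ig {x y : ℝ} {u : ℂ} (hx : 0 < x) (hxy : x + y < 1 + ε) (hu : 0 < u.re) (huy : u.re < y)
    (ρy ρu ρ : ZMod c) : Integrable fun t : ℝ => ig ε c a d y ρy u ρu ρ (x + t * I) := by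
  obtain ⟨K, hK⟩ := bound_ig hε hP hG hx (by linarith) hxy ρy |u.im|
  have hm : 0 < min u.re (y - u.re) := lt_min hu (by linarith)
  refine ((integrable_exp_abs (mul_pos (lam_pos (c := c) hε) hm)).const_mul K).mono'
    (continuous_line le_rfl le_rfl (diff_ig hP hx (by linarith) hxy ρy u ρu ρ)).aestronglyMeasurable
    (Eventually.of_forall fun t => ?_)
  simpa using hK _ u ρu ρ (x + t * I) (min_le_left _ _) (by linarith [min_le_right u.re (y - u.re)])
    le_rfl (by simp) (by simp)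

lemma HH_shift {x x' y : ℝ} {u : ℂ} (hx : 0 < x) (hxx : x ≤ x') (hxy : x' + y < 1 + ε)
    (hu : 0 < u.re) (huy : u.re < y) (ρy ρu : ZMod c) :
    HH ε c a d x y ρy u ρu = HH ε c a d x' y ρy u ρu := by
  obtain ⟨K, hK⟩ := bound_ig hε hP hG hx (by linarith) hxy ρy |u.im|
  have hm : 0 < min u.re (y - u.re) := lt_min hu (by linarith)
  simp only [HH]
  congr 1
  refine Finset.sum_congr rfl fun ρ _ => ?_
  have h := vert_shift (L := 0) (K := K) hxx (mul_pos (lam_pos (c := c) hε) hm)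
    (diff_ig hP hx (by linarith) hxy ρy u ρu ρ) fun z h1 h2 => by
      simpa using hK _ u ρu ρ z (min_le_left _ _) (by linarith [min_le_right u.re (y - u.re)])
        le_rfl h1 h2
  rw [integral_sub (int_ig hε hP hG (by linarith) hxy hu huy ρy ρu ρ)
    (int_ig hε hP hG hx (by linarith) hu huy ρy ρu ρ), zero_mul, mul_eq_zero, sub_eq_zero] at h
  exact (h.resolve_left I_ne_zero).symm

lemma diff_HH (hI : StmtHolInt) {x y : ℝ} (hx : 0 < x) (hxy : x + y < 1 + ε) (ρy ρu : ZMod c) :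
    DifferentiableOn ℂ (fun u => HH ε c a d x y ρy u ρu) {u | 0 < u.re ∧ u.re < y} := by
  intro u hu
  have hy : 0 ≤ y := by linarith [hu.1, hu.2]
  obtain ⟨K, hK⟩ := bound_ig hε hP hG hx hy hxy ρy (|u.im| + 1)
  have hm : 0 < min u.re (y - u.re) / 2 := half_pos (lt_min hu.1 (by linarith [hu.2]))
  have h1 := min_le_left u.re (y - u.re)
  have h2 := min_le_right u.re (y - u.re)
  set m := min u.re (y - u.re) / 2 with hm'
  have hU : IsOpen {v : ℂ | m < v.re ∧ v.re + m < y ∧ |v.im| < |u.im| + 1} :=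
    IsOpen.and (isOpen_lt (by fun_prop) (by fun_prop)) (IsOpen.and
      (isOpen_lt (by fun_prop) (by fun_prop)) (isOpen_lt (by fun_prop) (by fun_prop)))
  refine DifferentiableAt.differentiableWithinAt (DifferentiableAt.const_mul
    (DifferentiableAt.fun_sum fun ρ _ => ?_) I)
  refine (hI volume (fun v t => ig ε c a d y ρy v ρu ρ (x + t * I)) _ _ hU
    ((integrable_exp_abs (mul_pos (lam_pos (c := c) hε) hm)).const_mul K) (fun v _ => ?_)
    (Eventually.of_forall fun t => ?_) (Eventually.of_forall fun t v hv => ?_)).differentiableAt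
    (hU.mem_nhds ⟨by linarith, by linarith, by linarith⟩)
  · exact (continuous_line le_rfl le_rfl (diff_ig hP hx hy hxy ρy v ρu ρ)).aestronglyMeasurable
  · exact ((diff_BB' _ _ _).const_mul _).differentiableOn
  · simpa using hK m v ρu ρ (x + t * I) hv.1.le hv.2.1.le hv.2.2.le (by simp) (by simp)

section pascal
variable {w : ℝ} {σ : ZMod c} (hw : 0 < w) (hU : ∀ ξ ρ, 0 < ξ.re → ξ.re + w < 1 + ε →
    Phi ε c d ξ ρ = (1 - BB ε c a ξ ρ w σ) * Phi ε c d (ξ + w) (ρ + σ))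
include hw hU

lemma pascal_one {x y : ℝ} {u : ℂ} (hx : 0 < x) (hxy : x + (y + w) < 1 + ε) (hu : 0 < u.re)
    (huy : u.re < y) (ρy ρu : ZMod c) :
    HH ε c a d x y ρy u ρu = HH ε c a d x (y + w) (ρy + σ) u ρu -
      BB ε c a y ρy w σ * HH ε c a d x (y + w) (ρy + σ) (u + w) (ρu + σ) := by
  simp only [HH]
  rw [mul_left_comm, ← mul_sub, Finset.mul_sum _ _ (BB ε c a y ρy w σ), ← Finset.sum_sub_distrib]
  congr 1
  refine Finset.sum_congr rfl fun ρ _ => ?_
  rw [← integral_const_mul, ← integral_sub (int_ig hε hP hG hx hxy hu (by linarith) _ _ _)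
    ((int_ig hε hP hG hx hxy (by simp; linarith) (by simpa using huy) _ _ _).const_mul _)]
  refine integral_congr_ae (Eventually.of_forall fun t => ?_)
  simp only [ig]
  rw [hU (x + t * I + y) (ρ + ρy) (by simp; linarith) (by simp; linarith), BB_add_left,
    BB_add_right, ofReal_add, ← add_assoc, ← add_assoc]
  ring

lemma pascal_two {x y : ℝ} {u : ℂ} (hx : 0 < x) (hxy : x + (y + w) < 1 + ε) (hu : 0 < u.re)
    (huy : u.re < y) (ρy ρu : ZMod c) :
    HH ε c a d x y ρy u ρu = BB ε c a u ρu w σ * (HH ε c a d x (y + w) (ρy + σ) u ρu -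
      HH ε c a d x (y + w) (ρy + σ) (u + w) (ρu + σ)) := by
  rw [HH_shift hε hP hG hx (le_add_of_nonneg_right hw.le) (by linarith) hu huy]
  simp only [HH]
  rw [← mul_sub, mul_left_comm, ← Finset.sum_sub_distrib, Finset.mul_sum _ _ (BB ε c a u ρu w σ),
    ← Equiv.sum_comp (Equiv.addRight σ)]
  congr 1
  refine Finset.sum_congr rfl fun ρ _ => ?_
  rw [← integral_sub (int_ig hε hP hG hx hxy hu (by linarith) _ _ _)
    (int_ig hε hP hG hx hxy (by simp; linarith) (by simpa using huy) _ _ _), ← integral_const_mul]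
  refine integral_congr_ae (Eventually.of_forall fun t => ?_)
  simp only [ig, Equiv.coe_addRight]
  have h1 := hU (x + t * I) ρ (by simpa using hx) (by simp; linarith)
  have h2 := Phi_ne (ε := ε) (d := d) (x + t * I) ρ
  have h3 := Phi_ne (ε := ε) (d := d) (x + t * I + w) (ρ + σ)
  rw [ofReal_add, ofReal_add, show (x : ℂ) + w + t * I = x + t * I + w by ring,
    show (x : ℂ) + t * I + w + y = x + t * I + (y + w) by ring,
    show ρ + σ + ρy = ρ + (ρy + σ) by ring, BB_add_left, BB_add_right, BB_comm w]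
  field_simp
  linear_combination (Phi ε c d (x + t * I + (y + w)) (ρ + (ρy + σ)) *
    BB ε c a (x + t * I) ρ u ρu * BB ε c a u ρu w σ) * h1

/-- Invariance of the normalised transform. -/
lemma r_inv (hB : BB ε c a (1 + ε - w) (1 + d - σ) w σ = 1) {x y : ℝ} {u : ℂ} (hx : 0 < x)
    (hxy : x + y < 1 + ε) (hu : 0 < u.re) (huy : u.re + w < y) (ρy ρu : ZMod c) :
    HH ε c a d x y ρy u ρu * Phi ε c d (y - u) (ρy - ρu) / Phi ε c d (1 + ε - u) (1 + d - ρu) =
      HH ε c a d x y ρy (u + w) (ρu + σ) * Phi ε c d (y - (u + w)) (ρy - (ρu + σ)) /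
        Phi ε c d (1 + ε - (u + w)) (1 + d - (ρu + σ)) := by
  have h1 := pascal_one hε hP hG hw hU (y := y - w) hx (by linarith) hu (by linarith) (ρy - σ) ρu
  have h2 := pascal_two hε hP hG hw hU (y := y - w) hx (by linarith) hu (by linarith) (ρy - σ) ρu
  rw [sub_add_cancel, sub_add_cancel] at h1 h2
  have h3 := hU (y - (u + w)) (ρy - (ρu + σ)) (by simp; linarith) (by simp; linarith)
  have h4 := hU (1 + ε - (u + w)) (1 + d - (ρu + σ)) (by simp; linarith) (by simp; linarith)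
  rw [show (y : ℂ) - (u + w) + w = y - u by ring, show ρy - (ρu + σ) + σ = ρy - ρu by ring] at h3
  rw [show (1 : ℂ) + ε - (u + w) + w = 1 + ε - u by ring,
    show 1 + d - (ρu + σ) + σ = 1 + d - ρu by ring] at h4
  have h5 := BB_sub_left (ε := ε) (a := a) (y - w) u w (ρy - σ) ρu σ
  have h6 := BB_sub_left (ε := ε) (a := a) (1 + ε - w) u w (1 + d - σ) ρu σ
  rw [sub_sub, sub_sub] at h5 h6
  rw [add_comm (w : ℂ), add_comm σ] at h5 h6
  rw [hB] at h6
  rw [ofReal_sub, ← h5] at h1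
  have h7 := Phi_ne (ε := ε) (d := d) (1 + ε - u) (1 + d - ρu)
  have h8 := BB_ne_zero (ε := ε) (a := a) u w ρu σ
  rw [div_eq_div_iff h7 (Phi_ne _ _), h3, h4]
  apply mul_left_cancel₀ h8
  linear_combination (Phi ε c d (y - u) (ρy - ρu) * Phi ε c d (1 + ε - u) (1 + d - ρu)) *
    (h1 - h2 - HH ε c a d x y ρy u ρu * h6)

/-- The descent relation. -/
lemma pascal_down {x y : ℝ} {u : ℂ} (hx : 0 < x) (hxy : x + (y + w) < 1 + ε) (hu : 0 < u.re)
    (huy : u.re < y) (ρy ρu : ZMod c) :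
    (1 - BB ε c a (y - u) (ρy - ρu) w σ) * HH ε c a d x y ρy u ρu =
      (1 - BB ε c a y ρy w σ) * HH ε c a d x (y + w) (ρy + σ) u ρu := by
  have h1 := pascal_one hε hP hG hw hU hx hxy hu huy ρy ρu
  have h2 := pascal_two hε hP hG hw hU hx hxy hu huy ρy ρu
  have h5 := BB_sub_left (ε := ε) (a := a) y u w ρy ρu σ
  apply mul_left_cancel₀ (BB_ne_zero (ε := ε) (a := a) u w ρu σ)
  linear_combination BB ε c a u ρu w σ * h1 - BB ε c a y ρy w σ * h2 -
    HH ε c a d x y ρy u ρu * h5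

/-- The value at the shift vector, by telescoping. -/
lemma HH_value {x y : ℝ} (hx : 0 < x) (hxy : x + (y + w) < 1 + ε) (hy : 0 < y) (ρy : ZMod c) :
    (BB ε c a y ρy w σ - 1) * HH ε c a d x (y + w) (ρy + σ) w σ = c * w := by
  obtain ⟨K₁, δ, hδ, h1⟩ := bound_top hP (β := x + w) hx hy.le (by linarith)
  obtain ⟨K₂, h2⟩ := bound_bot hP hG (β := x + w) hx hy.le (by linarith) ρy
  have hl := mul_pos (lam_pos (c := c) hε) hy
  have hm := lt_min hδ hl
  have hig : ∀ ρ ξ, ig ε c a d y ρy 0 0 ρ ξ = Phi ε c d (ξ + y) (ρ + ρy) / Phi ε c d ξ ρ :=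
    fun ρ ξ => by rw [ig, BB_comm, BB_zero_left, mul_one]
  have hd := fun ρ => diff_ig hP (β := x + w) hx hy.le (by linarith) ρy 0 0 ρ
  have h := vert_shift (f := fun ξ => ∑ ρ, ig ε c a d y ρy 0 0 ρ ξ) (L := c)
    (K := c * max (max K₁ K₂) 0) (le_add_of_nonneg_right hw.le) hm
    (DifferentiableOn.fun_sum fun ρ _ => hd ρ) fun z h3 h4 => by
      have h5 : (if 0 ≤ z.im then (c : ℂ) else 0) = ∑ _ρ : ZMod c, if 0 ≤ z.im then 1 else 0 := by
        split_ifs <;> simp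
      rw [h5, ← Finset.sum_sub_distrib]
      refine (norm_sum_le_of_le _ (n := fun _ => max (max K₁ K₂) 0 *
        Real.exp (-min δ (2 * π / (c * ε) * y) * |z.im|)) fun ρ _ => ?_).trans (by simp [mul_assoc])
      rw [hig]
      split_ifs with h6
      · refine (h1 z ρ ρy h3 h4 h6).1.trans (mul_le_mul (le_max_of_le_left (le_max_left _ _))
          (Real.exp_le_exp.2 ?_) (Real.exp_pos _).le (le_max_right _ _))
        rw [abs_of_nonneg h6]
        nlinarith [min_le_left δ (2 * π / (c * ε) * y)]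
      · rw [sub_zero]
        have h7 := (not_le.1 h6).le
        refine (h2 z ρ h3 h4 h7).trans (mul_le_mul (le_max_of_le_left (le_max_right _ _))
          (Real.exp_le_exp.2 ?_) (Real.exp_pos _).le (le_max_right _ _))
        rw [abs_of_nonpos h7]
        nlinarith [min_le_right δ (2 * π / (c * ε) * y)]
  rw [ofReal_add, add_sub_cancel_left] at h
  rw [← h, HH, mul_left_comm, ← integral_finsetSum _ fun ρ _ =>
    int_ig hε hP hG hx hxy (by simpa using hw) (by simpa using hy) _ _ ρ, ← integral_const_mul]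
  congr 1
  refine integral_congr_ae (Eventually.of_forall fun t => ?_)
  simp only
  rw [← Equiv.sum_comp (Equiv.addRight σ) fun ρ => ig ε c a d y ρy 0 0 ρ (x + w + t * I),
    ← Finset.sum_sub_distrib, Finset.mul_sum]
  refine Finset.sum_congr rfl fun ρ _ => ?_
  rw [hig, hig, ig, Equiv.coe_addRight]
  have h3 := hU (x + t * I) ρ (by simpa using hx) (by simp; linarith)
  have h4 := hU (x + t * I + y) (ρ + ρy) (by simp; linarith) (by simp; linarith)
  have h5 := Phi_ne (ε := ε) (d := d) (x + t * I) ρ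
  have h6 := Phi_ne (ε := ε) (d := d) (x + t * I + w) (ρ + σ)
  rw [h4, ofReal_add, show (x : ℂ) + w + t * I = x + t * I + w by ring,
    show (x : ℂ) + t * I + w + y = x + t * I + y + w by ring,
    show ρ + σ + ρy = ρ + ρy + σ by ring, BB_add_left, ← add_assoc, ← add_assoc]
  field_simp
  linear_combination (-Phi ε c d (x + t * I + y + w) (ρ + ρy + σ)) * h3

end pascal

omit hε hG in
lemma eq_one' (ξ : ℂ) (ρ : ZMod c) (h1 : 0 < ξ.re) (h2 : ξ.re + 1 < 1 + ε) : Phi ε c d ξ ρ =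
    (1 - BB ε c a ξ ρ (1 : ℝ) 1) * Phi ε c d (ξ + (1 : ℝ)) (ρ + 1) := by
  simpa using hP.eq1 ξ ρ h1 (by linarith)

lemma base (hI : StmtHolInt) (hPer : StmtPer) (had : a * d = 1) (hirr : Irrational ε) {x y : ℝ}
    {u : ℂ} (hx : 0 < x) (hxy : x + y < 1 + ε) (hy : ε < y) (hu : 0 < u.re) (huy : u.re < y)
    (ρy ρu : ZMod c) : HH ε c a d x y ρy u ρu = -(c * ε) / Phi ε c d 1 1 * Phi ε c d y ρy *
      Phi ε c d (1 + ε - u) (1 + d - ρu) / Phi ε c d (y - u) (ρy - ρu) := by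
  have hB := BB_one hε had
  have h1 := hPer c d ε (fun u ρu => HH ε c a d x y ρy u ρu * Phi ε c d (y - u) (ρy - ρu) /
    Phi ε c d (1 + ε - u) (1 + d - ρu)) 0 y hε hirr (by linarith) (fun ρ => ?_) (fun ξ ρ h1 h2 => ?_)
    (fun ξ ρ h1 h2 => ?_) u ρu 1 1 hu huy (by simp) (by simp; linarith)
  · have h2 := HH_value hε hP hG one_pos (eq_one' hP) (y := y - 1) hx (by linarith)
      (by linarith) (ρy - 1)
    have h3 := hP.eq1 (y - 1) (ρy - 1) (by simp; linarith) (by simp; linarith)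
    simp only [sub_add_cancel, ofReal_one, ofReal_sub, mul_one] at h2 h3
    simp only [add_sub_cancel_left] at h1
    have h4 := Phi_ne (ε := ε) (d := d) (1 + ε - u) (1 + d - ρu)
    have h5 := Phi_ne (ε := ε) (d := d) ε d
    have h6 := Phi_ne (ε := ε) (d := d) (y - u) (ρy - ρu)
    have h7 : (ε : ℂ) ≠ 0 := ofReal_ne_zero.2 (by linarith)
    rw [h3, div_eq_div_iff h4 h5] at h1
    rw [hP.ratio]
    field_simp
    linear_combination h1 - Phi ε c d y ρy * Phi ε c d (1 + ε - u) (1 + d - ρu) * h2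
  · refine DifferentiableOn.div (DifferentiableOn.mul (diff_HH hε hP hG hI hx hxy ρy ρ) ?_) ?_
      fun _ _ => Phi_ne _ _
    · refine (hP.diff _).comp (f := fun u : ℂ => y - u) (by fun_prop) fun z hz => ?_
      simp only [Set.mem_ofPred_eq, sub_re, ofReal_re] at hz ⊢
      constructor <;> linarith [hz.1, hz.2]
    · refine (hP.diff _).comp (f := fun u : ℂ => 1 + ε - u) (by fun_prop) fun z hz => ?_
      simp only [Set.mem_ofPred_eq, sub_re, add_re, one_re, ofReal_re] at hz ⊢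
      constructor <;> linarith [hz.1, hz.2]
  · simpa using r_inv hε hP hG one_pos (eq_one' hP) (by simpa [BB_comm (ε : ℂ)] using hB) hx
      hxy h1 h2 ρy ρ
  · exact r_inv hε hP hG (by linarith) (fun ξ ρ h1 h2 => hP.eq2 ξ ρ h1 (by linarith))
      (by simpa using hB) hx hxy h1 h2 ρy ρ

lemma climb (hI : StmtHolInt) (hPer : StmtPer) (had : a * d = 1) (hirr : Irrational ε) {u : ℂ}
    (hu : 0 < u.re) (ρu : ZMod c) (k : ℕ) {x y : ℝ} (hx : 0 < x) (hxy : x + y < 1 + ε)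
    (hy : ε < y + k) (hne : ∀ j : ℤ, y + j ≠ ε) (huy : u.re < y) (ρy : ZMod c) :
    HH ε c a d x y ρy u ρu = -(c * ε) / Phi ε c d 1 1 * Phi ε c d y ρy *
      Phi ε c d (1 + ε - u) (1 + d - ρu) / Phi ε c d (y - u) (ρy - ρu) := by
  induction k generalizing x y ρy with
  | zero => exact base hε hP hG hI hPer had hirr hx hxy (by simpa using hy) hu huy ρy ρu
  | succ k ih =>
    rcases lt_trichotomy ε y with h | h | h
    · exact base hε hP hG hI hPer had hirr hx hxy h hu huy ρy ρu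
    · exact absurd (by simpa using h.symm) (hne 0)
    have hm : 0 < min x ((ε - y) / 2) := lt_min hx (by linarith)
    have hm2 : min x ((ε - y) / 2) + (y + 1) < 1 + ε := by
      linarith [min_le_right x ((ε - y) / 2)]
    rw [← HH_shift hε hP hG hm (min_le_left _ _) hxy hu huy]
    have h1 := pascal_down hε hP hG one_pos (eq_one' hP) hm hm2 hu huy ρy ρu
    rw [ih hm hm2 (by push_cast at hy; linarith)
      (fun j hj => hne (j + 1) (by push_cast; linarith)) (by linarith)] at h1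
    have h2 := hP.eq1 y ρy (by simp; linarith) (by simpa using h)
    have h3 := hP.eq1 (y - u) (ρy - ρu) (by simp; linarith) (by simp; linarith)
    rw [show (y : ℂ) - u + 1 = y + 1 - u by ring, show ρy - ρu + 1 = ρy + 1 - ρu by ring] at h3
    simp only [ofReal_one, ofReal_add] at h1
    have h4 := Phi_ne (ε := ε) (d := d) (y + 1 - u) (ρy + 1 - ρu)
    rw [eq_div_iff (Phi_ne _ _), h2, h3]
    rw [← mul_div_assoc, eq_div_iff h4] at h1
    linear_combination h1

end main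

end M3

theorem blockM3 (h : StmtAN) (h1 : StmtPhi) (h2 : StmtGam) : StmtIF := by
  intro ε n c _ a d hy y u x₀ ρy ρu hu huy _ hx hxy hne
  have hP := h1 ε n c a d hy
  have hG := h2 ε n c a d hy
  refine ⟨fun ρ => M3.int_ig hy.one_lt hP hG hx hxy (by simpa using hu) (by simpa using huy)
    ρy ρu ρ, ?_⟩
  obtain ⟨k, hk⟩ := exists_nat_gt (ε - y)
  exact M3.climb hy.one_lt hP hG h.2.2.1 h.2.2.2.2 hy.ad hy.irr (by simpa using hu) ρu k hx hxy
    (by linarith) hne (by simpa using huy) ρy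

end Pool.Agent.Lib.Stark
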