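import Pool.Agent.Lib.stark.M4a

/-! Block M4: the finite pentagon relation by a contour integral. -/

open Complex MeasureTheory Filter Topology
open scoped Real ComplexConjugate

set_option linter.unusedSectionVars false

namespace Pool.Agent.Lib.Stark

namespace M4

variable {ε : ℝ} {n c : ℕ} [NeZero c] {a d : ZMod c} {E : ℂ → ZMod c → ℂ}

section Limits

variable {τ : Type} {l : Filter τ} {z : τ → ℂ}

theorem B_lim (H : Hyp ε n c a d) {v : ℝ} (h : Tendsto (fun t ↦ v * (z t).im) l atTop)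
    (ρ ρ' : ZMod c) : Tendsto (fun t ↦ BB ε c a (z t) ρ v ρ') l (𝓝 0) := by
  rw [tendsto_zero_iff_norm_tendsto_zero]
  have h0 := e_pos H
  have hc : (0 : ℝ) < c := by exact_mod_cast NeZero.pos c
  have := Real.tendsto_exp_atBot.comp
    (h.const_mul_atTop_of_neg (r := -(2 * π / (c * ε))) (neg_lt_zero.2 (by positivity)))
  refine this.congr fun t ↦ ?_
  rw [norm_BB, Function.comp_apply]
  congr 1
  ring

theorem phi_top (P : PhiProp ε c a d) {α β : ℝ} (hα : 0 < α) (hβ : β < 1 + ε)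
    (h : Tendsto (fun t ↦ (z t).im) l atTop) (hr : ∀ᶠ t in l, α ≤ (z t).re ∧ (z t).re ≤ β)
    (ρ : ZMod c) : Tendsto (fun t ↦ Phi ε c d (z t) ρ) l (𝓝 1) := by
  obtain ⟨C, δ, hδ, hC⟩ := P.top α β hα hβ
  rw [tendsto_iff_norm_sub_tendsto_zero]
  have h1 := (Real.tendsto_exp_atBot.comp
    (h.const_mul_atTop_of_neg (r := -δ) (neg_lt_zero.2 hδ))).const_mul C
  rw [mul_zero] at h1
  refine squeeze_zero' (Eventually.of_forall fun _ ↦ norm_nonneg _) ?_ h1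
  filter_upwards [hr, h.eventually_ge_atTop 0] with t h2 h3 using (hC _ ρ h2.1 h2.2 h3).1

theorem E_top (H : Hyp ε n c a d) (P : PhiProp ε c a d) (X : Ext ε c a d E)
    (h : Tendsto (fun t ↦ (z t).im) l atTop)
    (hr : ∀ᶠ t in l, 1 / 2 - ε ≤ (z t).re ∧ (z t).re ≤ ε) (ρ : ZMod c) :
    Tendsto (fun t ↦ E (z t) ρ) l (𝓝 1) := by
  have h0 := e_pos H
  have h1 : Tendsto (fun t ↦ Phi ε c d (z t) ρ) (l ⊓ 𝓟 {t | 1 / 2 ≤ (z t).re}) (𝓝 1) :=
    phi_top P (α := 1 / 2) (β := ε) (by norm_num) (by linarith) (h.mono_left inf_le_left) (by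
      rw [eventually_inf_principal]
      filter_upwards [hr] with t h1 h2 using ⟨h2, h1.2⟩) ρ
  have h2 : Tendsto (fun t ↦ (1 - BB ε c a (z t) ρ ε d) * Phi ε c d (z t + ε) (ρ + d))
      (l ⊓ 𝓟 {t | ¬ 1 / 2 ≤ (z t).re}) (𝓝 1) := by
    have a1 := B_lim H ((h.const_mul_atTop h0).mono_left
      (inf_le_left (b := 𝓟 {t | ¬ 1 / 2 ≤ (z t).re}))) ρ d
    have a2 := phi_top P (l := l ⊓ 𝓟 {t | ¬ 1 / 2 ≤ (z t).re}) (z := fun t ↦ z t + ε)
      (α := 1 / 2) (β := 1 / 2 + ε) (by norm_num) (by linarith)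
      (by simpa using h.mono_left inf_le_left) (by
        rw [eventually_inf_principal]
        filter_upwards [hr] with t h1 (h2 : ¬ 1 / 2 ≤ (z t).re)
        simp only [add_re, ofReal_re]
        constructor <;> linarith [h1.1]) (ρ + d)
    simpa using (a1.const_sub 1).mul a2
  refine (h1.if h2).congr' ?_
  filter_upwards [hr] with t ht
  split_ifs with h3
  · rw [X.eq _ _ (by linarith) (by linarith [ht.2])]
  · rw [X.e2 _ _ (by linarith), X.eq _ _ (by simp; linarith [ht.1]) (by simp; linarith)]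

theorem E_bot (H : Hyp ε n c a d) (P : PhiProp ε c a d) (X : Ext ε c a d E) {Γ : ℂ → ZMod c → ℂ}
    (g1 : ∀ ξ ρ, 0 < ξ.re → ξ.re < 1 + ε →
      Γ ξ ρ = Phi ε c d ξ ρ * Phi ε c d (1 + ε - ξ) (1 + d - ρ))
    (g3 : ∀ ξ ρ, Γ ξ ρ = -BB ε c a ξ ρ ε d * Γ (ξ + ε) (ρ + d))
    (h : Tendsto (fun t ↦ -(z t).im) l atTop)
    (hr : ∀ᶠ t in l, 1 / 2 - ε ≤ (z t).re ∧ (z t).re ≤ ε) (ρ : ZMod c) :
    Tendsto (fun t ↦ E (z t) ρ / Γ (z t) ρ) l (𝓝 1) := by
  have h0 := e_pos H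
  have h1 : Tendsto (fun t ↦ (Phi ε c d (1 + ε - z t) (1 + d - ρ))⁻¹)
      (l ⊓ 𝓟 {t | 1 / 2 ≤ (z t).re}) (𝓝 1) := by
    have := phi_top P (l := l ⊓ 𝓟 {t | 1 / 2 ≤ (z t).re}) (z := fun t ↦ 1 + ε - z t) (α := 1)
      (β := 1 / 2 + ε) one_pos (by linarith) (by simpa using h.mono_left inf_le_left) (by
        rw [eventually_inf_principal]
        filter_upwards [hr] with t h1 (h2 : 1 / 2 ≤ (z t).re)
        simp only [sub_re, add_re, ofReal_re, one_re]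
        constructor <;> linarith [h1.2]) (1 + d - ρ)
    simpa using this.inv₀ one_ne_zero
  have h2 : Tendsto (fun t ↦ (1 - BB ε c a (z t) ρ (-ε : ℝ) (-d)) *
      (Phi ε c d (1 + ε - (z t + ε)) (1 + d - (ρ + d)))⁻¹)
      (l ⊓ 𝓟 {t | ¬ 1 / 2 ≤ (z t).re}) (𝓝 1) := by
    have a1 := B_lim H (v := -ε) (z := z) (l := l ⊓ 𝓟 {t | ¬ 1 / 2 ≤ (z t).re})
      (by simpa using (h.const_mul_atTop h0).mono_left inf_le_left) ρ (-d)
    have a2 := phi_top P (l := l ⊓ 𝓟 {t | ¬ 1 / 2 ≤ (z t).re}) (z := fun t ↦ 1 + ε - (z t + ε))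
      (α := 1 / 2) (β := 1 / 2 + ε) (by norm_num) (by linarith)
      (by simpa using h.mono_left inf_le_left) (by
        rw [eventually_inf_principal]
        filter_upwards [hr] with t h1 (h2 : ¬ 1 / 2 ≤ (z t).re)
        simp only [sub_re, add_re, ofReal_re, one_re]
        constructor <;> linarith [h1.1]) (1 + d - (ρ + d))
    simpa using (a1.const_sub 1).mul (a2.inv₀ one_ne_zero)
  refine (h1.if h2).congr' ?_
  filter_upwards [hr] with t ht
  split_ifs with h3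
  · rw [X.eq _ _ (by linarith) (by linarith [ht.2]), g1 _ _ (by linarith) (by linarith [ht.2]),
      div_mul_cancel_left₀ (phi_ne _ _)]
  · have b1 : 0 < (z t + ε).re := by simp; linarith [ht.1]
    have b2 : (z t + ε).re < 1 + ε := by simp; linarith
    have b3 := BB_neg (ε := ε) (a := a) (z t) ε ρ d
    have b4 := BB_ne (ε := ε) (a := a) (z t) ε ρ d
    have b5 := phi_ne (ε := ε) (d := d) (z t + ε) (ρ + d)
    have b6 := phi_ne (ε := ε) (d := d) (1 + ε - (z t + ε)) (1 + d - (ρ + d))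
    rw [X.e2 _ _ (by linarith), X.eq _ _ b1 b2, g3, g1 _ _ b1 b2, ofReal_neg]
    field_simp
    linear_combination -b3

end Limits

theorem tendsto_int {φ : ℝ → ℝ → ℂ} {g : ℂ} {x₁ x₂ : ℝ} (h12 : x₁ ≤ x₂)
    (h : Tendsto (fun t : ℝ × ℝ ↦ φ t.1 t.2) (atTop ×ˢ 𝓟 (Set.Icc x₁ x₂)) (𝓝 g))
    (hi : ∀ᶠ R in atTop, IntervalIntegrable (φ R) volume x₁ x₂) :
    Tendsto (fun R ↦ ∫ x in x₁..x₂, φ R x) atTop (𝓝 ((x₂ - x₁) * g)) := by
  have hsub : Set.uIoc x₁ x₂ ⊆ Set.Icc x₁ x₂ := by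
    rw [Set.uIoc_of_le h12]
    exact Set.Ioc_subset_Icc_self
  have := intervalIntegral.tendsto_integral_filter_of_dominated_convergence (μ := volume)
    (l := atTop) (F := φ) (f := fun _ ↦ g) (a := x₁) (b := x₂) (fun _ ↦ ‖g‖ + 1)
    (hi.mono fun R hR ↦ (intervalIntegrable_iff.1 hR).aestronglyMeasurable) ?_
    intervalIntegrable_const (Eventually.of_forall fun x hx ↦ h.comp
      (tendsto_id.prodMk (tendsto_principal.2 (Eventually.of_forall fun _ ↦ hsub hx))))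
  · simpa using this
  · have h1 := h.norm.eventually (eventually_le_nhds (lt_add_one ‖g‖))
    rw [eventually_prod_principal_iff] at h1
    filter_upwards [h1] with R hR using Eventually.of_forall fun x hx ↦ hR x (hsub hx)

/-- the regular factor of the integrand -/
noncomputable def II (ε : ℝ) (c : ℕ) [NeZero c] (a d : ZMod c) (E : ℂ → ZMod c → ℂ) (p q : ℝ)
    (ρy ρu : ZMod c) (ξ : ℂ) (ρ : ZMod c) : ℂ :=
  E (ξ + (p - ε + 2)) (ρ + (ρy - d + 2)) / Phi ε c d (ξ + 1) (ρ + 1) * BB ε c a ξ ρ q ρu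

/-- the integrand -/
noncomputable def ff (ε : ℝ) (c : ℕ) [NeZero c] (a d : ZMod c) (E : ℂ → ZMod c → ℂ) (p q : ℝ)
    (ρy ρu : ZMod c) (ξ : ℂ) (ρ : ZMod c) : ℂ :=
  II ε c a d E p q ρy ρu ξ ρ / (1 - BB ε c a ξ ρ (ε - 1) (d - 1))

variable {p q L : ℝ} {ρy ρu : ZMod c}

theorem II_diff (P : PhiProp ε c a d) (X : Ext ε c a d E) {ξ : ℂ} (h0 : 0 < ξ.re) (h1 : ξ.re < ε)
    (h2 : ξ.re + p + 1 < 2 * ε) (ρ : ZMod c) :
    DifferentiableAt ℂ (fun ξ ↦ II ε c a d E p q ρy ρu ξ ρ) ξ := by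
  have a1 : DifferentiableAt ℂ (fun ξ ↦ E ξ (ρ + (ρy - d + 2))) (ξ + (p - ε + 2)) :=
    (X.diff _).differentiableAt ((isOpen_lt continuous_re continuous_const).mem_nhds
      (show (ξ + (p - ε + 2)).re < 1 + ε by simp; linarith))
  have a2 : DifferentiableAt ℂ (fun ξ ↦ Phi ε c d ξ (ρ + 1)) (ξ + 1) :=
    (P.diff _).differentiableAt (((isOpen_lt continuous_const continuous_re).inter
      (isOpen_lt continuous_re continuous_const)).mem_nhds
      (show 0 < (ξ + 1).re ∧ (ξ + 1).re < 1 + ε by simp; constructor <;> linarith))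
  exact ((a1.comp (f := fun ξ : ℂ ↦ ξ + (p - ε + 2)) ξ (by fun_prop)).div
    (a2.comp (f := fun ξ : ℂ ↦ ξ + 1) ξ (by fun_prop)) (phi_ne _ _)).mul (BB_diff _ _ _ _)

theorem residue (H : Hyp ε n c a d) {ξ : ℂ} {ρ : ZMod c}
    (h : BB ε c a ξ ρ (ε - 1) (d - 1) = 1) :
    Tendsto (fun z ↦ (z - ξ) / (1 - BB ε c a z ρ (ε - 1) (d - 1))) (𝓝[≠] ξ)
      (𝓝 (-(c * ε) / (2 * π * I * (ε - 1)))) := by
  have h0 : (ε : ℂ) ≠ 0 := by exact_mod_cast (e_pos H).ne'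
  have h1 : (ε : ℂ) - 1 ≠ 0 := by exact_mod_cast (sub_pos.2 H.one_lt).ne'
  have hc : (c : ℂ) ≠ 0 := by exact_mod_cast NeZero.ne c
  have h2 : (2 * π * I : ℂ) ≠ 0 := two_pi_I_ne_zero
  have hd : HasDerivAt (fun z ↦ 1 - BB ε c a z ρ (ε - 1) (d - 1))
      (-(2 * π * I * (ε - 1) / (c * ε))) ξ := by
    have := ((((hasDerivAt_id ξ).mul_const ((ε : ℂ) - 1)).div_const ((c : ℂ) * ε)).const_mul
      (2 * π * I : ℂ)).cexp.mul_const (ZMod.stdAddChar (-(a * ρ * (d - 1))))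
    refine (this.const_sub 1).congr_deriv ?_
    simp only [BB, ee] at h
    simp only [id]
    linear_combination -(2 * π * I * (ε - 1) / (c * ε)) * h
  have := (hasDerivAt_iff_tendsto_slope.1 hd).inv₀ (by simp [h0, h1, hc])
  convert this using 2 with z
  · simp [slope, h, div_eq_mul_inv, mul_comm]
  · field_simp

theorem Fs_eq (H : Hyp ε n c a d) (P : PhiProp ε c a d) (X : Ext ε c a d E) {m : ℤ} {ρ : ZMod c}
    (h : InD c a m ρ) (h0 : 0 < m) (h1 : m ≤ n) :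
    Fs ε n c d m ρ = (Phi ε c d (xi ε n m + 1) (ρ + 1))⁻¹ := by
  rcases h1.eq_or_lt with rfl | h1
  · obtain ⟨ρ₀, rfl⟩ : ∃ ρ₀, ρ = ρ₀ + ((1 : ℤ) : ZMod c) * (d - 1) := ⟨ρ - (d - 1), by simp⟩
    have e1 := Fs_shift H 0 1 ρ₀
    have e2 := inD_shift H 0 1 ρ₀
    rw [zero_add, mul_one] at e1 e2
    have e3 : ρ₀ + ((1 : ℤ) : ZMod c) * (d - 1) + 1 = ρ₀ + d := by push_cast; ring
    rw [e1, xi_n H, e3, Fs, isT_red le_rfl h0, ofReal_sub, ofReal_one, sub_add_cancel]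
    split_ifs with h2
    · have : (ε : ℂ) ≠ 0 := by exact_mod_cast (e_pos H).ne'
      rw [h2.2, Fm_zero H, P.ratio, zero_add, div_mul_cancel_left₀ this]
    · rw [Fm_red H le_rfl h0, xi_zero, ofReal_zero, zero_add,
        phi12 H X (e2.1 h) fun h3 ↦ h2 ⟨rfl, h3⟩]
  · rw [Fs, isT_red h0.le h1, if_neg fun h2 ↦ h0.ne' h2.1, Fm_red H h0.le h1]

theorem II_eq (H : Hyp ε n c a d) (P : PhiProp ε c a d) (X : Ext ε c a d E) {m my mu : ℤ}
    {ρ : ZMod c} (h : InD c a m ρ) (hy : InD c a my ρy) (h0 : 0 < m) (h1 : m ≤ n) (y0 : 0 < my)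
    (y1 : my < n) : II ε c a d E (xi ε n my) (xi ε n mu) ρy ρu (xi ε n m) ρ =
      Fm ε n c d (m + my) (ρ + ρy) * Fs ε n c d m ρ * bm ε n c a m ρ mu ρu := by
  rw [II, Fs_eq H P X h h0 h1, ← Fm_shift H (m + my) (-1), ← E_Fm H X
    ((inD_shift H _ _ _).2 (InD.add' h hy)) (by omega) (by omega), div_eq_mul_inv, bm,
    mul_neg_one, xi_add, xi_add, xi_neg, xi_n H]
  congr 3
  · push_cast
    ring
  · push_cast
    ring

theorem vertical (H : Hyp ε n c a d) (P : PhiProp ε c a d) (X : Ext ε c a d E) {my mu : ℤ}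
    (hy : InD c a my ρy) (hu : InD c a mu ρu) (y0 : 0 < my) {ξ : ℂ} {ρ : ZMod c} (h0 : 0 < ξ.re)
    (h1 : ξ.re < 1) (h2 : ξ.re + xi ε n my + 1 < ε) (h : BB ε c a ξ ρ (ε - 1) (d - 1) ≠ 1) :
    ff ε c a d E (xi ε n my) (xi ε n mu) ρy ρu (ξ + (ε - 1)) (ρ + (d - 1)) -
      ff ε c a d E (xi ε n my) (xi ε n mu) ρy ρu ξ ρ =
      (1 - BB ε c a (xi ε n my + 1) (ρy + 1) 1 1) *
        (Phi ε c d (ξ + (xi ε n my + 2 : ℝ)) (ρ + (ρy + 2)) / Phi ε c d ξ ρ *
          BB ε c a ξ ρ (xi ε n mu + 1 : ℝ) (ρu + 1)) := by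
  set p := xi ε n my with hp
  have p0 : 0 < p := xi_zero (ε := ε) (n := n) ▸ xi_lt H y0
  have e0 := H.one_lt
  have hT := BT_one H (inD_T H)
  rw [xi_n H, ofReal_sub, ofReal_one] at hT
  have hu' := BT_one H hu
  have hy' := BT_one H hy
  rw [← hp] at hy'
  have a1 := P.eq1 ξ ρ h0 (by linarith)
  have a2 := P.eq2 ξ ρ h0 h1
  have a3 := X.e1 (ξ + (p + 1)) (ρ + (ρy + 1)) (by simp; linarith)
  have a4 := X.e2 (ξ + (p - ε + 2)) (ρ + (ρy - d + 2)) (by simp; linarith)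
  have a5 := X.eq (ξ + (p + 2)) (ρ + (ρy + 2)) (by simp; linarith) (by simp; linarith)
  have a6 : BB ε c a (p - ε + 2) (ρy - d + 2) ε d = BB ε c a (p + 1) (ρy + 1) 1 1 := by
    have b1 := BB_add' (ε := ε) (a := a) ε (p - ε + 2) (ε - 1) d (ρy - d + 2) (d - 1)
    rw [show (p : ℂ) - ε + 2 + (ε - 1) = p + 1 by ring, show ρy - d + 2 + (d - 1) = ρy + 1 by ring,
      X2_eq (p + 1), BB_add' (ε - 1), hy', one_mul, X2_eq (ε - 1), hT, mul_one,
      BB_comm 1 (ε - 1)] at b1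
    exact mul_right_cancel₀ (BB_ne _ _ _ _) b1.symm
  rw [BB_add', show ξ + (p + 1) + 1 = ξ + (p + 2) by ring,
    show ρ + (ρy + 1) + 1 = ρ + (ρy + 2) by ring, a5] at a3
  rw [BB_add', a6, show ξ + (p - ε + 2) + ε = ξ + (p + 2) by ring,
    show ρ + (ρy - d + 2) + d = ρ + (ρy + 2) by ring, a5] at a4
  simp only [ff, II]
  rw [show ξ + (ε - 1) + (p - ε + 2) = ξ + (p + 1) by ring,
    show ρ + (d - 1) + (ρy - d + 2) = ρ + (ρy + 1) by ring, show ξ + (ε - 1) + 1 = ξ + ε by ring,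
    show ρ + (d - 1) + 1 = ρ + d by ring, a3, a4, BB_add' _ ξ, BB_add' _ ξ, hT,
    BB_comm (ε - 1) (xi ε n mu), hu', mul_one, mul_one]
  push_cast
  rw [BB_add, X2_eq ξ] at *
  have c1 := phi_ne (ε := ε) (d := d) ξ ρ
  have c2 := phi_ne (ε := ε) (d := d) (ξ + 1) (ρ + 1)
  have c3 := phi_ne (ε := ε) (d := d) (ξ + ε) (ρ + d)
  have c4 := sub_ne_zero.2 h.symm
  have c5 : (Phi ε c d (ξ + 1) (ρ + 1))⁻¹ = (1 - BB ε c a ξ ρ 1 1) / Phi ε c d ξ ρ := by
    rw [eq_div_iff c1, a1]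
    field_simp
  have c6 : (Phi ε c d (ξ + ε) (ρ + d))⁻¹ =
      (1 - BB ε c a ξ ρ 1 1 * BB ε c a ξ ρ (ε - 1) (d - 1)) / Phi ε c d ξ ρ := by
    rw [eq_div_iff c1, a2]
    field_simp
  rw [div_eq_mul_inv _ (Phi ε c d (ξ + 1) (ρ + 1)), div_eq_mul_inv _ (Phi ε c d (ξ + ε) (ρ + d)),
    c5, c6]
  field_simp
  ring

theorem ff_top (H : Hyp ε n c a d) (P : PhiProp ε c a d) (X : Ext ε c a d E) {τ : Type}
    {l : Filter τ} {z : τ → ℂ} (p0 : 0 < p) (L0 : 0 < L) (L1 : L < 1) (L2 : L + p + 1 < ε)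
    (h : Tendsto (fun t ↦ (z t).im) l atTop)
    (hr : ∀ᶠ t in l, L ≤ (z t).re ∧ (z t).re ≤ L + (ε - 1)) {ρ : ZMod c} {g : ℂ}
    (hg : Tendsto (fun t ↦ BB ε c a (z t) ρ q ρu) l (𝓝 g)) :
    Tendsto (fun t ↦ ff ε c a d E p q ρy ρu (z t) ρ) l (𝓝 g) := by
  have a1 := E_top H P X (z := fun t ↦ z t + (p - ε + 2)) (by simpa using h) (by
    filter_upwards [hr] with t ht
    simp only [add_re, sub_re, ofReal_re, re_ofNat]
    constructor <;> linarith [ht.1, ht.2]) (ρ + (ρy - d + 2))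
  have a2 := phi_top P (z := fun t ↦ z t + 1) (α := 1) (β := L + ε) one_pos (by linarith)
    (by simpa using h) (by
    filter_upwards [hr] with t ht
    simp only [add_re, one_re]
    constructor <;> linarith [ht.1, ht.2]) (ρ + 1)
  have a3 := B_lim H (h.const_mul_atTop (sub_pos.2 H.one_lt)) ρ (d - 1)
  have := ((a1.div a2 one_ne_zero).mul hg).div (a3.const_sub 1) (by simp)
  simpa [ff, II, Pi.div_def] using this

theorem ff_bot (H : Hyp ε n c a d) (P : PhiProp ε c a d) (X : Ext ε c a d E)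
    (G : GamProp ε c a d) {τ : Type}
    {l : Filter τ} {z : τ → ℂ} (p0 : 0 < p) (hq : q < p) (L0 : 0 < L) (L1 : L < 1)
    (L2 : L + p + 1 < ε) (h : Tendsto (fun t ↦ -(z t).im) l atTop)
    (hr : ∀ᶠ t in l, L ≤ (z t).re ∧ (z t).re ≤ L + (ε - 1)) (ρ : ZMod c) :
    Tendsto (fun t ↦ ff ε c a d E p q ρy ρu (z t) ρ) l (𝓝 0) := by
  obtain ⟨Γ, -, g0, g1, -, g3, g4⟩ := G
  obtain ⟨κ, hκ⟩ := g4 (p - ε + 1) (ρy - d + 1)
  have a1 := E_bot H P X g1 g3 (z := fun t ↦ z t + (p - ε + 2)) (by simpa using h) (by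
    filter_upwards [hr] with t ht
    simp only [add_re, sub_re, ofReal_re, re_ofNat]
    constructor <;> linarith [ht.1, ht.2]) (ρ + (ρy - d + 2))
  have a2 := phi_top P (z := fun t ↦ 1 + ε - (z t + 1)) (α := 1 - L) (β := ε) (by linarith)
    (by linarith) (by simpa using h) (by
    filter_upwards [hr] with t ht
    simp only [add_re, sub_re, ofReal_re, one_re]
    constructor <;> linarith [ht.1, ht.2]) (1 + d - (ρ + 1))
  have a3 := B_lim H (v := -(ε - 1)) (z := z) (l := l)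
    ((h.const_mul_atTop (sub_pos.2 H.one_lt)).congr fun t ↦ by ring) ρ (-(d - 1))
  have a4 := B_lim H (v := q - p) (z := z) (l := l)
    ((h.const_mul_atTop (sub_pos.2 hq)).congr fun t ↦ by ring) ρ (ρu - ρy)
  have := ((((a1.mul a2).mul_const (-κ / BB ε c a 1 1 (p - ε + 1) (ρy - d + 1))).div
    (a3.const_sub 1) (by simp)).mul a4)
  rw [mul_zero] at this
  refine this.congr' ?_
  filter_upwards [hr] with t ht
  have b1 := g1 (z t + 1) (ρ + 1) (by simp; linarith [ht.1]) (by simp; linarith [ht.2])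
  have b2 := hκ (z t + 1) (ρ + 1)
  have b3 := BB_neg (ε := ε) (a := a) (z t) (ε - 1) ρ (d - 1)
  have b4 : BB ε c a (z t) ρ (q - p : ℝ) (ρu - ρy) * BB ε c a (z t) ρ (p - ε + 1) (ρy - d + 1) *
      BB ε c a (z t) ρ (ε - 1) (d - 1) = BB ε c a (z t) ρ q ρu := by
    rw [← BB_add, ← BB_add]
    congr 1
    · push_cast
      ring
    · ring
  rw [BB_add', show z t + 1 + (p - ε + 1) = z t + (p - ε + 2) by ring,
    show ρ + 1 + (ρy - d + 1) = ρ + (ρy - d + 2) by ring, b1] at b2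
  have c1 := g0 (z t + (p - ε + 2)) (ρ + (ρy - d + 2))
  have c2 := phi_ne (ε := ε) (d := d) (z t + 1) (ρ + 1)
  have c3 := BB_ne (ε := ε) (a := a) 1 (p - ε + 1) 1 (ρy - d + 1)
  have c4 := BB_ne (ε := ε) (a := a) (z t) (ε - 1) ρ (d - 1)
  simp only [ff, II, Pi.div_apply, ← b4, ofReal_neg, ofReal_sub, ofReal_one]
  rw [eq_inv_of_mul_eq_one_right b3]
  by_cases h1 : 1 - BB ε c a (z t) ρ (ε - 1) (d - 1) = 0
  · rw [h1, ← sub_eq_zero.1 h1]
    simp
  · have h2 : 1 - (BB ε c a (z t) ρ (ε - 1) (d - 1))⁻¹ =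
        -(1 - BB ε c a (z t) ρ (ε - 1) (d - 1)) / BB ε c a (z t) ρ (ε - 1) (d - 1) := by
      field_simp
      ring
    rw [h2]
    field_simp
    linear_combination -(E (z t + (p - ε + 2)) (ρ + (ρy - d + 2)) *
      BB ε c a (z t) ρ (q - p) (ρu - ρy)) * b2

theorem ff_diff (P : PhiProp ε c a d) (X : Ext ε c a d E) {ξ : ℂ} (h0 : 0 < ξ.re) (h1 : ξ.re < ε)
    (h2 : ξ.re + p + 1 < 2 * ε) {ρ : ZMod c} (h : BB ε c a ξ ρ (ε - 1) (d - 1) ≠ 1) :
    DifferentiableAt ℂ (fun ξ ↦ ff ε c a d E p q ρy ρu ξ ρ) ξ :=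
  (II_diff P X h0 h1 h2 ρ).div ((BB_diff _ _ _ _).const_sub 1) (sub_ne_zero.2 h.symm)

open scoped Classical in
theorem rect (H : Hyp ε n c a d) (P : PhiProp ε c a d) (X : Ext ε c a d E) (hR : StmtRect)
    (L0 : 0 < L) (L1 : L < 1) (L2 : L + p + 1 < ε) (L3 : L < xi ε n 1) {R : ℝ} (R0 : 0 < R)
    (ρ : ZMod c) :
    (∫ x in L..L + (ε - 1), ff ε c a d E p q ρy ρu (x + (-R : ℝ) * I) ρ) -
      (∫ x in L..L + (ε - 1), ff ε c a d E p q ρy ρu (x + R * I) ρ) +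
      I * (∫ y in -R..R, ff ε c a d E p q ρy ρu ((L + (ε - 1) : ℝ) + y * I) ρ) -
      I * (∫ y in -R..R, ff ε c a d E p q ρy ρu (L + y * I) ρ) =
      -(c * ε) / (ε - 1) * ∑ m ∈ (Finset.range n).filter fun m : ℕ ↦ InD c a (m + 1 : ℕ) ρ,
        II ε c a d E p q ρy ρu (xi ε n (m + 1 : ℕ)) ρ := by
  have e1 := H.one_lt
  have hb : ∀ m ∈ Finset.range n, L < xi ε n (m + 1 : ℕ) ∧ xi ε n (m + 1 : ℕ) ≤ ε - 1 :=
    fun m hm ↦ ⟨L3.trans_le ((xi_mono H).monotone (by omega)),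
      xi_n H ▸ (xi_mono H).monotone (by have := Finset.mem_range.1 hm; omega)⟩
  rw [hR (fun ξ ↦ ff ε c a d E p q ρy ρu ξ ρ)
    (((Finset.range n).filter fun m : ℕ ↦ InD c a (m + 1 : ℕ) ρ).image
      fun m : ℕ ↦ (xi ε n (m + 1 : ℕ) : ℂ))
    (fun ξ ↦ II ε c a d E p q ρy ρu ξ ρ * (-(c * ε) / (2 * π * I * (ε - 1)))) L (L + (ε - 1))
    (-R) R (by linarith) (by linarith), Finset.sum_image, ← Finset.sum_mul]
  · have h1 : (ε : ℂ) - 1 ≠ 0 := by exact_mod_cast (sub_pos.2 H.one_lt).ne'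
    have h2 : (π : ℂ) ≠ 0 := by exact_mod_cast Real.pi_ne_zero
    field_simp
  · intro m _ m' _ h
    have := (xi_mono H).injective (ofReal_injective h)
    omega
  · intro z hz
    obtain ⟨m, hm, rfl⟩ := Finset.mem_image.1 hz
    have := hb m (Finset.mem_filter.1 hm).1
    simp only [ofReal_re, ofReal_im]
    exact ⟨this.1, by linarith [this.2], by linarith, R0⟩
  · intro z h1 h2 _ _ hz
    refine ff_diff P X (by linarith) (by linarith) (by linarith) fun h ↦ hz ?_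
    obtain ⟨m, rfl, hm⟩ := (BT_iff H _ _).1 h
    rw [ofReal_re] at h1 h2
    have b1 : 0 < m := (xi_mono H).lt_iff_lt.1 (by rw [xi_zero]; linarith)
    have b2 : m < 1 + n := (xi_mono H).lt_iff_lt.1 (by rw [xi_add, xi_n H]; linarith)
    obtain ⟨k, rfl⟩ : ∃ k : ℕ, m = (k + 1 : ℕ) := ⟨(m - 1).toNat, by omega⟩
    exact Finset.mem_image.2 ⟨k, Finset.mem_filter.2 ⟨Finset.mem_range.2 (by omega), hm⟩, rfl⟩
  · intro z hz
    obtain ⟨m, hm, rfl⟩ := Finset.mem_image.1 hz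
    have b := hb m (Finset.mem_filter.1 hm).1
    have a1 := (II_diff (p := p) (q := q) (ρy := ρy) (ρu := ρu) P X (ξ := xi ε n (m + 1 : ℕ))
      (by simp only [ofReal_re]; linarith [b.1]) (by simp only [ofReal_re]; linarith [b.2])
      (by simp only [ofReal_re]; linarith [b.2]) ρ).continuousAt.tendsto.mono_left
      (nhdsWithin_le_nhds (s := {(xi ε n (m + 1 : ℕ) : ℂ)}ᶜ))
    refine (a1.mul (residue H (BT_one H (Finset.mem_filter.1 hm).2))).congr fun z ↦ ?_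
    rw [ff]
    ring

theorem horiz (H : Hyp ε n c a d) (P : PhiProp ε c a d) (X : Ext ε c a d E)
    (L0 : 0 < L) (L1 : L < 1) (L2 : L + p + 1 < ε) {R : ℝ} (R0 : R ≠ 0) (ρ : ZMod c) :
    IntervalIntegrable (fun x : ℝ ↦ ff ε c a d E p q ρy ρu (x + R * I) ρ) volume L
      (L + (ε - 1)) := by
  have e1 := H.one_lt
  refine ContinuousOn.intervalIntegrable fun x hx ↦ ContinuousAt.continuousWithinAt ?_
  rw [Set.uIcc_of_le (by linarith)] at hx
  refine ContinuousAt.comp (f := fun x : ℝ ↦ (x + R * I : ℂ))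
    (g := fun ξ ↦ ff ε c a d E p q ρy ρu ξ ρ) (ff_diff P X (by simp; linarith [hx.1])
    (by simp; linarith [hx.2]) (by simp; linarith [hx.2]) fun h ↦ R0 ?_).continuousAt (by fun_prop)
  obtain ⟨m, h, -⟩ := (BT_iff H _ _).1 h
  simpa using congrArg im h

theorem noPole (H : Hyp ε n c a d) (L0 : 0 < L) (L3 : L < xi ε n 1) (y : ℝ) (ρ : ZMod c) :
    BB ε c a (L + y * I) ρ (ε - 1) (d - 1) ≠ 1 := fun h ↦ by
  obtain ⟨m, h, -⟩ := (BT_iff H _ _).1 h
  have h1 : L = xi ε n m := by simpa using congrArg re h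
  have b1 : 0 < m := (xi_mono H).lt_iff_lt.1 (by rw [xi_zero]; linarith)
  have b2 : m < 1 := (xi_mono H).lt_iff_lt.1 (by linarith)
  omega

theorem vert_int (H : Hyp ε n c a d) (P : PhiProp ε c a d) (X : Ext ε c a d E) {my mu : ℤ}
    (hy : InD c a my ρy) (hu : InD c a mu ρu) (y0 : 0 < my) (L0 : 0 < L) (L1 : L < 1)
    (L2 : L + xi ε n my + 1 < ε) (L3 : L < xi ε n 1) (R : ℝ) (ρ : ZMod c) :
    (∫ y in -R..R, ff ε c a d E (xi ε n my) (xi ε n mu) ρy ρu ((L + (ε - 1) : ℝ) + y * I)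
        (ρ + (d - 1))) -
      (∫ y in -R..R, ff ε c a d E (xi ε n my) (xi ε n mu) ρy ρu (L + y * I) ρ) =
      (1 - BB ε c a (xi ε n my + 1) (ρy + 1) 1 1) * ∫ y in -R..R,
        Phi ε c d (L + y * I + (xi ε n my + 2 : ℝ)) (ρ + (ρy + 2)) / Phi ε c d (L + y * I) ρ *
          BB ε c a (L + y * I) ρ (xi ε n mu + 1 : ℝ) (ρu + 1) := by
  have e1 := H.one_lt
  have e : ∀ y : ℝ, ((L + (ε - 1) : ℝ) + y * I : ℂ) = L + y * I + (ε - 1) := fun y ↦ by
    push_cast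
    ring
  have hT := BT_one H (inD_T H)
  rw [xi_n H, ofReal_sub, ofReal_one] at hT
  rw [← intervalIntegral.integral_sub, ← intervalIntegral.integral_const_mul]
  · refine intervalIntegral.integral_congr fun y _ ↦ ?_
    simp only [e]
    exact vertical H P X hy hu y0 (by simpa using L0) (by simpa using L1) (by simpa using L2)
      (noPole H L0 L3 y ρ)
  · refine Continuous.intervalIntegrable (continuous_iff_continuousAt.2 fun y ↦ ?_) _ _
    refine ContinuousAt.comp (f := fun y : ℝ ↦ ((L + (ε - 1) : ℝ) + y * I : ℂ))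
      (g := fun ξ ↦ ff ε c a d E _ _ ρy ρu ξ (ρ + (d - 1))) (ff_diff P X (by simp; linarith)
      (by simp; linarith) (by simp; linarith) ?_).continuousAt (by fun_prop)
    rw [e, BB_add', hT, mul_one]
    exact noPole H L0 L3 y ρ
  · refine Continuous.intervalIntegrable (continuous_iff_continuousAt.2 fun y ↦ ?_) _ _
    exact ContinuousAt.comp (f := fun y : ℝ ↦ (L + y * I : ℂ))
      (g := fun ξ ↦ ff ε c a d E _ _ ρy ρu ξ ρ) (ff_diff P X (by simp; linarith)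
      (by simp; linarith) (by simp; linarith) (noPole H L0 L3 y ρ)).continuousAt (by fun_prop)

open scoped Classical in
theorem contour (H : Hyp ε n c a d) (P : PhiProp ε c a d) (X : Ext ε c a d E)
    (G : GamProp ε c a d) (F : IFProp ε c a d) (hR : StmtRect) {my mu : ℤ}
    (hy : InD c a my ρy) (hu : InD c a mu ρu) (u0 : 0 ≤ mu) (uy : mu < my) (y1 : my < n)
    {g : ZMod c → ℂ} (hg : ∀ ρ, Tendsto (fun t : ℝ × ℝ ↦ BB ε c a (t.2 + t.1 * I) ρ (xi ε n mu) ρu)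
      (atTop ×ˢ ⊤) (𝓝 (g ρ))) :
    -((ε - 1) * ∑ ρ, g ρ) + -(c * ε) / Phi ε c d 1 1 * Fm ε n c d my ρy *
      Phi ε c d (ε - xi ε n mu) (d - ρu) * Fs ε n c d (my - mu) (ρy - ρu) =
      -(c * ε) / (ε - 1) * ∑ ρ, ∑ m ∈ (Finset.range n).filter fun m : ℕ ↦ InD c a (m + 1 : ℕ) ρ,
        II ε c a d E (xi ε n my) (xi ε n mu) ρy ρu (xi ε n (m + 1 : ℕ)) ρ := by
  have e1 := H.one_lt
  have y0 : 0 < my := by omega
  have p0 : 0 < xi ε n my := xi_zero (ε := ε) (n := n) ▸ xi_lt H y0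
  have q0 : 0 ≤ xi ε n mu := xi_zero (ε := ε) (n := n) ▸ (xi_mono H).monotone u0
  have x1 : 0 < xi ε n 1 := xi_zero (ε := ε) (n := n) ▸ xi_lt H one_pos
  have p1 : xi ε n my < ε - 1 := xi_n H ▸ xi_lt H y1
  have hq := xi_lt H uy
  obtain ⟨L, L0, hL⟩ := exists_between (show 0 < min 1 (min (ε - 1 - xi ε n my) (xi ε n 1)) by
    simp only [lt_min_iff]
    exact ⟨one_pos, by linarith, x1⟩)
  simp only [lt_min_iff] at hL
  obtain ⟨L1, L2, L3⟩ := hL
  replace L2 : L + xi ε n my + 1 < ε := by linarith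
  obtain ⟨F1, F2⟩ := F (xi ε n my + 2) (xi ε n mu + 1) L (ρy + 2) (ρu + 1) (by linarith)
    (by linarith) (by linarith) L0 (by linarith) fun k hk ↦ by
      have h2 : (n : ℝ) ≠ 0 := by exact_mod_cast (n_pos H).ne'
      refine (H.irr.mul_intCast (show my - n ≠ 0 by omega)).ne_int (my - n * (2 + k)) ?_
      rw [xi] at hk
      field_simp at hk
      push_cast
      linarith
  have hr : ∀ w : ℝ → ℝ, ∀ᶠ t : ℝ × ℝ in atTop ×ˢ 𝓟 (Set.Icc L (L + (ε - 1))),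
      L ≤ (t.2 + (w t.1 : ℝ) * I : ℂ).re ∧ (t.2 + (w t.1 : ℝ) * I : ℂ).re ≤ L + (ε - 1) :=
    fun w ↦ eventually_prod_principal_iff.2 (Eventually.of_forall fun R x hx ↦ by simpa using hx)
  have t1 := fun ρ ↦ tendsto_int (x₁ := L) (x₂ := L + (ε - 1))
    (φ := fun R x ↦ ff ε c a d E (xi ε n my) (xi ε n mu) ρy ρu (x + (-R : ℝ) * I) ρ)
    (by linarith) (ff_bot H P X G p0 hq L0 L1 L2 (by simpa using tendsto_fst) (hr fun R ↦ -R) ρ)
    ((eventually_gt_atTop 0).mono fun R hR ↦ horiz H P X L0 L1 L2 (neg_ne_zero.2 hR.ne') ρ)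
  have t2 := fun ρ ↦ tendsto_int (x₁ := L) (x₂ := L + (ε - 1))
    (φ := fun R x ↦ ff ε c a d E (xi ε n my) (xi ε n mu) ρy ρu (x + R * I) ρ)
    (by linarith) (ff_top H P X p0 L0 L1 L2 (by simpa using tendsto_fst) (hr id)
      ((hg ρ).mono_left (prod_mono_right _ le_top)))
    ((eventually_gt_atTop 0).mono fun R hR ↦ horiz H P X L0 L1 L2 hR.ne' ρ)
  have t3 := fun ρ ↦ intervalIntegral_tendsto_integral (F1 ρ) tendsto_neg_atTop_atBot tendsto_id
  have t4 := ((tendsto_finsetSum Finset.univ fun ρ _ ↦ t1 ρ).sub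
    (tendsto_finsetSum Finset.univ fun ρ _ ↦ t2 ρ)).add
    (((tendsto_finsetSum Finset.univ fun ρ _ ↦ t3 ρ).const_mul I).const_mul
      (1 - BB ε c a (xi ε n my + 1) (ρy + 1) 1 1))
  rw [F2] at t4
  refine Eq.trans ?_ (tendsto_nhds_unique t4 (tendsto_const_nhds.congr' ?_))
  · have a1 := P.eq1 (xi ε n my + 1) (ρy + 1) (by simp; linarith) (by simp; linarith)
    rw [Fm_red H y0.le y1, sub_eq_add_neg my, sub_eq_add_neg ρy,
      Fs_eq H P X (InD.add' hy (InD.neg' hu)) (by omega) (by omega), a1,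
      xi_add, xi_neg, ← Finset.mul_sum, ← Finset.mul_sum, Finset.sum_const_zero]
    push_cast
    rw [show (1 : ℂ) + ε - (xi ε n mu + 1) = ε - xi ε n mu by ring,
      show 1 + d - (ρu + 1) = d - ρu by ring,
      show (xi ε n my : ℂ) + 2 - (xi ε n mu + 1) = xi ε n my + -xi ε n mu + 1 by ring,
      show ρy + 2 - (ρu + 1) = ρy + -ρu + 1 by ring,
      show (xi ε n my : ℂ) + 1 + 1 = xi ε n my + 2 by ring, show ρy + 1 + 1 = ρy + 2 by ring]
    ring
  · filter_upwards [eventually_gt_atTop 0] with R R0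
    rw [Finset.mul_sum, ← Finset.sum_congr rfl fun ρ _ ↦ rect H P X hR L0 L1 L2 L3 R0 ρ,
      mul_left_comm, Finset.mul_sum _ _ (1 - _)]
    simp only [id, ← vert_int H P X hy hu y0 L0 L1 L2 L3 R, Finset.sum_sub_distrib,
      Finset.sum_add_distrib, ← Finset.mul_sum]
    rw [← Equiv.sum_comp (Equiv.addRight (d - 1)) fun ρ ↦ ∫ y in -R..R,
      ff ε c a d E (xi ε n my) (xi ε n mu) ρy ρu ((L + (ε - 1) : ℝ) + y * I) ρ]
    simp only [Equiv.coe_addRight]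
    ring

open scoped Classical in
theorem pent_red (H : Hyp ε n c a d) (P : PhiProp ε c a d) (X : Ext ε c a d E)
    (G : GamProp ε c a d) (F : IFProp ε c a d) (hR : StmtRect) {my mu : ℤ}
    (hy : InD c a my ρy) (hu : InD c a mu ρu) (u0 : 0 ≤ mu) (uy : mu < my) (y1 : my < n) :
    ∑ m ∈ Finset.range n, ∑ ρ ∈ Finset.univ.filter (InD c a m),
      Fm ε n c d (m + my) (ρ + ρy) * Fs ε n c d m ρ * bm ε n c a m ρ mu ρu =
      (ε - 1) / Fm ε n c d 0 0 * Fm ε n c d my ρy * Fm ε n c d (-mu) (-ρu) *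
        Fs ε n c d (my - mu) (ρy - ρu) := by
  have h0 : (ε : ℂ) ≠ 0 := by exact_mod_cast (e_pos H).ne'
  have h1 : (ε : ℂ) - 1 ≠ 0 := by exact_mod_cast (sub_pos.2 H.one_lt).ne'
  have hc : (c : ℂ) ≠ 0 := by exact_mod_cast NeZero.ne c
  have y0 : 0 < my := by omega
  set S : ℤ → ℂ := fun m ↦ ∑ ρ ∈ Finset.univ.filter (InD c a m),
    Fm ε n c d (m + my) (ρ + ρy) * Fs ε n c d m ρ * bm ε n c a m ρ mu ρu with hS
  have s1 : S n = S 0 := by
    refine (Finset.sum_equiv (Equiv.addRight (((1 : ℤ) : ZMod c) * (d - 1))) (fun ρ ↦ ?_)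
      fun ρ hρ ↦ ?_).symm
    · have := inD_shift H 0 1 ρ
      rw [zero_add, mul_one] at this
      simp only [Finset.mem_filter, Finset.mem_univ, true_and, Equiv.coe_addRight, this]
    · have b1 := Fm_shift H my 1 (ρ + ρy)
      have b2 := Fs_shift H 0 1 ρ
      have b3 := bm_shift H hu (Finset.mem_filter.1 hρ).2 1
      rw [zero_add, mul_one] at b2 b3
      rw [mul_one, add_comm my, add_right_comm] at b1
      rw [Equiv.coe_addRight, b1, b2, zero_add, bm, bm, BB_comm, ← bm, ← b3, bm, BB_comm]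
  have s2 : ∑ ρ, ∑ m ∈ (Finset.range n).filter fun m : ℕ ↦ InD c a (m + 1 : ℕ) ρ,
      II ε c a d E (xi ε n my) (xi ε n mu) ρy ρu (xi ε n (m + 1 : ℕ)) ρ =
      ∑ m ∈ Finset.range n, S m := by
    have b1 := Finset.sum_range_succ (fun m : ℕ ↦ S m) n
    rw [Finset.sum_range_succ', s1, Nat.cast_zero, add_left_inj] at b1
    rw [← b1]
    simp only [Finset.sum_filter, hS]
    rw [Finset.sum_comm]
    refine Finset.sum_congr rfl fun m hm ↦ Finset.sum_congr rfl fun ρ _ ↦ ?_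
    split_ifs with h
    · exact II_eq H P X h hy (by omega) (by have := Finset.mem_range.1 hm; omega) y0 y1
    · rfl
  have a0 := phi_ne (ε := ε) (d := d) 1 1
  refine mul_left_cancel₀ (div_ne_zero (neg_ne_zero.2 (mul_ne_zero hc h0)) h1) ?_
  rw [← s2, Fm_zero H]
  rcases u0.eq_or_lt with rfl | u0'
  · rw [← contour H P X G F hR hy hu le_rfl uy y1
      (g := fun ρ ↦ ZMod.stdAddChar (ρ * -(a * ρu))) fun ρ ↦ by
        simp only [BB, ee, xi_zero, ofReal_zero, mul_zero, zero_div, Complex.exp_zero, one_mul]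
        rw [show -(a * ρ * ρu) = ρ * -(a * ρu) by ring]
        exact tendsto_const_nhds,
      AddChar.sum_mulShift _ (ZMod.isPrimitive_stdAddChar c)]
    by_cases h : ρu = 0
    · subst h
      have a1 := phi_ne (ε := ε) (d := d) ε d
      have a2 := phi_ne (ε := ε) (d := d) (xi ε n my + 1) (ρy + 1)
      simp only [mul_zero, neg_zero, if_true, ZMod.card, sub_zero, xi_zero, ofReal_zero]
      rw [Fm_zero H, Fs_eq H P X hy y0 y1.le, Fm_red H y0.le y1, P.ratio]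
      field_simp
      ring
    · rw [if_neg fun h2 ↦ h (by linear_combination -d * h2 - ρu * H.ad),
        Fm_opp H X hu le_rfl (by omega) (Or.inr h)]
      field_simp
      ring
  · have q0 : 0 < xi ε n mu := xi_zero (ε := ε) (n := n) ▸ xi_lt H u0'
    rw [← contour H P X G F hR hy hu u0 uy y1 (g := fun _ ↦ 0) fun ρ ↦
      B_lim H (Tendsto.const_mul_atTop q0 (by simpa using tendsto_fst)) ρ ρu,
      Fm_opp H X hu u0 (by omega) (Or.inl u0'.ne')]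
    simp only [Finset.sum_const_zero]
    field_simp
    ring

open scoped Classical in
theorem pent (H : Hyp ε n c a d) (P : PhiProp ε c a d) (X : Ext ε c a d E)
    (G : GamProp ε c a d) (F : IFProp ε c a d) (hR : StmtRect) (my mu : ℤ) (ρy ρu : ZMod c)
    (hy : InD c a my ρy) (hu : InD c a mu ρu) (h : mu % n < my % n) :
    ∑ m ∈ Finset.range n, ∑ ρ ∈ Finset.univ.filter (InD c a m),
      Fm ε n c d (m + my) (ρ + ρy) * Fs ε n c d m ρ * bm ε n c a m ρ mu ρu =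
      (ε - 1) / Fm ε n c d 0 0 * Fm ε n c d my ρy * Fm ε n c d (-mu) (-ρu) *
        Fs ε n c d (my - mu) (ρy - ρu) := by
  obtain ⟨r, k, ρ₀, -, h1, h2, h3, rfl⟩ := exists_red H my ρy
  obtain ⟨r', k', ρ₁, h4, -, h5, h6, rfl⟩ := exists_red H mu ρu
  rw [← h2, ← h5] at h
  clear h2 h5
  subst h3 h6
  rw [inD_shift H] at hy hu
  rw [Fm_shift H, show -(r' + n * k') = -r' + n * -k' by ring,
    show -(ρ₁ + k' * (d - 1)) = -ρ₁ + (-k' : ℤ) * (d - 1) by push_cast; ring, Fm_shift H,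
    show r + n * k - (r' + n * k') = r - r' + n * (k - k') by ring,
    show ρ₀ + k * (d - 1) - (ρ₁ + k' * (d - 1)) = ρ₀ - ρ₁ + (k - k' : ℤ) * (d - 1) by
      push_cast; ring, Fs_shift H, ← pent_red H P X G F hR hy hu h4 h h1]
  refine Finset.sum_congr rfl fun m _ ↦ Finset.sum_congr rfl fun ρ hρ ↦ ?_
  rw [← add_assoc, ← add_assoc, Fm_shift H, bm_shift H (Finset.mem_filter.1 hρ).2 hu]

end M4

theorem blockM4 (h : StmtAN) (h1 : StmtPhi) (h2 : StmtGam) (h3 : StmtIF) : StmtModel := by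
  intro ε n c _ a d H
  have P := h1 ε n c a d H
  obtain ⟨E, X⟩ := M4.exists_ext H h.2.2.2.1 P
  exact ⟨M4.pent H P X (h2 ε n c a d H) (h3 ε n c a d H) h.1, M4.gam H P X (h2 ε n c a d H),
    M4.cnj H P X⟩

end Pool.Agent.Lib.Stark
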