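import Pool.Agent.Lib.stark.Defs1

set_option autoImplicit false

open Polynomial Finset

namespace Pool.Agent.Lib.Stark

namespace P0

section Bi
variable {G : Type} [AddCommGroup G] {b : G → G → ℂ} (hb : Bichar b)
include hb

lemma b_nsmul (k : ℕ) (x u : G) : b (k • x) u = b x u ^ k := by
  induction k with
  | zero => simpa using hb.zero u
  | succ k ih => rw [succ_nsmul, hb.add, ih, pow_succ]

lemma b_neg (x u : G) : b x (-u) = b (-x) u := by
  have h1 : b (-x) u * b x u = 1 := by rw [← hb.add, neg_add_cancel, hb.zero]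
  have h2 : b x u * b x (-u) = 1 := by
    rw [hb.symm x u, hb.symm x, ← hb.add, add_neg_cancel, hb.zero]
  rw [← one_mul (b x (-u)), ← h1, mul_assoc, h2, mul_one]

lemma sum_b [Fintype G] [DecidableEq G] (x : G) :
    ∑ u, b x u = if x = 0 then (Fintype.card G : ℂ) else 0 := by
  split_ifs with h
  · simp [h, hb.zero]
  · obtain ⟨y, hy⟩ := not_forall.1 (mt (hb.nondeg x) h)
    have : ∑ u, b x u = b y x * ∑ u, b x u := by
      rw [mul_sum]
      exact (Fintype.sum_equiv (Equiv.addLeft y) _ _ fun u => by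
        rw [Equiv.coe_addLeft, hb.symm x (y + u), hb.add, hb.symm u]).symm
    exact (mul_eq_zero.1 (show (b y x - 1) * ∑ u, b x u = 0 by linear_combination -this)).resolve_left
      (sub_ne_zero.2 hy)

end Bi

variable {Γ : Type} [LinearOrderedCommGroupWithZero Γ] (v : Valuation ℂ Γ)

lemma v_root {z : ℂ} {k : ℕ} (hk : k ≠ 0) (h : z ^ k = 1) : v z = 1 :=
  (pow_eq_one_iff_of_nonneg zero_le hk).1 (by rw [← map_pow, h, map_one])

lemma v_sub_one {p j : ℕ} (hp : p.Prime) (hv : v p < 1) {z : ℂ} (h : z ^ p ^ j = 1) :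
    v (z - 1) < 1 := by
  let y : v.integer := ⟨z, (v_root v (pow_ne_zero j hp.ne_zero) h).le⟩
  obtain ⟨r, hr⟩ := exists_add_pow_prime_pow_eq hp (y - 1) 1 j
  have h1 : (z - 1) ^ p ^ j = -(p * ((y - 1) * r : v.integer)) := by
    have := congrArg Subtype.val hr
    simp only [sub_add_cancel, one_pow, mul_one] at this
    push_cast at this ⊢
    linear_combination h - this
  refine (pow_lt_one_iff_of_nonneg zero_le (pow_ne_zero j hp.ne_zero)).1 ?_
  rw [← map_pow, h1, Valuation.map_neg, map_mul]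
  exact mul_lt_one_of_nonneg_of_lt_one_left zero_le hv ((y - 1) * r).2

lemma v_pow_le {z : ℂ} (hz : v z ≤ 1) (k : ℕ) : v (1 - z ^ k) ≤ v (1 - z) := by
  rw [← mul_neg_geom_sum, map_mul]
  exact mul_le_of_le_one_right' (v.map_sum_le fun i _ => by rw [map_pow]; exact pow_le_one' hz i)

lemma v_gcd {ζ : ℂ} {p m r : ℕ} (hp : p.Prime) (h : ζ ^ p ^ (m + 1) = 1) (h0 : 0 < r)
    (hr : r < p ^ (m + 1)) : v (1 - ζ ^ r) = v (1 - ζ ^ r.gcd (p ^ m)) := by
  have hz : ∀ k, v (ζ ^ k) ≤ 1 := fun k => by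
    rw [map_pow, v_root v (pow_ne_zero _ hp.ne_zero) h, one_pow]
  have e : r.gcd (p ^ m) = r.gcd (p ^ (m + 1)) := by
    refine Nat.dvd_antisymm (Nat.gcd_dvd_gcd_of_dvd_right _ (pow_dvd_pow p m.le_succ))
      (Nat.dvd_gcd (Nat.gcd_dvd_left _ _) ?_)
    obtain ⟨i, hi, e⟩ := (Nat.dvd_prime_pow hp).1 (Nat.gcd_dvd_right r (p ^ (m + 1)))
    have := (Nat.pow_lt_pow_iff_right hp.one_lt).1 (e ▸ (Nat.gcd_le_left _ h0).trans_lt hr)
    exact e ▸ pow_dvd_pow p (Nat.lt_succ_iff.1 this)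
  refine le_antisymm ?_ ?_
  · obtain ⟨k, hk⟩ := Nat.gcd_dvd_left r (p ^ m)
    conv_lhs => rw [hk, pow_mul]
    exact v_pow_le v (hz _) k
  · obtain ⟨k, -, hk⟩ := Nat.exists_mul_mod_eq_gcd ((Nat.gcd_le_left (p ^ (m + 1)) h0).trans_lt hr)
    rw [e, ← hk, ← pow_eq_pow_mod _ h, pow_mul]
    exact v_pow_le v (hz _) k

lemma prod_per {f : ℕ → Γ} {N : ℕ} (h0 : ∀ r, f r ≠ 0) (hf : ∀ r, f (r + N) = f r) (c k : ℕ) :
    ∏ i ∈ range (c * N), f (k + i) = (∏ i ∈ range N, f i) ^ c := by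
  have h1 : ∀ k, ∏ i ∈ range N, f (k + i) = ∏ i ∈ range N, f i := fun k => by
    induction k with
    | zero => simp
    | succ k ih =>
      refine mul_right_cancel₀ (h0 k) ?_
      have := prod_range_succ' (fun i => f (k + i)) N
      rw [prod_range_succ, hf, ih] at this
      simpa only [add_assoc, add_comm 1, add_zero] using this.symm
  induction c with
  | zero => simp
  | succ c ih => simp only [add_mul, one_mul, prod_range_add, ih, ← add_assoc, h1, pow_succ]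

variable {G : Type} [AddCommGroup G]

/-- The shift. -/
def sh (s : G) : Module.End ℂ (G → ℂ) := LinearMap.funLeft ℂ ℂ (· + s)

lemma sh_pow (s : G) (i : ℕ) (g : G → ℂ) (x : G) : (sh s ^ i) g x = g (x + i • s) := by
  induction i generalizing x with
  | zero => simp
  | succ i ih =>
    rw [pow_succ', Module.End.mul_apply, succ_nsmul', ← add_assoc, ← ih]; rfl

/-- Polynomials in the shift. -/
noncomputable def op (s : G) : v.integer[X] →+* Module.End ℂ (G → ℂ) :=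
  (aeval (sh s)).toRingHom.comp (mapRingHom v.integer.subtype)

lemma op_apply (s : G) (P : v.integer[X]) (g : G → ℂ) (x : G) : op v s P g x =
    ∑ i ∈ range ((P.map v.integer.subtype).natDegree + 1), P.coeff i * g (x + i • s) := by
  simp [op, aeval_eq_sum_range, sh_pow]

lemma op_le (s : G) (P : v.integer[X]) {g : G → ℂ} {S : Γ} (h : ∀ x, v (g x) ≤ S) (x : G) :
    v (op v s P g x) ≤ S := by
  rw [op_apply]
  exact v.map_sum_le fun i _ => by
    rw [map_mul]; exact (mul_le_of_le_one_left' (P.coeff i).2).trans (h _)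

lemma op_lt (s : G) (P : v.integer[X]) {g : G → ℂ} {S : Γ} (h : ∀ x, v (g x) < S) (x : G) :
    v (op v s P g x) < S := by
  rw [op_apply]
  exact v.map_sum_lt' (zero_le.trans_lt (h x)) fun i _ => by
    rw [map_mul]; exact (mul_le_of_le_one_left' (P.coeff i).2).trans_lt (h _)

lemma op_lt' (s : G) {P : v.integer[X]} (hP : P ∈ (v.ltIdeal 1).map C) {g : G → ℂ} {S : Γ}
    (hS : 0 < S) (h : ∀ x, v (g x) ≤ S) (x : G) : v (op v s P g x) < S := by
  rw [op_apply]
  exact v.map_sum_lt' hS fun i _ => by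
    rw [map_mul]
    exact (mul_le_mul_right (h _) _).trans_lt
      (mul_lt_of_lt_one_left hS (Ideal.mem_map_C_iff.1 hP i))

lemma op_iter (s : G) (N c : ℕ) (g : G → ℂ) :
    op v s ((X ^ N - 1) ^ c) g = (fwdDiff (N • s))^[c] g := by
  rw [map_pow, Module.End.pow_apply]
  congr 1
  funext g x
  simp [op, sh_pow, fwdDiff]

lemma cong {p m : ℕ} (hp : p.Prime) (hv : v p < 1) (y : v.integer) (hy : y.1 ^ p ^ (m + 1) = 1)
    (c : ℕ) : (X ^ p ^ m - 1) ^ c - ∏ i ∈ range (c * p ^ m), (X - C (y ^ i)) ∈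
      (v.ltIdeal 1).map (C : _ →+* v.integer[X]) := by
  rw [← Ideal.Quotient.eq, map_prod, prod_congr rfl (g := fun _ => Ideal.Quotient.mk _ (X - 1)),
    prod_const, card_range, mul_comm c, pow_mul, map_pow, ← map_pow _ (X - 1)]
  · congr 1
    obtain ⟨r, hr⟩ := exists_add_pow_prime_pow_eq hp (X - 1 : v.integer[X]) 1 m
    rw [Ideal.Quotient.eq, show X ^ p ^ m - 1 - (X - 1) ^ p ^ m = C (p : v.integer) * ((X - 1) * r) by
      rw [sub_add_cancel, one_pow] at hr; rw [hr, map_natCast]; ring]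
    exact Ideal.mul_mem_right _ _ (Ideal.mem_map_of_mem _ hv)
  · intro i _
    rw [Ideal.Quotient.eq, show X - C (y ^ i) - (X - 1) = -C (y ^ i - 1) by rw [map_sub, C_1]; ring]
    refine neg_mem (Ideal.mem_map_of_mem _ (v_sub_one v hp hv (j := m + 1) (z := y.1 ^ i) ?_))
    rw [← pow_mul, mul_comm, pow_mul, hy, one_pow]

end P0

open P0 in
theorem blockP0 : StmtOrth ∧ StmtKill := by
  refine ⟨fun G _ _ _ b hb => ⟨sum_b hb, fun g x => ?_, fun Γ _ v p hp hv => ⟨fun x u => ?_,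
    fun t j ht u => v_sub_one v hp hv (j := j) (by rw [← b_nsmul hb, ht, hb.zero])⟩⟩,
    fun G _ _ _ b hb Γ _ v p m hp hv => ?_⟩
  · simp only [sum_mul, mul_assoc, b_neg hb, ← hb.add]
    rw [sum_comm]
    simp [← mul_sum, sum_b hb, add_neg_eq_zero, mul_comm]
  · exact v_root v Fintype.card_ne_zero (by rw [← b_nsmul hb, card_nsmul_eq_zero, hb.zero])
  have q0 : p ^ (m + 1) ≠ 0 := pow_ne_zero _ hp.ne_zero
  have N0 : 0 < p ^ m := pow_pos hp.pos m
  have Nq : p ^ m < p ^ (m + 1) := Nat.pow_lt_pow_right hp.one_lt m.lt_succ_self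
  obtain ⟨ζ, hζ⟩ : ∃ ζ : ℂ, IsPrimitiveRoot ζ (p ^ (m + 1)) := ⟨_, Complex.isPrimitiveRoot_exp _ q0⟩
  have vζ := v_root v q0 hζ.pow_eq_one
  let f : ℕ → Γ := fun r => v (1 - ζ ^ r.gcd (p ^ m))
  have f0 : ∀ r, f r ≠ 0 := fun r => v.ne_zero_iff.2 (sub_ne_zero.2 (hζ.pow_ne_one_of_pos_of_lt
    (Nat.gcd_pos_of_pos_right _ N0).ne' ((Nat.gcd_le_right _ N0).trans_lt Nq)).symm)
  have hf := prod_per f0 (N := p ^ m) fun r => by simp [f]
  refine ⟨∏ i ∈ range (p ^ m), f i, ?_, fun s₁ s₂ h₁ h₂ c₁ c₂ _ _ k g R S hk hg hS hR x => ?_⟩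
  · obtain ⟨n, hn⟩ : ∃ n, p ^ (m + 1) = n + 1 := Nat.exists_eq_succ_of_ne_zero q0
    have hζ' : IsPrimitiveRoot ζ (n + 1) := hn ▸ hζ
    have key : ∀ i ∈ range n, f (1 + i) = v (1 - ζ ^ (i + 1)) := fun i hi => by
      rw [add_comm 1 i]
      exact (v_gcd v hp hζ.pow_eq_one i.succ_pos
        (hn ▸ Nat.succ_lt_succ (mem_range.1 hi))).symm
    rw [← hf p 1, ← pow_succ', hn, prod_range_succ, ← map_pow, ← Nat.cast_pow, hn, Nat.cast_succ,
      ← hζ'.prod_one_sub_pow_eq_order, map_prod, prod_congr rfl key]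
    refine mul_lt_of_lt_one_right (zero_lt_iff.2 (prod_ne_zero_iff.2 fun i hi => ?_)) ?_
    · rw [← key i hi]
      exact f0 _
    · simp only [f]
      rw [← Valuation.map_neg, neg_sub]
      exact v_sub_one v hp hv (j := m + 1) (by rw [← pow_mul, mul_comm, pow_mul, hζ.pow_eq_one, one_pow])
  let y : v.integer := ⟨ζ, vζ.le⟩
  have eig : ∀ s : G, addOrderOf s = p ^ (m + 1) → ∀ c u, ∃ z : ℂ,
      v z ≤ (∏ i ∈ range (p ^ m), f i) ^ c ∧
      op v s (∏ i ∈ range (c * p ^ m), (X - C (y ^ i))) (b · u) = z • (b · u) := fun s hs c u => by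
    refine ⟨_, ?_, Module.End.aeval_apply_of_mem_apply_eq_smul (μ := b s u)
      (funext fun x => (hb.add x s u).trans (mul_comm _ _))⟩
    have : NeZero (p ^ (m + 1)) := ⟨q0⟩
    obtain ⟨j, hj, e⟩ := hζ.eq_pow_of_pow_eq_one (ξ := b s u)
      (by rw [← b_nsmul hb, ← hs, addOrderOf_nsmul_eq_zero, hb.zero])
    simp only [coe_mapRingHom, Polynomial.map_sub, map_X, map_C, eval_prod,
      eval_sub, eval_X, eval_C, map_prod, ← e]
    rcases lt_or_ge j (c * p ^ m) with l | l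
    · rw [prod_eq_zero (mem_range.2 l) (by simp [y])]; exact zero_le
    · rw [← hf c (j - c * p ^ m + 1), ← prod_range_reflect]
      refine (prod_congr rfl fun i hi => ?_).le
      have := mem_range.1 hi
      obtain ⟨a, ha⟩ : ∃ a, a = c * p ^ m - 1 - i := ⟨_, rfl⟩
      obtain ⟨r, hr⟩ : ∃ r, r = j - c * p ^ m + 1 + i := ⟨_, rfl⟩
      rw [← ha, ← hr, show j = a + r by omega, ← Valuation.map_neg, show
        -(ζ ^ (a + r) - v.integer.subtype (y ^ a)) = ζ ^ a * (1 - ζ ^ r) by simp [y]; ring,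
        map_mul, map_pow, vζ, one_pow, one_mul]
      exact v_gcd v hp hζ.pow_eq_one (by omega) (by omega)
  have S0 : 0 < S := zero_le.trans_lt hR
  rw [← op_iter v s₂, ← op_iter v s₁]
  have a1 := op_lt v s₁ ((X ^ p ^ m - 1) ^ c₁) (op_lt' v s₂ (cong v hp hv y hζ.pow_eq_one c₂) S0 hS) x
  have a2 := op_lt' v s₁ (cong v hp hv y hζ.pow_eq_one c₁) S0
    (op_le v s₂ (∏ i ∈ range (c₂ * p ^ m), (X - C (y ^ i))) hS) x
  choose z₁ b₁ e₁ using eig s₁ h₁ c₁
  choose z₂ b₂ e₂ using eig s₂ h₂ c₂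
  generalize ∏ i ∈ range (c₁ * p ^ m), (X - C (y ^ i)) = P₁ at a1 a2 e₁
  generalize ∏ i ∈ range (c₂ * p ^ m), (X - C (y ^ i)) = P₂ at a1 a2 e₂
  have a3 : v (op v s₁ P₁ (op v s₂ P₂ g) x) < S := by
    rw [show g = ∑ u, k u • (b · u) from funext fun x => by simp [hg]]
    simp only [map_sum, map_smul, e₁, e₂, Finset.sum_apply, Pi.smul_apply, smul_eq_mul]
    refine (v.map_sum_le fun u _ => ?_).trans_lt hR
    rw [map_mul, map_mul, map_mul, v_root v Fintype.card_ne_zero (z := b x u)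
      (by rw [← b_nsmul hb, card_nsmul_eq_zero, hb.zero]), mul_one, pow_add, mul_comm (v (z₂ u))]
    exact mul_le_mul' (hk u) (mul_le_mul' (b₁ u) (b₂ u))
  have := v.map_add_lt (v.map_add_lt a1 a2) a3
  simpa only [map_sub, LinearMap.sub_apply, Pi.sub_apply, sub_add_sub_cancel, sub_add_cancel]
    using this

end Pool.Agent.Lib.Stark
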