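import Pool.Agent.Lib.stark.Defs1

namespace Pool.Agent.Lib.Stark

namespace P23

section Diff

variable {k : Type} [Field k]

theorem iter_zero (n : ℕ) : (fwdDiff (1 : ℕ))^[n] (0 : ℕ → k) = 0 := by
  induction n with
  | zero => rfl
  | succ n ih =>
    rw [Function.iterate_succ_apply]
    have : fwdDiff (1 : ℕ) (0 : ℕ → k) = 0 := by
      funext x; simp [fwdDiff]
    rw [this, ih]

theorem diff_mul (φ ψ : ℕ → k) : fwdDiff (1 : ℕ) (φ * ψ) =
    fwdDiff 1 φ * (fun x => ψ (x + 1)) + φ * fwdDiff 1 ψ := by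
  funext x
  simp only [fwdDiff, Pi.mul_apply, Pi.add_apply]
  ring

theorem iter_shift (ψ : ℕ → k) (n x : ℕ) :
    (fwdDiff (1 : ℕ))^[n] (fun x => ψ (x + 1)) x = (fwdDiff (1 : ℕ))^[n] ψ (x + 1) :=
  fwdDiff_iter_comp_add 1 ψ 1 n x

theorem succ_eq {ψ : ℕ → k} {b : ℕ} (h : (fwdDiff (1 : ℕ))^[b + 1] ψ = 0) (x : ℕ) :
    (fwdDiff (1 : ℕ))^[b] ψ (x + 1) = (fwdDiff (1 : ℕ))^[b] ψ x := by
  have := congrFun h x
  rw [Function.iterate_succ_apply'] at this
  exact sub_eq_zero.mp this

theorem const_eq {ψ : ℕ → k} {b : ℕ} (h : (fwdDiff (1 : ℕ))^[b + 1] ψ = 0) (x : ℕ) :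
    (fwdDiff (1 : ℕ))^[b] ψ x = (fwdDiff (1 : ℕ))^[b] ψ 0 := by
  induction x with
  | zero => rfl
  | succ x ih => rw [succ_eq h, ih]

theorem top (n : ℕ) : ∀ a b : ℕ, a + b = n → ∀ φ ψ : ℕ → k,
    (fwdDiff (1 : ℕ))^[a + 1] φ = 0 → (fwdDiff (1 : ℕ))^[b + 1] ψ = 0 → ∀ x,
    (fwdDiff (1 : ℕ))^[n] (φ * ψ) x =
      (n.choose a : k) * (fwdDiff (1 : ℕ))^[a] φ x * (fwdDiff (1 : ℕ))^[b] ψ x := by
  induction n with
  | zero =>
    intro a b hab φ ψ _ _ x
    obtain ⟨rfl, rfl⟩ : a = 0 ∧ b = 0 := by omega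
    simp
  | succ n ih =>
    intro a b hab φ ψ hφ hψ x
    rw [Function.iterate_succ_apply, diff_mul, fwdDiff_iter_add, Pi.add_apply]
    have hS : (fwdDiff (1 : ℕ))^[b + 1] (fun x => ψ (x + 1)) = 0 := by
      funext y
      rw [iter_shift, hψ]; rfl
    rcases a with _ | a
    · have h0 : fwdDiff (1 : ℕ) φ = 0 := hφ
      obtain rfl : b = n + 1 := by omega
      rw [h0, zero_mul, iter_zero, ih 0 n (by omega) φ (fwdDiff 1 ψ) hφ hψ x]
      simp [Function.iterate_succ_apply]
    · rcases b with _ | b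
      · have h0 : fwdDiff (1 : ℕ) ψ = 0 := hψ
        obtain rfl : a = n := by omega
        rw [h0, mul_zero, iter_zero, ih a 0 (by omega) (fwdDiff 1 φ) _ hφ hS x]
        have := succ_eq (b := 0) hψ x
        simp only [Function.iterate_zero, id] at this
        simp [Function.iterate_succ_apply, this]
      · rw [ih a (b + 1) (by omega) (fwdDiff 1 φ) _ hφ hS x,
          ih (a + 1) b (by omega) φ (fwdDiff 1 ψ) hφ hψ x, iter_shift, succ_eq hψ,
          Nat.choose_succ_succ']
        simp only [← Function.iterate_succ_apply]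
        push_cast
        ring

/-- The exact order of a nonzero function killed by a power of the difference operator. -/
theorem exists_order {φ : ℕ → k} (h0 : φ ≠ 0) {a : ℕ} (h : (fwdDiff (1 : ℕ))^[a + 1] φ = 0) :
    ∃ a' ≤ a, (fwdDiff (1 : ℕ))^[a' + 1] φ = 0 ∧ (fwdDiff (1 : ℕ))^[a'] φ ≠ 0 := by
  induction a with
  | zero => exact ⟨0, le_rfl, h, h0⟩
  | succ a ih =>
    by_cases h1 : (fwdDiff (1 : ℕ))^[a + 1] φ = 0
    · obtain ⟨a', h2, h3⟩ := ih h1
      exact ⟨a', by omega, h3⟩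
    · exact ⟨a + 1, le_rfl, h, h1⟩

/-- A function and its inverse cannot both have small degree. -/
theorem const_of_small (p : ℕ) [Fact p.Prime] [CharP k p] {φ ψ : ℕ → k}
    (h1 : ∀ x, φ x * ψ x = 1) {a b : ℕ} (hab : a + b < p)
    (hφ : (fwdDiff (1 : ℕ))^[a + 1] φ = 0) (hψ : (fwdDiff (1 : ℕ))^[b + 1] ψ = 0) :
    φ 1 = φ 0 := by
  have hφ0 : φ ≠ 0 := fun h => by simpa [h] using h1 0
  have hψ0 : ψ ≠ 0 := fun h => by simpa [h] using h1 0
  obtain ⟨a', ha, ha1, ha2⟩ := exists_order hφ0 hφ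
  obtain ⟨b', hb, hb1, hb2⟩ := exists_order hψ0 hψ
  rcases a' with _ | a'
  · exact succ_eq (b := 0) ha1 0
  · exfalso
    have ht := top (a' + 1 + b') (a' + 1) b' rfl φ ψ ha1 hb1 0
    have hc : φ * ψ = fun _ => 1 := funext h1
    have hz : (fwdDiff (1 : ℕ))^[a' + 1 + b'] (φ * ψ) 0 = 0 := by
      rw [show a' + 1 + b' = (a' + b') + 1 by omega, Function.iterate_succ_apply, hc,
        fwdDiff_const]
      exact congrFun (iter_zero _) 0
    rw [hz] at ht
    have hch : (((a' + 1 + b').choose (a' + 1) : ℕ) : k) ≠ 0 := by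
      rw [Ne, CharP.cast_eq_zero_iff k p]
      intro hd
      have hp : p.Prime := Fact.out
      have h2 : p ∣ (a' + 1 + b').factorial :=
        hd.trans (Dvd.intro _ (by
          rw [← Nat.choose_mul_factorial_mul_factorial (Nat.le_add_right (a' + 1) b'), mul_assoc]))
      have := (hp.dvd_factorial).1 h2
      omega
    have h3 : (fwdDiff (1 : ℕ))^[a' + 1] φ 0 ≠ 0 := fun h =>
      ha2 (funext fun x => (const_eq ha1 x).trans h)
    have h4 : (fwdDiff (1 : ℕ))^[b'] ψ 0 ≠ 0 := fun h =>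
      hb2 (funext fun x => (const_eq hb1 x).trans h)
    exact mul_ne_zero (mul_ne_zero hch h3) h4 ht.symm

variable {G : Type} [AddCommGroup G]

theorem iter_line (g : G → k) (t x : G) (c j : ℕ) :
    (fwdDiff (1 : ℕ))^[c] (fun j : ℕ => g (x + j • t)) j = (fwdDiff t)^[c] g (x + j • t) := by
  induction c generalizing g with
  | zero => rfl
  | succ c ih =>
    have e : fwdDiff (1 : ℕ) (fun j : ℕ => g (x + j • t)) =
        fun j : ℕ => fwdDiff t g (x + j • t) := by
      funext i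
      simp only [fwdDiff, succ_nsmul, add_assoc]
    rw [Function.iterate_succ_apply, Function.iterate_succ_apply, ← ih, e]

/-- A multiplicative character of a cyclic group of order `p` is trivial in characteristic `p`. -/
theorem inv_of_ratio (p : ℕ) [Fact p.Prime] [CharP k p] (F : G → k) (hF : ∀ x, F x ≠ 0) (t : G)
    (ht : p • t = 0) (h : ∀ x z, F (x + t) / F x = F (z + t) / F z) (x : G) :
    F (x + t) = F x := by
  set c := F (0 + t) / F 0 with hc
  have h1 : ∀ x, F (x + t) = c * F x := fun x => by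
    rw [hc, h 0 x, div_mul_cancel₀ _ (hF x)]
  have h2 : ∀ j : ℕ, F (x + j • t) = c ^ j * F x := fun j => by
    induction j with
    | zero => simp
    | succ j ih => rw [succ_nsmul, ← add_assoc, h1, ih, pow_succ]; ring
  have h3 : c ^ p = 1 := by
    have := h2 p
    rw [ht, add_zero] at this
    exact mul_right_cancel₀ (hF x) (by rw [← this, one_mul])
  have h4 : c = 1 := by
    have : (c - 1) ^ p = 0 := by rw [sub_pow_char, h3, one_pow, sub_self]
    exact sub_eq_zero.mp (pow_eq_zero_iff (Fact.out : p.Prime).ne_zero |>.mp this)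
  rw [h1, h4, one_mul]

/-- Abstract form of the first lemma. -/
theorem core2 (p : ℕ) [Fact p.Prime] [CharP k p] (F : G → k) (hF : ∀ x, F x ≠ 0) (t : G)
    (ht : p • t = 0) (a : ℕ) (ha : a + a < p)
    (h : ∀ y, y ≠ 0 → (fwdDiff t)^[a + 1] (fun x => F (x + y) / F x) = 0) (x : G) :
    F (x + t) = F x := by
  refine inv_of_ratio p F hF t ht (fun x z => ?_) x
  by_cases hxz : z - x = 0
  · rw [sub_eq_zero.mp hxz]
  have key := const_of_small p (φ := fun j : ℕ => F (x + j • t + (z - x)) / F (x + j • t))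
    (ψ := fun j : ℕ => F (z + j • t + -(z - x)) / F (z + j • t)) (a := a) (b := a)
    (fun j => by
      have e1 : x + j • t + (z - x) = z + j • t := by abel
      have e2 : z + j • t + -(z - x) = x + j • t := by abel
      simp only [e1, e2]
      field_simp [hF]) ha
    (funext fun j => by
      rw [iter_line (fun x' => F (x' + (z - x)) / F x') t x, h _ hxz]; rfl)
    (funext fun j => by
      rw [iter_line (fun x' => F (x' + -(z - x)) / F x') t z, h _ (neg_ne_zero.mpr hxz)]; rfl)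
  have e3 : x + (z - x) = z := by abel
  have e4 : x + t + (z - x) = z + t := by abel
  simp only [one_nsmul, zero_nsmul, add_zero, e3, e4] at key
  have h1 := hF x
  have h2 := hF z
  have h3 := hF (x + t)
  field_simp at key ⊢
  linear_combination -key

/-- Degrees in the two directions of a split function. -/
theorem split_deg (p : ℕ) (hp : 0 < p) (g : G → k) (t₁ t₂ x : G) (hg : ∀ x, g x ≠ 0)
    (hs : ∀ i j : ℕ, g (x + i • t₁ + j • t₂) * g x = g (x + i • t₁) * g (x + j • t₂))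
    (h : ∀ c₁ c₂ : ℕ, c₁ + c₂ = p → (fwdDiff t₁)^[c₁] ((fwdDiff t₂)^[c₂] g) = 0) :
    ∃ a b : ℕ, a + b + 1 = p ∧ (fwdDiff (1 : ℕ))^[a + 1] (fun i : ℕ => g (x + i • t₁)) = 0 ∧
      (fwdDiff (1 : ℕ))^[b + 1] (fun j : ℕ => g (x + j • t₂)) = 0 := by
  have key : ∀ c₁ c₂ : ℕ, c₁ + c₂ = p → ∀ i j : ℕ,
      (fwdDiff (1 : ℕ))^[c₁] (fun i : ℕ => g (x + i • t₁)) i *
        (fwdDiff (1 : ℕ))^[c₂] (fun j : ℕ => g (x + j • t₂)) j = 0 := by
    intro c₁ c₂ hc i j
    have h1 : ∀ i : ℕ, (fwdDiff t₂)^[c₂] g (x + j • t₂ + i • t₁) =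
        ((fwdDiff (1 : ℕ))^[c₂] (fun j : ℕ => g (x + j • t₂)) j / g x) • g (x + i • t₁) := by
      intro i
      have e : (fun j : ℕ => g (x + i • t₁ + j • t₂)) =
          (g (x + i • t₁) / g x) • fun j : ℕ => g (x + j • t₂) := by
        funext j
        have := hs i j
        have h0 := hg x
        simp only [Pi.smul_apply, smul_eq_mul]
        field_simp
        exact this
      rw [add_right_comm, ← iter_line g t₂ (x + i • t₁), e, fwdDiff_iter_const_smul]
      simp only [Pi.smul_apply, smul_eq_mul]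
      ring
    have h2 := iter_line ((fwdDiff t₂)^[c₂] g) t₁ (x + j • t₂) c₁ i
    rw [h c₁ c₂ hc] at h2
    have e : (fun i : ℕ => (fwdDiff t₂)^[c₂] g (x + j • t₂ + i • t₁)) =
        ((fwdDiff (1 : ℕ))^[c₂] (fun j : ℕ => g (x + j • t₂)) j / g x) •
          fun i : ℕ => g (x + i • t₁) := funext h1
    rw [e, fwdDiff_iter_const_smul] at h2
    simp only [Pi.smul_apply, smul_eq_mul, Pi.zero_apply] at h2
    have h0 := hg x
    field_simp at h2
    rw [mul_comm]
    simpa using h2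
  obtain ⟨q, rfl⟩ : ∃ q, p = q + 1 := ⟨p - 1, by omega⟩
  have h1 : (fwdDiff (1 : ℕ))^[q + 1] (fun i : ℕ => g (x + i • t₁)) = 0 := by
    funext i
    have := key (q + 1) 0 rfl i 0
    exact (mul_eq_zero.mp this).resolve_right (hg _)
  obtain ⟨a, ha, ha1, ha2⟩ := exists_order (fun h0 => hg _ (congrFun h0 0)) h1
  refine ⟨a, q - a, by omega, ha1, ?_⟩
  obtain ⟨i, hi⟩ := Function.ne_iff.mp ha2
  funext j
  exact (mul_eq_zero.mp (key a (q - a + 1) (by omega) i j)).resolve_left hi

theorem iter_mono {φ : ℕ → k} {a b : ℕ} (hab : a ≤ b) (h : (fwdDiff (1 : ℕ))^[a] φ = 0) :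
    (fwdDiff (1 : ℕ))^[b] φ = 0 := by
  obtain ⟨c, rfl⟩ := Nat.exists_eq_add_of_le' hab
  rw [Function.iterate_add_apply, h, iter_zero]

/-- Abstract form of the second lemma. -/
theorem core3 (p : ℕ) [Fact p.Prime] [CharP k p] (F : G → k) (hF : ∀ x, F x ≠ 0) (t₁ t₂ : G)
    (ht₁ : p • t₁ = 0) (ht₂ : p • t₂ = 0)
    (hs : ∀ (x : G) (i j : ℕ),
      F (x + i • t₁ + j • t₂) * F x = F (x + i • t₁) * F (x + j • t₂))
    (h : ∀ y, y ≠ 0 → ∀ c₁ c₂ : ℕ, c₁ + c₂ = p →
      (fwdDiff t₁)^[c₁] ((fwdDiff t₂)^[c₂] fun x => F (x + y) / F x) = 0) :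
    (∀ x, F (x + t₁) = F x) ∨ ∀ x, F (x + t₂) = F x := by
  have hp : 0 < p := (Fact.out : p.Prime).pos
  have hsp : ∀ (y x : G) (i j : ℕ),
      F (x + i • t₁ + j • t₂ + y) / F (x + i • t₁ + j • t₂) * (F (x + y) / F x) =
        F (x + i • t₁ + y) / F (x + i • t₁) * (F (x + j • t₂ + y) / F (x + j • t₂)) := by
    intro y x i j
    have e1 : x + i • t₁ + j • t₂ + y = x + y + i • t₁ + j • t₂ := by abel
    have e2 : x + i • t₁ + y = x + y + i • t₁ := by abel
    have e3 : x + j • t₂ + y = x + y + j • t₂ := by abel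
    rw [div_mul_div_comm, div_mul_div_comm, e1, e2, e3, hs, hs]
  have fin : ∀ (t x z : G), F (x + 1 • t + (z - x)) / F (x + 1 • t) =
      F (x + 0 • t + (z - x)) / F (x + 0 • t) → F (x + t) / F x = F (z + t) / F z := by
    intro t x z key
    have e3 : x + (z - x) = z := by abel
    have e4 : x + t + (z - x) = z + t := by abel
    simp only [one_nsmul, zero_nsmul, add_zero, e3, e4] at key
    have h1 := hF x
    have h2 := hF z
    have h3 := hF (x + t)
    field_simp at key ⊢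
    linear_combination -key
  have inv : ∀ (t x z : G) (j : ℕ), F (x + j • t + (z - x)) / F (x + j • t) *
      (F (z + j • t + -(z - x)) / F (z + j • t)) = 1 := by
    intro t x z j
    have e1 : x + j • t + (z - x) = z + j • t := by abel
    have e2 : z + j • t + -(z - x) = x + j • t := by abel
    rw [e1, e2]
    field_simp [hF]
  have dich : ∀ x z, F (x + t₁) / F x = F (z + t₁) / F z ∨
      F (x + t₂) / F x = F (z + t₂) / F z := by
    intro x z
    by_cases hxz : z - x = 0
    · left; rw [sub_eq_zero.mp hxz]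
    obtain ⟨a, b, hab, ha, hb⟩ := split_deg p hp (fun x' => F (x' + (z - x)) / F x') t₁ t₂ x
      (fun x' => div_ne_zero (hF _) (hF _)) (hsp _ x) (h _ hxz)
    obtain ⟨a', b', hab', ha', hb'⟩ := split_deg p hp (fun x' => F (x' + -(z - x)) / F x') t₁ t₂ z
      (fun x' => div_ne_zero (hF _) (hF _)) (hsp _ z) (h _ (neg_ne_zero.mpr hxz))
    by_cases hc : a + a' < p
    · exact Or.inl (fin t₁ x z (const_of_small p (inv t₁ x z) hc ha ha'))
    · exact Or.inr (fin t₂ x z (const_of_small p (inv t₂ x z) (by omega) hb hb'))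
  by_cases h1 : ∀ x z, F (x + t₁) / F x = F (z + t₁) / F z
  · exact Or.inl (inv_of_ratio p F hF t₁ ht₁ h1)
  · right
    push Not at h1
    obtain ⟨x₁, x₂, h12⟩ := h1
    have h2 := (dich x₁ x₂).resolve_left h12
    have h3 : ∀ z, F (z + t₂) / F z = F (x₁ + t₂) / F x₁ := by
      intro z
      rcases dich z x₁ with h4 | h4
      · rcases dich z x₂ with h5 | h5
        · exact absurd (h4.symm.trans h5) h12
        · exact h5.trans h2.symm
      · exact h4
    exact inv_of_ratio p F hF t₂ ht₂ fun x z => (h3 x).trans (h3 z).symm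

end Diff

section Res

variable {Γ : Type} [LinearOrderedCommGroupWithZero Γ] (v : Valuation ℂ Γ)

open IsLocalRing

theorem res_eq_zero (z : v.valuationSubring) :
    residue v.valuationSubring z = 0 ↔ v (z : ℂ) < 1 := by
  rw [residue_eq_zero_iff, Valuation.mem_maximalIdeal_iff]

theorem charP (p : ℕ) (hp : p.Prime) (hv : v p < 1) :
    CharP (ResidueField v.valuationSubring) p := by
  have : Fact p.Prime := ⟨hp⟩
  rw [CharP.charP_iff_prime_eq_zero hp]
  have : residue v.valuationSubring (p : v.valuationSubring) = 0 :=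
    (res_eq_zero v _).2 (by simpa using hv)
  simpa using this

theorem v_nat_eq_one (p : ℕ) (hp : p.Prime) (hv : v p < 1) (n : ℕ) (hn : ¬p ∣ n) :
    v n = 1 := by
  have := charP v p hp hv
  have h1 : v n ≤ 1 := (n : v.valuationSubring).2
  refine le_antisymm h1 (not_lt.mp fun h => hn ?_)
  have h2 : residue v.valuationSubring (n : v.valuationSubring) = 0 :=
    (res_eq_zero v _).2 (by simpa using h)
  rw [map_natCast] at h2
  exact (CharP.cast_eq_zero_iff _ p n).1 h2

theorem iter_comp {G A B : Type} [AddCommGroup G] [AddCommGroup A] [AddCommGroup B] (φ : A →+ B)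
    (t : G) (c : ℕ) (g : G → A) :
    (fwdDiff t)^[c] (fun x => φ (g x)) = fun x => φ ((fwdDiff t)^[c] g x) := by
  induction c generalizing g with
  | zero => rfl
  | succ c ih =>
    rw [Function.iterate_succ_apply, Function.iterate_succ_apply, ← ih]
    congr 1
    funext x
    simp [fwdDiff]

variable {G : Type} [AddCommGroup G] [Fintype G] [DecidableEq G]

/-- The residue form of the killing lemma for the quotients `f (x + y) / f x`. -/
theorem reduce (h : StmtOrth ∧ StmtKill) (f : G → ℂ) (b : G → G → ℂ) (e : ℂ)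
    (hP : IsPent f b e) (p m : ℕ) (hp : p.Prime) (hv : v p < 1) (he : v e = 1)
    (he1 : v (e - 1) < 1) (hf : ∀ x, v (f x) = 1) :
    ∃ (w : Γ) (F : G → ResidueField v.valuationSubring), w ^ p < v p ^ (m + 1) ∧
      (∀ x, F x ≠ 0) ∧ (∀ x y, F x = F y → v (f x - f y) < 1) ∧
      (∀ x y x' y', v (f x * f y - f x' * f y') < 1 → F x * F y = F x' * F y') ∧
      ∀ s₁ s₂ : G, addOrderOf s₁ = p ^ (m + 1) → addOrderOf s₂ = p ^ (m + 1) →
        ∀ c₁ c₂ : ℕ, c₁ ≤ p → c₂ ≤ p → w ^ (c₁ + c₂) < v (e - 1) → ∀ y, y ≠ 0 →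
        (fwdDiff (p ^ m • s₁))^[c₁] ((fwdDiff (p ^ m • s₂))^[c₂] fun x => F (x + y) / F x) = 0 := by
  obtain ⟨w, hw, hK⟩ := h.2 G b hP.bi Γ v p m hp hv
  obtain ⟨-, hinv, -⟩ := h.1 G b hP.bi
  let ft : G → v.valuationSubring := fun x => ⟨f x, (hf x).le⟩
  have hfs : ∀ x, v (fs f e x) = 1 := by
    intro x
    unfold fs
    split_ifs
    · rw [map_div₀, he, hf, div_one]
    · rw [map_inv₀, hf, inv_one]
  let fst : G → v.valuationSubring := fun x => ⟨fs f e x, (hfs x).le⟩
  have hF0 : ∀ x, residue v.valuationSubring (ft x) ≠ 0 := fun x h0 => by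
    have := (res_eq_zero v _).1 h0
    exact absurd (hf x) this.ne
  have hone : ∀ x, residue v.valuationSubring (ft x) * residue v.valuationSubring (fst x) = 1 := by
    intro x
    rw [← map_mul, ← sub_eq_zero, ← (residue v.valuationSubring).map_one, ← map_sub,
      res_eq_zero]
    change v (f x * fs f e x - 1) < 1
    unfold fs
    split_ifs with hx
    · subst hx
      rwa [mul_div_cancel₀ _ (hP.ne 0)]
    · rw [mul_inv_cancel₀ (hP.ne x), sub_self, map_zero]
      exact zero_lt_one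
  have hn0 : (Fintype.card G : ℂ) ≠ 0 := Nat.cast_ne_zero.mpr Fintype.card_ne_zero
  have hcard : v (Fintype.card G) = v (e - 1) ^ 2 := by
    rw [← map_pow, hP.card, map_mul, he, mul_one]
  have he0 : v (e - 1) ≠ 0 := fun h0 => by
    rw [h0, zero_pow two_ne_zero] at hcard
    exact hn0 ((Valuation.zero_iff v).1 hcard)
  refine ⟨w, fun x => residue _ (ft x), hw, hF0, fun x y hxy => ?_, fun x y x' y' hxy => ?_,
    fun s₁ s₂ h₁ h₂ c₁ c₂ hc₁ hc₂ hc y hy => ?_⟩
  · have : residue v.valuationSubring (ft x - ft y) = 0 := by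
      rw [map_sub]; exact sub_eq_zero.mpr hxy
    exact (res_eq_zero v _).1 this
  · have : residue v.valuationSubring (ft x * ft y - ft x' * ft y') = 0 :=
      (res_eq_zero v _).2 hxy
    rw [map_sub, map_mul, map_mul] at this
    exact sub_eq_zero.mp this
  · let gt : G → v.valuationSubring := fun x => ft (x + y) * fst x
    have hk := hK s₁ s₂ h₁ h₂ c₁ c₂ hc₁ hc₂
      (fun u => (∑ z, f (z + y) * fs f e z * b z (-u)) / Fintype.card G)
      (fun x => f (x + y) * fs f e x) (v (e - 1))⁻¹ 1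
      (fun u => by
        rw [hP.pent y (-u) hy, map_div₀, hcard]
        simp only [map_mul, map_div₀, hf, hfs, div_one, mul_one]
        rw [pow_two, div_mul_cancel_left₀ he0])
      (fun x => by
        have := hinv (fun x => f (x + y) * fs f e x) x
        rw [← Equiv.sum_comp (Equiv.neg G)] at this
        simp only [Equiv.neg_apply, neg_neg] at this
        simp only [div_mul_eq_mul_div]
        rw [← Finset.sum_div, this, mul_div_cancel_left₀ _ hn0])
      (fun x => by rw [map_mul, hf, hfs, mul_one])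
      (by
        rw [inv_mul_lt_iff₀ (zero_lt_iff.mpr he0), mul_one]
        exact hc)
    have e1 : (fun x => residue v.valuationSubring (ft (x + y)) / residue _ (ft x)) =
        fun x => (residue v.valuationSubring).toAddMonoidHom (gt x) := by
      funext x
      change _ = residue v.valuationSubring (ft (x + y) * fst x)
      rw [map_mul, div_eq_mul_inv, inv_eq_of_mul_eq_one_right (hone x)]
    have e2 : (fun x => f (x + y) * fs f e x) =
        fun x => v.valuationSubring.subtype.toAddMonoidHom (gt x) := rfl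
    rw [e1, iter_comp, iter_comp]
    rw [e2, iter_comp, iter_comp] at hk
    funext x
    exact (res_eq_zero v _).2 (hk x)

end Res

end P23

open P23

theorem blockP2 (h : StmtOrth ∧ StmtKill) : StmtP2 := by
  intro G _ _ _ f b e hP Γ _ v p m n' hp hp2 hv hcard hn' s hs he hf
  have : Fact p.Prime := ⟨hp⟩
  have := charP v p hp hv
  have h2 : v (e - 1) ^ 2 = v p ^ (m + 1) := by
    rw [← map_pow, hP.card, hcard, map_mul, he, mul_one, Nat.cast_mul, map_mul,
      v_nat_eq_one v p hp hv n' hn', mul_one, Nat.cast_pow, map_pow]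
  have hlt : v p ^ (m + 1) < 1 := pow_lt_one₀ zero_le hv (Nat.succ_ne_zero m)
  have he1 : v (e - 1) < 1 := by
    by_contra h1
    exact absurd (h2 ▸ hlt) (not_lt.mpr (one_le_pow₀ (not_lt.mp h1)))
  obtain ⟨w, F, hw, hF0, hF1, -, hK⟩ := reduce v h f b e hP p m hp hv he he1 hf
  obtain ⟨a, ha⟩ := hp.odd_of_ne_two hp2
  have hw1 : w ≤ 1 := by
    by_contra h1
    exact absurd (hw.trans hlt) (not_lt.mpr (one_le_pow₀ (not_le.mp h1).le))
  have hwc : w ^ (a + 1 + 0) < v (e - 1) := by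
    refine lt_of_pow_lt_pow_left₀ 2 zero_le ?_
    rw [h2, ← pow_mul]
    exact lt_of_le_of_lt (pow_le_pow_of_le_one zero_le hw1 (by omega)) hw
  have ht : p • (p ^ m • s) = 0 := by
    rw [← mul_nsmul', ← pow_succ', ← hs, addOrderOf_nsmul_eq_zero]
  intro x
  exact hF1 _ _ (core2 p F hF0 _ ht a (by omega)
    (fun y hy => hK s s hs hs (a + 1) 0 (by omega) (by omega) hwc y hy) x)

theorem blockP3 (h : StmtOrth ∧ StmtKill) : StmtP3 := by
  intro G _ _ _ f b e hP Γ _ v p m n' hp hv hcard hn' s₁ s₂ hs₁ hs₂ _ he hf hsp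
  have : Fact p.Prime := ⟨hp⟩
  have := charP v p hp hv
  have h2 : v (e - 1) ^ 2 = (v p ^ (m + 1)) ^ 2 := by
    rw [← map_pow, hP.card, hcard, map_mul, he, mul_one, Nat.cast_mul, map_mul,
      v_nat_eq_one v p hp hv n' hn', mul_one, Nat.cast_pow, map_pow, ← pow_mul, mul_comm]
  have h3 : v (e - 1) = v p ^ (m + 1) := (pow_left_inj₀ zero_le zero_le two_ne_zero).1 h2
  have hlt : v p ^ (m + 1) < 1 := pow_lt_one₀ zero_le hv (Nat.succ_ne_zero m)
  obtain ⟨w, F, hw, hF0, hF1, hF2, hK⟩ := reduce v h f b e hP p m hp hv he (h3 ▸ hlt) hf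
  have ht : ∀ s : G, addOrderOf s = p ^ (m + 1) → p • (p ^ m • s) = 0 := fun s hs => by
    rw [← mul_nsmul', ← pow_succ', ← hs, addOrderOf_nsmul_eq_zero]
  rcases core3 p F hF0 _ _ (ht s₁ hs₁) (ht s₂ hs₂) (fun x i j => hF2 _ _ _ _ (hsp x i j))
    (fun y hy c₁ c₂ hc => hK s₁ s₂ hs₁ hs₂ c₁ c₂ (by omega) (by omega)
      (by rw [hc, h3]; exact hw) y hy) with h4 | h4
  · exact Or.inl fun x => hF1 _ _ (h4 x)
  · exact Or.inr fun x => hF1 _ _ (h4 x)

end Pool.Agent.Lib.Stark
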