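import Pool.Agent.Lib.stark.Defs1

namespace Pool.Agent.Lib.Stark

/-- Leaf lemma for valuations, for every prime. -/
def StmtLeaf : Prop :=
  ∀ (G : Type) [AddCommGroup G] [Fintype G] [DecidableEq G] (f : G → ℂ) (b : G → G → ℂ) (e : ℂ),
    IsPent f b e → ∀ (Γ : Type) [LinearOrderedCommGroupWithZero Γ] (v : Valuation ℂ Γ)
    (p m n' : ℕ), p.Prime → v p < 1 → Fintype.card G = p ^ (m + 1) * n' → ¬p ∣ n' →
    ∀ s : G, addOrderOf s = p ^ (m + 1) → v e = 1 → v (f 0) = 1 →
    (∀ x, v (f x) * v (f (-x)) = 1) → ∀ x, v (f (x + p ^ m • s)) = v (f x)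

namespace PL

variable {k : Type} [CommRing k]

lemma const_of (φ : ℕ → k) (h : fwdDiff 1 φ = 0) (i : ℕ) : φ i = φ 0 := by
  induction i with
  | zero => rfl
  | succ i ih =>
    have := congrFun h i
    simp only [fwdDiff, Pi.zero_apply, sub_eq_zero] at this
    rw [this, ih]

lemma iter_const (a : ℕ) (φ : ℕ → k) (h : (fwdDiff 1)^[a + 1] φ = 0) (i : ℕ) :
    (fwdDiff 1)^[a] φ i = (fwdDiff 1)^[a] φ 0 := by
  rw [Function.iterate_succ_apply'] at h
  exact const_of _ h i

lemma leibniz (N : ℕ) : ∀ a b : ℕ, a + b = N → ∀ φ ψ : ℕ → k, (fwdDiff 1)^[a + 1] φ = 0 →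
    (fwdDiff 1)^[b + 1] ψ = 0 → ∀ i, (fwdDiff 1)^[a + b] (φ * ψ) i =
      ((a + b).choose a : k) * (fwdDiff 1)^[a] φ 0 * (fwdDiff 1)^[b] ψ 0 := by
  induction N with
  | zero =>
    intro a b hab φ ψ h1 h2 i
    obtain ⟨rfl, rfl⟩ : a = 0 ∧ b = 0 := by omega
    simp only [add_zero, Function.iterate_zero, id_eq, Pi.mul_apply, Nat.choose_self,
      Nat.cast_one, one_mul]
    rw [const_of φ h1 i, const_of ψ h2 i]
  | succ N ih =>
    intro a b hab φ ψ h1 h2 i
    rcases a with _ | a
    · have hφ : φ * ψ = φ 0 • ψ := by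
        funext j
        simp only [Pi.mul_apply, Pi.smul_apply, smul_eq_mul]
        rw [const_of φ h1 j]
      rw [hφ, fwdDiff_iter_const_smul]
      simp only [zero_add, Pi.smul_apply, smul_eq_mul, Nat.choose_zero_right, Nat.cast_one,
        Function.iterate_zero, id_eq, one_mul]
      rw [iter_const b ψ h2 i]
    rcases b with _ | b
    · have hφ : φ * ψ = ψ 0 • φ := by
        funext j
        simp only [Pi.mul_apply, Pi.smul_apply, smul_eq_mul]
        rw [const_of ψ h2 j, mul_comm]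
      rw [hφ, fwdDiff_iter_const_smul]
      simp only [add_zero, Pi.smul_apply, smul_eq_mul, Nat.choose_self, Nat.cast_one,
        Function.iterate_zero, id_eq, one_mul]
      rw [iter_const _ φ h1 i, mul_comm]
    have hd : fwdDiff 1 (φ * ψ) = fwdDiff 1 φ * (fun j => ψ (j + 1)) + φ * fwdDiff 1 ψ := by
      funext j
      simp only [fwdDiff, Pi.mul_apply, Pi.add_apply]
      ring
    have hT : (fwdDiff 1)^[b + 1 + 1] (fun j => ψ (j + 1)) = 0 := by
      funext j
      rw [fwdDiff_iter_comp_add, h2]; rfl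
    have e1 := ih a (b + 1) (by omega) (fwdDiff 1 φ) (fun j => ψ (j + 1)) h1 hT i
    have e2 := ih (a + 1) b (by omega) φ (fwdDiff 1 ψ) h1 h2 i
    have h3 : a + 1 + (b + 1) = (a + (b + 1)) + 1 := by ring
    have h4 : a + 1 + b = a + (b + 1) := by ring
    rw [h4] at e2
    rw [h3, Function.iterate_succ_apply, hd, fwdDiff_iter_add, Pi.add_apply, e1, e2,
      fwdDiff_iter_comp_add, iter_const _ ψ h2, Nat.choose_succ_succ]
    simp only [Function.iterate_succ_apply, Nat.succ_eq_add_one]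
    push_cast
    ring

lemma adj [IsDomain k] (p : ℕ) (hp : p.Prime) (hk : ∀ N : ℕ, ¬p ∣ N → (N : k) ≠ 0) (c : ℕ)
    (hc : 2 * c ≤ p + 1) (φ : ℕ → k) (h : (fwdDiff 1)^[c] φ = 0) (h0 : φ 0 ≠ 0) :
    ∃ i, φ i ≠ 0 ∧ φ (i + 1) ≠ 0 := by
  induction c with
  | zero => exact absurd (congrFun h 0) h0
  | succ a ih =>
    by_cases ha : (fwdDiff 1)^[a] φ = 0
    · exact ih (by omega) ha
    by_contra hcon
    push Not at hcon
    have hT : (fwdDiff 1)^[a + 1] (fun j => φ (j + 1)) = 0 := by
      funext j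
      rw [fwdDiff_iter_comp_add, h]; rfl
    have hz : φ * (fun j => φ (j + 1)) = 0 := by
      funext j
      simp only [Pi.mul_apply, Pi.zero_apply, mul_eq_zero]
      by_cases hj : φ j = 0
      · exact Or.inl hj
      · exact Or.inr (hcon j hj)
    have e1 := leibniz _ a a rfl φ _ h hT 0
    rw [hz, fwdDiff_iter_comp_add, iter_const a φ h (0 + 1)] at e1
    have hz0 : (fwdDiff 1)^[a + a] (0 : ℕ → k) 0 = 0 := by
      rw [fwdDiff_iter_eq_sum_shift]; simp
    rw [hz0] at e1
    have hκ : (fwdDiff 1)^[a] φ 0 ≠ 0 := by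
      intro h'
      apply ha
      funext j
      rw [iter_const a φ h, h']; rfl
    have hch : ((a + a).choose a : k) ≠ 0 := by
      apply hk
      intro hd
      have := (Nat.Prime.dvd_factorial hp).1
        (hd.trans ⟨_, (Nat.choose_mul_factorial_mul_factorial (Nat.le_add_right a a)).symm.trans
          (mul_assoc _ _ _)⟩)
      omega
    exact mul_ne_zero (mul_ne_zero hch hκ) hκ e1.symm

variable {Γ : Type} [LinearOrderedCommGroupWithZero Γ] (v : Valuation ℂ Γ)

lemma v_nat_le (N : ℕ) : v N ≤ 1 := by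
  induction N with
  | zero => simp
  | succ N ih =>
    push_cast
    exact (v.map_add _ _).trans (max_le ih (by simp))

lemma v_int_le (N : ℤ) : v N ≤ 1 := by
  rcases Int.eq_nat_or_neg N with ⟨n, rfl | rfl⟩
  · simpa using v_nat_le v n
  · simpa using v_nat_le v n

lemma v_nat_eq {p : ℕ} (hp : p.Prime) (hv : v p < 1) {N : ℕ} (hN : ¬p ∣ N) : v N = 1 := by
  refine le_antisymm (v_nat_le v N) ?_
  by_contra hlt
  push Not at hlt
  have hco : IsCoprime (p : ℤ) (N : ℤ) :=
    Nat.isCoprime_iff_coprime.2 ((Nat.Prime.coprime_iff_not_dvd hp).2 hN)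
  obtain ⟨a, b, hab⟩ := hco
  have h1 : (a : ℂ) * p + b * N = 1 := by exact_mod_cast congrArg (Int.cast : ℤ → ℂ) hab
  have : v ((a : ℂ) * p + b * N) < 1 := by
    apply v.map_add_lt
    · rw [map_mul]
      exact lt_of_le_of_lt (mul_le_of_le_one_left' (v_int_le v a)) hv
    · rw [map_mul]
      exact lt_of_le_of_lt (mul_le_of_le_one_left' (v_int_le v b)) hlt
  rw [h1] at this
  simp at this

lemma consec {G : Type} [AddCommGroup G] {p : ℕ} (hp : p.Prime) (hv : v p < 1) (c : ℕ)
    (hc : 2 * c ≤ p + 1) (g : G → ℂ) (y x₀ : G) (h0 : g x₀ ≠ 0) (hle : ∀ x, v (g x) ≤ v (g x₀))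
    (hk : ∀ x, v ((fwdDiff y)^[c] g x) < v (g x₀)) :
    ∃ x, v (g x) = v (g x₀) ∧ v (g (x + y)) = v (g x₀) := by
  have hv0 : v (g x₀) ≠ 0 := by simpa using h0
  have hv1 : 0 < v (g x₀) := zero_lt_iff.2 hv0
  have hmem : ∀ x, g x / g x₀ ∈ v.valuationSubring := by
    intro x
    rw [Valuation.mem_valuationSubring_iff, map_div₀, div_le_one₀ hv1]
    exact hle x
  let ψ : ℕ → v.valuationSubring := fun i => ⟨g (x₀ + i • y) / g x₀, hmem _⟩
  let φ : ℕ → IsLocalRing.ResidueField v.valuationSubring := fun i => IsLocalRing.residue _ (ψ i)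
  have hres : ∀ z : v.valuationSubring, IsLocalRing.residue _ z = 0 ↔ v z < 1 := by
    intro z
    rw [IsLocalRing.residue_eq_zero_iff, Valuation.mem_maximalIdeal_iff]
  have hne : ∀ i, φ i ≠ 0 → v (g (x₀ + i • y)) = v (g x₀) := by
    intro i hi
    refine le_antisymm (hle _) ?_
    by_contra hlt
    push Not at hlt
    apply hi
    rw [hres]
    change v (g (x₀ + i • y) / g x₀) < 1
    rw [map_div₀, div_lt_one₀ hv1]
    exact hlt
  obtain ⟨i, h1, h2⟩ := adj p hp (k := IsLocalRing.ResidueField v.valuationSubring) (by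
    intro N hN h
    have : IsLocalRing.residue v.valuationSubring (N : v.valuationSubring) = 0 := by
      rw [map_natCast]; exact h
    rw [hres] at this
    have h2 : ((N : v.valuationSubring) : ℂ) = N := by simp
    rw [h2, v_nat_eq v hp hv hN] at this
    exact lt_irrefl _ this) c hc φ (by
    funext i
    have e1 : (fwdDiff 1)^[c] φ i = IsLocalRing.residue _ ((fwdDiff 1)^[c] ψ i) := by
      rw [fwdDiff_iter_eq_sum_shift, fwdDiff_iter_eq_sum_shift, map_sum]
      simp only [map_zsmul, φ]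
    rw [e1, Pi.zero_apply, hres]
    have e2 : (((fwdDiff 1)^[c] ψ i : v.valuationSubring) : ℂ) =
        (fwdDiff y)^[c] g (x₀ + i • y) / g x₀ := by
      rw [fwdDiff_iter_eq_sum_shift, fwdDiff_iter_eq_sum_shift, Finset.sum_div]
      push_cast
      refine Finset.sum_congr rfl fun j _ => ?_
      simp only [ψ, smul_eq_mul, mul_one, add_smul, add_assoc, zsmul_eq_mul]
      ring
    rw [e2, map_div₀, div_lt_one₀ hv1]
    exact hk _) (by
    rw [Ne, hres]
    change ¬ v (g (x₀ + 0 • y) / g x₀) < 1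
    simp [h0])
  refine ⟨x₀ + i • y, hne _ h1, ?_⟩
  have := hne _ h2
  rwa [succ_nsmul, ← add_assoc] at this

end PL

theorem blockPL (h : StmtOrth ∧ StmtKill) : StmtLeaf := by
  intro G _ _ _ f b e hP Γ _ v p m n' hp hv hcard hn' s hs he hf0 hodd
  obtain ⟨-, hinv, -⟩ := h.1 G b hP.bi
  obtain ⟨w, hw, hK⟩ := h.2 G b hP.bi Γ v p m hp hv
  set t := p ^ m • s with ht
  set ν : G → Γ := fun x => v (f x) with hν
  have hν0 : ∀ x, ν x ≠ 0 := fun x => by simpa [hν] using hP.ne x
  have hνp : ∀ x, 0 < ν x := fun x => zero_lt_iff.2 (hν0 x)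
  have hneg : ∀ x, ν (-x) = (ν x)⁻¹ := fun x => (eq_inv_of_mul_eq_one_right (hodd x))
  have hfs : ∀ x, v (fs f e x) = (ν x)⁻¹ := by
    intro x
    unfold fs
    split_ifs with hx
    · subst hx; simp [hν, he, hf0]
    · simp [hν]
  set γ : ℂ := (e - 1) / f 0 with hγ
  have hG : (Fintype.card G : ℂ) ≠ 0 := by exact_mod_cast Fintype.card_ne_zero
  have hvn : v (Fintype.card G : ℂ) = v p ^ (m + 1) := by
    rw [hcard]; push_cast
    rw [map_mul, map_pow, PL.v_nat_eq v hp hv hn', mul_one]
  have hγ2 : v γ ^ 2 = v p ^ (m + 1) := by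
    rw [hγ, map_div₀, hf0, div_one, ← map_pow, hP.card, map_mul, he, mul_one, hvn]
  have hγ0 : v γ ≠ 0 := by
    intro h0
    rw [h0, ← hvn] at hγ2
    have : v (Fintype.card G : ℂ) ≠ 0 := by simp
    exact this (by rw [← hγ2]; simp)
  have hγc : γ ≠ 0 := by simpa using hγ0
  have hγp : 0 < v γ := zero_lt_iff.2 hγ0
  set c := (p + 1) / 2 with hc
  have hp2 := hp.two_le
  have hwc : w ^ c < v γ := by
    have hw1 : w ≤ 1 := by
      by_contra hlt
      push Not at hlt
      have h1 : 1 ≤ w ^ p := one_le_pow₀ hlt.le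
      have h2 : v p ^ (m + 1) ≤ 1 := pow_le_one₀ zero_le hv.le
      exact absurd (h1.trans_lt (hw.trans_le h2)) (lt_irrefl _)
    apply lt_of_pow_lt_pow_left₀ 2 zero_le
    rw [hγ2, ← pow_mul]
    exact lt_of_le_of_lt (pow_le_pow_of_le_one zero_le hw1 (by omega)) hw
  -- the key step
  have key : ∀ y ∈ AddSubgroup.zmultiples t, y ≠ 0 → ∀ (k g : G → ℂ) (x₀ : G), g x₀ ≠ 0 →
      (∀ u, v (k u) * v γ ≤ v (g x₀)) → (∀ x, g x = ∑ u, k u * b x u) →
      (∀ x, v (g x) ≤ v (g x₀)) → ∃ x, v (g x) = v (g x₀) ∧ v (g (x + y)) = v (g x₀) := by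
    intro y hy hy0 k g x₀ h0 hk hg hle
    rw [← mem_multiples_iff_mem_zmultiples] at hy
    obtain ⟨j, rfl⟩ := hy
    have hj : ¬p ∣ j := by
      rintro ⟨i, rfl⟩
      apply hy0
      have : p • t = 0 := by
        rw [ht, smul_smul, ← pow_succ', ← hs]; exact addOrderOf_nsmul_eq_zero s
      change (p * i) • t = 0
      rw [mul_comm, mul_smul, this, smul_zero]
    have ho : addOrderOf (j • s) = p ^ (m + 1) := by
      rw [← hs]
      apply Nat.Coprime.addOrderOf_nsmul
      rw [hs]
      exact Nat.Coprime.pow_left _ ((Nat.Prime.coprime_iff_not_dvd hp).2 hj)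
    have hv0 : v (g x₀) ≠ 0 := by simpa using h0
    have := hK (j • s) (j • s) ho ho c 0 (by omega) (by omega) k g (v (g x₀) / v γ) (v (g x₀))
      (fun u => by rw [le_div_iff₀ hγp]; exact hk u) hg hle (by
        rw [add_zero, div_mul_eq_mul_div, div_lt_iff₀ hγp]
        exact mul_lt_mul_of_pos_left hwc (zero_lt_iff.2 hv0))
    refine PL.consec v hp hv c (by omega) g _ x₀ h0 hle fun x => ?_
    have h2 := this x
    rwa [Function.iterate_zero, id_eq, smul_comm, ← ht] at h2
  obtain ⟨⟨x₀, y⟩, hmem, hmax⟩ := Finset.exists_max_image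
    (Finset.univ.filter fun q : G × G => q.2 ∈ AddSubgroup.zmultiples t)
    (fun q => ν (q.1 + q.2) / ν q.1) ⟨(0, 0), by simp⟩
  have hy : y ∈ AddSubgroup.zmultiples t := by simpa using hmem
  set A := ν (x₀ + y) / ν x₀ with hA
  have hmax' : ∀ x, ∀ z ∈ AddSubgroup.zmultiples t, ν (x + z) / ν x ≤ A := fun x z hz =>
    hmax (x, z) (by simpa using hz)
  have hA1 : A ≤ 1 := by
    by_contra hlt
    push Not at hlt
    have hAp : 0 < A := lt_trans zero_lt_one hlt
    have hy0 : y ≠ 0 := by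
      rintro rfl
      rw [hA, add_zero, div_self (hν0 _)] at hlt
      exact lt_irrefl _ hlt
    set g : G → ℂ := fun x => f (x + y) * fs f e x with hg
    set q : G → ℂ := fun u => f y * f (-u) * fs f e (y - u) with hq
    have hvg : ∀ x, v (g x) = ν (x + y) / ν x := by
      intro x; simp only [hg, map_mul, hfs, div_eq_mul_inv, hν]
    have hvq : ∀ u, v (q u) = ν y * (ν (-u) / ν (-u + y)) := by
      intro u
      simp only [hq, map_mul, hfs, div_eq_mul_inv, hν, mul_assoc]
      rw [show y - u = -u + y by abel]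
    have hpent : ∀ u, ∑ x, g x * b x u = γ * q u := by
      intro u
      have := hP.pent y u hy0
      simp only [hg, hq, hγ]
      rw [this]; ring
    obtain ⟨u₀, -, hu₀⟩ := Finset.exists_max_image Finset.univ (fun u => v (q u)) ⟨0, by simp⟩
    have hu : ∀ u, v (q u) ≤ v (q u₀) := fun u => hu₀ u (Finset.mem_univ _)
    have h2y : y + y ∈ AddSubgroup.zmultiples t := add_mem hy hy
    rcases le_or_gt (v (q u₀)) A with hle | hlt2
    · obtain ⟨x, h1, h2⟩ := key y hy hy0 (fun u => γ * q (-u) / Fintype.card G) g x₀ (by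
        intro h0
        have := hvg x₀
        rw [h0, map_zero] at this
        exact hAp.ne this) (by
        intro u
        rw [map_div₀, map_mul, hvn, ← hγ2, hvg, ← hA]
        have : v γ * v (q (-u)) / v γ ^ 2 * v γ = v (q (-u)) := by field_simp
        rw [this]
        exact (hu _).trans hle) (by
        intro x
        have := hinv g x
        simp only [hpent] at this
        rw [← Equiv.sum_comp (Equiv.neg G)] at this
        simp only [Equiv.neg_apply, neg_neg] at this
        simp only [div_mul_eq_mul_div]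
        rw [← Finset.sum_div, this]
        field_simp) (fun x => by rw [hvg, hvg]; exact hmax' x y hy)
      rw [hvg, hvg, ← hA] at h1 h2
      have h3 := hmax' x (y + y) h2y
      have h4 : ν (x + (y + y)) / ν x = A * A := by
        conv_rhs => rw [← h2]; arg 2; rw [h2, ← h1]
        rw [add_assoc]
        have := hν0 (x + y)
        have := hν0 x
        field_simp
      rw [h4] at h3
      exact absurd (lt_mul_of_one_lt_left hAp hlt) (not_lt.2 h3)
    · obtain ⟨u, h1, h2⟩ := key y hy hy0 (fun x => g x / γ) q u₀ (by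
        intro h0
        rw [h0, map_zero] at hlt2
        exact absurd hlt2 (not_lt.2 zero_le)) (by
        intro x
        rw [map_div₀, div_mul_cancel₀ _ hγ0, hvg]
        exact (hmax' x y hy).trans hlt2.le) (by
        intro u
        simp only [div_mul_eq_mul_div, hP.bi.symm u]
        rw [← Finset.sum_div, hpent]
        field_simp) hu
      rw [hvq] at h1 h2
      have h3 := hmax' (-u + y) (-(y + y)) (neg_mem h2y)
      have h4 := hmax' (-y) (y + y) h2y
      rw [show -u + y + -(y + y) = -(u + y) by abel] at h3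
      rw [show -y + (y + y) = y by abel, hneg y] at h4
      rw [show -(u + y) + y = -u by abel] at h2
      have h5 : v (q u₀) * v (q u₀) = ν y / (ν y)⁻¹ * (ν (-(u + y)) / ν (-u + y)) := by
        conv_lhs => rw [← h1]; arg 2; rw [h1, ← h2]
        have := hν0 (-u)
        have := hν0 (-u + y)
        have := hν0 y
        field_simp
      have h6 : v (q u₀) * v (q u₀) ≤ A * A := by
        rw [h5]; exact mul_le_mul' h4 h3
      exact absurd (mul_lt_mul'' hlt2 hlt2 zero_le zero_le) (not_lt.2 h6)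
  intro x
  have h1 := (hmax' x t (AddSubgroup.mem_zmultiples t)).trans hA1
  have h2 := (hmax' (x + t) (-t) (neg_mem (AddSubgroup.mem_zmultiples t))).trans hA1
  rw [add_neg_cancel_right, div_le_one₀ (hνp _)] at h2
  rw [div_le_one₀ (hνp _)] at h1
  exact le_antisymm h1 h2

end Pool.Agent.Lib.Stark
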