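import Pool.Agent.Lib.stark.Defs2

open Complex NumberField Filter Topology Ideal
open scoped Real nonZeroDivisors ComplexConjugate

namespace Pool.Agent.Lib.Stark
namespace R0
set_option linter.unusedSectionVars false

section Group
variable {G : Type} [AddCommGroup G] [Fintype G] [DecidableEq G] {f : G → ℂ} {b : G → G → ℂ}
  {e : ℂ}

theorem gm_zero (f : G → ℂ) (e : ℂ) : gm f e 0 = f 0 ^ 2 / e := by
  rw [gm, fs, if_pos rfl, neg_zero, div_div_eq_mul_div, sq]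

theorem gm_pow (h : IsPent f b e) (g : G) (N : ℕ) (hN : N • g = 0) :
    gm f e g ^ (2 * N) = gm f e 0 ^ (2 * N) := by
  have hb : ∀ j : ℕ, b (j • g) g = b g g ^ j := fun j => by
    induction j with
    | zero => rw [zero_smul, h.bi.zero, pow_zero]
    | succ j ih => rw [succ_nsmul, h.bi.add, ih, pow_succ]
  have key : ∀ j : ℕ, gm f e (j • g) ^ 2 * gm f e 0 ^ (2 * j) * b g g ^ (j * j) =
      gm f e 0 ^ 2 * gm f e g ^ (2 * j) * b g g ^ j := fun j => by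
    induction j with
    | zero => simp
    | succ j ih =>
      have := h.gam (j • g) g
      rw [hb, ← succ_nsmul] at this
      calc _ = (gm f e ((j + 1) • g) * gm f e 0 * b g g ^ j) ^ 2 * gm f e 0 ^ (2 * j) *
            b g g ^ (j * j) * b g g := by ring
        _ = (gm f e (j • g) ^ 2 * gm f e 0 ^ (2 * j) * b g g ^ (j * j)) * gm f e g ^ 2 *
            b g g := by rw [this]; ring
        _ = _ := by rw [ih]; ring
  have h1 : b g g ^ N = 1 := by rw [← hb, hN, h.bi.zero]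
  have h0 : gm f e 0 ≠ 0 := by
    rw [gm_zero]; exact div_ne_zero (pow_ne_zero _ (h.ne 0)) h.e_ne
  have := key N
  rw [hN, pow_mul (b g g), h1, one_pow, mul_one, mul_one] at this
  exact (mul_left_cancel₀ (pow_ne_zero 2 h0) this).symm

end Group

variable {K : Type} [Field K] [NumberField K]

theorem pent_pow {ε : K} {e : ℂ} {Λ : Submodule ℤ K} {F : K → ℂ} (h : PentAt ε e Λ F) {x : K}
    (N : ℕ) (hx : Tor ε Λ x) (hx' : x ∉ Λ) (hN : (N : K) * x ∈ Λ) :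
    (F x * F (-x)) ^ (2 * N) = (F 0 ^ 2 / e) ^ (2 * N) := by
  obtain ⟨G, _, _, _, q, f, b, h1, h2, -, h4, h5⟩ := h
  have t0 : Tor ε Λ 0 := by unfold Tor; rw [mul_zero]; exact zero_mem _
  have tn : Tor ε Λ (-x) := by unfold Tor; rw [mul_neg]; exact neg_mem hx
  have tj : ∀ j : ℕ, Tor ε Λ ((j : K) * x) := fun j => by
    unfold Tor
    rw [mul_left_comm, ← nsmul_eq_mul]
    exact nsmul_mem hx j
  have q0 : q 0 = 0 := (h2 0 t0).2 (zero_mem _)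
  have qn : q (-x) = -q x := by
    have := h1 x (-x) hx tn
    rw [add_neg_cancel, q0] at this
    exact (neg_eq_of_add_eq_zero_right this.symm).symm
  have qj : ∀ j : ℕ, q ((j : K) * x) = j • q x := fun j => by
    induction j with
    | zero => simpa using q0
    | succ j ih => rw [Nat.cast_succ, add_mul, one_mul, h1 _ _ (tj j) hx, ih, succ_nsmul]
  have := gm_pow h5 (q x) N (by rw [← qj]; exact (h2 _ (tj N)).2 hN)
  rw [gm_zero, gm, fs, if_neg fun h => hx' ((h2 x hx).1 h), ← qn, h4 _ tn, h4 _ hx,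
    div_inv_eq_mul, mul_comm (F (-x)), ← q0, h4 _ t0] at this
  exact this

/-- The lattice `α⁻¹ Λ`. -/
noncomputable def sc (α : K) (Λ : Submodule ℤ K) : Submodule ℤ K :=
  Λ.map (LinearMap.mulLeft ℤ α⁻¹)

theorem mem_sc {α : K} (hα : α ≠ 0) {Λ : Submodule ℤ K} {y : K} : y ∈ sc α Λ ↔ α * y ∈ Λ := by
  constructor
  · rintro ⟨z, hz, rfl⟩
    rwa [LinearMap.mulLeft_apply, mul_inv_cancel_left₀ hα]
  · exact fun h => ⟨_, h, inv_mul_cancel_left₀ hα y⟩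

theorem isLat_sc {α : K} (hα : α ≠ 0) {Λ : Submodule ℤ K} (h : IsLat Λ) : IsLat (sc α Λ) :=
  ⟨h.1.map _, fun x => (h.2 (α * x)).imp fun m hm =>
    ⟨hm.1, (mem_sc hα).2 (by rw [mul_left_comm]; exact hm.2)⟩⟩

theorem sl_sc {ε α : K} (hα : α ≠ 0) {Λ : Submodule ℤ K} (h : SL ε Λ) : SL ε (sc α Λ) :=
  ⟨isLat_sc hα h.1, fun y hy => (mem_sc hα).2 (by
    rw [mul_left_comm]; exact h.2 _ ((mem_sc hα).1 hy))⟩

theorem exists_den {Λ M : Submodule ℤ K} (h : IsLat Λ) (hM : M.FG) :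
    ∃ f : ℕ, 0 < f ∧ ∀ y ∈ M, (f : K) * y ∈ Λ := by
  choose m hm hm' using h.2
  obtain ⟨s, rfl⟩ := hM
  refine ⟨∏ x ∈ s, m x, Finset.prod_pos fun x _ => hm x, fun y hy => ?_⟩
  have : Submodule.span ℤ (s : Set K) ≤ Λ.comap (LinearMap.mulLeft ℤ ((∏ x ∈ s, m x : ℕ) : K)) := by
    refine Submodule.span_le.2 fun x hx => ?_
    obtain ⟨k, hk⟩ := Finset.dvd_prod_of_mem m hx
    change ((∏ x ∈ s, m x : ℕ) : K) * x ∈ Λ
    rw [hk, Nat.cast_mul, mul_comm (m x : K), mul_assoc, ← nsmul_eq_mul]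
    exact nsmul_mem (hm' x) k
  exact this hy

theorem sl_span {ε : K} {Λ : Submodule ℤ K} (h : SL ε Λ) {z : K}
    (hz : z ∈ Submodule.span ℤ {1, ε}) {y : K} (hy : y ∈ Λ) : z * y ∈ Λ := by
  obtain ⟨i, j, rfl⟩ := Submodule.mem_span_pair.1 hz
  rw [add_mul, smul_mul_assoc, smul_mul_assoc, one_mul]
  exact add_mem (Λ.smul_mem i hy) (Λ.smul_mem j (h.2 y hy))

theorem sl_pow {ε : K} {Λ : Submodule ℤ K} (h : SL ε Λ) (J : ℕ) : SL (ε ^ J) Λ := by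
  refine ⟨h.1, fun y hy => ?_⟩
  induction J with
  | zero => simpa using hy
  | succ J ih => rw [pow_succ', mul_assoc]; exact h.2 _ ih

theorem exists_level {ε : K} {n : ℕ} (h : (ε - 1) ^ 2 = n * ε) :
    ∃ J : ℕ, 0 < J ∧ ∃ z ∈ Submodule.span ℤ {1, ε}, ε ^ J - 1 = 2 * z := by
  obtain ⟨s, rfl | rfl⟩ := n.even_or_odd'
  · refine ⟨2, two_pos, _, Submodule.mem_span_pair.2 ⟨-1, s + 1, rfl⟩, ?_⟩
    simp only [zsmul_eq_mul]
    push_cast at h ⊢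
    linear_combination h
  · refine ⟨3, three_pos, _, Submodule.mem_span_pair.2 ⟨-(s + 2), 2 * (s + 1) * (s + 2), rfl⟩, ?_⟩
    simp only [zsmul_eq_mul]
    push_cast at h ⊢
    linear_combination (ε + 2 * s + 3) * h

theorem finite_between {L L' : Submodule ℤ K} {R : Finset K} (h : Reps L L' R) :
    {Λ : Submodule ℤ K | L ≤ Λ ∧ Λ ≤ L'}.Finite := by
  refine Set.Finite.of_injOn (f := fun Λ : Submodule ℤ K => (R : Set K) ∩ Λ)
    (t := {S | S ⊆ (R : Set K)}) (fun _ _ => Set.inter_subset_left) ?_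
    R.finite_toSet.finite_subsets
  have key : ∀ Λ Λ' : Submodule ℤ K, (L ≤ Λ ∧ Λ ≤ L') → (L ≤ Λ' ∧ Λ' ≤ L') →
      (R : Set K) ∩ Λ = (R : Set K) ∩ Λ' → Λ ≤ Λ' := by
    intro Λ Λ' h1 h2 e y hy
    obtain ⟨t, ⟨ht, hyt⟩, -⟩ := h.2 y (h1.2 hy)
    have a1 : t ∈ (R : Set K) ∩ Λ := ⟨ht, by simpa using sub_mem hy (h1.1 hyt)⟩
    rw [e] at a1
    simpa using add_mem (h2.1 hyt) a1.2
  exact fun Λ h1 Λ' h2 e => le_antisymm (key _ _ h1 h2 e) (key _ _ h2 h1 e.symm)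

variable {σ₁ σ₂ : K →+* ℝ} {c : K ≃+* K}

theorem isLat_span (hb : StmtBasic K σ₁ σ₂ c) {ε : K} (h : Ind 1 ε) :
    IsLat (Submodule.span ℤ {1, ε}) := by
  refine ⟨Submodule.fg_span (Set.toFinite _), fun x => ?_⟩
  obtain ⟨i, j, rfl⟩ := hb.span2 1 ε x h
  refine ⟨i.den * j.den, Nat.mul_pos i.den_pos j.den_pos,
    Submodule.mem_span_pair.2 ⟨i.num * j.den, j.num * i.den, ?_⟩⟩
  have h1 : (i : K) * i.den = i.num := by exact_mod_cast congrArg (Rat.cast : ℚ → K) i.mul_den_eq_num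
  have h2 : (j : K) * j.den = j.num := by exact_mod_cast congrArg (Rat.cast : ℚ → K) j.mul_den_eq_num
  simp only [zsmul_eq_mul]
  push_cast
  rw [← h1, ← h2]; ring

theorem root0 (hPsi : StmtPsi) (hT : StmtPent) (hRQ : RQ σ₁ σ₂ c) (hb : StmtBasic K σ₁ σ₂ c)
    {ε : K} {n : ℕ} (hL : Lev σ₁ σ₂ ε n) {Λ : Submodule ℤ K} (hΛ : SL ε Λ) :
    ∃ k : ℕ, 0 < k ∧ (Psi σ₁ ε Λ 0 ^ 2 / (σ₁ ε : ℂ)) ^ k = 1 := by
  classical
  obtain ⟨J, hJ, z, hz, ez⟩ := exists_level hL.quad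
  obtain ⟨n', hL'⟩ := hb.pow ε n J hL hJ
  obtain ⟨per, dist, scale, -, -⟩ := hPsi K σ₁ σ₂ c hRQ _ n' hL'
  have h2 : (2 : K) ≠ 0 := two_ne_zero
  have hΛ' := sl_pow hΛ J
  obtain ⟨R, hR⟩ := hb.reps Λ (sc 2 Λ) hΛ.1 (isLat_sc h2 hΛ.1)
  have hle : Λ ≤ sc 2 Λ := fun y hy => (mem_sc h2).2 (by rw [two_mul]; exact add_mem hy hy)
  have e1 := scale (sc 2 Λ) Λ 2 0 (sl_sc h2 hΛ') (by unfold Tor; rw [mul_zero]; exact zero_mem _)
    (by rw [map_ofNat]; exact two_pos) (by rw [map_ofNat]; exact two_pos)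
    fun y => (mem_sc h2).symm
  rw [dist Λ _ R 0 hΛ.1 (isLat_sc h2 hΛ.1) hle hR, mul_zero] at e1
  obtain ⟨t₀, ⟨ht₀, ht₀'⟩, hu⟩ := hR.2 0 (zero_mem _)
  have ht₀Λ : t₀ ∈ Λ := by simpa using ht₀'
  rw [← Finset.mul_prod_erase R _ ht₀, per Λ 0 t₀ ht₀Λ] at e1
  have e2 : ∏ t ∈ R.erase t₀, Psi σ₁ (ε ^ J) Λ (0 + t) = 1 :=
    mul_left_cancel₀ (a := Psi σ₁ (ε ^ J) Λ 0) (Complex.exp_ne_zero _) (by rw [← e1, mul_one])
  have e3 : ∀ t ∈ R.erase t₀, Psi σ₁ (ε ^ J) Λ (0 + t) ^ 8 =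
      (Psi σ₁ (ε ^ J) Λ 0 ^ 2 / (σ₁ (ε ^ J) : ℂ)) ^ 4 := by
    intro t ht
    obtain ⟨hne, htR⟩ := Finset.mem_erase.1 ht
    have a1 : 2 * t ∈ Λ := (mem_sc h2).1 (hR.1 t htR)
    have a2 : Tor (ε ^ J) Λ t := by
      unfold Tor
      rw [ez, mul_comm 2 z, mul_assoc]
      exact sl_span hΛ hz a1
    have a3 : t ∉ Λ := fun h => hne (hu t ⟨htR, by simpa using h⟩)
    have a4 := pent_pow (hT K σ₁ σ₂ c hRQ _ n' hL' Λ hΛ').1 2 a2 a3 (by exact_mod_cast a1)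
    have a5 := per Λ (-t) (2 * t) a1
    rw [show -t + 2 * t = t by ring] at a5
    rw [← a5] at a4
    rw [zero_add, ← a4]; ring
  have e4 : (Psi σ₁ (ε ^ J) Λ 0 ^ 2 / (σ₁ (ε ^ J) : ℂ)) ^ (4 * (R.erase t₀).card) = 1 := by
    rw [pow_mul, ← Finset.prod_const, ← Finset.prod_congr rfl e3, Finset.prod_pow, e2, one_pow]
  have hcard : 0 < (R.erase t₀).card := by
    obtain ⟨b₁, b₂, hI, hB⟩ := hb.basis Λ hΛ.1
    have m1 : b₁ ∈ Λ := by rw [hB]; exact Submodule.subset_span (by simp)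
    obtain ⟨t, ⟨ht, ht'⟩, -⟩ := hR.2 (b₁ / 2) ((mem_sc h2).2 (by rwa [mul_div_cancel₀ _ h2]))
    refine Finset.card_pos.2 ⟨t, Finset.mem_erase.2 ⟨?_, ht⟩⟩
    rintro rfl
    have m2 : b₁ / 2 ∈ Λ := by simpa using add_mem ht' ht₀Λ
    rw [hB] at m2
    obtain ⟨i, j, hij⟩ := Submodule.mem_span_pair.1 m2
    have := (hI (2 * i - 1) (2 * j) (by
      simp only [zsmul_eq_mul] at hij
      push_cast
      linear_combination 2 * hij)).1
    have h3 : (2 * i - 1 : ℤ) = 0 := by exact_mod_cast this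
    omega
  refine ⟨J * (4 * (R.erase t₀).card), Nat.mul_pos hJ (Nat.mul_pos four_pos hcard), ?_⟩
  rw [(hPsi K σ₁ σ₂ c hRQ ε n hL).2.2.2.2 Λ 0 J hΛ hJ] at e4
  simp only [mul_zero, Finset.prod_const, Finset.card_range, map_pow, ofReal_pow] at e4
  rw [pow_mul, div_pow _ _ J, pow_right_comm _ 2 J]
  exact e4

theorem fin (hPsi : StmtPsi) (hRQ : RQ σ₁ σ₂ c) (hb : StmtBasic K σ₁ σ₂ c)
    {ε : K} {n : ℕ} (hL : Lev σ₁ σ₂ ε n) :
    {z | ∃ Λ x, SL ε Λ ∧ Tor ε Λ x ∧ z = Psi σ₁ ε Λ x}.Finite := by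
  obtain ⟨per, -, scale, -, -⟩ := hPsi K σ₁ σ₂ c hRQ ε n hL
  obtain ⟨f, hf, hf'⟩ := exists_den (isLat_span hb (hb.irr ε n hL).2.1) (hb.sl 1 1 one_ne_zero).1.1
  have hf0 : (f : K)⁻¹ ≠ 0 := inv_ne_zero (Nat.cast_ne_zero.2 hf.ne')
  have hε : ε - 1 ≠ 0 := fun h => by
    have := hL.one_lt
    rw [sub_eq_zero.1 h, map_one] at this
    exact lt_irrefl _ this
  obtain ⟨S, hS, hS'⟩ := hb.narrow ⊤ top_ne_bot
  have hlat : ∀ b ∈ S, IsLat (lat (dv (1 : FractionalIdeal (𝓞 K)⁰ K) b)) := fun b h =>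
    (hb.sl 1 _ (mul_ne_zero one_ne_zero
      (inv_ne_zero (FractionalIdeal.coeIdeal_ne_zero.2 (hS b h).2)))).1
  choose! R hR using fun b h => hb.reps _ _ (isLat_sc hf0 (hlat b h)) (isLat_sc hε (hlat b h))
  refine (S.finite_toSet.biUnion fun b h => (finite_between (hR b h)).biUnion fun Λ _ =>
    (R b).finite_toSet.image (Psi σ₁ ε Λ)).subset ?_
  rintro _ ⟨Λ, x, hΛ, hx, rfl⟩
  let a : FractionalIdeal (𝓞 K)⁰ K := ⟨Submodule.span (𝓞 K) (Λ : Set K),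
    FractionalIdeal.isFractional_of_fg (Submodule.FG.span hΛ.1.1)⟩
  have ma : ∀ y, y ∈ a ↔ y ∈ Submodule.span (𝓞 K) (Λ : Set K) := fun _ => Iff.rfl
  have ha : a ≠ 0 := by
    intro h
    obtain ⟨m, hm, hm'⟩ := hΛ.1.2 1
    have := (ma _).2 (Submodule.subset_span hm')
    rw [h, FractionalIdeal.mem_zero_iff, mul_one] at this
    exact Nat.cast_ne_zero.2 hm.ne' this
  obtain ⟨b, hbS, α, p1, p2, hα⟩ := hS' a ha
  have hα0 : α ≠ 0 := fun h => by rw [h, map_zero] at p1; exact lt_irrefl _ p1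
  have k1 : ∀ y ∈ sc α Λ, y ∈ lat (dv (1 : FractionalIdeal (𝓞 K)⁰ K) b) := fun y hy =>
    (hα y).1 ((ma _).2 (Submodule.subset_span ((mem_sc hα0).1 hy)))
  have k2 : ∀ z ∈ Submodule.span (𝓞 K) (Λ : Set K), ∀ r : 𝓞 K, (f : K) * r * z ∈ Λ := by
    intro z hz
    induction hz using Submodule.span_induction with
    | mem z hz => exact fun r => sl_span hΛ (hf' _ (FractionalIdeal.coe_mem_one (𝓞 K)⁰ r)) hz
    | zero => exact fun r => by rw [mul_zero]; exact zero_mem _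
    | add z z' _ _ h h' => exact fun r => by rw [mul_add]; exact add_mem (h r) (h' r)
    | smul s z _ h =>
      intro r
      have := h (r * s)
      rw [Algebra.smul_def, ← mul_assoc, mul_assoc (f : K)]
      simpa using this
  have k3 : sc (f : K)⁻¹ (lat (dv (1 : FractionalIdeal (𝓞 K)⁰ K) b)) ≤ sc α Λ := fun y hy => by
    have := k2 _ ((ma _).1 ((hα _).2 ((mem_sc hf0).1 hy))) 1
    refine (mem_sc hα0).2 ?_
    have e : (f : K) * ((1 : 𝓞 K) : K) * (α * ((f : K)⁻¹ * y)) = α * y := by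
      have : (f : K) ≠ 0 := Nat.cast_ne_zero.2 hf.ne'
      simp only [map_one]
      field_simp
    rwa [e] at this
  have hs := sl_sc hα0 hΛ
  have k4 : sc α Λ ≤ sc (ε - 1) (lat (dv (1 : FractionalIdeal (𝓞 K)⁰ K) b)) := fun y hy =>
    (mem_sc hε).2 (k1 _ (by rw [sub_mul, one_mul]; exact sub_mem (hs.2 y hy) hy))
  have k5 : Tor ε (sc α Λ) (α⁻¹ * x) := (mem_sc hα0).2 (by
    rw [mul_left_comm, mul_inv_cancel_left₀ hα0]; exact hx)
  obtain ⟨t, ⟨ht, ht'⟩, -⟩ := (hR b hbS).2 (α⁻¹ * x) ((mem_sc hε).2 (k1 _ k5))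
  simp only [Set.mem_iUnion]
  refine ⟨b, hbS, sc α Λ, ⟨k3, k4⟩, t, ht, ?_⟩
  rw [← per _ t _ (k3 ht'), add_sub_cancel, ← scale (sc α Λ) Λ α _ hs k5 p1 p2
    fun y => (mem_sc hα0).symm, mul_inv_cancel_left₀ hα0]

end R0

theorem blockR0 (hPsi : StmtPsi) (hT : StmtPent) (hR : StmtR1) : StmtSys := by
  intro K _ _ σ₁ σ₂ c hRQ ε n hL
  have hb := hR.2.1 K σ₁ σ₂ c hRQ
  obtain ⟨per, dist, scale, -, -⟩ := hPsi K σ₁ σ₂ c hRQ ε n hL
  refine ⟨fun _ _ => Complex.exp_ne_zero _, per, dist, scale,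
    fun Λ h => (hT K σ₁ σ₂ c hRQ ε n hL Λ h).1, fun Λ x h => (hT K σ₁ σ₂ c hRQ ε n hL Λ h).2 x,
    fun Λ h => ?_, R0.fin hPsi hRQ hb hL⟩
  obtain ⟨k, hk, e⟩ := R0.root0 hPsi hT hRQ hb hL h
  have hε : (σ₁ ε : ℂ) ≠ 0 := by exact_mod_cast (zero_lt_one.trans hL.one_lt).ne'
  refine ⟨k, hk, ?_, fun x N hx hx' hN => ?_⟩
  · rwa [div_pow, ← pow_mul, div_eq_one_iff_eq (pow_ne_zero _ hε)] at e
  · rw [pow_mul, R0.pent_pow (hT K σ₁ σ₂ c hRQ ε n hL Λ h).1 N hx hx' hN, ← pow_mul, mul_comm,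
      pow_mul, e, one_pow]

end Pool.Agent.Lib.Stark
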