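import Pool.Agent.Lib.stark.R1b

open NumberField Ideal
open scoped nonZeroDivisors ComplexConjugate

namespace Pool.Agent.Lib.Stark

variable {K : Type} [Field K] [NumberField K] {σ₁ σ₂ : K →+* ℝ} {c : K ≃+* K}

namespace R1a

theorem emb (hK : Module.finrank ℚ K = 2) (hσ : σ₂ ≠ σ₁) (τ : K →+* ℝ) : τ = σ₁ ∨ τ = σ₂ := by
  rcases MP_6bf7a3_nt.emb_cases hK hσ (Complex.ofRealHom.comp τ) with h | h
  · exact .inl (RingHom.ext fun x => by simpa using RingHom.congr_fun h x)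
  · exact .inr (RingHom.ext fun x => by simpa using RingHom.congr_fun h x)

theorem exists_rq (hK : Module.finrank ℚ K = 2) (hσ : σ₂ ≠ σ₁) : ∃ c, RQ σ₁ σ₂ c := by
  have : Algebra.IsQuadraticExtension ℚ K := { finrank_eq_two' := hK }
  have : Nontrivial (K ≃ₐ[ℚ] K) := Finite.one_lt_card_iff_nontrivial.1 (by
    rw [IsGalois.card_aut_eq_finrank, hK]; norm_num)
  obtain ⟨g, hg⟩ := exists_ne (1 : K ≃ₐ[ℚ] K)
  have key : ∀ σ : K →+* ℝ, σ.comp (g : K →+* K) ≠ σ := fun σ h =>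
    hg (AlgEquiv.ext fun x => σ.injective (RingHom.congr_fun h x))
  exact ⟨g.toRingEquiv, hK, hσ,
    RingHom.congr_fun ((emb hK hσ _).resolve_left (key σ₁)),
    RingHom.congr_fun ((emb hK hσ _).resolve_right (key σ₂))⟩

theorem nrm (h : RQ σ₁ σ₂ c) (x : 𝓞 K) : ((Algebra.norm ℤ x : ℤ) : ℝ) = σ₁ x * σ₂ x := by
  rw [← MP_6bf7a3_nt.norm_eq_mul h.rank h.ne, ← Algebra.coe_norm_int, Rat.cast_intCast]

theorem absNorm_eq (h : RQ σ₁ σ₂ c) (x : 𝓞 K) :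
    (absNorm (span {x}) : ℝ) = |σ₁ x * σ₂ x| := by
  rw [absNorm_span_singleton, Nat.cast_natAbs, Int.cast_abs, nrm h]

theorem quad₁ {ε : K} {n : ℕ} (hl : Lev σ₁ σ₂ ε n) : (σ₁ ε - 1) ^ 2 = n * σ₁ ε := by
  simpa using congrArg σ₁ hl.quad

theorem lev_norm {ε : K} {n : ℕ} (hl : Lev σ₁ σ₂ ε n) : (σ₁ ε - 1) * (σ₂ ε - 1) = -n := by
  have h1 := hl.norm
  have h2 := quad₁ hl
  have h3 : σ₁ ε ≠ 0 := (zero_lt_one.trans hl.one_lt).ne'
  apply mul_left_cancel₀ h3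
  linear_combination (σ₁ ε - 1) * h1 - h2

theorem lev (h : RQ σ₁ σ₂ c) (ε : 𝓞 K) (h1 : σ₁ ε * σ₂ ε = 1) (h2 : 1 < σ₁ ε) :
    ∃ n, Lev σ₁ σ₂ (ε : K) n := by
  refine ⟨absNorm (span {ε - 1}), h1, h2, σ₁.injective ?_⟩
  have h3 : (σ₁ ε - 1) * (σ₂ ε - 1) * σ₁ ε = -(σ₁ ε - 1) ^ 2 := by
    linear_combination (σ₁ ε - 1) * h1
  have h4 : ((ε - 1 : 𝓞 K) : K) = ε - 1 := rfl
  rw [map_mul, map_natCast, absNorm_eq h, h4, map_pow, map_sub, map_sub, map_one, map_one,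
    ← abs_of_pos (zero_lt_one.trans h2), ← abs_mul, abs_of_pos (zero_lt_one.trans h2), h3, abs_neg,
    abs_sq]

omit [NumberField K] in
theorem inv_eq {ε : K} {n : ℕ} (hl : Lev σ₁ σ₂ ε n) : ε * (n + 2 - ε) = 1 := by
  linear_combination -hl.quad

omit [NumberField K] in
theorem integral {ε : K} {n : ℕ} (hl : Lev σ₁ σ₂ ε n) : IsIntegral ℤ ε := by
  refine ⟨Polynomial.X ^ 2 - (Polynomial.C (n + 2 : ℤ) * Polynomial.X - 1), by monicity!, ?_⟩
  rw [Polynomial.eval₂_sub, Polynomial.eval₂_sub, Polynomial.eval₂_mul, Polynomial.eval₂_C,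
    Polynomial.eval₂_X, Polynomial.eval₂_X_pow, Polynomial.eval₂_one, map_add, map_natCast,
    map_ofNat]
  linear_combination hl.quad

theorem pow (h : RQ σ₁ σ₂ c) (ε : K) (n J : ℕ) (hl : Lev σ₁ σ₂ ε n) (hJ : 0 < J) :
    ∃ n', Lev σ₁ σ₂ (ε ^ J) n' :=
  lev h ⟨ε ^ J, (integral hl).pow J⟩
    (by change σ₁ (ε ^ J) * σ₂ (ε ^ J) = 1; rw [map_pow, map_pow, ← mul_pow, hl.norm, one_pow])
    (by change 1 < σ₁ (ε ^ J); rw [map_pow]; exact one_lt_pow₀ hl.one_lt hJ.ne')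

omit [NumberField K] in
theorem isUnit {ε : 𝓞 K} {n : ℕ} (hl : Lev σ₁ σ₂ (ε : K) n) : IsUnit ε :=
  IsUnit.of_mul_eq_one (n + 2 - ε) (RingOfIntegers.ext (by simpa [map_ofNat] using inv_eq hl))

theorem norm (h : RQ σ₁ σ₂ c) (ε : 𝓞 K) (n : ℕ) (hl : Lev σ₁ σ₂ (ε : K) n) :
    absNorm (span {ε - 1}) = n ∧ 0 < n ∧ IsUnit ε ∧ cI c (span {ε - 1}) = span {ε - 1} := by
  have h4 : ((ε - 1 : 𝓞 K) : K) = ε - 1 := rfl
  refine ⟨?_, Nat.pos_of_ne_zero ?_, isUnit hl, ?_⟩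
  · have := absNorm_eq h (ε - 1)
    rw [h4, map_sub, map_sub, map_one, map_one, lev_norm hl, abs_neg, Nat.abs_cast] at this
    exact_mod_cast this
  · rintro rfl
    have := quad₁ hl
    rw [Nat.cast_zero, zero_mul, pow_eq_zero_iff two_ne_zero, sub_eq_zero] at this
    exact hl.one_lt.ne' this
  · have h1 : ε * RingOfIntegers.mapRingEquiv c ε = 1 := RingOfIntegers.ext (σ₁.injective (by
      change σ₁ (ε * c ε) = σ₁ 1
      rw [map_mul, h.cnj₁, hl.norm, map_one]))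
    rw [cI, Ideal.map_span, Set.image_singleton, map_sub, map_one, span_singleton_eq_span_singleton]
    refine ⟨-(isUnit hl).unit, ?_⟩
    rw [Units.val_neg, IsUnit.unit_spec]
    change (RingOfIntegers.mapRingEquiv c ε - 1) * -ε = ε - 1
    linear_combination -h1

theorem irr (ε : K) (n : ℕ) (hl : Lev σ₁ σ₂ ε n) :
    Irrational (σ₁ ε) ∧ Ind 1 ε ∧ IsIntegral ℤ ε := by
  have h1 : ∀ q : ℚ, ε ≠ q := by
    rintro q rfl
    have h2 := hl.norm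
    have h3 := hl.one_lt
    rw [map_ratCast] at h2 h3
    rw [map_ratCast] at h2
    nlinarith
  refine ⟨fun ⟨q, hq⟩ => h1 q (σ₁.injective (by rw [map_ratCast, hq])), fun i j e => ?_,
    integral hl⟩
  by_cases hj : j = 0
  · subst hj
    simpa using e
  · refine absurd ?_ (h1 (-i / j))
    have : (j : K) ≠ 0 := by exact_mod_cast hj
    push_cast
    field_simp
    linear_combination e

theorem nr_aux {a t r n : ℝ} (ha : 8 ≤ a) (ht : 0 < t) (hr : 0 < r) (h : t * r = 1)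
    (h1 : t ^ 2 ≤ a) (h2 : r ^ 2 ≤ a) (h3 : a - 2 ≤ n) (h4 : n ≤ (t + 1) * (r + 1)) : False := by
  rcases le_total t 1 with h5 | h5
  · have : a - 5 ≤ r := by nlinarith
    nlinarith
  · have : r ≤ 1 := by nlinarith
    have : a - 5 ≤ t := by nlinarith
    nlinarith

theorem nr (h : RQ σ₁ σ₂ c) (ε : 𝓞 K) (n : ℕ) (hl : Lev σ₁ σ₂ (ε : K) n) (h8 : 8 ≤ σ₁ ε) :
    NR ε := by
  intro u hu
  obtain ⟨e, rfl⟩ := isUnit hl
  have ha : 0 < σ₁ e := zero_lt_one.trans hl.one_lt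
  have hu0 : 0 < σ₁ u ^ 2 := sq_pos_of_ne_zero (map_ne_zero σ₁ |>.2 (Units.coe_ne_zero u))
  obtain ⟨k, hk1, hk2⟩ := exists_mem_Ico_zpow (mul_pos hu0 ha) (one_lt_pow₀ hl.one_lt two_ne_zero)
  refine ⟨k, ?_⟩
  by_contra hne
  set v := u * e ^ (-k) with hv
  have hv1 : (v : 𝓞 K) - 1 ∈ span {(e : 𝓞 K) - 1} := by
    let φ := Units.map (Ideal.Quotient.mk (span {(e : 𝓞 K) - 1})).toMonoidHom
    have h1 : φ u = 1 := Units.ext (Ideal.Quotient.eq.2 hu)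
    have h2 : φ e = 1 := Units.ext (Ideal.Quotient.eq.2 (mem_span_singleton_self _))
    have h3 : φ v = 1 := by rw [hv, map_mul, map_zpow, h1, h2, one_zpow, one_mul]
    exact Ideal.Quotient.eq.1 (congrArg Units.val h3)
  have hv0 : (v : 𝓞 K) - 1 ≠ 0 := fun h0 => hne (by
    have : v = 1 := Units.ext (sub_eq_zero.1 h0)
    rw [hv, zpow_neg, mul_inv_eq_one] at this
    rw [this]
    exact Units.coe_zpow e k)
  have h1 : n ≤ absNorm (span {(v : 𝓞 K) - 1}) := by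
    rw [← (norm h _ n hl).1]
    exact Nat.le_of_dvd (Nat.pos_of_ne_zero (absNorm_eq_zero_iff.not.2
      (span_singleton_eq_bot.not.2 hv0)))
      (absNorm_dvd_absNorm_of_le ((span_singleton_le_iff_mem _).2 hv1))
  have h2 : |σ₁ v| * |σ₂ v| = 1 := by
    have := absNorm_eq h v
    rw [span_singleton_eq_top.2 v.isUnit, absNorm_top, abs_mul, Nat.cast_one] at this
    exact this.symm
  have h3 : σ₁ v ^ 2 * σ₁ e * (σ₁ e ^ 2) ^ k = σ₁ u ^ 2 * σ₁ e := by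
    rw [hv, Units.coe_mul, Units.coe_zpow, map_mul, map_zpow₀, ← zpow_natCast (σ₁ e) 2, ← zpow_mul,
      mul_comm _ k, zpow_mul, zpow_neg, zpow_natCast]
    have := zpow_ne_zero k ha.ne'
    field_simp
  have hp : 0 < (σ₁ e ^ 2) ^ k := zpow_pos (pow_pos ha 2) k
  rw [← h3] at hk1 hk2
  rw [zpow_add_one₀ (pow_pos ha 2).ne', mul_comm ((σ₁ e ^ 2) ^ k)] at hk2
  have h4 : 1 ≤ σ₁ v ^ 2 * σ₁ e := (le_mul_iff_one_le_left hp).1 hk1
  have h5 : σ₁ v ^ 2 * σ₁ e < σ₁ e ^ 2 := lt_of_mul_lt_mul_right hk2 hp.le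
  have t0 : 0 < |σ₁ v| := abs_pos.2 (map_ne_zero σ₁ |>.2 (Units.coe_ne_zero v))
  have r0 : 0 < |σ₂ v| := abs_pos.2 (map_ne_zero σ₂ |>.2 (Units.coe_ne_zero v))
  refine nr_aux (n := n) h8 t0 r0 h2 ?_ ?_ ?_ ?_
  · rw [sq_abs]; nlinarith
  · have h6 : |σ₂ v| ^ 2 * σ₁ v ^ 2 = 1 := by rw [← sq_abs (σ₁ v), ← mul_pow, mul_comm, h2, one_pow]
    nlinarith [sq_nonneg |σ₂ v|]
  · have := quad₁ hl
    nlinarith
  · refine (Nat.cast_le.2 h1).trans ?_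
    have h6 : (((v : 𝓞 K) - 1 : 𝓞 K) : K) = v - 1 := rfl
    rw [absNorm_eq h, h6, abs_mul, map_sub, map_sub, map_one, map_one]
    exact mul_le_mul (by simpa using abs_sub (σ₁ v) 1) (by simpa using abs_sub (σ₂ v) 1)
      (abs_nonneg _) (by positivity)

theorem cong (ε : 𝓞 K) (m : Ideal (𝓞 K)) (hε : IsUnit ε) (hm : m ≠ ⊥) :
    ∃ J : ℕ, 0 < J ∧ ε ^ J - 1 ∈ m := by
  have := Ideal.finiteQuotientOfFreeOfNeBot m hm
  obtain ⟨J, hJ, e⟩ := (isOfFinOrder_of_finite (hε.map (Ideal.Quotient.mk m)).unit).exists_pow_eq_one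
  refine ⟨J, hJ, Ideal.Quotient.eq.1 ?_⟩
  simpa using congrArg Units.val e

omit [NumberField K] in
theorem ind_iff [CharZero K] {v w : K} : Ind v w ↔ LinearIndependent ℚ ![v, w] := by
  simp only [LinearIndependent.pair_iff, Ind, Rat.smul_def]

theorem span2 (h : RQ σ₁ σ₂ c) (v w x : K) (hi : Ind v w) : ∃ i j : ℚ, x = i * v + j * w := by
  have h1 := (ind_iff.1 hi).span_eq_top_of_card_eq_finrank' (by simp [h.rank])
  have h2 : x ∈ Submodule.span ℚ (Set.range ![v, w]) := h1 ▸ Submodule.mem_top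
  rw [Matrix.range_cons_cons_empty, Submodule.mem_span_pair] at h2
  obtain ⟨i, j, rfl⟩ := h2
  exact ⟨i, j, by simp [Rat.smul_def]⟩

theorem basis (h : RQ σ₁ σ₂ c) (Λ : Submodule ℤ K) (hΛ : IsLat Λ) :
    ∃ b₁ b₂ : K, Ind b₁ b₂ ∧ Λ = Submodule.span ℤ {b₁, b₂} := by
  have : Submodule.IsLattice ℚ Λ := ⟨hΛ.1, eq_top_iff.2 fun x _ => by
    obtain ⟨m, hm, hx⟩ := hΛ.2 x
    have := Submodule.smul_mem _ (m : ℚ)⁻¹ (Submodule.subset_span (R := ℚ) hx)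
    rwa [Rat.smul_def, Rat.cast_inv, Rat.cast_natCast, ← mul_assoc,
      inv_mul_cancel₀ (Nat.cast_ne_zero.2 hm.ne'), one_mul] at this⟩
  have h1 : Module.finrank ℤ Λ = 2 := by
    rw [← h.rank, Module.finrank, Submodule.IsLattice.rank' ℚ Λ, Module.finrank]
  let b := Module.finBasisOfFinrankEq ℤ Λ h1
  have h2 : ![(b 0 : K), b 1] = fun i => (b i : K) := by
    ext i; fin_cases i <;> rfl
  refine ⟨b 0, b 1, ind_iff.2 ?_, ?_⟩
  · rw [h2, ← funext (Module.Basis.extendOfIsLattice_apply ℚ b)]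
    exact (b.extendOfIsLattice ℚ).linearIndependent
  · rw [← Matrix.range_cons_cons_empty, h2]
    have := congrArg (Submodule.map Λ.subtype) b.span_eq
    rw [Submodule.map_span, ← Set.range_comp, Submodule.map_subtype_top] at this
    exact this.symm

omit [NumberField K] in
theorem reps (Λ Λ' : Submodule ℤ K) (hΛ : IsLat Λ) (hΛ' : IsLat Λ') : ∃ R, Reps Λ Λ' R := by
  classical
  have : Module.Finite ℤ Λ' := Module.Finite.iff_fg.2 hΛ'.1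
  have : Finite (Λ' ⧸ Λ.comap Λ'.subtype) := Module.finite_of_fg_torsion _ fun z => by
    obtain ⟨y, rfl⟩ := Submodule.Quotient.mk_surjective _ z
    obtain ⟨m, hm, hy⟩ := hΛ.2 y
    refine ⟨⟨m, mem_nonZeroDivisors_of_ne_zero (Int.natCast_ne_zero.2 hm.ne')⟩, ?_⟩
    rw [Submonoid.mk_smul, ← Submodule.Quotient.mk_smul, Submodule.Quotient.mk_eq_zero]
    simpa using hy
  have := Fintype.ofFinite (Λ' ⧸ Λ.comap Λ'.subtype)
  choose s hs using Submodule.Quotient.mk_surjective (Λ.comap Λ'.subtype)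
  refine ⟨Finset.univ.image fun z => (s z : K), fun t ht => ?_, fun y hy => ?_⟩
  · obtain ⟨z, -, rfl⟩ := Finset.mem_image.1 ht
    exact (s z).2
  · refine ⟨s (Submodule.Quotient.mk ⟨y, hy⟩), ⟨Finset.mem_image_of_mem _ (Finset.mem_univ _),
      (Submodule.Quotient.eq (Λ.comap Λ'.subtype) (x := ⟨y, hy⟩)).1 (hs _).symm⟩, ?_⟩
    rintro t ⟨ht, h⟩
    obtain ⟨z, -, rfl⟩ := Finset.mem_image.1 ht
    rw [(Submodule.Quotient.eq (Λ.comap Λ'.subtype) (x := ⟨y, hy⟩) (y := s z)).2 h, hs]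

theorem isLat (a : FractionalIdeal (𝓞 K)⁰ K) (ha : a ≠ 0) : IsLat (lat a) := by
  refine ⟨Module.Finite.iff_fg.1 (inferInstanceAs (Module.Finite ℤ a)), fun x => ?_⟩
  obtain ⟨y, h0, hy⟩ := FractionalIdeal.exists_ne_zero_mem_isInteger ha
  have h1 : algebraMap (𝓞 K) K y ≠ 0 := by simpa using h0
  obtain ⟨m, s, hm, e⟩ := (IsFractionRing.isAlgebraic_iff ℤ ℚ K).2
    (Algebra.IsAlgebraic.isAlgebraic (x / algebraMap (𝓞 K) K y)) |>.exists_nsmul_eq (𝓞 K)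
  refine ⟨m, Nat.pos_of_ne_zero hm, ?_⟩
  have := MP_6bf7a3_nt.alg_mul_mem s hy
  rwa [← e, nsmul_eq_mul, mul_assoc, div_mul_cancel₀ _ h1] at this

theorem signs (h : RQ σ₁ σ₂ c) (Λ : Submodule ℤ K) (x : K) (s₁ s₂ : ℝ) (hΛ : IsLat Λ)
    (h₁ : s₁ ≠ 0) (h₂ : s₂ ≠ 0) : ∃ y, y - x ∈ Λ ∧ 0 < s₁ * σ₁ y ∧ 0 < s₂ * σ₂ y := by
  obtain ⟨w, hw⟩ : ∃ w, σ₁ w < 0 ∧ 0 < σ₂ w := by
    obtain ⟨w, hw⟩ : ∃ w, σ₁ w < σ₂ w := by
      obtain ⟨w, hw⟩ := DFunLike.ne_iff.1 h.ne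
      rcases hw.lt_or_gt with hw | hw
      · exact ⟨-w, by simpa using hw⟩
      · exact ⟨w, hw⟩
    obtain ⟨q, h1, h2⟩ := exists_rat_btwn hw
    exact ⟨w - q, by simpa using h1, by simpa using h2⟩
  obtain ⟨z, hz₁, hz₂⟩ : ∃ z, 0 < s₁ * σ₁ z ∧ 0 < s₂ * σ₂ z := by
    rcases h₁.lt_or_gt with h₁ | h₁ <;> rcases h₂.lt_or_gt with h₂ | h₂
    · exact ⟨-1, by simpa using h₁, by simpa using h₂⟩
    · exact ⟨w, mul_pos_of_neg_of_neg h₁ hw.1, mul_pos h₂ hw.2⟩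
    · exact ⟨-w, mul_pos h₁ (by simpa using hw.1), mul_pos_of_neg_of_neg h₂ (by simpa using hw.2)⟩
    · exact ⟨1, by simpa using h₁, by simpa using h₂⟩
  obtain ⟨m, hm, hz⟩ := hΛ.2 z
  obtain ⟨k, hk⟩ := exists_nat_gt (max (-(s₁ * σ₁ x) / (s₁ * σ₁ z)) (-(s₂ * σ₂ x) / (s₂ * σ₂ z)))
  rw [max_lt_iff, div_lt_iff₀ hz₁, div_lt_iff₀ hz₂] at hk
  have hm' : (1 : ℝ) ≤ m := by exact_mod_cast hm
  have hk' : (0 : ℝ) ≤ k := k.cast_nonneg
  refine ⟨x + k * (m * z), ?_, ?_, ?_⟩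
  · rw [add_sub_cancel_left, ← nsmul_eq_mul]
    exact nsmul_mem hz k
  · simp only [map_add, map_mul, map_natCast]
    nlinarith [mul_nonneg (mul_nonneg hk' hz₁.le) (sub_nonneg.2 hm')]
  · simp only [map_add, map_mul, map_natCast]
    nlinarith [mul_nonneg (mul_nonneg hk' hz₂.le) (sub_nonneg.2 hm')]

omit [NumberField K] in
theorem fd (ε : K) (n : ℕ) (Y : Set K) (hl : Lev σ₁ σ₂ ε n) (h0 : 0 ∉ Y)
    (hY : ∀ p, ε * p ∈ Y ↔ p ∈ Y) : ∃ D, FD ε Y D := by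
  have ha : σ₁ ε ≠ 0 := (zero_lt_one.trans hl.one_lt).ne'
  have hε : ε ≠ 0 := (map_ne_zero σ₁).1 ha
  refine ⟨{p ∈ Y | Real.log (σ₁ p) ∈ Set.Ico 0 (0 + Real.log (σ₁ ε))}, fun _ hp => hp.1,
    fun p hp => ?_⟩
  have h1 : ∀ k : ℤ, ε ^ k * p ∈ Y := fun k => by
    induction k using Int.induction_on with
    | zero => simpa using hp
    | succ k ih => rwa [zpow_add_one₀ hε, mul_comm _ ε, mul_assoc, hY]
    | pred k ih => rwa [← hY, ← mul_assoc, mul_comm ε, ← zpow_add_one₀ hε, sub_add_cancel]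
  have h2 : σ₁ p ≠ 0 := (map_ne_zero σ₁).2 fun e => h0 (e ▸ hp)
  refine (existsUnique_congr fun k => ?_).1
    (existsUnique_add_zsmul_mem_Ico (Real.log_pos hl.one_lt) (Real.log (σ₁ p)) 0)
  rw [Set.mem_ofPred_eq, and_iff_right (h1 k), map_mul, map_zpow₀,
    Real.log_mul (zpow_ne_zero k ha) h2, Real.log_zpow, zsmul_eq_mul,
    add_comm (Real.log (σ₁ p))]

theorem galois (K : Type) [Field K] [NumberField K] [Algebra K ℝ] (Z : Set ℂ) (hZ : Z.Finite)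
    (ha : ∀ z ∈ Z, IsAlgebraic ℚ z) : ∃ Ω : IntermediateField K ℂ, FiniteDimensional K Ω ∧
      IsGalois K Ω ∧ (∀ z ∈ Z, z ∈ Ω) ∧ ∃ τ : Ω ≃ₐ[K] Ω, ∀ z : Ω, (τ z : ℂ) = conj (z : ℂ) := by
  have := hZ.to_subtype
  have : FiniteDimensional K (IntermediateField.adjoin K Z) :=
    IntermediateField.finiteDimensional_adjoin fun z hz => ((ha z hz).tower_top K).isIntegral
  have h1 := Algebra.IsAlgebraic.isNormalClosure_normalClosure (F := K)
    (K := IntermediateField.adjoin K Z) (L := ℂ) fun x => IsAlgClosed.splits _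
  have := h1.normal
  refine ⟨IntermediateField.normalClosure K (IntermediateField.adjoin K Z) ℂ, inferInstance,
    {}, fun z hz => IntermediateField.le_normalClosure _ (IntermediateField.subset_adjoin K Z hz),
    (Complex.conjAe.restrictScalars K).restrictNormal _, fun z => ?_⟩
  exact AlgEquiv.restrictNormal_commutes (Complex.conjAe.restrictScalars K) _ z

end R1a

open R1a

theorem blockR1 : StmtR1 :=
  ⟨fun _ _ _ _ _ => exists_rq, fun _ _ _ _ _ _ h =>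
    { lev := lev h
      pow := pow h
      norm := norm h
      irr := irr
      nr := nr h
      cong := cong
      basis := basis h
      span2 := span2 h
      reps := reps
      sl := fun ε a ha => ⟨isLat a ha, fun _ hy => MP_6bf7a3_nt.alg_mul_mem ε hy⟩
      signs := signs h
      emb := emb h.rank h.ne
      split := r1_split h
      cI_cI := r1_cI h
      narrow := r1_narrow h (signs h) isLat
      fd := fd }, galois⟩

end Pool.Agent.Lib.Stark
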