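import Pool.Agent.Lib.stark.Defs2
import Pool.Agent.Lib.MP_6bf7a3_nt.Main

open NumberField Ideal FractionalIdeal
open scoped nonZeroDivisors ComplexConjugate

namespace Pool.Agent.Lib.Stark

namespace RCF

open Pool.Agent.Lib.MP_6bf7a3_nt

lemma ab_fixed {K Ω : Type} [Field K] [Field Ω] [Algebra K Ω] [FiniteDimensional K Ω]
    [IsGalois K Ω] (N : Subgroup (Ω ≃ₐ[K] Ω)) [N.Normal] (h : ∀ σ τ, σ * τ * (τ * σ)⁻¹ ∈ N) :
    IsAbelianGalois K (IntermediateField.fixedField N) where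
  is_comm := ⟨fun g g' => by
    obtain ⟨g, rfl⟩ := (IsGalois.normalAutEquivQuotient N).surjective g
    obtain ⟨g', rfl⟩ := (IsGalois.normalAutEquivQuotient N).surjective g'
    obtain ⟨σ, rfl⟩ := QuotientGroup.mk_surjective g
    obtain ⟨τ, rfl⟩ := QuotientGroup.mk_surjective g'
    rw [← map_mul, ← map_mul, ← QuotientGroup.mk_mul, ← QuotientGroup.mk_mul]
    congr 1
    rw [QuotientGroup.eq]
    simpa [mul_assoc] using h τ⁻¹ σ⁻¹⟩

variable {K : Type} [Field K] [NumberField K] {m : Ideal (𝓞 K)} {B : Type} [CommGroup B]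
  {κ : Ideal (𝓞 K) → B}

omit [NumberField K] in
lemma cop_mul {I J : Ideal (𝓞 K)} (hI : Cop m I) (hJ : Cop m J) : Cop m (I * J) :=
  ⟨isCoprime_iff_sup_eq.1 ((isCoprime_iff_sup_eq.2 hI.1).mul_left (isCoprime_iff_sup_eq.2 hJ.1)),
    mul_ne_zero hI.2 hJ.2⟩

omit [NumberField K] in
lemma cop_top : Cop m ⊤ := ⟨top_sup_eq _, top_ne_bot⟩

omit [NumberField K] in
lemma map_top (h : RayHom m κ) : κ ⊤ = 1 := by
  simpa using h.mul ⊤ ⊤ cop_top cop_top

lemma cop_of_inJ {A : (FractionalIdeal (𝓞 K)⁰ K)ˣ} (h : InJ m A) :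
    ∃ I J : Ideal (𝓞 K), Cop m I ∧ Cop m J ∧ (A : FractionalIdeal (𝓞 K)⁰ K) * J = I := by
  obtain ⟨I, J, h1, h2, h3, h4⟩ := h
  exact ⟨I, J, ⟨h1, coeIdeal_ne_zero.1 (h4 ▸ (A.isUnit.mul h3).ne_zero)⟩,
    ⟨h2, coeIdeal_ne_zero.1 h3.ne_zero⟩, h4⟩

lemma exists_ext (h : RayHom m κ) : ∃ κ' : (FractionalIdeal (𝓞 K)⁰ K)ˣ → B,
    ∀ (A : (FractionalIdeal (𝓞 K)⁰ K)ˣ) (I J : Ideal (𝓞 K)), Cop m I → Cop m J →
      (A : FractionalIdeal (𝓞 K)⁰ K) * J = I → κ' A = κ I / κ J := by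
  have : ∀ A : (FractionalIdeal (𝓞 K)⁰ K)ˣ, ∃ b : B, ∀ I J, Cop m I → Cop m J →
      (A : FractionalIdeal (𝓞 K)⁰ K) * J = I → b = κ I / κ J := fun A => by
    by_cases k : ∃ I J, Cop m I ∧ Cop m J ∧ (A : FractionalIdeal (𝓞 K)⁰ K) * J = I
    · obtain ⟨I, J, h1, h2, h3⟩ := k
      refine ⟨κ I / κ J, fun I' J' k1 k2 k3 => ?_⟩
      rw [div_eq_div_iff_mul_eq_mul, ← h.mul _ _ h1 k2, ← h.mul _ _ k1 h2]
      congr 1
      apply coeIdeal_injective (K := K)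
      simp only [coeIdeal_mul, ← h3, ← k3]
      ring
    · exact ⟨1, fun I J k1 k2 k3 => (k ⟨I, J, k1, k2, k3⟩).elim⟩
  exact ⟨fun A => (this A).choose, fun A => (this A).choose_spec⟩

lemma ker_iff {σ₂ : K →+* ℝ} (h : Univ {σ₂} m κ) (hm : m ≠ ⊤) {A : (FractionalIdeal (𝓞 K)⁰ K)ˣ}
    {I J : Ideal (𝓞 K)} (hI : Cop m I) (hJ : Cop m J)
    (e : (A : FractionalIdeal (𝓞 K)⁰ K) * J = I) : κ I = κ J ↔
      ∃ α : Kˣ, A = toPrincipalIdeal (𝓞 K) K α ∧ (α : K) - 1 ∈ loc K m m ∧ 0 < σ₂ α := by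
  have J0 : (J : FractionalIdeal (𝓞 K)⁰ K) ≠ 0 := coeIdeal_ne_zero.2 hJ.2
  rw [h.ker I J hI hJ]
  constructor
  · rintro ⟨α, β, α0, β0, h1, h2, h3, h4⟩
    obtain ⟨h5, h6⟩ := h3 σ₂ rfl
    have α1 : (α : K) ≠ 0 := RingOfIntegers.coe_ne_zero_iff.2 α0
    have β1 : (β : K) ≠ 0 := RingOfIntegers.coe_ne_zero_iff.2 β0
    refine ⟨Units.mk0 _ β1 * (Units.mk0 _ α1)⁻¹, ?_, loc_one_mul ?_ (loc_one_inv ?_),
      pos_mul h6 (pos_inv h5)⟩
    · rw [map_mul, map_inv, eq_mul_inv_iff_mul_eq]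
      ext1
      have := congrArg (fun X : Ideal (𝓞 K) => (X : FractionalIdeal (𝓞 K)⁰ K)) h4
      simp only [coeIdeal_mul, coeIdeal_span_singleton, ← e] at this
      refine mul_right_cancel₀ J0 ?_
      rw [Units.val_mul, coe_toPrincipalIdeal, coe_toPrincipalIdeal, mul_comm (A : FractionalIdeal (𝓞 K)⁰ K),
        mul_assoc]
      exact this
    · simpa using loc_alg (K := K) (m := m) h2
    · simpa using loc_alg (K := K) (m := m) h1
  · rintro ⟨γ, rfl, h1, h2⟩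
    obtain ⟨s, hs, y, hy, h3⟩ := mem_loc.1 h1
    have s0 : s ≠ 0 := by
      rintro rfl
      exact hm ((eq_top_iff_one _).2 (by simpa using m.neg_mem hs))
    have s1 : (s : K) ≠ 0 := RingOfIntegers.coe_ne_zero_iff.2 s0
    have h4 : ((s * (s + y) : 𝓞 K) : K) = (s * s : 𝓞 K) * γ := by
      change algebraMap (𝓞 K) K _ = algebraMap (𝓞 K) K _ * _
      rw [map_mul, map_add, ← h3, map_mul]
      ring
    have h5 : 0 < σ₂ (s * s : 𝓞 K) := by
      push_cast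
      rw [map_mul]
      exact mul_self_pos.2 ((map_ne_zero σ₂).2 s1)
    have h6 : 0 < σ₂ (s * (s + y) : 𝓞 K) := by rw [h4, map_mul]; exact mul_pos h5 h2
    refine ⟨s * s, s * (s + y), mul_ne_zero s0 s0, fun k => by simp [k] at h6, one_mul_mem hs hs,
      one_mul_mem hs (by convert m.add_mem hs hy using 1; ring), ?_, ?_⟩
    · rintro _ rfl
      exact ⟨h5, h6⟩
    · apply coeIdeal_injective (K := K)
      simp only [coeIdeal_mul, coeIdeal_span_singleton, ← e, coe_toPrincipalIdeal]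
      rw [← mul_assoc, spanSingleton_mul_spanSingleton]
      congr 2
      exact h4.symm

lemma surj (hL : StmtLift) {Ω : Type} [Field Ω] [NumberField Ω] [Algebra K Ω] [IsGalois K Ω]
    (h : RayHom m κ) {a : (Ω ≃ₐ[K] Ω) →* B} (ha : Recip m κ a) (I : Ideal (𝓞 K)) :
    Cop m I → κ I ∈ a.range := by
  induction I using UniqueFactorizationMonoid.induction_on_prime with
  | h₁ => exact fun k => (k.2 rfl).elim
  | h₂ I hI => exact fun _ => by rw [isUnit_iff.1 hI, map_top h]; exact one_mem _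
  | h₃ I p I0 hp ih =>
    intro k
    have k1 := isCoprime_iff_sup_eq.2 k.1
    have kp := isCoprime_iff_sup_eq.1 k1.of_mul_left_left
    have kI : Cop m I := ⟨isCoprime_iff_sup_eq.1 k1.of_mul_left_right, I0⟩
    have pm := (isPrime_of_prime hp).isMaximal hp.ne_zero
    obtain ⟨⟨P, hP⟩⟩ := p.nonempty_primesOver (S := 𝓞 Ω)
    obtain ⟨σ, hσ⟩ := (hL.2 K Ω p pm).1 P hP
    rw [h.mul _ _ ⟨kp, hp.ne_zero⟩ kI]
    exact mul_mem ⟨σ, ha p P σ pm kp hσ⟩ (ih kI)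

end RCF

open RCF Pool.Agent.Lib.MP_6bf7a3_nt IntermediateField in
theorem blockRCF (hL : StmtLift) : StmtRCF := by
  intro K _ _ _ σ₂ Ω _ _ m hm0 hm1 B _ _ κ hκ a ha ⟨τ, hτ, hτ1⟩
  let E := fixedField a.ker
  let H : IntermediateField K ℝ := (lift E).comap (IsScalarTower.toAlgHom K ℝ ℂ)
  have hΩ : ∀ h : H, ((h : ℝ) : ℂ) ∈ Ω := fun h => lift_le E h.2
  let j : H →ₐ[K] Ω := ((IsScalarTower.toAlgHom K ℝ ℂ).comp H.val).codRestrict Ω.toSubalgebra hΩ
  have jE : ∀ h : H, j h ∈ E := fun h => (mem_lift (j h)).1 h.2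
  have hE : ∀ z : Ω, (∀ σ, a σ = 1 → σ z = z) → ∃ h : H, ((h : ℝ) : ℂ) = z := fun z hz => by
    have h1 : (((z : ℂ).re : ℝ) : ℂ) = z := Complex.conj_eq_iff_re.1 (by rw [← hτ, hz τ hτ1])
    refine ⟨⟨(z : ℂ).re, ?_⟩, h1⟩
    change (((z : ℂ).re : ℝ) : ℂ) ∈ lift E
    rw [h1]
    exact (mem_lift z).2 ((mem_fixedField_iff _ _).2 hz)
  let _ := j.toRingHom.toAlgebra
  have : IsScalarTower K H Ω := IsScalarTower.of_algebraMap_eq fun x => (j.commutes x).symm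
  have : IsAbelianGalois K E := ab_fixed _ fun σ σ' => by
    rw [MonoidHom.mem_ker, map_mul, map_inv, map_mul, map_mul, mul_comm (a σ'), mul_inv_cancel]
  have hab : IsAbelianGalois K H := .of_algHom (M := E) (j.codRestrict E.toSubalgebra jE)
  have hfin : FiniteDimensional K H :=
    FiniteDimensional.of_injective j.toLinearMap j.toRingHom.injective
  have : NumberField H := NumberField.of_module_finite K H
  have : NumberField Ω := NumberField.of_module_finite K Ω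
  have hc : ∀ (σ : Ω ≃ₐ[K] Ω) (x : H), j (AlgEquiv.restrictNormalHom H σ x) = σ (j x) :=
    fun σ x => σ.restrictNormal_commutes H x
  have hres : ∀ σ : Ω ≃ₐ[K] Ω, AlgEquiv.restrictNormalHom H σ = 1 ↔ a σ = 1 := fun σ => by
    constructor
    · intro k
      rw [← MonoidHom.mem_ker, ← fixingSubgroup_fixedField a.ker,
        IntermediateField.mem_fixingSubgroup_iff]
      intro z hz
      obtain ⟨h, e⟩ := hE z ((mem_fixedField_iff _ _).1 hz)
      rw [← show j h = z from Subtype.ext e, ← hc, k, AlgEquiv.one_apply]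
    · intro k
      refine AlgEquiv.ext fun x => j.toRingHom.injective ?_
      exact (hc σ x).trans ((mem_fixedField_iff _ _).1 (jE x) σ k)
  have hs : Function.Surjective a := fun b => by
    obtain ⟨I, hI, rfl⟩ := hκ.surj b
    exact surj hL hκ.hom ha I hI
  let φ : B →* (H ≃ₐ[K] H) := a.liftOfSurjective hs
    ⟨AlgEquiv.restrictNormalHom H, fun σ k => (hres σ).2 k⟩
  have hφ : ∀ σ, φ (a σ) = AlgEquiv.restrictNormalHom H σ := fun σ =>
    a.liftOfRightInverse_comp_apply _ _ _ σ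
  have hφ1 : ∀ b, φ b = 1 ↔ b = 1 := fun b => by
    obtain ⟨σ, rfl⟩ := hs b
    rw [hφ, hres]
  obtain ⟨κ', hκ'⟩ := exists_ext hκ.hom
  have hI : ∀ (A : (FractionalIdeal (𝓞 K)⁰ K)ˣ) I, Cop m I →
      (A : FractionalIdeal (𝓞 K)⁰ K) = I → κ' A = κ I := fun A I k e => by
    rw [hκ' A I ⊤ k cop_top (by simpa using e), map_top hκ.hom, _root_.div_one]
  refine ⟨H, fun A => φ (κ' A), ⟨hfin, hab, fun p pm hp => ?_, fun A A' k k' => ?_, fun g => ?_,
    fun A k => ?_⟩, hs, hE, fun σ I A k e e' h z hz => ?_, fun h w hw hcm => ?_⟩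
  · rw [cond_self] at hp
    have p0 : p ≠ ⊥ := Ring.ne_bot_of_isMaximal_of_not_isField pm (RingOfIntegers.not_isField K)
    have F1 : ∀ (P : Ideal (𝓞 H)) (g : H ≃ₐ[K] H), Frob p P g → g = φ (κ p) := fun P g k => by
      obtain ⟨P', σ, k1, rfl⟩ := (hL.1 K H Ω p pm).1 P g k
      rw [← ha p P' σ pm hp k1, hφ]
      rfl
    have F2 : ∀ P ∈ p.primesOver (𝓞 H), Frob p P (φ (κ p)) := fun P k => by
      obtain ⟨g, hg⟩ := (hL.2 K H p pm).1 P k
      exact F1 P g hg ▸ hg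
    have F3 : ∀ P ∈ p.primesOver (𝓞 H), ∀ x : 𝓞 H, φ (κ p) • x - x ^ Nat.card (𝓞 K ⧸ p) ∈ P :=
      fun P k => (F2 P k).2
    have hu : Algebra.IsUnramifiedIn (𝓞 H) p := by
      refine Algebra.isUnramifiedIn_iff_forall_ramificationIdx_eq_one.2 fun P _ _ => ?_
      rw [← Ideal.ramificationIdxIn_eq_ramificationIdx p P (H ≃ₐ[K] H),
        ← Ideal.card_inertia_eq_ramificationIdxIn (G := H ≃ₐ[K] H) p P, Subgroup.card_eq_one,
        eq_bot_iff]
      intro g hg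
      have k := F2 P ⟨‹_›, ‹_›⟩
      refine mul_eq_right.1 (F1 P (g * φ (κ p)) ⟨k.1, fun x => ?_⟩)
      simpa [mul_smul] using P.add_mem (hg (φ (κ p) • x)) (k.2 x)
    refine ⟨?_, hu, fun A e => ?_⟩
    · let A := Units.mk0 (p : FractionalIdeal (𝓞 K)⁰ K) (coeIdeal_ne_zero.2 p0)
      rw [split_iff pm hu F3, hφ1, ← map_top hκ.hom,
        ker_iff hκ hm1 (A := A) ⟨hp, p0⟩ cop_top (by simp [A])]
      exact principal_iff rfl
    · simp only [hI A p ⟨hp, p0⟩ e]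
      exact F3
  · obtain ⟨I, J, h1, h2, h3⟩ := cop_of_inJ k
    obtain ⟨I', J', k1, k2, k3⟩ := cop_of_inJ k'
    simp only
    rw [← map_mul, hκ' A I J h1 h2 h3, hκ' A' I' J' k1 k2 k3, hκ' (A * A') _ _ (cop_mul h1 k1)
      (cop_mul h2 k2) (by rw [coeIdeal_mul, coeIdeal_mul, ← h3, ← k3, Units.val_mul]; ring),
      hκ.hom.mul _ _ h1 k1, hκ.hom.mul _ _ h2 k2, div_mul_div_comm]
  · obtain ⟨σ, rfl⟩ := AlgEquiv.restrictNormalHom_surjective (F := K) (K₁ := H) Ω g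
    obtain ⟨I, k, e⟩ := hκ.surj (a σ)
    refine ⟨Units.mk0 (I : FractionalIdeal (𝓞 K)⁰ K) (coeIdeal_ne_zero.2 k.2),
      ⟨I, ⊤, k.1, top_sup_eq _, by simp, by simp⟩, ?_⟩
    simp only
    rw [hI _ I k rfl, e, hφ]
  · obtain ⟨I, J, h1, h2, h3⟩ := cop_of_inJ k
    simp only
    rw [hφ1, hκ' A I J h1 h2 h3, div_eq_one, ker_iff hκ hm1 h1 h2 h3]
  · simp only
    rw [hI A I k e, ← e', hφ, ← show j h = z from Subtype.ext hz, ← hc]
    rfl
  · let M := fixedField (commutator (Ω ≃ₐ[K] Ω))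
    have : IsAbelianGalois K M := ab_fixed _ fun σ σ' => by
      simpa [commutator_def, commutatorElement_def, mul_assoc] using
        Subgroup.commutator_mem_commutator (Subgroup.mem_top σ) (Subgroup.mem_top σ')
    have hM : ∀ z : Ω, (∀ σ τ : Ω ≃ₐ[K] Ω, σ (τ z) = τ (σ z)) → z ∈ M := fun z hz => by
      refine (mem_fixedField_iff _ _).2 fun g hg => ?_
      refine (show commutator _ ≤ MulAction.stabilizer (Ω ≃ₐ[K] Ω) z from
        Subgroup.commutator_le.2 fun σ _ σ' _ => ?_) hg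
      have k1 := hz (σ * σ' * σ⁻¹) σ'⁻¹
      have k2 := hz (σ * σ') σ⁻¹
      change (σ * σ' * σ⁻¹) (σ'⁻¹ z) = z
      rw [k1, AlgEquiv.mul_apply, k2]
      simp
    have jM : ∀ x : H, j x ∈ M := fun x => hM _ fun σ σ' => by
      rw [← hc, ← hc, ← hc, ← hc, ← AlgEquiv.mul_apply, hab.is_comm.comm, AlgEquiv.mul_apply]
    let j' : H →ₐ[K] M := j.codRestrict M.toSubalgebra jM
    let _ := j'.toRingHom.toAlgebra
    have : IsScalarTower K H M := IsScalarTower.of_algebraMap_eq fun x => (j'.commutes x).symm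
    have hsp : ((Polynomial.X ^ 2 - Polynomial.C h).map (algebraMap H M)).Splits := by
      have e : algebraMap H M h = (⟨w, hM w hcm⟩ : M) ^ 2 := Subtype.ext (Subtype.ext hw.symm)
      rw [Polynomial.map_sub, Polynomial.map_pow, Polynomial.map_X, Polynomial.map_C, e, map_pow,
        sq_sub_sq]
      exact (Polynomial.Splits.X_add_C _).mul (Polynomial.Splits.X_sub_C _)
    exact .of_algHom ((Polynomial.SplittingField.lift _ hsp).restrictScalars K)

end Pool.Agent.Lib.Stark
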