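import Mathlib

open AddSubgroup Finset

namespace Pool.Agent.Lib.Stark

namespace TR

variable {K : Type} [Field K] [CharZero K] {M : Type} [CommGroup M]

/-- A system of functions on lattices with the distribution relation and leaf invariance. -/
structure Sys (p : ℕ) (ε : K) (Lat : AddSubgroup K → Prop) (lam : AddSubgroup K → K → M) :
    Prop where
  sup : ∀ L t, Lat L → (p : K) * t ∈ L → Lat (L ⊔ zmultiples t)
  per : ∀ L x l, Lat L → (∀ y ∈ L, ε * y ∈ L) → (ε - 1) * x ∈ L → l ∈ L →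
    lam L (x + l) = lam L x
  dist : ∀ L x t, Lat L → (∀ y ∈ L, ε * y ∈ L) → (ε - 1) * x ∈ L → (ε - 1) * t ∈ L →
    (p : K) * t ∈ L → t ∉ L → lam (L ⊔ zmultiples t) x = ∏ j ∈ range p, lam L (x + j * t)
  leaf : ∀ L x t, Lat L → (∀ y ∈ L, ε * y ∈ L) → (∃ l ∈ L, (ε - 1) * l / p ∉ L) →
    (ε - 1) * x ∈ L → (ε - 1) * t ∈ L → (p : K) * t ∈ L → lam L (x + t) = lam L x
  inj : ∀ a b : M, a ^ p = b ^ p → a = b

omit [CharZero K] in
lemma zmul_mem {L : AddSubgroup K} {y : K} (h : y ∈ L) (a : ℤ) : (a : K) * y ∈ L := by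
  have := L.zsmul_mem h a
  rwa [zsmul_eq_mul] at this

omit [CharZero K] in
lemma nmul_mem {L : AddSubgroup K} {y : K} (h : y ∈ L) (a : ℕ) : (a : K) * y ∈ L := by
  simpa using zmul_mem h a

omit [CharZero K] in
lemma mem_sup_iff {L : AddSubgroup K} {t y : K} :
    y ∈ L ⊔ zmultiples t ↔ ∃ l ∈ L, ∃ a : ℤ, y = l + a * t := by
  rw [AddSubgroup.mem_sup]
  constructor
  · rintro ⟨l, hl, z, hz, rfl⟩
    obtain ⟨a, rfl⟩ := mem_zmultiples_iff.1 hz
    exact ⟨l, hl, a, by rw [zsmul_eq_mul]⟩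
  · rintro ⟨l, hl, a, rfl⟩
    exact ⟨l, hl, _, mem_zmultiples_iff.2 ⟨a, by rw [zsmul_eq_mul]⟩, rfl⟩

lemma mem_of_coprime {p : ℕ} (hp : p.Prime) {L : AddSubgroup K} {t : K} {a : ℤ}
    (ha : ¬(p : ℤ) ∣ a) (h1 : (p : K) * t ∈ L) (h2 : (a : K) * t ∈ L) : t ∈ L := by
  obtain ⟨u, w, h⟩ := (Nat.prime_iff_prime_int.1 hp).irreducible.coprime_iff_not_dvd.2 ha
  have h3 : (u : K) * p + w * a = 1 := by exact_mod_cast congrArg (Int.cast : ℤ → K) h
  have : t = u * (p * t) + w * (a * t) := by linear_combination (-t) * h3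
  rw [this]
  exact add_mem (zmul_mem h1 u) (zmul_mem h2 w)

lemma prod_val {p : ℕ} [NeZero p] (g : ℕ → M) : ∏ j ∈ range p, g j = ∏ b : ZMod p, g b.val := by
  symm
  refine Finset.prod_bij (fun x _ => x.val) (fun x _ => Finset.mem_range.mpr (ZMod.val_lt x))
    (fun x _ y _ h => ZMod.val_injective p h) ?_ (fun _ _ => rfl)
  intro n hn
  exact ⟨(n : ZMod p), Finset.mem_univ _, ZMod.val_cast_of_lt (Finset.mem_range.mp hn)⟩

lemma lines {p : ℕ} [Fact p.Prime] (F : ZMod p → ZMod p → M) (a : ZMod p) :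
    ∏ k : ZMod p, ∏ b, F (a + k * b) b = F a 0 ^ p * ∏ b ∈ univ.erase 0, ∏ a', F a' b := by
  rw [Finset.prod_comm, ← Finset.mul_prod_erase univ _ (mem_univ 0)]
  congr 1
  · simp [ZMod.card]
  · refine Finset.prod_congr rfl fun b hb => ?_
    have hb0 : b ≠ 0 := (mem_erase.1 hb).1
    exact Fintype.prod_equiv ((Equiv.mulRight₀ b hb0).trans (Equiv.addLeft a)) _ _ fun k => rfl

variable {p : ℕ} {ε : K} {Lat : AddSubgroup K → Prop} {lam : AddSubgroup K → K → M}

omit [CharZero K] in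
lemma stab_of {L : AddSubgroup K} (hε : ∀ y, (p : K) * y ∈ L → (ε - 1) * y ∈ L) :
    ∀ y ∈ L, ε * y ∈ L := by
  intro y hy
  have : ε * y = (ε - 1) * y + y := by ring
  rw [this]
  exact add_mem (hε y (nmul_mem hy p)) hy

omit [CharZero K] in
lemma stab_sup {L : AddSubgroup K} (hε : ∀ y, (p : K) * y ∈ L → (ε - 1) * y ∈ L) {t : K}
    (ht : (p : K) * t ∈ L) : ∀ y ∈ L ⊔ zmultiples t, ε * y ∈ L ⊔ zmultiples t := by
  intro y hy
  obtain ⟨l, hl, a, rfl⟩ := mem_sup_iff.1 hy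
  refine mem_sup_iff.2 ⟨ε * l + a * ((ε - 1) * t), add_mem (stab_of hε l hl)
    (zmul_mem (hε t ht) a), a, by ring⟩

section Plane

variable [Fact p.Prime] (S : Sys p ε Lat lam) {L : AddSubgroup K} (hL : Lat L)
  (hε : ∀ y, (p : K) * y ∈ L → (ε - 1) * y ∈ L) {t₀ t₁ x : K} (h0 : (p : K) * t₀ ∈ L)
  (h1 : (p : K) * t₁ ∈ L) (hx : (ε - 1) * x ∈ L)

/-- Values on a coset of the `p`-torsion plane. -/
noncomputable def FF (lam : AddSubgroup K → K → M) (p : ℕ) (L : AddSubgroup K) (t₀ t₁ x : K)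
    (a b : ZMod p) : M := lam L (x + a.val * t₀ + b.val * t₁)

include S hL hε h0 h1 hx

omit [CharZero K] in
lemma ev_eq (a b : ℤ) : lam L (x + a * t₀ + b * t₁) = FF lam p L t₀ t₁ x a b := by
  have key : ∀ c : ℤ, ∃ d : ℤ, (c : K) = ((c : ZMod p).val : K) + d * p := by
    intro c
    have : (p : ℤ) ∣ c - ((c : ZMod p).val : ℤ) := by
      rw [← ZMod.intCast_zmod_eq_zero_iff_dvd]; simp
    obtain ⟨d, hd⟩ := this
    refine ⟨d, ?_⟩
    have := congrArg (Int.cast : ℤ → K) hd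
    push_cast at this
    linear_combination this
  obtain ⟨c, hc⟩ := key a
  obtain ⟨d, hd⟩ := key b
  unfold FF
  rw [← S.per L (x + ((a : ZMod p).val : K) * t₀ + ((b : ZMod p).val : K) * t₁)
    (c * (p * t₀) + d * (p * t₁)) hL (stab_of hε) ?_ (add_mem (zmul_mem h0 c) (zmul_mem h1 d))]
  · congr 1
    linear_combination t₀ * hc + t₁ * hd
  · have : (ε - 1) * (x + ((a : ZMod p).val : K) * t₀ + ((b : ZMod p).val : K) * t₁) =
        (ε - 1) * x + (((a : ZMod p).val : K) * ((ε - 1) * t₀) +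
          ((b : ZMod p).val : K) * ((ε - 1) * t₁)) := by ring
    rw [this]
    exact add_mem hx (add_mem (nmul_mem (hε _ h0) _) (nmul_mem (hε _ h1) _))

omit [CharZero K] in
lemma line_eq (k a : ℤ) (hk : t₁ + k * t₀ ∉ L) :
    lam (L ⊔ zmultiples (t₁ + k * t₀)) (x + a * t₀) =
      ∏ b : ZMod p, FF lam p L t₀ t₁ x (a + k * b) b := by
  have hpt : (p : K) * (t₁ + k * t₀) ∈ L := by
    have : (p : K) * (t₁ + k * t₀) = p * t₁ + k * (p * t₀) := by ring
    rw [this]; exact add_mem h1 (zmul_mem h0 k)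
  have hx' : (ε - 1) * (x + a * t₀) ∈ L := by
    have : (ε - 1) * (x + a * t₀) = (ε - 1) * x + a * ((ε - 1) * t₀) := by ring
    rw [this]; exact add_mem hx (zmul_mem (hε _ h0) a)
  rw [S.dist L _ _ hL (stab_of hε) hx' (hε _ hpt) hpt hk, prod_val]
  refine Finset.prod_congr rfl fun b _ => ?_
  have := ev_eq S hL hε h0 h1 hx (a + k * b.val) b.val
  push_cast at this
  rw [ZMod.natCast_zmod_val] at this
  rw [← this]
  congr 1
  simp only [ZMod.natCast_val]
  ring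

omit [CharZero K] in
lemma all_lines (hk : ∀ k : ℤ, t₁ + k * t₀ ∉ L) (a : ℤ) :
    ∏ k : ZMod p, lam (L ⊔ zmultiples (t₁ + ((k.val : ℤ) : K) * t₀)) (x + a * t₀) =
      lam L (x + a * t₀) ^ p * ∏ b ∈ univ.erase 0, ∏ a', FF lam p L t₀ t₁ x a' b := by
  have h := ev_eq S hL hε h0 h1 hx a 0
  simp only [Int.cast_zero, zero_mul, add_zero] at h
  rw [h, ← lines]
  refine Finset.prod_congr rfl fun k _ => ?_
  rw [line_eq S hL hε h0 h1 hx _ a (hk _)]
  simp

end Plane

section Claim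

variable {ω : K} {T N c f : ℤ}

lemma claim [Fact p.Prime] (S : Sys p ε Lat lam) (hω : ω ^ 2 = T * ω - N) (hεω : ε = 1 + p * c + f * ω)
    (r : ℕ) : ∀ (i : ℕ) (f' : ℤ) (L : AddSubgroup K) (l x : K), f = p ^ (i + 1 + r) * f' →
      ¬(p : ℤ) ∣ f' → Lat L → (∀ y ∈ L, (p : K) ^ (i + 1) * ω * y ∈ L) → l ∈ L →
      (ε - 1) * x ∈ L → lam L (x + p ^ i * ω * l) = lam L x := by
  have hp : p.Prime := Fact.out
  have hp0 : (p : K) ≠ 0 := Nat.cast_ne_zero.2 hp.ne_zero
  induction r with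
  | zero =>
    intro i f' L l x hf hf' hL hθ hl hx
    have hfK : (f : K) = p ^ (i + 1) * f' := by rw [hf]; push_cast; ring
    have hst : ∀ y ∈ L, ε * y ∈ L := by
      intro y hy
      have : ε * y = y + (c * (p * y) + f' * (p ^ (i + 1) * ω * y)) := by rw [hεω, hfK]; ring
      rw [this]
      exact add_mem hy (add_mem (zmul_mem (nmul_mem hy p) c) (zmul_mem (hθ y hy) f'))
    by_cases ht : (p : K) ^ i * ω * l ∈ L
    · exact S.per L x _ hL hst hx ht
    have hpt : (p : K) * (p ^ i * ω * l) ∈ L := by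
      have : (p : K) * (p ^ i * ω * l) = p ^ (i + 1) * ω * l := by ring
      rw [this]; exact hθ l hl
    refine S.leaf L x _ hL hst ⟨l, hl, fun h => ht ?_⟩ hx ?_ hpt
    · refine mem_of_coprime hp hf' hpt ?_
      have : (f' : K) * (p ^ i * ω * l) = (ε - 1) * l / p - c * l := by
        rw [hεω, hfK]; field_simp; ring
      rw [this]
      exact sub_mem h (zmul_mem hl c)
    · have : (ε - 1) * (p ^ i * ω * l) = c * (p * (p ^ i * ω * l)) +
          ((f' * p ^ i * T : ℤ) * (p ^ (i + 1) * ω * l) - (f' * p ^ (2 * i + 1) * N : ℤ) * l) := by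
        rw [hεω, hfK]; push_cast
        linear_combination (f' * p ^ (2 * i + 1) * l) * hω
      rw [this]
      exact add_mem (zmul_mem hpt c) (sub_mem (zmul_mem (hθ l hl) _) (zmul_mem hl _))
  | succ r ih =>
    intro i f' L l x hf hf' hL hθ hl hx
    have hfK : (f : K) = p ^ (i + 1 + (r + 1)) * f' := by rw [hf]; push_cast; ring
    have hε : ∀ y, (p : K) * y ∈ L → (ε - 1) * y ∈ L := by
      intro y hy
      have : (ε - 1) * y = c * (p * y) + (f' * p ^ r : ℤ) * (p ^ (i + 1) * ω * (p * y)) := by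
        rw [hεω, hfK]; push_cast; ring
      rw [this]
      exact add_mem (zmul_mem hy c) (zmul_mem (hθ _ hy) _)
    by_cases ht : (p : K) ^ i * ω * l ∈ L
    · exact S.per L x _ hL (stab_of hε) hx ht
    set t₀ : K := p ^ i * ω * l with ht₀
    have h0 : (p : K) * t₀ ∈ L := by
      have : (p : K) * t₀ = p ^ (i + 1) * ω * l := by rw [ht₀]; ring
      rw [this]; exact hθ l hl
    have h1 : (p : K) * (l / p) ∈ L := by rwa [mul_div_cancel₀ _ hp0]
    have hθ0 : (p : K) ^ (i + 1) * ω * t₀ ∈ L := by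
      have : (p : K) ^ (i + 1) * ω * t₀ =
          (p ^ i * T : ℤ) * (p ^ (i + 1) * ω * l) - (p ^ (2 * i + 1) * N : ℤ) * l := by
        rw [ht₀]; push_cast
        linear_combination (p ^ (2 * i + 1) * l) * hω
      rw [this]
      exact sub_mem (zmul_mem (hθ l hl) _) (zmul_mem hl _)
    have hθ1 : ∀ k : ℤ, (p : K) ^ (i + 1) * ω * (l / p + k * t₀) =
        t₀ + k * (p ^ (i + 1) * ω * t₀) := by
      intro k
      rw [ht₀]; field_simp; ring
    have hk : ∀ k : ℤ, l / p + k * t₀ ∉ L := by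
      intro k h
      have h2 := hθ _ h
      rw [hθ1] at h2
      exact ht (by simpa using sub_mem h2 (zmul_mem hθ0 k))
    have hinv : ∀ k : ℤ, lam (L ⊔ zmultiples (l / p + k * t₀)) (x + t₀) =
        lam (L ⊔ zmultiples (l / p + k * t₀)) x := by
      intro k
      have hpt : (p : K) * (l / p + k * t₀) ∈ L := by
        have : (p : K) * (l / p + k * t₀) = p * (l / p) + k * (p * t₀) := by ring
        rw [this]; exact add_mem h1 (zmul_mem h0 k)
      have hL' := S.sup L _ hL hpt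
      have e1 := ih (i + 1) f' _ (l / p + k * t₀) x (by rw [hf]; ring) hf' hL' (by
        intro y hy
        obtain ⟨l', hl', a, rfl⟩ := mem_sup_iff.1 hy
        apply mem_sup_left
        have : (p : K) ^ (i + 1 + 1) * ω * (l' + a * (l / p + k * t₀)) =
            p * (p ^ (i + 1) * ω * l') + a * (p ^ (i + 1) * ω * (p * (l / p + k * t₀))) := by
          ring
        rw [this]
        exact add_mem (nmul_mem (hθ _ hl') p) (zmul_mem (hθ _ hpt) a))
        (mem_sup_right (mem_zmultiples _)) (mem_sup_left hx)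
      rw [hθ1, ← add_assoc, S.per _ _ _ hL' (stab_sup hε hpt) ?_
        (mem_sup_left (zmul_mem hθ0 k))] at e1
      · exact e1
      · rw [mul_add]
        exact mem_sup_left (add_mem hx (hε _ h0))
    have e0 := all_lines S hL hε h0 h1 hx hk 0
    have e1 := all_lines S hL hε h0 h1 hx hk 1
    simp only [Int.cast_zero, zero_mul, add_zero, Int.cast_one, one_mul] at e0 e1
    simp only [hinv] at e1
    exact S.inj _ _ (mul_right_cancel (e1.symm.trans e0))

end Claim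

/-- The lattice `L / p`. -/
def inv (p : ℕ) (L : AddSubgroup K) : AddSubgroup K := L.comap (AddMonoidHom.mulLeft (p : K))

/-- The part of `L / p` killed by `ω - r`. -/
def eig (p : ℕ) (ω : K) (r : ℤ) (L : AddSubgroup K) : AddSubgroup K :=
  inv p L ⊓ L.comap (AddMonoidHom.mulLeft (ω - r))

omit [CharZero K] in
lemma mem_inv {L : AddSubgroup K} {y : K} : y ∈ inv p L ↔ (p : K) * y ∈ L := Iff.rfl

omit [CharZero K] in
lemma mem_eig {ω : K} {r : ℤ} {L : AddSubgroup K} {y : K} :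
    y ∈ eig p ω r L ↔ (p : K) * y ∈ L ∧ (ω - r) * y ∈ L := Iff.rfl

section Top

variable [Fact p.Prime] {ω : K} {T N c : ℤ} {s : ℕ}

lemma eig_eig (hω : ω ^ 2 = T * ω - N) {L : AddSubgroup K} (hO : ∀ y ∈ L, ω * y ∈ L) {r : ℤ}
    (hr : (p : ℤ) ∣ r ^ 2 - T * r + N) (hr2 : ¬(p : ℤ) ∣ 2 * r - T) :
    eig p ω (T - r) (eig p ω r L) = inv p L := by
  obtain ⟨e, he⟩ := hr
  have heK : (r : K) ^ 2 - T * r + N = p * e := by exact_mod_cast congrArg (Int.cast : ℤ → K) he
  ext y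
  simp only [mem_eig, mem_inv]
  constructor
  · rintro ⟨⟨h1, h2⟩, h3, -⟩
    refine mem_of_coprime Fact.out hr2 h1 ?_
    have : ((2 * r - T : ℤ) : K) * (p * y) = p * ((ω - (T - r : ℤ)) * y) - (ω - r) * (p * y) := by
      push_cast; ring
    rw [this]
    exact sub_mem h3 h2
  · intro h
    have h2 : ∀ a : ℤ, (ω - a) * (p * y) ∈ L := fun a => by
      rw [sub_mul]; exact sub_mem (hO _ h) (zmul_mem h a)
    refine ⟨⟨nmul_mem h p, h2 r⟩, ?_, ?_⟩
    · have := h2 (T - r)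
      rwa [mul_left_comm] at this
    · have : (ω - r) * ((ω - (T - r : ℤ)) * y) = (-e : ℤ) * (p * y) := by
        push_cast
        linear_combination y * hω - y * heK
      rw [this]
      exact zmul_mem h _

variable (S : Sys p ε Lat lam) (hω : ω ^ 2 = T * ω - N) (hεω : ε = 1 + p * c + p ^ (s + 1) * ω)
  {L : AddSubgroup K} (hL : Lat L) (hO : ∀ y ∈ L, ω * y ∈ L) {l : K} (hl : l ∈ L)
  (hind : ∀ a b : ℤ, (a + b * ω) * l / p ∈ L → (p : ℤ) ∣ a ∧ (p : ℤ) ∣ b)
  (hspan : ∀ y ∈ L, ∃ a b : ℤ, (y - (a + b * ω) * l) / p ∈ L)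

omit [Fact p.Prime] [CharZero K] in
include hεω hO in
lemma heps : ∀ y, (p : K) * y ∈ L → (ε - 1) * y ∈ L := by
  intro y hy
  have : (ε - 1) * y = c * (p * y) + (p ^ s : ℕ) * (ω * (p * y)) := by
    rw [hεω]; push_cast; ring
  rw [this]
  exact add_mem (zmul_mem hy c) (nmul_mem (hO _ hy) _)

include hO hl hspan in
lemma inv_eq : inv p L = (L ⊔ zmultiples (l / p)) ⊔ zmultiples (ω * l / p) := by
  have hp0 : (p : K) ≠ 0 := Nat.cast_ne_zero.2 (Fact.out : p.Prime).ne_zero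
  ext y
  rw [mem_inv, mem_sup_iff]
  constructor
  · intro h
    obtain ⟨a, b, hab⟩ := hspan _ h
    exact ⟨_, mem_sup_iff.2 ⟨_, hab, a, rfl⟩, b, by field_simp; ring⟩
  · rintro ⟨z, hz, b, rfl⟩
    obtain ⟨w, hw, a, rfl⟩ := mem_sup_iff.1 hz
    have : (p : K) * (w + a * (l / p) + b * (ω * l / p)) = p * w + a * l + b * (ω * l) := by
      field_simp
    rw [this]
    exact add_mem (add_mem (nmul_mem hw p) (zmul_mem hl a)) (zmul_mem (hO _ hl) b)

include hω hO hl hind hspan in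
lemma eig_eq {r k : ℤ} (hr : (p : ℤ) ∣ r ^ 2 - T * r + N) (hk : (p : ℤ) ∣ k - (r - T)) :
    eig p ω r L = L ⊔ zmultiples (ω * l / p + k * (l / p)) := by
  have hp0 : (p : K) ≠ 0 := Nat.cast_ne_zero.2 (Fact.out : p.Prime).ne_zero
  obtain ⟨e, he⟩ := hr
  obtain ⟨d, hd⟩ := hk
  have heK : (r : K) ^ 2 - T * r + N = p * e := by exact_mod_cast congrArg (Int.cast : ℤ → K) he
  have hdK : (k : K) = r - T + p * d := by
    have := congrArg (Int.cast : ℤ → K) hd
    push_cast at this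
    linear_combination this
  have h2 : ∀ y ∈ L, (ω - r) * y ∈ L := fun y h => by
    rw [sub_mul]; exact sub_mem (hO _ h) (zmul_mem h r)
  ext y
  rw [mem_eig, mem_sup_iff]
  constructor
  · rintro ⟨h, h'⟩
    obtain ⟨a, b, hab⟩ := hspan _ h
    have h3 := (hind (-r * a - b * N) (a + b * (T - r)) (by
      have : (((-r * a - b * N : ℤ) : K) + ((a + b * (T - r) : ℤ) : K) * ω) * l / p =
          (ω - r) * y - (ω - r) * ((p * y - (a + b * ω) * l) / p) := by
        push_cast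
        field_simp
        linear_combination (-b * l) * hω
      rw [this]
      exact sub_mem h' (h2 _ hab))).2
    obtain ⟨g, hg⟩ := h3
    have hgK : (a : K) = p * g - b * (T - r) := by
      have := congrArg (Int.cast : ℤ → K) hg
      push_cast at this
      linear_combination this
    refine ⟨_, add_mem hab (zmul_mem hl (g - b * d)), b, ?_⟩
    rw [hgK, hdK]
    push_cast
    field_simp
    ring
  · rintro ⟨w, hw, a, rfl⟩
    constructor
    · have : (p : K) * (w + a * (ω * l / p + k * (l / p))) = p * w + a * (ω * l + k * l) := by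
        field_simp
      rw [this]
      exact add_mem (nmul_mem hw p) (zmul_mem (add_mem (hO _ hl) (zmul_mem hl k)) a)
    · have : (ω - r) * (w + a * (ω * l / p + k * (l / p))) =
          (ω - r) * w + a * (d * ((ω - r) * l) - e * l) := by
        rw [hdK]
        field_simp
        linear_combination (a * l) * hω - (a * l) * heK
      rw [this]
      exact add_mem (h2 _ hw) (zmul_mem (sub_mem (zmul_mem (h2 _ hl) d) (zmul_mem hl e)) a)

include S hω hεω hL hO hl hind hspan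

lemma top_rel {x : K} (hx : (ε - 1) * x ∈ L) (Z : Finset (ZMod p))
    (hZ : ∀ k, k ∉ Z → k ^ 2 + T * k + N ≠ 0) :
    lam L x ^ (p * p) * lam (inv p L) x ^ Z.card = lam (inv p L) x *
      ∏ k ∈ Z, lam (L ⊔ zmultiples (ω * l / p + ((k.val : ℤ) : K) * (l / p))) x ^ p := by
  have hp : p.Prime := Fact.out
  have hp0 : (p : K) ≠ 0 := Nat.cast_ne_zero.2 hp.ne_zero
  have hε := heps hεω hO
  have hnd : ¬(p : ℤ) ∣ 1 := (Nat.prime_iff_prime_int.1 hp).not_dvd_one
  have h0 : (p : K) * (l / p) ∈ L := by rwa [mul_div_cancel₀ _ hp0]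
  have h1 : (p : K) * (ω * l / p) ∈ L := by rw [mul_div_cancel₀ _ hp0]; exact hO _ hl
  have hk : ∀ k : ℤ, ω * l / p + k * (l / p) ∉ L := by
    intro k h
    refine hnd (hind k 1 ?_).2
    convert h using 1
    push_cast; ring
  have hk0 : l / p ∉ L := by
    intro h
    refine hnd (hind 1 0 ?_).1
    convert h using 1
    push_cast; ring
  have hcl : ∀ t : K, (p : K) * t ∈ L → ∀ (a : ℤ) (z : K), (ε - 1) * z ∈ L →
      lam (L ⊔ zmultiples t) (z + a * (ω * t)) = lam (L ⊔ zmultiples t) z := by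
    intro t ht a z hz
    have := claim (f := p ^ (s + 1)) S hω (by rw [hεω]; push_cast; ring) s 0 1 _ (a * t) z
      (by ring) hnd (S.sup L t hL ht) (by
        intro y hy
        obtain ⟨w, hw, b, rfl⟩ := mem_sup_iff.1 hy
        apply mem_sup_left
        have : (p : K) ^ (0 + 1) * ω * (w + b * t) = p * (ω * w) + b * (ω * (p * t)) := by ring
        rw [this]
        exact add_mem (nmul_mem (hO _ hw) p) (zmul_mem (hO _ ht) b))
      (zmul_mem (mem_sup_right (mem_zmultiples t)) a) (mem_sup_left hz)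
    rw [← this]
    congr 1
    ring
  set F := FF lam p L (l / p) (ω * l / p) x with hF
  have hrow : ∀ b : ℤ, lam (L ⊔ zmultiples (l / p)) (x + b * (ω * l / p)) = ∏ a, F a b := by
    intro b
    have hx' : (ε - 1) * (x + b * (ω * l / p)) ∈ L := by
      rw [mul_add, mul_left_comm]; exact add_mem hx (zmul_mem (hε _ h1) b)
    rw [S.dist L _ _ hL (stab_of hε) hx' (hε _ h0) h0 hk0, prod_val]
    refine Finset.prod_congr rfl fun a _ => ?_
    have := ev_eq S hL hε h0 h1 hx a.val b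
    push_cast at this
    rw [ZMod.natCast_zmod_val] at this
    rw [hF, ← this]
    congr 1
    simp only [ZMod.natCast_val]
    ring
  have hdist : lam (inv p L) x =
      ∏ j ∈ range p, lam (L ⊔ zmultiples (l / p)) (x + j * (ω * l / p)) := by
    rw [inv_eq hO hl hspan]
    refine S.dist _ _ _ (S.sup L _ hL h0) (stab_sup hε h0) (mem_sup_left hx)
      (mem_sup_left (hε _ h1)) (mem_sup_left h1) fun h => ?_
    obtain ⟨w, hw, a, ha⟩ := mem_sup_iff.1 h
    apply hk (-a)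
    rw [ha]
    simpa using hw
  have hN : lam (inv p L) x = ∏ b, ∏ a, F a b := by
    rw [hdist, prod_val]
    refine Finset.prod_congr rfl fun b _ => ?_
    have := hrow b.val
    push_cast at this
    rw [ZMod.natCast_zmod_val] at this
    rw [← this]
  have hinf : lam (L ⊔ zmultiples (l / p)) x ^ p = lam (inv p L) x := by
    rw [hdist, ← Finset.card_range p, ← Finset.prod_const, Finset.card_range]
    refine Finset.prod_congr rfl fun j _ => ?_
    rw [← hcl _ h0 j x hx]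
    congr 1
    push_cast; ring
  have hne : ∀ k : ZMod p, k ∉ Z →
      lam (L ⊔ zmultiples (ω * l / p + ((k.val : ℤ) : K) * (l / p))) x ^ p = lam (inv p L) x := by
    intro k hkZ
    set k' : ℤ := (k.val : ℤ) with hk'
    have hpt : (p : K) * (ω * l / p + k' * (l / p)) ∈ L := by
      rw [mul_add, mul_left_comm]; exact add_mem h1 (zmul_mem h0 k')
    have hP : ¬(p : ℤ) ∣ k' ^ 2 + T * k' + N := by
      rw [← ZMod.intCast_zmod_eq_zero_iff_dvd]
      simpa [hk'] using hZ k hkZ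
    obtain ⟨u, w, huw⟩ := (Nat.prime_iff_prime_int.1 hp).irreducible.coprime_iff_not_dvd.2 hP
    have huK : (u : K) * p + w * (k' ^ 2 + T * k' + N) = 1 := by
      exact_mod_cast congrArg (Int.cast : ℤ → K) huw
    have hinv : ∀ a : ℤ, lam (L ⊔ zmultiples (ω * l / p + k' * (l / p))) (x + a * (l / p)) =
        lam (L ⊔ zmultiples (ω * l / p + k' * (l / p))) x := by
      intro a
      rw [← hcl _ hpt (-(a * w)) x hx, ← S.per _ (x + ((-(a * w) : ℤ) : K) *
        (ω * (ω * l / p + k' * (l / p)))) ((a * u : ℤ) * l + (a * w * (T + k') : ℤ) *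
          (ω * l / p + k' * (l / p))) (S.sup L _ hL hpt) (stab_sup hε hpt) ?_
        (mem_sup_iff.2 ⟨_, zmul_mem hl _, _, rfl⟩)]
      · congr 1
        push_cast
        field_simp
        linear_combination (a * w * l) * hω - (a * l) * huK
      · apply mem_sup_left
        rw [mul_add, mul_left_comm, mul_left_comm (ε - 1) ω]
        exact add_mem hx (zmul_mem (hO _ (hε _ hpt)) _)
    have : ∏ a : ZMod p, lam (L ⊔ zmultiples (ω * l / p + k' * (l / p)))
        (x + ((a.val : ℤ) : K) * (l / p)) = lam (inv p L) x := by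
      simp only [line_eq S hL hε h0 h1 hx k' _ (hk k')]
      rw [hN, Finset.prod_comm]
      refine Finset.prod_congr rfl fun b _ => ?_
      refine Fintype.prod_equiv (Equiv.addRight ((k' : ZMod p) * b)) _ _ fun a => ?_
      simp [hF]
    simp only [hinv, Finset.prod_const, Finset.card_univ, ZMod.card] at this
    exact this
  have e0 := all_lines S hL hε h0 h1 hx hk 0
  have e1 := hrow 0
  simp only [Int.cast_zero, zero_mul, add_zero] at e0 e1
  have e2 : lam L x ^ p * lam (inv p L) x = lam (L ⊔ zmultiples (l / p)) x *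
      ∏ k : ZMod p, lam (L ⊔ zmultiples (ω * l / p + ((k.val : ℤ) : K) * (l / p))) x := by
    rw [e0, e1, hN, ← Finset.mul_prod_erase univ _ (mem_univ 0), mul_left_comm]
  have e3 := congrArg (· ^ p) e2
  simp only [mul_pow, ← Finset.prod_pow, hinf, ← pow_mul] at e3
  rw [← Finset.prod_mul_prod_compl Z, Finset.prod_congr rfl fun k hk => hne k (mem_compl.1 hk),
    Finset.prod_const, card_compl, ZMod.card] at e3
  have hc : Z.card ≤ p := by simpa [ZMod.card] using Z.card_le_univ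
  apply mul_right_cancel (b := lam (inv p L) x ^ (p - Z.card))
  rw [mul_assoc, ← pow_add, Nat.add_sub_cancel' hc, e3, mul_assoc]

lemma top_inert {x : K} (hx : (ε - 1) * x ∈ L) (h : ∀ r : ℤ, ¬(p : ℤ) ∣ r ^ 2 - T * r + N) :
    lam (inv p L) x = lam L x ^ (p * p) := by
  have := top_rel S hω hεω hL hO hl hind hspan hx ∅ fun k _ hk => h (-(k.val : ℤ)) (by
    rw [← ZMod.intCast_zmod_eq_zero_iff_dvd]
    simpa using hk)
  simpa using this.symm

lemma top_ram {x : K} (hx : (ε - 1) * x ∈ L) {r : ℤ} (hr : (p : ℤ) ∣ r ^ 2 - T * r + N)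
    (hr2 : (p : ℤ) ∣ 2 * r - T) : lam (eig p ω r L) x = lam L x ^ p := by
  have hr' := (ZMod.intCast_zmod_eq_zero_iff_dvd _ p).2 hr
  have hr2' := (ZMod.intCast_zmod_eq_zero_iff_dvd _ p).2 hr2
  push_cast at hr' hr2'
  have := top_rel S hω hεω hL hO hl hind hspan hx {((r - T : ℤ) : ZMod p)} fun k hk h => hk (by
    rw [mem_singleton, ← sub_eq_zero]
    apply pow_eq_zero_iff (two_ne_zero) |>.1
    push_cast
    linear_combination h - hr' + (r - T - k) * hr2')
  rw [card_singleton, pow_one, prod_singleton, mul_comm, mul_right_inj, pow_mul,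
    ← eig_eq hω hO hl hind hspan hr (by
      rw [← ZMod.intCast_zmod_eq_zero_iff_dvd]; simp)] at this
  exact (S.inj _ _ this).symm

lemma top_split {x : K} (hx : (ε - 1) * x ∈ L) {r : ℤ} (hr : (p : ℤ) ∣ r ^ 2 - T * r + N)
    (hr2 : ¬(p : ℤ) ∣ 2 * r - T) : lam L x ^ (p * p) * lam (inv p L) x =
      (lam (eig p ω r L) x * lam (eig p ω (T - r) L) x) ^ p := by
  have hr' := (ZMod.intCast_zmod_eq_zero_iff_dvd _ p).2 hr
  have hne : ((r - T : ℤ) : ZMod p) ≠ ((-r : ℤ) : ZMod p) := by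
    intro h
    apply hr2
    rw [← ZMod.intCast_zmod_eq_zero_iff_dvd]
    push_cast at h ⊢
    linear_combination h
  push_cast at hr'
  have := top_rel S hω hεω hL hO hl hind hspan hx {((r - T : ℤ) : ZMod p), ((-r : ℤ) : ZMod p)}
    fun k hk h => hk (by
      rw [mem_insert, mem_singleton, ← sub_eq_zero, ← sub_eq_zero (a := k), ← mul_eq_zero]
      push_cast
      linear_combination h - hr')
  rw [card_pair hne, prod_pair hne, ← eig_eq hω hO hl hind hspan hr (by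
      rw [← ZMod.intCast_zmod_eq_zero_iff_dvd]; simp),
    ← eig_eq (r := T - r) hω hO hl hind hspan (by convert hr using 1; ring) (by
      rw [← ZMod.intCast_zmod_eq_zero_iff_dvd]; simp)] at this
  rw [mul_pow]
  apply mul_left_cancel (a := lam (inv p L) x)
  rw [← this, pow_two, mul_left_comm]

end Top

/-- `u, w` is a basis of `L`. -/
def Bas (L : AddSubgroup K) (u w : K) : Prop :=
  (∀ y, y ∈ L ↔ ∃ a b : ℤ, y = a * u + b * w) ∧ ∀ a b : ℤ, a * u + b * w = 0 → a = 0 ∧ b = 0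

omit [CharZero K] in
lemma Bas.left {L : AddSubgroup K} {u w : K} (h : Bas L u w) : u ∈ L :=
  (h.1 u).2 ⟨1, 0, by simp⟩

omit [CharZero K] in
lemma Bas.right {L : AddSubgroup K} {u w : K} (h : Bas L u w) : w ∈ L :=
  (h.1 w).2 ⟨0, 1, by simp⟩

omit [CharZero K] in
lemma quad {L : AddSubgroup K} {u w θ : K} (h : Bas L u w) (hθ : ∀ y ∈ L, θ * y ∈ L) :
    ∃ T N : ℤ, θ ^ 2 = T * θ - N := by
  obtain ⟨α, β, h1⟩ := (h.1 _).1 (hθ u h.left)
  obtain ⟨γ, δ, h2⟩ := (h.1 _).1 (hθ w h.right)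
  have hu : u ≠ 0 := fun h0 => one_ne_zero (h.2 1 0 (by simp [h0])).1
  refine ⟨α + δ, α * δ - β * γ, mul_right_cancel₀ hu ?_⟩
  push_cast
  linear_combination (θ - δ) * h1 + β * h2

lemma cyc_of (hp : p.Prime) {L : AddSubgroup K} {u w ω : K} (h : Bas L u w) {l : K}
    {x₁ y₁ x₂ y₂ : ℤ} (h1 : l = x₁ * u + y₁ * w) (h2 : ω * l = x₂ * u + y₂ * w)
    (hD : ¬(p : ℤ) ∣ x₁ * y₂ - x₂ * y₁) :
    l ∈ L ∧ (∀ a b : ℤ, (a + b * ω) * l / p ∈ L → (p : ℤ) ∣ a ∧ (p : ℤ) ∣ b) ∧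
      ∀ y ∈ L, ∃ a b : ℤ, (y - (a + b * ω) * l) / p ∈ L := by
  have hp0 : (p : K) ≠ 0 := Nat.cast_ne_zero.2 hp.ne_zero
  have hpi := Nat.prime_iff_prime_int.1 hp
  refine ⟨(h.1 _).2 ⟨_, _, h1⟩, fun a b hab => ?_, fun y hy => ?_⟩
  · obtain ⟨m, n, hmn⟩ := (h.1 _).1 hab
    rw [div_eq_iff hp0] at hmn
    obtain ⟨e1, e2⟩ := h.2 (a * x₁ + b * x₂ - p * m) (a * y₁ + b * y₂ - p * n) (by
      push_cast
      linear_combination hmn - a * h1 - b * h2)
    constructor
    · refine (hpi.dvd_or_dvd (a := a) ⟨m * y₂ - n * x₂, ?_⟩).resolve_right hD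
      linear_combination y₂ * e1 - x₂ * e2
    · refine (hpi.dvd_or_dvd (a := b) ⟨n * x₁ - m * y₁, ?_⟩).resolve_right hD
      linear_combination x₁ * e2 - y₁ * e1
  · obtain ⟨m, n, rfl⟩ := (h.1 _).1 hy
    obtain ⟨g, e, hge⟩ := hpi.irreducible.coprime_iff_not_dvd.2 hD
    have hK : (g : K) * p + e * (x₁ * y₂ - x₂ * y₁) = 1 := by
      exact_mod_cast congrArg (Int.cast : ℤ → K) hge
    refine ⟨e * (m * y₂ - n * x₂), e * (n * x₁ - m * y₁), (h.1 _).2 ⟨g * m, g * n, ?_⟩⟩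
    rw [div_eq_iff hp0]
    push_cast
    linear_combination -(e * (m * y₂ - n * x₂)) * h1 - (e * (n * x₁ - m * y₁)) * h2 -
      (m * u + n * w) * hK

lemma cyc (hp : p.Prime) {L : AddSubgroup K} {u w ω : K} (h : Bas L u w)
    (hO : ∀ y ∈ L, ω * y ∈ L) (hns : ∀ r : ℤ, ¬∀ y ∈ L, (ω - r) / p * y ∈ L) :
    ∃ l, l ∈ L ∧ (∀ a b : ℤ, (a + b * ω) * l / p ∈ L → (p : ℤ) ∣ a ∧ (p : ℤ) ∣ b) ∧
      ∀ y ∈ L, ∃ a b : ℤ, (y - (a + b * ω) * l) / p ∈ L := by
  have hp0 : (p : K) ≠ 0 := Nat.cast_ne_zero.2 hp.ne_zero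
  obtain ⟨α, β, h1⟩ := (h.1 _).1 (hO u h.left)
  obtain ⟨γ, δ, h2⟩ := (h.1 _).1 (hO w h.right)
  by_cases hβ : (p : ℤ) ∣ β
  · by_cases hγ : (p : ℤ) ∣ γ
    · refine ⟨u + w, cyc_of hp h (x₁ := 1) (y₁ := 1) (x₂ := α + γ) (y₂ := β + δ) (by simp)
        (by push_cast; linear_combination h1 + h2) fun hd => hns α ?_⟩
      obtain ⟨b, rfl⟩ := hβ
      obtain ⟨g, rfl⟩ := hγ
      obtain ⟨d, hd⟩ := hd
      have hK : (δ : K) = α + p * (d + g - b) := by
        have := congrArg (Int.cast : ℤ → K) hd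
        push_cast at this
        linear_combination this
      intro y hy
      obtain ⟨m, n, rfl⟩ := (h.1 _).1 hy
      refine (h.1 _).2 ⟨n * g, m * b + n * (d + g - b), ?_⟩
      rw [hK] at h2
      push_cast at h1 h2 ⊢
      field_simp
      linear_combination m * h1 + n * h2
    · exact ⟨w, cyc_of hp h (x₁ := 0) (y₁ := 1) (by simp) h2 (by simpa using hγ)⟩
  · exact ⟨u, cyc_of hp h (x₁ := 1) (y₁ := 0) (by simp) h1 (by simpa using hβ)⟩

lemma iter_triv {X : Type} (A : X → X) (g : X → M) (P : X → Prop) {q : ℕ} (hq : 2 ≤ q)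
    (hP : ∀ x, P x → P (A x) ∧ g (A x) = g x ^ q) (hfin : (g '' {x | P x}).Finite)
    (tf : ∀ (a : M) (n : ℕ), n ≠ 0 → a ^ n = 1 → a = 1) {x : X} (hx : P x) : g x = 1 := by
  have h : ∀ i, P (A^[i] x) ∧ g (A^[i] x) = g x ^ q ^ i := by
    intro i
    induction i with
    | zero => simpa using hx
    | succ i ih =>
      rw [Function.iterate_succ_apply']
      exact ⟨(hP _ ih.1).1, by rw [(hP _ ih.1).2, ih.2, ← pow_mul, pow_succ]⟩
  obtain ⟨i, j, hij, he⟩ := Set.Finite.exists_lt_map_eq_of_forall_mem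
    (f := fun i : ℕ => g (A^[i] x)) (fun i => Set.mem_image_of_mem g (h i).1) hfin
  simp only [(h _).2] at he
  have hlt : q ^ i < q ^ j := Nat.pow_lt_pow_right (by omega) hij
  refine tf _ (q ^ j - q ^ i) (by omega) ?_
  apply mul_left_cancel (a := g x ^ q ^ i)
  rw [← pow_add, Nat.add_sub_cancel' hlt.le, mul_one, he]

omit [CharZero K] in
lemma pow_step (S : Sys p ε Lat lam) {L : AddSubgroup K} (hL : Lat L) (hst : ∀ y ∈ L, ε * y ∈ L)
    {x t : K} (hx : (ε - 1) * x ∈ L) (h1 : (ε - 1) * t ∈ L) (h2 : (p : K) * t ∈ L) (ht : t ∉ L)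
    (h : ∀ j : ℕ, lam L (x + j * t) = lam L x) : lam (L ⊔ zmultiples t) x = lam L x ^ p := by
  rw [S.dist L x t hL hst hx h1 h2 ht]
  simp [h]

theorem trivial [Fact p.Prime] (S : Sys p ε Lat lam) (hb : ∀ L, Lat L → ∃ u w, Bas L u w) {n : ℕ}
    (hn : (ε - 1) ^ 2 = n * ε) (hn0 : n ≠ 0) (hpn : p ∣ n)
    (hirr : ∀ a b : ℤ, a + b * ε = 0 → a = 0 ∧ b = 0)
    (hfin : {z | ∃ L x, Lat L ∧ (∀ y ∈ L, ε * y ∈ L) ∧ (ε - 1) * x ∈ L ∧ z = lam L x}.Finite)
    (tf : ∀ (a : M) (n : ℕ), n ≠ 0 → a ^ n = 1 → a = 1) (L : AddSubgroup K) (x : K) (hL : Lat L)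
    (hst : ∀ y ∈ L, ε * y ∈ L) (hx : (ε - 1) * x ∈ L) : lam L x = 1 := by
  classical
  have hp : p.Prime := Fact.out
  have hp0 : (p : K) ≠ 0 := Nat.cast_ne_zero.2 hp.ne_zero
  have hp2 := hp.two_le
  have hco : ∀ (q c T N : ℤ) (ω : K), ε = c + q * ω → ω ^ 2 = T * ω - N →
      c ^ 2 + q * T * c + q ^ 2 * N = 1 ∧ 2 * c + q * T = n + 2 := by
    intro q c T N ω h1 h2
    obtain ⟨e1, e2⟩ := hirr (c ^ 2 + q * T * c + q ^ 2 * N - 1) (n + 2 - (2 * c + q * T)) (by
      push_cast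
      linear_combination -hn + (ε - c + q * ω - q * T) * h1 + q ^ 2 * h2)
    constructor <;> linarith
  obtain ⟨s, ⟨c, T, N, ω, h1, hω⟩, hmax⟩ : ∃ s : ℕ,
      (∃ (c T N : ℤ) (ω : K), ε = c + (p ^ s : ℤ) * ω ∧ ω ^ 2 = T * ω - N) ∧
      ¬∃ (c T N : ℤ) (ω : K), ε = c + (p ^ (s + 1) : ℤ) * ω ∧ ω ^ 2 = T * ω - N := by
    by_contra hcon
    have : ∀ s : ℕ, ∃ (c T N : ℤ) (ω : K), ε = c + (p ^ s : ℤ) * ω ∧ ω ^ 2 = T * ω - N := by
      intro s
      induction s with
      | zero => exact ⟨0, n + 2, 1, ε, by simp, by push_cast; linear_combination hn⟩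
      | succ s ih =>
        by_contra h
        exact hcon ⟨s, ih, h⟩
    obtain ⟨c, T, N, ω, h1, h2⟩ := this (n * (n + 4))
    obtain ⟨e1, e2⟩ := hco _ c T N ω h1 h2
    have hd : ((p ^ (n * (n + 4)) : ℕ) : ℤ) ∣ ((n * (n + 4) : ℕ) : ℤ) :=
      ⟨p ^ (n * (n + 4)) * (T ^ 2 - 4 * N), by
        push_cast
        linear_combination 4 * e1 - (n + 2 + 2 * c + p ^ (n * (n + 4)) * T) * e2⟩
    have := Nat.le_of_dvd (by positivity) (Int.natCast_dvd_natCast.1 hd)
    exact absurd (Nat.lt_pow_self hp.one_lt) (not_lt.2 this)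
  have hns : ∀ L, Lat L → ∀ r : ℤ, ¬∀ y ∈ L, (ω - r) / p * y ∈ L := by
    intro L hL r h
    obtain ⟨u, w, hB⟩ := hb L hL
    obtain ⟨T', N', h'⟩ := quad hB h
    exact hmax ⟨c + p ^ s * r, T', N', _, by rw [h1]; push_cast; field_simp; ring, h'⟩
  have hfin' : ∀ x : K, ∀ P : AddSubgroup K → Prop,
      (∀ L, P L → Lat L ∧ (∀ y ∈ L, ε * y ∈ L) ∧ (ε - 1) * x ∈ L) →
      ((fun L => lam L x) '' {L | P L}).Finite := by
    intro x P hP
    refine hfin.subset ?_
    rintro _ ⟨L, hL, rfl⟩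
    exact ⟨L, x, (hP L hL).1, (hP L hL).2.1, (hP L hL).2.2, rfl⟩
  rcases s with _ | s
  · obtain ⟨n', rfl⟩ := hpn
    have key : ∀ L, ∃ L', (Lat L ∧ (∀ y ∈ L, ε * y ∈ L) ∧ (ε - 1) * x ∈ L) →
        (Lat L' ∧ (∀ y ∈ L', ε * y ∈ L') ∧ (ε - 1) * x ∈ L') ∧ lam L' x = lam L x ^ p := by
      intro L
      by_cases h : Lat L ∧ (∀ y ∈ L, ε * y ∈ L) ∧ (ε - 1) * x ∈ L
      swap
      · exact ⟨L, fun h' => absurd h' h⟩
      obtain ⟨hL, hst, hx⟩ := h
      have := hns L hL (1 - c)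
      push Not at this
      obtain ⟨l, hl, hl2⟩ := this
      have e : (ω - (1 - c : ℤ)) / p * l = (ε - 1) * l / p := by rw [h1]; push_cast; ring
      rw [e] at hl2
      have h2 : (p : K) * ((ε - 1) * l / p) ∈ L := by
        rw [mul_div_cancel₀ _ hp0, sub_mul, one_mul]; exact sub_mem (hst l hl) hl
      have h3 : (ε - 1) * ((ε - 1) * l / p) ∈ L := by
        have : (ε - 1) * ((ε - 1) * l / p) = n' * (ε * l) := by
          push_cast at hn
          field_simp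
          linear_combination l * hn
        rw [this]; exact nmul_mem (hst l hl) _
      refine ⟨L ⊔ zmultiples ((ε - 1) * l / p), fun _ => ⟨⟨S.sup L _ hL h2, ?_, mem_sup_left hx⟩,
        pow_step S hL hst hx h3 h2 hl2 fun j => S.leaf L x _ hL hst ⟨l, hl, hl2⟩ hx ?_ ?_⟩⟩
      · intro y hy
        obtain ⟨z, hz, a, rfl⟩ := mem_sup_iff.1 hy
        exact mem_sup_iff.2 ⟨_, add_mem (hst z hz) (zmul_mem h3 a), a, by ring⟩
      · rw [mul_left_comm]; exact nmul_mem h3 j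
      · rw [mul_left_comm]; exact nmul_mem h2 j
    choose A hA using key
    exact iter_triv A (fun L => lam L x) _ hp2 hA (hfin' x _ fun _ h => h) tf ⟨hL, hst, hx⟩
  obtain ⟨e1, e2⟩ := hco _ c T N ω h1 hω
  obtain ⟨c', hc'⟩ : (p : ℤ) ∣ c - 1 := by
    apply (Nat.prime_iff_prime_int.1 hp).dvd_of_dvd_pow (n := 2)
    obtain ⟨n', rfl⟩ := hpn
    exact ⟨-n' + p ^ s * T - p ^ s * T * c - p ^ (2 * s + 1) * N, by
      push_cast at e2
      linear_combination e1 - e2⟩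
  have hεω : ε = 1 + p * c' + p ^ (s + 1) * ω := by
    have := congrArg (Int.cast : ℤ → K) hc'
    push_cast at this h1
    linear_combination h1 + this
  have top : ∀ L x, Lat L → (∀ y ∈ L, ω * y ∈ L) → (ε - 1) * x ∈ L → lam L x = 1 := by
    intro L x hL hO hx
    let P : AddSubgroup K → Prop := fun L => Lat L ∧ (∀ y ∈ L, ω * y ∈ L) ∧ (ε - 1) * x ∈ L
    have hP : ∀ L, P L → Lat L ∧ (∀ y ∈ L, ε * y ∈ L) ∧ (ε - 1) * x ∈ L := fun L h =>
      ⟨h.1, stab_of (heps hεω h.2.1), h.2.2⟩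
    have hcyc : ∀ L, P L → ∃ l, l ∈ L ∧
        (∀ a b : ℤ, (a + b * ω) * l / p ∈ L → (p : ℤ) ∣ a ∧ (p : ℤ) ∣ b) ∧
        ∀ y ∈ L, ∃ a b : ℤ, (y - (a + b * ω) * l) / p ∈ L := fun L h => by
      obtain ⟨u, w, hB⟩ := hb L h.1
      exact cyc hp hB h.2.1 (hns L h.1)
    have hPinv : ∀ L, P L → P (inv p L) := by
      intro L h
      obtain ⟨l, hl, -, hspan⟩ := hcyc L h
      refine ⟨?_, fun y hy => ?_, nmul_mem h.2.2 p⟩
      · rw [inv_eq h.2.1 hl hspan]
        refine S.sup _ _ (S.sup _ _ h.1 (by rwa [mul_div_cancel₀ _ hp0])) (mem_sup_left ?_)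
        rw [mul_div_cancel₀ _ hp0]; exact h.2.1 l hl
      · rw [mem_inv, mul_left_comm]; exact h.2.1 _ hy
    have hPeig : ∀ r : ℤ, (p : ℤ) ∣ r ^ 2 - T * r + N → ∀ L, P L → P (eig p ω r L) := by
      intro r hr L h
      obtain ⟨l, hl, hind, hspan⟩ := hcyc L h
      refine ⟨?_, fun y hy => ⟨?_, ?_⟩, nmul_mem h.2.2 p, ?_⟩
      · rw [eig_eq (k := r - T) hω h.2.1 hl hind hspan hr (by simp)]
        refine S.sup _ _ h.1 ?_
        rw [mul_add, mul_left_comm, mul_div_cancel₀ _ hp0, mul_div_cancel₀ _ hp0]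
        exact add_mem (h.2.1 l hl) (zmul_mem hl _)
      · change (p : K) * (ω * y) ∈ L
        rw [mul_left_comm]; exact h.2.1 _ hy.1
      · change (ω - r) * (ω * y) ∈ L
        rw [mul_left_comm]; exact h.2.1 _ hy.2
      · change (ω - r) * ((ε - 1) * x) ∈ L
        rw [sub_mul]; exact sub_mem (h.2.1 _ h.2.2) (zmul_mem h.2.2 r)
    by_cases hroot : ∃ r : ℤ, (p : ℤ) ∣ r ^ 2 - T * r + N
    swap
    · push Not at hroot
      refine iter_triv (inv p) (fun L => lam L x) P (q := p * p) (by nlinarith)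
        (fun L h => ⟨hPinv L h, ?_⟩) (hfin' x P hP) tf ⟨hL, hO, hx⟩
      obtain ⟨l, hl, hind, hspan⟩ := hcyc L h
      exact top_inert S hω hεω h.1 h.2.1 hl hind hspan h.2.2 hroot
    obtain ⟨r, hr⟩ := hroot
    by_cases hr2 : (p : ℤ) ∣ 2 * r - T
    · refine iter_triv (eig p ω r) (fun L => lam L x) P hp2
        (fun L h => ⟨hPeig r hr L h, ?_⟩) (hfin' x P hP) tf ⟨hL, hO, hx⟩
      obtain ⟨l, hl, hind, hspan⟩ := hcyc L h
      exact top_ram S hω hεω h.1 h.2.1 hl hind hspan h.2.2 hr hr2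
    have hr' : (p : ℤ) ∣ (T - r) ^ 2 - T * (T - r) + N := by convert hr using 1; ring
    refine iter_triv (eig p ω (T - r)) (fun L => lam L x) P hp2
      (fun L h => ⟨hPeig _ hr' L h, ?_⟩) (hfin' x P hP) tf ⟨hL, hO, hx⟩
    rw [← div_eq_one]
    refine iter_triv (eig p ω r) (fun L => lam (eig p ω (T - r) L) x / lam L x ^ p) P hp2
      (fun L h => ⟨hPeig r hr L h, ?_⟩) ?_ tf h
    · obtain ⟨l, hl, hind, hspan⟩ := hcyc L h
      have := top_split S hω hεω h.1 h.2.1 hl hind hspan h.2.2 hr hr2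
      rw [eig_eig hω h.2.1 hr hr2, div_pow, div_eq_div_iff_mul_eq_mul, ← pow_mul, mul_comm, this,
        mul_pow, mul_comm]
    · refine ((hfin' x P hP).image2 (fun a b => a / b ^ p) (hfin' x P hP)).subset ?_
      rintro _ ⟨L, hL, rfl⟩
      exact ⟨_, ⟨_, hPeig _ hr' L hL, rfl⟩, _, ⟨L, hL, rfl⟩, rfl⟩
  have step : ∀ (i r : ℕ) (L : AddSubgroup K) (l : K), i + r = s → Lat L →
      (∀ y ∈ L, (p : K) ^ (i + 1) * ω * y ∈ L) → l ∈ L → (ε - 1) * x ∈ L →
      Lat (L ⊔ zmultiples (p ^ i * ω * l)) ∧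
      (∀ y ∈ L ⊔ zmultiples (p ^ i * ω * l), (p : K) ^ (i + 1) * ω * y ∈
        L ⊔ zmultiples (p ^ i * ω * l)) ∧
      (lam (L ⊔ zmultiples (p ^ i * ω * l)) x = 1 → lam L x = 1) := by
    intro i r L l hir hL hθ hl hx
    have h2 : (p : K) * (p ^ i * ω * l) ∈ L := by
      have := hθ l hl
      rwa [pow_succ', mul_assoc, mul_assoc, ← mul_assoc _ ω] at this
    have h3 : (p : K) ^ (i + 1) * ω * (p ^ i * ω * l) ∈ L := by
      have : (p : K) ^ (i + 1) * ω * (p ^ i * ω * l) =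
          (p ^ i * T : ℤ) * (p ^ (i + 1) * ω * l) - (p ^ (2 * i + 1) * N : ℤ) * l := by
        push_cast
        linear_combination (p ^ (2 * i + 1) * l) * hω
      rw [this]
      exact sub_mem (zmul_mem (hθ l hl) _) (zmul_mem hl _)
    have h4 : ∀ y, (p : K) * y ∈ L → (p : K) ^ (i + 1) * ω * y ∈ L → (ε - 1) * y ∈ L := by
      intro y ha hb
      have : (ε - 1) * y = c' * (p * y) + (p ^ r : ℕ) * (p ^ (i + 1) * ω * y) := by
        rw [hεω, ← hir]; push_cast; ring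
      rw [this]
      exact add_mem (zmul_mem ha _) (nmul_mem hb _)
    refine ⟨S.sup L _ hL h2, fun y hy => ?_, fun h => ?_⟩
    · obtain ⟨z, hz, a, rfl⟩ := mem_sup_iff.1 hy
      apply mem_sup_left
      rw [mul_add, mul_left_comm _ (a : K)]
      exact add_mem (hθ z hz) (zmul_mem h3 a)
    by_cases ht : (p : K) ^ i * ω * l ∈ L
    · rwa [sup_eq_left.2 (zmultiples_le_of_mem ht)] at h
    rw [pow_step S hL (fun y hy => by
      have := add_mem (h4 y (nmul_mem hy p) (hθ y hy)) hy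
      rwa [sub_mul, one_mul, sub_add_cancel] at this) hx (h4 _ h2 h3) h2 ht fun j => by
        rw [← claim (f := p ^ (s + 1)) S hω (by rw [hεω]; push_cast; ring) r i 1 L (j * l) x
          (by rw [← hir]; ring) (Nat.prime_iff_prime_int.1 hp).not_dvd_one hL hθ (nmul_mem hl j) hx]
        congr 1
        ring] at h
    exact tf _ p hp.ne_zero h
  have desc : ∀ i, i ≤ s + 1 → ∀ L, Lat L → (∀ y ∈ L, (p : K) ^ i * ω * y ∈ L) →
      (ε - 1) * x ∈ L → lam L x = 1 := by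
    intro i
    induction i with
    | zero => exact fun _ L hL h hx => top L x hL (by simpa using h) hx
    | succ i ih =>
      intro hi L hL hθ hx
      obtain ⟨u, w, hB⟩ := hb L hL
      obtain ⟨a1, a2, a3⟩ := step i (s - i) L u (by omega) hL hθ hB.left hx
      obtain ⟨b1, -, b3⟩ := step i (s - i) _ w (by omega) a1 a2 (mem_sup_left hB.right)
        (mem_sup_left hx)
      refine a3 (b3 (ih (by omega) _ b1 (fun y hy => ?_) (mem_sup_left (mem_sup_left hx))))
      obtain ⟨z, hz, b, rfl⟩ := mem_sup_iff.1 hy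
      obtain ⟨z', hz', a, rfl⟩ := mem_sup_iff.1 hz
      obtain ⟨m, k, rfl⟩ := (hB.1 _).1 hz'
      refine mem_sup_iff.2 ⟨_, mem_sup_iff.2 ⟨_, (hB.1 _).2
        ⟨-(a * p ^ (2 * i) * N), -(b * p ^ (2 * i) * N), rfl⟩, m + a * p ^ i * T, rfl⟩,
        k + b * p ^ i * T, ?_⟩
      push_cast
      linear_combination (p ^ (2 * i) * (a * u + b * w)) * hω
  refine desc (s + 1) le_rfl L hL (fun y hy => ?_) hx
  have : (p : K) ^ (s + 1) * ω * y = ε * y - y - c' * (p * y) := by rw [hεω]; ring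
  rw [this]
  exact sub_mem (sub_mem (hst y hy) hy) (zmul_mem (nmul_mem hy p) _)

end TR

end Pool.Agent.Lib.Stark
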