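import Pool.Agent.Lib.stark.AU
import Pool.Agent.Lib.stark.PL
import Pool.Agent.Lib.stark.TR

open NumberField Ideal

namespace Pool.Agent.Lib.Stark

namespace S2

lemma card_tors {G : Type} [AddCommGroup G] [Finite G] {p : ℕ}
    (h : Nat.card (nsmulAddMonoidHom p : G →+ G).ker ≤ p) (j : ℕ) :
    Nat.card (nsmulAddMonoidHom (p ^ j) : G →+ G).ker ≤ p ^ j := by
  induction j with
  | zero =>
    have : (nsmulAddMonoidHom (p ^ 0) : G →+ G).ker = ⊥ := by
      ext x; simp
    rw [this]; simp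
  | succ j ih =>
    let φ : (nsmulAddMonoidHom (p ^ (j + 1)) : G →+ G).ker →+ G :=
      (nsmulAddMonoidHom p).comp (AddSubgroup.subtype _)
    have h1 : Nat.card φ.ker ≤ p := by
      refine le_trans (Nat.card_le_card_of_injective
        (fun x : φ.ker => (⟨x.1.1, x.2⟩ : (nsmulAddMonoidHom p : G →+ G).ker)) ?_) h
      intro x y hxy
      exact Subtype.ext (Subtype.ext (Subtype.mk.inj hxy))
    have h2 : Nat.card φ.range ≤ p ^ j := by
      refine le_trans (AddSubgroup.card_le_of_le ?_) ih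
      rintro _ ⟨x, rfl⟩
      have := x.2
      simp only [AddMonoidHom.mem_ker, nsmulAddMonoidHom_apply] at this ⊢
      change p ^ j • p • x.1 = 0
      rwa [smul_smul, ← pow_succ]
    rw [← AddSubgroup.card_mul_index φ.ker, AddSubgroup.index_ker]
    exact (Nat.mul_le_mul h1 h2).trans_eq (pow_succ' p j).symm

lemma exists_gen {G : Type} [AddCommGroup G] [Fintype G] {p : ℕ} (hp : p.Prime)
    (hd : p ∣ Fintype.card G) {t : G} (ht : p • t = 0)
    (h : ∀ g : G, p • g = 0 → g ∈ AddSubgroup.zmultiples t) :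
    ∃ (m n' : ℕ) (s : G), Fintype.card G = p ^ (m + 1) * n' ∧ ¬p ∣ n' ∧
      addOrderOf s = p ^ (m + 1) ∧ ∀ g : G, p • g = 0 → ∃ j : ℕ, g = j • p ^ m • s := by
  have : Fact p.Prime := ⟨hp⟩
  obtain ⟨a, n', hn', ha⟩ := Nat.exists_eq_pow_mul_and_not_dvd (Fintype.card_ne_zero (α := G)) p hp.ne_one
  rcases a with _ | m
  · rw [ha] at hd; simp at hd; exact absurd hd hn'
  have hord : addOrderOf t ≤ p := Nat.le_of_dvd hp.pos (addOrderOf_dvd_of_nsmul_eq_zero ht)
  have h1 : Nat.card (nsmulAddMonoidHom p : G →+ G).ker ≤ p := by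
    refine le_trans (AddSubgroup.card_le_of_le (K := AddSubgroup.zmultiples t) h) ?_
    rwa [Nat.card_zmultiples]
  obtain ⟨H, hH⟩ := Sylow.exists_subgroup_card_pow_prime (G := Multiplicative G) p (n := m + 1)
    (by rw [Nat.card_eq_fintype_card, Fintype.card_multiplicative, ha]; exact dvd_mul_right _ _)
  have : ∃ s ∈ H.toAddSubgroup', p ^ m • s ≠ 0 := by
    by_contra hcon
    push Not at hcon
    have h2 : Nat.card H.toAddSubgroup' ≤ p ^ m :=
      (AddSubgroup.card_le_of_le (K := (nsmulAddMonoidHom (p ^ m) : G →+ G).ker) hcon).trans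
        (card_tors h1 m)
    have h3 : Nat.card H.toAddSubgroup' = p ^ (m + 1) := hH
    rw [h3] at h2
    exact absurd (Nat.pow_lt_pow_right hp.one_lt (Nat.lt_succ_self m)) (not_lt.2 h2)
  obtain ⟨s, hs, hs0⟩ := this
  have hs1 : p ^ (m + 1) • s = 0 := by
    have h3 : Nat.card H.toAddSubgroup' = p ^ (m + 1) := hH
    have := congrArg Subtype.val (card_nsmul_eq_zero' (x := (⟨s, hs⟩ : H.toAddSubgroup')))
    rwa [h3] at this
  refine ⟨m, n', s, ha, hn', addOrderOf_eq_prime_pow hs0 hs1, fun g hg => ?_⟩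
  have hs2 : p • p ^ m • s = 0 := by rwa [smul_smul, ← pow_succ']
  have hle : AddSubgroup.zmultiples (p ^ m • s) ≤ AddSubgroup.zmultiples t :=
    AddSubgroup.zmultiples_le_of_mem (h _ hs2)
  have heq : AddSubgroup.zmultiples (p ^ m • s) = AddSubgroup.zmultiples t := by
    apply AddSubgroup.eq_of_le_of_card_ge hle
    rwa [Nat.card_zmultiples, Nat.card_zmultiples, addOrderOf_eq_prime hs2 hs0]
  have := h g hg
  rw [← heq, ← mem_multiples_iff_mem_zmultiples] at this
  obtain ⟨j, hj⟩ := this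
  exact ⟨j, hj.symm⟩

variable {K : Type} [Field K] [NumberField K]

lemma plane {p : ℕ} (hp : p.Prime) {L : AddSubgroup K} {u w ε l : K} {n : ℕ} (hB : TR.Bas L u w)
    (hst : ∀ y ∈ L, ε * y ∈ L) (hn : (ε - 1) ^ 2 = n * ε) (hpn : p ∣ n) (hl : l ∈ L)
    (hl2 : (ε - 1) * l / p ∉ L) (z : K) (h1 : (p : K) * z ∈ L) (h2 : (ε - 1) * z ∈ L) :
    ∃ b : ℤ, z - b * ((ε - 1) * l / p) ∈ L := by
  have hp0 : (p : K) ≠ 0 := Nat.cast_ne_zero.2 hp.ne_zero
  have hpi := Nat.prime_iff_prime_int.1 hp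
  obtain ⟨n', rfl⟩ := hpn
  have hd : (ε - 1) * l ∈ L := by rw [sub_mul, one_mul]; exact sub_mem (hst l hl) hl
  have hpt : (p : K) * ((ε - 1) * l / p) ∈ L := by rwa [mul_div_cancel₀ _ hp0]
  have hkey : ∀ a b : ℤ, (ε - 1) * ((a + b * (ε - 1)) * l / p) ∈ L → (p : ℤ) ∣ a := by
    intro a b h
    by_contra ha
    refine hl2 (TR.mem_of_coprime hp ha hpt ?_)
    have : (a : K) * ((ε - 1) * l / p) =
        (ε - 1) * ((a + b * (ε - 1)) * l / p) - (b * n' : ℤ) * (ε * l) := by
      push_cast at hn ⊢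
      field_simp
      linear_combination (-b * l) * hn
    rw [this]
    exact sub_mem h (TR.zmul_mem (hst l hl) _)
  obtain ⟨x₁, y₁, e1⟩ := (hB.1 _).1 hl
  obtain ⟨x₂, y₂, e2⟩ := (hB.1 _).1 hd
  have hmul : ∀ y ∈ L, (ε - 1) * y ∈ L := fun y hy => by
    rw [sub_mul, one_mul]; exact sub_mem (hst y hy) hy
  have hD : ¬(p : ℤ) ∣ x₁ * y₂ - x₂ * y₁ := by
    rintro ⟨d, hd⟩
    have hK : (x₁ : K) * y₂ - x₂ * y₁ = p * d := by exact_mod_cast congrArg (Int.cast : ℤ → K) hd
    obtain ⟨a, ha⟩ := hkey x₂ (-x₁) (hmul _ ((hB.1 _).2 ⟨0, -d, by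
      rw [div_eq_iff hp0]; push_cast
      linear_combination x₂ * e1 - x₁ * e2 - w * hK⟩))
    obtain ⟨b, hb⟩ := hkey y₂ (-y₁) (hmul _ ((hB.1 _).2 ⟨d, 0, by
      rw [div_eq_iff hp0]; push_cast
      linear_combination y₂ * e1 - y₁ * e2 + u * hK⟩))
    refine hl2 ((hB.1 _).2 ⟨a, b, ?_⟩)
    rw [div_eq_iff hp0, e2, ha, hb]
    push_cast; ring
  obtain ⟨-, -, hspan⟩ := TR.cyc_of hp hB e1 e2 hD
  obtain ⟨a, b, hab⟩ := hspan _ h1
  obtain ⟨a', rfl⟩ := hkey a b (by
    have : (ε - 1) * ((a + b * (ε - 1)) * l / p) =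
        (ε - 1) * z - (ε - 1) * ((p * z - (a + b * (ε - 1)) * l) / p) := by
      field_simp; ring
    rw [this]
    exact sub_mem h2 (hmul _ hab))
  refine ⟨b, ?_⟩
  have := add_mem hab (TR.zmul_mem hl a')
  convert this using 1
  push_cast
  field_simp
  ring

lemma v_unit {Γ : Type} [LinearOrderedCommGroupWithZero Γ] (v : Valuation ℂ Γ) {e : ℂ} {n : ℕ}
    (h : (e - 1) ^ 2 = n * e) : v e = 1 := by
  have h1 : e * (n + 2 - e) = 1 := by linear_combination -h
  have h2 : v (n + 2) ≤ 1 := by exact_mod_cast PL.v_nat_le v (n + 2)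
  have h3 : v e * v (n + 2 - e) = 1 := by rw [← map_mul, h1, map_one]
  rcases lt_trichotomy (v e) 1 with hlt | he | hgt
  · have : v (n + 2 - e) ≤ 1 := (v.map_sub _ _).trans (max_le h2 hlt.le)
    exact absurd h3 (mul_lt_one_of_lt_of_le hlt this).ne
  · exact he
  · rw [v.map_sub_eq_of_lt_right (h2.trans_lt hgt)] at h3
    exact absurd h3 (one_lt_mul'' hgt hgt).ne'

theorem unit_dvd (hLeaf : StmtLeaf) (hR : StmtR1) {σ₁ σ₂ : K →+* ℝ} {c : K ≃+* K}
    (hRQ : RQ σ₁ σ₂ c) {ε : K} {n : ℕ} (hL : Lev σ₁ σ₂ ε n) {F : Submodule ℤ K → K → ℂ}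
    (hS : Sys σ₁ σ₂ ε F) {Γ : Type} [LinearOrderedCommGroupWithZero Γ] (v : Valuation ℂ Γ)
    {p : ℕ} (hp : p.Prime) (hv : v p < 1) (hpn : p ∣ n) (Λ : Submodule ℤ K) (x : K)
    (hΛ : SL ε Λ) (hx : Tor ε Λ x) : v (F Λ x) = 1 := by
  classical
  have : Fact p.Prime := ⟨hp⟩
  have hb := hR.2.1 K σ₁ σ₂ c hRQ
  have hp0 : (p : K) ≠ 0 := Nat.cast_ne_zero.2 hp.ne_zero
  have hne : ∀ Λ x, v (F Λ x) ≠ 0 := fun Λ x => by simpa using hS.ne Λ x
  let lam : AddSubgroup K → K → Γˣ := fun L x =>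
    Units.mk0 (v (F (AddSubgroup.toIntSubmodule L) x)) (hne _ _)
  have hqC : ((σ₁ ε : ℂ) - 1) ^ 2 = n * (σ₁ ε : ℂ) := by
    have := congrArg σ₁ hL.quad
    simp only [map_pow, map_sub, map_one, map_mul, map_natCast] at this
    exact_mod_cast this
  have hve := v_unit v hqC
  have hbas : ∀ L : AddSubgroup K, IsLat (AddSubgroup.toIntSubmodule L) → ∃ u w, TR.Bas L u w := by
    intro L h
    obtain ⟨u, w, hi, he⟩ := hb.basis _ h
    refine ⟨u, w, fun y => ?_, fun a b hab => ?_⟩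
    · change y ∈ AddSubgroup.toIntSubmodule L ↔ _
      rw [he, Submodule.mem_span_pair]
      simp only [zsmul_eq_mul, eq_comm]
    · exact_mod_cast hi a b (by exact_mod_cast hab)
  have hsup : ∀ (L : AddSubgroup K) (t : K), IsLat (AddSubgroup.toIntSubmodule L) →
      IsLat (AddSubgroup.toIntSubmodule (L ⊔ AddSubgroup.zmultiples t)) := by
    intro L t h
    constructor
    · rw [OrderIso.map_sup]
      refine h.1.sup ⟨{t}, ?_⟩
      ext y
      rw [Finset.coe_singleton, Submodule.mem_span_singleton]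
      exact AddSubgroup.mem_zmultiples_iff.symm
    · intro y
      obtain ⟨m, h1, h2⟩ := h.2 y
      exact ⟨m, h1, AddSubgroup.mem_sup_left h2⟩
  have S : TR.Sys p ε (fun L => IsLat (AddSubgroup.toIntSubmodule L)) lam := by
    refine ⟨fun L t h _ => hsup L t h, fun L x l _ _ _ hl => Units.ext ?_,
      fun L x t h _ _ _ h2 h3 => Units.ext ?_, fun L x t h hst hl h1 h2 h3 => Units.ext ?_,
      fun a b hab => Units.ext ?_⟩
    · exact congrArg v (hS.per _ x l hl)
    · have hinj : ∀ i j : ℕ, i < p → j < p → (i : K) * t - j * t ∈ L → i = j := by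
        intro i j hi hj hij
        have : (p : ℤ) ∣ (i : ℤ) - j := by
          by_contra hd
          exact h3 (TR.mem_of_coprime hp hd h2 (by push_cast; rwa [sub_mul]))
        have := Int.eq_of_sub_eq_zero (Int.eq_zero_of_abs_lt_dvd this (by
          rw [abs_lt]; constructor <;> omega))
        exact_mod_cast this
      have := hS.dist _ _ ((Finset.range p).image fun j : ℕ => (j : K) * t) x h (hsup L t h)
        (fun y hy => AddSubgroup.mem_sup_left hy) ⟨fun y hy => ?_, fun y hy => ?_⟩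
      · rw [Finset.prod_image fun i hi j hj hij => hinj i j (by simpa using hi) (by simpa using hj)
          (by rw [hij, sub_self]; exact zero_mem L)] at this
        simp only [lam, Units.val_mk0, Units.coe_prod, this, map_prod]
      · obtain ⟨j, -, rfl⟩ := Finset.mem_image.1 hy
        exact TR.mem_sup_iff.2 ⟨0, zero_mem L, j, by simp⟩
      · obtain ⟨z, hz, a, rfl⟩ := TR.mem_sup_iff.1 hy
        have hpp : (0 : ℤ) < p := by exact_mod_cast hp.pos
        have hj : ((a % p).toNat : ℤ) = a % p := Int.toNat_of_nonneg (Int.emod_nonneg _ hpp.ne')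
        have hlt : (a % p).toNat < p := by have := Int.emod_lt_of_pos a hpp; omega
        have hm : z + a * t - ((a % p).toNat : K) * t ∈ L := by
          have h5 : (a : K) = p * (a / p : ℤ) + ((a % p).toNat : K) := by
            have := Int.mul_ediv_add_emod a p
            rw [← hj] at this
            exact_mod_cast congrArg (Int.cast : ℤ → K) this.symm
          have : z + a * t - ((a % p).toNat : K) * t = z + (a / p : ℤ) * (p * t) := by
            linear_combination t * h5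
          rw [this]
          exact add_mem hz (TR.zmul_mem h2 _)
        refine ⟨_, ⟨Finset.mem_image.2 ⟨_, Finset.mem_range.2 hlt, rfl⟩, hm⟩, ?_⟩
        rintro _ ⟨hy, hy2⟩
        obtain ⟨j, hj', rfl⟩ := Finset.mem_image.1 hy
        rw [hinj j _ (Finset.mem_range.1 hj') hlt (by
          have := L.sub_mem hm hy2
          convert this using 1; ring)]
    · obtain ⟨l, hl, hl2⟩ := hl
      have hSL : SL ε (AddSubgroup.toIntSubmodule L) := ⟨h, hst⟩
      obtain ⟨G, _, _, _, q, f, b, hq1, hq2, hq3, hq4, hP⟩ := hS.pent _ hSL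
      obtain ⟨k, hk, hr0, hr⟩ := hS.root _ hSL
      obtain ⟨u, w, hB⟩ := hbas L h
      have hcard : Fintype.card G = n := by
        have := mul_right_cancel₀ hP.e_ne (hP.card.symm.trans hqC)
        exact_mod_cast this
      let T : AddSubgroup K := L.comap (AddMonoidHom.mulLeft (ε - 1))
      let Q : T →+ G := AddMonoidHom.mk' (fun y => q y) fun y z => hq1 _ _ y.2 z.2
      have h0 : v (F (AddSubgroup.toIntSubmodule L) 0) = 1 := by
        apply AU.eq_one_of_pow (J := 2 * k) (by omega)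
        rw [← map_pow, hr0, map_pow, hve, one_pow]
      have hQ0 : q 0 = 0 := Q.map_zero
      have hf0 : v (f 0) = 1 := by rw [← hQ0, hq4 0 T.zero_mem, h0]
      have ht0 : (ε - 1) * l / p ∈ T := by
        change (ε - 1) * ((ε - 1) * l / p) ∈ L
        obtain ⟨n', hn'⟩ := hpn
        have : (ε - 1) * ((ε - 1) * l / p) = n' * (ε * l) := by
          have := hL.quad
          rw [hn'] at this
          push_cast at this
          field_simp
          linear_combination l * this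
        rw [this]; exact TR.nmul_mem (hst l hl) _
      have hpQ : ∀ z : T, p • Q z = 0 ↔ (p : K) * z ∈ L := by
        intro z
        rw [← map_nsmul]
        refine (hq2 _ (p • z).2).trans ?_
        rw [AddSubgroup.coe_nsmul, nsmul_eq_mul]
        rfl
      obtain ⟨m, n', s, a1, a2, a3, a4⟩ := exists_gen hp (hcard ▸ hpn) (t := Q ⟨_, ht0⟩)
        ((hpQ _).2 (by
          rw [mul_div_cancel₀ _ hp0, sub_mul, one_mul]; exact sub_mem (hst l hl) hl)) (by
          intro g hg
          obtain ⟨z, hz, rfl⟩ := hq3 g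
          obtain ⟨a, ha⟩ := plane hp hB hst hL.quad hpn hl hl2 z ((hpQ ⟨z, hz⟩).1 hg) hz
          refine AddSubgroup.mem_zmultiples_iff.2 ⟨a, ?_⟩
          have : Q (⟨z, hz⟩ - a • ⟨_, ht0⟩) = 0 := by
            refine (hq2 _ (⟨z, hz⟩ - a • ⟨_, ht0⟩ : T).2).2 ?_
            rw [AddSubgroup.coe_sub, AddSubgroup.coe_zsmul, zsmul_eq_mul]
            exact ha
          rw [map_sub, map_zsmul, sub_eq_zero] at this
          exact this.symm)
      have hinv := hLeaf G f b _ hP Γ v p m n' hp hv a1 a2 s a3 hve hf0 (by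
        intro g
        obtain ⟨z, hz, rfl⟩ := hq3 g
        by_cases hzL : z ∈ AddSubgroup.toIntSubmodule L
        · rw [(hq2 z hz).2 hzL, neg_zero, hf0, one_mul]
        have e : -q z = q (-z) := (Q.map_neg ⟨z, hz⟩).symm
        obtain ⟨N, hN, hN2⟩ := h.2 z
        rw [e, hq4 z hz, hq4 _ (T.neg_mem hz), ← map_mul]
        apply AU.eq_one_of_pow (J := 2 * N * k) (by positivity)
        rw [← map_pow, hr z N hz hzL hN2, map_one])
      obtain ⟨j, hj⟩ := a4 (q t) ((hpQ ⟨t, h2⟩).2 h3)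
      have : ∀ (j : ℕ) (g : G), v (f (g + j • p ^ m • s)) = v (f g) := by
        intro j g
        induction j with
        | zero => simp
        | succ j ih => rw [succ_nsmul, ← add_assoc, hinv, ih]
      have h5 := this j (q x)
      rw [← hj, ← hq1 x t h1 h2, hq4 x h1, hq4 _ (T.add_mem h1 h2)] at h5
      exact h5
    · have := congrArg Units.val hab
      simp only [Units.val_pow_eq_pow_val] at this
      exact (pow_left_inj₀ zero_le zero_le hp.ne_zero).1 this
  have hirr := (hb.irr ε n hL).2.1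
  have := TR.trivial S hbas hL.quad (by
      rintro rfl
      have h1 := hL.quad
      have h2 := hL.one_lt
      rw [Nat.cast_zero, zero_mul, pow_eq_zero_iff two_ne_zero, sub_eq_zero] at h1
      simp [h1] at h2) hpn
    (fun a b hab => by exact_mod_cast hirr a b (by simpa using hab))
    (Set.Finite.of_finite_image (f := Units.val) ((hS.fin.image v).subset (by
      rintro _ ⟨_, ⟨L, x, h1, h2, h3, rfl⟩, rfl⟩
      exact ⟨_, ⟨_, x, ⟨h1, h2⟩, h3, rfl⟩, rfl⟩)) Units.val_injective.injOn)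
    (fun a k hk h => Units.ext (AU.eq_one_of_pow (Nat.pos_of_ne_zero hk) (by
      simpa using congrArg Units.val h))) Λ.toAddSubgroup x hΛ.1 hΛ.2 hx
  exact congrArg Units.val this

theorem unit_all (hLeaf : StmtLeaf) (hS : StmtSys) (hPsi : StmtPsi) (hR : StmtR1)
    {σ₁ σ₂ : K →+* ℝ} {c : K ≃+* K} (hRQ : RQ σ₁ σ₂ c) {ε : K} {n : ℕ} (hL : Lev σ₁ σ₂ ε n)
    {Λ : Submodule ℤ K} {x : K} (hΛ : SL ε Λ) (hx : Tor ε Λ x) {Γ : Type}
    [LinearOrderedCommGroupWithZero Γ] (v : Valuation ℂ Γ) {p : ℕ} (hp : p.Prime)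
    (hv : v p < 1) : v (Psi σ₁ ε Λ x) = 1 := by
  have hb := hR.2.1 K σ₁ σ₂ c hRQ
  let e : 𝓞 K := ⟨ε, (hb.irr ε n hL).2.2⟩
  obtain ⟨J, hJ, h1⟩ := hb.cong e (span {(p : 𝓞 K)}) (hb.norm e n hL).2.2.1 (by
    rw [Ne, span_singleton_eq_bot]; exact_mod_cast hp.ne_zero)
  obtain ⟨n', hL'⟩ := hb.pow ε n J hL hJ
  have h2 := absNorm_dvd_absNorm_of_le ((span_singleton_le_iff_mem _).2 h1)
  rw [(hb.norm (e ^ J) n' hL').1, absNorm_span_natCast, RingOfIntegers.rank, hRQ.rank] at h2
  have h3 := unit_dvd hLeaf hR hRQ hL' (hS K σ₁ σ₂ c hRQ _ n' hL') v hp hv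
    ((dvd_pow_self p two_ne_zero).trans h2) Λ x (AU.sl_pow hΛ J) (AU.tor_pow hΛ hx J)
  obtain ⟨hper, -, -, -, hlev⟩ := hPsi K σ₁ σ₂ c hRQ ε n hL
  have h4 : ∀ i ∈ Finset.range J, Psi σ₁ ε Λ (ε⁻¹ ^ i * x) = Psi σ₁ ε Λ x := fun i _ => by
    rw [← hper Λ x _ (AU.inv_pow_sub hL.quad hΛ hx i), add_sub_cancel]
  rw [hlev Λ x J hΛ hJ, Finset.prod_congr rfl h4, Finset.prod_const, Finset.card_range,
    map_pow] at h3
  exact AU.eq_one_of_pow hJ h3

lemma integral_of {z : ℂ} (h : ∀ V : ValuationSubring ℂ, ∀ p : ℕ, p.Prime → V.valuation p < 1 →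
    V.valuation z = 1) : IsIntegral ℤ z := by
  have halg : IsAlgebraic ℤ z := by
    by_contra h'
    obtain ⟨V, h1, h2⟩ := AU.exists_val h'
    exact h2.ne (h V 11 (by norm_num) h1)
  obtain ⟨N, hN, hint⟩ := halg.exists_integral_multiple
  have hmem : z ∈ (integralClosure (Subring.closure (∅ : Set ℂ)) ℂ).toSubring := by
    rw [← iInf_valuationSubring_superset, Subring.mem_iInf]
    rintro ⟨V, -⟩
    change z ∈ V
    rw [← V.valuation_le_one_iff]
    by_cases hN1 : V.valuation N < 1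
    · obtain ⟨p, hp, hp1⟩ : ∃ p : ℕ, p.Prime ∧ V.valuation p < 1 := by
        by_contra hcon
        push Not at hcon
        have : ∀ m : ℕ, m ≠ 0 → V.valuation m = 1 := by
          intro m
          induction m using Nat.recOnMul with
          | zero => simp
          | one => simp
          | prime p hp => exact fun _ => le_antisymm (PL.v_nat_le _ p) (hcon p hp)
          | mul a b ha hb =>
            intro hab
            push_cast
            rw [map_mul, ha (left_ne_zero_of_mul hab), hb (right_ne_zero_of_mul hab), one_mul]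
        have h2 := this N.natAbs (Int.natAbs_ne_zero.2 hN)
        rw [Nat.cast_natAbs] at h2
        rcases abs_choice N with h3 | h3 <;> rw [h3] at h2
        · exact hN1.ne h2
        · rw [Int.cast_neg, Valuation.map_neg] at h2; exact hN1.ne h2
      exact (h V p hp hp1).le
    · have h1 : V.valuation N = 1 := le_antisymm (PL.v_int_le _ N) (not_lt.1 hN1)
      have h2 : IsIntegral V (N • z) := hint.tower_top
      obtain ⟨y, hy⟩ := IsIntegrallyClosed.isIntegral_iff.1 h2
      have h3 : V.valuation (N • z) ≤ 1 := by rw [← hy]; exact V.valuation_le_one y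
      rwa [zsmul_eq_mul, map_mul, h1, one_mul] at h3
  have h2 : IsIntegral (Subring.closure (∅ : Set ℂ)) z := hmem
  have : Algebra.IsIntegral ℤ (Subring.closure (∅ : Set ℂ)) := by
    refine ⟨fun y => ?_⟩
    obtain ⟨a, ha⟩ := Subring.mem_bot.1 (Subring.closure_empty.le y.2)
    have : y = algebraMap ℤ _ a := Subtype.ext (by simp [← ha])
    rw [this]
    exact isIntegral_algebraMap
  exact isIntegral_trans z h2

end S2

theorem blockA2' (hLeaf : StmtLeaf) (hR : StmtR1) : StmtA2 :=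
  fun _ _ _ _ _ _ hRQ _ _ hL _ hS _ _ v _ hp _ hv hpn Λ x hΛ hx =>
    S2.unit_dvd hLeaf hR hRQ hL hS v hp hv hpn Λ x hΛ hx

theorem blockS2' (hLeaf : StmtLeaf) (hS : StmtSys) (hPsi : StmtPsi) (hR : StmtR1) : StmtUnit := by
  intro K _ _ _ σ₂ c hRQ ε n hL a x ha hx
  have hΛ := (hR.2.1 K _ σ₂ c hRQ).sl ε a ha
  exact ⟨S2.integral_of fun V p hp hv => S2.unit_all hLeaf hS hPsi hR hRQ hL hΛ hx _ hp hv,
    S2.integral_of fun V p hp hv => by
      rw [map_inv₀, FF, S2.unit_all hLeaf hS hPsi hR hRQ hL hΛ hx _ hp hv, inv_one]⟩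

end Pool.Agent.Lib.Stark
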