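import Pool.Agent.Lib.stark.SH1c

open Complex MeasureTheory Filter Topology Set
open scoped Real ComplexConjugate

namespace Pool.Agent.Lib.Stark
namespace SH1

/-- Uniform parameters for the segment of kernels. -/
structure Par (z₁ v₁ w₁ z₂ v₂ w₂ m η : ℝ) : Prop where
  m0 : 0 < m
  η0 : 0 < η
  hv : ∀ x ∈ Icc (0 : ℝ) 1, m ≤ cv v₁ v₂ x
  hw : ∀ x ∈ Icc (0 : ℝ) 1, m ≤ cv w₁ w₂ x
  hz : ∀ x ∈ Icc (0 : ℝ) 1, m ≤ cv z₁ z₂ x
  hz' : ∀ x ∈ Icc (0 : ℝ) 1, m ≤ cv v₁ v₂ x + cv w₁ w₂ x - cv z₁ z₂ x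
  ηv : ∀ x ∈ Icc (0 : ℝ) 1, 2 * η * cv v₁ v₂ x ≤ π
  ηw : ∀ x ∈ Icc (0 : ℝ) 1, 2 * η * cv w₁ w₂ x ≤ π

variable {z₁ v₁ w₁ z₂ v₂ w₂ m η : ℝ}

theorem cv_deriv (a b x : ℝ) (u : ℂ) :
    HasDerivAt (fun x : ℝ => cexp (-(cv a b x : ℝ) * u))
      (cexp (-(cv a b x : ℝ) * u) * (-(a - b : ℝ) * u)) x := by
  have hcv : HasDerivAt (cv a b) (a - b) x := by
    unfold cv
    have := ((hasDerivAt_id x).mul_const a).add (((hasDerivAt_id x).const_sub 1).mul_const b)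
    refine this.congr_deriv ?_
    ring
  exact (hcv.ofReal_comp.neg.mul_const u).cexp

theorem ker_lip (P : Par z₁ v₁ w₁ z₂ v₂ w₂ m η) : ∃ C : ℝ, 0 ≤ C ∧ ∀ u : ℂ, |u.im| = η →
    ∀ x ∈ Icc (0 : ℝ) 1, ∀ y ∈ Icc (0 : ℝ) 1,
      ‖ker2 (cv z₁ z₂ x) (cv v₁ v₂ x) (cv w₁ w₂ x) u -
        ker2 (cv z₁ z₂ y) (cv v₁ v₂ y) (cv w₁ w₂ y) u‖ ≤
        C * Real.exp (-m * |u.re|) * ‖u‖ * |x - y| := by
  have hm := P.m0
  have hη := P.η0
  set K := 3 * (1 + (m * η)⁻¹) + 1 with hK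
  refine ⟨9 * (1 + (m * η)⁻¹) ^ 2 * (|z₁ - z₂| + |v₁ - v₂| * K + |w₁ - w₂| * K), by positivity,
    fun u hu x hx y hy => ?_⟩
  have hn : η ≤ ‖u‖ := hu ▸ abs_im_le_norm u
  have h0 : u ≠ 0 := norm_pos_iff.1 (hη.trans_le hn)
  have hyv : ∀ x ∈ Icc (0 : ℝ) 1, |u.im| * cv v₁ v₂ x ≤ π := fun x hx => by
    have := P.ηv x hx; have := mul_pos hη (hm.trans_le (P.hv x hx)); rw [hu]; linarith
  have hyw : ∀ x ∈ Icc (0 : ℝ) 1, |u.im| * cv w₁ w₂ x ≤ π := fun x hx => by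
    have := P.ηw x hx; have := mul_pos hη (hm.trans_le (P.hw x hx)); rw [hu]; linarith
  refine Convex.norm_image_sub_le_of_norm_hasDerivWithin_le
    (f := fun x => ker2 (cv z₁ z₂ x) (cv v₁ v₂ x) (cv w₁ w₂ x) u)
    (f' := fun x => ker2 (cv z₁ z₂ x) (cv v₁ v₂ x) (cv w₁ w₂ x) u * u *
      (-(z₁ - z₂ : ℝ) - (v₁ - v₂ : ℝ) * ((1 - cexp (-(cv v₁ v₂ x : ℝ) * u))⁻¹ - 1) -
        (w₁ - w₂ : ℝ) * ((1 - cexp (-(cv w₁ w₂ x : ℝ) * u))⁻¹ - 1)))
    (fun x hx => ?_) (fun x hx => ?_) (convex_Icc 0 1) hy hx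
  · have h1 := (inv_den_bound' hm (P.hv x hx) u (hyv x hx) h0).1
    have h2 := (inv_den_bound' hm (P.hw x hx) u (hyw x hx) h0).1
    have h3 := (cv_deriv z₁ z₂ x u).div (((cv_deriv v₁ v₂ x u).const_sub 1).mul
      ((cv_deriv w₁ w₂ x u).const_sub 1)) (mul_ne_zero h1 h2)
    refine (h3.congr_deriv ?_).hasDerivWithinAt
    unfold ker2
    simp only [Pi.mul_apply]
    generalize cexp (-(cv v₁ v₂ x : ℝ) * u) = a at h1 ⊢
    generalize cexp (-(cv w₁ w₂ x : ℝ) * u) = b at h2 ⊢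
    field_simp
    ring
  · have h1 := (inv_den_bound' hm (P.hv x hx) u (hyv x hx) h0).2
    have h2 := (inv_den_bound' hm (P.hw x hx) u (hyw x hx) h0).2
    have h3 := ker_bound hm (P.hv x hx) (P.hw x hx) (P.hz x hx) (P.hz' x hx) u (hyv x hx)
      (hyw x hx) h0
    have h4 : (m * ‖u‖)⁻¹ ≤ (m * η)⁻¹ := by gcongr
    have h5 : ∀ (a : ℝ) (E : ℂ), ‖E‖ ≤ 3 * (1 + (m * ‖u‖)⁻¹) → ‖a * (E - 1)‖ ≤ |a| * K := by
      intro a E hE
      rw [norm_mul, Complex.norm_real, Real.norm_eq_abs]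
      gcongr
      refine (norm_sub_le _ _).trans ?_
      rw [norm_one]; linarith
    have h6 := (norm_sub_le _ _).trans (add_le_add ((norm_sub_le (-((z₁ - z₂ : ℝ) : ℂ)) _).trans
      (add_le_add le_rfl (h5 (v₁ - v₂) _ h1))) (h5 (w₁ - w₂) _ h2))
    rw [norm_neg, Complex.norm_real, Real.norm_eq_abs] at h6
    rw [norm_mul, norm_mul]
    calc _ ≤ 9 * (1 + (m * η)⁻¹) ^ 2 * Real.exp (-m * |u.re|) * ‖u‖ *
          (|z₁ - z₂| + |v₁ - v₂| * K + |w₁ - w₂| * K) := by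
          gcongr
          exact h3.trans (by gcongr)
      _ = _ := by ring

/-- The line integral along the segment of kernels. -/
noncomputable def LI (z₁ v₁ w₁ z₂ v₂ w₂ η : ℝ) (s : ℂ) (x : ℝ) : ℂ :=
  lineInt (kc (cv z₁ z₂ x) (cv v₁ v₂ x) (cv w₁ w₂ x) (2 * s)) η

theorem LI_int (hL : StmtLine) (P : Par z₁ v₁ w₁ z₂ v₂ w₂ m η) (c : ℂ) {x : ℝ}
    (hx : x ∈ Icc (0 : ℝ) 1) : Integrable fun t : ℝ =>
      kc (cv z₁ z₂ x) (cv v₁ v₂ x) (cv w₁ w₂ x) c (t - η * I) / (t - η * I) :=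
  (hL _ _ (kc_adm P.m0 (P.hv x hx) (P.hw x hx) (P.hz x hx) (P.hz' x hx) (by linarith [P.η0])
    (P.ηv x hx) (P.ηw x hx) c) η P.η0 (by linarith [P.η0])).1

theorem LI_lip (hL : StmtLine) (P : Par z₁ v₁ w₁ z₂ v₂ w₂ m η) {R : ℝ} (hR : 0 < R) :
    ∃ C : ℝ, 0 ≤ C ∧ ∀ s : ℂ, ‖s‖ ≤ R → ∀ x ∈ Icc (0 : ℝ) 1, ∀ y ∈ Icc (0 : ℝ) 1,
      ‖LI z₁ v₁ w₁ z₂ v₂ w₂ η s x - LI z₁ v₁ w₁ z₂ v₂ w₂ η s y‖ ≤ C * |x - y| := by
  have hm := P.m0
  have hη := P.η0
  obtain ⟨C, hC, h⟩ := ker_lip P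
  obtain ⟨C', hC', h'⟩ := cpow_bound (a := η) (b := η) (R := 2 * R) (ε := m / 2) hη
    (by linarith) (by linarith)
  refine ⟨C * C' * ∫ t : ℝ, Real.exp (-(m / 2) * |t|), by positivity, fun s hs x hx y hy => ?_⟩
  unfold LI lineInt
  rw [← integral_sub (LI_int hL P _ hx) (LI_int hL P _ hy)]
  refine (norm_integral_le_of_norm_le (g := fun t => C * C' * |x - y| * Real.exp (-(m / 2) * |t|))
    ((integrable_exp_abs (by linarith)).const_mul _) (ae_of_all _ fun t => ?_)).trans ?_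
  · set u : ℂ := t - η * I with hu
    have h1 : |u.im| = η := by simp [hu, abs_of_pos hη]
    have h2 : u.re = t := by simp [hu]
    have hn : η ≤ ‖u‖ := h1 ▸ abs_im_le_norm u
    have h3 := h u h1 x hx y hy
    have h4 := h' u (2 * s) hn h1.le (by rw [norm_mul, Complex.norm_ofNat]; linarith)
    have h5 : 0 < ‖u‖ := hη.trans_le hn
    rw [h2] at h3 h4
    unfold kc
    rw [← sub_div, ← sub_mul, norm_div, norm_mul, div_le_iff₀ h5]
    calc _ ≤ C * Real.exp (-m * |t|) * ‖u‖ * |x - y| * (C' * Real.exp (m / 2 * |t|)) := by gcongr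
      _ = _ := by
          rw [show -(m / 2) * |t| = -m * |t| + m / 2 * |t| by ring, Real.exp_add]; ring
  · rw [integral_const_mul]; exact le_of_eq (by ring)

theorem LI_diff (hL : StmtLine) (hH : StmtHolInt) (P : Par z₁ v₁ w₁ z₂ v₂ w₂ m η) {x : ℝ}
    (hx : x ∈ Icc (0 : ℝ) 1) : Differentiable ℂ fun s => LI z₁ v₁ w₁ z₂ v₂ w₂ η s x := by
  intro s₀
  have hm := P.m0
  have hη := P.η0
  set R := ‖s₀‖ + 1 with hR
  have hR0 : 0 < R := by positivity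
  obtain ⟨C, hC, h⟩ := kc_bound (a := η) (b := 2 * η) (R := 2 * R) hη (by linarith) hm
  have hne : ∀ t : ℝ, η ≤ ‖(t : ℂ) - η * I‖ := fun t =>
    le_trans (by simp [abs_of_pos hη]) (abs_im_le_norm _)
  have := hH volume (fun s t => kc (cv z₁ z₂ x) (cv v₁ v₂ x) (cv w₁ w₂ x) (2 * s) (t - η * I) /
    (t - η * I)) (Metric.ball 0 R) (fun t => C / η * Real.exp (-(m / 2) * |t|)) Metric.isOpen_ball
    ((integrable_exp_abs (by linarith)).const_mul _)
    (fun s _ => (LI_int hL P _ hx).aestronglyMeasurable) (ae_of_all _ fun t => ?_)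
    (ae_of_all _ fun t s hs => ?_)
  · exact this.differentiableAt (Metric.isOpen_ball.mem_nhds (by simp [hR]))
  · have h0 : (t : ℂ) - η * I ≠ 0 := norm_pos_iff.1 (hη.trans_le (hne t))
    unfold kc
    refine Differentiable.differentiableOn ?_
    exact (((differentiable_id.const_mul 2).const_cpow (Or.inl h0)).const_mul _).div_const _
  · have h1 := h _ _ _ (t - η * I) (2 * s) (P.hv x hx) (P.hw x hx) (P.hz x hx) (P.hz' x hx)
      (P.ηv x hx) (P.ηw x hx) (hne t) (by simp [abs_of_pos hη]; linarith)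
      (by rw [norm_mul, Complex.norm_ofNat]; linarith [mem_ball_zero_iff.1 hs])
    rw [show ((t : ℂ) - η * I).re = t by simp] at h1
    rw [norm_div]
    calc _ ≤ C * Real.exp (-(m / 2) * |t|) / η := by gcongr; exact hne t
      _ = _ := by ring

/-- The regularised integral. -/
theorem reg_diff (hH : StmtHolInt) (A : ℂ → ℝ → ℂ)
    (hd : ∀ x ∈ Icc (0 : ℝ) 1, Differentiable ℂ fun s => A s x)
    (hl : ∀ R : ℝ, 0 < R → ∃ C : ℝ, 0 ≤ C ∧ ∀ s : ℂ, ‖s‖ ≤ R → ∀ x ∈ Icc (0 : ℝ) 1,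
      ∀ y ∈ Icc (0 : ℝ) 1, ‖A s x - A s y‖ ≤ C * |x - y|) :
    DifferentiableOn ℂ (fun s => ∫ x in Ioo (0 : ℝ) 1,
      bt s s x * (A s x - (1 - x) * A s 0 - x * A s 1)) {s | -1 / 2 < s.re} := by
  intro s₀ hs₀
  set R := ‖s₀‖ + 1 with hR
  have hR0 : 0 < R := by positivity
  obtain ⟨C, hC, h⟩ := hl R hR0
  have hU : IsOpen ({s : ℂ | -1 / 2 < s.re} ∩ Metric.ball 0 R) :=
    (isOpen_lt continuous_const continuous_re).inter Metric.isOpen_ball
  have h0 : (0 : ℝ) ∈ Icc (0 : ℝ) 1 := by simp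
  have h1 : (1 : ℝ) ∈ Icc (0 : ℝ) 1 := by simp
  have hb : IntegrableOn (bt (1 / 2) (1 / 2)) (Ioo 0 1) :=
    (betaIntegral_convergent (u := 1 / 2) (v := 1 / 2) (by norm_num) (by norm_num)).1.mono_set
      Ioo_subset_Ioc_self
  have := hH (volume.restrict (Ioo 0 1))
    (fun s x => bt s s x * (A s x - (1 - x) * A s 0 - x * A s 1)) _
    (fun x => 2 * C * ‖bt (1 / 2) (1 / 2) x‖) hU (hb.norm.const_mul _) (fun s hs => ?_) ?_ ?_
  · exact (this.differentiableAt (hU.mem_nhds ⟨hs₀, by simp [hR]⟩)).differentiableWithinAt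
  · refine ContinuousOn.aestronglyMeasurable ?_ measurableSet_Ioo
    have hA : ContinuousOn (A s) (Icc 0 1) := by
      refine (LipschitzOnWith.of_dist_le_mul (K := ⟨C, hC⟩) fun x hx y hy => ?_).continuousOn
      rw [dist_eq_norm, Real.dist_eq]
      exact h s (mem_ball_zero_iff.1 hs.2).le x hx y hy
    refine ContinuousOn.mul (fun x hx => ContinuousAt.continuousWithinAt ?_)
      (((hA.mono Ioo_subset_Icc_self).sub (by fun_prop)).sub (by fun_prop))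
    unfold bt
    refine (continuousAt_ofReal_cpow_const _ _ (Or.inr hx.1.ne')).mul ?_
    refine ContinuousAt.cpow (by fun_prop) continuousAt_const (Or.inl ?_)
    simpa using hx.2
  · refine (ae_restrict_iff' measurableSet_Ioo).2 (ae_of_all _ fun x hx => ?_)
    refine Differentiable.differentiableOn ?_
    have e0 : (x : ℂ) ≠ 0 := ofReal_ne_zero.2 hx.1.ne'
    have e1 : 1 - (x : ℂ) ≠ 0 := by exact_mod_cast (sub_pos.2 hx.2).ne'
    unfold bt
    exact (((differentiable_id.sub_const 1).const_cpow (Or.inl e0)).mul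
      ((differentiable_id.sub_const 1).const_cpow (Or.inl e1))).mul
      (((hd x (Ioo_subset_Icc_self hx)).sub ((hd 0 h0).const_mul _)).sub ((hd 1 h1).const_mul _))
  · refine (ae_restrict_iff' measurableSet_Ioo).2 (ae_of_all _ fun x hx s hs => ?_)
    have hs1 : -1 / 2 < s.re := hs.1
    have hs2 := (mem_ball_zero_iff.1 hs.2).le
    have hx0 := hx.1
    have hx1 : 0 < 1 - x := sub_pos.2 hx.2
    have e0 := h s hs2 x (Ioo_subset_Icc_self hx) 0 h0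
    have e1 := h s hs2 x (Ioo_subset_Icc_self hx) 1 h1
    rw [sub_zero, abs_of_pos hx0] at e0
    rw [abs_sub_comm, abs_of_pos hx1] at e1
    have e2 : ‖A s x - (1 - x) * A s 0 - x * A s 1‖ ≤ 2 * C * (x * (1 - x)) := by
      rw [show A s x - (1 - x) * A s 0 - x * A s 1 =
        ((1 - x : ℝ) : ℂ) * (A s x - A s 0) + x * (A s x - A s 1) by push_cast; ring]
      refine (norm_add_le _ _).trans ?_
      rw [norm_mul, norm_mul, Complex.norm_real, Complex.norm_real, Real.norm_of_nonneg hx0.le,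
        Real.norm_of_nonneg hx1.le]
      calc _ ≤ (1 - x) * (C * x) + x * (C * (1 - x)) := by gcongr
        _ = _ := by ring
    have e3 : ∀ y : ℝ, 0 < y → y ≤ 1 → y ^ (s.re - 1) * y ≤ y ^ ((1 / 2 : ℂ).re - 1) := by
      intro y hy hy1
      rw [← Real.rpow_add_one hy.ne']
      refine Real.rpow_le_rpow_of_exponent_ge hy hy1 ?_
      norm_num; linarith
    rw [norm_mul, bt_norm _ _ hx, bt_norm _ _ hx]
    calc _ ≤ x ^ (s.re - 1) * (1 - x) ^ (s.re - 1) * (2 * C * (x * (1 - x))) := by gcongr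
      _ = 2 * C * ((x ^ (s.re - 1) * x) * ((1 - x) ^ (s.re - 1) * (1 - x))) := by ring
      _ ≤ _ := by
          gcongr
          · exact e3 x hx0 hx.2.le
          · exact e3 _ hx1 (by linarith)

theorem reg_eq (A : ℝ → ℂ) {s : ℂ} (hs : 1 < s.re)
    (hc : ContinuousOn (fun x => bt s s x * A x) (Icc 0 1)) :
    s * (∫ x in Ioo (0 : ℝ) 1, bt s s x * (A x - (1 - x) * A 0 - x * A 1)) +
      Gamma (s + 1) ^ 2 * (Gamma (2 * s + 1))⁻¹ * (A 0 + A 1) =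
      s * ∫ x in (0 : ℝ)..1, bt s s x * A x := by
  have hs0 : s ≠ 0 := fun h => by simp [h] at hs; linarith
  have hs1 : 1 < (s + 1).re := by simp; linarith
  have e1 : ∫ x in Ioo (0 : ℝ) 1, bt s s x * (A x - (1 - x) * A 0 - x * A 1) =
      ∫ x in Ioo (0 : ℝ) 1, (bt s s x * A x - bt s (s + 1) x * A 0 - bt (s + 1) s x * A 1) := by
    refine setIntegral_congr_fun measurableSet_Ioo fun x hx => ?_
    have e0 : (x : ℂ) ≠ 0 := ofReal_ne_zero.2 hx.1.ne'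
    have e1 : 1 - (x : ℂ) ≠ 0 := by exact_mod_cast (sub_pos.2 hx.2).ne'
    simp only [bt]
    rw [show s + 1 - 1 = s - 1 + 1 by ring, cpow_add _ _ e0, cpow_add _ _ e1, cpow_one, cpow_one]
    ring
  have i1 : IntervalIntegrable (fun x => bt s s x * A x) volume 0 1 :=
    hc.intervalIntegrable_of_Icc zero_le_one
  have i2 : IntervalIntegrable (fun x => bt s (s + 1) x * A 0) volume 0 1 :=
    ((bt_cont hs hs1).mul continuous_const).intervalIntegrable _ _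
  have i3 : IntervalIntegrable (fun x => bt (s + 1) s x * A 1) volume 0 1 :=
    ((bt_cont hs1 hs).mul continuous_const).intervalIntegrable _ _
  have e2 : ∫ x in (0 : ℝ)..1, bt s (s + 1) x = betaIntegral s (s + 1) := rfl
  have e3 : ∫ x in (0 : ℝ)..1, bt (s + 1) s x = betaIntegral s (s + 1) := betaIntegral_symm _ _
  have e4 : Gamma (s + 1) ^ 2 * (Gamma (2 * s + 1))⁻¹ = s * betaIntegral s (s + 1) := by
    have h1 := Gamma_mul_Gamma_eq_betaIntegral (s := s) (t := s + 1) (by linarith) (by linarith)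
    have h2 : Gamma (2 * s + 1) ≠ 0 := Gamma_ne_zero_of_re_pos (by simp; linarith)
    rw [show s + (s + 1) = 2 * s + 1 by ring] at h1
    have h3 := Gamma_add_one s hs0
    rw [← div_eq_mul_inv, div_eq_iff h2, sq]
    nth_rewrite 1 [h3]
    linear_combination s * h1
  rw [e1, ← integral_Ioc_eq_integral_Ioo, ← intervalIntegral.integral_of_le zero_le_one,
    intervalIntegral.integral_sub (i1.sub i2) i3, intervalIntegral.integral_sub i1 i2,
    intervalIntegral.integral_mul_const, intervalIntegral.integral_mul_const, e2, e3, e4]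
  ring

theorem J2_eq (hL : StmtLine) {z v w m η : ℝ} (hm : 0 < m) (hv : m ≤ v) (hw : m ≤ w) (hz : m ≤ z)
    (hz' : m ≤ v + w - z) (hη : 0 < η) (hηv : 2 * η * v ≤ π) (hηw : 2 * η * w ≤ π) :
    lineInt (kc z v w 0) η = J2 z v w := by
  have hv0 := hm.trans_le hv
  have hw0 := hm.trans_le hw
  have hM : 0 < max v w := lt_max_of_lt_left hv0
  have hA := kc_adm hm hv hw hz hz' (η₀ := π / max v w) (by positivity)
    (by rw [div_mul_eq_mul_div, div_le_iff₀ hM]; gcongr; exact le_max_left _ _)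
    (by rw [div_mul_eq_mul_div, div_le_iff₀ hM]; gcongr; exact le_max_right _ _) 0
  have h1 : η < π / max v w := by
    rw [lt_div_iff₀ hM]
    have := mul_pos hη hv0
    have := mul_pos hη hw0
    rcases max_cases v w with h | h <;> rw [h.1] <;> linarith
  have h2 : π / (v + w) < π / max v w :=
    div_lt_div_of_pos_left Real.pi_pos hM (max_lt (by linarith) (by linarith))
  rw [(hL _ _ hA η hη h1).2 (π / (v + w)) (by positivity) h2]
  unfold J2 lineInt kc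
  simp only [cpow_zero, mul_one]

theorem theta (hL : StmtLine) (hH : StmtHolInt) (hm : 0 < m) (hv₁ : m ≤ v₁) (hw₁ : m ≤ w₁)
    (hz₁ : m ≤ z₁) (hz₁' : m ≤ v₁ + w₁ - z₁) (hv₂ : m ≤ v₂) (hw₂ : m ≤ w₂) (hz₂ : m ≤ z₂)
    (hz₂' : m ≤ v₂ + w₂ - z₂) :
    ∃ Θ : ℂ → ℂ, DifferentiableOn ℂ Θ {s | -1 / 2 < s.re} ∧
      Θ 0 = J2 z₁ v₁ w₁ + J2 z₂ v₂ w₂ ∧
      ∀ s : ℂ, 1 < s.re → Θ s = s * Gamma s ^ 2 *
        (cexp (π * I * s) * ∑' p, shTerm z₁ v₁ w₁ z₂ v₂ w₂ s p -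
          cexp (-(π * I * s)) * ∑' p, shTerm (v₁ + w₁ - z₁) v₁ w₁ (v₂ + w₂ - z₂) v₂ w₂ s p) := by
  have hV : 0 < v₁ + w₁ + v₂ + w₂ := by linarith
  set η := π / (v₁ + w₁ + v₂ + w₂) / 2 with hη
  have hη0 : 0 < η := by positivity
  have hk : ∀ a : ℝ, a ≤ v₁ + w₁ + v₂ + w₂ → 2 * η * a ≤ π := fun a ha => by
    rw [hη, mul_div_cancel₀ _ two_ne_zero, div_mul_eq_mul_div, div_le_iff₀ hV]; gcongr
  have P : Par z₁ v₁ w₁ z₂ v₂ w₂ m η :=
    ⟨hm, hη0, fun x hx => le_cv hv₁ hv₂ hx, fun x hx => le_cv hw₁ hw₂ hx,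
      fun x hx => le_cv hz₁ hz₂ hx, fun x hx => cv_star z₁ v₁ w₁ z₂ v₂ w₂ x ▸ le_cv hz₁' hz₂' hx,
      fun x hx => cv_le (hk _ (by linarith)) (hk _ (by linarith)) hx,
      fun x hx => cv_le (hk _ (by linarith)) (hk _ (by linarith)) hx⟩
  set A := LI z₁ v₁ w₁ z₂ v₂ w₂ η with hA
  have hd : ∀ x ∈ Icc (0 : ℝ) 1, Differentiable ℂ fun s => A s x := fun x hx => LI_diff hL hH P hx
  have hr := reg_diff hH A hd fun R hR => LI_lip hL P hR
  refine ⟨fun s => cexp (π * I * s) * (s * (∫ x in Ioo (0 : ℝ) 1,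
      bt s s x * (A s x - (1 - x) * A s 0 - x * A s 1)) +
      Gamma (s + 1) ^ 2 * (Gamma (2 * s + 1))⁻¹ * (A s 0 + A s 1)), ?_, ?_, fun s hs => ?_⟩
  · refine DifferentiableOn.mul (by fun_prop) ((differentiableOn_id.mul hr).add
      (DifferentiableOn.mul (DifferentiableOn.mul (fun s hs => ?_) ?_)
        ((hd 0 (by simp)).add (hd 1 (by simp))).differentiableOn))
    · have hs1 : -1 / 2 < s.re := hs
      refine DifferentiableAt.differentiableWithinAt (DifferentiableAt.pow ?_ 2)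
      refine (differentiableAt_Gamma (s + 1) fun k hk => ?_).comp s
        (differentiableAt_id.add_const 1)
      have := congrArg re hk
      simp at this
      linarith [(Nat.cast_nonneg k : (0 : ℝ) ≤ k)]
    · exact (differentiable_one_div_Gamma.comp
        ((differentiable_id.const_mul 2).add_const 1)).differentiableOn
  · have e0 : A 0 0 = J2 z₂ v₂ w₂ := by
      simp only [hA, LI, cv, mul_zero, zero_mul, sub_zero, one_mul, zero_add]
      exact J2_eq hL hm hv₂ hw₂ hz₂ hz₂' hη0 (hk _ (by linarith)) (hk _ (by linarith))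
    have e1 : A 0 1 = J2 z₁ v₁ w₁ := by
      simp only [hA, LI, cv, mul_zero, zero_mul, sub_self, one_mul, add_zero]
      exact J2_eq hL hm hv₁ hw₁ hz₁ hz₁' hη0 (hk _ (by linarith)) (hk _ (by linarith))
    simp only [mul_zero, zero_mul, zero_add, Complex.exp_zero, Gamma_one, e0, e1]
    ring
  · obtain ⟨c1, i1⟩ := zeta_int hm hv₁ hw₁ hz₁ hv₂ hw₂ hz₂ hs
    obtain ⟨c2, i2⟩ := zeta_int hm hv₁ hw₁ hz₁' hv₂ hw₂ hz₂' hs
    have heq : ∀ x ∈ Icc (0 : ℝ) 1, bt s s x * A s x =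
        bt s s x * mel (cv z₁ z₂ x) (cv v₁ v₂ x) (cv w₁ w₂ x) (2 * s) -
        cexp (-(π * I * (2 * s))) * (bt s s x *
          mel (cv (v₁ + w₁ - z₁) (v₂ + w₂ - z₂) x) (cv v₁ v₂ x) (cv w₁ w₂ x) (2 * s)) := by
      intro x hx
      simp only [hA, LI]
      rw [line_eq hL hm (P.hv x hx) (P.hw x hx) (P.hz x hx) (P.hz' x hx) (P.ηv x hx) (P.ηw x hx)
        (by simp; linarith) hη0 (by linarith), cv_star]
      ring
    have hc : ContinuousOn (fun x => bt s s x * A s x) (Icc 0 1) :=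
      (c1.sub (continuousOn_const.mul c2)).congr heq
    simp only []
    rw [reg_eq (A s) hs hc, intervalIntegral.integral_congr
      (by rw [uIcc_of_le zero_le_one]; exact heq),
      intervalIntegral.integral_sub (c1.intervalIntegrable_of_Icc zero_le_one)
        ((c2.intervalIntegrable_of_Icc zero_le_one).const_mul _),
      intervalIntegral.integral_const_mul, i1, i2]
    have e : cexp (-(π * I * s)) = cexp (π * I * s) * cexp (-(π * I * (2 * s))) := by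
      rw [← Complex.exp_add]; congr 1; ring
    rw [e]; ring

theorem sh_conj {z₁ v₁ w₁ z₂ v₂ w₂ : ℝ} (hv₁ : 0 < v₁) (hw₁ : 0 < w₁) (hz₁ : 0 < z₁)
    (hv₂ : 0 < v₂) (hw₂ : 0 < w₂) (hz₂ : 0 < z₂) (s : ℂ) :
    conj (∑' p, shTerm z₁ v₁ w₁ z₂ v₂ w₂ (conj s) p) = ∑' p, shTerm z₁ v₁ w₁ z₂ v₂ w₂ s p := by
  rw [Complex.conj_tsum]
  refine tsum_congr fun p => ?_
  unfold shTerm
  rw [rc (by positivity), rc (by positivity), ← Complex.exp_conj]
  simp only [map_mul, map_neg, conj_ofReal, conj_conj]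

end SH1

open SH1 in
theorem blockSH1 (h : StmtAN) : StmtSH1 := by
  obtain ⟨-, hL, hH, -, -⟩ := h
  intro z₁ v₁ w₁ z₂ v₂ w₂ hv₁ hw₁ hv₂ hw₂ hz₁ hz₁' hz₂ hz₂'
  have hy₁ : 0 < v₁ + w₁ - z₁ := by linarith
  have hy₂ : 0 < v₂ + w₂ - z₂ := by linarith
  obtain ⟨m, hm, a1, a2, a3, a4, b1, b2, b3, b4⟩ : ∃ m : ℝ, 0 < m ∧ m ≤ v₁ ∧ m ≤ w₁ ∧ m ≤ z₁ ∧
      m ≤ v₁ + w₁ - z₁ ∧ m ≤ v₂ ∧ m ≤ w₂ ∧ m ≤ z₂ ∧ m ≤ v₂ + w₂ - z₂ :=
    ⟨min (min (min v₁ w₁) (min z₁ (v₁ + w₁ - z₁))) (min (min v₂ w₂) (min z₂ (v₂ + w₂ - z₂))),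
      by simp only [lt_min_iff]; tauto, by simp, by simp, by simp, by simp, by simp, by simp,
      by simp, by simp⟩
  refine ⟨fun s hs => sh_summable hm a1 a2 a3 b1 b2 b3 hs, ?_⟩
  obtain ⟨Θ, hd, h0, hΘ⟩ := theta hL hH hm a1 a2 a3 a4 b1 b2 b3 b4
  have hU : IsOpen {s : ℂ | -1 / 2 < s.re} := isOpen_lt continuous_const continuous_re
  refine ⟨fun s => (Θ s + conj (Θ (conj s))) / 2, ?_, ?_, fun s hs => ?_⟩
  · refine (hd.add fun s hs => DifferentiableAt.differentiableWithinAt ?_).div_const 2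
    have h1 : DifferentiableAt ℂ Θ (conj s) := hd.differentiableAt (hU.mem_nhds (by simpa using hs))
    exact differentiableAt_conj_conj_iff.2 h1
  · simp only [map_zero, h0]
    rw [add_conj]; push_cast; simp
  · simp only []
    rw [hΘ s hs, hΘ (conj s) (by simpa using hs)]
    simp only [map_mul, map_sub, map_pow, conj_conj, ← Complex.exp_conj, map_neg, conj_ofReal,
      conj_I, ← Gamma_conj, sh_conj hv₁ hw₁ hz₁ hv₂ hw₂ hz₂, sh_conj hv₁ hw₁ hy₁ hv₂ hw₂ hy₂]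
    rw [Complex.cos, show (π : ℂ) * -I * s = -(π * I * s) by ring, neg_neg,
      show (π : ℂ) * s * I = π * I * s by ring, show -((π : ℂ) * s) * I = -(π * I * s) by ring]
    ring

end Pool.Agent.Lib.Stark
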