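import Pool.Agent.Lib.stark.Defs2

open Complex NumberField Filter Topology Ideal
open scoped Real nonZeroDivisors ComplexConjugate

namespace Pool.Agent.Lib.Stark

namespace SH2

set_option linter.unusedSectionVars false

variable {K : Type} [Field K] [NumberField K]

theorem fd_map {ε : K} {Y D D' : Set K} (h : FD ε Y D) (h' : FD ε Y D') :
    ∃ f : D → D', ∀ p, ∃ k : ℤ, (f p : K) = ε ^ k * p := by
  have : ∀ p : D, ∃ q : D', ∃ k : ℤ, (q : K) = ε ^ k * p := fun p => by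
    obtain ⟨k, hk, -⟩ := h'.2 p (h.1 p.2)
    exact ⟨⟨_, hk⟩, k, rfl⟩
  choose f hf using this
  exact ⟨f, hf⟩

theorem fd_inv {ε : K} (hε : ε ≠ 0) {Y D D' : Set K} (h : FD ε Y D) (f : D → D') (g : D' → D)
    (hf : ∀ p, ∃ k : ℤ, (f p : K) = ε ^ k * p) (hg : ∀ p, ∃ k : ℤ, (g p : K) = ε ^ k * p) :
    Function.LeftInverse g f := by
  intro p
  obtain ⟨k, hk⟩ := hf p
  obtain ⟨k', hk'⟩ := hg (f p)
  obtain ⟨m, -, hm⟩ := h.2 p (h.1 p.2)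
  have e1 : (g (f p) : K) = ε ^ (k' + k) * p := by rw [hk', hk, zpow_add₀ hε, mul_assoc]
  have h1 : k' + k = m := hm _ (by simpa only [← e1] using (g (f p)).2)
  have h2 : 0 = m := hm _ (by simp)
  apply Subtype.ext
  rw [e1, h1, ← h2]
  simp

theorem fd_hasSum {ε : K} (hε : ε ≠ 0) {Y D D' : Set K} (h : FD ε Y D) (h' : FD ε Y D')
    (F : K → ℂ) (hF : ∀ (k : ℤ) p, F (ε ^ k * p) = F p) {A : ℂ}
    (hA : HasSum (fun p : D' => F p) A) : HasSum (fun p : D => F p) A := by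
  obtain ⟨f, hf⟩ := fd_map h h'
  obtain ⟨g, hg⟩ := fd_map h' h
  let e : D ≃ D' := ⟨f, g, fd_inv hε h f g hf hg, fd_inv hε h' g f hg hf⟩
  have := (e.hasSum_iff (f := fun p : D' => F p)).2 hA
  convert this using 2 with p
  obtain ⟨k, hk⟩ := hf p
  show F p = F (f p)
  rw [hk, hF]

theorem uniq1 {E t : ℝ} (hE : 1 < E) (ht : 0 < t) : ∃! k : ℤ, 1 ≤ E ^ k * t ∧ E ^ k * t < E := by
  have hE0 : 0 < E := by linarith
  have key : ∀ k k' : ℤ, 1 ≤ E ^ k * t → E ^ k' * t < E → k' ≤ k := by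
    intro k k' h1 h2
    have : E ^ k' * t < E ^ (k + 1) * t := by
      rw [zpow_add_one₀ hE0.ne']
      nlinarith
    have := (zpow_lt_zpow_iff_right₀ hE).1 (lt_of_mul_lt_mul_right this ht.le)
    omega
  obtain ⟨n, h1, h2⟩ := exists_mem_Ico_zpow ht hE
  have hp : 0 < E ^ n := zpow_pos hE0 n
  have a1 : 1 ≤ E ^ (-n) * t := by
    rw [zpow_neg, inv_mul_eq_div, le_div_iff₀ hp]; linarith
  have a2 : E ^ (-n) * t < E := by
    rw [zpow_neg, inv_mul_eq_div, div_lt_iff₀ hp]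
    rw [zpow_add_one₀ hE0.ne'] at h2; linarith
  exact ⟨-n, ⟨a1, a2⟩, fun k hk => le_antisymm (key _ _ a1 hk.2) (key _ _ hk.1 a2)⟩

theorem uniq2 {E t : ℝ} (hE : 1 < E) (ht : 0 < t) : ∃! k : ℤ, 1 < E ^ k * t ∧ E ^ k * t ≤ E := by
  have hE0 : 0 < E := by linarith
  have key : ∀ k k' : ℤ, 1 < E ^ k * t → E ^ k' * t ≤ E → k' ≤ k := by
    intro k k' h1 h2
    have : E ^ k' * t < E ^ (k + 1) * t := by
      rw [zpow_add_one₀ hE0.ne']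
      nlinarith
    have := (zpow_lt_zpow_iff_right₀ hE).1 (lt_of_mul_lt_mul_right this ht.le)
    omega
  obtain ⟨n, h1, h2⟩ := exists_mem_Ioc_zpow ht hE
  have hp : 0 < E ^ n := zpow_pos hE0 n
  have a1 : 1 < E ^ (-n) * t := by
    rw [zpow_neg, inv_mul_eq_div, lt_div_iff₀ hp]; linarith
  have a2 : E ^ (-n) * t ≤ E := by
    rw [zpow_neg, inv_mul_eq_div, div_le_iff₀ hp]
    rw [zpow_add_one₀ hE0.ne'] at h2; linarith
  exact ⟨-n, ⟨a1, a2⟩, fun k hk => le_antisymm (key _ _ a1 hk.2) (key _ _ hk.1 a2)⟩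

/-- The determinant of two vectors. -/
def det (σ₁ σ₂ : K →+* ℝ) (a b : K) : ℝ := σ₁ a * σ₂ b - σ₂ a * σ₁ b

theorem det_l (σ₁ σ₂ : K →+* ℝ) (a b : K) (i j : ℚ) :
    det σ₁ σ₂ (i * a + j * b) b = i * det σ₁ σ₂ a b := by
  simp only [det, map_add, map_mul, map_ratCast]; ring

theorem det_r (σ₁ σ₂ : K →+* ℝ) (a b : K) (i j : ℚ) :
    det σ₁ σ₂ a (i * a + j * b) = j * det σ₁ σ₂ a b := by
  simp only [det, map_add, map_mul, map_ratCast]; ring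

theorem ind_of_det {σ₁ σ₂ : K →+* ℝ} {a b : K} (h : det σ₁ σ₂ a b ≠ 0) : Ind a b := by
  intro i j hij
  have h1 := det_l σ₁ σ₂ a b i j
  have h2 := det_r σ₁ σ₂ a b i j
  rw [hij] at h1 h2
  simp only [det, map_zero, zero_mul, mul_zero, sub_zero] at h1 h2
  constructor
  · have := (mul_eq_zero.1 h1.symm).resolve_right h
    exact_mod_cast this
  · have := (mul_eq_zero.1 h2.symm).resolve_right h
    exact_mod_cast this

theorem mem_cone {σ₁ σ₂ : K →+* ℝ} (hs : ∀ v w x : K, Ind v w → ∃ i j : ℚ, x = i * v + j * w)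
    {a b : K} (h : det σ₁ σ₂ a b ≠ 0) (p : K) :
    p ∈ cone a b ↔ 0 < det σ₁ σ₂ p b * det σ₁ σ₂ a b ∧ 0 ≤ det σ₁ σ₂ a p * det σ₁ σ₂ a b := by
  have hd : 0 < det σ₁ σ₂ a b * det σ₁ σ₂ a b := mul_self_pos.2 h
  constructor
  · rintro ⟨i, j, hi, hj, rfl⟩
    rw [det_l, det_r, mul_assoc, mul_assoc]
    exact ⟨mul_pos (by exact_mod_cast hi) hd, mul_nonneg (by exact_mod_cast hj) hd.le⟩
  · obtain ⟨i, j, rfl⟩ := hs a b p (ind_of_det h)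
    rw [det_l, det_r, mul_assoc, mul_assoc]
    rintro ⟨h1, h2⟩
    refine ⟨i, j, ?_, ?_, rfl⟩
    · have := (mul_pos_iff_of_pos_right hd).1 h1
      exact_mod_cast this
    · have := nonneg_of_mul_nonneg_left h2 hd
      exact_mod_cast this

theorem cocy {σ₁ σ₂ : K →+* ℝ} (hs : ∀ v w x : K, Ind v w → ∃ i j : ℚ, x = i * v + j * w)
    (hE : StmtEll K) (lam : K →+ ℝ) {Λ : Submodule ℤ K} (x v u w : K) (hΛ : IsLat Λ)
    (hv : 0 < lam v) (hw : 0 < lam w) (h1 : det σ₁ σ₂ v w < 0) (h2 : det σ₁ σ₂ v u < 0)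
    (h3 : det σ₁ σ₂ u w < 0) :
    ell lam (cset Λ x ∩ cone v w) =
      ell lam (cset Λ x ∩ cone v u) + ell lam (cset Λ x ∩ cone u w) := by
  obtain ⟨i, j, hu⟩ := hs v w u (ind_of_det h1.ne)
  refine hE.cocycle lam Λ x v u w i j hΛ (ind_of_det h1.ne) hv hw ?_ ?_ hu
  · rw [hu, det_l] at h3
    have : (0 : ℝ) < i := by nlinarith
    exact_mod_cast this
  · rw [hu, det_r] at h2
    have : (0 : ℝ) < j := by nlinarith
    exact_mod_cast this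

/-- The open quadrant of `u`. -/
def Q (σ₁ σ₂ : K →+* ℝ) (u : K) : Set K := {p | 0 < σ₁ u * σ₁ p ∧ 0 < σ₂ u * σ₂ p}

theorem stab {σ₁ σ₂ : K →+* ℝ} {ε : K} {n : ℕ} (hε : Lev σ₁ σ₂ ε n) {Λ : Submodule ℤ K} {x : K}
    (hΛ : SL ε Λ) (hx : Tor ε Λ x) : ∀ p, ε * p ∈ cset Λ x ↔ p ∈ cset Λ x := by
  intro p
  have hq := hε.quad
  constructor
  · intro h
    have h1 : ε * p - x - (ε - 1) * x ∈ Λ := Λ.sub_mem h hx
    have h2 := Λ.sub_mem (Λ.smul_mem ((n : ℤ) + 2) h1) (hΛ.2 _ h1)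
    show p - x ∈ Λ
    convert h2 using 1
    simp only [zsmul_eq_mul, Int.cast_add, Int.cast_natCast, Int.cast_ofNat]
    linear_combination (p - x) * hq
  · intro h
    have h2 := Λ.add_mem (hΛ.2 _ h) hx
    show ε * p - x ∈ Λ
    convert h2 using 1
    ring

theorem stab_zpow {ε : K} (h0 : ε ≠ 0) {X : Set K} (h : ∀ p, ε * p ∈ X ↔ p ∈ X) (k : ℤ) :
    ∀ p, ε ^ k * p ∈ X ↔ p ∈ X := by
  induction k using Int.induction_on with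
  | zero => simp
  | succ k ih => intro p; rw [zpow_add_one₀ h0, mul_assoc, ih, h]
  | pred k ih =>
    intro p
    rw [← h, ← mul_assoc, ← ih p]
    have : ε * ε ^ (-(k : ℤ) - 1) = ε ^ (-(k : ℤ)) := by
      rw [zpow_sub_one₀ h0]; field_simp
    rw [this]

theorem lev_two {σ₁ σ₂ : K →+* ℝ} {ε : K} {n : ℕ} (hε : Lev σ₁ σ₂ ε n) : σ₂ ε = (σ₁ ε)⁻¹ :=
  eq_inv_of_mul_eq_one_right hε.norm

theorem lev_ne {σ₁ σ₂ : K →+* ℝ} {ε : K} {n : ℕ} (hε : Lev σ₁ σ₂ ε n) : ε ≠ 0 := by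
  rintro rfl
  have := hε.one_lt
  norm_num at this

theorem q_zpow {σ₁ σ₂ : K →+* ℝ} {ε : K} {n : ℕ} (hε : Lev σ₁ σ₂ ε n) (u : K) (k : ℤ) (p : K) :
    ε ^ k * p ∈ Q σ₁ σ₂ u ↔ p ∈ Q σ₁ σ₂ u := by
  have h1 : 0 < σ₁ ε := by linarith [hε.one_lt]
  have h2 : 0 < σ₂ ε := by rw [lev_two hε]; positivity
  simp only [Q, Set.mem_ofPred_eq, map_mul, map_zpow₀]
  rw [mul_left_comm, mul_left_comm (σ₂ u), mul_pos_iff_of_pos_left (zpow_pos h1 k),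
    mul_pos_iff_of_pos_left (zpow_pos h2 k)]

theorem fd_inter {σ₁ σ₂ : K →+* ℝ} {ε : K} {n : ℕ} (hε : Lev σ₁ σ₂ ε n) {X D : Set K}
    (h : FD ε (X \ {0}) D) (u : K) : FD ε (X ∩ Q σ₁ σ₂ u) (D ∩ Q σ₁ σ₂ u) := by
  refine ⟨fun p hp => ⟨(h.1 hp.1).1, hp.2⟩, fun p hp => ?_⟩
  have h0 : p ≠ 0 := by
    rintro rfl
    have := hp.2.1
    simp at this
  obtain ⟨k, hk, hu⟩ := h.2 p ⟨hp.1, h0⟩
  exact ⟨k, ⟨hk, (q_zpow hε u k p).2 hp.2⟩, fun k' hk' => hu k' hk'.1⟩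

theorem cone_mul {u : K} (hu : u ≠ 0) (a b p : K) : p ∈ cone (a * u) (b * u) ↔ p / u ∈ cone a b := by
  constructor
  · rintro ⟨i, j, hi, hj, rfl⟩
    exact ⟨i, j, hi, hj, by field_simp⟩
  · rintro ⟨i, j, hi, hj, h⟩
    refine ⟨i, j, hi, hj, ?_⟩
    rw [div_eq_iff hu] at h
    rw [h]; ring

theorem cone1 {σ₁ σ₂ : K →+* ℝ} (hs : ∀ v w x : K, Ind v w → ∃ i j : ℚ, x = i * v + j * w)
    {ε : K} {n : ℕ} (hε : Lev σ₁ σ₂ ε n) (q : K) :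
    q ∈ cone 1 ε ↔ σ₂ q ≤ σ₁ q ∧ σ₁ q < σ₁ ε ^ 2 * σ₂ q := by
  have h1 := hε.one_lt
  have h0 : 0 < σ₁ ε := by linarith
  have h2 : (σ₁ ε)⁻¹ < 1 := inv_lt_one_of_one_lt₀ h1
  have hd : det σ₁ σ₂ 1 ε < 0 := by simp only [det, map_one, lev_two hε]; linarith
  have e1 : ∀ x, 0 < x * det σ₁ σ₂ 1 ε ↔ x < 0 := fun x =>
    ⟨fun h => by nlinarith, fun h => mul_pos_of_neg_of_neg h hd⟩
  have e2 : ∀ x, 0 ≤ x * det σ₁ σ₂ 1 ε ↔ x ≤ 0 := fun x =>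
    ⟨fun h => by nlinarith, fun h => mul_nonneg_of_nonpos_of_nonpos h hd.le⟩
  rw [mem_cone hs hd.ne, e1, e2]
  simp only [det, map_one, lev_two hε, one_mul, sub_neg, sub_nonpos]
  rw [and_comm, ← div_eq_mul_inv, div_lt_iff₀ h0]
  constructor <;> rintro ⟨a, b⟩ <;> exact ⟨a, by linarith⟩

theorem cone2 {σ₁ σ₂ : K →+* ℝ} (hs : ∀ v w x : K, Ind v w → ∃ i j : ℚ, x = i * v + j * w)
    {ε : K} {n : ℕ} (hε : Lev σ₁ σ₂ ε n) (q : K) :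
    q ∈ cone ε 1 ↔ σ₂ q < σ₁ q ∧ σ₁ q ≤ σ₁ ε ^ 2 * σ₂ q := by
  have h1 := hε.one_lt
  have h0 : 0 < σ₁ ε := by linarith
  have h2 : (σ₁ ε)⁻¹ < 1 := inv_lt_one_of_one_lt₀ h1
  have hd : 0 < det σ₁ σ₂ ε 1 := by simp only [det, map_one, lev_two hε]; linarith
  rw [mem_cone hs hd.ne', mul_pos_iff_of_pos_right hd, mul_nonneg_iff_of_pos_right hd]
  simp only [det, map_one, lev_two hε, mul_one, sub_pos, sub_nonneg]
  rw [inv_mul_le_iff₀ h0]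
  constructor <;> rintro ⟨a, b⟩ <;> exact ⟨a, by linarith⟩

theorem q_div {σ₁ σ₂ : K →+* ℝ} (u p : K) :
    p ∈ Q σ₁ σ₂ u ↔ 0 < σ₁ (p / u) ∧ 0 < σ₂ (p / u) := by
  simp only [Q, Set.mem_ofPred_eq, map_div₀, div_pos_iff, mul_pos_iff]
  tauto

theorem ratio {σ₁ σ₂ : K →+* ℝ} {ε : K} {n : ℕ} (hε : Lev σ₁ σ₂ ε n) (k : ℤ) (q : K)
    (h2 : 0 < σ₂ q) : 0 < σ₂ (ε ^ k * q) ∧
      σ₁ (ε ^ k * q) = (σ₁ ε ^ 2) ^ k * (σ₁ q / σ₂ q) * σ₂ (ε ^ k * q) := by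
  have h0 : 0 < σ₁ ε := by linarith [hε.one_lt]
  have hy : 0 < σ₁ ε ^ k := zpow_pos h0 k
  simp only [map_mul, map_zpow₀, lev_two hε, inv_zpow, sq, mul_zpow]
  refine ⟨by positivity, ?_⟩
  field_simp

theorem fd1 {σ₁ σ₂ : K →+* ℝ} (hs : ∀ v w x : K, Ind v w → ∃ i j : ℚ, x = i * v + j * w)
    {ε : K} {n : ℕ} (hε : Lev σ₁ σ₂ ε n) {X : Set K} (hX : ∀ p, ε * p ∈ X ↔ p ∈ X) {u : K}
    (hu : u ≠ 0) : FD ε (X ∩ Q σ₁ σ₂ u) (X ∩ cone u (ε * u)) := by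
  have h1 := hε.one_lt
  have hE : 1 < σ₁ ε ^ 2 := by nlinarith
  have hc : ∀ p, p ∈ cone u (ε * u) ↔ σ₂ (p / u) ≤ σ₁ (p / u) ∧
      σ₁ (p / u) < σ₁ ε ^ 2 * σ₂ (p / u) := fun p => by
    rw [← cone1 hs hε, ← cone_mul hu, one_mul]
  refine ⟨fun p hp => ⟨hp.1, (q_div u p).2 ?_⟩, fun p hp => ?_⟩
  · obtain ⟨a, b⟩ := (hc p).1 hp.2
    have : 0 < σ₂ (p / u) := by nlinarith
    exact ⟨by linarith, this⟩
  · obtain ⟨a, b⟩ := (q_div u p).1 hp.2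
    refine (existsUnique_congr fun k => ?_).1 (uniq1 hE (div_pos a b))
    obtain ⟨c1, c2⟩ := ratio hε k (p / u) b
    rw [Set.mem_inter_iff, stab_zpow (lev_ne hε) hX, hc, mul_div_assoc, c2,
      le_mul_iff_one_le_left c1, mul_lt_mul_iff_left₀ c1]
    exact ⟨fun h => ⟨hp.1, h⟩, fun h => h.2⟩

theorem fd2 {σ₁ σ₂ : K →+* ℝ} (hs : ∀ v w x : K, Ind v w → ∃ i j : ℚ, x = i * v + j * w)
    {ε : K} {n : ℕ} (hε : Lev σ₁ σ₂ ε n) {X : Set K} (hX : ∀ p, ε * p ∈ X ↔ p ∈ X) {u : K}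
    (hu : u ≠ 0) : FD ε (X ∩ Q σ₁ σ₂ u) (X ∩ cone (ε * u) u) := by
  have h1 := hε.one_lt
  have hE : 1 < σ₁ ε ^ 2 := by nlinarith
  have hc : ∀ p, p ∈ cone (ε * u) u ↔ σ₂ (p / u) < σ₁ (p / u) ∧
      σ₁ (p / u) ≤ σ₁ ε ^ 2 * σ₂ (p / u) := fun p => by
    rw [← cone2 hs hε, ← cone_mul hu, one_mul]
  refine ⟨fun p hp => ⟨hp.1, (q_div u p).2 ?_⟩, fun p hp => ?_⟩
  · obtain ⟨a, b⟩ := (hc p).1 hp.2
    have : 0 < σ₂ (p / u) := by nlinarith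
    exact ⟨by linarith, this⟩
  · obtain ⟨a, b⟩ := (q_div u p).1 hp.2
    refine (existsUnique_congr fun k => ?_).1 (uniq2 hE (div_pos a b))
    obtain ⟨c1, c2⟩ := ratio hε k (p / u) b
    rw [Set.mem_inter_iff, stab_zpow (lev_ne hε) hX, hc, mul_div_assoc, c2,
      lt_mul_iff_one_lt_left c1, mul_le_mul_iff_left₀ c1]
    exact ⟨fun h => ⟨hp.1, h⟩, fun h => h.2⟩

theorem hasSum_cone {X : Set K} {a b : K} {P : Finset K}
    (hb : Set.BijOn (fun y : K × ℕ × ℕ => y.1 + y.2.1 * a + y.2.2 * b) {y | y.1 ∈ P} X)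
    (f : K → ℂ) (S : K → ℂ)
    (h : ∀ z ∈ P, HasSum (fun y : ℕ × ℕ => f (z + y.1 * a + y.2 * b)) (S z)) :
    HasSum (fun p : X => f p) (∑ z ∈ P, S z) := by
  have hX : X = ⋃ z ∈ P, Set.range fun y : ℕ × ℕ => z + y.1 * a + y.2 * b := by
    ext p
    simp only [Set.mem_iUnion, Set.mem_range]
    constructor
    · intro hp
      obtain ⟨y, hy, rfl⟩ := hb.surjOn hp
      exact ⟨y.1, hy, y.2, rfl⟩
    · rintro ⟨z, hz, y, rfl⟩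
      exact hb.mapsTo (x := (z, y)) hz
  rw [hX]
  refine hasSum_sum_disjoint (f := f) P ?_ ?_
  · intro z hz z' hz' hne
    rw [Function.onFun, Set.disjoint_left]
    rintro _ ⟨y, rfl⟩ ⟨y', hy⟩
    have := hb.injOn (x₁ := (z', y')) (x₂ := (z, y)) hz' hz hy
    exact hne (congrArg Prod.fst this).symm
  · intro z hz
    have hi : Function.Injective fun y : ℕ × ℕ => z + y.1 * a + y.2 * b := by
      intro y y' hy
      have := hb.injOn (x₁ := (z, y)) (x₂ := (z, y')) hz hz hy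
      exact congrArg Prod.snd this
    exact hi.hasSum_range_iff.2 (h z hz)

theorem lin (l : K →+ ℝ) (i : ℚ) (v : K) : l (i * v) = i * l v := by
  rw [← Rat.smul_def, map_rat_smul, Rat.smul_def]

theorem linN (l : K →+ ℝ) (i : ℕ) (v : K) : l (i * v) = i * l v := by
  rw [← nsmul_eq_mul, map_nsmul, nsmul_eq_mul]

theorem bnd (l : K →+ ℝ) {a b z : K} (ha : 0 < l a) (hb : 0 < l b)
    (hz : ∃ i j : ℚ, 0 < i ∧ i ≤ 1 ∧ 0 ≤ j ∧ j < 1 ∧ z = i * a + j * b) :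
    0 < l z ∧ l z < l a + l b := by
  obtain ⟨i, j, h1, h2, h3, h4, rfl⟩ := hz
  rw [map_add, lin, lin]
  have h1' : (0 : ℝ) < i := by exact_mod_cast h1
  have h2' : (i : ℝ) ≤ 1 := by exact_mod_cast h2
  have h3' : (0 : ℝ) ≤ j := by exact_mod_cast h3
  have h4' : (j : ℝ) < 1 := by exact_mod_cast h4
  constructor <;> nlinarith [mul_pos h1' ha, mul_nonneg h3' hb.le]

/-- Unsigned term. -/
noncomputable def NN (l₁ l₂ : K → ℝ) (s : ℂ) (p : K) : ℂ := ((|l₁ p * l₂ p| : ℝ) : ℂ) ^ (-s)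

theorem pair (hS : StmtSH1) (hE : StmtEll K) (l₁ l₂ : K →+ ℝ) {Λ : Submodule ℤ K} (x : K) {a b : K}
    (hΛ : IsLat Λ) (ha : a ∈ Λ) (hb : b ∈ Λ) (hi : Ind a b) (a1 : 0 < l₁ a) (b1 : 0 < l₁ b)
    (a2 : 0 < l₂ a) (b2 : 0 < l₂ b) :
    ∃ Ψ : ℂ → ℂ, DifferentiableOn ℂ Ψ {s | -1 / 2 < s.re} ∧
      Ψ 0 = ((ell l₁ (cset Λ x ∩ cone a b)).re + (ell l₂ (cset Λ x ∩ cone a b)).re : ℝ) ∧
      ∀ s : ℂ, 1 < s.re → ∃ A B : ℂ,
        HasSum (fun p : (cset Λ x ∩ cone a b : Set K) => NN l₁ l₂ s p) A ∧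
        HasSum (fun p : (cset Λ x ∩ cone (-b) (-a) : Set K) => NN l₁ l₂ s p) B ∧
        Ψ s = s * cos (π * s) * Gamma s ^ 2 * (A - B) := by
  classical
  obtain ⟨P, hP, hbij, e1⟩ := hE.par l₁ Λ x a b hΛ ha hb hi a1 b1
  obtain ⟨P₂, hP₂, -, e2⟩ := hE.par l₂ Λ x a b hΛ ha hb hi a2 b2
  have : P₂ = P := by ext z; rw [hP, hP₂]
  subst this
  have hi' : Ind (-b) (-a) := fun i j h => by
    have := hi j i (by linear_combination -h)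
    exact ⟨this.2, this.1⟩
  obtain ⟨P', hP', hbij', -⟩ := hE.par (-l₁) Λ x (-b) (-a) hΛ (Λ.neg_mem hb) (Λ.neg_mem ha) hi'
    (by simpa using b1) (by simpa using a1)
  have z1 : ∀ z ∈ P₂, 0 < l₁ z ∧ l₁ z < l₁ a + l₁ b := fun z hz => bnd l₁ a1 b1 ((hP z).1 hz).2
  have z2 : ∀ z ∈ P₂, 0 < l₂ z ∧ l₂ z < l₂ a + l₂ b := fun z hz => bnd l₂ a2 b2 ((hP z).1 hz).2
  have m1 : ∀ z ∈ P', z + a + b ∈ P₂ := fun z hz => by
    obtain ⟨h, i, j, h1, h2, h3, h4, rfl⟩ := (hP' z).1 hz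
    refine (hP _).2 ⟨?_, 1 - j, 1 - i, by linarith, by linarith, by linarith, by linarith, ?_⟩
    · convert Λ.add_mem (Λ.add_mem h ha) hb using 1; ring
    · push_cast; ring
  have m2 : ∀ z ∈ P₂, z - a - b ∈ P' := fun z hz => by
    obtain ⟨h, i, j, h1, h2, h3, h4, rfl⟩ := (hP z).1 hz
    refine (hP' _).2 ⟨?_, 1 - j, 1 - i, by linarith, by linarith, by linarith, by linarith, ?_⟩
    · convert Λ.sub_mem (Λ.sub_mem h ha) hb using 1; ring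
    · push_cast; ring
  have hΨ : ∀ z : K, ∃ Ψ : ℂ → ℂ, z ∈ P₂ → DifferentiableOn ℂ Ψ {s | -1 / 2 < s.re} ∧
      Ψ 0 = ((J2 (l₁ z) (l₁ a) (l₁ b)).re + (J2 (l₂ z) (l₂ a) (l₂ b)).re : ℝ) ∧
      ∀ s : ℂ, 1 < s.re → Ψ s = s * cos (π * s) * Gamma s ^ 2 *
        (∑' p, shTerm (l₁ z) (l₁ a) (l₁ b) (l₂ z) (l₂ a) (l₂ b) s p -
          ∑' p, shTerm (l₁ a + l₁ b - l₁ z) (l₁ a) (l₁ b) (l₂ a + l₂ b - l₂ z) (l₂ a) (l₂ b) s p) := by
    intro z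
    by_cases hz : z ∈ P₂
    · obtain ⟨Ψ, h⟩ := (hS _ _ _ _ _ _ a1 b1 a2 b2 (z1 z hz).1 (z1 z hz).2 (z2 z hz).1 (z2 z hz).2).2
      exact ⟨Ψ, fun _ => h⟩
    · exact ⟨0, fun h => absurd h hz⟩
  choose Ψ hΨ using hΨ
  refine ⟨fun s => ∑ z ∈ P₂, Ψ z s, ?_, ?_, fun s hs => ⟨∑ z ∈ P₂,
    ∑' p, shTerm (l₁ z) (l₁ a) (l₁ b) (l₂ z) (l₂ a) (l₂ b) s p, ∑ z ∈ P₂,
    ∑' p, shTerm (l₁ a + l₁ b - l₁ z) (l₁ a) (l₁ b) (l₂ a + l₂ b - l₂ z) (l₂ a) (l₂ b) s p,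
    ?_, ?_, ?_⟩⟩
  · exact DifferentiableOn.fun_sum fun z hz => (hΨ z hz).1
  · rw [e1, e2, re_sum, re_sum, ← Finset.sum_add_distrib, ofReal_sum]
    exact Finset.sum_congr rfl fun z hz => (hΨ z hz).2.1
  · refine hasSum_cone hbij _ _ fun z hz => ?_
    have := ((hS _ _ _ _ _ _ a1 b1 a2 b2 (z1 z hz).1 (z1 z hz).2 (z2 z hz).1
      (z2 z hz).2).1 s hs).hasSum
    convert this using 2 with y
    simp only [NN, shTerm, map_add, linN]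
    rw [abs_of_pos]
    have := (z1 z hz).1
    have := (z2 z hz).1
    positivity
  · rw [← Finset.sum_nbij' (s := P') (fun z => z + a + b) (fun z => z - a - b) m1 m2
      (fun z _ => by ring) (fun z _ => by ring) (fun z _ => rfl)]
    refine hasSum_cone hbij' _ _ fun z hz => ?_
    have c1 := z1 _ (m1 z hz)
    have c2 := z2 _ (m1 z hz)
    have := ((hS (l₁ a + l₁ b - l₁ (z + a + b)) _ _ (l₂ a + l₂ b - l₂ (z + a + b)) _ _ a1 b1 a2 b2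
      (by linarith [c1.2]) (by linarith [c1.1]) (by linarith [c2.2]) (by linarith [c2.1])).1 s
      hs).hasSum
    rw [← (Equiv.prodComm ℕ ℕ).hasSum_iff] at this
    convert this using 2 with y
    simp only [NN, shTerm, Function.comp, Equiv.prodComm_apply, Prod.fst_swap, Prod.snd_swap]
    have d1 : 0 < l₁ a + l₁ b - l₁ (z + a + b) := by linarith [c1.2]
    have d2 : 0 < l₂ a + l₂ b - l₂ (z + a + b) := by linarith [c2.2]
    rw [← abs_of_pos (a := (_ + _ + _) * (_ + _ + _)) (by positivity)]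
    congr 3
    simp only [map_add, linN, map_neg]
    ring
  · rw [← Finset.sum_sub_distrib, Finset.mul_sum]
    exact Finset.sum_congr rfl fun z hz => (hΨ z hz).2.2 s hs

theorem nn_zpow {σ₁ σ₂ : K →+* ℝ} {ε : K} {n : ℕ} (hε : Lev σ₁ σ₂ ε n) (s : ℂ) (k : ℤ) (p : K) :
    NN σ₁ σ₂ s (ε ^ k * p) = NN σ₁ σ₂ s p := by
  have : σ₁ (ε ^ k * p) * σ₂ (ε ^ k * p) = σ₁ p * σ₂ p := by
    simp only [map_mul, map_zpow₀]
    rw [mul_mul_mul_comm, ← mul_zpow, hε.norm, one_zpow, one_mul]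
  simp only [NN, this]

theorem quad_split {σ₁ σ₂ : K →+* ℝ} {v w : K} (v1 : 0 < σ₁ v) (v2 : 0 < σ₂ v) (w1 : σ₁ w < 0)
    (w2 : 0 < σ₂ w) {D : Set K} (h0 : ∀ p ∈ D, p ≠ 0) (f : K → ℂ) {A B A' B' : ℂ}
    (hA : HasSum (fun p : (D ∩ Q σ₁ σ₂ v : Set K) => f p) A)
    (hB : HasSum (fun p : (D ∩ Q σ₁ σ₂ (-v) : Set K) => f p) B)
    (hA' : HasSum (fun p : (D ∩ Q σ₁ σ₂ w : Set K) => f p) A')
    (hB' : HasSum (fun p : (D ∩ Q σ₁ σ₂ (-w) : Set K) => f p) B') :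
    HasSum (fun p : D => f p) (A + B + (A' + B')) := by
  have q1 : ∀ p, p ∈ Q σ₁ σ₂ v ↔ 0 < σ₁ p ∧ 0 < σ₂ p := fun p => by
    simp only [Q, Set.mem_ofPred_eq, mul_pos_iff_of_pos_left v1, mul_pos_iff_of_pos_left v2]
  have q2 : ∀ p, p ∈ Q σ₁ σ₂ (-v) ↔ σ₁ p < 0 ∧ σ₂ p < 0 := fun p => by
    simp only [Q, Set.mem_ofPred_eq, map_neg, neg_mul, ← mul_neg, mul_pos_iff_of_pos_left v1,
      mul_pos_iff_of_pos_left v2, neg_pos]
  have w1' : 0 < -σ₁ w := by linarith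
  have q3 : ∀ p, p ∈ Q σ₁ σ₂ w ↔ σ₁ p < 0 ∧ 0 < σ₂ p := fun p => by
    simp only [Q, Set.mem_ofPred_eq, mul_pos_iff_of_pos_left w2]
    rw [← neg_mul_neg, mul_pos_iff_of_pos_left w1', neg_pos]
  have q4 : ∀ p, p ∈ Q σ₁ σ₂ (-w) ↔ 0 < σ₁ p ∧ σ₂ p < 0 := fun p => by
    simp only [Q, Set.mem_ofPred_eq, map_neg, mul_pos_iff_of_pos_left w1']
    rw [neg_mul, ← mul_neg, mul_pos_iff_of_pos_left w2, neg_pos]
  have hD : D = (D ∩ Q σ₁ σ₂ v ∪ D ∩ Q σ₁ σ₂ (-v)) ∪ (D ∩ Q σ₁ σ₂ w ∪ D ∩ Q σ₁ σ₂ (-w)) := by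
    ext p
    simp only [Set.mem_union, Set.mem_inter_iff, q1, q2, q3, q4]
    constructor
    · intro hp
      have n1 : σ₁ p ≠ 0 := (map_ne_zero σ₁).2 (h0 p hp)
      have n2 : σ₂ p ≠ 0 := (map_ne_zero σ₂).2 (h0 p hp)
      rcases lt_or_gt_of_ne n1 with a | a <;> rcases lt_or_gt_of_ne n2 with b | b <;> tauto
    · tauto
  have := HasSum.add_disjoint (f := f) ?_ (HasSum.add_disjoint (f := f) ?_ hA hB)
    (HasSum.add_disjoint (f := f) ?_ hA' hB')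
  · rwa [← hD] at this
  all_goals
    rw [Set.disjoint_left]
    intro p
    simp only [Set.mem_union, Set.mem_inter_iff, q1, q2, q3, q4]
  · rintro (⟨-, a, b⟩ | ⟨-, a, b⟩) (⟨-, c, d⟩ | ⟨-, c, d⟩) <;> linarith
  · rintro ⟨-, a, b⟩ ⟨-, c, d⟩; linarith
  · rintro ⟨-, a, b⟩ ⟨-, c, d⟩; linarith

theorem z_pos {σ₁ σ₂ : K →+* ℝ} {u : K} (hu : 0 < σ₂ u) {D : Set K} {s A : ℂ}
    (h : HasSum (fun p : (D ∩ Q σ₁ σ₂ u : Set K) => NN σ₁ σ₂ s p) A) :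
    HasSum (fun p : (D ∩ Q σ₁ σ₂ u : Set K) => zTerm σ₁ σ₂ σ₂ s p) A := by
  convert h using 2 with p
  have : 0 < σ₂ p := (mul_pos_iff_of_pos_left hu).1 p.2.2.2
  simp [zTerm, NN, sign_pos this]

theorem z_neg {σ₁ σ₂ : K →+* ℝ} {u : K} (hu : 0 < σ₂ u) {D : Set K} {s A : ℂ}
    (h : HasSum (fun p : (D ∩ Q σ₁ σ₂ (-u) : Set K) => NN σ₁ σ₂ s p) A) :
    HasSum (fun p : (D ∩ Q σ₁ σ₂ (-u) : Set K) => zTerm σ₁ σ₂ σ₂ s p) (-A) := by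
  refine h.neg.congr_fun fun p => ?_
  have h1 := p.2.2.2
  rw [map_neg] at h1
  have : σ₂ p < 0 := by nlinarith
  simp [zTerm, NN, sign_neg this]

theorem cancel {σ₁ σ₂ τ : K →+* ℝ} (hs : ∀ v w x : K, Ind v w → ∃ i j : ℚ, x = i * v + j * w)
    (hE : StmtEll K) {ε : K} (hε : 0 < τ ε) {Λ : Submodule ℤ K} {x : K} (hΛ : IsLat Λ)
    (hX : ∀ p, ε * p ∈ cset Λ x ↔ p ∈ cset Λ x) {a b : K} (ha : 0 < τ a) (hb : 0 < τ b)
    (hab : det σ₁ σ₂ a b ≠ 0) :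
    ell τ (cset Λ x ∩ cone (ε * a) (ε * b)) = ell τ (cset Λ x ∩ cone a b) := by
  have h0 : ε ≠ 0 := by rintro rfl; simp at hε
  refine hE.scale τ τ ε (τ ε) _ _ h0 hε (fun p => map_mul τ ε p) (fun p => ?_)
    (hE.good τ.toAddMonoidHom Λ x a b hΛ (ind_of_det hab) ha hb)
  rw [Set.mem_inter_iff, Set.mem_inter_iff, hX, mul_comm ε a, mul_comm ε b, cone_mul h0,
    mul_div_cancel_left₀ _ h0]

end SH2

open SH2 in
theorem blockSH2 (h : StmtSH1) (hL : StmtL1) (hPsi : StmtPsi) (hR : StmtR1) : StmtSH2 := by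
  intro K _ _ σ₁ σ₂ c hRQ ε n hε Λ x D hΛ hx hD
  have hb := hR.2.1 K σ₁ σ₂ c hRQ
  have hE := hL K hRQ.rank
  have hs := hb.span2
  obtain ⟨v, hv, v1, v2⟩ := hb.signs Λ 0 1 1 hΛ.1 one_ne_zero one_ne_zero
  obtain ⟨w, hw, w1, w2⟩ := hb.signs Λ 0 (-1) 1 hΛ.1 (by norm_num) one_ne_zero
  rw [sub_zero] at hv hw
  rw [one_mul] at v1 v2 w2
  replace w1 : σ₁ w < 0 := by linarith
  have e1 := hε.one_lt
  have e0 : 0 < σ₁ ε := by linarith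
  have e2 : 0 < σ₂ ε := by rw [lev_two hε]; positivity
  have e3 : σ₂ ε < 1 := by rw [lev_two hε]; exact inv_lt_one_of_one_lt₀ e1
  have hx' : Tor ε Λ (-x) := by
    have := Λ.neg_mem hx
    unfold Tor
    convert this using 1
    ring
  have hX := stab hε hΛ hx
  have hX' := stab hε hΛ hx'
  have v0 : v ≠ 0 := by rintro rfl; simp at v1
  have w0 : w ≠ 0 := by rintro rfl; simp at w2
  have vv := mul_pos v1 v2
  have ww := mul_neg_of_neg_of_pos w1 w2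
  have vw := mul_pos v1 w2
  have wv := mul_neg_of_neg_of_pos w1 v2
  have d1 : det σ₁ σ₂ v (ε * v) < 0 := by simp only [det, map_mul]; nlinarith
  have d2 : det σ₁ σ₂ (ε * w) w < 0 := by simp only [det, map_mul]; nlinarith
  have d3 : det σ₁ σ₂ w v < 0 := by simp only [det]; nlinarith
  have d4 : det σ₁ σ₂ w (ε * v) < 0 := by
    simp only [det, map_mul]; nlinarith [mul_pos e0 vw, mul_neg_of_pos_of_neg e2 wv]
  have d5 : det σ₁ σ₂ (ε * w) (ε * v) < 0 := by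
    simp only [det, map_mul]
    nlinarith [mul_pos (mul_pos e0 e2) vw, mul_neg_of_pos_of_neg (mul_pos e0 e2) wv]
  have d6 : det σ₁ σ₂ v (-w) < 0 := by simp only [det, map_neg]; nlinarith
  have d7 : det σ₁ σ₂ (ε * v) (-w) < 0 := by
    simp only [det, map_mul, map_neg]; nlinarith [mul_pos e0 vw, mul_neg_of_pos_of_neg e2 wv]
  have d8 : det σ₁ σ₂ (ε * v) (ε * -w) < 0 := by
    simp only [det, map_mul, map_neg]
    nlinarith [mul_pos (mul_pos e0 e2) vw, mul_neg_of_pos_of_neg (mul_pos e0 e2) wv]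
  have d9 : det σ₁ σ₂ (ε * -w) (-w) < 0 := by simp only [det, map_mul, map_neg]; nlinarith
  have ev1 : 0 < σ₁ (ε * v) := by rw [map_mul]; positivity
  have ev2 : 0 < σ₂ (ε * v) := by rw [map_mul]; positivity
  have ew1 : σ₁ (ε * w) < 0 := by rw [map_mul]; exact mul_neg_of_pos_of_neg e0 w1
  have ew2 : 0 < σ₂ (ε * w) := by rw [map_mul]; positivity
  have nw1 : 0 < σ₁ (-w) := by rw [map_neg]; linarith
  obtain ⟨Ψ₁, p1, p2, p3⟩ := pair h hE σ₁.toAddMonoidHom σ₂.toAddMonoidHom x hΛ.1 hv (hΛ.2 v hv)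
    (ind_of_det d1.ne) v1 ev1 v2 ev2
  obtain ⟨Ψ₂, r1, r2, r3⟩ := pair h hE (-σ₁.toAddMonoidHom) σ₂.toAddMonoidHom x hΛ.1 (hΛ.2 w hw) hw
    (ind_of_det d2.ne) (neg_pos.2 ew1) (neg_pos.2 w1) ew2 w2
  have main : ∀ s : ℂ, 1 < s.re → Summable (fun p : D => NN σ₁ σ₂ s p) ∧
      Ψ₁ s + Ψ₂ s = s * cos (π * s) * Gamma s ^ 2 * ∑' p : D, zTerm σ₁ σ₂ σ₂ s p := by
    intro s hs'
    obtain ⟨A, B, hA, hB, hAB⟩ := p3 s hs'
    obtain ⟨A', B', hA', hB', hAB'⟩ := r3 s hs'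
    have en : NN (-σ₁.toAddMonoidHom : K →+ ℝ) σ₂.toAddMonoidHom s = NN σ₁ σ₂ s := by
      funext p
      simp [NN, abs_mul]
    rw [en] at hA' hB'
    rw [← mul_neg] at hB hB'
    have h0 := lev_ne hε
    have sA := fd_hasSum h0 (fd_inter hε hD v) (fd1 hs hε hX v0) _ (nn_zpow hε s) hA
    have sB := fd_hasSum h0 (fd_inter hε hD (-v)) (fd2 hs hε hX (neg_ne_zero.2 v0)) _
      (nn_zpow hε s) hB
    have sA' := fd_hasSum h0 (fd_inter hε hD w) (fd2 hs hε hX w0) _ (nn_zpow hε s) hA'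
    have sB' := fd_hasSum h0 (fd_inter hε hD (-w)) (fd1 hs hε hX (neg_ne_zero.2 w0)) _
      (nn_zpow hε s) hB'
    have hD0 : ∀ p ∈ D, p ≠ 0 := fun p hp => (hD.1 hp).2
    refine ⟨(quad_split v1 v2 w1 w2 hD0 _ sA sB sA' sB').summable, ?_⟩
    rw [(quad_split v1 v2 w1 w2 hD0 _ (z_pos v2 sA) (z_neg v2 sB) (z_pos w2 sA')
      (z_neg w2 sB')).tsum_eq, hAB, hAB']
    ring
  refine ⟨fun s hs' => ?_, fun s => Ψ₁ s + Ψ₂ s, p1.add r1, ?_, fun s hs' => (main s hs').2⟩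
  · have := (main s (by simpa using hs')).1
    rw [← summable_ofReal]
    convert this using 2 with p
    rw [NN, ofReal_cpow (abs_nonneg _), ofReal_neg]
  · have c1 := cocy hs hE σ₂.toAddMonoidHom x (ε * w) w (ε * v) hΛ.1 ew2 ev2 d5 d2 d4
    have c2 := cocy hs hE σ₂.toAddMonoidHom x w v (ε * v) hΛ.1 w2 ev2 d4 d3 d1
    have c3 := cancel hs hE e2 hΛ.1 hX w2 v2 d3.ne
    have c4 := cocy hs hE σ₁.toAddMonoidHom (-x) v (ε * v) (-w) hΛ.1 v1 nw1 d6 d1 d7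
    have c5 := cocy hs hE σ₁.toAddMonoidHom (-x) (ε * v) (ε * -w) (-w) hΛ.1 ev1 nw1 d7 d8 d9
    have c6 := cancel hs hE e0 hΛ.1 hX' v1 nw1 d6.ne
    have c7 : ell (-σ₁.toAddMonoidHom : K →+ ℝ) (cset Λ x ∩ cone (ε * w) w) =
        ell σ₁ (cset Λ (-x) ∩ cone (ε * -w) (-w)) := by
      refine hE.scale _ _ (-1) 1 _ _ (by norm_num) one_pos (fun p => by simp) (fun p => ?_)
        (hE.good σ₁.toAddMonoidHom Λ (-x) _ _ hΛ.1 (ind_of_det d9.ne)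
          (by show 0 < σ₁ (ε * -w); rw [map_mul]; positivity) nw1)
      have := cone_mul (u := -1) (by norm_num) (ε * w) w p
      rw [mul_neg_one, mul_neg_one, ← mul_neg, div_neg, div_one] at this
      rw [Set.mem_inter_iff, Set.mem_inter_iff, this, neg_one_mul]
      refine and_congr_left fun _ => ?_
      show -p - x ∈ Λ ↔ p - -x ∈ Λ
      rw [← Λ.neg_mem_iff]
      congr! 1
      ring
    have s1 := (hPsi K σ₁ σ₂ c hRQ ε n hε).2.2.2.1 Λ x v hΛ hx v1 v2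
    have s2 := (hPsi K σ₁ σ₂ c hRQ ε n hε).2.2.2.1 Λ (-x) v hΛ hx' v1 v2
    show Ψ₁ 0 + Ψ₂ 0 = _
    rw [p2, r2, s1, s2, norm_exp, norm_exp, Real.log_exp, Real.log_exp, ← ofReal_add, c7]
    congr 1
    simp only [RingHom.toAddMonoidHom_eq_coe, AddMonoidHom.coe_coe] at c1 c2 c4 c5 ⊢
    have k1 : ell σ₂ (cset Λ x ∩ cone (ε * w) w) = -ell σ₂ (cset Λ x ∩ cone v (ε * v)) := by
      linear_combination c3 - c1 - c2
    have k2 : ell σ₁ (cset Λ (-x) ∩ cone (ε * -w) (-w)) =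
        -ell σ₁ (cset Λ (-x) ∩ cone v (ε * v)) := by
      linear_combination -c4 - c5 - c6
    rw [k1, k2]
    simp only [neg_re]
    ring

end Pool.Agent.Lib.Stark
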