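import Pool.Agent.Lib.stark.Defs2

open Complex NumberField Filter Topology
open scoped Real ComplexConjugate

namespace Pool.Agent.Lib.Stark

namespace T

section Fin

variable {G : Type} [AddCommGroup G] [Fintype G] [DecidableEq G]

omit [Fintype G] in
lemma fs_ne {f : G → ℂ} {e : ℂ} (hf : ∀ x, f x ≠ 0) (he : e ≠ 0) (x : G) : fs f e x ≠ 0 := by
  unfold fs
  split_ifs
  · exact div_ne_zero he (hf 0)
  · exact inv_ne_zero (hf x)

omit [Fintype G] in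
lemma gm_neg (f : G → ℂ) (e : ℂ) (x : G) : gm f e (-x) = gm f e x := by
  by_cases hx : x = 0
  · subst hx
    simp
  · have hx' : -x ≠ 0 := neg_ne_zero.2 hx
    simp only [gm, fs, if_neg hx, if_neg hx', neg_neg, div_inv_eq_mul]
    ring

/-- The diagonal case of the pentagon relation follows from the case `u = 0`. -/
lemma pent_diag {f : G → ℂ} {b : G → G → ℂ} {e : ℂ} (hb : Bichar b) (hf : ∀ x, f x ≠ 0)
    (he : e ≠ 0) (hg : ∀ x y, gm f e (x + y) * gm f e 0 * b x y = gm f e x * gm f e y)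
    (hp : ∀ y u, y ≠ 0 → y - u ≠ 0 → ∑ x, f (x + y) * fs f e x * b x u =
      (e - 1) / f 0 * f y * f (-u) * fs f e (y - u)) (y u : G) (hy : y ≠ 0) :
    ∑ x, f (x + y) * fs f e x * b x u = (e - 1) / f 0 * f y * f (-u) * fs f e (y - u) := by
  by_cases hu : y - u = 0
  swap
  · exact hp y u hy hu
  have hyu : u = y := (sub_eq_zero.1 hu).symm
  subst hyu
  have h0 := hp u 0 hy (by simpa using hy)
  have hb0 : ∀ x, b x 0 = 1 := fun x => by rw [hb.symm, hb.zero]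
  have hgm : ∀ x, gm f e x ≠ 0 := fun x => div_ne_zero (hf _) (fs_ne hf he x)
  have key : ∀ x, f (x + u) * fs f e x * b x u =
      gm f e u / gm f e 0 * (f (-x - u + u) * fs f e (-x - u) * b (-x - u) 0) := by
    intro x
    have h1 := hg x u
    have h2 : gm f e (x + u) = f (x + u) / fs f e (-x - u) := by
      rw [← gm_neg]
      simp only [gm]
      congr 2 <;> abel
    have h3 : gm f e x = f (-x) / fs f e x := rfl
    have h4 : b x u = gm f e x * gm f e u / (gm f e (x + u) * gm f e 0) := by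
      rw [← h1]
      have := hgm (x + u)
      have := hgm 0
      field_simp
    rw [h4, h2, h3, hb0, sub_add_cancel]
    have := hf (x + u)
    have := fs_ne hf he x
    have := fs_ne hf he (-x - u)
    have := hgm 0
    field_simp
  rw [Finset.sum_congr rfl fun x _ => key x, ← Finset.mul_sum]
  have hre : ∑ x, f (-x - u + u) * fs f e (-x - u) * b (-x - u) 0 =
      ∑ x, f (x + u) * fs f e x * b x 0 :=
    ((Equiv.neg G).trans (Equiv.subRight u)).sum_comp fun x => f (x + u) * fs f e x * b x 0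
  rw [hre, h0]
  simp only [gm, fs, if_neg hy, sub_self, sub_zero, neg_zero, if_true]
  have := hf 0
  have := hf u
  field_simp

end Fin

section Model

variable {e : ℝ} {n c : ℕ} [NeZero c] {a d : ZMod c}

omit [NeZero c] in
lemma iadd {m m' : ℤ} {ρ ρ' : ZMod c} (h : InD c a m ρ) (h' : InD c a m' ρ') :
    InD c a (m + m') (ρ + ρ') := by
  unfold InD at *
  push_cast
  rw [h, h']
  ring

omit [NeZero c] in
lemma ineg {m : ℤ} {ρ : ZMod c} (h : InD c a m ρ) : InD c a (-m) (-ρ) := by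
  unfold InD at *
  push_cast
  rw [h]
  ring

omit [NeZero c] in
lemma inD_zero : InD c a 0 0 := by simp [InD]

omit [NeZero c] in
lemma inD_T (h : Hyp e n c a d) (k : ℤ) : InD c a (n * k) (k * (d - 1)) := by
  unfold InD
  push_cast
  have h1 := h.ad
  have h2 := h.tr
  linear_combination (-(k : ZMod c)) * h2 + (k : ZMod c) * h1

omit [NeZero c] in
lemma n_pos (h : Hyp e n c a d) : 0 < n := by
  rcases Nat.eq_zero_or_pos n with h0 | h0
  · have h1 := h.quad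
    have h2 := h.one_lt
    rw [h0] at h1
    simp at h1
    linarith
  · exact h0

lemma sum_per (N : ℕ → ℕ) (p : ℕ) (hp : ∀ m, N (p + m) = N m) (k : ℕ) :
    ∑ m ∈ Finset.range (p * k), N m = k * ∑ m ∈ Finset.range p, N m := by
  induction k with
  | zero => simp
  | succ k ih =>
    rw [show p * (k + 1) = p + p * k by ring, Finset.sum_range_add]
    simp only [hp]
    rw [ih]
    ring

open scoped Classical in
lemma card_D (h : Hyp e n c a d) :
    ∑ m ∈ Finset.range n, (Finset.univ.filter (InD c a (m : ℕ))).card = n := by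
  set N : ℕ → ℕ := fun m => (Finset.univ.filter (InD c a (m : ℕ))).card with hN
  have hc : 0 < c := Nat.pos_of_ne_zero (NeZero.ne c)
  have h1 : ∀ m, N (c + m) = N m := by
    intro m
    simp only [hN]
    congr 1
    ext ρ
    simp [InD]
  have h2 : ∀ m, N (n + m) = N m := by
    intro m
    simp only [hN]
    symm
    refine Finset.card_bij (fun ρ _ => (d - 1) + ρ) ?_ ?_ ?_
    · intro ρ hρ
      have := iadd (inD_T h 1) (Finset.mem_filter.1 hρ).2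
      simpa using this
    · intro ρ _ ρ' _ hh
      exact add_left_cancel hh
    · intro ρ hρ
      refine ⟨ρ - (d - 1), ?_, by ring⟩
      have := iadd (inD_T h (-1)) (Finset.mem_filter.1 hρ).2
      simp only [Finset.mem_filter, Finset.mem_univ, true_and]
      convert this using 1
      · push_cast
        ring
      · push_cast
        ring
  have h3 : ∑ m ∈ Finset.range c, N m = c := by
    simp only [hN, Finset.card_filter]
    rw [Finset.sum_comm]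
    have : ∀ ρ : ZMod c, (∑ m ∈ Finset.range c, if InD c a (m : ℕ) ρ then 1 else 0) = 1 := by
      intro ρ
      rw [Finset.sum_eq_single ((1 - a) * ρ).val]
      · simp [InD]
      · intro m hm hne
        rw [if_neg]
        intro hh
        apply hne
        simp only [InD, Int.cast_natCast] at hh
        rw [← hh, ZMod.val_cast_of_lt (Finset.mem_range.1 hm)]
      · intro hh
        exact absurd (Finset.mem_range.2 (ZMod.val_lt _)) hh
    simp [this]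
  have h4 := sum_per N c h1 n
  have h5 := sum_per N n h2 c
  rw [mul_comm n c, h4, h3, mul_comm n c] at h5
  exact (Nat.eq_of_mul_eq_mul_left hc h5).symm

/-- A parametrisation of a group by the discrete model. -/
structure Mod {G : Type} [AddCommGroup G] (e : ℝ) (n c : ℕ) [NeZero c] (a d : ZMod c)
    (Θ : ℤ → ZMod c → G) (f : G → ℂ) (b : G → G → ℂ) : Prop where
  hyp : Hyp e n c a d
  add : ∀ m ρ m' ρ', InD c a m ρ → InD c a m' ρ' → Θ (m + m') (ρ + ρ') = Θ m ρ + Θ m' ρ'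
  zero : ∀ m ρ, InD c a m ρ → (Θ m ρ = 0 ↔ IsT n c d m ρ)
  surj : ∀ g, ∃ m ρ, InD c a m ρ ∧ Θ m ρ = g
  val : ∀ m ρ, InD c a m ρ → f (Θ m ρ) = Fm e n c d m ρ
  pair : ∀ m ρ m' ρ', InD c a m ρ → InD c a m' ρ' → b (Θ m ρ) (Θ m' ρ') = bm e n c a m ρ m' ρ'

variable {G : Type} [AddCommGroup G] {Θ : ℤ → ZMod c → G} {f : G → ℂ} {b : G → G → ℂ}

lemma Mod.zero' (h : Mod e n c a d Θ f b) : Θ 0 0 = 0 :=
  (h.zero 0 0 inD_zero).2 (by simp [IsT])

lemma Mod.neg (h : Mod e n c a d Θ f b) {m : ℤ} {ρ : ZMod c} (hm : InD c a m ρ) :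
    Θ (-m) (-ρ) = -Θ m ρ := by
  have := h.add m ρ (-m) (-ρ) hm (ineg hm)
  rw [add_neg_cancel, add_neg_cancel, h.zero'] at this
  exact (neg_eq_of_add_eq_zero_right this.symm).symm

lemma Mod.surj' (h : Mod e n c a d Θ f b) (g : G) :
    ∃ m : ℕ, m < n ∧ ∃ ρ, InD c a m ρ ∧ Θ m ρ = g := by
  obtain ⟨m, ρ, hm, rfl⟩ := h.surj g
  have hn : (0 : ℤ) < n := by exact_mod_cast n_pos h.hyp
  obtain ⟨r, hr⟩ := Int.eq_ofNat_of_zero_le (Int.emod_nonneg m hn.ne')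
  have hT := inD_T h.hyp (-(m / n))
  have h0 : Θ (n * (-(m / n))) (((-(m / n) : ℤ) : ZMod c) * (d - 1)) = 0 := by
    rw [h.zero _ _ hT]
    constructor
    · simp
    · rw [Int.mul_ediv_cancel_left _ hn.ne']
  have he : m + n * (-(m / n)) = r := by
    rw [← hr, Int.emod_def]
    ring
  refine ⟨r, ?_, ρ + ((-(m / n) : ℤ) : ZMod c) * (d - 1), ?_, ?_⟩
  · have := Int.emod_lt_of_pos m hn
    omega
  · rw [← he]
    exact iadd hm hT
  · rw [← he, h.add _ _ _ _ hm hT, h0, add_zero]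

lemma Mod.finite (h : Mod e n c a d Θ f b) : Finite G := by
  refine Finite.of_surjective (fun p : Fin n × ZMod c => Θ (p.1 : ℕ) p.2) fun g => ?_
  obtain ⟨m, hm, ρ, _, rfl⟩ := h.surj' g
  exact ⟨(⟨m, hm⟩, ρ), rfl⟩

open scoped Classical in
lemma Mod.sum_eq [Fintype G] (h : Mod e n c a d Θ f b) {M : Type} [AddCommMonoid M] (φ : G → M) :
    ∑ m ∈ Finset.range n, ∑ ρ ∈ Finset.univ.filter (InD c a (m : ℕ)), φ (Θ m ρ) = ∑ g, φ g := by
  rw [Finset.sum_sigma']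
  refine Finset.sum_bij (fun p _ => Θ p.1 p.2) (fun _ _ => Finset.mem_univ _) ?_ ?_ fun _ _ => rfl
  · rintro ⟨m, ρ⟩ hp ⟨m', ρ'⟩ hp' hh
    simp only [Finset.mem_sigma, Finset.mem_range, Finset.mem_filter, Finset.mem_univ,
      true_and] at hp hp' hh
    have h1 := h.add _ _ _ _ hp.2 (ineg hp'.2)
    rw [h.neg hp'.2, hh, add_neg_cancel, h.zero _ _ (iadd hp.2 (ineg hp'.2))] at h1
    obtain ⟨h2, h3⟩ := h1
    have h4 : m = m' := by
      have h5 : (n : ℤ) ∣ (m : ℤ) + -m' := Int.dvd_of_emod_eq_zero h2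
      have h6 : (m : ℤ) + -m' = 0 := Int.eq_zero_of_abs_lt_dvd h5 (by
        rw [abs_lt]
        constructor <;> omega)
      omega
    subst h4
    simp only [add_neg_cancel, Int.zero_ediv, Int.cast_zero, zero_mul] at h3
    rw [add_neg_eq_zero.1 h3]
  · intro g _
    obtain ⟨m, hm, ρ, h1, rfl⟩ := h.surj' g
    exact ⟨⟨m, ρ⟩, by simp [hm, h1], rfl⟩

lemma Mod.card [Fintype G] (h : Mod e n c a d Θ f b) : Fintype.card G = n := by
  have h1 := h.sum_eq fun _ => (1 : ℕ)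
  simp only [Finset.sum_const, smul_eq_mul, mul_one, Finset.card_univ] at h1
  rw [← h1]
  convert card_D h.hyp

lemma Mod.fs_eq [DecidableEq G] (h : Mod e n c a d Θ f b) {m : ℤ} {ρ : ZMod c}
    (hm : InD c a m ρ) : fs f e (Θ m ρ) = Fs e n c d m ρ := by
  unfold fs Fs
  by_cases hT : IsT n c d m ρ
  · rw [if_pos hT, if_pos ((h.zero _ _ hm).2 hT), ← h.zero', h.val _ _ inD_zero]
  · rw [if_neg hT, if_neg fun hh => hT ((h.zero _ _ hm).1 hh), h.val _ _ hm]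

lemma Mod.pent [Fintype G] [DecidableEq G] (h : Mod e n c a d Θ f b) (hM : ModelProp e n c a d)
    {my mu : ℤ} {ρy ρu : ZMod c} (hy : InD c a my ρy) (hu : InD c a mu ρu)
    (hlt : mu % n < my % n) :
    ∑ x, f (x + Θ my ρy) * fs f e x * b x (Θ mu ρu) =
      (e - 1) / f 0 * f (Θ my ρy) * f (-Θ mu ρu) * fs f e (Θ my ρy - Θ mu ρu) := by
  rw [← h.sum_eq, sub_eq_add_neg (Θ my ρy), ← h.neg hu, ← h.add _ _ _ _ hy (ineg hu),
    h.fs_eq (iadd hy (ineg hu)), h.val _ _ hy, h.val _ _ (ineg hu), ← h.zero', h.val _ _ inD_zero,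
    ← sub_eq_add_neg, ← sub_eq_add_neg, ← hM.pent my mu ρy ρu hy hu hlt]
  refine Finset.sum_congr rfl fun m _ => Finset.sum_congr (by congr) fun ρ hρ => ?_
  have hm : InD c a (m : ℕ) ρ := by simpa using hρ
  rw [← h.add _ _ _ _ hm hy, h.val _ _ (iadd hm hy), h.fs_eq hm, h.pair _ _ _ _ hm hu]

lemma Mod.gam [DecidableEq G] (h : Mod e n c a d Θ f b) (hM : ModelProp e n c a d) (x y : G) :
    gm f e (x + y) * gm f e 0 * b x y = gm f e x * gm f e y := by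
  obtain ⟨m, ρ, hm, rfl⟩ := h.surj x
  obtain ⟨m', ρ', hm', rfl⟩ := h.surj y
  have hg : ∀ m ρ, InD c a m ρ → gm f e (Θ m ρ) = Fm e n c d (-m) (-ρ) / Fs e n c d m ρ := by
    intro m ρ hm
    rw [gm, ← h.neg hm, h.val _ _ (ineg hm), h.fs_eq hm]
  have h0 := hg 0 0 inD_zero
  rw [h.zero', neg_zero, neg_zero] at h0
  rw [← h.add _ _ _ _ hm hm', hg _ _ (iadd hm hm'), hg _ _ hm, hg _ _ hm', h0,
    h.pair _ _ _ _ hm hm']
  exact hM.gam m m' ρ ρ' hm hm'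

lemma Mod.cnj (h : Mod e n c a d Θ f b) (hM : ModelProp e n c a d) (x : G) (hx : x ≠ 0) :
    f (-x) * conj (f x) = 1 := by
  obtain ⟨m, ρ, hm, rfl⟩ := h.surj x
  rw [← h.neg hm, h.val _ _ (ineg hm), h.val _ _ hm]
  exact hM.cnj m ρ hm fun hh => hx ((h.zero _ _ hm).2 hh)

end Model

section Lat

variable {K : Type} [Field K] [NumberField K] (σ₁ σ₂ : K →+* ℝ)

/-- The alternating form. -/
def W (x y : K) : ℝ := σ₁ x * σ₂ y - σ₂ x * σ₁ y

/-- Oriented bases. -/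
def OB (Λ : Submodule ℤ K) (Δ : ℝ) (w v : K) : Prop :=
  (∀ y, y ∈ Λ ↔ ∃ i j : ℤ, y = i * w + j * v) ∧ W σ₁ σ₂ w v = Δ

variable {σ₁ σ₂} {Λ : Submodule ℤ K} {Δ : ℝ} {w v ε : K} {n : ℕ}

omit [NumberField K] in
lemma imul_mem (k : ℤ) {y : K} (hy : y ∈ Λ) : (k : K) * y ∈ Λ := by
  simpa [zsmul_eq_mul] using Λ.smul_mem k hy

omit [NumberField K] in
lemma OB.mem₁ (h : OB σ₁ σ₂ Λ Δ w v) : w ∈ Λ := (h.1 w).2 ⟨1, 0, by simp⟩

omit [NumberField K] in
lemma OB.mem₂ (h : OB σ₁ σ₂ Λ Δ w v) : v ∈ Λ := (h.1 v).2 ⟨0, 1, by simp⟩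

omit [NumberField K] in
lemma OB.change (h : OB σ₁ σ₂ Λ Δ w v) (p q r s : ℤ) (hd : p * s - q * r = 1) :
    OB σ₁ σ₂ Λ Δ (p * w + q * v) (r * w + s * v) := by
  have hd' : (p : K) * s - q * r = 1 := by exact_mod_cast congrArg (Int.cast : ℤ → K) hd
  have hd'' : (p : ℝ) * s - q * r = 1 := by exact_mod_cast hd
  constructor
  · intro y
    rw [h.1]
    constructor
    · rintro ⟨i, j, rfl⟩
      refine ⟨i * s - j * r, j * p - i * q, ?_⟩
      push_cast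
      linear_combination (-(i : K) * w - j * v) * hd'
    · rintro ⟨i, j, rfl⟩
      refine ⟨i * p + j * r, i * q + j * s, ?_⟩
      push_cast
      ring
  · rw [← h.2]
    simp only [W, map_add, map_mul, map_intCast]
    linear_combination (σ₁ w * σ₂ v - σ₂ w * σ₁ v) * hd''

omit [NumberField K] in
lemma OB.int (h : OB σ₁ σ₂ Λ Δ w v) (hΔ : 0 < Δ) {x y : K} (hx : x ∈ Λ) (hy : y ∈ Λ) :
    ∃ k : ℤ, W σ₁ σ₂ x y / Δ = k := by
  obtain ⟨i, j, rfl⟩ := (h.1 x).1 hx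
  obtain ⟨i', j', rfl⟩ := (h.1 y).1 hy
  refine ⟨i * j' - j * i', ?_⟩
  rw [div_eq_iff hΔ.ne', ← h.2]
  simp only [W, map_add, map_mul, map_intCast]
  push_cast
  ring

lemma OB.unimod (h : OB σ₁ σ₂ Λ Δ w v) (hΔ : 0 < Δ) (hL : IsLat Λ) {z : K}
    (h1 : ∃ k : ℤ, W σ₁ σ₂ z v / Δ = k) (h2 : ∃ k : ℤ, W σ₁ σ₂ z w / Δ = k) : z ∈ Λ := by
  obtain ⟨N, hN, hz⟩ := hL.2 z
  obtain ⟨i, j, hij⟩ := (h.1 _).1 hz
  obtain ⟨k, hk⟩ := h1
  obtain ⟨l, hl⟩ := h2
  rw [div_eq_iff hΔ.ne'] at hk hl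
  have e1 := congrArg σ₁ hij
  have e2 := congrArg σ₂ hij
  have e3 := h.2
  simp only [W, map_add, map_mul, map_intCast, map_natCast] at e1 e2 e3 hk hl
  have hi : (i : ℝ) = N * k := by
    apply mul_right_cancel₀ hΔ.ne'
    linear_combination (-σ₂ v) * e1 + σ₁ v * e2 - i * e3 + N * hk
  have hj : (j : ℝ) = -(N * l) := by
    apply mul_right_cancel₀ hΔ.ne'
    linear_combination σ₂ w * e1 - σ₁ w * e2 - j * e3 - N * hl
  have hi' : i = N * k := by exact_mod_cast hi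
  have hj' : j = -(N * l) := by exact_mod_cast hj
  refine (h.1 z).2 ⟨k, -l, ?_⟩
  have hN' : (N : K) ≠ 0 := by exact_mod_cast hN.ne'
  apply mul_left_cancel₀ hN'
  rw [hij, hi', hj']
  push_cast
  ring

omit [NumberField K] in
lemma lev_quad (h : Lev σ₁ σ₂ ε n) : (σ₁ ε - 1) ^ 2 = n * σ₁ ε := by
  simpa using congrArg σ₁ h.quad

omit [NumberField K] in
lemma lev_tr (h : Lev σ₁ σ₂ ε n) : σ₁ ε + σ₂ ε = n + 2 := by
  have h1 := lev_quad h
  have h2 := h.norm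
  linear_combination σ₂ ε * h1 - (σ₁ ε - 2 - n) * h2

omit [NumberField K] in
lemma lev_two (h : Lev σ₁ σ₂ ε n) : 0 < σ₂ ε ∧ σ₂ ε < 1 := by
  have h1 := h.one_lt
  have h2 := h.norm
  constructor
  · by_contra hh
    nlinarith
  · by_contra hh
    nlinarith

omit [NumberField K] in
lemma lev_pos (h : Lev σ₁ σ₂ ε n) : 0 < n := by
  rcases Nat.eq_zero_or_pos n with h0 | h0
  · have h1 := lev_quad h
    have h2 := h.one_lt
    rw [h0] at h1
    simp at h1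
    linarith
  · exact h0

omit [NumberField K] in
lemma lev_ne (h : Lev σ₁ σ₂ ε n) : ε - 1 ≠ 0 := by
  intro hh
  have h1 := h.one_lt
  rw [sub_eq_zero.1 hh] at h1
  simp at h1

omit [NumberField K] in
lemma tor_of_mem (hS : SL ε Λ) {x : K} (hx : x ∈ Λ) : Tor ε Λ x := by
  have := Λ.sub_mem (hS.2 x hx) hx
  unfold Tor
  convert this using 1
  ring

omit [NumberField K] in
lemma tor_mul (h : Lev σ₁ σ₂ ε n) (hS : SL ε Λ) {x : K} (hx : Tor ε Λ x) : (n : K) * x ∈ Λ := by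
  have h1 : (ε - 1) * ((ε - 1) * x) ∈ Λ := tor_of_mem hS hx
  have h2 := Λ.sub_mem (imul_mem ((n : ℤ) + 2) h1) (hS.2 _ h1)
  convert h2 using 1
  have h3 := h.quad
  push_cast
  linear_combination (-(n + 2 - ε) * x + n * x) * h3

omit [NumberField K] in
lemma tor_add {x y : K} (hx : Tor ε Λ x) (hy : Tor ε Λ y) : Tor ε Λ (x + y) := by
  unfold Tor at *
  rw [mul_add]
  exact Λ.add_mem hx hy

omit [NumberField K] in
lemma tor_neg {x : K} (hx : Tor ε Λ x) : Tor ε Λ (-x) := by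
  unfold Tor at *
  rw [mul_neg]
  exact Λ.neg_mem hx

lemma exists_OB (hB : ∃ b₁ b₂ : K, Ind b₁ b₂ ∧ Λ = Submodule.span ℤ {b₁, b₂})
    (h : Lev σ₁ σ₂ ε n) (hS : SL ε Λ) : ∃ Δ w v, 0 < Δ ∧ OB σ₁ σ₂ Λ Δ w v := by
  obtain ⟨b₁, b₂, -, hb⟩ := hB
  have h1 : ∀ y, y ∈ Λ ↔ ∃ i j : ℤ, y = i * b₁ + j * b₂ := by
    intro y
    rw [hb, Submodule.mem_span_pair]
    simp only [zsmul_eq_mul, eq_comm]
  have h2 : ∀ y, y ∈ Λ ↔ ∃ i j : ℤ, y = i * b₂ + j * b₁ := by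
    intro y
    rw [h1]
    constructor <;> rintro ⟨i, j, rfl⟩ <;> exact ⟨j, i, add_comm _ _⟩
  rcases lt_trichotomy 0 (W σ₁ σ₂ b₁ b₂) with h3 | h3 | h3
  · exact ⟨_, b₁, b₂, h3, h1, rfl⟩
  · exfalso
    obtain ⟨N, hN, hz⟩ := hS.1.2 1
    obtain ⟨i, j, e1⟩ := (h1 _).1 hz
    obtain ⟨i', j', e2⟩ := (h1 _).1 (hS.2 _ hz)
    have a1 := congrArg σ₁ e1
    have a2 := congrArg σ₂ e1
    have a3 := congrArg σ₁ e2
    have a4 := congrArg σ₂ e2
    simp only [W, map_add, map_mul, map_intCast, map_natCast, mul_one] at a1 a2 a3 a4 h3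
    have h4 : (N : ℝ) * (σ₂ ε * N) - N * (σ₁ ε * N) = 0 := by
      nth_rewrite 1 [a1]
      nth_rewrite 2 [a2]
      rw [a3, a4]
      linear_combination (-(i * j' - j * i' : ℝ)) * h3
    have h5 : (0 : ℝ) < N := by exact_mod_cast hN
    have h6 := h.one_lt
    have h7 := (lev_two h).2
    have h8 : 0 < (N : ℝ) * N * (σ₁ ε - σ₂ ε) := by
      have : 0 < σ₁ ε - σ₂ ε := by linarith
      positivity
    linarith
  · refine ⟨-W σ₁ σ₂ b₁ b₂, b₂, b₁, by linarith, h2, ?_⟩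
    simp only [W]
    ring

/-- Moving a basis vector into the positive cone without changing it modulo `n`. -/
lemma OB.pos (h : OB σ₁ σ₂ Λ Δ w v) (hn : 0 < n)
    (hs : ∃ y, y - w / 2 ∈ Λ ∧ 0 < 1 * σ₁ y ∧ 0 < 1 * σ₂ y) :
    ∃ w' v' l, OB σ₁ σ₂ Λ Δ w' v' ∧ 0 < σ₁ v' ∧ 0 < σ₂ v' ∧ l ∈ Λ ∧ v' = v + n * l := by
  obtain ⟨y, hy, y1, y2⟩ := hs
  rw [one_mul] at y1 y2
  obtain ⟨i, j, hij⟩ := (h.1 _).1 hy
  obtain ⟨k, hk⟩ := exists_nat_gt (max (-σ₁ v / σ₁ y) (-σ₂ v / σ₂ y))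
  have k1 : -σ₁ v < k * σ₁ y := (div_lt_iff₀ y1).1 (lt_of_le_of_lt (le_max_left _ _) hk)
  have k2 : -σ₂ v < k * σ₂ y := (div_lt_iff₀ y2).1 (lt_of_le_of_lt (le_max_right _ _) hk)
  set β : ℤ := 2 * i + 1 with hβ
  set N : ℤ := n * β ^ 2 * k with hN
  have hco : IsCoprime (1 + N * (2 * j)) (N * β) := by
    have c1 : IsCoprime (1 + N * (2 * j)) N := ⟨1, -(2 * j), by ring⟩
    have c2 : IsCoprime (1 + N * (2 * j)) β := ⟨1, -(n * β * k * (2 * j)), by rw [hN]; ring⟩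
    exact c1.mul_right c2
  obtain ⟨p, q, hpq⟩ := hco
  have hy' : y = w / 2 + (i * w + j * v) := by rw [← hij]; ring
  have hv : ((N * β : ℤ) : K) * w + ((1 + N * (2 * j) : ℤ) : K) * v = v + N * (2 * y) := by
    rw [hy', hβ]
    push_cast
    ring
  have hNk : (k : ℝ) ≤ N := by
    have b1 : (1 : ℤ) ≤ β ^ 2 := by
      have : β ≠ 0 := by omega
      have : 0 < β ^ 2 := by positivity
      linarith
    have b2 : (1 : ℤ) ≤ n := by exact_mod_cast hn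
    have b3 : (0 : ℤ) ≤ k := Int.natCast_nonneg k
    have b4 : (k : ℤ) ≤ N := by
      rw [hN]
      have : 1 ≤ n * β ^ 2 := by nlinarith
      nlinarith
    exact_mod_cast b4
  have hk0 : (0 : ℝ) ≤ k := Nat.cast_nonneg k
  refine ⟨_, _, ((β ^ 2 * k : ℤ) : K) * (β * w + ((2 * j : ℤ) : K) * v),
    h.change p (-q) (N * β) (1 + N * (2 * j)) (by linear_combination hpq), ?_, ?_, ?_, ?_⟩
  · rw [hv]
    simp only [map_add, map_mul, map_intCast, map_ofNat]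
    nlinarith
  · rw [hv]
    simp only [map_add, map_mul, map_intCast, map_ofNat]
    nlinarith
  · exact imul_mem _ ((h.1 _).2 ⟨β, 2 * j, rfl⟩)
  · rw [hN]
    push_cast
    ring

lemma fract_lt {A B : ℝ} (hA : ¬∃ k : ℤ, A = k) (hB : ¬∃ k : ℤ, A - B = k) :
    Int.fract B < Int.fract A ∨ Int.fract (-B) < Int.fract (-A) := by
  rcases lt_trichotomy (Int.fract B) (Int.fract A) with h | h | h
  · exact Or.inl h
  · exact absurd (Int.fract_eq_fract.1 h.symm) hB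
  · right
    have h1 : Int.fract A ≠ 0 := fun hh => hA ⟨⌊A⌋, by
      have := Int.floor_add_fract A
      linarith⟩
    have h2 : Int.fract B ≠ 0 := (lt_of_le_of_lt (Int.fract_nonneg A) h).ne'
    rw [Int.fract_neg h1, Int.fract_neg h2]
    linarith

/-- A basis adapted to a pair of cosets. -/
lemma OB.adapt (h : OB σ₁ σ₂ Λ Δ w v) (hΔ : 0 < Δ) (hL : IsLat Λ) {y u : K} (hy : y ∉ Λ)
    (hu : y - u ∉ Λ) : ∃ w' v', OB σ₁ σ₂ Λ Δ w' v' ∧
      Int.fract (W σ₁ σ₂ u v' / Δ) < Int.fract (W σ₁ σ₂ y v' / Δ) := by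
  have step : ∀ w' v', OB σ₁ σ₂ Λ Δ w' v' → (¬∃ k : ℤ, W σ₁ σ₂ y v' / Δ = k) →
      (¬∃ k : ℤ, W σ₁ σ₂ (y - u) v' / Δ = k) → ∃ w' v', OB σ₁ σ₂ Λ Δ w' v' ∧
      Int.fract (W σ₁ σ₂ u v' / Δ) < Int.fract (W σ₁ σ₂ y v' / Δ) := by
    intro w' v' h' h1 h2
    have h3 : W σ₁ σ₂ (y - u) v' / Δ = W σ₁ σ₂ y v' / Δ - W σ₁ σ₂ u v' / Δ := by
      simp only [W, map_sub]
      ring
    rw [h3] at h2
    rcases fract_lt h1 h2 with h4 | h4
    · exact ⟨w', v', h', h4⟩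
    · refine ⟨_, _, h'.change (-1) 0 0 (-1) (by norm_num), ?_⟩
      convert h4 using 2 <;> simp only [W, map_add, map_mul, map_intCast] <;> push_cast <;> ring
  have b1 : OB σ₁ σ₂ Λ Δ (-v) w := by simpa using h.change 0 (-1) 1 0 (by norm_num)
  have b2 : OB σ₁ σ₂ Λ Δ w (w + v) := by simpa using h.change 1 0 1 1 (by norm_num)
  have s : ∀ z, W σ₁ σ₂ z (w + v) / Δ = W σ₁ σ₂ z w / Δ + W σ₁ σ₂ z v / Δ := by
    intro z
    simp only [W, map_add]
    ring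
  have t1 : ∀ z, z ∉ Λ → (∃ k : ℤ, W σ₁ σ₂ z v / Δ = k) → (¬∃ k : ℤ, W σ₁ σ₂ z w / Δ = k) ∧
      ¬∃ k : ℤ, W σ₁ σ₂ z (w + v) / Δ = k := by
    intro z hz h1
    refine ⟨fun h2 => hz (h.unimod hΔ hL h1 h2), fun ⟨l, hl⟩ => hz (h.unimod hΔ hL h1 ?_)⟩
    obtain ⟨k, hk⟩ := h1
    refine ⟨l - k, ?_⟩
    rw [s] at hl
    push_cast
    linarith
  have t2 : ∀ z, z ∉ Λ → (∃ k : ℤ, W σ₁ σ₂ z w / Δ = k) →
      ¬∃ k : ℤ, W σ₁ σ₂ z (w + v) / Δ = k := by
    intro z hz h1 ⟨l, hl⟩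
    refine hz (h.unimod hΔ hL ?_ h1)
    obtain ⟨k, hk⟩ := h1
    refine ⟨l - k, ?_⟩
    rw [s] at hl
    push_cast
    linarith
  by_cases c1 : ∃ k : ℤ, W σ₁ σ₂ y v / Δ = k
  · by_cases c2 : ∃ k : ℤ, W σ₁ σ₂ (y - u) w / Δ = k
    · exact step _ _ b2 (t1 y hy c1).2 (t2 _ hu c2)
    · exact step _ _ b1 (t1 y hy c1).1 c2
  · by_cases c2 : ∃ k : ℤ, W σ₁ σ₂ (y - u) v / Δ = k
    · by_cases c3 : ∃ k : ℤ, W σ₁ σ₂ y w / Δ = k
      · exact step _ _ b2 (t2 y hy c3) (t1 _ hu c2).2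
      · exact step _ _ b1 c3 (t1 _ hu c2).1
    · exact step _ _ h c1 c2

end Lat

section Chart

variable {K : Type} [Field K] [NumberField K] {σ₁ σ₂ : K →+* ℝ} {Λ : Submodule ℤ K} {Δ : ℝ}
  {w v ε : K} {n c : ℕ} {a b d : ℤ}

lemma hasLog_equiv {ι κ : Type} (e : ι ≃ κ) (lam : κ → ℝ) (z : ℂ)
    (h : HasLog (fun i => lam (e i)) z) : HasLog lam z := by
  obtain ⟨η₀, g, h1, h2, h3⟩ := h
  exact ⟨η₀, g, h1, fun s s1 s2 s3 => e.hasSum_iff.1 (h2 s s1 s2 s3), h3⟩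

/-- A chart of a lattice. -/
structure Ch (σ₁ σ₂ : K →+* ℝ) (ε : K) (n : ℕ) (Λ : Submodule ℤ K) (Δ : ℝ) (w v : K) (c : ℕ)
    (a b d : ℤ) : Prop where
  lev : Lev σ₁ σ₂ ε n
  sl : SL ε Λ
  ob : OB σ₁ σ₂ Λ Δ w v
  pos : 0 < Δ
  v1 : 0 < σ₁ v
  v2 : 0 < σ₂ v
  ev : ε * v = c * w + d * v
  cpos : 0 < c
  det : a * d - b * c = 1
  tr : a + d = n + 2
  cd : c * Δ = σ₁ v * σ₂ v * (σ₁ ε - σ₂ ε)

omit [NumberField K] in
lemma exists_Ch (lev : Lev σ₁ σ₂ ε n) (sl : SL ε Λ) (ob : OB σ₁ σ₂ Λ Δ w v) (pos : 0 < Δ)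
    (v1 : 0 < σ₁ v) (v2 : 0 < σ₂ v) : ∃ c a b d, Ch σ₁ σ₂ ε n Λ Δ w v c a b d := by
  obtain ⟨c, d, hv⟩ := (ob.1 _).1 (sl.2 v ob.mem₂)
  obtain ⟨a, b, hw⟩ := (ob.1 _).1 (sl.2 w ob.mem₁)
  have a1 := congrArg σ₁ hv
  have a2 := congrArg σ₂ hv
  have a3 := congrArg σ₁ hw
  have a4 := congrArg σ₂ hw
  have a5 := ob.2
  have a6 := lev.norm
  have a7 := lev_tr lev
  simp only [W, map_add, map_mul, map_intCast] at a1 a2 a3 a4 a5
  have cd : c * Δ = σ₁ v * σ₂ v * (σ₁ ε - σ₂ ε) := by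
    linear_combination (-σ₂ v) * a1 + σ₁ v * a2 - c * a5
  have hc : (0 : ℝ) < c := by
    have h1 : 0 < σ₁ ε - σ₂ ε := by linarith [lev.one_lt, (lev_two lev).2]
    have h2 : 0 < c * Δ := by
      rw [cd]
      positivity
    exact (mul_pos_iff_of_pos_right pos).1 h2
  have hc' : 0 < c := by exact_mod_cast hc
  obtain ⟨c, rfl⟩ := Int.eq_ofNat_of_zero_le hc'.le
  have det : ((a : ℝ) * d - b * c) * Δ = 1 * Δ := by
    have : (σ₁ ε * σ₁ w) * (σ₂ ε * σ₂ v) - (σ₂ ε * σ₂ w) * (σ₁ ε * σ₁ v) = Δ := by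
      linear_combination (σ₁ w * σ₂ v - σ₂ w * σ₁ v) * a6 + a5
    rw [a1, a2, a3, a4] at this
    push_cast at this
    linear_combination this - ((a : ℝ) * d - b * c) * a5
  have tr : ((a : ℝ) + d) * Δ = (n + 2) * Δ := by
    have : (σ₁ ε * σ₁ w) * σ₂ v - (σ₂ ε * σ₂ w) * σ₁ v + σ₁ w * (σ₂ ε * σ₂ v) -
        σ₂ w * (σ₁ ε * σ₁ v) = (n + 2) * Δ := by
      linear_combination (σ₁ w * σ₂ v - σ₂ w * σ₁ v) * a7 + (n + 2) * a5
    rw [a1, a2, a3, a4] at this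
    linear_combination this - ((a : ℝ) + d) * a5
  refine ⟨c, a, b, d, lev, sl, ob, pos, v1, v2, by simpa using hv, by exact_mod_cast hc', ?_, ?_,
    by simpa using cd⟩
  · exact_mod_cast mul_right_cancel₀ pos.ne' det
  · exact_mod_cast mul_right_cancel₀ pos.ne' tr

/-- The parametrisation of cosets. -/
def th (ε v : K) (n c : ℕ) (m r : ℤ) : K := ((ε - 1) * m / n - r) * (v / c)

omit [NumberField K] in
lemma Ch.ad (h : Ch σ₁ σ₂ ε n Λ Δ w v c a b d) : (a : ZMod c) * d = 1 := by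
  have := congrArg (Int.cast : ℤ → ZMod c) h.det
  simpa using this

omit [NumberField K] in
lemma Ch.hyp (h : Ch σ₁ σ₂ ε n Λ Δ w v c a b d) (hi : Irrational (σ₁ ε)) :
    Hyp (σ₁ ε) n c a d := by
  refine ⟨h.lev.one_lt, lev_quad h.lev, hi, h.ad, ?_⟩
  have := congrArg (Int.cast : ℤ → ZMod c) h.tr
  simpa using this

lemma Ch.mem (h : Ch σ₁ σ₂ ε n Λ Δ w v c a b d) (i j : ℤ) :
    (i + j * ε) * (v / c) ∈ Λ ↔ (i : ZMod c) + d * j = 0 := by
  have hc : (c : K) ≠ 0 := by exact_mod_cast h.cpos.ne'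
  have hc' : (c : ℝ) ≠ 0 := by exact_mod_cast h.cpos.ne'
  have e : (i + j * ε) * (v / c) = j * w + (i + d * j) / c * v := by
    field_simp
    linear_combination j * h.ev
  have z : (i : ZMod c) + d * j = 0 ↔ (c : ℤ) ∣ i + d * j := by
    rw [← ZMod.intCast_zmod_eq_zero_iff_dvd]
    push_cast
    rfl
  rw [e, z, h.ob.1]
  constructor
  · rintro ⟨p, q, hpq⟩
    have a1 := congrArg σ₁ hpq
    have a2 := congrArg σ₂ hpq
    have a3 := h.ob.2
    simp only [W, map_add, map_mul, map_intCast, map_div₀, map_natCast] at a1 a2 a3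
    have a4 : ((i : ℝ) + d * j) / c * Δ = q * Δ := by
      linear_combination σ₁ w * a2 - σ₂ w * a1 - (((i : ℝ) + d * j) / c - q) * a3
    have a5 := mul_right_cancel₀ h.pos.ne' a4
    rw [div_eq_iff hc'] at a5
    exact ⟨q, by exact_mod_cast a5.trans (mul_comm _ _)⟩
  · rintro ⟨q, hq⟩
    refine ⟨j, q, ?_⟩
    have : (i : K) + d * j = c * q := by exact_mod_cast congrArg (Int.cast : ℤ → K) hq
    rw [this]
    field_simp

lemma Ch.form (h : Ch σ₁ σ₂ ε n Λ Δ w v c a b d) {y : K} (hy : y ∈ Λ) :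
    ∃ i j : ℤ, (i : ZMod c) + d * j = 0 ∧ y = (i + j * ε) * (v / c) := by
  have hc : (c : K) ≠ 0 := by exact_mod_cast h.cpos.ne'
  obtain ⟨p, q, rfl⟩ := (h.ob.1 y).1 hy
  refine ⟨q * c - p * d, p, ?_, ?_⟩
  · push_cast
    simp only [CharP.cast_eq_zero]
    ring
  · push_cast
    field_simp
    linear_combination (-p) * h.ev

lemma Ch.eps (h : Ch σ₁ σ₂ ε n Λ Δ w v c a b d) (m r : ℤ) :
    (ε - 1) * th ε v n c m r = ((r : ℤ) + ((m - r : ℤ) : K) * ε) * (v / c) := by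
  have hn : (n : K) ≠ 0 := by exact_mod_cast (lev_pos h.lev).ne'
  have h1 : (ε - 1) * ((ε - 1) * m / n) = m * ε := by
    field_simp
    linear_combination m * h.lev.quad
  unfold th
  push_cast
  linear_combination (v / c) * h1

lemma Ch.tor (h : Ch σ₁ σ₂ ε n Λ Δ w v c a b d) (m r : ℤ) :
    Tor ε Λ (th ε v n c m r) ↔ InD c (a : ZMod c) m r := by
  unfold Tor InD
  rw [h.eps, h.mem]
  have := h.ad
  push_cast
  constructor
  · intro hh
    linear_combination a * hh - ((m : ZMod c) - r) * this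
  · intro hh
    linear_combination d * hh - r * this

lemma Ch.W_th (h : Ch σ₁ σ₂ ε n Λ Δ w v c a b d) (m r i j : ℤ) :
    W σ₁ σ₂ (th ε v n c m r) ((i + j * ε) * (v / c)) / Δ = (m / n * i + (m / n + r) * j) / c := by
  have hc : (c : ℝ) ≠ 0 := by exact_mod_cast h.cpos.ne'
  have hn : (n : ℝ) ≠ 0 := by exact_mod_cast (lev_pos h.lev).ne'
  have hΔ := h.pos.ne'
  simp only [W, th, map_add, map_mul, map_sub, map_div₀, map_intCast, map_natCast, map_one]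
  field_simp
  linear_combination (-(m * i + (m + n * r) * j : ℝ)) * h.cd

lemma Ch.om (h : Ch σ₁ σ₂ ε n Λ Δ w v c a b d) (m r : ℤ) :
    W σ₁ σ₂ (th ε v n c m r) v / Δ = m / n := by
  have hc : (c : K) ≠ 0 := by exact_mod_cast h.cpos.ne'
  have hc' : (c : ℝ) ≠ 0 := by exact_mod_cast h.cpos.ne'
  have h1 := h.W_th m r c 0
  have h2 : (((c : ℤ) : K) + ((0 : ℤ) : K) * ε) * (v / c) = v := by
    push_cast
    field_simp
    ring
  rw [h2] at h1
  rw [h1]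
  push_cast
  field_simp
  ring

lemma Ch.mem_th (h : Ch σ₁ σ₂ ε n Λ Δ w v c a b d) (m r : ℤ) :
    th ε v n c m r ∈ Λ ↔ IsT n c (d : ZMod c) m r := by
  have hn : (n : K) ≠ 0 := by exact_mod_cast (lev_pos h.lev).ne'
  have hn' : (n : ℝ) ≠ 0 := by exact_mod_cast (lev_pos h.lev).ne'
  have hn'' : (n : ℤ) ≠ 0 := by exact_mod_cast (lev_pos h.lev).ne'
  have key : ∀ k : ℤ, th ε v n c (n * k) r ∈ Λ ↔ IsT n c (d : ZMod c) (n * k) r := by
    intro k
    have e : th ε v n c (n * k) r = (((-k - r : ℤ) : K) + k * ε) * (v / c) := by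
      unfold th
      push_cast
      congr 1
      field_simp
      ring
    rw [e, h.mem]
    unfold IsT
    rw [Int.mul_emod_right, Int.mul_ediv_cancel_left _ hn'']
    push_cast
    constructor
    · intro hh
      exact ⟨trivial, by linear_combination -hh⟩
    · intro hh
      linear_combination -hh.2
  constructor
  · intro hh
    obtain ⟨k, hk⟩ := h.ob.int h.pos hh h.ob.mem₂
    rw [h.om, div_eq_iff hn'] at hk
    have : m = n * k := by exact_mod_cast hk.trans (mul_comm _ _)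
    subst this
    exact (key k).1 hh
  · intro hh
    obtain ⟨k, rfl⟩ := Int.dvd_of_emod_eq_zero hh.1
    exact (key k).2 hh

lemma Ch.cong (h : Ch σ₁ σ₂ ε n Λ Δ w v c a b d) (m m' r r' s : ℤ)
    (hs : (s : ZMod c) = r + r') :
    th ε v n c (m + m') s - (th ε v n c m r + th ε v n c m' r') ∈ Λ := by
  have := (h.mem (r + r' - s) 0).2 (by push_cast; rw [hs]; ring)
  convert this using 1
  unfold th
  push_cast
  ring

lemma Ch.surj (h : Ch σ₁ σ₂ ε n Λ Δ w v c a b d) {x : K} (hx : Tor ε Λ x) :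
    ∃ m r : ℤ, x = th ε v n c m r := by
  obtain ⟨i, j, -, hij⟩ := h.form hx
  refine ⟨i + j, i, mul_left_cancel₀ (lev_ne h.lev) ?_⟩
  rw [h.eps, hij]
  push_cast
  ring

lemma Ch.pair [NeZero c] (h : Ch σ₁ σ₂ ε n Λ Δ w v c a b d) (m r m' r' : ℤ)
    (hm : InD c (a : ZMod c) m' r') :
    ee ((W σ₁ σ₂ (th ε v n c m r) ((ε - 1) * th ε v n c m' r') / Δ : ℝ) : ℂ) =
      bm (σ₁ ε) n c a m r m' r' := by
  rw [h.eps, h.W_th]
  have h1 : -((a : ZMod c) * r * r') = ((r * (m' - r') : ℤ) : ZMod c) := by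
    unfold InD at hm
    push_cast
    rw [hm]
    ring
  unfold bm BB
  rw [h1, ZMod.stdAddChar_coe]
  unfold ee xi
  rw [← Complex.exp_add]
  congr 1
  have hc : (c : ℂ) ≠ 0 := by exact_mod_cast h.cpos.ne'
  have hn : (n : ℂ) ≠ 0 := by exact_mod_cast (lev_pos h.lev).ne'
  have he : ((σ₁ ε : ℝ) : ℂ) ≠ 0 := by
    have := h.lev.one_lt
    exact_mod_cast (by linarith : σ₁ ε ≠ 0)
  have hq : (((σ₁ ε : ℝ) : ℂ) - 1) ^ 2 = n * (σ₁ ε : ℝ) := by exact_mod_cast lev_quad h.lev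
  push_cast
  field_simp
  linear_combination (-(m * m' : ℂ)) * hq

lemma Ch.ell [NeZero c] (h : Ch σ₁ σ₂ ε n Λ Δ w v c a b d) (hI : Ind 1 ε) (hE : StmtEll K)
    (hP : PhiProp (σ₁ ε) c (a : ZMod c) d) (m r : ℤ) :
    cexp (-ell σ₁ (cset Λ (th ε v n c m r) ∩ cone v (ε * v))) = Fm (σ₁ ε) n c d m r := by
  have hc : (c : K) ≠ 0 := by exact_mod_cast h.cpos.ne'
  have hn : (n : K) ≠ 0 := by exact_mod_cast (lev_pos h.lev).ne'
  have hn1 : (0 : ℝ) < n := by exact_mod_cast lev_pos h.lev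
  have hn2 : (0 : ℤ) < n := by exact_mod_cast lev_pos h.lev
  have hn3 : (0 : ℚ) < n := by exact_mod_cast lev_pos h.lev
  have hc1 : (0 : ℝ) < c := by exact_mod_cast h.cpos
  have hc3 : (0 : ℚ) < c := by exact_mod_cast h.cpos
  have hv : v ≠ 0 := fun hh => by simpa [hh] using h.v1
  have he := h.lev.one_lt
  set q : ℤ := m / n with hq
  set t : ℤ := m % n with ht
  have t0 : 0 ≤ t := Int.emod_nonneg m hn2.ne'
  have t1 : t < n := Int.emod_lt_of_pos m hn2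
  have hm : m = n * q + t := (Int.mul_ediv_add_emod m n).symm
  have s0 : (0 : ℚ) ≤ t / n := div_nonneg (by exact_mod_cast t0) hn3.le
  have s1 : (t : ℚ) / n < 1 := (div_lt_one hn3).2 (by exact_mod_cast t1)
  have u0 : (0 : ℝ) ≤ t / n := by exact_mod_cast s0
  have u1 : (t : ℝ) / n < 1 := by exact_mod_cast s1
  set ξ : ℝ := xi (σ₁ ε) n t + 1 with hξ
  have hξ' : ξ = (σ₁ ε - 1) * (t / n) + 1 := by
    rw [hξ, xi]
    ring
  set ρ : ZMod c := (r : ZMod c) - (q : ZMod c) * (d - 1) + 1 with hρ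
  have hlog := hP.log ξ ρ (by rw [hξ']; nlinarith) (by rw [hξ']; nlinarith)
  set S : Set K := cset Λ (th ε v n c m r) ∩ cone v (ε * v) with hS
  set S' : Set K := {p | v / c * p ∈ S} with hS'
  set pt : ℕ × ℕ → K := fun p => (ε - 1) * t / n + 1 + p.1 + p.2 * ε with hpt
  have hdiff : ∀ p : ℕ × ℕ, v / c * pt p - th ε v n c m r =
      (((1 + p.1 + q + r : ℤ) : K) + ((p.2 - q : ℤ) : K) * ε) * (v / c) := by
    intro p
    rw [hpt, hm]
    unfold th
    push_cast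
    field_simp
    ring
  have hmem : ∀ p : ℕ × ℕ, ρ + p.1 + d * p.2 = 0 → pt p ∈ S' := by
    intro p hp
    constructor
    · show v / c * pt p - th ε v n c m r ∈ Λ
      rw [hdiff, h.mem]
      push_cast
      linear_combination hp
    · refine ⟨(1 - t / n + p.1) / c, (t / n + p.2) / c, ?_, ?_, ?_⟩
      · have : (0 : ℚ) ≤ p.1 := Nat.cast_nonneg _
        exact div_pos (by linarith) hc3
      · have : (0 : ℚ) ≤ p.2 := Nat.cast_nonneg _
        exact div_nonneg (by linarith) hc3.le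
      · rw [hpt]
        push_cast
        field_simp
        ring
  have hbij : Function.Bijective fun p : {p : ℕ × ℕ // ρ + p.1 + d * p.2 = 0} =>
      (⟨pt p.1, hmem p.1 p.2⟩ : S') := by
    constructor
    · rintro ⟨⟨i, j⟩, _⟩ ⟨⟨i', j'⟩, _⟩ hh
      have h1 : pt (i, j) = pt (i', j') := congrArg Subtype.val hh
      have h2 := hI (i - i') (j - j') (by
        simp only [hpt] at h1
        push_cast
        linear_combination h1)
      have h3 : i = i' := by exact_mod_cast sub_eq_zero.1 h2.1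
      have h4 : j = j' := by exact_mod_cast sub_eq_zero.1 h2.2
      subst h3 h4
      rfl
    · rintro ⟨y, hy, i, j, hi, hj, hij⟩
      obtain ⟨I, J, hIJ, e⟩ := h.form (y := v / c * y - th ε v n c m r) hy
      have e1 : y = (ε - 1) * m / n - r + (I + J * ε) := by
        apply mul_left_cancel₀ (div_ne_zero hv hc)
        unfold th at e
        linear_combination e
      have e2 : y = c * i + c * j * ε := by
        apply mul_left_cancel₀ (div_ne_zero hv hc)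
        rw [hij]
        field_simp
      have h2 := hI (c * i - (I - q - r - t / n)) (c * j - (q + J + t / n)) (by
        rw [hm] at e1
        push_cast at e1 ⊢
        have e3 : (ε - 1) * ((n : K) * q + t) / n = (ε - 1) * (q + t / n) := by field_simp
        rw [e3] at e1
        linear_combination e1 - e2)
      have b1 : (0 : ℤ) < I - q - r := by
        have : (0 : ℚ) < I - q - r := by
          have := mul_pos hc3 hi
          linarith [h2.1]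
        exact_mod_cast this
      have b2 : (-1 : ℤ) < q + J := by
        have : (-1 : ℚ) < q + J := by
          have := mul_nonneg hc3.le hj
          linarith [h2.2]
        exact_mod_cast this
      obtain ⟨i', hi'⟩ := Int.eq_ofNat_of_zero_le (show 0 ≤ I - q - r - 1 by omega)
      obtain ⟨j', hj'⟩ := Int.eq_ofNat_of_zero_le (show 0 ≤ q + J by omega)
      have c1 : I = i' + q + r + 1 := by omega
      have c2 : J = j' - q := by omega
      refine ⟨⟨(i', j'), ?_⟩, Subtype.ext ?_⟩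
      · rw [c1, c2] at hIJ
        push_cast at hIJ
        linear_combination hIJ
      · show pt (i', j') = y
        rw [e1, hpt, c1, c2, hm]
        push_cast
        field_simp
        ring
  have hlog' : HasLog (fun p : S' => σ₁ p) (lineInt (Gen (σ₁ ε) c d ξ ρ) (π / (c * σ₁ ε))) := by
    refine hasLog_equiv (Equiv.ofBijective _ hbij) _ _ ?_
    convert hlog using 2 with p
    simp only [Equiv.ofBijective_apply, hpt, map_add, map_mul, map_div₀, map_sub, map_one,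
      map_intCast, map_natCast, hξ, xi]
  have h1 := hE.scale σ₁ σ₁ (v / c) (σ₁ v / c) S S' (div_ne_zero hv hc) (div_pos h.v1 hc1)
    (fun p => by simp) (fun p => Iff.rfl) ⟨_, hlog'⟩
  rw [h1, hE.link _ _ _ hlog']
  rfl

end Chart

section Main

variable {K : Type} [Field K] [NumberField K] {σ₁ σ₂ : K →+* ℝ} {Λ : Submodule ℤ K} {Δ : ℝ}
  {w v ε : K} {n c : ℕ} {a b d : ℤ}

/-- A group of cosets with its function and pairing. -/
structure Grp (σ₁ σ₂ : K →+* ℝ) (ε : K) (Λ : Submodule ℤ K) (Δ : ℝ) {G : Type} [AddCommGroup G]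
    (q : K → G) (f : G → ℂ) (B : G → G → ℂ) : Prop where
  add : ∀ x y, Tor ε Λ x → Tor ε Λ y → q (x + y) = q x + q y
  zero : ∀ x, Tor ε Λ x → (q x = 0 ↔ x ∈ Λ)
  surj : ∀ g, ∃ x, Tor ε Λ x ∧ q x = g
  val : ∀ x, Tor ε Λ x → f (q x) = Psi σ₁ ε Λ x
  pair : ∀ x y, Tor ε Λ x → Tor ε Λ y →
    B (q x) (q y) = ee ((W σ₁ σ₂ x ((ε - 1) * y) / Δ : ℝ) : ℂ)

lemma ee_add_int (x : ℝ) (k : ℤ) : ee ((x + k : ℝ) : ℂ) = ee x := by
  unfold ee
  rw [Complex.exp_eq_exp_iff_exists_int]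
  refine ⟨k, ?_⟩
  push_cast
  ring

lemma ee_eq_one {x : ℝ} (h : ee (x : ℂ) = 1) : ∃ k : ℤ, x = k := by
  obtain ⟨k, hk⟩ := Complex.exp_eq_one_iff.1 h
  refine ⟨k, ?_⟩
  have h1 : (2 * π * I : ℂ) ≠ 0 := Complex.two_pi_I_ne_zero
  have : (x : ℂ) = k := mul_left_cancel₀ h1 (hk.trans (mul_comm _ _))
  exact_mod_cast this

omit [NumberField K] in
lemma ee_symm (lev : Lev σ₁ σ₂ ε n) (ob : OB σ₁ σ₂ Λ Δ w v) (pos : 0 < Δ) {x y : K}
    (hx : Tor ε Λ x) (hy : Tor ε Λ y) : ee ((W σ₁ σ₂ x ((ε - 1) * y) / Δ : ℝ) : ℂ) =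
      ee ((W σ₁ σ₂ y ((ε - 1) * x) / Δ : ℝ) : ℂ) := by
  obtain ⟨k, hk⟩ := ob.int pos hy hx
  rw [← ee_add_int (W σ₁ σ₂ y ((ε - 1) * x) / Δ) k, ← hk]
  congr 2
  have h1 := lev.norm
  simp only [W, map_mul, map_sub, map_one]
  field_simp
  linear_combination (σ₁ x * σ₂ y - σ₂ x * σ₁ y) * h1

omit [NumberField K] in
lemma ee_left (ob : OB σ₁ σ₂ Λ Δ w v) (pos : 0 < Δ) {x x' y : K} (hx : x - x' ∈ Λ)
    (hy : Tor ε Λ y) : ee ((W σ₁ σ₂ x ((ε - 1) * y) / Δ : ℝ) : ℂ) =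
      ee ((W σ₁ σ₂ x' ((ε - 1) * y) / Δ : ℝ) : ℂ) := by
  obtain ⟨k, hk⟩ := ob.int pos hx hy
  rw [← ee_add_int (W σ₁ σ₂ x' ((ε - 1) * y) / Δ) k, ← hk]
  congr 2
  simp only [W, map_sub]
  ring

omit [NumberField K] in
lemma exists_Grp (lev : Lev σ₁ σ₂ ε n) (ob : OB σ₁ σ₂ Λ Δ w v) (pos : 0 < Δ)
    (per : ∀ x y, y ∈ Λ → Psi σ₁ ε Λ (x + y) = Psi σ₁ ε Λ x) :
    ∃ (G : Type) (_ : AddCommGroup G) (q : K → G) (f : G → ℂ) (B : G → G → ℂ),
      Grp σ₁ σ₂ ε Λ Δ q f B := by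
  classical
  let A : AddSubgroup K :=
    { carrier := {x | Tor ε Λ x}
      add_mem' := fun hx hy => tor_add hx hy
      zero_mem' := by simp [Tor]
      neg_mem' := fun hx => tor_neg hx }
  let H : AddSubgroup A := Λ.toAddSubgroup.addSubgroupOf A
  let q : K → A ⧸ H := fun x => if hx : Tor ε Λ x then ((⟨x, hx⟩ : A) : A ⧸ H) else 0
  have hq : ∀ x (hx : Tor ε Λ x), q x = ((⟨x, hx⟩ : A) : A ⧸ H) := fun x hx => dif_pos hx
  have hout : ∀ x, Tor ε Λ x → ((q x).out : K) - x ∈ Λ := by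
    intro x hx
    obtain ⟨y, hy⟩ := QuotientAddGroup.mk_out_eq_add H ⟨x, hx⟩
    rw [hq x hx, hy]
    have h1 : ((y : A) : K) ∈ Λ := y.2
    simpa using h1
  refine ⟨A ⧸ H, inferInstance, q, fun g => Psi σ₁ ε Λ g.out,
    fun g g' => ee ((W σ₁ σ₂ g.out ((ε - 1) * g'.out) / Δ : ℝ) : ℂ), ?_, ?_, ?_, ?_, ?_⟩
  · intro x y hx hy
    rw [hq x hx, hq y hy, hq _ (tor_add hx hy)]
    rfl
  · intro x hx
    rw [hq x hx, QuotientAddGroup.eq_zero_iff]
    rfl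
  · intro g
    refine ⟨g.out, g.out.2, ?_⟩
    rw [hq _ g.out.2]
    exact Quotient.out_eq g
  · intro x hx
    have := per x _ (hout x hx)
    rwa [add_sub_cancel] at this
  · intro x y hx hy
    have h1 : Tor ε Λ ((q y).out : K) := (q y).out.2
    show ee ((W σ₁ σ₂ (q x).out ((ε - 1) * (q y).out) / Δ : ℝ) : ℂ) = _
    rw [ee_left ob pos (hout x hx) h1, ee_symm lev ob pos hx h1, ee_left ob pos (hout y hy) hx,
      ee_symm lev ob pos hy hx]

variable {G : Type} [AddCommGroup G] {q : K → G} {f : G → ℂ} {B : G → G → ℂ}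

omit [NumberField K] in
lemma Grp.congr (g : Grp σ₁ σ₂ ε Λ Δ q f B) (sl : SL ε Λ) {x y : K} (hy : Tor ε Λ y)
    (h : x - y ∈ Λ) : q x = q y := by
  have h1 := g.add y (x - y) hy (tor_of_mem sl h)
  rwa [add_sub_cancel, (g.zero _ (tor_of_mem sl h)).2 h, add_zero] at h1

omit [NumberField K] in
lemma Grp.sub (g : Grp σ₁ σ₂ ε Λ Δ q f B) {x y : K} (hx : Tor ε Λ x) (hy : Tor ε Λ y) :
    q (x - y) = q x - q y := by
  have h0 : Tor ε Λ (x - y) := by
    rw [sub_eq_add_neg]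
    exact tor_add hx (tor_neg hy)
  have h1 := g.add (x - y) y h0 hy
  rw [sub_add_cancel] at h1
  rw [h1, add_sub_cancel_right]

lemma Grp.mod [NeZero c] (g : Grp σ₁ σ₂ ε Λ Δ q f B) (h : Ch σ₁ σ₂ ε n Λ Δ w v c a b d)
    (hi : Irrational (σ₁ ε)) (hI : Ind 1 ε) (hE : StmtEll K) (hP : StmtPhi)
    (h4 : ∀ x, Tor ε Λ x → Psi σ₁ ε Λ x = cexp (-ell σ₁ (cset Λ x ∩ cone v (ε * v)))) :
    Mod (σ₁ ε) n c a d (fun m ρ => q (th ε v n c m ρ.val)) f B := by
  have hv : ∀ ρ : ZMod c, (((ρ.val : ℕ) : ℤ) : ZMod c) = ρ := fun ρ => by simp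
  have ht : ∀ m ρ, InD c (a : ZMod c) m ρ → Tor ε Λ (th ε v n c m ρ.val) := fun m ρ hm =>
    (h.tor _ _).2 (by rwa [hv])
  refine ⟨h.hyp hi, ?_, ?_, ?_, ?_, ?_⟩
  · intro m ρ m' ρ' hm hm'
    rw [← g.add _ _ (ht _ _ hm) (ht _ _ hm')]
    exact g.congr h.sl (tor_add (ht _ _ hm) (ht _ _ hm')) (h.cong _ _ _ _ _ (by rw [hv, hv, hv]))
  · intro m ρ hm
    rw [g.zero _ (ht _ _ hm), h.mem_th, hv]
  · intro x
    obtain ⟨x, hx, rfl⟩ := g.surj x
    obtain ⟨m, r, rfl⟩ := h.surj hx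
    refine ⟨m, r, (h.tor _ _).1 hx, g.congr h.sl hx ?_⟩
    have := h.cong m 0 r 0 ((r : ZMod c).val : ℕ) (by simp)
    simpa [th] using this
  · intro m ρ hm
    rw [g.val _ (ht _ _ hm), h4 _ (ht _ _ hm), h.ell hI hE (hP _ _ _ _ _ (h.hyp hi)), hv]
  · intro m ρ m' ρ' hm hm'
    rw [g.pair _ _ (ht _ _ hm) (ht _ _ hm'), h.pair _ _ _ _ (by rwa [hv]), hv, hv]

lemma Grp.bichar [Fintype G] [DecidableEq G] (g : Grp σ₁ σ₂ ε Λ Δ q f B) (lev : Lev σ₁ σ₂ ε n)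
    (sl : SL ε Λ) (ob : OB σ₁ σ₂ Λ Δ w v) (pos : 0 < Δ) : Bichar B := by
  have h0 : Tor ε Λ 0 := tor_of_mem sl Λ.zero_mem
  refine ⟨?_, ?_, ?_, ?_⟩
  · intro x y u
    obtain ⟨x, hx, rfl⟩ := g.surj x
    obtain ⟨y, hy, rfl⟩ := g.surj y
    obtain ⟨u, hu, rfl⟩ := g.surj u
    rw [← g.add _ _ hx hy, g.pair _ _ (tor_add hx hy) hu, g.pair _ _ hx hu, g.pair _ _ hy hu]
    unfold ee
    rw [← Complex.exp_add]
    congr 1
    simp only [W, map_add]
    push_cast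
    ring
  · intro x u
    obtain ⟨x, hx, rfl⟩ := g.surj x
    obtain ⟨u, hu, rfl⟩ := g.surj u
    rw [g.pair _ _ hx hu, g.pair _ _ hu hx, ee_symm lev ob pos hx hu]
  · intro u
    obtain ⟨u, hu, rfl⟩ := g.surj u
    rw [← (g.zero 0 h0).2 Λ.zero_mem, g.pair _ _ h0 hu]
    simp [W, ee]
  · intro u hB
    obtain ⟨u, hu, rfl⟩ := g.surj u
    have key : ∀ l ∈ Λ, ∃ k : ℤ, W σ₁ σ₂ u l / Δ = k := by
      intro l hl
      have h1 : Tor ε Λ (ε * l / (ε - 1)) := by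
        unfold Tor
        rw [mul_div_cancel₀ _ (lev_ne lev)]
        exact sl.2 l hl
      have h2 := hB (q (ε * l / (ε - 1)))
      rw [g.pair _ _ h1 hu] at h2
      obtain ⟨k, hk⟩ := ee_eq_one h2
      refine ⟨k, ?_⟩
      rw [← hk]
      have a1 : σ₁ ε - 1 ≠ 0 := by linarith [lev.one_lt]
      have a2 : σ₂ ε - 1 ≠ 0 := by linarith [(lev_two lev).2]
      have a3 := lev.norm
      simp only [W, map_mul, map_sub, map_one, map_div₀]
      congr 1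
      field_simp
      linear_combination (σ₁ u * σ₂ l * (σ₁ ε - 1) - σ₂ u * σ₁ l * (σ₂ ε - 1)) * a3
    exact (g.zero u hu).2 (ob.unimod pos sl.1 (key v ob.mem₂) (key w ob.mem₁))

end Main

end T

open T in
theorem blockT (hM : StmtModel) (hP : StmtPhi) (hL : StmtL1) (hPsi : StmtPsi) (hR : StmtR1) :
    StmtPent := by
  intro K _ _ σ₁ σ₂ cc hRQ ε n lev Λ sl
  classical
  have hB := hR.2.1 K σ₁ σ₂ cc hRQ
  have hE := hL K hRQ.rank
  obtain ⟨per, -, -, h4, -⟩ := hPsi K σ₁ σ₂ cc hRQ ε n lev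
  obtain ⟨hi, hI, -⟩ := hB.irr ε n lev
  obtain ⟨Δ, w₀, v₀, pos, ob₀⟩ := exists_OB (hB.basis Λ sl.1) lev sl
  obtain ⟨G, _, q, f, B, g⟩ := exists_Grp lev ob₀ pos (per Λ)
  have chart : ∀ w v, OB σ₁ σ₂ Λ Δ w v → ∃ (c : ℕ) (_ : NeZero c) (a d : ZMod c)
      (Θ : ℤ → ZMod c → G), Mod (σ₁ ε) n c a d Θ f B ∧ ∀ x, Tor ε Λ x → ∃ m ρ, InD c a m ρ ∧
        Θ m ρ = q x ∧ Int.fract (W σ₁ σ₂ x v / Δ) = (m % n : ℤ) / n := by
    intro w v ob
    obtain ⟨w', v', l, ob', v1, v2, hl, hv⟩ := ob.pos (lev_pos lev)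
      (hB.signs Λ (w / 2) 1 1 sl.1 one_ne_zero one_ne_zero)
    obtain ⟨c, a, b, d, h⟩ := exists_Ch lev sl ob' pos v1 v2
    have : NeZero c := ⟨h.cpos.ne'⟩
    refine ⟨c, inferInstance, a, d, _, g.mod h hi hI hE hP fun x hx => h4 Λ x v' sl hx v1 v2, ?_⟩
    intro x hx
    obtain ⟨k, hk⟩ := ob.int pos (tor_mul lev sl hx) hl
    obtain ⟨m, r, rfl⟩ := h.surj hx
    refine ⟨m, r, (h.tor _ _).1 hx, g.congr h.sl hx ?_, ?_⟩
    · have := h.cong m 0 r 0 ((r : ZMod c).val : ℕ) (by simp)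
      simpa [th] using this
    · rw [← Int.fract_div_intCast_eq_div_intCast_mod, ← h.om m r, Int.fract_eq_fract]
      refine ⟨-k, ?_⟩
      rw [Int.cast_neg, ← hk, hv]
      simp only [W, map_add, map_mul, map_natCast]
      ring
  obtain ⟨c, _, a, d, Θ, h₀, -⟩ := chart w₀ v₀ ob₀
  have := h₀.finite
  have := Fintype.ofFinite G
  have hM₀ := hM _ _ _ _ _ h₀.hyp
  have hb := g.bichar lev sl ob₀ pos
  have hf : ∀ x, f x ≠ 0 := by
    intro x
    obtain ⟨x, hx, rfl⟩ := g.surj x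
    rw [g.val x hx]
    exact Complex.exp_ne_zero _
  have he : ((σ₁ ε : ℝ) : ℂ) ≠ 0 := by
    have := lev.one_lt
    exact_mod_cast (by linarith : σ₁ ε ≠ 0)
  refine ⟨⟨G, inferInstance, inferInstance, inferInstance, q, f, B, g.add, g.zero, g.surj, g.val,
    hb, hf, he, ?_, pent_diag hb hf he (h₀.gam hM₀) ?_, h₀.gam hM₀⟩, ?_⟩
  · rw [h₀.card]
    exact_mod_cast lev_quad lev
  · intro y u hy hu
    obtain ⟨y, ty, rfl⟩ := g.surj y
    obtain ⟨u, tu, rfl⟩ := g.surj u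
    have tyu : Tor ε Λ (y - u) := by
      rw [sub_eq_add_neg]
      exact tor_add ty (tor_neg tu)
    rw [← g.sub ty tu] at hu
    obtain ⟨w, v, ob, hlt⟩ := ob₀.adapt pos sl.1 (fun hh => hy ((g.zero y ty).2 hh))
      fun hh => hu ((g.zero _ tyu).2 hh)
    obtain ⟨c, _, a, d, Θ, h, hx⟩ := chart w v ob
    obtain ⟨my, ρy, iy, ey, fy⟩ := hx y ty
    obtain ⟨mu, ρu, iu, eu, fu⟩ := hx u tu
    rw [← ey, ← eu]
    refine h.pent (hM _ _ _ _ _ h.hyp) iy iu ?_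
    have hn : (0 : ℝ) < n := by exact_mod_cast lev_pos lev
    rw [fy, fu, div_lt_div_iff_of_pos_right hn] at hlt
    exact_mod_cast hlt
  · intro x hx hx'
    have h1 := h₀.cnj hM₀ (q x) fun hh => hx' ((g.zero x hx).1 hh)
    have h0 : Tor ε Λ 0 := tor_of_mem sl Λ.zero_mem
    have h2 := g.sub h0 hx
    rw [(g.zero 0 h0).2 Λ.zero_mem, zero_sub, zero_sub] at h2
    rwa [← h2, g.val _ (tor_neg hx), g.val _ hx] at h1

end Pool.Agent.Lib.Stark
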