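import Pool.Agent.Lib.stark.Defs2
import Pool.Agent.Lib.MP_6bf7a3_nt.H5Cont

open NumberField FractionalIdeal Filter
open scoped nonZeroDivisors Topology

namespace Pool.Agent.Lib.Stark

namespace TK3a

open Pool.Agent.Lib.MP_6bf7a3_nt Pool.Agent.Lib.helper5 Mel

variable {K : Type} [Field K] [NumberField K] {σ₁ σ₂ : K →+* ℝ}

theorem exists_gen2 (hK : Module.finrank ℚ K = 2) (hσ : σ₂ ≠ σ₁) {m : Ideal (𝓞 K)}
    (hm0 : m ≠ ⊥) :
    ∃ η : Kˣ, pr (𝓞 K) η = 1 ∧ (η : K) - 1 ∈ loc K m m ∧ 1 < σ₂ η ∧ 0 < σ₁ η ∧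
      ∀ u : Kˣ, pr (𝓞 K) u = 1 → (u : K) - 1 ∈ loc K m m → 0 < σ₁ u → 0 < σ₂ u →
        ∃ k : ℤ, u = η ^ k := by
  obtain ⟨η, g1, g2, g3, g4⟩ := exists_gen hK hσ hm0
  have h0 : σ₁ η ≠ 0 := by simp
  rcases lt_or_gt_of_ne h0 with h | h
  · refine ⟨η * η, by rw [map_mul, g1, one_mul], loc_one_mul g2 g2, ?_, ?_,
      fun u f1 f2 f3 f4 => ?_⟩
    · rw [Units.val_mul, map_mul]; nlinarith
    · rw [Units.val_mul, map_mul]; exact mul_pos_of_neg_of_neg h h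
    · obtain ⟨k, rfl⟩ := g4 u f1 f2 f4
      rcases Int.even_or_odd' k with ⟨j, rfl | rfl⟩
      · exact ⟨j, by rw [← sq, zpow_mul]; norm_cast⟩
      · exfalso
        simp only [Units.val_zpow_eq_zpow_val, map_zpow₀] at f3
        exact absurd f3 (not_lt.2 (Odd.zpow_neg ⟨j, rfl⟩ h).le)
  · exact ⟨η, g1, g2, g3, h, fun u f1 f2 _ f4 => g4 u f1 f2 f4⟩

/-- Narrow ray classes. -/
def rayN (σ₁ σ₂ : K →+* ℝ) (m : Ideal (𝓞 K)) (c : (FractionalIdeal (𝓞 K)⁰ K)ˣ) :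
    Set (FractionalIdeal (𝓞 K)⁰ K)ˣ :=
  {b | ∃ α : Kˣ, (α : K) - 1 ∈ loc K m m ∧ (0 < σ₁ α ∧ 0 < σ₂ α) ∧ b = pr (𝓞 K) α * c}

theorem hasSum_fib (hK : Module.finrank ℚ K = 2) (hσ : σ₂ ≠ σ₁) {m : Ideal (𝓞 K)}
    {η : Kˣ} (g1 : pr (𝓞 K) η = 1) (g2 : (η : K) - 1 ∈ loc K m m) (g3 : 1 < σ₂ η)
    (g4 : ∀ u : Kˣ, pr (𝓞 K) u = 1 → (u : K) - 1 ∈ loc K m m → 0 < σ₁ u → 0 < σ₂ u →
      ∃ k : ℤ, u = η ^ k)
    {c : (FractionalIdeal (𝓞 K)⁰ K)ˣ} {ι : Type} (x : ι → K) (hx : Function.Injective x)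
    (hx2 : ∀ α : K, α ∈ Set.range x ↔ α - 1 ∈ loc K m m ∧
      α ∈ ((c⁻¹ : (FractionalIdeal (𝓞 K)⁰ K)ˣ) : FractionalIdeal (𝓞 K)⁰ K))
    (F : K → ℝ) (V : ℝ → ℝ) (hF : ∀ α, F α ≠ 0 → 0 < σ₁ α ∧ 0 < σ₂ α)
    (hV : ∀ α : Kˣ, 0 < σ₁ α → 0 < σ₂ α → HasSum (fun k : ℤ => F ((η ^ k * α : Kˣ) : K))
      (V (|σ₁ α * σ₂ α| * ((absNorm (c : FractionalIdeal (𝓞 K)⁰ K) : ℚ) : ℝ))))
    {a : ℝ} (h : HasSum (fun n => F (x n)) a) :
    HasSum (fun I : {I : Ideal (𝓞 K) //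
        ∃ b ∈ rayN σ₁ σ₂ m c, (b : FractionalIdeal (𝓞 K)⁰ K) = I} =>
      V (Nat.card (𝓞 K ⧸ I.1))) a := by
  set Y := {I : Ideal (𝓞 K) // ∃ b ∈ rayN σ₁ σ₂ m c, (b : FractionalIdeal (𝓞 K)⁰ K) = I}
  have hη0 : 0 < σ₂ η := one_pos.trans g3
  have hz : ∀ k : ℤ, ((η ^ k : Kˣ) : K) - 1 ∈ loc K m m := by
    intro k
    induction k using Int.induction_on with
    | zero => simpa using loc_zero
    | succ k ih => rw [zpow_add_one]; exact loc_one_mul ih g2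
    | pred k ih => rw [zpow_sub_one]; exact loc_one_mul ih (loc_one_inv g2)
  have hrep : ∀ I : Y, ∃ α : Kˣ, (α : K) - 1 ∈ loc K m m ∧ (0 < σ₁ α ∧ 0 < σ₂ α) ∧
      ((pr (𝓞 K) α * c : (FractionalIdeal (𝓞 K)⁰ K)ˣ) : FractionalIdeal (𝓞 K)⁰ K) = I.1 := by
    rintro ⟨I, _, ⟨α, h1, h2, rfl⟩, h3⟩
    exact ⟨α, h1, h2, h3⟩
  choose α hα1 hα2 hα3 using hrep
  have hpr : ∀ (k : ℤ) (β : Kˣ), pr (𝓞 K) (η ^ k * β) = pr (𝓞 K) β := by
    intro k β; rw [map_mul, map_zpow, g1, one_zpow, one_mul]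
  have hG : ∀ p : Y × ℤ, ∃ n, x n = ((η ^ p.2 * α p.1 : Kˣ) : K) := fun p =>
    (hx2 _).2 ⟨loc_one_mul (hz _) (hα1 _), mem_inv_iff.2 ⟨p.1.1, by rw [hpr, hα3]⟩⟩
  choose G hG using hG
  have hinj : Function.Injective G := by
    rintro ⟨I, k⟩ ⟨I', k'⟩ hp
    have h1 : η ^ k * α I = η ^ k' * α I' := Units.val_injective (by
      rw [← hG (I, k), ← hG (I', k'), hp])
    have h2 : I = I' := by
      apply Subtype.ext
      apply coeIdeal_injective (K := K)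
      have := hα3 I
      rw [← hpr k, h1, hpr, hα3] at this
      exact this.symm
    subst h2
    have h3 := congrArg (fun u : Kˣ => σ₂ u) (mul_right_cancel h1)
    simp only [Units.val_zpow_eq_zpow_val, map_zpow₀] at h3
    rw [zpow_right_injective₀ hη0 g3.ne' h3]
  have hout : ∀ n ∉ Set.range G, F (x n) = 0 := by
    intro n hn
    by_contra hne
    have h0 := hF _ hne
    have hn0 : x n ≠ 0 := by rintro h; simp [h] at h0
    let β : Kˣ := Units.mk0 _ hn0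
    obtain ⟨b1, b2⟩ := (hx2 (x n)).1 ⟨n, rfl⟩
    obtain ⟨I, hI⟩ := (mem_inv_iff (α := β)).1 b2
    let J : Y := ⟨I, _, ⟨β, b1, h0, rfl⟩, hI⟩
    have h1 : pr (𝓞 K) β * c = pr (𝓞 K) (α J) * c := Units.ext (hI.trans (hα3 J).symm)
    have h3 : ∀ σ : K →+* ℝ, σ ((β * (α J)⁻¹ : Kˣ) : K) = σ (x n) / σ (α J) := by
      intro σ; simp [β, div_eq_mul_inv]
    obtain ⟨k, hk⟩ := g4 (β * (α J)⁻¹)
      (by rw [map_mul, map_inv, mul_right_cancel h1, mul_inv_cancel])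
      (loc_one_mul b1 (loc_one_inv (hα1 J))) (by rw [h3]; exact div_pos h0.1 (hα2 J).1)
      (by rw [h3]; exact div_pos h0.2 (hα2 J).2)
    refine hn ⟨(J, k), hx ?_⟩
    rw [hG, ← hk, inv_mul_cancel_right]; rfl
  have h1 := (hinj.hasSum_iff hout).2 h
  refine h1.prod_fiberwise fun I => ?_
  rw [card_eq_norm hK hσ (hα3 I)]
  exact (hV (α I) (hα2 I).1 (hα2 I).2).congr_fun fun k => by rw [Function.comp_apply, hG]

/-- The positive half of the bump. -/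
noncomputable def bumpP (δ r : ℝ) : ℝ := bump δ r * Real.smoothTransition (2 * r)

theorem contDiff_bumpP (δ : ℝ) : ContDiff ℝ (⊤ : ℕ∞) (bumpP δ) :=
  (contDiff_bump δ).mul (Real.smoothTransition.contDiff.comp (contDiff_const.mul contDiff_id))

theorem bumpP_pos {δ r : ℝ} (h : bumpP δ r ≠ 0) : 0 < r := by
  by_contra h0
  exact h (by rw [bumpP, Real.smoothTransition.zero_of_nonpos (by linarith), mul_zero])

theorem bumpP_eq {δ r : ℝ} (hδ : 0 < δ) (hδ1 : δ ≤ 1 / 4) (h : 0 < r) : bumpP δ r = bump δ r := by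
  rcases le_total r (1 / 2) with h1 | h1
  · rw [bumpP, bump_zero hδ (le_trans (by nlinarith) (neg_le_abs _)), zero_mul]
  · rw [bumpP, Real.smoothTransition.one_of_one_le (by linarith), mul_one]

/-- Analytic continuation of the zeta function of a narrow ray class. -/
theorem exists_cont (hK : Module.finrank ℚ K = 2) (hσ : σ₂ ≠ σ₁) {m : Ideal (𝓞 K)}
    (hm0 : m ≠ ⊥) {c : (FractionalIdeal (𝓞 K)⁰ K)ˣ} (hc : Cp m c) :
    ∃ f : ℂ → ℂ, DifferentiableOn ℂ f {1}ᶜ ∧ ∀ s : ℂ, 1 < s.re →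
      f s = zeta (rayN σ₁ σ₂ m c) s := by
  obtain ⟨η, g1, g2, g3, g5, g4⟩ := exists_gen2 hK hσ hm0
  obtain ⟨x, z, A₁, A₂, hx, hx2, hA, hxA⟩ := exists_param hK hσ hm0 hc
  have hν := absNorm_pos' c
  set ν : ℝ := ((absNorm (c : FractionalIdeal (𝓞 K)⁰ K) : ℚ) : ℝ) with hν_def
  have hη := absNorm_pr hK hσ η
  rw [g1, Units.val_one, absNorm_one, Rat.cast_one,
    abs_of_pos (mul_pos g5 (one_pos.trans g3))] at hη
  refine patch fun p => ?_
  obtain ⟨δ, hδ, hδ1, hd, hp⟩ := exists_bump p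
  obtain ⟨R, hR, hG⟩ := good_of_bound hA (φ := fun u v => bumpP δ (ν * (u * v)) * Wt (σ₂ η) v)
    (((contDiff_bumpP δ).comp (by fun_prop)).mul ((contDiff_Wt _).comp contDiff_snd))
    (B := 2 + 2 * σ₂ η / ν) (by positivity) (fun u v hne => by
      obtain ⟨f1, f2⟩ := mul_ne_zero_iff.1 hne
      have f1' := (mul_ne_zero_iff.1 f1).1
      have f3 : |ν * (u * v)| < 2 := not_le.1 fun h => f1' (bump_top hδ hδ1 h)
      have f4 : 1 < σ₂ η * v := not_le.1 fun h => f2 (Wt_eq_zero g3 (Or.inl h))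
      have f5 : v < 2 := not_le.1 fun h => f2 (Wt_eq_zero g3 (Or.inr h))
      have f6 : 0 < v := by nlinarith
      have f7 : |u| ≤ 2 * σ₂ η / ν := by
        rw [abs_mul, abs_mul, abs_of_pos hν, abs_of_pos f6] at f3
        rw [le_div_iff₀ hν]
        nlinarith [mul_nonneg (abs_nonneg u) hν.le]
      have f9 : 0 ≤ 2 * σ₂ η / ν := by positivity
      rw [abs_of_pos f6]
      exact ⟨by linarith, by linarith⟩)
  obtain ⟨B, hB, hB2⟩ := Mel.exists_ext (test_bump hδ hδ1) (one_le_card (X := rayN σ₁ σ₂ m c))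
    (summable_card _) (a := ∫ y, bumpP δ (ν * (A₁ y * A₂ y)) * Wt (σ₂ η) (A₂ y)) fun j => by
      obtain ⟨C, hC⟩ := hG.main_term hR j
      refine ⟨C, fun t ht ht1 => ?_⟩
      have h1 := hasSum_fib hK hσ g1 g2 g3 g4 x hx hx2
        (fun α => bumpP δ (ν * (t * σ₁ α * (t * σ₂ α))) * Wt (σ₂ η) (t * σ₂ α))
        (fun r => bump δ (t ^ 2 * r)) (fun α h => by
          obtain ⟨f1, f2⟩ := mul_ne_zero_iff.1 h
          have f3 := (mul_pos_iff_of_pos_left hν).1 (bumpP_pos f1)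
          have f4 : 1 < σ₂ η * (t * σ₂ α) := not_le.1 fun h => f2 (Wt_eq_zero g3 (Or.inl h))
          have f5 : 0 < t * σ₂ α :=
            (mul_pos_iff_of_pos_left (one_pos.trans g3)).1 (one_pos.trans f4)
          exact ⟨(mul_pos_iff_of_pos_left ht).1 ((mul_pos_iff_of_pos_right f5).1 f3),
            (mul_pos_iff_of_pos_left ht).1 f5⟩)
        (fun α h h' => by
          have h2 := (hasSum_Wt g3 (mul_pos ht h')).mul_left
            (bump δ (t ^ 2 * (|σ₁ α * σ₂ α| * ν)))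
          rw [mul_one] at h2
          refine h2.congr_fun fun k => ?_
          simp only [Units.val_mul, Units.val_zpow_eq_zpow_val, map_mul, map_zpow₀]
          rw [show ν * (t * (σ₁ η ^ k * σ₁ α) * (t * (σ₂ η ^ k * σ₂ α))) =
              (σ₁ η * σ₂ η) ^ k * (t ^ 2 * ((σ₁ α * σ₂ α) * ν)) by rw [mul_zpow]; ring,
            ← hη, one_zpow, one_mul, bumpP_eq hδ hδ1 (by positivity),
            abs_of_pos (mul_pos h h')]
          congr 2
          ring)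
        ((hG.summable ht z).hasSum.congr_fun fun n => by
          simp only [map_smul, smul_eq_mul, hxA n])
      have h4 := hC t ht ht1 z
      rw [Fintype.card_fin] at h4
      rw [S2, h1.tsum_eq]
      exact h4
  refine ⟨_, B, hd, hB, hp, fun s hs => ?_⟩
  rw [← hB2 s hs, zeta]
  simp only [Complex.ofReal_natCast]

omit [NumberField K] in
theorem cop_span {m : Ideal (𝓞 K)} {α : 𝓞 K} (h0 : α ≠ 0) (h1 : α - 1 ∈ m) :
    Cop m (Ideal.span {α}) :=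
  ⟨sup_of_exists_one (Ideal.mem_span_singleton_self α) h1, by
    rwa [Ne, Ideal.span_singleton_eq_bot]⟩

omit [NumberField K] in
theorem factor {m : Ideal (𝓞 K)} {B B' : Type} [CommGroup B] [CommGroup B']
    {κ : Ideal (𝓞 K) → B} {κ' : Ideal (𝓞 K) → B'} (h : RayHom m κ) (h' : Univ Set.univ m κ')
    {I J : Ideal (𝓞 K)} (hI : Cop m I) (hJ : Cop m J) (e : κ' I = κ' J) : κ I = κ J := by
  obtain ⟨α, β, a0, b0, a1, b1, hp, he⟩ := (h'.ker I J hI hJ).1 e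
  have h1 := congrArg κ he
  rwa [h.mul _ _ (cop_span a0 a1) hI, h.mul _ _ (cop_span b0 b1) hJ,
    h.triv α a0 a1 fun τ => (hp τ trivial).1, h.triv β b0 b1 fun τ => (hp τ trivial).2,
    one_mul, one_mul] at h1

theorem exists_den {m : Ideal (𝓞 K)} {γ : K} (h : γ - 1 ∈ loc K m m) :
    ∃ s y : 𝓞 K, s ≠ 0 ∧ s - 1 ∈ m ∧ y - 1 ∈ m ∧ (s : K) * γ = y := by
  by_cases hm : m = ⊤
  · obtain ⟨a, b, hb, rfl⟩ := IsFractionRing.div_surjective (A := 𝓞 K) γ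
    have hb0 : b ≠ 0 := nonZeroDivisors.ne_zero hb
    refine ⟨b, a, hb0, by simp [hm], by simp [hm], ?_⟩
    have : (b : K) ≠ 0 := by simpa using hb0
    change (b : K) * ((a : K) / b) = a
    field_simp
  · obtain ⟨s, hs, y, hy, e⟩ := mem_loc.1 h
    refine ⟨s, s + y, ?_, hs, ?_, ?_⟩
    · rintro rfl
      rw [zero_sub, Ideal.neg_mem_iff, ← Ideal.eq_top_iff_one] at hs
      exact hm hs
    · rw [add_sub_right_comm]; exact m.add_mem hs hy
    · change algebraMap (𝓞 K) K s * γ = algebraMap (𝓞 K) K (s + y)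
      rw [map_add, ← e]; ring

theorem mem_iff (hemb : ∀ τ : K →+* ℝ, τ = σ₁ ∨ τ = σ₂) {m : Ideal (𝓞 K)} {B' : Type}
    [CommGroup B'] {κ' : Ideal (𝓞 K) → B'} (h' : Univ Set.univ m κ') {J : Ideal (𝓞 K)}
    (hJ : Cop m J) {c : (FractionalIdeal (𝓞 K)⁰ K)ˣ} (hc : (c : FractionalIdeal (𝓞 K)⁰ K) = J)
    (I : Ideal (𝓞 K)) :
    (∃ b ∈ rayN σ₁ σ₂ m c, (b : FractionalIdeal (𝓞 K)⁰ K) = I) ↔ Cop m I ∧ κ' I = κ' J := by
  constructor
  · rintro ⟨_, ⟨γ, h1, h2, rfl⟩, h3⟩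
    have hI : Cop m I := by
      obtain ⟨t, ht, ht2⟩ := exists_one_mem ((cp_pr_of_one h1).mul (cp_of_coe hc hJ.1)).2
      rw [h3] at ht2
      obtain ⟨w, hw, e⟩ := (mem_coeIdeal _).1 ht2
      rw [IsFractionRing.injective (𝓞 K) K e] at hw
      exact ⟨sup_of_exists_one hw ht, coeIdeal_ne_zero.1 (h3 ▸ Units.ne_zero _)⟩
    refine ⟨hI, (h'.ker I J hI hJ).2 ?_⟩
    obtain ⟨s, y, s0, s1, y1, e⟩ := exists_den h1
    have s0' : (s : K) ≠ 0 := by simpa using s0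
    have y0 : y ≠ 0 := by
      rintro rfl
      exact mul_ne_zero s0' γ.ne_zero (by simpa using e)
    refine ⟨s * s, s * y, mul_ne_zero s0 s0, mul_ne_zero s0 y0, one_mul_mem s1 s1,
      one_mul_mem s1 y1, fun τ _ => ?_, ?_⟩
    · have t0 : τ s ≠ 0 := by simpa using s0
      have t1 : 0 < τ γ := by rcases hemb τ with rfl | rfl; exacts [h2.1, h2.2]
      have e1 : ((s * s : 𝓞 K) : K) = (s : K) * s := by push_cast; rfl
      have e2 : ((s * y : 𝓞 K) : K) = (s : K) * s * γ := by rw [mul_assoc, e]; push_cast; rfl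
      rw [e1, e2, map_mul τ _ (γ : K), map_mul]
      exact ⟨mul_self_pos.2 t0, mul_pos (mul_self_pos.2 t0) t1⟩
    · apply coeIdeal_injective (K := K)
      simp only [coeIdeal_mul, coeIdeal_span_singleton]
      rw [← h3, ← hc, Units.val_mul, coe_toPrincipalIdeal, ← mul_assoc,
        spanSingleton_mul_spanSingleton]
      congr 2
      rw [map_mul, map_mul, mul_assoc]
      exact congrArg _ e
  · rintro ⟨hI, e⟩
    obtain ⟨α, β, a0, b0, a1, b1, hp, he⟩ := (h'.ker I J hI hJ).1 e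
    let A : Kˣ := Units.mk0 (α : K) (by simpa using a0)
    let C : Kˣ := Units.mk0 (β : K) (by simpa using b0)
    have a2 : (A : K) - 1 ∈ loc K m m := by simpa [A] using loc_alg (K := K) (m := m) a1
    have b2 : (C : K) - 1 ∈ loc K m m := by simpa [C] using loc_alg (K := K) (m := m) b1
    have h3 : ∀ σ : K →+* ℝ, 0 < σ ((C * A⁻¹ : Kˣ) : K) := by
      intro σ
      have := div_pos (hp σ trivial).2 (hp σ trivial).1
      simpa [A, C, div_eq_mul_inv] using this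
    refine ⟨_, ⟨C * A⁻¹, loc_one_mul b2 (loc_one_inv a2), ⟨h3 _, h3 _⟩, rfl⟩, ?_⟩
    have h4 := congrArg (fun I : Ideal (𝓞 K) => (I : FractionalIdeal (𝓞 K)⁰ K)) he
    simp only [coeIdeal_mul, coeIdeal_span_singleton] at h4
    have h5 : ((pr (𝓞 K) A : (FractionalIdeal (𝓞 K)⁰ K)ˣ) : FractionalIdeal (𝓞 K)⁰ K) * I =
        ((pr (𝓞 K) C * c : (FractionalIdeal (𝓞 K)⁰ K)ˣ) : FractionalIdeal (𝓞 K)⁰ K) := by
      rw [Units.val_mul, coe_toPrincipalIdeal, coe_toPrincipalIdeal, hc]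
      exact h4
    rw [mul_comm C, map_mul, mul_assoc, Units.val_mul, ← h5, map_inv, Units.inv_mul_cancel_left]

end TK3a

open Pool.Agent.Lib.MP_6bf7a3_nt TK3a in
/-- Block TK3a. -/
theorem blockTK3a (h : StmtRay) (hR : StmtR1) : StmtEnt := by
  classical
  intro K _ _ σ₁ σ₂ c hq m hm0 B _ _ κ hκ φ
  have hemb := (hR.2.1 K σ₁ σ₂ c hq).emb
  obtain ⟨B', _, _, κ', hκ'⟩ := h K Set.univ m hm0
  have := Fintype.ofFinite B'
  choose J hJ hJ2 using hκ'.surj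
  let u : B' → (FractionalIdeal (𝓞 K)⁰ K)ˣ := fun b =>
    Units.mk0 (J b : FractionalIdeal (𝓞 K)⁰ K) (coeIdeal_ne_zero.2 (hJ b).2)
  have hu : ∀ b, (u b : FractionalIdeal (𝓞 K)⁰ K) = J b := fun b => rfl
  choose f hf hf2 using fun b =>
    TK3a.exists_cont hq.rank hq.ne hm0 (cp_of_coe (hu b) (hJ b).1)
  refine ⟨fun s => ∑ b, φ (κ (J b)) * f b s,
    DifferentiableOn.fun_sum fun b _ => (hf b).const_mul _, fun s hs => ?_⟩
  have hsum := summable_dedekind K hs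
  have e1 : ∀ b, φ (κ (J b)) * f b s = ∑' I : Ideal (𝓞 K), φ (κ (J b)) *
      {I | Cop m I ∧ κ' I = b}.indicator (fun I => (Nat.card (𝓞 K ⧸ I) : ℂ) ^ (-s)) I := by
    intro b
    rw [tsum_mul_left, hf2 b s hs, zeta, ← tsum_subtype]
    congr 1
    exact (Equiv.subtypeEquivRight fun I => by
      rw [mem_iff hemb hκ' (hJ b) (hu b) I, hJ2]; rfl).tsum_eq
        fun I : {I : Ideal (𝓞 K) | Cop m I ∧ κ' I = b} => (Nat.card (𝓞 K ⧸ I.1) : ℂ) ^ (-s)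
  have e2 : LS m (fun I => φ (κ I)) s = ∑' I : Ideal (𝓞 K),
      {I | Cop m I}.indicator (fun I => φ (κ I) * (Ideal.absNorm I : ℂ) ^ (-s)) I := by
    rw [← tsum_subtype]; rfl
  simp only [e1]
  rw [e2, ← Summable.tsum_finsetSum fun b _ => (hsum.indicator _).mul_left _]
  refine tsum_congr fun I => ?_
  by_cases hI : Cop m I
  · rw [Finset.sum_eq_single (κ' I), Set.indicator_of_mem (by exact ⟨hI, rfl⟩),
      Set.indicator_of_mem (by exact hI), factor hκ hκ' (hJ _) hI (hJ2 _), Ideal.absNorm_apply,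
      Submodule.cardQuot_apply]
    · intro b _ hb
      rw [Set.indicator_of_notMem (fun h => hb h.2.symm), mul_zero]
    · intro hb; exact absurd (Finset.mem_univ _) hb
  · rw [Set.indicator_of_notMem (by exact hI)]
    exact Finset.sum_eq_zero fun b _ => by
      rw [Set.indicator_of_notMem (fun h => hI h.1), mul_zero]

end Pool.Agent.Lib.Stark
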