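import Pool.Agent.Lib.stark.Defs2

open Complex NumberField Filter Topology Ideal
open scoped Real ComplexOrder

namespace Pool.Agent.Lib.Stark

namespace TK3b

theorem cm_series {ι : Type} (a lam : ι → ℝ) (ha : ∀ i, 0 ≤ a i) (hl : ∀ i, 0 ≤ lam i) (σ : ℝ)
    (hs : Summable fun i => a i * Real.exp (-(lam i * σ))) (c : ℝ) (hc : σ < c) :
    DifferentiableOn ℂ (fun s : ℂ => ∑' i, (a i : ℂ) * cexp (-(lam i * s))) {s | σ < s.re} ∧
      ∀ k, 0 ≤ (-1) ^ k *
        iteratedDeriv k (fun s : ℂ => ∑' i, (a i : ℂ) * cexp (-(lam i * s))) c := by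
  have hU : IsOpen {s : ℂ | σ < s.re} := isOpen_lt continuous_const continuous_re
  have hb : ∀ i, ∀ s ∈ {s : ℂ | σ < s.re},
      ‖(a i : ℂ) * cexp (-(lam i * s))‖ ≤ a i * Real.exp (-(lam i * σ)) := by
    intro i s hs
    rw [norm_mul, Complex.norm_real, Real.norm_of_nonneg (ha i), Complex.norm_exp]
    refine mul_le_mul_of_nonneg_left (Real.exp_le_exp.2 ?_) (ha i)
    have : lam i * σ ≤ lam i * s.re := mul_le_mul_of_nonneg_left (le_of_lt hs) (hl i)
    simpa using this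
  refine ⟨differentiableOn_tsum_of_summable_norm hs (fun i => by fun_prop) hU hb, fun k => ?_⟩
  have key : ∀ k, TendstoLocallyUniformlyOn
      (fun (t : Finset ι) (s : ℂ) => ∑ i ∈ t, (a i : ℂ) * (-lam i) ^ k * cexp (-(lam i * s)))
      (iteratedDeriv k fun s : ℂ => ∑' i, (a i : ℂ) * cexp (-(lam i * s))) atTop
      {s | σ < s.re} := by
    intro k
    induction k with
    | zero => simpa using (tendstoUniformlyOn_tsum hs hb).tendstoLocallyUniformlyOn
    | succ k ih =>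
      rw [iteratedDeriv_succ]
      have := ih.deriv (Eventually.of_forall fun t => by fun_prop) hU
      refine this.congr fun t s _ => ?_
      simp only [Function.comp]
      refine HasDerivAt.deriv (HasDerivAt.fun_sum fun i _ => ?_)
      have h1 : HasDerivAt (fun s : ℂ => -(lam i * s)) (-lam i) s := by
        exact (((hasDerivAt_id s).const_mul (lam i : ℂ)).neg).congr_deriv (by simp)
      exact (h1.cexp.const_mul ((a i : ℂ) * (-lam i) ^ k)).congr_deriv (by ring)
  have h1 := ((key k).tendsto_at (a := (c : ℂ)) (by simpa using hc)).const_mul ((-1) ^ k)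
  refine ge_of_tendsto' h1 fun t => ?_
  rw [Finset.mul_sum]
  refine Finset.sum_nonneg fun i _ => ?_
  have : (-1 : ℂ) ^ k * ((a i : ℂ) * (-lam i) ^ k * cexp (-(lam i * c))) =
      ((a i * lam i ^ k * Real.exp (-(lam i * c)) : ℝ) : ℂ) := by
    push_cast
    rw [neg_pow (lam i : ℂ)]
    have : (-1 : ℂ) ^ k * (-1) ^ k = 1 := by rw [← mul_pow]; simp
    linear_combination (a i * lam i ^ k * cexp (-(lam i * c))) * this
  rw [this]
  have := ha i
  have := hl i
  exact Complex.zero_le_real.2 (by positivity)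

theorem alt {F P : ℂ → ℂ} {c : ℂ} {U : Set ℂ} (hU : IsOpen U) (hc : c ∈ U)
    (hF : Differentiable ℂ F) (hP : DifferentiableOn ℂ P U)
    (hd : ∀ s ∈ U, deriv F s = -(P s * F s))
    (hk : ∀ k, 0 ≤ (-1) ^ k * iteratedDeriv k P c) (h0 : 0 ≤ F c) :
    ∀ n, 0 ≤ (-1) ^ n * iteratedDeriv n F c := by
  intro n
  induction n using Nat.strong_induction_on with
  | _ n ih =>
    cases n with
    | zero => simpa using h0
    | succ n =>
      have he : deriv F =ᶠ[𝓝 c] fun s => -(P s * F s) :=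
        Filter.eventuallyEq_of_mem (hU.mem_nhds hc) hd
      rw [iteratedDeriv_succ', he.iteratedDeriv_eq, iteratedDeriv_fun_neg,
        iteratedDeriv_fun_mul (hP.analyticAt (hU.mem_nhds hc)).contDiffAt
          (hF.analyticAt c).contDiffAt, pow_succ, mul_neg, mul_neg, mul_one, neg_mul, neg_neg,
        Finset.mul_sum]
      refine Finset.sum_nonneg fun i hi => ?_
      have hi' : i ≤ n := Nat.lt_succ_iff.1 (Finset.mem_range.1 hi)
      have : (-1 : ℂ) ^ n * (n.choose i * iteratedDeriv i P c * iteratedDeriv (n - i) F c) =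
          n.choose i * (((-1) ^ i * iteratedDeriv i P c) *
            ((-1) ^ (n - i) * iteratedDeriv (n - i) F c)) := by
        conv_lhs => rw [← Nat.add_sub_cancel' hi', pow_add, Nat.add_sub_cancel' hi']
        ring
      rw [this]
      exact mul_nonneg (Nat.cast_nonneg _) (mul_nonneg (hk i) (ih _ (by omega)))

theorem eq_punct {f G : ℂ → ℂ} {θ : ℝ} (hθ : θ < 1) (hf : DifferentiableOn ℂ f {1}ᶜ)
    (hG : DifferentiableOn ℂ G {s | θ < s.re}) (h : ∀ s : ℂ, 1 < s.re → f s = G s) :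
    ∀ s : ℂ, θ < s.re → s ≠ 1 → f s = G s := by
  have step : ∀ V : Set ℂ, IsOpen V → Convex ℝ V → (∀ s ∈ V, θ < s.re ∧ s ≠ 1) →
      ∀ z ∈ V, f =ᶠ[𝓝 z] G → Set.EqOn f G V := by
    intro V hV hc hs z hz he
    exact ((hf.mono fun s h => (hs s h).2).analyticOnNhd hV).eqOn_of_preconnected_of_eventuallyEq
      ((hG.mono fun s h => (hs s h).1).analyticOnNhd hV) hc.isPreconnected hz he
  have hre : IsOpen {s : ℂ | θ < s.re} := isOpen_lt continuous_const continuous_re
  have h1 : IsOpen {s : ℂ | 1 < s.re} := isOpen_lt continuous_const continuous_re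
  have o1 : IsOpen ({s : ℂ | θ < s.re} ∩ {s | 0 < s.im}) :=
    hre.inter (isOpen_lt continuous_const continuous_im)
  have e1 := step _ o1 ((convex_halfSpace_re_gt θ).inter (convex_halfSpace_im_gt 0))
    (fun s hs => ⟨hs.1, fun h => by simpa [h] using hs.2⟩) (2 + I)
    ⟨by simp; linarith, by simp⟩ (Filter.eventuallyEq_of_mem (h1.mem_nhds (by simp)) h)
  have e2 := step _ (hre.inter (isOpen_lt continuous_im continuous_const))
    ((convex_halfSpace_re_gt θ).inter (convex_halfSpace_im_lt 0))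
    (fun s hs => ⟨hs.1, fun h => by simpa [h] using hs.2⟩) (2 - I)
    ⟨by simp; linarith, by simp⟩ (Filter.eventuallyEq_of_mem (h1.mem_nhds (by simp)) h)
  have e3 := step _ (hre.inter (isOpen_lt continuous_re continuous_const))
    ((convex_halfSpace_re_gt θ).inter (convex_halfSpace_re_lt 1))
    (fun s hs => ⟨hs.1, fun h => by simpa [h] using hs.2⟩) (((θ + 1) / 2 : ℝ) + I)
    ⟨by simp; linarith, by simp; linarith⟩
    (Filter.eventuallyEq_of_mem (o1.mem_nhds ⟨by simp; linarith, by simp⟩) e1)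
  intro s hs hs1
  rcases lt_trichotomy s.re 1 with h' | h' | h'
  · exact e3 ⟨hs, h'⟩
  · rcases lt_trichotomy s.im 0 with h'' | h'' | h''
    · exact e2 ⟨hs, h''⟩
    · exact absurd (Complex.ext h' h'') hs1
    · exact e1 ⟨hs, h''⟩
  · exact h s h'

theorem exists_entire {L0 L1 f0 f1 H0 H1 : ℂ → ℂ} {θ0 θ1 : ℝ} (h0 : θ0 < 1) (h1 : θ1 < 1)
    (hf0 : DifferentiableOn ℂ f0 {1}ᶜ) (hf1 : DifferentiableOn ℂ f1 {1}ᶜ)
    (e0 : ∀ s : ℂ, 1 < s.re → f0 s = L0 s) (e1 : ∀ s : ℂ, 1 < s.re → f1 s = L1 s)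
    (hH0 : DifferentiableOn ℂ H0 {s | θ0 < s.re}) (hH1 : DifferentiableOn ℂ H1 {s | θ1 < s.re})
    (g0 : ∀ s : ℂ, 1 < s.re → H0 s = (s - 1) * L0 s)
    (g1 : ∀ s : ℂ, 1 < s.re → H1 s = (s - 1) * L1 s) (z1 : H1 1 = 0)
    (hz : Tendsto (fun s : ℝ => L1 s) (𝓝[>] 1) (𝓝 0)) :
    ∃ F : ℂ → ℂ, Differentiable ℂ F ∧ ∀ s : ℂ, 1 < s.re → F s = L0 s * L1 s := by
  classical
  have hn : {s : ℂ | θ1 < s.re} ∈ 𝓝 (1 : ℂ) :=
    (isOpen_lt continuous_const continuous_re).mem_nhds (by simpa using h1)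
  have d1 := (differentiableOn_dslope hn).2 hH1
  have d2 := (differentiableOn_dslope hn).2 d1
  have hne : ∀ s : ℂ, 1 < s.re → s - 1 ≠ 0 := fun s hs h => by
    rw [sub_eq_zero] at h
    simp [h] at hs
  have k1 : ∀ s : ℂ, 1 < s.re → dslope H1 1 s = L1 s := by
    intro s hs
    have := sub_smul_dslope H1 1 s
    rw [z1, sub_zero, g1 s hs, smul_eq_mul] at this
    exact mul_left_cancel₀ (hne s hs) this
  have k2 : dslope H1 1 1 = 0 := by
    have t1 : Tendsto (fun s : ℝ => dslope H1 1 s) (𝓝[>] 1) (𝓝 (dslope H1 1 1)) := by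
      refine ((d1.differentiableAt hn).continuousAt.tendsto).comp ?_
      exact (continuous_ofReal.tendsto' 1 1 (by simp)).mono_left nhdsWithin_le_nhds
    refine tendsto_nhds_unique t1 (hz.congr' ?_)
    filter_upwards [self_mem_nhdsWithin] with s hs
    exact (k1 s (by simpa using hs)).symm
  have hθ : max θ0 θ1 < 1 := max_lt h0 h1
  have hG : DifferentiableOn ℂ (fun s => H0 s * dslope (dslope H1 1) 1 s)
      {s | max θ0 θ1 < s.re} :=
    DifferentiableOn.mul (hH0.mono fun s hs => (le_max_left θ0 θ1).trans_lt hs)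
      (d2.mono fun s hs => (le_max_right θ0 θ1).trans_lt hs)
  have he := eq_punct hθ (hf0.mul hf1) hG (by
    intro s hs
    have := sub_smul_dslope (dslope H1 1) 1 s
    rw [k2, sub_zero, k1 s hs, smul_eq_mul] at this
    simp only [Pi.mul_apply]
    rw [e0 s hs, e1 s hs, g0 s hs, ← this]
    ring)
  refine ⟨fun s => if s = 1 then H0 1 * dslope (dslope H1 1) 1 1 else f0 s * f1 s, fun s => ?_,
    fun s hs => ?_⟩
  · by_cases hs : s = 1
    · subst hs
      have hn' : {s : ℂ | max θ0 θ1 < s.re} ∈ 𝓝 (1 : ℂ) :=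
        (isOpen_lt continuous_const continuous_re).mem_nhds (by simpa using hθ)
      refine (hG.differentiableAt hn').congr_of_eventuallyEq ?_
      filter_upwards [hn'] with s hs
      by_cases h : s = 1
      · simp [h]
      · rw [if_neg h]
        exact he s hs h
    · have hn' : ({1}ᶜ : Set ℂ) ∈ 𝓝 s := isOpen_compl_singleton.mem_nhds hs
      refine ((hf0.mul hf1).differentiableAt hn').congr_of_eventuallyEq ?_
      filter_upwards [hn'] with s hs
      rw [if_neg (show ¬ s = 1 from hs)]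
      rfl
  · simp only
    rw [if_neg (fun h => hne s hs (by simp [h])), e0 s hs, e1 s hs]

variable {K : Type} [Field K] [NumberField K]

theorem two_le_norm {P : Ideal (𝓞 K)} (hP : P.IsMaximal) (h0 : P ≠ ⊥) : 2 ≤ absNorm P := by
  have h1 : absNorm P ≠ 0 := fun h => h0 (absNorm_eq_zero_iff.1 h)
  have h2 : absNorm P ≠ 1 := by simpa using hP.ne_top
  omega

theorem exists_prime {m : Ideal (𝓞 K)} (hm : m ≠ ⊥) : ∃ q : Ideal (𝓞 K), q.IsMaximal ∧ Cop m q := by
  have h1 : absNorm m ≠ 0 := fun h => hm (absNorm_eq_zero_iff.1 h)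
  have h2 : span {((absNorm m + 1 : ℕ) : 𝓞 K)} ≠ ⊤ := by
    intro h
    have := congrArg absNorm h
    rw [absNorm_span_natCast, absNorm_top, Nat.pow_eq_one] at this
    rcases this with h | h
    · omega
    · exact Module.finrank_pos.ne' h
  obtain ⟨q, hq, hle⟩ := Ideal.exists_le_maximal _ h2
  have hmem : ((absNorm m + 1 : ℕ) : 𝓞 K) ∈ q := hle (Ideal.mem_span_singleton_self _)
  refine ⟨q, hq, ?_, ?_⟩
  · rw [Ideal.eq_top_iff_one]
    have := Ideal.sub_mem _ (Ideal.mem_sup_left hmem : _ ∈ q ⊔ m)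
      (Ideal.mem_sup_right (absNorm_mem m))
    simpa using this
  · rintro rfl
    rw [Ideal.mem_bot] at hmem
    exact absurd hmem (Nat.cast_ne_zero.2 (by omega))

theorem LS_real (m : Ideal (𝓞 K)) (φ : Ideal (𝓞 K) → ℂ) (hφ : ∀ I, Cop m I → (φ I).im = 0)
    (c : ℝ) : (LS m φ c).im = 0 := by
  have : LS m φ c = ((∑' I : {I // Cop m I}, (φ I).re * (absNorm I.1 : ℝ) ^ (-c) : ℝ) : ℂ) := by
    rw [Complex.ofReal_tsum]
    refine tsum_congr fun I => ?_
    rw [Complex.ofReal_mul, Complex.ofReal_cpow (Nat.cast_nonneg _)]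
    congr 1
    · exact Complex.ext (by simp) (by simp [hφ I I.2])
    · simp
  rw [this, Complex.ofReal_im]

open scoped Classical in
theorem euler (h2 : StmtLogDer) (m : Ideal (𝓞 K)) (φ : Ideal (𝓞 K) → ℂ)
    (hmul : ∀ I J, Cop m I → Cop m J → φ (I * J) = φ I * φ J) (h1 : φ ⊤ = 1)
    (hb : ∀ I, Cop m I → ‖φ I‖ ≤ 1) (q : {P : Ideal (𝓞 K) // P.IsMaximal ∧ Cop m P}) (s : ℂ)
    (hs : 1 < s.re) :
    Summable (fun x : {P : Ideal (𝓞 K) // P.IsMaximal ∧ Cop m P} × ℕ => if x.1 = q then 0 else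
      φ x.1 ^ (x.2 + 1) * (Real.log (absNorm x.1.1) * (absNorm x.1.1 : ℂ) ^ (-((x.2 + 1) * s)))) ∧
    HasDerivAt (fun s => (1 - φ q * (absNorm q.1 : ℂ) ^ (-s)) * LS m φ s)
      (-(∑' x : {P : Ideal (𝓞 K) // P.IsMaximal ∧ Cop m P} × ℕ, if x.1 = q then 0 else
        φ x.1 ^ (x.2 + 1) * (Real.log (absNorm x.1.1) * (absNorm x.1.1 : ℂ) ^ (-((x.2 + 1) * s)))) *
        ((1 - φ q * (absNorm q.1 : ℂ) ^ (-s)) * LS m φ s)) s := by
  obtain ⟨-, hsum, -, hder⟩ := h2 K m φ hmul h1 hb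
  set g : {P : Ideal (𝓞 K) // P.IsMaximal ∧ Cop m P} × ℕ → ℂ := fun x =>
    φ x.1 ^ (x.2 + 1) * (Real.log (absNorm x.1.1) * (absNorm x.1.1 : ℂ) ^ (-((x.2 + 1) * s)))
    with hg
  have hN : ∀ P : {P : Ideal (𝓞 K) // P.IsMaximal ∧ Cop m P}, 2 ≤ absNorm P.1 :=
    fun P => two_le_norm P.2.1 P.2.2.2
  have sg : Summable g := by
    refine (hsum s.re hs).of_norm_bounded fun x => ?_
    have hpos : 0 < absNorm x.1.1 := by have := hN x.1; omega
    have hl : 0 ≤ Real.log (absNorm x.1.1) := Real.log_natCast_nonneg _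
    simp only [hg]
    rw [norm_mul, norm_mul, norm_pow, Complex.norm_real, Real.norm_of_nonneg hl,
      Complex.norm_natCast_cpow_of_pos hpos]
    have : (-((x.2 + 1 : ℂ) * s)).re = -((x.2 + 1) * s.re) := by simp
    rw [this]
    exact mul_le_of_le_one_left (by positivity) (pow_le_one₀ (norm_nonneg _) (hb _ x.1.2.2))
  have s1 : Summable fun x => if x.1 = q then 0 else g x :=
    sg.norm.of_norm_bounded fun x => by split_ifs <;> simp
  have s2 : Summable fun x => if x.1 = q then g x else 0 :=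
    sg.norm.of_norm_bounded fun x => by split_ifs <;> simp
  refine ⟨s1, ?_⟩
  set z := φ q * (absNorm q.1 : ℂ) ^ (-s) with hz
  have hq : 0 < absNorm q.1 := by have := hN q; omega
  have hzn : ‖z‖ < 1 := by
    rw [hz, norm_mul, Complex.norm_natCast_cpow_of_pos hq]
    refine (mul_le_of_le_one_left (by positivity) (hb _ q.2.2)).trans_lt ?_
    refine Real.rpow_lt_one_of_one_lt_of_neg (by exact_mod_cast hN q) ?_
    simp only [neg_re]
    linarith
  have split : ∑' x, g x = (∑' x, if x.1 = q then g x else 0) + ∑' x, if x.1 = q then 0 else g x := by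
    rw [← s2.tsum_add s1]
    refine tsum_congr fun x => ?_
    split_ifs <;> simp
  have hq' : (∑' x, if x.1 = q then g x else 0) = Real.log (absNorm q.1) * z * (1 - z)⁻¹ := by
    have hinj : Function.Injective fun k : ℕ => (q, k) := fun a b h => by simpa using h
    rw [← hinj.tsum_eq (f := fun x => if x.1 = q then g x else 0), ← tsum_geometric_of_norm_lt_one hzn,
      ← tsum_mul_left]
    · refine tsum_congr fun k => ?_
      simp only [if_true, hg]
      have : -((k + 1 : ℂ) * s) = ((k + 1 : ℕ) : ℂ) * (-s) := by push_cast; ring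
      rw [this, Complex.cpow_nat_mul, hz]
      ring
    · rintro ⟨P, k⟩ hx
      by_cases h : P = q
      · exact ⟨k, by simp [h]⟩
      · simp [h] at hx
  have hz1 : 1 - z ≠ 0 := fun h => by
    rw [sub_eq_zero] at h
    rw [← h] at hzn
    simp at hzn
  have d1 : HasDerivAt (fun s : ℂ => 1 - φ q * (absNorm q.1 : ℂ) ^ (-s))
      (Real.log (absNorm q.1) * z) s := by
    have := (((hasDerivAt_id s).neg.const_cpow (c := (absNorm q.1 : ℂ))
      (Or.inl (by exact_mod_cast hq.ne'))).const_mul (φ q)).const_sub 1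
    refine this.congr_deriv ?_
    rw [hz, Complex.natCast_log]
    simp
    ring
  refine (d1.mul (hder s hs)).congr_deriv ?_
  change _ + _ * (-(∑' x, g x) * _) = -(∑' x, if x.1 = q then 0 else g x) * _
  rw [split, hq', ← hz]
  generalize (∑' x, if x.1 = q then 0 else g x) = S
  field_simp
  ring

open scoped Classical in
theorem no_entire (h2 : StmtLogDer) {m : Ideal (𝓞 K)} (hm : m ≠ ⊥) (φ : Ideal (𝓞 K) → ℂ)
    (hmul : ∀ I J, Cop m I → Cop m J → φ (I * J) = φ I * φ J) (h1 : φ ⊤ = 1)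
    (hφ : ∀ I, Cop m I → φ I = 1 ∨ φ I = -1) {F : ℂ → ℂ} (hF : Differentiable ℂ F)
    (he : ∀ s : ℂ, 1 < s.re → F s = LS m (fun _ => 1) s * LS m φ s) : False := by
  obtain ⟨q, hq⟩ := exists_prime hm
  have hb : ∀ I, Cop m I → ‖φ I‖ ≤ 1 := fun I hI => by rcases hφ I hI with h | h <;> simp [h]
  have hN : ∀ P : {P : Ideal (𝓞 K) // P.IsMaximal ∧ Cop m P}, 2 ≤ absNorm P.1 :=
    fun P => two_le_norm P.2.1 P.2.2.2
  have hq0 : (absNorm q : ℂ) ≠ 0 := by
    have := hN ⟨q, hq⟩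
    exact_mod_cast (by simp only at this; omega)
  obtain ⟨-, hsum, t1, -⟩ := h2 K m φ hmul h1 hb
  obtain ⟨-, -, t0, -⟩ := h2 K m (fun _ => 1) (by simp) rfl (by simp)
  obtain ⟨c, hc2, c0, c1⟩ : ∃ c : ℝ, 2 < c ∧ 0 < (LS m (fun _ => 1) c).re ∧ 0 < (LS m φ c).re :=
    ((eventually_gt_atTop 2).and ((((continuous_re.tendsto 1).comp t0).eventually
      (lt_mem_nhds (by simp))).and (((continuous_re.tendsto 1).comp t1).eventually
      (lt_mem_nhds (by simp))))).exists
  let a : {P : Ideal (𝓞 K) // P.IsMaximal ∧ Cop m P} × ℕ → ℝ := fun x =>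
    if x.1 = ⟨q, hq⟩ then 0 else (1 + (φ x.1).re ^ (x.2 + 1)) * Real.log (absNorm x.1.1)
  let lam : {P : Ideal (𝓞 K) // P.IsMaximal ∧ Cop m P} × ℕ → ℝ := fun x =>
    (x.2 + 1) * Real.log (absNorm x.1.1)
  have hl : ∀ x, 0 ≤ lam x := fun x => mul_nonneg (by positivity) (Real.log_natCast_nonneg _)
  have habs : ∀ x : {P : Ideal (𝓞 K) // P.IsMaximal ∧ Cop m P} × ℕ,
      |(φ x.1).re ^ (x.2 + 1)| ≤ 1 := fun x => by
    rcases hφ _ x.1.2.2 with h | h <;> simp [h]
  have ha : ∀ x, 0 ≤ a x := fun x => by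
    simp only [a]
    split_ifs
    · exact le_rfl
    · exact mul_nonneg (by linarith [(abs_le.1 (habs x)).1]) (Real.log_natCast_nonneg _)
  have hs : Summable fun x => a x * Real.exp (-(lam x * 2)) := by
    refine ((hsum 2 (by norm_num)).mul_left 2).of_nonneg_of_le
      (fun x => mul_nonneg (ha x) (Real.exp_pos _).le) fun x => ?_
    have hpos : (0 : ℝ) < absNorm x.1.1 := by have := hN x.1; exact_mod_cast (by omega)
    rw [Real.rpow_def_of_pos hpos, ← mul_assoc]
    have : Real.log (absNorm x.1.1) * -((x.2 + 1) * 2) = -(lam x * 2) := by simp only [lam]; ring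
    rw [this]
    refine mul_le_mul_of_nonneg_right ?_ (Real.exp_pos _).le
    have hl := Real.log_natCast_nonneg (absNorm x.1.1)
    simp only [a]
    split_ifs
    · positivity
    · exact mul_le_mul_of_nonneg_right (by linarith [(abs_le.1 (habs x)).2]) hl
  obtain ⟨dP, hk⟩ := cm_series a lam ha hl 2 hs c hc2
  let E : ℂ → ℂ := fun s => (1 - 1 * (absNorm q : ℂ) ^ (-s)) * (1 - φ q * (absNorm q : ℂ) ^ (-s))
  have dE : Differentiable ℂ E := by
    have : Differentiable ℂ fun s : ℂ => (absNorm q : ℂ) ^ (-s) :=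
      fun s => (differentiableAt_id.neg).const_cpow (Or.inl hq0)
    fun_prop
  have hU : IsOpen {s : ℂ | (2 : ℝ) < s.re} := isOpen_lt continuous_const continuous_re
  have hU1 : IsOpen {s : ℂ | 1 < s.re} := isOpen_lt continuous_const continuous_re
  have hd : ∀ s ∈ {s : ℂ | (2 : ℝ) < s.re}, deriv (fun s => E s * F s) s =
      -((∑' i, (a i : ℂ) * cexp (-(lam i * s))) * (E s * F s)) := by
    intro s hs
    have hs1 : 1 < s.re := lt_trans (by norm_num) hs
    obtain ⟨s0, d0⟩ := euler h2 m (fun _ => 1) (by simp) rfl (by simp) ⟨q, hq⟩ s hs1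
    obtain ⟨s1, d1⟩ := euler h2 m φ hmul h1 hb ⟨q, hq⟩ s hs1
    have ee : (fun s => E s * F s) =ᶠ[𝓝 s] fun s =>
        ((1 - 1 * (absNorm q : ℂ) ^ (-s)) * LS m (fun _ => 1) s) *
          ((1 - φ q * (absNorm q : ℂ) ^ (-s)) * LS m φ s) := by
      filter_upwards [hU1.mem_nhds hs1] with s hs
      simp only [E]
      rw [he s hs]
      ring
    rw [ee.deriv_eq, (d0.fun_mul d1).deriv, he s hs1]
    have : (∑' i, (a i : ℂ) * cexp (-(lam i * s))) = _ := Eq.trans ?_ (s0.tsum_add s1)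
    · rw [this]
      simp only [E]
      ring
    · refine tsum_congr fun x => ?_
      have hx0 : (absNorm x.1.1 : ℂ) ≠ 0 := by have := hN x.1; exact_mod_cast (by omega)
      simp only [a, lam]
      split_ifs
      · simp
      · rw [Complex.cpow_def_of_ne_zero hx0, ← Complex.natCast_log]
        have h3 : ((φ x.1).re : ℂ) = φ x.1 := by rcases hφ _ x.1.2.2 with h | h <;> simp [h]
        push_cast
        rw [h3]
        ring_nf
  have hpos : 0 < E c * F c := by
    have hlt : (absNorm q : ℝ) ^ (-c) < 1 :=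
      Real.rpow_lt_one_of_one_lt_of_neg (by exact_mod_cast hN ⟨q, hq⟩) (by linarith)
    have hge : 0 ≤ (absNorm q : ℝ) ^ (-c) := by positivity
    have hcp : (absNorm q : ℂ) ^ (-(c : ℂ)) = (((absNorm q : ℝ) ^ (-c) : ℝ) : ℂ) := by
      rw [Complex.ofReal_cpow (Nat.cast_nonneg _)]
      simp
    rw [he c (by simp; linarith)]
    simp only [E]
    rw [hcp]
    refine mul_pos (mul_pos ?_ ?_) (mul_pos ?_ ?_)
    · exact_mod_cast (by linarith : (0 : ℝ) < 1 - 1 * (absNorm q : ℝ) ^ (-c))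
    · rcases hφ q hq.2 with h | h <;> rw [h]
      · exact_mod_cast (by linarith : (0 : ℝ) < 1 - 1 * (absNorm q : ℝ) ^ (-c))
      · exact_mod_cast (by linarith : (0 : ℝ) < 1 - (-1) * (absNorm q : ℝ) ^ (-c))
    · exact Complex.pos_iff.2 ⟨c0, (LS_real m _ (by simp) c).symm⟩
    · exact Complex.pos_iff.2 ⟨c1, (LS_real m _ (fun I hI => by
        rcases hφ I hI with h | h <;> simp [h]) c).symm⟩
  have hal := alt hU (c := c) (by simpa using hc2) (dE.mul hF) dP hd hk hpos.le
  have := (dE.mul hF).apply_le_of_iteratedDeriv_alternating (fun n _ => hal n) (z := 0)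
    (by exact_mod_cast (by linarith : (0 : ℝ) ≤ c))
  have h0 : (E * F) 0 = 0 := by simp [E]
  rw [h0] at this
  exact absurd (hpos.trans_le this) (lt_irrefl _)

end TK3b

theorem blockTK3b (h1 : StmtCont) (h2 : StmtLogDer) (h3 : StmtDens) (h4 : StmtEnt) : StmtNV := by
  intro K _ _ σ₁ σ₂ c hRQ m hm B _ _ κ hκ
  have hq := (h3.1 K).quad m hm B κ hκ fun χ hχ hnt hz => by
    obtain ⟨θ0, h0, H0, hH0, g0, -⟩ := h1 K m hm B κ hκ 1
    obtain ⟨θ1, h1', H1, hH1, g1, z1⟩ := h1 K m hm B κ hκ χ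
    obtain ⟨f0, hf0, e0⟩ := h4 K σ₁ σ₂ c hRQ m hm B κ hκ fun _ => 1
    obtain ⟨f1, hf1, e1⟩ := h4 K σ₁ σ₂ c hRQ m hm B κ hκ fun b => χ b
    obtain ⟨F, hF, he⟩ := TK3b.exists_entire h0 h1' hf0 hf1 e0 e1 hH0 hH1 g0 g1 (z1.2 hnt) hz
    refine TK3b.no_entire h2 hm (fun I => χ (κ I)) (fun I J hI hJ => by simp [hκ.mul I J hI hJ])
      ?_ (fun I hI => ?_) hF he
    · have := hκ.triv 1 one_ne_zero (by simp) (by simp)
      rw [Ideal.span_singleton_one] at this
      simp [this]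
    · have := congrArg (Units.val) (hχ I hI)
      rw [Units.val_pow_eq_pow_val, Units.val_one] at this
      exact sq_eq_one_iff.1 this
  exact ⟨hq.1, (h3.1 K).dich m hm B κ hκ hq.2⟩

end Pool.Agent.Lib.Stark
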