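import Pool.Agent.Lib.stark.Defs2

open NumberField

namespace Pool.Agent.Lib.Stark

namespace V

variable {F : Type} [Field F] {Γ : Type} [LinearOrderedCommGroupWithZero Γ]

lemma int_le_one (w : Valuation F Γ) (n : ℤ) : w (n : F) ≤ 1 := by
  have h : ((n : F)) ∈ w.integer := intCast_mem _ n
  exact h

lemma le_one_of_integral (w : Valuation F Γ) {x : F} (hx : IsIntegral ℤ x) : w x ≤ 1 :=
  (Valuation.integer.integers w).isIntegral_iff_v_le_one.mp hx.tower_top

lemma ri_le_one (w : Valuation F Γ) (x : 𝓞 F) : w (x : F) ≤ 1 :=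
  le_one_of_integral w x.isIntegral_coe

/-- The centre of a valuation on the ring of integers. -/
def centre (w : Valuation F Γ) : Ideal (𝓞 F) where
  carrier := {x | w (x : F) < 1}
  add_mem' := by
    intro a b ha hb
    show w ((a + b : 𝓞 F) : F) < 1
    have : ((a + b : 𝓞 F) : F) = (a : F) + (b : F) := rfl
    rw [this]
    exact w.map_add_lt ha hb
  zero_mem' := by
    show w ((0 : 𝓞 F) : F) < 1
    have : ((0 : 𝓞 F) : F) = 0 := rfl
    rw [this, w.map_zero]
    exact zero_lt_one
  smul_mem' := by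
    intro c a ha
    show w ((c * a : 𝓞 F) : F) < 1
    have : ((c * a : 𝓞 F) : F) = (c : F) * (a : F) := rfl
    rw [this, w.map_mul]
    calc w (c : F) * w (a : F) ≤ 1 * w (a : F) := by
          gcongr
          exact ri_le_one w c
      _ < 1 := by rw [one_mul]; exact ha

lemma mem_centre (w : Valuation F Γ) (x : 𝓞 F) : x ∈ centre w ↔ w (x : F) < 1 := Iff.rfl

lemma eq_one_of_not_lt (w : Valuation F Γ) (x : 𝓞 F) (h : ¬ w (x : F) < 1) : w (x : F) = 1 :=
  le_antisymm (ri_le_one w x) (not_lt.mp h)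

lemma centre_prime (w : Valuation F Γ) : (centre w).IsPrime := by
  refine ⟨?_, ?_⟩
  · intro h
    have h1 : (1 : 𝓞 F) ∈ centre w := h ▸ Submodule.mem_top
    rw [mem_centre] at h1
    have : ((1 : 𝓞 F) : F) = 1 := rfl
    rw [this, w.map_one] at h1
    exact lt_irrefl _ h1
  · intro a b hab
    by_contra hcon
    rw [not_or, mem_centre, mem_centre] at hcon
    rw [mem_centre] at hab
    have : ((a * b : 𝓞 F) : F) = (a : F) * (b : F) := rfl
    rw [this, w.map_mul, eq_one_of_not_lt w a hcon.1, eq_one_of_not_lt w b hcon.2, one_mul] at hab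
    exact lt_irrefl _ hab

variable [NumberField F]

lemma centre_ne_bot (w : Valuation F Γ) {p : ℕ} (hp : p.Prime) (h : w (p : F) < 1) :
    centre w ≠ ⊥ := by
  intro hb
  have h1 : (p : 𝓞 F) ∈ centre w := by
    rw [mem_centre]
    have : ((p : 𝓞 F) : F) = (p : F) := by simp
    rw [this]
    exact h
  rw [hb, Ideal.mem_bot] at h1
  exact hp.ne_zero (by exact_mod_cast h1)

lemma centre_max (w : Valuation F Γ) {p : ℕ} (hp : p.Prime) (h : w (p : F) < 1) :
    (centre w).IsMaximal :=
  (centre_prime w).isMaximal (centre_ne_bot w hp h)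

/-- Elements of valuation at most one are quotients with a unit denominator. -/
lemma exists_frac (w : Valuation F Γ) (hne : centre w ≠ ⊥) (z : F) (hz : w z ≤ 1) :
    ∃ a b : 𝓞 F, w (b : F) = 1 ∧ z * (b : F) = a := by
  let P : IsDedekindDomain.HeightOneSpectrum (𝓞 F) := ⟨centre w, centre_prime w, hne⟩
  obtain ⟨n, d, h | h⟩ := P.exists_primeCompl_mul_eq_or_mul_eq (K := F) z
  · exact ⟨n, d, eq_one_of_not_lt w d d.2, h⟩
  · have hd : w ((d : 𝓞 F) : F) = 1 := eq_one_of_not_lt w d d.2
    refine ⟨d, n, ?_, h⟩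
    apply eq_one_of_not_lt
    intro hn
    have h2 : w z * w (n : F) = 1 := by
      rw [← w.map_mul, ← hd]
      exact congrArg w h
    have h3 : w z * w (n : F) < 1 := by
      calc w z * w (n : F) ≤ 1 * w (n : F) := by gcongr
        _ < 1 := by rw [one_mul]; exact hn
    exact absurd h2 h3.ne

/-- An automorphism stabilising the centre preserves strict inequalities. -/
lemma lt_one_of (w : Valuation F Γ) (hm : (centre w).IsMaximal) (hne : centre w ≠ ⊥)
    (σ : F ≃+* F) (τ : 𝓞 F →+* 𝓞 F) (hτ : ∀ x, ((τ x : 𝓞 F) : F) = σ (x : F))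
    (hP : ∀ x ∈ centre w, τ x ∈ centre w) (z : F) (hz : w z < 1) : w (σ z) < 1 := by
  obtain ⟨a, b, hb, hab⟩ := exists_frac w hne z hz.le
  have hcom : (centre w).comap τ = centre w := by
    symm
    apply hm.eq_of_le
    · exact Ideal.comap_ne_top τ hm.ne_top
    · intro x hx
      exact hP x hx
  have hbn : b ∉ centre w := by
    rw [mem_centre, hb]
    exact lt_irrefl _
  have hτb : τ b ∉ centre w := by
    intro h
    apply hbn
    rw [← hcom]
    exact h
  have ha : a ∈ centre w := by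
    rw [mem_centre, ← hab, w.map_mul, hb, mul_one]
    exact hz
  have h1 : w (σ (b : F)) = 1 := by
    rw [← hτ]
    exact eq_one_of_not_lt w _ hτb
  have h2 : w (σ (a : F)) < 1 := by
    rw [← hτ]
    exact hP a ha
  rw [← hab, map_mul, w.map_mul, h1, mul_one] at h2
  exact h2

omit [NumberField F] in
lemma val_eq_of (w : Valuation F Γ) (σ : F ≃+* F) (hσ : ∀ z, w z < 1 → w (σ z) < 1)
    (N : ℕ) (hN : 0 < N) (hord : ∀ z, σ^[N] z = z) (z : F) : w (σ z) = w z := by
  have key : ∀ a b : F, w a < w b → w (σ a) < w (σ b) := by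
    intro a b hab
    have hb : b ≠ 0 := by
      rintro rfl
      rw [w.map_zero] at hab
      exact not_lt_zero hab
    have hb' : σ b ≠ 0 := by simpa using hb
    have hwb : 0 < w b := by
      rw [zero_lt_iff]; simpa using hb
    have hwb' : 0 < w (σ b) := by
      rw [zero_lt_iff]; simpa using hb'
    have h1 : w (a / b) < 1 := by
      rw [map_div₀, div_lt_one₀ hwb]
      exact hab
    have h2 := hσ _ h1
    rw [map_div₀, map_div₀, div_lt_one₀ hwb'] at h2
    exact h2
  obtain ⟨M, rfl⟩ : ∃ M, N = M + 1 := ⟨N - 1, by omega⟩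
  rcases lt_trichotomy (w (σ z)) (w z) with h | h | h
  · exfalso
    have step : ∀ k : ℕ, w (σ^[k + 1] z) < w (σ^[k] z) := by
      intro k
      induction k with
      | zero => exact h
      | succ k ih =>
        have := key _ _ ih
        rwa [← Function.iterate_succ_apply' σ (k + 1), ← Function.iterate_succ_apply' σ k] at this
    have all : ∀ k : ℕ, w (σ^[k + 1] z) < w z := by
      intro k
      induction k with
      | zero => exact h
      | succ k ih => exact (step (k + 1)).trans ih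
    have := all M
    rw [hord] at this
    exact lt_irrefl _ this
  · exact h
  · exfalso
    have step : ∀ k : ℕ, w (σ^[k] z) < w (σ^[k + 1] z) := by
      intro k
      induction k with
      | zero => exact h
      | succ k ih =>
        have := key _ _ ih
        rwa [← Function.iterate_succ_apply' σ (k + 1), ← Function.iterate_succ_apply' σ k] at this
    have all : ∀ k : ℕ, w z < w (σ^[k + 1] z) := by
      intro k
      induction k with
      | zero => exact h
      | succ k ih => exact ih.trans (step (k + 1))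
    have := all M
    rw [hord] at this
    exact lt_irrefl _ this

lemma frob_of (w : Valuation F Γ) (hne : centre w ≠ ⊥)
    (σ : F ≃+* F) (τ : 𝓞 F → 𝓞 F) (hτ : ∀ x, ((τ x : 𝓞 F) : F) = σ (x : F)) (q : ℕ)
    (hq : ∀ x, τ x - x ^ q ∈ centre w) (z : F) (hz : w z ≤ 1) : w (σ z - z ^ q) < 1 := by
  obtain ⟨a, b, hb, hab⟩ := exists_frac w hne z hz
  have hc : ∀ x : 𝓞 F, w (σ (x : F) - (x : F) ^ q) < 1 := by
    intro x
    have h := hq x
    rw [mem_centre] at h
    have e : ((τ x - x ^ q : 𝓞 F) : F) = σ (x : F) - (x : F) ^ q := by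
      rw [← hτ]; simp
    rwa [e] at h
  have hbq : w ((b : F) ^ q) = 1 := by rw [w.map_pow, hb, one_pow]
  have hsb : w (σ (b : F)) = 1 := by
    have e : σ (b : F) = (b : F) ^ q + (σ (b : F) - (b : F) ^ q) := by ring
    rw [e, w.map_add_eq_of_lt_left (by rw [hbq]; exact hc b), hbq]
  have e : (σ z - z ^ q) * (σ (b : F) * (b : F) ^ q) =
      (σ (a : F) - (a : F) ^ q) * (b : F) ^ q - (a : F) ^ q * (σ (b : F) - (b : F) ^ q) := by
    rw [← hab, map_mul]
    ring
  have h1 : w ((σ (a : F) - (a : F) ^ q) * (b : F) ^ q) < 1 := by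
    rw [w.map_mul, hbq, mul_one]
    exact hc a
  have h2 : w ((a : F) ^ q * (σ (b : F) - (b : F) ^ q)) < 1 := by
    rw [w.map_mul, w.map_pow]
    calc w (a : F) ^ q * w (σ (b : F) - (b : F) ^ q) ≤ 1 * w (σ (b : F) - (b : F) ^ q) := by
          gcongr
          exact pow_le_one₀ zero_le (ri_le_one w a)
      _ < 1 := by rw [one_mul]; exact hc b
  have h3 := w.map_sub_lt h1 h2
  rw [← e, w.map_mul, w.map_mul, hsb, hbq, mul_one, mul_one] at h3
  exact h3

lemma exists_bound (d : F) (hd : d ≠ 0) : ∃ m : ℕ, ∀ (Γ : Type)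
    [LinearOrderedCommGroupWithZero Γ] (w : Valuation F Γ) (p : ℕ), p.Prime → m < p →
      w (p : F) < 1 → ¬ w d < 1 := by
  have halg : IsAlgebraic ℤ d⁻¹ :=
    (IsFractionRing.isAlgebraic_iff ℤ ℚ F).mpr (Algebra.IsAlgebraic.isAlgebraic _)
  obtain ⟨m, r, hm, hr⟩ := halg.exists_nsmul_eq (𝓞 F)
  refine ⟨m, ?_⟩
  intro Γ _ w p hp hmp hwp hwd
  have e : (m : F) = d * (r : F) := by
    have : (m : F) * d⁻¹ = (r : F) := by
      rw [← nsmul_eq_mul]; exact hr
    rw [← this]; field_simp
  have hwm : w (m : F) < 1 := by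
    rw [e, w.map_mul]
    calc w d * w (r : F) ≤ w d * 1 := by
          gcongr
          exact ri_le_one w r
      _ < 1 := by rw [mul_one]; exact hwd
  have hcop : Nat.Coprime m p :=
    (Nat.coprime_of_lt_prime hm hmp hp).symm
  have hz : IsCoprime (m : ℤ) (p : ℤ) := Nat.isCoprime_iff_coprime.mpr hcop
  obtain ⟨x, y, hxy⟩ := hz
  have e1 : (x : F) * (m : F) + (y : F) * (p : F) = 1 := by exact_mod_cast congrArg (Int.cast : ℤ → F) hxy
  have h1 : w ((x : F) * (m : F)) < 1 := by
    rw [w.map_mul]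
    calc w (x : F) * w (m : F) ≤ 1 * w (m : F) := by
          gcongr
          exact int_le_one w x
      _ < 1 := by rw [one_mul]; exact hwm
  have h2 : w ((y : F) * (p : F)) < 1 := by
    rw [w.map_mul]
    calc w (y : F) * w (p : F) ≤ 1 * w (p : F) := by
          gcongr
          exact int_le_one w y
      _ < 1 := by rw [one_mul]; exact hwp
  have h3 := w.map_add_lt h1 h2
  rw [e1, w.map_one] at h3
  exact lt_irrefl _ h3

omit [NumberField F] in
lemma exists_val {L : Type} [Field L] (φ : F →+* L) (P : Ideal (𝓞 F)) (hP : P.IsMaximal) :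
    ∃ V : ValuationSubring L, ∀ x : 𝓞 F, V.valuation (φ (x : F)) < 1 ↔ x ∈ P := by
  let ψ : 𝓞 F →+* L := φ.comp (algebraMap (𝓞 F) F)
  have hinj : Function.Injective ψ := φ.injective.comp RingOfIntegers.coe_injective
  let e : 𝓞 F ≃+* ψ.range := RingEquiv.ofBijective ψ.rangeRestrict
    ⟨fun a b h => hinj (congrArg Subtype.val h), ψ.rangeRestrict_surjective⟩
  have hne : P.map (e : 𝓞 F →+* ψ.range) ≠ ⊤ := (Ideal.map_isMaximal_of_equiv e).ne_top
  obtain ⟨V, -, hV⟩ := Ideal.image_subset_nonunits_valuationSubring _ hne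
  refine ⟨V, ?_⟩
  have hle : P ≤ centre (V.valuation.comap φ) := by
    intro x hx
    rw [mem_centre, Valuation.comap_apply, ← V.mem_nonunits_iff]
    apply hV
    exact ⟨e x, Ideal.mem_map_of_mem _ hx, rfl⟩
  have heq := hP.eq_of_le (centre_prime _).ne_top hle
  intro x
  rw [heq, mem_centre, Valuation.comap_apply]

end V

theorem blockV : StmtVal := by
  intro K _ _ _ Ω _
  have : NumberField Ω := NumberField.of_module_finite K Ω
  let φ : Ω →+* ℂ := algebraMap Ω ℂ
  refine ⟨fun P hP => V.exists_val φ P hP, ?_, ?_⟩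
  · intro Z hZ
    have h1 : ∀ z z' : Ω, ∃ m : ℕ, z ≠ z' → ∀ (Γ : Type)
        [LinearOrderedCommGroupWithZero Γ] (w : Valuation Ω Γ) (p : ℕ), p.Prime → m < p →
        w (p : Ω) < 1 → ¬ w (z - z') < 1 := by
      intro z z'
      by_cases h : z = z'
      · exact ⟨0, fun h' => absurd h h'⟩
      · obtain ⟨m, hm⟩ := V.exists_bound (z - z') (sub_ne_zero.mpr h)
        exact ⟨m, fun _ => hm⟩
    choose m hm using h1
    obtain ⟨N, hN⟩ := ((hZ.prod hZ).image fun y : Ω × Ω => m y.1 y.2).bddAbove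
    refine ⟨N, ?_⟩
    intro Γ _ v p hp hNp hvp z hz z' hz' hlt
    by_contra hne
    have hle : m z z' ≤ N := hN ⟨(z, z'), ⟨hz, hz'⟩, rfl⟩
    refine hm z z' hne Γ (v.comap φ) p hp (lt_of_le_of_lt hle hNp) ?_ ?_
    · rw [Valuation.comap_apply, map_natCast]
      exact hvp
    · rw [Valuation.comap_apply, map_sub]
      exact hlt
  · intro Γ _ v p hp hvp
    let w : Valuation Ω Γ := v.comap φ
    have hwp : w (p : Ω) < 1 := by
      show v (φ (p : Ω)) < 1
      rw [map_natCast]
      exact hvp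
    have hm := V.centre_max w hp hwp
    have hne := V.centre_ne_bot w hp hwp
    refine ⟨⟨V.centre w, hm, fun x => Iff.rfl⟩, ?_⟩
    intro P hP σ
    have hPe : P = V.centre w := by
      ext x
      exact (hP x).symm
    subst hPe
    refine ⟨?_, ?_⟩
    · intro hσ z
      have hlt := V.lt_one_of w hm hne σ.toRingEquiv
        (MulSemiringAction.toRingHom (Ω ≃ₐ[K] Ω) (𝓞 Ω) σ) (fun x => rfl) hσ
      refine V.val_eq_of w σ.toRingEquiv hlt (orderOf σ) (orderOf_pos σ) ?_ z
      intro y
      have h1 : (σ ^ orderOf σ) y = y := by rw [pow_orderOf_eq_one]; rfl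
      rw [AlgEquiv.coe_pow] at h1
      exact h1
    · intro q _ hq z hz
      have h := V.frob_of w hne σ.toRingEquiv (fun x => σ • x) (fun x => rfl) q hq z hz
      have e : φ (σ.toRingEquiv z - z ^ q) = ((σ z : Ω) : ℂ) - (z : ℂ) ^ q := by
        rw [map_sub, map_pow]; rfl
      rw [← e]
      exact h

end Pool.Agent.Lib.Stark
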