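import Pool.Agent.Lib.stark.Defs2
import Pool.Agent.Lib.MP_6bf7a3_nt.H5Cont

open Complex NumberField Filter Topology
open scoped Real nonZeroDivisors ComplexConjugate

namespace Pool.Agent.Lib.Stark

open Pool.Agent.Lib.MP_6bf7a3_nt

namespace Z

/-- The domain used for the identity theorem. -/
def U : Set ℂ :=
  {s | 1 < s.re} ∪ ({s | -1 / 2 < s.re} ∩ {s | 0 < s.im}) ∪ ({s | -1 / 2 < s.re} ∩ {s | s.re < 1})

theorem isOpen_U : IsOpen U :=
  ((isOpen_lt continuous_const continuous_re).union ((isOpen_lt continuous_const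
    continuous_re).inter (isOpen_lt continuous_const continuous_im))).union
    ((isOpen_lt continuous_const continuous_re).inter (isOpen_lt continuous_re continuous_const))

theorem preconn_U : IsPreconnected U := by
  refine IsPreconnected.union (I : ℂ) (Or.inr ⟨by norm_num, by norm_num⟩)
    ⟨by norm_num, by norm_num⟩ (IsPreconnected.union (2 + I : ℂ) (by norm_num)
      ⟨by norm_num, by norm_num⟩ (convex_halfSpace_re_gt _).isPreconnected
      ((convex_halfSpace_re_gt _).inter (convex_halfSpace_im_gt _)).isPreconnected)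
    ((convex_halfSpace_re_gt _).inter (convex_halfSpace_re_lt _)).isPreconnected

theorem U_sub {s : ℂ} (h : s ∈ U) : -1 / 2 < s.re ∧ s ≠ 1 := by
  rcases h with (h | h) | h
  · exact ⟨by simp only [Set.mem_ofPred_eq] at h; linarith, by rintro rfl; simp at h⟩
  · exact ⟨h.1, by rintro rfl; simpa using h.2⟩
  · exact ⟨h.1, by rintro rfl; simpa using h.2⟩

theorem key {Ψ f : ℂ → ℂ} {w : ℂ} {ν : ℝ} (hν : 0 < ν)
    (hΨ : DifferentiableOn ℂ Ψ {s | -1 / 2 < s.re}) (hf : DifferentiableOn ℂ f {1}ᶜ)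
    (hf0 : f 0 = 0) (h : ∀ s : ℝ, 1 < s →
      Ψ s = s * cos (π * s) * Gamma s ^ 2 * (w * (ν : ℂ) ^ (s : ℂ) * f s)) :
    Ψ 0 = w * deriv f 0 := by
  let g : ℂ → ℂ := fun s => cos (π * s) * Gamma (s + 1) ^ 2 * (w * (ν : ℂ) ^ s)
  have hg : DifferentiableOn ℂ g U := fun s hs => by
    refine DifferentiableAt.differentiableWithinAt ?_
    have h1 : DifferentiableAt ℂ (fun s : ℂ => Gamma (s + 1)) s := by
      refine (differentiableAt_Gamma _ fun k hk => ?_).comp s (by fun_prop)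
      have h2 := congrArg re hk
      have h3 := (U_sub hs).1
      have h4 : (0 : ℝ) ≤ k := Nat.cast_nonneg k
      simp at h2
      linarith
    have h2 : DifferentiableAt ℂ (fun s : ℂ => (ν : ℂ) ^ s) s :=
      differentiableAt_id.const_cpow (Or.inl (by exact_mod_cast hν.ne'))
    exact ((by fun_prop : DifferentiableAt ℂ (fun s : ℂ => cos (π * s)) s).mul (h1.pow 2)).mul
      (h2.const_mul w)
  have hΨ' : DifferentiableOn ℂ Ψ U := hΨ.mono fun s hs => (U_sub hs).1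
  have hf' : DifferentiableOn ℂ f U := hf.mono fun s hs => (U_sub hs).2
  have h0 : (0 : ℂ) ∈ U := Or.inr ⟨by norm_num, by norm_num⟩
  have e : Set.EqOn (fun s => s * Ψ s) (fun s => g s * f s) U := by
    refine ((differentiableOn_id.mul hΨ').analyticOnNhd isOpen_U).eqOn_of_preconnected_of_frequently_eq
      ((hg.mul hf').analyticOnNhd isOpen_U) preconn_U (z₀ := 2) (Or.inl (Or.inl (by norm_num))) ?_
    have ht : Tendsto (fun t : ℝ => (t : ℂ)) (𝓝[>] 2) (𝓝[≠] 2) := by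
      refine tendsto_nhdsWithin_iff.2 ⟨?_, eventually_nhdsWithin_of_forall fun t ht h => ?_⟩
      · exact (continuous_ofReal.tendsto' 2 2 (by simp)).mono_left nhdsWithin_le_nhds
      · have : t = 2 := by exact_mod_cast Set.mem_singleton_iff.1 h
        simp [this] at ht
    refine ht.frequently (Eventually.frequently (eventually_nhdsWithin_of_forall fun t ht => ?_))
    have h1 : (2 : ℝ) < t := ht
    have h2 : (t : ℂ) ≠ 0 := by exact_mod_cast (by linarith : t ≠ 0)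
    simp only [Pi.mul_apply, g, h t (by linarith), Gamma_add_one _ h2]
    ring
  have n0 := isOpen_U.mem_nhds h0
  have d1 := (hasDerivAt_id (0 : ℂ)).mul (hΨ'.differentiableAt n0).hasDerivAt
  have d2 := (hg.differentiableAt n0).hasDerivAt.mul (hf'.differentiableAt n0).hasDerivAt
  have := d1.unique (d2.congr_of_eventuallyEq (e.eventuallyEq_of_mem n0))
  simpa [g, hf0] using this

variable {K : Type} [Field K] [NumberField K] {σ₁ σ₂ : K →+* ℝ}

theorem mem_dv {m I : Ideal (𝓞 K)} {c : (FractionalIdeal (𝓞 K)⁰ K)ˣ} (hc : Cp m c)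
    (hI : (c : FractionalIdeal (𝓞 K)⁰ K) = I) (α : K) :
    α ∈ cset (lat (dv m I)) 1 ↔ α - 1 ∈ loc K m m ∧
      α ∈ ((c⁻¹ : (FractionalIdeal (𝓞 K)⁰ K)ˣ) : FractionalIdeal (𝓞 K)⁰ K) := by
  obtain ⟨t, ht, ht2⟩ := exists_one_mem (a := c⁻¹) (m := m) (by rw [inv_inv]; exact hc.1)
  have h1 : (1 : K) ∈ ((c⁻¹ : (FractionalIdeal (𝓞 K)⁰ K)ˣ) : FractionalIdeal (𝓞 K)⁰ K) :=
    (mem_inv_iff (α := 1)).2 ⟨I, by rw [map_one, one_mul, hI]⟩
  change α - 1 ∈ dv m I ↔ _
  rw [dv, ← hI, ← Units.val_inv_eq_inv_val]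
  constructor
  · intro hy
    refine ⟨?_, by simpa using add_mem' (mem_of_mem_coe_mul hy) h1⟩
    refine FractionalIdeal.mul_induction_on hy (fun i hi j hj => ?_) (fun _ _ => loc_add)
    obtain ⟨i', hi', rfl⟩ := (FractionalIdeal.mem_coeIdeal _).1 hi
    exact loc_mul' (loc_alg hi') (hc.2 j hj)
  · rintro ⟨h2, h3⟩
    obtain ⟨s, hs, v, hv, e⟩ := mem_loc.1 h2
    have : α - 1 = algebraMap (𝓞 K) K (1 - s * t) * (α - 1) +
        algebraMap (𝓞 K) K v * algebraMap (𝓞 K) K t := by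
      rw [← e, map_sub, map_one, map_mul]; ring
    rw [this]
    refine add_mem' (FractionalIdeal.mul_mem_mul (FractionalIdeal.mem_coeIdeal_of_mem _ ?_)
      (sub_mem' h3 h1)) (FractionalIdeal.mul_mem_mul (FractionalIdeal.mem_coeIdeal_of_mem _ hv) ht2)
    rw [← neg_sub]; exact m.neg_mem (one_mul_mem hs ht)

omit [NumberField K] in
open Classical in
theorem hasSum_count {ε : K} {η : Kˣ} {w : ℕ} (hw : 0 < w) (h : ε * η ^ w = 1) {D : Set K}
    (hD : FD ε {0}ᶜ D) (α : Kˣ) (c : ℝ) :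
    HasSum (fun k : ℤ => if ((η ^ k * α : Kˣ) : K) ∈ D then c else 0) (w * c) := by
  have hε : ε = (η : K) ^ (-(w : ℤ)) := by
    rw [zpow_neg, zpow_natCast]; exact eq_inv_of_mul_eq_one_left h
  have e : ∀ i j : ℤ, ε ^ j * ((η ^ i * α : Kˣ) : K) = ((η ^ (i - w * j) * α : Kˣ) : K) := by
    intro i j
    rw [hε, ← zpow_mul]
    simp only [Units.val_mul, Units.val_zpow_eq_zpow_val]
    rw [← mul_assoc, ← zpow_add₀ η.ne_zero]
    congr 2; ring
  choose j hj hj' using fun i : ℤ => hD.2 ((η ^ i * α : Kˣ) : K) (Units.ne_zero _)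
  have hinj : Set.InjOn (fun i : ℕ => (i : ℤ) - w * j i) (Finset.range w) := by
    intro i hi i' hi' hii
    have h1 := Finset.mem_range.1 hi
    have h2 := Finset.mem_range.1 hi'
    have h3 := congrArg (· % (w : ℤ)) hii
    simp only [Int.sub_mul_emod_self_left] at h3
    rw [Int.emod_eq_of_lt (by omega) (by omega), Int.emod_eq_of_lt (by omega) (by omega)] at h3
    exact_mod_cast h3
  have h1 := hasSum_sum_of_ne_finset_zero
    (f := fun k : ℤ => if ((η ^ k * α : Kˣ) : K) ∈ D then c else 0)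
    (s := (Finset.range w).image fun i : ℕ => (i : ℤ) - w * j i) (L := .unconditional ℤ)
    fun k hk => if_neg fun hkD => hk (by
      have hw' : (0 : ℤ) < w := by exact_mod_cast hw
      have h2 := Int.emod_nonneg k hw'.ne'
      have h3 := Int.emod_lt_of_pos k hw'
      have h4 := Int.emod_add_mul_ediv k w
      have h5 : -(k / w) = j (k % w) := hj' _ _ (by
        beta_reduce
        rw [e, show k % w - w * -(k / w) = k by linarith]; exact hkD)
      refine Finset.mem_image.2 ⟨(k % w).toNat, Finset.mem_range.2 (by omega), ?_⟩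
      rw [Int.toNat_of_nonneg h2, ← h5]; linarith)
  rw [Finset.sum_image hinj, Finset.sum_congr rfl fun i _ => if_pos (e i _ ▸ hj i)] at h1
  simpa using h1

theorem sum_eq (hK : Module.finrank ℚ K = 2) (hσ : σ₂ ≠ σ₁) {m : Ideal (𝓞 K)}
    {η : Kˣ} (g1 : pr (𝓞 K) η = 1) (g2 : (η : K) - 1 ∈ loc K m m) (g3 : 1 < σ₂ η)
    (g4 : ∀ u : Kˣ, pr (𝓞 K) u = 1 → (u : K) - 1 ∈ loc K m m → 0 < σ₂ u → ∃ k : ℤ, u = η ^ k)
    {c : (FractionalIdeal (𝓞 K)⁰ K)ˣ} {X : Set K} (hX : ∀ α : K, α ∈ X ↔ α - 1 ∈ loc K m m ∧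
      α ∈ ((c⁻¹ : (FractionalIdeal (𝓞 K)⁰ K)ˣ) : FractionalIdeal (𝓞 K)⁰ K))
    {ε : K} {w : ℕ} (hw : 0 < w) (h : ε * η ^ w = 1) {D : Set K} (hD : FD ε {0}ᶜ D) {s : ℝ}
    (hs : 1 < s) (hsum : Summable fun p : ↥(D ∩ X) => |σ₁ p * σ₂ p| ^ (-s)) :
    ∑' p : ↥(D ∩ X), zTerm σ₁ σ₂ σ₂ s p =
      w * ((((FractionalIdeal.absNorm (c : FractionalIdeal (𝓞 K)⁰ K) : ℚ) : ℝ) : ℂ) ^ (s : ℂ)) *
        (zeta (rayS σ₂ m 1 c) s - zeta (rayS σ₂ m (-1) c) s) := by
  classical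
  set ν : ℝ := ((FractionalIdeal.absNorm (c : FractionalIdeal (𝓞 K)⁰ K) : ℚ) : ℝ) with hν_def
  have hν : 0 < ν := absNorm_pos' c
  let F : ℝ → K → ℝ := fun e α =>
    if α ∈ D then (if 0 < e * σ₂ α then (|σ₁ α * σ₂ α| * ν) ^ (-s) else 0) else 0
  have hη : |σ₁ η * σ₂ η| = 1 := by
    have := absNorm_pr hK hσ η
    rw [g1] at this
    simpa using this.symm
  have hF : ∀ e : ℝ, HasSum (fun p : ↥(D ∩ X) => (F e p : ℂ)) (w * zeta (rayS σ₂ m e c) s) := by
    intro e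
    have h1 : Summable fun p : ↥(D ∩ X) => F e p := by
      refine Summable.of_nonneg_of_le (fun p => ?_) (fun p => ?_) (hsum.mul_right (ν ^ (-s)))
      · simp only [F]; split_ifs <;> positivity
      · simp only [F]
        rw [← Real.mul_rpow (abs_nonneg _) hν.le]
        split_ifs <;> first | exact le_rfl | positivity
    have h2 : HasSum (fun p : X => F e p) (∑' p : ↥(D ∩ X), F e p) := by
      have := (hasSum_subtype_iff_indicator (s := D ∩ X) (f := F e)).1 h1.hasSum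
      refine (hasSum_subtype_iff_indicator (s := X) (f := F e)).2 (this.congr_fun fun α => ?_)
      by_cases h1 : α ∈ X <;> by_cases h2 : α ∈ D <;> simp [h1, h2, F]
    have h3 := hasSum_fiber' hK hσ g1 g2 g3 g4 (c := c) (fun p : X => (p : K)) Subtype.val_injective
      (fun α => by rw [Subtype.range_coe]; exact hX α) e (F e) (fun t => w * t ^ (-s))
      (fun α hα => by simp [F, hα.not_gt]) (fun α hα => by
        refine (hasSum_count hw h hD α _).congr_fun fun k => ?_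
        have h4 : 0 < e * σ₂ ((η ^ k * α : Kˣ) : K) := by
          simp only [Units.val_mul, Units.val_zpow_eq_zpow_val, map_mul, map_zpow₀]
          rw [mul_left_comm]
          exact mul_pos (zpow_pos (one_pos.trans g3) k) hα
        have h5 : |σ₁ ((η ^ k * α : Kˣ) : K) * σ₂ ((η ^ k * α : Kˣ) : K)| = |σ₁ α * σ₂ α| := by
          simp only [Units.val_mul, Units.val_zpow_eq_zpow_val, map_mul, map_zpow₀]
          rw [mul_mul_mul_comm, ← mul_zpow, abs_mul, abs_zpow, hη, one_zpow, one_mul]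
        simp only [F, if_pos h4, h5, hν_def]) h2
    rw [← (summable_card _ s hs).hasSum.mul_left (w : ℝ) |>.unique h3] at h2
    have h4 := hasSum_ofReal.2 h1.hasSum
    rw [← (summable_card _ s hs).hasSum.mul_left (w : ℝ) |>.unique h3] at h4
    convert h4 using 1
    rw [ofReal_mul, ofReal_tsum, zeta, ofReal_natCast]
    congr 2; funext I
    rw [ofReal_cpow (Nat.cast_nonneg _)]; simp
  have h1 := ((hF 1).sub (hF (-1))).mul_left ((ν : ℂ) ^ (s : ℂ))
  refine (h1.congr_fun fun p => ?_).tsum_eq.trans (by ring)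
  have hp0 : σ₂ p ≠ 0 := by simpa using hD.1 p.2.1
  have e1 : (ν : ℂ) ^ (s : ℂ) * ((|σ₁ p * σ₂ p| * ν) ^ (-s) : ℝ) =
      ((|σ₁ p * σ₂ p| : ℝ) : ℂ) ^ (-(s : ℂ)) := by
    rw [← ofReal_neg, ← ofReal_cpow hν.le, ← ofReal_cpow (abs_nonneg _), ← ofReal_mul,
      Real.mul_rpow (abs_nonneg _) hν.le, Real.rpow_neg hν.le, mul_left_comm,
      mul_inv_cancel₀ (Real.rpow_pos_of_pos hν s).ne', mul_one]
  simp only [zTerm, F, if_pos p.2.1, one_mul, neg_mul, Left.neg_pos_iff]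
  rcases hp0.lt_or_gt with h0 | h0
  · rw [if_neg h0.not_gt, if_pos h0, sign_neg h0, ofReal_zero, zero_sub, mul_neg, e1]; simp
  · rw [if_pos h0, if_neg h0.not_gt, sign_pos h0, ofReal_zero, sub_zero, e1]; simp

end Z

theorem blockZ (h : StmtSH2) (hS : StmtSys) (hR : StmtR1) : StmtZeta := by
  intro K _ _ σ₁ σ₂ c hRQ m hm0 hm1 η g1 g2 g3 g4 ε n w hL hε I A hI hA
  have hb := hR.2.1 K σ₁ σ₂ c hRQ
  have hc : Cp m A := cp_of_coe hA hI.1
  have hX := Z.mem_dv hc hA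
  have hw : 0 < w := Nat.pos_of_ne_zero (by
    rintro rfl
    have h1 := hL.one_lt
    rw [pow_zero, mul_one] at hε
    simp [hε] at h1)
  let u : Kˣ := (η ^ w)⁻¹
  have hu : (ε : K) = u := by
    simp only [u, Units.val_inv_eq_inv_val, Units.val_pow_eq_pow_val]
    exact eq_inv_of_mul_eq_one_left hε
  have hz : ∀ k : ℤ, ((η ^ k : Kˣ) : K) - 1 ∈ loc K m m := by
    intro k
    induction k using Int.induction_on with
    | zero => simpa using loc_zero
    | succ k ih => rw [zpow_add_one]; exact loc_one_mul ih g2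
    | pred k ih => rw [zpow_sub_one]; exact loc_one_mul ih (loc_one_inv g2)
  have hmul : ∀ (k : ℤ) p, p ∈ cset (lat (dv m I)) 1 → (ε : K) ^ k * p ∈ cset (lat (dv m I)) 1 := by
    intro k p hp
    have e : (ε : K) ^ k = ((η ^ (-(w : ℤ) * k) : Kˣ) : K) := by
      rw [hu, zpow_mul, zpow_neg, zpow_natCast, Units.val_zpow_eq_zpow_val]
    rw [hX] at hp ⊢
    rw [e]
    refine ⟨loc_one_mul (hz _) hp.1, ?_⟩
    have := (mem_pr_mul (O := 𝓞 K) (α := η ^ (-(w : ℤ) * k)) (a := A⁻¹)).2 ⟨p, hp.2, rfl⟩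
    rwa [map_zpow, g1, one_zpow, one_mul] at this
  have h0 : (0 : K) ∉ cset (lat (dv m I)) 1 := fun h0 => by
    have h1 := loc_neg ((hX 0).1 h0).1
    rw [zero_sub, neg_neg, ← map_one (algebraMap (𝓞 K) K)] at h1
    exact hm1 ((Ideal.eq_top_iff_one m).2 (mem_of_loc h1))
  have h1 : (1 : K) ∉ lat (dv m I) := fun h1 => h0 (by simpa [cset] using neg_mem h1)
  have hSL : SL (ε : K) (lat (dv m I)) := hb.sl ε _ (mul_ne_zero
    (FractionalIdeal.coeIdeal_ne_zero.2 hm0) (inv_ne_zero (FractionalIdeal.coeIdeal_ne_zero.2 hI.2)))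
  have hT : Tor (ε : K) (lat (dv m I)) 1 := by
    simpa [cset, Tor] using hmul 1 1 (by simp [cset])
  have hε0 : (ε : K) ≠ 0 := hu ▸ u.ne_zero
  obtain ⟨D, hD⟩ := hb.fd ε n {0}ᶜ hL (by simp) (fun p => by simp [hε0])
  have hD' : FD (ε : K) (cset (lat (dv m I)) 1 \ {0}) (D ∩ cset (lat (dv m I)) 1) := by
    refine ⟨fun p hp => ⟨hp.2, hD.1 hp.1⟩, fun p hp => ?_⟩
    obtain ⟨k, hk, hk'⟩ := hD.2 p hp.2
    exact ⟨k, ⟨hk, hmul k p hp.1⟩, fun k' h' => hk' k' h'.1⟩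
  obtain ⟨hsum, Ψ, hΨ, hΨ0, hΨs⟩ := h K σ₁ σ₂ c hRQ ε n hL _ 1 _ hSL hT hD'
  obtain ⟨ρ, r1, r2⟩ : ∃ ρ : Kˣ, (ρ : K) + 1 ∈ loc K m m ∧ 0 < σ₂ ρ := by
    have hN : (1 : ℝ) ≤ Ideal.absNorm m := by
      exact_mod_cast Nat.pos_of_ne_zero (Ideal.absNorm_eq_zero_iff.not.2 hm0)
    have h2 : 0 < σ₂ (2 * Ideal.absNorm m - 1) := by
      simp only [map_sub, map_mul, map_ofNat, map_natCast, map_one]; linarith
    refine ⟨Units.mk0 _ (by rintro h3; rw [h3] at h2; simp at h2), ?_, h2⟩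
    simpa [map_ofNat] using loc_alg (K := K) (m := m) (m.mul_mem_left 2 (Ideal.absNorm_mem m))
  obtain ⟨f₁, hf₁, hf₁s⟩ := exists_cont hRQ.rank hRQ.ne hm0 hc
  obtain ⟨f₂, hf₂, hf₂s⟩ := exists_cont hRQ.rank hRQ.ne hm0 (hc.mul (cp_pr_of_neg_one r1))
  have v0 := vanish_ray hRQ.rank hRQ.ne hm0 hc r1 r2 (hf₁.sub hf₂) fun s hs => by
    rw [Pi.sub_apply, hf₁s s hs, hf₂s s hs]
  have v1 := deriv_add_eq_zero hRQ.rank hRQ.ne hm0 hm1 hc r1 r2 (hf₁.add hf₂) fun s hs => by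
    rw [Pi.add_apply, hf₁s s hs, hf₂s s hs]
  have k1 := Z.key (w := w) (absNorm_pos' A) hΨ (hf₁.sub hf₂) v0 fun s hs => by
    rw [hΨs s hs, Z.sum_eq hRQ.rank hRQ.ne g1 g2 g3 g4 hX hw hε hD hs (hsum s hs), rayS_one,
      rayS_neg A r1 r2, Pi.sub_apply, hf₁s s hs, hf₂s s hs]
  have n0 : ({1}ᶜ : Set ℂ) ∈ 𝓝 0 := isOpen_compl_singleton.mem_nhds (by simp)
  rw [deriv_add (hf₁.differentiableAt n0) (hf₂.differentiableAt n0)] at v1
  rw [deriv_sub (hf₁.differentiableAt n0) (hf₂.differentiableAt n0), hΨ0] at k1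
  have k2 := congrArg (fun z => Real.log ‖z‖)
    ((hS K σ₁ σ₂ c hRQ ε n hL).cnj _ 1 hSL hT h1)
  have hne := (hS K σ₁ σ₂ c hRQ ε n hL).ne (lat (dv m I))
  simp only [norm_mul, RCLike.norm_conj, norm_one, Real.log_one] at k2
  rw [Real.log_mul (norm_ne_zero_iff.2 (hne _)) (norm_ne_zero_iff.2 (hne _))] at k2
  have hw' : (w : ℝ) ≠ 0 := by exact_mod_cast hw.ne'
  have hw'' : (w : ℂ) ≠ 0 := by exact_mod_cast hw.ne'
  refine ⟨-Real.log ‖FF σ₁ ε (dv m I) 1‖ / w, ⟨f₁, hf₁, ?_, hf₁s⟩, by field_simp⟩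
  have k3 := congrArg ofReal k2
  push_cast at k1 k3 ⊢
  rw [eq_div_iff hw'', FF]
  linear_combination (-1 / 2) * k1 + 1 / 2 * k3 + w / 2 * v1

end Pool.Agent.Lib.Stark
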