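import Pool.Agent.Lib.stark.AN
import Pool.Agent.Lib.stark.L0
import Pool.Agent.Lib.stark.M1
import Pool.Agent.Lib.stark.M2
import Pool.Agent.Lib.stark.M3
import Pool.Agent.Lib.stark.M4
import Pool.Agent.Lib.stark.SH1
import Pool.Agent.Lib.stark.FE0
import Pool.Agent.Lib.stark.P0
import Pool.Agent.Lib.stark.P23
import Pool.Agent.Lib.stark.PL
import Pool.Agent.Lib.stark.G1a
import Pool.Agent.Lib.stark.R1
import Pool.Agent.Lib.stark.L1
import Pool.Agent.Lib.stark.L2
import Pool.Agent.Lib.stark.R0
import Pool.Agent.Lib.stark.AU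
import Pool.Agent.Lib.stark.B2a
import Pool.Agent.Lib.stark.BU
import Pool.Agent.Lib.stark.SH2
import Pool.Agent.Lib.stark.FE1
import Pool.Agent.Lib.stark.TK1
import Pool.Agent.Lib.stark.TK2b
import Pool.Agent.Lib.stark.TK3a
import Pool.Agent.Lib.stark.TK3b
import Pool.Agent.Lib.stark.G0a
import Pool.Agent.Lib.stark.G0b
import Pool.Agent.Lib.stark.V
import Pool.Agent.Lib.stark.G1b
import Pool.Agent.Lib.stark.G2
import Pool.Agent.Lib.stark.G3
import Pool.Agent.Lib.stark.G4
import Pool.Agent.Lib.stark.H
import Pool.Agent.Lib.stark.H2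
import Pool.Agent.Lib.stark.S2
import Pool.Agent.Lib.stark.C2
import Pool.Agent.Lib.stark.RCF
import Pool.Agent.Lib.stark.Z
import Pool.Agent.Lib.stark.FIN
import Pool.Agent.Lib.stark.T
import Pool.Agent.Lib.stark.B2b
import Pool.Agent.Lib.stark.RG
import Pool.Agent.Lib.stark.TK2a
import Pool.Agent.Lib.stark.FE2
import Pool.Agent.Lib.stark.G5
import Pool.Agent.Lib.stark.C1

namespace Pool.Agent.Lib.Stark

/-- Tate's form of the Stark conjecture for real quadratic fields. -/
theorem final : StmtFinal :=
  have an := blockAN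
  have phi := blockM1 an
  have gam := blockM2 an phi
  have model := blockM4 an phi gam (blockM3 an phi gam)
  have r1 := blockR1
  have l1 := blockL1 (blockL0 an)
  have psi := blockL2 l1 r1
  have sys := blockR0 psi (blockT model phi l1 psi r1) r1
  have leaf := blockPL blockP0
  have au := blockAU (blockA2' leaf r1) sys psi r1
  have cong := blockB2b (blockB2a (blockP2 blockP0) r1) (blockP3 blockP0) sys psi au r1
  have sh2 := blockSH2 (blockSH1 an) l1 psi r1
  have dens := blockTK2b blockTK1 blockTK2a
  have nv := blockTK3b blockTK1 blockTK2a dens (blockTK3a blockRG r1)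
  have g := blockG3 (blockG2 dens nv blockG0a blockG0b) blockArtin (blockG1b r1) nv dens blockG0a
  have bauer := blockG4 dens blockG0a r1
  have cj := blockG5 blockG0a blockG0b r1
  have h := blockH sys au cong (blockBU cong sys psi au r1)
    (blockFE2 sh2 (blockFE1 blockFE0 an) nv r1) g bauer cj blockV blockG0a r1
  have h2 := blockH2 h g cj blockRG sys r1
  blockFIN r1 sys au h2 (blockS2' leaf sys psi r1)
    (blockC2 (blockC1 h2 blockG0a sys psi au r1) bauer sys r1) (blockRCF blockG0a)
    (blockZ sh2 sys r1) blockRG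

end Pool.Agent.Lib.Stark
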