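import Pool.Agent.Lib.stark.Defs2

/-! Block B2a, first part: the tree of lattices. -/

namespace Pool.Agent.Lib.Stark

namespace B2a

variable {K : Type} [Field K] [NumberField K] {M : Submodule ℤ K} {p : ℕ} {t t₁ t₂ θ ε : K}

omit [NumberField K] in
theorem zm {y : K} (i : ℤ) (h : y ∈ M) : (i : K) * y ∈ M := by
  simpa [zsmul_eq_mul] using M.smul_mem i h

omit [NumberField K] in
theorem meq {a b : K} (h : a ∈ M) (e : b = a) : b ∈ M := e ▸ h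

omit [NumberField K] in
theorem mem_ext {y : K} : y ∈ M ⊔ Submodule.span ℤ {t} ↔ ∃ i : ℤ, y - i * t ∈ M := by
  simp only [Submodule.mem_sup, Submodule.mem_span_singleton, zsmul_eq_mul]
  constructor
  · rintro ⟨a, ha, _, ⟨i, rfl⟩, rfl⟩
    exact ⟨i, by simpa using ha⟩
  · rintro ⟨i, h⟩
    exact ⟨_, h, _, ⟨i, rfl⟩, by ring⟩

omit [NumberField K] in
theorem le_ext {y : K} (h : y ∈ M) : y ∈ M ⊔ Submodule.span ℤ {t} := mem_ext.2 ⟨0, by simpa⟩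

omit [NumberField K] in
theorem self_ext : t ∈ M ⊔ Submodule.span ℤ {t} := mem_ext.2 ⟨1, by simp⟩

omit [NumberField K] in
theorem isLat_ext (h : IsLat M) (t : K) : IsLat (M ⊔ Submodule.span ℤ {t}) :=
  ⟨h.1.sup (Submodule.fg_span_singleton t), fun x => (h.2 x).imp fun _ hm => ⟨hm.1, le_ext hm.2⟩⟩

/-- `θ` stabilises `M`. -/
def St (θ : K) (M : Submodule ℤ K) : Prop := ∀ y ∈ M, θ * y ∈ M

omit [NumberField K] in
theorem St.ext (h : St θ M) (ht : θ * t ∈ M ⊔ Submodule.span ℤ {t}) :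
    St θ (M ⊔ Submodule.span ℤ {t}) := fun y hy => by
  obtain ⟨i, hi⟩ := mem_ext.1 hy
  exact meq (add_mem (le_ext (h _ hi)) (zm i ht)) (by ring)

/-- `(ε - 1) / p ^ a`. -/
noncomputable def eta (p a : ℕ) (ε : K) : K := (ε - 1) / (p : K) ^ a

theorem hh_iff (hp : p ≠ 0) {a : ℕ} : HH p a ε M ↔ St (eta p a ε) M := by
  have h0 : (p : K) ^ a ≠ 0 := pow_ne_zero _ (Nat.cast_ne_zero.2 hp)
  refine forall₂_congr fun y _ => ⟨?_, fun h => ⟨_, h, by rw [eta]; field_simp⟩⟩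
  rintro ⟨z, hz, e⟩
  exact meq hz (by rw [eta, div_mul_eq_mul_div, e]; field_simp)

theorem eta_succ (hp : p ≠ 0) (a : ℕ) (ε : K) : eta p a ε = p * eta p (a + 1) ε := by
  have h0 : (p : K) ≠ 0 := Nat.cast_ne_zero.2 hp
  simp only [eta]
  field_simp
  ring

theorem eta_mul (hp : p ≠ 0) (a : ℕ) (ε : K) : ε - 1 = ((p ^ a : ℕ) : ℤ) * eta p a ε := by
  have h0 : (p : K) ≠ 0 := Nat.cast_ne_zero.2 hp
  simp only [eta]
  push_cast
  field_simp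

omit [NumberField K] in
theorem dvd_of_mem (hp : p.Prime) (h1 : (p : K) * t ∈ M) (h2 : t ∉ M) {i : ℤ}
    (h : (i : K) * t ∈ M) : (p : ℤ) ∣ i := by
  by_contra hn
  obtain ⟨u, w, e⟩ := (Nat.prime_iff_prime_int.1 hp).irreducible.coprime_iff_not_dvd.2 hn
  refine h2 (meq (add_mem (zm u h1) (zm w h)) ?_)
  have : (u : K) * p + w * i = 1 := by simpa using congrArg (Int.cast (R := K)) e
  linear_combination (-t) * this

omit [NumberField K] in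
theorem mem_of_dvd (h1 : (p : K) * t ∈ M) {i : ℤ} (h : (p : ℤ) ∣ i) : (i : K) * t ∈ M := by
  obtain ⟨k, rfl⟩ := h
  exact meq (zm k h1) (by push_cast; ring)

/-- A basis of `p⁻¹ M / M`. -/
structure Bas (p : ℕ) (M : Submodule ℤ K) (t₁ t₂ : K) : Prop where
  m1 : (p : K) * t₁ ∈ M
  m2 : (p : K) * t₂ ∈ M
  gen : ∀ y : K, (p : K) * y ∈ M → ∃ i j : ℤ, y - i * t₁ - j * t₂ ∈ M
  ind : ∀ i j : ℤ, (i : K) * t₁ + j * t₂ ∈ M → (p : ℤ) ∣ i ∧ (p : ℤ) ∣ j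

omit [NumberField K] in
theorem ml (b₁ b₂ : K) : b₁ ∈ Submodule.span ℤ {b₁, b₂} := Submodule.subset_span (by simp)

omit [NumberField K] in
theorem mr (b₁ b₂ : K) : b₂ ∈ Submodule.span ℤ {b₁, b₂} := Submodule.subset_span (by simp)

theorem coord {b₁ b₂ : K} (hp : p ≠ 0) (hb : Ind b₁ b₂) (u w : ℤ) :
    ((u : K) * b₁ + w * b₂) / p ∈ Submodule.span ℤ {b₁, b₂} ↔ (p : ℤ) ∣ u ∧ (p : ℤ) ∣ w := by
  have h0 : (p : K) ≠ 0 := Nat.cast_ne_zero.2 hp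
  simp only [Submodule.mem_span_pair, zsmul_eq_mul]
  constructor
  · rintro ⟨a, b, e⟩
    obtain ⟨h1, h2⟩ := hb ((u - p * a : ℤ) : ℚ) ((w - p * b : ℤ) : ℚ) (by
      rw [eq_div_iff h0] at e
      push_cast
      linear_combination -e)
    exact ⟨⟨a, by have := Int.cast_eq_zero.1 h1; omega⟩, b, by have := Int.cast_eq_zero.1 h2; omega⟩
  · rintro ⟨⟨a, rfl⟩, b, rfl⟩
    exact ⟨a, b, by push_cast; field_simp⟩

theorem exists_coord {b₁ b₂ y : K} (hp : p ≠ 0) (h : (p : K) * y ∈ Submodule.span ℤ {b₁, b₂}) :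
    ∃ u w : ℤ, y = ((u : K) * b₁ + w * b₂) / p := by
  have h0 : (p : K) ≠ 0 := Nat.cast_ne_zero.2 hp
  obtain ⟨u, w, e⟩ := Submodule.mem_span_pair.1 h
  exact ⟨u, w, by simp only [zsmul_eq_mul] at e; rw [e]; field_simp⟩

theorem bas_of_gen {b₁ b₂ : K} (hp : p.Prime) (hb : Ind b₁ b₂)
    (hM : M = Submodule.span ℤ {b₁, b₂}) (h1 : (p : K) * t₁ ∈ M) (h2 : (p : K) * t₂ ∈ M)
    (hg : ∀ y : K, (p : K) * y ∈ M → ∃ i j : ℤ, y - i * t₁ - j * t₂ ∈ M) : Bas p M t₁ t₂ := by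
  have h0 : (p : K) ≠ 0 := Nat.cast_ne_zero.2 hp.ne_zero
  refine ⟨h1, h2, hg, fun i j h => ?_⟩
  subst hM
  obtain ⟨α, β, rfl⟩ := exists_coord hp.ne_zero h1
  obtain ⟨γ, δ, rfl⟩ := exists_coord hp.ne_zero h2
  obtain ⟨i1, j1, e1⟩ := hg (b₁ / p) (meq (ml b₁ b₂) (by field_simp))
  obtain ⟨i2, j2, e2⟩ := hg (b₂ / p) (meq (mr b₁ b₂) (by field_simp))
  obtain ⟨a1, a2⟩ := (coord hp.ne_zero hb (1 - i1 * α - j1 * γ) (-i1 * β - j1 * δ)).1
    (meq e1 (by push_cast; ring))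
  obtain ⟨a3, a4⟩ := (coord hp.ne_zero hb (-i2 * α - j2 * γ) (1 - i2 * β - j2 * δ)).1
    (meq e2 (by push_cast; ring))
  obtain ⟨a5, a6⟩ := (coord hp.ne_zero hb (i * α + j * γ) (i * β + j * δ)).1
    (meq h (by push_cast; ring))
  simp only [← ZMod.intCast_zmod_eq_zero_iff_dvd] at a1 a2 a3 a4 a5 a6 ⊢
  push_cast at a1 a2 a3 a4 a5 a6
  have hd : ((i1 : ZMod p) * j2 - j1 * i2) * (α * δ - β * γ) = 1 := by
    linear_combination (-(i2 * β + j2 * δ) : ZMod p) * a1 - a4 + (i2 * α + j2 * γ : ZMod p) * a2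
  constructor
  · linear_combination (-(i : ZMod p)) * hd + (i1 * j2 - j1 * i2 : ZMod p) * (δ * a5 - γ * a6)
  · linear_combination (-(j : ZMod p)) * hd + (i1 * j2 - j1 * i2 : ZMod p) * (α * a6 - β * a5)

theorem exists_bas {b₁ b₂ : K} (hp : p.Prime) (hb : Ind b₁ b₂)
    (hM : M = Submodule.span ℤ {b₁, b₂}) (h1 : (p : K) * t ∈ M) (h2 : t ∉ M) :
    ∃ s, Bas p M s t := by
  have h0 : (p : K) ≠ 0 := Nat.cast_ne_zero.2 hp.ne_zero
  have key : ∀ b₁ b₂ : K, Ind b₁ b₂ → M = Submodule.span ℤ {b₁, b₂} → ∀ α β : ℤ,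
      t = ((α : K) * b₁ + β * b₂) / p → ¬ (p : ℤ) ∣ β → ∃ s, Bas p M s t := by
    intro b₁ b₂ hb hM α β e hβ
    obtain ⟨u, w, huw⟩ := (Nat.prime_iff_prime_int.1 hp).irreducible.coprime_iff_not_dvd.2 hβ
    refine ⟨b₁ / p, bas_of_gen hp hb hM (hM ▸ meq (ml b₁ b₂) (by field_simp)) h1 fun y hy => ?_⟩
    rw [hM] at hy ⊢
    obtain ⟨γ, δ, rfl⟩ := exists_coord hp.ne_zero hy
    refine ⟨γ - δ * w * α, δ * w, meq ((coord hp.ne_zero hb 0 (δ - δ * w * β)).2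
      ⟨dvd_zero _, δ * u, by linear_combination (-δ) * huw⟩) ?_⟩
    rw [e]
    push_cast
    ring
  obtain ⟨α, β, e⟩ := exists_coord hp.ne_zero (hM ▸ h1)
  by_cases hβ : (p : ℤ) ∣ β
  · refine key b₂ b₁ (fun i j h => (hb j i (by rw [← h]; ring)).symm) (by rw [hM, Set.pair_comm])
      β α (by rw [e]; ring) fun hα => h2 ?_
    rw [hM, e]
    exact (coord hp.ne_zero hb α β).2 ⟨hα, hβ⟩
  · exact key b₁ b₂ hb hM α β e hβ

omit [NumberField K] in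
theorem St.quad {b₁ b₂ : K} (hb : Ind b₁ b₂) (h : St θ (Submodule.span ℤ {b₁, b₂})) :
    ∃ T D : ℤ, θ ^ 2 = T * θ - D := by
  obtain ⟨a, b, e1⟩ := Submodule.mem_span_pair.1 (h b₁ (ml b₁ b₂))
  obtain ⟨c, d, e2⟩ := Submodule.mem_span_pair.1 (h b₂ (mr b₁ b₂))
  simp only [zsmul_eq_mul] at e1 e2
  have h0 : b₁ ≠ 0 := fun h0 => one_ne_zero (hb 1 0 (by simp [h0])).1
  refine ⟨a + d, a * d - b * c, mul_right_cancel₀ h0 ?_⟩
  push_cast
  linear_combination (d - θ) * e1 - b * e2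

omit [NumberField K] in
theorem Bas.shear (h : Bas p M t₁ t₂) (l : ℤ) : Bas p M (t₁ + l * t₂) t₂ where
  m1 := meq (add_mem h.m1 (zm l h.m2)) (by ring)
  m2 := h.m2
  gen := fun y hy => by
    obtain ⟨i, j, e⟩ := h.gen y hy
    exact ⟨i, j - i * l, meq e (by push_cast; ring)⟩
  ind := fun i j e => by
    obtain ⟨a1, a2⟩ := h.ind i (i * l + j) (meq e (by push_cast; ring))
    exact ⟨a1, (Int.dvd_add_right (a1.mul_right l)).1 a2⟩

omit [NumberField K] in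
theorem Bas.not_mem (hp : p.Prime) (h : Bas p M t₁ t₂) :
    t₁ ∉ M ∧ t₂ ∉ M ∧ t₂ ∉ M ⊔ Submodule.span ℤ {t₁} := by
  have h1 : ¬ (p : ℤ) ∣ 1 := (Nat.prime_iff_prime_int.1 hp).not_dvd_one
  refine ⟨fun e => h1 (h.ind 1 0 (by simpa using e)).1, fun e => h1 (h.ind 0 1 (by simpa using e)).2,
    fun e => ?_⟩
  obtain ⟨i, e⟩ := mem_ext.1 e
  exact h1 (h.ind (-i) 1 (meq e (by push_cast; ring))).2

theorem Bas.st (hp : p ≠ 0) (h : Bas p M t₁ t₂) (h0 : St (p * θ) M) (h1 : p * θ * t₁ ∈ M)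
    (h2 : p * θ * t₂ ∈ M) : St θ M := fun y hy => by
  have h3 : (p : K) ≠ 0 := Nat.cast_ne_zero.2 hp
  obtain ⟨i, j, e⟩ := h.gen (y / p) (meq hy (by field_simp))
  exact meq (add_mem (add_mem (h0 _ e) (zm i h1)) (zm j h2)) (by field_simp; ring)

omit [NumberField K] in
theorem Bas.st_top (h : Bas p M t₁ t₂) (h0 : St θ M) :
    St θ ((M ⊔ Submodule.span ℤ {t₁}) ⊔ Submodule.span ℤ {t₂}) := by
  have key : ∀ y : K, (p : K) * y ∈ M →
      θ * y ∈ (M ⊔ Submodule.span ℤ {t₁}) ⊔ Submodule.span ℤ {t₂} := fun y hy => by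
    obtain ⟨i, j, e⟩ := h.gen (θ * y) (meq (h0 _ hy) (by ring))
    exact mem_ext.2 ⟨j, mem_ext.2 ⟨i, meq e (by ring)⟩⟩
  intro y hy
  obtain ⟨j, hy⟩ := mem_ext.1 hy
  obtain ⟨i, hy⟩ := mem_ext.1 hy
  exact key y (meq (add_mem (add_mem (zm p hy) (zm i h.m1)) (zm j h.m2)) (by push_cast; ring))

/-- All lines other than the line towards a better lattice lead to worse lattices. -/
theorem Bas.down (hp : p ≠ 0) (h : Bas p M t₁ t₂) (h0 : St (p * θ) M) (h1 : ¬St θ M)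
    (h2 : St θ (M ⊔ Submodule.span ℤ {t₂})) : ¬St (p * θ) (M ⊔ Submodule.span ℤ {t₁}) := by
  intro h3
  obtain ⟨j, a1⟩ := mem_ext.1 (h2 _ (le_ext h.m1))
  obtain ⟨i, a2⟩ := mem_ext.1 (h3 _ self_ext)
  obtain ⟨k, a3⟩ := mem_ext.1 (h2 _ self_ext)
  have a4 := (h.ind i (-j) (meq (sub_mem a1 a2) (by push_cast; ring))).1
  exact h1 (h.st hp h0 (meq (add_mem a2 (mem_of_dvd h.m1 a4)) (by ring))
    (meq (add_mem (zm p a3) (zm k h.m2)) (by push_cast; ring)))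

/-- At most two eigenlines. -/
theorem Bas.down' {b₁ b₂ : K} (hp : p.Prime) (h2 : p ≠ 2) (hb : Ind b₁ b₂)
    (hM : M = Submodule.span ℤ {b₁, b₂}) {n a : ℕ} (hε : Ind 1 ε) (hq : (ε - 1) ^ 2 = n * ε)
    (h : Bas p M t₁ t₂) (s0 : St (eta p (a + 1) ε) M) (s0' : ¬St (eta p (a + 2) ε) M)
    (s1 : St (eta p (a + 1) ε) (M ⊔ Submodule.span ℤ {t₁}))
    (s2 : St (eta p (a + 1) ε) (M ⊔ Submodule.span ℤ {t₂})) {l : ℤ} (hl : ¬(p : ℤ) ∣ l) :
    ¬St (eta p (a + 1) ε) (M ⊔ Submodule.span ℤ {t₁ + l * t₂}) := by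
  intro s3
  have hp' := Nat.prime_iff_prime_int.1 hp
  have h0 : (p : K) ≠ 0 := Nat.cast_ne_zero.2 hp.ne_zero
  have e1 := eta_succ hp.ne_zero (a + 1) ε
  have e2 := eta_mul hp.ne_zero (a + 1) ε
  generalize eta p (a + 1) ε = η at *
  obtain ⟨l1, a1⟩ := mem_ext.1 (s1 _ self_ext)
  obtain ⟨l2, a2⟩ := mem_ext.1 (s2 _ self_ext)
  obtain ⟨l3, a3⟩ := mem_ext.1 (s3 _ self_ext)
  obtain ⟨a4, a5⟩ := h.ind (l1 - l3) (l * (l2 - l3))
    (meq (sub_mem (sub_mem a3 a1) (zm l a2)) (by push_cast; ring))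
  have a6 := (hp'.dvd_or_dvd a5).resolve_left hl
  have a7 : St ((η - l3) / p) M := h.st hp.ne_zero
    (fun y hy => meq (sub_mem (s0 y hy) (zm l3 hy)) (by field_simp))
    (meq (add_mem a1 (mem_of_dvd h.m1 a4)) (by push_cast; field_simp; ring))
    (meq (add_mem a2 (mem_of_dvd h.m2 a6)) (by push_cast; field_simp; ring))
  obtain ⟨T, D, q1⟩ := St.quad hb (hM ▸ s0)
  obtain ⟨T', D', q2⟩ := St.quad hb (hM ▸ a7)
  set P : ℤ := ((p ^ (a + 1) : ℕ) : ℤ) with hP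
  have hP0 : P ≠ 0 := Int.natCast_ne_zero.2 (pow_ne_zero _ hp.ne_zero)
  have ind : ∀ i j : ℤ, (i : K) + j * η = 0 → i = 0 ∧ j = 0 := fun i j e => by
    obtain ⟨b1, b2⟩ := hε ((P * i - j : ℤ) : ℚ) (j : ℚ) (by
      rw [Rat.cast_intCast, Rat.cast_intCast]
      push_cast
      linear_combination P * e + j * e2)
    have b3 := Int.cast_eq_zero.1 b1
    have b4 := Int.cast_eq_zero.1 b2
    exact ⟨by simpa [b4, hP0] using b3, b4⟩
  obtain ⟨c1, c2⟩ := ind (-P ^ 2 * D - n) (P ^ 2 * T - n * P) (by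
    have e3 : ε = 1 + P * η := by linear_combination e2
    rw [e3] at hq
    push_cast
    linear_combination hq - (P : K) ^ 2 * q1)
  obtain ⟨-, c3⟩ := ind (-D + l3 ^ 2 + p * T' * l3 + p ^ 2 * D') (T - 2 * l3 - p * T') (by
    have q3 : (η - l3) ^ 2 = p * T' * (η - l3) - p ^ 2 * D' := by
      field_simp at q2
      linear_combination q2
    push_cast
    linear_combination q3 - q1)
  have c4 : T = -P * D := mul_left_cancel₀ (pow_ne_zero 2 hP0) (by linear_combination c2 - P * c1)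
  have c5 : (p : ℤ) ∣ 2 * l3 := ⟨-(p : ℤ) ^ a * D - T', by
    rw [hP] at c4
    push_cast at c4
    linear_combination c4 - c3⟩
  obtain ⟨k, rfl⟩ := (hp'.dvd_or_dvd c5).resolve_left fun h3 =>
    h2 ((Nat.prime_dvd_prime_iff_eq hp Nat.prime_two).1 (by exact_mod_cast h3))
  refine s0' fun y hy => meq (add_mem (a7 y hy) (zm k hy)) ?_
  rw [e1]
  push_cast
  field_simp
  ring

end B2a

end Pool.Agent.Lib.Stark
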