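import Pool.Agent.Lib.stark.Defs2

open Complex NumberField Filter Topology Ideal
open scoped Real nonZeroDivisors ComplexConjugate

namespace Pool.Agent.Lib.Stark
namespace B2b

section Val

variable {Γ : Type} [LinearOrderedCommGroupWithZero Γ] (v : Valuation ℂ Γ)

lemma cg_refl (a : ℂ) : v (a - a) < 1 := by simp

lemma cg_trans {a b c : ℂ} (h1 : v (a - b) < 1) (h2 : v (b - c) < 1) : v (a - c) < 1 := by
  have : a - c = (a - b) + (b - c) := by ring
  rw [this]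
  exact v.map_add_lt h1 h2

lemma cg_mul {a b c d : ℂ} (hb : v b ≤ 1) (hc : v c ≤ 1) (h1 : v (a - b) < 1)
    (h2 : v (c - d) < 1) : v (a * c - b * d) < 1 := by
  have : a * c - b * d = (a - b) * c + b * (c - d) := by ring
  rw [this]
  refine v.map_add_lt ?_ ?_
  · rw [v.map_mul]
    exact lt_of_le_of_lt (mul_le_of_le_one_right' hc) h1
  · rw [v.map_mul]
    exact lt_of_le_of_lt (mul_le_of_le_one_left' hb) h2

lemma cg_prod {ι : Type} (s : Finset ι) (f g : ι → ℂ) (hf : ∀ i ∈ s, v (f i) ≤ 1)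
    (hg : ∀ i ∈ s, v (g i) ≤ 1) (h : ∀ i ∈ s, v (f i - g i) < 1) :
    v (∏ i ∈ s, f i - ∏ i ∈ s, g i) < 1 := by
  classical
  induction s using Finset.induction_on with
  | empty => simp
  | insert j s hj ih =>
    rw [Finset.prod_insert hj, Finset.prod_insert hj]
    refine cg_mul v (hg j (Finset.mem_insert_self _ _)) ?_ (h j (Finset.mem_insert_self _ _)) ?_
    · rw [map_prod]
      exact Finset.prod_le_one' fun i hi => hf i (Finset.mem_insert_of_mem hi)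
    · exact ih (fun i hi => hf i (Finset.mem_insert_of_mem hi))
        (fun i hi => hg i (Finset.mem_insert_of_mem hi))
        (fun i hi => h i (Finset.mem_insert_of_mem hi))

end Val

lemma orbit_prod {H : Type} [CommGroup H] [Fintype H] (η : H) (φ : H → ℂ) :
    ∃ (ι : Type) (_ : Fintype ι) (r : ι → H), Fintype.card ι * orderOf η = Fintype.card H ∧
      ∏ u, φ u = ∏ Q, ∏ i ∈ Finset.range (orderOf η), φ (η ^ i * r Q) := by
  classical
  let S := Subgroup.zpowers η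
  have hcard : Fintype.card (H ⧸ S) * orderOf η = Fintype.card H := by
    have h1 := Subgroup.card_eq_card_quotient_mul_card_subgroup S
    rw [Nat.card_zpowers, Nat.card_eq_fintype_card, Nat.card_eq_fintype_card] at h1
    exact h1.symm
  refine ⟨H ⧸ S, inferInstance, fun Q => Q.out, hcard, ?_⟩
  let Ψ : (H ⧸ S) × Fin (orderOf η) → H := fun y => η ^ (y.2 : ℕ) * y.1.out
  have hmk : ∀ y, (QuotientGroup.mk (Ψ y) : H ⧸ S) = y.1 := by
    intro y
    have h1 : (QuotientGroup.mk (η ^ (y.2 : ℕ)) : H ⧸ S) = 1 :=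
      (QuotientGroup.eq_one_iff _).2 (Subgroup.pow_mem _ (Subgroup.mem_zpowers η) _)
    simp only [Ψ, QuotientGroup.mk_mul, h1, one_mul, QuotientGroup.out_eq']
  have hinj : Function.Injective Ψ := by
    rintro ⟨Q, i⟩ ⟨Q', i'⟩ hh
    have hQ : Q = Q' := by
      have := hmk (Q, i)
      rw [hh, hmk] at this
      exact this.symm
    subst hQ
    have h2 : η ^ (i : ℕ) = η ^ (i' : ℕ) := mul_right_cancel hh
    have h3 : (i : ℕ) = i' := pow_injOn_Iio_orderOf i.2 i'.2 h2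
    exact Prod.ext rfl (Fin.ext h3)
  have hbij : Function.Bijective Ψ := by
    rw [Fintype.bijective_iff_injective_and_card]
    exact ⟨hinj, by rw [Fintype.card_prod, Fintype.card_fin, hcard]⟩
  rw [← hbij.prod_comp φ, Fintype.prod_prod_type]
  refine Finset.prod_congr rfl fun Q _ => ?_
  exact Fin.prod_univ_eq_prod_range (fun i => φ (η ^ i * Q.out)) _

section Ideals

variable {K : Type} [Field K] [NumberField K]

omit [NumberField K] in
lemma mem_lat {a : FractionalIdeal (𝓞 K)⁰ K} {x : K} : x ∈ lat a ↔ x ∈ a := Iff.rfl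

omit [NumberField K] in
lemma mul_mem {a : FractionalIdeal (𝓞 K)⁰ K} (β : 𝓞 K) {x : K} (hx : x ∈ lat a) :
    (β : K) * x ∈ lat a := by
  have : β • x ∈ (a : Submodule (𝓞 K) K) := Submodule.smul_mem _ β hx
  rwa [Algebra.smul_def] at this

lemma mem_dv {a : FractionalIdeal (𝓞 K)⁰ K} {I : Ideal (𝓞 K)} (hI : I ≠ ⊥) (x : K) :
    x ∈ lat (dv a I) ↔ ∀ y ∈ I, (y : K) * x ∈ lat a := by
  have hI' : (I : FractionalIdeal (𝓞 K)⁰ K) ≠ 0 := FractionalIdeal.coeIdeal_ne_zero.2 hI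
  rw [mem_lat, dv, ← div_eq_mul_inv, FractionalIdeal.mem_div_iff_of_ne_zero hI']
  constructor
  · intro h y hy
    rw [mul_comm]
    exact h _ (FractionalIdeal.mem_coeIdeal_of_mem _ hy)
  · intro h y hy
    obtain ⟨z, hz, rfl⟩ := (FractionalIdeal.mem_coeIdeal _).1 hy
    rw [mul_comm]
    exact h z hz

/-- Elements that multiply `x` into `a`. -/
def ann (a : FractionalIdeal (𝓞 K)⁰ K) (x : K) : Ideal (𝓞 K) where
  carrier := {y | (y : K) * x ∈ lat a}
  add_mem' := by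
    intro y z hy hz
    have := (lat a).add_mem hy hz
    simp only [Set.mem_ofPred_eq, map_add, add_mul]
    exact this
  zero_mem' := by simp
  smul_mem' := by
    intro β y hy
    have := mul_mem β hy
    simp only [Set.mem_ofPred_eq, smul_eq_mul, map_mul, mul_assoc]
    exact this

omit [NumberField K] in
lemma mem_ann {a : FractionalIdeal (𝓞 K)⁰ K} {x : K} {y : 𝓞 K} :
    y ∈ ann a x ↔ (y : K) * x ∈ lat a := Iff.rfl

lemma dv_ne {a : FractionalIdeal (𝓞 K)⁰ K} (ha : a ≠ 0) {I : Ideal (𝓞 K)} (hI : I ≠ ⊥) :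
    dv a I ≠ 0 :=
  mul_ne_zero ha (inv_ne_zero (FractionalIdeal.coeIdeal_ne_zero.2 hI))

lemma exists_s {a : FractionalIdeal (𝓞 K)⁰ K} (ha : a ≠ 0) {p : Ideal (𝓞 K)} (hp : p ≠ ⊥)
    (hp' : p ≠ ⊤) (k : ℕ) : ∃ s : K, p ^ (k + 1) ≤ ann a s ∧ ¬p ^ k ≤ ann a s := by
  by_contra hcon
  push Not at hcon
  have hp0 : (p : FractionalIdeal (𝓞 K)⁰ K) ≠ 0 := FractionalIdeal.coeIdeal_ne_zero.2 hp
  have hle : dv a (p ^ (k + 1)) ≤ dv a (p ^ k) := by
    intro s hs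
    have h1 := (mem_dv (pow_ne_zero _ hp) s).1 hs
    exact (mem_dv (pow_ne_zero _ hp) s).2 (hcon s h1)
  have h2 := mul_le_mul_left hle (a⁻¹ * (p : FractionalIdeal (𝓞 K)⁰ K) ^ (k + 1))
  simp only [dv, FractionalIdeal.coeIdeal_pow] at h2
  have h3 : a * ((p : FractionalIdeal (𝓞 K)⁰ K) ^ (k + 1))⁻¹ *
      (a⁻¹ * (p : FractionalIdeal (𝓞 K)⁰ K) ^ (k + 1)) = 1 := by field_simp
  have h4 : a * ((p : FractionalIdeal (𝓞 K)⁰ K) ^ k)⁻¹ *
      (a⁻¹ * (p : FractionalIdeal (𝓞 K)⁰ K) ^ (k + 1)) = p := by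
    rw [pow_succ]; field_simp
  rw [h3, h4] at h2
  have h5 : ((⊤ : Ideal (𝓞 K)) : FractionalIdeal (𝓞 K)⁰ K) ≤ p := by simpa using h2
  exact hp' (top_le_iff.1 ((FractionalIdeal.coeIdeal_le_coeIdeal K).1 h5))

lemma gen {a : FractionalIdeal (𝓞 K)⁰ K} (ha : a ≠ 0) {p : Ideal (𝓞 K)} (hp : p ≠ ⊥)
    (hm : p.IsMaximal) {t : K} (ht : p ≤ ann a t) (ht' : t ∉ lat a) {w : K} (hw : p ≤ ann a w) :
    ∃ β : 𝓞 K, w - β * t ∈ lat a := by
  have hp0 : (p : FractionalIdeal (𝓞 K)⁰ K) ≠ 0 := FractionalIdeal.coeIdeal_ne_zero.2 hp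
  set M : FractionalIdeal (𝓞 K)⁰ K := a + FractionalIdeal.spanSingleton (𝓞 K)⁰ t with hM
  have hM1 : M ≤ dv a p := by
    intro y hy
    obtain ⟨y₁, h₁, y₂, h₂, rfl⟩ := (FractionalIdeal.mem_add _ _ _).1 hy
    obtain ⟨z, rfl⟩ := (FractionalIdeal.mem_spanSingleton _).1 h₂
    refine (mem_dv hp _).2 fun w' hw' => ?_
    rw [mul_add, Algebra.smul_def, mul_left_comm]
    exact (lat a).add_mem (mul_mem w' h₁) (mul_mem z (ht hw'))
  have hM2 : a ≤ M := le_sup_left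
  have h1 : M * (a⁻¹ * p) ≤ 1 := by
    have h2 := mul_le_mul_left hM1 (a⁻¹ * (p : FractionalIdeal (𝓞 K)⁰ K))
    have h3 : dv a p * (a⁻¹ * (p : FractionalIdeal (𝓞 K)⁰ K)) = 1 := by
      simp only [dv]; field_simp
    rwa [h3] at h2
  obtain ⟨I, hI⟩ := FractionalIdeal.le_one_iff_exists_coeIdeal.1 h1
  have h4 : p ≤ I := by
    have h2 := mul_le_mul_left hM2 (a⁻¹ * (p : FractionalIdeal (𝓞 K)⁰ K))
    have h3 : a * (a⁻¹ * (p : FractionalIdeal (𝓞 K)⁰ K)) = p := by field_simp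
    rw [h3, ← hI] at h2
    exact (FractionalIdeal.coeIdeal_le_coeIdeal K).1 h2
  have h5 : M = a * (p : FractionalIdeal (𝓞 K)⁰ K)⁻¹ * I := by
    rw [hI]; field_simp
  by_cases hIt : I = ⊤
  · have h6 : M = dv a p := by rw [h5, hIt, dv]; simp
    have h7 : w ∈ M := by rw [h6]; exact (mem_dv hp w).2 hw
    obtain ⟨y₁, h₁, y₂, h₂, rfl⟩ := (FractionalIdeal.mem_add _ _ _).1 h7
    obtain ⟨z, rfl⟩ := (FractionalIdeal.mem_spanSingleton _).1 h₂
    refine ⟨z, ?_⟩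
    rw [Algebra.smul_def]
    simpa using mem_lat.2 h₁
  · have h6 : p = I := hm.eq_of_le hIt h4
    have h7 : M = a := by rw [h5, ← h6]; field_simp
    refine absurd ?_ ht'
    rw [mem_lat, ← h7]
    exact (FractionalIdeal.mem_add _ _ _).2
      ⟨0, FractionalIdeal.zero_mem _, t, FractionalIdeal.mem_spanSingleton_self _ _, zero_add _⟩

lemma exists_nat {p : Ideal (𝓞 K)} (hm : p.IsMaximal) (hq : (absNorm p).Prime) (β : 𝓞 K) :
    ∃ i : ℕ, β - i ∈ p := by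
  have : Fact (absNorm p).Prime := ⟨hq⟩
  have hc : Nat.card (𝓞 K ⧸ p) = absNorm p := by
    rw [absNorm_apply, Submodule.cardQuot_apply]
  have : Nontrivial (𝓞 K ⧸ p) := Ideal.Quotient.nontrivial_iff.2 hm.ne_top
  obtain ⟨i, hi⟩ := mem_multiples_of_prime_card hc (g := (1 : 𝓞 K ⧸ p)) one_ne_zero
    (g' := Ideal.Quotient.mk p β)
  refine ⟨i, Ideal.Quotient.eq.1 ?_⟩
  rw [← hi]
  simp

lemma dvd_of_mem {p : Ideal (𝓞 K)} (hm : p.IsMaximal) (hq : (absNorm p).Prime) {m : ℕ}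
    (h : (m : 𝓞 K) ∈ p) : absNorm p ∣ m := by
  by_contra hcon
  have hco : Nat.Coprime (absNorm p) m := (Nat.Prime.coprime_iff_not_dvd hq).2 hcon
  obtain ⟨x, y, hxy⟩ := (Nat.isCoprime_iff_coprime.2 hco).map (Int.castRingHom (𝓞 K))
  apply hm.ne_top
  rw [Ideal.eq_top_iff_one, ← hxy]
  refine p.add_mem (p.mul_mem_left _ ?_) (p.mul_mem_left _ ?_)
  · simpa using Ideal.absNorm_mem p
  · simpa using h

lemma gen_nat {a : FractionalIdeal (𝓞 K)⁰ K} (ha : a ≠ 0) {p : Ideal (𝓞 K)} (hp : p ≠ ⊥)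
    (hm : p.IsMaximal) (hq : (absNorm p).Prime) {t : K} (ht : p ≤ ann a t) (ht' : t ∉ lat a)
    {w : K} (hw : p ≤ ann a w) : ∃ i : ℕ, w - i * t ∈ lat a := by
  obtain ⟨β, hβ⟩ := gen ha hp hm ht ht' hw
  obtain ⟨i, hi⟩ := exists_nat hm hq β
  refine ⟨i, ?_⟩
  have h1 := (lat a).add_mem hβ (ht hi)
  have h2 : w - (β : K) * t + ((β - i : 𝓞 K) : K) * t = w - i * t := by
    push_cast; ring
  rwa [h2] at h1

end Ideals

end B2b
end Pool.Agent.Lib.Stark
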