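import Pool.Agent.Lib.stark.Defs2

open Complex NumberField Finset
open scoped nonZeroDivisors ComplexConjugate

namespace Pool.Agent.Lib.Stark
namespace C1

lemma image_eq_self {α : Type*} [DecidableEq α] {π : α → α} (hπ : Function.Injective π)
    {S : Finset α} (hS : ∀ s ∈ S, π s ∈ S) : S.image π = S := by
  apply Finset.eq_of_subset_of_card_le
  · intro y hy
    obtain ⟨s, hs, rfl⟩ := Finset.mem_image.1 hy
    exact hS s hs
  · rw [Finset.card_image_of_injective _ hπ]

lemma reidx {α M : Type*} [DecidableEq α] [CommMonoid M] {π : α → α} (hπ : Function.Injective π)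
    {S : Finset α} (hS : ∀ s ∈ S, π s ∈ S) (φ : α → M) : ∏ s ∈ S, φ (π s) = ∏ s ∈ S, φ s := by
  conv_rhs => rw [← image_eq_self hπ hS]
  rw [Finset.prod_image fun _ _ _ _ h => hπ h]

lemma iter_mem {α : Type*} {π : α → α} {S : Finset α} (hS : ∀ s ∈ S, π s ∈ S) {s : α}
    (hs : s ∈ S) (i : ℕ) : π^[i] s ∈ S := by
  induction i with
  | zero => simpa using hs
  | succ i ih => rw [Function.iterate_succ_apply']; exact hS _ ih

lemma periodic {α : Type*} {π : α → α} (hπ : Function.Injective π) {S : Finset α}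
    (hS : ∀ s ∈ S, π s ∈ S) {s : α} (hs : s ∈ S) : 0 < Function.minimalPeriod π s := by
  obtain ⟨i, j, hij, h⟩ := Set.Finite.exists_lt_map_eq_of_forall_mem (t := (S : Set α))
    (f := fun i : ℕ => π^[i] s) (fun i => iter_mem hS hs i) S.finite_toSet
  obtain ⟨k, rfl⟩ := Nat.exists_eq_add_of_lt hij
  have h2 : π^[i] s = π^[i] (π^[k + 1] s) := by
    rw [← Function.iterate_add_apply, ← add_assoc]; exact h
  have h3 : Function.IsPeriodicPt π (k + 1) s := ((hπ.iterate i) h2).symm
  exact h3.minimalPeriod_pos (Nat.succ_pos k)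

lemma orbit_prod {α M : Type*} [DecidableEq α] [CommMonoid M] {π : α → α}
    (hπ : Function.Injective π) (W : Submonoid M) (δ : α → M) (B : ℕ) (S : Finset α)
    (hB : S.card ≤ B) (hS : ∀ s ∈ S, π s ∈ S)
    (h : ∀ s ∈ S, ∀ J, 0 < J → J ≤ B → π^[J] s = s → ∏ i ∈ range J, δ (π^[i] s) ∈ W) :
    ∏ s ∈ S, δ s ∈ W := by
  induction S using Finset.strongInduction with
  | H S ih =>
    rcases S.eq_empty_or_nonempty with rfl | ⟨s₀, hs₀⟩
    · simp
    have hJ := periodic hπ hS hs₀
    set J := Function.minimalPeriod π s₀ with hJdef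
    have hper : π^[J] s₀ = s₀ := Function.iterate_minimalPeriod
    have hinj : Set.InjOn (fun i => π^[i] s₀) (range J : Set ℕ) := by
      intro i hi j hj hij
      exact Function.iterate_injOn_Iio_minimalPeriod (by simpa using hi) (by simpa using hj) hij
    set O := (range J).image fun i => π^[i] s₀ with hO
    have hOS : O ⊆ S := by
      intro y hy
      obtain ⟨i, -, rfl⟩ := Finset.mem_image.1 hy
      exact iter_mem hS hs₀ i
    have hcard : O.card = J := by rw [hO, Finset.card_image_of_injOn hinj, card_range]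
    have hs₀O : s₀ ∈ O := Finset.mem_image.2 ⟨0, by simpa using hJ, rfl⟩
    rw [← Finset.prod_sdiff hOS]
    refine W.mul_mem (ih _ ?_ ?_ ?_ ?_) ?_
    · exact Finset.sdiff_ssubset hOS ⟨s₀, hs₀O⟩
    · exact (Finset.card_le_card Finset.sdiff_subset).trans hB
    · intro s hs
      rw [Finset.mem_sdiff] at hs ⊢
      refine ⟨hS s hs.1, fun hc => hs.2 ?_⟩
      obtain ⟨i, hi, hi2⟩ := Finset.mem_image.1 hc
      rw [Finset.mem_range] at hi
      rcases i with _ | i
      · refine Finset.mem_image.2 ⟨J - 1, by simp; omega, hπ ?_⟩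
        rw [← Function.iterate_succ_apply' π, ← hi2]
        have : (J - 1).succ = J := by omega
        rw [this]; exact hper
      · refine Finset.mem_image.2 ⟨i, by simp; omega, hπ ?_⟩
        rw [← Function.iterate_succ_apply' π, ← hi2]
    · intro s hs
      exact h s (Finset.mem_sdiff.1 hs).1
    · rw [hO, Finset.prod_image hinj]
      exact h s₀ hs₀ J hJ (hcard ▸ (Finset.card_le_card hOS).trans hB) hper

lemma half {α : Type*} [DecidableEq α] (π : Equiv.Perm α) (S : Finset α) (hS : ∀ s ∈ S, π s ∈ S)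
    (hodd : ∀ s ∈ S, ∀ j : ℤ, Odd j → (π ^ j) s ≠ s) :
    ∃ H : Finset α, H ⊆ S ∧ (∀ s ∈ H, π (π s) ∈ H) ∧ Disjoint H (H.image π) ∧
      H ∪ H.image π = S := by
  classical
  let T := Quotient (Equiv.Perm.SameCycle.setoid (π ^ 2))
  obtain ⟨_, -⟩ := exists_wellFoundedLT T
  let c : α → T := Quotient.mk _
  have hc : ∀ s, c (π (π s)) = c s := by
    intro s
    apply Quotient.sound
    refine Equiv.Perm.SameCycle.symm ⟨1, ?_⟩
    simp [pow_two]
  have hne : ∀ s ∈ S, c s ≠ c (π s) := by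
    intro s hs h
    obtain ⟨i, hi⟩ : Equiv.Perm.SameCycle (π ^ 2) s (π s) := Quotient.exact h
    apply hodd s hs (-1 + 2 * i) ⟨i - 1, by ring⟩
    rw [zpow_add, zpow_mul, Equiv.Perm.mul_apply]
    have : (π ^ (2 : ℤ)) = π ^ 2 := by norm_cast
    rw [this, hi]; simp
  refine ⟨S.filter fun s => c s < c (π s), filter_subset _ _, ?_, ?_, ?_⟩
  · intro s hs
    rw [mem_filter] at hs ⊢
    exact ⟨hS _ (hS _ hs.1), by rw [hc, hc]; exact hs.2⟩
  · rw [Finset.disjoint_left]
    intro s hs hs'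
    obtain ⟨t, ht, rfl⟩ := Finset.mem_image.1 hs'
    rw [mem_filter] at hs ht
    have h1 := hs.2
    rw [hc] at h1
    exact lt_asymm h1 ht.2
  · ext s
    rw [mem_union, mem_image]
    constructor
    · rintro (h | ⟨t, ht, rfl⟩)
      · exact (mem_filter.1 h).1
      · exact hS _ (mem_filter.1 ht).1
    · intro hs
      rcases lt_or_gt_of_ne (hne s hs) with h | h
      · exact Or.inl (mem_filter.2 ⟨hs, h⟩)
      · right
        have hs' := hs
        rw [← image_eq_self π.injective hS] at hs'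
        obtain ⟨t, ht, rfl⟩ := Finset.mem_image.1 hs'
        refine ⟨t, mem_filter.2 ⟨ht, ?_⟩, rfl⟩
        rwa [hc] at h

section Pent

variable {G : Type} [AddCommGroup G] [Fintype G] [DecidableEq G] {f : G → ℂ} {b : G → G → ℂ}
  {e : ℂ}

lemma gm_ne (h : IsPent f b e) (x : G) : gm f e x ≠ 0 := by
  unfold gm fs
  split_ifs
  · exact div_ne_zero (h.ne _) (div_ne_zero h.e_ne (h.ne _))
  · exact div_ne_zero (h.ne _) (inv_ne_zero (h.ne _))

lemma b_nsmul (h : Bichar b) (m : ℕ) (x y : G) : b (m • x) y = b x y ^ m := by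
  induction m with
  | zero => simp [h.zero]
  | succ m ih => rw [succ_nsmul, h.add, ih, pow_succ]

lemma b_coprime (h : Bichar b) {m m' : ℕ} (hm : m.Coprime m') {s t : G} (hs : m • s = 0)
    (ht : m' • t = 0) : b s t = 1 := by
  have h1 : b s t ^ m = 1 := by rw [← b_nsmul h, hs, h.zero]
  have h2 : b s t ^ m' = 1 := by rw [h.symm, ← b_nsmul h, ht, h.zero]
  have := pow_gcd_eq_one.2 ⟨h1, h2⟩
  rwa [hm.gcd_eq_one, pow_one] at this

lemma gm_four (h : IsPent f b e) (x s t : G) (hb : b s t = 1) :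
    gm f e (x + s + t) * gm f e x = gm f e (x + s) * gm f e (x + t) := by
  have h1 := h.gam (x + s) t
  have h2 := h.gam x t
  rw [h.bi.add, hb, mul_one] at h1
  have h3 := gm_ne h t
  have h4 := gm_ne h 0
  have h5 : b x t ≠ 0 := by
    intro h0
    rw [h0, mul_zero] at h2
    exact mul_ne_zero (gm_ne h x) h3 h2.symm
  apply mul_right_cancel₀ (mul_ne_zero h4 h5)
  apply mul_right_cancel₀ h3
  linear_combination (gm f e x * gm f e t) * h1 - (gm f e (x + s) * gm f e t) * h2

lemma gm_pow (h : IsPent f b e) (y : G) (N : ℕ) (hy : N • y = 0) :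
    gm f e y ^ (2 * N) = gm f e 0 ^ (2 * N) := by
  have h0 := gm_ne h 0
  have key : ∀ j : ℕ, (gm f e (j • y) * gm f e 0 ^ j) ^ 2 * b y y ^ (j * j) =
      (gm f e y ^ j * gm f e 0) ^ 2 * b y y ^ j := by
    intro j
    induction j with
    | zero => simp
    | succ j ih =>
      have h1 := h.gam (j • y) y
      rw [b_nsmul h.bi, ← succ_nsmul] at h1
      have e1 : (gm f e ((j + 1) • y) * gm f e 0 ^ (j + 1)) ^ 2 * b y y ^ ((j + 1) * (j + 1)) =
          (gm f e ((j + 1) • y) * gm f e 0 * b y y ^ j) ^ 2 * (gm f e 0 ^ j) ^ 2 *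
            b y y ^ (j * j) * b y y := by ring
      rw [e1, h1]
      have e2 : (gm f e (j • y) * gm f e y) ^ 2 * (gm f e 0 ^ j) ^ 2 * b y y ^ (j * j) * b y y =
          ((gm f e (j • y) * gm f e 0 ^ j) ^ 2 * b y y ^ (j * j)) * (gm f e y ^ 2 * b y y) := by
        ring
      rw [e2, ih]; ring
  have h1 : b y y ^ N = 1 := by rw [← b_nsmul h.bi, hy, h.bi.zero]
  have h2 := key N
  rw [hy, pow_mul, h1, one_pow] at h2
  apply mul_right_cancel₀ (pow_ne_zero 2 h0)
  linear_combination -h2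

end Pent

section At

variable {K : Type} [Field K] [NumberField K] {ε : K} {e : ℂ} {Λ : Submodule ℤ K} {F : K → ℂ}

omit [NumberField K] in
lemma tor_add {x y : K} (hx : Tor ε Λ x) (hy : Tor ε Λ y) : Tor ε Λ (x + y) := by
  unfold Tor at *
  rw [mul_add]; exact Λ.add_mem hx hy

omit [NumberField K] in
lemma tor_neg {x : K} (hx : Tor ε Λ x) : Tor ε Λ (-x) := by
  unfold Tor at *
  rw [mul_neg]; exact Λ.neg_mem hx

omit [NumberField K] in
lemma tor_zero : Tor ε Λ 0 := by
  unfold Tor; rw [mul_zero]; exact Λ.zero_mem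

omit [NumberField K] in
lemma tor_nat {x : K} (hx : Tor ε Λ x) (m : ℕ) : Tor ε Λ (m * x) := by
  induction m with
  | zero => simpa using tor_zero
  | succ m ih => push_cast; rw [add_mul, one_mul]; exact tor_add ih hx

lemma pentAt (h : PentAt ε e Λ F) :
    (∀ (y s t : K) (m m' : ℕ), m.Coprime m' → Tor ε Λ y → Tor ε Λ s → Tor ε Λ t →
      (m : K) * s ∈ Λ → (m' : K) * t ∈ Λ → y ∉ Λ → y + s ∉ Λ → y + t ∉ Λ → y + s + t ∉ Λ →
      F (y + s + t) * F (-(y + s + t)) * (F y * F (-y)) =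
        F (y + s) * F (-(y + s)) * (F (y + t) * F (-(y + t)))) ∧
    ∀ (y : K) (N : ℕ), Tor ε Λ y → y ∉ Λ → (N : K) * y ∈ Λ →
      (F y * F (-y)) ^ (2 * N) = (F 0 ^ 2 / e) ^ (2 * N) := by
  obtain ⟨G, _, _, _, q, f, b, hadd, hker, -, hf, hP⟩ := h
  have q0 : q 0 = 0 := (hker 0 tor_zero).2 Λ.zero_mem
  have qneg : ∀ y, Tor ε Λ y → q (-y) = -q y := by
    intro y hy
    have := hadd y (-y) hy (tor_neg hy)
    rw [add_neg_cancel, q0] at this
    exact (neg_eq_of_add_eq_zero_right this.symm).symm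
  have qnat : ∀ y, Tor ε Λ y → ∀ m : ℕ, q (m * y) = m • q y := by
    intro y hy m
    induction m with
    | zero => simpa using q0
    | succ m ih => push_cast; rw [add_mul, one_mul, hadd _ _ (tor_nat hy m) hy, ih, succ_nsmul]
  have qk : ∀ y, Tor ε Λ y → ∀ m : ℕ, (m : K) * y ∈ Λ → m • q y = 0 := by
    intro y hy m hm
    rw [← qnat y hy]; exact (hker _ (tor_nat hy m)).2 hm
  have hg : ∀ y, Tor ε Λ y → y ∉ Λ → gm f e (q y) = F y * F (-y) := by
    intro y hy hy'
    have : q y ≠ 0 := fun h0 => hy' ((hker y hy).1 h0)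
    unfold gm fs
    rw [if_neg this, ← qneg y hy, hf _ hy, hf _ (tor_neg hy), div_inv_eq_mul, mul_comm]
  have hg0 : gm f e 0 = F 0 ^ 2 / e := by
    have h1 := hf 0 tor_zero
    rw [q0] at h1
    unfold gm fs
    rw [if_pos rfl, neg_zero, h1, div_div_eq_mul_div, sq]
  constructor
  · intro y s t m m' hm hy hs ht hms hmt h1 h2 h3 h4
    have := gm_four hP (q y) (q s) (q t) (b_coprime hP.bi hm (qk s hs m hms) (qk t ht m' hmt))
    rwa [← hadd _ _ hy hs, ← hadd _ _ (tor_add hy hs) ht, ← hadd _ _ hy ht,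
      hg _ (tor_add (tor_add hy hs) ht) h4, hg _ hy h1, hg _ (tor_add hy hs) h2,
      hg _ (tor_add hy ht) h3] at this
  · intro y N hy hy' hN
    rw [← hg y hy hy', ← hg0]
    exact gm_pow hP _ N (qk y hy N hN)

end At

end C1
end Pool.Agent.Lib.Stark
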