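import Pool.Agent.Lib.stark.C1a

open Complex NumberField Finset
open scoped nonZeroDivisors ComplexConjugate

namespace Pool.Agent.Lib.Stark
namespace C1

set_option linter.unusedSectionVars false

variable {K : Type} [Field K] [NumberField K]

/-- The quotient of the field by a fractional ideal. -/
abbrev QA (a : FractionalIdeal (𝓞 K)⁰ K) : Type := K ⧸ (a : Submodule (𝓞 K) K)

/-- The class of an element. -/
noncomputable abbrev mq (a : FractionalIdeal (𝓞 K)⁰ K) : K →ₗ[𝓞 K] QA a :=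
  (a : Submodule (𝓞 K) K).mkQ

lemma mq_eq_zero {a : FractionalIdeal (𝓞 K)⁰ K} {y : K} : mq a y = 0 ↔ y ∈ a := by
  simp [mq]

lemma mq_eq {a : FractionalIdeal (𝓞 K)⁰ K} {y z : K} : mq a y = mq a z ↔ y - z ∈ a := by
  rw [← mq_eq_zero, map_sub, sub_eq_zero]

lemma mq_mul (a : FractionalIdeal (𝓞 K)⁰ K) (c : 𝓞 K) (y : K) :
    mq a ((c : K) * y) = c • mq a y := by
  rw [← map_smul]; rfl

lemma mq_out (a : FractionalIdeal (𝓞 K)⁰ K) (s : QA a) : mq a (Quotient.out s) = s :=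
  Quotient.out_eq s

lemma mem_lat {a : FractionalIdeal (𝓞 K)⁰ K} {y : K} : y ∈ lat a ↔ y ∈ a := Iff.rfl

lemma coe_ne {q : Ideal (𝓞 K)} (hq : q.IsMaximal) : (q : FractionalIdeal (𝓞 K)⁰ K) ≠ 0 := by
  rw [Ne, FractionalIdeal.coeIdeal_eq_zero]
  exact Ring.ne_bot_of_isMaximal_of_not_isField hq (RingOfIntegers.not_isField K)

lemma dv_mul {a : FractionalIdeal (𝓞 K)⁰ K} {q : Ideal (𝓞 K)} (hq : q.IsMaximal) :
    dv a q * q = a := by
  unfold dv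
  rw [mul_assoc, inv_mul_cancel₀ (coe_ne hq), mul_one]

lemma dv_ne {a : FractionalIdeal (𝓞 K)⁰ K} (ha : a ≠ 0) {q : Ideal (𝓞 K)} (hq : q.IsMaximal) :
    dv a q ≠ 0 := by
  intro h
  have := dv_mul (a := a) hq
  rw [h, zero_mul] at this
  exact ha this.symm

lemma le_dv {a : FractionalIdeal (𝓞 K)⁰ K} {q : Ideal (𝓞 K)} (hq : q.IsMaximal) :
    a ≤ dv a q := by
  conv_lhs => rw [← dv_mul (a := a) hq]
  conv_rhs => rw [← mul_one (dv a q)]
  exact mul_le_mul_right FractionalIdeal.coeIdeal_le_one _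

lemma mul_mem_of_dv {a : FractionalIdeal (𝓞 K)⁰ K} {q : Ideal (𝓞 K)} (hq : q.IsMaximal)
    {c : 𝓞 K} (hc : c ∈ q) {y : K} (hy : y ∈ dv a q) : (c : K) * y ∈ a := by
  rw [← dv_mul (a := a) hq, mul_comm (c : K)]
  exact FractionalIdeal.mul_mem_mul hy (FractionalIdeal.mem_coeIdeal_of_mem _ hc)

lemma exL {a : FractionalIdeal (𝓞 K)⁰ K} (ha : a ≠ 0) {q : Ideal (𝓞 K)} (hq : q.IsMaximal) :
    ∃ L : Finset (QA a), (∀ s, s ∈ L ↔ ∃ y ∈ dv a q, mq a y = s) ∧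
      L.card = Ideal.absNorm q := by
  classical
  have hq0 := coe_ne hq
  have hlt : ¬dv a q ≤ a := by
    intro h
    have h1 : dv a q * q * a⁻¹ ≤ a * q * a⁻¹ := by gcongr
    rw [dv_mul hq, mul_inv_cancel₀ ha, mul_comm a, mul_assoc, mul_inv_cancel₀ ha, mul_one] at h1
    have h2 := le_antisymm FractionalIdeal.coeIdeal_le_one h1
    exact hq.ne_top (FractionalIdeal.coeIdeal_eq_one.1 h2 ▸ Ideal.one_eq_top)
  obtain ⟨t₀, ht₀, ht₁⟩ := Set.not_subset.1 hlt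
  have hgen : ∀ y ∈ dv a q, ∃ c : 𝓞 K, mq a y = c • mq a t₀ := by
    set b := a + FractionalIdeal.spanSingleton (𝓞 K)⁰ t₀ with hb
    have hab : a ≤ b := le_sup_left
    have htb : t₀ ∈ b := (le_sup_right : FractionalIdeal.spanSingleton (𝓞 K)⁰ t₀ ≤ b)
      (FractionalIdeal.mem_spanSingleton_self _ _)
    have hbd : b ≤ dv a q :=
      sup_le (le_dv hq) (FractionalIdeal.spanSingleton_le_iff_mem.2 ht₀)
    have h1 : b * q * a⁻¹ ≤ 1 := by
      calc b * q * a⁻¹ ≤ dv a q * q * a⁻¹ := by gcongr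
        _ = 1 := by rw [dv_mul hq, mul_inv_cancel₀ ha]
    obtain ⟨J, hJ⟩ := FractionalIdeal.le_one_iff_exists_coeIdeal.1 h1
    have h2 : q ≤ J := by
      rw [← FractionalIdeal.coeIdeal_le_coeIdeal K, hJ]
      calc (q : FractionalIdeal (𝓞 K)⁰ K) = a * q * a⁻¹ := by
            rw [mul_comm a, mul_assoc, mul_inv_cancel₀ ha, mul_one]
        _ ≤ b * q * a⁻¹ := by gcongr
    have hbJ : b = J * dv a q := by
      unfold dv
      rw [hJ]; field_simp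
    have h3 : J = ⊤ := by
      by_contra h
      have := hq.eq_of_le h h2
      rw [← this, mul_comm, dv_mul hq] at hbJ
      exact ht₁ (hbJ ▸ htb)
    rw [h3, FractionalIdeal.coeIdeal_top, one_mul] at hbJ
    intro y hy
    rw [← hbJ, hb, ← FractionalIdeal.mem_coe, FractionalIdeal.coe_add, Submodule.add_eq_sup,
      Submodule.mem_sup] at hy
    obtain ⟨y₁, hy₁, y₂, hy₂, rfl⟩ := hy
    obtain ⟨c, rfl⟩ := (FractionalIdeal.mem_spanSingleton _).1 hy₂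
    refine ⟨c, ?_⟩
    rw [map_add, map_smul, mq_eq_zero.2 hy₁, zero_add]
  let φ₀ : 𝓞 K →ₗ[𝓞 K] QA a := LinearMap.toSpanSingleton _ _ (mq a t₀)
  have hker : q = LinearMap.ker φ₀ := by
    apply hq.eq_of_le
    · intro h
      have : (1 : 𝓞 K) ∈ LinearMap.ker φ₀ := h ▸ Submodule.mem_top
      simp only [LinearMap.mem_ker, φ₀, LinearMap.toSpanSingleton_apply, one_smul] at this
      exact ht₁ (mq_eq_zero.1 this)
    · intro c hc
      simp only [LinearMap.mem_ker, φ₀, LinearMap.toSpanSingleton_apply]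
      rw [← mq_mul, mq_eq_zero]
      exact mul_mem_of_dv hq hc ht₀
  let φ := Submodule.liftQ q φ₀ hker.le
  have hφ : Function.Injective φ := by
    rw [← LinearMap.ker_eq_bot]
    exact Submodule.ker_liftQ_eq_bot _ _ _ hker.ge
  have hq1 : q ≠ ⊥ := Ring.ne_bot_of_isMaximal_of_not_isField hq (RingOfIntegers.not_isField K)
  have : Finite (𝓞 K ⧸ q) := Ideal.finiteQuotientOfFreeOfNeBot q hq1
  let : Fintype (𝓞 K ⧸ q) := Fintype.ofFinite _
  refine ⟨Finset.univ.image φ, ?_, ?_⟩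
  · intro s
    simp only [Finset.mem_image, Finset.mem_univ, true_and]
    constructor
    · rintro ⟨c, rfl⟩
      obtain ⟨c, rfl⟩ := Submodule.Quotient.mk_surjective q c
      refine ⟨c • t₀, (dv a q : Submodule (𝓞 K) K).smul_mem c ht₀, ?_⟩
      rw [map_smul]; rfl
    · rintro ⟨y, hy, rfl⟩
      obtain ⟨c, hc⟩ := hgen y hy
      exact ⟨Submodule.Quotient.mk c, by rw [hc]; rfl⟩
  · rw [Finset.card_image_of_injective _ hφ, Finset.card_univ, Ideal.absNorm_apply,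
      Submodule.cardQuot_apply, Nat.card_eq_fintype_card]

open scoped Classical in
lemma reps_of {a b : FractionalIdeal (𝓞 K)⁰ K} (hab : a ≤ b) {L : Finset (QA a)}
    (hL : ∀ s, s ∈ L ↔ ∃ y ∈ b, mq a y = s) :
    Reps (lat a) (lat b) (L.image Quotient.out) := by
  constructor
  · intro t ht
    obtain ⟨s, hs, rfl⟩ := Finset.mem_image.1 ht
    obtain ⟨y, hy, h⟩ := (hL s).1 hs
    rw [← mq_out a s, mq_eq] at h
    have : (Quotient.out s : K) = y - (y - Quotient.out s) := by ring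
    rw [mem_lat, this]
    exact (b : Submodule (𝓞 K) K).sub_mem hy (hab h)
  · intro y hy
    refine ⟨Quotient.out (mq a y), ⟨Finset.mem_image.2 ⟨_, (hL _).2 ⟨y, hy, rfl⟩, rfl⟩, ?_⟩, ?_⟩
    · rw [mem_lat, ← mq_eq, mq_out]
    · rintro t ⟨ht, ht'⟩
      obtain ⟨s, -, rfl⟩ := Finset.mem_image.1 ht
      rw [mem_lat, ← mq_eq, mq_out] at ht'
      rw [ht']

lemma cpow (ε : 𝓞 K) (J : ℕ) : ((ε ^ J : 𝓞 K) : K) = (ε : K) ^ J := by simp

variable [Algebra K ℝ]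

lemma lift (hL : StmtLift) {Ω Ω' : IntermediateField K ℂ} [FiniteDimensional K Ω] [IsGalois K Ω]
    [FiniteDimensional K Ω'] [IsGalois K Ω'] (h : Ω ≤ Ω') {q : Ideal (𝓞 K)} (hq : q.IsMaximal)
    {Q : Ideal (𝓞 Ω)} {σ : Ω ≃ₐ[K] Ω} (hσ : Frob q Q σ) :
    ∃ (Q' : Ideal (𝓞 Ω')) (σ' : Ω' ≃ₐ[K] Ω'), Frob q Q' σ' ∧
      ∀ z : Ω, σ' (IntermediateField.inclusion h z) = IntermediateField.inclusion h (σ z) := by
  have : NumberField Ω := NumberField.of_module_finite K Ω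
  have : NumberField Ω' := NumberField.of_module_finite K Ω'
  let : Algebra Ω Ω' := (IntermediateField.inclusion h).toRingHom.toAlgebra
  have : IsScalarTower K Ω Ω' := IsScalarTower.of_algebraMap_eq fun _ => rfl
  obtain ⟨Q', σ', h1, h2⟩ := (hL.1 K Ω Ω' q hq).1 Q σ hσ
  refine ⟨Q', σ', h1, fun z => ?_⟩
  rw [← h2]
  exact (AlgEquiv.restrictNormal_commutes σ' Ω z).symm

lemma root_fin {M : ℕ} (hM : 0 < M) : {ζ : ℂ | ζ ^ M = 1}.Finite := by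
  refine (Polynomial.nthRoots M (1 : ℂ)).toFinset.finite_toSet.subset fun ζ hζ => ?_
  simpa [Polynomial.mem_nthRoots hM] using hζ

lemma root_alg {M : ℕ} (hM : 0 < M) {ζ : ℂ} (h : ζ ^ M = 1) : IsAlgebraic ℚ ζ :=
  IsAlgebraic.of_pow hM (h ▸ isAlgebraic_one)

lemma big (h : StmtH2) (hS : StmtSys) (hAU : StmtAU) (hR : StmtR1) {σ₂ : K →+* ℝ} {c : K ≃+* K}
    (hRQ : RQ (algebraMap K ℝ) σ₂ c) (ε : 𝓞 K) (h1 : algebraMap K ℝ ε * σ₂ ε = 1)
    (h2 : 8 ≤ algebraMap K ℝ ε) (Ω : IntermediateField K ℂ) [FiniteDimensional K Ω] (J₀ M : ℕ)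
    (hM : 0 < M) :
    ∃ Ω' : IntermediateField K ℂ, FiniteDimensional K Ω' ∧ IsGalois K Ω' ∧ Ω ≤ Ω' ∧
      (∀ ζ : ℂ, ζ ^ M = 1 → ζ ∈ Ω') ∧ ∀ J, 0 < J → J ≤ J₀ → H2Prop σ₂ (ε ^ J) Ω' ∧
        ∀ (a : FractionalIdeal (𝓞 K)⁰ K) x, a ≠ 0 → Tor ((ε ^ J : 𝓞 K) : K) (lat a) x →
          FF (algebraMap K ℝ) (ε ^ J) a x ∈ Ω' := by
  have hb := hR.2.1 K _ _ c hRQ
  have h8 : ∀ J, 0 < J → 8 ≤ algebraMap K ℝ (ε ^ J : 𝓞 K) := by
    intro J hJ
    rw [cpow, map_pow]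
    exact h2.trans (le_self_pow₀ (by linarith) hJ.ne')
  have hlev : ∀ J : ℕ, ∃ n, 0 < J → Lev (algebraMap K ℝ) σ₂ ((ε ^ J : 𝓞 K) : K) n := by
    intro J
    rcases J.eq_zero_or_pos with rfl | hJ
    · exact ⟨0, fun h => absurd h (lt_irrefl 0)⟩
    obtain ⟨n, hn⟩ := hb.lev (ε ^ J) (by rw [cpow, map_pow, map_pow, ← mul_pow, h1, one_pow])
      (by linarith [h8 J hJ])
    exact ⟨n, fun _ => hn⟩
  choose n hn using hlev
  have : NumberField Ω := NumberField.of_module_finite K Ω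
  let bs := Module.finBasis K Ω
  let Z : Set ℂ := (Set.range (fun i => (bs i : ℂ)) ∪ {ζ | ζ ^ M = 1}) ∪
    ⋃ J ∈ Set.Icc 1 J₀, ({z | ∃ Λ x, SL ((ε ^ J : 𝓞 K) : K) Λ ∧ Tor ((ε ^ J : 𝓞 K) : K) Λ x ∧
      z = Psi (algebraMap K ℝ) ((ε ^ J : 𝓞 K) : K) Λ x} ∪ {ζ | ζ ^ n J = 1})
  have hZf : Z.Finite := by
    refine ((Set.finite_range _).union (root_fin hM)).union
      ((Set.finite_Icc 1 J₀).biUnion fun J hJ => ?_)
    exact (hS K _ _ c hRQ _ _ (hn J hJ.1)).fin.union (root_fin (hb.norm _ _ (hn J hJ.1)).2.1)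
  have hZa : ∀ z ∈ Z, IsAlgebraic ℚ z := by
    rintro z ((⟨i, rfl⟩ | hz) | hz)
    · have : IsAlgebraic ℚ (bs i) := Algebra.IsAlgebraic.isAlgebraic _
      exact this.algHom (Ω.val.toRingHom.toRatAlgHom)
    · exact root_alg hM hz
    · simp only [Set.mem_iUnion] at hz
      obtain ⟨J, hJ, (⟨Λ, x, h3, h4, rfl⟩ | hz)⟩ := hz
      · exact (hAU K _ _ c hRQ _ _ (hn J hJ.1) Λ x h3 h4).1
      · exact root_alg (hb.norm _ _ (hn J hJ.1)).2.1 hz
  obtain ⟨Ω', hf, hg, hZ, -⟩ := hR.2.2 K Z hZf hZa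
  refine ⟨Ω', hf, hg, ?_, fun ζ hζ => hZ _ (Or.inl (Or.inr hζ)), fun J hJ hJ' => ?_⟩
  · intro z hz
    have e1 : z = ((∑ i, bs.repr ⟨z, hz⟩ i • bs i : Ω) : ℂ) := by rw [bs.sum_repr]
    rw [e1, IntermediateField.coe_sum]
    refine Ω'.sum_mem fun i _ => ?_
    rw [IntermediateField.coe_smul]
    exact Ω'.smul_mem (hZ _ (Or.inl (Or.inl ⟨i, rfl⟩)))
  · have hHas : Has Ω' (ε ^ J) (n J) := by
      constructor
      · intro a x ha hx
        exact hZ _ (Or.inr (Set.mem_biUnion (show J ∈ Set.Icc 1 J₀ from ⟨hJ, hJ'⟩)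
          (Or.inl ⟨_, x, hb.sl _ a ha, hx, rfl⟩)))
      · intro ζ hζ
        exact hZ _ (Or.inr (Set.mem_biUnion (show J ∈ Set.Icc 1 J₀ from ⟨hJ, hJ'⟩) (Or.inr hζ)))
    exact ⟨h K σ₂ c hRQ _ _ (hn J hJ) (hb.nr _ _ (hn J hJ) (h8 J hJ)) Ω' hHas, hHas.1⟩

end C1
end Pool.Agent.Lib.Stark
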