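import Pool.Agent.Lib.stark.C1a

open Complex Finset
open scoped ComplexConjugate

namespace Pool.Agent.Lib.Stark
namespace C1

set_option linter.unusedSectionVars false

variable {R A : Type} [CommRing R] [AddCommGroup A] [Module R A] [DecidableEq A]

/-- Product along an orbit. -/
noncomputable def Fl (w : R) (P : A → ℂ) (J : ℕ) (s : A) : ℂ := ∏ i ∈ range J, P ((w ^ 2) ^ i • s)

/-- Quotient by the conjugate. -/
noncomputable def gl (w : R) (P : A → ℂ) (J : ℕ) (s : A) : ℂ := Fl w P J s / Fl w P J (w • s)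

/-- The abstract input. -/
structure Ctx (w : R) (P : A → ℂ) (k n : ℕ) (x : A) : Prop where
  unit : IsUnit w
  ne : ∀ s, P s ≠ 0
  fix : w • x = x
  xne : x ≠ 0
  kill : n • x = 0
  cnj : ∀ J s, 0 < J → (w ^ 2) ^ J • s = s → conj (Fl w P J s) = Fl w P J (w • s)
  four : ∀ (J : ℕ) (y s t : A) (m m' : ℕ), 0 < J → m.Coprime m' → (w ^ 2) ^ J • y = y →
    (w ^ 2) ^ J • s = s → (w ^ 2) ^ J • t = t → m • s = 0 → m' • t = 0 → y ≠ 0 → y + s ≠ 0 →
    y + t ≠ 0 → y + s + t ≠ 0 →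
    gl w P J (y + s + t) * gl w P J y = gl w P J (y + s) * gl w P J (y + t)
  pow : ∀ (J : ℕ) (y : A) (N : ℕ), 0 < J → (w ^ 2) ^ J • y = y → y ≠ 0 → N • y = 0 →
    gl w P J y ^ (2 * N * k) = 1

/-- Half systems. -/
structure Half (w : R) (n p : ℕ) (L H : Finset A) : Prop where
  stab : ∀ s ∈ H, w ^ 2 • s ∈ H
  split : ∀ φ : A → ℂ, ∏ s ∈ L, φ s = φ 0 * ∏ s ∈ H, (φ s * φ (w • s))
  card : 2 * H.card + 1 = p
  kill : ∀ s ∈ H, p • s = 0
  cop : n.Coprime p

lemma inj {B : Type} [AddCommGroup B] [Module R B] {w : R} (hw : IsUnit w) :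
    Function.Injective fun s : B => w • s := fun _ _ h => hw.smul_left_cancel.1 h

variable {w : R} {P : A → ℂ} {k n : ℕ} {x : A}

lemma Ctx.fixp (h : Ctx w P k n x) (i : ℕ) : (w ^ 2) ^ i • x = x := by
  rw [← pow_mul]
  induction 2 * i with
  | zero => simp
  | succ j ih => rw [pow_succ, mul_smul, h.fix, ih]

lemma Ctx.ne_zero (h : Ctx w P k n x) {m : ℕ} (hm : n.Coprime m) {s : A} (hs : m • s = 0) :
    x + s ≠ 0 := by
  intro h0
  have h1 : m • x = 0 := by
    have : x = -s := eq_neg_of_add_eq_zero_left h0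
    rw [this, smul_neg, hs, neg_zero]
  apply h.xne
  have h2 := addOrderOf_dvd_of_nsmul_eq_zero h1
  have h3 := addOrderOf_dvd_of_nsmul_eq_zero h.kill
  exact AddMonoid.addOrderOf_eq_one_iff.1 (Nat.eq_one_of_dvd_coprimes hm h3 h2)

lemma Ctx.orb (h : Ctx w P k n x) (Q : A → ℂ) (J : ℕ) (s : A) :
    ∏ i ∈ range J, Q (x + (w ^ 2) ^ i • s) = Fl w Q J (x + s) := by
  unfold Fl
  simp only [smul_add, h.fixp]

lemma Ctx.orbw (h : Ctx w P k n x) (Q : A → ℂ) (J : ℕ) (s : A) :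
    ∏ i ∈ range J, Q (x + w • (w ^ 2) ^ i • s) = Fl w Q J (w • (x + s)) := by
  unfold Fl
  simp only [smul_add, h.fixp, h.fix, smul_comm w]

lemma Ctx.per (h : Ctx w P k n x) {J : ℕ} {s : A} (hs : (w ^ 2) ^ J • s = s) :
    (w ^ 2) ^ J • (x + s) = x + s := by rw [smul_add, h.fixp, hs]

lemma Ctx.real (h : Ctx w P k n x) : conj (P x) = P x := by
  have := h.cnj 1 x one_pos (h.fixp 1)
  simpa [Fl, h.fix] using this

lemma Ctx.prod_cnj (h : Ctx w P k n x) {S : Finset A} (hS : ∀ s ∈ S, w ^ 2 • s ∈ S) :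
    conj (∏ s ∈ S, P (x + s)) = ∏ s ∈ S, P (x + w • s) := by
  let W : Submonoid (ℂ × ℂ) :=
    { carrier := {p | conj p.1 = p.2}
      mul_mem' := by
        intro p q hp hq
        simp only [Set.mem_ofPred_eq, Prod.fst_mul, Prod.snd_mul, map_mul] at *
        rw [hp, hq]
      one_mem' := by simp }
  have := orbit_prod (inj (h.unit.pow 2)) W (fun s => (P (x + s), P (x + w • s))) S.card S le_rfl
    hS (fun s _ J hJ _ hs => ?_)
  · have h2 : conj (∏ s ∈ S, (P (x + s), P (x + w • s))).1 =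
      (∏ s ∈ S, (P (x + s), P (x + w • s))).2 := this
    rwa [Prod.fst_prod, Prod.snd_prod] at h2
  · rw [smul_iterate_apply] at hs
    show conj (∏ i ∈ range J, _ : ℂ × ℂ).1 = (∏ i ∈ range J, _ : ℂ × ℂ).2
    simp only [Prod.fst_prod, Prod.snd_prod, smul_iterate_apply]
    rw [h.orb, h.orbw]
    exact h.cnj J _ hJ (h.per hs)

lemma Ctx.gam_pow (h : Ctx w P k n x) {p : ℕ} {L H : Finset A} (hH : Half w n p L H) :
    ((∏ s ∈ H, P (x + s)) / ∏ s ∈ H, P (x + w • s)) ^ (2 * (n * p) * k) = 1 := by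
  rw [← Finset.prod_div_distrib]
  let W : Submonoid ℂ := MonoidHom.mker (powMonoidHom (2 * (n * p) * k))
  refine orbit_prod (inj (h.unit.pow 2)) W (fun s => P (x + s) / P (x + w • s)) H.card H le_rfl
    hH.stab (fun s hsH J hJ _ hs => ?_)
  rw [smul_iterate_apply] at hs
  show (∏ i ∈ range J, _ : ℂ) ^ _ = 1
  simp only [Finset.prod_div_distrib, smul_iterate_apply]
  rw [h.orb, h.orbw]
  refine h.pow J _ _ hJ (h.per hs) (h.ne_zero hH.cop (hH.kill s hsH)) ?_
  rw [smul_add, mul_comm n p, mul_smul, h.kill, mul_comm p n, mul_smul, hH.kill s hsH]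
  simp

lemma Ctx.cross (h : Ctx w P k n x) {p p' : ℕ} {L H L' H' : Finset A} (hH : Half w n p L H)
    (hH' : Half w n p' L' H') (hp : p.Coprime p') :
    (∏ s ∈ H, ∏ t ∈ H', P (x + s + w • t)) *
        ((∏ t ∈ H', P (x + t)) / ∏ t ∈ H', P (x + w • t)) ^ H.card =
      (∏ s ∈ H, ∏ t ∈ H', P (x + w • s + t)) *
        ((∏ s ∈ H, P (x + s)) / ∏ s ∈ H, P (x + w • s)) ^ H'.card := by
  let γ : A → ℂ := fun s => P (x + s) / P (x + w • s)
  have hγ : ∀ s, γ s ≠ 0 := fun s => div_ne_zero (h.ne _) (h.ne _)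
  have key : ∏ z ∈ H ×ˢ H', γ (z.1 + w • z.2) / (γ z.1 * γ (w • z.2)) ∈ (⊥ : Submonoid ℂ) := by
    refine orbit_prod (π := fun z : A × A => w ^ 2 • z) (inj (h.unit.pow 2)) ⊥
      (fun z => γ (z.1 + w • z.2) / (γ z.1 * γ (w • z.2))) _ _ le_rfl ?_ ?_
    · intro z hz
      rw [mem_product] at hz ⊢
      exact ⟨hH.stab _ hz.1, hH'.stab _ hz.2⟩
    rintro ⟨s, t⟩ hz J hJ - hs
    rw [mem_product] at hz
    rw [smul_iterate_apply, Prod.smul_mk, Prod.mk.injEq] at hs
    have ht : (w ^ 2) ^ J • w • t = w • t := by rw [smul_comm, hs.2]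
    have hkt : p' • w • t = 0 := by rw [smul_comm, hH'.kill t hz.2, smul_zero]
    have e : ∀ y : A, ∏ i ∈ range J, γ ((w ^ 2) ^ i • y) = gl w P J (x + y) := by
      intro y
      simp only [γ, Finset.prod_div_distrib]
      rw [h.orb, h.orbw]; rfl
    have e1 : gl w P J x = 1 := by
      unfold gl
      rw [h.fix, div_self]
      exact Finset.prod_ne_zero_iff.2 fun _ _ => h.ne _
    have h4 := h.four J x s (w • t) p p' hJ hp (h.fixp J) hs.1 ht (hH.kill s hz.1) hkt h.xne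
      (h.ne_zero hH.cop (hH.kill s hz.1)) (h.ne_zero hH'.cop hkt) (by
        rw [add_assoc]
        refine h.ne_zero (m := p * p') (Nat.Coprime.mul_right hH.cop hH'.cop) ?_
        rw [smul_add, mul_smul p p' (w • t), hkt, mul_comm, mul_smul, hH.kill s hz.1]
        simp)
    rw [Submonoid.mem_bot]
    simp only [smul_iterate_apply, Prod.smul_mk, smul_comm w, ← smul_add, Finset.prod_div_distrib,
      Finset.prod_mul_distrib]
    rw [e, e, e, ← add_assoc, ← h4, e1, mul_one, div_self]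
    rw [add_assoc, ← e]
    exact Finset.prod_ne_zero_iff.2 fun _ _ => hγ _
  rw [Submonoid.mem_bot, Finset.prod_div_distrib, Finset.prod_mul_distrib,
    div_eq_one_iff_eq (mul_ne_zero (Finset.prod_ne_zero_iff.2 fun _ _ => hγ _)
      (Finset.prod_ne_zero_iff.2 fun _ _ => hγ _)), Finset.prod_product, Finset.prod_product,
    Finset.prod_product] at key
  have r1 : ∀ y : A, ∏ t ∈ H', P (y + w • w • t) = ∏ t ∈ H', P (y + t) := by
    intro y
    have := reidx (inj (h.unit.pow 2)) hH'.stab fun t => P (y + t)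
    simpa only [pow_two, mul_smul] using this
  simp only [γ, Finset.prod_div_distrib, smul_add, ← add_assoc, r1, Finset.prod_const,
    Finset.prod_pow] at key
  have n1 : ∀ (S : Finset A) (φ : A → A), ∏ s ∈ S, P (φ s) ≠ 0 := fun S φ =>
    Finset.prod_ne_zero_iff.2 fun _ _ => h.ne _
  have n2 : ∏ s ∈ H, ∏ t ∈ H', P (x + w • s + t) ≠ 0 :=
    Finset.prod_ne_zero_iff.2 fun _ _ => n1 _ _
  rw [div_eq_iff n2] at key
  rw [key]
  have n3 := n1 H' fun t => x + t
  have n4 := n1 H' fun t => x + w • t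
  have n5 := n1 H fun t => x + w • t
  simp only [div_pow]
  field_simp

lemma Ctx.act (h : Ctx w P k n x) (W : Submonoid (ℂ × ℂ)) (Q : A → ℂ) {S : Finset A}
    (hS : ∀ s ∈ S, w ^ 2 • s ∈ S)
    (hW : ∀ s ∈ S, ∀ J, 0 < J → J ≤ S.card → (w ^ 2) ^ J • (x + s) = x + s →
      (Fl w P J (x + s), Fl w Q J (x + s)) ∈ W) :
    (∏ s ∈ S, P (x + s), ∏ s ∈ S, Q (x + s)) ∈ W := by
  have := orbit_prod (inj (h.unit.pow 2)) W (fun s => (P (x + s), Q (x + s))) S.card S le_rfl
    hS (fun s hs J hJ hJ' hs' => ?_)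
  · rwa [← Prod.mk.eta (p := ∏ s ∈ S, _), Prod.fst_prod, Prod.snd_prod] at this
  · rw [smul_iterate_apply] at hs'
    rw [← Prod.mk.eta (p := ∏ i ∈ range J, _), Prod.fst_prod, Prod.snd_prod]
    simp only [smul_iterate_apply]
    rw [h.orb, h.orb]
    exact hW s hs J hJ hJ' (h.per hs')

lemma exHalf (hw : IsUnit w) {p : ℕ} (hp : n.Coprime p) {L : Finset A} (h0 : 0 ∈ L)
    (hL : ∀ s ∈ L, w • s ∈ L) (hc : L.card = p) (hk : ∀ s ∈ L, p • s = 0)
    (hodd : ∀ s ∈ L, ∀ j : ℕ, Odd j → w ^ j • s = s → s = 0) :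
    ∃ H, H ⊆ L ∧ Half w n p L H := by
  obtain ⟨U, rfl⟩ := hw
  have hA : ∀ s ∈ L.erase 0, MulAction.toPerm U s ∈ L.erase 0 := by
    intro s hs
    rw [mem_erase] at hs ⊢
    refine ⟨fun h => hs.1 ?_, hL s hs.2⟩
    exact (MulAction.toPerm U).injective (h.trans (smul_zero U).symm)
  have hB : ∀ s ∈ L.erase 0, ∀ j : ℤ, Odd j →
      ((MulAction.toPerm U : Equiv.Perm A) ^ j) s ≠ s := by
    intro s hs j hj h
    rw [mem_erase] at hs
    have e : ∀ j : ℤ, ((MulAction.toPerm U : Equiv.Perm A) ^ j) s = U ^ j • s := by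
      intro j
      have := map_zpow (MulAction.toPermHom Rˣ A) U j
      rw [MulAction.toPermHom_apply, MulAction.toPermHom_apply] at this
      rw [← this]; rfl
    rw [e] at h
    refine hs.1 (hodd s hs.2 j.natAbs (Int.natAbs_odd.2 hj) ?_)
    rw [← Units.val_pow_eq_pow_val, ← Units.smul_def, ← zpow_natCast]
    rcases Int.natAbs_eq j with h1 | h1
    · rw [← h1, h]
    · have h2 : (j.natAbs : ℤ) = -j := by omega
      rw [h2, zpow_neg, inv_smul_eq_iff, h]
  obtain ⟨H, h1, h2, h3, h4⟩ := half (MulAction.toPerm U) (L.erase 0) hA hB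
  refine ⟨H, h1.trans (erase_subset _ _), ?_, ?_, ?_, fun s hs => hk s ?_, hp⟩
  · intro s hs
    rw [pow_two, mul_smul]
    exact h2 s hs
  · intro φ
    rw [← Finset.mul_prod_erase L φ h0, ← h4, Finset.prod_union h3,
      Finset.prod_image fun _ _ _ _ h => (MulAction.toPerm U).injective h,
      Finset.prod_mul_distrib]
    rfl
  · have := congrArg Finset.card h4
    rw [Finset.card_union_of_disjoint h3,
      Finset.card_image_of_injective _ (MulAction.toPerm U).injective,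
      Finset.card_erase_of_mem h0] at this
    have := Finset.card_pos.2 ⟨0, h0⟩
    omega
  · exact mem_of_mem_erase (h1 hs)

end C1
end Pool.Agent.Lib.Stark
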