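import Pool.Agent.Lib.stark.C1b
import Pool.Agent.Lib.stark.C1c

open Complex NumberField Finset
open scoped nonZeroDivisors ComplexConjugate Classical

namespace Pool.Agent.Lib.Stark
namespace C1

set_option linter.unusedSectionVars false

variable {K : Type} [Field K] [NumberField K] [Algebra K ℝ]

/-- The invariant as a function on the quotient. -/
noncomputable def Pb (u : 𝓞 K) (a b : FractionalIdeal (𝓞 K)⁰ K) (s : QA a) : ℂ :=
  FF (algebraMap K ℝ) (u ^ 2) b (Quotient.out s)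

/-- The standing assumptions. -/
structure St (σ₂ : K →+* ℝ) (c : K ≃+* K) (u w : 𝓞 K) (n : ℕ) : Prop where
  rq : RQ (algebraMap K ℝ) σ₂ c
  nrm : algebraMap K ℝ u * σ₂ u = -1
  lt : algebraMap K ℝ u < -3
  uw : u * w = 1
  lev : Lev (algebraMap K ℝ) σ₂ ((u ^ 2 : 𝓞 K) : K) n

variable {σ₂ : K →+* ℝ} {c : K ≃+* K} {u w : 𝓞 K} {n : ℕ} {a b : FractionalIdeal (𝓞 K)⁰ K}

lemma St.uwK (h : St σ₂ c u w n) : (u : K) * w = 1 := by
  have := congrArg (fun z : 𝓞 K => (z : K)) h.uw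
  simpa using this

lemma St.one (h : St σ₂ c u w n) :
    algebraMap K ℝ (u ^ 2 : 𝓞 K) * σ₂ (u ^ 2 : 𝓞 K) = 1 := h.lev.norm

lemma St.eight (h : St σ₂ c u w n) : 8 ≤ algebraMap K ℝ (u ^ 2 : 𝓞 K) := by
  rw [cpow, map_pow]
  nlinarith [h.lt]

lemma mem_of {c : 𝓞 K} {y z : K} (hy : y ∈ a) (h : z = (c : K) * y) : z ∈ a := by
  rw [h]; exact (a : Submodule (𝓞 K) K).smul_mem c hy

lemma Pb_mq (hPsi : StmtPsi) (h : St σ₂ c u w n) (hab : a ≤ b) (y : K) :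
    Pb u a b (mq a y) = FF (algebraMap K ℝ) (u ^ 2) b y := by
  have h1 : Quotient.out (mq a y) - y ∈ a := by rw [← mq_eq, mq_out]
  have := (hPsi K _ _ c h.rq _ _ h.lev).1 (lat b) y _ (hab h1)
  rw [add_sub_cancel] at this
  exact this

lemma Fl_eq (hPsi : StmtPsi) (hR : StmtR1) (h : St σ₂ c u w n) (hab : a ≤ b) (hb : b ≠ 0)
    {J : ℕ} (hJ : 0 < J) (y : K) :
    Fl w (Pb u a b) J (mq a y) = FF (algebraMap K ℝ) ((u ^ 2) ^ J) b y := by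
  have := (hPsi K _ _ c h.rq _ _ h.lev).2.2.2.2 (lat b) y J
    ((hR.2.1 K _ _ c h.rq).sl _ b hb) hJ
  unfold FF Fl
  rw [cpow (u ^ 2), this]
  refine Finset.prod_congr rfl fun i _ => ?_
  rw [← mq_mul, Pb_mq hPsi h hab]
  unfold FF
  congr 2
  rw [cpow, cpow, cpow, ← inv_pow, eq_inv_of_mul_eq_one_right h.uwK]

lemma tor_of (h : St σ₂ c u w n) {J : ℕ} {y : K} (hy : (w ^ 2) ^ J • mq a y = mq a y) :
    Tor (((u ^ 2) ^ J : 𝓞 K) : K) (lat a) y := by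
  rw [← mq_mul, mq_eq] at hy
  have e : ((u : K) ^ 2) ^ J * ((w : K) ^ 2) ^ J = 1 := by
    rw [← mul_pow, ← mul_pow, h.uwK, one_pow, one_pow]
  unfold Tor
  rw [mem_lat]
  refine mem_of (c := -(u ^ 2) ^ J) hy ?_
  push_cast
  linear_combination y * e

lemma natc {m : ℕ} {y : K} (hy : m • mq a y = 0) : (m : K) * y ∈ lat a := by
  rw [mem_lat, ← mq_eq_zero, ← nsmul_eq_mul, map_nsmul, hy]

lemma ctx (hH : StmtH2) (hS : StmtSys) (hPsi : StmtPsi) (hAU : StmtAU) (hR : StmtR1)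
    (h : St σ₂ c u w n) {x : K} (hx : Fam u a x) :
    ∃ k, 0 < k ∧ Ctx w (Pb u a a) k n (mq a x) := by
  have hb := hR.2.1 K _ _ c h.rq
  have ha := hx.1
  have hsys := hS K _ _ c h.rq _ _ h.lev
  obtain ⟨k, hk, hk2, -⟩ := hsys.root (lat a) (hb.sl _ a ha)
  have hw : IsUnit w := IsUnit.of_mul_eq_one_right _ h.uw
  have hu1 : algebraMap K ℝ u * algebraMap K ℝ w = 1 := by rw [← map_mul, h.uwK, map_one]
  have hu2 : σ₂ u * σ₂ w = 1 := by rw [← map_mul, h.uwK, map_one]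
  have hw1 : algebraMap K ℝ w < 0 := by nlinarith [h.lt]
  have hw2 : 0 < σ₂ w := by
    have : 0 < σ₂ u := by nlinarith [h.lt, h.nrm]
    nlinarith
  have hfix : w • mq a x = mq a x := by
    rw [← mq_mul, mq_eq]
    refine mem_of (c := -w) hx.2.1 ?_
    push_cast
    linear_combination x * h.uwK
  have hcnj : ∀ J s, 0 < J → (w ^ 2) ^ J • s = s →
      conj (Fl w (Pb u a a) J s) = Fl w (Pb u a a) J (w • s) := by
    intro J s hJ hs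
    obtain ⟨y, rfl⟩ := Submodule.mkQ_surjective _ s
    obtain ⟨Ω', _, _, -, -, h2⟩ := big hH hS hAU hR h.rq (u ^ 2) h.one h.eight ⊥ J 1 one_pos
    rw [← mq_mul, Fl_eq hPsi hR h le_rfl ha hJ, Fl_eq hPsi hR h le_rfl ha hJ,
      (h2 J hJ le_rfl).1.cnj w hw hw1 hw2 a y ha (tor_of h hs)]
  have hlev : ∀ J, 0 < J → ∃ n', Lev (algebraMap K ℝ) σ₂ (((u ^ 2) ^ J : 𝓞 K) : K) n' := by
    intro J hJ
    rw [cpow (u ^ 2)]
    exact hb.pow _ _ J h.lev hJ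
  have hgl : ∀ J y, 0 < J → (w ^ 2) ^ J • mq a y = mq a y → mq a y ≠ 0 →
      gl w (Pb u a a) J (mq a y) = FF (algebraMap K ℝ) ((u ^ 2) ^ J) a y *
        FF (algebraMap K ℝ) ((u ^ 2) ^ J) a (-y) := by
    intro J y hJ hy hy0
    obtain ⟨n', hn'⟩ := hlev J hJ
    have h1 := (hS K _ _ c h.rq _ _ hn').cnj (lat a) y (hb.sl _ a ha) (tor_of h hy)
      (fun h0 => hy0 (mq_eq_zero.2 h0))
    unfold gl
    rw [← hcnj J _ hJ hy, Fl_eq hPsi hR h le_rfl ha hJ, div_eq_mul_inv]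
    congr 1
    exact (eq_inv_of_mul_eq_one_left h1).symm
  refine ⟨k, hk, hw, fun s => hsys.ne _ _, hfix, fun h0 => hx.2.2 (mq_eq_zero.1 h0), ?_, hcnj,
    ?_, ?_⟩
  · rw [← map_nsmul, mq_eq_zero]
    refine mem_of (c := (u ^ 2 - 1) * (u + 1) * w ^ 2) hx.2.1 ?_
    have h2 := h.lev.quad
    rw [nsmul_eq_mul]
    push_cast at h2 ⊢
    linear_combination (-(w : K) ^ 2 * x) * h2 - (n * x * (u * w + 1)) * h.uwK
  · intro J y s t m m' hJ hm hy hs ht hms hmt h1 h2 h3 h4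
    obtain ⟨y, rfl⟩ := Submodule.mkQ_surjective _ y
    obtain ⟨s, rfl⟩ := Submodule.mkQ_surjective _ s
    obtain ⟨t, rfl⟩ := Submodule.mkQ_surjective _ t
    obtain ⟨n', hn'⟩ := hlev J hJ
    have hys : (w ^ 2) ^ J • mq a (y + s) = mq a (y + s) := by rw [map_add, smul_add, hy, hs]
    have hyt : (w ^ 2) ^ J • mq a (y + t) = mq a (y + t) := by rw [map_add, smul_add, hy, ht]
    have hyst : (w ^ 2) ^ J • mq a (y + s + t) = mq a (y + s + t) := by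
      rw [map_add, smul_add, hys, ht]
    rw [← map_add, ← map_add] at h4
    rw [← map_add] at h2 h3
    rw [← map_add, ← map_add, ← map_add, hgl J _ hJ hy h1, hgl J _ hJ hys h2, hgl J _ hJ hyt h3,
      hgl J _ hJ hyst h4]
    exact (pentAt ((hS K _ _ c h.rq _ _ hn').pent (lat a) (hb.sl _ a ha))).1 y s t m m' hm
      (tor_of h hy) (tor_of h hs) (tor_of h ht) (natc hms) (natc hmt)
      (fun h0 => h1 (mq_eq_zero.2 h0)) (fun h0 => h2 (mq_eq_zero.2 h0))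
      (fun h0 => h3 (mq_eq_zero.2 h0)) (fun h0 => h4 (mq_eq_zero.2 h0))
  · intro J y N hJ hy h1 hN
    obtain ⟨y, rfl⟩ := Submodule.mkQ_surjective _ y
    obtain ⟨n', hn'⟩ := hlev J hJ
    have h2 := (pentAt ((hS K _ _ c h.rq _ _ hn').pent (lat a) (hb.sl _ a ha))).2 y N
      (tor_of h hy) (fun h0 => h1 (mq_eq_zero.2 h0)) (natc hN)
    have h3 := (hPsi K _ _ c h.rq _ _ h.lev).2.2.2.2 (lat a) 0 J (hb.sl _ a ha) hJ
    simp only [mul_zero, Finset.prod_const, card_range] at h3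
    rw [hgl J _ hJ hy h1, pow_mul]
    unfold FF
    rw [h2, cpow (u ^ 2), h3, map_pow, ofReal_pow]
    have h4 : ((algebraMap K ℝ (u ^ 2 : 𝓞 K) : ℝ) : ℂ) ≠ 0 :=
      ofReal_ne_zero.2 (by linarith [h.eight])
    generalize Psi (algebraMap K ℝ) ((u ^ 2 : 𝓞 K) : K) (lat a) 0 = A at hk2
    generalize ((algebraMap K ℝ (u ^ 2 : 𝓞 K) : ℝ) : ℂ) = B at hk2 h4
    have e : (((A ^ J) ^ 2 / B ^ J) ^ (2 * N)) ^ k = (A ^ (2 * k) / B ^ k) ^ (J * (2 * N)) := by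
      simp only [div_pow, ← pow_mul]
      congr 2 <;> ring
    rw [e, hk2, div_self (pow_ne_zero _ h4), one_pow]

lemma prime_data (hS : StmtSys) (hPsi : StmtPsi) (hR : StmtR1) (h : St σ₂ c u w n) (ha : a ≠ 0)
    {q : Ideal (𝓞 K)} (hq : q.IsMaximal) (hn : n.Coprime (Ideal.absNorm q))
    (hodd : ∀ j : ℕ, Odd j → u ^ j - 1 ∉ q) :
    ∃ L H : Finset (QA a), Half w n (Ideal.absNorm q) L H ∧ (∀ s ∈ H, ∀ c ∈ q, c • s = 0) ∧
      ∀ s, Pb u a (dv a q) s = ∏ t ∈ L, Pb u a a (s + t) := by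
  have hb := hR.2.1 K _ _ c h.rq
  obtain ⟨L, hL, hc⟩ := exL ha hq
  have hk : ∀ s ∈ L, ∀ c ∈ q, c • s = 0 := by
    intro s hs c hc
    obtain ⟨y, hy, rfl⟩ := (hL s).1 hs
    rw [← mq_mul, mq_eq_zero]
    exact mul_mem_of_dv hq hc hy
  obtain ⟨H, h1, h2⟩ := exHalf (w := w) (n := n) (IsUnit.of_mul_eq_one_right _ h.uw) hn
    ((hL 0).2 ⟨0, FractionalIdeal.zero_mem _, map_zero _⟩)
    (fun s hs => by
      obtain ⟨y, hy, rfl⟩ := (hL s).1 hs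
      exact (hL _).2 ⟨w • y, (dv a q : Submodule (𝓞 K) K).smul_mem w hy, map_smul _ _ _⟩)
    hc
    (fun s hs => by
      rw [← Nat.cast_smul_eq_nsmul (𝓞 K)]
      exact hk s hs _ (Ideal.absNorm_mem q))
    (fun s hs j hj hs' => by
      have h3 : (u ^ j - 1) • s = 0 := by
        rw [sub_smul, one_smul, sub_eq_zero]
        conv_lhs => rw [← hs', ← mul_smul, ← mul_pow, h.uw, one_pow, one_smul]
      obtain ⟨y, i, hi, h4⟩ := hq.exists_inv (hodd j hj)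
      rw [← one_smul (𝓞 K) s, ← h4, add_smul, mul_smul, h3, smul_zero, hk s hs i hi, add_zero])
  refine ⟨L, H, h2, fun s hs => hk s (h1 hs), fun s => ?_⟩
  have h3 := (hS K _ _ c h.rq _ _ h.lev).dist (lat a) (lat (dv a q)) _ (Quotient.out s)
    (hb.sl (u ^ 2) a ha).1 (hb.sl (u ^ 2) _ (dv_ne ha hq)).1 (fun _ hy => le_dv hq hy)
    (reps_of (le_dv hq) hL)
  rw [Finset.prod_image fun _ _ _ _ h => Quotient.out_injective h] at h3
  refine h3.trans (Finset.prod_congr rfl fun t _ => ?_)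
  conv_rhs => rw [← mq_out a s, ← mq_out a t, ← map_add, Pb_mq hPsi h le_rfl]
  rfl

lemma act (hPsi : StmtPsi) (hR : StmtR1) (h : St σ₂ c u w n) (ha : a ≠ 0) {k : ℕ} {x : QA a}
    (hx : Ctx w (Pb u a a) k n x) {Ω : IntermediateField K ℂ} {J₀ : ℕ}
    (hΩ : ∀ J, 0 < J → J ≤ J₀ → H2Prop σ₂ ((u ^ 2) ^ J) Ω ∧
      ∀ (a : FractionalIdeal (𝓞 K)⁰ K) x, a ≠ 0 → Tor (((u ^ 2) ^ J : 𝓞 K) : K) (lat a) x →
        FF (algebraMap K ℝ) ((u ^ 2) ^ J) a x ∈ Ω)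
    {f r : Ideal (𝓞 K)} {R : Ideal (𝓞 Ω)} {τ : Ω ≃ₐ[K] Ω} (hr : r.IsMaximal) (hf : r ⊔ f = ⊤)
    (hτ : Frob r R τ) {S : Finset (QA a)} (hS : ∀ s ∈ S, w ^ 2 • s ∈ S) (hc : S.card ≤ J₀)
    (hk : ∀ s ∈ S, ∀ c ∈ f, c • (x + s) = 0) :
    ∃ Z : Ω, (Z : ℂ) = ∏ s ∈ S, Pb u a a (x + s) ∧
      (τ Z : ℂ) = ∏ s ∈ S, Pb u a (dv a r) (x + s) := by
  let W : Submonoid (ℂ × ℂ) :=
    { carrier := {p | ∃ Z : Ω, (Z : ℂ) = p.1 ∧ (τ Z : ℂ) = p.2}
      mul_mem' := by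
        rintro p q ⟨Z, h1, h2⟩ ⟨Z', h3, h4⟩
        exact ⟨Z * Z', by simp [h1, h3], by simp [h2, h4]⟩
      one_mem' := ⟨1, by simp, by simp⟩ }
  refine hx.act W (Pb u a (dv a r)) hS fun s hs J hJ hJ' hper => ?_
  obtain ⟨y, hy⟩ := Submodule.mkQ_surjective _ (x + s)
  have hk' := hk s hs
  rw [← hy] at hper hk' ⊢
  obtain ⟨h1, h2⟩ := hΩ J hJ (hJ'.trans hc)
  rw [Fl_eq hPsi hR h le_rfl ha hJ, Fl_eq hPsi hR h (le_dv hr) (dv_ne ha hr) hJ]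
  refine ⟨⟨_, h2 a y ha (tor_of h hper)⟩, rfl, ?_⟩
  exact h1.act f r R τ hr hf hτ a y _ ha (tor_of h hper)
    (fun c hc => by rw [← mq_eq_zero, mq_mul]; exact hk' c hc) rfl

end C1
end Pool.Agent.Lib.Stark
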