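import Mathlib

open Complex MeasureTheory Filter Topology
open scoped Real ComplexConjugate

namespace Pool.Agent.Lib.Stark

/-! Part 1: analytic and finite-group definitions and block statements. -/

/-- `e(z) = exp(2 pi i z)`. -/
noncomputable def ee (z : ℂ) : ℂ := cexp (2 * π * I * z)

/-- Integral of `g(s) ds / s` along the line `Im s = -η`. -/
noncomputable def lineInt (g : ℂ → ℂ) (η : ℝ) : ℂ := ∫ x : ℝ, g (x - η * I) / (x - η * I)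

/-- Holomorphic on a strip below the real axis with exponential decay on closed substrips. -/
structure Adm (η₀ : ℝ) (g : ℂ → ℂ) : Prop where
  pos : 0 < η₀
  diff : DifferentiableOn ℂ g {s | -η₀ < s.im ∧ s.im < 0}
  decay : ∀ a b : ℝ, 0 < a → b < η₀ → ∃ C δ : ℝ, 0 < δ ∧
    ∀ s : ℂ, -b ≤ s.im → s.im ≤ -a → ‖g s‖ ≤ C * Real.exp (-δ * |s.re|)

/-- `w` is the line integral of the continued generating function of the family `lam`. -/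
def HasLog {ι : Type} (lam : ι → ℝ) (w : ℂ) : Prop :=
  ∃ (η₀ : ℝ) (g : ℂ → ℂ), Adm η₀ g ∧
    (∀ s : ℂ, -η₀ < s.im → s.im < 0 → 0 < s.re → HasSum (fun i => cexp (-(lam i) * s)) (g s)) ∧
    ∀ η : ℝ, 0 < η → η < η₀ → lineInt g η = w

/-- Residue theorem for a rectangle and finitely many simple poles. -/
def StmtRect : Prop :=
  ∀ (f : ℂ → ℂ) (P : Finset ℂ) (r : ℂ → ℂ) (x₁ x₂ y₁ y₂ : ℝ), x₁ < x₂ → y₁ < y₂ →
    (∀ p ∈ P, x₁ < p.re ∧ p.re < x₂ ∧ y₁ < p.im ∧ p.im < y₂) →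
    (∀ z : ℂ, x₁ ≤ z.re → z.re ≤ x₂ → y₁ ≤ z.im → z.im ≤ y₂ → z ∉ P → DifferentiableAt ℂ f z) →
    (∀ p ∈ P, Tendsto (fun z => (z - p) * f z) (𝓝[≠] p) (𝓝 (r p))) →
    (∫ x in x₁..x₂, f (x + y₁ * I)) - (∫ x in x₁..x₂, f (x + y₂ * I)) +
      I * (∫ y in y₁..y₂, f (x₂ + y * I)) - I * (∫ y in y₁..y₂, f (x₁ + y * I)) =
      2 * π * I * ∑ p ∈ P, r p

/-- The line integral of an admissible function converges and does not depend on the line. -/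
def StmtLine : Prop :=
  ∀ (η₀ : ℝ) (g : ℂ → ℂ), Adm η₀ g → ∀ η : ℝ, 0 < η → η < η₀ →
    Integrable (fun x : ℝ => g (x - η * I) / (x - η * I)) ∧
    ∀ η' : ℝ, 0 < η' → η' < η₀ → lineInt g η = lineInt g η'

/-- Holomorphy of dominated parametric integrals. -/
def StmtHolInt : Prop :=
  ∀ (μ : Measure ℝ) (F : ℂ → ℝ → ℂ) (U : Set ℂ) (bound : ℝ → ℝ), IsOpen U → Integrable bound μ →
    (∀ z ∈ U, AEStronglyMeasurable (F z) μ) → (∀ᵐ t ∂μ, DifferentiableOn ℂ (fun z => F z t) U) →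
    (∀ᵐ t ∂μ, ∀ z ∈ U, ‖F z t‖ ≤ bound t) → DifferentiableOn ℂ (fun z => ∫ t, F z t ∂μ) U

/-- Extension to the left through a difference equation. -/
def StmtExt : Prop :=
  ∀ (c : ℕ) (f u : ℂ → ZMod c → ℂ) (α β : ℝ), α + 1 < β →
    (∀ ρ, DifferentiableOn ℂ (fun ξ => f ξ ρ) {ξ | α < ξ.re ∧ ξ.re < β}) →
    (∀ ρ, Differentiable ℂ fun ξ => u ξ ρ) →
    (∀ ξ ρ, α < ξ.re → ξ.re + 1 < β → f ξ ρ = u ξ ρ * f (ξ + 1) (ρ + 1)) →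
    ∃ E : ℂ → ZMod c → ℂ, (∀ ρ, DifferentiableOn ℂ (fun ξ => E ξ ρ) {ξ | ξ.re < β}) ∧
      (∀ ξ ρ, α < ξ.re → ξ.re < β → E ξ ρ = f ξ ρ) ∧
      ∀ ξ ρ, ξ.re + 1 < β → E ξ ρ = u ξ ρ * E (ξ + 1) (ρ + 1)

/-- A holomorphic function on a wide strip with two incommensurable periods is constant. -/
def StmtPer : Prop :=
  ∀ (c : ℕ) [NeZero c] (d : ZMod c) (ε : ℝ) (f : ℂ → ZMod c → ℂ) (α β : ℝ), 1 < ε →
    Irrational ε → α + ε < β →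
    (∀ ρ, DifferentiableOn ℂ (fun ξ => f ξ ρ) {ξ | α < ξ.re ∧ ξ.re < β}) →
    (∀ ξ ρ, α < ξ.re → ξ.re + 1 < β → f ξ ρ = f (ξ + 1) (ρ + 1)) →
    (∀ ξ ρ, α < ξ.re → ξ.re + ε < β → f ξ ρ = f (ξ + ε) (ρ + d)) →
    ∀ ξ ρ ξ' ρ', α < ξ.re → ξ.re < β → α < ξ'.re → ξ'.re < β → f ξ ρ = f ξ' ρ'

/-- Block AN. -/
def StmtAN : Prop := StmtRect ∧ StmtLine ∧ StmtHolInt ∧ StmtExt ∧ StmtPer

/-- Parameters of the model. -/
structure Hyp (ε : ℝ) (n c : ℕ) (a d : ZMod c) : Prop where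
  one_lt : 1 < ε
  quad : (ε - 1) ^ 2 = n * ε
  irr : Irrational ε
  ad : a * d = 1
  tr : a + d = n + 2

section Model

variable (ε : ℝ) (n c : ℕ) [NeZero c] (a d : ZMod c)

/-- Generating function of the points `ξ + i + j ε` with `ρ + i + d j = 0`. -/
noncomputable def Gen (ξ : ℂ) (ρ : ZMod c) (s : ℂ) : ℂ :=
  cexp (-ξ * s) * (c : ℂ)⁻¹ * ∑ h : ZMod c, ZMod.stdAddChar (h * ρ) /
    ((1 - ZMod.stdAddChar h * cexp (-s)) * (1 - ZMod.stdAddChar (h * d) * cexp (-ε * s)))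

/-- The modular quantum dilogarithm on the strip `0 < Re ξ < 1 + ε`. -/
noncomputable def Phi (ξ : ℂ) (ρ : ZMod c) : ℂ := cexp (-lineInt (Gen ε c d ξ ρ) (π / (c * ε)))

/-- The pairing on `ℂ × ZMod c`. -/
noncomputable def BB (ξ : ℂ) (ρ : ZMod c) (ξ' : ℂ) (ρ' : ZMod c) : ℂ :=
  ee (ξ * ξ' / (c * ε)) * ZMod.stdAddChar (-(a * ρ * ρ'))

/-- Basic properties of `Phi`. -/
structure PhiProp : Prop where
  diff : ∀ ρ, DifferentiableOn ℂ (fun ξ => Phi ε c d ξ ρ) {ξ | 0 < ξ.re ∧ ξ.re < 1 + ε}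
  eq1 : ∀ ξ ρ, 0 < ξ.re → ξ.re < ε →
    Phi ε c d ξ ρ = (1 - BB ε c a ξ ρ 1 1) * Phi ε c d (ξ + 1) (ρ + 1)
  eq2 : ∀ ξ ρ, 0 < ξ.re → ξ.re < 1 →
    Phi ε c d ξ ρ = (1 - BB ε c a ξ ρ ε d) * Phi ε c d (ξ + ε) (ρ + d)
  top : ∀ α β : ℝ, 0 < α → β < 1 + ε → ∃ C δ : ℝ, 0 < δ ∧ ∀ ξ ρ, α ≤ ξ.re → ξ.re ≤ β →
    0 ≤ ξ.im → ‖Phi ε c d ξ ρ - 1‖ ≤ C * Real.exp (-δ * ξ.im) ∧
      ‖(Phi ε c d ξ ρ)⁻¹ - 1‖ ≤ C * Real.exp (-δ * ξ.im)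
  cnj : ∀ (ξ : ℝ) ρ, 0 < ξ → ξ < 1 + ε →
    Phi ε c d (1 + ε - ξ) (1 + d - ρ) * conj (Phi ε c d ξ ρ) = 1
  log : ∀ (ξ : ℝ) ρ, 0 < ξ → ξ < 1 + ε →
    HasLog (fun p : {p : ℕ × ℕ // ρ + p.1 + d * p.2 = 0} => ξ + p.1.1 + p.1.2 * ε)
      (lineInt (Gen ε c d ξ ρ) (π / (c * ε)))
  ratio : Phi ε c d 1 1 = ε * Phi ε c d ε d

/-- The reflection formula. -/
def GamProp : Prop :=
  ∃ Γ : ℂ → ZMod c → ℂ, (∀ ρ, Differentiable ℂ fun ξ => Γ ξ ρ) ∧ (∀ ξ ρ, Γ ξ ρ ≠ 0) ∧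
    (∀ ξ ρ, 0 < ξ.re → ξ.re < 1 + ε → Γ ξ ρ = Phi ε c d ξ ρ * Phi ε c d (1 + ε - ξ) (1 + d - ρ)) ∧
    (∀ ξ ρ, Γ ξ ρ = -BB ε c a ξ ρ 1 1 * Γ (ξ + 1) (ρ + 1)) ∧
    (∀ ξ ρ, Γ ξ ρ = -BB ε c a ξ ρ ε d * Γ (ξ + ε) (ρ + d)) ∧
    ∀ ξ' ρ', ∃ κ : ℂ, ∀ ξ ρ, Γ (ξ + ξ') (ρ + ρ') * BB ε c a ξ ρ ξ' ρ' = κ * Γ ξ ρ

/-- The Fourier transform formula. -/
def IFProp : Prop :=
  ∀ (y u x₀ : ℝ) (ρy ρu : ZMod c), 0 < u → u < y → y < 1 + ε → 0 < x₀ → x₀ + y < 1 + ε →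
    (∀ k : ℤ, y + k ≠ ε) →
    (∀ ρ, Integrable fun t : ℝ => Phi ε c d (x₀ + t * I + y) (ρ + ρy) / Phi ε c d (x₀ + t * I) ρ *
      BB ε c a (x₀ + t * I) ρ u ρu) ∧
    I * ∑ ρ, ∫ t : ℝ, Phi ε c d (x₀ + t * I + y) (ρ + ρy) / Phi ε c d (x₀ + t * I) ρ *
      BB ε c a (x₀ + t * I) ρ u ρu =
      -(c * ε) / Phi ε c d 1 1 * Phi ε c d y ρy * Phi ε c d (1 + ε - u) (1 + d - ρu) /
        Phi ε c d (y - u) (ρy - ρu)

/-- Real coordinate of a point of the discrete group. -/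
noncomputable def xi (m : ℤ) : ℝ := (ε - 1) * m / n

/-- Membership in the discrete group `D`. -/
def InD (m : ℤ) (ρ : ZMod c) : Prop := (m : ZMod c) = (1 - a) * ρ

/-- Multiples of `T = (n, d - 1)`. -/
def IsT (m : ℤ) (ρ : ZMod c) : Prop := m % n = 0 ∧ ρ = ((m / n : ℤ) : ZMod c) * (d - 1)

/-- The finite quantum dilogarithm on `D / T`. -/
noncomputable def Fm (m : ℤ) (ρ : ZMod c) : ℂ :=
  Phi ε c d (xi ε n (m % n) + 1 : ℝ) (ρ - ((m / n : ℤ) : ZMod c) * (d - 1) + 1)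

open scoped Classical in
/-- The modified inverse. -/
noncomputable def Fs (m : ℤ) (ρ : ZMod c) : ℂ :=
  if IsT n c d m ρ then ε / Fm ε n c d 0 0 else (Fm ε n c d m ρ)⁻¹

/-- The pairing on `D`. -/
noncomputable def bm (m : ℤ) (ρ : ZMod c) (m' : ℤ) (ρ' : ZMod c) : ℂ :=
  BB ε c a (xi ε n m) ρ (xi ε n m') ρ'

open scoped Classical in
/-- The finite pentagon relation in the model. -/
structure ModelProp : Prop where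
  pent : ∀ (my mu : ℤ) (ρy ρu : ZMod c), InD c a my ρy → InD c a mu ρu → mu % n < my % n →
    ∑ m ∈ Finset.range n, ∑ ρ ∈ Finset.univ.filter (InD c a m),
      Fm ε n c d (m + my) (ρ + ρy) * Fs ε n c d m ρ * bm ε n c a m ρ mu ρu =
      (ε - 1) / Fm ε n c d 0 0 * Fm ε n c d my ρy * Fm ε n c d (-mu) (-ρu) *
        Fs ε n c d (my - mu) (ρy - ρu)
  gam : ∀ (m m' : ℤ) (ρ ρ' : ZMod c), InD c a m ρ → InD c a m' ρ' →
    Fm ε n c d (-(m + m')) (-(ρ + ρ')) / Fs ε n c d (m + m') (ρ + ρ') *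
      (Fm ε n c d 0 0 / Fs ε n c d 0 0) * bm ε n c a m ρ m' ρ' =
      Fm ε n c d (-m) (-ρ) / Fs ε n c d m ρ * (Fm ε n c d (-m') (-ρ') / Fs ε n c d m' ρ')
  cnj : ∀ (m : ℤ) (ρ : ZMod c), InD c a m ρ → ¬IsT n c d m ρ →
    Fm ε n c d (-m) (-ρ) * conj (Fm ε n c d m ρ) = 1

end Model

/-- Block M1. -/
def StmtPhi : Prop :=
  ∀ (ε : ℝ) (n c : ℕ) [NeZero c] (a d : ZMod c), Hyp ε n c a d → PhiProp ε c a d

/-- Block M2. -/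
def StmtGam : Prop :=
  ∀ (ε : ℝ) (n c : ℕ) [NeZero c] (a d : ZMod c), Hyp ε n c a d → GamProp ε c a d

/-- Block M3. -/
def StmtIF : Prop :=
  ∀ (ε : ℝ) (n c : ℕ) [NeZero c] (a d : ZMod c), Hyp ε n c a d → IFProp ε c a d

/-- Block M4. -/
def StmtModel : Prop :=
  ∀ (ε : ℝ) (n c : ℕ) [NeZero c] (a d : ZMod c), Hyp ε n c a d → ModelProp ε n c a d

/-- Kernel of the double sine function. -/
noncomputable def ker2 (z v w : ℝ) (s : ℂ) : ℂ :=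
  cexp (-z * s) / ((1 - cexp (-v * s)) * (1 - cexp (-w * s)))

/-- Logarithm of the double sine function. -/
noncomputable def J2 (z v w : ℝ) : ℂ := lineInt (ker2 z v w) (π / (v + w))

/-- Block L0: calculus of `HasLog`. -/
structure StmtLog : Prop where
  uniq : ∀ {ι : Type} (lam : ι → ℝ) (w w' : ℂ), HasLog lam w → HasLog lam w' → w = w'
  equiv : ∀ {ι κ : Type} (e : ι ≃ κ) (lam : κ → ℝ) (w : ℂ), HasLog (lam ∘ e) w ↔ HasLog lam w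
  sum : ∀ {ι κ : Type} (lam : ι → ℝ) (lam' : κ → ℝ) (w w' : ℂ), HasLog lam w → HasLog lam' w' →
    HasLog (Sum.elim lam lam') (w + w')
  fin : ∀ {ι κ : Type} [Fintype ι] (lam : ι → κ → ℝ) (w : ι → ℂ), (∀ i, HasLog (lam i) (w i)) →
    HasLog (fun p : ι × κ => lam p.1 p.2) (∑ i, w i)
  scale : ∀ {ι : Type} (lam : ι → ℝ) (w : ℂ) (c : ℝ), 0 < c → HasLog lam w →
    HasLog (fun i => c * lam i) w
  base : ∀ z v w : ℝ, 0 < v → 0 < w → 0 < z → z < v + w →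
    HasLog (fun p : ℕ × ℕ => z + p.1 * v + p.2 * w) (J2 z v w)

/-- Term of the Shintani zeta function. -/
noncomputable def shTerm (z₁ v₁ w₁ z₂ v₂ w₂ : ℝ) (s : ℂ) (p : ℕ × ℕ) : ℂ :=
  (((z₁ + p.1 * v₁ + p.2 * w₁) * (z₂ + p.1 * v₂ + p.2 * w₂) : ℝ) : ℂ) ^ (-s)

/-- Block SH1: Shintani formula for one cone. -/
def StmtSH1 : Prop :=
  ∀ z₁ v₁ w₁ z₂ v₂ w₂ : ℝ, 0 < v₁ → 0 < w₁ → 0 < v₂ → 0 < w₂ → 0 < z₁ → z₁ < v₁ + w₁ →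
    0 < z₂ → z₂ < v₂ + w₂ →
    (∀ s : ℂ, 1 < s.re → Summable (shTerm z₁ v₁ w₁ z₂ v₂ w₂ s)) ∧
    ∃ Ψ : ℂ → ℂ, DifferentiableOn ℂ Ψ {s | -1 / 2 < s.re} ∧
      Ψ 0 = ((J2 z₁ v₁ w₁).re + (J2 z₂ v₂ w₂).re : ℝ) ∧
      ∀ s : ℂ, 1 < s.re → Ψ s = s * cos (π * s) * Gamma s ^ 2 *
        (∑' p, shTerm z₁ v₁ w₁ z₂ v₂ w₂ s p -
          ∑' p, shTerm (v₁ + w₁ - z₁) v₁ w₁ (v₂ + w₂ - z₂) v₂ w₂ s p)

/-- Test function on the lattice side. -/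
noncomputable def th1 (p₁ p₂ : ℝ) : ℝ :=
  Real.exp (-π * p₁ ^ 2) * (Real.exp (-π * p₂ ^ 2) * Real.sin (2 * π * p₂))

/-- Its Fourier transform. -/
noncomputable def th2 (q₁ q₂ : ℝ) : ℂ :=
  Real.exp (-π * q₁ ^ 2) * ((Real.exp (-π * (q₂ - 1) ^ 2) - Real.exp (-π * (q₂ + 1) ^ 2)) / (2 * I))

/-- Block FE0: two dimensional theta transformation. -/
def StmtTheta : Prop :=
  ∀ x₁ x₂ a₁ a₂ b₁ b₂ δ : ℝ, δ = a₁ * b₂ - a₂ * b₁ → δ ≠ 0 →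
    (∑' p : ℤ × ℤ, (th1 (x₁ + p.1 * a₁ + p.2 * b₁) (x₂ + p.1 * a₂ + p.2 * b₂) : ℂ)) =
      (|δ|⁻¹ : ℝ) * ∑' p : ℤ × ℤ,
        ee ((x₁ * (p.1 * a₂ + p.2 * b₂) - x₂ * (p.1 * a₁ + p.2 * b₁)) / δ : ℝ) *
          th2 ((p.1 * a₂ + p.2 * b₂) / δ) (-(p.1 * a₁ + p.2 * b₁) / δ)

section Finite

variable {G : Type} [AddCommGroup G] [Fintype G] [DecidableEq G]

/-- The modified inverse. -/
noncomputable def fs (f : G → ℂ) (e : ℂ) (x : G) : ℂ := if x = 0 then e / f 0 else (f x)⁻¹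

/-- The reflection factor. -/
noncomputable def gm (f : G → ℂ) (e : ℂ) (x : G) : ℂ := f (-x) / fs f e x

/-- A symmetric nondegenerate bicharacter. -/
structure Bichar (b : G → G → ℂ) : Prop where
  add : ∀ x y u, b (x + y) u = b x u * b y u
  symm : ∀ x u, b x u = b u x
  zero : ∀ u, b 0 u = 1
  nondeg : ∀ u, (∀ x, b x u = 1) → u = 0

/-- A finite quantum dilogarithm. -/
structure IsPent (f : G → ℂ) (b : G → G → ℂ) (e : ℂ) : Prop where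
  bi : Bichar b
  ne : ∀ x, f x ≠ 0
  e_ne : e ≠ 0
  card : (e - 1) ^ 2 = Fintype.card G * e
  pent : ∀ y u, y ≠ 0 → ∑ x, f (x + y) * fs f e x * b x u =
    (e - 1) / f 0 * f y * f (-u) * fs f e (y - u)
  gam : ∀ x y, gm f e (x + y) * gm f e 0 * b x y = gm f e x * gm f e y

end Finite

/-- Block P0, first part. -/
def StmtOrth : Prop :=
  ∀ (G : Type) [AddCommGroup G] [Fintype G] [DecidableEq G] (b : G → G → ℂ), Bichar b →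
    (∀ x, ∑ u, b x u = if x = 0 then (Fintype.card G : ℂ) else 0) ∧
    (∀ g : G → ℂ, ∀ x, ∑ u, (∑ z, g z * b z u) * b x (-u) = Fintype.card G * g x) ∧
    ∀ (Γ : Type) [LinearOrderedCommGroupWithZero Γ] (v : Valuation ℂ Γ) (p : ℕ), p.Prime →
      v p < 1 → (∀ x u, v (b x u) = 1) ∧ ∀ (t : G) (j : ℕ), p ^ j • t = 0 → ∀ u, v (b t u - 1) < 1

/-- Block P0, second part: difference operators kill leading terms. -/
def StmtKill : Prop :=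
  ∀ (G : Type) [AddCommGroup G] [Fintype G] [DecidableEq G] (b : G → G → ℂ), Bichar b →
    ∀ (Γ : Type) [LinearOrderedCommGroupWithZero Γ] (v : Valuation ℂ Γ) (p m : ℕ), p.Prime →
      v p < 1 → ∃ w : Γ, w ^ p < v p ^ (m + 1) ∧ ∀ s₁ s₂ : G, addOrderOf s₁ = p ^ (m + 1) →
        addOrderOf s₂ = p ^ (m + 1) → ∀ c₁ c₂ : ℕ, c₁ ≤ p → c₂ ≤ p →
        ∀ (k g : G → ℂ) (R S : Γ), (∀ u, v (k u) ≤ R) → (∀ x, g x = ∑ u, k u * b x u) →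
        (∀ x, v (g x) ≤ S) → R * w ^ (c₁ + c₂) < S →
        ∀ x, v ((fwdDiff (p ^ m • s₁))^[c₁] ((fwdDiff (p ^ m • s₂))^[c₂] g) x) < S

/-- Block P1: leaf lemma for the unit property. -/
def StmtP1 : Prop :=
  ∀ (G : Type) [AddCommGroup G] [Fintype G] [DecidableEq G] (f : G → ℂ) (b : G → G → ℂ) (e : ℂ),
    IsPent f b e → ∀ (Γ : Type) [LinearOrderedCommGroupWithZero Γ] (v : Valuation ℂ Γ)
    (p m n' : ℕ), p.Prime → 5 ≤ p → v p < 1 → Fintype.card G = p ^ (m + 1) * n' → ¬p ∣ n' →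
    ∀ s : G, addOrderOf s = p ^ (m + 1) → v e = 1 → v (f 0) = 1 →
    (∀ x, v (f x) * v (f (-x)) = 1) → ∀ M : Γ, (∀ x, v (f x) ≤ M) → (∃ x, v (f x) = M) → 1 < M →
    ∃ x, M ^ 3 ≤ v (∏ j ∈ Finset.range p, f (x + j • (p ^ m • s)))

/-- Block P2: leaf lemma for the congruence. -/
def StmtP2 : Prop :=
  ∀ (G : Type) [AddCommGroup G] [Fintype G] [DecidableEq G] (f : G → ℂ) (b : G → G → ℂ) (e : ℂ),
    IsPent f b e → ∀ (Γ : Type) [LinearOrderedCommGroupWithZero Γ] (v : Valuation ℂ Γ)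
    (p m n' : ℕ), p.Prime → p ≠ 2 → v p < 1 → Fintype.card G = p ^ (m + 1) * n' → ¬p ∣ n' →
    ∀ s : G, addOrderOf s = p ^ (m + 1) → v e = 1 → (∀ x, v (f x) = 1) →
    ∀ x, v (f (x + p ^ m • s) - f x) < 1

/-- Block P3: top lemma for the congruence. -/
def StmtP3 : Prop :=
  ∀ (G : Type) [AddCommGroup G] [Fintype G] [DecidableEq G] (f : G → ℂ) (b : G → G → ℂ) (e : ℂ),
    IsPent f b e → ∀ (Γ : Type) [LinearOrderedCommGroupWithZero Γ] (v : Valuation ℂ Γ)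
    (p m n' : ℕ), p.Prime → v p < 1 → Fintype.card G = p ^ (2 * (m + 1)) * n' → ¬p ∣ n' →
    ∀ s₁ s₂ : G, addOrderOf s₁ = p ^ (m + 1) → addOrderOf s₂ = p ^ (m + 1) →
    p ^ m • s₁ + p ^ m • s₂ ≠ 0 → v e = 1 → (∀ x, v (f x) = 1) →
    (∀ (x : G) (i j : ℕ), v (f (x + i • (p ^ m • s₁) + j • (p ^ m • s₂)) * f x -
      f (x + i • (p ^ m • s₁)) * f (x + j • (p ^ m • s₂))) < 1) →
    (∀ x, v (f (x + p ^ m • s₁) - f x) < 1) ∨ ∀ x, v (f (x + p ^ m • s₂) - f x) < 1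

/-- Block P4: lemma for the unit property at arbitrary primes. -/
def StmtP4 : Prop :=
  ∀ (G : Type) [AddCommGroup G] [Fintype G] [DecidableEq G] (f : G → ℂ) (b : G → G → ℂ) (e : ℂ),
    IsPent f b e → ∀ (Γ : Type) [LinearOrderedCommGroupWithZero Γ] (v : Valuation ℂ Γ)
    (p : ℕ), p.Prime → v p < 1 → ∀ A B : AddSubgroup G, IsCompl A B → A ≠ ⊥ →
    v e = 1 → v (f 0) = 1 → (∀ x, v (f x) * v (f (-x)) = 1) → (∀ x ∉ B, v (f x) = 1) →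
    v (Nat.card A) ^ 2 ≤ v (Fintype.card G) →
    ∀ (M : Γ) (x₀ : G), (∀ x, v (f x) ≤ M) → v (f x₀) = M → 1 < M →
    v (Nat.card A) ^ 2 = v (Fintype.card G) ∧
      ∀ t ∈ B, (∃ j : ℕ, p ^ j • t = 0) → v (f (x₀ + t)) = M

/-- Block G1, first part: Artin lemma. -/
def StmtArtin : Prop :=
  ∀ q r M : ℕ, 2 ≤ q → 0 < r → ∃ l : ℕ, Squarefree l ∧ (∀ p : ℕ, p.Prime → p ∣ l → M < p) ∧
    ∀ k : ℕ, q ^ k ≡ 1 [MOD l] → r ∣ k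

end Pool.Agent.Lib.Stark
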