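import Pool.Agent.Lib.stark.Defs1

open Complex MeasureTheory Filter Topology Set Asymptotics
open scoped Real

namespace Pool.Agent.Lib.Stark

namespace FE1

/-- Continuous on the positive axis and bounded by all powers `t ^ (-σ)`, `σ > a`. -/
structure Pw (a : ℝ) (f : ℝ → ℂ) : Prop where
  cont : ContinuousOn f (Ioi 0)
  bd : ∀ σ : ℝ, a < σ → ∃ C, ∀ t : ℝ, 0 < t → ‖f t‖ ≤ C * t ^ (-σ)

theorem bigO_of_le {f : ℝ → ℂ} {σ C : ℝ} (h : ∀ t : ℝ, 0 < t → ‖f t‖ ≤ C * t ^ (-σ))
    {l : Filter ℝ} (hl : ∀ᶠ t in l, 0 < t) : f =O[l] (· ^ (-σ)) :=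
  IsBigO.of_bound C (hl.mono fun t ht => by
    rw [Real.norm_of_nonneg (Real.rpow_nonneg ht.le _)]; exact h t ht)

namespace Pw
variable {a : ℝ} {f : ℝ → ℂ} (h : Pw a f)
include h

theorem top {σ : ℝ} (hσ : a < σ) : f =O[atTop] (· ^ (-σ)) :=
  let ⟨_, hC⟩ := h.bd σ hσ
  bigO_of_le hC (eventually_gt_atTop 0)

theorem bot {σ : ℝ} (hσ : a < σ) : f =O[𝓝[>] 0] (· ^ (-σ)) :=
  let ⟨_, hC⟩ := h.bd σ hσ
  bigO_of_le hC self_mem_nhdsWithin

theorem mc {s : ℂ} (hs : a < s.re) : MellinConvergent f s :=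
  mellinConvergent_of_isBigO_rpow (a := s.re + 1) (b := (a + s.re) / 2)
    (h.cont.locallyIntegrableOn measurableSet_Ioi) (h.top (by linarith)) (by linarith)
    (h.bot (by linarith)) (by linarith)

theorem diff {s : ℂ} (hs : a < s.re) : DifferentiableAt ℂ (mellin f) s :=
  mellin_differentiableAt_of_isBigO_rpow (a := s.re + 1) (b := (a + s.re) / 2)
    (h.cont.locallyIntegrableOn measurableSet_Ioi) (h.top (by linarith)) (by linarith)
    (h.bot (by linarith)) (by linarith)

end Pw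

/-- Integral of the norm of a rescaled Mellin integrand. -/
theorem int_norm_mul (f : ℝ → ℂ) (s : ℂ) {r : ℝ} (hr : 0 < r) :
    ∫ t in Ioi (0 : ℝ), ‖(t : ℂ) ^ (s - 1) • f (t * r)‖ =
      r ^ (-s.re) * ∫ t in Ioi (0 : ℝ), ‖(t : ℂ) ^ (s - 1) • f t‖ := by
  have h := integral_comp_mul_right_Ioi (fun t : ℝ => ‖(t : ℂ) ^ (s - 1) • f t‖) 0 hr
  rw [zero_mul] at h
  have h2 : ∫ t in Ioi (0 : ℝ), ‖(t : ℂ) ^ (s - 1) • f (t * r)‖ =
      ∫ t in Ioi (0 : ℝ), r ^ (1 - s.re) * ‖((t * r : ℝ) : ℂ) ^ (s - 1) • f (t * r)‖ := by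
    refine setIntegral_congr_fun measurableSet_Ioi fun t ht => ?_
    have ht' : 0 < t := ht
    simp only [norm_smul, norm_cpow_eq_rpow_re_of_pos ht', sub_re, one_re,
      norm_cpow_eq_rpow_re_of_pos (mul_pos ht' hr), Real.mul_rpow ht'.le hr.le]
    rw [show 1 - s.re = -(s.re - 1) by ring, Real.rpow_neg hr.le]
    have := (Real.rpow_pos_of_pos hr (s.re - 1)).ne'
    field_simp
  rw [h2, integral_const_mul, h, smul_eq_mul, ← mul_assoc, ← Real.rpow_neg_one,
    ← Real.rpow_add hr]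
  congr 2; ring

theorem gauss_le (a : ℝ) {σ : ℝ} (hσ : 0 ≤ σ) {w : ℝ} (hw : 0 < w) :
    Real.exp (-π * (w - a) ^ 2) ≤ Real.exp (σ * a + σ ^ 2) * w ^ (-σ) := by
  rw [Real.rpow_def_of_pos hw, ← Real.exp_add, Real.exp_le_exp]
  have h1 := Real.log_le_sub_one_of_pos hw
  have h2 := Real.pi_gt_three
  have h3 : σ * Real.log w ≤ σ * w := mul_le_mul_of_nonneg_left (by linarith) hσ
  nlinarith [sq_nonneg (w - a), sq_nonneg (w - a - σ), sq_nonneg σ]

/-- The Gaussian. -/
noncomputable def gg (u : ℝ) : ℝ := Real.exp (-π * u ^ 2)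

theorem gg_pos (u : ℝ) : 0 < gg u := Real.exp_pos _

theorem continuous_gg : Continuous gg := by unfold gg; fun_prop

theorem gg_abs (u v : ℝ) : gg (|u| * v) = gg (u * v) := by simp [gg, mul_pow]

theorem exp_cpow (u : ℝ) (z : ℂ) : ((Real.exp u : ℝ) : ℂ) ^ z = cexp (u * z) := by
  rw [cpow_def_of_ne_zero (ofReal_ne_zero.2 (Real.exp_pos u).ne'),
    ← ofReal_log (Real.exp_pos u).le, Real.log_exp]

theorem exp_image : Real.exp '' univ = Ioi 0 := by rw [image_univ, Real.range_exp]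

theorem integrable_gg {σ : ℝ} (hσ : 0 < σ) :
    Integrable fun u : ℝ => gg (Real.exp u) * Real.exp (σ * u) := by
  have h := integrableOn_rpow_mul_exp_neg_mul_sq Real.pi_pos (s := σ - 1) (by linarith)
  rw [← exp_image, integrableOn_image_iff_integrableOn_abs_deriv_smul MeasurableSet.univ
    (fun x _ => (Real.hasDerivAt_exp x).hasDerivWithinAt) Real.exp_injective.injOn,
    integrableOn_univ] at h
  refine h.congr (Eventually.of_forall fun u => ?_)
  simp only [gg, smul_eq_mul, abs_of_pos (Real.exp_pos u), ← Real.exp_mul, ← Real.exp_add]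
  congr 1; ring

/-- Mellin transform of the Gaussian. -/
noncomputable def GA (s : ℂ) : ℂ := 1 / 2 * ((1 / π : ℂ) ^ (s / 2) * Gamma (s / 2))

theorem integral_gg {s : ℂ} (hs : 0 < s.re) :
    ∫ u : ℝ, (gg (Real.exp u) : ℂ) * cexp (s * u) = GA s := by
  have h1 := integral_cpow_mul_exp_neg_mul_Ioi (a := s / 2) (r := π) (by simpa using hs)
    Real.pi_pos
  have h2 := mellin_comp_rpow (fun t : ℝ => cexp (-(π * t))) s 2
  have h3 := integral_image_eq_integral_abs_deriv_smul MeasurableSet.univ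
    (fun x _ => (Real.hasDerivAt_exp x).hasDerivWithinAt) Real.exp_injective.injOn
    fun t : ℝ => (t : ℂ) ^ (s - 1) • cexp (-(π * (t ^ (2 : ℝ) : ℝ)))
  rw [exp_image, Measure.restrict_univ] at h3
  simp only [mellin, smul_eq_mul, ofReal_ofNat] at h2 h3
  rw [GA, ← h1, show (1 / 2 : ℂ) = ((|(2 : ℝ)|⁻¹ : ℝ) : ℂ) by norm_num, ← real_smul, ← h2, h3]
  refine integral_congr_ae (Eventually.of_forall fun u => ?_)
  simp only [exp_cpow]
  simp only [gg, abs_of_pos (Real.exp_pos u), real_smul, ofReal_exp, Real.rpow_two,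
    ← Complex.exp_add]
  congr 1; push_cast; ring

/-- Odd continuous functions of rapid decay. -/
structure Nice (φ : ℝ → ℂ) : Prop where
  cont : Continuous φ
  odd : ∀ u, φ (-u) = -φ u
  pw : Pw 0 φ

/-- The integrand of the multiplicative convolution. -/
noncomputable def HI (φ : ℝ → ℂ) (r u : ℝ) : ℂ := gg (Real.exp u) * φ (r * Real.exp (-u))

/-- Multiplicative convolution with the Gaussian. -/
noncomputable def Cv (φ : ℝ → ℂ) (r : ℝ) : ℂ := ∫ u, HI φ r u

namespace Nice
variable {φ : ℝ → ℂ} (h : Nice φ)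
include h

theorem sign (β w : ℝ) : φ (β * w) = (SignType.sign β : ℝ) * φ (|β| * w) := by
  rcases lt_trichotomy β 0 with hb | rfl | hb
  · rw [abs_of_neg hb, neg_mul, h.odd, sign_neg hb]; simp
  · have := h.odd 0
    rw [neg_zero, eq_neg_iff_add_eq_zero, ← two_mul, mul_eq_zero] at this
    simpa using this
  · rw [abs_of_pos hb, sign_pos hb]; simp

theorem continuous_HI : Continuous fun p : ℝ × ℝ => HI φ p.1 p.2 := by
  have := h.cont
  have := continuous_gg
  unfold HI; fun_prop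

theorem norm_HI {σ : ℝ} (hσ : 0 < σ) : ∃ C, 0 ≤ C ∧ ∀ r : ℝ, 0 < r → ∀ u,
    ‖HI φ r u‖ ≤ C * r ^ (-σ) * (gg (Real.exp u) * Real.exp (σ * u)) := by
  obtain ⟨C, hC⟩ := h.pw.bd σ hσ
  refine ⟨C, by simpa using (norm_nonneg _).trans (hC 1 one_pos), fun r hr u => ?_⟩
  have h1 := hC _ (mul_pos hr (Real.exp_pos (-u)))
  rw [Real.mul_rpow hr.le (Real.exp_pos _).le, ← Real.exp_mul, neg_mul_neg, mul_comm u] at h1
  rw [HI, norm_mul, norm_real, Real.norm_of_nonneg (gg_pos _).le]
  exact (mul_le_mul_of_nonneg_left h1 (gg_pos _).le).trans_eq (by ring)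

theorem integrable_HI {r : ℝ} (hr : 0 < r) : Integrable (HI φ r) := by
  obtain ⟨C, -, hC⟩ := h.norm_HI one_pos
  exact ((integrable_gg one_pos).const_mul _).mono'
    (h.continuous_HI.comp (Continuous.prodMk_right r)).aestronglyMeasurable
    (Eventually.of_forall (hC r hr))

theorem int_norm_HI {σ : ℝ} (hσ : 0 < σ) :
    ∃ C, ∀ r : ℝ, 0 < r → ∫ u, ‖HI φ r u‖ ≤ C * r ^ (-σ) := by
  obtain ⟨C, -, hC⟩ := h.norm_HI hσ
  refine ⟨C * ∫ u, gg (Real.exp u) * Real.exp (σ * u), fun r hr => ?_⟩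
  refine (integral_mono (h.integrable_HI hr).norm ((integrable_gg hσ).const_mul _)
    (hC r hr)).trans_eq ?_
  rw [integral_const_mul]; ring

theorem pw_Cv : Pw 0 (Cv φ) := by
  refine ⟨fun r hr => ?_, fun σ hσ => ?_⟩
  · obtain ⟨C, hC0, hC⟩ := h.norm_HI one_pos
    have hr2 : 0 < r / 2 := half_pos hr
    have : ContinuousOn (Cv φ) (Ioi (r / 2)) := by
      refine continuousOn_of_dominated (bound := fun u => C * (r / 2) ^ (-(1 : ℝ)) *
        (gg (Real.exp u) * Real.exp (1 * u))) (fun x hx => (h.integrable_HI (hr2.trans hx)).1)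
        (fun x hx => Eventually.of_forall fun u => (hC x (hr2.trans hx) u).trans ?_)
        ((integrable_gg one_pos).const_mul _) (Eventually.of_forall fun u =>
          (h.continuous_HI.comp (Continuous.prodMk_left u)).continuousOn)
      have := gg_pos (Real.exp u)
      have h2 : x ^ (-(1 : ℝ)) ≤ (r / 2) ^ (-(1 : ℝ)) :=
        Real.rpow_le_rpow_of_nonpos hr2 (le_of_lt hx) (by norm_num)
      gcongr
    exact (this.continuousAt (Ioi_mem_nhds (half_lt_self hr))).continuousWithinAt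
  · obtain ⟨C, hC⟩ := h.int_norm_HI hσ
    exact ⟨C, fun r hr => (norm_integral_le_integral_norm _).trans (hC r hr)⟩

theorem mellin_Cv {s : ℂ} (hs : 0 < s.re) : mellin (Cv φ) s = GA s * mellin φ s := by
  have hc : ∀ u : ℝ, MellinConvergent (fun t => HI φ t u) s := fun u => by
    have := (MellinConvergent.comp_mul_left (Real.exp_pos (-u))).2 (h.pw.mc hs)
    simpa only [HI, mul_comm (Real.exp (-u)), smul_eq_mul] using
      this.const_smul (gg (Real.exp u) : ℂ)
  have hi : Integrable (Function.uncurry fun (t u : ℝ) => (t : ℂ) ^ (s - 1) • HI φ t u)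
      ((volume.restrict (Ioi 0)).prod volume) := by
    rw [integrable_prod_iff']
    · refine ⟨Eventually.of_forall hc, ?_⟩
      refine ((integrable_gg hs).mul_const
        (∫ t in Ioi (0 : ℝ), ‖(t : ℂ) ^ (s - 1) • φ t‖)).congr (Eventually.of_forall fun u => ?_)
      have := int_norm_mul φ s (Real.exp_pos (-u))
      rw [← Real.exp_mul, neg_mul_neg, mul_comm u] at this
      simp only [Function.uncurry_apply_pair]
      rw [mul_assoc, ← this, ← integral_const_mul]
      refine integral_congr_ae (Eventually.of_forall fun t => ?_)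
      simp only [HI, norm_smul, norm_mul, norm_real, Real.norm_of_nonneg (gg_pos _).le]
      ring
    · refine Measurable.aestronglyMeasurable ?_
      have h1 := h.continuous_HI.measurable
      exact ((measurable_ofReal.comp measurable_fst).pow_const _).smul h1
  have h1 := integral_integral_swap hi
  simp only [integral_smul] at h1
  rw [mellin]
  simp only [Cv]
  rw [h1, ← integral_gg hs, ← integral_mul_const]
  refine integral_congr_ae (Eventually.of_forall fun u => ?_)
  have h2 := mellin_const_smul (fun t => φ (t * Real.exp (-u))) s (gg (Real.exp u) : ℂ)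
  rw [mellin_comp_mul_right _ _ (Real.exp_pos (-u)), exp_cpow] at h2
  simp only [smul_eq_mul, mellin] at h2 ⊢
  simp only [HI]
  rw [h2, ← mul_assoc]
  congr 3; push_cast; ring

theorem term_eq {α : ℝ} (hα : α ≠ 0) (β L v : ℝ) :
    (gg (α * Real.exp (L * v)) : ℂ) * φ (β * Real.exp (-(L * v))) =
      (SignType.sign β : ℝ) * HI φ |α * β| (L * v + Real.log |α|) := by
  have h0 : 0 < |α| := abs_pos.2 hα
  rw [h.sign, HI, Real.exp_add, Real.exp_log h0, mul_comm (Real.exp _), gg_abs, neg_add,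
    Real.exp_add, Real.exp_neg (Real.log _), Real.exp_log h0, abs_mul, mul_left_comm]
  congr 3
  field_simp

end Nice

theorem int_affine {E : Type} [NormedAddCommGroup E] [NormedSpace ℝ E] (H : ℝ → E) (L c : ℝ) :
    ∫ v, H (L * v + c) = |L⁻¹| • ∫ u, H u := by
  rw [Measure.integral_comp_mul_left (fun u => H (u + c)), integral_add_right_eq_self]

/-- Unfolding. -/
theorem unfold {ι : Type} [Countable ι] {F : ι → ℝ → ℂ} (hF : ∀ i, Integrable (F i))
    (hs : Summable fun i => ∫ v, ‖F i v‖) :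
    ∫ v in Ioc (0 : ℝ) 1, ∑' p : ι × ℤ, F p.1 (v + p.2) = ∑' i, ∫ v, F i v := by
  have h1 := fun i => (hF i).hasSum_intervalIntegral_comp_add_int
  have h2 := fun i => (hF i).norm.hasSum_intervalIntegral_comp_add_int
  simp only [intervalIntegral.integral_of_le (zero_le_one' ℝ)] at h1 h2
  have h3 := hasSum_integral_of_summable_integral_norm (μ := volume.restrict (Ioc (0 : ℝ) 1))
    (F := fun (p : ι × ℤ) v => F p.1 (v + p.2))
    (fun p => ((hF p.1).comp_add_right _).integrableOn)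
    ((summable_prod_of_nonneg fun p => integral_nonneg fun _ => norm_nonneg _).2
      ⟨fun i => (h2 i).summable, hs.congr fun i => (h2 i).tsum_eq.symm⟩)
  exact (h3.prod_fiberwise h1).tsum_eq.symm

section Series
variable {ι : Type} [Countable ι] {c : ι → ℂ} {N : ι → ℝ}

/-- The series of rescaled functions. -/
noncomputable def SS (f : ℝ → ℂ) (c : ι → ℂ) (N : ι → ℝ) (t : ℝ) : ℂ := ∑' i, c i * f (t * N i)

variable (hc : ∀ i, ‖c i‖ ≤ 1) (hN : ∀ i, 0 < N i)
  (hsum : ∀ σ : ℝ, 1 < σ → Summable fun i => N i ^ (-σ))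
include hc hN hsum

omit [Countable ι] in
theorem Pw.pw_SS {f : ℝ → ℂ} (h : Pw 0 f) : Pw 1 (SS f c N) := by
  have key : ∀ σ : ℝ, 1 < σ → ∃ C, 0 ≤ C ∧ ∀ t : ℝ, 0 < t → ∀ i,
      ‖c i * f (t * N i)‖ ≤ C * t ^ (-σ) * N i ^ (-σ) := fun σ hσ => by
    obtain ⟨C, hC⟩ := h.bd σ (one_pos.trans hσ)
    refine ⟨C, by simpa using (norm_nonneg _).trans (hC 1 one_pos), fun t ht i => ?_⟩
    rw [norm_mul, mul_assoc, ← Real.mul_rpow ht.le (hN i).le]
    exact (mul_le_of_le_one_left (norm_nonneg _) (hc i)).trans (hC _ (mul_pos ht (hN i)))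
  refine ⟨fun r hr => ?_, fun σ hσ => ?_⟩
  · obtain ⟨C, hC0, hC⟩ := key 2 one_lt_two
    have hr2 : 0 < r / 2 := half_pos hr
    have : ContinuousOn (SS f c N) (Ioi (r / 2)) := by
      refine continuousOn_tsum (u := fun i => C * (r / 2) ^ (-(2 : ℝ)) * N i ^ (-(2 : ℝ)))
        (fun i => continuousOn_const.mul (h.cont.comp (by fun_prop)
          fun x hx => mul_pos (hr2.trans hx) (hN i))) ((hsum 2 one_lt_two).mul_left _)
        fun i x hx => (hC x (hr2.trans hx) i).trans ?_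
      have := Real.rpow_nonneg (hN i).le (-(2 : ℝ))
      have h2 : x ^ (-(2 : ℝ)) ≤ (r / 2) ^ (-(2 : ℝ)) :=
        Real.rpow_le_rpow_of_nonpos hr2 (le_of_lt hx) (by norm_num)
      gcongr
    exact (this.continuousAt (Ioi_mem_nhds (half_lt_self hr))).continuousWithinAt
  · obtain ⟨C, -, hC⟩ := key σ hσ
    refine ⟨C * ∑' i, N i ^ (-σ), fun t ht => ?_⟩
    refine (tsum_of_norm_bounded ((hsum σ hσ).mul_left _).hasSum (hC t ht)).trans_eq ?_
    rw [tsum_mul_left]; ring

theorem Pw.mellin_SS {f : ℝ → ℂ} (h : Pw 0 f) {s : ℂ} (hs : 1 < s.re) :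
    mellin (SS f c N) s = (∑' i, c i * (N i : ℂ) ^ (-s)) * mellin f s := by
  have hm := h.mc (one_pos.trans hs)
  have h1 := hasSum_integral_of_summable_integral_norm (μ := volume.restrict (Ioi (0 : ℝ)))
    (F := fun i (t : ℝ) => c i * ((t : ℂ) ^ (s - 1) • f (t * N i)))
    (fun i => Integrable.const_mul (by
      have := (MellinConvergent.comp_mul_left (hN i)).2 hm
      simp only [mul_comm (N i)] at this
      exact this) _)
    (Summable.of_nonneg_of_le (fun i => integral_nonneg fun _ => norm_nonneg _) (fun i => by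
      simp only [norm_mul (c i)]
      rw [integral_const_mul, int_norm_mul f s (hN i)]
      exact mul_le_of_le_one_left (mul_nonneg (Real.rpow_nonneg (hN i).le _)
        (integral_nonneg fun _ => norm_nonneg _)) (hc i))
      ((hsum s.re hs).mul_right _))
  rw [← tsum_mul_right]
  refine Eq.trans ?_ (h1.tsum_eq.symm.trans (tsum_congr fun i => ?_))
  · refine integral_congr_ae (Eventually.of_forall fun t => ?_)
    simp only [SS, smul_eq_mul, ← tsum_mul_left, mul_left_comm]
  · rw [integral_const_mul, mul_assoc, ← smul_eq_mul (_ ^ (-s)), ← mellin_comp_mul_right _ _ (hN i)]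
    rfl

theorem Nice.unfold_SS {φ : ℝ → ℂ} (h : Nice φ) {α β : ι → ℝ} {t L : ℝ} (ht : 0 < t) (hL : L ≠ 0)
    (hαβ : ∀ i, |α i * β i| = t * N i) :
    ∫ v in Ioc (0 : ℝ) 1, ∑' p : ι × ℤ, c p.1 * ((gg (α p.1 * Real.exp (L * (v + p.2))) : ℂ) *
        φ (β p.1 * Real.exp (-(L * (v + p.2))))) =
      (|L⁻¹| : ℝ) * SS (Cv φ) (fun i => c i * (SignType.sign (β i) : ℝ)) N t := by
  have hα : ∀ i, α i ≠ 0 := fun i h0 => by
    have := mul_pos ht (hN i)
    rw [← hαβ, h0] at this
    simp at this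
  simp only [h.term_eq (hα _), hαβ]
  obtain ⟨C, hC⟩ := h.int_norm_HI two_pos
  rw [unfold (F := fun i v => c i * ((SignType.sign (β i) : ℝ) *
    HI φ (t * N i) (L * v + Real.log |α i|)))]
  · rw [SS, ← tsum_mul_left]
    refine tsum_congr fun i => ?_
    rw [integral_const_mul, integral_const_mul, int_affine, Cv, real_smul]
    ring
  · exact fun i => ((((h.integrable_HI (mul_pos ht (hN i))).comp_add_right _).comp_mul_left'
      hL).const_mul _).const_mul _
  · refine Summable.of_nonneg_of_le (fun i => integral_nonneg fun _ => norm_nonneg _) (fun i => ?_)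
      ((hsum 2 one_lt_two).mul_left (|L⁻¹| * (C * t ^ (-(2 : ℝ)))))
    simp only [norm_mul]
    rw [integral_const_mul, integral_const_mul, int_affine fun u => ‖HI φ (t * N i) u‖, smul_eq_mul]
    have h0 : 0 ≤ |L⁻¹| * ∫ u, ‖HI φ (t * N i) u‖ :=
      mul_nonneg (abs_nonneg _) (integral_nonneg fun _ => norm_nonneg _)
    have h1 : ‖((SignType.sign (β i) : ℝ) : ℂ)‖ ≤ 1 := by
      cases SignType.sign (β i) <;> simp
    refine (mul_le_of_le_one_left (mul_nonneg (norm_nonneg _) h0) (hc i)).trans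
      ((mul_le_of_le_one_left h0 h1).trans ?_)
    rw [mul_assoc, mul_assoc, ← Real.mul_rpow ht.le (hN i).le]
    exact mul_le_mul_of_nonneg_left (hC _ (mul_pos ht (hN i))) (abs_nonneg _)

end Series

end FE1

end Pool.Agent.Lib.Stark
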