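import Pool.Agent.Lib.stark.R1b
import Pool.Agent.Lib.MP_6bf7a3_nt.Zeta

open Complex NumberField Filter Topology Ideal
open scoped Real nonZeroDivisors

namespace Pool.Agent.Lib.Stark

set_option linter.unusedSectionVars false

namespace FE2

variable {K : Type} [Field K] [NumberField K] {σ₁ σ₂ : K →+* ℝ} {c : K ≃+* K}

/-- The determinant form. -/
def dt (σ₁ σ₂ : K →+* ℝ) (x y : K) : ℝ := σ₁ x * σ₂ y - σ₂ x * σ₁ y

theorem dt_mul (h : ∀ x, σ₁ (c x) = σ₂ x) (h' : ∀ x, σ₂ (c x) = σ₁ x) (α x y : K) :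
    dt σ₁ σ₂ (α * x) y = dt σ₁ σ₂ x (c α * y) := by
  simp only [dt, map_mul, h, h']; ring

theorem dt_comb (b₁ b₂ : K) (i j i' j' : ℚ) :
    dt σ₁ σ₂ (i * b₁ + j * b₂) (i' * b₁ + j' * b₂) = (i * j' - j * i' : ℚ) * dt σ₁ σ₂ b₁ b₂ := by
  simp only [dt, map_add, map_mul, map_ratCast]; push_cast; ring

theorem dt_ne (h : RQ σ₁ σ₂ c) (hb : StmtBasic K σ₁ σ₂ c) {b₁ b₂ : K} (hI : Ind b₁ b₂) :
    dt σ₁ σ₂ b₁ b₂ ≠ 0 := fun h0 => h.ne (RingHom.ext fun x => by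
  obtain ⟨i, j, e⟩ := hb.span2 b₁ b₂ 1 hI
  obtain ⟨i', j', e'⟩ := hb.span2 b₁ b₂ x hI
  have := dt_comb (σ₁ := σ₁) (σ₂ := σ₂) b₁ b₂ i j i' j'
  rw [← e, ← e', h0] at this
  simp only [dt, map_one] at this
  linarith)

theorem uni (h : RQ σ₁ σ₂ c) (hb : StmtBasic K σ₁ σ₂ c) {Λ : Submodule ℤ K} {b₁ b₂ : K}
    (hI : Ind b₁ b₂) (hΛ : Λ = Submodule.span ℤ {b₁, b₂}) (y : K) :
    y ∈ Λ ↔ ∀ x ∈ Λ, ∃ k : ℤ, dt σ₁ σ₂ x y = k * dt σ₁ σ₂ b₁ b₂ := by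
  subst hΛ
  constructor
  · intro hy x hx
    obtain ⟨i, j, rfl⟩ := Submodule.mem_span_pair.1 hx
    obtain ⟨i', j', rfl⟩ := Submodule.mem_span_pair.1 hy
    refine ⟨i * j' - j * i', ?_⟩
    have := dt_comb (σ₁ := σ₁) (σ₂ := σ₂) b₁ b₂ i j i' j'
    simpa [zsmul_eq_mul] using this
  · intro hy
    obtain ⟨i, j, e⟩ := hb.span2 b₁ b₂ y hI
    obtain ⟨k₁, e₁⟩ := hy b₁ (Submodule.subset_span (by simp))
    obtain ⟨k₂, e₂⟩ := hy b₂ (Submodule.subset_span (by simp))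
    have f₁ := dt_comb (σ₁ := σ₁) (σ₂ := σ₂) b₁ b₂ 1 0 i j
    have f₂ := dt_comb (σ₁ := σ₁) (σ₂ := σ₂) b₁ b₂ 0 1 i j
    rw [← e] at f₁ f₂
    simp only [Rat.cast_one, one_mul, Rat.cast_zero, zero_mul, add_zero, sub_zero, zero_add,
      zero_sub] at f₁ f₂
    have g₁ : (j : ℝ) = k₁ := mul_right_cancel₀ (dt_ne h hb hI) (f₁.symm.trans e₁)
    have g₂ : ((-i : ℚ) : ℝ) = k₂ := mul_right_cancel₀ (dt_ne h hb hI) (f₂.symm.trans e₂)
    have g₁' : j = k₁ := by exact_mod_cast g₁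
    have g₂' : i = ((-k₂ : ℤ) : ℚ) := by
      have : -i = k₂ := by exact_mod_cast g₂
      push_cast; linarith
    refine Submodule.mem_span_pair.2 ⟨-k₂, k₁, ?_⟩
    rw [e, g₁', g₂']; simp [zsmul_eq_mul]

theorem pos_basis (h : RQ σ₁ σ₂ c) (hb : StmtBasic K σ₁ σ₂ c) {Λ : Submodule ℤ K}
    (hΛ : IsLat Λ) :
    ∃ b₁ b₂ : K, Ind b₁ b₂ ∧ Λ = Submodule.span ℤ {b₁, b₂} ∧ 0 < dt σ₁ σ₂ b₁ b₂ := by
  obtain ⟨b₁, b₂, hI, e⟩ := hb.basis Λ hΛ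
  rcases (dt_ne h hb hI).lt_or_gt with h0 | h0
  · refine ⟨b₂, b₁, fun i j hij => (hI j i (by rw [add_comm]; exact hij)).symm,
      by rw [e, Set.pair_comm], ?_⟩
    simp only [dt] at h0 ⊢; linarith
  · exact ⟨b₁, b₂, hI, e, h0⟩

theorem ee_add (x y : ℂ) : ee (x + y) = ee x * ee y := by
  simp only [ee, mul_add, Complex.exp_add]

theorem ee_int (k : ℤ) : ee k = 1 := by
  rw [ee, mul_comm]; exact exp_int_mul_two_pi_mul_I k

theorem ee_eq_one {x : ℝ} (h : ee x = 1) : ∃ k : ℤ, x = k := by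
  obtain ⟨k, hk⟩ := Complex.exp_eq_one_iff.1 h
  refine ⟨k, ?_⟩
  have h2 : (2 * π * I : ℂ) ≠ 0 := two_pi_I_ne_zero
  have : (x : ℂ) = k := mul_left_cancel₀ h2 (by rw [hk]; ring)
  exact_mod_cast this

theorem norm_ee (x : ℝ) : ‖ee x‖ = 1 := by
  rw [ee, show (2 * π * I * x : ℂ) = ((2 * π * x : ℝ) : ℂ) * I by push_cast; ring,
    norm_exp_ofReal_mul_I]

theorem mem_lat {a : FractionalIdeal (𝓞 K)⁰ K} {x : K} : x ∈ lat a ↔ x ∈ a := Iff.rfl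

theorem smul_mem {a : FractionalIdeal (𝓞 K)⁰ K} (o : 𝓞 K) {x : K} (hx : x ∈ a) :
    (o : K) * x ∈ a := (a : Submodule (𝓞 K) K).smul_mem o hx

theorem conj_eps (h : RQ σ₁ σ₂ c) {ε : K} {n : ℕ} (hL : Lev σ₁ σ₂ ε n) : ε * c ε = 1 :=
  σ₁.injective (by rw [map_mul, h.cnj₁, hL.norm, map_one])

theorem conj_mem {a : FractionalIdeal (𝓞 K)⁰ K} (o : 𝓞 K) {x : K} (hx : x ∈ a) :
    c o * x ∈ a := smul_mem (RingOfIntegers.mapRingEquiv c o) hx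

open Classical in
theorem orth (h : RQ σ₁ σ₂ c) (hb : StmtBasic K σ₁ σ₂ c) {ε : 𝓞 K} {n : ℕ}
    (hL : Lev σ₁ σ₂ (ε : K) n) {a : FractionalIdeal (𝓞 K)⁰ K} {b₁ b₂ : K}
    (hI : Ind b₁ b₂) (hΛ : lat a = Submodule.span ℤ {b₁, b₂}) {R : Finset K}
    (hR₁ : ∀ t ∈ R, Tor (ε : K) (lat a) t)
    (hR₂ : ∀ y, Tor (ε : K) (lat a) y → ∃! t, t ∈ R ∧ y - t ∈ lat a) {q : K} (hq : q ∈ a) :
    ∑ t ∈ R, ee (dt σ₁ σ₂ t q / dt σ₁ σ₂ b₁ b₂ : ℝ) =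
      if ∃ z ∈ a, q = (ε - 1) * z then (R.card : ℂ) else 0 := by
  have hδ := dt_ne h hb hI
  have he := conj_eps h hL
  have hcc := R1b.cc h
  have hint : ∀ x ∈ a, ∀ y ∈ a, ee (dt σ₁ σ₂ x y / dt σ₁ σ₂ b₁ b₂ : ℝ) = 1 := by
    intro x hx y hy
    obtain ⟨k, hk⟩ := (uni h hb hI hΛ y).1 hy x hx
    rw [hk, mul_div_cancel_right₀ _ hδ]; exact_mod_cast ee_int k
  have hadd : ∀ x x' y : K, ee (dt σ₁ σ₂ (x + x') y / dt σ₁ σ₂ b₁ b₂ : ℝ) =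
      ee (dt σ₁ σ₂ x y / dt σ₁ σ₂ b₁ b₂ : ℝ) * ee (dt σ₁ σ₂ x' y / dt σ₁ σ₂ b₁ b₂ : ℝ) := by
    intro x x' y
    rw [← ee_add]; congr 1; simp only [dt, map_add]; push_cast; ring
  have hε1 : (ε : K) - 1 ≠ 0 := fun h0 => by
    have := hL.one_lt
    rw [sub_eq_zero.1 h0] at this; simp at this
  split_ifs with hz
  · obtain ⟨z, hz, rfl⟩ := hz
    rw [Finset.sum_congr rfl (g := fun _ => (1 : ℂ)), Finset.sum_const, nsmul_eq_mul, mul_one]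
    intro t ht
    have e : (ε : K) - 1 = c (c ε - 1) := by rw [map_sub, hcc, map_one]
    rw [e, ← dt_mul h.cnj₁ h.cnj₂]
    refine hint _ ?_ _ hz
    have e2 : (c ε - 1) * t = -(c ε * (((ε : K) - 1) * t)) := by
      linear_combination t * he
    rw [e2]
    exact (lat a).neg_mem (conj_mem ε (hR₁ t ht))
  · obtain ⟨x₀, hx₀, hne⟩ : ∃ x₀, Tor (ε : K) (lat a) x₀ ∧
        ee (dt σ₁ σ₂ x₀ q / dt σ₁ σ₂ b₁ b₂ : ℝ) ≠ 1 := by
      by_contra hc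
      push Not at hc
      have hm : c ((ε : K) - 1)⁻¹ * q ∈ lat a := by
        refine (uni h hb hI hΛ _).2 fun x hx => ?_
        obtain ⟨k, hk⟩ := ee_eq_one (hc (((ε : K) - 1)⁻¹ * x) (by
          unfold Tor; rwa [mul_inv_cancel_left₀ hε1]))
        rw [dt_mul h.cnj₁ h.cnj₂, div_eq_iff hδ] at hk
        exact ⟨k, hk⟩
      refine hz ⟨-(c ε * (c ((ε : K) - 1)⁻¹ * q)), (lat a).neg_mem (conj_mem ε hm), ?_⟩
      have h1 : c ε - 1 ≠ 0 := fun h0 => hε1 (c.injective (by rw [map_sub, map_one, h0, map_zero]))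
      rw [map_inv₀, map_sub, map_one]
      field_simp
      linear_combination q * he
    have hT : ∀ t ∈ R, Tor (ε : K) (lat a) (t + x₀) := fun t ht => by
      unfold Tor; rw [mul_add]; exact (lat a).add_mem (hR₁ t ht) hx₀
    choose! ρ hρ hρ' using fun t (ht : t ∈ R) => hR₂ _ (hT t ht)
    have hinj : Set.InjOn ρ R := fun t ht t' ht' e => by
      have h1 := (lat a).sub_mem (hρ t ht).2 (hρ t' ht').2
      rw [e] at h1
      exact (hR₂ t (hR₁ t ht)).unique ⟨ht, by simp⟩ ⟨ht', by convert h1 using 1; ring⟩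
    have hsum : ∑ t ∈ R, ee (dt σ₁ σ₂ (ρ t) q / dt σ₁ σ₂ b₁ b₂ : ℝ) =
        ∑ t ∈ R, ee (dt σ₁ σ₂ t q / dt σ₁ σ₂ b₁ b₂ : ℝ) :=
      Finset.sum_bij (fun t _ => ρ t) (fun t ht => (hρ t ht).1) (fun t ht t' ht' e => hinj ht ht' e)
        (fun t ht => by
          obtain ⟨u, hu, e⟩ := Finset.surjOn_of_injOn_of_card_le ρ (fun t ht => (hρ t ht).1) hinj
            le_rfl ht
          exact ⟨u, hu, e⟩) (fun _ _ => rfl)
    have h2 : ∀ t ∈ R, ee (dt σ₁ σ₂ (ρ t) q / dt σ₁ σ₂ b₁ b₂ : ℝ) =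
        ee (dt σ₁ σ₂ t q / dt σ₁ σ₂ b₁ b₂ : ℝ) * ee (dt σ₁ σ₂ x₀ q / dt σ₁ σ₂ b₁ b₂ : ℝ) := by
      intro t ht
      rw [← hadd, show t + x₀ = (t + x₀ - ρ t) + ρ t by ring, hadd, hint _ (hρ t ht).2 _ hq, one_mul]
    rw [Finset.sum_congr rfl h2, ← Finset.sum_mul] at hsum
    by_contra h0
    exact hne (mul_left_cancel₀ h0 (hsum.trans (mul_one _).symm))

theorem cop_one {m : Ideal (𝓞 K)} {α : 𝓞 K} (h0 : α ≠ 0) (h1 : α - 1 ∈ m) : Cop m (span {α}) := by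
  refine ⟨(eq_top_iff_one _).2 ?_, by simpa using h0⟩
  have := sub_mem (mem_sup_left (T := m) (mem_span_singleton_self α)) (mem_sup_right h1)
  simpa using this

theorem cop_mul {m I J : Ideal (𝓞 K)} (hI : Cop m I) (hJ : Cop m J) : Cop m (I * J) :=
  ⟨isCoprime_iff_sup_eq.1 ((isCoprime_iff_sup_eq.2 hI.1).mul_left (isCoprime_iff_sup_eq.2 hJ.1)),
    mul_ne_zero hI.2 hJ.2⟩

theorem one_mul_mem {m : Ideal (𝓞 K)} {α β : 𝓞 K} (h1 : α - 1 ∈ m) (h2 : β - 1 ∈ m) :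
    α * β - 1 ∈ m := by
  have := add_mem (m.mul_mem_right β h1) h2
  convert this using 1; ring

theorem kap_mul {m : Ideal (𝓞 K)} {B : Type} [CommGroup B] {κ : Ideal (𝓞 K) → B}
    (hκ : RayHom m κ) {α β : 𝓞 K} (h0 : α ≠ 0) (h1 : α - 1 ∈ m) (h0' : β ≠ 0) (h1' : β - 1 ∈ m) :
    κ (span {α * β}) = κ (span {α}) * κ (span {β}) := by
  rw [← span_singleton_mul_span_singleton, hκ.mul _ _ (cop_one h0 h1) (cop_one h0' h1')]

theorem kap_sq {m : Ideal (𝓞 K)} {B : Type} [CommGroup B] {κ : Ideal (𝓞 K) → B}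
    (hκ : RayHom m κ) {α : 𝓞 K} (h0 : α ≠ 0) (h1 : α - 1 ∈ m) :
    κ (span {α}) * κ (span {α}) = 1 := by
  rw [← kap_mul hκ h0 h1 h0 h1]
  refine hκ.triv _ (mul_ne_zero h0 h0) (one_mul_mem h1 h1) fun τ => ?_
  have : τ (α : K) ≠ 0 := by simpa using h0
  simpa using this

open Classical in
/-- The sign function on the ray class group. -/
noncomputable def eta (σ₁ : K →+* ℝ) (m : Ideal (𝓞 K)) {B : Type} (κ : Ideal (𝓞 K) → B)
    (g : B) : ℂ :=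
  if h : ∃ α : 𝓞 K, α ≠ 0 ∧ α - 1 ∈ m ∧ κ (span {α}) = g then
    (SignType.sign (σ₁ h.choose) : ℝ) else 0

theorem eta_eq {ε : 𝓞 K} {n : ℕ} (hL : Lev σ₁ σ₂ (ε : K) n) (hN : NR ε) {B : Type} [CommGroup B]
    {κ : Ideal (𝓞 K) → B} (hκ : Univ Set.univ (span {ε - 1}) κ) {α : 𝓞 K} (h0 : α ≠ 0)
    (h1 : α - 1 ∈ span {ε - 1}) :
    eta σ₁ (span {ε - 1}) κ (κ (span {α})) = (SignType.sign (σ₁ α) : ℝ) := by
  have h : ∃ β : 𝓞 K, β ≠ 0 ∧ β - 1 ∈ span {ε - 1} ∧ κ (span {β}) = κ (span {α}) :=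
    ⟨α, h0, h1, rfl⟩
  rw [eta, dif_pos h]
  obtain ⟨g0, g1, g2⟩ := h.choose_spec
  generalize h.choose = β at g0 g1 g2
  obtain ⟨α', β', -, -, f1, f2, f3, f4⟩ := (hκ.ker _ _ (cop_one g0 g1) (cop_one h0 h1)).1 g2
  rw [span_singleton_mul_span_singleton, span_singleton_mul_span_singleton,
    span_singleton_eq_span_singleton] at f4
  obtain ⟨u, hu⟩ := f4
  obtain ⟨k, hk⟩ := hN u (by
    have := sub_mem (one_mul_mem f2 h1) (Ideal.mul_mem_right (u : 𝓞 K) _ (one_mul_mem f1 g1))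
    convert this using 1; rw [← hu]; ring)
  have e := congrArg (fun x : 𝓞 K => SignType.sign (σ₁ x)) hu
  have p := f3 σ₁ trivial
  have pu : 0 < σ₁ ((u : 𝓞 K) : K) := by
    rw [hk, map_zpow₀]; exact zpow_pos (one_pos.trans hL.one_lt) k
  simp only [map_mul, sign_mul, sign_pos p.1, sign_pos p.2, sign_pos pu, one_mul, mul_one] at e
  rw [e]

theorem summ {E : Type} [Field E] [NumberField E] (m : Ideal (𝓞 E)) {B : Type}
    [Finite B] (κ : Ideal (𝓞 E) → B) (ψ : B → ℂ) (s : ℝ) (hs : 1 < s) :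
    Summable fun I : {I // Cop m I} => ψ (κ I) * (absNorm I.1 : ℂ) ^ (-(s : ℂ)) := by
  have := Fintype.ofFinite B
  have h1 := ((MP_6bf7a3_nt.summable_dedekind E (s := s) (by simpa using hs)).subtype
    {I | Cop m I}).norm.mul_left (∑ b, ‖ψ b‖)
  refine h1.of_norm_bounded fun I => ?_
  rw [norm_mul]
  exact mul_le_mul_of_nonneg_right (Finset.single_le_sum (f := fun b => ‖ψ b‖)
    (fun _ _ => norm_nonneg _) (Finset.mem_univ _)) (norm_nonneg _)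

theorem fourier {E : Type} [Field E] [NumberField E] {m : Ideal (𝓞 E)} {B : Type} [CommGroup B]
    [Finite B] {κ : Ideal (𝓞 E) → B} (hNV : ∀ χ : B →* ℂˣ, NV m fun I => χ (κ I)) (φ : B → ℂ)
    (hφ : ∀ A : B, Tendsto (fun s : ℝ => LS m (fun I => φ (A⁻¹ * κ I)) s) (𝓝[>] 1) (𝓝 0))
    (g : B) : φ g = 0 := by
  classical
  have := Fintype.ofFinite B
  have hs := summ m κ
  have key : ∀ χ : B →* ℂˣ, ∑ h, ((χ h⁻¹ : ℂˣ) : ℂ) * φ h = 0 := by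
    intro χ
    by_contra h0
    refine hNV χ ?_
    have h1 := (tendsto_finsetSum Finset.univ fun A _ =>
      (hφ A).const_mul ((χ A : ℂˣ) : ℂ)).const_mul (∑ h, ((χ h⁻¹ : ℂˣ) : ℂ) * φ h)⁻¹
    simp only [mul_zero, Finset.sum_const_zero] at h1
    refine h1.congr' (eventually_nhdsWithin_of_forall fun s hs1 => ?_)
    simp only [LS]
    rw [inv_mul_eq_iff_eq_mul₀ h0, ← tsum_mul_left]
    simp only [← tsum_mul_left]
    rw [← Summable.tsum_finsetSum fun A _ => (hs (fun x => φ (A⁻¹ * x)) s hs1).mul_left _]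
    refine tsum_congr fun I => ?_
    rw [← mul_assoc, Finset.sum_mul, Finset.sum_mul]
    refine Fintype.sum_equiv ((Equiv.inv B).trans (Equiv.mulRight (κ I))) _ _ fun A => ?_
    simp only [Equiv.trans_apply, Equiv.inv_apply, Equiv.coe_mulRight, mul_inv_rev, inv_inv,
      map_mul, map_inv, Units.val_mul, Units.val_inv_eq_inv_val]
    field_simp
  have h2 : ∑ ψ : AddChar (Additive B) ℂ, ψ (Additive.ofMul g) *
      ∑ h, ψ (Additive.ofMul h⁻¹) * φ h = 0 := by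
    refine Finset.sum_eq_zero fun ψ _ => ?_
    have := key (ψ.toMonoidHom.comp (MulEquiv.multiplicativeAdditive B).symm.toMonoidHom).toHomUnits
    exact mul_eq_zero_of_right _ this
  simp only [Finset.mul_sum, ← mul_assoc, ← AddChar.map_add_eq_mul] at h2
  rw [Finset.sum_comm] at h2
  simp only [← Finset.sum_mul, AddChar.sum_apply_eq_ite, ← ofMul_mul, ofMul_eq_zero,
    mul_inv_eq_one, ite_mul, zero_mul, Finset.sum_ite_eq, Finset.mem_univ, if_true] at h2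
  exact (mul_eq_zero.1 h2).resolve_left (Nat.cast_ne_zero.2 Fintype.card_ne_zero)

end FE2

end Pool.Agent.Lib.Stark
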