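import Pool.Agent.Lib.stark.Defs2

open NumberField Filter Topology Ideal Polynomial

namespace Pool.Agent.Lib.Stark

namespace G5

set_option linter.unusedSectionVars false

section Signs

variable {K : Type} [Field K] [NumberField K]

theorem exists_mem_open {σ₁ σ₂ : K →+* ℝ} (hne : σ₂ ≠ σ₁) {U₁ U₂ : Set ℝ} (h₁ : IsOpen U₁)
    (h₂ : IsOpen U₂) {t₁ t₂ : ℝ} (ht₁ : t₁ ∈ U₁) (ht₂ : t₂ ∈ U₂) :
    ∃ s : K, σ₁ s ∈ U₁ ∧ σ₂ s ∈ U₂ := by
  obtain ⟨x, hx⟩ : ∃ x, σ₁ x - σ₂ x ≠ 0 := by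
    by_contra h
    push Not at h
    exact hne (RingHom.ext fun x => by linarith [h x])
  have hd := Rat.denseRange_cast (𝕜 := ℝ) |>.prodMap (Rat.denseRange_cast (𝕜 := ℝ))
  have ho : IsOpen {w : ℝ × ℝ | w.1 + w.2 * σ₁ x ∈ U₁ ∧ w.1 + w.2 * σ₂ x ∈ U₂} :=
    (h₁.preimage (by fun_prop)).inter (h₂.preimage (by fun_prop))
  obtain ⟨⟨i, j⟩, hij⟩ := hd.exists_mem_open ho
    ⟨(t₁ - (t₁ - t₂) / (σ₁ x - σ₂ x) * σ₁ x, (t₁ - t₂) / (σ₁ x - σ₂ x)), by
      constructor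
      · simpa using ht₁
      · convert ht₂ using 1
        field_simp
        ring⟩
  refine ⟨i + j * x, ?_, ?_⟩
  · simpa using hij.1
  · simpa using hij.2

variable {E : Type} [Field E] [NumberField E] [Algebra K E]

theorem norm_sub (θ : E) (s : K) :
    Algebra.norm K (algebraMap K E s - θ) = (Algebra.lmul K E θ).charpoly.eval s := by
  rw [LinearMap.eval_charpoly, Algebra.norm_apply]
  congr 1
  ext y
  simp [Algebra.smul_def]

theorem charpoly_gen (pb : PowerBasis K E) :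
    (Algebra.lmul K E pb.gen).charpoly = minpoly K pb.gen := by
  rw [← charpoly_leftMulMatrix pb, Algebra.leftMulMatrix_apply, LinearMap.charpoly_toMatrix]

theorem ev_pos {g : K[X]} (hg : g.Monic) (σ : K →+* ℝ) :
    ∀ᶠ t : ℝ in atTop, 0 < (g.map σ).eval t := by
  have hm := hg.map σ
  rcases eq_or_ne (g.map σ).degree 0 with h0 | h0
  · have : g.map σ = 1 := hm.degree_le_zero_iff_eq_one.1 h0.le
    simp [this]
  · have hpos : 0 < (g.map σ).degree :=
      lt_of_le_of_ne (zero_le_degree_iff.2 hm.ne_zero) h0.symm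
    exact (tendsto_atTop_of_leadingCoeff_nonneg _ hpos (by simp [hm.leadingCoeff])).eventually_gt_atTop 0

theorem map_eval (σ : K →+* ℝ) (g : K[X]) (s : K) : σ (g.eval s) = (g.map σ).eval (σ s) := by
  rw [eval_map, eval₂_at_apply]

/-- shifting by a large multiple of a positive integer makes the norm totally positive -/
theorem exists_norm_pos (σ₁ σ₂ : K →+* ℝ) (θ : E) {N : ℕ} (hN : 0 < N) :
    ∃ t : ℕ, 0 < σ₁ (Algebra.norm K (θ + (N * t : ℕ))) ∧
      0 < σ₂ (Algebra.norm K (θ + (N * t : ℕ))) := by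
  have hg := (Algebra.lmul K E (-θ)).charpoly_monic
  have ht : Tendsto (fun t : ℕ => ((N * t : ℕ) : ℝ)) atTop atTop :=
    tendsto_natCast_atTop_atTop.comp (tendsto_id.const_mul_atTop' hN)
  obtain ⟨t, h1, h2⟩ := ((ht.eventually (ev_pos hg σ₁)).and (ht.eventually (ev_pos hg σ₂))).exists
  have e : θ + (N * t : ℕ) = algebraMap K E (N * t : ℕ) - (-θ) := by rw [map_natCast]; ring
  refine ⟨t, ?_, ?_⟩
  · rw [e, norm_sub, map_eval, map_natCast]; exact h1
  · rw [e, norm_sub, map_eval, map_natCast]; exact h2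

/-- an element congruent to one whose norm has signs minus, plus -/
theorem exists_norm_neg {σ₁ σ₂ : K →+* ℝ} (hne : σ₂ ≠ σ₁)
    (hr : ∀ θ : E, ∃ t : ℝ, ((minpoly K θ).map σ₁).eval t = 0) {N : ℕ} (hN : 0 < N) :
    ∃ w : 𝓞 E, σ₁ (Algebra.norm K (1 + N * (w : E))) < 0 ∧
      0 < σ₂ (Algebra.norm K (1 + N * (w : E))) := by
  let pb := Field.powerBasisOfFiniteOfSeparable K E
  set g := minpoly K pb.gen with hg
  have hgm : g.Monic := minpoly.monic (Algebra.IsIntegral.isIntegral _)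
  obtain ⟨t₀, ht₀⟩ := hr pb.gen
  obtain ⟨t₁, ht₁⟩ : ∃ t, (g.map σ₁).eval t < 0 := by
    by_contra h
    push Not at h
    have hmin : IsLocalMin (fun t => (g.map σ₁).eval t) t₀ :=
      Eventually.of_forall fun t => by simpa only [hg, ht₀] using h t
    have h1 := hmin.deriv_eq_zero
    rw [Polynomial.deriv] at h1
    have hs : (g.map σ₁).Separable := Polynomial.Separable.map (Algebra.IsSeparable.isSeparable K pb.gen)
    exact hs.aeval_derivative_ne_zero (x := t₀) (by simpa using ht₀) (by simpa using h1)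
  obtain ⟨t₂, ht₂⟩ := (ev_pos hgm σ₂).exists
  have o₁ : IsOpen {t : ℝ | (g.map σ₁).eval t < 0} :=
    isOpen_lt (Polynomial.continuous _) continuous_const
  have o₂ : IsOpen {t : ℝ | 0 < (g.map σ₂).eval t} :=
    isOpen_lt continuous_const (Polynomial.continuous _)
  obtain ⟨s, hs₁, hs₂⟩ := exists_mem_open hne o₁ o₂ ht₁ ht₂
  obtain ⟨v, w₀, hv, hw₀⟩ := IsAlgebraic.exists_nsmul_eq (𝓞 E)
    (x := algebraMap K E s - pb.gen) ((IsFractionRing.isAlgebraic_iff ℤ ℚ E).2 (Algebra.IsAlgebraic.isAlgebraic _))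
  have hM : 0 < N * v := Nat.mul_pos hN (Nat.pos_of_ne_zero hv)
  have ht : Tendsto (fun k : ℕ => (((N * v) * k : ℕ) : ℝ)⁻¹) atTop (𝓝 0) :=
    tendsto_inv_atTop_zero.comp
      (tendsto_natCast_atTop_atTop.comp (tendsto_id.const_mul_atTop' hM))
  have l₁ := (ht.const_add (σ₁ s)).eventually (o₁.mem_nhds (by simpa using hs₁))
  have l₂ := (ht.const_add (σ₂ s)).eventually (o₂.mem_nhds (by simpa using hs₂))
  obtain ⟨k, ⟨h1, h2⟩, hk⟩ := ((l₁.and l₂).and (eventually_gt_atTop 0)).exists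
  have hMk : 0 < N * v * k := Nat.mul_pos hM hk
  have hMK : ((N * v * k : ℕ) : K) ≠ 0 := Nat.cast_ne_zero.2 hMk.ne'
  have hME : ((N * v * k : ℕ) : E) ≠ 0 := Nat.cast_ne_zero.2 hMk.ne'
  have e : (1 : E) + N * ((k * w₀ : 𝓞 E) : E) = algebraMap K E (N * v * k : ℕ) *
      (algebraMap K E (s + ((N * v * k : ℕ) : K)⁻¹) - pb.gen) := by
    have : ((k * w₀ : 𝓞 E) : E) = k * (v * (algebraMap K E s - pb.gen)) := by
      rw [← nsmul_eq_mul v, hw₀]; simp
    rw [this, map_add, map_inv₀, map_natCast]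
    field_simp
    push_cast
    ring
  have hpos : (0 : ℝ) < ((N * v * k : ℕ) : ℝ) ^ Module.finrank K E := by positivity
  refine ⟨k * w₀, ?_, ?_⟩
  · rw [e, map_mul, Algebra.norm_algebraMap, norm_sub, charpoly_gen, map_mul, map_pow,
      map_natCast, map_eval, map_add, map_inv₀, map_natCast]
    exact mul_neg_of_pos_of_neg hpos h1
  · rw [e, map_mul, Algebra.norm_algebraMap, norm_sub, charpoly_gen, map_mul, map_pow,
      map_natCast, map_eval, map_add, map_inv₀, map_natCast]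
    exact mul_pos hpos h2

theorem coe_intNorm (β : 𝓞 E) :
    ((Algebra.intNorm (𝓞 K) (𝓞 E) β : 𝓞 K) : K) = Algebra.norm K (β : E) :=
  Algebra.algebraMap_intNorm (K := K) (L := E) β

end Signs

section Ideals

variable {R : Type} [CommRing R] [IsDedekindDomain R]

theorem pow_cancel {p A B : Ideal R} (hp : p.IsMaximal) (hp0 : p ≠ ⊥) {i j : ℕ}
    (hA : p ⊔ A = ⊤) (hB : p ⊔ B = ⊤) (h : p ^ i * A = p ^ j * B) : A = B := by
  wlog hij : i ≤ j generalizing i j A B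
  · exact (this hB hA h.symm (le_of_not_ge hij)).symm
  obtain ⟨d, rfl⟩ := Nat.exists_eq_add_of_le hij
  rw [pow_add, mul_assoc] at h
  have h' : A = p ^ d * B := mul_left_cancel₀ (pow_ne_zero _ hp0) h
  rcases d with _ | d
  · simpa using h'
  · exfalso
    apply hp.ne_top
    rw [← hA, h', pow_succ', mul_assoc, sup_eq_left.2 Ideal.mul_le_left]

variable {S : Type} [CommRing S] [IsDedekindDomain S] [Algebra R S]

theorem exists_pow_comap (hinj : Function.Injective (algebraMap R S)) {p : Ideal R}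
    (hp : p.IsMaximal) (hp0 : p ≠ ⊥) {P : Ideal S} (hP : P.IsMaximal) (hle : p = P.under R)
    (n : ℕ) : ∃ M : ℕ, 0 < M ∧ ∀ x : R, algebraMap R S x ∈ P ^ M → x ∈ p ^ n := by
  have hm0 : p.map (algebraMap R S) ≠ ⊥ := by rwa [Ne, Ideal.map_eq_bot_iff_of_injective hinj]
  have hP0 : P ≠ ⊥ := by
    rintro rfl
    apply hp0
    rw [hle, Ideal.under_def, Ideal.comap_bot_of_injective _ hinj]
  obtain ⟨T, hT, hpT⟩ := Ideal.eq_prime_pow_mul_coprime hm0 P
  generalize Multiset.count P _ = e at hpT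
  refine ⟨e * n + 1, by omega, fun x hx => ?_⟩
  rcases eq_or_ne x 0 with rfl | hx0
  · simp
  obtain ⟨c, hc, hxc⟩ := Ideal.eq_prime_pow_mul_coprime (I := span {x}) (by simpa using hx0) p
  generalize Multiset.count p _ = i at hxc
  by_cases hi : n ≤ i
  · have : x ∈ p ^ i * c := hxc ▸ mem_span_singleton_self x
    exact Ideal.pow_le_pow_right hi (Ideal.mul_le_left this)
  exfalso
  have h1 : P ^ (e * n + 1) ∣ P ^ (e * i) * (T ^ i * c.map (algebraMap R S)) := by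
    have : (span {x}).map (algebraMap R S) ≤ P ^ (e * n + 1) := by
      rw [Ideal.map_span, Set.image_singleton, span_le, Set.singleton_subset_iff]; exact hx
    rw [hxc, Ideal.map_mul, Ideal.map_pow, hpT, mul_pow, ← pow_mul, mul_assoc] at this
    exact Ideal.dvd_iff_le.2 this
  have h2 : IsCoprime P (T ^ i * c.map (algebraMap R S)) := by
    apply IsCoprime.mul_right
    · exact (Ideal.isCoprime_iff_sup_eq.2 hT).pow_right
    · rw [Ideal.isCoprime_iff_sup_eq, eq_top_iff, ← Ideal.map_top (algebraMap R S), ← hc,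
        Ideal.map_sup]
      refine sup_le_sup_right ?_ _
      rw [Ideal.map_le_iff_le_comap, hle]
  have h3 := (h2.pow_left (m := e * n + 1)).dvd_of_dvd_mul_right h1
  have h4 := (pow_dvd_pow_iff hP0 (Ideal.isUnit_iff.not.2 hP.ne_top)).1 h3
  have : e * i ≤ e * n := Nat.mul_le_mul_left e (le_of_not_ge hi)
  omega

end Ideals

section Ray

variable {K : Type} [Field K] [NumberField K] {m : Ideal (𝓞 K)} {B : Type} [CommGroup B]
  {κ : Ideal (𝓞 K) → B}

theorem cop_top : Cop m ⊤ := ⟨top_sup_eq _, top_ne_bot⟩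

theorem cop_mul {I J : Ideal (𝓞 K)} (hI : Cop m I) (hJ : Cop m J) : Cop m (I * J) :=
  ⟨Ideal.isCoprime_iff_sup_eq.1 ((Ideal.isCoprime_iff_sup_eq.2 hI.1).mul_left
    (Ideal.isCoprime_iff_sup_eq.2 hJ.1)), mul_ne_zero hI.2 hJ.2⟩

theorem cop_of_mul {I J : Ideal (𝓞 K)} (h : Cop m (I * J)) : Cop m I ∧ Cop m J :=
  ⟨⟨Ideal.isCoprime_iff_sup_eq.1 (Ideal.isCoprime_iff_sup_eq.2 h.1).of_mul_left_left,
    left_ne_zero_of_mul h.2⟩,
   ⟨Ideal.isCoprime_iff_sup_eq.1 (Ideal.isCoprime_iff_sup_eq.2 h.1).of_mul_left_right,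
    right_ne_zero_of_mul h.2⟩⟩

theorem cop_span {α : 𝓞 K} (h0 : α ≠ 0) (h : α - 1 ∈ m) : Cop m (span {α}) := by
  refine ⟨(Ideal.eq_top_iff_one _).2 ?_, by simpa using h0⟩
  have := Ideal.sub_mem _ (Ideal.mem_sup_left (mem_span_singleton_self α))
    (Ideal.mem_sup_right (S := span {α}) h)
  simpa using this

theorem cop_mono {m' I : Ideal (𝓞 K)} (hm : m' ≤ m) (h : Cop m' I) : Cop m I :=
  ⟨eq_top_iff.2 (h.1 ▸ sup_le_sup_left hm _), h.2⟩

theorem ray_top (h : RayHom m κ) : κ ⊤ = 1 := by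
  have := h.mul ⊤ ⊤ cop_top cop_top
  rw [Ideal.top_mul] at this
  exact (mul_eq_left.1 this.symm)

theorem ray_pow (h : RayHom m κ) {p : Ideal (𝓞 K)} (hp : Cop m p) (f : ℕ) :
    Cop m (p ^ f) ∧ κ (p ^ f) = κ p ^ f := by
  induction f with
  | zero => simpa using ⟨cop_top, ray_top h⟩
  | succ f ih => exact ⟨pow_succ p f ▸ cop_mul ih.1 hp, by rw [pow_succ, h.mul _ _ ih.1 hp, ih.2, pow_succ]⟩

/-- two elements of the same signs, both congruent to one, have the same class -/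
theorem ray_sign (h : RayHom m κ) {σ₁ σ₂ : K →+* ℝ} (hemb : ∀ τ : K →+* ℝ, τ = σ₁ ∨ τ = σ₂)
    {α ν : 𝓞 K} (hα : α - 1 ∈ m) (hν : ν - 1 ∈ m) (a₁ : σ₁ α < 0) (a₂ : 0 < σ₂ α)
    (n₁ : σ₁ ν < 0) (n₂ : 0 < σ₂ ν) : κ (span {α}) = κ (span {ν}) := by
  have key : ∀ x : 𝓞 K, x - 1 ∈ m → σ₁ x < 0 → 0 < σ₂ x → κ (span {x}) * κ (span {ν}) = 1 := by
    intro x hx x₁ x₂
    have hx0 : x ≠ 0 := by rintro rfl; simp at x₁
    have hν0 : ν ≠ 0 := by rintro rfl; simp at n₁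
    rw [← h.mul _ _ (cop_span hx0 hx) (cop_span hν0 hν), span_singleton_mul_span_singleton]
    refine h.triv _ (mul_ne_zero hx0 hν0) ?_ fun τ => ?_
    · have : x * ν - 1 = x * (ν - 1) + (x - 1) := by ring
      rw [this]
      exact m.add_mem (m.mul_mem_left _ hν) hx
    · have : τ ((x * ν : 𝓞 K) : K) = τ x * τ ν := by simp
      rw [this]
      rcases hemb τ with rfl | rfl
      · exact mul_pos_of_neg_of_neg x₁ n₁
      · exact mul_pos x₂ n₂
  exact mul_right_cancel ((key α hα a₁ a₂).trans (key ν hν n₁ n₂).symm)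

/-- congruent totally positive elements have cofactors in the same class -/
theorem ray_cofactor (h : RayHom m κ) (hm : m ≠ ⊥) {σ₁ σ₂ : K →+* ℝ}
    (hemb : ∀ τ : K →+* ℝ, τ = σ₁ ∨ τ = σ₂) {p b b' : Ideal (𝓞 K)} (hp : p.IsMaximal)
    (hp0 : p ≠ ⊥) {α ν : 𝓞 K} {i j : ℕ} (hα : span {α} = p ^ j * b) (hν : span {ν} = p ^ i * b')
    (hb : Cop (p * m) b) (hb' : Cop (p * m) b') (hc : ν - α ∈ p ^ j * (p * m))
    (a₁ : 0 < σ₁ α) (a₂ : 0 < σ₂ α) (n₁ : 0 < σ₁ ν) (n₂ : 0 < σ₂ ν) : κ b' = κ b := by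
  obtain ⟨y₀, hy₀, z₀, hz₀, hyz⟩ := Submodule.mem_sup.1 ((Ideal.eq_top_iff_one _).1 hb.1)
  have hN : 0 < absNorm (b * (p * m)) := Nat.pos_of_ne_zero (by
    rw [Ne, absNorm_eq_zero_iff]; exact mul_ne_zero hb.2 (mul_ne_zero hp0 hm))
  obtain ⟨t, y₁, y₂⟩ := exists_norm_pos σ₁ σ₂ (y₀ : K) hN
  rw [Algebra.norm_self, MonoidHom.id_apply] at y₁ y₂
  have hNt : ((absNorm (b * (p * m)) * t : ℕ) : 𝓞 K) ∈ b * (p * m) := by
    rw [Nat.cast_mul]; exact Ideal.mul_mem_right _ _ (absNorm_mem _)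
  obtain ⟨y, hy⟩ : ∃ y : 𝓞 K, y = y₀ + (absNorm (b * (p * m)) * t : ℕ) := ⟨_, rfl⟩
  have hyK : (y : K) = y₀ + (absNorm (b * (p * m)) * t : ℕ) := by rw [hy]; simp
  rw [← hyK] at y₁ y₂
  have hyb : y ∈ b := hy ▸ b.add_mem hy₀ (Ideal.mul_le_left hNt)
  have hy1 : y - 1 ∈ p * m := by
    have : y - 1 = (absNorm (b * (p * m)) * t : ℕ) - z₀ := by rw [hy, ← hyz]; ring
    rw [this]
    exact Ideal.sub_mem _ (Ideal.mul_le_right hNt) hz₀
  have hy0 : y ≠ 0 := by rintro rfl; simp at y₁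
  obtain ⟨c, hyc⟩ : b ∣ span {y} := Ideal.dvd_span_singleton.2 hyb
  have hcc : Cop (p * m) c := (cop_of_mul (hyc ▸ cop_span hy0 hy1)).2
  obtain ⟨z, hz, hzz⟩ : ∃ z ∈ p * m, α * z = y * (ν - α) := by
    apply Ideal.mem_span_singleton_mul.1
    rw [hα, mul_comm (p ^ j) b, mul_assoc]
    exact Ideal.mul_mem_mul hyb hc
  have e1 : y * ν = α * (y + z) := by rw [mul_add, hzz]; ring
  have hw1 : y + z - 1 ∈ p * m := by
    have : y + z - 1 = (y - 1) + z := by ring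
    rw [this]; exact Ideal.add_mem _ hy1 hz
  have hpos : ∀ τ : K →+* ℝ, 0 < τ α → 0 < τ ν → 0 < τ y → 0 < τ ((y + z : 𝓞 K) : K) := by
    intro τ h1 h2 h3
    have : τ y * τ ν = τ α * τ ((y + z : 𝓞 K) : K) := by
      have := congrArg (fun x : 𝓞 K => τ (x : K)) e1
      simpa only [map_mul] using this
    exact (pos_iff_pos_of_mul_pos (this ▸ mul_pos h3 h2)).1 h1
  have hw0 : y + z ≠ 0 := by
    intro h0
    have := hpos σ₁ a₁ n₁ y₁
    rw [h0] at this
    simp at this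
  have e2 : p ^ i * (c * b') = p ^ j * span {y + z} := by
    apply mul_left_cancel₀ hb.2
    calc b * (p ^ i * (c * b')) = (b * c) * (p ^ i * b') := by ring
      _ = span {α} * span {y + z} := by
          rw [← hyc, ← hν, span_singleton_mul_span_singleton, span_singleton_mul_span_singleton, e1]
      _ = _ := by rw [hα]; ring
  have hps : ∀ I, Cop (p * m) I → p ⊔ I = ⊤ := fun I hI =>
    sup_comm I p ▸ (cop_mono Ideal.mul_le_left hI).1
  have e3 : c * b' = span {y + z} :=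
    pow_cancel hp hp0 (hps _ (cop_mul hcc hb')) (hps _ (cop_span hw0 hw1)) e2
  have hmm : p * m ≤ m := Ideal.mul_le_right
  have k1 : κ b * κ c = 1 := by
    rw [← h.mul _ _ (cop_mono hmm hb) (cop_mono hmm hcc), ← hyc]
    refine h.triv _ hy0 (hmm hy1) fun τ => ?_
    rcases hemb τ with rfl | rfl <;> assumption
  have k2 : κ c * κ b' = 1 := by
    rw [← h.mul _ _ (cop_mono hmm hcc) (cop_mono hmm hb'), e3]
    refine h.triv _ hw0 (hmm hw1) fun τ => ?_
    rcases hemb τ with rfl | rfl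
    · exact hpos _ a₁ n₁ y₁
    · exact hpos _ a₂ n₂ y₂
  rw [mul_comm] at k2
  exact mul_right_cancel (k2.trans k1.symm)

end Ray

end G5

end Pool.Agent.Lib.Stark
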