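import Pool.Agent.Lib.stark.Defs2

open Complex NumberField Filter Topology Ideal
open scoped Real nonZeroDivisors ComplexConjugate

namespace Pool.Agent.Lib.Stark

namespace H2

set_option linter.unusedSectionVars false

section Basic

variable {K : Type} [Field K] [NumberField K]

theorem coe_mul (x y : 𝓞 K) : ((x * y : 𝓞 K) : K) = (x : K) * (y : K) :=
  map_mul (algebraMap (𝓞 K) K) x y

theorem mem_lat {a : FractionalIdeal (𝓞 K)⁰ K} {y : K} : y ∈ lat a ↔ y ∈ a := Iff.rfl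

theorem dv_ne {a : FractionalIdeal (𝓞 K)⁰ K} {b : Ideal (𝓞 K)} (ha : a ≠ 0) (hb : b ≠ ⊥) :
    dv a b ≠ 0 :=
  mul_ne_zero ha (inv_ne_zero (FractionalIdeal.coeIdeal_ne_zero.2 hb))

theorem le_dv (a : FractionalIdeal (𝓞 K)⁰ K) {b : Ideal (𝓞 K)} (hb : b ≠ ⊥) : a ≤ dv a b := by
  have h0 : (b : FractionalIdeal (𝓞 K)⁰ K) ≠ 0 := FractionalIdeal.coeIdeal_ne_zero.2 hb
  have h1 : a = dv a b * (b : FractionalIdeal (𝓞 K)⁰ K) := by
    unfold dv
    rw [mul_assoc, inv_mul_cancel₀ h0, mul_one]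
  calc a = dv a b * (b : FractionalIdeal (𝓞 K)⁰ K) := h1
    _ ≤ dv a b * 1 := by
        gcongr
        exact FractionalIdeal.coeIdeal_le_one
    _ = dv a b := mul_one _

theorem dv_dv (a : FractionalIdeal (𝓞 K)⁰ K) (I J : Ideal (𝓞 K)) :
    dv (dv a I) J = dv a (I * J) := by
  unfold dv
  rw [FractionalIdeal.coeIdeal_mul, mul_inv, mul_assoc]

theorem mem_dv_span (a : FractionalIdeal (𝓞 K)⁰ K) {α : 𝓞 K} (hα : α ≠ 0) (y : K) :
    (α : K) * y ∈ a ↔ y ∈ dv a (span {α}) := by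
  have hα' : (α : K) ≠ 0 := by exact_mod_cast hα
  unfold dv
  rw [FractionalIdeal.coeIdeal_span_singleton, FractionalIdeal.spanSingleton_inv, mul_comm a,
    FractionalIdeal.mem_singleton_mul]
  constructor
  · intro h
    refine ⟨_, h, ?_⟩
    change y = (α : K)⁻¹ * ((α : K) * y)
    field_simp
  · rintro ⟨z, hz, rfl⟩
    have : (α : K) * ((algebraMap (𝓞 K) K α)⁻¹ * z) = z := by
      change (α : K) * ((α : K)⁻¹ * z) = z
      field_simp
    rw [this]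
    exact hz

theorem int_mul_mem {a : FractionalIdeal (𝓞 K)⁰ K} (t : 𝓞 K) {y : K} (hy : y ∈ a) :
    (t : K) * y ∈ a := by
  have : t • y ∈ (a : Submodule (𝓞 K) K) := Submodule.smul_mem _ t hy
  rw [Algebra.smul_def] at this
  exact this

theorem tor_mono {ε : K} {a a' : FractionalIdeal (𝓞 K)⁰ K} (h : a ≤ a') {x : K}
    (hx : Tor ε (lat a) x) : Tor ε (lat a') x := h hx

theorem mul_mem_of_tor {ε : 𝓞 K} {a : FractionalIdeal (𝓞 K)⁰ K} {x : K}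
    (hx : Tor (ε : K) (lat a) x) {y : 𝓞 K} (hy : y ∈ span {ε - 1}) : (y : K) * x ∈ a := by
  obtain ⟨t, rfl⟩ := Ideal.mem_span_singleton'.1 hy
  have h := int_mul_mem t (show ((ε : K) - 1) * x ∈ a from hx)
  have : ((t * (ε - 1) : 𝓞 K) : K) * x = (t : K) * (((ε : K) - 1) * x) := by
    push_cast
    ring
  rw [this]
  exact h

theorem cop_mono {m m' I : Ideal (𝓞 K)} (h : m ≤ m') (hI : Cop m I) : Cop m' I :=
  ⟨top_le_iff.1 (hI.1 ▸ sup_le_sup_left h I), hI.2⟩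

theorem cop_mul {m I J : Ideal (𝓞 K)} (hI : Cop m I) (hJ : Cop m J) : Cop m (I * J) :=
  ⟨(Ideal.mul_sup_eq_of_coprime_left hI.1).trans hJ.1, mul_ne_zero hI.2 hJ.2⟩

theorem cop_span {m : Ideal (𝓞 K)} {α : 𝓞 K} (h0 : α ≠ 0) (h1 : α - 1 ∈ m) :
    Cop m (span {α}) := by
  refine ⟨(Ideal.eq_top_iff_one _).2 ?_, by simpa using h0⟩
  have : (1 : 𝓞 K) = α - (α - 1) := by ring
  rw [this]
  exact sub_mem (Ideal.mem_sup_left (Ideal.mem_span_singleton_self α)) (Ideal.mem_sup_right h1)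

/-- Projection between ray class groups. -/
theorem proj {m m' : Ideal (𝓞 K)} {B B' : Type} [CommGroup B] [CommGroup B']
    {κ : Ideal (𝓞 K) → B} {κ' : Ideal (𝓞 K) → B'} (h : Univ Set.univ m κ) (h' : RayHom m' κ')
    (hm : m ≤ m') : ∃ φ : B →* B', ∀ I, Cop m I → φ (κ I) = κ' I := by
  have key : ∀ I J, Cop m I → Cop m J → κ I = κ J → κ' I = κ' J := by
    intro I J hI hJ e
    obtain ⟨α, β, hα, hβ, hα1, hβ1, hs, he⟩ := (h.ker I J hI hJ).1 e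
    have e1 := h'.mul _ _ (cop_span hα (hm hα1)) (cop_mono hm hI)
    have e2 := h'.mul _ _ (cop_span hβ (hm hβ1)) (cop_mono hm hJ)
    rw [h'.triv α hα (hm hα1) fun τ => (hs τ trivial).1, one_mul] at e1
    rw [h'.triv β hβ (hm hβ1) fun τ => (hs τ trivial).2, one_mul] at e2
    rw [← e1, ← e2, he]
  choose s hs1 hs2 using h.surj
  refine ⟨MonoidHom.mk' (fun b => κ' (s b)) ?_, ?_⟩
  · intro b b'
    rw [← h'.mul _ _ (cop_mono hm (hs1 b)) (cop_mono hm (hs1 b'))]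
    apply key _ _ (hs1 _) (cop_mul (hs1 _) (hs1 _))
    rw [h.hom.mul _ _ (hs1 _) (hs1 _), hs2, hs2, hs2]
  · intro I hI
    exact key _ _ (hs1 _) hI (hs2 _)

theorem sup_of_big {m p : Ideal (𝓞 K)} (hm : m ≠ ⊥) (hp : Big (absNorm m) p) : p ⊔ m = ⊤ := by
  by_contra hne
  have h1 : p = p ⊔ m := hp.1.eq_of_le hne le_sup_left
  have h2 : m ≤ p := h1 ▸ le_sup_right
  have h3 := Ideal.absNorm_dvd_absNorm_of_le h2
  have h4 : absNorm m ≠ 0 := fun e => hm (Ideal.absNorm_eq_zero_iff.1 e)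
  have := Nat.le_of_dvd (Nat.pos_of_ne_zero h4) h3
  exact absurd hp.2.2 (by omega)

/-- Integral elements in a class with prescribed signs. -/
theorem signs {σ₁ σ₂ : K →+* ℝ} {c : K ≃+* K} (hb : StmtBasic K σ₁ σ₂ c) {m : Ideal (𝓞 K)}
    (hm : m ≠ ⊥) (u : 𝓞 K) (s₁ s₂ : ℝ) (h₁ : s₁ ≠ 0) (h₂ : s₂ ≠ 0) :
    ∃ y : 𝓞 K, y - u ∈ m ∧ 0 < s₁ * σ₁ y ∧ 0 < s₂ * σ₂ y := by
  have h0 : (m : FractionalIdeal (𝓞 K)⁰ K) ≠ 0 := FractionalIdeal.coeIdeal_ne_zero.2 hm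
  obtain ⟨y, hy, hy1, hy2⟩ := hb.signs (lat (m : FractionalIdeal (𝓞 K)⁰ K)) u s₁ s₂
    (hb.sl 1 _ h0).1 h₁ h₂
  obtain ⟨t, ht, hty⟩ := (FractionalIdeal.mem_coeIdeal _).1 (mem_lat.1 hy)
  have e : ((t + u : 𝓞 K) : K) = y := by
    change algebraMap (𝓞 K) K (t + u) = y
    rw [map_add, hty]
    exact sub_add_cancel _ _
  refine ⟨t + u, by simpa using ht, ?_, ?_⟩
  · rw [e]; exact hy1
  · rw [e]; exact hy2

theorem scale1 {σ₁ σ₂ : K →+* ℝ} {c : K ≃+* K} (hb : StmtBasic K σ₁ σ₂ c) {ε : 𝓞 K}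
    (hS : Sys σ₁ σ₂ (ε : K) (Psi σ₁ (ε : K))) {a : FractionalIdeal (𝓞 K)⁰ K} (ha : a ≠ 0) {x : K}
    (hx : Tor (ε : K) (lat a) x) {α : 𝓞 K} (h₁ : 0 < σ₁ α) (h₂ : 0 < σ₂ α) :
    FF σ₁ ε a (α * x) = FF σ₁ ε (dv a (span {α})) x := by
  have h0 : α ≠ 0 := by
    rintro rfl
    simp at h₁
  have hs : span {α} ≠ ⊥ := by simpa using h0
  exact hS.scale _ _ _ _ (hb.sl ε _ (dv_ne ha hs)) (tor_mono (le_dv a hs) hx) h₁ h₂
    fun y => mem_dv_span a h0 y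

theorem per1 {σ₁ σ₂ : K →+* ℝ} {ε : 𝓞 K}
    (hS : Sys σ₁ σ₂ (ε : K) (Psi σ₁ (ε : K))) {a : FractionalIdeal (𝓞 K)⁰ K} {x : K}
    {α β : 𝓞 K} (h : ((α - β : 𝓞 K) : K) * x ∈ a) : FF σ₁ ε a (α * x) = FF σ₁ ε a (β * x) := by
  have := hS.per (lat a) (β * x) _ h
  unfold FF
  rw [← this]
  congr 1
  push_cast
  ring

/-- The scale lemma. -/
theorem scale2 {σ₁ σ₂ : K →+* ℝ} {c : K ≃+* K} (hb : StmtBasic K σ₁ σ₂ c) {ε : 𝓞 K}
    (hS : Sys σ₁ σ₂ (ε : K) (Psi σ₁ (ε : K))) {a : FractionalIdeal (𝓞 K)⁰ K} (ha : a ≠ 0) {x : K}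
    (hx : Tor (ε : K) (lat a) x) {α : 𝓞 K} (h₁ : 0 < σ₁ α) (h₂ : 0 < σ₂ α)
    (hα : ((α - 1 : 𝓞 K) : K) * x ∈ a) {b : Ideal (𝓞 K)} (hb0 : b ≠ ⊥) :
    FF σ₁ ε (dv a (span {α} * b)) x = FF σ₁ ε (dv a b) x := by
  rw [mul_comm, ← dv_dv, ← scale1 hb hS (dv_ne ha hb0) (tor_mono (le_dv a hb0) hx) h₁ h₂,
    per1 hS (le_dv a hb0 hα)]
  simp

end Basic

section Main

variable {K : Type} [Field K] [NumberField K] [Algebra K ℝ]

theorem exists_conj (Ω : IntermediateField K ℂ) [IsGalois K Ω] :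
    ∃ τ : Ω ≃ₐ[K] Ω, ∀ z : Ω, (τ z : ℂ) = conj (z : ℂ) := by
  refine ⟨(Complex.conjAe.restrictScalars K).restrictNormal Ω, fun z => ?_⟩
  exact AlgEquiv.restrictNormal_commutes (Complex.conjAe.restrictScalars K) Ω z

end Main

end H2

open H2 in
theorem blockH2 (h : StmtH) (hG : StmtG) (hC : StmtConj) (hRay : StmtRay) (hS : StmtSys)
    (hR : StmtR1) : StmtH2 := by
  intro K _ _ _ σ₂ c hRQ ε n hL hNR Ω _ _ hHas
  have hb := hR.2.1 K _ _ c hRQ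
  have hs := hS K _ _ c hRQ ε n hL
  have : NumberField Ω := NumberField.of_module_finite K Ω
  have hc0 : span {ε - 1} ≠ (⊥ : Ideal (𝓞 K)) := by
    intro e
    have h1 := (hb.norm ε n hL).1
    have h2 := (hb.norm ε n hL).2.1
    rw [e] at h1
    simp at h1
    omega
  obtain ⟨B, _, _, κ, hκ⟩ := hRay K Set.univ _ hc0
  obtain ⟨a, hrec, hact, hconj⟩ := h K σ₂ c hRQ ε n hL hNR B κ hκ Ω hHas
  obtain ⟨τ₀, hτ₀⟩ := exists_conj Ω
  -- reciprocity for a smaller modulus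
  have hproj : ∀ (m : Ideal (𝓞 K)), ε - 1 ∈ m → ∀ (B' : Type) [CommGroup B'] [Finite B']
      (κ' : Ideal (𝓞 K) → B'), RayHom m κ' → ∃ φ : B →* B',
      (∀ I, Cop (span {ε - 1}) I → φ (κ I) = κ' I) ∧ Recip m κ' (φ.comp a) := by
    intro m hm B' _ _ κ' hκ'
    have hle : span {ε - 1} ≤ m := (Ideal.span_singleton_le_iff_mem _).2 hm
    have hm0 : m ≠ ⊥ := fun e => hc0 (le_bot_iff.1 (e ▸ hle))
    obtain ⟨φ, hφ⟩ := proj hκ hκ' hle
    refine ⟨φ, hφ, ?_⟩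
    have := hG K _ σ₂ c hRQ Ω m hm0 B' κ' κ' hκ' hκ' (φ.comp a) (absNorm (span {ε - 1})) (by
      intro p P σ hp hF
      left
      have h1 := sup_of_big hc0 hp
      have h2 : p ≠ ⊥ := Ring.ne_bot_of_isMaximal_of_not_isField hp.1 (RingOfIntegers.not_isField K)
      rw [MonoidHom.comp_apply, hrec p P σ hp.1 h1 hF, hφ p ⟨h1, h2⟩])
    exact this.elim id id
  -- elements of signs `(-, +)` act as the conjugation
  have hneg : ∀ α : 𝓞 K, α - 1 ∈ span {ε - 1} → algebraMap K ℝ α < 0 → 0 < σ₂ α →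
      ∀ (a : FractionalIdeal (𝓞 K)⁰ K) (x : K), a ≠ 0 → Tor (ε : K) (lat a) x →
      FF (algebraMap K ℝ) ε (dv a (span {α})) x = conj (FF (algebraMap K ℝ) ε a x) := by
    intro α h1 h2 h3 a x ha hx
    have h0 : α ≠ 0 := by
      rintro rfl
      simp at h3
    have := hact τ₀ _ (cop_span h0 h1) (hconj τ₀ hτ₀ α h1 h2 h3) a x ⟨_, hHas.1 a x ha hx⟩ ha hx rfl
    rw [← this, hτ₀]
  obtain ⟨α₁, hα₁, hα₁', hα₁''⟩ := signs hb hc0 1 (-1) 1 (by norm_num) (by norm_num)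
  have hα₁n : algebraMap K ℝ α₁ < 0 := by linarith
  have hα₁p : 0 < σ₂ α₁ := by linarith
  have hα₁0 : α₁ ≠ 0 := by
    rintro rfl
    simp at hα₁p
  refine ⟨?_, ?_, ?_, ?_, ?_⟩
  · intro σ
    obtain ⟨b, hb1, hb2⟩ := hκ.surj (a σ)
    exact ⟨b, hb1, hact σ b hb1 hb2.symm⟩
  · intro f r P τ hr hrf hF I x z hI hx hf hz
    have hm : ε - 1 ∈ f ⊔ span {ε - 1} := Ideal.mem_sup_right (Ideal.mem_span_singleton_self _)
    have hm0 : f ⊔ span {ε - 1} ≠ ⊥ := fun e => hc0 (le_bot_iff.1 (e ▸ le_sup_right))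
    obtain ⟨B', _, _, κ', hκ'⟩ := hRay K Set.univ _ hm0
    obtain ⟨φ, hφ, hrec'⟩ := hproj _ hm B' κ' hκ'.hom
    have hr0 : r ≠ ⊥ := Ring.ne_bot_of_isMaximal_of_not_isField hr (RingOfIntegers.not_isField K)
    have hr1 : r ⊔ (f ⊔ span {ε - 1}) = ⊤ := by rw [← sup_assoc, hrf, top_sup_eq]
    obtain ⟨b, hb1, hb2⟩ := hκ.surj (a τ)
    have e1 : κ' b = κ' r := by
      rw [← hφ b hb1, hb2]
      exact hrec' r P τ hr hr1 hF
    obtain ⟨α, β, hα, hβ, hα1, hβ1, hsg, he⟩ :=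
      (hκ'.ker b r (cop_mono le_sup_right hb1) ⟨hr1, hr0⟩).1 e1
    have hmem : ∀ y ∈ f ⊔ span {ε - 1}, (y : K) * x ∈ I := by
      intro y hy
      obtain ⟨y₁, hy₁, y₂, hy₂, rfl⟩ := Submodule.mem_sup.1 hy
      have := add_mem (show (y₁ : K) * x ∈ lat I from hf y₁ hy₁)
        (show (y₂ : K) * x ∈ lat I from mul_mem_of_tor hx hy₂)
      rw [← add_mul] at this
      push_cast
      exact this
    rw [hact τ b hb1 hb2.symm I x z hI hx hz,
      ← scale2 hb hs hI hx (hsg _ trivial).1 (hsg _ trivial).1 (hmem _ hα1) hb1.2, he,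
      scale2 hb hs hI hx (hsg _ trivial).2 (hsg _ trivial).2 (hmem _ hβ1) hr0]
  · intro u hu hu1 hu2 I x hI hx
    obtain ⟨u, rfl⟩ := hu
    obtain ⟨β, hβ, hβ1, hβ2⟩ := signs hb hc0 (u : 𝓞 K) 1 1 (by norm_num) (by norm_num)
    rw [one_mul] at hβ1 hβ2
    have huu : ((u : 𝓞 K) : K) * ((u⁻¹ : (𝓞 K)ˣ) : 𝓞 K) = 1 := by
      rw [← coe_mul, Units.mul_inv]
      simp
    have e1 : ((u⁻¹ : (𝓞 K)ˣ) : 𝓞 K) * β - 1 ∈ span {ε - 1} := by
      have : ((u⁻¹ : (𝓞 K)ˣ) : 𝓞 K) * β - 1 = ((u⁻¹ : (𝓞 K)ˣ) : 𝓞 K) * (β - u) := by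
        rw [mul_sub, Units.inv_mul]
      rw [this]
      exact Ideal.mul_mem_left _ _ hβ
    have e2 : algebraMap K ℝ ((((u⁻¹ : (𝓞 K)ˣ) : 𝓞 K) * β : 𝓞 K) : K) < 0 := by
      have h1 := congrArg (algebraMap K ℝ) huu
      rw [map_mul, map_one] at h1
      rw [coe_mul, map_mul]
      apply mul_neg_of_neg_of_pos _ hβ1
      by_contra hn
      push Not at hn
      nlinarith
    have e3 : 0 < σ₂ ((((u⁻¹ : (𝓞 K)ˣ) : 𝓞 K) * β : 𝓞 K) : K) := by
      have h1 := congrArg σ₂ huu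
      rw [map_mul, map_one] at h1
      rw [coe_mul, map_mul]
      apply mul_pos _ hβ2
      by_contra hn
      push Not at hn
      nlinarith
    rw [← hneg _ e1 e2 e3 I x hI hx, Ideal.span_singleton_mul_left_unit (Units.isUnit _),
      ← scale1 hb hs hI hx hβ1 hβ2]
    exact (per1 hs (mul_mem_of_tor hx hβ)).symm
  · intro p m₀ b k j α P hp hm hpm hα1 hα2 hα3 hαb hpb hP
    obtain ⟨δ, hδ1, hδ2⟩ := (hC K σ₂ c hRQ Ω _ hc0 B κ hκ.hom a hrec).2 p m₀ b k j α P hp hm hpm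
      hα1 hα2 hα3 hαb hpb hP
    have h0 : α ≠ 0 := by
      rintro rfl
      simp at hα3
    have hcop : Cop (span {ε - 1}) b := by
      constructor
      · have h1 : b ⊔ m₀ = ⊤ := by
          have h2 : span {α} ≤ b := hαb ▸ Ideal.mul_le_right
          exact top_le_iff.1 ((cop_span h0 hα1).1 ▸ sup_le_sup_right h2 m₀)
        have h2 : b ⊔ p ^ k = ⊤ := Ideal.sup_pow_eq_top (by rw [sup_comm]; exact hpb)
        rw [hm, Ideal.sup_mul_eq_of_coprime_left h2, h1]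
      · rintro rfl
        simp [h0] at hαb
    exact ⟨δ, hδ1, hact δ b hcop hδ2⟩
  · intro m hm B' _ _ κ' hκ'
    have hle : span {ε - 1} ≤ m := (Ideal.span_singleton_le_iff_mem _).2 hm
    obtain ⟨φ, hφ, hrec'⟩ := hproj _ hm B' κ' hκ'.hom
    refine ⟨φ.comp a, hrec', ?_, ?_⟩
    · intro τ hτ
      rw [MonoidHom.comp_apply, hconj τ hτ α₁ hα₁ hα₁n hα₁p, hφ _ (cop_span hα₁0 hα₁)]
      have h1 : κ' (span {α₁}) = κ' (span {1}) := by
        refine (hκ'.ker _ _ (cop_span hα₁0 (hle hα₁)) (cop_span one_ne_zero (by simp))).2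
          ⟨1, α₁, one_ne_zero, hα₁0, by simp, hle hα₁, ?_, mul_comm _ _⟩
        rintro τ rfl
        exact ⟨by simp, hα₁p⟩
      rw [h1]
      exact hκ'.hom.triv 1 one_ne_zero (by simp) (by simp)
    · intro σ b hb1 hσ I x z hI hf hz
      have hx : Tor (ε : K) (lat I) x := by
        have := hf _ hm
        push_cast at this
        exact this
      obtain ⟨b₀, hb₀, hb₀'⟩ := hκ.surj (a σ)
      have e1 : κ' b₀ = κ' b := by
        rw [← hφ b₀ hb₀, hb₀']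
        exact hσ
      obtain ⟨α, β, hα, hβ, hα1, hβ1, hsg, he⟩ := (hκ'.ker b₀ b (cop_mono hle hb₀) hb1).1 e1
      have key : ∀ (α : 𝓞 K) (b : Ideal (𝓞 K)), α ≠ 0 → α - 1 ∈ m → 0 < σ₂ α → b ≠ ⊥ →
          FF (algebraMap K ℝ) ε (dv I (span {α} * b)) x = FF (algebraMap K ℝ) ε (dv I b) x ∨
          conj (FF (algebraMap K ℝ) ε (dv I (span {α} * b)) x) =
            FF (algebraMap K ℝ) ε (dv I b) x := by
        intro α b h0 h1 h2 h3
        have h4 : algebraMap K ℝ α ≠ 0 := by simpa using h0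
        rcases lt_or_gt_of_ne h4 with h5 | h5
        · right
          have h6 : span {α} * b ≠ ⊥ := mul_ne_zero (by simpa using h0) h3
          have h7 : α₁ * α - 1 ∈ m := by
            have : α₁ * α - 1 = α * (α₁ - 1) + (α - 1) := by ring
            rw [this]
            exact add_mem (Ideal.mul_mem_left _ _ (hle hα₁)) h1
          rw [← hneg α₁ hα₁ hα₁n hα₁p _ x (dv_ne hI h6) (tor_mono (le_dv I h6) hx), dv_dv,
            mul_comm, ← mul_assoc, Ideal.span_singleton_mul_span_singleton]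
          refine scale2 hb hs hI hx ?_ ?_ (hf _ h7) h3
          · rw [coe_mul, map_mul]
            exact mul_pos_of_neg_of_neg hα₁n h5
          · rw [coe_mul, map_mul]
            exact mul_pos hα₁p h2
        · left
          exact scale2 hb hs hI hx h5 h2 (hf _ h1) h3
      rw [hact σ b₀ hb₀ hb₀'.symm I x z hI hx hz]
      have k1 := key α b₀ hα hα1 (hsg _ rfl).1 hb₀.2
      have k2 := key β b hβ hβ1 (hsg _ rfl).2 hb1.2
      rw [he] at k1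
      rcases k1 with k1 | k1 <;> rcases k2 with k2 | k2
      · left; rw [← k1, k2]
      · right; rw [← k1, ← k2, Complex.conj_conj]
      · right; rw [← k1, k2]
      · left; rw [← k1, k2]

end Pool.Agent.Lib.Stark
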