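import Pool.Agent.Lib.stark.Defs2
import Pool.Agent.Lib.MP_6bf7a3_nt.H5Quad

open Complex NumberField Ideal
open scoped nonZeroDivisors ComplexConjugate

namespace Pool.Agent.Lib.Stark.HB

variable {K : Type} [Field K] [NumberField K]

theorem mem_lat {a : FractionalIdeal (𝓞 K)⁰ K} {x : K} : x ∈ lat a ↔ x ∈ a := Iff.rfl

theorem int_mul_mem {a : FractionalIdeal (𝓞 K)⁰ K} {x : K} (z : 𝓞 K) (hx : x ∈ a) :
    (z : K) * x ∈ a := MP_6bf7a3_nt.alg_mul_mem z hx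

theorem dv_ne {a : FractionalIdeal (𝓞 K)⁰ K} {b : Ideal (𝓞 K)} (ha : a ≠ 0) (hb : b ≠ ⊥) :
    dv a b ≠ 0 := mul_ne_zero ha (inv_ne_zero (FractionalIdeal.coeIdeal_ne_zero.2 hb))

theorem dv_dv (a : FractionalIdeal (𝓞 K)⁰ K) (b b' : Ideal (𝓞 K)) :
    dv (dv a b) b' = dv a (b * b') := by
  simp only [dv, FractionalIdeal.coeIdeal_mul, mul_inv, mul_assoc]

theorem dv_top (a : FractionalIdeal (𝓞 K)⁰ K) : dv a ⊤ = a := by
  simp [dv]

theorem mem_dv {a : FractionalIdeal (𝓞 K)⁰ K} {b : Ideal (𝓞 K)} (hb : b ≠ ⊥) {x : K} :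
    x ∈ dv a b ↔ ∀ y ∈ b, (y : K) * x ∈ a := by
  have h0 : (b : FractionalIdeal (𝓞 K)⁰ K) ≠ 0 := FractionalIdeal.coeIdeal_ne_zero.2 hb
  rw [dv, ← div_eq_mul_inv, FractionalIdeal.mem_div_iff_of_ne_zero h0]
  constructor
  · intro h y hy
    rw [mul_comm]; exact h _ (FractionalIdeal.mem_coeIdeal_of_mem _ hy)
  · intro h y hy
    obtain ⟨z, hz, rfl⟩ := (FractionalIdeal.mem_coeIdeal _).1 hy
    rw [mul_comm]; exact h z hz

theorem le_dv {a : FractionalIdeal (𝓞 K)⁰ K} {b : Ideal (𝓞 K)} (hb : b ≠ ⊥) {x : K}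
    (hx : x ∈ a) : x ∈ dv a b := (mem_dv hb).2 fun y _ => int_mul_mem y hx

theorem tor_dv {ε : K} {a : FractionalIdeal (𝓞 K)⁰ K} {b : Ideal (𝓞 K)} (hb : b ≠ ⊥) {x : K}
    (hx : Tor ε (lat a) x) : Tor ε (lat (dv a b)) x := le_dv hb hx

theorem tor_mul {ε y : 𝓞 K} {a : FractionalIdeal (𝓞 K)⁰ K} {x : K} (hy : y ∈ span {ε - 1})
    (hx : Tor (ε : K) (lat a) x) : (y : K) * x ∈ a := by
  obtain ⟨w, rfl⟩ := mem_span_singleton'.1 hy
  have := int_mul_mem w hx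
  push_cast
  rwa [mul_assoc]

theorem cop_top (m : Ideal (𝓞 K)) : Cop m ⊤ := ⟨top_sup_eq _, top_ne_bot⟩

theorem cop_mul {m I J : Ideal (𝓞 K)} (hI : Cop m I) (hJ : Cop m J) : Cop m (I * J) :=
  ⟨by
    rw [← Ideal.isCoprime_iff_sup_eq]
    exact (Ideal.isCoprime_iff_sup_eq.2 hI.1).mul_left (Ideal.isCoprime_iff_sup_eq.2 hJ.1),
    mul_ne_zero hI.2 hJ.2⟩

theorem cop_span {m : Ideal (𝓞 K)} {α : 𝓞 K} (h0 : α ≠ 0) (h : α - 1 ∈ m) : Cop m (span {α}) :=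
  ⟨MP_6bf7a3_nt.cop_iff.2 ⟨1, by simpa using h⟩, by simpa using h0⟩

theorem rayHom_top {m : Ideal (𝓞 K)} {B : Type} [CommGroup B] {κ : Ideal (𝓞 K) → B}
    (h : RayHom m κ) : κ ⊤ = 1 := by
  have := h.triv 1 one_ne_zero (by simp) (by simp)
  rwa [span_singleton_one] at this

variable {σ₁ σ₂ : K →+* ℝ} {c : K ≃+* K}

/-- The scale lemma. -/
theorem scale {ε : 𝓞 K} (hb : StmtBasic K σ₁ σ₂ c) (hS : Sys σ₁ σ₂ (ε : K) (Psi σ₁ ε))
    {a : FractionalIdeal (𝓞 K)⁰ K} (ha : a ≠ 0) {x : K} (hx : Tor (ε : K) (lat a) x) {α : 𝓞 K}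
    (h1 : 0 < σ₁ α) (h2 : 0 < σ₂ α) (h : ((α : K) - 1) * x ∈ a) :
    FF σ₁ ε (dv a (span {α})) x = FF σ₁ ε a x := by
  have h0 : α ≠ 0 := by rintro rfl; simp at h1
  have hs : span {α} ≠ ⊥ := by simpa using h0
  have e := hS.scale (lat (dv a (span {α}))) (lat a) α x (hb.sl ε _ (dv_ne ha hs)) (tor_dv hs hx)
    h1 h2 (fun y => by
      rw [mem_lat, mem_lat, mem_dv hs]
      refine ⟨fun hy z hz => ?_, fun hy => hy α (mem_span_singleton_self α)⟩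
      obtain ⟨w, rfl⟩ := mem_span_singleton'.1 hz
      have := int_mul_mem w hy
      push_cast
      rwa [mul_assoc])
  rw [FF, FF, ← e, ← hS.per (lat a) x _ h]
  congr 1; ring

/-- Class invariance. -/
theorem cls {ε : 𝓞 K} (hb : StmtBasic K σ₁ σ₂ c) (hS : Sys σ₁ σ₂ (ε : K) (Psi σ₁ ε))
    {B : Type} [CommGroup B] {κ : Ideal (𝓞 K) → B} (hU : Univ Set.univ (span {ε - 1}) κ)
    {b b' : Ideal (𝓞 K)} (h1 : Cop (span {ε - 1}) b) (h2 : Cop (span {ε - 1}) b') (h : κ b = κ b')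
    {a : FractionalIdeal (𝓞 K)⁰ K} (ha : a ≠ 0) {x : K} (hx : Tor (ε : K) (lat a) x) :
    FF σ₁ ε (dv a b) x = FF σ₁ ε (dv a b') x := by
  obtain ⟨α, β, -, -, a1, b1, hp, e⟩ := (hU.ker b b' h1 h2).1 h
  have f : ∀ (d : Ideal (𝓞 K)) (γ : 𝓞 K), d ≠ ⊥ → γ - 1 ∈ span {ε - 1} → 0 < σ₁ γ → 0 < σ₂ γ →
      FF σ₁ ε (dv a (span {γ} * d)) x = FF σ₁ ε (dv a d) x := fun d γ hd g1 g2 g3 => by
    rw [mul_comm, ← dv_dv]
    refine scale hb hS (dv_ne ha hd) (tor_dv hd hx) g2 g3 (le_dv hd ?_)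
    simpa using tor_mul g1 hx
  rw [← f b α h1.2 a1 (hp σ₁ trivial).1 (hp σ₂ trivial).1, e,
    f b' β h2.2 b1 (hp σ₁ trivial).2 (hp σ₂ trivial).2]

/-- The conjugate of an integer. -/
noncomputable abbrev cO (c : K ≃+* K) : 𝓞 K →+* 𝓞 K := RingOfIntegers.mapRingEquiv c

theorem cO_coe (α : 𝓞 K) : ((cO c α : 𝓞 K) : K) = c α := rfl

theorem cI_span (α : 𝓞 K) : cI c (span {α}) = span {cO c α} := by
  rw [cI, Ideal.map_span, Set.image_singleton]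

theorem absNorm_span (hR : RQ σ₁ σ₂ c) (α : 𝓞 K) :
    (absNorm (span {α}) : ℝ) = |σ₁ α * σ₂ α| := by
  rw [absNorm_span_singleton, ← MP_6bf7a3_nt.norm_eq_mul hR.rank hR.ne, ← Rat.cast_abs,
    ← Algebra.coe_norm_int, Nat.cast_natAbs]
  simp

theorem norm_pos (hR : RQ σ₁ σ₂ c) {α : 𝓞 K} (h : 0 < σ₁ α * σ₂ α) :
    (absNorm (span {α}) : 𝓞 K) = α * cO c α := by
  apply RingOfIntegers.coe_injective
  apply σ₁.injective
  have := absNorm_span hR α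
  rw [abs_of_pos h] at this
  simp only [map_natCast, map_mul]
  rw [this]
  exact congrArg _ (hR.cnj₁ _).symm

theorem norm_neg (hR : RQ σ₁ σ₂ c) {α : 𝓞 K} (h : σ₁ α * σ₂ α < 0) :
    (absNorm (span {α}) : 𝓞 K) = -(α * cO c α) := by
  apply RingOfIntegers.coe_injective
  apply σ₁.injective
  have := absNorm_span hR α
  rw [abs_of_neg h] at this
  simp only [map_natCast, map_mul, map_neg]
  rw [this]
  exact congrArg (fun t => -(_ * t)) (hR.cnj₁ _).symm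

theorem cO_one {m : Ideal (𝓞 K)} (hm : cI c m = m) {α : 𝓞 K} (h : α - 1 ∈ m) :
    cO c α - 1 ∈ m := by
  have := Ideal.mem_map_of_mem (cO c) h
  rw [map_sub, map_one] at this
  exact hm ▸ this

theorem cop_cI (hb : StmtBasic K σ₁ σ₂ c) {m I : Ideal (𝓞 K)} (hm : cI c m = m) (h : Cop m I) :
    Cop m (cI c I) := by
  refine ⟨?_, fun h0 => h.2 ?_⟩
  · rw [← hm, cI, cI, ← Ideal.map_sup, h.1, Ideal.map_top]
  · rw [← (hb.cI_cI I).1, h0, cI, Ideal.map_bot]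

theorem rayHom_cI (hR : RQ σ₁ σ₂ c) (hb : StmtBasic K σ₁ σ₂ c) {m : Ideal (𝓞 K)}
    (hm : cI c m = m) {B : Type} [CommGroup B] {κ : Ideal (𝓞 K) → B} (h : RayHom m κ) :
    RayHom m fun I => κ (cI c I) := by
  refine ⟨fun I J hI hJ => ?_, fun α h0 h1 h2 => ?_⟩
  · rw [← h.mul _ _ (cop_cI hb hm hI) (cop_cI hb hm hJ), cI, cI, cI, Ideal.map_mul]
  · rw [cI_span]
    refine h.triv _ ((map_ne_zero_iff _ (RingOfIntegers.mapRingEquiv c).injective).2 h0)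
      (cO_one hm h1) fun τ => ?_
    rw [cO_coe]
    rcases hb.emb τ with rfl | rfl
    · rw [hR.cnj₁]; exact h2 _
    · rw [hR.cnj₂]; exact h2 _

/-- Signs are determined by the class. -/
theorem sign_eq {ε : 𝓞 K} {n : ℕ} (hL : Lev σ₁ σ₂ (ε : K) n) (hN : NR ε)
    {B : Type} [CommGroup B] {κ : Ideal (𝓞 K) → B} (hU : Univ Set.univ (span {ε - 1}) κ)
    {α β : 𝓞 K} (a0 : α ≠ 0) (b0 : β ≠ 0) (a1 : α - 1 ∈ span {ε - 1}) (b1 : β - 1 ∈ span {ε - 1})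
    (h : κ (span {α}) = κ (span {β})) : 0 < σ₁ α * σ₁ β ∧ 0 < σ₂ α * σ₂ β := by
  obtain ⟨γ, δ, -, -, c1, d1, hp, e⟩ := (hU.ker _ _ (cop_span a0 a1) (cop_span b0 b1)).1 h
  rw [span_singleton_mul_span_singleton, span_singleton_mul_span_singleton,
    span_singleton_eq_span_singleton] at e
  obtain ⟨u, hu⟩ := e
  have h1 := MP_6bf7a3_nt.one_mul_mem c1 a1
  have h2 := MP_6bf7a3_nt.one_mul_mem d1 b1
  obtain ⟨k, hk⟩ := hN u (by
    have : (u : 𝓞 K) - 1 = (δ * β - 1) - u * (γ * α - 1) := by rw [← hu]; ring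
    rw [this]; exact sub_mem h2 (mul_mem_left _ _ h1))
  have e1 : (γ : K) * α * (ε : K) ^ k = δ * β := by
    rw [← hk]; exact_mod_cast congrArg (algebraMap (𝓞 K) K) hu
  have p1 : 0 < σ₁ ε := lt_trans one_pos hL.one_lt
  have p2 : 0 < σ₂ ε := (mul_pos_iff_of_pos_left p1).1 (hL.norm ▸ one_pos)
  have key : ∀ τ : K →+* ℝ, 0 < τ ε → 0 < τ α * τ β := fun τ hτ => by
    have e2 := congrArg τ e1
    simp only [map_mul, map_zpow₀] at e2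
    obtain ⟨g1, g2⟩ := hp τ trivial
    have g3 : τ α ≠ 0 := (map_ne_zero τ).2 (by exact_mod_cast a0)
    have g4 : 0 < τ ε ^ k := zpow_pos hτ k
    have : τ α * τ β = τ γ * (τ α * τ α) * τ ε ^ k / τ δ := by
      field_simp; linear_combination -e2
    rw [this]
    have := mul_self_pos.2 g3
    positivity
  exact ⟨key _ p1, key _ p2⟩

end Pool.Agent.Lib.Stark.HB
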