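import Pool.Agent.Lib.stark.Defs1

open Complex MeasureTheory Filter Topology
open scoped Real ComplexConjugate

namespace Pool.Agent.Lib.Stark
namespace M1

theorem ne_zero_strip {t : ℂ} (h1 : -(2 * π) < t.im) (h2 : t.im < 0) : 1 - cexp (-t) ≠ 0 := by
  intro h
  obtain ⟨n, hn⟩ := Complex.exp_eq_one_iff.1 (sub_eq_zero.1 h).symm
  have := congrArg Complex.im hn
  simp at this
  have hp := Real.pi_pos
  have a1 : (0 : ℝ) < n := by nlinarith
  have a2 : (n : ℝ) < 1 := by nlinarith
  have b1 : 0 < n := by exact_mod_cast a1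
  have b2 : n < 1 := by exact_mod_cast a2
  omega

theorem inv_bound_far {t : ℂ} (h : 1 ≤ |t.re|) : 1 - cexp (-t) ≠ 0 ∧
    ‖(1 - cexp (-t))⁻¹‖ ≤ 2 ∧ ‖(1 - cexp (-t))⁻¹‖ ≤ 2 * Real.exp t.re := by
  have hn : ‖cexp (-t)‖ = Real.exp (-t.re) := by rw [Complex.norm_exp]; simp
  have hm : Real.exp (-t.re) * Real.exp t.re = 1 := by rw [← Real.exp_add]; simp
  have p1 := Real.exp_pos t.re
  have p2 := Real.exp_pos (-t.re)
  have key : 1 / 2 ≤ ‖1 - cexp (-t)‖ ∧ Real.exp (-t.re) / 2 ≤ ‖1 - cexp (-t)‖ := by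
    rcases le_abs.1 h with h | h
    · have e1 : 2 ≤ Real.exp t.re := by linarith [Real.add_one_le_exp t.re]
      have := norm_sub_norm_le (1 : ℂ) (cexp (-t))
      rw [norm_one, hn] at this
      constructor <;> nlinarith
    · have e1 : 2 ≤ Real.exp (-t.re) := by linarith [Real.add_one_le_exp (-t.re)]
      have := norm_sub_norm_le (cexp (-t)) (1 : ℂ)
      rw [norm_one, hn, norm_sub_rev] at this
      constructor <;> nlinarith
  have hp : 0 < ‖1 - cexp (-t)‖ := by linarith [key.1]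
  refine ⟨norm_pos_iff.1 hp, ?_, ?_⟩
  · rw [norm_inv, inv_le_comm₀ hp two_pos]; linarith [key.1]
  · rw [norm_inv, inv_le_iff_one_le_mul₀ hp]; nlinarith [key.2]

theorem inv_bound {a b : ℝ} (ha : 0 < a) (hb : b < 2 * π) : ∃ K : ℝ, 0 < K ∧ ∀ t : ℂ,
    -b ≤ t.im → t.im ≤ -a →
      ‖(1 - cexp (-t))⁻¹‖ ≤ K ∧ ‖(1 - cexp (-t))⁻¹‖ ≤ K * Real.exp t.re := by
  have hc : IsCompact (Set.Icc (-1 : ℝ) 1 ×ℂ Set.Icc (-b) (-a)) :=
    isCompact_Icc.reProdIm isCompact_Icc
  obtain ⟨C, hC⟩ := hc.exists_bound_of_continuousOn (f := fun t => (1 - cexp (-t))⁻¹)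
    (ContinuousOn.inv₀ (by fun_prop) fun t ht =>
      ne_zero_strip (by linarith [ht.2.1]) (by linarith [ht.2.2]))
  have e1 : 1 ≤ Real.exp 1 := Real.one_le_exp zero_le_one
  refine ⟨(|C| + 2) * Real.exp 1, by positivity, fun t h1 h2 => ?_⟩
  have p1 := Real.exp_pos t.re
  have hC0 := abs_nonneg C
  by_cases h : 1 ≤ |t.re|
  · obtain ⟨-, k1, k2⟩ := inv_bound_far h
    have : 2 ≤ (|C| + 2) * Real.exp 1 := by nlinarith
    exact ⟨k1.trans this, k2.trans (mul_le_mul_of_nonneg_right this p1.le)⟩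
  · have h' := abs_lt.1 (not_le.1 h)
    have k := (hC t ⟨⟨h'.1.le, h'.2.le⟩, h1, h2⟩).trans (le_abs_self C)
    have e2 : 1 ≤ Real.exp 1 * Real.exp t.re := by
      rw [← Real.exp_add]; exact Real.one_le_exp (by linarith)
    refine ⟨k.trans (by nlinarith), k.trans ?_⟩
    rw [mul_assoc]; nlinarith

theorem decay {z s u : ℂ} {K Q δ : ℝ} (h1 : ‖u‖ ≤ K) (h2 : ‖u‖ ≤ K * Real.exp (Q * s.re))
    (hδ : δ ≤ z.re) (hδ' : z.re + δ ≤ Q) :
    ‖cexp (-z * s) * u‖ ≤ K * Real.exp (z.im * s.im) * Real.exp (-δ * |s.re|) := by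
  have hK : 0 ≤ K := (norm_nonneg u).trans h1
  rw [norm_mul, Complex.norm_exp, mul_assoc, ← Real.exp_add]
  have e : (-z * s).re = z.im * s.im - z.re * s.re := by simp
  rw [e, mul_comm]
  rcases le_total 0 s.re with h | h
  · rw [abs_of_nonneg h]
    exact mul_le_mul h1 (Real.exp_le_exp.2 (by nlinarith)) (Real.exp_pos _).le hK
  · rw [abs_of_nonpos h]
    refine (mul_le_mul_of_nonneg_right h2 (Real.exp_pos _).le).trans ?_
    rw [mul_assoc, ← Real.exp_add]
    exact mul_le_mul_of_nonneg_left (Real.exp_le_exp.2 (by nlinarith)) hK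

theorem integrable_exp {δ : ℝ} (hδ : 0 < δ) : Integrable fun x : ℝ => Real.exp (-δ * |x|) := by
  rw [← integrableOn_univ, ← Set.Iic_union_Ioi (a := (0 : ℝ)), integrableOn_union]
  constructor
  · refine (integrableOn_exp_mul_Iic hδ 0).congr_fun (fun x hx => ?_) measurableSet_Iic
    simp [abs_of_nonpos (show x ≤ 0 from hx)]
  · refine (exp_neg_integrableOn_Ioi 0 hδ).congr_fun (fun x hx => ?_) measurableSet_Ioi
    simp [abs_of_pos (show 0 < x from hx)]

theorem le_norm_line {η : ℝ} (hη : 0 < η) (x : ℝ) : η ≤ ‖(x : ℂ) - η * I‖ := by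
  have := Complex.abs_im_le_norm ((x : ℂ) - η * I)
  simpa [abs_of_pos hη] using this

theorem line_ne {η : ℝ} (hη : 0 < η) (x : ℝ) : (x : ℂ) - η * I ≠ 0 :=
  norm_pos_iff.1 (hη.trans_le (le_norm_line hη x))

theorem norm_div_line {η : ℝ} (hη : 0 < η) (x : ℝ) {u : ℂ} {B : ℝ} (h : ‖u‖ ≤ B) :
    ‖u / ((x : ℂ) - η * I)‖ ≤ η⁻¹ * B := by
  rw [norm_div, ← div_eq_inv_mul]
  exact div_le_div₀ ((norm_nonneg u).trans h) h hη (le_norm_line hη x)

theorem integrable_line {η C δ : ℝ} (hη : 0 < η) (hδ : 0 < δ) {g : ℂ → ℂ}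
    (hc : Continuous fun x : ℝ => g (x - η * I))
    (hb : ∀ x : ℝ, ‖g (x - η * I)‖ ≤ C * Real.exp (-δ * |x|)) :
    Integrable fun x : ℝ => g (x - η * I) / (x - η * I) :=
  Integrable.mono' (((integrable_exp hδ).const_mul C).const_mul η⁻¹)
    (hc.div (by fun_prop) (line_ne hη)).aestronglyMeasurable
    (Eventually.of_forall fun x => norm_div_line hη x (hb x))

theorem norm_lineInt {η C δ : ℝ} (hη : 0 < η) (hδ : 0 < δ) {g : ℂ → ℂ}
    (hb : ∀ x : ℝ, ‖g (x - η * I)‖ ≤ C * Real.exp (-δ * |x|)) :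
    ‖lineInt g η‖ ≤ (η⁻¹ * ∫ x : ℝ, Real.exp (-δ * |x|)) * C := by
  refine (norm_integral_le_of_norm_le (((integrable_exp hδ).const_mul C).const_mul η⁻¹)
    (Eventually.of_forall fun x => norm_div_line hη x (hb x))).trans (le_of_eq ?_)
  rw [integral_const_mul, integral_const_mul]; ring

/-- The one dimensional kernel. -/
noncomputable def k1 (z s : ℂ) : ℂ := cexp (-z * s) * (1 - cexp (-s))⁻¹

section Basic
variable {η : ℝ}

theorem k1_bound (h0 : 0 < η) (h1 : η < 2 * π) : ∃ K : ℝ, 0 < K ∧ ∀ (z : ℂ) (δ x : ℝ), δ ≤ z.re →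
    z.re + δ ≤ 1 → ‖k1 z (x - η * I)‖ ≤ K * Real.exp (-η * z.im) * Real.exp (-δ * |x|) := by
  obtain ⟨K, hK, h⟩ := inv_bound h0 h1
  refine ⟨K, hK, fun z δ x a b => ?_⟩
  obtain ⟨k, k'⟩ := h (x - η * I) (by simp) (by simp)
  have := decay (z := z) (s := x - η * I) (Q := 1) k (by rwa [one_mul]) a b
  simpa [k1, mul_comm η] using this

theorem k1_cont (h0 : 0 < η) (h1 : η < 2 * π) (z : ℂ) :
    Continuous fun x : ℝ => k1 z (x - η * I) := by
  unfold k1
  exact Continuous.mul (by fun_prop) (Continuous.inv₀ (by fun_prop) fun x =>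
    ne_zero_strip (by simpa using h1) (by simpa using h0))

theorem k1_int (h0 : 0 < η) (h1 : η < 2 * π) {z : ℂ} (a : 0 < z.re) (b : z.re < 1) :
    Integrable fun x : ℝ => k1 z (x - η * I) := by
  obtain ⟨K, -, h⟩ := k1_bound h0 h1
  exact Integrable.mono' ((integrable_exp (lt_min a (sub_pos.2 b))).const_mul _)
    (k1_cont h0 h1 z).aestronglyMeasurable (Eventually.of_forall fun x =>
      h z _ x (min_le_left _ _) (by linarith [min_le_right z.re (1 - z.re)]))

theorem k1_shift (z s : ℂ) : k1 z (s - 2 * π * I) = ee z * k1 z s := by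
  unfold k1 ee
  rw [neg_sub, show 2 * π * I - s = -s + 2 * π * I by ring, Complex.exp_add, exp_two_pi_mul_I,
    mul_one, ← mul_assoc, ← Complex.exp_add]
  congr 2; ring

theorem k1_res (z : ℂ) : Tendsto (fun s => (s - (-(2 * π * I))) * k1 z s) (𝓝[≠] (-(2 * π * I)))
    (𝓝 (ee z)) := by
  have hd : HasDerivAt (fun s => 1 - cexp (-s)) 1 (-(2 * π * I)) := by
    have := ((hasDerivAt_neg (-(2 * π * I) : ℂ)).cexp).const_sub 1
    simpa [exp_two_pi_mul_I] using this
  have h1 := (hasDerivAt_iff_tendsto_slope.1 hd).inv₀ one_ne_zero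
  have h2 : Tendsto (fun s => cexp (-z * s)) (𝓝[≠] (-(2 * π * I))) (𝓝 (ee z)) := by
    have : ee z = cexp (-z * (-(2 * π * I))) := by unfold ee; congr 1; ring
    rw [this]
    exact (Continuous.tendsto (by fun_prop) _).mono_left nhdsWithin_le_nhds
  have := h2.mul h1
  rw [inv_one, mul_one] at this
  refine this.congr fun s => ?_
  rw [slope_def_field, neg_neg, exp_two_pi_mul_I, k1]
  simp only [sub_self, sub_zero, inv_div]
  ring

theorem k1_W (hR : StmtRect) (h0 : 0 < η) (h1 : η < 2 * π) {z : ℂ} (a : 0 < z.re) (b : z.re < 1) :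
    (1 - ee z) * ∫ x : ℝ, k1 z (x - η * I) = -(2 * π * I) * ee z := by
  have hp := Real.pi_pos
  set δ := min z.re (1 - z.re) with hδ
  have hδ0 : 0 < δ := lt_min a (sub_pos.2 b)
  have side : ∀ (R : ℝ), 1 ≤ |R| → ‖∫ y in (-η - 2 * π)..(-η), k1 z (R + y * I)‖ ≤
      2 * Real.exp (|z.im| * (4 * π)) * Real.exp (-δ * |R|) * |-η - (-η - 2 * π)| := by
    intro R hR'
    refine intervalIntegral.norm_integral_le_of_norm_le_const fun y hy => ?_
    rw [Set.uIoc_of_le (by linarith)] at hy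
    obtain ⟨-, k, k'⟩ := inv_bound_far (t := R + y * I) (by simpa using hR')
    have := decay (z := z) (s := R + y * I) (Q := 1) (δ := δ) k (by rwa [one_mul])
      (min_le_left _ _) (by linarith [min_le_right z.re (1 - z.re)])
    simp only [add_im, ofReal_im, mul_im, ofReal_re, I_im, mul_one, I_re, mul_zero, add_zero,
      zero_add, add_re, mul_re, sub_zero] at this
    refine this.trans (mul_le_mul_of_nonneg_right (mul_le_mul_of_nonneg_left
      (Real.exp_le_exp.2 ?_) two_pos.le) (Real.exp_pos _).le)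
    refine (le_abs_self _).trans ?_
    rw [abs_mul]
    exact mul_le_mul_of_nonneg_left (abs_le.2 ⟨by linarith [hy.1], by linarith [hy.2]⟩)
      (abs_nonneg _)
  have lim0 : Tendsto (fun R : ℝ => 2 * Real.exp (|z.im| * (4 * π)) * Real.exp (-δ * |R|) *
      |-η - (-η - 2 * π)|) atTop (𝓝 0) := by
    have : Tendsto (fun R : ℝ => Real.exp (-δ * |R|)) atTop (𝓝 0) :=
      Real.tendsto_exp_atBot.comp (tendsto_abs_atTop_atTop.const_mul_atTop_of_neg (by linarith))
    simpa using (this.const_mul (2 * Real.exp (|z.im| * (4 * π)))).mul_const |-η - (-η - 2 * π)|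
  have s1 : Tendsto (fun R : ℝ => ∫ y in (-η - 2 * π)..(-η), k1 z (R + y * I)) atTop (𝓝 0) :=
    squeeze_zero_norm' ((eventually_ge_atTop 1).mono fun R h => side R (h.trans (le_abs_self R)))
      lim0
  have s2 : Tendsto (fun R : ℝ => ∫ y in (-η - 2 * π)..(-η), k1 z ((-R : ℝ) + y * I)) atTop
      (𝓝 0) :=
    squeeze_zero_norm' ((eventually_ge_atTop 1).mono fun R h => by
      have := side (-R) (by rw [abs_neg]; exact h.trans (le_abs_self R))
      rwa [abs_neg R] at this) lim0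
  have s3 := intervalIntegral_tendsto_integral (k1_int h0 h1 a b) tendsto_neg_atTop_atBot
    tendsto_id
  have tot := (((s3.const_mul (ee z)).sub s3).add (s1.const_mul I)).sub (s2.const_mul I)
  have ev : ∀ᶠ R : ℝ in atTop, ee z * (∫ x in (-R)..R, k1 z (x - η * I)) -
      (∫ x in (-R)..R, k1 z (x - η * I)) +
      I * (∫ y in (-η - 2 * π)..(-η), k1 z (R + y * I)) -
      I * (∫ y in (-η - 2 * π)..(-η), k1 z ((-R : ℝ) + y * I)) = 2 * π * I * ee z := by
    refine (eventually_ge_atTop 1).mono fun R hR' => ?_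
    have := hR (k1 z) {-(2 * π * I)} (fun _ => ee z) (-R) R (-η - 2 * π) (-η) (by linarith)
      (by linarith) (fun p hp => by
        rw [Finset.mem_singleton.1 hp]
        simp
        refine ⟨by linarith, by linarith, by linarith⟩)
      (fun s _ _ c1 c2 hs => by
        unfold k1
        refine DifferentiableAt.mul (by fun_prop) (DifferentiableAt.inv (by fun_prop) fun h => ?_)
        obtain ⟨n, hn⟩ := Complex.exp_eq_one_iff.1 (sub_eq_zero.1 h).symm
        have := congrArg Complex.im hn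
        simp at this
        have a1 : (0 : ℝ) < n := by nlinarith
        have a2 : (n : ℝ) < 2 := by nlinarith
        have b1 : 0 < n := by exact_mod_cast a1
        have b2 : n < 2 := by exact_mod_cast a2
        obtain rfl : n = 1 := by omega
        exact hs (Finset.mem_singleton.2 (by rw [← neg_neg s, hn]; simp)))
      (fun p hp => by rw [Finset.mem_singleton.1 hp]; exact k1_res z)
    rw [Finset.sum_singleton] at this
    rw [← this, ← intervalIntegral.integral_const_mul]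
    congr 3
    · refine intervalIntegral.integral_congr fun x _ => ?_
      simp only [← k1_shift]
      congr 1; push_cast; ring
    · refine intervalIntegral.integral_congr fun x _ => ?_
      congr 1; push_cast; ring
  have := tendsto_nhds_unique (tot.congr' ev) tendsto_const_nhds
  linear_combination -this

theorem k1_deriv (h0 : 0 < η) (h1 : η < 2 * π) {z : ℂ} (a : 0 < z.re) (b : z.re < 1) :
    HasDerivAt (fun z => lineInt (k1 z) η) (-∫ x : ℝ, k1 z (x - η * I)) z := by
  obtain ⟨K, hK, h⟩ := k1_bound h0 h1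
  set δ := min z.re (1 - z.re) / 2 with hδ
  have m1 := min_le_left z.re (1 - z.re)
  have m2 := min_le_right z.re (1 - z.re)
  have hδ0 : 0 < δ := half_pos (lt_min a (sub_pos.2 b))
  have := hasDerivAt_integral_of_dominated_loc_of_deriv_le (μ := volume)
    (F := fun (z : ℂ) (x : ℝ) => k1 z (x - η * I) / (x - η * I))
    (F' := fun (z : ℂ) (x : ℝ) => -k1 z (x - η * I))
    (bound := fun x => K * Real.exp (η * (|z.im| + δ)) * Real.exp (-δ * |x|))
    (Metric.ball_mem_nhds z hδ0)
    (Eventually.of_forall fun w =>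
      ((k1_cont h0 h1 w).div (by fun_prop) (line_ne h0)).aestronglyMeasurable)
    (integrable_line h0 hδ0 (k1_cont h0 h1 z) fun x => h z δ x (by linarith) (by linarith))
    (k1_cont h0 h1 z).neg.aestronglyMeasurable
    (Eventually.of_forall fun x w hw => by
      rw [mem_ball_iff_norm] at hw
      have r1 := abs_lt.1 ((Complex.abs_re_le_norm (w - z)).trans_lt hw)
      have r2 := abs_lt.1 ((Complex.abs_im_le_norm (w - z)).trans_lt hw)
      rw [sub_re] at r1
      rw [sub_im] at r2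
      rw [norm_neg]
      refine (h w δ x (by linarith) (by linarith)).trans (mul_le_mul_of_nonneg_right
        (mul_le_mul_of_nonneg_left (Real.exp_le_exp.2 ?_) hK.le) (Real.exp_pos _).le)
      nlinarith [neg_abs_le z.im])
    ((integrable_exp hδ0).const_mul _)
    (Eventually.of_forall fun x w _ => by
      have := ((((hasDerivAt_neg w).mul_const ((x : ℂ) - η * I)).cexp).mul_const
        (1 - cexp (-((x : ℂ) - η * I)))⁻¹).div_const ((x : ℂ) - η * I)
      refine HasDerivAt.congr_deriv this ?_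
      have hne := line_ne h0 x
      unfold k1
      field_simp)
  rw [← integral_neg]
  exact this.2

theorem ee_deriv (z : ℂ) : HasDerivAt ee (2 * π * I * ee z) z := by
  have := ((hasDerivAt_id z).const_mul (2 * π * I : ℂ)).cexp
  refine HasDerivAt.congr_deriv this ?_
  simp [ee, mul_comm]

theorem one_sub_ee_ne {z : ℂ} (a : 0 < z.re) (b : z.re < 1) : 1 - ee z ≠ 0 := by
  have := ne_zero_strip (t := -(2 * π * I * z)) (by simp; nlinarith [Real.pi_pos])
    (by simp; nlinarith [Real.pi_pos])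
  rwa [neg_neg] at this

theorem basic1 (hR : StmtRect) (h0 : 0 < η) (h1 : η < 2 * π) {z : ℂ} (a : 0 < z.re)
    (b : z.re < 1) : cexp (-lineInt (k1 z) η) = 1 - ee z := by
  let S : Set ℂ := {z | 0 < z.re} ∩ {z | z.re < 1}
  let f : ℂ → ℂ := fun z => cexp (-lineInt (k1 z) η) / (1 - ee z)
  have hd : ∀ w ∈ S, HasDerivAt f 0 w := fun w hw => by
    have := ((k1_deriv h0 h1 hw.1 hw.2).neg.cexp).div ((ee_deriv w).const_sub 1)
      (one_sub_ee_ne hw.1 hw.2)
    refine HasDerivAt.congr_deriv this ?_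
    rw [div_eq_zero_iff]
    left
    simp only [Pi.neg_apply]
    linear_combination cexp (-lineInt (k1 w) η) * k1_W hR h0 h1 hw.1 hw.2
  have hS : IsOpen S := (isOpen_lt continuous_const continuous_re).inter
    (isOpen_lt continuous_re continuous_const)
  obtain ⟨κ, hκ⟩ := hS.exists_is_const_of_deriv_eq_zero
    ((convex_halfSpace_re_gt 0).inter (convex_halfSpace_re_lt 1)).isPreconnected
    (fun w hw => (hd w hw).differentiableAt.differentiableWithinAt) fun w hw => (hd w hw).deriv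
  obtain ⟨K, hK, h⟩ := k1_bound h0 h1
  have l0 : ∀ {c : ℝ}, 0 < c → Tendsto (fun t : ℝ => Real.exp (-c * t)) atTop (𝓝 0) := fun hc =>
    Real.tendsto_exp_atBot.comp (tendsto_id.const_mul_atTop_of_neg (by linarith))
  have l1 : Tendsto (fun t : ℝ => lineInt (k1 (1 / 2 + t * I)) η) atTop (𝓝 0) := by
    refine squeeze_zero_norm (fun t => norm_lineInt (δ := 1 / 2) h0 (by norm_num) fun x =>
      h (1 / 2 + t * I) _ x (by simp) (by simp; norm_num)) ?_
    simpa using ((l0 h0).const_mul K).const_mul (η⁻¹ * ∫ x : ℝ, Real.exp (-(1 / 2) * |x|))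
  have l2 : Tendsto (fun t : ℝ => ee (1 / 2 + t * I)) atTop (𝓝 0) := by
    refine squeeze_zero_norm (fun t => le_of_eq ?_) (l0 (c := 2 * π) (by positivity))
    rw [ee, Complex.norm_exp]
    simp
  have l3 : Tendsto (fun t : ℝ => f (1 / 2 + t * I)) atTop (𝓝 1) := by
    have := ((Complex.continuous_exp.tendsto _).comp l1.neg).div (l2.const_sub 1) (by simp)
    rw [neg_zero, Complex.exp_zero, sub_zero, div_one] at this
    exact this
  have hκ1 : κ = 1 := tendsto_nhds_unique tendsto_const_nhds (l3.congr fun t =>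
    hκ _ ⟨by simp, by simp; norm_num⟩)
  have := hκ z ⟨a, b⟩
  rwa [hκ1, div_eq_one_iff_eq (one_sub_ee_ne a b)] at this

end Basic

theorem lineInt_scale (g : ℂ → ℂ) {v : ℝ} (hv : 0 < v) (η : ℝ) :
    lineInt (fun s => g (v * s)) η = lineInt g (v * η) := by
  have := Measure.integral_comp_mul_left
    (fun y : ℝ => g (y - (v * η : ℝ) * I) / (y - (v * η : ℝ) * I)) v
  have hv' : (v : ℂ) ≠ 0 := by exact_mod_cast hv.ne'
  unfold lineInt
  rw [abs_of_pos (inv_pos.2 hv), eq_comm, inv_smul_eq_iff₀ hv.ne', ← integral_smul] at this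
  rw [this]
  refine integral_congr_ae (Eventually.of_forall fun x => ?_)
  have e : ((v * x : ℝ) : ℂ) - (v * η : ℝ) * I = v * (x - η * I) := by push_cast; ring
  simp only [e, real_smul]
  rw [← mul_div_assoc, mul_div_mul_left _ _ hv']

theorem basic (hR : StmtRect) {v η : ℝ} (hv : 0 < v) (h0 : 0 < η) (h1 : v * η < 2 * π) {z : ℂ}
    (a : 0 < z.re) (b : z.re < v) :
    cexp (-lineInt (fun s => cexp (-z * s) * (1 - cexp (-(v * s)))⁻¹) η) = 1 - ee (z / v) := by
  have hv' : (v : ℂ) ≠ 0 := by exact_mod_cast hv.ne'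
  rw [← basic1 hR (mul_pos hv h0) h1 (z := z / v) (by rw [div_ofReal_re]; positivity)
    (by rw [div_ofReal_re, div_lt_one hv]; exact b), ← lineInt_scale _ hv]
  congr 3
  funext s
  unfold k1
  congr 2
  field_simp

end M1
end Pool.Agent.Lib.Stark
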