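import Pool.Agent.Lib.stark.Defs1

/-! Block M4, first part: algebra of the pairing, the left extension, values on the group `D`. -/

open Complex MeasureTheory Filter Topology
open scoped Real ComplexConjugate

set_option linter.unusedSectionVars false

namespace Pool.Agent.Lib.Stark

namespace M4

variable {ε : ℝ} {n c : ℕ} [NeZero c] {a d : ZMod c}

theorem BB_comm (ξ ξ' : ℂ) (ρ ρ' : ZMod c) : BB ε c a ξ ρ ξ' ρ' = BB ε c a ξ' ρ' ξ ρ := by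
  rw [BB, BB, mul_comm ξ, mul_right_comm a]

theorem BB_add (ξ ξ₁ ξ₂ : ℂ) (ρ ρ₁ ρ₂ : ZMod c) :
    BB ε c a ξ ρ (ξ₁ + ξ₂) (ρ₁ + ρ₂) = BB ε c a ξ ρ ξ₁ ρ₁ * BB ε c a ξ ρ ξ₂ ρ₂ := by
  simp only [BB, ee, mul_add, add_div, neg_add, Complex.exp_add, AddChar.map_add_eq_mul]
  ring

theorem BB_add' (ξ ξ₁ ξ₂ : ℂ) (ρ ρ₁ ρ₂ : ZMod c) :
    BB ε c a (ξ₁ + ξ₂) (ρ₁ + ρ₂) ξ ρ = BB ε c a ξ₁ ρ₁ ξ ρ * BB ε c a ξ₂ ρ₂ ξ ρ := by
  rw [BB_comm, BB_add, BB_comm ξ, BB_comm ξ]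

theorem BB_zero (ξ : ℂ) (ρ : ZMod c) : BB ε c a ξ ρ 0 0 = 1 := by simp [BB, ee]

theorem BB_neg (ξ ξ' : ℂ) (ρ ρ' : ZMod c) :
    BB ε c a ξ ρ ξ' ρ' * BB ε c a ξ ρ (-ξ') (-ρ') = 1 := by
  rw [← BB_add, add_neg_cancel, add_neg_cancel, BB_zero]

theorem BB_ne (ξ ξ' : ℂ) (ρ ρ' : ZMod c) : BB ε c a ξ ρ ξ' ρ' ≠ 0 :=
  left_ne_zero_of_mul_eq_one (BB_neg ξ ξ' ρ ρ')

theorem BB_diff (ξ' : ℂ) (ρ ρ' : ZMod c) : Differentiable ℂ fun ξ ↦ BB ε c a ξ ρ ξ' ρ' := by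
  unfold BB ee
  fun_prop

theorem norm_BB (ξ : ℂ) (v : ℝ) (ρ ρ' : ZMod c) :
    ‖BB ε c a ξ ρ v ρ'‖ = Real.exp (-(2 * π * v / (c * ε)) * ξ.im) := by
  rw [BB, norm_mul, AddChar.norm_apply, mul_one, ee, Complex.norm_exp]
  congr 1
  have : 2 * π * I * (ξ * v / (c * ε)) = ((2 * π * v / (c * ε) : ℝ) : ℂ) * (I * ξ) := by
    push_cast
    ring
  rw [this, re_ofReal_mul]
  simp

theorem ee_psi (w : ℂ) (j : ℤ) : ee (w / c) * ZMod.stdAddChar (-(j : ZMod c)) = 1 ↔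
    ∃ k : ℤ, w = (j + k * c : ℤ) := by
  have hc : (c : ℂ) ≠ 0 := by exact_mod_cast NeZero.ne c
  have h2 : (2 * π * I : ℂ) ≠ 0 := two_pi_I_ne_zero
  rw [← Int.cast_neg, ZMod.stdAddChar_coe, ee, ← Complex.exp_add, Complex.exp_eq_one_iff]
  refine exists_congr fun k ↦ ?_
  push_cast
  constructor
  · intro h
    field_simp at h
    linear_combination h
  · intro h
    rw [h]
    field_simp
    ring

theorem phi_ne (ξ : ℂ) (ρ : ZMod c) : Phi ε c d ξ ρ ≠ 0 := Complex.exp_ne_zero _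

variable (H : Hyp ε n c a d)
include H

theorem e_pos : 0 < ε := zero_lt_one.trans H.one_lt

theorem n_pos : 0 < n := by
  refine Nat.pos_of_ne_zero fun h ↦ ?_
  have := H.quad
  rw [h, Nat.cast_zero, zero_mul] at this
  have := H.one_lt
  nlinarith

theorem xi_n : xi ε n n = ε - 1 := by
  have : (n : ℝ) ≠ 0 := by exact_mod_cast (n_pos H).ne'
  simp [xi, this]

omit H in
theorem xi_add (m m' : ℤ) : xi ε n (m + m') = xi ε n m + xi ε n m' := by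
  simp only [xi]
  push_cast
  ring

omit H in
theorem xi_neg (m : ℤ) : xi ε n (-m) = -xi ε n m := by
  simp only [xi]
  push_cast
  ring

omit H in
theorem xi_zero : xi ε n 0 = 0 := by simp [xi]

theorem xi_lt {m m' : ℤ} (h : m < m') : xi ε n m < xi ε n m' := by
  have h1 : (0 : ℝ) < n := by exact_mod_cast n_pos H
  have h2 : (m : ℝ) < m' := by exact_mod_cast h
  exact div_lt_div_of_pos_right (mul_lt_mul_of_pos_left h2 (by linarith [H.one_lt])) h1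

theorem xi_mono : StrictMono (xi ε n) := fun _ _ h ↦ xi_lt H h

theorem BB12 : BB ε c a 1 1 ε d = 1 := by
  have : (ε : ℂ) ≠ 0 := by exact_mod_cast (e_pos H).ne'
  have h := (ee_psi (c := c) 1 1).2 ⟨0, by simp⟩
  rw [BB, mul_one, H.ad, one_mul, mul_comm (c : ℂ), ← div_div, div_self this]
  simpa using h

theorem inD_T : InD c a n (d - 1) := by
  unfold InD
  push_cast
  linear_combination H.ad - H.tr

omit H in
theorem InD.add' {m m' : ℤ} {ρ ρ' : ZMod c} (h : InD c a m ρ) (h' : InD c a m' ρ') :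
    InD c a (m + m') (ρ + ρ') := by
  unfold InD at *
  push_cast
  linear_combination h + h'

omit H in
theorem InD.neg' {m : ℤ} {ρ : ZMod c} (h : InD c a m ρ) : InD c a (-m) (-ρ) := by
  unfold InD at *
  push_cast
  linear_combination -h

theorem inD_shift (m k : ℤ) (ρ : ZMod c) :
    InD c a (m + n * k) (ρ + k * (d - 1)) ↔ InD c a m ρ := by
  have := inD_T H
  unfold InD at *
  push_cast at *
  constructor
  · intro h
    linear_combination h - k * this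
  · intro h
    linear_combination h + k * this

theorem BT_iff (ξ : ℂ) (ρ : ZMod c) :
    BB ε c a ξ ρ (ε - 1) (d - 1) = 1 ↔ ∃ m : ℤ, ξ = xi ε n m ∧ InD c a m ρ := by
  obtain ⟨j, hj⟩ := ZMod.intCast_surjective ((1 - a) * ρ)
  have h0 : (ε : ℂ) ≠ 0 := by exact_mod_cast (e_pos H).ne'
  have h1 : (ε : ℂ) - 1 ≠ 0 := by exact_mod_cast (sub_pos.2 H.one_lt).ne'
  have h2 : (n : ℂ) ≠ 0 := by exact_mod_cast (n_pos H).ne'
  have h3 : ((ε : ℂ) - 1) ^ 2 = n * ε := by exact_mod_cast H.quad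
  have e1 : a * ρ * (d - 1) = j := by linear_combination ρ * H.ad - hj
  have e2 : ∀ m : ℤ, ξ * (ε - 1) / ε = m ↔ ξ = xi ε n m := fun m ↦ by
    rw [xi]
    push_cast
    rw [div_eq_iff h0, eq_div_iff h2]
    constructor
    · intro h
      refine mul_right_cancel₀ h1 ?_
      linear_combination n * h - m * h3
    · intro h
      refine mul_right_cancel₀ h2 ?_
      linear_combination (ε - 1) * h + m * h3
  rw [BB, e1, mul_comm (c : ℂ), ← div_div, ee_psi]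
  constructor
  · rintro ⟨k, hk⟩
    exact ⟨_, (e2 _).1 hk, by simp [InD, hj]⟩
  · rintro ⟨m, h, h'⟩
    obtain ⟨k, hk⟩ := (ZMod.intCast_eq_intCast_iff_dvd_sub j m c).1 (hj.trans h'.symm)
    exact ⟨k, by rw [(e2 m).2 h]; congr 1; linarith⟩

theorem BT_one {m : ℤ} {ρ : ZMod c} (h : InD c a m ρ) :
    BB ε c a (xi ε n m) ρ (ε - 1) (d - 1) = 1 := (BT_iff H _ _).2 ⟨m, rfl, h⟩

omit H in
theorem X2_eq (ξ : ℂ) (ρ : ZMod c) :
    BB ε c a ξ ρ ε d = BB ε c a ξ ρ 1 1 * BB ε c a ξ ρ (ε - 1) (d - 1) := by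
  rw [← BB_add, add_sub_cancel, add_sub_cancel]

theorem X1_ne {m : ℤ} {ρ : ZMod c} (h : m ≠ 0 ∨ ρ ≠ 0) : BB ε c a (xi ε n m) ρ 1 1 ≠ 1 := by
  obtain ⟨j, hj⟩ := ZMod.intCast_surjective (a * ρ)
  rw [Ne, BB, mul_one, mul_one, ← hj, mul_comm (c : ℂ), ← div_div, ee_psi]
  rintro ⟨k, hk⟩
  have h0 := e_pos H
  have h2 : (n : ℝ) ≠ 0 := by exact_mod_cast (n_pos H).ne'
  have h1 : xi ε n m / ε = (j + k * c : ℤ) := by exact_mod_cast hk
  set J : ℤ := j + k * c with hJ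
  rw [xi, div_div, div_eq_iff (by positivity)] at h1
  have h3 : ε * ((m - n * J : ℤ) : ℝ) = (m : ℤ) := by
    push_cast
    linarith
  by_cases h4 : m - n * J = 0
  · have h5 : m = 0 := by
      rw [h4, Int.cast_zero, mul_zero] at h3
      exact_mod_cast h3.symm
    have h6 : J = 0 := by
      rw [h5] at h4
      simpa [(n_pos H).ne'] using h4
    have h7 : a * ρ = 0 := by
      rw [← hj, show j = -(k * c) by omega]
      simp
    exact (h.resolve_left (not_not.2 h5)) (by linear_combination d * h7 - ρ * H.ad)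
  · exact (H.irr.mul_intCast h4).ne_int m h3

theorem Fm_shift (m k : ℤ) (ρ : ZMod c) :
    Fm ε n c d (m + n * k) (ρ + k * (d - 1)) = Fm ε n c d m ρ := by
  have : (n : ℤ) ≠ 0 := by exact_mod_cast (n_pos H).ne'
  rw [Fm, Fm, Int.add_mul_emod_self_left, Int.add_mul_ediv_left _ _ this]
  congr 1
  push_cast
  ring

theorem isT_shift (m k : ℤ) (ρ : ZMod c) :
    IsT n c d (m + n * k) (ρ + k * (d - 1)) ↔ IsT n c d m ρ := by
  have : (n : ℤ) ≠ 0 := by exact_mod_cast (n_pos H).ne'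
  rw [IsT, IsT, Int.add_mul_emod_self_left, Int.add_mul_ediv_left _ _ this]
  push_cast
  rw [add_mul, add_left_inj]

theorem Fs_shift (m k : ℤ) (ρ : ZMod c) :
    Fs ε n c d (m + n * k) (ρ + k * (d - 1)) = Fs ε n c d m ρ := by
  rw [Fs, Fs, Fm_shift H, propext (isT_shift H m k ρ)]

theorem Fm_red {m : ℤ} (h0 : 0 ≤ m) (h1 : m < n) (ρ : ZMod c) :
    Fm ε n c d m ρ = Phi ε c d (xi ε n m + 1) (ρ + 1) := by
  rw [Fm, Int.emod_eq_of_lt h0 h1, Int.ediv_eq_zero_of_lt h0 h1]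
  simp

theorem Fm_neg {m : ℤ} (h0 : -n ≤ m) (h1 : m < 0) (ρ : ZMod c) :
    Fm ε n c d m ρ = Phi ε c d (xi ε n m + ε) (ρ + d) := by
  rw [← Fm_shift H m 1, Fm_red H (by omega) (by omega), mul_one, xi_add, xi_n H]
  congr 1
  · push_cast
    ring
  · push_cast
    ring

theorem Fm_zero : Fm ε n c d 0 0 = Phi ε c d 1 1 := by
  rw [Fm_red H le_rfl (by exact_mod_cast n_pos H), xi_zero]
  simp

omit H in
theorem isT_red {m : ℤ} (h0 : 0 ≤ m) (h1 : m < n) (ρ : ZMod c) :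
    IsT n c d m ρ ↔ m = 0 ∧ ρ = 0 := by
  rw [IsT, Int.emod_eq_of_lt h0 h1, Int.ediv_eq_zero_of_lt h0 h1]
  simp

theorem exists_red (m : ℤ) (ρ : ZMod c) : ∃ (r k : ℤ) (ρ₀ : ZMod c), 0 ≤ r ∧ r < n ∧ r = m % n ∧
    m = r + n * k ∧ ρ = ρ₀ + k * (d - 1) := by
  have : (0 : ℤ) < n := by exact_mod_cast n_pos H
  exact ⟨m % n, m / n, ρ - (m / n : ℤ) * (d - 1), Int.emod_nonneg _ this.ne',
    Int.emod_lt_of_pos _ this, rfl, (Int.emod_add_mul_ediv m n).symm, by ring⟩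

theorem per {g : ℤ → ZMod c → ℂ}
    (hg : ∀ m ρ, InD c a m ρ → g (m + n) (ρ + (d - 1)) = g m ρ) {m : ℤ} {ρ : ZMod c}
    (h : InD c a m ρ) (k : ℤ) : g (m + n * k) (ρ + k * (d - 1)) = g m ρ := by
  induction k using Int.induction_on with
  | zero => simp
  | succ k ih =>
    rw [← ih, ← hg _ _ ((inD_shift H m k ρ).2 h)]
    congr 1
    · ring
    · push_cast
      ring
  | pred k ih =>
    rw [← ih, ← hg _ _ ((inD_shift H m (-k - 1) ρ).2 h)]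
    congr 1
    · ring
    · push_cast
      ring

theorem bm_shift {m m' : ℤ} {ρ ρ' : ZMod c} (h : InD c a m ρ) (h' : InD c a m' ρ') (k : ℤ) :
    bm ε n c a m ρ (m' + n * k) (ρ' + k * (d - 1)) = bm ε n c a m ρ m' ρ' := by
  refine per H (g := bm ε n c a m ρ) (fun m' ρ' _ ↦ ?_) h' k
  rw [bm, bm, xi_add, xi_n H]
  push_cast
  rw [BB_add, BT_one H h, mul_one]

end M4

/-- the left extension of `Phi` -/
structure M4.Ext (ε : ℝ) (c : ℕ) [NeZero c] (a d : ZMod c) (E : ℂ → ZMod c → ℂ) : Prop where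
  diff : ∀ ρ, DifferentiableOn ℂ (fun ξ ↦ E ξ ρ) {ξ | ξ.re < 1 + ε}
  eq : ∀ ξ ρ, 0 < ξ.re → ξ.re < 1 + ε → E ξ ρ = Phi ε c d ξ ρ
  e1 : ∀ ξ ρ, ξ.re < ε → E ξ ρ = (1 - BB ε c a ξ ρ 1 1) * E (ξ + 1) (ρ + 1)
  e2 : ∀ ξ ρ, ξ.re < 1 → E ξ ρ = (1 - BB ε c a ξ ρ ε d) * E (ξ + ε) (ρ + d)

namespace M4

variable {ε : ℝ} {n c : ℕ} [NeZero c] {a d : ZMod c} {E : ℂ → ZMod c → ℂ}

theorem exists_ext (H : Hyp ε n c a d) (h : StmtExt) (P : PhiProp ε c a d) :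
    ∃ E, Ext ε c a d E := by
  have h0 := e_pos H
  obtain ⟨E, h1, h2, h3⟩ := h c (Phi ε c d) (fun ξ ρ ↦ 1 - BB ε c a ξ ρ 1 1) 0 (1 + ε)
    (by linarith) P.diff (fun ρ ↦ (BB_diff 1 ρ 1).const_sub 1)
    fun ξ ρ a b ↦ P.eq1 ξ ρ a (by linarith)
  refine ⟨E, h1, h2, fun ξ ρ h ↦ h3 ξ ρ (by linarith), fun ξ ρ h ↦ ?_⟩
  have ho : IsOpen {ξ : ℂ | ξ.re < 1} := isOpen_lt continuous_re continuous_const
  have a1 : AnalyticOnNhd ℂ (fun ξ ↦ E ξ ρ) {ξ : ℂ | ξ.re < 1} :=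
    ((h1 ρ).mono fun ξ (hξ : ξ.re < 1) ↦ show ξ.re < 1 + ε by linarith).analyticOnNhd ho
  have a2 : AnalyticOnNhd ℂ (fun ξ ↦ (1 - BB ε c a ξ ρ ε d) * E (ξ + ε) (ρ + d))
      {ξ : ℂ | ξ.re < 1} := by
    refine DifferentiableOn.analyticOnNhd (((BB_diff ε ρ d).const_sub 1).differentiableOn.mul
      ((h1 (ρ + d)).comp (f := fun ξ : ℂ ↦ ξ + ε) (by fun_prop)
        fun (ξ : ℂ) (hξ : ξ.re < 1) ↦ ?_)) ho
    show (ξ + ε).re < 1 + ε
    simpa using hξ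
  refine a1.eqOn_of_preconnected_of_eventuallyEq a2 (convex_halfSpace_re_lt 1).isPreconnected
    (z₀ := (1 / 2 : ℝ)) (show ((1 / 2 : ℝ) : ℂ).re < 1 by norm_num) ?_ h
  have ho' : IsOpen {ξ : ℂ | 0 < ξ.re ∧ ξ.re < 1} :=
    (isOpen_lt continuous_const continuous_re).inter ho
  filter_upwards [ho'.mem_nhds (show 0 < ((1 / 2 : ℝ) : ℂ).re ∧ ((1 / 2 : ℝ) : ℂ).re < 1 by
    norm_num)] with ξ hξ
  rw [h2 ξ ρ hξ.1 (by linarith [hξ.2]), h2 _ _ (by simp; linarith [hξ.1]) (by simpa using hξ.2),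
    P.eq2 ξ ρ hξ.1 hξ.2]

theorem E12 (H : Hyp ε n c a d) (X : Ext ε c a d E) {m : ℤ} {ρ : ZMod c} (h : InD c a m ρ)
    (h0 : m ≠ 0 ∨ ρ ≠ 0) (h1 : m ≤ 0) :
    E (xi ε n m + 1) (ρ + 1) = E (xi ε n m + ε) (ρ + d) := by
  have h2 : xi ε n m ≤ 0 := xi_zero (ε := ε) (n := n) ▸ (xi_mono H).monotone h1
  have h3 := X.e1 (xi ε n m) ρ (by simp; linarith [e_pos H])
  rw [X.e2 (xi ε n m) ρ (by simp; linarith), X2_eq, BT_one H h, mul_one] at h3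
  exact (mul_left_cancel₀ (sub_ne_zero.2 (X1_ne H h0).symm) h3).symm

theorem E_Fm (H : Hyp ε n c a d) (X : Ext ε c a d E) {m : ℤ} {ρ : ZMod c} (h : InD c a m ρ)
    (h0 : -n < m) (h1 : m < n) : E (xi ε n m + 1) (ρ + 1) = Fm ε n c d m ρ := by
  have b1 := xi_lt H h0
  have b2 := xi_lt H h1
  rw [xi_neg, xi_n H] at b1
  rw [xi_n H] at b2
  rcases lt_or_ge m 0 with hm | hm
  · have b3 := xi_lt H hm
    rw [xi_zero] at b3
    rw [E12 H X h (Or.inl hm.ne) hm.le, Fm_neg H h0.le hm,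
      X.eq _ _ (by simp; linarith) (by simp; linarith)]
  · have b3 := (xi_mono H).monotone hm
    rw [xi_zero] at b3
    rw [Fm_red H hm h1, X.eq _ _ (by simp; linarith) (by simp; linarith)]

theorem phi12 (H : Hyp ε n c a d) (X : Ext ε c a d E) {ρ : ZMod c} (h : InD c a 0 ρ)
    (h0 : ρ ≠ 0) : Phi ε c d 1 (ρ + 1) = Phi ε c d ε (ρ + d) := by
  have := E12 H X h (Or.inr h0) le_rfl
  have h1 := e_pos H
  rwa [xi_zero, ofReal_zero, zero_add, zero_add, X.eq _ _ (by simp) (by simpa using h1),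
    X.eq _ _ (by simpa using h1) (by simp)] at this

/-- the value at the opposite of a reduced point -/
theorem Fm_opp (H : Hyp ε n c a d) (X : Ext ε c a d E) {m : ℤ} {ρ : ZMod c} (h : InD c a m ρ)
    (h0 : 0 ≤ m) (h1 : m < n) (h2 : m ≠ 0 ∨ ρ ≠ 0) :
    Fm ε n c d (-m) (-ρ) = Phi ε c d (ε - xi ε n m) (d - ρ) := by
  rcases h0.eq_or_lt with rfl | h0
  · rw [neg_zero, Fm_red H le_rfl h1, xi_zero, ofReal_zero, zero_add, sub_zero,
      phi12 H X (neg_zero (G := ℤ) ▸ InD.neg' h) (neg_ne_zero.2 (by simpa using h2)),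
      neg_add_eq_sub]
  · rw [Fm_neg H (by omega) (by omega), xi_neg, ofReal_neg, neg_add_eq_sub, neg_add_eq_sub]

theorem cnj (H : Hyp ε n c a d) (P : PhiProp ε c a d) (X : Ext ε c a d E) (m : ℤ) (ρ : ZMod c)
    (h : InD c a m ρ) (hT : ¬IsT n c d m ρ) :
    Fm ε n c d (-m) (-ρ) * conj (Fm ε n c d m ρ) = 1 := by
  obtain ⟨r, k, ρ₀, h0, h1, -, rfl, rfl⟩ := exists_red H m ρ
  rw [isT_shift H, isT_red h0 h1, not_and_or] at hT
  rw [inD_shift H] at h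
  have e := Fm_shift H (-r) (-k) (-ρ₀)
  have b1 := (xi_mono H).monotone h0
  have b2 := xi_lt H h1
  rw [xi_zero] at b1
  rw [xi_n H] at b2
  rw [Fm_shift H, show -(r + n * k) = -r + n * -k by ring,
    show -(ρ₀ + k * (d - 1)) = -ρ₀ + (-k : ℤ) * (d - 1) by push_cast; ring, e,
    Fm_opp H X h h0 h1 hT, Fm_red H h0 h1]
  refine Eq.trans ?_ (P.cnj (xi ε n r + 1) (ρ₀ + 1) (by linarith) (by linarith))
  push_cast
  congr 2 <;> ring

theorem gm_eq (H : Hyp ε n c a d) (P : PhiProp ε c a d) (X : Ext ε c a d E) {Γ : ℂ → ZMod c → ℂ}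
    (g1 : ∀ ξ ρ, 0 < ξ.re → ξ.re < 1 + ε →
      Γ ξ ρ = Phi ε c d ξ ρ * Phi ε c d (1 + ε - ξ) (1 + d - ρ))
    (g2 : ∀ ξ ρ, Γ ξ ρ = -BB ε c a ξ ρ 1 1 * Γ (ξ + 1) (ρ + 1))
    (g3 : ∀ ξ ρ, Γ ξ ρ = -BB ε c a ξ ρ ε d * Γ (ξ + ε) (ρ + d)) {m : ℤ} {ρ : ZMod c}
    (h : InD c a m ρ) : Fm ε n c d (-m) (-ρ) / Fs ε n c d m ρ = Γ (xi ε n m + 1) (ρ + 1) := by
  obtain ⟨r, k, ρ₀, h0, h1, -, rfl, rfl⟩ := exists_red H m ρ
  rw [inD_shift H] at h
  have e := Fm_shift H (-r) (-k) (-ρ₀)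
  have b1 := (xi_mono H).monotone h0
  have b2 := xi_lt H h1
  rw [xi_zero] at b1
  rw [xi_n H] at b2
  have e2 := per H (g := fun m ρ ↦ Γ (xi ε n m + 1) (ρ + 1)) (fun m ρ h ↦ by
    have h3 := g2 (xi ε n m) ρ
    rw [g3 (xi ε n m) ρ, X2_eq, BT_one H h, mul_one] at h3
    rw [← mul_left_cancel₀ (neg_ne_zero.2 (BB_ne _ _ _ _)) h3, xi_add, xi_n H]
    push_cast
    congr 1 <;> ring) h k
  rw [e2, Fs_shift H, show -(r + n * k) = -r + n * -k by ring,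
    show -(ρ₀ + k * (d - 1)) = -ρ₀ + (-k : ℤ) * (d - 1) by push_cast; ring, e,
    g1 _ _ (by simp; linarith) (by simp; linarith), Fs, isT_red h0 h1]
  split_ifs with hT
  · obtain ⟨rfl, rfl⟩ := hT
    have : (ε : ℂ) ≠ 0 := by exact_mod_cast (e_pos H).ne'
    simp only [neg_zero, Fm_zero H, xi_zero, ofReal_zero, zero_add, add_sub_cancel_left, P.ratio]
    field_simp
  · rw [Fm_opp H X h h0 h1 (not_and_or.1 hT), Fm_red H h0 h1, div_inv_eq_mul, mul_comm]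
    congr 2 <;> ring

theorem gam (H : Hyp ε n c a d) (P : PhiProp ε c a d) (X : Ext ε c a d E) (G : GamProp ε c a d)
    (m m' : ℤ) (ρ ρ' : ZMod c) (h : InD c a m ρ) (h' : InD c a m' ρ') :
    Fm ε n c d (-(m + m')) (-(ρ + ρ')) / Fs ε n c d (m + m') (ρ + ρ') *
      (Fm ε n c d 0 0 / Fs ε n c d 0 0) * bm ε n c a m ρ m' ρ' =
      Fm ε n c d (-m) (-ρ) / Fs ε n c d m ρ * (Fm ε n c d (-m') (-ρ') / Fs ε n c d m' ρ') := by
  obtain ⟨Γ, -, -, g1, g2, g3, g4⟩ := G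
  have e0 := gm_eq H P X g1 g2 g3 (m := 0) (ρ := 0) (by simp [InD])
  rw [neg_zero, neg_zero, xi_zero, ofReal_zero, zero_add, zero_add] at e0
  rw [e0, gm_eq H P X g1 g2 g3 h, gm_eq H P X g1 g2 g3 h', gm_eq H P X g1 g2 g3 (InD.add' h h'),
    bm, xi_add]
  obtain ⟨κ, hκ⟩ := g4 (xi ε n m') ρ'
  have k1 := hκ (xi ε n m + 1) (ρ + 1)
  have k2 := hκ 1 1
  rw [BB_add', add_right_comm, add_right_comm ρ] at k1
  rw [add_comm, add_comm 1] at k2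
  refine mul_right_cancel₀ (BB_ne (ε := ε) (a := a) 1 (xi ε n m') 1 ρ') ?_
  push_cast
  linear_combination Γ 1 1 * k1 - Γ (xi ε n m + 1) (ρ + 1) * k2

end M4

end Pool.Agent.Lib.Stark
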