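import Pool.Agent.Lib.stark.PL

namespace Pool.Agent.Lib.Stark

theorem blockP1 (h : StmtOrth ∧ StmtKill) : StmtP1 := by
  intro G _ _ _ f b e hP Γ _ v p m n' hp h5 hv hc hn s hs he h0 hx M _ ⟨x, hM⟩ h1
  have hL := blockPL h G f b e hP Γ v p m n' hp hv hc hn s hs he h0 hx
  have hj : ∀ j : ℕ, v (f (x + j • (p ^ m • s))) = M := by
    intro j
    induction j with
    | zero => simpa using hM
    | succ j ih => rw [succ_nsmul, ← add_assoc, hL, ih]
  refine ⟨x, ?_⟩
  rw [map_prod, Finset.prod_congr rfl fun j _ => hj j, Finset.prod_const, Finset.card_range]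
  exact pow_le_pow_right₀ h1.le (by omega)

end Pool.Agent.Lib.Stark
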