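import Pool.Agent.Lib.stark.Defs1

open Finset

namespace Pool.Agent.Lib.Stark

namespace P4

variable {G : Type} [AddCommGroup G] [Fintype G] [DecidableEq G] {b : G → G → ℂ}
  {Γ : Type} [LinearOrderedCommGroupWithZero Γ] (v : Valuation ℂ Γ)

omit [Fintype G] [DecidableEq G] in
lemma sigma_le (hb : ∀ x y u, b (x + y) u = b x u * b y u) (A : AddSubgroup G) [Fintype A] (u : G) :
    v (∑ a : A, b a u) ≤ v (Nat.card A) := by
  by_cases h : ∀ a : A, b a u = 1
  · simp [h]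
  · obtain ⟨a₀, h⟩ := not_forall.1 h
    have h1 : ∑ a : A, b a u = b a₀ u * ∑ a : A, b a u := by
      rw [mul_sum, ← Equiv.sum_comp (Equiv.addLeft a₀)]
      exact sum_congr rfl fun a _ => hb _ _ _
    have h2 : ∑ a : A, b a u = 0 := by
      by_contra h3
      exact h (mul_right_cancel₀ h3 (by rw [← h1, one_mul]))
    simp [h2]

omit [Fintype G] [DecidableEq G] in
lemma sum_sub_lt {A : Type} [Fintype A] (g : A → ℂ) (a₀ : A) {M : Γ} (hM : M ≠ 0)
    (h : ∀ a, a ≠ a₀ → v (g a) < M) : v (∑ a, g a - g a₀) < M := by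
  classical
  rw [← add_sum_erase _ _ (mem_univ a₀), add_sub_cancel_left]
  exact v.map_sum_lt hM fun a ha => h a (ne_of_mem_erase ha)

omit [Fintype G] [DecidableEq G] in
lemma lt_of_sub_lt {x y : ℂ} {M : Γ} (h : v (x - y) < M) (hy : v y < M) : v x < M := by
  simpa using v.map_add_lt h hy

end P4

open P4 in
theorem blockP4 (h : StmtOrth ∧ StmtKill) : StmtP4 := by
  intro G _ _ _ f b e hp Γ _ v p pp hv A B hAB hA he h0 hneg hB hc M x₀ hM hx₀ h1
  classical
  let _ : Fintype A := Fintype.ofFinite A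
  obtain ⟨-, hinv, hval⟩ := h.1 G b hp.bi
  obtain ⟨hb1, hbt⟩ := hval Γ v p pp hv
  have M0 : M ≠ 0 := (zero_lt_one.trans h1).ne'
  have vfs : ∀ x, v (fs f e x) = v (f (-x)) := fun x => by
    by_cases hx : x = 0
    · simp [fs, hx, he, h0]
    · rw [fs, if_neg hx, map_inv₀]
      exact (eq_inv_of_mul_eq_one_right (hneg x)).symm
  set γ := v ((e - 1) / f 0) with hγ
  have hγ2 : γ ^ 2 = v (Fintype.card G) := by
    rw [hγ, map_div₀, h0, div_one, ← map_pow, hp.card, map_mul, he, mul_one]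
  have γ0 : γ ≠ 0 := fun k => by
    rw [k, zero_pow two_ne_zero, eq_comm, Valuation.zero_iff] at hγ2
    exact Fintype.card_ne_zero (Nat.cast_eq_zero.1 hγ2)
  have hAγ : v (Nat.card A) ≤ γ := (pow_le_pow_iff_left₀ zero_le zero_le two_ne_zero).1
    (hγ2 ▸ hc)
  let P : G → G → ℂ := fun y x => ∑ a : A, f (x + a + y) * fs f e (x + a)
  have hP : ∀ y x, (Fintype.card G : ℂ) * P y x = ∑ u, (∑ z, f (z + y) * fs f e z * b z u) *
      (∑ a : A, b a (-u)) * b x (-u) := fun y x => by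
    simp only [P, mul_sum, ← hinv (fun z => f (z + y) * fs f e z), hp.bi.add]
    rw [sum_comm]
    exact sum_congr rfl fun u _ => by
      rw [sum_mul]; exact sum_congr rfl fun a _ => by ring
  have hk : ∀ y ∉ B, ∀ u, v ((∑ z, f (z + y) * fs f e z * b z u) * (∑ a : A, b a (-u))) ≤
      γ * (v (Nat.card A) * M) := fun y hy u => by
    rw [hp.pent y u (fun k => hy (k ▸ B.zero_mem)), map_mul, map_mul, map_mul, map_mul, hB y hy,
      mul_one, vfs, mul_assoc, mul_assoc, ← mul_assoc (v (f (-u))), mul_comm _ M]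
    refine mul_le_mul' le_rfl (mul_le_mul' ?_ (sigma_le v hp.bi.add A _))
    by_cases hu : -u ∈ B
    · rw [hB (-(y - u)) fun k => hy (by simpa using B.neg_mem (B.add_mem hu k)), mul_one]
      exact hM _
    · rw [hB _ hu, one_mul]
      exact hM _
  have i1 : ∀ y ∉ B, ∀ x, γ * v (P y x) ≤ v (Nat.card A) * M := fun y hy x => by
    refine le_of_mul_le_mul_left (a := γ) ?_ (zero_lt_iff.2 γ0)
    rw [← mul_assoc, ← sq, hγ2, ← map_mul, hP]
    exact v.map_sum_le fun u _ => by rw [map_mul, hb1, mul_one]; exact hk y hy u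
  have i2 : ∀ y ∉ B, ∀ t, (∃ j : ℕ, p ^ j • t = 0) → v (P y t - P y 0) < M := by
    rintro y hy t ⟨j, hj⟩
    refine lt_of_mul_lt_mul_left (a := γ * γ) ?_ zero_le
    rw [← sq, hγ2, ← map_mul, mul_sub, hP, hP, ← sum_sub_distrib, ← hγ2]
    have k0 : γ ^ 2 * M ≠ 0 := mul_ne_zero (pow_ne_zero _ γ0) M0
    refine v.map_sum_lt k0 fun u _ => ?_
    rw [← mul_sub, map_mul, hp.bi.zero]
    refine lt_of_le_of_lt (mul_le_mul' ((hk y hy u).trans (mul_le_mul' le_rfl
      (mul_le_mul' hAγ le_rfl))) le_rfl) ?_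
    rw [← mul_assoc, ← sq]
    exact mul_lt_of_lt_one_right (zero_lt_iff.2 k0) (hbt t j hj _)
  obtain ⟨⟨a₀, ha₀⟩, ha⟩ := AddSubgroup.ne_bot_iff_exists_ne_zero.1 hA
  have hd : ∀ a ∈ A, a ∈ B → a = 0 := fun a k1 k2 =>
    AddSubgroup.disjoint_def.1 hAB.disjoint k1 k2
  have a0 : a₀ ≠ 0 := fun k => ha (Subtype.ext k)
  have hy : ∀ z ∈ B, a₀ + z ∉ B := fun z hz k => a0 (hd _ ha₀ (by simpa using B.sub_mem k hz))
  have hterm : ∀ z ∈ B, ∀ x ∈ B, ∀ a : A, v (f (x + a + (a₀ + z)) * fs f e (x + a)) =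
      if a = 0 then v (f (-x)) else if a = -⟨a₀, ha₀⟩ then v (f (x + z)) else 1 := by
    intro z hz x hx a
    have k1 : a ≠ 0 → v (f (-(x + a))) = 1 := fun k => hB _ fun k' =>
      k (Subtype.ext (hd _ a.2 (by simpa using B.neg_mem (B.add_mem k' hx))))
    have k2 : a ≠ -⟨a₀, ha₀⟩ → v (f (x + a + (a₀ + z))) = 1 := fun k => hB _ fun k' =>
      k (Subtype.ext (eq_neg_of_add_eq_zero_left (hd _ (A.add_mem a.2 ha₀) (by
        convert B.sub_mem (B.sub_mem k' hx) hz using 1; abel))))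
    rw [map_mul, vfs]
    split_ifs with e1 e2
    · rw [k2 (by rw [e1]; exact fun k => ha (neg_eq_zero.1 k.symm)), e1]
      simp
    · rw [k1 e1, e2, mul_one]
      congr 2
      simp only [AddSubgroup.coe_neg]
      abel
    · rw [k1 e1, k2 e2, mul_one]
  have na : (-⟨a₀, ha₀⟩ : A) ≠ 0 := neg_ne_zero.2 ha
  have key : ∀ z ∈ B, ∀ x ∈ B, v (f (-x)) < M → (v (P (a₀ + z) x) < M ↔ v (f (x + z)) < M) := by
    intro z hz x hx hlt
    have k := sum_sub_lt v (fun a : A => f (x + a + (a₀ + z)) * fs f e (x + a)) (-⟨a₀, ha₀⟩) M0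
      fun a k => by rw [hterm z hz x hx, if_neg k]; split_ifs; exacts [hlt, h1]
    have k' := hterm z hz x hx (-⟨a₀, ha₀⟩)
    rw [if_neg na, if_pos rfl] at k'
    rw [← k']
    exact ⟨lt_of_sub_lt v (by rwa [Valuation.map_sub_swap]), lt_of_sub_lt v k⟩
  have z1 : v (f (-0)) < M := by rwa [neg_zero, h0]
  have s1 : ∀ t ∈ B, (∃ j : ℕ, p ^ j • t = 0) → v (f t) < M := fun t ht hj => by
    refine (hM t).lt_of_ne fun k => ?_
    have k1 : v (f (-t)) < M := by
      refine lt_of_not_ge fun k' => ?_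
      have := hneg t
      rw [k] at this
      exact (one_lt_mul_of_lt_of_le' h1 (h1.le.trans k')).ne' this
    have k2 := (key 0 B.zero_mem t ht k1).1 (lt_of_sub_lt v (i2 _ (hy 0 B.zero_mem) t hj)
      ((key 0 B.zero_mem 0 B.zero_mem z1).2 (by rwa [add_zero, h0])))
    rw [add_zero] at k2
    exact k2.ne k
  have xB : x₀ ∈ B := by_contra fun k => h1.ne (by rw [← hx₀, hB _ k])
  have s2 : ¬ v (P (a₀ + x₀) 0) < M := fun k => by
    have := (key x₀ xB 0 B.zero_mem z1).1 k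
    rw [zero_add] at this
    exact this.ne hx₀
  refine ⟨?_, fun t ht hj => (hM _).eq_of_not_lt fun k => s2 ?_⟩
  · rw [← hγ2, hAγ.antisymm (le_of_mul_le_mul_right ((mul_le_mul' le_rfl
      (not_lt.1 s2)).trans (i1 _ (hy _ xB) 0)) (zero_lt_iff.2 M0))]
  · refine lt_of_sub_lt v (by rw [Valuation.map_sub_swap]; exact i2 _ (hy _ xB) t hj)
      ((key x₀ xB t ht (s1 _ (B.neg_mem ht) ?_)).2 (by rwa [add_comm]))
    obtain ⟨j, hj⟩ := hj
    exact ⟨j, by rw [smul_neg, hj, neg_zero]⟩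

end Pool.Agent.Lib.Stark
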