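import Pool.Agent.Lib.stark.Defs2
import Pool.Agent.Lib.MP_6bf7a3_nt.H5Quad

open NumberField Ideal
open scoped nonZeroDivisors

namespace Pool.Agent.Lib.Stark

variable {K : Type} [Field K] [NumberField K] {σ₁ σ₂ : K →+* ℝ} {c : K ≃+* K}

namespace R1b

theorem cc (h : RQ σ₁ σ₂ c) (x : K) : c (c x) = x :=
  σ₁.injective (by rw [h.cnj₁, h.cnj₂])

theorem absNorm_cI (I : Ideal (𝓞 K)) : absNorm (cI c I) = absNorm I := by
  rw [absNorm_apply, absNorm_apply, Submodule.cardQuot_apply, Submodule.cardQuot_apply]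
  exact (Nat.card_congr
    (Ideal.quotientEquiv I (cI c I) (RingOfIntegers.mapRingEquiv c) rfl).toEquiv).symm

theorem norm_eq (h : RQ σ₁ σ₂ c) (x : 𝓞 K) :
    algebraMap ℤ (𝓞 K) (Algebra.intNorm ℤ (𝓞 K) x) = x * RingOfIntegers.mapRingEquiv c x := by
  apply RingOfIntegers.ext
  apply σ₁.injective
  have h1 := MP_6bf7a3_nt.norm_eq_mul h.rank h.ne (x : K)
  rw [← Algebra.coe_norm_int, ← h.cnj₁, ← map_mul] at h1
  rw [Algebra.intNorm_eq_norm]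
  have h2 : ((x * RingOfIntegers.mapRingEquiv c x : 𝓞 K) : K) = x * c x := rfl
  rw [h2, ← h1]
  simp

theorem step (hs : ∀ (Λ : Submodule ℤ K) (x : K) (s₁ s₂ : ℝ), IsLat Λ → s₁ ≠ 0 → s₂ ≠ 0 →
      ∃ y, y - x ∈ Λ ∧ 0 < s₁ * σ₁ y ∧ 0 < s₂ * σ₂ y)
    (hl : ∀ a : FractionalIdeal (𝓞 K)⁰ K, a ≠ 0 → IsLat (lat a)) {m J : Ideal (𝓞 K)}
    (hm : m ≠ ⊥) (hJ : J ≠ ⊥) {s₁ s₂ : ℝ} (h₁ : s₁ ≠ 0) (h₂ : s₂ ≠ 0) :
    ∃ (b : Ideal (𝓞 K)) (x : 𝓞 K), Cop m b ∧ 0 < s₁ * σ₁ x ∧ 0 < s₂ * σ₂ x ∧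
      J * b = span {x} := by
  have hmJ : J * m ≠ ⊥ := mul_ne_zero hJ hm
  obtain ⟨x₀, hx₀⟩ := IsDedekindDomain.exists_sup_span_eq (I := J * m) (J := J) Ideal.mul_le_left hmJ
  obtain ⟨y, hy, p1, p2⟩ := hs (lat ((J * m : Ideal (𝓞 K)) : FractionalIdeal (𝓞 K)⁰ K)) x₀ s₁ s₂
    (hl _ (FractionalIdeal.coeIdeal_ne_zero.2 hmJ)) h₁ h₂
  obtain ⟨t, ht, hty⟩ := (FractionalIdeal.mem_coeIdeal (𝓞 K)⁰).1 hy
  have hx : ((x₀ + t : 𝓞 K) : K) = y := by
    have : algebraMap (𝓞 K) K (x₀ + t) = y := by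
      rw [map_add, hty]; exact add_sub_cancel _ _
    exact this
  have h3 : J * m ⊔ span {x₀ + t} = J := by
    refine le_antisymm ?_ ?_
    · rw [← hx₀]
      refine sup_le (by rw [hx₀]; exact le_sup_left.trans hx₀.le |>.trans le_rfl) ?_
      rw [span_singleton_le_iff_mem]
      exact add_mem (mem_sup_right (mem_span_singleton_self _)) (mem_sup_left ht)
    · refine hx₀.ge.trans (sup_le le_sup_left ?_)
      rw [span_singleton_le_iff_mem]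
      have := sub_mem (mem_sup_right (S := J * m) (mem_span_singleton_self (x₀ + t)))
        (mem_sup_left ht)
      simpa using this
  obtain ⟨b, hb⟩ := dvd_iff_le.2 (le_sup_right.trans h3.le)
  refine ⟨b, x₀ + t, ⟨?_, ?_⟩, hx ▸ p1, hx ▸ p2, hb.symm⟩
  · rw [hb, ← Ideal.mul_sup, sup_comm] at h3
    exact mul_left_cancel₀ hJ (by rw [h3, mul_top])
  · rintro rfl
    rw [mul_bot, span_singleton_eq_bot] at hb
    rw [← hx, hb] at p1
    simp at p1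

end R1b

open R1b

theorem r1_cI (h : RQ σ₁ σ₂ c) : ∀ I : Ideal (𝓞 K),
    cI c (cI c I) = I ∧ I * cI c I = span {(absNorm I : 𝓞 K)} := by
  intro I
  constructor
  · unfold cI
    rw [Ideal.map_map]
    have : (RingOfIntegers.mapRingEquiv c : 𝓞 K →+* 𝓞 K).comp
        (RingOfIntegers.mapRingEquiv c : 𝓞 K →+* 𝓞 K) = RingHom.id _ :=
      RingHom.ext fun x => RingOfIntegers.ext (cc h x)
    rw [this, Ideal.map_id]
  · have h1 : span {(absNorm I : 𝓞 K)} ≤ I * cI c I := by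
      have h2 := map_relNorm ℤ I (algebraMap ℤ (𝓞 K))
      rw [relNorm_int, Ideal.map_span, Set.image_singleton, map_natCast] at h2
      rw [h2, span_le]
      rintro _ ⟨x, hx, rfl⟩
      rw [Function.comp_apply, norm_eq h]
      exact mul_mem_mul hx (mem_map_of_mem _ hx)
    by_cases hI : I = ⊥
    · simp [hI]
    obtain ⟨C, hC⟩ := dvd_iff_le.2 h1
    have h3 := congrArg absNorm hC
    rw [absNorm_span_natCast, RingOfIntegers.rank, h.rank, map_mul, map_mul, absNorm_cI, ← sq]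
      at h3
    have h4 : absNorm C = 1 :=
      (mul_eq_left₀ (pow_ne_zero 2 (absNorm_eq_zero_iff.not.2 hI))).1 h3.symm
    rw [hC, absNorm_eq_one_iff.1 h4, mul_top]

theorem r1_split (h : RQ σ₁ σ₂ c) : ∃ N, ∀ p : Ideal (𝓞 K), Big N p → cI c p ≠ p ∧
    Big N (cI c p) ∧ absNorm (cI c p) = absNorm p ∧ p * cI c p = span {(absNorm p : 𝓞 K)} := by
  obtain ⟨x₀, hx₀⟩ : ∃ x₀ : 𝓞 K, x₀ - RingOfIntegers.mapRingEquiv c x₀ ≠ 0 := by
    by_contra hcon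
    push Not at hcon
    have h1 : ∀ x : 𝓞 K, c x = x := fun x =>
      (congrArg (fun y : 𝓞 K => (y : K)) (sub_eq_zero.1 (hcon x))).symm
    refine h.ne (RingHom.ext fun y => ?_)
    obtain ⟨a, b, -, rfl⟩ := IsFractionRing.div_surjective (A := 𝓞 K) y
    rw [← h.cnj₁, map_div₀]
    exact congrArg σ₁ (congrArg₂ _ (h1 a) (h1 b))
  refine ⟨absNorm (span {x₀ - RingOfIntegers.mapRingEquiv c x₀}), fun p hp => ⟨fun he => ?_,
    ⟨?_, absNorm_cI (c := c) p ▸ hp.2.1, absNorm_cI (c := c) p ▸ hp.2.2⟩, absNorm_cI p,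
    (r1_cI h p).2⟩⟩
  · have hfin : Finite (𝓞 K ⧸ p) := (absNorm_ne_zero_iff p).1 hp.2.1.ne_zero
    have := Fintype.ofFinite (𝓞 K ⧸ p)
    have : NeZero (absNorm p) := ⟨hp.2.1.ne_zero⟩
    have e := ZMod.ringEquivOfPrime (𝓞 K ⧸ p) hp.2.1
      (by rw [absNorm_apply, Submodule.cardQuot_apply, Nat.card_eq_fintype_card])
    obtain ⟨k, hk⟩ := ZMod.natCast_zmod_surjective (e.symm (Ideal.Quotient.mk p x₀))
    have h1 : x₀ - k ∈ p := by
      rw [← Ideal.Quotient.eq, map_natCast, ← map_natCast e, hk, RingEquiv.apply_symm_apply]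
    have h2 : RingOfIntegers.mapRingEquiv c x₀ - k ∈ p := by
      have : RingOfIntegers.mapRingEquiv c (x₀ - k) ∈ cI c p := mem_map_of_mem _ h1
      rwa [he, map_sub, map_natCast] at this
    have h3 : span {x₀ - RingOfIntegers.mapRingEquiv c x₀} ≤ p := by
      rw [span_singleton_le_iff_mem]
      simpa using sub_mem h1 h2
    have h4 := Nat.le_of_dvd (Nat.pos_of_ne_zero (absNorm_eq_zero_iff.not.2
      (span_singleton_eq_bot.not.2 hx₀))) (absNorm_dvd_absNorm_of_le h3)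
    exact absurd hp.2.2 (not_lt.2 h4)
  · have := hp.1
    exact Ideal.map_isMaximal_of_equiv (RingOfIntegers.mapRingEquiv c)

theorem r1_narrow (_h : RQ σ₁ σ₂ c)
    (hs : ∀ (Λ : Submodule ℤ K) (x : K) (s₁ s₂ : ℝ), IsLat Λ → s₁ ≠ 0 → s₂ ≠ 0 →
      ∃ y, y - x ∈ Λ ∧ 0 < s₁ * σ₁ y ∧ 0 < s₂ * σ₂ y)
    (hl : ∀ a : FractionalIdeal (𝓞 K)⁰ K, a ≠ 0 → IsLat (lat a)) :
    ∀ m : Ideal (𝓞 K), m ≠ ⊥ → ∃ S : Finset (Ideal (𝓞 K)), (∀ b ∈ S, Cop m b) ∧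
      ∀ a : FractionalIdeal (𝓞 K)⁰ K, a ≠ 0 → ∃ b ∈ S, ∃ α : K, 0 < σ₁ α ∧ 0 < σ₂ α ∧
        ∀ y, α * y ∈ a ↔ y ∈ dv 1 b := by
  classical
  intro m hm
  choose J hJ using ClassGroup.mk0_surjective (R := 𝓞 K)
  have hsg : ∀ s : Bool, (if s then 1 else -1 : ℝ) ≠ 0 := fun s => by cases s <;> simp
  choose b x hb using fun t : ClassGroup (𝓞 K) × Bool × Bool =>
    step hs hl hm (nonZeroDivisors.coe_ne_zero (J t.1)) (hsg t.2.1) (hsg t.2.2)
  refine ⟨Finset.univ.image b, fun b' hb' => ?_, fun a ha => ?_⟩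
  · obtain ⟨t, -, rfl⟩ := Finset.mem_image.1 hb'
    exact (hb t).1
  obtain ⟨d, I, hd, rfl⟩ := FractionalIdeal.exists_eq_spanSingleton_mul a
  have hI : I ≠ 0 := by rintro rfl; simp at ha
  set I' : (Ideal (𝓞 K))⁰ := ⟨I, mem_nonZeroDivisors_iff_ne_zero.2 hI⟩ with hI'
  obtain ⟨β, hβ, he⟩ := (ClassGroup.mk0_eq_mk0_iff_exists_fraction_ring K).1
    (hJ (ClassGroup.mk0 I'))
  set γ : K := (algebraMap (𝓞 K) K d)⁻¹ * β with hγ
  have hγ0 : γ ≠ 0 := mul_ne_zero (inv_ne_zero (by simpa using hd)) hβ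
  set t : ClassGroup (𝓞 K) × Bool × Bool :=
    (ClassGroup.mk0 I', decide (0 < σ₁ γ), decide (0 < σ₂ γ)) with ht
  obtain ⟨h1, h2, h3, h4⟩ := hb t
  have hsign : ∀ u v : ℝ, u ≠ 0 → 0 < (if decide (0 < u) then 1 else -1 : ℝ) * v → 0 < u * v := by
    intro u v hu huv
    by_cases h0 : 0 < u
    · simp only [h0, decide_true, if_true, one_mul] at huv
      exact mul_pos h0 huv
    · simp only [h0, decide_false, Bool.false_eq_true, if_false] at huv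
      exact mul_pos_of_neg_of_neg (lt_of_le_of_ne (not_lt.1 h0) hu) (by linarith)
  have p1 : 0 < σ₁ (γ * x t) := by
    rw [map_mul]; exact hsign _ _ ((map_ne_zero σ₁).2 hγ0) h2
  refine ⟨b t, Finset.mem_image_of_mem _ (Finset.mem_univ _), γ * x t, p1,
    by rw [map_mul]; exact hsign _ _ ((map_ne_zero σ₂).2 hγ0) h3, fun y => ?_⟩
  have hα : γ * x t ≠ 0 := fun h0 => by simp [h0] at p1
  have hb0 : (b t : FractionalIdeal (𝓞 K)⁰ K) ≠ 0 := FractionalIdeal.coeIdeal_ne_zero.2 h1.2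
  have h5 : FractionalIdeal.spanSingleton (𝓞 K)⁰ (algebraMap (𝓞 K) K d)⁻¹ * (I : FractionalIdeal _ K)
      = FractionalIdeal.spanSingleton (𝓞 K)⁰ (γ * x t) * dv 1 (b t) := by
    have h6 : (I : FractionalIdeal (𝓞 K)⁰ K) = (I' : Ideal (𝓞 K)) := rfl
    have h7 := congrArg (fun I : Ideal (𝓞 K) => (I : FractionalIdeal (𝓞 K)⁰ K)) h4
    simp only [FractionalIdeal.coeIdeal_mul, FractionalIdeal.coeIdeal_span_singleton] at h7
    rw [h6, ← he, ← mul_assoc, FractionalIdeal.spanSingleton_mul_spanSingleton, ← hγ,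
      ← FractionalIdeal.spanSingleton_mul_spanSingleton γ, dv, one_mul, ← h7, mul_assoc, mul_assoc,
      mul_inv_cancel₀ hb0, mul_one]
  rw [h5, FractionalIdeal.mem_singleton_mul]
  exact ⟨fun ⟨y', hy', e⟩ => mul_left_cancel₀ hα e ▸ hy', fun hy => ⟨y, hy, rfl⟩⟩

end Pool.Agent.Lib.Stark
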