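import Pool.Agent.Lib.stark.Defs1

open Complex MeasureTheory Filter Topology Set
open scoped Real ComplexConjugate

namespace Pool.Agent.Lib.Stark
namespace SH1

theorem den_bound (y : ℂ) (hy : |y.im| ≤ π) : ‖y‖ ≤ 3 * (1 + ‖y‖) * ‖1 - cexp (-y)‖ := by
  set a := y.re with ha
  set b := y.im with hb
  have hE : 0 < Real.exp (-a) := Real.exp_pos _
  have hsq : ‖1 - cexp (-y)‖ ^ 2 = (1 - Real.exp (-a)) ^ 2 + 2 * Real.exp (-a) * (1 - Real.cos b) := by
    rw [Complex.sq_norm, Complex.normSq_apply]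
    simp only [sub_re, one_re, exp_re, neg_re, neg_im, Real.cos_neg, sub_im, one_im, exp_im,
      Real.sin_neg, ← ha, ← hb]
    have := Real.sin_sq_add_cos_sq b
    linear_combination (Real.exp (-a)) ^ 2 * this
  have hcos : 2 / π ^ 2 * b ^ 2 ≤ 1 - Real.cos b := by
    have := Real.cos_le_one_sub_mul_cos_sq hy
    linarith
  have hn : ‖y‖ ^ 2 = a ^ 2 + b ^ 2 := by
    rw [Complex.sq_norm, Complex.normSq_apply]; ring
  have h1 : |a| / (1 + |a|) ≤ |1 - Real.exp (-a)| := by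
    rcases le_total 0 a with h | h
    · rw [abs_of_nonneg h]
      have h2 : a + 1 ≤ Real.exp a := Real.add_one_le_exp a
      have h3 : Real.exp (-a) * Real.exp a = 1 := by rw [← Real.exp_add]; simp
      have h4 : a / (1 + a) ≤ 1 - Real.exp (-a) := by
        rw [div_le_iff₀ (by linarith)]
        nlinarith
      exact h4.trans (le_abs_self _)
    · rw [abs_of_nonpos h]
      have h2 : -a + 1 ≤ Real.exp (-a) := Real.add_one_le_exp (-a)
      have h4 : -a / (1 + -a) ≤ -a := div_le_self (by linarith) (by linarith)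
      have h5 : -a ≤ |1 - Real.exp (-a)| := by
        rw [abs_sub_comm]; exact le_trans (by linarith) (le_abs_self _)
      linarith
  set N := ‖1 - cexp (-y)‖ with hN
  have hN0 : 0 ≤ N := norm_nonneg _
  have hy0 : 0 ≤ ‖y‖ := norm_nonneg _
  have hc0 : 0 ≤ 1 - Real.cos b := by linarith [Real.cos_le_one b]
  have hsq1 : (|a| / (1 + |a|)) ^ 2 ≤ (1 - Real.exp (-a)) ^ 2 := by
    rw [← sq_abs (1 - Real.exp (-a))]
    exact pow_le_pow_left₀ (by positivity) h1 2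
  rcases le_total 1 |a| with h | h
  · have h2 : (1 / 2 : ℝ) ≤ |a| / (1 + |a|) := by
      rw [le_div_iff₀ (by linarith)]; linarith
    have h3 : (1 / 2 : ℝ) ^ 2 ≤ N ^ 2 := by
      have : (1 / 2 : ℝ) ^ 2 ≤ (|a| / (1 + |a|)) ^ 2 := pow_le_pow_left₀ (by norm_num) h2 2
      have h5 : 0 ≤ 2 * Real.exp (-a) * (1 - Real.cos b) := by positivity
      linarith
    have h4 : (1 / 2 : ℝ) ≤ N := (pow_le_pow_iff_left₀ (by norm_num) hN0 two_ne_zero).1 h3
    nlinarith
  · have h2 : |a| / 2 ≤ |a| / (1 + |a|) :=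
      div_le_div_of_nonneg_left (abs_nonneg _) (by positivity) (by linarith)
    have h3 : a ^ 2 / 4 ≤ (1 - Real.exp (-a)) ^ 2 := by
      have : (|a| / 2) ^ 2 ≤ (|a| / (1 + |a|)) ^ 2 := pow_le_pow_left₀ (by positivity) h2 2
      rw [div_pow, sq_abs] at this
      linarith
    have h4 : (1 / 3 : ℝ) ≤ Real.exp (-a) := by
      have h5 : Real.exp (-1) ≤ Real.exp (-a) :=
        Real.exp_le_exp.2 (by linarith [le_abs_self a])
      have h6 := Real.exp_neg_one_gt_d9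
      linarith
    have h7 : (1 / 5 : ℝ) ≤ 2 / π ^ 2 := by
      rw [le_div_iff₀ (by positivity)]
      have := Real.pi_lt_d2
      have := Real.pi_pos
      nlinarith
    have h8 : b ^ 2 / 5 ≤ 1 - Real.cos b := by nlinarith [sq_nonneg b]
    have h9 : 2 / 15 * b ^ 2 ≤ 2 * Real.exp (-a) * (1 - Real.cos b) := by
      nlinarith [sq_nonneg b]
    have h10 : (‖y‖ / 3) ^ 2 ≤ N ^ 2 := by
      rw [div_pow, hn, hsq]; nlinarith [sq_nonneg a, sq_nonneg b]
    have h11 : ‖y‖ / 3 ≤ N := (pow_le_pow_iff_left₀ (by positivity) hN0 two_ne_zero).1 h10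
    nlinarith

theorem den_ne (y : ℂ) (hy : |y.im| ≤ π) (h0 : y ≠ 0) : 1 - cexp (-y) ≠ 0 := by
  intro h
  have := den_bound y hy
  rw [h, norm_zero, mul_zero] at this
  exact h0 (norm_le_zero_iff.1 this)

theorem inv_den_bound (y : ℂ) (hy : |y.im| ≤ π) (h0 : y ≠ 0) :
    ‖(1 - cexp (-y))⁻¹‖ ≤ 3 * (1 + ‖y‖⁻¹) := by
  have h1 := den_bound y hy
  have h2 : 0 < ‖1 - cexp (-y)‖ := norm_pos_iff.2 (den_ne y hy h0)
  have h3 : 0 < ‖y‖ := norm_pos_iff.2 h0
  rw [norm_inv, inv_le_iff_one_le_mul₀ h2]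
  have : 3 * (1 + ‖y‖⁻¹) * ‖1 - cexp (-y)‖ = (3 * (1 + ‖y‖) * ‖1 - cexp (-y)‖) / ‖y‖ := by
    field_simp; ring
  rw [this, le_div_iff₀ h3]; linarith

theorem ker_neg (z v w : ℝ) (u : ℂ) : ker2 z v w (-u) = ker2 (v + w - z) v w u := by
  unfold ker2
  have h1 : ∀ c : ℝ, 1 - cexp (-c * -u) = -cexp (c * u) * (1 - cexp (-c * u)) := by
    intro c
    have : cexp (c * u) * cexp (-c * u) = 1 := by rw [← Complex.exp_add]; simp
    rw [show -(c : ℂ) * -u = c * u by ring]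
    linear_combination -this
  rw [h1, h1, show ∀ a b c d : ℂ, -a * b * (-c * d) = (a * c) * (b * d) by intros; ring,
    ← div_div, ← Complex.exp_add, ← Complex.exp_sub]
  congr 2
  push_cast; ring

/-- Inverse denominator bound with a real multiplier. -/
theorem inv_den_bound' {v m : ℝ} (hm : 0 < m) (hv : m ≤ v) (u : ℂ) (hy : |u.im| * v ≤ π)
    (h0 : u ≠ 0) : 1 - cexp (-v * u) ≠ 0 ∧ ‖(1 - cexp (-v * u))⁻¹‖ ≤ 3 * (1 + (m * ‖u‖)⁻¹) := by
  have hv0 : 0 < v := hm.trans_le hv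
  have h1 : |((v : ℂ) * u).im| ≤ π := by
    simp only [mul_im, ofReal_re, ofReal_im, zero_mul, add_zero, abs_mul, abs_of_pos hv0]
    linarith
  have h2 : (v : ℂ) * u ≠ 0 := mul_ne_zero (ofReal_ne_zero.2 hv0.ne') h0
  have h3 : 0 < ‖u‖ := norm_pos_iff.2 h0
  rw [show -(v : ℂ) * u = -(v * u) by ring]
  refine ⟨den_ne _ h1 h2, (inv_den_bound _ h1 h2).trans ?_⟩
  rw [norm_mul, Complex.norm_real, Real.norm_of_nonneg hv0.le]
  gcongr

theorem ker_bound {z v w m : ℝ} (hm : 0 < m) (hv : m ≤ v) (hw : m ≤ w) (hz : m ≤ z)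
    (hz' : m ≤ v + w - z) (u : ℂ) (hyv : |u.im| * v ≤ π) (hyw : |u.im| * w ≤ π) (h0 : u ≠ 0) :
    ‖ker2 z v w u‖ ≤ 9 * (1 + (m * ‖u‖)⁻¹) ^ 2 * Real.exp (-m * |u.re|) := by
  have key : ∀ (z : ℝ) (u : ℂ), m ≤ z → |u.im| * v ≤ π → |u.im| * w ≤ π → u ≠ 0 → 0 ≤ u.re →
      ‖ker2 z v w u‖ ≤ 9 * (1 + (m * ‖u‖)⁻¹) ^ 2 * Real.exp (-m * |u.re|) := by
    intro z u hz hyv hyw h0 hre
    have h1 := (inv_den_bound' hm hv u hyv h0).2
    have h2 := (inv_den_bound' hm hw u hyw h0).2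
    have h3 : ‖cexp (-z * u)‖ ≤ Real.exp (-m * |u.re|) := by
      rw [Complex.norm_exp, abs_of_nonneg hre]
      apply Real.exp_le_exp.2
      simp only [neg_mul, neg_re, mul_re, ofReal_re, ofReal_im, zero_mul, sub_zero]
      nlinarith
    unfold ker2
    rw [div_eq_mul_inv, mul_inv, norm_mul, norm_mul]
    have h4 : 0 ≤ 1 + (m * ‖u‖)⁻¹ := by positivity
    calc _ ≤ Real.exp (-m * |u.re|) * (3 * (1 + (m * ‖u‖)⁻¹) * (3 * (1 + (m * ‖u‖)⁻¹))) := by
          gcongr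
      _ = _ := by ring
  rcases le_total 0 u.re with h | h
  · exact key z u hz hyv hyw h0 h
  · have := key (v + w - z) (-u) hz' (by simpa using hyv) (by simpa using hyw) (neg_ne_zero.2 h0)
      (by simpa using h)
    rw [ker_neg, show v + w - (v + w - z) = z by ring] at this
    simpa using this

theorem log_le_eps {ε y : ℝ} (hε : 0 < ε) (hy : 0 < y) : Real.log y ≤ ε * y + |Real.log ε| := by
  have h1 := Real.log_le_sub_one_of_pos (mul_pos hε hy)
  rw [Real.log_mul hε.ne' hy.ne'] at h1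
  have := neg_abs_le (Real.log ε)
  linarith

/-- Subexponential growth of complex powers on a horizontal strip. -/
theorem cpow_bound {a b R ε : ℝ} (ha : 0 < a) (hR : 0 < R) (hε : 0 < ε) :
    ∃ C : ℝ, 0 < C ∧ ∀ u c : ℂ, a ≤ ‖u‖ → |u.im| ≤ b → ‖c‖ ≤ R →
      ‖u ^ c‖ ≤ C * Real.exp (ε * |u.re|) := by
  refine ⟨Real.exp (R * (ε / R * b + |Real.log (ε / R)| + |Real.log a| + π)), Real.exp_pos _,
    fun u c hu hb hc => ?_⟩
  have h0 : 0 < ‖u‖ := ha.trans_le hu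
  have hu0 : u ≠ 0 := norm_pos_iff.1 h0
  rw [cpow_def_of_ne_zero hu0, Complex.norm_exp, ← Real.exp_add]
  apply Real.exp_le_exp.2
  have h1 : (log u * c).re ≤ ‖log u‖ * R := by
    refine (re_le_norm _).trans ?_
    rw [norm_mul]; gcongr
  have h2 : ‖log u‖ ≤ |Real.log ‖u‖| + π := by
    refine (norm_le_abs_re_add_abs_im _).trans ?_
    rw [log_re, log_im]
    linarith [abs_arg_le_pi u]
  have h3 : ‖u‖ ≤ |u.re| + b := (norm_le_abs_re_add_abs_im _).trans (by linarith)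
  have hεR : 0 < ε / R := div_pos hε hR
  have h4 : |Real.log ‖u‖| ≤ ε / R * (|u.re| + b) + |Real.log (ε / R)| + |Real.log a| := by
    have h5 := log_le_eps hεR h0
    have h6 : ε / R * ‖u‖ ≤ ε / R * (|u.re| + b) := by gcongr
    have h7 : Real.log a ≤ Real.log ‖u‖ := Real.log_le_log ha hu
    have h8 := neg_abs_le (Real.log a)
    have h9 : 0 ≤ ε / R * ‖u‖ := by positivity
    rw [abs_le]
    constructor
    · linarith [abs_nonneg (Real.log (ε / R))]
    · linarith [abs_nonneg (Real.log a)]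
  have h10 : ‖log u‖ * R ≤
      (ε / R * (|u.re| + b) + |Real.log (ε / R)| + |Real.log a| + π) * R := by
    gcongr; linarith
  have h11 : (ε / R * (|u.re| + b) + |Real.log (ε / R)| + |Real.log a| + π) * R =
      R * (ε / R * b + |Real.log (ε / R)| + |Real.log a| + π) + ε * |u.re| := by
    field_simp; ring
  linarith

theorem rpow_bound {B k ε : ℝ} (hB : 0 < B) (hk : 0 ≤ k) (hε : 0 < ε) :
    ∃ C : ℝ, 0 < C ∧ ∀ t : ℝ, 0 ≤ t → (t + B) ^ k ≤ C * Real.exp (ε * t) := by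
  obtain ⟨C, hC, h⟩ := cpow_bound (a := B) (b := 0) (R := k + 1) (ε := ε) hB (by linarith) hε
  refine ⟨C * Real.exp (ε * B), by positivity, fun t ht => ?_⟩
  have hp : 0 < t + B := by linarith
  have := h ((t + B : ℝ) : ℂ) (k : ℂ)
    (by rw [Complex.norm_real, Real.norm_of_nonneg hp.le]; linarith) (by simp)
    (by rw [Complex.norm_real, Real.norm_of_nonneg hk]; linarith)
  rw [norm_cpow_eq_rpow_re_of_pos hp, ofReal_re, ofReal_re, abs_of_pos hp, mul_add, Real.exp_add]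
    at this
  linarith

theorem integrable_exp_abs {δ : ℝ} (hδ : 0 < δ) : Integrable fun t : ℝ => Real.exp (-δ * |t|) := by
  have h1 : IntegrableOn (fun t : ℝ => Real.exp (-δ * |t|)) (Ioi 0) := by
    refine (exp_neg_integrableOn_Ioi 0 hδ).congr_fun (fun t ht => ?_) measurableSet_Ioi
    simp only [abs_of_pos (mem_Ioi.1 ht)]
  have h2 : IntegrableOn (fun t : ℝ => Real.exp (-δ * |t|)) (Iic 0) := by
    refine (integrableOn_exp_mul_Iic hδ 0).congr_fun (fun t ht => ?_) measurableSet_Iic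
    simp only [abs_of_nonpos (mem_Iic.1 ht)]
    congr 1; ring
  rw [← integrableOn_univ, ← Iic_union_Ioi (a := (0 : ℝ))]
  exact h2.union h1

/-- The integrand of the continued Mellin transform. -/
noncomputable def kc (z v w : ℝ) (c : ℂ) (u : ℂ) : ℂ := ker2 z v w u * u ^ c

theorem ker_diffAt {z v w m : ℝ} (hm : 0 < m) (hv : m ≤ v) (hw : m ≤ w) (u : ℂ)
    (hyv : |u.im| * v ≤ π) (hyw : |u.im| * w ≤ π) (h0 : u ≠ 0) :
    DifferentiableAt ℂ (ker2 z v w) u := by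
  have h1 := (inv_den_bound' hm hv u hyv h0).1
  have h2 := (inv_den_bound' hm hw u hyw h0).1
  unfold ker2
  refine DifferentiableAt.div (by fun_prop) (by fun_prop) (mul_ne_zero h1 h2)

theorem kc_bound {a b R m : ℝ} (ha : 0 < a) (hR : 0 < R) (hm : 0 < m) :
    ∃ C : ℝ, 0 < C ∧ ∀ (z v w : ℝ) (u c : ℂ), m ≤ v → m ≤ w → m ≤ z → m ≤ v + w - z →
      b * v ≤ π → b * w ≤ π → a ≤ ‖u‖ → |u.im| ≤ b → ‖c‖ ≤ R →
      ‖kc z v w c u‖ ≤ C * Real.exp (-(m / 2) * |u.re|) := by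
  obtain ⟨C, hC, h⟩ := cpow_bound (b := b) (ε := m / 2) ha hR (by linarith)
  refine ⟨9 * (1 + (m * a)⁻¹) ^ 2 * C, by positivity,
    fun z v w u c hv hw hz hz' hbv hbw hu hb hc => ?_⟩
  have h0 : u ≠ 0 := norm_pos_iff.1 (ha.trans_le hu)
  have h1 := ker_bound hm hv hw hz hz' u (le_trans (by gcongr; linarith) hbv)
    (le_trans (by gcongr; linarith) hbw) h0
  have h2 := h u c hu hb hc
  unfold kc
  rw [norm_mul]
  calc _ ≤ 9 * (1 + (m * ‖u‖)⁻¹) ^ 2 * Real.exp (-m * |u.re|) * (C * Real.exp (m / 2 * |u.re|)) := by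
        gcongr
    _ ≤ 9 * (1 + (m * a)⁻¹) ^ 2 * Real.exp (-m * |u.re|) * (C * Real.exp (m / 2 * |u.re|)) := by
        gcongr
    _ = _ := by
        rw [show -(m / 2) * |u.re| = -m * |u.re| + m / 2 * |u.re| by ring, Real.exp_add]; ring

theorem kc_adm {z v w m η₀ : ℝ} (hm : 0 < m) (hv : m ≤ v) (hw : m ≤ w) (hz : m ≤ z)
    (hz' : m ≤ v + w - z) (h0 : 0 < η₀) (hηv : η₀ * v ≤ π) (hηw : η₀ * w ≤ π) (c : ℂ) :
    Adm η₀ (kc z v w c) := by
  refine ⟨h0, fun u hu => ?_, fun a b ha hb => ?_⟩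
  · obtain ⟨h1, h2⟩ := hu
    have hne : u ≠ 0 := fun h => by simp [h] at h2
    have h3 : |u.im| ≤ η₀ := by rw [abs_le]; constructor <;> linarith
    refine DifferentiableAt.differentiableWithinAt ?_
    unfold kc
    refine (ker_diffAt hm hv hw u (le_trans (by gcongr; linarith) hηv)
      (le_trans (by gcongr; linarith) hηw) hne).mul ?_
    exact differentiableAt_id.cpow_const (Or.inr h2.ne)
  · obtain ⟨C, hC, h⟩ := kc_bound (a := a) (b := η₀) (R := ‖c‖ + 1) ha (by positivity) hm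
    refine ⟨C, m / 2, by linarith, fun u h1 h2 => h z v w u c hv hw hz hz' hηv hηw ?_ ?_ (by linarith)⟩
    · refine le_trans ?_ (abs_im_le_norm u)
      rw [abs_of_neg (by linarith)]; linarith
    · rw [abs_le]; constructor <;> linarith

end SH1
end Pool.Agent.Lib.Stark
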