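import Pool.Agent.Lib.stark.SH1a

open Complex MeasureTheory Filter Topology Set
open scoped Real ComplexConjugate

namespace Pool.Agent.Lib.Stark
namespace SH1

theorem ker_hasSum {z v w : ℝ} (hv : 0 < v) (hw : 0 < w) {t : ℝ} (ht : 0 < t) :
    HasSum (fun p : ℕ × ℕ => (1 : ℂ) * (Real.exp (-(z + p.1 * v + p.2 * w) * t) : ℝ))
      (ker2 z v w t) := by
  have hg : ∀ c : ℝ, 0 < c → ‖cexp (-c * t)‖ < 1 := by
    intro c hc
    rw [Complex.norm_exp, Real.exp_lt_one_iff]
    simp only [neg_mul, neg_re, mul_re, ofReal_re, ofReal_im, mul_zero, sub_zero]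
    nlinarith [mul_pos hc ht]
  have h1 := hasSum_geometric_of_norm_lt_one (hg v hv)
  have h2 := hasSum_geometric_of_norm_lt_one (hg w hw)
  have h3 : Summable fun p : ℕ × ℕ => cexp (-v * t) ^ p.1 * cexp (-w * t) ^ p.2 := by
    refine summable_mul_of_summable_norm (f := fun n : ℕ => cexp (-v * t) ^ n)
      (g := fun n : ℕ => cexp (-w * t) ^ n) ?_ ?_
    · simp_rw [norm_pow]; exact summable_geometric_of_lt_one (norm_nonneg _) (hg v hv)
    · simp_rw [norm_pow]; exact summable_geometric_of_lt_one (norm_nonneg _) (hg w hw)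
  have h4 := (h1.mul h2 h3).mul_left (cexp (-z * t))
  have h5 : (fun p : ℕ × ℕ => (1 : ℂ) * (Real.exp (-(z + p.1 * v + p.2 * w) * t) : ℝ)) =
      fun p : ℕ × ℕ => cexp (-z * t) * (cexp (-v * t) ^ p.1 * cexp (-w * t) ^ p.2) := by
    funext p
    rw [← Complex.exp_nat_mul, ← Complex.exp_nat_mul, ← Complex.exp_add, ← Complex.exp_add, one_mul,
      Complex.ofReal_exp]
    congr 1; push_cast; ring
  rw [h5]
  unfold ker2
  rw [div_eq_mul_inv, mul_inv]
  exact h4

/-- The summable majorant. -/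
noncomputable def maj (σ : ℝ) (p : ℕ × ℕ) : ℝ := ((p.1 : ℝ) + 1) ^ (-σ) * ((p.2 : ℝ) + 1) ^ (-σ)

theorem maj_summable {σ : ℝ} (hσ : 1 < σ) : Summable (maj σ) := by
  have h1 : Summable fun n : ℕ => ((n : ℝ) + 1) ^ (-σ) := by
    have := (Real.summable_nat_rpow.2 (show -σ < -1 by linarith))
    have h2 := (summable_nat_add_iff 1).2 this
    simpa using h2
  exact h1.mul_of_nonneg h1 (fun n => by positivity) (fun n => by positivity)

theorem lin_lower {z v w m : ℝ} (hv : m ≤ v) (hw : m ≤ w) (hz : m ≤ z) (p : ℕ × ℕ) :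
    m * (1 + p.1 + p.2) ≤ z + p.1 * v + p.2 * w := by
  have h1 : (0 : ℝ) ≤ p.1 := Nat.cast_nonneg _
  have h2 : (0 : ℝ) ≤ p.2 := Nat.cast_nonneg _
  nlinarith [mul_le_mul_of_nonneg_left hv h1, mul_le_mul_of_nonneg_left hw h2]

theorem prod_le_maj {a b m σ : ℝ} (hm : 0 < m) (hσ : 0 ≤ σ) (p : ℕ × ℕ)
    (ha : m * (1 + p.1 + p.2) ≤ a) (hb : m * (1 + p.1 + p.2) ≤ b) :
    (a * b) ^ (-σ) ≤ (m ^ 2) ^ (-σ) * maj σ p := by
  have h1 : (0 : ℝ) ≤ p.1 := Nat.cast_nonneg _
  have h2 : (0 : ℝ) ≤ p.2 := Nat.cast_nonneg _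
  unfold maj
  rw [← Real.mul_rpow (by positivity) (by positivity), ← Real.mul_rpow (by positivity) (by positivity)]
  refine Real.rpow_le_rpow_of_nonpos (by positivity) ?_ (by linarith)
  have h3 : m * (p.1 + 1) ≤ a :=
    le_trans (mul_le_mul_of_nonneg_left (by linarith) hm.le) ha
  have h4 : m * (p.2 + 1) ≤ b :=
    le_trans (mul_le_mul_of_nonneg_left (by linarith) hm.le) hb
  calc m ^ 2 * ((p.1 + 1) * (p.2 + 1)) = (m * (p.1 + 1)) * (m * (p.2 + 1)) := by ring
    _ ≤ a * b := mul_le_mul h3 h4 (by positivity) (le_trans (by positivity) h3)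

theorem sq_le_maj {a m σ : ℝ} (hm : 0 < m) (hσ : 0 ≤ σ) (p : ℕ × ℕ)
    (ha : m * (1 + p.1 + p.2) ≤ a) : a ^ (-(2 * σ)) ≤ (m ^ 2) ^ (-σ) * maj σ p := by
  have h0 : 0 < a := lt_of_lt_of_le (by positivity) ha
  have := prod_le_maj hm hσ p ha ha
  rwa [Real.mul_rpow h0.le h0.le, ← Real.rpow_add h0, show -σ + -σ = -(2 * σ) by ring] at this

/-- The Mellin transform of the kernel. -/
noncomputable def mel (z v w : ℝ) (c : ℂ) : ℂ := mellin (fun t : ℝ => ker2 z v w t) c

theorem mel_hasSum {z v w m : ℝ} (hm : 0 < m) (hv : m ≤ v) (hw : m ≤ w) (hz : m ≤ z) {s : ℂ}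
    (hs : 1 < s.re) :
    HasSum (fun p : ℕ × ℕ => Gamma (2 * s) * ((z + p.1 * v + p.2 * w : ℝ) : ℂ) ^ (-(2 * s)))
      (mel z v w (2 * s)) := by
  have hp : ∀ p : ℕ × ℕ, 0 < z + p.1 * v + p.2 * w := fun p =>
    lt_of_lt_of_le (by positivity) (lin_lower hv hw hz p)
  have h := hasSum_mellin (a := fun _ : ℕ × ℕ => (1 : ℂ)) (p := fun p => z + p.1 * v + p.2 * w)
    (F := fun t : ℝ => ker2 z v w t) (s := 2 * s) (fun p => Or.inr (hp p)) (by simp; linarith)
    (fun t ht => ker_hasSum (hm.trans_le hv) (hm.trans_le hw) ht) ?_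
  · simp only [cpow_neg, mul_one, div_eq_mul_inv] at h ⊢
    exact h
  · refine Summable.of_nonneg_of_le (fun p => by have := hp p; positivity) (fun p => ?_)
      ((maj_summable hs).mul_left ((m ^ 2) ^ (-s.re)))
    have := sq_le_maj hm (σ := s.re) (by linarith) p (lin_lower hv hw hz p)
    rw [Real.rpow_neg (hp p).le] at this
    simpa using this

/-- Half line integral. -/
noncomputable def half (z v w : ℝ) (c : ℂ) (η : ℝ) : ℂ :=
  ∫ t in Ioi (0 : ℝ), kc z v w c (t + η * I) / (t + η * I)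

theorem half_zero (z v w : ℝ) (c : ℂ) : half z v w c 0 = mel z v w c := by
  unfold half mel mellin kc
  refine setIntegral_congr_fun measurableSet_Ioi fun t ht => ?_
  have h0 : (t : ℂ) ≠ 0 := ofReal_ne_zero.2 (ne_of_gt ht)
  simp only [ofReal_zero, zero_mul, add_zero, smul_eq_mul]
  rw [cpow_sub _ _ h0, cpow_one]; ring

theorem kc_contAt {z v w m : ℝ} (hm : 0 < m) (hv : m ≤ v) (hw : m ≤ w) (c u : ℂ)
    (hyv : |u.im| * v ≤ π) (hyw : |u.im| * w ≤ π) (h0 : u ∈ slitPlane) :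
    ContinuousAt (fun u => kc z v w c u / u) u := by
  have hne := slitPlane_ne_zero h0
  unfold kc
  exact (((ker_diffAt hm hv hw u hyv hyw hne).mul
    (differentiableAt_id.cpow_const h0)).div differentiableAt_id hne).continuousAt

theorem half_cont {z v w m : ℝ} (hm : 0 < m) (hv : m ≤ v) (hw : m ≤ w) (hz : m ≤ z)
    (hz' : m ≤ v + w - z) {c : ℂ} (hc : 2 < c.re) : ContinuousAt (half z v w c) 0 := by
  have hv0 : 0 < v := hm.trans_le hv
  have hw0 : 0 < w := hm.trans_le hw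
  set b := π / (v + w) with hb
  have hb0 : 0 < b := by positivity
  have hbv : b * v ≤ π := by
    rw [hb, div_mul_eq_mul_div, div_le_iff₀ (by positivity)]; nlinarith [Real.pi_pos]
  have hbw : b * w ≤ π := by
    rw [hb, div_mul_eq_mul_div, div_le_iff₀ (by positivity)]; nlinarith [Real.pi_pos]
  set e := max 0 (3 - c.re) with he
  have he0 : 0 ≤ e := le_max_left _ _
  have he1 : e < 1 := max_lt one_pos (by linarith)
  have hk : 0 ≤ c.re - 3 + e := by linarith [le_max_right 0 (3 - c.re)]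
  obtain ⟨C, hC, hCb⟩ := rpow_bound (B := b + m⁻¹) (k := c.re - 3 + e + 2) (ε := m / 2)
    (by positivity) (by linarith) (by linarith)
  have hev : ∀ᶠ η : ℝ in 𝓝 0, |η| ≤ b := by
    filter_upwards [Icc_mem_nhds (show -b < 0 by linarith) hb0] with η hη using abs_le.2 hη
  have hsl : ∀ t η : ℝ, 0 < t → (t : ℂ) + η * I ∈ slitPlane := fun t η ht => Or.inl (by simpa)
  have hca : ∀ t η : ℝ, 0 < t → |η| ≤ b →
      ContinuousAt (fun u => kc z v w c u / u) (t + η * I) := by
    intro t η ht hη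
    refine kc_contAt hm hv hw c _ ?_ ?_ (hsl t η ht)
    · simpa using le_trans (by gcongr) hbv
    · simpa using le_trans (by gcongr) hbw
  refine continuousAt_of_dominated
    (bound := fun t => 9 * Real.exp (π * |c.im|) * C * (t ^ (-e) * Real.exp (-(m / 2) * t ^ (1 : ℝ))))
    ?_ ?_ ?_ ?_
  · filter_upwards [hev] with η hη
    refine ContinuousOn.aestronglyMeasurable (fun t ht => ?_) measurableSet_Ioi
    exact (ContinuousAt.comp (f := fun t : ℝ => (t : ℂ) + η * I) (hca t η ht hη)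
      (by fun_prop)).continuousWithinAt
  · filter_upwards [hev] with η hη
    refine (ae_restrict_iff' measurableSet_Ioi).2 (ae_of_all _ fun t ht => ?_)
    have ht0 : 0 < t := ht
    set u : ℂ := t + η * I with hu
    have hure : u.re = t := by simp [hu]
    have huim : u.im = η := by simp [hu]
    have hne : u ≠ 0 := slitPlane_ne_zero (hsl t η ht0)
    have hn0 : 0 < ‖u‖ := norm_pos_iff.2 hne
    have hn1 : t ≤ ‖u‖ := hure ▸ re_le_norm u
    have hn2 : ‖u‖ ≤ t + b := by
      refine (norm_le_abs_re_add_abs_im u).trans ?_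
      rw [hure, huim, abs_of_pos ht0]; linarith
    have h1 := ker_bound hm hv hw hz hz' u (by rw [huim]; exact le_trans (by gcongr) hbv)
      (by rw [huim]; exact le_trans (by gcongr) hbw) hne
    rw [hure, abs_of_pos ht0] at h1
    have h2 : ‖u ^ c‖ ≤ ‖u‖ ^ c.re * Real.exp (π * |c.im|) := by
      rw [norm_cpow_of_ne_zero hne, div_eq_mul_inv, ← Real.exp_neg]
      gcongr
      refine (neg_le_abs _).trans ?_
      rw [abs_mul]; gcongr; exact abs_arg_le_pi u
    have h3 : (1 + (m * ‖u‖)⁻¹) ^ 2 * ‖u‖ ^ c.re / ‖u‖ =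
        (‖u‖ + m⁻¹) ^ (2 : ℝ) * ‖u‖ ^ (c.re - 3 + e) * ‖u‖ ^ (-e) := by
      rw [mul_assoc, ← Real.rpow_add hn0, show c.re - 3 + e + -e = c.re - (3 : ℕ) by push_cast; ring,
        Real.rpow_sub hn0, Real.rpow_natCast, Real.rpow_two]
      field_simp
    have h4 : (‖u‖ + m⁻¹) ^ (2 : ℝ) * ‖u‖ ^ (c.re - 3 + e) ≤ C * Real.exp (m / 2 * t) := by
      refine le_trans ?_ (hCb t ht0.le)
      have hp : 0 < t + (b + m⁻¹) := by positivity
      rw [Real.rpow_add hp, mul_comm]
      have : 0 < m⁻¹ := by positivity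
      exact mul_le_mul (Real.rpow_le_rpow hn0.le (by linarith) hk)
        (Real.rpow_le_rpow (by positivity) (by linarith) (by norm_num)) (by positivity)
        (by positivity)
    have h5 : ‖u‖ ^ (-e) ≤ t ^ (-e) := Real.rpow_le_rpow_of_nonpos ht0 hn1 (by linarith)
    unfold kc
    rw [norm_div, norm_mul, Real.rpow_one]
    calc _ ≤ 9 * (1 + (m * ‖u‖)⁻¹) ^ 2 * Real.exp (-m * t) *
          (‖u‖ ^ c.re * Real.exp (π * |c.im|)) / ‖u‖ := by gcongr
      _ = 9 * Real.exp (π * |c.im|) * Real.exp (-m * t) *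
          ((1 + (m * ‖u‖)⁻¹) ^ 2 * ‖u‖ ^ c.re / ‖u‖) := by ring
      _ ≤ 9 * Real.exp (π * |c.im|) * Real.exp (-m * t) *
          (C * Real.exp (m / 2 * t) * t ^ (-e)) := by rw [h3]; gcongr
      _ = _ := by
          rw [show -(m / 2) * t = -m * t + m / 2 * t by ring, Real.exp_add]; ring
  · exact (integrableOn_rpow_mul_exp_neg_mul_rpow (by linarith) one_pos (by linarith)).const_mul _
  · refine (ae_restrict_iff' measurableSet_Ioi).2 (ae_of_all _ fun t ht => ?_)
    exact ContinuousAt.comp (f := fun η : ℝ => (t : ℂ) + η * I) (hca t 0 ht (by simpa using hb0.le))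
      (by fun_prop)

theorem kc_neg (z v w : ℝ) (c x : ℂ) (hx : 0 < x.im) :
    kc z v w c (-x) / (-x) = -cexp (-(π * I * c)) * (kc (v + w - z) v w c x / x) := by
  have hne : x ≠ 0 := fun h => by simp [h] at hx
  unfold kc
  have h1 : (-x) ^ c = cexp (-(π * I * c)) * x ^ c := by
    rw [cpow_def_of_ne_zero hne, cpow_def_of_ne_zero (neg_ne_zero.2 hne), ← Complex.exp_add]
    congr 1
    unfold Complex.log
    rw [arg_neg_eq_arg_sub_pi_of_im_pos hx, norm_neg]
    push_cast; ring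
  rw [ker_neg, h1]
  field_simp

theorem line_eq (hL : StmtLine) {z v w m η₀ : ℝ} (hm : 0 < m) (hv : m ≤ v) (hw : m ≤ w)
    (hz : m ≤ z) (hz' : m ≤ v + w - z) (hηv : η₀ * v ≤ π) (hηw : η₀ * w ≤ π) {c : ℂ}
    (hc : 2 < c.re) {η : ℝ} (h0 : 0 < η) (h1 : η < η₀) :
    lineInt (kc z v w c) η = mel z v w c - cexp (-(π * I * c)) * mel (v + w - z) v w c := by
  have hA := kc_adm hm hv hw hz hz' (h0.trans h1) hηv hηw c
  have hsplit : ∀ η' : ℝ, 0 < η' → η' < η₀ → lineInt (kc z v w c) η =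
      half z v w c (-η') - cexp (-(π * I * c)) * half (v + w - z) v w c η' := by
    intro η' h2 h3
    rw [(hL η₀ _ hA η h0 h1).2 η' h2 h3]
    have hI := (hL η₀ _ hA η' h2 h3).1
    unfold lineInt half
    rw [← intervalIntegral.integral_Iic_add_Ioi hI.integrableOn hI.integrableOn (b := 0), add_comm,
      sub_eq_add_neg (∫ t in Ioi (0 : ℝ), _), ← neg_mul, ← integral_const_mul]
    congr 1
    · refine setIntegral_congr_fun measurableSet_Ioi fun t _ => ?_
      simp only [ofReal_neg, neg_mul, ← sub_eq_add_neg]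
    · have := integral_comp_neg_Ioi 0
        (fun x : ℝ => kc z v w c (x - η' * I) / (x - η' * I))
      rw [neg_zero] at this
      rw [← this]
      refine setIntegral_congr_fun measurableSet_Ioi fun t _ => ?_
      have h4 := kc_neg z v w c (t + η' * I) (by simpa using h2)
      simp only [ofReal_neg]
      rw [← h4]
      congr 2 <;> ring
  have hc1 := half_cont hm hv hw hz hz' hc
  have hc2 := half_cont hm hv hw hz' (z := v + w - z) (by linarith) hc
  have hlim : Tendsto (fun η' : ℝ => half z v w c (-η') -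
      cexp (-(π * I * c)) * half (v + w - z) v w c η') (𝓝[>] 0)
      (𝓝 (mel z v w c - cexp (-(π * I * c)) * mel (v + w - z) v w c)) := by
    refine Tendsto.mono_left ?_ nhdsWithin_le_nhds
    rw [← half_zero, ← half_zero]
    refine Tendsto.sub ?_ (hc2.tendsto.const_mul _)
    refine hc1.tendsto.comp ?_
    simpa using (continuous_neg (G := ℝ)).tendsto 0
  refine tendsto_nhds_unique (l := 𝓝[>] (0 : ℝ)) ?_ hlim
  refine tendsto_const_nhds.congr' ?_
  filter_upwards [Ioo_mem_nhdsGT (h0.trans h1)] with η' hη' using hsplit η' hη'.1 hη'.2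

end SH1
end Pool.Agent.Lib.Stark
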