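import Pool.Agent.Lib.stark.SH1b

open Complex MeasureTheory Filter Topology Set
open scoped Real ComplexConjugate

namespace Pool.Agent.Lib.Stark
namespace SH1

/-- Convex combination. -/
def cv (a b x : ℝ) : ℝ := x * a + (1 - x) * b

/-- Beta integrand. -/
noncomputable def bt (s t : ℂ) (x : ℝ) : ℂ := (x : ℂ) ^ (s - 1) * (1 - (x : ℂ)) ^ (t - 1)

theorem le_cv {a b m x : ℝ} (ha : m ≤ a) (hb : m ≤ b) (hx : x ∈ Icc (0 : ℝ) 1) :
    m ≤ cv a b x := by
  unfold cv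
  nlinarith [mul_le_mul_of_nonneg_left ha hx.1,
    mul_le_mul_of_nonneg_left hb (sub_nonneg.2 hx.2)]

theorem cv_le {a b m k x : ℝ} (ha : k * a ≤ m) (hb : k * b ≤ m) (hx : x ∈ Icc (0 : ℝ) 1) :
    k * cv a b x ≤ m := by
  unfold cv
  nlinarith [mul_le_mul_of_nonneg_left ha hx.1,
    mul_le_mul_of_nonneg_left hb (sub_nonneg.2 hx.2)]

theorem cv_star (z₁ v₁ w₁ z₂ v₂ w₂ x : ℝ) : cv v₁ v₂ x + cv w₁ w₂ x - cv z₁ z₂ x =
    cv (v₁ + w₁ - z₁) (v₂ + w₂ - z₂) x := by unfold cv; ring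

theorem bt_cont {s t : ℂ} (hs : 1 < s.re) (ht : 1 < t.re) : Continuous (bt s t) := by
  have h1 : Continuous fun x : ℝ => (x : ℂ) ^ (s - 1) :=
    continuous_ofReal_cpow_const (by simp; linarith)
  have h2 : Continuous fun x : ℝ => (x : ℂ) ^ (t - 1) :=
    continuous_ofReal_cpow_const (by simp; linarith)
  have h3 := h2.comp (show Continuous fun x : ℝ => 1 - x by fun_prop)
  refine h1.mul (h3.congr fun x => ?_)
  simp

theorem bt_norm (s t : ℂ) {x : ℝ} (hx : x ∈ Ioo (0 : ℝ) 1) :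
    ‖bt s t x‖ = x ^ (s.re - 1) * (1 - x) ^ (t.re - 1) := by
  unfold bt
  rw [norm_mul, norm_cpow_eq_rpow_re_of_pos hx.1,
    show 1 - (x : ℂ) = ((1 - x : ℝ) : ℂ) by simp, norm_cpow_eq_rpow_re_of_pos (sub_pos.2 hx.2)]
  simp

theorem rc {r : ℝ} (hr : 0 < r) (c : ℂ) : (r : ℂ) ^ c = cexp (Real.log r * c) := by
  rw [cpow_def_of_ne_zero (ofReal_ne_zero.2 hr.ne'), ofReal_log hr.le]

theorem feynman {a b : ℝ} (ha : 0 < a) (hb : 0 < b) {s : ℂ} (hs : 1 < s.re) :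
    ∫ x in (0 : ℝ)..1, bt s s x * ((cv a b x : ℝ) : ℂ) ^ (-(2 * s)) =
      betaIntegral s s * ((a * b : ℝ) : ℂ) ^ (-s) := by
  have hD : ∀ x ∈ uIcc (0 : ℝ) 1, 0 < cv a b x := fun x hx =>
    (lt_min ha hb).trans_le (le_cv (min_le_left _ _) (min_le_right _ _)
      (by rwa [uIcc_of_le zero_le_one] at hx))
  have hcv : ∀ x, HasDerivAt (cv a b) (a - b) x := fun x => by
    unfold cv
    have := ((hasDerivAt_id x).mul_const a).add (((hasDerivAt_id x).const_sub 1).mul_const b)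
    refine this.congr_deriv ?_
    ring
  have h := intervalIntegral.integral_deriv_smul_comp (a := 0) (b := 1)
    (f := fun x => x * a / cv a b x) (f' := fun x => a * b / cv a b x ^ 2) (g := bt s s)
    (fun x hx => ?_) ?_ (bt_cont hs hs)
  · have e0 : (0 : ℝ) * a / cv a b 0 = 0 := by simp
    have e1 : (1 : ℝ) * a / cv a b 1 = 1 := by simp [cv, ha.ne']
    simp only [e0, e1] at h
    have e2 : betaIntegral s s = ∫ x in (0 : ℝ)..1, bt s s x := rfl
    rw [e2, ← h, ← intervalIntegral.integral_mul_const]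
    refine intervalIntegral.integral_congr fun x hx => ?_
    have h1 := hD x hx
    rw [uIcc_of_le zero_le_one] at hx
    have h2 : 1 - ((x * a / cv a b x : ℝ) : ℂ) =
        ((1 - x : ℝ) : ℂ) * ((b / cv a b x : ℝ) : ℂ) := by
      have : 1 - x * a / cv a b x = (1 - x) * (b / cv a b x) := by
        field_simp; unfold cv; ring
      exact_mod_cast this
    have h3 : ((x * a / cv a b x : ℝ) : ℂ) = (x : ℂ) * ((a / cv a b x : ℝ) : ℂ) := by
      push_cast; ring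
    have h4 : ((a * b / cv a b x ^ 2 : ℝ) : ℂ) =
        cexp (Real.log a + Real.log b - 2 * Real.log (cv a b x)) := by
      have : a * b / cv a b x ^ 2 =
          Real.exp (Real.log a + Real.log b - 2 * Real.log (cv a b x)) := by
        rw [Real.exp_sub, Real.exp_add, two_mul, Real.exp_add, Real.exp_log ha, Real.exp_log hb,
          Real.exp_log h1, sq]
      rw [this]; push_cast; rfl
    simp only [Function.comp, bt, real_smul]
    rw [h2, h3, mul_cpow_ofReal_nonneg hx.1 (by positivity),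
      mul_cpow_ofReal_nonneg (sub_nonneg.2 hx.2) (by positivity), h4, rc h1, rc (mul_pos ha hb),
      rc (div_pos ha h1), rc (div_pos hb h1), Real.log_div ha.ne' h1.ne',
      Real.log_div hb.ne' h1.ne', Real.log_mul ha.ne' hb.ne']
    have h5 : cexp (Real.log (cv a b x) * -(2 * s)) =
        cexp (Real.log a + Real.log b - 2 * Real.log (cv a b x)) *
        cexp ((Real.log a - Real.log (cv a b x) : ℝ) * (s - 1)) *
        cexp ((Real.log b - Real.log (cv a b x) : ℝ) * (s - 1)) *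
        cexp ((Real.log a + Real.log b : ℝ) * -s) := by
      rw [← Complex.exp_add, ← Complex.exp_add, ← Complex.exp_add]
      congr 1; push_cast; ring
    rw [h5]; push_cast; ring
  · have h1 := hD x hx
    have := ((hasDerivAt_id x).mul_const a).div (hcv x) h1.ne'
    refine this.congr_deriv ?_
    simp only [id]
    congr 1; unfold cv; ring
  · refine ContinuousOn.div continuousOn_const ?_ fun x hx => (pow_pos (hD x hx) 2).ne'
    unfold cv; fun_prop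

theorem swap {F : ℕ × ℕ → ℝ → ℂ} {b : ℕ × ℕ → ℝ} (hF : ∀ p, ContinuousOn (F p) (Icc 0 1))
    (hb : Summable b) (hFb : ∀ p x, x ∈ Icc (0 : ℝ) 1 → ‖F p x‖ ≤ b p) :
    HasSum (fun p => ∫ x in (0 : ℝ)..1, F p x) (∫ x in (0 : ℝ)..1, ∑' p, F p x) := by
  simp only [intervalIntegral.integral_of_le zero_le_one]
  have hI : ∀ p, IntegrableOn (F p) (Ioc 0 1) := fun p =>
    ((hF p).integrableOn_Icc).mono_set Ioc_subset_Icc_self
  refine hasSum_integral_of_summable_integral_norm hI ?_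
  refine Summable.of_nonneg_of_le (fun p => integral_nonneg fun x => norm_nonneg _) (fun p => ?_) hb
  have := setIntegral_mono_on (μ := volume) (s := Ioc (0 : ℝ) 1) (f := fun x => ‖F p x‖)
    (g := fun _ => b p) (hI p).norm (by simp) measurableSet_Ioc
    (fun x hx => hFb p x (Ioc_subset_Icc_self hx))
  simpa using this

theorem sh_summable {z₁ v₁ w₁ z₂ v₂ w₂ m : ℝ} (hm : 0 < m) (hv₁ : m ≤ v₁) (hw₁ : m ≤ w₁)
    (hz₁ : m ≤ z₁) (hv₂ : m ≤ v₂) (hw₂ : m ≤ w₂) (hz₂ : m ≤ z₂) {s : ℂ} (hs : 1 < s.re) :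
    Summable (shTerm z₁ v₁ w₁ z₂ v₂ w₂ s) := by
  refine Summable.of_norm_bounded ((maj_summable hs).mul_left ((m ^ 2) ^ (-s.re))) fun p => ?_
  have h1 := lin_lower hv₁ hw₁ hz₁ p
  have h2 := lin_lower hv₂ hw₂ hz₂ p
  have h0 : 0 < m * (1 + p.1 + p.2) := by positivity
  unfold shTerm
  rw [norm_cpow_eq_rpow_re_of_pos (mul_pos (h0.trans_le h1) (h0.trans_le h2)), neg_re]
  exact prod_le_maj hm (by linarith) p h1 h2

theorem zeta_int {z₁ v₁ w₁ z₂ v₂ w₂ m : ℝ} (hm : 0 < m) (hv₁ : m ≤ v₁) (hw₁ : m ≤ w₁)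
    (hz₁ : m ≤ z₁) (hv₂ : m ≤ v₂) (hw₂ : m ≤ w₂) (hz₂ : m ≤ z₂) {s : ℂ} (hs : 1 < s.re) :
    ContinuousOn (fun x => bt s s x * mel (cv z₁ z₂ x) (cv v₁ v₂ x) (cv w₁ w₂ x) (2 * s))
      (Icc 0 1) ∧
    ∫ x in (0 : ℝ)..1, bt s s x * mel (cv z₁ z₂ x) (cv v₁ v₂ x) (cv w₁ w₂ x) (2 * s) =
      Gamma s ^ 2 * ∑' p, shTerm z₁ v₁ w₁ z₂ v₂ w₂ s p := by
  set F : ℕ × ℕ → ℝ → ℂ := fun p x => Gamma (2 * s) * (bt s s x *
    ((cv (z₁ + p.1 * v₁ + p.2 * w₁) (z₂ + p.1 * v₂ + p.2 * w₂) x : ℝ) : ℂ) ^ (-(2 * s))) with hF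
  have hlow : ∀ (p : ℕ × ℕ) x, x ∈ Icc (0 : ℝ) 1 → m * (1 + p.1 + p.2) ≤
      cv (z₁ + p.1 * v₁ + p.2 * w₁) (z₂ + p.1 * v₂ + p.2 * w₂) x := fun p x hx =>
    le_cv (lin_lower hv₁ hw₁ hz₁ p) (lin_lower hv₂ hw₂ hz₂ p) hx
  have hpos : ∀ (p : ℕ × ℕ), 0 < m * (1 + p.1 + p.2) := fun p => by positivity
  obtain ⟨B, hB⟩ := isCompact_Icc.exists_bound_of_continuousOn
    ((bt_cont hs hs).continuousOn (s := Icc (0 : ℝ) 1))
  have hFc : ∀ p, ContinuousOn (F p) (Icc 0 1) := fun p => by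
    refine continuousOn_const.mul ((bt_cont hs hs).continuousOn.mul fun x hx => ?_)
    refine ContinuousAt.continuousWithinAt ?_
    refine ContinuousAt.comp (g := fun y : ℝ => (y : ℂ) ^ (-(2 * s)))
      (continuousAt_ofReal_cpow_const _ _ (Or.inr ((hpos p).trans_le (hlow p x hx)).ne')) ?_
    unfold cv; fun_prop
  have hsum : Summable fun p => ‖Gamma (2 * s)‖ * (B * ((m ^ 2) ^ (-s.re) * maj s.re p)) :=
    (((maj_summable hs).mul_left _).mul_left _).mul_left _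
  have hFb : ∀ p x, x ∈ Icc (0 : ℝ) 1 →
      ‖F p x‖ ≤ ‖Gamma (2 * s)‖ * (B * ((m ^ 2) ^ (-s.re) * maj s.re p)) := fun p x hx => by
    have h1 := sq_le_maj hm (σ := s.re) (by linarith) p (hlow p x hx)
    have h2 := (hpos p).trans_le (hlow p x hx)
    have h3 := hB x hx
    simp only [hF]
    rw [norm_mul, norm_mul, norm_cpow_eq_rpow_re_of_pos h2,
      show (-(2 * s)).re = -(2 * s.re) by simp]
    have h4 : 0 ≤ B := (norm_nonneg _).trans h3
    gcongr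
  have heq : ∀ x ∈ Icc (0 : ℝ) 1, bt s s x * mel (cv z₁ z₂ x) (cv v₁ v₂ x) (cv w₁ w₂ x) (2 * s) =
      ∑' p, F p x := fun x hx => by
    have h1 := (mel_hasSum hm (le_cv hv₁ hv₂ hx) (le_cv hw₁ hw₂ hx) (le_cv hz₁ hz₂ hx) hs).mul_left
      (bt s s x)
    rw [← h1.tsum_eq]
    refine tsum_congr fun p => ?_
    simp only [hF]
    rw [show cv z₁ z₂ x + p.1 * cv v₁ v₂ x + p.2 * cv w₁ w₂ x =
      cv (z₁ + p.1 * v₁ + p.2 * w₁) (z₂ + p.1 * v₂ + p.2 * w₂) x by unfold cv; ring]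
    ring
  refine ⟨(continuousOn_tsum hFc hsum hFb).congr heq, ?_⟩
  rw [intervalIntegral.integral_congr (g := fun x => ∑' p, F p x)
    (by rw [uIcc_of_le zero_le_one]; exact heq), ← (swap hFc hsum hFb).tsum_eq, ← tsum_mul_left]
  refine tsum_congr fun p => ?_
  simp only [hF]
  rw [intervalIntegral.integral_const_mul, feynman ((hpos p).trans_le (lin_lower hv₁ hw₁ hz₁ p))
    ((hpos p).trans_le (lin_lower hv₂ hw₂ hz₂ p)) hs, sq,
    Gamma_mul_Gamma_eq_betaIntegral (by linarith) (by linarith), two_mul, mul_assoc]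
  rfl

end SH1
end Pool.Agent.Lib.Stark
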