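import Pool.Agent.Lib.helper22.ZetaExt

namespace Pool.Agent.Lib.Stark.TK1

open Pool.Agent.Lib.helper22.PIT

section Riemann
open MeasureTheory Module Submodule Metric
open scoped NNReal

/-- Riemann sums of a Lipschitz function with bounded support over a scaled lattice. -/
theorem riemann_shift {E : Type*} [NormedAddCommGroup E] [NormedSpace ℝ E] [FiniteDimensional ℝ E]
    [MeasurableSpace E] [BorelSpace E] (μ : Measure E) [μ.IsAddHaarMeasure] {ι : Type*} [Fintype ι]
    (b : Basis ι ℝ E) (h : E → ℝ) (K : ℝ≥0) (hK : LipschitzWith K h) (R : ℝ) (hR0 : 0 ≤ R)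
    (hR : ∀ y, h y ≠ 0 → ‖y‖ ≤ R) (x : E) :
    ∃ C : ℝ, ∀ t : ℝ, 1 ≤ t →
      |∑' l : span ℤ (Set.range b), h (t⁻¹ • (x + (l : E))) -
        (∫ y, h y ∂μ) / μ.real (ZSpan.fundamentalDomain b) * t ^ finrank ℝ E|
        ≤ C * t ^ finrank ℝ E / t := by
  classical
  set D := ZSpan.fundamentalDomain b with hD
  set M : ℝ := ∑ i, ‖b i‖ + ‖x‖ with hM
  have hM0 : 0 ≤ M := add_nonneg (Finset.sum_nonneg fun i _ => norm_nonneg _) (norm_nonneg _)
  have hDfin : μ D ≠ ⊤ := (ZSpan.fundamentalDomain_isBounded b).measure_lt_top.ne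
  have hv : 0 < μ.real D :=
    ENNReal.toReal_pos (ZSpan.measure_fundamentalDomain_ne_zero b) hDfin
  set v := μ.real D with hvdef
  refine ⟨K * M * ((R + M) ^ finrank ℝ E * μ.real (closedBall 0 1)) / v,
    fun t ht => ?_⟩
  have ht0 : 0 < t := by linarith
  -- bound on h
  have hb : ∀ y, |h y| ≤ |h 0| + K * R := by
    intro y
    by_cases hy : h y = 0
    · rw [hy, abs_zero]; positivity
    · have h1 := hK.dist_le_mul y 0
      rw [Real.dist_eq, dist_zero_right] at h1
      have h2 := mul_le_mul_of_nonneg_left (hR y hy) K.2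
      have h3 := abs_add_le (h y - h 0) (h 0)
      simp only [sub_add_cancel] at h3
      simp only [NNReal.val_eq_coe] at h2
      linarith
  set B := closedBall (0 : E) (t * (R + M)) with hB
  have hBm : MeasurableSet B := measurableSet_closedBall
  have hBfin : μ B ≠ ⊤ := (isCompact_closedBall _ _).measure_lt_top.ne
  have hfr : ∀ y : E, ‖y - (x + (ZSpan.floor b y : E))‖ ≤ M := fun y => by
    rw [add_comm x, ← sub_sub]
    exact (norm_sub_le _ _).trans (add_le_add (ZSpan.norm_fract_le b y) le_rfl)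
  have hsupp : ∀ z : E, h (t⁻¹ • z) ≠ 0 → ‖z‖ ≤ t * R := by
    intro z hz
    have := hR _ hz
    rw [norm_smul, Real.norm_eq_abs, abs_of_pos (inv_pos.mpr ht0)] at this
    rwa [inv_mul_le_iff₀ ht0] at this
  have hF0 : ∀ y, y ∉ B → h (t⁻¹ • (x + (ZSpan.floor b y : E))) = 0 := by
    intro y hy
    by_contra hne
    apply hy
    rw [hB, mem_closedBall_zero_iff]
    have h1 := hsupp _ hne
    have h2 := hfr y
    have h3 : ‖y‖ ≤ ‖y - (x + (ZSpan.floor b y : E))‖ + ‖x + (ZSpan.floor b y : E)‖ := by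
      simpa using norm_add_le (y - (x + (ZSpan.floor b y : E))) (x + (ZSpan.floor b y : E))
    nlinarith
  have hG0 : ∀ y, y ∉ B → h (t⁻¹ • y) = 0 := by
    intro y hy
    by_contra hne
    apply hy
    rw [hB, mem_closedBall_zero_iff]
    have h1 := hsupp _ hne
    nlinarith
  have hint : ∀ g : E → E, Measurable g → (∀ y, y ∉ B → h (t⁻¹ • g y) = 0) →
      Integrable (fun y => h (t⁻¹ • g y)) μ := by
    intro g hg h0
    have hm : Measurable (fun y => h (t⁻¹ • g y)) :=
      hK.continuous.measurable.comp (hg.const_smul t⁻¹)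
    have : IntegrableOn (fun y => h (t⁻¹ • g y)) B μ :=
      Measure.integrableOn_of_bounded (M := |h 0| + K * R) hBfin hm.aestronglyMeasurable
        (Filter.Eventually.of_forall fun y => hb _)
    exact this.integrable_of_forall_notMem_eq_zero h0
  have hF := hint _ ((measurable_floor b).const_add x) hF0
  have hG := hint id measurable_id hG0
  simp only [id] at hG
  -- integral of F
  have e1 : ∫ y, h (t⁻¹ • (x + (ZSpan.floor b y : E))) ∂μ
      = v * ∑' l : span ℤ (Set.range b), h (t⁻¹ • (x + (l : E))) := by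
    have : VAddInvariantMeasure (span ℤ (Set.range b)) E μ :=
      inferInstanceAs (VAddInvariantMeasure (span ℤ (Set.range b)).toAddSubgroup E μ)
    rw [(ZSpan.isAddFundamentalDomain b μ).integral_eq_tsum'' _ hF, ← tsum_mul_left]
    refine tsum_congr fun l => ?_
    rw [setIntegral_congr_fun (ZSpan.fundamentalDomain_measurableSet b)
      (g := fun _ => h (t⁻¹ • (x + (l : E))))]
    · simp [hvdef, hD]
    · intro y hy
      have : (ZSpan.floor b (l +ᵥ y) : E) = l := by
        have h1 : ZSpan.fract b ((l : E) + y) = y := by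
          rw [ZSpan.fract_zSpan_add b y l.2, ZSpan.fract_eq_self.mpr hy]
        rw [ZSpan.fract_apply] at h1
        have h2 : (l +ᵥ y : E) = (l : E) + y := rfl
        rw [h2]
        have h3 : (ZSpan.floor b ((l : E) + y) : E) = ((l : E) + y) - y := by
          rw [eq_sub_iff_add_eq, add_comm, ← eq_sub_iff_add_eq]; exact h1.symm
        rw [h3]; abel
      simp only [this]
  have e2 : ∫ y, h (t⁻¹ • y) ∂μ = t ^ finrank ℝ E * ∫ y, h y ∂μ := by
    rw [Measure.integral_comp_smul, inv_pow, inv_inv, abs_of_pos (pow_pos ht0 _), smul_eq_mul]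
  have e3 : |∫ y, (h (t⁻¹ • (x + (ZSpan.floor b y : E))) - h (t⁻¹ • y)) ∂μ|
      ≤ K * M / t * μ.real B := by
    rw [← setIntegral_eq_integral_of_forall_compl_eq_zero (s := B)
      (fun y hy => by rw [hF0 y hy, hG0 y hy, sub_zero])]
    rw [← Real.norm_eq_abs]
    refine norm_setIntegral_le_of_norm_le_const (lt_top_iff_ne_top.mpr hBfin) fun y _ => ?_
    have h1 := hK.dist_le_mul (t⁻¹ • (x + (ZSpan.floor b y : E))) (t⁻¹ • y)
    rw [Real.dist_eq, dist_eq_norm, ← smul_sub, norm_smul, Real.norm_eq_abs,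
      abs_of_pos (inv_pos.mpr ht0), norm_sub_rev] at h1
    rw [Real.norm_eq_abs]
    refine h1.trans ?_
    rw [mul_div_assoc]
    refine mul_le_mul_of_nonneg_left ?_ K.2
    rw [div_eq_inv_mul]
    exact mul_le_mul_of_nonneg_left (hfr y) (inv_pos.mpr ht0).le
  rw [integral_sub hF hG, e1, e2] at e3
  rw [hB, Measure.addHaar_real_closedBall' μ _ (by positivity), mul_pow] at e3
  have e4 : ∑' l : span ℤ (Set.range b), h (t⁻¹ • (x + (l : E))) - (∫ y, h y ∂μ) / v * t ^ finrank ℝ E
      = (v * ∑' l : span ℤ (Set.range b), h (t⁻¹ • (x + (l : E)))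
        - t ^ finrank ℝ E * ∫ y, h y ∂μ) / v := by
    field_simp
  rw [e4, abs_div, abs_of_pos hv, div_le_iff₀ hv]
  refine e3.trans (le_of_eq ?_)
  field_simp

end Riemann

section Weight
open MeasureTheory Module Submodule Metric NumberField NumberField.InfinitePlace
  NumberField.mixedEmbedding NumberField.Units NumberField.Units.dirichletUnitTheorem
open scoped NNReal

open scoped Classical in
theorem exists_weight' (K : Type*) [Field K] [NumberField K] : ∃ (h : mixedSpace K → ℝ) (L : ℝ≥0) (R : ℝ), LipschitzWith L h ∧ 0 ≤ R ∧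
    (∀ y, h y ≠ 0 → ‖y‖ ≤ R) ∧ (∀ y, 0 ≤ h y) ∧
    (∀ y, mixedEmbedding.norm y = 0 → h y = 0) ∧ ∀ y, mixedEmbedding.norm y ≠ 0 →
      h y = tent (Real.log (mixedEmbedding.norm y)) * ∏ i, tent ((uB K).repr (logMap y) i) := by
  obtain ⟨A, -, hA⟩ := (coordL K).exists_antilipschitzWith (coordL_ker K)
  set P : (InfinitePlace K → ℝ) → ℝ := fun z => ∏ j, tent (coordL K z j) with hP
  have hPs : ∀ z, P z ≠ 0 → ∀ w, |z w| ≤ A := by
    intro z hz w
    have h1 : ‖coordL K z‖ ≤ 1 := by
      refine (pi_norm_le_iff_of_nonneg zero_le_one).mpr fun j => ?_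
      exact (abs_lt_of_tent (Finset.prod_ne_zero_iff.mp hz j (Finset.mem_univ j))).le
    have h2 := hA.le_mul_dist z 0
    rw [map_zero, dist_zero_right, dist_zero_right] at h2
    have h3 : |z w| ≤ ‖z‖ := norm_le_pi_norm z w
    have h4 := mul_le_mul_of_nonneg_left h1 A.2
    simp only [NNReal.val_eq_coe] at h4
    linarith
  set c0 : ℝ := Real.exp (-(A + 1)) with hc0
  have hc0p : 0 < c0 := Real.exp_pos _
  have hlc0 : Real.log c0 = -(A + 1) := Real.log_exp _
  set ℓ : mixedSpace K → InfinitePlace K → ℝ :=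
    fun y w => Real.log (max (normAtPlace w y) c0) with hℓ
  have hℓlip : LipschitzWith (Real.toNNReal c0⁻¹) ℓ := by
    refine LipschitzWith.of_dist_le_mul fun x y => ?_
    rw [Real.coe_toNNReal _ (inv_pos.mpr hc0p).le]
    refine (dist_pi_le_iff (by positivity)).mpr fun w => ?_
    rw [Real.dist_eq]
    refine (abs_log_sub_le hc0p (le_max_right _ _) (le_max_right _ _)).trans ?_
    refine mul_le_mul_of_nonneg_left ?_ (inv_pos.mpr hc0p).le
    refine (abs_max_sub_max_le_max _ _ _ _).trans ?_
    rw [sub_self, abs_zero]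
    exact max_le (abs_normAtPlace_sub K w x y) dist_nonneg
  have hcl := (LinearMap.toContinuousLinearMap (coordL K)).lipschitz
  have hsmall : ∀ y w, normAtPlace w y ≤ c0 → P (ℓ y) = 0 := by
    intro y w hw
    by_contra hne
    have := hPs _ hne w
    simp only [hℓ] at this
    rw [max_eq_right hw, hlc0, abs_neg, abs_of_nonneg (by positivity)] at this
    linarith
  refine ⟨fun y => P (ℓ y), _, Real.exp A, (lip_prod_tent.comp hcl).comp hℓlip,
    (Real.exp_pos _).le, ?_, fun y => Finset.prod_nonneg fun _ _ => tent_nonneg _, ?_, ?_⟩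
  · intro y hy
    rw [norm_eq_sup'_normAtPlace]
    refine Finset.sup'_le _ _ fun w _ => ?_
    have h1 := (le_abs_self _).trans (hPs _ hy w)
    simp only [hℓ] at h1
    rw [Real.log_le_iff_le_exp (lt_max_of_lt_right hc0p)] at h1
    exact (le_max_left _ _).trans h1
  · intro y hy
    obtain ⟨w, hw⟩ := mixedEmbedding.norm_eq_zero_iff.mp hy
    exact hsmall y w (hw.le.trans hc0p.le)
  · intro y hy
    have hy' := mixedEmbedding.norm_ne_zero_iff.mp hy
    have e1 : Real.log (mixedEmbedding.norm y)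
        = ∑ w, (mult w : ℝ) * Real.log (normAtPlace w y) := by
      rw [mixedEmbedding.norm_apply, Real.log_prod (fun w _ => pow_ne_zero _ (hy' w))]
      simp
    have e2 : tent (Real.log (mixedEmbedding.norm y)) * ∏ i, tent ((uB K).repr (logMap y) i)
        = P (fun w => Real.log (normAtPlace w y)) := by
      simp only [hP]
      rw [Fintype.prod_option, e1]
      congr 1
      refine Finset.prod_congr rfl fun i _ => ?_
      congr 1
      change ((uB K).repr _) i = ((uB K).repr _) i
      congr 2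
      funext w
      rw [logMap_apply, e1]
    rw [e2]
    by_cases hs : ∃ w, normAtPlace w y ≤ c0
    · obtain ⟨w, hw⟩ := hs
      simp only
      rw [hsmall y w hw]
      by_contra hne
      have h1 := hPs _ (Ne.symm hne) w
      have h2 : 0 < normAtPlace w y := lt_of_le_of_ne (normAtPlace_nonneg w y) (hy' w).symm
      have h3 := Real.log_le_log h2 hw
      have h4 := (abs_le.mp h1).1
      linarith
    · push Not at hs
      simp only
      congr 1
      funext w
      simp only [hℓ]
      rw [max_eq_left (hs w).le]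

end Weight

section Ext
open MeasureTheory Set Filter Topology Complex Asymptotics

theorem ext_value (a : ℕ → ℝ) (ha : ∀ n, 0 ≤ a n)
    (hsum : ∀ s : ℂ, 1 < s.re → LSeriesSummable (fun n => (a n : ℂ)) s) (c C θ : ℝ) (hθ : θ < 1)
    (hZ : ∀ X : ℝ, 1 ≤ X → |∑' m : ℕ, a m * wt X m - c * X| ≤ C * X ^ θ) :
    ∃ H : ℂ → ℂ, DifferentiableOn ℂ H {s | max θ 0 < s.re} ∧
      (∀ s : ℂ, 1 < s.re → H s = (s - 1) * LSeries (fun n => (a n : ℂ)) s) ∧
      H 1 = c / (exp 1 + exp (-1) - 2) := by
  set Z : ℝ → ℂ := fun X => ((∑' m, a m * wt X m : ℝ) : ℂ) with hZdef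
  set P : ℝ → ℂ := indicator (Ioi 1) (fun X => (c : ℂ) * X) with hP
  have hZc : ContinuousOn Z (Ioi 0) := continuous_ofReal.comp_continuousOn (continuousOn_Z a)
  have hPi : LocallyIntegrableOn P (Ioi 0) := by
    refine LocallyIntegrable.locallyIntegrableOn ?_ _
    exact LocallyIntegrable.indicator (Continuous.locallyIntegrable (by fun_prop)) measurableSet_Ioi
  have hEi : LocallyIntegrableOn (fun X => Z X - P X) (Ioi 0) :=
    (hZc.locallyIntegrableOn measurableSet_Ioi).sub hPi
  have hEtop : (fun X => Z X - P X) =O[atTop] (· ^ (-(-θ))) := by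
    refine IsBigO.of_bound C ?_
    filter_upwards [eventually_gt_atTop 1] with X hX
    rw [hP, indicator_of_mem (show X ∈ Ioi (1 : ℝ) from hX), neg_neg, ← ofReal_mul, hZdef]
    simp only
    rw [← ofReal_sub, norm_real, Real.norm_eq_abs,
      Real.norm_of_nonneg (Real.rpow_nonneg (by linarith) _)]
    exact hZ X hX.le
  have hEbot : ∀ g : ℝ → ℝ, (fun X => Z X - P X) =O[𝓝[>] 0] g := by
    intro g
    refine isBigO_of_eventually_zero g (ev_small.mono fun X hX => ?_)
    have h1 : X ≤ 1 := hX.2.trans (Real.exp_le_one_iff.mpr (by norm_num))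
    rw [hP, indicator_of_notMem (show X ∉ Ioi (1 : ℝ) from not_lt.mpr h1), sub_zero, hZdef]
    simp only [ofReal_eq_zero]
    have : ∀ m : ℕ, a m * wt X m = 0 := by
      intro m
      by_cases hm : m = 0
      · simp [wt, hm]
      · rw [wt_eq_zero hX.1, mul_zero]
        have h2 : (1 : ℝ) ≤ m := Nat.one_le_cast.mpr (Nat.pos_of_ne_zero hm)
        have h3 : Real.exp 1 * Real.exp (-1) = 1 := by rw [← Real.exp_add]; simp
        nlinarith [Real.exp_pos 1, hX.2]
    simp [this]
  refine ⟨fun s => ((s - 1) * mellin (fun X => Z X - P X) (-s) + c)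
    * s ^ 2 / (exp s + exp (-s) - 2), fun s hs => ?_, fun s hs => ?_, by simp⟩
  · have hs1 : θ < s.re := (le_max_left _ _).trans_lt hs
    have hs2 : 0 < s.re := (le_max_right _ _).trans_lt hs
    have h1 : DifferentiableAt ℂ (mellin (fun X => Z X - P X)) (-s) :=
      mellin_differentiableAt_of_isBigO_rpow (b := -s.re - 1) hEi hEtop (by simpa using hs1)
        (hEbot _) (by simp)
    have h2 : DifferentiableAt ℂ (fun s => mellin (fun X => Z X - P X) (-s)) s :=
      h1.comp s differentiableAt_id.neg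
    refine DifferentiableAt.differentiableWithinAt ?_
    exact DifferentiableAt.div (by fun_prop) (by fun_prop) (exp_add_exp_ne hs2)
  · have hs0 : s ≠ 0 := by rintro rfl; simp at hs; linarith
    have hs1 : s - 1 ≠ 0 := by
      intro h; rw [sub_eq_zero] at h; rw [h] at hs; simp at hs
    have hEc : MellinConvergent (fun X => Z X - P X) (-s) :=
      mellinConvergent_of_isBigO_rpow (b := -s.re - 1) hEi hEtop (by simp; linarith)
        (hEbot _) (by simp)
    have hfun : (fun X : ℝ => (X : ℂ) ^ (-s - 1) • P X)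
        = indicator (Ioi 1) (fun X : ℝ => (c : ℂ) * (X : ℂ) ^ (-s)) := by
      funext X
      by_cases hX : X ∈ Ioi (1 : ℝ)
      · have hX0 : (X : ℂ) ≠ 0 := ofReal_ne_zero.mpr (by linarith [mem_Ioi.mp hX])
        rw [hP, indicator_of_mem hX, indicator_of_mem hX, cpow_sub _ _ hX0, cpow_one, smul_eq_mul]
        field_simp
      · rw [hP, indicator_of_notMem hX, indicator_of_notMem hX, smul_zero]
    have hre : (-s).re < -1 := by simpa using hs
    have hPc : MellinConvergent P (-s) := by
      rw [MellinConvergent, hfun]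
      refine Integrable.integrableOn ?_
      rw [integrable_indicator_iff measurableSet_Ioi]
      exact (integrableOn_Ioi_cpow_of_lt hre one_pos).const_mul _
    have hPm : mellin P (-s) = c / (s - 1) := by
      rw [mellin, hfun, setIntegral_indicator measurableSet_Ioi, Ioi_inter_Ioi,
        max_eq_right zero_le_one, integral_const_mul, integral_Ioi_cpow_of_lt hre one_pos]
      simp only [ofReal_one, one_cpow]
      have : -s + 1 ≠ 0 := by intro h; apply hs1; linear_combination -h
      field_simp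
      ring
    have h1 := (hasMellin_add hEc hPc).2
    simp only [sub_add_cancel] at h1
    have h2 := hasMellin_Z a ha hsum hs
    rw [mellin_bump hs0] at h2
    have h3 := exp_add_exp_ne (s := s) (by linarith)
    have h4 : mellin (fun X => Z X - P X) (-s)
        = LSeries (fun n => (a n : ℂ)) s * ((exp s + exp (-s) - 2) / s ^ 2) - c / (s - 1) := by
      rw [← h2, ← hPm, eq_sub_iff_add_eq, ← h1]
    simp only
    rw [h4]
    field_simp
    ring

lemma coef_unique {Z : ℝ → ℝ} {c c' C C' θ : ℝ} (hθ : θ < 1)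
    (h : ∀ X : ℝ, 1 ≤ X → |Z X - c * X| ≤ C * X ^ θ)
    (h' : ∀ X : ℝ, 1 ≤ X → |Z X - c' * X| ≤ C' * X ^ θ) : c = c' := by
  have h1 : Tendsto (fun X : ℝ => (C + C') * X ^ (-(1 - θ))) atTop (𝓝 ((C + C') * 0)) :=
    (tendsto_rpow_neg_atTop (by linarith)).const_mul _
  rw [mul_zero] at h1
  have h2 : |c - c'| ≤ 0 := ge_of_tendsto h1 (by
    filter_upwards [eventually_ge_atTop 1] with X hX
    have hX0 : 0 < X := by linarith
    have h3 : |(c - c') * X| ≤ (C + C') * X ^ θ := by
      have h4 := abs_sub (Z X - c' * X) (Z X - c * X)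
      have h5 : Z X - c' * X - (Z X - c * X) = (c - c') * X := by ring
      rw [h5] at h4
      linarith [h X hX, h' X hX]
    rw [abs_mul, abs_of_pos hX0, ← le_div_iff₀ hX0] at h3
    rwa [neg_sub, Real.rpow_sub hX0, Real.rpow_one, ← mul_div_assoc])
  exact sub_eq_zero.1 (abs_nonpos_iff.1 h2)

lemma hasSum_fiber {X Y R : Type*} [NormedField R] [CompleteSpace R] (e : X → Y) (g : Y → R)
    {S : R} (hs : HasSum (fun x => g (e x)) S) :
    HasSum (fun y => ((e ⁻¹' {y}).ncard : R) * g y) S := by
  refine (hs.tsum_fiberwise e).congr_fun fun y => ?_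
  have : ∀ z : e ⁻¹' {y}, g (e z) = g y := by
    rintro ⟨z, rfl⟩; rfl
  rw [tsum_congr this, tsum_const, nsmul_eq_mul]
  rfl

end Ext

end Pool.Agent.Lib.Stark.TK1
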