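import Pool.Agent.Lib.stark.TK1a

namespace Pool.Agent.Lib.Stark.TK1

open Pool.Agent.Lib.helper22.PIT
open MeasureTheory Module Submodule Metric NumberField NumberField.InfinitePlace
  NumberField.mixedEmbedding NumberField.Units
open scoped NNReal nonZeroDivisors

variable {K : Type} [Field K] [NumberField K]

/-- The image of an integer in the mixed space. -/
noncomputable abbrev em (β : 𝓞 K) : mixedSpace K := mixedEmbedding K (β : K)

open scoped Classical in
lemma summable_em {f : mixedSpace K → ℝ} {R : ℝ} (hR : ∀ y, f y ≠ 0 → ‖y‖ ≤ R) {t : ℝ}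
    (ht : 0 < t) (c : 𝓞 K → ℝ) : Summable fun β : 𝓞 K => c β * f (t⁻¹ • em β) := by
  refine summable_of_hasFiniteSupport ?_
  have hfin := ZSpan.setFinite_inter (latticeBasis K) (isBounded_closedBall
    (x := (0 : mixedSpace K)) (r := t * R))
  refine Set.Finite.of_finite_image (f := em) (hfin.subset ?_) fun a _ b _ h =>
    RingOfIntegers.ext (mixedEmbedding_injective K h)
  rintro _ ⟨β, hβ, rfl⟩
  refine ⟨?_, (mem_span_latticeBasis K).2 ⟨β, rfl⟩⟩
  have := hR _ (right_ne_zero_of_mul hβ)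
  rw [_root_.norm_smul, Real.norm_eq_abs, abs_of_pos (inv_pos.mpr ht), inv_mul_le_iff₀ ht] at this
  simpa using this

variable (K) in
open scoped Classical in
/-- Covolume of the ring of integers. -/
noncomputable def v0 : ℝ := volume.real (ZSpan.fundamentalDomain (latticeBasis K))

open scoped Classical in
lemma v0_pos : 0 < v0 K :=
  ENNReal.toReal_pos (ZSpan.measure_fundamentalDomain_ne_zero _)
    (ZSpan.fundamentalDomain_isBounded _).measure_lt_top.ne

open scoped Classical in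
lemma riemann_coset {f : mixedSpace K → ℝ} {L : ℝ≥0} (hL : LipschitzWith L f) {R : ℝ} (hR0 : 0 ≤ R)
    (hR : ∀ y, f y ≠ 0 → ‖y‖ ≤ R) {A : Ideal (𝓞 K)} (hA : A ≠ ⊥) (x : 𝓞 K) :
    ∃ C : ℝ, ∀ t : ℝ, 1 ≤ t →
      |∑' β : 𝓞 K, (if β - x ∈ A then 1 else 0) * f (t⁻¹ • em β) -
        (∫ y, f y) / (Ideal.absNorm A * v0 K) * t ^ finrank ℚ K| ≤ C * t ^ finrank ℚ K / t := by
  let J : (Ideal (𝓞 K))⁰ := ⟨A, mem_nonZeroDivisors_of_ne_zero hA⟩
  set b := fractionalIdealLatticeBasis K (FractionalIdeal.mk0 K J) with hb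
  obtain ⟨C, hC⟩ := riemann_shift volume b f L hL R hR0 hR (em x)
  refine ⟨C, fun t ht => ?_⟩
  have h1 := hC t ht
  rw [mixedEmbedding.finrank] at h1
  have hv : volume.real (ZSpan.fundamentalDomain b) = Ideal.absNorm A * v0 K := by
    rw [Measure.real, hb, volume_fundamentalDomain_fractionalIdealLatticeBasis, ENNReal.toReal_mul,
      ENNReal.toReal_ofReal (Rat.cast_nonneg.mpr (FractionalIdeal.absNorm_nonneg _))]
    simp [J, FractionalIdeal.coeIdeal_absNorm, v0, Measure.real]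
  have hmem : ∀ a : A, em (a : 𝓞 K) ∈ span ℤ (Set.range b) := by
    intro a
    rw [hb, mem_span_fractionalIdealLatticeBasis]
    refine ⟨((a : 𝓞 K) : K), ?_, rfl⟩
    simp [J]
  let e : A ≃ span ℤ (Set.range b) := Equiv.ofBijective
    (fun a => ⟨_, hmem a⟩) (by
      constructor
      · intro a a' haa
        have := mixedEmbedding_injective K (congrArg Subtype.val haa)
        exact Subtype.ext (RingOfIntegers.ext this)
      · rintro ⟨x, hx⟩
        rw [hb, mem_span_fractionalIdealLatticeBasis] at hx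
        obtain ⟨y, hy, rfl⟩ := hx
        simp only [FractionalIdeal.coe_mk0, SetLike.mem_coe, FractionalIdeal.mem_coeIdeal] at hy
        obtain ⟨a, ha, rfl⟩ := hy
        exact ⟨⟨a, ha⟩, rfl⟩)
  have hinj : Function.Injective fun a : A => x + (a : 𝓞 K) :=
    fun a a' h => Subtype.ext (add_left_cancel h)
  rw [← hv, ← hinj.tsum_eq (f := fun β => (if β - x ∈ A then 1 else 0) * f (t⁻¹ • em β))]
  · rw [← e.tsum_eq] at h1
    convert h1 using 4
    funext a
    rw [add_sub_cancel_left, if_pos a.2, one_mul]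
    congr 2
    change mixedEmbedding K ((x + a : 𝓞 K) : K) = mixedEmbedding K x + mixedEmbedding K (a : 𝓞 K)
    rw [← map_add]
    simp
  · intro β hβ
    have : β - x ∈ A := by
      by_contra h
      simp [h] at hβ
    exact ⟨⟨_, this⟩, by simp⟩

/-- The signs at the real places. -/
noncomputable def sgn (y : mixedSpace K) : {w : InfinitePlace K // w.IsReal} → Prop :=
  fun w => 0 < y.1 w

omit [NumberField K] in
lemma sgn_smul {t : ℝ} (ht : 0 < t) (y : mixedSpace K) : sgn (t • y) = sgn y := by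
  funext w; simp [sgn, ht]

open scoped Classical in
lemma lip_sgn {h : mixedSpace K → ℝ} {L : ℝ≥0} (hL : LipschitzWith L h)
    (h0 : ∀ y, mixedEmbedding.norm y = 0 → h y = 0) (ε : {w : InfinitePlace K // w.IsReal} → Prop) :
    LipschitzWith L fun y => (if sgn y = ε then 1 else 0) * h y := by
  let p : mixedSpace K → mixedSpace K := fun y =>
    (fun w => if ε w then max (y.1 w) 0 else min (y.1 w) 0, y.2)
  have hp : LipschitzWith 1 p := by
    refine LipschitzWith.of_dist_le_mul fun x y => ?_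
    rw [NNReal.coe_one, one_mul, Prod.dist_eq, Prod.dist_eq]
    refine max_le_max ((dist_pi_le_iff dist_nonneg).2 fun w => ?_) le_rfl
    refine le_trans ?_ (dist_le_pi_dist x.1 y.1 w)
    simp only [p, Real.dist_eq]
    split_ifs
    · exact abs_max_sub_max_le_abs _ _ _
    · simpa using abs_min_sub_min_le_max (x.1 w) 0 (y.1 w) 0
  have := hL.comp hp
  rw [mul_one] at this
  convert this using 1
  funext y
  simp only [Function.comp]
  split_ifs with hy
  · rw [one_mul]
    congr 1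
    refine Prod.ext (funext fun w => ?_) rfl
    have : ε w ↔ 0 < y.1 w := by rw [← hy]; rfl
    simp only [p, this]
    split_ifs with h1
    · exact (max_eq_left h1.le).symm
    · exact (min_eq_left (not_lt.1 h1)).symm
  · obtain ⟨w, hw⟩ := Function.ne_iff.1 hy
    rw [zero_mul, h0]
    refine mixedEmbedding.norm_eq_zero_iff.2 ⟨w.1, ?_⟩
    rw [normAtPlace_apply_of_isReal w.2, norm_eq_zero]
    simp only [p]
    simp only [sgn, ne_eq, eq_iff_iff] at hw
    split_ifs with h1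
    · exact max_eq_right (not_lt.1 fun h2 => hw (by simp [h1, h2]))
    · exact min_eq_right (by by_contra h2; exact hw (by simp [h1]; linarith))

omit [NumberField K] in
lemma mul_pos_of_sgn {a b : 𝓞 K} (ha : a ≠ 0) (hb : b ≠ 0) (h : sgn (em a) = sgn (em b))
    (τ : K →+* ℝ) : 0 < τ a * τ b := by
  have hφ : ComplexEmbedding.IsReal (Complex.ofRealHom.comp τ) := by
    ext x; simp
  have h1 : ∀ x : K, (mixedEmbedding K x).1 ⟨_, isReal_mk_iff.2 hφ⟩ = τ x := fun x => by
    rw [mixedEmbedding_apply_isReal, ← Complex.ofReal_inj, embedding_of_isReal_apply,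
      embedding_mk_eq_of_isReal hφ]
    rfl
  have h2 := congrFun h ⟨_, isReal_mk_iff.2 hφ⟩
  simp only [sgn, h1, eq_iff_iff] at h2
  have ha' : τ a ≠ 0 := by simpa using ha
  have hb' : τ b ≠ 0 := by simpa using hb
  rcases ha'.lt_or_gt with h3 | h3
  · exact mul_pos_of_neg_of_neg h3 (lt_of_le_of_ne (not_lt.1 fun h4 => h3.not_gt (h2.2 h4)) hb')
  · exact mul_pos h3 (h2.1 h3)

open scoped Classical in
lemma hasSum_principal {h : mixedSpace K → ℝ} {R : ℝ} (hR : ∀ y, h y ≠ 0 → ‖y‖ ≤ R) (h0 : h 0 = 0)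
    (hh : ∀ y, mixedEmbedding.norm y ≠ 0 →
      h y = tent (Real.log (mixedEmbedding.norm y)) * ∏ i, tent ((uB K).repr (logMap y) i))
    (Ψ : Ideal (𝓞 K) → ℝ) {t : ℝ} (ht : 0 < t) :
    HasSum (fun A : Ideal (𝓞 K) => if A.IsPrincipal then
        Ψ A * ((torsionOrder K : ℝ) * wt (t ^ finrank ℚ K) (Ideal.absNorm A)) else 0)
      (∑' β : 𝓞 K, Ψ (Ideal.span {β}) * h (t⁻¹ • em β)) := by
  refine ((summable_em hR ht fun β => Ψ (Ideal.span {β})).hasSum.tsum_fiberwise
    fun β => Ideal.span {β}).congr_fun fun A => ?_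
  split_ifs with hp
  · obtain ⟨a, rfl⟩ := hp
    change Ψ (Ideal.span {a}) * (_ * wt _ (Ideal.absNorm (Ideal.span {a}))) =
      ∑' β : (fun β : 𝓞 K => Ideal.span {β}) ⁻¹' {Ideal.span {a}}, _
    by_cases ha : a = 0
    · subst ha
      have : ∀ β : (fun β : 𝓞 K => Ideal.span {β}) ⁻¹' {Ideal.span {0}},
          Ψ (Ideal.span {β.1}) * h (t⁻¹ • em β.1) = 0 := by
        rintro ⟨β, hβ⟩
        have h1 : β = 0 := by simpa using hβ
        simp [h1, h0, em]
      simp only [this, tsum_zero]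
      simp [wt]
    · have hm : ∀ u : (𝓞 K)ˣ, (u : 𝓞 K) * a ∈
          (fun β : 𝓞 K => Ideal.span {β}) ⁻¹' {Ideal.span {a}} := fun u =>
        Ideal.span_singleton_eq_span_singleton.2 (associated_unit_mul_left a u u.isUnit)
      let e : (𝓞 K)ˣ ≃ (fun β : 𝓞 K => Ideal.span {β}) ⁻¹' {Ideal.span {a}} :=
        Equiv.ofBijective (fun u => ⟨_, hm u⟩) (by
          constructor
          · intro u v huv
            exact Units.ext (mul_right_cancel₀ ha (congrArg Subtype.val huv))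
          · rintro ⟨β, hβ⟩
            obtain ⟨u, hu⟩ := (Ideal.span_singleton_eq_span_singleton.1 hβ).symm
            exact ⟨u, Subtype.ext (by simp [← hu, mul_comm])⟩)
      rw [← e.tsum_eq]
      set y := t⁻¹ • em a with hy
      have hI0 : Ideal.absNorm (Ideal.span {a}) ≠ 0 := by
        rwa [Ne, Ideal.absNorm_eq_zero_iff, Ideal.span_singleton_eq_bot]
      have hny : mixedEmbedding.norm y = Ideal.absNorm (Ideal.span {a}) / t ^ finrank ℚ K := by
        rw [hy, mixedEmbedding.norm_smul, abs_of_pos (inv_pos.mpr ht), inv_pow,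
          Ideal.absNorm_span_singleton, norm_eq_norm, ← Algebra.coe_norm_int, div_eq_inv_mul]
        simp
      have hy0 : mixedEmbedding.norm y ≠ 0 := by
        rw [hny]; exact div_ne_zero (Nat.cast_ne_zero.mpr hI0) (pow_pos ht _).ne'
      have h3 := (hasSum_units K hh y hy0).tsum_eq
      rw [hny] at h3
      rw [wt, if_neg hI0, ← h3, ← tsum_mul_left]
      refine tsum_congr fun u => ?_
      rw [show Ideal.span {(e u : 𝓞 K)} = Ideal.span {a} from hm u]
      congr 2
      change mixedEmbedding K ((u : 𝓞 K) : K) * (t⁻¹ • mixedEmbedding K (a : K))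
        = t⁻¹ • mixedEmbedding K (((u : 𝓞 K) * a : 𝓞 K) : K)
      rw [mul_smul_comm]
      simp
  · have : IsEmpty ((fun β : 𝓞 K => Ideal.span {β}) ⁻¹' {A}) := ⟨fun a => hp ⟨⟨_, a.2.symm⟩⟩⟩
    simp

open scoped Classical in
/-- Smooth count of the elements of `J` with a property that depends only on the residue modulo
`m` and on the signs. -/
lemma count_elements {h : mixedSpace K → ℝ} {L : ℝ≥0} (hL : LipschitzWith L h) {R : ℝ}
    (hR0 : 0 ≤ R) (hR : ∀ y, h y ≠ 0 → ‖y‖ ≤ R) (hpos : ∀ y, 0 ≤ h y) (h1 : h 1 ≠ 0)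
    (h0 : ∀ y, mixedEmbedding.norm y = 0 → h y = 0) {m : Ideal (𝓞 K)} (hm : m ≠ ⊥)
    (q : 𝓞 K → Prop) (hq : ∀ a b, q a → b ≠ 0 → a - b ∈ m → sgn (em a) = sgn (em b) → q b) :
    ∃ G : ℝ, 0 ≤ G ∧ (q 1 → 0 < G) ∧ ∀ J : Ideal (𝓞 K), J ≠ ⊥ → J ⊔ m = ⊤ → ∃ C : ℝ, ∀ t : ℝ, 1 ≤ t →
      |∑' β : 𝓞 K, (if β ∈ J ∧ q β then 1 else 0) * h (t⁻¹ • em β) -
        G / Ideal.absNorm J * t ^ finrank ℚ K| ≤ C * t ^ finrank ℚ K / t := by
  have : Finite (𝓞 K ⧸ m) := Ideal.finiteQuotientOfFreeOfNeBot m hm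
  let _ : Fintype (𝓞 K ⧸ m) := Fintype.ofFinite _
  let T : Finset ((𝓞 K ⧸ m) × ({w : InfinitePlace K // w.IsReal} → Prop)) :=
    Finset.univ.filter fun x => ∃ a, q a ∧ Ideal.Quotient.mk m a = x.1 ∧ sgn (em a) = x.2
  let f : ({w : InfinitePlace K // w.IsReal} → Prop) → mixedSpace K → ℝ :=
    fun ε y => (if sgn y = ε then 1 else 0) * h y
  have hf0 : ∀ ε y, 0 ≤ f ε y := fun ε y => mul_nonneg (by split_ifs <;> simp) (hpos y)
  have hfR : ∀ ε y, f ε y ≠ 0 → ‖y‖ ≤ R := fun ε y hy => hR y (right_ne_zero_of_mul hy)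
  have hN : (0 : ℝ) < Ideal.absNorm m * v0 K := mul_pos (Nat.cast_pos.2 (Nat.pos_of_ne_zero
    (by rwa [Ne, Ideal.absNorm_eq_zero_iff]))) v0_pos
  have hnn : ∀ x ∈ T, 0 ≤ (∫ y, f x.2 y) / (Ideal.absNorm m * v0 K) :=
    fun x _ => div_nonneg (integral_nonneg (hf0 _)) hN.le
  refine ⟨∑ x ∈ T, (∫ y, f x.2 y) / (Ideal.absNorm m * v0 K), Finset.sum_nonneg hnn,
    fun hq1 => Finset.sum_pos' hnn ⟨(1, sgn 1), ?_, div_pos ?_ hN⟩, fun J hJ hJm => ?_⟩
  · simp only [T, Finset.mem_filter, Finset.mem_univ, true_and]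
    exact ⟨1, hq1, by simp, by simp [em]⟩
  · refine (lip_sgn hL h0 _).continuous.integral_pos_of_hasCompactSupport_nonneg_nonzero (x := 1)
      (HasCompactSupport.intro (isCompact_closedBall 0 R) fun y hy => ?_) (hf0 _)
      (by simpa [f] using h1)
    by_contra h2
    exact hy (mem_closedBall_zero_iff.2 (hfR _ y h2))
  have hrep : ∀ ρ : 𝓞 K ⧸ m, ∃ x ∈ J, Ideal.Quotient.mk m x = ρ := fun ρ => by
    obtain ⟨z, rfl⟩ := Ideal.Quotient.mk_surjective ρ
    obtain ⟨x, hx, y, hy, rfl⟩ := Submodule.mem_sup.1 (hJm.ge (Submodule.mem_top (x := z)))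
    exact ⟨x, hx, by rw [map_add, Ideal.Quotient.eq_zero_iff_mem.2 hy, add_zero]⟩
  choose r hrJ hr using hrep
  choose C hC using fun x : (𝓞 K ⧸ m) × ({w : InfinitePlace K // w.IsReal} → Prop) =>
    riemann_coset (lip_sgn hL h0 x.2) hR0 (hfR x.2) (mul_ne_zero hJ hm) (r x.1)
  refine ⟨∑ x ∈ T, C x, fun t ht => ?_⟩
  have ht0 : 0 < t := by linarith
  have e1 : ∀ β : 𝓞 K, (if β ∈ J ∧ q β then 1 else 0) * h (t⁻¹ • em β) =
      ∑ x ∈ T, (if β - r x.1 ∈ J * m then 1 else 0) * f x.2 (t⁻¹ • em β) := fun β => by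
    by_cases hβ : β = 0
    · have : h 0 = 0 := h0 0 (by simp)
      simp [hβ, f, em, this]
    have key : ∀ ρ, β - r ρ ∈ J * m ↔ β ∈ J ∧ Ideal.Quotient.mk m β = ρ := fun ρ => by
      rw [Ideal.mul_eq_inf_of_isCoprime (Ideal.isCoprime_iff_sup_eq.2 hJm), Submodule.mem_inf,
        ← Ideal.Quotient.eq (I := m), hr, Submodule.sub_mem_iff_left _ (hrJ ρ)]
    have hT : (Ideal.Quotient.mk m β, sgn (em β)) ∈ T ↔ q β := by
      simp only [T, Finset.mem_filter, Finset.mem_univ, true_and]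
      exact ⟨fun ⟨a, h2, h3, h4⟩ => hq a β h2 hβ (Ideal.Quotient.eq.1 h3) h4,
        fun h2 => ⟨β, h2, rfl, rfl⟩⟩
    by_cases hqβ : q β
    swap
    · rw [if_neg fun h2 => hqβ h2.2, zero_mul, eq_comm]
      refine Finset.sum_eq_zero fun x hx => ?_
      simp only [key, f, sgn_smul (inv_pos.2 ht0)]
      split_ifs with h2 h3
      · exact absurd (hT.1 (by rwa [h2.2, h3])) hqβ
      all_goals simp
    rw [Finset.sum_eq_single (Ideal.Quotient.mk m β, sgn (em β))]
    · simp only [key, f, sgn_smul (inv_pos.2 ht0), and_true, if_true, one_mul, hqβ]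
    · rintro ⟨ρ, ε⟩ _ hne
      simp only [key, f, sgn_smul (inv_pos.2 ht0)]
      split_ifs with h2 h3
      · exact absurd (Prod.ext h2.2.symm h3.symm) hne
      all_goals simp
    · exact fun h2 => absurd (hT.2 hqβ) h2
  rw [tsum_congr e1, Summable.tsum_finsetSum fun x _ => summable_em (hfR x.2) ht0 _,
    Finset.sum_div, Finset.sum_mul, ← Finset.sum_sub_distrib, Finset.sum_mul, Finset.sum_div]
  refine (Finset.abs_sum_le_sum_abs _ _).trans (Finset.sum_le_sum fun x _ => ?_)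
  have := hC x t ht
  rwa [map_mul, Nat.cast_mul, mul_assoc, mul_comm (Ideal.absNorm J : ℝ), ← div_div] at this

end Pool.Agent.Lib.Stark.TK1
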